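import Pool.Agent.Lib.MP_afdd4d_co.K9.Col
import Pool.Agent.Lib.MP_afdd4d_co.K8.KFInv
import Pool.Agent.Lib.MP_afdd4d_co.K8.F6Chk

/-!
# Coloured kernels with four roots

The pattern of four roots consists of their colours and of their memberships in the 4-graph and in
the even 4-graph.  The code of a further vertex consists of its colour and of the bits of the four
triples of roots with this vertex, for the difference and for the even 4-graph.
-/

namespace Pool.Agent.Lib.MP_afdd4d_co.K9.Star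

open Finset K8

/-! ### Bits of four roots and a vertex -/

section bits
variable {n : ℕ} (H : Finset (Finset (Fin n)))

/-- The bit of the quadruple of the roots. -/
def q4 (s : Fin 4 → Fin n) : Bool := zb H s univ

/-- The bit of the triple number `r` with the vertex `u`. -/
def l4 (s : Fin 4 → Fin n) (u : Fin n) (r : ℕ) : Bool :=
  zb H (Fin.snoc s u : Fin 5 → Fin n) (q6 5 (1 + r))

/-- The exchange of two neighbouring positions. -/
def ex5 (i : Fin 3) : Equiv.Perm (Fin 5) := Equiv.swap i.castSucc.castSucc i.succ.castSucc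

theorem snoc5_comp (s : Fin 4 → Fin n) (u : Fin n) (i : Fin 3) :
    (Fin.snoc (s ∘ Equiv.swap i.castSucc i.succ) u : Fin 5 → Fin n) =
      (Fin.snoc s u : Fin 5 → Fin n) ∘ ex5 i := by
  funext j
  have h1 : ∀ (a b x : Fin 4), Fin.castSucc (Equiv.swap a b x) =
      Equiv.swap a.castSucc b.castSucc x.castSucc := by
    intro a b x
    by_cases hxa : x = a
    · rw [hxa, Equiv.swap_apply_left, Equiv.swap_apply_left]
    · by_cases hxb : x = b
      · rw [hxb, Equiv.swap_apply_right, Equiv.swap_apply_right]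
      · rw [Equiv.swap_apply_of_ne_of_ne hxa hxb, Equiv.swap_apply_of_ne_of_ne]
        · exact fun h => hxa (Fin.castSucc_injective _ h)
        · exact fun h => hxb (Fin.castSucc_injective _ h)
  refine Fin.lastCases ?_ (fun j => ?_) j
  · rw [Fin.snoc_last, Function.comp_apply]
    have : ex5 i (Fin.last 4) = Fin.last 4 := by
      unfold ex5
      rw [Equiv.swap_apply_of_ne_of_ne]
      · exact fun h => Fin.castSucc_ne_last _ h.symm
      · exact fun h => Fin.castSucc_ne_last _ h.symm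
    rw [this, Fin.snoc_last]
  · rw [Fin.snoc_castSucc, Function.comp_apply, Function.comp_apply]
    unfold ex5
    rw [← h1, Fin.snoc_castSucc]

theorem q4_ex (s : Fin 4 → Fin n) (i : Fin 3) :
    q4 H (s ∘ Equiv.swap i.castSucc i.succ) = q4 H s := by
  unfold q4
  rw [zb_comp]
  congr 1
  exact Finset.image_univ_equiv _

/-- The action on the four triples. -/
def p4L : List (List ℕ) := [[0, 1, 3, 2], [0, 2, 1, 3], [1, 0, 2, 3]]

/-- The action on the four triples. -/
def p4 (i r : ℕ) : ℕ := nthG 0 (nthG [] p4L i) r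

theorem p4_geo : ∀ i : Fin 3, ∀ r < 4, p4 i r < 4 ∧
    (q6 5 (1 + r)).image (ex5 i) = q6 5 (1 + p4 i r) := by decide +kernel

theorem l4_ex (s : Fin 4 → Fin n) (u : Fin n) (i : Fin 3) (r : ℕ) (hr : r < 4) :
    l4 H (s ∘ Equiv.swap i.castSucc i.succ) u r = l4 H s u (p4 i r) := by
  unfold l4
  rw [snoc5_comp, zb_comp, (p4_geo i r hr).2]

end bits

/-- The colours of the roots. -/
def c4 {n : ℕ} (χ : Fin n → Bool) (s : Fin 4 → Fin n) (r : ℕ) : Bool := χ (s (Fin.ofNat 4 r))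

/-- The pattern of the roots. -/
def pt4 {n : ℕ} (H E : Finset (Finset (Fin n))) (χ : Fin n → Bool) (s : Fin 4 → Fin n) : ℕ :=
  idx 6 fun r => if r < 4 then c4 χ s r else if r = 4 then q4 H s else q4 E s

theorem pt4_lt {n : ℕ} (H E : Finset (Finset (Fin n))) (χ : Fin n → Bool) (s : Fin 4 → Fin n) :
    pt4 H E χ s < 64 := idx_lt 6 _

/-- The image of a pattern. -/
def mv4L : List (List ℕ) := [[1, 0, 2, 3], [0, 2, 1, 3], [0, 1, 3, 2]]

/-- The image of a pattern. -/
def mv4 (i p : ℕ) : ℕ := idx 6 fun r => if r < 4 then p.testBit (nthG 0 (nthG [] mv4L i) r)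
  else p.testBit r

theorem mv4L_eq : ∀ i : Fin 3, ∀ r < 4, nthG 0 (nthG [] mv4L i) r < 4 ∧
    Fin.ofNat 4 (nthG 0 (nthG [] mv4L i) r) = Equiv.swap i.castSucc i.succ (Fin.ofNat 4 r) := by
  decide +kernel

theorem pt4_ex {n : ℕ} (H E : Finset (Finset (Fin n))) (χ : Fin n → Bool) (s : Fin 4 → Fin n)
    (i : Fin 3) : pt4 H E χ (s ∘ Equiv.swap i.castSucc i.succ) = mv4 i (pt4 H E χ s) := by
  unfold mv4
  apply idx_congr
  intro r hr
  by_cases h4 : r < 4
  · obtain ⟨h1, h2⟩ := mv4L_eq i r h4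
    rw [if_pos h4, if_pos h4]
    unfold pt4
    rw [testBit_idx, decide_eq_true (show nthG 0 (nthG [] mv4L i) r < 6 by omega), Bool.true_and,
      if_pos h1]
    unfold c4
    rw [h2]
    rfl
  · rw [if_neg h4, if_neg h4]
    unfold pt4
    rw [testBit_idx, decide_eq_true hr, Bool.true_and, if_neg h4, q4_ex, q4_ex]

/-- The data: width and offset of the entries, rows of the types, types of the patterns, orders of
the triples, exchanges of the colours. -/
structure C4D where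
  W : ℕ
  of : ℕ
  R : List (List ℕ)
  ty : ℕ
  od : ℕ
  fl : ℕ

namespace C4D
variable (D : C4D)

/-- The rows of a type. -/
def Rw (τ : ℕ) : List ℕ := nthG [] D.R τ

/-- The type of a pattern. -/
def tyP (p : ℕ) : ℕ := lnG 8 D.ty p

/-- The triple number `c` of the model. -/
def g (p c : ℕ) : ℕ := lnG 4 (lnG 16 D.od p) c

/-- Whether the colours are exchanged. -/
def fx (p : ℕ) : Bool := Nat.beq (lnG 8 D.fl p) 1

/-- The entries of the matrices. -/
def m (τ a b : ℕ) : ℤ := me D.W D.of (D.Rw τ) a b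

/-- The code, from the bits of the differences, of the even 4-graph and of the colour. -/
def cd (p : ℕ) (j e : ℕ → Bool) (x : Bool) : ℕ := idx 8 fun r =>
  if r < 3 then e (D.g p r) else if r < 7 then j (D.g p (r - 3)) else x ^^ D.fx p

theorem cd_lt (p : ℕ) (j e : ℕ → Bool) (x : Bool) : D.cd p j e x < 256 := idx_lt 8 _

/-- The value from the codes. -/
def val (p a b : ℕ) : ℤ := if D.tyP p = 0 then 0 else D.m (D.tyP p) a b

/-- The code of a vertex. -/
def cu {n : ℕ} (H E : Finset (Finset (Fin n))) (χ : Fin n → Bool) (s : Fin 4 → Fin n)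
    (u : Fin n) : ℕ := D.cd (pt4 H E χ s) (fun r => l4 H s u r ^^ l4 E s u r) (l4 E s u) (χ u)

/-- The parity condition of a vertex. -/
def ev4 {n : ℕ} (E : Finset (Finset (Fin n))) (s : Fin 4 → Fin n) (u : Fin n) : Bool :=
  (((l4 E s u 0 ^^ l4 E s u 1) ^^ l4 E s u 2) ^^ l4 E s u 3) == q4 E s

/-- The kernel. -/
def kj {n : ℕ} (H E : Finset (Finset (Fin n))) (χ : Fin n → Bool) (s : Fin 4 → Fin n)
    (u w : Fin n) : ℤ :=
  if ev4 E s u && ev4 E s w then D.val (pt4 H E χ s) (D.cu H E χ s u) (D.cu H E χ s w) else 0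

/-- The conditions on the matrices. -/
structure OK : Prop where
  ty : ∀ p < 64, D.tyP p < D.R.length
  psd : ∀ τ, 0 < τ → τ < D.R.length → ∀ a : ℕ → ℝ,
    0 ≤ ∑ i ∈ range 256, ∑ j ∈ range 256, (D.m τ i j : ℝ) * (a i * a j)
  bd : ∀ τ, 0 < τ → τ < D.R.length → ∀ i < 256, ∀ j < 256, |D.m τ i j| ≤ D.of
  sy : ∀ τ, 0 < τ → τ < D.R.length → ∀ i < 256, ∀ j < 256, D.m τ i j = D.m τ j i

variable {D}

theorem val_abs (h : D.OK) {p a b : ℕ} (hp : p < 64) (ha : a < 256) (hb : b < 256) :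
    |D.val p a b| ≤ D.of := by
  unfold val
  split_ifs with h0
  · rw [abs_zero]
    positivity
  · exact h.bd _ (Nat.pos_of_ne_zero h0) (h.ty p hp) a ha b hb

theorem val_symm (h : D.OK) {p a b : ℕ} (hp : p < 64) (ha : a < 256) (hb : b < 256) :
    D.val p a b = D.val p b a := by
  unfold val
  split_ifs with h0
  · rfl
  · exact h.sy _ (Nat.pos_of_ne_zero h0) (h.ty p hp) a ha b hb

theorem kj_psd (h : D.OK) {n : ℕ} (H E : Finset (Finset (Fin n))) (χ : Fin n → Bool)
    (s : Fin 4 → Fin n) : 0 ≤ ∑ u, ∑ w, ((D.kj H E χ s u w : ℤ) : ℝ) := by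
  set p := pt4 H E χ s with hp
  by_cases h0 : D.tyP p = 0
  · have h1 : ∀ u w, D.kj H E χ s u w = 0 := by
      intro u w
      unfold kj val
      rw [← hp, if_pos h0, ite_self]
    simp [h1]
  · have h2 := h.psd (D.tyP p) (Nat.pos_of_ne_zero h0) (h.ty p (pt4_lt H E χ s)) fun i =>
      ∑ u : Fin n, if ev4 E s u = true ∧ D.cu H E χ s u = i then 1 else 0
    refine le_trans h2 (le_of_eq ?_)
    have h1 : ∀ u w, ((D.kj H E χ s u w : ℤ) : ℝ) = ∑ a ∈ range 256, ∑ b ∈ range 256,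
        (D.m (D.tyP p) a b : ℝ) * ((if ev4 E s u = true ∧ D.cu H E χ s u = a then 1 else 0) *
          (if ev4 E s w = true ∧ D.cu H E χ s w = b then 1 else 0)) := by
      intro u w
      unfold kj val
      rw [← hp, if_neg h0, Finset.sum_eq_single (D.cu H E χ s u),
        Finset.sum_eq_single (D.cu H E χ s w)]
      · cases ev4 E s u <;> cases ev4 E s w <;> simp
      · intro b _ hb
        have hb' : ¬ (ev4 E s w = true ∧ D.cu H E χ s w = b) := fun h => hb h.2.symm
        rw [if_neg hb']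
        simp
      · intro hb
        exact absurd (Finset.mem_range.mpr (D.cd_lt _ _ _ _)) hb
      · intro a _ ha
        refine Finset.sum_eq_zero fun b _ => ?_
        have ha' : ¬ (ev4 E s u = true ∧ D.cu H E χ s u = a) := fun h => ha h.2.symm
        rw [if_neg ha']
        simp
      · intro ha
        exact absurd (Finset.mem_range.mpr (D.cd_lt _ _ _ _)) ha
    symm
    calc ∑ u, ∑ w, ((D.kj H E χ s u w : ℤ) : ℝ)
        = ∑ u, ∑ a ∈ range 256, ∑ b ∈ range 256, (D.m (D.tyP p) a b : ℝ) *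
          ((if ev4 E s u = true ∧ D.cu H E χ s u = a then 1 else 0) *
            ∑ w, (if ev4 E s w = true ∧ D.cu H E χ s w = b then (1 : ℝ) else 0)) := by
          refine Finset.sum_congr rfl fun u _ => ?_
          simp only [h1]
          rw [Finset.sum_comm]
          refine Finset.sum_congr rfl fun a _ => ?_
          rw [Finset.sum_comm]
          refine Finset.sum_congr rfl fun b _ => ?_
          rw [Finset.mul_sum, Finset.mul_sum]
      _ = _ := by
          rw [Finset.sum_comm]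
          refine Finset.sum_congr rfl fun a _ => ?_
          rw [Finset.sum_comm]
          refine Finset.sum_congr rfl fun b _ => ?_
          rw [Finset.sum_mul, Finset.mul_sum]

/-- The coloured kernel. -/
def kern (h : D.OK) : CK 4 1 where
  f := fun H E χ s x y => D.kj H E χ s (x 0) (y 0)
  C := D.of
  psd := by
    intro n H E χ s
    have h1 := kj_psd h H E χ s
    rw [← (Equiv.funUnique (Fin 1) (Fin n)).sum_comp] at h1
    refine le_trans h1 (le_of_eq (Finset.sum_congr rfl fun x _ => ?_))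
    rw [← (Equiv.funUnique (Fin 1) (Fin n)).sum_comp]
    rfl
  bd := by
    intro n H E χ s x y
    have h3 : D.kj H E χ s (x 0) (y 0) ≤ (D.of : ℤ) := by
      unfold kj
      split_ifs
      · exact le_trans (le_abs_self _) (val_abs h (pt4_lt H E χ s) (D.cd_lt _ _ _ _)
          (D.cd_lt _ _ _ _))
      · positivity
    exact_mod_cast h3

theorem kj_symm (h : D.OK) {n : ℕ} (H E : Finset (Finset (Fin n))) (χ : Fin n → Bool)
    (s : Fin 4 → Fin n) (u w : Fin n) : D.kj H E χ s u w = D.kj H E χ s w u := by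
  unfold kj
  rw [val_symm h (pt4_lt H E χ s) (show D.cu H E χ s u < 256 from D.cd_lt _ _ _ _)
    (show D.cu H E χ s w < 256 from D.cd_lt _ _ _ _), Bool.and_comm]

/-! ### Invariance -/

/-- The fourth bit of a link of an even 4-graph. -/
def e3 (eR : Bool) (a x : ℕ) : Bool :=
  if x < 3 then a.testBit x else ((a.testBit 0 ^^ a.testBit 1) ^^ a.testBit 2) ^^ eR

/-- The action of a permutation of the triples on the codes. -/
def pi4 (α : ℕ) (eR : Bool) (a : ℕ) : ℕ := idx 8 fun r =>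
  if r < 3 then e3 eR a (lnG 4 α r) else if r < 7 then a.testBit (3 + lnG 4 α (r - 3))
    else a.testBit 7

variable (D)

/-- A permutation of the triples preserves the matrix. -/
structure Aut (τ α : ℕ) (eR : Bool) : Prop where
  lt : ∀ c < 4, lnG 4 α c < 4
  mm : ∀ a < 256, ∀ b < 256, D.m τ (pi4 α eR a) (pi4 α eR b) = D.m τ a b

/-- The conditions for the invariance. -/
def InvOK : Prop := ∀ i < 3, ∀ p < 64, D.tyP (mv4 i p) = D.tyP p ∧
  (D.tyP p ≠ 0 → D.fx (mv4 i p) = D.fx p ∧ (∀ c < 4, ∀ d < 4, D.g p c = D.g p d → c = d) ∧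
    (∀ c < 4, D.g p c < 4) ∧ ∃ α, D.Aut (D.tyP p) α (p.testBit 5) ∧ ∀ c < 4, D.g (mv4 i p) c < 4 ∧
    p4 i (D.g (mv4 i p) c) = D.g p (lnG 4 α c))

variable {D}

/-- The parity of the link bits. -/
theorem l4_par {n : ℕ} (E : Finset (Finset (Fin n))) (s : Fin 4 → Fin n) (u : Fin n)
    (h : EvT E (Fin.snoc s u : Fin 5 → Fin n)) :
    (((l4 E s u 0 ^^ l4 E s u 1) ^^ l4 E s u 2) ^^ l4 E s u 3) = q4 E s := by
  have h1 := h univ (by decide)
  have h2 : dl (zt E (Fin.snoc s u : Fin 5 → Fin n)) univ =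
      (((zt E (Fin.snoc s u : Fin 5 → Fin n) (q6 5 0) + zt E (Fin.snoc s u : Fin 5 → Fin n) (q6 5 1)) +
        zt E (Fin.snoc s u : Fin 5 → Fin n) (q6 5 2)) +
        zt E (Fin.snoc s u : Fin 5 → Fin n) (q6 5 3)) +
        zt E (Fin.snoc s u : Fin 5 → Fin n) (q6 5 4) := by
    unfold dl
    rw [Fin.sum_univ_five]
    have g0 : (univ : Finset (Fin 5)).erase 0 = q6 5 4 := by decide
    have g1 : (univ : Finset (Fin 5)).erase 1 = q6 5 3 := by decide
    have g2 : (univ : Finset (Fin 5)).erase 2 = q6 5 2 := by decide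
    have g3 : (univ : Finset (Fin 5)).erase 3 = q6 5 1 := by decide
    have g4 : (univ : Finset (Fin 5)).erase 4 = q6 5 0 := by decide
    rw [g0, g1, g2, g3, g4]
    ring
  rw [h2, zt_eq, zt_eq, zt_eq, zt_eq, zt_eq] at h1
  have h3 : q4 E s = zb E (Fin.snoc s u : Fin 5 → Fin n) (q6 5 0) := by
    unfold q4
    have e : s = (Fin.snoc s u : Fin 5 → Fin n) ∘ Fin.castSucc := by
      funext i
      rw [Function.comp_apply, Fin.snoc_castSucc]
    have e2 : (univ : Finset (Fin 4)).image Fin.castSucc = q6 5 0 := by decide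
    conv_lhs => rw [e]
    rw [zb_comp, e2]
  apply bz_inj
  rw [h3, bz_xor, bz_xor, bz_xor]
  unfold l4
  have e0 : bz (zb E (Fin.snoc s u : Fin 5 → Fin n) (q6 5 0)) +
      (((bz (zb E (Fin.snoc s u : Fin 5 → Fin n) (q6 5 (1 + 0))) +
        bz (zb E (Fin.snoc s u : Fin 5 → Fin n) (q6 5 (1 + 1)))) +
        bz (zb E (Fin.snoc s u : Fin 5 → Fin n) (q6 5 (1 + 2)))) +
        bz (zb E (Fin.snoc s u : Fin 5 → Fin n) (q6 5 (1 + 3)))) = 0 := by
    rw [← h1]
    ring
  have h5 : ∀ x y : ZMod 2, x + y = 0 → y = x := by decide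
  exact h5 _ _ e0

/-- A link bit from the three others. -/
theorem e3_eq (l : ℕ → Bool) (g : ℕ → ℕ) (eR : Bool) (hg : ∀ c < 4, g c < 4)
    (hinj : ∀ c < 4, ∀ d < 4, g c = g d → c = d)
    (hp : (((l 0 ^^ l 1) ^^ l 2) ^^ l 3) = eR) (a : ℕ)
    (ha : ∀ r < 3, a.testBit r = l (g r)) (x : ℕ) (hx : x < 4) : e3 eR a x = l (g x) := by
  unfold e3
  split_ifs with h3
  · exact ha x h3
  · have hx3 : x = 3 := by omega
    rw [ha 0 (by omega), ha 1 (by omega), ha 2 (by omega), hx3]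
    have key : ∀ a b c d : Fin 4, Function.Injective ![a, b, c, d] → ∀ f : Fin 4 → Bool,
        (((f a ^^ f b) ^^ f c) ^^ (((f 0 ^^ f 1) ^^ f 2) ^^ f 3)) = f d := by
      decide +kernel
    have h0 := hg 0 (by omega)
    have h1 := hg 1 (by omega)
    have h2 := hg 2 (by omega)
    have h3' := hg 3 (by omega)
    have hinj' : Function.Injective ![(⟨g 0, h0⟩ : Fin 4), ⟨g 1, h1⟩, ⟨g 2, h2⟩, ⟨g 3, h3'⟩] := by
      have h6 : ∀ c : Fin 4, (![(⟨g 0, h0⟩ : Fin 4), ⟨g 1, h1⟩, ⟨g 2, h2⟩, ⟨g 3, h3'⟩] c : ℕ) =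
          g c := by
        intro c
        fin_cases c <;> rfl
      intro c d hcd
      have h7 := congrArg Fin.val hcd
      rw [h6, h6] at h7
      exact Fin.ext (hinj c c.isLt d d.isLt h7)
    have h8 := key _ _ _ _ hinj' fun i => l i
    rw [← hp]
    exact h8

theorem cu_ex (hD : D.InvOK) {n : ℕ} (H E : Finset (Finset (Fin n))) (χ : Fin n → Bool)
    (s : Fin 4 → Fin n) (i : Fin 3) (h0 : D.tyP (pt4 H E χ s) ≠ 0) :
    ∃ α, D.Aut (D.tyP (pt4 H E χ s)) α (q4 E s) ∧
      ∀ u, ev4 E s u = true →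
        D.cu H E χ (s ∘ Equiv.swap i.castSucc i.succ) u = pi4 α (q4 E s) (D.cu H E χ s u) := by
  have hb5 : (pt4 H E χ s).testBit 5 = q4 E s := by
    unfold pt4
    rw [testBit_idx]
    simp
  obtain ⟨h1, h2⟩ := hD i i.isLt (pt4 H E χ s) (pt4_lt H E χ s)
  obtain ⟨hf, hinj, hlt, α, h3, h4⟩ := h2 h0
  rw [hb5] at h3
  refine ⟨α, h3, fun u hev => ?_⟩
  have hbit : ∀ r < 8, (D.cu H E χ s u).testBit r =
      if r < 3 then l4 E s u (D.g (pt4 H E χ s) r) else
      if r < 7 then (l4 H s u (D.g (pt4 H E χ s) (r - 3)) ^^ l4 E s u (D.g (pt4 H E χ s) (r - 3)))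
        else χ u ^^ D.fx (pt4 H E χ s) := by
    intro r hr
    unfold cu cd
    rw [testBit_idx, decide_eq_true hr, Bool.true_and]
  unfold pi4
  conv_lhs => unfold cu cd
  rw [pt4_ex]
  apply idx_congr
  intro r hr
  by_cases hr3 : r < 3
  · rw [if_pos hr3, if_pos hr3]
    obtain ⟨h5, h6⟩ := h4 r (by omega)
    rw [l4_ex E s u i _ h5, h6]
    symm
    exact e3_eq (l4 E s u) (D.g (pt4 H E χ s)) (q4 E s) hlt hinj (eq_of_beq hev) _
      (fun r' hr' => by rw [hbit r' (by omega), if_pos hr']) _ (h3.lt r (by omega))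
  · rw [if_neg hr3, if_neg hr3]
    by_cases hr7 : r < 7
    · rw [if_pos hr7, if_pos hr7]
      obtain ⟨h5, h6⟩ := h4 (r - 3) (by omega)
      have h7 := h3.lt (r - 3) (by omega)
      show (l4 H (s ∘ Equiv.swap i.castSucc i.succ) u (D.g (mv4 i (pt4 H E χ s)) (r - 3)) ^^
        l4 E (s ∘ Equiv.swap i.castSucc i.succ) u (D.g (mv4 i (pt4 H E χ s)) (r - 3))) = _
      rw [l4_ex E s u i _ h5, l4_ex H s u i _ h5, h6, hbit _ (by omega), if_neg (by omega),
        if_pos (by omega)]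
      have e : 3 + lnG 4 α (r - 3) - 3 = lnG 4 α (r - 3) := by omega
      rw [e]
    · rw [if_neg hr7, if_neg hr7, hf, hbit 7 (by omega), if_neg (by omega), if_neg (by omega)]

/-- The parity condition holds for even 4-graphs. -/
theorem ev4_of {n : ℕ} (E : Finset (Finset (Fin n))) (s : Fin 4 → Fin n) (u : Fin n)
    (h : EvT E (Fin.snoc s u : Fin 5 → Fin n)) : ev4 E s u = true := by
  unfold ev4
  rw [l4_par E s u h]
  exact beq_self_eq_true _

theorem ev4_ex {n : ℕ} (E : Finset (Finset (Fin n))) (s : Fin 4 → Fin n) (u : Fin n)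
    (i : Fin 3) : ev4 E (s ∘ Equiv.swap i.castSucc i.succ) u = ev4 E s u := by
  unfold ev4
  rw [q4_ex, l4_ex E s u i 0 (by omega), l4_ex E s u i 1 (by omega), l4_ex E s u i 2 (by omega),
    l4_ex E s u i 3 (by omega)]
  have e : ∀ a b c d : Bool, (((b ^^ a) ^^ c) ^^ d) = (((a ^^ b) ^^ c) ^^ d) ∧
      (((a ^^ c) ^^ b) ^^ d) = (((a ^^ b) ^^ c) ^^ d) ∧
      (((a ^^ b) ^^ d) ^^ c) = (((a ^^ b) ^^ c) ^^ d) := by decide
  fin_cases i
  · show ((((l4 E s u 0 ^^ l4 E s u 1) ^^ l4 E s u 3) ^^ l4 E s u 2) == q4 E s) = _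
    rw [(e _ _ _ _).2.2]
  · show ((((l4 E s u 0 ^^ l4 E s u 2) ^^ l4 E s u 1) ^^ l4 E s u 3) == q4 E s) = _
    rw [(e _ _ _ _).2.1]
  · show ((((l4 E s u 1 ^^ l4 E s u 0) ^^ l4 E s u 2) ^^ l4 E s u 3) == q4 E s) = _
    rw [(e _ _ _ _).1]

theorem kj_ex (hD : D.InvOK) {n : ℕ} (H E : Finset (Finset (Fin n))) (χ : Fin n → Bool)
    (s : Fin 4 → Fin n) (u w : Fin n) (i : Fin 3) :
    D.kj H E χ (s ∘ Equiv.swap i.castSucc i.succ) u w = D.kj H E χ s u w := by
  obtain ⟨h1, _⟩ := hD i i.isLt (pt4 H E χ s) (pt4_lt H E χ s)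
  unfold kj
  rw [ev4_ex, ev4_ex]
  by_cases h2 : (ev4 E s u && ev4 E s w) = true
  · rw [if_pos h2, if_pos h2]
    rw [Bool.and_eq_true] at h2
    unfold val
    rw [pt4_ex, h1]
    by_cases h0 : D.tyP (pt4 H E χ s) = 0
    · rw [if_pos h0, if_pos h0]
    · rw [if_neg h0, if_neg h0]
      obtain ⟨α, h3, h4⟩ := cu_ex hD H E χ s i h0
      rw [h4 u h2.1, h4 w h2.2]
      exact h3.mm _ (D.cd_lt _ _ _ _) _ (D.cd_lt _ _ _ _)
  · rw [if_neg h2, if_neg h2]

theorem kj_perm (hD : D.InvOK) {n : ℕ} (H E : Finset (Finset (Fin n))) (χ : Fin n → Bool)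
    (τ : Equiv.Perm (Fin 4)) :
    ∀ (s : Fin 4 → Fin n) (u w : Fin n), D.kj H E χ (s ∘ τ) u w = D.kj H E χ s u w := by
  have h1 : τ ∈ Submonoid.closure (Set.range fun i : Fin 3 => Equiv.swap i.castSucc i.succ) := by
    rw [Equiv.Perm.mclosure_swap_castSucc_succ]
    exact Submonoid.mem_top _
  induction h1 using Submonoid.closure_induction with
  | mem x hx =>
    obtain ⟨i, rfl⟩ := hx
    intro s u w
    exact kj_ex hD H E χ s u w i
  | one =>
    intro s u w
    rfl
  | mul x y _ _ hx hy =>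
    intro s u w
    have e : s ∘ (x * y) = (s ∘ x) ∘ y := rfl
    rw [e, hy, hx]

end C4D

end Pool.Agent.Lib.MP_afdd4d_co.K9.Star
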