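import Pool.Agent.Lib.MP_afdd4d_co.K9.W6Def
import Pool.Agent.Lib.MP_afdd4d_co.K8.F6Pdp

/-!
# The checks of the matrices for windows of six vertices

The conditions `C4D.OK`, `C4D.InvOK` and `B2.OK` follow from checks by computation: rows with entries in
lanes, approximate factorisations (`PD.chk`), permutations of the codes.
-/

namespace Pool.Agent.Lib.MP_afdd4d_co.K9

open Finset K8

/-! ### Matrices -/

/-- The check of the rows of a matrix with `n` rows. -/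
def rowsG (W of a n : ℕ) (R : List ℕ) : Bool :=
  decide (of = 2 ^ a ∧ a + 1 ≤ W ∧ 0 < W ∧ R.length = n) &&
  K8.allR (fun _ r => Nat.blt r (Nat.pow 2 (Nat.mul W (Nat.succ n))) && (wbG W (Nat.succ n) a r &&
    Nat.beq (lnG W r n) of)) R 0

theorem rowsG_spec {W of a n : ℕ} {R : List ℕ} (h : rowsG W of a n R = true) :
    RwOK W of R ∧ R.length = n ∧ 0 < W := by
  unfold rowsG at h
  rw [Bool.and_eq_true] at h
  obtain ⟨h1, h2⟩ := h
  obtain ⟨h3, h4, h5, h6⟩ := of_decide_eq_true h1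
  refine ⟨?_, h6, h5⟩
  intro r hr
  obtain ⟨k, hk, rfl⟩ := List.getElem_of_mem hr
  have h7 := K8.allR_spec _ R 0 h2 k hk
  rw [List.getD_eq_getElem _ _ hk, Bool.and_eq_true, Bool.and_eq_true, Nat.blt_eq] at h7
  obtain ⟨h8, h9, h10⟩ := h7
  rw [h6]
  refine ⟨h8, ?_, ?_⟩
  · rw [h3]
    exact wbG_spec h5 h4 h9
  · rw [← lnG_eq]
    exact Nat.eq_of_beq_eq_true h10

/-- The properties of a matrix from the checks. -/
theorem mat_of {W of a n h : ℕ} {P : PD} {R : List ℕ} (h1 : rowsG W of a n R = true)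
    (h2 : P.chk W of h R = true) :
    (∀ b : ℕ → ℝ, 0 ≤ ∑ i ∈ range n, ∑ j ∈ range n, (me W of R i j : ℝ) * (b i * b j)) ∧
    (∀ i < n, ∀ j < n, |me W of R i j| ≤ of) ∧
    (∀ i < n, ∀ j < n, me W of R i j = me W of R j i) := by
  obtain ⟨h6, h7, h8⟩ := rowsG_spec h1
  refine ⟨?_, ?_, ?_⟩
  · intro b
    have h10 := P.psd h8 _ h6 h2 b
    rw [h7] at h10
    exact h10
  · intro i hi j hj
    have h10 := (h6 _ (mem_getD (show i < R.length by omega))).2.1 j (by omega)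
    unfold me
    rw [abs_le]
    constructor <;> omega
  · intro i hi j hj
    have h10 : symG W of R = true := PD.sym h2
    exact symG_spec h8 _ h10 i (by omega) j (by omega)

namespace Star
namespace C4D
variable (D : C4D)

/-- The check of the rows of a type. -/
def rwG (a : ℕ) (R : List ℕ) : Bool := rowsG D.W D.of a 256 R

variable {D}

/-- The conditions from the checks. -/
theorem ok_of {a : ℕ} (P : ℕ → PD) (h1 : ∀ p < 64, D.tyP p < D.R.length)
    (h2 : ∀ τ, 0 < τ → τ < D.R.length → D.rwG a (D.Rw τ) = true ∧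
      (P τ).chk D.W D.of 128 (D.Rw τ) = true) : D.OK := by
  have h3 : ∀ τ, 0 < τ → τ < D.R.length → _ := fun τ h4 h5 => mat_of (h2 τ h4 h5).1 (h2 τ h4 h5).2
  exact ⟨h1, fun τ h4 h5 => (h3 τ h4 h5).1, fun τ h4 h5 => (h3 τ h4 h5).2.1,
    fun τ h4 h5 => (h3 τ h4 h5).2.2⟩

variable (D)

/-- The check of an automorphism: the row `a` of the matrix after the permutation of the codes. -/
def auG (R : List ℕ) (α : ℕ) (eR : Bool) : Bool :=
  allN (fun c => Nat.blt (lnG 4 α c) 4) 4 &&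
  K8.allR (fun a r => allN (fun b => Nat.beq (lnG D.W (nthG 0 R (pi4 α eR a)) (pi4 α eR b))
    (lnG D.W r b)) 256) R 0

variable {D}

theorem auG_spec {τ α : ℕ} {eR : Bool} (h0 : (D.Rw τ).length = 256)
    (h : D.auG (D.Rw τ) α eR = true) : D.Aut τ α eR := by
  unfold auG at h
  rw [Bool.and_eq_true] at h
  obtain ⟨h1, h2⟩ := h
  refine ⟨?_, ?_⟩
  · intro c hc
    have h4 := allN_spec _ 4 h1 c hc
    rwa [Nat.blt_eq] at h4
  · intro a ha b hb
    have h4 := K8.allR_spec _ _ 0 h2 a (by omega)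
    rw [Nat.zero_add] at h4
    have h5 := Nat.eq_of_beq_eq_true (allN_spec _ 256 h4 b hb)
    rw [lnG_eq, lnG_eq, nthG_eq] at h5
    show me D.W D.of (D.Rw τ) (pi4 α eR a) (pi4 α eR b) = me D.W D.of (D.Rw τ) a b
    unfold me
    rw [h5]

variable (D)

/-- The check of the symmetries of a pattern: `LT` are the numbers of the automorphisms in the list
`AL`, as lanes of 16 bits. -/
def ivG (LT : ℕ) (AL : List (ℕ × (ℕ × Bool))) (i p : ℕ) : Bool :=
  Nat.beq (D.tyP (mv4 i p)) (D.tyP p) &&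
  @Nat.rec (fun _ => Bool) true (fun _ _ =>
    ((D.fx (mv4 i p) == D.fx p) && (allN (fun c => allN (fun d => Nat.beq c d ||
      !(Nat.beq (D.g p c) (D.g p d))) 4) 4 && allN (fun c => Nat.blt (D.g p c) 4) 4)) &&
    (Nat.blt (lnG 16 LT (Nat.add (Nat.mul 4 p) i)) AL.length &&
    (Nat.beq (nthG (0, (0, false)) AL (lnG 16 LT (Nat.add (Nat.mul 4 p) i))).1 (D.tyP p) &&
    (((nthG (0, (0, false)) AL (lnG 16 LT (Nat.add (Nat.mul 4 p) i))).2.2 == p.testBit 5) &&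
    allN (fun c => Nat.blt (D.g (mv4 i p) c) 4 &&
      Nat.beq (p4 i (D.g (mv4 i p) c))
        (D.g p (lnG 4 (nthG (0, (0, false)) AL (lnG 16 LT (Nat.add (Nat.mul 4 p) i))).2.1 c)))
          4)))) (D.tyP p)

variable {D}

theorem ivG_spec {LT : ℕ} {AL : List (ℕ × (ℕ × Bool))} (hA : ∀ e ∈ AL, D.Aut e.1 e.2.1 e.2.2)
    (h : ∀ i < 3, ∀ p < 64, D.ivG LT AL i p = true) : D.InvOK := by
  intro i hi p hp
  have h1 := h i hi p hp
  unfold ivG at h1
  rw [Bool.and_eq_true] at h1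
  obtain ⟨h2, h3⟩ := h1
  refine ⟨Nat.eq_of_beq_eq_true h2, fun h0 => ?_⟩
  obtain ⟨t, ht⟩ : ∃ t, D.tyP p = t + 1 := ⟨D.tyP p - 1, by omega⟩
  set e := nthG (0, (0, false)) AL (lnG 16 LT (Nat.add (Nat.mul 4 p) i)) with he
  have h4 : (((D.fx (mv4 i p) == D.fx p) && (allN (fun c => allN (fun d => Nat.beq c d ||
      !(Nat.beq (D.g p c) (D.g p d))) 4) 4 && allN (fun c => Nat.blt (D.g p c) 4) 4)) &&
      (Nat.blt (lnG 16 LT (Nat.add (Nat.mul 4 p) i)) AL.length &&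
      (Nat.beq e.1 (D.tyP p) && ((e.2.2 == p.testBit 5) &&
      allN (fun c => Nat.blt (D.g (mv4 i p) c) 4 &&
        Nat.beq (p4 i (D.g (mv4 i p) c)) (D.g p (lnG 4 e.2.1 c))) 4)))) = true := by
    rw [ht] at h3 ⊢
    exact h3
  simp only [Bool.and_eq_true, Nat.blt_eq] at h4
  obtain ⟨⟨f1, f2, f3⟩, f4, f5, f6, f7⟩ := h4
  have h8 : e ∈ AL := by
    rw [he, nthG_eq, List.getD_eq_getElem _ _ f4]
    exact List.getElem_mem f4
  refine ⟨eq_of_beq f1, ?_, ?_, e.2.1, ?_, fun c hc => ?_⟩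
  · intro c hc d hd hcd
    have h9 := allN_spec _ 4 (allN_spec _ 4 f2 c hc) d hd
    rw [hcd, Nat.beq_refl, Bool.not_true, Bool.or_false] at h9
    exact Nat.eq_of_beq_eq_true h9
  · intro c hc
    have h9 := allN_spec _ 4 f3 c hc
    rwa [Nat.blt_eq] at h9
  · have h9 := hA e h8
    rwa [Nat.eq_of_beq_eq_true f5, eq_of_beq f6] at h9
  · have h9 := allN_spec _ 4 f7 c hc
    rw [Bool.and_eq_true, Nat.blt_eq] at h9
    exact ⟨h9.1, Nat.eq_of_beq_eq_true h9.2⟩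

end C4D
end Star

namespace W6
namespace B2
variable (B : B2)

/-- The check of the rows of the matrices. -/
def rwG (a : ℕ) : Bool := (rowsG B.W B.of a 12 (nthG [] B.R 0) && (rowsG B.W B.of a 12 (nthG [] B.R 1) &&
  rowsG B.W B.of a 12 (nthG [] B.R 2))) && rowsG B.W B.of a 4 B.R3

variable {B}

/-- The conditions from the checks. -/
theorem ok_of {a : ℕ} (P : ℕ → PD) (h1 : B.rwG a = true)
    (h2 : ∀ τ < 3, (P τ).chk B.W B.of 6 (nthG [] B.R τ) = true)
    (h3 : (P 3).chk B.W B.of 2 B.R3 = true) : B.OK := by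
  unfold rwG at h1
  simp only [Bool.and_eq_true] at h1
  obtain ⟨⟨r0, r1, r2⟩, r3⟩ := h1
  have h4 : ∀ τ < 3, rowsG B.W B.of a 12 (nthG [] B.R τ) = true := by
    intro τ hτ
    interval_cases τ
    · exact r0
    · exact r1
    · exact r2
  have h5 : ∀ τ < 3, _ := fun τ hτ => mat_of (h4 τ hτ) (h2 τ hτ)
  obtain ⟨h6, h7, h8⟩ := mat_of r3 h3
  exact ⟨fun τ hτ => (h5 τ hτ).1, fun τ hτ => (h5 τ hτ).2.1, fun τ hτ => (h5 τ hτ).2.2, h6, h7, h8⟩

end B2
end W6

end Pool.Agent.Lib.MP_afdd4d_co.K9
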