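import Pool.Agent.Lib.MP_afdd4d_co.K9.StarB

/-!
# Triples of a 4-graph, an optimal even 4-graph and an optimal colouring

The vertices are coloured with two colours such that a sum over all quadruples, of a function of the
membership of the quadruple in both 4-graphs and of its number of vertices of the second colour,
is as small as possible.
-/

namespace Pool.Agent.Lib.MP_afdd4d_co.K9.Star

open Finset K8

section col
variable {n : ℕ}

/-- The number of vertices of the second colour. -/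
def cB (κ : Fin n → Bool) (Q : Finset (Fin n)) : ℕ := (Q.filter fun v => κ v = true).card

/-- The energy of a quadruple. -/
def eQ (ce : Bool → Bool → ℕ → ℤ) (H E : Finset (Finset (Fin n))) (κ : Fin n → Bool)
    (Q : Finset (Fin n)) : ℤ := ce (decide (Q ∈ H)) (decide (Q ∈ E)) (cB κ Q)

/-- The energy of a colouring. -/
def en (ce : Bool → Bool → ℕ → ℤ) (H E : Finset (Finset (Fin n))) (κ : Fin n → Bool) : ℤ :=
  ∑ Q ∈ (univ : Finset (Fin n)).powersetCard 4, eQ ce H E κ Q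

/-- The colouring has the smallest energy. -/
def OptC (ce : Bool → Bool → ℕ → ℤ) (H E : Finset (Finset (Fin n))) (κ : Fin n → Bool) : Prop :=
  ∀ κ' : Fin n → Bool, en ce H E κ ≤ en ce H E κ'

theorem exists_optC (ce : Bool → Bool → ℕ → ℤ) (H E : Finset (Finset (Fin n))) :
    ∃ κ : Fin n → Bool, OptC ce H E κ := by
  obtain ⟨κ, _, h⟩ := Finset.exists_min_image (univ : Finset (Fin n → Bool)) (fun κ => en ce H E κ)
    ⟨fun _ => false, Finset.mem_univ _⟩
  exact ⟨κ, fun κ' => h κ' (Finset.mem_univ _)⟩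

/-- Both optimality conditions. -/
structure OptT (c : Bool → Bool → ℤ) (ce : Bool → Bool → ℕ → ℤ) (H E : Finset (Finset (Fin n)))
    (κ : Fin n → Bool) : Prop where
  e : OptE c H E
  k : OptC ce H E κ

end col

/-- A function of `m` vertices with nonnegative average for all optimal triples. -/
structure CT (c : Bool → Bool → ℤ) (ce : Bool → Bool → ℕ → ℤ) (m : ℕ) where
  f : ∀ {n : ℕ}, Finset (Finset (Fin n)) → Finset (Finset (Fin n)) → (Fin n → Bool) →
    (Fin m → Fin n) → ℤ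
  C : ℝ
  avg : ∀ {n : ℕ} (H E : Finset (Finset (Fin n))) (κ : Fin n → Bool), OptT c ce H E κ →
    ∀ j : Fin m → Fin 8, Function.Injective j →
      -(C * D8 n) ≤ ∑ t ∈ inj (Fin n) 8, ((f H E κ (t ∘ j) : ℤ) : ℝ)

namespace CT
variable {c : Bool → Bool → ℤ} {ce : Bool → Bool → ℕ → ℤ} {m : ℕ}

/-- Functions with nonnegative total sum and bounded values. -/
def ofTot (f : ∀ {n : ℕ}, Finset (Finset (Fin n)) → Finset (Finset (Fin n)) → (Fin n → Bool) →
      (Fin m → Fin n) → ℤ)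
    (C : ℝ) (h1 : ∀ {n : ℕ} (H E : Finset (Finset (Fin n))) (κ : Fin n → Bool), OptT c ce H E κ →
      0 ≤ ∑ p, ((f H E κ p : ℤ) : ℝ))
    (h2 : ∀ {n : ℕ} (H E : Finset (Finset (Fin n))) (κ : Fin n → Bool) (p : Fin m → Fin n),
      ((f H E κ p : ℤ) : ℝ) ≤ C) : CT c ce m where
  f := f
  C := C
  avg := by
    intro n H E κ hE j hj
    have h := inj_comp_ge' (V := Fin n) (fun p => ((f H E κ p : ℤ) : ℝ)) C (h1 H E κ hE)
      (fun p => h2 H E κ p) j hj
    rw [Fintype.card_fin] at h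
    exact h

/-- The zero term. -/
def zero : CT c ce m where
  f := fun _ _ _ _ => 0
  C := 0
  avg := by
    intro n H E κ _ j _
    simp

/-- A term that does not depend on the colouring. -/
def ofAT (A : AT c m) : CT c ce m where
  f := fun H E _ p => A.f H E p
  C := A.C
  avg := fun H E _ h j hj => A.avg H E h.e j hj

/-- The sum of two terms. -/
def add (A B : CT c ce m) : CT c ce m where
  f := fun H E κ p => A.f H E κ p + B.f H E κ p
  C := A.C + B.C
  avg := by
    intro n H E κ hE j hj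
    have h1 := A.avg H E κ hE j hj
    have h2 := B.avg H E κ hE j hj
    have h3 : ∑ t ∈ inj (Fin n) 8, ((A.f H E κ (t ∘ j) + B.f H E κ (t ∘ j) : ℤ) : ℝ) =
        ∑ t ∈ inj (Fin n) 8, ((A.f H E κ (t ∘ j) : ℤ) : ℝ) +
          ∑ t ∈ inj (Fin n) 8, ((B.f H E κ (t ∘ j) : ℤ) : ℝ) := by
      rw [← Finset.sum_add_distrib]
      refine Finset.sum_congr rfl fun t _ => ?_
      push_cast
      rfl
    rw [h3]
    linarith

/-- A multiple of a term. -/
def smul (w : ℕ) (A : CT c ce m) : CT c ce m where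
  f := fun H E κ p => (w : ℤ) * A.f H E κ p
  C := w * A.C
  avg := by
    intro n H E κ hE j hj
    have h1 := A.avg H E κ hE j hj
    have h3 : ∑ t ∈ inj (Fin n) 8, (((w : ℤ) * A.f H E κ (t ∘ j) : ℤ) : ℝ) =
        (w : ℝ) * ∑ t ∈ inj (Fin n) 8, ((A.f H E κ (t ∘ j) : ℤ) : ℝ) := by
      rw [Finset.mul_sum]
      refine Finset.sum_congr rfl fun t _ => ?_
      push_cast
      rfl
    rw [h3]
    have h4 := mul_le_mul_of_nonneg_left h1 (Nat.cast_nonneg (α := ℝ) w)
    have h5 : -(w * A.C * D8 n) = (w : ℝ) * -(A.C * D8 n) := by ring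
    rw [h5]
    exact h4

/-- The sum of a family of terms. -/
def sum {ι : Type*} (s : Finset ι) (A : ι → CT c ce m) : CT c ce m where
  f := fun H E κ p => ∑ i ∈ s, (A i).f H E κ p
  C := ∑ i ∈ s, (A i).C
  avg := by
    intro n H E κ hE j hj
    have h3 : ∑ t ∈ inj (Fin n) 8, ((∑ i ∈ s, (A i).f H E κ (t ∘ j) : ℤ) : ℝ) =
        ∑ i ∈ s, ∑ t ∈ inj (Fin n) 8, (((A i).f H E κ (t ∘ j) : ℤ) : ℝ) := by
      rw [Finset.sum_comm]
      refine Finset.sum_congr rfl fun t _ => ?_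
      push_cast
      rfl
    rw [h3]
    have h5 : -((∑ i ∈ s, (A i).C) * D8 n) = ∑ i ∈ s, -((A i).C * D8 n) := by
      rw [Finset.sum_mul, Finset.sum_neg_distrib]
    rw [h5]
    exact Finset.sum_le_sum fun i _ => (A i).avg H E κ hE j hj

/-- A term as a function of more vertices. -/
def comp {M : ℕ} (A : CT c ce m) (i : Fin m → Fin M) (hi : Function.Injective i) : CT c ce M where
  f := fun H E κ p => A.f H E κ (p ∘ i)
  C := A.C
  avg := by
    intro n H E κ hE j hj
    exact A.avg H E κ hE (j ∘ i) (hj.comp hi)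

end CT

/-! ### Coloured kernels -/

/-- A coloured kernel with `k` roots and flags of `m` vertices. -/
structure CK (k m : ℕ) where
  f : ∀ {n : ℕ}, Finset (Finset (Fin n)) → Finset (Finset (Fin n)) → (Fin n → Bool) →
    (Fin k → Fin n) → (Fin m → Fin n) → (Fin m → Fin n) → ℤ
  C : ℝ
  psd : ∀ {n : ℕ} (H E : Finset (Finset (Fin n))) (κ : Fin n → Bool) (s : Fin k → Fin n),
    0 ≤ ∑ x, ∑ y, ((f H E κ s x y : ℤ) : ℝ)
  bd : ∀ {n : ℕ} (H E : Finset (Finset (Fin n))) κ s x y, ((f H E κ s x y : ℤ) : ℝ) ≤ C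

namespace CK
variable {k m : ℕ}

/-- The value at a tuple. -/
def val (κ : CK k m) {n : ℕ} (H E : Finset (Finset (Fin n))) (χ : Fin n → Bool)
    (p : Fin (k + (m + m)) → Fin n) : ℤ :=
  κ.f H E χ (p ∘ Fin.castAdd (m + m)) ((p ∘ Fin.natAdd k) ∘ Fin.castAdd m)
    ((p ∘ Fin.natAdd k) ∘ Fin.natAdd m)

/-- The term of a kernel. -/
def term (κ : CK k m) (c : Bool → Bool → ℤ) (ce : Bool → Bool → ℕ → ℤ) :
    CT c ce (k + (m + m)) :=
  CT.ofTot (fun H E χ p => κ.val H E χ p) κ.C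
    (by
      intro n H E χ _
      rw [← (Fin.appendEquiv k (m + m)).sum_comp, Fintype.sum_prod_type]
      refine Finset.sum_nonneg fun s _ => ?_
      rw [← (Fin.appendEquiv m m).sum_comp, Fintype.sum_prod_type]
      refine le_trans (κ.psd H E χ s) (le_of_eq ?_)
      refine Finset.sum_congr rfl fun x _ => Finset.sum_congr rfl fun y _ => ?_
      congr 2
      · funext i
        simp only [Function.comp_apply, Fin.appendEquiv_apply, Fin.append_left]
      · funext i
        simp only [Function.comp_apply, Fin.appendEquiv_apply, Fin.append_right, Fin.append_left]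
      · funext i
        simp only [Function.comp_apply, Fin.appendEquiv_apply, Fin.append_right])
    (fun H E χ p => κ.bd H E χ _ _ _)

end CK

/-! ### Changes of the colouring -/

/-- A change of the colouring: `i` fixed vertices that all changed quadruples contain, `k` further
roots, `j` free vertices. -/
structure Rc (i k j : ℕ) where
  κ' : ∀ {n : ℕ}, Finset (Finset (Fin n)) → Finset (Finset (Fin n)) → (Fin n → Bool) →
    (Fin (i + k) → Fin n) → Fin n → Bool
  g : ∀ {n : ℕ}, Finset (Finset (Fin n)) → Finset (Finset (Fin n)) → (Fin n → Bool) →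
    (Fin (i + k) → Fin n) → ℤ
  B : ℤ
  g0 : ∀ {n : ℕ} (H E : Finset (Finset (Fin n))) χ R, 0 ≤ g H E χ R
  gB : ∀ {n : ℕ} (H E : Finset (Finset (Fin n))) χ R, g H E χ R ≤ B
  sup : ∀ {n : ℕ} (H E : Finset (Finset (Fin n))) (χ : Fin n → Bool) (R : Fin (i + k) → Fin n)
    (Q : Finset (Fin n)), (¬ ∀ a : Fin i, R (Fin.castAdd k a) ∈ Q) →
      ∀ v ∈ Q, κ' H E χ R v = χ v

namespace Rc
variable {i k j : ℕ}

/-- The value at roots and free vertices. -/
def fv (μ : Rc i k j) (ce : Bool → Bool → ℕ → ℤ) {n : ℕ} (H E : Finset (Finset (Fin n)))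
    (χ : Fin n → Bool) (R : Fin (i + k) → Fin n) (x : Fin j → Fin n) : ℤ :=
  if Function.Injective (Fin.append (R ∘ Fin.castAdd k) x) then
    μ.g H E χ R * (eQ ce H E (μ.κ' H E χ R) (univ.image (Fin.append (R ∘ Fin.castAdd k) x)) -
      eQ ce H E χ (univ.image (Fin.append (R ∘ Fin.castAdd k) x))) else 0

theorem cB_congr {n : ℕ} {κ κ' : Fin n → Bool} {Q : Finset (Fin n)} (h : ∀ v ∈ Q, κ v = κ' v) :
    cB κ Q = cB κ' Q := by
  unfold cB
  congr 1
  refine Finset.filter_congr fun v hv => ?_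
  rw [h v hv]

theorem fv_sum (μ : Rc i k j) (hij : i + j = 4) (ce : Bool → Bool → ℕ → ℤ) {n : ℕ}
    (H E : Finset (Finset (Fin n))) (χ : Fin n → Bool) (h : OptC ce H E χ)
    (R : Fin (i + k) → Fin n) : 0 ≤ ∑ x, ((μ.fv ce H E χ R x : ℤ) : ℝ) := by
  by_cases hu : Function.Injective (R ∘ Fin.castAdd k)
  · have e1 : ∀ x : Fin j → Fin n, ((μ.fv ce H E χ R x : ℤ) : ℝ) =
        if Function.Injective (Fin.append (R ∘ Fin.castAdd k) x) then
          (fun Q : Finset (Fin n) => ((μ.g H E χ R * (eQ ce H E (μ.κ' H E χ R) Q -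
            eQ ce H E χ Q) : ℤ) : ℝ))
            (univ.image (Fin.append (R ∘ Fin.castAdd k) x)) else 0 := by
      intro x
      unfold fv
      split_ifs
      · rfl
      · simp
    rw [Finset.sum_congr rfl fun x _ => e1 x, sum_ext (R ∘ Fin.castAdd k) hu hij
      (fun Q : Finset (Fin n) => ((μ.g H E χ R * (eQ ce H E (μ.κ' H E χ R) Q -
            eQ ce H E χ Q) : ℤ) : ℝ)) (by
        intro Q hc hQ
        have h1 := cB_congr (κ := μ.κ' H E χ R) (κ' := χ) (Q := Q) (μ.sup H E χ R Q hQ)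
        show ((μ.g H E χ R * (eQ ce H E (μ.κ' H E χ R) Q - eQ ce H E χ Q) : ℤ) : ℝ) = 0
        unfold eQ
        rw [h1, sub_self, mul_zero, Int.cast_zero])]
    refine mul_nonneg (Nat.cast_nonneg _) ?_
    have h2 : ∑ Q ∈ (univ : Finset (Fin n)).powersetCard 4,
        ((μ.g H E χ R * (eQ ce H E (μ.κ' H E χ R) Q - eQ ce H E χ Q) : ℤ) : ℝ) =
        ((μ.g H E χ R * (en ce H E (μ.κ' H E χ R) - en ce H E χ) : ℤ) : ℝ) := by
      unfold en
      rw [← Finset.sum_sub_distrib, Finset.mul_sum]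
      push_cast
      rfl
    rw [h2]
    have h3 := h (μ.κ' H E χ R)
    exact_mod_cast mul_nonneg (μ.g0 H E χ R) (by linarith)
  · refine Finset.sum_nonneg fun x _ => ?_
    unfold fv
    rw [if_neg]
    · simp
    · intro h1
      apply hu
      intro a b hab
      have h2 : Fin.append (R ∘ Fin.castAdd k) x (Fin.castAdd j a) =
          Fin.append (R ∘ Fin.castAdd k) x (Fin.castAdd j b) := by
        rw [Fin.append_left, Fin.append_left]
        exact hab
      exact Fin.castAdd_injective _ _ (h1 h2)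

/-- The value at a tuple. -/
def val (μ : Rc i k j) (ce : Bool → Bool → ℕ → ℤ) {n : ℕ} (H E : Finset (Finset (Fin n)))
    (χ : Fin n → Bool) (p : Fin (i + k + j) → Fin n) : ℤ :=
  μ.fv ce H E χ (p ∘ Fin.castAdd j) (p ∘ Fin.natAdd (i + k))

/-- The term of a change of the colouring. -/
def term (μ : Rc i k j) (hij : i + j = 4) (c : Bool → Bool → ℤ) (ce : Bool → Bool → ℕ → ℤ) (C : ℤ)
    (hC0 : 0 ≤ C) (hC : ∀ x y a b, ce x y a - ce x y b ≤ C) : CT c ce (i + k + j) :=
  CT.ofTot (fun H E χ p => μ.val ce H E χ p) (μ.B * C : ℤ)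
    (by
      intro n H E χ hE
      rw [← (Fin.appendEquiv (i + k) j).sum_comp, Fintype.sum_prod_type]
      refine Finset.sum_nonneg fun R _ => ?_
      refine le_trans (μ.fv_sum hij ce H E χ hE.k R) (le_of_eq ?_)
      refine Finset.sum_congr rfl fun x _ => ?_
      unfold val
      congr 2
      · funext a
        simp only [Function.comp_apply, Fin.appendEquiv_apply, Fin.append_left]
      · funext a
        simp only [Function.comp_apply, Fin.appendEquiv_apply, Fin.append_right])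
    (by
      intro n H E χ p
      have hB : 0 ≤ μ.B := le_trans (μ.g0 H E χ (p ∘ Fin.castAdd j)) (μ.gB H E χ _)
      have h : μ.val ce H E χ p ≤ μ.B * C := by
        unfold val fv
        split_ifs with h1
        · have h4 := μ.g0 H E χ (p ∘ Fin.castAdd j)
          have h5 := μ.gB H E χ (p ∘ Fin.castAdd j)
          refine le_trans (mul_le_mul_of_nonneg_left ?_ h4) (mul_le_mul_of_nonneg_right h5 hC0)
          unfold eQ
          exact hC _ _ _ _
        · exact mul_nonneg hB hC0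
      exact_mod_cast h)

end Rc

/-- The change of the colour of one vertex. -/
def vtx (k : ℕ)
    (ψ : ∀ {n : ℕ}, Finset (Finset (Fin n)) → Finset (Finset (Fin n)) → (Fin n → Bool) →
      (Fin (1 + k) → Fin n) → Bool)
    (g : ∀ {n : ℕ}, Finset (Finset (Fin n)) → Finset (Finset (Fin n)) → (Fin n → Bool) →
      (Fin (1 + k) → Fin n) → ℤ) (B : ℤ)
    (g0 : ∀ {n : ℕ} (H E : Finset (Finset (Fin n))) χ R, 0 ≤ g H E χ R)
    (gB : ∀ {n : ℕ} (H E : Finset (Finset (Fin n))) χ R, g H E χ R ≤ B) : Rc 1 k 3 where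
  κ' := fun H E χ R v => if v = R (Fin.castAdd k 0) then ψ H E χ R else χ v
  g := g
  B := B
  g0 := g0
  gB := gB
  sup := by
    intro n H E χ R Q h v hv
    rw [if_neg]
    intro h1
    apply h
    intro a
    have : a = 0 := Subsingleton.elim _ _
    rw [this, ← h1]
    exact hv

/-- The change of the colours of all vertices. -/
def glo (k : ℕ)
    (ψ : ∀ {n : ℕ}, Finset (Finset (Fin n)) → Finset (Finset (Fin n)) → (Fin n → Bool) →
      (Fin (0 + k) → Fin n) → Fin n → Bool)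
    (g : ∀ {n : ℕ}, Finset (Finset (Fin n)) → Finset (Finset (Fin n)) → (Fin n → Bool) →
      (Fin (0 + k) → Fin n) → ℤ) (B : ℤ)
    (g0 : ∀ {n : ℕ} (H E : Finset (Finset (Fin n))) χ R, 0 ≤ g H E χ R)
    (gB : ∀ {n : ℕ} (H E : Finset (Finset (Fin n))) χ R, g H E χ R ≤ B) : Rc 0 k 4 where
  κ' := ψ
  g := g
  B := B
  g0 := g0
  gB := gB
  sup := fun _ _ _ _ _ h => absurd (fun a => a.elim0) h

/-! ### The average -/

/-- The rows: all triples on `m` vertices. -/
def CRow {c : Bool → Bool → ℤ} {ce : Bool → Bool → ℕ → ℤ} {m : ℕ} (T : CT c ce m)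
    (W : ∀ {n : ℕ}, Finset (Finset (Fin n)) → (Fin n → Bool) → (Fin m → Fin n) → ℤ)
    (u : ∀ {n : ℕ}, Finset (Finset (Fin n)) → (Fin m → Fin n) → ℤ) : Prop :=
  ∀ (n : ℕ) (H E : Finset (Finset (Fin n))) (χ : Fin n → Bool), (∀ e ∈ H, e.card = 4) →
    (∀ S : Finset (Fin n), S.card = 5 → ∃ e ∈ S.powersetCard 4, e ∉ H) →
    (∀ e ∈ E, e.card = 4) → EvenH n E → ∀ s : Fin m → Fin n, Function.Injective s →
      T.f H E χ s + W E χ s ≤ u H s

/-- The rows of the even 4-graphs with colourings. -/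
def ERow {c : Bool → Bool → ℤ} {ce : Bool → Bool → ℕ → ℤ} (T8 : CT c ce 8)
    (W8 : ∀ {n : ℕ}, Finset (Finset (Fin n)) → (Fin n → Bool) → (Fin 8 → Fin n) → ℤ) : Prop :=
  ∀ (n : ℕ) (H E : Finset (Finset (Fin n))) (χ : Fin n → Bool), (∀ e ∈ H, e.card = 4) →
    (∀ S : Finset (Fin n), S.card = 5 → ∃ e ∈ S.powersetCard 4, e ∉ H) →
    (∀ e ∈ E, e.card = 4) → EvenH n E →
    ∀ t : Fin 8 → Fin n, Function.Injective t → T8.f H E χ t ≤ W8 E χ t

/-- The average of a function of the 4-graph, with rows on `m` vertices and a family of injective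
maps to eight vertices. -/
theorem cstar_avg {c : Bool → Bool → ℤ} {ce : Bool → Bool → ℕ → ℤ} {m : ℕ} (T : CT c ce m)
    (T8 : CT c ce 8)
    (W : ∀ {n : ℕ}, Finset (Finset (Fin n)) → (Fin n → Bool) → (Fin m → Fin n) → ℤ)
    (u : ∀ {n : ℕ}, Finset (Finset (Fin n)) → (Fin m → Fin n) → ℤ)
    {ι : Type*} (A : Finset ι) (j : ι → Fin m → Fin 8) (hj : ∀ a ∈ A, Function.Injective (j a))
    (hrow : CRow T W u) (hE : ERow T8 fun E χ t => ∑ a ∈ A, W E χ (t ∘ j a)) (n : ℕ)
    (H : Finset (Finset (Fin n))) (h4 : ∀ e ∈ H, e.card = 4)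
    (h5 : ∀ S : Finset (Fin n), S.card = 5 → ∃ e ∈ S.powersetCard 4, e ∉ H) :
    -((A.card * T.C + T8.C) * D8 n) ≤
      ∑ t ∈ inj (Fin n) 8, ((∑ a ∈ A, u H (t ∘ j a) : ℤ) : ℝ) := by
  obtain ⟨E, hoE⟩ := exists_optE c H
  obtain ⟨χ, hoC⟩ := exists_optC ce H E
  have ho : OptT c ce H E χ := ⟨hoE, hoC⟩
  have h1 : ∀ a ∈ A, -(T.C * D8 n) ≤
      ∑ t ∈ inj (Fin n) 8, ((T.f H E χ (t ∘ j a) : ℤ) : ℝ) := fun a ha =>
    T.avg H E χ ho (j a) (hj a ha)
  have h2 := T8.avg H E χ ho id Function.injective_id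
  have h3 := Finset.sum_le_sum h1
  rw [Finset.sum_const, nsmul_eq_mul, Finset.sum_comm] at h3
  have h6 : ∀ t ∈ inj (Fin n) 8, ∑ a ∈ A, ((T.f H E χ (t ∘ j a) : ℤ) : ℝ) +
      ((T8.f H E χ t : ℤ) : ℝ) ≤ ((∑ a ∈ A, u H (t ∘ j a) : ℤ) : ℝ) := by
    intro t ht
    have hti : Function.Injective t := mem_inj.mp ht
    have h7 := hE n H E χ h4 h5 hoE.1 hoE.2.1 t hti
    have h8 : ∀ a ∈ A, T.f H E χ (t ∘ j a) + W E χ (t ∘ j a) ≤ u H (t ∘ j a) := fun a ha =>
      hrow n H E χ h4 h5 hoE.1 hoE.2.1 (t ∘ j a) (hti.comp (hj a ha))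
    have h9 := Finset.sum_le_sum h8
    rw [Finset.sum_add_distrib] at h9
    have h10 : (∑ a ∈ A, T.f H E χ (t ∘ j a)) + T8.f H E χ t ≤ ∑ a ∈ A, u H (t ∘ j a) := by
      linarith
    exact_mod_cast h10
  have h7 := Finset.sum_le_sum h6
  rw [Finset.sum_add_distrib] at h7
  have h8 : ∑ t ∈ inj (Fin n) 8, ((T8.f H E χ (t ∘ id) : ℤ) : ℝ) =
      ∑ t ∈ inj (Fin n) 8, ((T8.f H E χ t : ℤ) : ℝ) := rfl
  rw [h8] at h2
  linarith

end Pool.Agent.Lib.MP_afdd4d_co.K9.Star
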