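import Pool.Agent.Lib.MP_afdd4d_co.K9.SysU
import Pool.Agent.Lib.MP_afdd4d_co.K8.PsiFin

/-!
# A linear inequality for the 4-graphs on six points

The rows of a pair system with a function of 4-graphs on six points give a linear inequality between
the number of edges and the sum of the function over the six-tuples, up to an error of smaller order.
-/

namespace Pool.Agent.Lib.MP_afdd4d_co.K9.Ug

open Finset K8

section cut8

variable (S : PsiSys) (κ6 : Kern 6)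

theorem EvR_V_ge {n : ℕ} (H : Finset (Finset (Fin n)))
    (hB : ∀ (n : ℕ) (E' : Finset (Finset (Fin n))), (∀ e ∈ E', e.card = 4) → EvenH n E' →
      ∀ t : Fin (7 + 1) → Fin n, Function.Injective t →
        PS (κ6.f E') t ≤ DS (m := 7) (S.B E') t) :
    -((2 * |56 * κ6.C| + 112 * S.CB) * ((n : ℝ) ^ (4 + 4) - (n.descFactorial (4 + 4) : ℝ))) ≤
      ∑ t ∈ inj (Fin n) (4 + 4), ∑ z : Fin (7 + 1), ((S.B (EvR H ((t : Fin (7 + 1) → Fin n) z))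
        ((t : Fin (7 + 1) → Fin n) ∘ z.succAbove) : ℤ) : ℝ) := by
  have h3 : ∀ r : Fin n, -(|56 * κ6.C| * ((Fintype.card (Fin n) : ℝ) ^ (4 + 4) -
      ((Fintype.card (Fin n)).descFactorial (4 + 4) : ℝ))) ≤
        ∑ t ∈ inj (Fin n) (7 + 1), DS (m := 7) (fun p => ((S.B (EvR H r) p : ℤ) : ℝ)) t := by
    intro r
    have hb := PS_inj_ge (V := Fin n) (k := 6) 0
      (fun s u w => ((κ6.f (EvR H r) s u w : ℤ) : ℝ)) κ6.C
      (κ6.psd (EvR H r)) (κ6.bd (EvR H r)) id Function.injective_id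
    have hb1 : -(56 * κ6.C * ((Fintype.card (Fin n) : ℝ) ^ (4 + 4) -
        ((Fintype.card (Fin n)).descFactorial (4 + 4) : ℝ))) ≤
          ∑ t ∈ inj (Fin n) (4 + 4), PS (k := 6)
            (fun s u w => ((κ6.f (EvR H r) s u w : ℤ) : ℝ)) t := by
      refine le_trans (le_of_eq ?_) hb
      norm_num
    have hD0 : 0 ≤ (Fintype.card (Fin n) : ℝ) ^ (4 + 4) -
        ((Fintype.card (Fin n)).descFactorial (4 + 4) : ℝ) :=
      le_trans (by positivity) (pow7_le (Fintype.card (Fin n)))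
    have hb2 : 56 * κ6.C * ((Fintype.card (Fin n) : ℝ) ^ (4 + 4) -
        ((Fintype.card (Fin n)).descFactorial (4 + 4) : ℝ)) ≤
          |56 * κ6.C| * ((Fintype.card (Fin n) : ℝ) ^ (4 + 4) -
            ((Fintype.card (Fin n)).descFactorial (4 + 4) : ℝ)) :=
      mul_le_mul_of_nonneg_right (le_abs_self _) hD0
    have hb3 : ∑ t ∈ inj (Fin n) (4 + 4), PS (k := 6)
        (fun s u w => ((κ6.f (EvR H r) s u w : ℤ) : ℝ)) t ≤
          ∑ t ∈ inj (Fin n) (7 + 1), DS (m := 7) (fun p => ((S.B (EvR H r) p : ℤ) : ℝ)) t := by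
      refine Finset.sum_le_sum fun t ht => ?_
      have hb4 := hB n (EvR H r) (EvR_card H r) (EvR_even H r) t (mem_inj.mp ht)
      have hb5 : ((PS (κ6.f (EvR H r)) t : ℤ) : ℝ) ≤
          ((DS (m := 7) (S.B (EvR H r)) t : ℤ) : ℝ) := by
        exact_mod_cast hb4
      rw [cast_DS] at hb5
      have e3 : ((PS (k := 6) (κ6.f (EvR H r)) t : ℤ) : ℝ) =
          PS (k := 6) (fun s u w => ((κ6.f (EvR H r) s u w : ℤ) : ℝ)) t := cast_PS _ t
      rw [e3] at hb5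
      exact hb5
    linarith
  have h6 := WR_ge (V := Fin n)
    (fun r p => ((S.B (EvR H r) p : ℤ) : ℝ)) S.CB |56 * κ6.C|
    (fun r p => S.hCB (EvR H r) p) (abs_nonneg _) h3
  rw [Fintype.card_fin] at h6
  exact h6

/-- The linear inequality on eight-tuples. -/
theorem cut8 (Θ : ∀ {n : ℕ}, Finset (Finset (Fin n)) → (Fin 7 → Fin n) → ℤ)
    (hrow : ∀ (n : ℕ) (H E' : Finset (Finset (Fin n))) (s : Fin 7 → Fin n), PsiSys.Pr H E' s →
      Θ H s ≤ S.row H E' s)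
    (hB : ∀ (n : ℕ) (E' : Finset (Finset (Fin n))), (∀ e ∈ E', e.card = 4) → EvenH n E' →
      ∀ t : Fin (7 + 1) → Fin n, Function.Injective t →
        PS (κ6.f E') t ≤ DS (m := 7) (S.B E') t) :
    ∀ (n : ℕ) (H : Finset (Finset (Fin n))), (∀ e ∈ H, e.card = 4) →
      (∀ T : Finset (Fin n), T.card = 5 → ∃ e ∈ T.powersetCard 4, e ∉ H) →
      -((|336 * S.k5.C| + (2 * |56 * κ6.C| + 112 * S.CB)) *
        ((n : ℝ) ^ (4 + 4) - (n.descFactorial (4 + 4) : ℝ))) ≤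
      ∑ t ∈ inj (Fin n) (4 + 4), ((8 * S.a * (N8 H t : ℤ) - 16 * S.Lo -
        DS (m := 7) (Θ H) (t : Fin (7 + 1) → Fin n) : ℤ) : ℝ) := by
  intro n H h4 h5
  set κ5 : PKern 5 := S.k5.toP with hκ5
  have h1 := RS_ge (V := Fin n) (fun r s u w => ((κ5.root.f H r s u w : ℤ) : ℝ)) κ5.root.C
    (κ5.root.psd H) (κ5.root.bd H)
  rw [Fintype.card_fin] at h1
  have hC : κ5.root.C = S.k5.C := rfl
  rw [hC] at h1
  have h2 := EvR_V_ge S κ6 H hB
  have hD0 : 0 ≤ (n : ℝ) ^ (4 + 4) - (n.descFactorial (4 + 4) : ℝ) :=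
    le_trans (by positivity) (pow7_le n)
  have h3 : 336 * S.k5.C * ((n : ℝ) ^ (4 + 4) - (n.descFactorial (4 + 4) : ℝ)) ≤
      |336 * S.k5.C| * ((n : ℝ) ^ (4 + 4) - (n.descFactorial (4 + 4) : ℝ)) :=
    mul_le_mul_of_nonneg_right (le_abs_self _) hD0
  -- the local inequality
  have hloc : ∀ t ∈ inj (Fin n) (4 + 4),
      RS (fun r s u w => ((κ5.root.f H r s u w : ℤ) : ℝ)) t +
        ∑ z : Fin (7 + 1), ((S.B (EvR H ((t : Fin (7 + 1) → Fin n) z))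
          ((t : Fin (7 + 1) → Fin n) ∘ z.succAbove) : ℤ) : ℝ) ≤
      ((8 * S.a * (N8 H t : ℤ) - 16 * S.Lo - DS (m := 7) (Θ H) (t : Fin (7 + 1) → Fin n) : ℤ) :
        ℝ) := by
    intro t0 ht0
    have ht : Function.Injective t0 := mem_inj.mp ht0
    set t : Fin (7 + 1) → Fin n := t0 with htt
    have hx : ∀ x : Fin (7 + 1), 2 * S.Lo + PS (κ5.root.f H (t x)) (t ∘ x.succAbove) +
        MS (fun r p => S.ψ H (EvR H r) p) (t ∘ x.succAbove) +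
        S.B (EvR H (t x)) (t ∘ x.succAbove) + Θ H (t ∘ x.succAbove) ≤
          2 * S.a * (N8 H (t ∘ x.succAbove) : ℤ) +
            DS (m := 6) (S.ψ H (EvR H (t x))) (t ∘ x.succAbove) := by
      intro x
      have h := hrow n H (EvR H (t x)) (t ∘ x.succAbove)
        ⟨h4, h5, EvR_card _ _, EvR_even _ _, ht.comp Fin.succAbove_right_injective⟩
      unfold PsiSys.row PsiSys.rowA at h
      have e2 : κ5.root.f H (t x) = S.k5.f H := rfl
      rw [e2]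
      linarith
    have s1 := Finset.sum_le_sum fun x (_ : x ∈ (univ : Finset (Fin (7 + 1)))) => hx x
    rw [Finset.sum_add_distrib, Finset.sum_add_distrib, Finset.sum_add_distrib,
      Finset.sum_add_distrib, Finset.sum_add_distrib, Finset.sum_const, Finset.card_univ,
      Fintype.card_fin, ← Finset.mul_sum, DS_MS] at s1
    have e3 : ∑ x : Fin (7 + 1), (N8 H (t ∘ x.succAbove) : ℤ) = 4 * (N8 H t : ℤ) := by
      have e4 : ((∑ x : Fin (7 + 1), N8 H (t ∘ x.succAbove) : ℕ) : ℤ) =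
          (((7 - 3) * N8 H t : ℕ) : ℤ) := congrArg Nat.cast (DS_N8 (m := 7) (by norm_num) H t)
      rw [Nat.cast_sum, Nat.cast_mul] at e4
      exact e4
    rw [e3] at s1
    have e5 : RS (κ5.root.f H) t =
      ∑ x : Fin (7 + 1), PS (κ5.root.f H (t x)) (t ∘ x.succAbove) := rfl
    have e6 : DS (m := 7) (Θ H) t = ∑ x : Fin (7 + 1), Θ H (t ∘ x.succAbove) := rfl
    have e7 : ((7 + 1 : ℕ) : ℤ) = 8 := by norm_num
    rw [nsmul_eq_mul, e7, ← e5, ← e6] at s1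
    have s2 : RS (κ5.root.f H) t + ∑ z : Fin (7 + 1), S.B (EvR H (t z)) (t ∘ z.succAbove) ≤
        8 * S.a * (N8 H t : ℤ) - 16 * S.Lo - DS (m := 7) (Θ H) t := by linarith
    have s3 : ((RS (κ5.root.f H) t + ∑ z : Fin (7 + 1), S.B (EvR H (t z)) (t ∘ z.succAbove) : ℤ) :
        ℝ) ≤ ((8 * S.a * (N8 H t : ℤ) - 16 * S.Lo - DS (m := 7) (Θ H) t : ℤ) : ℝ) := by
      exact_mod_cast s2
    have e8 : ((RS (κ5.root.f H) t : ℤ) : ℝ) =
        RS (fun r s u w => ((κ5.root.f H r s u w : ℤ) : ℝ)) t := by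
      unfold RS
      rw [Int.cast_sum]
      exact Finset.sum_congr rfl fun z _ => cast_PS _ _
    rw [Int.cast_add, e8, Int.cast_sum] at s3
    exact s3
  have h4' := Finset.sum_le_sum hloc
  rw [Finset.sum_add_distrib] at h4'
  refine le_trans ?_ h4'
  linarith

end cut8

/-! ### Six-tuples -/

section six
variable {n : ℕ}

theorem sum_DS {m : ℕ} (f : (Fin m → Fin n) → ℝ) :
    ∑ t ∈ inj (Fin n) (m + 1), DS f t =
      ((m : ℝ) + 1) * (((n : ℝ) - m) * ∑ p ∈ inj (Fin n) m, f p) := by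
  unfold DS
  rw [Finset.sum_comm]
  have h1 : ∀ z : Fin (m + 1), ∑ t ∈ inj (Fin n) (m + 1), f (t ∘ z.succAbove) =
      ((n : ℝ) - m) * ∑ p ∈ inj (Fin n) m, f p := by
    intro z
    rw [sum_inj_ins z fun _ p => f p, Finset.mul_sum]
    refine Finset.sum_congr rfl fun p hp => ?_
    rw [Finset.sum_const, nsmul_eq_mul, card_compl_image p (mem_inj.mp hp), Fintype.card_fin]
  rw [Finset.sum_congr rfl fun z _ => h1 z, Finset.sum_const, Finset.card_univ,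
    Fintype.card_fin, nsmul_eq_mul]
  push_cast
  ring

theorem desc_ge (n k : ℕ) : (n : ℝ) ^ (k + 1) - (n.descFactorial (k + 1) : ℝ) ≤
    (k * (k + 1) / 2 : ℝ) * (n : ℝ) ^ k := by
  induction k with
  | zero => simp
  | succ k ih =>
    have h1 : (n.descFactorial (k + 1 + 1) : ℝ) ≥
        ((n : ℝ) - (k + 1)) * (n.descFactorial (k + 1) : ℝ) := by
      rw [Nat.descFactorial_succ]
      push_cast
      have h2 : (n : ℝ) - (k + 1) ≤ ((n - (k + 1) : ℕ) : ℝ) := by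
        rcases Nat.le_total (k + 1) n with h | h
        · rw [Nat.cast_sub h]; push_cast; exact le_rfl
        · rw [Nat.sub_eq_zero_of_le h]
          have : (n : ℝ) ≤ k + 1 := by exact_mod_cast h
          push_cast
          linarith
      exact mul_le_mul_of_nonneg_right h2 (Nat.cast_nonneg _)
    have h3 : (n.descFactorial (k + 1) : ℝ) ≤ (n : ℝ) ^ (k + 1) := by
      exact_mod_cast Nat.descFactorial_le_pow _ _
    have h4 : (0 : ℝ) ≤ n := Nat.cast_nonneg _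
    have h5 := mul_le_mul_of_nonneg_left ih h4
    have h6 : (0 : ℝ) ≤ (k : ℝ) + 1 := by positivity
    have h7 := mul_le_mul_of_nonneg_left h3 h6
    have e1 : (n : ℝ) ^ (k + 1 + 1) = n * (n : ℝ) ^ (k + 1) := by ring
    have e2 : (n : ℝ) * ((k * (k + 1) / 2 : ℝ) * (n : ℝ) ^ k) =
        (k * (k + 1) / 2 : ℝ) * (n : ℝ) ^ (k + 1) := by ring
    rw [e2] at h5
    rw [e1]
    push_cast
    nlinarith

theorem DS_N8_real {m : ℕ} (hm : 4 ≤ m) (H : Finset (Finset (Fin n))) (t : Fin (m + 1) → Fin n) :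
    DS (m := m) (fun p => ((N8 H p : ℤ) : ℝ)) t = ((m : ℝ) - 3) * ((N8 H t : ℤ) : ℝ) := by
  have e := DS_N8 hm H t
  have e1 : DS (m := m) (fun p => ((N8 H p : ℤ) : ℝ)) t =
      ((DS (fun s : Fin m → Fin n => N8 H s) t : ℕ) : ℝ) := by
    unfold DS
    rw [Nat.cast_sum]
    exact Finset.sum_congr rfl fun x _ => Int.cast_natCast _
  rw [e1, e, Nat.cast_mul, Nat.cast_sub (by omega), Int.cast_natCast]
  norm_num

/-- The sum of the non-edges. -/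
theorem sum_N8_six (H : Finset (Finset (Fin n))) :
    ∑ t ∈ inj (Fin n) (4 + 4), ((N8 H t : ℤ) : ℝ) =
      14 / 3 * (((n : ℝ) - 6) * ((n : ℝ) - 7) * ∑ p ∈ inj (Fin n) 6, ((N8 H p : ℤ) : ℝ)) := by
  have h1 := sum_DS (n := n) (m := 7) fun p => ((N8 H p : ℤ) : ℝ)
  have h2 := sum_DS (n := n) (m := 6) fun p => ((N8 H p : ℤ) : ℝ)
  rw [Finset.sum_congr rfl fun t _ => DS_N8_real (m := 7) (by norm_num) H t, ← Finset.mul_sum] at h1
  rw [Finset.sum_congr rfl fun t _ => DS_N8_real (m := 6) (by norm_num) H t, ← Finset.mul_sum] at h2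
  have e3 : ∑ t ∈ inj (Fin n) (4 + 4), ((N8 H t : ℤ) : ℝ) =
      ∑ t ∈ inj (Fin n) (7 + 1), ((N8 H t : ℤ) : ℝ) := rfl
  have e4 : ∑ t ∈ inj (Fin n) (6 + 1), ((N8 H t : ℤ) : ℝ) =
      ∑ t ∈ inj (Fin n) 7, ((N8 H t : ℤ) : ℝ) := rfl
  rw [e3]
  rw [e4] at h2
  generalize ∑ t ∈ inj (Fin n) (7 + 1), ((N8 H t : ℤ) : ℝ) = A at h1 ⊢
  generalize ∑ t ∈ inj (Fin n) 7, ((N8 H t : ℤ) : ℝ) = B at h1 h2
  generalize ∑ p ∈ inj (Fin n) 6, ((N8 H p : ℤ) : ℝ) = D at h2 ⊢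
  have c7 : ((7 : ℕ) : ℝ) = 7 := by norm_num
  have c6 : ((6 : ℕ) : ℝ) = 6 := by norm_num
  rw [c7] at h1
  rw [c6] at h2
  have e5 : ((n : ℝ) - 7) * ((6 - 3) * B) =
      ((n : ℝ) - 7) * ((6 + 1) * (((n : ℝ) - 6) * D)) := by
    rw [h2]
  linarith

/-- The sum of a function of six-tuples. -/
theorem sum_DS_six (g : (Fin 6 → Fin n) → ℤ) :
    ∑ t ∈ inj (Fin n) (4 + 4), ((DS (m := 7) (fun s => 6 * DS (m := 6) g s)
      (t : Fin (7 + 1) → Fin n) : ℤ) : ℝ) =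
      336 * (((n : ℝ) - 6) * ((n : ℝ) - 7) * ∑ p ∈ inj (Fin n) 6, ((g p : ℤ) : ℝ)) := by
  have h1 := sum_DS (n := n) (m := 7) fun s : Fin 7 → Fin n => ((6 * DS (m := 6) g s : ℤ) : ℝ)
  have h2 := sum_DS (n := n) (m := 6) fun p => ((g p : ℤ) : ℝ)
  have e3 : ∑ t ∈ inj (Fin n) (4 + 4), ((DS (m := 7) (fun s => 6 * DS (m := 6) g s)
      (t : Fin (7 + 1) → Fin n) : ℤ) : ℝ) = ∑ t ∈ inj (Fin n) (7 + 1),
        DS (m := 7) (fun s : Fin 7 → Fin n => ((6 * DS (m := 6) g s : ℤ) : ℝ)) t := by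
    refine Finset.sum_congr rfl fun t _ => ?_
    exact cast_DS _ _
  rw [e3, h1]
  have e4 : ∑ p ∈ inj (Fin n) 7, ((6 * DS (m := 6) g p : ℤ) : ℝ) =
      6 * ∑ t ∈ inj (Fin n) (6 + 1), DS (m := 6) (fun p => ((g p : ℤ) : ℝ)) t := by
    rw [Finset.mul_sum]
    refine Finset.sum_congr rfl fun t _ => ?_
    rw [Int.cast_mul]
    have e5 : ((DS (m := 6) g t : ℤ) : ℝ) = DS (m := 6) (fun p => ((g p : ℤ) : ℝ)) t :=
      cast_DS (m := 6) g t
    rw [e5]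
    norm_num
  rw [e4, h2]
  generalize ∑ p ∈ inj (Fin n) 6, ((g p : ℤ) : ℝ) = D
  have c7 : ((7 : ℕ) : ℝ) = 7 := by norm_num
  have c6 : ((6 : ℕ) : ℝ) = 6 := by norm_num
  rw [c7, c6]
  ring

theorem arith_six (n : ℕ) (C0 X : ℝ) (hn : 14 ≤ n) (hC00 : 0 ≤ C0)
    (h1 : -(C0 * ((n : ℝ) ^ (4 + 4) - (n.descFactorial (4 + 4) : ℝ))) ≤
      8 / 3 * (((n : ℝ) - 6) * ((n : ℝ) - 7) * X)) : -(42 * C0 * (n : ℝ) ^ 5) ≤ X := by
  have hn14 : (14 : ℝ) ≤ n := by exact_mod_cast hn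
  have h2 := desc_ge n 7
  have h3 : C0 * ((n : ℝ) ^ (4 + 4) - (n.descFactorial (4 + 4) : ℝ)) ≤ C0 * (28 * (n : ℝ) ^ 7) := by
    refine mul_le_mul_of_nonneg_left (le_trans h2 (le_of_eq ?_)) hC00
    norm_num
  have h6 : (n : ℝ) ^ 2 / 4 ≤ ((n : ℝ) - 6) * ((n : ℝ) - 7) := by nlinarith
  have h7' : -(C0 * (28 * (n : ℝ) ^ 7)) ≤ 8 / 3 * (((n : ℝ) - 6) * ((n : ℝ) - 7) * X) :=
    le_trans (neg_le_neg h3) h1
  have h7 : -(21 / 2 * (C0 * (n : ℝ) ^ 7)) ≤ ((n : ℝ) - 6) * ((n : ℝ) - 7) * X := by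
    clear h1 h2 h3 h6
    generalize (n : ℝ) ^ 7 = N7 at h7' ⊢
    generalize ((n : ℝ) - 6) * ((n : ℝ) - 7) * X = Y at h7' ⊢
    linarith
  rcases le_or_gt 0 X with h8 | h8
  · have : 0 ≤ 42 * C0 * (n : ℝ) ^ 5 := by positivity
    linarith
  · have h9 : ((n : ℝ) - 6) * ((n : ℝ) - 7) * X ≤ (n : ℝ) ^ 2 / 4 * X :=
      mul_le_mul_of_nonpos_right h6 h8.le
    have h10 : -(42 * C0 * (n : ℝ) ^ 5) * ((n : ℝ) ^ 2 / 4) ≤ X * ((n : ℝ) ^ 2 / 4) := by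
      have e4 : 21 / 2 * (C0 * (n : ℝ) ^ 7) = 42 * C0 * (n : ℝ) ^ 5 * ((n : ℝ) ^ 2 / 4) := by ring
      rw [e4] at h7
      linarith
    have h11 : (0 : ℝ) < (n : ℝ) ^ 2 / 4 := by positivity
    exact le_of_mul_le_mul_right h10 h11

theorem desc8 (n : ℕ) (hn : 14 ≤ n) : (n.descFactorial (4 + 4) : ℝ) =
    ((n : ℝ) - 6) * ((n : ℝ) - 7) * (n.descFactorial 6 : ℝ) := by
  have e3 : n.descFactorial (4 + 4) = (n - 7) * ((n - 6) * n.descFactorial 6) := by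
    rw [show 4 + 4 = 6 + 1 + 1 from rfl, Nat.descFactorial_succ, Nat.descFactorial_succ]
  rw [e3, Nat.cast_mul, Nat.cast_mul, Nat.cast_sub (by omega), Nat.cast_sub (by omega)]
  have c7 : ((7 : ℕ) : ℝ) = 7 := by norm_num
  have c6 : ((6 : ℕ) : ℝ) = 6 := by norm_num
  rw [c7, c6]
  ring

/-- The sum on eight-tuples. -/
theorem sum_cut (H : Finset (Finset (Fin n))) (a Lo : ℤ) (g : (Fin 6 → Fin n) → ℤ)
    (hn : 14 ≤ n) :
    ∑ t ∈ inj (Fin n) (4 + 4), ((8 * a * (N8 H t : ℤ) - 16 * Lo -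
        DS (m := 7) (fun s => 6 * DS (m := 6) g s) (t : Fin (7 + 1) → Fin n) : ℤ) : ℝ) =
      8 / 3 * (((n : ℝ) - 6) * ((n : ℝ) - 7) * ∑ p ∈ inj (Fin n) 6,
        ((14 * a * (N8 H p : ℤ) - 126 * g p - 6 * Lo : ℤ) : ℝ)) := by
  have h1 := sum_N8_six H
  have h2 := sum_DS_six g
  have h3 := desc8 n hn
  have e1 : ∑ t ∈ inj (Fin n) (4 + 4), ((8 * a * (N8 H t : ℤ) - 16 * Lo -
        DS (m := 7) (fun s => 6 * DS (m := 6) g s) (t : Fin (7 + 1) → Fin n) : ℤ) : ℝ) =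
      8 * a * ∑ t ∈ inj (Fin n) (4 + 4), ((N8 H t : ℤ) : ℝ) -
        16 * Lo * (n.descFactorial (4 + 4) : ℝ) -
        ∑ t ∈ inj (Fin n) (4 + 4), ((DS (m := 7) (fun s => 6 * DS (m := 6) g s)
          (t : Fin (7 + 1) → Fin n) : ℤ) : ℝ) := by
    have hc : ((inj (Fin n) (4 + 4)).card : ℝ) = (n.descFactorial (4 + 4) : ℝ) := by
      rw [card_inj, Fintype.card_fin]
    have e2 : 16 * (Lo : ℝ) * (n.descFactorial (4 + 4) : ℝ) =
        ∑ _t ∈ inj (Fin n) (4 + 4), 16 * (Lo : ℝ) := by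
      rw [Finset.sum_const, nsmul_eq_mul, hc]
      ring
    rw [e2, Finset.mul_sum, ← Finset.sum_sub_distrib, ← Finset.sum_sub_distrib]
    refine Finset.sum_congr rfl fun t _ => ?_
    rw [Int.cast_sub, Int.cast_sub, Int.cast_mul, Int.cast_mul, Int.cast_mul]
    rfl
  have e3 : ∑ p ∈ inj (Fin n) 6, ((14 * a * (N8 H p : ℤ) - 126 * g p - 6 * Lo : ℤ) : ℝ) =
      14 * a * ∑ p ∈ inj (Fin n) 6, ((N8 H p : ℤ) : ℝ) - 126 * ∑ p ∈ inj (Fin n) 6, ((g p : ℤ) : ℝ) -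
        6 * Lo * (n.descFactorial 6 : ℝ) := by
    have hc : ((inj (Fin n) 6).card : ℝ) = (n.descFactorial 6 : ℝ) := by
      rw [card_inj, Fintype.card_fin]
    have e2 : 6 * (Lo : ℝ) * (n.descFactorial 6 : ℝ) = ∑ _t ∈ inj (Fin n) 6, 6 * (Lo : ℝ) := by
      rw [Finset.sum_const, nsmul_eq_mul, hc]
      ring
    rw [e2, Finset.mul_sum, Finset.mul_sum, ← Finset.sum_sub_distrib, ← Finset.sum_sub_distrib]
    refine Finset.sum_congr rfl fun t _ => ?_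
    rw [Int.cast_sub, Int.cast_sub, Int.cast_mul, Int.cast_mul, Int.cast_mul, Int.cast_mul]
    rfl
  rw [e1, e3, h1, h2, h3]
  ring

theorem few_six (H : Finset (Finset (Fin n))) (a Lo : ℤ) (ha : 0 ≤ a) (g : (Fin 6 → Fin n) → ℤ)
    (G : ℝ) (hG : 0 ≤ G) (hg : ∀ p, ((g p : ℤ) : ℝ) ≤ G) (hn : n < 14) :
    -(14 * (126 * G + 6 * |(Lo : ℝ)|) * (n : ℝ) ^ 5) ≤ ∑ p ∈ inj (Fin n) 6,
        ((14 * a * (N8 H p : ℤ) - 126 * g p - 6 * Lo : ℤ) : ℝ) := by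
  have hcard : ((inj (Fin n) 6).card : ℝ) = (n.descFactorial 6 : ℝ) := by
    rw [card_inj, Fintype.card_fin]
  have haR : (0 : ℝ) ≤ a := by exact_mod_cast ha
  have h3 : ∀ p ∈ inj (Fin n) 6, -(126 * G + 6 * |(Lo : ℝ)|) ≤
      ((14 * a * (N8 H p : ℤ) - 126 * g p - 6 * Lo : ℤ) : ℝ) := by
    intro p _
    have h6 := hg p
    have h7 := le_abs_self (Lo : ℝ)
    have h8 : (0 : ℝ) ≤ 14 * a * ((N8 H p : ℤ) : ℝ) :=
      mul_nonneg (by positivity) (Int.cast_nonneg (Int.natCast_nonneg _))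
    rw [Int.cast_sub, Int.cast_sub, Int.cast_mul, Int.cast_mul, Int.cast_mul, Int.cast_mul]
    have c1 : ((14 : ℤ) : ℝ) = 14 := by norm_num
    have c2 : ((126 : ℤ) : ℝ) = 126 := by norm_num
    have c3 : ((6 : ℤ) : ℝ) = 6 := by norm_num
    rw [c1, c2, c3]
    linarith
  have h4 := Finset.sum_le_sum h3
  rw [Finset.sum_const, nsmul_eq_mul, hcard] at h4
  refine le_trans ?_ h4
  have h5 : (n.descFactorial 6 : ℝ) ≤ 14 * (n : ℝ) ^ 5 := by
    have h6 : (n.descFactorial 6 : ℝ) ≤ (n : ℝ) ^ 6 := by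
      exact_mod_cast Nat.descFactorial_le_pow _ _
    have h7 : (n : ℝ) ≤ 14 := by exact_mod_cast hn.le
    have h8 : (n : ℝ) ^ 6 = n * (n : ℝ) ^ 5 := by ring
    have h9 : (n : ℝ) * (n : ℝ) ^ 5 ≤ 14 * (n : ℝ) ^ 5 :=
      mul_le_mul_of_nonneg_right h7 (by positivity)
    linarith
  have h6 : 0 ≤ 126 * G + 6 * |(Lo : ℝ)| := by positivity
  have h7 := mul_le_mul_of_nonneg_right h5 h6
  linarith

end six

/-- The linear inequality for the six-tuples. -/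
theorem cut6 (S : PsiSys) (κ6 : Kern 6) {W m U : ℕ} (hU : UOK W m U)
    (hrow : ∀ (n : ℕ) (H E' : Finset (Finset (Fin n))) (s : Fin 7 → Fin n), PsiSys.Pr H E' s →
      0 ≤ (addU S hU).row H E' s)
    (hB : ∀ (n : ℕ) (E' : Finset (Finset (Fin n))), (∀ e ∈ E', e.card = 4) → EvenH n E' →
      ∀ t : Fin (7 + 1) → Fin n, Function.Injective t →
        PS (κ6.f E') t ≤ DS (m := 7) (S.B E') t) :
    ∃ C : ℝ, ∀ (n : ℕ) (H : Finset (Finset (Fin n))), (∀ e ∈ H, e.card = 4) →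
      (∀ T : Finset (Fin n), T.card = 5 → ∃ e ∈ T.powersetCard 4, e ∉ H) →
      -(C * (n : ℝ) ^ 5) ≤ ∑ p ∈ inj (Fin n) 6,
        ((14 * S.a * (N8 H p : ℤ) - 126 * (uv W U H p : ℤ) - 6 * S.Lo : ℤ) : ℝ) := by
  have hCB : 0 ≤ S.CB :=
    le_trans (abs_nonneg _) (S.hCB (∅ : Finset (Finset (Fin 1))) fun _ => 0)
  obtain ⟨C0, hC0⟩ : ∃ C0 : ℝ, C0 = |336 * S.k5.C| + (2 * |56 * κ6.C| + 112 * S.CB) := ⟨_, rfl⟩
  have hC00 : 0 ≤ C0 := by rw [hC0]; positivity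
  refine ⟨42 * C0 + 14 * (126 * 2 ^ m + 6 * |(S.Lo : ℝ)|), fun n H h4 h5 => ?_⟩
  have h1 := cut8 S κ6 (fun {n} H s => 6 * DS (m := 6) (fun p => (uv W U H p : ℤ)) s)
    (fun n H E' s hP => by
      have h := hrow n H E' s hP
      rw [row_addU] at h
      linarith) hB n H h4 h5
  rw [← hC0] at h1
  have hg : ∀ p : Fin 6 → Fin n, (((uv W U H p : ℕ) : ℤ) : ℝ) ≤ 2 ^ m := by
    intro p
    have h6 := (uv_lt hU H p).le
    have h7 : ((uv W U H p : ℕ) : ℝ) ≤ ((2 ^ m : ℕ) : ℝ) := by exact_mod_cast h6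
    rw [Int.cast_natCast]
    rw [Nat.cast_pow] at h7
    exact h7
  have hp : (0 : ℝ) ≤ (n : ℝ) ^ 5 := by positivity
  rcases Nat.lt_or_ge n 14 with hn | hn
  · have h2 := few_six H S.a S.Lo S.ha.le (fun p => (uv W U H p : ℤ)) (2 ^ m) (by positivity) hg hn
    have h3 : 0 ≤ 42 * C0 * (n : ℝ) ^ 5 := by positivity
    refine le_trans ?_ h2
    linarith
  · have e1 := sum_cut H S.a S.Lo (fun p => (uv W U H p : ℤ)) hn
    have h2 := arith_six n C0 _ hn hC00 (le_trans h1 (le_of_eq e1))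
    have h3 : 0 ≤ 14 * (126 * 2 ^ m + 6 * |(S.Lo : ℝ)|) * (n : ℝ) ^ 5 := by positivity
    refine le_trans ?_ h2
    linarith

end Pool.Agent.Lib.MP_afdd4d_co.K9.Ug
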