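import Pool.Agent.Lib.MP_afdd4d_co.K9.T4K

/-!
# Extremal 4-graphs without `K_5`

A 4-graph on `m` vertices with the largest number of edges without `K_5` has, for all nonnegative
weights of the vertices, a weighted number of edges that is at most the one given by its density:
a random map from the vertices to the vertices pulls it back to a 4-graph without `K_5`.
-/

namespace Pool.Agent.Lib.MP_afdd4d_co.K9.Star

open Finset K8

/-- No 4-graph on the same vertices without `K_5` has more edges. -/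
def Ext (n : ℕ) (H : Finset (Finset (Fin n))) : Prop :=
  ∀ H' : Finset (Finset (Fin n)), (∀ e ∈ H', e.card = 4) → K5F H' → H'.card ≤ H.card

theorem red_ext : Red Ext := by
  intro ε hε N
  refine ⟨max N 1, fun n hn H hH hK hd => ?_⟩
  have hn0 : (0 : ℝ) < n := by
    exact_mod_cast lt_of_lt_of_le Nat.zero_lt_one (le_trans (le_max_right _ _) hn)
  classical
  obtain ⟨H', hH', hmax⟩ := Finset.exists_max_image
    ((univ : Finset (Finset (Finset (Fin n)))).filter fun H' => (∀ e ∈ H', e.card = 4) ∧ K5F H')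
    (fun H' => H'.card) ⟨H, by
      rw [Finset.mem_filter]
      exact ⟨Finset.mem_univ _, hH, hK⟩⟩
  rw [Finset.mem_filter] at hH'
  refine ⟨n, le_trans (le_max_left _ _) hn, H', hH'.2.1, hH'.2.2, ?_, ?_⟩
  · intro H'' h1 h2
    exact hmax H'' (by
      rw [Finset.mem_filter]
      exact ⟨Finset.mem_univ _, h1, h2⟩)
  · have h1 : H.card ≤ H'.card := hmax H (by
      rw [Finset.mem_filter]
      exact ⟨Finset.mem_univ _, hH, hK⟩)
    have h2 : e4 H ≤ e4 H' := by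
      unfold e4
      refine div_le_div_of_nonneg_right ?_ (by positivity)
      have : (H.card : ℝ) ≤ (H'.card : ℝ) := by exact_mod_cast h1
      linarith
    linarith

/-! ### Pullbacks -/

section pull
variable {n k : ℕ}

/-- The quadruples whose image is a member. -/
def pull (H : Finset (Finset (Fin n))) (φ : Fin k → Fin n) : Finset (Finset (Fin k)) :=
  ((univ : Finset (Fin k)).powersetCard 4).filter fun e => e.image φ ∈ H

theorem mem_pull (H : Finset (Finset (Fin n))) (φ : Fin k → Fin n) (e : Finset (Fin k)) :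
    e ∈ pull H φ ↔ e.card = 4 ∧ e.image φ ∈ H := by
  unfold pull
  rw [Finset.mem_filter, Finset.mem_powersetCard]
  exact ⟨fun h => ⟨h.1.2, h.2⟩, fun h => ⟨⟨Finset.subset_univ _, h.1⟩, h.2⟩⟩

theorem pull_card (H : Finset (Finset (Fin n))) (φ : Fin k → Fin n) :
    ∀ e ∈ pull H φ, e.card = 4 := fun e he => ((mem_pull H φ e).mp he).1

theorem pull_K5F (H : Finset (Finset (Fin n))) (h4 : ∀ e ∈ H, e.card = 4) (hK : K5F H)
    (φ : Fin k → Fin n) : K5F (pull H φ) := by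
  intro S hS
  by_cases hi : Set.InjOn φ (S : Set (Fin k))
  · have hc : (S.image φ).card = 5 := by
      rw [Finset.card_image_of_injOn hi, hS]
    obtain ⟨e, he, heH⟩ := hK (S.image φ) hc
    rw [Finset.mem_powersetCard] at he
    obtain ⟨s, hs, hse⟩ := Finset.subset_image_iff.mp he.1
    have hs' : s ⊆ S := by exact_mod_cast hs
    have hsc : s.card = 4 := by
      rw [← he.2, ← hse, Finset.card_image_of_injOn (hi.mono hs)]
    refine ⟨s, Finset.mem_powersetCard.mpr ⟨hs', hsc⟩, ?_⟩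
    intro h
    exact heH (by rw [← hse]; exact ((mem_pull H φ s).mp h).2)
  · have h1 : ∃ x ∈ S, ∃ y ∈ S, φ x = φ y ∧ x ≠ y := by
      by_contra hcon
      apply hi
      intro x hx y hy hxy
      by_contra hne
      exact hcon ⟨x, hx, y, hy, hxy, hne⟩
    obtain ⟨x, hx, y, hy, hxy, hne⟩ := h1
    have h2 : ({x, y} : Finset (Fin k)) ⊆ S := by
      intro z hz
      rw [Finset.mem_insert, Finset.mem_singleton] at hz
      rcases hz with rfl | rfl
      · exact hx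
      · exact hy
    obtain ⟨u, hu1, hu2, hu3⟩ := Finset.exists_subsuperset_card_eq (n := 4) h2
      (by rw [Finset.card_pair hne]; norm_num) (by rw [hS]; norm_num)
    refine ⟨u, Finset.mem_powersetCard.mpr ⟨hu2, hu3⟩, ?_⟩
    intro h
    have h3 := h4 _ ((mem_pull H φ u).mp h).2
    have h5 : Set.InjOn φ (u : Set (Fin k)) := by
      rw [← Finset.card_image_iff, h3, hu3]
    exact hne (h5 (hu1 (Finset.mem_insert_self _ _))
      (hu1 (Finset.mem_insert_of_mem (Finset.mem_singleton_self _))) hxy)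

/-- The indicator of an edge at an ordered quadruple. -/
noncomputable def kE (H : Finset (Finset (Fin n))) (q : Fin 4 → Fin n) : ℝ :=
  if univ.image q ∈ H then 1 else 0

theorem kE_inj (H : Finset (Finset (Fin n))) (h4 : ∀ e ∈ H, e.card = 4) (q : Fin 4 → Fin n)
    (h : ¬ Function.Injective q) : kE H q = 0 := by
  unfold kE
  rw [if_neg]
  intro h1
  apply h
  have h2 := h4 _ h1
  have h3 : (univ.image q).card = (univ : Finset (Fin 4)).card := by
    rw [h2, Finset.card_univ, Fintype.card_fin]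
  rw [Finset.card_image_iff] at h3
  intro a b hab
  exact h3 (Finset.mem_coe.mpr (Finset.mem_univ a)) (Finset.mem_coe.mpr (Finset.mem_univ b)) hab

theorem kE_perm (H : Finset (Finset (Fin n))) (q : Fin 4 → Fin n) (σ : Equiv.Perm (Fin 4)) :
    kE H (q ∘ σ) = kE H q := by
  unfold kE
  have h1 : univ.image (q ∘ σ) = univ.image q := by
    ext x
    simp only [Finset.mem_image, Finset.mem_univ, true_and, Function.comp_apply]
    constructor
    · rintro ⟨a, ha⟩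
      exact ⟨σ a, ha⟩
    · rintro ⟨a, ha⟩
      exact ⟨σ.symm a, by rw [Equiv.apply_symm_apply]; exact ha⟩
  rw [h1]

/-- The number of members of a 4-graph. -/
theorem card_eq_kE (H : Finset (Finset (Fin n))) (h4 : ∀ e ∈ H, e.card = 4) :
    ∑ q : Fin 4 → Fin n, kE H q = 24 * (H.card : ℝ) := by
  have h1 := sum_img (V := Fin n) (fun Q => if Q ∈ H then (1 : ℝ) else 0)
  have h2 : ∑ Q ∈ (univ : Finset (Fin n)).powersetCard 4, (if Q ∈ H then (1 : ℝ) else 0) =
      (H.card : ℝ) := by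
    rw [← Finset.sum_filter, Finset.sum_const, nsmul_eq_mul, mul_one]
    congr 2
    ext Q
    rw [Finset.mem_filter, Finset.mem_powersetCard]
    exact ⟨fun h => h.2, fun h => ⟨⟨Finset.subset_univ _, h4 Q h⟩, h⟩⟩
  rw [h2] at h1
  rw [← h1]
  refine Finset.sum_congr rfl fun q _ => ?_
  by_cases h : Function.Injective q
  · rw [if_pos h]
    rfl
  · rw [if_neg h]
    exact kE_inj H h4 q h

theorem kE_pull (H : Finset (Finset (Fin n))) (φ : Fin k → Fin n)
    (p : Fin 4 → Fin k) (hp : Function.Injective p) : kE (pull H φ) p = kE H (φ ∘ p) := by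
  unfold kE
  have h1 : univ.image p ∈ pull H φ ↔ univ.image (φ ∘ p) ∈ H := by
    rw [mem_pull, Finset.image_image]
    constructor
    · exact fun h => h.2
    · intro h
      refine ⟨?_, h⟩
      rw [Finset.card_image_of_injective _ hp, Finset.card_univ, Fintype.card_fin]
  by_cases h : univ.image p ∈ pull H φ
  · rw [if_pos h, if_pos (h1.mp h)]
  · rw [if_neg h, if_neg (fun h2 => h (h1.mpr h2))]

/-- The sum over all maps, with product weights, of a function of four of the values. -/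
theorem sum_marg {V : Type*} [Fintype V] [DecidableEq V] (w : V → ℝ) (F : (Fin 4 → V) → ℝ)
    (p : Fin 4 → Fin k) (hp : Function.Injective p) :
    ∑ φ : Fin k → V, (∏ i, w (φ i)) * F (φ ∘ p) =
      (∑ v, w v) ^ (k - 4) * ∑ q : Fin 4 → V, (∏ j, w (q j)) * F q := by
  classical
  let R := {i : Fin k // i ∉ Set.range p}
  let e : Fin 4 ⊕ R ≃ Fin k :=
    (Equiv.sumCongr (Equiv.ofInjective p hp) (Equiv.refl _)).trans
      (Equiv.Set.sumCompl (Set.range p))
  have e1 : ∀ j : Fin 4, e (Sum.inl j) = p j := by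
    intro j
    exact Equiv.Set.sumCompl_apply_inl (Set.range p) (Equiv.ofInjective p hp j)
  have hR : Fintype.card R = k - 4 := by
    have h := Fintype.card_congr e
    rw [Fintype.card_sum, Fintype.card_fin, Fintype.card_fin] at h
    omega
  let E : ((Fin 4 → V) × (R → V)) ≃ (Fin k → V) :=
    (Equiv.sumArrowEquivProdArrow (Fin 4) R V).symm.trans (Equiv.arrowCongr e (Equiv.refl V))
  have hE1 : ∀ (q : Fin 4 → V) (r : R → V), (E (q, r)) ∘ p = q := by
    intro q r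
    funext j
    show Sum.elim q r (e.symm (p j)) = q j
    rw [← e1, Equiv.symm_apply_apply]
    rfl
  have hE2 : ∀ (q : Fin 4 → V) (r : R → V), ∏ i, w (E (q, r) i) =
      (∏ j, w (q j)) * ∏ i, w (r i) := by
    intro q r
    rw [← e.prod_comp, Fintype.prod_sum_type]
    congr 1
    · refine Finset.prod_congr rfl fun j _ => ?_
      show w (Sum.elim q r (e.symm (e (Sum.inl j)))) = w (q j)
      rw [Equiv.symm_apply_apply]
      rfl
    · refine Finset.prod_congr rfl fun j _ => ?_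
      show w (Sum.elim q r (e.symm (e (Sum.inr j)))) = w (r j)
      rw [Equiv.symm_apply_apply]
      rfl
  have hs : ∑ r : R → V, ∏ i, w (r i) = (∑ v, w v) ^ (k - 4) := by
    have h := Finset.prod_univ_sum (fun _ : R => (univ : Finset V)) (fun _ v => w v)
    rw [Finset.prod_const, Finset.card_univ, hR, Fintype.piFinset_univ] at h
    exact h.symm
  rw [← E.sum_comp, Fintype.sum_prod_type, Finset.mul_sum]
  refine Finset.sum_congr rfl fun q _ => ?_
  have h3 : ∀ r : R → V, (∏ i, w (E (q, r) i)) * F (E (q, r) ∘ p) =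
      (∏ i, w (r i)) * ((∏ j, w (q j)) * F q) := by
    intro r
    rw [hE1, hE2]
    ring
  rw [Finset.sum_congr rfl fun r _ => h3 r, ← Finset.sum_mul, hs]

end pull

/-! ### The Lagrangian of an extremal 4-graph -/

section lag
variable {n : ℕ}

/-- The weighted number of ordered edges. -/
noncomputable def lag (H : Finset (Finset (Fin n))) (w : Fin n → ℝ) : ℝ :=
  ∑ q : Fin 4 → Fin n, (∏ j, w (q j)) * kE H q

/-- The Lagrangian of an extremal 4-graph is at most the value at equal weights. -/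
theorem lag_le (H : Finset (Finset (Fin n))) (h4 : ∀ e ∈ H, e.card = 4) (hK : K5F H)
    (hE : Ext n H) (hn : 4 ≤ n) (w : Fin n → ℝ) (hw : ∀ i, 0 ≤ w i) (hw0 : 0 < ∑ i, w i) :
    (n.descFactorial 4 : ℝ) * lag H w ≤ 24 * (H.card : ℝ) * (∑ i, w i) ^ 4 := by
  have h1 : ∑ φ : Fin n → Fin n, (∏ i, w (φ i)) * (24 * ((pull H φ).card : ℝ)) ≤
      ∑ φ : Fin n → Fin n, (∏ i, w (φ i)) * (24 * (H.card : ℝ)) := by
    refine Finset.sum_le_sum fun φ _ => ?_
    refine mul_le_mul_of_nonneg_left ?_ (Finset.prod_nonneg fun i _ => hw _)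
    have h2 := hE (pull H φ) (pull_card H φ) (pull_K5F H h4 hK φ)
    have h3 : ((pull H φ).card : ℝ) ≤ (H.card : ℝ) := by exact_mod_cast h2
    linarith
  have h2 : ∑ φ : Fin n → Fin n, ∏ i, w (φ i) = (∑ v, w v) ^ n := by
    have h := Finset.prod_univ_sum (fun _ : Fin n => (univ : Finset (Fin n))) (fun _ v => w v)
    rw [Finset.prod_const, Finset.card_univ, Fintype.card_fin, Fintype.piFinset_univ] at h
    exact h.symm
  rw [← Finset.sum_mul, h2] at h1
  have h3 : ∑ φ : Fin n → Fin n, (∏ i, w (φ i)) * (24 * ((pull H φ).card : ℝ)) =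
      (n.descFactorial 4 : ℝ) * ((∑ v, w v) ^ (n - 4) * lag H w) := by
    have h5 : ∀ φ : Fin n → Fin n, (∏ i, w (φ i)) * (24 * ((pull H φ).card : ℝ)) =
        ∑ p ∈ inj (Fin n) 4, (∏ i, w (φ i)) * kE H (φ ∘ p) := by
      intro φ
      rw [← card_eq_kE (pull H φ) (pull_card H φ), Finset.mul_sum, inj, Finset.sum_filter]
      refine Finset.sum_congr rfl fun p _ => ?_
      split_ifs with h
      · rw [kE_pull H φ p h]
      · rw [kE_inj _ (pull_card H φ) p h, mul_zero]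
    rw [Finset.sum_congr rfl fun φ _ => h5 φ, Finset.sum_comm]
    have h6 : ∀ p ∈ inj (Fin n) 4, ∑ φ : Fin n → Fin n, (∏ i, w (φ i)) * kE H (φ ∘ p) =
        (∑ v, w v) ^ (n - 4) * lag H w := fun p hp => sum_marg w (kE H) p (mem_inj.mp hp)
    rw [Finset.sum_congr rfl h6, Finset.sum_const, nsmul_eq_mul, card_inj, Fintype.card_fin]
  rw [h3] at h1
  have h7 : (∑ v, w v) ^ n = (∑ v, w v) ^ (n - 4) * (∑ v, w v) ^ 4 := by
    rw [← pow_add]
    congr 1
    omega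
  rw [h7] at h1
  have h8 : 0 < (∑ v, w v) ^ (n - 4) := by positivity
  refine le_of_mul_le_mul_left ?_ h8
  linarith

/-- Permutations of the vertices of an ordered edge. -/
theorem sum_kE_perm (H : Finset (Finset (Fin n))) (F : (Fin 4 → Fin n) → ℝ)
    (σ : Equiv.Perm (Fin 4)) : ∑ q, F (q ∘ σ) * kE H q = ∑ q, F q * kE H q := by
  have h := (Equiv.arrowCongr σ.symm (Equiv.refl (Fin n))).sum_comp
    (fun q : Fin 4 → Fin n => F q * kE H q)
  rw [← h]
  refine Finset.sum_congr rfl fun q _ => ?_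
  have h1 : (Equiv.arrowCongr σ.symm (Equiv.refl (Fin n))) q = q ∘ σ := by
    funext i
    rfl
  rw [h1, kE_perm]

/-- The sum of the products of the values of a function at two vertices of the ordered edges. -/
noncomputable def B2 (H : Finset (Finset (Fin n))) (g : Fin n → ℝ) : ℝ :=
  ∑ q : Fin 4 → Fin n, (g (q 0) * g (q 1)) * kE H q

/-- The sum of the products of the values of a function at the vertices of the ordered edges. -/
noncomputable def B4 (H : Finset (Finset (Fin n))) (g : Fin n → ℝ) : ℝ :=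
  ∑ q : Fin 4 → Fin n, (g (q 0) * g (q 1) * g (q 2) * g (q 3)) * kE H q

theorem lag_pm (H : Finset (Finset (Fin n))) (h4 : ∀ e ∈ H, e.card = 4) (g : Fin n → ℝ) (t : ℝ) :
    lag H (fun i => 1 + t * g i) + lag H (fun i => 1 - t * g i) =
      2 * (24 * (H.card : ℝ)) + 12 * t ^ 2 * B2 H g + 2 * t ^ 4 * B4 H g := by
  have h01 : ∑ q : Fin 4 → Fin n, (g (q 0) * g (q 1)) * kE H q = B2 H g := rfl
  have h02 : ∑ q : Fin 4 → Fin n, (g (q 0) * g (q 2)) * kE H q = B2 H g :=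
    sum_kE_perm H (fun q => g (q 0) * g (q 1)) (Equiv.swap 1 2)
  have h03 : ∑ q : Fin 4 → Fin n, (g (q 0) * g (q 3)) * kE H q = B2 H g :=
    sum_kE_perm H (fun q => g (q 0) * g (q 1)) (Equiv.swap 1 3)
  have h12 : ∑ q : Fin 4 → Fin n, (g (q 2) * g (q 1)) * kE H q = B2 H g :=
    sum_kE_perm H (fun q => g (q 0) * g (q 1)) (Equiv.swap 0 2)
  have h13 : ∑ q : Fin 4 → Fin n, (g (q 3) * g (q 1)) * kE H q = B2 H g :=
    sum_kE_perm H (fun q => g (q 0) * g (q 1)) (Equiv.swap 0 3)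
  have h23 : ∑ q : Fin 4 → Fin n, (g (q 2) * g (q 3)) * kE H q = B2 H g := by
    have e0 : (Equiv.swap 0 2 * Equiv.swap 1 3 : Equiv.Perm (Fin 4)) 0 = 2 := by decide
    have e1 : (Equiv.swap 0 2 * Equiv.swap 1 3 : Equiv.Perm (Fin 4)) 1 = 3 := by decide
    have h := sum_kE_perm H (fun q => g (q 0) * g (q 1)) (Equiv.swap 0 2 * Equiv.swap 1 3)
    simp only [Function.comp_apply, e0, e1] at h
    exact h
  have hc := card_eq_kE H h4
  unfold lag
  rw [← Finset.sum_add_distrib]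
  have h5 : ∀ q : Fin 4 → Fin n, (∏ j, (1 + t * g (q j))) * kE H q +
      (∏ j, (1 - t * g (q j))) * kE H q =
      2 * kE H q + 2 * t ^ 2 * ((g (q 0) * g (q 1)) * kE H q) +
      2 * t ^ 2 * ((g (q 0) * g (q 2)) * kE H q) + 2 * t ^ 2 * ((g (q 0) * g (q 3)) * kE H q) +
      2 * t ^ 2 * ((g (q 2) * g (q 1)) * kE H q) + 2 * t ^ 2 * ((g (q 3) * g (q 1)) * kE H q) +
      2 * t ^ 2 * ((g (q 2) * g (q 3)) * kE H q) +
      2 * t ^ 4 * ((g (q 0) * g (q 1) * g (q 2) * g (q 3)) * kE H q) := by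
    intro q
    rw [Fin.prod_univ_four, Fin.prod_univ_four]
    ring
  rw [Finset.sum_congr rfl fun q _ => h5 q]
  simp_rw [Finset.sum_add_distrib, ← Finset.mul_sum]
  rw [hc, h01, h02, h03, h12, h13, h23]
  unfold B4
  ring

theorem kE_nonneg (H : Finset (Finset (Fin n))) (q : Fin 4 → Fin n) : 0 ≤ kE H q := by
  unfold kE
  split_ifs <;> norm_num

theorem abs_B2_le (H : Finset (Finset (Fin n))) (h4 : ∀ e ∈ H, e.card = 4) (g : Fin n → ℝ)
    (hg : ∀ i, |g i| ≤ 1) : |B2 H g| ≤ 24 * (H.card : ℝ) := by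
  rw [← card_eq_kE H h4]
  unfold B2
  refine le_trans (Finset.abs_sum_le_sum_abs _ _) (Finset.sum_le_sum fun q _ => ?_)
  rw [abs_mul, abs_mul, abs_of_nonneg (kE_nonneg H q)]
  have h1 : |g (q 0)| * |g (q 1)| ≤ 1 := mul_le_one₀ (hg _) (abs_nonneg _) (hg _)
  have h2 := kE_nonneg H q
  nlinarith

theorem abs_B4_le (H : Finset (Finset (Fin n))) (h4 : ∀ e ∈ H, e.card = 4) (g : Fin n → ℝ)
    (hg : ∀ i, |g i| ≤ 1) : |B4 H g| ≤ 24 * (H.card : ℝ) := by
  rw [← card_eq_kE H h4]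
  unfold B4
  refine le_trans (Finset.abs_sum_le_sum_abs _ _) (Finset.sum_le_sum fun q _ => ?_)
  rw [abs_mul, abs_mul, abs_mul, abs_mul, abs_of_nonneg (kE_nonneg H q)]
  have h1 : |g (q 0)| * |g (q 1)| ≤ 1 := mul_le_one₀ (hg _) (abs_nonneg _) (hg _)
  have h3 : |g (q 0)| * |g (q 1)| * |g (q 2)| ≤ 1 := mul_le_one₀ h1 (abs_nonneg _) (hg _)
  have h5 : |g (q 0)| * |g (q 1)| * |g (q 2)| * |g (q 3)| ≤ 1 :=
    mul_le_one₀ h3 (abs_nonneg _) (hg _)
  have h2 := kE_nonneg H q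
  nlinarith

theorem desc4_eq (hn : 4 ≤ n) :
    (n.descFactorial 4 : ℝ) = (n : ℝ) ^ 4 - 6 * (n : ℝ) ^ 3 + 11 * (n : ℝ) ^ 2 - 6 * n := by
  obtain ⟨m, rfl⟩ := Nat.exists_eq_add_of_le hn
  have e1 : (4 + m).descFactorial 4 =
      (4 + m - 3) * ((4 + m - 2) * ((4 + m - 1) * (4 + m - 0))) := by
    rw [Nat.descFactorial_succ, Nat.descFactorial_succ, Nat.descFactorial_succ,
      Nat.descFactorial_succ, Nat.descFactorial_zero, mul_one]
  have c1 : 4 + m - 3 = m + 1 := by omega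
  have c2 : 4 + m - 2 = m + 2 := by omega
  have c3 : 4 + m - 1 = m + 3 := by omega
  have c4 : 4 + m - 0 = m + 4 := by omega
  rw [e1, c1, c2, c3, c4]
  push_cast
  ring

/-- The second-order condition for an extremal 4-graph. -/
theorem hess (H : Finset (Finset (Fin n))) (h4 : ∀ e ∈ H, e.card = 4) (hK : K5F H)
    (hE : Ext n H) (hn : 4 ≤ n) (hd : 11 / 16 ≤ e4 H) (g : Fin n → ℝ) (hg : ∀ i, |g i| ≤ 1) (t : ℝ)
    (ht0 : 0 < t) (ht1 : t < 1) :
    -((n : ℝ) ^ 4 * ((e4 H - 11 / 16) + 6 / n + 1 / (n * t ^ 2) + t ^ 2 / 3)) ≤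
      11 / 16 * (n : ℝ) ^ 2 * (∑ i, g i) ^ 2 - B2 H g := by
  have hn0 : (0 : ℝ) < n := by exact_mod_cast (by omega : 0 < n)
  have hn1 : (4 : ℝ) ≤ n := by exact_mod_cast hn
  set S : ℝ := ∑ i, g i with hS
  have hSn : |S| ≤ n := by
    refine le_trans (Finset.abs_sum_le_sum_abs _ _) ?_
    refine le_trans (Finset.sum_le_sum fun i _ => hg i) ?_
    rw [Finset.sum_const, Finset.card_univ, Fintype.card_fin, nsmul_eq_mul, mul_one]
  have hS2 : S ^ 2 ≤ (n : ℝ) ^ 2 := by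
    rw [← sq_abs S]
    exact pow_le_pow_left₀ (abs_nonneg _) hSn 2
  have hS4 : S ^ 4 ≤ (n : ℝ) ^ 4 := by
    have h1 : S ^ 4 = (S ^ 2) ^ 2 := by ring
    have h2 : (n : ℝ) ^ 4 = ((n : ℝ) ^ 2) ^ 2 := by ring
    rw [h1, h2]
    exact pow_le_pow_left₀ (sq_nonneg _) hS2 2
  have htg : ∀ i, |t * g i| ≤ t := by
    intro i
    rw [abs_mul, abs_of_pos ht0]
    have := hg i
    nlinarith
  have hp : ∀ i, 0 ≤ 1 + t * g i := by
    intro i
    have := (abs_le.mp (htg i)).1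
    linarith
  have hm : ∀ i, 0 ≤ 1 - t * g i := by
    intro i
    have := (abs_le.mp (htg i)).2
    linarith
  have sp : ∑ i, (1 + t * g i) = n + t * S := by
    rw [Finset.sum_add_distrib, ← Finset.mul_sum, Finset.sum_const, Finset.card_univ,
      Fintype.card_fin, nsmul_eq_mul, mul_one]
  have sm : ∑ i, (1 - t * g i) = n - t * S := by
    rw [Finset.sum_sub_distrib, ← Finset.mul_sum, Finset.sum_const, Finset.card_univ,
      Fintype.card_fin, nsmul_eq_mul, mul_one]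
  have htS : |t * S| < n := by
    rw [abs_mul, abs_of_pos ht0]
    have h1 : t * |S| ≤ t * n := mul_le_mul_of_nonneg_left hSn ht0.le
    have h2 : t * n < 1 * n := mul_lt_mul_of_pos_right ht1 hn0
    linarith
  have hp0 : 0 < ∑ i, (1 + t * g i) := by
    rw [sp]
    have := (abs_lt.mp htS).1
    linarith
  have hm0 : 0 < ∑ i, (1 - t * g i) := by
    rw [sm]
    have := (abs_lt.mp htS).2
    linarith
  have l1 := lag_le H h4 hK hE hn (fun i => 1 + t * g i) hp hp0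
  have l2 := lag_le H h4 hK hE hn (fun i => 1 - t * g i) hm hm0
  rw [sp] at l1
  rw [sm] at l2
  have l3 := lag_pm H h4 g t
  set h : ℝ := 24 * (H.card : ℝ) with hh
  have hh0 : 0 ≤ h := by positivity
  have b2 := abs_B2_le H h4 g hg
  have b4 := abs_B4_le H h4 g hg
  rw [← hh] at b2 b4
  set D : ℝ := (n.descFactorial 4 : ℝ) with hD
  have hDeq : D = (n : ℝ) ^ 4 - 6 * (n : ℝ) ^ 3 + 11 * (n : ℝ) ^ 2 - 6 * n := desc4_eq hn
  have hD1 : (n : ℝ) ^ 4 - 6 * (n : ℝ) ^ 3 ≤ D := by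
    rw [hDeq]
    nlinarith
  have hD2 : D ≤ (n : ℝ) ^ 4 := desc_le n 4
  have hD0 : 0 ≤ D := Nat.cast_nonneg _
  have l4 : D * (2 * h + 12 * t ^ 2 * B2 H g + 2 * t ^ 4 * B4 H g) ≤
      h * (2 * (n : ℝ) ^ 4 + 12 * (n : ℝ) ^ 2 * (t ^ 2 * S ^ 2) + 2 * (t ^ 4 * S ^ 4)) := by
    rw [← l3]
    calc D * (lag H (fun i => 1 + t * g i) + lag H fun i => 1 - t * g i) =
        D * lag H (fun i => 1 + t * g i) + D * lag H (fun i => 1 - t * g i) := by ring
      _ ≤ h * (n + t * S) ^ 4 + h * (n - t * S) ^ 4 := add_le_add l1 l2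
      _ = _ := by ring
  have t2 : 0 < t ^ 2 := by positivity
  have t4 : 0 ≤ t ^ 4 := by positivity
  have c1 : -((n : ℝ) ^ 4 * h) ≤ D * B4 H g := by
    have h1 : |D * B4 H g| ≤ (n : ℝ) ^ 4 * h := by
      rw [abs_mul, abs_of_nonneg hD0]
      exact mul_le_mul hD2 b4 (abs_nonneg _) (by positivity)
    exact (abs_le.mp h1).1
  have c2 : h * S ^ 4 ≤ h * (n : ℝ) ^ 4 := mul_le_mul_of_nonneg_left hS4 hh0
  have c3 : h * ((n : ℝ) ^ 4 - 6 * (n : ℝ) ^ 3) ≤ h * D := mul_le_mul_of_nonneg_left hD1 hh0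
  have c4 : t ^ 4 * (-((n : ℝ) ^ 4 * h)) ≤ t ^ 4 * (D * B4 H g) := mul_le_mul_of_nonneg_left c1 t4
  have c5 : t ^ 4 * (h * S ^ 4) ≤ t ^ 4 * (h * (n : ℝ) ^ 4) := mul_le_mul_of_nonneg_left c2 t4
  have key : -(h * (12 * (n : ℝ) ^ 3 + 4 * t ^ 4 * (n : ℝ) ^ 4)) ≤
      12 * t ^ 2 * (h * ((n : ℝ) ^ 2 * S ^ 2) - D * B2 H g) := by
    have e1 : D * (2 * h + 12 * t ^ 2 * B2 H g + 2 * t ^ 4 * B4 H g) =
        2 * (h * D) + 12 * t ^ 2 * (D * B2 H g) + 2 * (t ^ 4 * (D * B4 H g)) := by ring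
    have e2 : h * (2 * (n : ℝ) ^ 4 + 12 * (n : ℝ) ^ 2 * (t ^ 2 * S ^ 2) + 2 * (t ^ 4 * S ^ 4)) =
        2 * (h * (n : ℝ) ^ 4) + 12 * t ^ 2 * (h * ((n : ℝ) ^ 2 * S ^ 2)) +
          2 * (t ^ 4 * (h * S ^ 4)) := by ring
    rw [e1, e2] at l4
    linarith
  have key2 : -(h * ((n : ℝ) ^ 3 / t ^ 2 + t ^ 2 * (n : ℝ) ^ 4 / 3)) ≤
      h * ((n : ℝ) ^ 2 * S ^ 2) - D * B2 H g := by
    have e1 : 12 * t ^ 2 * (-(h * ((n : ℝ) ^ 3 / t ^ 2 + t ^ 2 * (n : ℝ) ^ 4 / 3))) =
        -(h * (12 * (n : ℝ) ^ 3 + 4 * t ^ 4 * (n : ℝ) ^ 4)) := by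
      field_simp
      ring
    rw [← e1] at key
    exact le_of_mul_le_mul_left key (by positivity)
  -- the normalisation
  have he : h = (n : ℝ) ^ 4 * e4 H := by
    rw [hh]
    unfold e4
    field_simp
  have hcard := card_quads_le H h4
  have hhn : h ≤ (n : ℝ) ^ 4 := by
    rw [hh]
    linarith
  have d1 : (n : ℝ) ^ 4 * B2 H g ≤ D * B2 H g + 6 * (n : ℝ) ^ 3 * (n : ℝ) ^ 4 := by
    have h1 : ((n : ℝ) ^ 4 - D) * B2 H g ≤ 6 * (n : ℝ) ^ 3 * (n : ℝ) ^ 4 := by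
      have h2 : ((n : ℝ) ^ 4 - D) * B2 H g ≤ ((n : ℝ) ^ 4 - D) * (n : ℝ) ^ 4 :=
        mul_le_mul_of_nonneg_left (le_trans (le_abs_self _) (le_trans b2 hhn)) (by linarith)
      have h3 : ((n : ℝ) ^ 4 - D) * (n : ℝ) ^ 4 ≤ 6 * (n : ℝ) ^ 3 * (n : ℝ) ^ 4 :=
        mul_le_mul_of_nonneg_right (by linarith) (by positivity)
      linarith
    linarith
  have d2 : h * ((n : ℝ) ^ 3 / t ^ 2 + t ^ 2 * (n : ℝ) ^ 4 / 3) ≤
      (n : ℝ) ^ 4 * ((n : ℝ) ^ 3 / t ^ 2 + t ^ 2 * (n : ℝ) ^ 4 / 3) :=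
    mul_le_mul_of_nonneg_right hhn (by positivity)
  have d3 : (e4 H - 11 / 16) * S ^ 2 ≤ (e4 H - 11 / 16) * (n : ℝ) ^ 2 :=
    mul_le_mul_of_nonneg_left hS2 (by linarith)
  have d4 : (n : ℝ) ^ 6 * ((e4 H - 11 / 16) * S ^ 2) ≤
      (n : ℝ) ^ 6 * ((e4 H - 11 / 16) * (n : ℝ) ^ 2) :=
    mul_le_mul_of_nonneg_left d3 (by positivity)
  have fin : (n : ℝ) ^ 4 *
      (-((n : ℝ) ^ 4 * ((e4 H - 11 / 16) + 6 / n + 1 / (n * t ^ 2) + t ^ 2 / 3))) ≤
      (n : ℝ) ^ 4 * (11 / 16 * (n : ℝ) ^ 2 * S ^ 2 - B2 H g) := by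
    have e1 : (n : ℝ) ^ 4 *
        (-((n : ℝ) ^ 4 * ((e4 H - 11 / 16) + 6 / n + 1 / (n * t ^ 2) + t ^ 2 / 3))) =
        -((n : ℝ) ^ 6 * ((e4 H - 11 / 16) * (n : ℝ) ^ 2)) - 6 * (n : ℝ) ^ 3 * (n : ℝ) ^ 4 -
          (n : ℝ) ^ 4 * ((n : ℝ) ^ 3 / t ^ 2 + t ^ 2 * (n : ℝ) ^ 4 / 3) := by
      field_simp
      ring
    have e2 : (n : ℝ) ^ 4 * (11 / 16 * (n : ℝ) ^ 2 * S ^ 2 - B2 H g) =
        h * ((n : ℝ) ^ 2 * S ^ 2) - (n : ℝ) ^ 4 * B2 H g -
          (n : ℝ) ^ 6 * ((e4 H - 11 / 16) * S ^ 2) := by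
      rw [he]
      ring
    rw [e1, e2]
    linarith
  exact le_of_mul_le_mul_left fin (by positivity)

/-- The second-order condition, in the limit form. -/
theorem hess_lim (δ : ℝ) (hδ : 0 < δ) : ∃ N : ℕ, ∀ n : ℕ, N ≤ n →
    ∀ H : Finset (Finset (Fin n)), (∀ e ∈ H, e.card = 4) → K5F H → Ext n H → 11 / 16 ≤ e4 H →
    ∀ g : Fin n → ℝ, (∀ i, |g i| ≤ 1) →
      -(((e4 H - 11 / 16) + δ) * (n : ℝ) ^ 4) ≤
        ∑ q : Fin 4 → Fin n, (11 / 16 - kE H q) * (g (q 0) * g (q 1)) := by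
  set t : ℝ := min (1 / 2) (δ / 2) with ht
  have ht0 : 0 < t := lt_min (by norm_num) (by positivity)
  have ht1 : t < 1 := lt_of_le_of_lt (min_le_left _ _) (by norm_num)
  have ht2 : t ^ 2 / 3 ≤ δ / 2 := by
    have h1 : t ≤ δ / 2 := min_le_right _ _
    have h2 : t ^ 2 ≤ t * 1 := by
      rw [sq]
      exact mul_le_mul_of_nonneg_left ht1.le ht0.le
    linarith
  obtain ⟨N, hN⟩ := exists_nat_gt (2 * (6 + 1 / t ^ 2) / δ)
  refine ⟨max N 4, fun n hn H h4 hK hE hd g hg => ?_⟩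
  have hn4 : 4 ≤ n := le_trans (le_max_right _ _) hn
  have hnN : (N : ℝ) ≤ n := by exact_mod_cast le_trans (le_max_left _ _) hn
  have hn0 : (0 : ℝ) < n := by exact_mod_cast (by omega : 0 < n)
  have h1 := hess H h4 hK hE hn4 hd g hg t ht0 ht1
  have h2 : 6 / (n : ℝ) + 1 / (n * t ^ 2) ≤ δ / 2 := by
    have h3 : 2 * (6 + 1 / t ^ 2) / δ < n := lt_of_lt_of_le hN hnN
    rw [div_lt_iff₀ hδ] at h3
    have h4 : 6 / (n : ℝ) + 1 / (n * t ^ 2) = (6 + 1 / t ^ 2) / n := by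
      field_simp
    rw [h4, div_le_iff₀ hn0]
    linarith
  have h3 : ∑ q : Fin 4 → Fin n, (11 / 16 - kE H q) * (g (q 0) * g (q 1)) =
      11 / 16 * (n : ℝ) ^ 2 * (∑ i, g i) ^ 2 - B2 H g := by
    have h5 : ∀ q : Fin 4 → Fin n, (11 / 16 - kE H q) * (g (q 0) * g (q 1)) =
        11 / 16 * (g (q 0) * g (q 1)) - (g (q 0) * g (q 1)) * kE H q := by
      intro q
      ring
    rw [Finset.sum_congr rfl fun q _ => h5 q, Finset.sum_sub_distrib, ← Finset.mul_sum]
    have h6 : ∑ q : Fin 4 → Fin n, g (q 0) * g (q 1) = (n : ℝ) ^ 2 * (∑ i, g i) ^ 2 := by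
      have h7 := Finset.prod_univ_sum (fun _ : Fin 4 => (univ : Finset (Fin n)))
        (fun (j : Fin 4) v => (![g v, g v, 1, 1] : Fin 4 → ℝ) j)
      rw [Fintype.piFinset_univ, Fin.prod_univ_four] at h7
      have h8 : ∀ q : Fin 4 → Fin n,
          ∏ j : Fin 4, (![g (q j), g (q j), 1, 1] : Fin 4 → ℝ) j = g (q 0) * g (q 1) := by
        intro q
        rw [Fin.prod_univ_four]
        show g (q 0) * g (q 1) * 1 * 1 = _
        ring
      rw [Finset.sum_congr rfl fun q _ => h8 q] at h7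
      rw [← h7]
      have a0 : ∑ v : Fin n, (![g v, g v, 1, 1] : Fin 4 → ℝ) 0 = ∑ v, g v := rfl
      have a1 : ∑ v : Fin n, (![g v, g v, 1, 1] : Fin 4 → ℝ) 1 = ∑ v, g v := rfl
      have a2 : ∑ v : Fin n, (![g v, g v, 1, 1] : Fin 4 → ℝ) 2 = n := by
        show ∑ v : Fin n, (1 : ℝ) = n
        rw [Finset.sum_const, Finset.card_univ, Fintype.card_fin, nsmul_eq_mul, mul_one]
      have a3 : ∑ v : Fin n, (![g v, g v, 1, 1] : Fin 4 → ℝ) 3 = n := by
        show ∑ v : Fin n, (1 : ℝ) = n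
        rw [Finset.sum_const, Finset.card_univ, Fintype.card_fin, nsmul_eq_mul, mul_one]
      rw [a0, a1, a2, a3]
      ring
    rw [h6]
    unfold B2
    ring
  rw [h3]
  refine le_trans ?_ h1
  have h5 : (n : ℝ) ^ 4 * ((e4 H - 11 / 16) + 6 / n + 1 / (n * t ^ 2) + t ^ 2 / 3) ≤
      (n : ℝ) ^ 4 * ((e4 H - 11 / 16) + δ) := by
    refine mul_le_mul_of_nonneg_left ?_ (by positivity)
    linarith
  linarith

end lag

end Pool.Agent.Lib.MP_afdd4d_co.K9.Star
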