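import Pool.Agent.Lib.MP_afdd4d_co.K9.Ext

/-!
# The degrees of an extremal 4-graph
-/

namespace Pool.Agent.Lib.MP_afdd4d_co.K9.Star

open Finset K8

section deg
variable {n : ℕ}

/-- Replacing a vertex by a copy of another vertex. -/
theorem deg_le_of_ext (H : Finset (Finset (Fin n))) (h4 : ∀ e ∈ H, e.card = 4) (hK : K5F H)
    (hE : Ext n H) (u v : Fin n) (huv : u ≠ v) :
    (H.filter fun e => u ∈ e).card ≤
      (H.filter fun e => v ∈ e).card + (H.filter fun e => u ∈ e ∧ v ∈ e).card := by
  classical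
  set φ : Fin n → Fin n := Function.update id v u with hφ
  have hφv : φ v = u := by rw [hφ, Function.update_self]
  have hφw : ∀ w, w ≠ v → φ w = w := by
    intro w hw
    rw [hφ, Function.update_of_ne hw]
    rfl
  have h1 := hE (pull H φ) (pull_card H φ) (pull_K5F H h4 hK φ)
  set A := H.filter fun e => v ∉ e with hA
  set B := H.filter fun e => u ∈ e ∧ v ∉ e with hB
  set ι : Finset (Fin n) → Finset (Fin n) := fun e => insert v (e.erase u) with hι
  have hAp : A ⊆ pull H φ := by
    intro e he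
    rw [hA, Finset.mem_filter] at he
    rw [mem_pull]
    refine ⟨h4 e he.1, ?_⟩
    have h2 : e.image φ = e := by
      have h3 : e.image φ = e.image id := by
        refine Finset.image_congr fun w hw => ?_
        have hw' : w ≠ v := fun h => he.2 (by rw [← h]; exact hw)
        exact hφw w hw'
      rw [h3, Finset.image_id]
    rw [h2]
    exact he.1
  have hBp : B.image ι ⊆ pull H φ := by
    intro e he
    rw [Finset.mem_image] at he
    obtain ⟨e', he', rfl⟩ := he
    rw [hB, Finset.mem_filter] at he'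
    obtain ⟨h2, h3, h5⟩ := he'
    have h6 : v ∉ e'.erase u := fun h => h5 (Finset.mem_of_mem_erase h)
    rw [mem_pull]
    constructor
    · rw [hι]
      show (insert v (e'.erase u)).card = 4
      rw [Finset.card_insert_of_notMem h6, Finset.card_erase_of_mem h3, h4 e' h2]
    · have h7 : (ι e').image φ = e' := by
        rw [hι]
        show (insert v (e'.erase u)).image φ = e'
        rw [Finset.image_insert, hφv]
        have h8 : (e'.erase u).image φ = e'.erase u := by
          have h9 : (e'.erase u).image φ = (e'.erase u).image id := by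
            refine Finset.image_congr fun w hw => ?_
            have hw' : w ≠ v := fun h => h6 (by rw [← h]; exact hw)
            exact hφw w hw'
          rw [h9, Finset.image_id]
        rw [h8, Finset.insert_erase h3]
      rw [h7]
      exact h2
  have hdis : Disjoint A (B.image ι) := by
    rw [Finset.disjoint_left]
    intro e he he'
    rw [hA, Finset.mem_filter] at he
    rw [Finset.mem_image] at he'
    obtain ⟨e', _, rfl⟩ := he'
    exact he.2 (Finset.mem_insert_self _ _)
  have hinj : (B.image ι).card = B.card := by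
    refine Finset.card_image_of_injOn ?_
    intro e he e' he' hee
    rw [hB, Finset.mem_coe, Finset.mem_filter] at he he'
    have h2 : (ι e).erase v = (ι e').erase v := by rw [hee]
    have h3 : ∀ f ∈ H, u ∈ f ∧ v ∉ f → (ι f).erase v = f.erase u := by
      intro f _ hf
      rw [hι]
      show (insert v (f.erase u)).erase v = f.erase u
      exact Finset.erase_insert fun h => hf.2 (Finset.mem_of_mem_erase h)
    rw [h3 e he.1 he.2, h3 e' he'.1 he'.2] at h2
    rw [← Finset.insert_erase he.2.1, ← Finset.insert_erase he'.2.1, h2]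
  have h2 : A.card + B.card ≤ H.card := by
    rw [← hinj, ← Finset.card_union_of_disjoint hdis]
    exact le_trans (Finset.card_le_card (Finset.union_subset hAp hBp)) h1
  have h3 := Finset.card_filter_add_card_filter_not (s := H) (fun e => v ∈ e)
  have h5 := Finset.card_filter_add_card_filter_not (s := H.filter fun e => u ∈ e)
    (fun e => v ∈ e)
  rw [Finset.filter_filter, Finset.filter_filter] at h5
  rw [← hA] at h3
  rw [← hB] at h5
  omega

theorem codeg_le (H : Finset (Finset (Fin n))) (h4 : ∀ e ∈ H, e.card = 4) (u v : Fin n)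
    (huv : u ≠ v) : ((H.filter fun e => u ∈ e ∧ v ∈ e).card : ℝ) ≤ (n : ℝ) ^ 2 / 2 := by
  classical
  have h1 : (H.filter fun e => u ∈ e ∧ v ∈ e).card ≤
      ((univ : Finset (Fin n)).powersetCard 2).card := by
    refine Finset.card_le_card_of_injOn (fun e => (e.erase u).erase v) ?_ ?_
    · intro e he
      rw [Finset.mem_coe, Finset.mem_filter] at he
      rw [Finset.mem_coe, Finset.mem_powersetCard]
      refine ⟨Finset.subset_univ _, ?_⟩
      show ((e.erase u).erase v).card = 2
      rw [Finset.card_erase_of_mem (Finset.mem_erase.mpr ⟨huv.symm, he.2.2⟩),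
        Finset.card_erase_of_mem he.2.1, h4 e he.1]
    · intro e he e' he' hee
      rw [Finset.mem_coe, Finset.mem_filter] at he he'
      have h2 : ∀ f ∈ H, u ∈ f ∧ v ∈ f → insert u (insert v ((f.erase u).erase v)) = f := by
        intro f _ hf
        rw [Finset.insert_erase (Finset.mem_erase.mpr ⟨huv.symm, hf.2⟩),
          Finset.insert_erase hf.1]
      have h3 : (e.erase u).erase v = (e'.erase u).erase v := hee
      rw [← h2 e he.1 he.2, ← h2 e' he'.1 he'.2, h3]
  rw [Finset.card_powersetCard, Finset.card_univ, Fintype.card_fin] at h1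
  have h2 := Nat.choose_le_pow_div (α := ℝ) 2 n
  have h3 : ((Nat.factorial 2 : ℕ) : ℝ) = 2 := by norm_num [Nat.factorial]
  rw [h3] at h2
  have h5 : ((H.filter fun e => u ∈ e ∧ v ∈ e).card : ℝ) ≤ ((n.choose 2 : ℕ) : ℝ) := by
    exact_mod_cast h1
  linarith

theorem sum_deg (H : Finset (Finset (Fin n))) (h4 : ∀ e ∈ H, e.card = 4) :
    ∑ u : Fin n, ((H.filter fun e => u ∈ e).card : ℝ) = 4 * (H.card : ℝ) := by
  have h1 : ∀ u : Fin n, ((H.filter fun e => u ∈ e).card : ℝ) =
      ∑ e ∈ H, if u ∈ e then (1 : ℝ) else 0 := by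
    intro u
    rw [← Finset.sum_filter, Finset.sum_const, nsmul_eq_mul, mul_one]
  rw [Finset.sum_congr rfl fun u _ => h1 u, Finset.sum_comm]
  have h2 : ∀ e ∈ H, ∑ u : Fin n, (if u ∈ e then (1 : ℝ) else 0) = 4 := by
    intro e he
    rw [← Finset.sum_filter, Finset.sum_const, nsmul_eq_mul, mul_one]
    have h3 : (univ : Finset (Fin n)).filter (fun u => u ∈ e) = e := by
      ext x
      simp
    rw [h3, h4 e he]
    norm_num
  rw [Finset.sum_congr rfl h2, Finset.sum_const, nsmul_eq_mul]
  ring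

/-- The degrees of an extremal 4-graph are almost equal. -/
theorem dg_ge_of_ext (H : Finset (Finset (Fin n))) (h4 : ∀ e ∈ H, e.card = 4) (hK : K5F H)
    (hE : Ext n H) (v : Fin n) : e4 H - 3 / n ≤ dg H v := by
  have hn0 : (0 : ℝ) < n := by exact_mod_cast (lt_of_le_of_lt (Nat.zero_le _) v.isLt)
  have h1 : ∀ u : Fin n, ((H.filter fun e => u ∈ e).card : ℝ) ≤
      ((H.filter fun e => v ∈ e).card : ℝ) + (n : ℝ) ^ 2 / 2 := by
    intro u
    by_cases h : u = v
    · rw [h]
      have : (0 : ℝ) ≤ (n : ℝ) ^ 2 / 2 := by positivity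
      linarith
    · have h2 := deg_le_of_ext H h4 hK hE u v h
      have h3 := codeg_le H h4 u v h
      have h5 : ((H.filter fun e => u ∈ e).card : ℝ) ≤
          ((H.filter fun e => v ∈ e).card : ℝ) +
            ((H.filter fun e => u ∈ e ∧ v ∈ e).card : ℝ) := by exact_mod_cast h2
      linarith
  have h2 := Finset.sum_le_sum fun u (_ : u ∈ (univ : Finset (Fin n))) => h1 u
  rw [sum_deg H h4, Finset.sum_const, Finset.card_univ, Fintype.card_fin, nsmul_eq_mul] at h2
  unfold e4 dg
  rw [div_sub' (by positivity), div_le_div_iff₀ (by positivity) (by positivity)]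
  set D : ℝ := ((H.filter fun e => v ∈ e).card : ℝ) with hD
  have h3 : 24 * (H.card : ℝ) ≤ 6 * (n * D) + 3 * (n : ℝ) ^ 3 := by
    have e1 : (n : ℝ) * (D + (n : ℝ) ^ 2 / 2) = n * D + (n : ℝ) ^ 3 / 2 := by ring
    rw [e1] at h2
    linarith
  have h5 : (24 * (H.card : ℝ)) * (n : ℝ) ^ 3 ≤
      (6 * (n * D) + 3 * (n : ℝ) ^ 3) * (n : ℝ) ^ 3 :=
    mul_le_mul_of_nonneg_right h3 (by positivity)
  have e2 : (n : ℝ) ^ 4 * (3 / n) = 3 * (n : ℝ) ^ 3 := by
    field_simp
  rw [e2]
  calc (24 * (H.card : ℝ) - 3 * (n : ℝ) ^ 3) * (n : ℝ) ^ 3 =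
      (24 * (H.card : ℝ)) * (n : ℝ) ^ 3 - 3 * (n : ℝ) ^ 3 * (n : ℝ) ^ 3 := by ring
    _ ≤ (6 * (n * D) + 3 * (n : ℝ) ^ 3) * (n : ℝ) ^ 3 - 3 * (n : ℝ) ^ 3 * (n : ℝ) ^ 3 := by
        linarith
    _ = 6 * D * (n : ℝ) ^ 4 := by ring

/-- Extremal, with all degrees at least `11 / 16`. -/
def ExtDeg (n : ℕ) (H : Finset (Finset (Fin n))) : Prop := Ext n H ∧ MinDeg n H

theorem red_extDeg : Red ExtDeg := by
  intro ε hε N
  obtain ⟨M, hM⟩ := exists_nat_gt (6 / ε)
  obtain ⟨N', hN'⟩ := red_ext ε hε (max N M)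
  refine ⟨N', fun n hn H hH hK hd => ?_⟩
  obtain ⟨m, hm, H', h1, h2, h3, h5⟩ := hN' n hn H hH hK hd
  refine ⟨m, le_trans (le_max_left _ _) hm, H', h1, h2, ⟨h3, fun v => ?_⟩, h5⟩
  have hm0 : (0 : ℝ) < m := by exact_mod_cast (lt_of_le_of_lt (Nat.zero_le _) v.isLt)
  have h6 := dg_ge_of_ext H' h1 h2 h3 v
  have h7 : (3 : ℝ) / m ≤ ε / 2 := by
    have h8 : 6 / ε < m := lt_of_lt_of_le hM (by exact_mod_cast le_trans (le_max_right _ _) hm)
    rw [div_lt_iff₀ hε] at h8
    rw [div_le_iff₀ hm0]
    linarith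
  linarith

end deg

end Pool.Agent.Lib.MP_afdd4d_co.K9.Star
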