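import Pool.Agent.Lib.MP_afdd4d_co.K9.Iface

/-!
# The final assembly
-/

namespace Pool.Agent.Lib.MP_afdd4d_co.K9.Star

open Finset K8

/-! ### The even 4-graph of the best vertex -/

section t2
variable {V : Type*} [DecidableEq V] [Fintype V]

theorem mem_symmDiff_EG (H : Finset (Finset V)) (h4 : ∀ e ∈ H, e.card = 4) (v : V)
    (Q : Finset V) : Q ∈ symmDiff H (EG H v) ↔
      Q ∈ ((univ.powersetCard 4).filter fun Q => v ∉ Q).filter fun Q =>
        Odd (c5 H (insert v Q)) := by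
  have hs : ∀ Q : Finset V, Q.card = 4 → v ∉ Q →
      c5 H (insert v Q) = tl H v Q + if Q ∈ H then 1 else 0 := by
    intro Q hQ hv
    have h := c5_split H (insert v Q) (by rw [Finset.card_insert_of_notMem hv, hQ]) v
      (Finset.mem_insert_self _ _)
    rw [Finset.erase_insert hv] at h
    exact h
  rw [Finset.mem_symmDiff, mem_EG, Finset.mem_filter, Finset.mem_filter, Finset.mem_powersetCard]
  constructor
  · rintro (⟨h1, h2⟩ | ⟨⟨h1, h2⟩, h3⟩)
    · have hc := h4 Q h1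
      have hv : v ∉ Q := fun hv => h2 ⟨hc, by rw [if_pos hv]; exact h1⟩
      refine ⟨⟨⟨Finset.subset_univ _, hc⟩, hv⟩, ?_⟩
      rw [hs Q hc hv, if_pos h1, Nat.odd_add_one]
      intro ho
      exact h2 ⟨hc, by rw [if_neg hv]; exact ho⟩
    · have hv : v ∉ Q := fun hv => h3 (by rw [if_pos hv] at h2; exact h2)
      rw [if_neg hv] at h2
      refine ⟨⟨⟨Finset.subset_univ _, h1⟩, hv⟩, ?_⟩
      rw [hs Q h1 hv, if_neg h3, add_zero]
      exact h2
  · rintro ⟨⟨⟨_, hc⟩, hv⟩, ho⟩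
    rw [hs Q hc hv] at ho
    by_cases h1 : Q ∈ H
    · left
      refine ⟨h1, ?_⟩
      rintro ⟨_, h2⟩
      rw [if_neg hv] at h2
      rw [if_pos h1, Nat.odd_add_one] at ho
      exact ho h2
    · right
      rw [if_neg h1, add_zero] at ho
      exact ⟨⟨hc, by rw [if_neg hv]; exact ho⟩, h1⟩

theorem sum_symmDiff_EG (H : Finset (Finset V)) (h4 : ∀ e ∈ H, e.card = 4) :
    ∑ v : V, (symmDiff H (EG H v)).card = 5 * (T5 H 1 + T5 H 3 + T5 H 5) := by
  have h1 : ∀ v : V, (symmDiff H (EG H v)).card =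
      ∑ Q ∈ (univ.powersetCard 4).filter (fun Q => v ∉ Q),
        if Odd (c5 H (insert v Q)) then 1 else 0 := by
    intro v
    rw [← Finset.card_filter]
    congr 1
    ext Q
    exact mem_symmDiff_EG H h4 v Q
  rw [Finset.sum_congr rfl fun v _ => h1 v,
    sum_pairs 4 fun v Q => if Odd (c5 H (insert v Q)) then 1 else 0]
  have h2 : ∀ S ∈ (univ : Finset V).powersetCard 5,
      (∑ v ∈ S, if Odd (c5 H (insert v (S.erase v))) then 1 else 0) =
        (fun c => if Odd c then 5 else 0) (c5 H S) := by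
    intro S hS
    have hc := (Finset.mem_powersetCard.mp hS).2
    have h3 : ∀ v ∈ S, (if Odd (c5 H (insert v (S.erase v))) then 1 else 0) =
        if Odd (c5 H S) then 1 else 0 := by
      intro v hv
      rw [Finset.insert_erase hv]
    rw [Finset.sum_congr rfl h3, Finset.sum_const, hc, smul_eq_mul]
    dsimp only
    split_ifs <;> rfl
  rw [Finset.sum_congr rfl h2, sum_c5 H fun c => if Odd c then 5 else 0]
  simp only [Finset.sum_range_succ, Finset.sum_range_zero]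
  have e0 : ¬ Odd 0 := by decide
  have e1 : Odd 1 := by decide
  have e2 : ¬ Odd 2 := by decide
  have e3 : Odd 3 := by decide
  have e4 : ¬ Odd 4 := by decide
  have e5 : Odd 5 := by decide
  rw [if_neg e0, if_pos e1, if_neg e2, if_pos e3, if_neg e4, if_pos e5]
  ring

end t2

theorem t2 (C : ℝ) : T2 C := by
  intro n hn H h4
  have hn0 : (0 : ℝ) < n := by exact_mod_cast hn
  haveI : Nonempty (Fin n) := ⟨⟨0, hn⟩⟩
  obtain ⟨v, _, hv⟩ := Finset.exists_min_image (univ : Finset (Fin n))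
    (fun v => ((symmDiff H (EG H v)).card : ℝ) - C * ((EG H v).card : ℝ)) Finset.univ_nonempty
  refine ⟨EG H v, fun e he => ((mem_EG H v e).mp he).1, fun S hS => EG_even H v S hS, ?_⟩
  have h1 : (n : ℝ) * (((symmDiff H (EG H v)).card : ℝ) - C * ((EG H v).card : ℝ)) ≤
      ∑ w : Fin n, (((symmDiff H (EG H w)).card : ℝ) - C * ((EG H w).card : ℝ)) := by
    have h2 : ∑ _w : Fin n, (((symmDiff H (EG H v)).card : ℝ) - C * ((EG H v).card : ℝ)) =
        (n : ℝ) * (((symmDiff H (EG H v)).card : ℝ) - C * ((EG H v).card : ℝ)) := by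
      rw [Finset.sum_const, Finset.card_univ, Fintype.card_fin, nsmul_eq_mul]
    rw [← h2]
    exact Finset.sum_le_sum fun w _ => hv w (Finset.mem_univ _)
  rw [Finset.sum_sub_distrib, ← Finset.mul_sum] at h1
  have h3 : (∑ w : Fin n, ((symmDiff H (EG H w)).card : ℝ)) =
      5 * ((T5 H 1 : ℝ) + T5 H 3 + T5 H 5) := by
    exact_mod_cast sum_symmDiff_EG H h4
  have h5 : (∑ w : Fin n, ((EG H w).card : ℝ)) =
      n * H.card + 3 * T5 H 1 - T5 H 3 - 5 * T5 H 5 := by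
    have h6 := sum_card_EG H h4
    rw [sum_c5 H w5] at h6
    have h7 : ∑ c ∈ range 6, w5 c * T5 H c =
        4 * T5 H 1 + 2 * T5 H 2 + 2 * T5 H 3 + 4 * T5 H 4 := by
      have e0 : w5 0 = 0 := by decide
      have e1 : w5 1 = 4 := by decide
      have e2 : w5 2 = 2 := by decide
      have e3 : w5 3 = 2 := by decide
      have e4 : w5 4 = 4 := by decide
      have e5 : w5 5 = 0 := by decide
      simp only [Finset.sum_range_succ, Finset.sum_range_zero, e0, e1, e2, e3, e4, e5]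
      ring
    rw [h7] at h6
    have h8 := sum_five n H h4
    have h6' : (∑ w : Fin n, ((EG H w).card : ℝ)) =
        4 * H.card + (4 * T5 H 1 + 2 * T5 H 2 + 2 * T5 H 3 + 4 * T5 H 4) := by
      exact_mod_cast h6
    rcases Nat.lt_or_ge n 4 with hlt | hge
    · have hH : H.card = 0 := by
        rw [Finset.card_eq_zero, Finset.eq_empty_iff_forall_notMem]
        intro e he
        have h9 := Finset.card_le_univ e
        rw [h4 e he, Fintype.card_fin] at h9
        omega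
      have h9 : (n - 4) * H.card = 0 := by rw [hH, mul_zero]
      rw [h9] at h8
      have h8' : (T5 H 1 : ℝ) + 2 * T5 H 2 + 3 * T5 H 3 + 4 * T5 H 4 + 5 * T5 H 5 = 0 := by
        exact_mod_cast h8
      have hH' : (H.card : ℝ) = 0 := by exact_mod_cast hH
      rw [h6', hH']
      linarith
    · have h8' : (T5 H 1 : ℝ) + 2 * T5 H 2 + 3 * T5 H 3 + 4 * T5 H 4 + 5 * T5 H 5 =
          (n - 4) * H.card := by
        have h9 : ((n - 4 : ℕ) : ℝ) = (n : ℝ) - 4 := by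
          rw [Nat.cast_sub hge]
          norm_num
        rw [← h9]
        exact_mod_cast h8
      rw [h6']
      linarith
  rw [h3, h5] at h1
  unfold X4 e4 q5
  have hn4 : (0 : ℝ) < (n : ℝ) ^ 4 := by positivity
  have hn5 : (0 : ℝ) < (n : ℝ) ^ 5 := by positivity
  have key : 24 * ((symmDiff H (EG H v)).card : ℝ) / (n : ℝ) ^ 4 -
      C * (24 * ((EG H v).card : ℝ) / (n : ℝ) ^ 4) ≤
      (24 / (n : ℝ) ^ 5) * (5 * ((T5 H 1 : ℝ) + T5 H 3 + T5 H 5) -
        C * (n * H.card + 3 * T5 H 1 - T5 H 3 - 5 * T5 H 5)) := by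
    have e1 : 24 * ((symmDiff H (EG H v)).card : ℝ) / (n : ℝ) ^ 4 -
        C * (24 * ((EG H v).card : ℝ) / (n : ℝ) ^ 4) = (24 / (n : ℝ) ^ 5) *
          ((n : ℝ) * (((symmDiff H (EG H v)).card : ℝ) - C * ((EG H v).card : ℝ))) := by
      field_simp
    rw [e1]
    exact mul_le_mul_of_nonneg_left h1 (by positivity)
  have e2 : (24 / (n : ℝ) ^ 5) * (5 * ((T5 H 1 : ℝ) + T5 H 3 + T5 H 5) -
        C * (n * H.card + 3 * T5 H 1 - T5 H 3 - 5 * T5 H 5)) =
      120 * (T5 H 1 : ℝ) / (n : ℝ) ^ 5 + 120 * (T5 H 3 : ℝ) / (n : ℝ) ^ 5 +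
        120 * (T5 H 5 : ℝ) / (n : ℝ) ^ 5 - C * (24 * (H.card : ℝ) / (n : ℝ) ^ 4) +
        C * (120 * (T5 H 3 : ℝ) / (n : ℝ) ^ 5 + 5 * (120 * (T5 H 5 : ℝ) / (n : ℝ) ^ 5) -
          3 * (120 * (T5 H 1 : ℝ) / (n : ℝ) ^ 5)) / 5 := by
    field_simp
    ring
  rw [e2] at key
  linarith

/-! ### Elementary facts -/

section facts
variable {n : ℕ}

theorem T5_five (H : Finset (Finset (Fin n))) (hH : K5F H) : T5 H 5 = 0 := by
  unfold T5
  rw [Finset.card_eq_zero, Finset.filter_eq_empty_iff]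
  intro S hS
  have hc := (Finset.mem_powersetCard.mp hS).2
  obtain ⟨e, he, heH⟩ := hH S hc
  intro h5
  have h1 : ((S.powersetCard 4).filter fun e => e ∈ H) = S.powersetCard 4 := by
    apply Finset.eq_of_subset_of_card_le (Finset.filter_subset _ _)
    rw [Finset.card_powersetCard, hc]
    unfold c5 at h5
    rw [h5]
    decide
  have h2 : e ∈ (S.powersetCard 4).filter fun e => e ∈ H := by rw [h1]; exact he
  exact heH (Finset.mem_filter.mp h2).2

theorem q5_nonneg (H : Finset (Finset (Fin n))) (i : ℕ) : 0 ≤ q5 H i := by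
  unfold q5
  positivity

theorem X4_nonneg (H G : Finset (Finset (Fin n))) : 0 ≤ X4 H G := by
  unfold X4
  positivity

theorem sg2_nonneg (χ : Fin n → Bool) : 0 ≤ sg2 χ := sq_nonneg _

theorem X4_triangle (H E G : Finset (Finset (Fin n))) : X4 H G ≤ X4 H E + X4 E G := by
  unfold X4
  rw [← add_div, ← mul_add]
  refine div_le_div_of_nonneg_right ?_ (by positivity)
  refine mul_le_mul_of_nonneg_left ?_ (by norm_num)
  have h : (symmDiff H G).card ≤ (symmDiff H E).card + (symmDiff E G).card :=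
    le_trans (Finset.card_le_card (symmDiff_triangle H E G)) (Finset.card_union_le _ _)
  exact_mod_cast h

theorem sg2_le_one (χ : Fin n → Bool) (hn : 1 ≤ n) : sg2 χ ≤ 1 := by
  unfold sg2
  have hn0 : (0 : ℝ) < n := by exact_mod_cast hn
  have h1 : (nc χ false : ℝ) + nc χ true = n := by exact_mod_cast nc_add χ
  have ha : (0 : ℝ) ≤ nc χ false := Nat.cast_nonneg _
  have hb : (0 : ℝ) ≤ nc χ true := Nat.cast_nonneg _
  rw [sq_le_one_iff_abs_le_one, abs_div, abs_of_pos hn0, div_le_one hn0, abs_le]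
  constructor <;> linarith

theorem X4_le_one (H G : Finset (Finset (Fin n))) (hH : ∀ e ∈ H, e.card = 4)
    (hG : ∀ e ∈ G, e.card = 4) (hn : 1 ≤ n) : X4 H G ≤ 1 := by
  have hn0 : (0 : ℝ) < n := by exact_mod_cast hn
  have h1 := card_quads_le (symmDiff H G) (by
    intro e he
    rw [Finset.mem_symmDiff] at he
    rcases he with h | h
    · exact hH e h.1
    · exact hG e h.1)
  unfold X4
  rw [div_le_one (by positivity)]
  linarith

end facts

/-! ### The assembly -/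

/-- A contradiction for one 4-graph. -/
theorem assembly {P : ∀ n : ℕ, Finset (Finset (Fin n)) → Prop} {C d1 X0 : ℝ} (hC : 0 < C)
    (hX1 : X0 < C * d1) (hX2 : X0 < 1 / 10) (h1 : T1near C d1) (h3 : T3 P C X0)
    (h4 : T4 P C X0) :
    ∀ ε : ℝ, 0 < ε → ∃ N : ℕ, ∀ n : ℕ, N ≤ n → ∀ H : Finset (Finset (Fin n)),
      (∀ e ∈ H, e.card = 4) → K5F H → P n H → e4 H ≤ 11 / 16 + ε := by
  intro ε hε
  obtain ⟨η, hη, N4, hN4⟩ := h4 ε hε
  obtain ⟨N3, hN3⟩ := h3
  set η1 : ℝ := min (η / 2) ((1 / 10 - X0) / 2) with hη1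
  have hη1p : 0 < η1 := lt_min (by linarith) (by linarith)
  have hη1a : η1 ≤ η / 2 := min_le_left _ _
  have hη1b : η1 ≤ (1 / 10 - X0) / 2 := min_le_right _ _
  obtain ⟨N1, hN1⟩ := h1 η1 hη1p
  refine ⟨max (max N1 N3) (max N4 1), fun n hn H hH hK hP => ?_⟩
  have hn1 : N1 ≤ n := le_trans (le_trans (le_max_left _ _) (le_max_left _ _)) hn
  have hn3 : N3 ≤ n := le_trans (le_trans (le_max_right _ _) (le_max_left _ _)) hn
  have hn4 : N4 ≤ n := le_trans (le_trans (le_max_left _ _) (le_max_right _ _)) hn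
  have hn0 : 1 ≤ n := le_trans (le_trans (le_max_right _ _) (le_max_right _ _)) hn
  by_contra hlt
  rw [not_le] at hlt
  have hd : 11 / 16 ≤ e4 H := by linarith
  have hF := hN3 n hn3 H hH hK hP hd
  obtain ⟨E, hE4, hEe, hE⟩ := t2 C n hn0 H hH
  have h5 : q5 H 5 = 0 := by
    unfold q5
    rw [T5_five H hK]
    simp
  rw [h5] at hE
  have hFC : X4 H E + C * (11 / 16 - e4 E) ≤ FC C H := by
    unfold FC
    linarith
  have hFC0 : FC C H ≤ X0 := by
    unfold FC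
    have h6 : C * (11 / 16 - e4 H) ≤ 0 := by nlinarith
    linarith
  have hXE := X4_nonneg H E
  have hdE : 11 / 16 - e4 E ≤ d1 := by
    have h6 : C * (11 / 16 - e4 E) ≤ C * d1 := by linarith
    exact le_of_mul_le_mul_left h6 hC
  obtain ⟨χ, M, f, g, hχ⟩ := hN1 n hn1 E hE4 hEe hdE
  set m : ℝ := X4 E (gir χ M f g) with hm
  set s : ℝ := sg2 χ with hs
  have hm0 : 0 ≤ m := X4_nonneg _ _
  have hm1 : m ≤ 1 := X4_le_one _ _ hE4 (gir_card _ _ _ _) hn0
  have hs0 : 0 ≤ s := sg2_nonneg _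
  have hm2 : m ≤ C * (11 / 16 - e4 E) + η1 := by nlinarith
  have hm3 : m ≤ 1 / 10 := by linarith
  have hm4 : m + 9 / 10 * s ≤ C * (11 / 16 - e4 E) + η1 := by nlinarith
  have htri := X4_triangle H E (gir χ M f g)
  refine absurd (hN4 n hn4 H hH hK hP hd χ M f g ?_ ?_) (not_le.mpr hlt)
  · linarith
  · linarith

/-- The trivial reduction. -/
theorem red_true : Red fun _ _ => True := by
  intro ε hε N
  refine ⟨N, fun n hn H hH hK h => ⟨n, hn, H, hH, hK, trivial, ?_⟩⟩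
  linarith

/-- The upper bound, with the normalisation `n ^ 4 / 24`. -/
theorem upper4 {P : ∀ n : ℕ, Finset (Finset (Fin n)) → Prop} {C d1 X0 : ℝ} (hC : 0 < C)
    (hX1 : X0 < C * d1) (hX2 : X0 < 1 / 10) (hR : Red P) (h1 : T1near C d1) (h3 : T3 P C X0)
    (h4 : T4 P C X0) :
    ∀ ε : ℝ, 0 < ε → ∃ N : ℕ, ∀ n : ℕ, N ≤ n → ∀ H : Finset (Finset (Fin n)),
      (∀ e ∈ H, e.card = 4) → K5F H → e4 H ≤ 11 / 16 + ε := by
  intro ε hε
  obtain ⟨N, hN⟩ := assembly hC hX1 hX2 h1 h3 h4 (ε / 2) (by linarith)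
  obtain ⟨N', hN'⟩ := hR ε hε N
  refine ⟨N', fun n hn H hH hK => ?_⟩
  by_contra hlt
  rw [not_le] at hlt
  obtain ⟨m, hm, H', hH', hK', hP', hd'⟩ := hN' n hn H hH hK hlt
  have := hN m hm H' hH' hK' hP'
  linarith

theorem choose4_ge (n : ℕ) (hn : 4 ≤ n) :
    (n : ℝ) ^ 4 / 24 - (n : ℝ) ^ 3 / 4 ≤ ((n.choose 4 : ℕ) : ℝ) := by
  have h1 : ((n.choose 4 : ℕ) : ℝ) * 24 = (n.descFactorial 4 : ℝ) := by
    have h := Nat.descFactorial_eq_factorial_mul_choose n 4
    have h2 : Nat.factorial 4 = 24 := by decide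
    rw [h2] at h
    rw [h]
    push_cast
    ring
  have h2 : (n.descFactorial 4 : ℝ) = (n : ℝ) * (n - 1) * (n - 2) * (n - 3) := by
    obtain ⟨k, rfl⟩ : ∃ k, n = k + 4 := ⟨n - 4, by omega⟩
    have e : (k + 4).descFactorial 4 = (k + 4) * (k + 3) * (k + 2) * (k + 1) := by
      simp only [Nat.descFactorial_succ, Nat.descFactorial_zero]
      have e0 : k + 4 - 3 = k + 1 := by omega
      have e1 : k + 4 - 2 = k + 2 := by omega
      have e2 : k + 4 - 1 = k + 3 := by omega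
      rw [e0, e1, e2]
      simp only [Nat.sub_zero]
      ring
    rw [e]
    push_cast
    ring
  have hn4 : (4 : ℝ) ≤ n := by exact_mod_cast hn
  have h3 : (n : ℝ) ^ 4 - 6 * (n : ℝ) ^ 3 ≤ (n : ℝ) * (n - 1) * (n - 2) * (n - 3) := by
    have e : (n : ℝ) * (n - 1) * (n - 2) * (n - 3) - ((n : ℝ) ^ 4 - 6 * (n : ℝ) ^ 3) =
        n * (11 * n - 6) := by ring
    have h4 : 0 ≤ (n : ℝ) * (11 * n - 6) := mul_nonneg (by linarith) (by linarith)
    linarith
  linarith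

/-- The upper bound. -/
theorem upper {P : ∀ n : ℕ, Finset (Finset (Fin n)) → Prop} {C d1 X0 : ℝ} (hC : 0 < C)
    (hX1 : X0 < C * d1) (hX2 : X0 < 1 / 10) (hR : Red P) (h1 : T1near C d1) (h3 : T3 P C X0)
    (h4 : T4 P C X0) :
    ∀ ε : ℝ, 0 < ε → ∃ N : ℕ, ∀ n : ℕ, N ≤ n → ∀ H : Finset (Finset (Fin n)),
      (∀ e ∈ H, e.card = 4) → K5F H →
      (H.card : ℝ) ≤ ((11 / 16 : ℝ) + ε) * ((n.choose 4 : ℕ) : ℝ) := by
  intro ε hε
  obtain ⟨N, hN⟩ := upper4 hC hX1 hX2 hR h1 h3 h4 (ε / 2) (by linarith)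
  obtain ⟨M, hM⟩ := exists_nat_gt ((11 / 16 + ε) * 12 / ε)
  refine ⟨max N (max M 4), fun n hn H hH hK => ?_⟩
  have hnN : N ≤ n := le_trans (le_max_left _ _) hn
  have hnM : M ≤ n := le_trans (le_trans (le_max_left _ _) (le_max_right _ _)) hn
  have hn4 : 4 ≤ n := le_trans (le_trans (le_max_right _ _) (le_max_right _ _)) hn
  have hn0 : (0 : ℝ) < n := by exact_mod_cast (by omega : 0 < n)
  have h5 := hN n hnN H hH hK
  unfold e4 at h5
  rw [div_le_iff₀ (by positivity)] at h5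
  have h6 := choose4_ge n hn4
  have h7 : (11 / 16 + ε) * 12 / ε < n := lt_of_lt_of_le hM (by exact_mod_cast hnM)
  rw [div_lt_iff₀ hε] at h7
  have h8 : (11 / 16 + ε) * ((n : ℝ) ^ 4 / 24 - (n : ℝ) ^ 3 / 4) ≤
      (11 / 16 + ε) * ((n.choose 4 : ℕ) : ℝ) := mul_le_mul_of_nonneg_left h6 (by linarith)
  have h9 : (11 / 16 + ε) * 12 * (n : ℝ) ^ 3 ≤ n * ε * (n : ℝ) ^ 3 :=
    mul_le_mul_of_nonneg_right h7.le (by positivity)
  have h10 : n * ε * (n : ℝ) ^ 3 = ε * (n : ℝ) ^ 4 := by ring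
  rw [h10] at h9
  have h11 : (H.card : ℝ) ≤ (11 / 16 + ε / 2) * ((n : ℝ) ^ 4 / 24) := by linarith
  nlinarith

/-- The exact theorem. -/
theorem main {P : ∀ n : ℕ, Finset (Finset (Fin n)) → Prop} {C d1 X0 : ℝ} (hC : 0 < C)
    (hX1 : X0 < C * d1) (hX2 : X0 < 1 / 10) (hR : Red P) (h1 : T1near C d1) (h3 : T3 P C X0)
    (h4 : T4 P C X0) :
    ∀ ε : ℝ, 0 < ε → ∃ N : ℕ, ∀ n : ℕ, N ≤ n →
      (∃ H : Finset (Finset (Fin n)),
          (∀ e ∈ H, e.card = 4) ∧
          (∀ S : Finset (Fin n), S.card = 5 → ∃ e ∈ S.powersetCard 4, e ∉ H) ∧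
          ((11 / 16 : ℝ) - ε) * ((n.choose 4 : ℕ) : ℝ) ≤ (H.card : ℝ)) ∧
      (∀ H : Finset (Finset (Fin n)),
          (∀ e ∈ H, e.card = 4) →
          (∀ S : Finset (Fin n), S.card = 5 → ∃ e ∈ S.powersetCard 4, e ∉ H) →
          (H.card : ℝ) ≤ ((11 / 16 : ℝ) + ε) * ((n.choose 4 : ℕ) : ℝ)) := by
  intro ε hε
  obtain ⟨N1, hN1⟩ := lower_even ε hε
  obtain ⟨N2, hN2⟩ := upper hC hX1 hX2 hR h1 h3 h4 ε hε
  refine ⟨max N1 N2, fun n hn => ⟨?_, ?_⟩⟩
  · obtain ⟨H, hH4, hHe, hHc⟩ := hN1 n (le_trans (le_max_left _ _) hn)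
    refine ⟨H, hH4, ?_, hHc⟩
    intro S hS
    by_contra hcon
    push Not at hcon
    have h := hHe S hS
    have h2 : ((S.powersetCard 4).filter fun e => e ∈ H) = S.powersetCard 4 :=
      Finset.filter_true_of_mem hcon
    rw [h2, Finset.card_powersetCard, hS] at h
    exact absurd h (by decide)
  · intro H hH hK
    exact hN2 n (le_trans (le_max_right _ _) hn) H hH hK

end Pool.Agent.Lib.MP_afdd4d_co.K9.Star
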