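import Pool.Agent.Lib.MP_afdd4d_co.K9.ExtDeg

/-!
# The second-order condition as a term of the local theorem
-/

namespace Pool.Agent.Lib.MP_afdd4d_co.K9.Star

open Finset K8

/-- Integer functions of some roots and a vertex. -/
abbrev GF (k : ℕ) : Type := ∀ {n : ℕ}, Finset (Finset (Fin n)) → (Fin n → Bool) →
  (Fin n → Fin n → Bool) → (Finset (Fin n) → Bool) → (Finset (Fin n) → Bool) →
  (Fin k → Fin n) → Fin n → ℤ

/-- The term of the second-order condition: the first four vertices are the ordered quadruple, the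
others are the roots. -/
def hc {k : ℕ} (γ : GF k) {n : ℕ} (H : Finset (Finset (Fin n))) (χ : Fin n → Bool)
    (M : Fin n → Fin n → Bool) (f g : Finset (Fin n) → Bool) (p : Fin (4 + k) → Fin n) : ℤ :=
  (11 - 16 * if univ.image (fun i : Fin 4 => p (Fin.castAdd k i)) ∈ H then 1 else 0) *
    (γ H χ M f g (fun i => p (Fin.natAdd 4 i)) (p (Fin.castAdd k 0)) *
      γ H χ M f g (fun i => p (Fin.natAdd 4 i)) (p (Fin.castAdd k 1)))

theorem hc_append {k : ℕ} (γ : GF k) {n : ℕ} (H : Finset (Finset (Fin n))) (χ : Fin n → Bool)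
    (M : Fin n → Fin n → Bool) (f g : Finset (Fin n) → Bool) (q : Fin 4 → Fin n)
    (s : Fin k → Fin n) :
    ((hc γ H χ M f g ((Fin.appendEquiv 4 k) (q, s)) : ℤ) : ℝ) =
      16 * ((11 / 16 - kE H q) *
        ((γ H χ M f g s (q 0) : ℝ) * (γ H χ M f g s (q 1) : ℝ))) := by
  unfold hc kE
  simp only [Fin.appendEquiv_apply, Fin.append_left, Fin.append_right]
  push_cast
  split_ifs <;> ring

theorem abs_hc_le {k : ℕ} (γ : GF k) (G : ℕ) {n : ℕ} (H : Finset (Finset (Fin n)))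
    (χ : Fin n → Bool) (M : Fin n → Fin n → Bool) (f g : Finset (Fin n) → Bool)
    (hG : ∀ s x, |γ H χ M f g s x| ≤ G) (p : Fin (4 + k) → Fin n) :
    ((hc γ H χ M f g p : ℤ) : ℝ) ≤ 16 * (G : ℝ) ^ 2 := by
  have h1 : |hc γ H χ M f g p| ≤ 16 * (G : ℤ) ^ 2 := by
    unfold hc
    rw [abs_mul, abs_mul]
    have h2 : |(11 - 16 * if univ.image (fun i : Fin 4 => p (Fin.castAdd k i)) ∈ H
        then 1 else 0 : ℤ)| ≤ 16 := by
      split_ifs <;> norm_num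
    have h3 := hG (fun i => p (Fin.natAdd 4 i)) (p (Fin.castAdd k 0))
    have h4 := hG (fun i => p (Fin.natAdd 4 i)) (p (Fin.castAdd k 1))
    have h5 := mul_le_mul h3 h4 (abs_nonneg _) (Nat.cast_nonneg _)
    rw [← sq] at h5
    exact mul_le_mul h2 h5 (by positivity) (by norm_num)
  have h2 := le_trans (le_abs_self _) h1
  exact_mod_cast h2

/-- The second-order condition as a term of the local theorem, with a multiple of the density
defect. -/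
theorem good_hess {P : ∀ n : ℕ, Finset (Finset (Fin n)) → Prop} {X1 : ℝ}
    (hP : ∀ n H, P n H → Ext n H) {k : ℕ} (γ : GF k) (G : ℕ) (hG0 : 0 < G)
    (hG : ∀ {n : ℕ} (H : Finset (Finset (Fin n))) (χ : Fin n → Bool) M f g,
      Ctx P X1 H χ M f g → ∀ s x, |γ H χ M f g s x| ≤ G)
    (j : Fin (4 + k) → Fin 6) (hj : Function.Injective j) :
    Good P X1 (fun H χ M f g t => 15 * hc γ H χ M f g (t ∘ j) +
      (G : ℤ) ^ 2 * (16 * S4 (zb H t) - 165)) := by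
  intro δ hδ
  have hG0' : (0 : ℝ) < G := by exact_mod_cast hG0
  have hGG : (0 : ℝ) < (G : ℝ) ^ 2 := by positivity
  set δ' : ℝ := min (1 / 4) (δ / (480 * (G : ℝ) ^ 2)) with hδ'
  have hδ0 : 0 < δ' := lt_min (by norm_num) (by positivity)
  have hδ1 : δ' ≤ 1 / 4 := min_le_left _ _
  have hδ2 : 480 * (G : ℝ) ^ 2 * δ' ≤ δ := by
    have h1 : δ' ≤ δ / (480 * (G : ℝ) ^ 2) := min_le_right _ _
    rw [le_div_iff₀ (by positivity)] at h1
    linarith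
  obtain ⟨N1, hN1⟩ := hess_lim δ' hδ0
  obtain ⟨N2, hN2⟩ := exists_nat_gt (70000 * (G : ℝ) ^ 2 / δ)
  refine ⟨max 30 (max N1 N2), fun n hn H χ M f g hc' => ?_⟩
  have hn30 : 30 ≤ n := le_trans (le_max_left _ _) hn
  have hn1 : N1 ≤ n := le_trans (le_trans (le_max_left _ _) (le_max_right _ _)) hn
  have hn2 : (N2 : ℝ) ≤ n := by
    exact_mod_cast le_trans (le_trans (le_max_right _ _) (le_max_right _ _)) hn
  have hn0 : (0 : ℝ) < n := by exact_mod_cast (by omega : 0 < n)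
  have hb := hG H χ M f g hc'
  obtain ⟨h4, hK, hPH, hd, _⟩ := hc'
  have he1 := e4_le_one H h4 (by omega)
  set c : ℝ := 16 * (G : ℝ) ^ 2 * ((e4 H - 11 / 16) + δ') with hcdef
  have hc0 : 0 ≤ c := by
    rw [hcdef]
    exact mul_nonneg (by positivity) (by linarith)
  have hc1 : c ≤ 16 * (G : ℝ) ^ 2 := by
    rw [hcdef]
    have h1 : (e4 H - 11 / 16) + δ' ≤ 1 := by linarith
    have h2 : (0 : ℝ) ≤ 16 * (G : ℝ) ^ 2 := by positivity
    nlinarith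
  -- the sum over all tuples
  have tot : 0 ≤ ∑ p : Fin (4 + k) → Fin n, (((hc γ H χ M f g p : ℤ) : ℝ) + c) := by
    rw [← (Fin.appendEquiv 4 k).sum_comp, Fintype.sum_prod_type, Finset.sum_comm]
    refine Finset.sum_nonneg fun s _ => ?_
    have h1 : ∀ q : Fin 4 → Fin n,
        (((hc γ H χ M f g ((Fin.appendEquiv 4 k) (q, s)) : ℤ) : ℝ) + c) =
        16 * (G : ℝ) ^ 2 * ((11 / 16 - kE H q) *
          (((γ H χ M f g s (q 0) : ℝ) / G) * ((γ H χ M f g s (q 1) : ℝ) / G))) + c := by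
      intro q
      rw [hc_append]
      congr 1
      field_simp
    rw [Finset.sum_congr rfl fun q _ => h1 q, Finset.sum_add_distrib, ← Finset.mul_sum]
    have h2 := hN1 n hn1 H h4 hK (hP n H hPH) hd (fun x => (γ H χ M f g s x : ℝ) / G) (by
      intro x
      rw [abs_div, abs_of_pos hG0', div_le_one hG0']
      have := hb s x
      exact_mod_cast this)
    have h3 : ∑ _q : Fin 4 → Fin n, c = c * (n : ℝ) ^ 4 := by
      rw [Finset.sum_const, nsmul_eq_mul, Finset.card_univ, Fintype.card_fun, Fintype.card_fin,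
        Fintype.card_fin]
      push_cast
      ring
    rw [h3]
    have h5 := mul_le_mul_of_nonneg_left h2 (by positivity : (0 : ℝ) ≤ 16 * (G : ℝ) ^ 2)
    have h6 : 16 * (G : ℝ) ^ 2 * -(((e4 H - 11 / 16) + δ') * (n : ℝ) ^ 4) = -(c * (n : ℝ) ^ 4) := by
      rw [hcdef]
      ring
    linarith
  have hinj := inj_comp_ge' (V := Fin n) (fun p => ((hc γ H χ M f g p : ℤ) : ℝ) + c)
    (16 * (G : ℝ) ^ 2 + c) tot (fun p => by
      have := abs_hc_le γ G H χ M f g hb p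
      linarith) j hj
  rw [Fintype.card_fin] at hinj
  have e1 : ∑ t ∈ inj (Fin n) 6, (((hc γ H χ M f g (t ∘ j) : ℤ) : ℝ) + c) =
      ∑ t ∈ inj (Fin n) 6, ((hc γ H χ M f g (t ∘ j) : ℤ) : ℝ) + c * (n.descFactorial 6 : ℝ) := by
    rw [Finset.sum_add_distrib, Finset.sum_const, nsmul_eq_mul, card_inj, Fintype.card_fin]
    ring
  have hinj' : -((16 * (G : ℝ) ^ 2 + c) * ((n : ℝ) ^ 6 - (n.descFactorial 6 : ℝ))) ≤
      ∑ t ∈ inj (Fin n) 6, ((hc γ H χ M f g (t ∘ j) : ℤ) : ℝ) +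
        c * (n.descFactorial 6 : ℝ) := by
    rw [← e1]
    exact hinj
  have e2 : ∑ t ∈ inj (Fin n) 6, ((15 * hc γ H χ M f g (t ∘ j) +
      (G : ℤ) ^ 2 * (16 * S4 (zb H t) - 165) : ℤ) : ℝ) =
      15 * ∑ t ∈ inj (Fin n) 6, ((hc γ H χ M f g (t ∘ j) : ℤ) : ℝ) +
      (G : ℝ) ^ 2 * (16 * (360 * (PP n 4 2 * (H.card : ℝ))) - 165 * (n.descFactorial 6 : ℝ)) := by
    have e3 : ∀ t : Fin 6 → Fin n, ((15 * hc γ H χ M f g (t ∘ j) +
        (G : ℤ) ^ 2 * (16 * S4 (zb H t) - 165) : ℤ) : ℝ) =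
        15 * ((hc γ H χ M f g (t ∘ j) : ℤ) : ℝ) +
          16 * (G : ℝ) ^ 2 * ((S4 (zb H t) : ℤ) : ℝ) - 165 * (G : ℝ) ^ 2 := by
      intro t
      push_cast
      ring
    rw [Finset.sum_congr rfl fun t _ => e3 t]
    simp_rw [Finset.sum_sub_distrib, Finset.sum_add_distrib, ← Finset.mul_sum]
    rw [sum6_S4 H h4]
    simp only [Finset.sum_const, nsmul_eq_mul, card_inj, Fintype.card_fin]
    ring
  rw [e2]
  -- the estimates
  have hn6 : (0 : ℝ) < (n : ℝ) ^ 6 := by positivity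
  have fe : 24 * (H.card : ℝ) = (n : ℝ) ^ 4 * e4 H := by
    unfold e4
    field_simp
  have he0 : 0 ≤ e4 H := by linarith
  have b4 : (n : ℝ) ^ 6 * (e4 H - 9 / n) ≤ 24 * (PP n 4 2 * (H.card : ℝ)) := by
    have h1 := PP42_ge n
    have h2 := mul_le_mul_of_nonneg_right h1 (by positivity : 0 ≤ (n : ℝ) ^ 4 * e4 H)
    have h3 : ((n : ℝ) ^ 2 - 9 * n) * ((n : ℝ) ^ 4 * e4 H) =
        (n : ℝ) ^ 6 * (e4 H - e4 H * (9 / n)) := by
      field_simp
    rw [h3, ← fe] at h2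
    have h5 : e4 H * (9 / (n : ℝ)) ≤ 9 / n := by
      have : 0 ≤ 9 / (n : ℝ) := by positivity
      nlinarith
    have h6 : (n : ℝ) ^ 6 * (e4 H - 9 / n) ≤ (n : ℝ) ^ 6 * (e4 H - e4 H * (9 / n)) :=
      mul_le_mul_of_nonneg_left (by linarith) hn6.le
    linarith
  have b6 := desc_le n 6
  have b7 := D6_le hn30
  have b8 : 60 / (n : ℝ) * (n.descFactorial 6 : ℝ) ≤ 60 / (n : ℝ) * (n : ℝ) ^ 6 :=
    mul_le_mul_of_nonneg_left b6 (by positivity)
  have b9 : (16 * (G : ℝ) ^ 2 + c) * ((n : ℝ) ^ 6 - (n.descFactorial 6 : ℝ)) ≤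
      (32 * (G : ℝ) ^ 2) * (60 / (n : ℝ) * (n : ℝ) ^ 6) :=
    mul_le_mul (by linarith) (by linarith) (by linarith) (by positivity)
  have b10 : c * (n.descFactorial 6 : ℝ) ≤ c * (n : ℝ) ^ 6 := mul_le_mul_of_nonneg_left b6 hc0
  have b11 : (G : ℝ) ^ 2 * (240 * ((n : ℝ) ^ 6 * (e4 H - 9 / n)) - 165 * (n : ℝ) ^ 6) ≤
      (G : ℝ) ^ 2 * (16 * (360 * (PP n 4 2 * (H.card : ℝ))) - 165 * (n.descFactorial 6 : ℝ)) :=
    mul_le_mul_of_nonneg_left (by linarith) hGG.le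
  have b12 : 70000 * (G : ℝ) ^ 2 / n ≤ δ := by
    have h7 : 70000 * (G : ℝ) ^ 2 / δ < n := lt_of_lt_of_le hN2 hn2
    rw [div_lt_iff₀ hδ] at h7
    rw [div_le_iff₀ hn0]
    linarith
  have b13 : (n : ℝ) ^ 6 * (240 * (G : ℝ) ^ 2 * δ' + 70000 * (G : ℝ) ^ 2 / n / 2) ≤
      (n : ℝ) ^ 6 * δ := mul_le_mul_of_nonneg_left (by linarith) hn6.le
  have e5 : 15 * c = 240 * (G : ℝ) ^ 2 * ((e4 H - 11 / 16) + δ') := by
    rw [hcdef]
    ring
  have b14 : (n : ℝ) ^ 6 * (70000 * (G : ℝ) ^ 2 / n / 2) =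
      35000 * ((G : ℝ) ^ 2 / n * (n : ℝ) ^ 6) := by ring
  have b15 : (32 * (G : ℝ) ^ 2) * (60 / (n : ℝ) * (n : ℝ) ^ 6) =
      1920 * ((G : ℝ) ^ 2 / n * (n : ℝ) ^ 6) := by ring
  have b16 : (G : ℝ) ^ 2 * (240 * ((n : ℝ) ^ 6 * (e4 H - 9 / n)) - 165 * (n : ℝ) ^ 6) =
      (n : ℝ) ^ 6 * (240 * (G : ℝ) ^ 2 * (e4 H - 11 / 16)) -
        2160 * ((G : ℝ) ^ 2 / n * (n : ℝ) ^ 6) := by ring
  have b17 : 15 * (c * (n : ℝ) ^ 6) =
      (n : ℝ) ^ 6 * (240 * (G : ℝ) ^ 2 * (e4 H - 11 / 16)) +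
        (n : ℝ) ^ 6 * (240 * (G : ℝ) ^ 2 * δ') := by
    rw [← mul_assoc, e5]
    ring
  have b18 : (0 : ℝ) ≤ (G : ℝ) ^ 2 / n * (n : ℝ) ^ 6 := by positivity
  have b19 : (n : ℝ) ^ 6 * (240 * (G : ℝ) ^ 2 * δ' + 70000 * (G : ℝ) ^ 2 / n / 2) =
      (n : ℝ) ^ 6 * (240 * (G : ℝ) ^ 2 * δ') +
        (n : ℝ) ^ 6 * (70000 * (G : ℝ) ^ 2 / n / 2) := by ring
  rw [b19, b14] at b13
  rw [b16] at b11
  rw [b15] at b9
  linarith

end Pool.Agent.Lib.MP_afdd4d_co.K9.Star
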