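import Pool.Agent.Lib.MP_afdd4d_co.K9.T1G
import Pool.Agent.Lib.MP_afdd4d_co.K8.Marked

/-!
# The statements of the exact theorem

The theorem on the Turan density of `K_5^4` is split in four statements: even 4-graphs of large
density are near a reference structure; every 4-graph has an even 4-graph near it; 4-graphs without
`K_5` of large density have few odd 5-sets; and the local theorem about 4-graphs without `K_5` near a
reference structure.
-/

namespace Pool.Agent.Lib.MP_afdd4d_co.K9.Star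

open Finset K8

section defs
variable {n : ℕ}

/-- No five vertices span all their 4-sets. -/
def K5F (H : Finset (Finset (Fin n))) : Prop :=
  ∀ S : Finset (Fin n), S.card = 5 → ∃ e ∈ S.powersetCard 4, e ∉ H

/-- The density of a family of 4-sets, with the normalisation `n ^ 4 / 24`. -/
noncomputable def e4 (H : Finset (Finset (Fin n))) : ℝ := 24 * (H.card : ℝ) / (n : ℝ) ^ 4

/-- The distance of two families, with the normalisation `n ^ 4 / 24`. -/
noncomputable def X4 (H G : Finset (Finset (Fin n))) : ℝ :=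
  24 * ((symmDiff H G).card : ℝ) / (n : ℝ) ^ 4

/-- The number of 5-sets with exactly `i` edges, with the normalisation `n ^ 5 / 120`. -/
noncomputable def q5 (H : Finset (Finset (Fin n))) (i : ℕ) : ℝ :=
  120 * (T5 H i : ℝ) / (n : ℝ) ^ 5

/-- The square of the imbalance of a colouring. -/
noncomputable def sg2 (χ : Fin n → Bool) : ℝ :=
  (((nc χ false : ℝ) - nc χ true) / n) ^ 2

/-- The degree of a vertex, with the normalisation `n ^ 3 / 6`. -/
noncomputable def dg (H : Finset (Finset (Fin n))) (v : Fin n) : ℝ :=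
  6 * ((H.filter fun e => v ∈ e).card : ℝ) / (n : ℝ) ^ 3

/-- The functional that bounds the distance to the reference structures. -/
noncomputable def FC (C : ℝ) (H : Finset (Finset (Fin n))) : ℝ :=
  q5 H 1 + q5 H 3 + C * (11 / 16 - e4 H) + C * (q5 H 3 - 3 * q5 H 1) / 5

end defs

/-- Stability of even 4-graphs whose density is at least `11 / 16 - d1`. -/
def T1near (C d1 : ℝ) : Prop :=
  ∀ η : ℝ, 0 < η → ∃ N : ℕ, ∀ n : ℕ, N ≤ n → ∀ E : Finset (Finset (Fin n)),
    (∀ e ∈ E, e.card = 4) → EvenH n E → 11 / 16 - e4 E ≤ d1 →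
    ∃ χ M f g, (1 - sg2 χ) * X4 E (gir χ M f g) + sg2 χ ≤ C * (11 / 16 - e4 E) + η

/-- The even 4-graph of the best vertex. -/
def T2 (C : ℝ) : Prop :=
  ∀ n : ℕ, 1 ≤ n → ∀ H : Finset (Finset (Fin n)), (∀ e ∈ H, e.card = 4) →
    ∃ E : Finset (Finset (Fin n)), (∀ e ∈ E, e.card = 4) ∧ EvenH n E ∧
      X4 H E + C * (11 / 16 - e4 E) ≤ q5 H 1 + q5 H 3 + q5 H 5 + C * (11 / 16 - e4 H) +
        C * (q5 H 3 + 5 * q5 H 5 - 3 * q5 H 1) / 5

/-- Closeness: the 4-graphs without `K_5` of density at least `11 / 16` and with the property `P`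
have few odd 5-sets. -/
def T3 (P : ∀ n : ℕ, Finset (Finset (Fin n)) → Prop) (C X0 : ℝ) : Prop :=
  ∃ N : ℕ, ∀ n : ℕ, N ≤ n → ∀ H : Finset (Finset (Fin n)),
    (∀ e ∈ H, e.card = 4) → K5F H → P n H → 11 / 16 ≤ e4 H →
    (1 + C / 5) * q5 H 3 + (1 - 3 * C / 5) * q5 H 1 ≤ X0

/-- The local theorem: 4-graphs without `K_5` and with the property `P` near a reference
structure. -/
def T4 (P : ∀ n : ℕ, Finset (Finset (Fin n)) → Prop) (C X0 : ℝ) : Prop :=
  ∀ ε : ℝ, 0 < ε → ∃ η : ℝ, 0 < η ∧ ∃ N : ℕ, ∀ n : ℕ, N ≤ n → ∀ H : Finset (Finset (Fin n)),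
    (∀ e ∈ H, e.card = 4) → K5F H → P n H → 11 / 16 ≤ e4 H → ∀ χ M f g,
    X4 H (gir χ M f g) ≤ X0 + η →
    X4 H (gir χ M f g) + 9 / 10 * sg2 χ ≤ FC C H + η →
    e4 H ≤ 11 / 16 + ε

/-- The reduction to 4-graphs with the property `P`. -/
def Red (P : ∀ n : ℕ, Finset (Finset (Fin n)) → Prop) : Prop :=
  ∀ ε : ℝ, 0 < ε → ∀ N : ℕ, ∃ N' : ℕ, ∀ n : ℕ, N' ≤ n → ∀ H : Finset (Finset (Fin n)),
    (∀ e ∈ H, e.card = 4) → K5F H → 11 / 16 + ε < e4 H →
    ∃ m : ℕ, N ≤ m ∧ ∃ H' : Finset (Finset (Fin m)), (∀ e ∈ H', e.card = 4) ∧ K5F H' ∧ P m H' ∧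
      11 / 16 + ε / 2 < e4 H'

/-- All degrees are at least `11 / 16`. -/
def MinDeg (n : ℕ) (H : Finset (Finset (Fin n))) : Prop := ∀ v : Fin n, 11 / 16 ≤ dg H v

end Pool.Agent.Lib.MP_afdd4d_co.K9.Star
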