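import Pool.Agent.Lib.MP_afdd4d_co.K9.Marks

/-!
# Pair marks on windows of six vertices

The values of the four families on the six vertices of a tuple, as functions of the membership of
the quadruples in a family `J` and of the marks, and the average of a function of the quadruples that
is at least a sum of such values for all possible marks.
-/

namespace Pool.Agent.Lib.MP_afdd4d_co.K9.Marks

open Finset K8

section win
variable {n : ℕ} (J : Finset (Finset (Fin n)))

/-- The membership of the image of a quadruple of vertices. -/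
def jv (p : Fin 4 → Fin n) : ℤ := if Function.Injective p ∧ univ.image p ∈ J then 1 else 0

theorem jv_nonneg (p : Fin 4 → Fin n) : 0 ≤ jv J p := by
  unfold jv
  split_ifs <;> norm_num

theorem jv_le_one (p : Fin 4 → Fin n) : jv J p ≤ 1 := by
  unfold jv
  split_ifs <;> norm_num

/-- The total sum of the memberships. -/
theorem jv_tot (hJ : ∀ e ∈ J, e.card = 4) : ((∑ p, jv J p : ℤ) : ℝ) ≤ 24 * (J.card : ℝ) := by
  classical
  have h1 := sum_inj_le_edges (V := Fin n) 4 J hJ (fun p => ((jv J p : ℤ) : ℝ))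
    (fun p => by exact_mod_cast jv_le_one J p) (fun p _ h => by
      unfold jv
      rw [if_neg fun h2 => h h2.2]
      simp)
  have h2 : ((∑ p, jv J p : ℤ) : ℝ) = ∑ a ∈ inj (Fin n) 4, ((jv J a : ℤ) : ℝ) := by
    push_cast
    unfold inj
    rw [Finset.sum_filter]
    refine Finset.sum_congr rfl fun p _ => ?_
    split_ifs with h
    · rfl
    · unfold jv
      rw [if_neg fun h2 => h h2.1]
      simp
  rw [h2]
  refine le_trans h1 ?_
  norm_num [Nat.factorial]

theorem jv_perm (p : Fin 4 → Fin n) (σ : Equiv.Perm (Fin 4)) : jv J (p ∘ σ) = jv J p := by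
  unfold jv
  have h1 : Function.Injective (p ∘ σ) ↔ Function.Injective p :=
    ⟨fun h => by
      have h2 := h.comp σ.symm.injective
      rwa [Function.comp_assoc, Equiv.self_comp_symm, Function.comp_id] at h2,
      fun h => h.comp σ.injective⟩
  have h2 : univ.image (p ∘ σ) = univ.image p := by
    rw [← Finset.image_image, Finset.image_univ_equiv]
  rw [h2]
  exact if_congr (and_congr_left fun _ => h1) rfl rfl

variable (dn dd : ℕ)

/-- The marks do not depend on the order. -/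
theorem mk_comm (x y : Fin n) : mk (jv J) dn dd x y = mk (jv J) dn dd y x := by
  have h : js (jv J) x y = js (jv J) y x := by
    unfold js
    refine Finset.sum_congr rfl fun u _ => ?_
    rw [← jv_perm J ![x, y, u 0, u 1] (Equiv.swap 0 1)]
    congr 1
    funext i
    fin_cases i <;> rfl
  unfold mk
  rw [h]

/-- The quadruples of a window in `J`. -/
def wA (t : Fin 6 → Fin n) (Q : Finset (Fin 6)) : Bool := decide (Q.image t ∈ J)

/-- The marks of a window. -/
def wb (t : Fin 6 → Fin n) (a b : Fin 6) : Bool := mk (jv J) dn dd (t a) (t b)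

theorem jv_win (t : Fin 6 → Fin n) (ht : Function.Injective t) (q : Fin 4 → Fin 6)
    (hq : Function.Injective q) : jv J (t ∘ q) = (wA J t (univ.image q)).toNat := by
  unfold jv wA
  rw [← Finset.image_image]
  by_cases h : (univ.image q).image t ∈ J
  · rw [if_pos ⟨ht.comp hq, h⟩, decide_eq_true h]
    rfl
  · rw [if_neg fun h2 => h h2.2, decide_eq_false h]
    rfl

/-- A multiplier: a function of the membership of four vertices and of their marks. -/
abbrev Fn : Type := Bool → (Fin 4 → Fin 4 → Bool) → ℕ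

/-- The multiplier as a function of four vertices. -/
def phi (F : Fn) (s : Fin 4 → Fin n) : ℤ :=
  (F (decide (jv J s = 1)) fun a b => mk (jv J) dn dd (s a) (s b) : ℕ)

end win

/-- One of the four families, with a multiplier and an ordering of the window. -/
structure Item where
  k : Fin 4
  F : Fn
  B : ℕ
  hB : ∀ x m, F x m ≤ B
  π : Equiv.Perm (Fin 6)

/-- The parameters: `dn / dd` is the threshold of the marks, `xn / xd` bounds the average. -/
structure Par where
  dn : ℕ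
  dd : ℕ
  xn : ℕ
  xd : ℕ

/-- The value of an item on a window. -/
def Item.val (P : Par) (i : Item) (A : Finset (Fin 6) → Bool) (b : Fin 6 → Fin 6 → Bool) : ℤ :=
  let m : ℤ := (i.F (A (univ.image fun a : Fin 4 => i.π (Fin.castAdd 2 a)))
    fun x y => b (i.π (Fin.castAdd 2 x)) (i.π (Fin.castAdd 2 y)) : ℕ)
  let a : ℤ := ((A (univ.image ![i.π 0, i.π 1, i.π 4, i.π 5])).toNat : ℕ)
  match i.k with
  | 0 => if b (i.π 0) (i.π 1) = true then 0 else m * ((P.dn : ℤ) - P.dd * a)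
  | 1 => if b (i.π 0) (i.π 1) = true then m * ((P.dd : ℤ) * a - P.dn) else 0
  | 2 => m * ((P.xn : ℤ) * P.dd - P.xd * P.dn * (b (i.π 4) (i.π 5)).toNat)
  | 3 => if b (i.π 0) (i.π 1) = true then
      (P.xn : ℤ) - P.xd * ((A (univ.image ![i.π 2, i.π 3, i.π 4, i.π 5])).toNat : ℕ) else 0

/-- The bound of an item. -/
def Item.bd (P : Par) (i : Item) : ℕ := i.B * (P.dn + P.dd + P.xn * P.dd) + P.xn

section avg
variable {n : ℕ} (J : Finset (Finset (Fin n))) (P : Par)

theorem inj4 (π : Equiv.Perm (Fin 6)) (a b c d : Fin 6) (h : Function.Injective ![a, b, c, d]) :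
    Function.Injective (![π a, π b, π c, π d] : Fin 4 → Fin 6) := by
  have e : (![π a, π b, π c, π d] : Fin 4 → Fin 6) = π ∘ ![a, b, c, d] := by
    funext i
    fin_cases i <;> rfl
  rw [e]
  exact π.injective.comp h

/-- An item on a window as a value of one of the four families. -/
theorem Item.val_eq (i : Item) (t : Fin 6 → Fin n) (ht : Function.Injective t) :
    i.val P (wA J t) (wb J P.dn P.dd t) = match i.k with
      | 0 => t1 (jv J) P.dn P.dd (phi J P.dn P.dd i.F) (t ∘ i.π)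
      | 1 => t2 (jv J) P.dn P.dd (phi J P.dn P.dd i.F) (t ∘ i.π)
      | 2 => t3 (jv J) P.dn P.dd P.xn P.xd (phi J P.dn P.dd i.F) (t ∘ i.π)
      | 3 => t4 (jv J) P.dn P.dd P.xn P.xd (t ∘ i.π) := by
  have e1 : (![(t ∘ i.π) 0, (t ∘ i.π) 1, (t ∘ i.π) 4, (t ∘ i.π) 5] : Fin 4 → Fin n) =
      t ∘ ![i.π 0, i.π 1, i.π 4, i.π 5] := by
    funext a
    fin_cases a <;> rfl
  have e2 : (![(t ∘ i.π) 2, (t ∘ i.π) 3, (t ∘ i.π) 4, (t ∘ i.π) 5] : Fin 4 → Fin n) =
      t ∘ ![i.π 2, i.π 3, i.π 4, i.π 5] := by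
    funext a
    fin_cases a <;> rfl
  have h1 : jv J (t ∘ ![i.π 0, i.π 1, i.π 4, i.π 5]) =
      (wA J t (univ.image ![i.π 0, i.π 1, i.π 4, i.π 5])).toNat :=
    jv_win J t ht _ (inj4 i.π 0 1 4 5 (by decide))
  have h2 : jv J (t ∘ ![i.π 2, i.π 3, i.π 4, i.π 5]) =
      (wA J t (univ.image ![i.π 2, i.π 3, i.π 4, i.π 5])).toNat :=
    jv_win J t ht _ (inj4 i.π 2 3 4 5 (by decide))
  have e3 : (t ∘ i.π) ∘ Fin.castAdd 2 = t ∘ (fun a : Fin 4 => i.π (Fin.castAdd 2 a)) := rfl
  have h3 : jv J ((t ∘ i.π) ∘ Fin.castAdd 2) =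
      (wA J t (univ.image fun a : Fin 4 => i.π (Fin.castAdd 2 a))).toNat := by
    rw [e3]
    exact jv_win J t ht _ (i.π.injective.comp (Fin.castAdd_injective 4 2))
  have h4 : phi J P.dn P.dd i.F ((t ∘ i.π) ∘ Fin.castAdd 2) =
      ((i.F (wA J t (univ.image fun a : Fin 4 => i.π (Fin.castAdd 2 a)))
        fun x y => wb J P.dn P.dd t (i.π (Fin.castAdd 2 x)) (i.π (Fin.castAdd 2 y)) : ℕ) : ℤ) := by
    unfold phi
    rw [h3]
    have h5 : decide ((((wA J t (univ.image fun a : Fin 4 => i.π (Fin.castAdd 2 a))).toNat : ℕ) :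
        ℤ) = 1) = wA J t (univ.image fun a : Fin 4 => i.π (Fin.castAdd 2 a)) := by
      cases wA J t (univ.image fun a : Fin 4 => i.π (Fin.castAdd 2 a)) <;> simp
    rw [h5]
    rfl
  unfold Item.val
  match i.k with
  | 0 =>
    show _ = t1 _ _ _ _ _
    unfold t1
    rw [e1, h1, h4]
    rfl
  | 1 =>
    show _ = t2 _ _ _ _ _
    unfold t2
    rw [e1, h1, h4]
    rfl
  | 2 =>
    show _ = t3 _ _ _ _ _ _ _
    unfold t3
    rw [h4]
    rfl
  | 3 =>
    show _ = t4 _ _ _ _ _ _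
    unfold t4
    rw [e2, h2]
    rfl

/-- The average of an item. -/
theorem Item.avg (i : Item) (hX : (P.xd : ℤ) * ∑ p, jv J p ≤ P.xn * (n : ℤ) ^ 4) {M : ℕ}
    (j : Fin 6 → Fin M) (hj : Function.Injective j) :
    -((i.bd P : ℝ) * ((n : ℝ) ^ M - (n.descFactorial M : ℝ))) ≤
      ∑ t ∈ inj (Fin n) M, ((i.val P (wA J (t ∘ j)) (wb J P.dn P.dd (t ∘ j)) : ℤ) : ℝ) := by
  have hD : 0 ≤ (n : ℝ) ^ M - (n.descFactorial M : ℝ) := by
    have h : (n.descFactorial M : ℝ) ≤ (n : ℝ) ^ M := by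
      exact_mod_cast Nat.descFactorial_le_pow n M
    linarith
  have hφ : ∀ s, 0 ≤ phi J P.dn P.dd i.F s := fun s => Int.natCast_nonneg _
  have hφB : ∀ s, phi J P.dn P.dd i.F s ≤ i.B := fun s => by
    unfold phi
    exact_mod_cast i.hB _ _
  have key : ∀ (f : (Fin 6 → Fin n) → ℤ) (B : ℤ), B ≤ (i.bd P : ℤ) → 0 ≤ ∑ p, f p →
      (∀ p, f p ≤ B) →
      (∀ t : Fin 6 → Fin n, Function.Injective t →
        i.val P (wA J t) (wb J P.dn P.dd t) = f (t ∘ i.π)) →
      -((i.bd P : ℝ) * ((n : ℝ) ^ M - (n.descFactorial M : ℝ))) ≤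
        ∑ t ∈ inj (Fin n) M, ((i.val P (wA J (t ∘ j)) (wb J P.dn P.dd (t ∘ j)) : ℤ) : ℝ) := by
    intro f B hBb h0 hf he
    have h1 := inj_ge_of_tot f (i.bd P : ℝ) h0 (fun p => by
      have := le_trans (hf p) hBb
      exact_mod_cast this) (j ∘ i.π) (hj.comp i.π.injective)
    refine le_trans h1 (le_of_eq ?_)
    refine Finset.sum_congr rfl fun t ht => ?_
    rw [he (t ∘ j) ((mem_inj.mp ht).comp hj)]
    rfl
  have hb1 : (i.B * P.dn : ℤ) ≤ (i.bd P : ℤ) := by
    unfold Item.bd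
    push_cast
    nlinarith [Int.natCast_nonneg i.B, Int.natCast_nonneg P.dd, Int.natCast_nonneg P.xn,
      mul_nonneg (Int.natCast_nonneg i.B) (Int.natCast_nonneg P.dd),
      mul_nonneg (Int.natCast_nonneg i.B) (mul_nonneg (Int.natCast_nonneg P.xn)
        (Int.natCast_nonneg P.dd))]
  have hb2 : (i.B * P.dd : ℤ) ≤ (i.bd P : ℤ) := by
    unfold Item.bd
    push_cast
    nlinarith [Int.natCast_nonneg i.B, Int.natCast_nonneg P.dn, Int.natCast_nonneg P.xn,
      mul_nonneg (Int.natCast_nonneg i.B) (Int.natCast_nonneg P.dn),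
      mul_nonneg (Int.natCast_nonneg i.B) (mul_nonneg (Int.natCast_nonneg P.xn)
        (Int.natCast_nonneg P.dd))]
  have hb3 : (i.B * (P.xn * P.dd) : ℤ) ≤ (i.bd P : ℤ) := by
    unfold Item.bd
    push_cast
    nlinarith [Int.natCast_nonneg i.B, Int.natCast_nonneg P.dn, Int.natCast_nonneg P.xn,
      mul_nonneg (Int.natCast_nonneg i.B) (Int.natCast_nonneg P.dn),
      mul_nonneg (Int.natCast_nonneg i.B) (Int.natCast_nonneg P.dd)]
  have hb4 : (P.xn : ℤ) ≤ (i.bd P : ℤ) := by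
    unfold Item.bd
    push_cast
    have : (0 : ℤ) ≤ i.B * (P.dn + P.dd + P.xn * P.dd) := by positivity
    linarith
  have hv := fun t ht => Item.val_eq J P i t ht
  match hk : i.k with
  | 0 =>
    refine key _ _ hb1 (t1_tot (jv J) P.dn P.dd _ hφ)
      (t1_le (jv J) P.dn P.dd (jv_nonneg J) _ i.B hφ hφB) fun t ht => ?_
    rw [hv t ht, hk]
  | 1 =>
    refine key _ _ hb2 (t2_tot (jv J) P.dn P.dd _ hφ)
      (t2_le (jv J) P.dn P.dd (jv_le_one J) _ i.B hφ hφB) fun t ht => ?_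
    rw [hv t ht, hk]
  | 2 =>
    refine key _ _ hb3 (t3_tot (jv J) P.dn P.dd P.xn P.xd (jv_nonneg J) hX _ hφ)
      (t3_le (jv J) P.dn P.dd P.xn P.xd _ i.B hφ hφB) fun t ht => ?_
    rw [hv t ht, hk]
  | 3 =>
    refine key _ _ hb4 (t4_tot (jv J) P.dn P.dd P.xn P.xd hX)
      (t4_le (jv J) P.dn P.dd P.xn P.xd (jv_nonneg J)) fun t ht => ?_
    rw [hv t ht, hk]

/-- The sum of a list of items on a window. -/
def itemSum (L : List Item) (A : Finset (Fin 6) → Bool) (b : Fin 6 → Fin 6 → Bool) : ℤ :=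
  (L.map fun i => i.val P A b).sum

/-- The average of a list of items. -/
theorem itemSum_avg (L : List Item) (hX : (P.xd : ℤ) * ∑ p, jv J p ≤ P.xn * (n : ℤ) ^ 4) {M : ℕ}
    (j : Fin 6 → Fin M) (hj : Function.Injective j) :
    -(((L.map fun i => i.bd P).sum : ℕ) * ((n : ℝ) ^ M - (n.descFactorial M : ℝ))) ≤
      ∑ t ∈ inj (Fin n) M, ((itemSum P L (wA J (t ∘ j)) (wb J P.dn P.dd (t ∘ j)) : ℤ) : ℝ) := by
  induction L with
  | nil => simp [itemSum]
  | cons i L ih =>
    have h1 := Item.avg J P i hX j hj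
    have h2 : ∑ t ∈ inj (Fin n) M,
        ((itemSum P (i :: L) (wA J (t ∘ j)) (wb J P.dn P.dd (t ∘ j)) : ℤ) : ℝ) =
        ∑ t ∈ inj (Fin n) M, ((i.val P (wA J (t ∘ j)) (wb J P.dn P.dd (t ∘ j)) : ℤ) : ℝ) +
        ∑ t ∈ inj (Fin n) M, ((itemSum P L (wA J (t ∘ j)) (wb J P.dn P.dd (t ∘ j)) : ℤ) : ℝ) := by
      rw [← Finset.sum_add_distrib]
      refine Finset.sum_congr rfl fun t _ => ?_
      simp [itemSum]
    rw [h2, List.map_cons, List.sum_cons]
    push_cast
    push_cast at ih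
    linarith

/-- The average of a function of the quadruples in `J` that is at least the sum of the items for all
marks. -/
theorem marks_avg (L : List Item) (V : (Finset (Fin 6) → Bool) → ℤ)
    (hV : ∀ (A : Finset (Fin 6) → Bool) (b : Fin 6 → Fin 6 → Bool), (∀ x y, b x y = b y x) →
      itemSum P L A b ≤ V A) (hX : (P.xd : ℤ) * ∑ p, jv J p ≤ P.xn * (n : ℤ) ^ 4) {M : ℕ}
    (j : Fin 6 → Fin M) (hj : Function.Injective j) :
    -(((L.map fun i => i.bd P).sum : ℕ) * ((n : ℝ) ^ M - (n.descFactorial M : ℝ))) ≤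
      ∑ t ∈ inj (Fin n) M, ((V (wA J (t ∘ j)) : ℤ) : ℝ) := by
  refine le_trans (itemSum_avg J P L hX j hj) (Finset.sum_le_sum fun t _ => ?_)
  exact_mod_cast hV _ _ fun x y => mk_comm J P.dn P.dd _ _

/-- The hypothesis from the number of members. -/
theorem hX_of_card (hJ : ∀ e ∈ J, e.card = 4)
    (h : (P.xd : ℝ) * (24 * (J.card : ℝ)) ≤ P.xn * (n : ℝ) ^ 4) :
    (P.xd : ℤ) * ∑ p, jv J p ≤ P.xn * (n : ℤ) ^ 4 := by
  have h1 := jv_tot J hJ
  have h2 : (P.xd : ℝ) * ((∑ p, jv J p : ℤ) : ℝ) ≤ P.xn * (n : ℝ) ^ 4 :=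
    le_trans (mul_le_mul_of_nonneg_left h1 (Nat.cast_nonneg _)) h
  exact_mod_cast h2

end avg

end Pool.Agent.Lib.MP_afdd4d_co.K9.Marks
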