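import Pool.Agent.Lib.MP_afdd4d_co.K8.Skel

/-!
# Pair marks

Let `g` be a function of four vertices with values in `{0, 1}` and small average. A pair of vertices
is marked if the average of `g` over the quadruples that start with the pair is larger than a
constant. Four families of functions of six vertices with nonnegative total sum.
-/

namespace Pool.Agent.Lib.MP_afdd4d_co.K9.Marks

open Finset K8

/-! ### Functions with nonnegative total sum -/

section gen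
variable {n : ℕ}

/-- The sum over the injective tuples of a function with nonnegative total sum. -/
theorem inj_ge_of_tot {k M : ℕ} (f : (Fin k → Fin n) → ℤ) (C : ℝ) (h0 : 0 ≤ ∑ p, f p)
    (hC : ∀ p, ((f p : ℤ) : ℝ) ≤ C) (j : Fin k → Fin M) (hj : Function.Injective j) :
    -(C * ((n : ℝ) ^ M - (n.descFactorial M : ℝ))) ≤
      ∑ t ∈ inj (Fin n) M, ((f (t ∘ j) : ℤ) : ℝ) := by
  have h1 : k ≤ M := by
    have h := Fintype.card_le_of_injective j hj
    rwa [Fintype.card_fin, Fintype.card_fin] at h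
  obtain ⟨d, rfl⟩ := Nat.exists_eq_add_of_le h1
  have h2 : (0 : ℝ) ≤ ∑ p, ((f p : ℤ) : ℝ) := by exact_mod_cast h0
  have h3 := inj_comp_ge (V := Fin n) d (fun p => ((f p : ℤ) : ℝ)) C h2 hC j hj
  rwa [Fintype.card_fin] at h3

/-- The total sum by the first four and the last two vertices. -/
theorem sum42 (f : (Fin 6 → Fin n) → ℤ) :
    ∑ p, f p = ∑ s : Fin 4 → Fin n, ∑ u : Fin 2 → Fin n, f (Fin.append s u) := by
  rw [← (Fin.appendEquiv 4 2).sum_comp, Fintype.sum_prod_type]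
  rfl

/-- The total sum by the first two and the last four vertices. -/
theorem sum24 (f : (Fin 6 → Fin n) → ℤ) :
    ∑ p, f p = ∑ s : Fin 2 → Fin n, ∑ u : Fin 4 → Fin n, f (Fin.append s u) := by
  rw [← (Fin.appendEquiv 2 4).sum_comp, Fintype.sum_prod_type]
  rfl

/-- The total sum of a function of four vertices by pairs. -/
theorem sum22 (f : (Fin 4 → Fin n) → ℤ) :
    ∑ p, f p = ∑ s : Fin 2 → Fin n, ∑ u : Fin 2 → Fin n, f (Fin.append s u) := by
  rw [← (Fin.appendEquiv 2 2).sum_comp, Fintype.sum_prod_type]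
  rfl

end gen

section marks
variable {n : ℕ} (g : (Fin 4 → Fin n) → ℤ) (dn dd : ℕ)

/-- The sum of `g` over the quadruples that start with a pair. -/
def js (x y : Fin n) : ℤ := ∑ u : Fin 2 → Fin n, g ![x, y, u 0, u 1]

/-- The mark of a pair. -/
def mk (x y : Fin n) : Bool := decide ((dn : ℤ) * (n : ℤ) ^ 2 < (dd : ℤ) * js g x y)

/-- The number of marked pairs. -/
def mc : ℤ := ∑ u : Fin 2 → Fin n, ((mk g dn dd (u 0) (u 1)).toNat : ℤ)

/-- Markov's inequality for the marks. -/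
theorem mc_le (hg : ∀ p, 0 ≤ g p) : (dn : ℤ) * (n : ℤ) ^ 2 * mc g dn dd ≤ (dd : ℤ) * ∑ p, g p := by
  rw [sum22 g, mc, Finset.mul_sum, Finset.mul_sum]
  refine Finset.sum_le_sum fun u _ => ?_
  have e : ∑ w : Fin 2 → Fin n, g (Fin.append u w) = js g (u 0) (u 1) := by
    unfold js
    refine Finset.sum_congr rfl fun w _ => ?_
    congr 1
    funext i
    fin_cases i <;> rfl
  rw [e]
  have h0 : 0 ≤ js g (u 0) (u 1) := Finset.sum_nonneg fun w _ => hg _
  unfold mk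
  by_cases h : (dn : ℤ) * (n : ℤ) ^ 2 < (dd : ℤ) * js g (u 0) (u 1)
  · rw [decide_eq_true h]
    simp only [Bool.toNat_true, Nat.cast_one, mul_one]
    exact h.le
  · rw [decide_eq_false h]
    simp only [Bool.toNat_false, Nat.cast_zero, mul_zero]
    positivity

/-! ### The four families -/

/-- An unmarked pair has a small average. -/
def t1 (φ : (Fin 4 → Fin n) → ℤ) (p : Fin 6 → Fin n) : ℤ :=
  if mk g dn dd (p 0) (p 1) = true then 0 else
    φ (p ∘ Fin.castAdd 2) * ((dn : ℤ) - dd * g ![p 0, p 1, p 4, p 5])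

/-- A marked pair has a large average. -/
def t2 (φ : (Fin 4 → Fin n) → ℤ) (p : Fin 6 → Fin n) : ℤ :=
  if mk g dn dd (p 0) (p 1) = true then
    φ (p ∘ Fin.castAdd 2) * ((dd : ℤ) * g ![p 0, p 1, p 4, p 5] - dn) else 0

/-- There are few marked pairs. -/
def t3 (xn xd : ℕ) (φ : (Fin 4 → Fin n) → ℤ) (p : Fin 6 → Fin n) : ℤ :=
  φ (p ∘ Fin.castAdd 2) * ((xn : ℤ) * dd - xd * dn * (mk g dn dd (p 4) (p 5)).toNat)

/-- The average of `g` on the quadruples disjoint from a marked pair is small. -/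
def t4 (xn xd : ℕ) (p : Fin 6 → Fin n) : ℤ :=
  if mk g dn dd (p 0) (p 1) = true then (xn : ℤ) - xd * g ![p 2, p 3, p 4, p 5] else 0

theorem card_fun2 : ((univ : Finset (Fin 2 → Fin n)).card : ℤ) = (n : ℤ) ^ 2 := by
  rw [Finset.card_univ, Fintype.card_fun, Fintype.card_fin, Fintype.card_fin]
  push_cast
  rfl

theorem card_fun4 : ((univ : Finset (Fin 4 → Fin n)).card : ℤ) = (n : ℤ) ^ 4 := by
  rw [Finset.card_univ, Fintype.card_fun, Fintype.card_fin, Fintype.card_fin]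
  push_cast
  rfl

theorem append4_0 (s : Fin 4 → Fin n) (u : Fin 2 → Fin n) :
    (Fin.append s u : Fin 6 → Fin n) 0 = s 0 := rfl
theorem append4_1 (s : Fin 4 → Fin n) (u : Fin 2 → Fin n) :
    (Fin.append s u : Fin 6 → Fin n) 1 = s 1 := rfl
theorem append4_4 (s : Fin 4 → Fin n) (u : Fin 2 → Fin n) :
    (Fin.append s u : Fin 6 → Fin n) 4 = u 0 := rfl
theorem append4_5 (s : Fin 4 → Fin n) (u : Fin 2 → Fin n) :
    (Fin.append s u : Fin 6 → Fin n) 5 = u 1 := rfl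
theorem append4_cast (s : Fin 4 → Fin n) (u : Fin 2 → Fin n) :
    (Fin.append s u : Fin 6 → Fin n) ∘ Fin.castAdd 2 = s := by
  funext i
  exact Fin.append_left s u i

theorem t1_tot (φ : (Fin 4 → Fin n) → ℤ) (hφ : ∀ s, 0 ≤ φ s) : 0 ≤ ∑ p, t1 g dn dd φ p := by
  rw [sum42]
  refine Finset.sum_nonneg fun s _ => ?_
  unfold t1
  simp only [append4_0, append4_1, append4_4, append4_5, append4_cast]
  by_cases h : mk g dn dd (s 0) (s 1) = true
  · simp only [if_pos h]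
    simp
  · simp only [if_neg h]
    rw [← Finset.mul_sum]
    refine mul_nonneg (hφ s) ?_
    rw [Finset.sum_sub_distrib, Finset.sum_const, nsmul_eq_mul, card_fun2, ← Finset.mul_sum]
    have h1 : ¬ (dn : ℤ) * (n : ℤ) ^ 2 < (dd : ℤ) * js g (s 0) (s 1) := by
      intro h2
      exact h (decide_eq_true h2)
    have h2 : ∑ u : Fin 2 → Fin n, g ![s 0, s 1, u 0, u 1] = js g (s 0) (s 1) := rfl
    rw [h2]
    linarith [not_lt.mp h1, mul_comm (dn : ℤ) ((n : ℤ) ^ 2)]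

theorem t2_tot (φ : (Fin 4 → Fin n) → ℤ) (hφ : ∀ s, 0 ≤ φ s) : 0 ≤ ∑ p, t2 g dn dd φ p := by
  rw [sum42]
  refine Finset.sum_nonneg fun s _ => ?_
  unfold t2
  simp only [append4_0, append4_1, append4_4, append4_5, append4_cast]
  by_cases h : mk g dn dd (s 0) (s 1) = true
  · simp only [if_pos h]
    rw [← Finset.mul_sum]
    refine mul_nonneg (hφ s) ?_
    rw [Finset.sum_sub_distrib, Finset.sum_const, nsmul_eq_mul, card_fun2, ← Finset.mul_sum]
    have h1 : (dn : ℤ) * (n : ℤ) ^ 2 < (dd : ℤ) * js g (s 0) (s 1) := of_decide_eq_true h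
    have h2 : ∑ u : Fin 2 → Fin n, g ![s 0, s 1, u 0, u 1] = js g (s 0) (s 1) := rfl
    rw [h2]
    linarith [mul_comm (dn : ℤ) ((n : ℤ) ^ 2)]
  · simp only [if_neg h]
    simp

theorem t3_tot (xn xd : ℕ) (hg : ∀ p, 0 ≤ g p) (hX : (xd : ℤ) * ∑ p, g p ≤ xn * (n : ℤ) ^ 4)
    (φ : (Fin 4 → Fin n) → ℤ) (hφ : ∀ s, 0 ≤ φ s) : 0 ≤ ∑ p, t3 g dn dd xn xd φ p := by
  rw [sum42]
  refine Finset.sum_nonneg fun s _ => ?_
  unfold t3
  simp only [append4_4, append4_5, append4_cast]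
  rw [← Finset.mul_sum]
  refine mul_nonneg (hφ s) ?_
  rw [Finset.sum_sub_distrib, Finset.sum_const, nsmul_eq_mul, card_fun2, ← Finset.mul_sum]
  have h2 : ∑ u : Fin 2 → Fin n, ((mk g dn dd (u 0) (u 1)).toNat : ℤ) = mc g dn dd := rfl
  rw [h2]
  have h3 := mc_le g dn dd hg
  rcases Nat.eq_zero_or_pos n with h0 | h0
  · subst h0
    have h4 : mc g dn dd = 0 := by
      unfold mc
      have : IsEmpty (Fin 2 → Fin 0) := ⟨fun u => (u 0).elim0⟩
      exact Finset.sum_of_isEmpty _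
    rw [h4]
    simp
  · have hn : (0 : ℤ) < (n : ℤ) ^ 2 := by positivity
    have h5 : (n : ℤ) ^ 2 * ((xd : ℤ) * dn * mc g dn dd) ≤
        (n : ℤ) ^ 2 * ((n : ℤ) ^ 2 * ((xn : ℤ) * dd)) := by
      calc (n : ℤ) ^ 2 * ((xd : ℤ) * dn * mc g dn dd) =
          xd * ((dn : ℤ) * (n : ℤ) ^ 2 * mc g dn dd) := by ring
        _ ≤ xd * ((dd : ℤ) * ∑ p, g p) := mul_le_mul_of_nonneg_left h3 (by positivity)
        _ = dd * ((xd : ℤ) * ∑ p, g p) := by ring
        _ ≤ dd * ((xn : ℤ) * (n : ℤ) ^ 4) := mul_le_mul_of_nonneg_left hX (by positivity)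
        _ = _ := by ring
    have h6 := le_of_mul_le_mul_left h5 hn
    linarith

theorem t4_tot (xn xd : ℕ) (hX : (xd : ℤ) * ∑ p, g p ≤ xn * (n : ℤ) ^ 4) :
    0 ≤ ∑ p, t4 g dn dd xn xd p := by
  rw [sum24]
  refine Finset.sum_nonneg fun s _ => ?_
  unfold t4
  have e0 : ∀ u : Fin 4 → Fin n, (Fin.append s u : Fin 6 → Fin n) 0 = s 0 := fun _ => rfl
  have e1 : ∀ u : Fin 4 → Fin n, (Fin.append s u : Fin 6 → Fin n) 1 = s 1 := fun _ => rfl
  have e2 : ∀ u : Fin 4 → Fin n, (![(Fin.append s u : Fin 6 → Fin n) 2,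
      (Fin.append s u : Fin 6 → Fin n) 3, (Fin.append s u : Fin 6 → Fin n) 4,
      (Fin.append s u : Fin 6 → Fin n) 5] : Fin 4 → Fin n) = u := by
    intro u
    funext i
    fin_cases i <;> rfl
  simp only [e0, e1, e2]
  by_cases h : mk g dn dd (s 0) (s 1) = true
  · simp only [if_pos h]
    rw [Finset.sum_sub_distrib, Finset.sum_const, nsmul_eq_mul, card_fun4, ← Finset.mul_sum]
    linarith [mul_comm (xn : ℤ) ((n : ℤ) ^ 4)]
  · simp only [if_neg h]
    simp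

theorem toNat_le (b : Bool) : ((b.toNat : ℕ) : ℤ) ≤ 1 := by cases b <;> simp

theorem t1_le (hg : ∀ p, 0 ≤ g p) (φ : (Fin 4 → Fin n) → ℤ) (B : ℕ) (hφ : ∀ s, 0 ≤ φ s)
    (hB : ∀ s, φ s ≤ B) (p : Fin 6 → Fin n) : t1 g dn dd φ p ≤ B * dn := by
  unfold t1
  split_ifs
  · positivity
  · have h1 := hg ![p 0, p 1, p 4, p 5]
    have h2 : (dn : ℤ) - dd * g ![p 0, p 1, p 4, p 5] ≤ dn := by
      have : (0 : ℤ) ≤ dd * g ![p 0, p 1, p 4, p 5] := by positivity
      linarith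
    calc _ ≤ φ (p ∘ Fin.castAdd 2) * dn := mul_le_mul_of_nonneg_left h2 (hφ _)
      _ ≤ B * dn := mul_le_mul_of_nonneg_right (hB _) (by positivity)

theorem t2_le (hg1 : ∀ p, g p ≤ 1) (φ : (Fin 4 → Fin n) → ℤ) (B : ℕ) (hφ : ∀ s, 0 ≤ φ s)
    (hB : ∀ s, φ s ≤ B) (p : Fin 6 → Fin n) : t2 g dn dd φ p ≤ B * dd := by
  unfold t2
  split_ifs
  · have h2 : (dd : ℤ) * g ![p 0, p 1, p 4, p 5] - dn ≤ dd := by
      have h3 : (dd : ℤ) * g ![p 0, p 1, p 4, p 5] ≤ dd * 1 :=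
        mul_le_mul_of_nonneg_left (hg1 _) (by positivity)
      have h4 : (0 : ℤ) ≤ dn := by positivity
      linarith
    calc _ ≤ φ (p ∘ Fin.castAdd 2) * dd := mul_le_mul_of_nonneg_left h2 (hφ _)
      _ ≤ B * dd := mul_le_mul_of_nonneg_right (hB _) (by positivity)
  · positivity

theorem t3_le (xn xd : ℕ) (φ : (Fin 4 → Fin n) → ℤ) (B : ℕ) (hφ : ∀ s, 0 ≤ φ s)
    (hB : ∀ s, φ s ≤ B) (p : Fin 6 → Fin n) : t3 g dn dd xn xd φ p ≤ B * (xn * dd) := by
  unfold t3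
  have h2 : (xn : ℤ) * dd - xd * dn * (mk g dn dd (p 4) (p 5)).toNat ≤ xn * dd := by
    have : (0 : ℤ) ≤ xd * dn * (mk g dn dd (p 4) (p 5)).toNat := by positivity
    linarith
  calc _ ≤ φ (p ∘ Fin.castAdd 2) * (xn * dd) := mul_le_mul_of_nonneg_left h2 (hφ _)
    _ ≤ B * (xn * dd) := mul_le_mul_of_nonneg_right (hB _) (by positivity)

theorem t4_le (xn xd : ℕ) (hg : ∀ p, 0 ≤ g p) (p : Fin 6 → Fin n) :
    t4 g dn dd xn xd p ≤ xn := by
  unfold t4
  split_ifs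
  · have h1 := hg ![p 2, p 3, p 4, p 5]
    have : (0 : ℤ) ≤ xd * g ![p 2, p 3, p 4, p 5] := by positivity
    linarith
  · positivity

end marks

end Pool.Agent.Lib.MP_afdd4d_co.K9.Marks
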