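import Pool.Agent.Lib.MP_afdd4d_co.K9.TwJ4

/-!
# Bounds with the distance to the structure

The sums over the windows in terms of the numbers of edges, and the local theorems with a multiple of
the number of quadruples in which the 4-graph differs from the structure.
-/

namespace Pool.Agent.Lib.MP_afdd4d_co.K9.Star.Tw

open Finset K8
open Pool.Agent.Lib.MP_afdd4d_co.K9.Marks

/-! ### The sums over the windows -/

/-- The sum of the numbers of edges of the windows. -/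
theorem sum_S4_eq {n : ℕ} (H : Finset (Finset (Fin n))) (h4 : ∀ e ∈ H, e.card = 4) :
    ∑ t ∈ inj (Fin n) 6, ((S4 (zb H t) : ℤ) : ℝ) = 360 * (PP n 4 2 * (H.card : ℝ)) := by
  have h1 := sum_colR_eq H h4
  have e1 : ∑ t ∈ inj (Fin n) 6, ((colR (zb H t) : ℤ) : ℝ) =
      165 * (n.descFactorial 6 : ℝ) - 16 * ∑ t ∈ inj (Fin n) 6, ((S4 (zb H t) : ℤ) : ℝ) := by
    have e2 : ∀ t : Fin 6 → Fin n, ((colR (zb H t) : ℤ) : ℝ) =
        165 - 16 * ((S4 (zb H t) : ℤ) : ℝ) := by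
      intro t
      unfold colR
      push_cast
      ring
    rw [Finset.sum_congr rfl fun t _ => e2 t, Finset.sum_sub_distrib, ← Finset.mul_sum]
    simp only [Finset.sum_const, nsmul_eq_mul, card_inj, Fintype.card_fin]
    ring
  rw [e1] at h1
  linarith

/-- The numbers of edges from the sum over the windows. -/
theorem cards_of_sum (N y s : ℕ) (ε : ℝ) (hε : 0 < ε) :
    ∃ δ : ℝ, 0 < δ ∧ ∃ N0 : ℕ, ∀ n : ℕ, N0 ≤ n → ∀ H G F : Finset (Finset (Fin n)),
      (∀ e ∈ H, e.card = 4) → (∀ e ∈ G, e.card = 4) → (∀ e ∈ F, e.card = 4) →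
      -(δ * (n : ℝ) ^ 6) ≤
        ∑ t ∈ inj (Fin n) 6, (((N * (165 - 16 * S4 (zb H t)) + y * (165 - 16 * S4 (zb G t)) -
          s * S4 (zb F t) : ℤ)) : ℝ) →
      16 * (N * (H.card : ℝ)) + s * (F.card : ℝ) ≤ (11 * N + ε) * ((n.choose 4 : ℕ) : ℝ) +
        y * (11 * ((n.choose 4 : ℕ) : ℝ) - 16 * (G.card : ℝ)) := by
  refine ⟨ε / 2, by positivity, 60, fun n hn H G F h4 h4' h4'' h => ?_⟩
  have h6 : 6 ≤ n := by omega
  have hn0 : (60 : ℝ) ≤ n := by exact_mod_cast hn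
  have e1 : ∑ t ∈ inj (Fin n) 6, (((N * (165 - 16 * S4 (zb H t)) + y * (165 - 16 * S4 (zb G t)) -
          s * S4 (zb F t) : ℤ)) : ℝ) = 360 * (PP n 4 2 * (11 * (N + y) * ((n.choose 4 : ℕ) : ℝ) -
          16 * (N * (H.card : ℝ)) - 16 * (y * (G.card : ℝ)) - s * (F.card : ℝ))) := by
    have e2 : ∀ t : Fin 6 → Fin n, (((N * (165 - 16 * S4 (zb H t)) +
          y * (165 - 16 * S4 (zb G t)) - s * S4 (zb F t) : ℤ)) : ℝ) =
        165 * ((N : ℝ) + y) - 16 * (N * ((S4 (zb H t) : ℤ) : ℝ)) -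
          16 * (y * ((S4 (zb G t) : ℤ) : ℝ)) - s * ((S4 (zb F t) : ℤ) : ℝ) := by
      intro t
      push_cast
      ring
    rw [Finset.sum_congr rfl fun t _ => e2 t, Finset.sum_sub_distrib, Finset.sum_sub_distrib,
      Finset.sum_sub_distrib, ← Finset.mul_sum, ← Finset.mul_sum, ← Finset.mul_sum,
      ← Finset.mul_sum, ← Finset.mul_sum, ← Finset.mul_sum, sum_S4_eq H h4, sum_S4_eq G h4', sum_S4_eq F h4'']
    simp only [Finset.sum_const, nsmul_eq_mul, card_inj, Fintype.card_fin]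
    rw [desc6_eq h6]
    ring
  rw [e1] at h
  have hC := choose4_ge n (by omega)
  have hP1 : PP n 4 2 = ((n : ℝ) - 4) * (n - 5) := by
    unfold PP
    rw [Finset.prod_range_succ, Finset.prod_range_succ, Finset.prod_range_zero]
    push_cast
    ring
  set X : ℝ := 11 * (N + y) * ((n.choose 4 : ℕ) : ℝ) -
          16 * (N * (H.card : ℝ)) - 16 * (y * (G.card : ℝ)) - s * (F.card : ℝ) with hX
  have hP0 : 0 < PP n 4 2 := by
    rw [hP1]
    exact mul_pos (by linarith) (by linarith)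
  -- the bound of the power of `n`
  have hpow : (n : ℝ) ^ 6 ≤ 360 * (PP n 4 2 * ((n.choose 4 : ℕ) : ℝ)) := by
    have h7 : (n : ℝ) ^ 4 / 40 ≤ ((n.choose 4 : ℕ) : ℝ) := by
      refine le_trans ?_ hC
      have h8 : (n : ℝ) ^ 3 * 60 ≤ (n : ℝ) ^ 3 * n := mul_le_mul_of_nonneg_left hn0 (by positivity)
      have e : (n : ℝ) ^ 3 * n = (n : ℝ) ^ 4 := by ring
      rw [e] at h8
      have h9 : 0 ≤ (n : ℝ) ^ 4 := by positivity
      linarith
    have h8 : (n : ℝ) ^ 2 / 2 ≤ PP n 4 2 := by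
      rw [hP1]
      nlinarith
    calc (n : ℝ) ^ 6 ≤ 360 * ((n : ℝ) ^ 2 / 2 * ((n : ℝ) ^ 4 / 40)) := by
          have h9 : 0 ≤ (n : ℝ) ^ 6 := by positivity
          have e : 360 * ((n : ℝ) ^ 2 / 2 * ((n : ℝ) ^ 4 / 40)) = 9 / 2 * (n : ℝ) ^ 6 := by ring
          rw [e]
          linarith
      _ ≤ 360 * (PP n 4 2 * ((n.choose 4 : ℕ) : ℝ)) := by
          refine mul_le_mul_of_nonneg_left ?_ (by norm_num)
          exact mul_le_mul h8 h7 (by positivity) hP0.le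
  have h10 : -(ε / 2 * (360 * (PP n 4 2 * ((n.choose 4 : ℕ) : ℝ)))) ≤ 360 * (PP n 4 2 * X) := by
    have h11 := mul_le_mul_of_nonneg_left hpow (by positivity : (0 : ℝ) ≤ ε / 2)
    linarith
  have h12 : PP n 4 2 * -(ε / 2 * ((n.choose 4 : ℕ) : ℝ)) ≤ PP n 4 2 * X := by
    have e : 360 * (PP n 4 2 * -(ε / 2 * ((n.choose 4 : ℕ) : ℝ))) =
        -(ε / 2 * (360 * (PP n 4 2 * ((n.choose 4 : ℕ) : ℝ)))) := by ring
    have e3 : 360 * (PP n 4 2 * -(ε / 2 * ((n.choose 4 : ℕ) : ℝ))) ≤ 360 * (PP n 4 2 * X) := by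
      rw [e]
      exact h10
    exact le_of_mul_le_mul_left e3 (by norm_num)
  have h13 := le_of_mul_le_mul_left h12 hP0
  have h14 : (0 : ℝ) ≤ ((n.choose 4 : ℕ) : ℝ) := Nat.cast_nonneg _
  have h15 : 0 ≤ ε / 2 * ((n.choose 4 : ℕ) : ℝ) := by positivity
  have e4 : (11 * (N : ℝ) + ε) * ((n.choose 4 : ℕ) : ℝ) +
        y * (11 * ((n.choose 4 : ℕ) : ℝ) - 16 * (G.card : ℝ)) =
      X + 16 * (N * (H.card : ℝ)) + s * (F.card : ℝ) + ε * ((n.choose 4 : ℕ) : ℝ) := by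
    rw [hX]
    ring
  rw [e4]
  linarith

/-- The bound in the form with the densities. -/
theorem cards_div {N y s : ℕ} (hN : 0 < N) {ε h f g C : ℝ}
    (hh : 16 * (N * h) + s * f ≤ (11 * N + 16 * (N * ε)) * C + y * (11 * C - 16 * g)) :
    h + (s : ℝ) / (16 * N) * f ≤ (11 / 16 + ε) * C + (y : ℝ) / N * (11 / 16 * C - g) := by
  have hN' : (0 : ℝ) < N := by exact_mod_cast hN
  have h1 : 16 * N * (h + (s : ℝ) / (16 * N) * f) ≤
      16 * N * ((11 / 16 + ε) * C + (y : ℝ) / N * (11 / 16 * C - g)) := by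
    have e1 : 16 * N * (h + (s : ℝ) / (16 * N) * f) = 16 * (N * h) + s * f := by
      field_simp
    have e2 : 16 * N * ((11 / 16 + ε) * C + (y : ℝ) / N * (11 / 16 * C - g)) =
        (11 * N + 16 * (N * ε)) * C + y * (11 * C - 16 * g) := by
      field_simp
    rw [e1, e2]
    exact hh
  exact le_of_mul_le_mul_left h1 (by positivity)

/-- The quadruples of a window in exactly one of the two 4-graphs. -/
theorem zb_symmDiff {n m : ℕ} (H G : Finset (Finset (Fin n))) (t : Fin m → Fin n) :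
    zb (symmDiff H G) t = fun S => zb H t S ^^ zb G t S := by
  funext S
  rw [zb_eq, zb_eq, zb_eq]
  show decide (S.image t ∈ symmDiff H G) = (decide (S.image t ∈ H) ^^ decide (S.image t ∈ G))
  by_cases h1 : S.image t ∈ H <;> by_cases h2 : S.image t ∈ G <;>
    simp [Finset.mem_symmDiff, h1, h2]

theorem symmDiff_card4 {n : ℕ} {H G : Finset (Finset (Fin n))} (h4 : ∀ e ∈ H, e.card = 4)
    (h4' : ∀ e ∈ G, e.card = 4) : ∀ e ∈ symmDiff H G, e.card = 4 := by
  intro e he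
  rw [Finset.mem_symmDiff] at he
  rcases he with h | h
  · exact h4 e h.1
  · exact h4' e h.1

/-- The quadruples with two vertices of each colour in exactly one of the two 4-graphs. -/
def sd2 {n : ℕ} (H G : Finset (Finset (Fin n))) (χ : Fin n → Bool) : Finset (Finset (Fin n)) :=
  (symmDiff H G).filter fun Q => (Q.filter fun v => χ v = true).card = 2

theorem zb_sd2 {n m : ℕ} (H G : Finset (Finset (Fin n))) (χ : Fin n → Bool) (t : Fin m → Fin n)
    (ht : Function.Injective t) :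
    zb (sd2 H G χ) t = fun S => (zb H t S ^^ zb G t S) &&
      decide ((S.filter fun i => χ (t i) = true).card = 2) := by
  funext S
  have h3 : ((S.image t).filter fun v => χ v = true).card =
      (S.filter fun i => χ (t i) = true).card := by
    rw [Finset.filter_image, Finset.card_image_of_injective _ ht]
  have h4 := congrFun (zb_symmDiff H G t) S
  rw [zb_eq] at h4
  have h5 : decide (S.image t ∈ symmDiff H G) = (zb H t S ^^ zb G t S) := h4
  rw [zb_eq]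
  show decide (S.image t ∈ sd2 H G χ) = _
  rw [← h5, ← h3]
  unfold sd2
  by_cases h1 : S.image t ∈ symmDiff H G <;>
    by_cases h2 : ((S.image t).filter fun v => χ v = true).card = 2 <;>
    simp [Finset.mem_filter, h1, h2]

/-! ### Columns for the smallest distance -/

/-- The smallest cost is at most the average of the costs of the even 4-graphs of the vertices. -/
theorem goodP_cost {Cx : X3} {wp wm : ℕ} (hO : SumO5)
    (hc : ∀ {n : ℕ} (H E : Finset (Finset (Fin n))) (χ : Fin n → Bool), Cx H E χ →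
      (∀ e ∈ H, e.card = 4) ∧ K5F H ∧ OptE (wc wp wm) H E) :
    GoodP Cx (fun H E _ t => colC wp wm (zb H t) (zb E t)) := by
  refine GoodP.of_n5 (Z := fun H E _ t => colC wp wm (zb H t) (zb E t)) 0
    fun {n} H E χ hx => ?_
  obtain ⟨h40, hk5, ho⟩ := hc H E χ hx
  rw [zero_mul, neg_zero]
  rcases Nat.lt_or_ge n 6 with hlt | hge
  · have h0 : (inj (Fin n) 6).card = 0 := by
      rw [card_inj, Fintype.card_fin, Nat.descFactorial_eq_zero_iff_lt]
      exact hlt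
    rw [Finset.card_eq_zero] at h0
    rw [h0, Finset.sum_empty]
  · have e1 : ∑ t ∈ inj (Fin n) 6, ((colC wp wm (zb H t) (zb E t) : ℤ) : ℝ) =
        (wp + 4 * wm) * (720 * ((n : ℝ) - 5) * (T5 H 1 : ℝ)) +
        (3 * wp + 2 * wm) * (720 * ((n : ℝ) - 5) * (T5 H 3 : ℝ)) -
        2 * (360 * (PP n 4 2 * ((K8.cst (wc wp wm) H E : ℤ) : ℝ))) := by
      rw [← hO n H 1 h40, ← hO n H 3 h40, ← sum6_cw, Finset.mul_sum, Finset.mul_sum,
        Finset.mul_sum, ← Finset.sum_add_distrib, ← Finset.sum_sub_distrib]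
      refine Finset.sum_congr rfl fun t _ => ?_
      unfold colC
      push_cast
      ring
    have e2 : PP n 4 2 = ((n : ℝ) - 4) * (n - 5) := by
      unfold PP
      rw [Finset.prod_range_succ, Finset.prod_range_succ, Finset.prod_range_zero]
      push_cast
      ring
    have h1 := opt_le wp wm H E h40 ho
    rw [T5_five H hk5, mul_zero, add_zero] at h1
    have h2 : (n : ℝ) * (cN wp wm H E : ℝ) ≤
        (wp + 4 * wm) * (T5 H 1 : ℝ) + (3 * wp + 2 * wm) * (T5 H 3 : ℝ) := by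
      exact_mod_cast h1
    have h3 : (6 : ℝ) ≤ n := by exact_mod_cast hge
    have h4 : (0 : ℝ) ≤ (cN wp wm H E : ℝ) := Nat.cast_nonneg _
    rw [e1, e2, cst_eq, Int.cast_natCast]
    have h5 : 720 * ((n : ℝ) - 5) * ((n : ℝ) * (cN wp wm H E : ℝ)) ≤
        720 * ((n : ℝ) - 5) *
          ((wp + 4 * wm) * (T5 H 1 : ℝ) + (3 * wp + 2 * wm) * (T5 H 3 : ℝ)) :=
      mul_le_mul_of_nonneg_left h2 (by linarith)
    have h6 : 0 ≤ 720 * ((n : ℝ) - 5) * (4 * (cN wp wm H E : ℝ)) :=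
      mul_nonneg (by linarith) (by positivity)
    linarith

/-- The column of the law of the windows. -/
theorem goodW_law' {Cx : C3} (hQ : ∀ (η : ℝ) {n : ℕ} (H E : Finset (Finset (Fin n)))
      (χ : Fin n → Bool), Cx η H E χ → GirQ η H E χ)
    (ψ : (Finset (Fin 6) → Bool) → (Fin 6 → Bool) → ℤ) (hψ : 0 ≤ lawSum ψ) :
    GoodW Cx (fun _ E χ t => ψ (zb E t) (fun i => χ (t i))) := by
  intro δ hδ
  obtain ⟨B, hB0, hB⟩ := exists_bound ψ
  set C : ℝ := 64 * ((4 * KW + 1) * B) with hC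
  have hC0 : 0 ≤ C := by
    have := KW_nonneg
    rw [hC]
    exact mul_nonneg (by norm_num) (mul_nonneg (add_nonneg (mul_nonneg (by norm_num) this)
      zero_le_one) hB0)
  set θ : ℝ := δ / (2 * (C + 1)) with hθ
  have hθ0 : 0 < θ := by
    rw [hθ]
    positivity
  obtain ⟨η, hη, N, hN⟩ := gir_small θ hθ0
  obtain ⟨N2, hN2⟩ := n5_aux (C := 15 * B) (δ := δ / 2) (by positivity)
  refine ⟨η, hη, max N N2, fun n hn H E χ hc => ?_⟩
  obtain ⟨⟨M, rfl⟩, hd⟩ := hQ η H E χ hc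
  obtain ⟨h1, h2⟩ := hN n (le_trans (le_max_left _ _) hn) χ M hd
  have h3 := hN2 n (le_trans (le_max_right _ _) hn)
  have h4 := law_all χ M ψ B hB θ hθ0.le h1 h2
  have h5 := sum_all_inj (n := n) (k := 6)
    (fun t => ((ψ (eL (dt χ M t).1 (dt χ M t).2) (dt χ M t).1 : ℤ) : ℝ)) B (fun t => hB _ _)
  have h6 := desc6_ge n
  have e1 : ∑ t ∈ inj (Fin n) 6,
      ((ψ (zb (gir χ M (fun _ => false) (fun _ => false)) t) (fun i => χ (t i)) : ℤ) : ℝ) =
      ∑ t ∈ inj (Fin n) 6, ((ψ (eL (dt χ M t).1 (dt χ M t).2) (dt χ M t).1 : ℤ) : ℝ) := by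
    refine Finset.sum_congr rfl fun t ht => ?_
    rw [zb_eL χ M t (mem_inj.mp ht)]
    rfl
  rw [e1]
  have h7 := (abs_le.mp h4).1
  have h8 := (abs_le.mp h5).2
  have h9 : 64 * ((4 * KW + 1) * (B * (θ * (n : ℝ) ^ 6))) ≤ δ / 2 * (n : ℝ) ^ 6 := by
    have e2 : 64 * ((4 * KW + 1) * (B * (θ * (n : ℝ) ^ 6))) = (C * θ) * (n : ℝ) ^ 6 := by
      rw [hC]
      ring
    rw [e2]
    refine mul_le_mul_of_nonneg_right ?_ (by positivity)
    rw [hθ, ← mul_div_assoc, div_le_div_iff₀ (by positivity) (by norm_num)]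
    nlinarith
  have h10 : (0 : ℝ) ≤ (n : ℝ) ^ 6 / 1024 * ((lawSum ψ : ℤ) : ℝ) := by
    have : (0 : ℝ) ≤ ((lawSum ψ : ℤ) : ℝ) := by exact_mod_cast hψ
    positivity
  have h11 : B * ((n : ℝ) ^ 6 - (n.descFactorial 6 : ℝ)) ≤ 15 * B * (n : ℝ) ^ 5 := by
    have := mul_le_mul_of_nonneg_left h6 hB0
    linarith
  have e3 : -(δ * (n : ℝ) ^ 6) = -(δ / 2 * (n : ℝ) ^ 6) - δ / 2 * (n : ℝ) ^ 6 := by ring
  rw [e3]
  linarith

/-! ### The nearest even 4-graph -/

/-- The condition: the nearest even 4-graph is an almost extremal structure without flips. -/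
structure CtE (η : ℝ) {n : ℕ} (H E : Finset (Finset (Fin n))) (χ : Fin n → Bool) : Prop where
  h4 : ∀ e ∈ H, e.card = 4
  k5 : K5F H
  o : OptE (wc 1 1) H E
  q : GirQ η H E χ

/-- The condition as a family. -/
abbrev CtEX : C3 := fun η {_} H E χ => CtE η H E χ

/-- The plain part of the condition. -/
structure CtE1 {n : ℕ} (H E : Finset (Finset (Fin n))) (χ : Fin n → Bool) : Prop where
  h4 : ∀ e ∈ H, e.card = 4
  k5 : K5F H
  o : OptE (wc 1 1) H E
  q : ∃ M : Fin n → Fin n → Bool, E = gir χ M (fun _ => false) (fun _ => false)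

/-- The plain part of the condition as a family. -/
abbrev CtE1X : X3 := fun {_} H E χ => CtE1 H E χ

theorem monoW_CtE : MonoW CtEX := by
  intro η η' h n H E χ hc
  exact ⟨hc.h4, hc.k5, hc.o, monoW_gir η η' h H E χ hc.q⟩

/-- Terms under the plain part of the condition. -/
theorem gwE_of_gv {P : ParX} {v : WD 6 → ℤ} (h : GV CtE1X P v) : GW CtEX P v :=
  GW.of_gv 1 one_pos (fun _ _ _ hc => ⟨hc.h4, hc.k5, hc.o, hc.q.1⟩) h

/-- Terms under the plain part of the condition, for functions of the tuples. -/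
theorem goodE_of_goodP {Z : Fn3} (h : GoodP CtE1X Z) : GoodW CtEX Z :=
  GoodW.of_goodP 1 one_pos (fun _ _ _ hc => ⟨hc.h4, hc.k5, hc.o, hc.q.1⟩) h

theorem optC3_CtE1 : OptC3 CtE1X 1 1 := fun _ _ _ hc => hc.o

/-- The column of the cost. -/
theorem gwE_cost {P : ParX} (hO : SumO5) : GW CtEX P (fun D => colC 1 1 D.e D.r) :=
  gwE_of_gv (goodP_cost hO fun _ _ _ hc => ⟨hc.h4, hc.k5, hc.o⟩)

/-- The column of the law. -/
theorem gwE_law {P : ParX} (ψ : (Finset (Fin 6) → Bool) → (Fin 6 → Bool) → ℤ)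
    (hψ : 0 ≤ lawSum ψ) : GW CtEX P (fun D => ψ D.r D.c) :=
  goodW_law' (fun _ _ _ _ _ hc => hc.q) ψ hψ

/-- The theorem for the nearest even 4-graph from the inequality on windows, with the distance. -/
theorem prodE2 {P : ParX} (N s : ℕ) (hN : 0 < N) (v : WD 6 → ℤ) (hv : GW CtEX P v)
    (hrow : ∀ D : WD 6, K5w D.e → (∃ z : Fin 6 → Fin 6 → Bool, D.r = eL D.c z) →
      v D + s * S4 (fun S => D.e S ^^ D.r S) ≤ N * (165 - 16 * S4 D.e)) :
    ∀ ε : ℝ, 0 < ε → ∃ δ : ℝ, 0 < δ ∧ ∃ N0 : ℕ, ∀ n : ℕ, N0 ≤ n →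
      ∀ (H : Finset (Finset (Fin n))) (χ : Fin n → Bool) (M : Fin n → Fin n → Bool),
      (∀ e ∈ H, e.card = 4) →
      (∀ S : Finset (Fin n), S.card = 5 → ∃ e ∈ S.powersetCard 4, e ∉ H) →
      (∀ E' : Finset (Finset (Fin n)), (∀ e ∈ E', e.card = 4) → EvenH n E' →
        (symmDiff H (gir χ M (fun _ => false) (fun _ => false))).card ≤ (symmDiff H E').card) →
      ((11 / 16 : ℝ) - δ) * ((n.choose 4 : ℕ) : ℝ) ≤
        ((gir χ M (fun _ => false) (fun _ => false)).card : ℝ) →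
      (H.card : ℝ) + (s : ℝ) / (16 * N) *
          ((symmDiff H (gir χ M (fun _ => false) (fun _ => false))).card : ℝ) ≤
        ((11 / 16 : ℝ) + ε) * ((n.choose 4 : ℕ) : ℝ) := by
  intro ε hε
  have hN' : (0 : ℝ) < N := by exact_mod_cast hN
  obtain ⟨δ, hδ, N1, hN1⟩ := cards_of_sum N 0 s (16 * (N * ε)) (by positivity)
  obtain ⟨η, hη, N2, hN2⟩ := hv δ hδ
  obtain ⟨N3, hN3⟩ := exists_nat_gt (9 / η)
  refine ⟨η / 2, by positivity, max (max 4 N1) (max N2 N3), fun n hn H χ M hH hK hopt hd => ?_⟩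
  have hn4 : 4 ≤ n := le_trans (le_trans (le_max_left _ _) (le_max_left _ _)) hn
  have hnN1 : N1 ≤ n := le_trans (le_trans (le_max_right _ _) (le_max_left _ _)) hn
  have hnN2 : N2 ≤ n := le_trans (le_trans (le_max_left _ _) (le_max_right _ _)) hn
  have hnN3 : (N3 : ℝ) ≤ n := by
    exact_mod_cast le_trans (le_trans (le_max_right _ _) (le_max_right _ _)) hn
  have hn0 : (0 : ℝ) < n := by exact_mod_cast (by omega : 0 < n)
  set E : Finset (Finset (Fin n)) := gir χ M (fun _ => false) (fun _ => false) with hE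
  have hE4 : ∀ e ∈ E, e.card = 4 := gir_card _ _ _ _
  have h6 := choose4_ge n hn4
  have hO : OptE (wc 1 1) H E := by
    refine ⟨hE4, evenH_gir _ _ _ _, fun E' h4' hE' => ?_⟩
    have h7 := hopt E' h4' hE'
    have h8 : ((K8.cst (wc 1 1) H E : ℤ) : ℝ) ≤ ((K8.cst (wc 1 1) H E' : ℤ) : ℝ) := by
      rw [cst_one H E hH hE4, cst_one H E' hH h4']
      exact_mod_cast h7
    exact_mod_cast h8
  have hq : 11 / 16 - η ≤ e4 E := by
    unfold e4
    rw [le_div_iff₀ (by positivity)]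
    have h9 : 9 / η < n := lt_of_lt_of_le hN3 hnN3
    rw [div_lt_iff₀ hη] at h9
    have h10 : (11 / 16 - η / 2) * ((n : ℝ) ^ 4 / 24 - (n : ℝ) ^ 3 / 4) ≤
        (11 / 16 - η / 2) * ((n.choose 4 : ℕ) : ℝ) ∨ 11 / 16 - η / 2 < 0 := by
      by_cases h11 : 0 ≤ 11 / 16 - η / 2
      · exact Or.inl (mul_le_mul_of_nonneg_left h6 h11)
      · exact Or.inr (not_le.mp h11)
    have hE0 : (0 : ℝ) ≤ (E.card : ℝ) := Nat.cast_nonneg _
    rcases h10 with h10 | h10
    · have h12 : 9 * (n : ℝ) ^ 3 ≤ n * η * (n : ℝ) ^ 3 :=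
        mul_le_mul_of_nonneg_right h9.le (by positivity)
      have e : n * η * (n : ℝ) ^ 3 = η * (n : ℝ) ^ 4 := by ring
      rw [e] at h12
      have h13 : 0 ≤ η * (n : ℝ) ^ 3 := by positivity
      nlinarith
    · have h14 : (11 / 16 - η) * (n : ℝ) ^ 4 ≤ 0 := by
        have : 11 / 16 - η ≤ 0 := by linarith
        exact mul_nonpos_of_nonpos_of_nonneg this (by positivity)
      linarith
  have hc : CtE η H E χ := ⟨hH, hK, hO, ⟨M, hE⟩, hq⟩
  have h1 := hN2 n hnN2 H E χ hc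
  have h2 := hN1 n hnN1 H E (symmDiff H E) hH hE4 (symmDiff_card4 hH hE4)
    (le_trans h1 (Finset.sum_le_sum fun t ht => by
      have ht' := mem_inj.mp ht
      have h3 := hrow (wt P H E χ t) (k5w_zb H hH hK t ht')
        ⟨(dt χ M t).2, by rw [hE]; exact zb_eL χ M t ht'⟩
      have h4 : v (wt P H E χ t) ≤ N * (165 - 16 * S4 (zb H t)) +
          (0 : ℕ) * (165 - 16 * S4 (zb E t)) - s * S4 (zb (symmDiff H E) t) := by
        rw [zb_symmDiff]
        have h5 : (wt P H E χ t).e = zb H t := rfl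
        have h6 : (wt P H E χ t).r = zb E t := rfl
        rw [h5, h6] at h3
        push_cast
        linarith
      exact_mod_cast h4))
  have h3 := cards_div hN h2
  have e : ((0 : ℕ) : ℝ) / N * (11 / 16 * ((n.choose 4 : ℕ) : ℝ) - (E.card : ℝ)) = 0 := by
    rw [Nat.cast_zero, zero_div, zero_mul]
  rw [e, add_zero] at h3
  exact h3

/-! ### The general form -/

/-- The bound with a further family of quadruples from the inequality on windows. -/
theorem str_of_gw {Cx : C3} {P : ParX} (N y s : ℕ) (hN : 0 < N)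
    (h4 : ∀ (η : ℝ) {n : ℕ} (H E : Finset (Finset (Fin n))) (χ : Fin n → Bool), Cx η H E χ →
      (∀ e ∈ H, e.card = 4) ∧ ∀ e ∈ E, e.card = 4)
    (F : ∀ {n : ℕ}, Finset (Finset (Fin n)) → Finset (Finset (Fin n)) → (Fin n → Bool) →
      Finset (Finset (Fin n)))
    (hF : ∀ (η : ℝ) {n : ℕ} (H E : Finset (Finset (Fin n))) (χ : Fin n → Bool), Cx η H E χ →
      ∀ e ∈ F H E χ, e.card = 4)
    (w : WD 6 → Finset (Fin 6) → Bool)
    (hw : ∀ {n : ℕ} (H E : Finset (Finset (Fin n))) (χ : Fin n → Bool) (t : Fin 6 → Fin n),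
      Function.Injective t → zb (F H E χ) t = w (wt P H E χ t))
    (v : WD 6 → ℤ) (hv : GW Cx P v)
    (hrow : ∀ (η : ℝ) {n : ℕ} (H E : Finset (Finset (Fin n))) (χ : Fin n → Bool), Cx η H E χ →
      ∀ t : Fin 6 → Fin n, Function.Injective t →
        v (wt P H E χ t) + s * S4 (w (wt P H E χ t)) ≤
          N * (165 - 16 * S4 (zb H t)) + y * (165 - 16 * S4 (zb E t))) :
    ∀ ε : ℝ, 0 < ε → ∃ η : ℝ, 0 < η ∧ ∃ N0 : ℕ, ∀ n : ℕ, N0 ≤ n →
      ∀ (H E : Finset (Finset (Fin n))) (χ : Fin n → Bool), Cx η H E χ →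
      (H.card : ℝ) + (s : ℝ) / (16 * N) * ((F H E χ).card : ℝ) ≤
        ((11 / 16 : ℝ) + ε) * ((n.choose 4 : ℕ) : ℝ) +
          (y : ℝ) / N * ((11 / 16 : ℝ) * ((n.choose 4 : ℕ) : ℝ) - (E.card : ℝ)) := by
  intro ε hε
  have hN' : (0 : ℝ) < N := by exact_mod_cast hN
  obtain ⟨δ, hδ, N1, hN1⟩ := cards_of_sum N y s (16 * (N * ε)) (by positivity)
  obtain ⟨η, hη, N2, hN2⟩ := hv δ hδ
  refine ⟨η, hη, max N1 N2, fun n hn H E χ hc => ?_⟩
  have h1 := hN2 n (le_trans (le_max_right _ _) hn) H E χ hc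
  obtain ⟨hH, hE⟩ := h4 η H E χ hc
  refine cards_div hN (hN1 n (le_trans (le_max_left _ _) hn) H E (F H E χ) hH hE
    (hF η H E χ hc) (le_trans h1 (Finset.sum_le_sum fun t ht => ?_)))
  have ht' := mem_inj.mp ht
  have h3 := hrow η H E χ hc t ht'
  rw [← hw H E χ t ht'] at h3
  have h5 : v (wt P H E χ t) ≤ N * (165 - 16 * S4 (zb H t)) + y * (165 - 16 * S4 (zb E t)) -
      s * S4 (zb (F H E χ) t) := by linarith
  exact_mod_cast h5

theorem sd2_card4 {n : ℕ} {H G : Finset (Finset (Fin n))} (χ : Fin n → Bool)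
    (h4 : ∀ e ∈ H, e.card = 4) (h4' : ∀ e ∈ G, e.card = 4) : ∀ e ∈ sd2 H G χ, e.card = 4 :=
  fun e he => symmDiff_card4 h4 h4' e (Finset.mem_filter.mp he).1

/-- The quadruples of the window with two vertices of each colour in exactly one of the two
4-graphs. -/
def w22 (D : WD 6) (S : Finset (Fin 6)) : Bool :=
  (D.e S ^^ D.r S) && decide ((S.filter fun i => D.c i = true).card = 2)

/-- The theorem for pairs and balanced colours, with the number of the wrong quadruples. -/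
theorem locB2 {P : ParX} (dn dd N y s : ℕ) (hN : 0 < N) (v : WD 6 → ℤ)
    (hv : GW (CtKX dn dd) P v)
    (hrow : ∀ D : WD 6, K5w D.e → (∃ z : Fin 6 → Fin 6 → Bool, D.r = eL D.c z) →
      v D + s * S4 (w22 D) ≤ N * (165 - 16 * S4 D.e) + y * (165 - 16 * S4 D.r)) :
    ∀ ε : ℝ, 0 < ε → ∃ δ : ℝ, 0 < δ ∧ ∃ N0 : ℕ, ∀ n : ℕ, N0 ≤ n →
      ∀ (H : Finset (Finset (Fin n))) (χ : Fin n → Bool) (M : Fin n → Fin n → Bool),
      (∀ e ∈ H, e.card = 4) →
      (∀ S : Finset (Fin n), S.card = 5 → ∃ e ∈ S.powersetCard 4, e ∉ H) →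
      |((univ.filter fun v => χ v = false).card : ℝ) -
        ((univ.filter fun v => χ v = true).card : ℝ)| ≤ δ * n →
      (∀ x y : Fin n, χ x = false → χ y = true →
        dd * ((symmDiff H (gir χ M (fun _ => false) (fun _ => false))).filter fun Q =>
          x ∈ Q ∧ y ∈ Q ∧ (Q.filter fun v => χ v = true).card = 2).card ≤ dn * n.choose 2) →
      (H.card : ℝ) + (s : ℝ) / (16 * N) *
          (((symmDiff H (gir χ M (fun _ => false) (fun _ => false))).filter fun Q =>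
            (Q.filter fun v => χ v = true).card = 2).card : ℝ) ≤
        ((11 / 16 : ℝ) + ε) * ((n.choose 4 : ℕ) : ℝ) +
          (y : ℝ) / N * ((11 / 16 : ℝ) * ((n.choose 4 : ℕ) : ℝ) -
            ((gir χ M (fun _ => false) (fun _ => false)).card : ℝ)) := by
  intro ε hε
  obtain ⟨δ, hδ, N0, hN0⟩ := str_of_gw (Cx := CtKX dn dd) (P := P) N y s hN
    (fun η {n} H E χ hc => ⟨hc.h4, by obtain ⟨M, rfl⟩ := hc.g; exact gir_card _ _ _ _⟩)
    (fun {n} H E χ => sd2 H E χ)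
    (fun η {n} H E χ hc => sd2_card4 χ hc.h4 (by obtain ⟨M, rfl⟩ := hc.g; exact gir_card _ _ _ _))
    w22 (fun {n} H E χ t ht => zb_sd2 H E χ t ht) v hv
    (fun η {n} H E χ hc t ht => hrow (wt P H E χ t) (k5w_zb H hc.h4 hc.k5 t ht)
      (by obtain ⟨M, rfl⟩ := hc.g; exact ⟨(dt χ M t).2, zb_eL χ M t ht⟩)) ε hε
  refine ⟨δ, hδ, N0, fun n hn H χ M hH hK hs hj => ?_⟩
  exact hN0 n hn H (gir χ M (fun _ => false) (fun _ => false)) χ
    ⟨hH, hK, ⟨M, rfl⟩, hs, fun x y hx hy => hj x y hx hy⟩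

/-- The theorem for pairs, relative to the pairs of different colours, with the number of the wrong
quadruples. -/
theorem locC2 {P : ParX} (dn dd N y s : ℕ) (hN : 0 < N) (v : WD 6 → ℤ)
    (hv : GV (CtCX dn dd) P v)
    (hrow : ∀ D : WD 6, K5w D.e → (∃ z : Fin 6 → Fin 6 → Bool, D.r = eL D.c z) →
      v D + s * S4 (w22 D) ≤ N * (165 - 16 * S4 D.e) + y * (165 - 16 * S4 D.r)) :
    ∀ ε : ℝ, 0 < ε → ∃ N0 : ℕ, ∀ n : ℕ, N0 ≤ n → ∀ (H : Finset (Finset (Fin n)))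
      (χ : Fin n → Bool) (M : Fin n → Fin n → Bool),
      (∀ e ∈ H, e.card = 4) →
      (∀ S : Finset (Fin n), S.card = 5 → ∃ e ∈ S.powersetCard 4, e ∉ H) →
      (∀ x y : Fin n, χ x = false → χ y = true →
        dd * ((symmDiff H (gir χ M (fun _ => false) (fun _ => false))).filter fun Q =>
          x ∈ Q ∧ y ∈ Q ∧ (Q.filter fun v => χ v = true).card = 2).card ≤
          dn * ((univ.filter fun v => χ v = false).card *
            (univ.filter fun v => χ v = true).card)) →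
      (H.card : ℝ) + (s : ℝ) / (16 * N) *
          (((symmDiff H (gir χ M (fun _ => false) (fun _ => false))).filter fun Q =>
            (Q.filter fun v => χ v = true).card = 2).card : ℝ) ≤
        ((11 / 16 : ℝ) + ε) * ((n.choose 4 : ℕ) : ℝ) +
        (y : ℝ) / N * ((11 / 16 : ℝ) * ((n.choose 4 : ℕ) : ℝ) -
          ((gir χ M (fun _ => false) (fun _ => false)).card : ℝ)) := by
  intro ε hε
  obtain ⟨δ, _, N0, hN0⟩ := str_of_gw (Cx := fun _ {_} H E χ => CtCX dn dd H E χ) (P := P) N y s hN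
    (fun η {n} H E χ hc => ⟨hc.h4, hc.e4'.1⟩)
    (fun {n} H E χ => sd2 H E χ)
    (fun η {n} H E χ hc => sd2_card4 χ hc.h4 hc.e4'.1)
    w22 (fun {n} H E χ t ht => zb_sd2 H E χ t ht) v
    (GW.of_gv (Cx' := CtCX dn dd) 1 one_pos (fun _ _ _ hc => hc) hv)
    (fun η {n} H E χ hc t ht => hrow (wt P H E χ t) (k5w_zb H hc.h4 hc.k5 t ht)
      (by obtain ⟨M, rfl⟩ := hc.g; exact ⟨(dt χ M t).2, zb_eL χ M t ht⟩)) ε hε
  refine ⟨N0, fun n hn H χ M hH hK hj => ?_⟩
  exact hN0 n hn H (gir χ M (fun _ => false) (fun _ => false)) χ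
    ⟨hH, hK, ⟨M, rfl⟩, fun x y hx hy => hj x y hx hy⟩

/-- The theorem for a small distance, with the distance of the best reference structure. -/
theorem locF2 {P : ParX} (x0 : ℝ) (hx0 : 0 ≤ x0) (N s : ℕ) (hN : 0 < N) (v : WD 6 → ℤ)
    (hv : GVC (CtFX x0) P v)
    (hrow : ∀ D : WD 6, K5w D.e → (∃ z f g, D.r = eF D.c z f g) →
      v D + s * S4 (fun S => D.e S ^^ D.r S) ≤ N * (165 - 16 * S4 D.e)) :
    ∀ ε : ℝ, 0 < ε → ∃ N0 : ℕ, ∀ n : ℕ, N0 ≤ n → ∀ (H : Finset (Finset (Fin n)))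
      (χ : Fin n → Bool) (M : Fin n → Fin n → Bool) (f g : Finset (Fin n) → Bool),
      (∀ e ∈ H, e.card = 4) →
      (∀ S : Finset (Fin n), S.card = 5 → ∃ e ∈ S.powersetCard 4, e ∉ H) →
      ((symmDiff H (gir χ M f g)).card : ℝ) ≤ x0 * ((n.choose 4 : ℕ) : ℝ) →
      ∃ (χ' : Fin n → Bool) (M' : Fin n → Fin n → Bool) (f' g' : Finset (Fin n) → Bool),
        (symmDiff H (gir χ' M' f' g')).card ≤ (symmDiff H (gir χ M f g)).card ∧
        (H.card : ℝ) + (s : ℝ) / (16 * N) * ((symmDiff H (gir χ' M' f' g')).card : ℝ) ≤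
          ((11 / 16 : ℝ) + ε) * ((n.choose 4 : ℕ) : ℝ) := by
  intro ε hε
  have hN' : (0 : ℝ) < N := by exact_mod_cast hN
  obtain ⟨δ, hδ, N1, hN1⟩ := cards_of_sum N 0 s (16 * (N * ε)) (by positivity)
  obtain ⟨N2, hN2⟩ := hv δ hδ
  refine ⟨max 1 (max N1 N2), fun n hn H χ M f g hH hK hx => ?_⟩
  have hn1 : 1 ≤ n := le_trans (le_max_left _ _) hn
  have hn' : max N1 N2 ≤ n := le_trans (le_max_right _ _) hn
  have hn0 : (0 : ℝ) < n := by exact_mod_cast hn1
  obtain ⟨χ', M', f', g', hb⟩ := exists_best 0 H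
  have h3 := hb χ M f g
  unfold cost at h3
  rw [zero_mul, zero_mul, add_zero, add_zero] at h3
  have hX : X4 H (gir χ' M' f' g') ≤ x0 := by
    refine le_trans h3 ?_
    unfold X4
    rw [div_le_iff₀ (by positivity)]
    have h4 : ((n.choose 4 : ℕ) : ℝ) ≤ (n : ℝ) ^ 4 / 24 := by
      have h5 := Nat.choose_le_pow_div (α := ℝ) 4 n
      have h6 : ((Nat.factorial 4 : ℕ) : ℝ) = 24 := by norm_num [Nat.factorial]
      rwa [h6] at h5
    have h5 := mul_le_mul_of_nonneg_left h4 hx0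
    linarith
  refine ⟨χ', M', f', g', ?_, ?_⟩
  · unfold X4 at h3
    rw [div_le_div_iff_of_pos_right (by positivity)] at h3
    have h4 : ((symmDiff H (gir χ' M' f' g')).card : ℝ) ≤
        ((symmDiff H (gir χ M f g)).card : ℝ) := by linarith
    exact_mod_cast h4
  · have hc : CtF x0 H χ' M' f' g' := ⟨hH, hK, hb, hX⟩
    have h1 := hN2 n (le_trans (le_max_right _ _) hn') H χ' M' f' g' hc
    set G := gir χ' M' f' g' with hG
    have hG4 : ∀ e ∈ G, e.card = 4 := gir_card _ _ _ _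
    have h2 := hN1 n (le_trans (le_max_left _ _) hn') H G (symmDiff H G) hH hG4
      (symmDiff_card4 hH hG4) (le_trans h1 (Finset.sum_le_sum fun t ht => by
        have ht' := mem_inj.mp ht
        have h3 := hrow (wd P H χ' M' f' g' t) (k5w_zb H hH hK t ht')
          ⟨_, _, _, zb_eF χ' M' f' g' t ht'⟩
        have h4 : v (wd P H χ' M' f' g' t) ≤ N * (165 - 16 * S4 (zb H t)) +
            (0 : ℕ) * (165 - 16 * S4 (zb G t)) - s * S4 (zb (symmDiff H G) t) := by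
          rw [zb_symmDiff]
          have h5 : (wd P H χ' M' f' g' t).e = zb H t := rfl
          have h6 : (wd P H χ' M' f' g' t).r = zb G t := rfl
          rw [h5, h6] at h3
          push_cast
          linarith
        exact_mod_cast h4))
    have h3 := cards_div hN h2
    have e : ((0 : ℕ) : ℝ) / N * (11 / 16 * ((n.choose 4 : ℕ) : ℝ) - (G.card : ℝ)) = 0 := by
      rw [Nat.cast_zero, zero_div, zero_mul]
    rw [e, add_zero] at h3
    exact h3

/-! ### The nearest even 4-graph in a class -/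

/-- The condition: the nearest even 4-graph is in a class. -/
structure CtN (R : X3) {n : ℕ} (H E : Finset (Finset (Fin n))) (χ : Fin n → Bool) : Prop where
  h4 : ∀ e ∈ H, e.card = 4
  k5 : K5F H
  o : OptE (wc 1 1) H E
  r : R H E χ

/-- The condition as a family. -/
abbrev CtNX (R : X3) : X3 := fun {_} H E χ => CtN R H E χ

theorem optC3_CtN (R : X3) : OptC3 (CtNX R) 1 1 := fun _ _ _ hc => hc.o

/-- The column of the cost. -/
theorem gvN_cost {P : ParX} {R : X3} (hO : SumO5) : GV (CtNX R) P (fun D => colC 1 1 D.e D.r) :=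
  goodP_cost hO fun _ _ _ hc => ⟨hc.h4, hc.k5, hc.o⟩

/-- The column of the density of the even 4-graph. -/
theorem gvN_colR {P : ParX} {R : X3} (hE : EvUp) : GV (CtNX R) P (fun D => colR D.r) :=
  goodP_colR hE fun _ _ _ hc => ⟨hc.o.1, hc.o.2.1⟩

/-- The theorem for the nearest even 4-graph in a class from the inequality on windows. -/
theorem prodG {P : ParX} {R : X3} (N y s : ℕ) (hN : 0 < N) (v : WD 6 → ℤ)
    (hv : GV (CtNX R) P v)
    (hrow : ∀ {n : ℕ} (H E : Finset (Finset (Fin n))) (χ : Fin n → Bool), CtN R H E χ →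
      ∀ t : Fin 6 → Fin n, Function.Injective t →
        v (wt P H E χ t) + s * S4 (fun S => zb H t S ^^ zb E t S) ≤
          N * (165 - 16 * S4 (zb H t)) + y * (165 - 16 * S4 (zb E t))) :
    ∀ ε : ℝ, 0 < ε → ∃ N0 : ℕ, ∀ n : ℕ, N0 ≤ n → ∀ (H E : Finset (Finset (Fin n)))
      (χ : Fin n → Bool), (∀ e ∈ H, e.card = 4) →
      (∀ S : Finset (Fin n), S.card = 5 → ∃ e ∈ S.powersetCard 4, e ∉ H) →
      (∀ e ∈ E, e.card = 4) → EvenH n E →
      (∀ E' : Finset (Finset (Fin n)), (∀ e ∈ E', e.card = 4) → EvenH n E' →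
        (symmDiff H E).card ≤ (symmDiff H E').card) →
      R H E χ →
      (H.card : ℝ) + (s : ℝ) / (16 * N) * ((symmDiff H E).card : ℝ) ≤
        ((11 / 16 : ℝ) + ε) * ((n.choose 4 : ℕ) : ℝ) +
          (y : ℝ) / N * ((11 / 16 : ℝ) * ((n.choose 4 : ℕ) : ℝ) - (E.card : ℝ)) := by
  intro ε hε
  obtain ⟨δ, _, N0, hN0⟩ := str_of_gw (Cx := fun _ {_} H E χ => CtNX R H E χ) (P := P) N y s hN
    (fun η {n} H E χ hc => ⟨hc.h4, hc.o.1⟩)
    (fun {n} H E _ => symmDiff H E)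
    (fun η {n} H E χ hc => symmDiff_card4 hc.h4 hc.o.1)
    (fun D S => D.e S ^^ D.r S) (fun {n} H E χ t _ => zb_symmDiff H E t) v
    (GW.of_gv (Cx' := CtNX R) 1 one_pos (fun _ _ _ hc => hc) hv)
    (fun η {n} H E χ hc t ht => hrow H E χ hc t ht) ε hε
  refine ⟨N0, fun n hn H E χ hH hK hE4 hEv hopt hR => ?_⟩
  have hO : OptE (wc 1 1) H E := by
    refine ⟨hE4, hEv, fun E' h4' hE' => ?_⟩
    have h7 := hopt E' h4' hE'
    have h8 : ((K8.cst (wc 1 1) H E : ℤ) : ℝ) ≤ ((K8.cst (wc 1 1) H E' : ℤ) : ℝ) := by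
      rw [cst_one H E hH hE4, cst_one H E' hH h4']
      exact_mod_cast h7
    exact_mod_cast h8
  exact hN0 n hn H E χ ⟨hH, hK, hO, hR⟩

/-- The even 4-graph is a structure without flips. -/
def IsGir : X3 := fun {n} _ E χ =>
  ∃ M : Fin n → Fin n → Bool, E = gir χ M (fun _ => false) (fun _ => false)

/-- The even 4-graph is a structure with flips. -/
def IsGirF : X3 := fun {_} _ E χ => ∃ M f g, E = gir χ M f g

/-- The theorem for a nearest even 4-graph that is a structure without flips, for an arbitrary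
function `M`. -/
theorem prodE3 {P : ParX} (N y s : ℕ) (hN : 0 < N) (v : WD 6 → ℤ) (hv : GV (CtNX IsGir) P v)
    (hrow : ∀ D : WD 6, K5w D.e → (∃ z : Fin 6 → Fin 6 → Bool, D.r = eL D.c z) →
      v D + s * S4 (fun S => D.e S ^^ D.r S) ≤ N * (165 - 16 * S4 D.e) + y * (165 - 16 * S4 D.r)) :
    ∀ ε : ℝ, 0 < ε → ∃ N0 : ℕ, ∀ n : ℕ, N0 ≤ n → ∀ (H : Finset (Finset (Fin n)))
      (χ : Fin n → Bool) (M : Fin n → Fin n → Bool),
      (∀ e ∈ H, e.card = 4) →
      (∀ S : Finset (Fin n), S.card = 5 → ∃ e ∈ S.powersetCard 4, e ∉ H) →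
      (∀ E' : Finset (Finset (Fin n)), (∀ e ∈ E', e.card = 4) → EvenH n E' →
        (symmDiff H (gir χ M (fun _ => false) (fun _ => false))).card ≤ (symmDiff H E').card) →
      (H.card : ℝ) + (s : ℝ) / (16 * N) *
          ((symmDiff H (gir χ M (fun _ => false) (fun _ => false))).card : ℝ) ≤
        ((11 / 16 : ℝ) + ε) * ((n.choose 4 : ℕ) : ℝ) +
          (y : ℝ) / N * ((11 / 16 : ℝ) * ((n.choose 4 : ℕ) : ℝ) -
            ((gir χ M (fun _ => false) (fun _ => false)).card : ℝ)) := by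
  intro ε hε
  obtain ⟨N0, hN0⟩ := prodG (R := IsGir) N y s hN v hv (fun {n} H E χ hc t ht =>
    hrow (wt P H E χ t) (k5w_zb H hc.h4 hc.k5 t ht)
      (by obtain ⟨M, rfl⟩ := hc.r; exact ⟨(dt χ M t).2, zb_eL χ M t ht⟩)) ε hε
  exact ⟨N0, fun n hn H χ M hH hK hopt => hN0 n hn H _ χ hH hK (gir_card _ _ _ _)
    (evenH_gir _ _ _ _) hopt ⟨M, rfl⟩⟩

/-- The theorem for a nearest even 4-graph that is a structure with flips. -/
theorem prodF3 {P : ParX} (N y s : ℕ) (hN : 0 < N) (v : WD 6 → ℤ) (hv : GV (CtNX IsGirF) P v)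
    (hrow : ∀ D : WD 6, K5w D.e → (∃ z f g, D.r = eF D.c z f g) →
      v D + s * S4 (fun S => D.e S ^^ D.r S) ≤ N * (165 - 16 * S4 D.e) + y * (165 - 16 * S4 D.r)) :
    ∀ ε : ℝ, 0 < ε → ∃ N0 : ℕ, ∀ n : ℕ, N0 ≤ n → ∀ (H : Finset (Finset (Fin n)))
      (χ : Fin n → Bool) (M : Fin n → Fin n → Bool) (f g : Finset (Fin n) → Bool),
      (∀ e ∈ H, e.card = 4) →
      (∀ S : Finset (Fin n), S.card = 5 → ∃ e ∈ S.powersetCard 4, e ∉ H) →
      (∀ E' : Finset (Finset (Fin n)), (∀ e ∈ E', e.card = 4) → EvenH n E' →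
        (symmDiff H (gir χ M f g)).card ≤ (symmDiff H E').card) →
      (H.card : ℝ) + (s : ℝ) / (16 * N) * ((symmDiff H (gir χ M f g)).card : ℝ) ≤
        ((11 / 16 : ℝ) + ε) * ((n.choose 4 : ℕ) : ℝ) +
          (y : ℝ) / N * ((11 / 16 : ℝ) * ((n.choose 4 : ℕ) : ℝ) - ((gir χ M f g).card : ℝ)) := by
  intro ε hε
  obtain ⟨N0, hN0⟩ := prodG (R := IsGirF) N y s hN v hv (fun {n} H E χ hc t ht =>
    hrow (wt P H E χ t) (k5w_zb H hc.h4 hc.k5 t ht)
      (by obtain ⟨M, f, g, rfl⟩ := hc.r; exact ⟨_, _, _, zb_eF χ M f g t ht⟩)) ε hε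
  exact ⟨N0, fun n hn H χ M f g hH hK hopt => hN0 n hn H _ χ hH hK (gir_card _ _ _ _)
    (evenH_gir _ _ _ _) hopt ⟨M, f, g, rfl⟩⟩

/-! ### The same theorems for functions of the tuples -/

/-- The bound with a further family of quadruples, for a function of the tuples. -/
theorem str_of_goodW {Cx : C3} (N y s : ℕ) (hN : 0 < N)
    (h4 : ∀ (η : ℝ) {n : ℕ} (H E : Finset (Finset (Fin n))) (χ : Fin n → Bool), Cx η H E χ →
      (∀ e ∈ H, e.card = 4) ∧ ∀ e ∈ E, e.card = 4)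
    (Z : Fn3) (hv : GoodW Cx (fun H E χ t => Z H E χ t))
    (hrow : ∀ (η : ℝ) {n : ℕ} (H E : Finset (Finset (Fin n))) (χ : Fin n → Bool), Cx η H E χ →
      ∀ t : Fin 6 → Fin n, Function.Injective t →
        Z H E χ t + s * S4 (fun S => zb H t S ^^ zb E t S) ≤
          N * (165 - 16 * S4 (zb H t)) + y * (165 - 16 * S4 (zb E t))) :
    ∀ ε : ℝ, 0 < ε → ∃ η : ℝ, 0 < η ∧ ∃ N0 : ℕ, ∀ n : ℕ, N0 ≤ n →
      ∀ (H E : Finset (Finset (Fin n))) (χ : Fin n → Bool), Cx η H E χ →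
      (H.card : ℝ) + (s : ℝ) / (16 * N) * ((symmDiff H E).card : ℝ) ≤
        ((11 / 16 : ℝ) + ε) * ((n.choose 4 : ℕ) : ℝ) +
          (y : ℝ) / N * ((11 / 16 : ℝ) * ((n.choose 4 : ℕ) : ℝ) - (E.card : ℝ)) := by
  intro ε hε
  have hN' : (0 : ℝ) < N := by exact_mod_cast hN
  obtain ⟨δ, hδ, N1, hN1⟩ := cards_of_sum N y s (16 * (N * ε)) (by positivity)
  obtain ⟨η, hη, N2, hN2⟩ := hv δ hδ
  refine ⟨η, hη, max N1 N2, fun n hn H E χ hc => ?_⟩
  have h1 := hN2 n (le_trans (le_max_right _ _) hn) H E χ hc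
  obtain ⟨hH, hE⟩ := h4 η H E χ hc
  refine cards_div hN (hN1 n (le_trans (le_max_left _ _) hn) H E (symmDiff H E) hH hE
    (symmDiff_card4 hH hE) (le_trans h1 (Finset.sum_le_sum fun t ht => ?_)))
  have ht' := mem_inj.mp ht
  have h3 := hrow η H E χ hc t ht'
  rw [← zb_symmDiff] at h3
  have h5 : Z H E χ t ≤ N * (165 - 16 * S4 (zb H t)) + y * (165 - 16 * S4 (zb E t)) -
      s * S4 (zb (symmDiff H E) t) := by linarith
  exact_mod_cast h5

theorem opt_of_near {n : ℕ} (H E : Finset (Finset (Fin n))) (hH : ∀ e ∈ H, e.card = 4)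
    (hE4 : ∀ e ∈ E, e.card = 4) (hEv : EvenH n E)
    (hopt : ∀ E' : Finset (Finset (Fin n)), (∀ e ∈ E', e.card = 4) → EvenH n E' →
        (symmDiff H E).card ≤ (symmDiff H E').card) : OptE (wc 1 1) H E := by
  refine ⟨hE4, hEv, fun E' h4' hE' => ?_⟩
  have h7 := hopt E' h4' hE'
  have h8 : ((K8.cst (wc 1 1) H E : ℤ) : ℝ) ≤ ((K8.cst (wc 1 1) H E' : ℤ) : ℝ) := by
    rw [cst_one H E hH hE4, cst_one H E' hH h4']
    exact_mod_cast h7
  exact_mod_cast h8

/-- The density of a structure from the number of its edges. -/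
theorem dens_of_card (η : ℝ) (hη : 0 < η) : ∃ N : ℕ, ∀ n : ℕ, N ≤ n →
    ∀ E : Finset (Finset (Fin n)),
      ((11 / 16 : ℝ) - η / 2) * ((n.choose 4 : ℕ) : ℝ) ≤ (E.card : ℝ) → 11 / 16 - η ≤ e4 E := by
  obtain ⟨N3, hN3⟩ := exists_nat_gt (9 / η)
  refine ⟨max 4 N3, fun n hn E hd => ?_⟩
  have hn4 : 4 ≤ n := le_trans (le_max_left _ _) hn
  have hnN3 : (N3 : ℝ) ≤ n := by exact_mod_cast le_trans (le_max_right _ _) hn
  have hn0 : (0 : ℝ) < n := by exact_mod_cast (by omega : 0 < n)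
  have h6 := choose4_ge n hn4
  unfold e4
  rw [le_div_iff₀ (by positivity)]
  have h9 : 9 / η < n := lt_of_lt_of_le hN3 hnN3
  rw [div_lt_iff₀ hη] at h9
  have h10 : (11 / 16 - η / 2) * ((n : ℝ) ^ 4 / 24 - (n : ℝ) ^ 3 / 4) ≤
      (11 / 16 - η / 2) * ((n.choose 4 : ℕ) : ℝ) ∨ 11 / 16 - η / 2 < 0 := by
    by_cases h11 : 0 ≤ 11 / 16 - η / 2
    · exact Or.inl (mul_le_mul_of_nonneg_left h6 h11)
    · exact Or.inr (not_le.mp h11)
  have hE0 : (0 : ℝ) ≤ (E.card : ℝ) := Nat.cast_nonneg _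
  rcases h10 with h10 | h10
  · have h12 : 9 * (n : ℝ) ^ 3 ≤ n * η * (n : ℝ) ^ 3 :=
      mul_le_mul_of_nonneg_right h9.le (by positivity)
    have e : n * η * (n : ℝ) ^ 3 = η * (n : ℝ) ^ 4 := by ring
    rw [e] at h12
    have h13 : 0 ≤ η * (n : ℝ) ^ 3 := by positivity
    nlinarith
  · have h14 : (11 / 16 - η) * (n : ℝ) ^ 4 ≤ 0 := by
      have : 11 / 16 - η ≤ 0 := by linarith
      exact mul_nonpos_of_nonpos_of_nonneg this (by positivity)
    linarith

/-- The theorem for the nearest even 4-graph, for a function of the tuples. -/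
theorem prodE2Z (N s : ℕ) (hN : 0 < N) (Z : Fn3)
    (hv : GoodW CtEX (fun H E χ t => Z H E χ t))
    (hrow : ∀ (η : ℝ) {n : ℕ} (H E : Finset (Finset (Fin n))) (χ : Fin n → Bool), CtE η H E χ →
      ∀ t : Fin 6 → Fin n, Function.Injective t →
        Z H E χ t + s * S4 (fun S => zb H t S ^^ zb E t S) ≤ N * (165 - 16 * S4 (zb H t))) :
    ∀ ε : ℝ, 0 < ε → ∃ δ : ℝ, 0 < δ ∧ ∃ N0 : ℕ, ∀ n : ℕ, N0 ≤ n →
      ∀ (H : Finset (Finset (Fin n))) (χ : Fin n → Bool) (M : Fin n → Fin n → Bool),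
      (∀ e ∈ H, e.card = 4) →
      (∀ S : Finset (Fin n), S.card = 5 → ∃ e ∈ S.powersetCard 4, e ∉ H) →
      (∀ E' : Finset (Finset (Fin n)), (∀ e ∈ E', e.card = 4) → EvenH n E' →
        (symmDiff H (gir χ M (fun _ => false) (fun _ => false))).card ≤ (symmDiff H E').card) →
      ((11 / 16 : ℝ) - δ) * ((n.choose 4 : ℕ) : ℝ) ≤
        ((gir χ M (fun _ => false) (fun _ => false)).card : ℝ) →
      (H.card : ℝ) + (s : ℝ) / (16 * N) *
          ((symmDiff H (gir χ M (fun _ => false) (fun _ => false))).card : ℝ) ≤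
        ((11 / 16 : ℝ) + ε) * ((n.choose 4 : ℕ) : ℝ) := by
  intro ε hε
  obtain ⟨η, hη, N1, hN1⟩ := str_of_goodW (Cx := CtEX) N 0 s hN
    (fun η {n} H E χ hc => ⟨hc.h4, hc.o.1⟩) Z hv (fun η {n} H E χ hc t ht => by
      have h := hrow η H E χ hc t ht
      rw [Nat.cast_zero, zero_mul, add_zero]
      exact h) ε hε
  obtain ⟨N2, hN2⟩ := dens_of_card η hη
  refine ⟨η / 2, by positivity, max N1 N2, fun n hn H χ M hH hK hopt hd => ?_⟩
  have h3 := hN1 n (le_trans (le_max_left _ _) hn) H (gir χ M (fun _ => false) (fun _ => false)) χ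
    ⟨hH, hK, opt_of_near H _ hH (gir_card _ _ _ _) (evenH_gir _ _ _ _) hopt, ⟨M, rfl⟩,
      hN2 n (le_trans (le_max_right _ _) hn) _ hd⟩
  rw [Nat.cast_zero, zero_div, zero_mul, add_zero] at h3
  exact h3

/-- The theorem for the nearest even 4-graph in a class, for a function of the tuples. -/
theorem prodGZ {R : X3} (N y s : ℕ) (hN : 0 < N) (Z : Fn3)
    (hv : GoodP (CtNX R) (fun H E χ t => Z H E χ t))
    (hrow : ∀ {n : ℕ} (H E : Finset (Finset (Fin n))) (χ : Fin n → Bool), CtN R H E χ →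
      ∀ t : Fin 6 → Fin n, Function.Injective t →
        Z H E χ t + s * S4 (fun S => zb H t S ^^ zb E t S) ≤
          N * (165 - 16 * S4 (zb H t)) + y * (165 - 16 * S4 (zb E t))) :
    ∀ ε : ℝ, 0 < ε → ∃ N0 : ℕ, ∀ n : ℕ, N0 ≤ n → ∀ (H E : Finset (Finset (Fin n)))
      (χ : Fin n → Bool), (∀ e ∈ H, e.card = 4) →
      (∀ S : Finset (Fin n), S.card = 5 → ∃ e ∈ S.powersetCard 4, e ∉ H) →
      (∀ e ∈ E, e.card = 4) → EvenH n E →
      (∀ E' : Finset (Finset (Fin n)), (∀ e ∈ E', e.card = 4) → EvenH n E' →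
        (symmDiff H E).card ≤ (symmDiff H E').card) →
      R H E χ →
      (H.card : ℝ) + (s : ℝ) / (16 * N) * ((symmDiff H E).card : ℝ) ≤
        ((11 / 16 : ℝ) + ε) * ((n.choose 4 : ℕ) : ℝ) +
          (y : ℝ) / N * ((11 / 16 : ℝ) * ((n.choose 4 : ℕ) : ℝ) - (E.card : ℝ)) := by
  intro ε hε
  obtain ⟨δ, _, N0, hN0⟩ := str_of_goodW (Cx := fun _ {_} H E χ => CtNX R H E χ) N y s hN
    (fun η {n} H E χ hc => ⟨hc.h4, hc.o.1⟩) Z
    (GoodW.of_goodP (Cx' := CtNX R) 1 one_pos (fun _ _ _ hc => hc) hv)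
    (fun η {n} H E χ hc t ht => hrow H E χ hc t ht) ε hε
  exact ⟨N0, fun n hn H E χ hH hK hE4 hEv hopt hR => hN0 n hn H E χ
    ⟨hH, hK, opt_of_near H E hH hE4 hEv hopt, hR⟩⟩

end Pool.Agent.Lib.MP_afdd4d_co.K9.Star.Tw
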