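import Pool.Agent.Lib.MP_afdd4d_co.K9.W6Chk
import Pool.Agent.Lib.MP_afdd4d_co.K9.W6Red

/-!
# The forms that vanish on an exact Giraud pattern
-/

namespace Pool.Agent.Lib.MP_afdd4d_co.K9.W6

open Finset K8
open Pool.Agent.Lib.MP_afdd4d_co.K9.Star

set_option maxRecDepth 100000

/-- The forms that vanish when the quadruples with an odd number of vertices of the second colour
belong to the even 4-graph and the quadruples of one colour do not. -/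
def gmL : List (List (ℕ × List (ℕ × ℕ × ℕ))) := [
   [(2, [(0, 1, 0), (0, 2, 0), (0, 3, 0), (0, 4, 0), (0, 5, 0), (0, 6, 0), (0, 7, 0), (0, 8, 0),
      (0, 9, 0)]),
    (4, [(0, 0, 0), (0, 2, 0), (0, 3, 0), (0, 4, 0), (0, 5, 0), (0, 6, 0), (0, 7, 0), (0, 8, 0),
      (0, 9, 0)]),
    (8, [(0, 1, 0), (0, 0, 0), (0, 3, 0), (0, 4, 0), (0, 5, 0), (0, 6, 0), (0, 7, 0), (0, 8, 0),
      (0, 9, 0)]),
    (16, [(0, 1, 0), (0, 2, 0), (0, 0, 0), (0, 4, 0), (0, 5, 0), (0, 6, 0), (0, 7, 0), (0, 8, 0),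
      (0, 9, 0)]),
    (32, [(0, 1, 0), (0, 2, 0), (0, 3, 0), (0, 0, 0), (0, 5, 0), (0, 6, 0), (0, 7, 0), (0, 8, 0),
      (0, 9, 0)]),
    (64, [(0, 1, 0), (0, 2, 0), (0, 3, 0), (0, 4, 0), (0, 0, 0), (0, 6, 0), (0, 7, 0), (0, 8, 0),
      (0, 9, 0)]),
    (128, [(0, 1, 0), (0, 2, 0), (0, 3, 0), (0, 4, 0), (0, 5, 0), (0, 0, 0), (0, 7, 0), (0, 8,
      0), (0, 9, 0)]),
    (256, [(0, 1, 0), (0, 2, 0), (0, 3, 0), (0, 4, 0), (0, 5, 0), (0, 6, 0), (0, 0, 0), (0, 8,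
      0), (0, 9, 0)]),
    (512, [(0, 1, 0), (0, 2, 0), (0, 3, 0), (0, 4, 0), (0, 5, 0), (0, 6, 0), (0, 7, 0), (0, 0,
      0), (0, 9, 0)]),
    (1024, [(0, 1, 0), (0, 2, 0), (0, 3, 0), (0, 4, 0), (0, 5, 0), (0, 6, 0), (0, 7, 0), (0, 8,
      0), (0, 0, 0)])],
   [(3, [(3, 0, 0), (0, 1, 0), (0, 2, 0), (0, 3, 0), (0, 4, 0), (0, 5, 0), (0, 6, 0), (0, 7, 0),
      (0, 8, 0), (0, 9, 0)]),
    (5, [(3, 0, 0), (0, 0, 0), (0, 2, 0), (0, 3, 0), (0, 4, 0), (0, 5, 0), (0, 6, 0), (0, 7, 0),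
      (0, 8, 0), (0, 9, 0)]),
    (9, [(3, 0, 0), (0, 1, 0), (0, 0, 0), (0, 3, 0), (0, 4, 0), (0, 5, 0), (0, 6, 0), (0, 7, 0),
      (0, 8, 0), (0, 9, 0)]),
    (17, [(3, 0, 0), (0, 1, 0), (0, 2, 0), (0, 0, 0), (0, 4, 0), (0, 5, 0), (0, 6, 0), (0, 7, 0),
      (0, 8, 0), (0, 9, 0)]),
    (33, [(3, 0, 0), (0, 1, 0), (0, 2, 0), (0, 3, 0), (0, 0, 0), (0, 5, 0), (0, 6, 0), (0, 7, 0),
      (0, 8, 0), (0, 9, 0)]),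
    (65, [(3, 0, 0), (0, 1, 0), (0, 2, 0), (0, 3, 0), (0, 4, 0), (0, 0, 0), (0, 6, 0), (0, 7, 0),
      (0, 8, 0), (0, 9, 0)]),
    (129, [(3, 0, 0), (0, 1, 0), (0, 2, 0), (0, 3, 0), (0, 4, 0), (0, 5, 0), (0, 0, 0), (0, 7,
      0), (0, 8, 0), (0, 9, 0)]),
    (257, [(3, 0, 0), (0, 1, 0), (0, 2, 0), (0, 3, 0), (0, 4, 0), (0, 5, 0), (0, 6, 0), (0, 0,
      0), (0, 8, 0), (0, 9, 0)]),
    (513, [(3, 0, 0), (0, 1, 0), (0, 2, 0), (0, 3, 0), (0, 4, 0), (0, 5, 0), (0, 6, 0), (0, 7,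
      0), (0, 0, 0), (0, 9, 0)]),
    (1025, [(3, 0, 0), (0, 1, 0), (0, 2, 0), (0, 3, 0), (0, 4, 0), (0, 5, 0), (0, 6, 0), (0, 7,
      0), (0, 8, 0), (0, 0, 0)])],
   [(17, [(3, 0, 0), (0, 1, 0), (0, 2, 0), (0, 0, 0), (0, 4, 0), (0, 5, 0), (0, 6, 0), (0, 7, 0),
      (0, 8, 0), (0, 9, 0)]),
    (129, [(3, 0, 0), (0, 1, 0), (0, 2, 0), (0, 3, 0), (0, 4, 0), (0, 5, 0), (0, 0, 0), (0, 7,
      0), (0, 8, 0), (0, 9, 0)]),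
    (513, [(3, 0, 0), (0, 1, 0), (0, 2, 0), (0, 3, 0), (0, 4, 0), (0, 5, 0), (0, 6, 0), (0, 7,
      0), (0, 0, 0), (0, 9, 0)]),
    (1025, [(3, 0, 0), (0, 1, 0), (0, 2, 0), (0, 3, 0), (0, 4, 0), (0, 5, 0), (0, 6, 0), (0, 7,
      0), (0, 8, 0), (0, 0, 0)]),
    (31, [(3, 0, 0), (0, 1, 0), (0, 2, 0), (0, 3, 0), (0, 4, 0), (0, 5, 0), (0, 6, 0), (0, 7, 0),
      (0, 8, 0), (0, 9, 0), (2, 3, 0), (2, 2, 0), (2, 1, 0)]),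
    (227, [(3, 0, 0), (0, 1, 0), (0, 2, 0), (0, 3, 0), (0, 4, 0), (0, 5, 0), (0, 6, 0), (0, 7,
      0), (0, 8, 0), (0, 9, 0), (2, 6, 0), (2, 5, 0), (2, 4, 0)]),
    (805, [(3, 0, 0), (0, 0, 0), (0, 2, 0), (0, 3, 0), (0, 4, 0), (0, 5, 0), (0, 6, 0), (0, 7,
      0), (0, 8, 0), (0, 9, 0), (2, 8, 1), (2, 7, 1), (2, 4, 1)])],
   [(3, [(3, 0, 0), (0, 1, 0), (0, 2, 0), (0, 3, 0), (0, 4, 0), (0, 5, 0), (0, 6, 0), (0, 7, 0),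
      (0, 8, 0), (0, 9, 0)]),
    (5, [(3, 0, 0), (0, 0, 0), (0, 2, 0), (0, 3, 0), (0, 4, 0), (0, 5, 0), (0, 6, 0), (0, 7, 0),
      (0, 8, 0), (0, 9, 0)]),
    (33, [(3, 0, 0), (0, 1, 0), (0, 2, 0), (0, 3, 0), (0, 0, 0), (0, 5, 0), (0, 6, 0), (0, 7, 0),
      (0, 8, 0), (0, 9, 0)]),
    (1025, [(3, 0, 0), (0, 1, 0), (0, 2, 0), (0, 3, 0), (0, 4, 0), (0, 5, 0), (0, 6, 0), (0, 7,
      0), (0, 8, 0), (0, 0, 0)]),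
    (1353, [(3, 0, 0), (0, 1, 0), (0, 0, 0), (0, 3, 0), (0, 4, 0), (0, 5, 0), (0, 6, 0), (0, 7,
      0), (0, 8, 0), (0, 9, 0), (2, 9, 2), (2, 7, 2), (2, 5, 2)]),
    (1681, [(3, 0, 0), (0, 1, 0), (0, 2, 0), (0, 0, 0), (0, 4, 0), (0, 5, 0), (0, 6, 0), (0, 7,
      0), (0, 8, 0), (0, 9, 0), (2, 9, 3), (2, 8, 3), (2, 6, 3)])],
   [(2, [(0, 1, 0), (0, 2, 0), (0, 3, 0), (0, 4, 0), (0, 5, 0), (0, 6, 0), (0, 7, 0), (0, 8, 0),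
      (0, 9, 0)]),
    (5, [(3, 0, 0), (0, 0, 0), (0, 2, 0), (0, 3, 0), (0, 4, 0), (0, 5, 0), (0, 6, 0), (0, 7, 0),
      (0, 8, 0), (0, 9, 0)]),
    (9, [(3, 0, 0), (0, 1, 0), (0, 0, 0), (0, 3, 0), (0, 4, 0), (0, 5, 0), (0, 6, 0), (0, 7, 0),
      (0, 8, 0), (0, 9, 0)]),
    (17, [(3, 0, 0), (0, 1, 0), (0, 2, 0), (0, 0, 0), (0, 4, 0), (0, 5, 0), (0, 6, 0), (0, 7, 0),
      (0, 8, 0), (0, 9, 0)]),
    (33, [(3, 0, 0), (0, 1, 0), (0, 2, 0), (0, 3, 0), (0, 0, 0), (0, 5, 0), (0, 6, 0), (0, 7, 0),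
      (0, 8, 0), (0, 9, 0)]),
    (65, [(3, 0, 0), (0, 1, 0), (0, 2, 0), (0, 3, 0), (0, 4, 0), (0, 0, 0), (0, 6, 0), (0, 7, 0),
      (0, 8, 0), (0, 9, 0)]),
    (129, [(3, 0, 0), (0, 1, 0), (0, 2, 0), (0, 3, 0), (0, 4, 0), (0, 5, 0), (0, 0, 0), (0, 7,
      0), (0, 8, 0), (0, 9, 0)])],
   [(2, [(0, 1, 0), (0, 2, 0), (0, 3, 0), (0, 4, 0), (0, 5, 0), (0, 6, 0), (0, 7, 0), (0, 8, 0),
      (0, 9, 0)]),
    (4, [(0, 0, 0), (0, 2, 0), (0, 3, 0), (0, 4, 0), (0, 5, 0), (0, 6, 0), (0, 7, 0), (0, 8, 0),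
      (0, 9, 0)]),
    (8, [(0, 1, 0), (0, 0, 0), (0, 3, 0), (0, 4, 0), (0, 5, 0), (0, 6, 0), (0, 7, 0), (0, 8, 0),
      (0, 9, 0)]),
    (16, [(0, 1, 0), (0, 2, 0), (0, 0, 0), (0, 4, 0), (0, 5, 0), (0, 6, 0), (0, 7, 0), (0, 8, 0),
      (0, 9, 0)]),
    (33, [(3, 0, 0), (0, 1, 0), (0, 2, 0), (0, 3, 0), (0, 0, 0), (0, 5, 0), (0, 6, 0), (0, 7, 0),
      (0, 8, 0), (0, 9, 0)]),
    (65, [(3, 0, 0), (0, 1, 0), (0, 2, 0), (0, 3, 0), (0, 4, 0), (0, 0, 0), (0, 6, 0), (0, 7, 0),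
      (0, 8, 0), (0, 9, 0)]),
    (129, [(3, 0, 0), (0, 1, 0), (0, 2, 0), (0, 3, 0), (0, 4, 0), (0, 5, 0), (0, 0, 0), (0, 7,
      0), (0, 8, 0), (0, 9, 0)]),
    (257, [(3, 0, 0), (0, 1, 0), (0, 2, 0), (0, 3, 0), (0, 4, 0), (0, 5, 0), (0, 6, 0), (0, 0,
      0), (0, 8, 0), (0, 9, 0)]),
    (513, [(3, 0, 0), (0, 1, 0), (0, 2, 0), (0, 3, 0), (0, 4, 0), (0, 5, 0), (0, 6, 0), (0, 7,
      0), (0, 0, 0), (0, 9, 0)]),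
    (1025, [(3, 0, 0), (0, 1, 0), (0, 2, 0), (0, 3, 0), (0, 4, 0), (0, 5, 0), (0, 6, 0), (0, 7,
      0), (0, 8, 0), (0, 0, 0)])],
   [(2, [(0, 1, 0), (0, 2, 0), (0, 3, 0), (0, 4, 0), (0, 5, 0), (0, 6, 0), (0, 7, 0), (0, 8, 0),
      (0, 9, 0)]),
    (4, [(0, 0, 0), (0, 2, 0), (0, 3, 0), (0, 4, 0), (0, 5, 0), (0, 6, 0), (0, 7, 0), (0, 8, 0),
      (0, 9, 0)]),
    (8, [(0, 1, 0), (0, 0, 0), (0, 3, 0), (0, 4, 0), (0, 5, 0), (0, 6, 0), (0, 7, 0), (0, 8, 0),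
      (0, 9, 0)]),
    (16, [(0, 1, 0), (0, 2, 0), (0, 0, 0), (0, 4, 0), (0, 5, 0), (0, 6, 0), (0, 7, 0), (0, 8, 0),
      (0, 9, 0)]),
    (32, [(0, 1, 0), (0, 2, 0), (0, 3, 0), (0, 0, 0), (0, 5, 0), (0, 6, 0), (0, 7, 0), (0, 8, 0),
      (0, 9, 0)]),
    (64, [(0, 1, 0), (0, 2, 0), (0, 3, 0), (0, 4, 0), (0, 0, 0), (0, 6, 0), (0, 7, 0), (0, 8, 0),
      (0, 9, 0)]),
    (128, [(0, 1, 0), (0, 2, 0), (0, 3, 0), (0, 4, 0), (0, 5, 0), (0, 0, 0), (0, 7, 0), (0, 8,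
      0), (0, 9, 0)]),
    (256, [(0, 1, 0), (0, 2, 0), (0, 3, 0), (0, 4, 0), (0, 5, 0), (0, 6, 0), (0, 0, 0), (0, 8,
      0), (0, 9, 0)]),
    (512, [(0, 1, 0), (0, 2, 0), (0, 3, 0), (0, 4, 0), (0, 5, 0), (0, 6, 0), (0, 7, 0), (0, 0,
      0), (0, 9, 0)]),
    (1024, [(0, 1, 0), (0, 2, 0), (0, 3, 0), (0, 4, 0), (0, 5, 0), (0, 6, 0), (0, 7, 0), (0, 8,
      0), (0, 0, 0)])]]

theorem gml_ok : ∀ b < 7, ∀ e ∈ nthG [] gmL b, okR e.2 1 = true ∧ ndG e.2 1 = 10 ∧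
    syG e.2 1 0 = e.1 := by decide +kernel

/-- The number of vertices of the second colour of a quadruple. -/
def gnb (b r : ℕ) : ℕ := ((q6 6 r).filter fun i : Fin 6 => (i : ℕ) < b).card

theorem gml_mem : ∀ b < 7, ∀ m ∈ (nthG [] gmL b).map Prod.fst, ∃ r < 15,
    (gnb b r % 4 = 0 ∧ m = nthG 0 exL r) ∨ (gnb b r % 2 = 1 ∧ m = nthG 0 exL r ^^^ 1) := by
  decide +kernel

/-- The exact Giraud pattern: the quadruples with an odd number of vertices of the second colour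
belong to `E`, the quadruples of one colour do not. -/
def ExG (n : ℕ) (E : Finset (Finset (Fin n))) (χ : Fin n → Bool) : Prop :=
  ∀ T : Finset (Fin n), T.card = 4 →
    ((T.filter fun i => χ i = true).card % 4 = 0 → T ∉ E) ∧
    ((T.filter fun i => χ i = true).card % 2 = 1 → T ∈ E)

theorem zb_dcd {n m : ℕ} (H : Finset (Finset (Fin n))) (t : Fin m → Fin n) (T : Finset (Fin m)) :
    zb H t T = decide (T.image t ∈ H) := by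
  unfold zb E
  by_cases h : T.image t ∈ H <;> simp [h]

theorem gmask (b : ℕ) (hb : b < 7) {n : ℕ} (E : Finset (Finset (Fin n))) (χ : Fin n → Bool)
    (hev : EvenH n E) (hE : ExG n E χ) (t : Fin 6 → Fin n) (ht : Function.Injective t)
    (hx : xc χ t = 2 ^ b - 1) :
    ∀ m ∈ (nthG [] gmL b).map Prod.fst, lf 10 m (gc E t) = false := by
  intro m hm
  obtain ⟨r, hr, h⟩ := gml_mem b hb m hm
  have hevt := evT_of_evenH E hev t ht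
  have he : lf 10 (nthG 0 exL r) (gc E t) = zb E t (q6 6 r) := eb_gc (E := E) t hevt r hr
  have hc : (((q6 6 r).image t).filter fun i => χ i = true).card = gnb b r := by
    rw [Finset.filter_image, Finset.card_image_of_injective _ ht, gnb]
    congr 1
    apply Finset.filter_congr
    intro i _
    rw [xc_col χ t b hx i]
    simp
  have h4 : ((q6 6 r).image t).card = 4 := by
    rw [Finset.card_image_of_injective _ ht]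
    exact q6_card r hr
  obtain ⟨g0, g1⟩ := hE _ h4
  rw [hc] at g0 g1
  rcases h with ⟨h0, rfl⟩ | ⟨h0, rfl⟩
  · rw [he, zb_dcd]
    exact decide_eq_false (g0 h0)
  · rw [lf_xor, he, lf_one, zb_dcd, decide_eq_true (g1 h0)]
    rfl

end Pool.Agent.Lib.MP_afdd4d_co.K9.W6
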