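import Pool.Agent.Lib.MP_afdd4d_co.K9.W6G
import Pool.Agent.Lib.MP_afdd4d_co.K9.TwStr
import Pool.Agent.Lib.MP_afdd4d_co.K9.W6Gmk

/-!
# The terms of the pairs of vertices of different colours have almost nonnegative average
-/

namespace Pool.Agent.Lib.MP_afdd4d_co.K9.W6

open Finset K8
open Pool.Agent.Lib.MP_afdd4d_co.K9.Star
open Pool.Agent.Lib.MP_afdd4d_co.K9.Star.Tw

/-- The number with given bits, the last entries first. -/
private theorem idx3 (b : ℕ → Bool) :
    idx 3 b = (b 0).toNat + 2 * (b 1).toNat + 4 * (b 2).toNat := by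
  simp only [idx]
  norm_num

/-- The check of the form of a raw table with a lane and two keys. -/
def okR2 (R : RT) : Bool :=
  (Nat.beq R.P 0 && Nat.beq R.Q 0) ||
  ((Nat.beq R.k 1 && Nat.beq R.m 2) && ((R.pe == [[0]]) && (R.pq == [[0], [9]])))

/-- The multiplier of the roots in the tables. -/
def p4m (L : LT) (W c i : ℕ) : ℕ := Ln W (nthG RT0 L.Rs (c + 16)).P i

/-- The value for the colours and the bits. -/
def p4v (L : LT) (W dn dd c i : ℕ) : ℤ :=
  if (!c.testBit 0 && c.testBit 1) = true then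
    (p4m L W (c % 16) (i % 4) : ℤ) * ((dn : ℤ) * ((c.testBit 4 ^^ c.testBit 5).toNat : ℕ) -
      dd * (((c.testBit 4 ^^ c.testBit 5) && i.testBit 2).toNat : ℕ))
  else 0

/-- The check of the raw tables of the pairs of vertices of different colours. -/
def p4ck (L : LT) (W dn dd : ℕ) : Bool := (List.range 64).all fun c =>
  okR2 (nthG RT0 L.Rs c) && (List.range 8).all fun i =>
    decide ((Ln W (nthG RT0 L.Rs c).P i : ℤ) - Ln W (nthG RT0 L.Rs c).Q i = p4v L W dn dd c i)

theorem okR2_val {W : ℕ} {R : RT} (h : okR2 R = true) (e y : ℕ → Bool) (v : ℕ → ℤ)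
    (hv : ∀ i < 8, (Ln W R.P i : ℤ) - Ln W R.Q i = v i) :
    (R.M 0 0).val W e y = v (idx 3 fun r => if r < 1 then e r else y (9 * (r - 1))) := by
  rw [← hv _ (idx_lt 3 _)]
  unfold okR2 at h
  rw [Bool.or_eq_true] at h
  rcases h with h | h
  · rw [Bool.and_eq_true] at h
    have h1 : R.P = 0 := Nat.eq_of_beq_eq_true h.1
    have h2 : R.Q = 0 := Nat.eq_of_beq_eq_true h.2
    unfold Mk.val
    rw [show (R.M 0 0).P = 0 from h1, show (R.M 0 0).Q = 0 from h2, h1, h2]
    simp only [Ln_zero_left]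
  · rw [Bool.and_eq_true, Bool.and_eq_true, Bool.and_eq_true] at h
    obtain ⟨⟨h1, h2⟩, h3, h4⟩ := h
    have h1 : R.k = 1 := Nat.eq_of_beq_eq_true h1
    have h2 : R.m = 2 := Nat.eq_of_beq_eq_true h2
    have h3 : R.pe = [[0]] := eq_of_beq h3
    have h4 : R.pq = [[0], [9]] := eq_of_beq h4
    have e1 : (R.M 0 0).k + (R.M 0 0).m = 3 := by
      show R.k + R.m = _
      rw [h1, h2]
    have e2 : (idx ((R.M 0 0).k + (R.M 0 0).m) fun r => if r < (R.M 0 0).k then
        xrB e (nthG [] (R.M 0 0).pe r) else xrB y (nthG [] (R.M 0 0).pq (r - (R.M 0 0).k))) =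
        idx 3 fun r => if r < 1 then e r else y (9 * (r - 1)) := by
      rw [e1]
      apply idx_congr
      intro r hr
      show (if r < R.k then xrB e (nthG [] R.pe r) else xrB y (nthG [] R.pq (r - R.k))) = _
      rw [h1, h3, h4]
      interval_cases r <;> first | exact xrB_one e _ | exact xrB_one y _
    unfold Mk.val
    rw [e2]
    rfl

/-- The quadruple of the four roots and of the first two roots with the two free vertices. -/
theorem q4_im : ((univ : Finset (Fin (2 + 2))).image (Fin.castAdd 2 : Fin (2 + 2) → Fin (2 + 2 + 2))) =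
    (q6 6 0 : Finset (Fin 6)) := by
  decide +kernel

theorem q9_im : ({Fin.castAdd 2 (Fin.castAdd 2 0), Fin.castAdd 2 (Fin.castAdd 2 1),
    Fin.natAdd (2 + 2) 0, Fin.natAdd (2 + 2) 1} : Finset (Fin (2 + 2 + 2))) =
    (q6 6 9 : Finset (Fin 6)) := by
  decide +kernel

/-- The bits of the index from the data of the roots. -/
def p4b (D : WD (2 + 2)) (r : ℕ) : Bool :=
  if r < 1 then D.r univ else (D.e univ ^^ D.r univ)

/-- The multiplier of the roots. -/
def p4Mu (L : LT) (W : ℕ) : MuX (2 + 2) :=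
  ⟨fun D => p4m L W (idx 4 fun a => D.c (Fin.ofNat 4 a)) (idx 2 (p4b D)), 2 ^ W,
    fun _ => (Ln_lt _ _ _).le⟩

/-- The terms of the pairs of vertices of different colours. -/
theorem goodP_p4 {dn dd : ℕ} (L : LT) (W : ℕ) (h : p4ck L W dn dd = true) :
    GoodP (CtCX dn dd) (fun H E χ t => L.f W H E χ t) := by
  have h0 := gvC_pair (P := P00) (dn := dn) (dd := dd) (k := 2) (p4Mu L W)
    (fun i => i) Function.injective_id
  refine GoodP.mono h0 fun {n} H E χ _ t ht => le_of_eq ?_
  have hall := List.all_eq_true.mp h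
  have hc : (idx 6 fun a => yJ H E χ t (15 + a)) < 64 := idx_lt 6 _
  have h1 := hall _ (List.mem_range.mpr hc)
  rw [Bool.and_eq_true] at h1
  obtain ⟨h1, h2⟩ := h1
  have h3 : ∀ i < 8, (Ln W (nthG RT0 L.Rs (idx 6 fun a => yJ H E χ t (15 + a))).P i : ℤ) -
      Ln W (nthG RT0 L.Rs (idx 6 fun a => yJ H E χ t (15 + a))).Q i =
      p4v L W dn dd (idx 6 fun a => yJ H E χ t (15 + a)) i := fun i hi =>
    of_decide_eq_true (List.all_eq_true.mp h2 i (List.mem_range.mpr hi))
  unfold LT.f LT.val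
  rw [okR2_val h1 _ _ _ h3]
  -- the bits of the colours
  have hcb : ∀ a < 6, (idx 6 fun a => yJ H E χ t (15 + a)).testBit a = χ (t (Fin.ofNat 6 a)) := by
    intro a ha
    rw [testBit_idx, decide_eq_true ha, Bool.true_and]
    unfold yJ
    rw [if_neg (by omega), Nat.add_sub_cancel_left]
  have hib : (idx 3 fun r => if r < 1 then eE E t r else yJ H E χ t (9 * (r - 1))).testBit 2 =
      yJ H E χ t 9 := by
    rw [testBit_idx]
    rfl
  have hi4 : (idx 3 fun r => if r < 1 then eE E t r else yJ H E χ t (9 * (r - 1))) % 4 =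
      idx 2 (p4b ((wt P00 H E χ t).sub (Fin.castAdd 2 : Fin (2 + 2) → Fin 6))) := by
    have e0 : (idx 3 fun r => if r < 1 then eE E t r else yJ H E χ t (9 * (r - 1))) =
        (idx 2 fun r => if r < 1 then eE E t r else yJ H E χ t (9 * (r - 1))) +
          2 ^ 2 * (yJ H E χ t 9).toNat := rfl
    rw [e0]
    have e1 : (idx 2 fun r => if r < 1 then eE E t r else yJ H E χ t (9 * (r - 1))) < 4 :=
      idx_lt 2 _
    have e2 : ((idx 2 fun r => if r < 1 then eE E t r else yJ H E χ t (9 * (r - 1))) +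
          2 ^ 2 * (yJ H E χ t 9).toNat) % 4 =
        idx 2 fun r => if r < 1 then eE E t r else yJ H E χ t (9 * (r - 1)) := by omega
    rw [e2]
    apply idx_congr
    intro r hr
    unfold p4b
    have hq : ((wt P00 H E χ t).sub (Fin.castAdd 2 : Fin (2 + 2) → Fin 6)).r univ =
        zb E t (q6 6 0) := by
      show zb E t ((univ : Finset (Fin (2 + 2))).image _) = _
      rw [← q4_im]
    have hq' : ((wt P00 H E χ t).sub (Fin.castAdd 2 : Fin (2 + 2) → Fin 6)).e univ =
        zb H t (q6 6 0) := by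
      show zb H t ((univ : Finset (Fin (2 + 2))).image _) = _
      rw [← q4_im]
    rw [hq, hq']
    by_cases h4 : r < 1
    · rw [if_pos h4, if_pos h4]
      have : r = 0 := by omega
      subst this
      rfl
    · rw [if_neg h4, if_neg h4]
      have : r = 1 := by omega
      subst this
      rfl
  have hc4 : (idx 6 fun a => yJ H E χ t (15 + a)) % 16 =
      idx 4 fun a => ((wt P00 H E χ t).sub (Fin.castAdd 2 : Fin (2 + 2) → Fin 6)).c
        (Fin.ofNat 4 a) := by
    have e0 : (idx 6 fun a => yJ H E χ t (15 + a)) =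
        (idx 4 fun a => yJ H E χ t (15 + a)) + 2 ^ 4 * (yJ H E χ t (15 + 4)).toNat +
          2 ^ 5 * (yJ H E χ t (15 + 5)).toNat := rfl
    rw [e0]
    have e1 : (idx 4 fun a => yJ H E χ t (15 + a)) < 16 := idx_lt 4 _
    have e2 : ((idx 4 fun a => yJ H E χ t (15 + a)) + 2 ^ 4 * (yJ H E χ t (15 + 4)).toNat +
          2 ^ 5 * (yJ H E χ t (15 + 5)).toNat) % 16 = idx 4 fun a => yJ H E χ t (15 + a) := by
      omega
    rw [e2]
    apply idx_congr
    intro a ha
    unfold yJ
    rw [if_neg (by omega), Nat.add_sub_cancel_left]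
    show χ (t (Fin.ofNat 6 a)) = χ (t _)
    congr 2
    apply Fin.ext
    show a % 6 = a % 4
    rw [Nat.mod_eq_of_lt (by omega), Nat.mod_eq_of_lt (by omega)]
  unfold p4v
  rw [hi4, hc4, hib, hcb 0 (by norm_num), hcb 1 (by norm_num), hcb 4 (by norm_num),
    hcb 5 (by norm_num)]
  have hj : ((wt P00 H E χ t).sub fun i => i) = wt P00 H E χ t := by
    rw [← wt_comp]
    rfl
  unfold jCV
  rw [hj]
  have e5 : jB (Fin.castAdd 2 (Fin.castAdd 2 0)) (Fin.castAdd 2 (Fin.castAdd 2 1))
      (Fin.natAdd (2 + 2) 0) (Fin.natAdd (2 + 2) 1) (wt P00 H E χ t) =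
      (c22 (χ (t 0)) (χ (t 1)) (χ (t 4)) (χ (t 5)) && yJ H E χ t 9) := by
    unfold jB
    rw [q9_im]
    rfl
  rw [e5]
  show (((if (!χ (t 0) && χ (t 1)) = true then p4m L W
      (idx 4 fun a => ((wt P00 H E χ t).sub (Fin.castAdd 2 : Fin (2 + 2) → Fin 6)).c (Fin.ofNat 4 a))
      (idx 2 (p4b ((wt P00 H E χ t).sub (Fin.castAdd 2 : Fin (2 + 2) → Fin 6)))) else 0) : ℕ) : ℤ) *
    ((dn : ℤ) * (((χ (t 4) ^^ χ (t 5)).toNat : ℕ) : ℤ) -
      dd * (((c22 (χ (t 0)) (χ (t 1)) (χ (t 4)) (χ (t 5)) && yJ H E χ t 9).toNat : ℕ) : ℤ)) =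
    if (!χ (t 0) && χ (t 1)) = true then _ else _
  by_cases h6 : (!χ (t 0) && χ (t 1)) = true
  · rw [if_pos h6, if_pos h6]
    rw [Bool.and_eq_true, Bool.not_eq_true'] at h6
    rw [h6.1, h6.2]
    have e6 : ∀ u v : Bool, c22 false true u v = (u ^^ v) := by decide
    rw [e6]
    rfl
  · rw [if_neg h6, if_neg h6, Nat.cast_zero, zero_mul]

/-! ### Lists -/

theorem nthG_at {α : Type} (d : α) : ∀ (l : List α) (i : ℕ) (h : i < l.length), nthG d l i = l[i]
  | [], i, h => absurd h (Nat.not_lt_zero i)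
  | _ :: _, 0, _ => rfl
  | _ :: l, i + 1, h => nthG_at d l i (by simpa using h)

theorem zip_map_mem {α β : Type} (f : α → β) : ∀ (l : List α) (p : α × β),
    p ∈ l.zip (l.map f) → p.2 = f p.1
  | [], p, h => by cases h
  | a :: l, p, h => by
    rw [List.map_cons, List.zip_cons_cons] at h
    rcases List.mem_cons.mp h with rfl | h
    · rfl
    · exact zip_map_mem f l p h

/-! ### The class and the distance -/

theorem cw_S4 (e r : Finset (Fin 6) → Bool) : cw (wc 1 1) e r = S4 fun T => e T ^^ r T := by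
  unfold cw S4
  refine Finset.sum_congr rfl fun T _ => ?_
  unfold wc
  beta_reduce
  cases e T <;> cases r T <;> simp

/-- A reference structure without flips is an exact pattern. -/
theorem exG_gir {n : ℕ} (χ : Fin n → Bool) (M : Fin n → Fin n → Bool) :
    ExG n (gir χ M (fun _ => false) (fun _ => false)) χ := by
  intro T hT
  have h1 := dec_gir χ M (fun _ => false) (fun _ => false) T hT
  have h5 : (T.filter fun v => χ v = true).card ≤ 4 := by
    rw [← hT]
    exact Finset.card_filter_le _ _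
  refine ⟨fun h => ?_, fun h => ?_⟩
  · have h2 : girB χ M (fun _ => false) (fun _ => false) T = false := by
      rcases Nat.lt_or_ge ((T.filter fun v => χ v = true).card) 1 with h3 | h3
      · exact girB_mono χ M (Or.inl (by omega))
      · exact girB_mono χ M (Or.inr (by omega))
    rw [h2] at h1
    exact of_decide_eq_false h1
  · have h2 : girB χ M (fun _ => false) (fun _ => false) T = true := girB_odd χ M (by omega)
    rw [h2] at h1
    exact of_decide_eq_true h1

end Pool.Agent.Lib.MP_afdd4d_co.K9.W6
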