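import Pool.Agent.Lib.MP_afdd4d_co.K9.W6Rc

/-!
# Rows for all 4-graphs
-/

namespace Pool.Agent.Lib.MP_afdd4d_co.K9.W6

open Finset K8
open Pool.Agent.Lib.MP_afdd4d_co.K9.Star

namespace RC

/-- The rows for all 4-graphs from the checks of the representatives: `Cl` is the class, `X` a term given by the arrays
by colours, `Y` a sum of further terms, `w` a function of the numbers of quadruples of the five-sets,
`A` the bound. -/
theorem rows6 (C : RC) (D : C4D) (B : B2) (R : RD) (U K K1 UP : ℕ) (hD : D.OK) (hI : D.InvOK)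
    (hB : B.OK) (hR : R.OK D B U K) (hL : C.L.OK R.W K1) (hK1 : K1 < R.W) (hK : C.K < R.W)
    (hT : ∀ L ∈ C.T, L.OK R.W C.L.P)
    (hsz : ∀ b < 7, 2 ^ K1 + (2 ^ C.K + UP + tlU b C.T) ≤ 2 ^ K)
    (Cl : ∀ n : ℕ, Finset (Finset (Fin n)) → Finset (Finset (Fin n)) → (Fin n → Bool) → Prop)
    (Pv : ℕ → (ℕ → Bool) → ℕ) (hPA : ∀ b < 7, Ar R.W 10 (nthG 0 C.PA b) (Pv b))
    (hPv : ∀ b < 7, ∀ z, Pv b z ≤ UP)
    (X : FunE)
    (hX : ∀ {n : ℕ} (H E : Finset (Finset (Fin n))) (χ : Fin n → Bool)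
      (t : Fin 6 → Fin n) (σ : Equiv.Perm (Fin 6)), X H E χ (t ∘ σ) = X H E χ t)
    (xo : ℕ → ℤ)
    (hXv : ∀ b < 7, ∀ (n : ℕ) (H E : Finset (Finset (Fin n)))
      (χ : Fin n → Bool), EvenH n E → Cl n H E χ → ∀ t : Fin 6 → Fin n,
      Function.Injective t → xc χ t = 2 ^ b - 1 → X H E χ t + 24 * (Pv b (gc E t) : ℤ) ≤ xo b)
    (Y : FunE)
    (hY : ∀ {n : ℕ} (H E : Finset (Finset (Fin n))) (χ : Fin n → Bool)
      (t : Fin 6 → Fin n) (σ : Equiv.Perm (Fin 6)), Y H E χ (t ∘ σ) = Y H E χ t)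
    (voff : ℤ)
    (hYv : ∀ k < 160, ∀ p ∈ (rX k).zip (nthG [] C.vX k), ∀ (n : ℕ) (H E : Finset (Finset (Fin n)))
      (χ : Fin n → Bool), EvenH n E → Cl n H E χ → ∀ t : Fin 6 → Fin n,
      Function.Injective t → xc χ t = 2 ^ rB k - 1 → jc H E t = p.1 →
      Y H E χ t + voff ≤ (p.2 : ℤ))
    (hml : ∀ b < 7, ∀ e ∈ nthG [] C.mL b, okR e.2 1 = true ∧ ndG e.2 1 = 10 ∧
      syG e.2 1 0 = e.1)
    (hmask : ∀ b < 7, ∀ (n : ℕ) (H E : Finset (Finset (Fin n))) (χ : Fin n → Bool),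
      EvenH n E → Cl n H E χ → ∀ t : Fin 6 → Fin n, Function.Injective t → xc χ t = 2 ^ b - 1 →
      ∀ m ∈ (nthG [] C.mL b).map Prod.fst, lf 10 m (gc E t) = false)
    (w : ℕ → ℕ → ℤ) (c5 A : ℤ) (hu : ∀ h < 6, ∀ e < 6, 24 * (R.u5 h e : ℤ) + w h e ≤ c5)
    (hA : ∀ b < 7, 24 * (15 * (D.of : ℤ) + 45 * B.of + 720 * C.L.ofs + (tlO b C.T : ℕ)) + 6 * c5 +
      72 * k3 B b + xo b - voff ≤ A + nthG 0 C.A b)
    (hck : ∀ k < 160, C.ck R D k = true) :
    ∀ (n : ℕ) (H E : Finset (Finset (Fin n))) (χ : Fin n → Bool), EvenH n E → Cl n H E χ →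
      ∀ t : Fin 6 → Fin n, Function.Injective t →
        KS D B H E χ t + 24 * C.L.tot R.W H E χ t + 24 * tlS R.W C.T H E χ t + X H E χ t +
          Y H E χ t + ∑ q ∈ range 6, w (cnt H t q) (cnt E t q) ≤ A := by
  intro n H E χ hev hCl
  have hw : ∀ (t : Fin 6 → Fin n), ∑ q ∈ range 6, w (cnt H t q) (cnt E t q) =
      ∑ S ∈ (univ : Finset (Fin 6)).powersetCard 5,
        w (∑ T ∈ S.powersetCard 4, (zb H t T).toNat) (∑ T ∈ S.powersetCard 4, (zb E t T).toNat) := by
    intro t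
    rw [s5_psc, Finset.sum_image]
    · refine Finset.sum_congr rfl fun k hk => ?_
      rw [cnt_psc H t k (Finset.mem_range.mp hk), cnt_psc E t k (Finset.mem_range.mp hk)]
    · intro k hk k' hk' h
      exact s5_inj k (Finset.mem_range.mp hk) k' (Finset.mem_range.mp hk') h
  refine w6_reduce χ H E (fun t => KS D B H E χ t + 24 * C.L.tot R.W H E χ t +
    24 * tlS R.W C.T H E χ t + X H E χ t + Y H E χ t +
      ∑ q ∈ range 6, w (cnt H t q) (cnt E t q) ≤ A) ?_ ?_
  · intro t σ h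
    have e1 : ∑ q ∈ range 6, w (cnt H (t ∘ σ) q) (cnt E (t ∘ σ) q) =
        ∑ q ∈ range 6, w (cnt H t q) (cnt E t q) := by
      rw [hw, hw]
      have e2 : zb H (t ∘ σ) = fun T => zb H t (T.image σ) := by
        funext T
        exact zb_comp H t σ T
      have e3 : zb E (t ∘ σ) = fun T => zb E t (T.image σ) := by
        funext T
        exact zb_comp E t σ T
      rw [e2, e3]
      have h1 := sum_psc_perm σ univ 5 fun S : Finset (Fin 6) =>
        w (∑ T ∈ S.powersetCard 4, (zb H t T).toNat) (∑ T ∈ S.powersetCard 4, (zb E t T).toNat)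
      rw [univ_image_perm] at h1
      rw [← h1]
      refine Finset.sum_congr rfl fun S _ => ?_
      rw [sum_psc_perm σ S 4 fun T => (zb H t T).toNat,
        sum_psc_perm σ S 4 fun T => (zb E t T).toNat]
    have e4 : C.L.tot R.W H E χ (t ∘ σ) = C.L.tot R.W H E χ t := by
      unfold LD.tot
      simp only [symE_perm]
      rw [Ug.uv_perm hL.hu H σ t]
    have h' : KS D B H E χ (t ∘ σ) + 24 * C.L.tot R.W H E χ (t ∘ σ) +
      24 * tlS R.W C.T H E χ (t ∘ σ) + X H E χ (t ∘ σ) + Y H E χ (t ∘ σ) +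
      ∑ q ∈ range 6, w (cnt H (t ∘ σ) q) (cnt E (t ∘ σ) q) ≤ A := h
    rwa [KS_perm H E χ hI, e1, e4, tlS_perm, hX, hY] at h'
  · intro k hk c hc t ht hx hj
    have hb : rB k < 7 := rB_lt k hk
    obtain ⟨v, hv, hrow⟩ := zpG_spec _ _ _ (hck k hk) c hc
    have hYk := hYv k hk (c, v) hv n H E χ hev hCl t ht hx hj
    have hXk := hXv (rB k) hb n H E χ hev hCl t ht hx
    have hW := hR.hW0
    have hevt := evT_of_evenH E hev t ht
    have hsz' := hsz _ hb
    have hRs := hR.sz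
    have hp1 := Nat.two_pow_pos K1
    have hp2 := Nat.two_pow_pos C.K
    have hW2 : 2 ^ (R.W - 1) ≤ 2 ^ R.W := Nat.pow_le_pow_right (by norm_num) (Nat.sub_le _ _)
    have hMm : Ar R.W 10 (R.mkA (2 ^ C.K) (nthG [] C.mL (rB k)))
        fun z => mkV (2 ^ C.K) (nthG [] C.mL (rB k)) z := by
      have e0 := hR
      have e1 : R.OK D B U K := e0
      exact RD.mkA_ar (K := C.K) { e1 with
        sz := by
          have h1 : 2 ^ C.K ≤ 2 ^ K := by omega
          have := e1.sz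
          omega
        hK := hK } _ (hml _ hb)
    have hMp := hPA _ hb
    have hMpl := hPv _ hb
    have hMt := tlG_ar hL.hP hW hb c C.T hT (by omega)
    have hMtl := fun z => tlV_le hL.hP hW hb c z C.T hT
    have hMl := L_mb6 hL hW hK1 hb c
    have hle : ∀ z, C.L.mv R.W (rB k) c z + (mkV (2 ^ C.K) (nthG [] C.mL (rB k)) z +
        Pv (rB k) z + tlV R.W (rB k) c z C.T) ≤ 2 ^ K := fun z => by
      have f1 := C.L.mv_le hL hW (rB k) c z
      have f2 := mkV_le C.K (nthG [] C.mL (rB k)) z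
      have f3 := hMtl z
      have f4 := hMpl z
      omega
    have hM : Ar R.W 10 (C.arr R (rB k) c) fun z => C.L.mv R.W (rB k) c z +
        (mkV (2 ^ C.K) (nthG [] C.mL (rB k)) z + Pv (rB k) z + tlV R.W (rB k) c z C.T) :=
      hMl.add ((hMm.add hMp hW fun z => by
        have := hle z
        beta_reduce
        omega).add hMt hW fun z => by
          have := hle z
          beta_reduce
          omega) hW fun z => by
            have := hle z
            beta_reduce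
            omega
    have hz : mkV (2 ^ C.K) (nthG [] C.mL (rB k)) (gc E t) = 0 :=
      mkV_zero _ _ _ (hmask _ hb n H E χ hev hCl t ht hx)
    have hrow' : R.rwG D (C.arr R (rB k) c) (xc χ t) (th (nthG 0 C.A (rB k)) v)
        (jc H E t) = true := by
      rw [hx, hj]
      exact hrow
    have h1 := row_leM (H := H) (χ := χ) hR hD hB hev t ht (by rw [hx]; exact cR_std _ hb)
      _ _ _ hM hle hrow'
    have h2 := KS_eq H E χ hD hB t
    have h3 := k3_eq B χ t (rB k) hx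
    have h4 := C.L.tot_eq hL hW (H := H) t hevt (rB k) hx
    have h5' := tlS_eq hL.hP hW (H := H) (χ := χ) t hevt (rB k) hb hx C.T hT
    have h7 := th_spec (nthG 0 C.A (rB k)) v
    rw [hj] at h4 h5'
    rw [h3] at h2
    have h8 := hA (rB k) hb
    have h9 : 24 * ∑ q ∈ range 6, (R.u5 (cnt H t q) (cnt E t q) : ℤ) +
        ∑ q ∈ range 6, w (cnt H t q) (cnt E t q) ≤ 6 * c5 := by
      rw [Finset.mul_sum, ← Finset.sum_add_distrib]
      refine le_trans (Finset.sum_le_sum fun q hq =>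
        hu _ (by have := cnt_le5 H t q; omega) _
          (by have := cnt_le5 E t q; omega)) ?_
      rw [Finset.sum_const, Finset.card_range, nsmul_eq_mul]
      norm_num
    rw [hz, zero_add] at h1
    simp only at hYk
    push_cast at h1 h4 h5' h8 ⊢
    show KS D B H E χ t + 24 * C.L.tot R.W H E χ t + 24 * tlS R.W C.T H E χ t + X H E χ t +
      Y H E χ t + ∑ q ∈ range 6, w (cnt H t q) (cnt E t q) ≤ A
    linarith
where
  /-- The array of the terms without colours. -/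
  L_mb6 {C : RC} {R : RD} {K1 : ℕ} (hL : C.L.OK R.W K1) (hW : 0 < R.W) (hK1 : K1 < R.W) {b : ℕ}
      (hb : b < 7) (c : ℕ) : Ar R.W 10 (C.L.mb R.W b c) (C.L.mv R.W b c) :=
    C.L.mb_ar hL hW hK1 b c hb

end RC

end Pool.Agent.Lib.MP_afdd4d_co.K9.W6
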