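import Pool.Agent.Lib.MP_afdd4d_co.K9.T4F

/-!
# The numbers of edges of the five-sets of a six-tuple

The sum over all injective six-tuples of the number of five-sets of the tuple with `i` edges, and the
evaluation of this number from the fifteen bits of the quadruples in colex order.
-/

namespace Pool.Agent.Lib.MP_afdd4d_co.K9.Star

open Finset K8

/-! ### Injective tuples and sets -/

section fibK
variable {V : Type*} [Fintype V] [DecidableEq V] {k : ℕ}

/-- The orderings of a set. -/
noncomputable def fibK (Q : Finset V) :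
    {b : Fin k → V // Function.Injective b ∧ univ.image b = Q} ≃ (Fin k ≃ Q) where
  toFun b := Equiv.ofBijective
    (fun i => (⟨b.1 i, by
      have h : b.1 i ∈ univ.image b.1 := Finset.mem_image_of_mem _ (Finset.mem_univ i)
      exact (congrArg (fun A => b.1 i ∈ A) b.2.2).mp h⟩ : Q)) (by
      constructor
      · intro i j hij
        exact b.2.1 (congrArg Subtype.val hij)
      · rintro ⟨q, hq⟩
        have h : q ∈ univ.image b.1 := by rw [b.2.2]; exact hq
        obtain ⟨i, _, hi⟩ := Finset.mem_image.mp h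
        exact ⟨i, Subtype.ext hi⟩)
  invFun e := ⟨fun i => (e i : V), fun i j hij => e.injective (Subtype.ext hij), by
    ext q
    rw [Finset.mem_image]
    constructor
    · rintro ⟨i, _, rfl⟩
      exact (e i).2
    · intro hq
      exact ⟨e.symm ⟨q, hq⟩, Finset.mem_univ _, by rw [Equiv.apply_symm_apply]⟩⟩
  left_inv b := by
    apply Subtype.ext
    rfl
  right_inv e := by
    ext i
    rfl

theorem card_fibK (Q : Finset V) (hQ : Q.card = k) :
    ((univ : Finset (Fin k → V)).filter fun b => Function.Injective b ∧ univ.image b = Q).card =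
      k.factorial := by
  classical
  rw [← Fintype.card_subtype, Fintype.card_congr (fibK Q),
    Fintype.card_equiv (Fintype.equivOfCardEq (by rw [Fintype.card_fin, Fintype.card_coe, hQ])),
    Fintype.card_fin]

/-- The sum over the injective tuples of a function of the image. -/
theorem sum_imgK (f : Finset V → ℝ) :
    ∑ b ∈ inj V k, f (univ.image b) =
      (k.factorial : ℝ) * ∑ Q ∈ (univ : Finset V).powersetCard k, f Q := by
  classical
  have hm : ∀ b ∈ inj V k, univ.image b ∈ (univ : Finset V).powersetCard k := by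
    intro b hb
    rw [Finset.mem_powersetCard]
    refine ⟨Finset.subset_univ _, ?_⟩
    rw [Finset.card_image_of_injective _ (mem_inj.mp hb), Finset.card_univ, Fintype.card_fin]
  rw [← Finset.sum_fiberwise_of_maps_to hm, Finset.mul_sum]
  refine Finset.sum_congr rfl fun Q hQ => ?_
  have h0 : (inj V k).filter (fun b => univ.image b = Q) =
      (univ : Finset (Fin k → V)).filter fun b => Function.Injective b ∧ univ.image b = Q := by
    ext b
    rw [Finset.mem_filter, mem_inj, Finset.mem_filter]
    exact ⟨fun h => ⟨Finset.mem_univ _, h⟩, fun h => h.2⟩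
  rw [h0]
  have h1 : ∀ b ∈ (univ : Finset (Fin k → V)).filter
      (fun b => Function.Injective b ∧ univ.image b = Q), f (univ.image b) = f Q := by
    intro b hb
    rw [(Finset.mem_filter.mp hb).2.2]
  rw [Finset.sum_congr rfl h1, Finset.sum_const, card_fibK Q (Finset.mem_powersetCard.mp hQ).2,
    nsmul_eq_mul]

end fibK

/-! ### The sum -/

section sumO
variable {n : ℕ}

/-- The number of edges of a subset of a tuple. -/
theorem zb_c5 {m : ℕ} (H : Finset (Finset (Fin n))) (t : Fin m → Fin n)
    (ht : Function.Injective t) (S : Finset (Fin m)) :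
    ∑ T ∈ S.powersetCard 4, (zb H t T).toNat = c5 H (S.image t) := by
  classical
  unfold c5
  rw [Finset.card_filter]
  refine Finset.sum_bij (fun T _ => T.image t) ?_ ?_ ?_ ?_
  · intro T hT
    rw [Finset.mem_powersetCard] at hT ⊢
    exact ⟨Finset.image_subset_image hT.1, by
      rw [Finset.card_image_of_injective _ ht]
      exact hT.2⟩
  · intro T _ T' _ h
    exact Finset.image_injective ht h
  · intro Q hQ
    rw [Finset.mem_powersetCard] at hQ
    obtain ⟨T, hT, rfl⟩ := Finset.subset_image_iff.mp hQ.1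
    refine ⟨T, ?_, rfl⟩
    rw [Finset.mem_powersetCard]
    refine ⟨by exact_mod_cast hT, ?_⟩
    rw [← hQ.2, Finset.card_image_of_injective _ ht]
  · intro T _
    rw [zb_dec]
    by_cases h : T.image t ∈ H
    · rw [if_pos h, decide_eq_true h]
      rfl
    · rw [if_neg h, decide_eq_false h]
      rfl

theorem exists_inj5 (S : Finset (Fin 6)) (hS : S.card = 5) :
    ∃ j : Fin 5 → Fin 6, Function.Injective j ∧ univ.image j = S :=
  ⟨S.orderEmbOfFin hS, (S.orderEmbOfFin hS).injective, Finset.image_orderEmbOfFin_univ S hS⟩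

end sumO

/-- The sum of the number of 5-sets of the window with `i` edges. -/
theorem sumO5 : SumO5 := by
  classical
  intro n H i _
  have h1 : ∀ t ∈ inj (Fin n) 6, ((O5 (zb H t) i : ℕ) : ℝ) =
      ∑ S ∈ (univ : Finset (Fin 6)).powersetCard 5,
        if c5 H (S.image t) = i then (1 : ℝ) else 0 := by
    intro t ht
    unfold O5
    rw [Finset.card_filter]
    push_cast
    refine Finset.sum_congr rfl fun S _ => ?_
    rw [zb_c5 H t (mem_inj.mp ht) S]
  rw [Finset.sum_congr rfl h1, Finset.sum_comm]
  have h2 : ∑ p ∈ inj (Fin n) 5, (if c5 H (univ.image p) = i then (1 : ℝ) else 0) =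
      120 * (T5 H i : ℝ) := by
    have h3 := sum_imgK (V := Fin n) (k := 5) fun Q => if c5 H Q = i then (1 : ℝ) else 0
    have h4 : ((Nat.factorial 5 : ℕ) : ℝ) = 120 := by norm_num [Nat.factorial]
    rw [h3, h4]
    congr 1
    unfold T5
    rw [Finset.card_filter]
    push_cast
    rfl
  have h3 : ∀ S ∈ (univ : Finset (Fin 6)).powersetCard 5,
      ∑ t ∈ inj (Fin n) 6, (if c5 H (S.image t) = i then (1 : ℝ) else 0) =
        ((n : ℝ) - 5) * (120 * (T5 H i : ℝ)) := by
    intro S hS
    obtain ⟨j, hj, hjS⟩ := exists_inj5 S (Finset.mem_powersetCard.mp hS).2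
    have h4 : ∀ t : Fin 6 → Fin n, (if c5 H (S.image t) = i then (1 : ℝ) else 0) =
        (fun p : Fin 5 → Fin n => if c5 H (univ.image p) = i then (1 : ℝ) else 0) (t ∘ j) := by
      intro t
      show _ = if c5 H (univ.image (t ∘ j)) = i then (1 : ℝ) else 0
      rw [← Finset.image_image, hjS]
    rw [Finset.sum_congr rfl fun t _ => h4 t]
    have h5 := sum_inj_comp (V := Fin n) 1
      (fun p : Fin 5 → Fin n => if c5 H (univ.image p) = i then (1 : ℝ) else 0) j hj
    have h6 := sum_inj_castAdd (V := Fin n)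
      (fun p : Fin 5 → Fin n => if c5 H (univ.image p) = i then (1 : ℝ) else 0) 1
    rw [Fintype.card_fin, h2] at h6
    refine (h5.trans h6).trans ?_
    rw [Finset.prod_range_one]
    push_cast
    ring
  rw [Finset.sum_congr rfl h3, Finset.sum_const, Finset.card_powersetCard, Finset.card_univ,
    Fintype.card_fin, nsmul_eq_mul]
  have h7 : ((Nat.choose 6 5 : ℕ) : ℝ) = 6 := by norm_num [Nat.choose]
  rw [h7]
  ring

/-! ### Evaluation from the bits -/

/-- The quadruples of six points in colex order. -/
def Qs : List (List ℕ) := [[0, 1, 2, 3], [0, 1, 2, 4], [0, 1, 3, 4], [0, 2, 3, 4], [1, 2, 3, 4],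
  [0, 1, 2, 5], [0, 1, 3, 5], [0, 2, 3, 5], [1, 2, 3, 5], [0, 1, 4, 5], [0, 2, 4, 5], [1, 2, 4, 5],
  [0, 3, 4, 5], [1, 3, 4, 5], [2, 3, 4, 5]]

/-- The quadruple `r` of six points (the same as `K8.q6 6 r`). -/
def qs (r : ℕ) : Finset (Fin 6) := univ.filter fun z => (z : ℕ) ∈ Qs.getD r []

/-- The positions of the quadruples of the 5-set without the point `v`. -/
def L5 (v : ℕ) : List ℕ := [[4, 8, 11, 13, 14], [3, 7, 10, 12, 14], [2, 6, 9, 12, 13],
  [1, 5, 9, 10, 11], [0, 5, 6, 7, 8], [0, 1, 2, 3, 4]].getD v []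

theorem L5_geo : ∀ v : Fin 6, ((univ : Finset (Fin 6)).erase v).powersetCard 4 =
    (L5 v).toFinset.image qs := by decide +kernel

theorem L5_inj : ∀ v : Fin 6, ∀ r ∈ L5 v, ∀ r' ∈ L5 v, qs r = qs r' → r = r' := by
  decide +kernel

theorem L5_lt : ∀ v : Fin 6, ∀ r ∈ L5 v, r < 15 := by decide +kernel

theorem L5_nodup : ∀ v : Fin 6, (L5 v).Nodup := by decide +kernel

theorem five_geo : (univ : Finset (Fin 6)).powersetCard 5 =
    (univ : Finset (Fin 6)).image fun v => (univ : Finset (Fin 6)).erase v := by decide +kernel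

theorem qs_geo : (univ : Finset (Fin 6)).powersetCard 4 = (Finset.range 15).image qs := by
  decide +kernel

theorem qs_inj : ∀ r < 15, ∀ r' < 15, qs r = qs r' → r = r' := by decide +kernel

/-- The number of members of the 5-set without the point `v`. -/
def o5n (b : ℕ → Bool) (v : ℕ) : ℕ := ((L5 v).map fun r => (b r).toNat).sum

theorem o5n_eq (h : Finset (Fin 6) → Bool) (v : Fin 6) :
    ∑ T ∈ ((univ : Finset (Fin 6)).erase v).powersetCard 4, (h T).toNat =
      o5n (fun r => h (qs r)) v := by
  rw [L5_geo v, Finset.sum_image fun a ha b hb hab =>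
    L5_inj v a (List.mem_toFinset.mp ha) b (List.mem_toFinset.mp hb) hab]
  unfold o5n
  exact List.sum_toFinset (fun r => (h (qs r)).toNat) (L5_nodup v)

/-- The number of 5-sets with `i` members from the bits. -/
theorem O5_bits (h : Finset (Fin 6) → Bool) (i : ℕ) :
    O5 h i = ∑ v ∈ Finset.range 6, if o5n (fun r => h (qs r)) v = i then 1 else 0 := by
  classical
  unfold O5
  rw [Finset.card_filter, five_geo, Finset.sum_image]
  · rw [Finset.sum_range]
    refine Finset.sum_congr rfl fun v _ => ?_
    rw [o5n_eq h v]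
  · intro a _ b _ hab
    by_contra hne
    have h1 : a ∈ (univ : Finset (Fin 6)).erase b := Finset.mem_erase.mpr ⟨hne, Finset.mem_univ _⟩
    have h2 : (univ : Finset (Fin 6)).erase a = (univ : Finset (Fin 6)).erase b := hab
    rw [← h2] at h1
    exact absurd h1 (Finset.notMem_erase a _)

/-- The number of 5-sets with `i` members as a function of the code. -/
def O5c (i c : ℕ) : ℕ :=
  ∑ v ∈ Finset.range 6, if o5n (fun r => c.testBit r) v = i then 1 else 0

theorem o5n_congr {b b' : ℕ → Bool} (h : ∀ r < 15, b r = b' r) (v : ℕ) (hv : v < 6) :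
    o5n b v = o5n b' v := by
  unfold o5n
  congr 1
  refine List.map_congr_left fun r hr => ?_
  rw [h r (L5_lt ⟨v, hv⟩ r hr)]

theorem O5_code (h : Finset (Fin 6) → Bool) (i : ℕ) :
    O5 h i = O5c i (idx 15 fun r => h (qs r)) := by
  rw [O5_bits]
  unfold O5c
  refine Finset.sum_congr rfl fun v hv => ?_
  rw [o5n_congr (b := fun r => h (qs r))
    (b' := fun r => (idx 15 fun r => h (qs r)).testBit r) (fun r hr => ?_) v
    (Finset.mem_range.mp hv)]
  show h (qs r) = (idx 15 fun r => h (qs r)).testBit r
  rw [testBit_idx]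
  simp [hr]

/-- The number of members from the bits. -/
theorem S4_bits (h : Finset (Fin 6) → Bool) :
    S4 h = ∑ r ∈ Finset.range 15, ((h (qs r)).toNat : ℤ) := by
  unfold S4
  rw [qs_geo, Finset.sum_image fun a ha b hb hab =>
    qs_inj a (Finset.mem_range.mp ha) b (Finset.mem_range.mp hb) hab]

end Pool.Agent.Lib.MP_afdd4d_co.K9.Star
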