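import Pool.Agent.Lib.MP_afdd4d_co.K9.TwZ
import Pool.Agent.Lib.MP_afdd4d_co.K9.SumO5

/-!
# 4-graphs with copies of `K_5`

The theorem for pairs, relative to the pairs of different colours, for an arbitrary 4-graph and an
arbitrary structure with a small imbalance of the colours: the number of members is at most
`11 / 16 + o (1)` plus a multiple of the number of copies of `K_5`.
-/

namespace Pool.Agent.Lib.MP_afdd4d_co.K9.Star.Tw

open Finset K8
open Pool.Agent.Lib.MP_afdd4d_co.K9.Marks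

/-- The parameters. -/
structure PS where
  dn : ℕ
  dd : ℕ
  sn : ℕ
  sd : ℕ

/-- The condition: a reference structure, all pairs of different colours are in few wrong quadruples
with two vertices of each colour, and the imbalance of the colours is at most `sn / sd`. -/
structure CtS (a : PS) {n : ℕ} (H E : Finset (Finset (Fin n))) (χ : Fin n → Bool) : Prop where
  h4 : ∀ e ∈ H, e.card = 4
  g : ∃ M : Fin n → Fin n → Bool, E = gir χ M (fun _ => false) (fun _ => false)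
  j : PairC a.dn a.dd H E χ
  s : (a.sd : ℤ) * |∑ v : Fin n, sg (χ v)| ≤ a.sn * n

/-- The condition as a family. -/
abbrev CtSX (a : PS) : X3 := fun {_} H E χ => CtS a H E χ

theorem CtS.e4' {a : PS} {n : ℕ} {H E : Finset (Finset (Fin n))} {χ : Fin n → Bool}
    (h : CtS a H E χ) : (∀ e ∈ E, e.card = 4) ∧ EvenH n E := by
  obtain ⟨M, rfl⟩ := h.g
  exact ⟨gir_card _ _ _ _, evenH_gir _ _ _ _⟩

section cols
variable {a : PS} {P : ParX}

/-- The column of a pair of vertices of different colours. -/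
theorem gvS_pair {k : ℕ} (μ : MuX (2 + k)) (j : Fin (2 + k + 2) → Fin 6)
    (hj : Function.Injective j) : GV (CtSX a) P (jCV μ a.dn a.dd j) :=
  gv_jC μ a.dn a.dd j hj fun _ _ _ hx => ⟨hx.h4, hx.e4'.1, hx.j⟩

/-- The bounds of the imbalance. -/
theorem gvS_s (σ : ℤ) (hσ : |σ| ≤ 1) (μ : MuX 5) (j : Fin (5 + 1) → Fin 6)
    (hj : Function.Injective j) : GV (CtSX a) P (sV σ a.sn a.sd μ j) :=
  gv_s σ hσ a.sn a.sd μ j hj fun _ _ _ hx => hx.s

theorem gvS_ss (μ : MuX 4) (j : Fin (4 + 2) → Fin 6) (hj : Function.Injective j) :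
    GV (CtSX a) P (ssV ((a.sn : ℤ) ^ 2) (-(a.sd : ℤ) ^ 2) μ j) :=
  gv_ss _ _ μ j hj fun _ _ _ hx => sq_nonneg_of_s _ hx.s

theorem gvS_sq (μ : MuX 4) (j : Fin (4 + 2) → Fin 6) (hj : Function.Injective j) :
    GV (CtSX a) P (ssV 0 1 μ j) :=
  gv_ss _ _ μ j hj fun _ _ χ _ => by
    rw [zero_mul, zero_add, one_mul]
    exact sq_nonneg _

end cols

/-- The number of members from the sum over the windows, with the copies of `K_5`. -/
theorem cards_of_sumP (N C : ℕ) (ε : ℝ) (hε : 0 < ε) :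
    ∃ δ : ℝ, 0 < δ ∧ ∃ N0 : ℕ, ∀ n : ℕ, N0 ≤ n → ∀ H : Finset (Finset (Fin n)),
      (∀ e ∈ H, e.card = 4) →
      -(δ * (n : ℝ) ^ 6) ≤
        ∑ t ∈ inj (Fin n) 6, (((N * (165 - 16 * S4 (zb H t)) + C * (O5 (zb H t) 5 : ℕ) : ℤ)) : ℝ) →
      (n : ℝ) * (16 * (N * (H.card : ℝ))) ≤ n * ((11 * N + ε) * ((n.choose 4 : ℕ) : ℝ)) +
        4 * C * (T5 H 5 : ℝ) := by
  refine ⟨ε / 2, by positivity, 60, fun n hn H h4 h => ?_⟩
  have h6 : 6 ≤ n := by omega
  have hn0 : (60 : ℝ) ≤ n := by exact_mod_cast hn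
  have e1 : ∑ t ∈ inj (Fin n) 6, (((N * (165 - 16 * S4 (zb H t)) +
      C * (O5 (zb H t) 5 : ℕ) : ℤ)) : ℝ) =
        360 * (PP n 4 2 * (11 * N * ((n.choose 4 : ℕ) : ℝ) - 16 * (N * (H.card : ℝ)))) +
          C * (720 * ((n : ℝ) - 5) * (T5 H 5 : ℝ)) := by
    have e2 : ∀ t : Fin 6 → Fin n, (((N * (165 - 16 * S4 (zb H t)) +
        C * (O5 (zb H t) 5 : ℕ) : ℤ)) : ℝ) =
        165 * (N : ℝ) - 16 * (N * ((S4 (zb H t) : ℤ) : ℝ)) + C * ((O5 (zb H t) 5 : ℕ) : ℝ) := by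
      intro t
      push_cast
      ring
    rw [Finset.sum_congr rfl fun t _ => e2 t, Finset.sum_add_distrib, Finset.sum_sub_distrib,
      ← Finset.mul_sum, ← Finset.mul_sum, ← Finset.mul_sum, ← Finset.mul_sum, sum_S4_eq H h4,
      sumO5 n H 5 h4]
    simp only [Finset.sum_const, nsmul_eq_mul, card_inj, Fintype.card_fin]
    rw [desc6_eq h6]
    ring
  rw [e1] at h
  have hC := choose4_ge n (by omega)
  have hP1 : PP n 4 2 = ((n : ℝ) - 4) * (n - 5) := by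
    unfold PP
    rw [Finset.prod_range_succ, Finset.prod_range_succ, Finset.prod_range_zero]
    push_cast
    ring
  set X : ℝ := 11 * N * ((n.choose 4 : ℕ) : ℝ) - 16 * (N * (H.card : ℝ)) with hX
  have hP0 : 0 < PP n 4 2 := by
    rw [hP1]
    exact mul_pos (by linarith) (by linarith)
  have hpow : (n : ℝ) ^ 6 ≤ 360 * (PP n 4 2 * ((n.choose 4 : ℕ) : ℝ)) := by
    have h7 : (n : ℝ) ^ 4 / 40 ≤ ((n.choose 4 : ℕ) : ℝ) := by
      refine le_trans ?_ hC
      have h8 : (n : ℝ) ^ 3 * 60 ≤ (n : ℝ) ^ 3 * n := mul_le_mul_of_nonneg_left hn0 (by positivity)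
      have e : (n : ℝ) ^ 3 * n = (n : ℝ) ^ 4 := by ring
      rw [e] at h8
      have h9 : 0 ≤ (n : ℝ) ^ 4 := by positivity
      linarith
    have h8 : (n : ℝ) ^ 2 / 2 ≤ PP n 4 2 := by
      rw [hP1]
      nlinarith
    calc (n : ℝ) ^ 6 ≤ 360 * ((n : ℝ) ^ 2 / 2 * ((n : ℝ) ^ 4 / 40)) := by
          have h9 : 0 ≤ (n : ℝ) ^ 6 := by positivity
          have e : 360 * ((n : ℝ) ^ 2 / 2 * ((n : ℝ) ^ 4 / 40)) = 9 / 2 * (n : ℝ) ^ 6 := by ring
          rw [e]
          linarith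
      _ ≤ 360 * (PP n 4 2 * ((n.choose 4 : ℕ) : ℝ)) := by
          refine mul_le_mul_of_nonneg_left ?_ (by norm_num)
          exact mul_le_mul h8 h7 (by positivity) hP0.le
  set T : ℝ := (T5 H 5 : ℝ) with hT
  have hT0 : 0 ≤ T := Nat.cast_nonneg _
  have hCC : (0 : ℝ) ≤ C := Nat.cast_nonneg _
  have h10 : -(ε / 2 * (360 * (PP n 4 2 * ((n.choose 4 : ℕ) : ℝ)))) ≤
      360 * (PP n 4 2 * X) + C * (720 * ((n : ℝ) - 5) * T) := by
    have h11 := mul_le_mul_of_nonneg_left hpow (by positivity : (0 : ℝ) ≤ ε / 2)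
    linarith
  -- multiply by `n / (360 * PP)`
  have h12 : C * (720 * ((n : ℝ) - 5) * T) * n ≤ 360 * (PP n 4 2 * (4 * C * T)) := by
    rw [hP1]
    have e : 360 * (((n : ℝ) - 4) * (n - 5) * (4 * C * T)) - C * (720 * ((n : ℝ) - 5) * T) * n =
        720 * (C * T) * ((n - 5) * (n - 8)) := by ring
    have h13 : (0 : ℝ) ≤ 720 * (C * T) * ((n - 5) * (n - 8)) :=
      mul_nonneg (by positivity) (mul_nonneg (by linarith) (by linarith))
    linarith
  have h13 : 360 * (PP n 4 2 * (-(ε / 2 * ((n.choose 4 : ℕ) : ℝ)) * n)) ≤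
      360 * (PP n 4 2 * (X * n + 4 * C * T)) := by
    have h14 := mul_le_mul_of_nonneg_right h10 (by linarith : (0 : ℝ) ≤ n)
    have e2 : (360 * (PP n 4 2 * X) + C * (720 * ((n : ℝ) - 5) * T)) * n =
        360 * (PP n 4 2 * (X * n)) + C * (720 * ((n : ℝ) - 5) * T) * n := by ring
    have e3 : -(ε / 2 * (360 * (PP n 4 2 * ((n.choose 4 : ℕ) : ℝ)))) * n =
        360 * (PP n 4 2 * (-(ε / 2 * ((n.choose 4 : ℕ) : ℝ)) * n)) := by ring
    have e4 : 360 * (PP n 4 2 * (X * n + 4 * C * T)) =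
        360 * (PP n 4 2 * (X * n)) + 360 * (PP n 4 2 * (4 * C * T)) := by ring
    rw [e2, e3] at h14
    rw [e4]
    linarith
  have h15 := le_of_mul_le_mul_left (le_of_mul_le_mul_left h13 (by norm_num)) hP0
  have h16 : (0 : ℝ) ≤ ε / 2 * ((n.choose 4 : ℕ) : ℝ) * n := by positivity
  have e5 : X * n = n * ((11 * N + ε) * ((n.choose 4 : ℕ) : ℝ)) - n * (16 * (N * (H.card : ℝ))) -
      2 * (ε / 2 * ((n.choose 4 : ℕ) : ℝ) * n) := by
    rw [hX]
    ring
  rw [e5] at h15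
  linarith

theorem O5_pos (K : Finset (Fin 6) → Bool) (h4 : ∀ T : Finset (Fin 6), T.card ≠ 4 → K T = false)
    (h : ¬K5w K) : 1 ≤ O5 K 5 := by
  classical
  have h1 : ∃ S : Finset (Fin 6), S.card = 5 ∧ ∀ T ∈ S.powersetCard 4, K T = true := by
    by_contra h2
    push Not at h2
    apply h
    refine ⟨fun S hS => ?_, h4⟩
    obtain ⟨T, hT, hK⟩ := h2 S hS
    exact ⟨T, hT, by simpa using hK⟩
  obtain ⟨S, hS, hT⟩ := h1
  unfold O5
  rw [Nat.one_le_iff_ne_zero, ← Nat.pos_iff_ne_zero, Finset.card_pos]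
  refine ⟨S, Finset.mem_filter.mpr ⟨Finset.mem_powersetCard.mpr ⟨Finset.subset_univ _, hS⟩, ?_⟩⟩
  rw [Finset.sum_congr rfl fun T hT' => by rw [hT T hT'], Finset.sum_const, Finset.card_powersetCard,
    hS]
  decide

/-- The theorem for an arbitrary 4-graph from the inequality on all windows, with a penalty `p` for
every copy of `K_5`. -/
theorem t4Z (a : PS) (N p : ℕ) (hN : 0 < N) (Z : Fn3)
    (hv : GoodP (CtSX a) (fun H E χ t => Z H E χ t))
    (hrow : ∀ {n : ℕ} (H E : Finset (Finset (Fin n))) (χ : Fin n → Bool), CtS a H E χ →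
      ∀ t : Fin 6 → Fin n, Function.Injective t →
        Z H E χ t ≤ N * (165 - 16 * S4 (zb H t)) + p * (O5 (zb H t) 5 : ℕ)) :
    ∀ ε : ℝ, 0 < ε → ∃ N0 : ℕ, ∀ n : ℕ, N0 ≤ n →
      ∀ (H : Finset (Finset (Fin n))) (χ : Fin n → Bool) (M : Fin n → Fin n → Bool),
      (∀ e ∈ H, e.card = 4) →
      (∀ x y : Fin n, χ x = false → χ y = true →
        a.dd * ((symmDiff H (gir χ M (fun _ => false) (fun _ => false))).filter fun Q =>
          x ∈ Q ∧ y ∈ Q ∧ (Q.filter fun v => χ v = true).card = 2).card ≤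
          a.dn * ((univ.filter fun v => χ v = false).card *
            (univ.filter fun v => χ v = true).card)) →
      (a.sd : ℤ) * |∑ v : Fin n, sg (χ v)| ≤ a.sn * n →
      (n : ℝ) * (H.card : ℝ) ≤ n * (((11 / 16 : ℝ) + ε) * ((n.choose 4 : ℕ) : ℝ)) +
        (p : ℝ) / (4 * N) * (T5 H 5 : ℝ) := by
  intro ε hε
  have hN' : (0 : ℝ) < N := by exact_mod_cast hN
  obtain ⟨δ, hδ, N1, hN1⟩ := cards_of_sumP N p (16 * (N * ε)) (by positivity)
  obtain ⟨N2, hN2⟩ := hv δ hδ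
  refine ⟨max N1 N2, fun n hn H χ M hH hj hs => ?_⟩
  set E := gir χ M (fun _ => false) (fun _ => false) with hE
  have hc : CtS a H E χ := ⟨hH, ⟨M, hE⟩, fun x y hx hy => hj x y hx hy, hs⟩
  have h1 := hN2 n (le_trans (le_max_right _ _) hn) H E χ hc
  have h2 := hN1 n (le_trans (le_max_left _ _) hn) H hH (le_trans h1
    (Finset.sum_le_sum fun t ht => by exact_mod_cast hrow H E χ hc t (mem_inj.mp ht)))
  have h3 : 16 * N * ((n : ℝ) * (H.card : ℝ)) ≤ 16 * N *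
      (n * (((11 / 16 : ℝ) + ε) * ((n.choose 4 : ℕ) : ℝ)) +
        (p : ℝ) / (4 * N) * (T5 H 5 : ℝ)) := by
    have e1 : 16 * (N : ℝ) * (n * (((11 / 16 : ℝ) + ε) * ((n.choose 4 : ℕ) : ℝ)) +
        (p : ℝ) / (4 * N) * (T5 H 5 : ℝ)) =
        n * ((11 * N + 16 * (N * ε)) * ((n.choose 4 : ℕ) : ℝ)) + 4 * p * (T5 H 5 : ℝ) := by
      field_simp
      ring
    rw [e1]
    linarith
  exact le_of_mul_le_mul_left h3 (by positivity)

/-- The theorem for an arbitrary 4-graph from the inequality on the windows without `K_5`. -/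
theorem locS (a : PS) (N C : ℕ) (hN : 0 < N) (Z : Fn3)
    (hv : GoodP (CtSX a) (fun H E χ t => Z H E χ t))
    (hb : ∀ {n : ℕ} (H E : Finset (Finset (Fin n))) (χ : Fin n → Bool) (t : Fin 6 → Fin n),
      Z H E χ t ≤ C)
    (hrow : ∀ {n : ℕ} (H E : Finset (Finset (Fin n))) (χ : Fin n → Bool), CtS a H E χ →
      ∀ t : Fin 6 → Fin n, Function.Injective t → K5w (zb H t) →
        Z H E χ t ≤ N * (165 - 16 * S4 (zb H t))) :
    ∀ ε : ℝ, 0 < ε → ∃ N0 : ℕ, ∀ n : ℕ, N0 ≤ n →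
      ∀ (H : Finset (Finset (Fin n))) (χ : Fin n → Bool) (M : Fin n → Fin n → Bool),
      (∀ e ∈ H, e.card = 4) →
      (∀ x y : Fin n, χ x = false → χ y = true →
        a.dd * ((symmDiff H (gir χ M (fun _ => false) (fun _ => false))).filter fun Q =>
          x ∈ Q ∧ y ∈ Q ∧ (Q.filter fun v => χ v = true).card = 2).card ≤
          a.dn * ((univ.filter fun v => χ v = false).card *
            (univ.filter fun v => χ v = true).card)) →
      (a.sd : ℤ) * |∑ v : Fin n, sg (χ v)| ≤ a.sn * n →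
      (n : ℝ) * (H.card : ℝ) ≤ n * (((11 / 16 : ℝ) + ε) * ((n.choose 4 : ℕ) : ℝ)) +
        ((C + 75 * N : ℕ) : ℝ) / (4 * N) * (T5 H 5 : ℝ) := by
  refine t4Z a N (C + 75 * N) hN Z hv fun {n} H E χ hc t ht => ?_
  have hz : ∀ T : Finset (Fin 6), zb H t T = decide (T.image t ∈ H) := by
    intro T
    rw [zb_eq]
    rfl
  have h4 : ∀ T : Finset (Fin 6), T.card ≠ 4 → zb H t T = false := by
    intro T hT
    rw [hz, decide_eq_false_iff_not]
    intro h5
    exact hT (by rw [← hc.h4 _ h5, Finset.card_image_of_injective _ ht])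
  have hS : (S4 (zb H t) : ℤ) ≤ 15 := by
    unfold S4
    refine le_trans (Finset.sum_le_sum (g := fun _ => (1 : ℤ)) fun Q _ => ?_) ?_
    · cases zb H t Q <;> decide
    · rw [Finset.sum_const, Finset.card_powersetCard, Finset.card_univ, Fintype.card_fin]
      decide
  by_cases hK : K5w (zb H t)
  · have h6 := hrow H E χ hc t ht hK
    have h7 : (0 : ℤ) ≤ ((C + 75 * N : ℕ) : ℤ) * ((O5 (zb H t) 5 : ℕ) : ℤ) := by positivity
    linarith
  · have h6 := O5_pos _ h4 hK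
    have h7 : (1 : ℤ) ≤ ((O5 (zb H t) 5 : ℕ) : ℤ) := by exact_mod_cast h6
    have h8 := hb H E χ t
    have h9 : ((C + 75 * N : ℕ) : ℤ) * 1 ≤ ((C + 75 * N : ℕ) : ℤ) * ((O5 (zb H t) 5 : ℕ) : ℤ) :=
      mul_le_mul_of_nonneg_left h7 (by positivity)
    have h10 : (N : ℤ) * (-75) ≤ N * (165 - 16 * S4 (zb H t)) :=
      mul_le_mul_of_nonneg_left (by linarith) (by positivity)
    push_cast at h9 ⊢
    linarith

end Pool.Agent.Lib.MP_afdd4d_co.K9.Star.Tw
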