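import Pool.Agent.Lib.MP_afdd4d_co.K9.TwStr
import Pool.Agent.Lib.MP_afdd4d_co.MC.Gir

/-!
# Giraud's families

The reference structures without flips are Giraud's families, and the local theorems for them.
-/

namespace Pool.Agent.Lib.MP_afdd4d_co.K9.Star.Tw

open Finset K8
open Pool.Agent.Lib.MP_afdd4d_co.K9.Marks

theorem bz_sum_odd {ι : Type*} (s : Finset ι) (F : ι → Bool) :
    oddB (∑ i ∈ s, bz (F i)) = decide (Odd (s.filter fun i => F i = true).card) := by
  classical
  have h1 : ∑ i ∈ s, bz (F i) = (((s.filter fun i => F i = true).card : ℕ) : ZMod 2) := by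
    rw [Finset.card_filter]
    push_cast
    refine Finset.sum_congr rfl fun i _ => ?_
    cases F i <;> rfl
  rw [h1]
  unfold oddB
  rw [decide_eq_decide]
  constructor
  · intro h
    exact (ZMod.natCast_eq_one_iff_odd).mp h
  · intro h
    exact (ZMod.natCast_eq_one_iff_odd).mpr h

theorem bz_sum_odd2 {ι κ : Type*} (s : Finset ι) (t : Finset κ) (F : ι → κ → Bool) :
    oddB (∑ i ∈ s, ∑ j ∈ t, bz (F i j)) =
      decide (Odd ((s ×ˢ t).filter fun p => F p.1 p.2 = true).card) := by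
  rw [← bz_sum_odd (s ×ˢ t) fun p => F p.1 p.2, Finset.sum_product]

theorem girB_two_odd {n : ℕ} (χ : Fin n → Bool) (M : Fin n → Fin n → Bool) (Q : Finset (Fin n)) :
    oddB (∑ a ∈ Q.filter (fun v => χ v = false), ∑ b ∈ Q.filter (fun v => χ v = true),
      bz (M b a)) =
      decide (Odd ((Q ×ˢ Q).filter fun p => χ p.1 = true ∧ χ p.2 = false ∧ M p.1 p.2 = true).card) := by
  rw [bz_sum_odd2 _ _ fun a b => M b a]
  have h : (((Q.filter fun v => χ v = false) ×ˢ Q.filter fun v => χ v = true).filter fun p =>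
      M p.2 p.1 = true).card =
      ((Q ×ˢ Q).filter fun p => χ p.1 = true ∧ χ p.2 = false ∧ M p.1 p.2 = true).card := by
    refine Finset.card_bij (fun p _ => (p.2, p.1)) ?_ ?_ ?_
    · rintro ⟨a, b⟩ hp
      simp only [Finset.mem_filter, Finset.mem_product] at hp ⊢
      exact ⟨⟨hp.1.2.1, hp.1.1.1⟩, hp.1.2.2, hp.1.1.2, hp.2⟩
    · rintro ⟨a, b⟩ _ ⟨a', b'⟩ _ hab
      simp only [Prod.mk.injEq] at hab ⊢
      exact ⟨hab.2, hab.1⟩
    · rintro ⟨b, a⟩ hp
      simp only [Finset.mem_filter, Finset.mem_product] at hp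
      refine ⟨(a, b), ?_, rfl⟩
      simp only [Finset.mem_filter, Finset.mem_product]
      exact ⟨⟨⟨hp.1.2, hp.2.2.1⟩, hp.1.1, hp.2.1⟩, hp.2.2.2⟩
  rw [h]

/-- The reference structure without flips is Giraud's family. -/
theorem gir_eq_Gir {n : ℕ} (χ : Fin n → Bool) (M : Fin n → Fin n → Bool) :
    gir χ (fun a b => M b a) (fun _ => false) (fun _ => false) = MC.Gir χ M := by
  ext Q
  unfold gir MC.Gir
  rw [Finset.mem_filter, Finset.mem_filter]
  refine and_congr_right fun hQ => ?_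
  have hQ4 : Q.card = 4 := (Finset.mem_powersetCard.mp hQ).2
  have hle : (Q.filter fun v => χ v = true).card ≤ 4 := by
    rw [← hQ4]
    exact Finset.card_filter_le _ _
  have h0 : oddB (∑ _q ∈ Q, bz false) = false := by
    have e : bz false = 0 := by decide
    rw [e, Finset.sum_const_zero]
    decide
  unfold girB
  rw [girB_two_odd, h0]
  generalize (Q.filter fun v => χ v = true).card = k at hle ⊢
  interval_cases k
  · simp
  · simp
  · simp
  · simp [Nat.odd_iff]
  · simp [Nat.odd_iff]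

/-- The theorem for the nearest even 4-graph in terms of Giraud's families. -/
theorem prodE_Gir {c κ : ℝ}
    (h : ∀ ε : ℝ, 0 < ε → ∃ N0 : ℕ, ∀ n : ℕ, N0 ≤ n → ∀ (H : Finset (Finset (Fin n)))
      (χ : Fin n → Bool) (M : Fin n → Fin n → Bool),
      (∀ e ∈ H, e.card = 4) →
      (∀ S : Finset (Fin n), S.card = 5 → ∃ e ∈ S.powersetCard 4, e ∉ H) →
      (∀ E' : Finset (Finset (Fin n)), (∀ e ∈ E', e.card = 4) → EvenH n E' →
        (symmDiff H (gir χ M (fun _ => false) (fun _ => false))).card ≤ (symmDiff H E').card) →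
      (H.card : ℝ) + c * ((symmDiff H (gir χ M (fun _ => false) (fun _ => false))).card : ℝ) ≤
        ((11 / 16 : ℝ) + ε) * ((n.choose 4 : ℕ) : ℝ) +
          κ * ((11 / 16 : ℝ) * ((n.choose 4 : ℕ) : ℝ) -
            ((gir χ M (fun _ => false) (fun _ => false)).card : ℝ))) :
    ∀ ε : ℝ, 0 < ε → ∃ N0 : ℕ, ∀ n : ℕ, N0 ≤ n → ∀ (H : Finset (Finset (Fin n)))
      (χ : Fin n → Bool) (M : Fin n → Fin n → Bool),
      (∀ e ∈ H, e.card = 4) →
      (∀ S : Finset (Fin n), S.card = 5 → ∃ e ∈ S.powersetCard 4, e ∉ H) →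
      (∀ E : Finset (Finset (Fin n)), (∀ e ∈ E, e.card = 4) →
        (∀ S : Finset (Fin n), S.card = 5 →
          Even ((S.powersetCard 4).filter fun e => e ∈ E).card) →
        (symmDiff H (MC.Gir χ M)).card ≤ (symmDiff H E).card) →
      (H.card : ℝ) + c * ((symmDiff H (MC.Gir χ M)).card : ℝ) ≤
        ((11 / 16 : ℝ) + ε) * ((n.choose 4 : ℕ) : ℝ) +
          κ * ((11 / 16 : ℝ) * ((n.choose 4 : ℕ) : ℝ) - ((MC.Gir χ M).card : ℝ)) := by
  intro ε hε
  obtain ⟨N0, hN0⟩ := h ε hε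
  refine ⟨N0, fun n hn H χ M hH hK hopt => ?_⟩
  have h1 := hN0 n hn H χ (fun a b => M b a) hH hK
  rw [gir_eq_Gir] at h1
  exact h1 fun E' h4' hE' => hopt E' h4' hE'

/-- The theorem for the quadruples with two vertices of each colour in terms of Giraud's families. -/
theorem locC_Gir {c κ : ℝ} {dn dd : ℕ}
    (h : ∀ ε : ℝ, 0 < ε → ∃ N0 : ℕ, ∀ n : ℕ, N0 ≤ n → ∀ (H : Finset (Finset (Fin n)))
      (χ : Fin n → Bool) (M : Fin n → Fin n → Bool),
      (∀ e ∈ H, e.card = 4) →
      (∀ S : Finset (Fin n), S.card = 5 → ∃ e ∈ S.powersetCard 4, e ∉ H) →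
      (∀ x y : Fin n, χ x = false → χ y = true →
        dd * ((symmDiff H (gir χ M (fun _ => false) (fun _ => false))).filter fun Q =>
          x ∈ Q ∧ y ∈ Q ∧ (Q.filter fun v => χ v = true).card = 2).card ≤
          dn * ((univ.filter fun v => χ v = false).card *
            (univ.filter fun v => χ v = true).card)) →
      (H.card : ℝ) + c *
          (((symmDiff H (gir χ M (fun _ => false) (fun _ => false))).filter fun Q =>
            (Q.filter fun v => χ v = true).card = 2).card : ℝ) ≤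
        ((11 / 16 : ℝ) + ε) * ((n.choose 4 : ℕ) : ℝ) +
        κ * ((11 / 16 : ℝ) * ((n.choose 4 : ℕ) : ℝ) -
          ((gir χ M (fun _ => false) (fun _ => false)).card : ℝ))) :
    ∀ ε : ℝ, 0 < ε → ∃ N0 : ℕ, ∀ n : ℕ, N0 ≤ n → ∀ (H : Finset (Finset (Fin n)))
      (χ : Fin n → Bool) (M : Fin n → Fin n → Bool),
      (∀ e ∈ H, e.card = 4) →
      (∀ S : Finset (Fin n), S.card = 5 → ∃ e ∈ S.powersetCard 4, e ∉ H) →
      (∀ x y : Fin n, χ x = true → χ y = false →
        dd * ((symmDiff H (MC.Gir χ M)).filter fun Q =>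
          x ∈ Q ∧ y ∈ Q ∧ (Q.filter fun v => χ v = true).card = 2).card ≤
          dn * ((univ.filter fun v => χ v = true).card *
            (univ.filter fun v => χ v = false).card)) →
      (H.card : ℝ) + c *
          (((symmDiff H (MC.Gir χ M)).filter fun Q =>
            (Q.filter fun v => χ v = true).card = 2).card : ℝ) ≤
        ((11 / 16 : ℝ) + ε) * ((n.choose 4 : ℕ) : ℝ) +
        κ * ((11 / 16 : ℝ) * ((n.choose 4 : ℕ) : ℝ) - ((MC.Gir χ M).card : ℝ)) := by
  intro ε hε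
  obtain ⟨N0, hN0⟩ := h ε hε
  refine ⟨N0, fun n hn H χ M hH hK hj => ?_⟩
  have h1 := hN0 n hn H χ (fun a b => M b a) hH hK
  rw [gir_eq_Gir] at h1
  refine h1 fun x y hx hy => ?_
  have h2 := hj y x hy hx
  rw [Nat.mul_comm (univ.filter fun v => χ v = false).card]
  refine le_trans (le_of_eq ?_) h2
  congr 2
  refine Finset.filter_congr fun Q _ => ?_
  constructor
  · rintro ⟨a, b, c⟩
    exact ⟨b, a, c⟩
  · rintro ⟨a, b, c⟩
    exact ⟨b, a, c⟩

end Pool.Agent.Lib.MP_afdd4d_co.K9.Star.Tw
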