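import Pool.Agent.Lib.MP_afdd4d_co.K9.T4K

/-!
# Pointed colourings of even 4-graphs

Every vertex `r` of a 4-graph has a link, a 3-graph, and a colouring of the vertices by the size of
their codegrees with `r`.  Local inequalities about the links and these colourings on six vertices,
together with a local inequality about even 4-graphs on eight vertices, give a vertex whose colouring
has few defects.
-/

namespace Pool.Agent.Lib.MP_afdd4d_co.K9.Star

open Finset K8

section defs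
variable {n : ℕ}

/-- The link of a vertex. -/
def Lk (E : Finset (Finset (Fin n))) (r : Fin n) : Finset (Finset (Fin n)) :=
  ((univ : Finset (Fin n)).powersetCard 3).filter fun T => r ∉ T ∧ insert r T ∈ E

/-- The number of ordered pairs that form a quadruple of `E` with two given vertices. -/
def cdg (E : Finset (Finset (Fin n))) (r x : Fin n) : ℤ :=
  ∑ y : Fin n, ∑ z : Fin n, ((mE E {r, x, y, z}).toNat : ℤ)

/-- The colouring of a vertex. -/
def pc (E : Finset (Finset (Fin n))) (r : Fin n) : Fin n → Bool :=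
  fun x => decide (11 * (n : ℤ) ^ 2 ≤ 16 * cdg E r x)

/-- The defining property of the colouring. -/
theorem pc_sign (E : Finset (Finset (Fin n))) (r x : Fin n) :
    0 ≤ sg (pc E r x) * (11 * (n : ℤ) ^ 2 - 16 * cdg E r x) := by
  unfold pc sg
  by_cases h : 11 * (n : ℤ) ^ 2 ≤ 16 * cdg E r x
  · rw [decide_eq_true h]
    simp only [if_true]
    linarith
  · rw [decide_eq_false h]
    simp only [Bool.false_eq_true, if_false]
    linarith

end defs

/-- Functions of a 4-graph, a vertex and a six-tuple. -/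
abbrev FunP := ∀ {n : ℕ}, Finset (Finset (Fin n)) → Fin n → (Fin 6 → Fin n) → ℤ

/-- The sum over the injective six-tuples is at least `- C n ^ 5`. -/
def PG (Z : FunP) : Prop :=
  ∃ C : ℝ, 0 ≤ C ∧ ∀ (n : ℕ) (E : Finset (Finset (Fin n))), (∀ e ∈ E, e.card = 4) → EvenH n E →
    ∀ r : Fin n, -(C * (n : ℝ) ^ 5) ≤ ∑ x ∈ inj (Fin n) 6, ((Z E r x : ℤ) : ℝ)

theorem PG.add {Z Z' : FunP} (h : PG Z) (h' : PG Z') : PG (fun E r x => Z E r x + Z' E r x) := by
  obtain ⟨C, hC, h1⟩ := h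
  obtain ⟨C', hC', h1'⟩ := h'
  refine ⟨C + C', by positivity, fun n E h4 hE r => ?_⟩
  have a := h1 n E h4 hE r
  have b := h1' n E h4 hE r
  simp_rw [Int.cast_add]
  rw [Finset.sum_add_distrib]
  have e : (C + C') * (n : ℝ) ^ 5 = C * (n : ℝ) ^ 5 + C' * (n : ℝ) ^ 5 := by ring
  linarith

theorem PG.smul {Z : FunP} (w : ℕ) (h : PG Z) : PG (fun E r x => (w : ℤ) * Z E r x) := by
  obtain ⟨C, hC, h1⟩ := h
  refine ⟨w * C, by positivity, fun n E h4 hE r => ?_⟩
  have a := h1 n E h4 hE r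
  simp_rw [Int.cast_mul]
  rw [← Finset.mul_sum]
  have e : (w : ℝ) * -(C * (n : ℝ) ^ 5) = -(w * C * (n : ℝ) ^ 5) := by ring
  rw [← e]
  push_cast
  exact mul_le_mul_of_nonneg_left a (Nat.cast_nonneg _)

theorem PG.zero : PG (fun _ _ _ => 0) :=
  ⟨0, le_refl _, fun n E _ _ r => by simp⟩

theorem PG.sum {ι : Type*} (s : Finset ι) (Z : ι → FunP) (h : ∀ i ∈ s, PG (Z i)) :
    PG (fun E r x => ∑ i ∈ s, Z i E r x) := by
  classical
  induction s using Finset.induction_on with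
  | empty =>
    simp only [Finset.sum_empty]
    exact PG.zero
  | insert a s ha ih =>
    have h1 := PG.add (h a (Finset.mem_insert_self _ _))
      (ih fun i hi => h i (Finset.mem_insert_of_mem hi))
    have e : (fun {n : ℕ} (E : Finset (Finset (Fin n))) (r : Fin n) (x : Fin 6 → Fin n) =>
        ∑ i ∈ insert a s, Z i E r x) =
        fun {n : ℕ} (E : Finset (Finset (Fin n))) (r : Fin n) (x : Fin 6 → Fin n) =>
          Z a E r x + ∑ i ∈ s, Z i E r x := by
      funext n E r x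
      rw [Finset.sum_insert ha]
    rw [e]
    exact h1

theorem desc6_ge (n : ℕ) : (n : ℝ) ^ 6 - (n.descFactorial 6 : ℝ) ≤ 15 * (n : ℝ) ^ 5 := by
  rcases Nat.lt_or_ge n 6 with h | h
  · have h2 : (n : ℝ) ≤ 6 := by exact_mod_cast h.le
    have h3 : (0 : ℝ) ≤ (n.descFactorial 6 : ℝ) := Nat.cast_nonneg _
    have h4 : (n : ℝ) ^ 6 ≤ 6 * (n : ℝ) ^ 5 := by
      calc (n : ℝ) ^ 6 = n * (n : ℝ) ^ 5 := by ring
        _ ≤ 6 * (n : ℝ) ^ 5 := mul_le_mul_of_nonneg_right h2 (by positivity)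
    have h5 : (0 : ℝ) ≤ (n : ℝ) ^ 5 := by positivity
    linarith
  · obtain ⟨m, rfl⟩ := Nat.exists_eq_add_of_le h
    have h1 : (((6 + m).descFactorial 6 : ℕ) : ℝ) =
        (6 + m) * (5 + m) * (4 + m) * (3 + m) * (2 + m) * (1 + m) := by
      have h2 : (6 + m).descFactorial 6 =
          (6 + m) * (5 + m) * (4 + m) * (3 + m) * (2 + m) * (1 + m) := by
        simp only [Nat.descFactorial_succ, Nat.descFactorial_zero]
        have e1 : 6 + m - 5 = 1 + m := by omega
        have e2 : 6 + m - 4 = 2 + m := by omega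
        have e3 : 6 + m - 3 = 3 + m := by omega
        have e4 : 6 + m - 2 = 4 + m := by omega
        have e5 : 6 + m - 1 = 5 + m := by omega
        rw [e1, e2, e3, e4, e5]
        simp only [Nat.sub_zero]
        ring
      rw [h2]
      push_cast
      ring
    rw [h1]
    push_cast
    have e : 15 * ((6 : ℝ) + m) ^ 5 - ((6 + m) ^ 6 -
        (6 + m) * (5 + m) * (4 + m) * (3 + m) * (2 + m) * (1 + m)) =
        85 * (m : ℝ) ^ 4 + 1815 * (m : ℝ) ^ 3 + 14584 * (m : ℝ) ^ 2 + 52308 * m + 70704 := by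
      ring
    have : 0 ≤ 85 * (m : ℝ) ^ 4 + 1815 * m ^ 3 + 14584 * m ^ 2 + 52308 * m + 70704 := by
      positivity
    linarith

/-- Functions with nonnegative sum over all tuples. -/
theorem PG.tot {k : ℕ} (Z : ∀ {n : ℕ}, Finset (Finset (Fin n)) → Fin n → (Fin k → Fin n) → ℤ)
    (C : ℝ) (hC : 0 ≤ C)
    (h1 : ∀ {n : ℕ} (E : Finset (Finset (Fin n))) (r : Fin n), (∀ e ∈ E, e.card = 4) →
      0 ≤ ∑ p, ((Z E r p : ℤ) : ℝ))
    (h2 : ∀ {n : ℕ} (E : Finset (Finset (Fin n))) (r : Fin n) (p : Fin k → Fin n),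
      ((Z E r p : ℤ) : ℝ) ≤ C)
    (j : Fin k → Fin 6) (hj : Function.Injective j) : PG (fun E r x => Z E r (x ∘ j)) := by
  refine ⟨15 * C, by positivity, fun n E h4 _ r => ?_⟩
  have h := inj_comp_ge' (V := Fin n) (fun p => ((Z E r p : ℤ) : ℝ)) C (h1 E r h4)
    (h2 E r) j hj
  rw [Fintype.card_fin] at h
  refine le_trans ?_ h
  have := mul_le_mul_of_nonneg_left (desc6_ge n) hC
  linarith

/-- A coloured kernel at some of the six vertices. -/
theorem PG.ck {k m : ℕ} (κ : CK k m) (hκ : 0 ≤ κ.C) (j : Fin (k + (m + m)) → Fin 6)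
    (hj : Function.Injective j) :
    PG (fun E r x => κ.val (Lk E r) (Lk E r) (pc E r) (x ∘ j)) :=
  PG.tot (fun E r p => κ.val (Lk E r) (Lk E r) (pc E r) p) κ.C hκ
    (fun E r _ => CK_tot κ (Lk E r) (Lk E r) (pc E r))
    (fun E r _ => κ.bd (Lk E r) (Lk E r) (pc E r) _ _ _) j hj

/-- A coloured kernel with flags of one vertex at all pairs of the six vertices. -/
theorem PG.ps (κ : CK 4 1) (hκ : 0 ≤ κ.C) :
    PG (fun E r x => PS (k := 4) (fun s u w =>
      κ.f (Lk E r) (Lk E r) (pc E r) s (fun _ => u) (fun _ => w)) x) := by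
  refine ⟨450 * κ.C, by positivity, fun n E _ _ r => ?_⟩
  have h := PS_inj_ge (V := Fin n) (k := 4) 0 (fun s u w =>
    ((κ.f (Lk E r) (Lk E r) (pc E r) s (fun _ => u) (fun _ => w) : ℤ) : ℝ)) κ.C (by
      intro s
      have h1 := κ.psd (Lk E r) (Lk E r) (pc E r) s
      rw [← (Equiv.funUnique (Fin 1) (Fin n)).symm.sum_comp] at h1
      refine le_trans h1 (le_of_eq (Finset.sum_congr rfl fun x _ => ?_))
      rw [← (Equiv.funUnique (Fin 1) (Fin n)).symm.sum_comp]
      rfl) (fun s u w => κ.bd (Lk E r) (Lk E r) (pc E r) s _ _) id Function.injective_id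
  rw [Fintype.card_fin] at h
  have e3 : ∀ t : Fin 6 → Fin n, ((PS (k := 4) (fun s u w =>
      κ.f (Lk E r) (Lk E r) (pc E r) s (fun _ => u) (fun _ => w)) t : ℤ) : ℝ) =
      PS (k := 4) (fun s u w =>
        ((κ.f (Lk E r) (Lk E r) (pc E r) s (fun _ => u) (fun _ => w) : ℤ) : ℝ)) t :=
    fun t => cast_PS _ t
  rw [Finset.sum_congr rfl fun t _ => e3 t]
  refine le_trans ?_ h
  have h2 := mul_le_mul_of_nonneg_left (desc6_ge n) hκ
  have e4 : (((4 + 2 : ℕ) : ℝ) * ((4 + 1 : ℕ) : ℝ) * κ.C *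
      ((n : ℝ) ^ (4 + 2 + 0) - (n.descFactorial (4 + 2 + 0) : ℝ))) =
      30 * (κ.C * ((n : ℝ) ^ 6 - (n.descFactorial 6 : ℝ))) := by
    push_cast
    ring
  rw [e4]
  linarith

/-- A term from the sign of the codegrees. -/
structure SgT where
  γ : (Finset (Fin 4) → Bool) → (Fin 4 → Bool) → ℕ
  B : ℕ
  hB : ∀ a b, γ a b ≤ B

/-- The value of the term: the first vertex is compared, the next three are roots. -/
def SgT.val (S : SgT) {n : ℕ} (E : Finset (Finset (Fin n))) (r : Fin n) (x : Fin 6 → Fin n) : ℤ :=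
  (S.γ (zb (Lk E r) (x ∘ Fin.castAdd 2)) (fun i => pc E r (x (Fin.castAdd 2 i))) : ℤ) *
    (sg (pc E r (x 0)) * (11 - 16 * ((mE E {r, x 0, x 4, x 5}).toNat : ℤ)))

theorem SgT.tot (S : SgT) {n : ℕ} (E : Finset (Finset (Fin n))) (r : Fin n) :
    0 ≤ ∑ x : Fin 6 → Fin n, ((S.val E r x : ℤ) : ℝ) := by
  have h0 : ∑ x : Fin 6 → Fin n, ((S.val E r x : ℤ) : ℝ) =
      ∑ x : Fin (4 + 2) → Fin n, ((S.val E r x : ℤ) : ℝ) := rfl
  rw [h0, ← (Fin.appendEquiv 4 2).sum_comp, Fintype.sum_prod_type]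
  refine Finset.sum_nonneg fun p _ => ?_
  have h1 : ∀ q : Fin 2 → Fin n, ((S.val E r ((Fin.appendEquiv 4 2) (p, q)) : ℤ) : ℝ) =
      (((S.γ (zb (Lk E r) p) (fun i => pc E r (p i)) : ℤ) * sg (pc E r (p 0)) : ℤ) : ℝ) *
        ((11 - 16 * ((mE E {r, p 0, q 0, q 1}).toNat : ℤ) : ℤ) : ℝ) := by
    intro q
    have e0 : (Fin.appendEquiv 4 2) (p, q) = Fin.append p q := rfl
    have e1 : (Fin.append p q : Fin 6 → Fin n) ∘ Fin.castAdd 2 = p := by
      funext i
      exact Fin.append_left p q i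
    have e2 : ∀ i : Fin 4, (Fin.append p q : Fin 6 → Fin n) (Fin.castAdd 2 i) = p i :=
      fun i => Fin.append_left p q i
    have e3 : (Fin.append p q : Fin 6 → Fin n) 0 = p 0 := Fin.append_left p q 0
    have e4 : (Fin.append p q : Fin 6 → Fin n) 4 = q 0 := Fin.append_right p q 0
    have e5 : (Fin.append p q : Fin 6 → Fin n) 5 = q 1 := Fin.append_right p q 1
    rw [e0]
    unfold SgT.val
    rw [e1, e3, e4, e5]
    simp_rw [e2]
    push_cast
    ring
  rw [Finset.sum_congr rfl fun q _ => h1 q, ← Finset.mul_sum]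
  have h2 : ∑ q : Fin 2 → Fin n, ((11 - 16 * ((mE E {r, p 0, q 0, q 1}).toNat : ℤ) : ℤ) : ℝ) =
      ((11 * (n : ℤ) ^ 2 - 16 * cdg E r (p 0) : ℤ) : ℝ) := by
    rw [← (finTwoArrowEquiv (Fin n)).symm.sum_comp, Fintype.sum_prod_type]
    have e : ∀ y z : Fin n, ((11 - 16 * ((mE E {r, p 0,
        (finTwoArrowEquiv (Fin n)).symm (y, z) 0,
        (finTwoArrowEquiv (Fin n)).symm (y, z) 1}).toNat : ℤ) : ℤ) : ℝ) =
        11 - 16 * (((mE E {r, p 0, y, z}).toNat : ℤ) : ℝ) := by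
      intro y z
      push_cast
      rfl
    rw [Finset.sum_congr rfl fun y _ => Finset.sum_congr rfl fun z _ => e y z]
    unfold cdg
    push_cast
    simp_rw [Finset.sum_sub_distrib, ← Finset.mul_sum]
    simp
    ring
  rw [h2]
  have h3 := pc_sign E r (p 0)
  have h4 : 0 ≤ ((S.γ (zb (Lk E r) p) (fun i => pc E r (p i)) : ℤ)) *
      (sg (pc E r (p 0)) * (11 * (n : ℤ) ^ 2 - 16 * cdg E r (p 0))) :=
    mul_nonneg (Int.natCast_nonneg _) h3
  have h5 : (((S.γ (zb (Lk E r) p) (fun i => pc E r (p i)) : ℤ) * sg (pc E r (p 0)) : ℤ) : ℝ) *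
      ((11 * (n : ℤ) ^ 2 - 16 * cdg E r (p 0) : ℤ) : ℝ) =
      (((S.γ (zb (Lk E r) p) (fun i => pc E r (p i)) : ℤ) *
      (sg (pc E r (p 0)) * (11 * (n : ℤ) ^ 2 - 16 * cdg E r (p 0))) : ℤ) : ℝ) := by
    push_cast
    ring
  rw [h5]
  exact_mod_cast h4

theorem SgT.le (S : SgT) {n : ℕ} (E : Finset (Finset (Fin n))) (r : Fin n) (x : Fin 6 → Fin n) :
    ((S.val E r x : ℤ) : ℝ) ≤ 11 * (S.B : ℝ) := by
  have h1 : S.val E r x ≤ 11 * (S.B : ℤ) := by
    unfold SgT.val
    have h2 : (S.γ (zb (Lk E r) (x ∘ Fin.castAdd 2)) (fun i => pc E r (x (Fin.castAdd 2 i))) : ℤ) ≤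
        S.B := by exact_mod_cast S.hB _ _
    have h3 : (0 : ℤ) ≤ (S.γ (zb (Lk E r) (x ∘ Fin.castAdd 2))
      (fun i => pc E r (x (Fin.castAdd 2 i))) : ℤ) := Int.natCast_nonneg _
    have h4 : sg (pc E r (x 0)) * (11 - 16 * ((mE E {r, x 0, x 4, x 5}).toNat : ℤ)) ≤ 11 := by
      unfold sg
      cases pc E r (x 0) <;> cases mE E {r, x 0, x 4, x 5} <;> simp
    nlinarith
  exact_mod_cast h1

/-- The term is nonnegative on average, at every placement of its vertices. -/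
theorem PG.sgt (S : SgT) (j : Fin 6 → Fin 6) (hj : Function.Injective j) :
    PG (fun E r x => S.val E r (x ∘ j)) :=
  PG.tot (fun E r p => S.val E r p) (11 * (S.B : ℝ)) (by positivity)
    (fun E r _ => S.tot E r) (fun E r p => S.le E r p) j hj

end Pool.Agent.Lib.MP_afdd4d_co.K9.Star
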