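import Pool.Agent.Lib.MP_afdd4d_co.K9.Star

/-!
# Averages from local inequalities about pairs with an optimal even 4-graph

If a function of seven vertices of a 4-graph without complete quintuple is, for every even 4-graph, at
least a sum of terms with nonnegative average and of a function of the even 4-graph with nonnegative
average, then its own average is nonnegative.
-/

namespace Pool.Agent.Lib.MP_afdd4d_co.K9.Star

open Finset K8

/-- The pair condition on seven vertices. -/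
def StarRow {c : Bool → Bool → ℤ} (T : AT c 7)
    (W : ∀ {n : ℕ}, Finset (Finset (Fin n)) → (Fin 7 → Fin n) → ℤ)
    (u : ∀ {n : ℕ}, Finset (Finset (Fin n)) → (Fin 7 → Fin n) → ℤ) : Prop :=
  ∀ (n : ℕ) (H E : Finset (Finset (Fin n))), (∀ e ∈ H, e.card = 4) →
    (∀ S : Finset (Fin n), S.card = 5 → ∃ e ∈ S.powersetCard 4, e ∉ H) →
    (∀ e ∈ E, e.card = 4) → EvenH n E → ∀ s : Fin 7 → Fin n, Function.Injective s →
      T.f H E s + W E s ≤ u H s

/-- The condition on the function of even 4-graphs. -/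
def BRow (κ6 : Kern 6) (W : ∀ {n : ℕ}, Finset (Finset (Fin n)) → (Fin 7 → Fin n) → ℤ) : Prop :=
  ∀ (n : ℕ) (E : Finset (Finset (Fin n))), (∀ e ∈ E, e.card = 4) → EvenH n E →
    ∀ t : Fin (7 + 1) → Fin n, Function.Injective t → PS (κ6.f E) t ≤ DS (m := 7) (W E) t

/-- The average of a function of the 4-graph. -/
theorem star_avg {c : Bool → Bool → ℤ} (T : AT c 7) (κ6 : Kern 6)
    (W : ∀ {n : ℕ}, Finset (Finset (Fin n)) → (Fin 7 → Fin n) → ℤ)
    (u : ∀ {n : ℕ}, Finset (Finset (Fin n)) → (Fin 7 → Fin n) → ℤ)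
    (hrow : StarRow T W u) (hB : BRow κ6 W) (n : ℕ) (H : Finset (Finset (Fin n)))
    (h4 : ∀ e ∈ H, e.card = 4)
    (h5 : ∀ S : Finset (Fin n), S.card = 5 → ∃ e ∈ S.powersetCard 4, e ∉ H) :
    -((8 * T.C + 56 * κ6.C) * ((n : ℝ) ^ (4 + 4) - (n.descFactorial (4 + 4) : ℝ))) ≤
      ∑ t ∈ inj (Fin n) (4 + 4), ((DS (m := 7) (u H) t : ℤ) : ℝ) := by
  obtain ⟨E, hE⟩ := exists_optE c H
  have hD : D8 n = (n : ℝ) ^ (4 + 4) - (n.descFactorial (4 + 4) : ℝ) := rfl
  rw [← hD]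
  have h1 : ∀ x : Fin (7 + 1), -(T.C * D8 n) ≤
      ∑ t ∈ inj (Fin n) (4 + 4), ((T.f H E (t ∘ x.succAbove) : ℤ) : ℝ) := fun x =>
    T.avg H E hE x.succAbove Fin.succAbove_right_injective
  have h2 := PS_inj_ge (V := Fin n) (k := 6) 0 (fun s u w => ((κ6.f E s u w : ℤ) : ℝ)) κ6.C
    (κ6.psd E) (κ6.bd E) id Function.injective_id
  have e3 : ∀ t : Fin (4 + 4) → Fin n, ((PS (k := 6) (κ6.f E) t : ℤ) : ℝ) =
      PS (k := 6) (fun s u w => ((κ6.f E s u w : ℤ) : ℝ)) t := fun t => cast_PS _ t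
  have h3 : -(56 * κ6.C * D8 n) ≤
      ∑ t ∈ inj (Fin n) (4 + 4), ((PS (k := 6) (κ6.f E) t : ℤ) : ℝ) := by
    rw [Finset.sum_congr rfl fun t _ => e3 t]
    rw [Fintype.card_fin] at h2
    refine le_trans (le_of_eq ?_) h2
    unfold D8
    norm_num
  have h4' : ∑ x : Fin (7 + 1), -(T.C * D8 n) ≤ ∑ x : Fin (7 + 1),
      ∑ t ∈ inj (Fin n) (4 + 4), ((T.f H E (t ∘ x.succAbove) : ℤ) : ℝ) :=
    Finset.sum_le_sum fun x _ => h1 x
  rw [Finset.sum_const, Finset.card_univ, Fintype.card_fin, nsmul_eq_mul, Finset.sum_comm] at h4'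
  have h6 : ∀ t ∈ inj (Fin n) (4 + 4),
      ∑ x : Fin (7 + 1), ((T.f H E (t ∘ x.succAbove) : ℤ) : ℝ) +
        ((PS (k := 6) (κ6.f E) t : ℤ) : ℝ) ≤ ((DS (m := 7) (u H) t : ℤ) : ℝ) := by
    intro t ht
    have hti : Function.Injective t := mem_inj.mp ht
    have h7 : ∀ x : Fin (7 + 1), T.f H E (t ∘ x.succAbove) + W E (t ∘ x.succAbove) ≤
        u H (t ∘ x.succAbove) := fun x =>
      hrow n H E h4 h5 hE.1 hE.2.1 (t ∘ x.succAbove) (hti.comp Fin.succAbove_right_injective)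
    have h8 := Finset.sum_le_sum fun x (_ : x ∈ (univ : Finset (Fin (7 + 1)))) => h7 x
    rw [Finset.sum_add_distrib] at h8
    have h9 := hB n E hE.1 hE.2.1 t hti
    have e9 : DS (m := 7) (W E) t = ∑ x : Fin (7 + 1), W E (t ∘ x.succAbove) := rfl
    have e10 : DS (m := 7) (u H) t = ∑ x : Fin (7 + 1), u H (t ∘ x.succAbove) := rfl
    rw [e9] at h9
    rw [e10]
    have h10 : (∑ x : Fin (7 + 1), T.f H E (t ∘ x.succAbove)) + PS (k := 6) (κ6.f E) t ≤
        ∑ x : Fin (7 + 1), u H (t ∘ x.succAbove) := by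
      have h11 : PS (k := 6) (κ6.f E) t ≤ ∑ x : Fin (7 + 1), W E (t ∘ x.succAbove) := h9
      linarith
    exact_mod_cast h10
  have h7 := Finset.sum_le_sum h6
  rw [Finset.sum_add_distrib] at h7
  push_cast at h4'
  linarith

end Pool.Agent.Lib.MP_afdd4d_co.K9.Star
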