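import Pool.Agent.Lib.MP_afdd4d_co.K9.Pt
import Pool.Agent.Lib.MP_afdd4d_co.K9.Iface
import Pool.Agent.Lib.MP_afdd4d_co.K9.StarB

/-!
# Few defects from local inequalities about pointed colourings
-/

namespace Pool.Agent.Lib.MP_afdd4d_co.K9.Star

open Finset K8

section defs

/-- The defect of a five-tuple: three vertices of one colour and two of the other one. -/
def w5 {V : Type*} [DecidableEq V] (e : Finset V → Bool) (χ : V → Bool) (q : Fin 5 → V) : ℤ :=
  if χ (q 0) = χ (q 1) ∧ χ (q 1) = χ (q 2) ∧ χ (q 3) = χ (q 4) ∧ χ (q 0) ≠ χ (q 3) ∧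
    e {q 0, q 1, q 2, q 3} ≠ e {q 0, q 1, q 2, q 4} then 1 else 0

theorem w5_nonneg {V : Type*} [DecidableEq V] (e : Finset V → Bool) (χ : V → Bool)
    (q : Fin 5 → V) : 0 ≤ w5 e χ q := by
  unfold w5; split_ifs <;> norm_num

theorem w5_le {V : Type*} [DecidableEq V] (e : Finset V → Bool) (χ : V → Bool)
    (q : Fin 5 → V) : w5 e χ q ≤ 1 := by
  unfold w5; split_ifs <;> norm_num

/-- The number of defects. -/
noncomputable def XW5 {V : Type*} [DecidableEq V] [Fintype V] (e : Finset V → Bool) (χ : V → Bool) : ℤ :=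
  ∑ q ∈ inj V 5, w5 e χ q

variable {n : ℕ}

/-- The density of the defects, with the factor four. -/
noncomputable def XW (E : Finset (Finset (Fin n))) (χ : Fin n → Bool) : ℝ :=
  4 * ((XW5 (mE E) χ : ℤ) : ℝ) / (n : ℝ) ^ 5

theorem w5_comp {m : ℕ} (E : Finset (Finset (Fin n))) (χ : Fin n → Bool) (x : Fin m → Fin n)
    (p : Fin 5 → Fin m) : w5 (zb E x) (fun i => χ (x i)) p = w5 (mE E) χ (x ∘ p) := by
  have h : ∀ T : Finset (Fin m), zb E x T = mE E (T.image x) := fun T => by rw [zb_eq]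
  have h1 : ∀ a b c d : Fin m, zb E x {a, b, c, d} = mE E {x a, x b, x c, x d} := by
    intro a b c d
    rw [h]
    congr 1
    simp only [Finset.image_insert, Finset.image_singleton]
  unfold w5
  rw [h1, h1]
  rfl

end defs

/-- Even 4-graphs of large density have a colouring with few defects. -/
def T1W (C ρ : ℝ) : Prop :=
  ∀ η : ℝ, 0 < η → ∃ N : ℕ, ∀ n : ℕ, N ≤ n → ∀ E : Finset (Finset (Fin n)),
    (∀ e ∈ E, e.card = 4) → EvenH n E →
    ∃ χ : Fin n → Bool, XW E χ + ρ * sg2 χ ≤ C * (11 / 16 - e4 E) + η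

/-- The defects of a window. -/
noncomputable def o5 (e : Finset (Fin 6) → Bool) (c : Fin 6 → Bool) : ℤ := ∑ p ∈ inj (Fin 6) 5, w5 e c p

/-- The value of the row. -/
noncomputable def pobj (cw cs : ℤ) {n : ℕ} (E : Finset (Finset (Fin n))) (r : Fin n) (x : Fin 6 → Fin n) : ℤ :=
  cw * o5 (zb E x) (fun i => pc E r (x i)) + cs * S2 (fun i => pc E r (x i))

/-- The local inequality about links and colourings. -/
def PtRow (h : (Finset (Fin 6) → Bool) → ℤ) (cw cs : ℤ) (Z : FunP) : Prop :=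
  ∀ (n : ℕ) (E : Finset (Finset (Fin n))), (∀ e ∈ E, e.card = 4) → EvenH n E → ∀ (r : Fin n)
    (x : Fin 6 → Fin n), Function.Injective x → (∀ i, x i ≠ r) →
    Z E r x + pobj cw cs E r x ≤ h (zb (Lk E r) x)

/-- The function of seven vertices of an even 4-graph. -/
def W7 (a : ℤ) (h : (Finset (Fin 6) → Bool) → ℤ) {n : ℕ} (E : Finset (Finset (Fin n)))
    (s : Fin 7 → Fin n) : ℤ :=
  a * (385 - 16 * S4 (zb E s)) - ∑ v : Fin 7, h (zb (Lk E (s v)) (s ∘ v.succAbove))

section sums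
variable {n : ℕ}

theorem sum7_S4 (E : Finset (Finset (Fin n))) :
    ∑ s ∈ inj (Fin n) 7, ((S4 (zb E s) : ℤ) : ℝ) =
      840 * PP n 4 3 * ((S4 (mE E) : ℤ) : ℝ) := by
  set F : (Fin 4 → Fin n) → ℝ := fun q => (((mE E (univ.image q)).toNat : ℤ) : ℝ) with hF
  have h1 : ∀ s ∈ inj (Fin n) 7, 24 * ((S4 (zb E s) : ℤ) : ℝ) =
      ∑ p ∈ inj (Fin 7) 4, F (s ∘ p) := by
    intro s _
    rw [← sum4_inj, zb_eq]
    refine Finset.sum_congr rfl fun p _ => ?_
    show (((mE E ((univ.image p).image s)).toNat : ℤ) : ℝ) = _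
    rw [Finset.image_image]
  have hB : ∀ j ∈ inj (Fin 7) 4, ∑ s ∈ inj (Fin n) 7, F (s ∘ j) =
      PP n 4 3 * (24 * ((S4 (mE E) : ℤ) : ℝ)) := by
    intro j hj
    rw [← sum4_inj]
    have h2 := sum_inj_comp (V := Fin n) 3 F j (mem_inj.mp hj)
    have h3 := sum_inj_castAdd (V := Fin n) F 3
    rw [Fintype.card_fin] at h3
    exact h2.trans h3
  have h5 : ∑ s ∈ inj (Fin n) 7, 24 * ((S4 (zb E s) : ℤ) : ℝ) =
      ∑ s ∈ inj (Fin n) 7, ∑ p ∈ inj (Fin 7) 4, F (s ∘ p) :=
    Finset.sum_congr rfl fun s hs => h1 s hs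
  rw [Finset.sum_comm, Finset.sum_congr rfl hB, Finset.sum_const, nsmul_eq_mul, card_inj,
    Fintype.card_fin, ← Finset.mul_sum] at h5
  have h6 : (Nat.descFactorial 7 4 : ℝ) = 840 := by norm_num [Nat.descFactorial]
  rw [h6] at h5
  linarith

theorem sum6_o5 (E : Finset (Finset (Fin n))) (χ : Fin n → Bool) :
    ∑ x ∈ inj (Fin n) 6, ((o5 (zb E x) (fun i => χ (x i)) : ℤ) : ℝ) =
      720 * ((n : ℝ) - 5) * ((XW5 (mE E) χ : ℤ) : ℝ) := by
  set F : (Fin 5 → Fin n) → ℝ := fun q => ((w5 (mE E) χ q : ℤ) : ℝ) with hF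
  have h1 : ∀ x ∈ inj (Fin n) 6, ((o5 (zb E x) (fun i => χ (x i)) : ℤ) : ℝ) =
      ∑ p ∈ inj (Fin 6) 5, F (x ∘ p) := by
    intro x _
    unfold o5
    rw [Int.cast_sum]
    refine Finset.sum_congr rfl fun p _ => ?_
    rw [w5_comp]
  have hB : ∀ j ∈ inj (Fin 6) 5, ∑ s ∈ inj (Fin n) 6, F (s ∘ j) =
      ((n : ℝ) - 5) * ((XW5 (mE E) χ : ℤ) : ℝ) := by
    intro j hj
    have h2 := sum_inj_comp (V := Fin n) 1 F j (mem_inj.mp hj)
    have h3 := sum_inj_castAdd (V := Fin n) F 1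
    rw [Fintype.card_fin] at h3
    refine (h2.trans h3).trans ?_
    rw [Finset.prod_range_one]
    unfold XW5
    rw [Int.cast_sum, Nat.cast_zero, sub_zero]
    norm_num
    exact Or.inl rfl
  rw [Finset.sum_congr rfl h1, Finset.sum_comm, Finset.sum_congr rfl hB, Finset.sum_const,
    nsmul_eq_mul, card_inj, Fintype.card_fin]
  have h6 : (Nat.descFactorial 6 5 : ℝ) = 720 := by norm_num [Nat.descFactorial]
  rw [h6]
  ring

theorem sum6_S2' (χ : Fin n → Bool) :
    ∑ x ∈ inj (Fin n) 6, ((S2 (fun i => χ (x i)) : ℤ) : ℝ) =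
      30 * PP n 2 4 * ((S2 χ : ℤ) : ℝ) := by
  set F : (Fin 2 → Fin n) → ℝ := fun q => ((sg (χ (q 0)) * sg (χ (q 1)) : ℤ) : ℝ) with hF
  have h1 : ∀ x ∈ inj (Fin n) 6, ((S2 (fun i => χ (x i)) : ℤ) : ℝ) =
      ∑ p ∈ inj (Fin 6) 2, F (x ∘ p) := by
    intro x _
    rw [← sum2_inj]
    rfl
  have hB : ∀ j ∈ inj (Fin 6) 2, ∑ s ∈ inj (Fin n) 6, F (s ∘ j) =
      PP n 2 4 * ((S2 χ : ℤ) : ℝ) := by
    intro j hj
    rw [← sum2_inj]
    have h2 := sum_inj_comp (V := Fin n) 4 F j (mem_inj.mp hj)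
    have h3 := sum_inj_castAdd (V := Fin n) F 4
    rw [Fintype.card_fin] at h3
    exact h2.trans h3
  rw [Finset.sum_congr rfl h1, Finset.sum_comm, Finset.sum_congr rfl hB, Finset.sum_const,
    nsmul_eq_mul, card_inj, Fintype.card_fin]
  have h6 : (Nat.descFactorial 6 2 : ℝ) = 30 := by norm_num [Nat.descFactorial]
  rw [h6]
  ring

/-- The number of injective six-tuples that contain a vertex. -/
theorem card_mem6 (r : Fin n) :
    (((inj (Fin n) 6).filter fun x => r ∈ univ.image x).card : ℝ) ≤ 6 * (n : ℝ) ^ 5 := by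
  have h1 : ((inj (Fin n) 6).filter fun x => r ∈ univ.image x) ⊆
      (univ : Finset (Fin 6)).biUnion fun i => (univ : Finset (Fin 6 → Fin n)).filter
        fun x => x i = r := by
    intro x hx
    rw [Finset.mem_filter] at hx
    obtain ⟨i, _, hi⟩ := Finset.mem_image.mp hx.2
    rw [Finset.mem_biUnion]
    exact ⟨i, Finset.mem_univ _, by rw [Finset.mem_filter]; exact ⟨Finset.mem_univ _, hi⟩⟩
  have h2 : ∀ i : Fin 6, ((univ : Finset (Fin 6 → Fin n)).filter fun x => x i = r).card = n ^ 5 := by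
    intro i
    have h3 : ((univ : Finset (Fin 6 → Fin n)).filter fun x => x i = r).card =
        (univ : Finset (Fin 5 → Fin n)).card := by
      refine Finset.card_bij' (fun x _ => fun j => x (i.succAbove j))
        (fun y _ => Fin.insertNth (α := fun _ => Fin n) i r y) ?_ ?_ ?_ ?_
      · intro x _; exact Finset.mem_univ _
      · intro y _
        rw [Finset.mem_filter]
        exact ⟨Finset.mem_univ _, Fin.insertNth_apply_same (α := fun _ => Fin n) i r y⟩
      · intro x hx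
        have hx' := (Finset.mem_filter.mp hx).2
        rw [← hx']
        exact Fin.insertNth_self_removeNth (α := fun _ => Fin n) i x
      · intro y _
        funext j
        exact Fin.insertNth_apply_succAbove (α := fun _ => Fin n) i r y j
    rw [h3, Finset.card_univ, Fintype.card_fun, Fintype.card_fin, Fintype.card_fin]
  have h4 : ((inj (Fin n) 6).filter fun x => r ∈ univ.image x).card ≤ 6 * n ^ 5 := by
    refine (Finset.card_le_card h1).trans (Finset.card_biUnion_le.trans ?_)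
    rw [Finset.sum_congr rfl fun i _ => h2 i, Finset.sum_const, Finset.card_univ, Fintype.card_fin,
      smul_eq_mul]
  exact_mod_cast h4

end sums

end Pool.Agent.Lib.MP_afdd4d_co.K9.Star
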