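import Pool.Agent.Lib.MP_afdd4d_co.K9.T1G

/-!
# Stability of even 4-graphs: the theorem
-/

namespace Pool.Agent.Lib.MP_afdd4d_co.K9.Star

open Finset K8

section est

theorem PP44_ge (n : ℕ) (h : 8 ≤ n) : (n : ℝ) ^ 4 - 22 * (n : ℝ) ^ 3 ≤ PP n 4 4 := by
  obtain ⟨m, rfl⟩ := Nat.exists_eq_add_of_le h
  have e : PP (8 + m) 4 4 - (((8 + m : ℕ) : ℝ) ^ 4 - 22 * ((8 + m : ℕ) : ℝ) ^ 3) =
      179 * (m : ℝ) ^ 2 + 2226 * m + 7192 := by
    unfold PP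
    rw [Finset.prod_range_succ, Finset.prod_range_succ, Finset.prod_range_succ,
      Finset.prod_range_succ, Finset.prod_range_zero]
    push_cast
    ring
  have : 0 ≤ 179 * (m : ℝ) ^ 2 + 2226 * m + 7192 := by positivity
  linarith

theorem PP62_ge (n : ℕ) : (n : ℝ) ^ 2 - 13 * (n : ℝ) ≤ PP n 6 2 := by
  have e : PP n 6 2 - ((n : ℝ) ^ 2 - 13 * (n : ℝ)) = 42 := by
    unfold PP
    rw [Finset.prod_range_succ, Finset.prod_range_succ, Finset.prod_range_zero]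
    push_cast
    ring
  linarith

theorem PP26_ge (n : ℕ) (h : 8 ≤ n) : (n : ℝ) ^ 6 - 27 * (n : ℝ) ^ 5 ≤ PP n 2 6 := by
  obtain ⟨m, rfl⟩ := Nat.exists_eq_add_of_le h
  have e : PP (8 + m) 2 6 - (((8 + m : ℕ) : ℝ) ^ 6 - 27 * ((8 + m : ℕ) : ℝ) ^ 5) =
      295 * (m : ℝ) ^ 4 + 7775 * (m : ℝ) ^ 3 + 78424 * (m : ℝ) ^ 2 + 358116 * m + 623312 := by
    unfold PP
    rw [Finset.prod_range_succ, Finset.prod_range_succ, Finset.prod_range_succ,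
      Finset.prod_range_succ, Finset.prod_range_succ, Finset.prod_range_succ,
      Finset.prod_range_zero]
    push_cast
    ring
  have : 0 ≤ 295 * (m : ℝ) ^ 4 + 7775 * (m : ℝ) ^ 3 + 78424 * (m : ℝ) ^ 2 + 358116 * m +
    623312 := by positivity
  linarith

theorem PP26_le (n : ℕ) (h : 8 ≤ n) : PP n 2 6 ≤ (n : ℝ) ^ 6 := by
  obtain ⟨m, rfl⟩ := Nat.exists_eq_add_of_le h
  have e : ((8 + m : ℕ) : ℝ) ^ 6 - PP (8 + m) 2 6 =
      ((8 + m : ℕ) : ℝ) ^ 6 - ((6 + m) * (5 + m) * (4 + m) * (3 + m) * (2 + m) * (1 + m)) := by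
    unfold PP
    rw [Finset.prod_range_succ, Finset.prod_range_succ, Finset.prod_range_succ,
      Finset.prod_range_succ, Finset.prod_range_succ, Finset.prod_range_succ,
      Finset.prod_range_zero]
    push_cast
    ring
  have h2 : ((6 + m) * (5 + m) * (4 + m) * (3 + m) * (2 + m) * (1 + m) : ℝ) ≤
      ((8 + m : ℕ) : ℝ) ^ 6 := by
    have h3 : ((6 + m) * (5 + m) * (4 + m) * (3 + m) * (2 + m) * (1 + m) : ℝ) ≤
        (8 + m) * (8 + m) * (8 + m) * (8 + m) * (8 + m) * (8 + m) := by gcongr <;> norm_num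
    push_cast
    refine le_trans h3 (le_of_eq ?_)
    ring
  linarith

theorem D8_le (n : ℕ) : D8 n ≤ 56 * (n : ℝ) ^ 7 := by
  unfold D8
  rcases Nat.lt_or_ge n 8 with h | h
  · have h1 : (n : ℝ) ^ 8 ≤ 8 * (n : ℝ) ^ 7 := by
      have h2 : (n : ℝ) ≤ 8 := by exact_mod_cast h.le
      calc (n : ℝ) ^ 8 = n * (n : ℝ) ^ 7 := by ring
        _ ≤ 8 * (n : ℝ) ^ 7 := mul_le_mul_of_nonneg_right h2 (by positivity)
    have h2 : (0 : ℝ) ≤ (n.descFactorial 8 : ℝ) := Nat.cast_nonneg _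
    have h3 : (0 : ℝ) ≤ (n : ℝ) ^ 7 := by positivity
    linarith
  · obtain ⟨m, rfl⟩ := Nat.exists_eq_add_of_le h
    have h1 := Nat.pow_sub_le_descFactorial (8 + m) 8
    have h2 : 8 + m + 1 - 8 = m + 1 := by omega
    rw [h2] at h1
    have h3 : ((m : ℝ) + 1) ^ 8 ≤ ((8 + m).descFactorial 8 : ℝ) := by exact_mod_cast h1
    have h4 : (((8 + m : ℕ) : ℝ)) ^ 8 ≤ ((m : ℝ) + 1) ^ 8 + 56 * (((8 + m : ℕ) : ℝ)) ^ 7 := by
      set y : ℝ := (m : ℝ) + 1 with hy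
      have hy0 : 0 ≤ y := by rw [hy]; positivity
      have e1 : (((8 + m : ℕ) : ℝ)) = y + 7 := by rw [hy]; push_cast; ring
      rw [e1]
      have e2 : y ^ 8 + 56 * (y + 7) ^ 7 - (y + 7) ^ 8 =
          1372 * y ^ 6 + 38416 * y ^ 5 + 504210 * y ^ 4 + 3764768 * y ^ 3 + 16470860 * y ^ 2 +
            39530064 * y + 40353607 := by ring
      have : 0 ≤ 1372 * y ^ 6 + 38416 * y ^ 5 + 504210 * y ^ 4 + 3764768 * y ^ 3 +
        16470860 * y ^ 2 + 39530064 * y + 40353607 := by positivity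
      linarith
    linarith

theorem desc_le (n k : ℕ) : (n.descFactorial k : ℝ) ≤ (n : ℝ) ^ k := by
  exact_mod_cast Nat.descFactorial_le_pow n k

/-- The estimate for large `n`. -/
theorem real_est (n e a b X s6 p44 p62 p26 dsc cn cd D : ℝ) (hn : 0 < n) (hcn : 0 ≤ cn)
    (hcd : 0 ≤ cd) (he0 : 0 ≤ e) (he : e ≤ n ^ 4 / 24) (hab1 : a * b ≤ n ^ 2 / 4)
    (hab2 : (a - b) ^ 2 ≤ n ^ 2) (hs6a : a * b * (X - n ^ 3 / 3) ≤ s6) (hs6b : s6 ≤ n ^ 6 / 24)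
    (hs6c : 0 ≤ s6) (h44 : n ^ 4 - 22 * n ^ 3 ≤ p44) (h62 : n ^ 2 - 13 * n ≤ p62)
    (h26 : n ^ 6 - 27 * n ^ 5 ≤ p26) (h26' : p26 ≤ n ^ 6) (hdsc : dsc ≤ n ^ 8)
    (hZ : -(D * n ^ 7) ≤ cn * (11 / 16 * dsc - 24 * p44 * e) -
      cd * (96 * p62 * s6 + p26 * ((a - b) ^ 2 - n))) :
    cd * (96 * (a * b) * X + n ^ 4 * (a - b) ^ 2) ≤
      n ^ 2 * (cn * (11 / 16 * n ^ 4 - 24 * e)) + (22 * cn + 88 * cd + D) * n ^ 5 := by
  have b1 : 11 / 16 * dsc - 24 * p44 * e ≤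
      11 / 16 * n ^ 8 - 24 * n ^ 4 * e + 22 * n ^ 7 := by
    have h1 : (n ^ 4 - 22 * n ^ 3) * e ≤ p44 * e := mul_le_mul_of_nonneg_right h44 he0
    have h2 : n ^ 3 * e ≤ n ^ 3 * (n ^ 4 / 24) := mul_le_mul_of_nonneg_left he (by positivity)
    have h3 : n ^ 3 * (n ^ 4 / 24) = n ^ 7 / 24 := by ring
    rw [h3] at h2
    linarith
  have b2 : 96 * n ^ 2 * (a * b) * X - 60 * n ^ 7 ≤ 96 * p62 * s6 := by
    have h1 : (n ^ 2 - 13 * n) * s6 ≤ p62 * s6 := mul_le_mul_of_nonneg_right h62 hs6c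
    have h2 : n * s6 ≤ n * (n ^ 6 / 24) := mul_le_mul_of_nonneg_left hs6b hn.le
    have h3 : n * (n ^ 6 / 24) = n ^ 7 / 24 := by ring
    have h4 : n ^ 2 * (a * b * (X - n ^ 3 / 3)) ≤ n ^ 2 * s6 :=
      mul_le_mul_of_nonneg_left hs6a (by positivity)
    have h5 : n ^ 5 * (a * b) ≤ n ^ 5 * (n ^ 2 / 4) :=
      mul_le_mul_of_nonneg_left hab1 (by positivity)
    have h6 : n ^ 5 * (n ^ 2 / 4) = n ^ 7 / 4 := by ring
    have h7 : n ^ 2 * (a * b * (X - n ^ 3 / 3)) =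
        n ^ 2 * (a * b) * X - n ^ 5 * (a * b) / 3 := by ring
    rw [h7] at h4
    rw [h3] at h2
    rw [h6] at h5
    linarith
  have b3 : n ^ 6 * (a - b) ^ 2 - 28 * n ^ 7 ≤ p26 * ((a - b) ^ 2 - n) := by
    have h1 : (n ^ 6 - 27 * n ^ 5) * (a - b) ^ 2 ≤ p26 * (a - b) ^ 2 :=
      mul_le_mul_of_nonneg_right h26 (sq_nonneg _)
    have h2 : p26 * n ≤ n ^ 6 * n := mul_le_mul_of_nonneg_right h26' hn.le
    have h3 : n ^ 5 * (a - b) ^ 2 ≤ n ^ 5 * n ^ 2 :=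
      mul_le_mul_of_nonneg_left hab2 (by positivity)
    have h4 : n ^ 5 * n ^ 2 = n ^ 7 := by ring
    have h5 : n ^ 6 * n = n ^ 7 := by ring
    rw [h4] at h3
    rw [h5] at h2
    linarith
  have h1 := mul_le_mul_of_nonneg_left b1 hcn
  have h2 : 96 * n ^ 2 * (a * b) * X + n ^ 6 * (a - b) ^ 2 - 88 * n ^ 7 ≤
      96 * p62 * s6 + p26 * ((a - b) ^ 2 - n) := by linarith
  have h3 := mul_le_mul_of_nonneg_left h2 hcd
  have h4 : n ^ 2 * (cd * (96 * (a * b) * X + n ^ 4 * (a - b) ^ 2)) ≤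
      n ^ 2 * (n ^ 2 * (cn * (11 / 16 * n ^ 4 - 24 * e)) + (22 * cn + 88 * cd + D) * n ^ 5) := by
    have e1 : n ^ 2 * (cd * (96 * (a * b) * X + n ^ 4 * (a - b) ^ 2)) =
        cd * (96 * n ^ 2 * (a * b) * X + n ^ 6 * (a - b) ^ 2 - 88 * n ^ 7) +
          88 * cd * n ^ 7 := by ring
    have e2 : n ^ 2 * (n ^ 2 * (cn * (11 / 16 * n ^ 4 - 24 * e)) +
        (22 * cn + 88 * cd + D) * n ^ 5) =
        cn * (11 / 16 * n ^ 8 - 24 * n ^ 4 * e + 22 * n ^ 7) + 88 * cd * n ^ 7 + D * n ^ 7 := by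
      ring
    rw [e1, e2]
    linarith
  exact le_of_mul_le_mul_left h4 (by positivity)

end est

/-- Stability of even 4-graphs, with the sizes of the two colour classes. -/
theorem even_stab' {ce : Bool → Bool → ℕ → ℤ} (N : ℕ) (hN : 0 < N) (cn cd : ℤ) (hcn : 0 ≤ cn)
    (hcd : 0 ≤ cd) (T : CT c0 ce 7) (κ6 : Kern 6)
    (W : ∀ {n : ℕ}, Finset (Finset (Fin n)) → (Fin 7 → Fin n) → ℤ) (hrow : T1Row N cn cd T W)
    (hB : BRow κ6 W) : ∃ K : ℝ, 0 ≤ K ∧ ∀ (n : ℕ) (E : Finset (Finset (Fin n))),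
      (∀ e ∈ E, e.card = 4) → EvenH n E → ∃ χ M f g,
      (cd : ℝ) * (96 * (nc χ false * nc χ true) * ((symmDiff E (gir χ M f g)).card : ℝ) +
        (n : ℝ) ^ 4 * ((nc χ false : ℝ) - nc χ true) ^ 2) ≤
      (n : ℝ) ^ 2 * (cn * (11 / 16 * (n : ℝ) ^ 4 - 24 * (E.card : ℝ))) + K * (n : ℝ) ^ 5 := by
  have hcn' : (0 : ℝ) ≤ cn := by exact_mod_cast hcn
  have hcd' : (0 : ℝ) ≤ cd := by exact_mod_cast hcd
  have hN' : (1 : ℝ) ≤ N := by exact_mod_cast hN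
  set D : ℝ := |8 * T.C + 56 * κ6.C| with hD
  have hD0 : 0 ≤ D := abs_nonneg _
  refine ⟨25 * cn + 104 * cd + D, by positivity, fun n E h4 hE => ?_⟩
  obtain ⟨χ, hav⟩ := even_avg N cn cd T κ6 W hrow hB n E h4 hE
  obtain ⟨z, _, hz⟩ := Finset.exists_min_image (univ : Finset ((Fin n → Fin n → Bool) ×
    (Finset (Fin n) → Bool) × (Finset (Fin n) → Bool)))
    (fun z => (symmDiff E (gir χ z.1 z.2.1 z.2.2)).card) ⟨⟨fun _ _ => false, fun _ => false,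
      fun _ => false⟩, Finset.mem_univ _⟩
  refine ⟨χ, z.1, z.2.1, z.2.2, ?_⟩
  set X : ℝ := ((symmDiff E (gir χ z.1 z.2.1 z.2.2)).card : ℝ) with hX
  have hX0 : 0 ≤ X := Nat.cast_nonneg _
  have hX1 : X ≤ (n : ℝ) ^ 4 / 24 := by
    rw [hX]
    refine card_quads_le _ fun e he => ?_
    rw [Finset.mem_symmDiff] at he
    rcases he with h | h
    · exact h4 e h.1
    · exact gir_card _ _ _ _ e h.1
  have hmin : ∀ M f g, X ≤ ((symmDiff E (gir χ M f g)).card : ℝ) := by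
    intro M f g
    rw [hX]
    exact_mod_cast hz (M, f, g) (Finset.mem_univ _)
  set a : ℝ := (nc χ false : ℝ) with ha
  set b : ℝ := (nc χ true : ℝ) with hb
  have ha0 : 0 ≤ a := Nat.cast_nonneg _
  have hb0 : 0 ≤ b := Nat.cast_nonneg _
  have hab : a + b = n := by
    rw [ha, hb]
    exact_mod_cast nc_add χ
  have hab1 : a * b ≤ (n : ℝ) ^ 2 / 4 := by
    rw [← hab]
    nlinarith [sq_nonneg (a - b)]
  have hab2 : (a - b) ^ 2 ≤ (n : ℝ) ^ 2 := by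
    rw [← hab]
    nlinarith [mul_nonneg ha0 hb0]
  have hab0 : 0 ≤ a * b := mul_nonneg ha0 hb0
  have hn0 : (0 : ℝ) ≤ n := Nat.cast_nonneg _
  have he := card_quads_le E h4
  have he0 : (0 : ℝ) ≤ (E.card : ℝ) := Nat.cast_nonneg _
  set e : ℝ := (E.card : ℝ) with hee
  rcases Nat.lt_or_ge n 8 with h8 | h8
  · -- small `n`
    have h7 : (n : ℝ) ≤ 7 := by exact_mod_cast (by omega : n ≤ 7)
    have h6 : (n : ℝ) ^ 6 ≤ 7 * (n : ℝ) ^ 5 := by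
      calc (n : ℝ) ^ 6 = n * (n : ℝ) ^ 5 := by ring
        _ ≤ 7 * (n : ℝ) ^ 5 := mul_le_mul_of_nonneg_right h7 (by positivity)
    have h1 : 96 * (a * b) * X ≤ (n : ℝ) ^ 6 := by
      calc 96 * (a * b) * X ≤ 96 * ((n : ℝ) ^ 2 / 4) * ((n : ℝ) ^ 4 / 24) := by gcongr
        _ = (n : ℝ) ^ 6 := by ring
    have h2 : (n : ℝ) ^ 4 * (a - b) ^ 2 ≤ (n : ℝ) ^ 6 := by
      calc (n : ℝ) ^ 4 * (a - b) ^ 2 ≤ (n : ℝ) ^ 4 * (n : ℝ) ^ 2 := by gcongr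
        _ = (n : ℝ) ^ 6 := by ring
    have h3 : (cd : ℝ) * (96 * (a * b) * X + (n : ℝ) ^ 4 * (a - b) ^ 2) ≤
        cd * (14 * (n : ℝ) ^ 5) := mul_le_mul_of_nonneg_left (by linarith) hcd'
    have h4 : -(cn * (3 * (n : ℝ) ^ 5)) ≤
        (n : ℝ) ^ 2 * (cn * (11 / 16 * (n : ℝ) ^ 4 - 24 * e)) := by
      have h5 : -(3 * (n : ℝ) ^ 5) ≤ (n : ℝ) ^ 2 * (11 / 16 * (n : ℝ) ^ 4 - 24 * e) := by
        have h9 : (n : ℝ) ^ 2 * (24 * e) ≤ (n : ℝ) ^ 2 * (n : ℝ) ^ 4 :=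
          mul_le_mul_of_nonneg_left (by linarith) (by positivity)
        have h10 : (n : ℝ) ^ 2 * (n : ℝ) ^ 4 = (n : ℝ) ^ 6 := by ring
        rw [h10] at h9
        have h11 : (n : ℝ) ^ 2 * (11 / 16 * (n : ℝ) ^ 4 - 24 * e) =
          11 / 16 * (n : ℝ) ^ 6 - (n : ℝ) ^ 2 * (24 * e) := by ring
        have h13 : 0 ≤ (n : ℝ) ^ 5 := by positivity
        rw [h11]
        linarith
      have h12 := mul_le_mul_of_nonneg_left h5 hcn'
      calc -(cn * (3 * (n : ℝ) ^ 5)) = cn * -(3 * (n : ℝ) ^ 5) := by ring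
        _ ≤ cn * ((n : ℝ) ^ 2 * (11 / 16 * (n : ℝ) ^ 4 - 24 * e)) := h12
        _ = _ := by ring
    have h5 : 0 ≤ D * (n : ℝ) ^ 5 := by positivity
    have h6' : 0 ≤ (cn : ℝ) * (n : ℝ) ^ 5 := by positivity
    have h7' : 0 ≤ (cd : ℝ) * (n : ℝ) ^ 5 := by positivity
    linarith
  · -- large `n`
    have hn1 : (0 : ℝ) < n := by exact_mod_cast (by omega : 0 < n)
    rw [S4_mE E h4, S2_eq] at hav
    push_cast at hav
    rw [← ha, ← hb, ← hee] at hav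
    set s6 : ℝ := ((S6 (mE E) χ : ℤ) : ℝ) with hs6
    have hs6a : a * b * (X - (n : ℝ) ^ 3 / 3) ≤ s6 := S6_ge E h4 χ X hmin
    have hs6b : s6 ≤ (n : ℝ) ^ 6 / 24 := S6_le E χ
    have hs6c : 0 ≤ s6 := S6_nonneg E χ
    have hD8 := D8_le n
    have hD80 := D8_nonneg n
    set Z : ℝ := cn * (11 / 16 * (n.descFactorial 8 : ℝ) - 24 * PP n 4 4 * e) -
        cd * (96 * PP n 6 2 * s6 + PP n 2 6 * ((a - b) ^ 2 - n)) with hZ
    have hZ2 : -(D * (n : ℝ) ^ 7) ≤ Z := by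
      have h1 : -(D * D8 n) ≤ N * (13440 * Z) := by
        refine le_trans ?_ hav
        have h2 : (8 * T.C + 56 * κ6.C) * D8 n ≤ D * D8 n :=
          mul_le_mul_of_nonneg_right (le_abs_self _) hD80
        linarith
      have h5 : D * D8 n ≤ D * (56 * (n : ℝ) ^ 7) := mul_le_mul_of_nonneg_left hD8 hD0
      have h6 : 0 ≤ D * (n : ℝ) ^ 7 := by positivity
      by_contra hlt
      push Not at hlt
      have h3 : Z < 0 := by linarith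
      have h4 : (N : ℝ) * (13440 * Z) ≤ 1 * (13440 * Z) :=
        mul_le_mul_of_nonpos_right hN' (by linarith)
      linarith
    have h1 := real_est n e a b X s6 (PP n 4 4) (PP n 6 2) (PP n 2 6) (n.descFactorial 8) cn cd D
      hn1 hcn' hcd' he0 he hab1 hab2 hs6a hs6b hs6c (PP44_ge n h8) (PP62_ge n) (PP26_ge n h8)
      (PP26_le n h8) (desc_le n 8) hZ2
    refine le_trans h1 ?_
    have h2 : 0 ≤ (cn : ℝ) * (n : ℝ) ^ 5 := by positivity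
    have h3 : 0 ≤ (cd : ℝ) * (n : ℝ) ^ 5 := by positivity
    linarith

/-- Stability of even 4-graphs. -/
theorem even_stab {ce : Bool → Bool → ℕ → ℤ} (N : ℕ) (hN : 0 < N) (cn cd : ℤ) (hcn : 0 ≤ cn)
    (hcd : 0 ≤ cd) (T : CT c0 ce 7) (κ6 : Kern 6)
    (W : ∀ {n : ℕ}, Finset (Finset (Fin n)) → (Fin 7 → Fin n) → ℤ) (hrow : T1Row N cn cd T W)
    (hB : BRow κ6 W) : ∃ K : ℝ, 0 ≤ K ∧ ∀ (n : ℕ) (E : Finset (Finset (Fin n))),
      (∀ e ∈ E, e.card = 4) → EvenH n E → ∃ χ M f g,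
      (cd : ℝ) * (24 * ((symmDiff E (gir χ M f g)).card : ℝ)) ≤
      cn * (11 / 16 * (n : ℝ) ^ 4 - 24 * (E.card : ℝ)) + K * (n : ℝ) ^ 3 := by
  obtain ⟨K, hK, h⟩ := even_stab' N hN cn cd hcn hcd T κ6 W hrow hB
  refine ⟨K, hK, fun n E h4 hE => ?_⟩
  obtain ⟨χ, M, f, g, h1⟩ := h n E h4 hE
  refine ⟨χ, M, f, g, ?_⟩
  have hcd' : (0 : ℝ) ≤ cd := by exact_mod_cast hcd
  set X : ℝ := ((symmDiff E (gir χ M f g)).card : ℝ) with hX
  have hX1 : X ≤ (n : ℝ) ^ 4 / 24 := by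
    rw [hX]
    refine card_quads_le _ fun e he => ?_
    rw [Finset.mem_symmDiff] at he
    rcases he with h | h
    · exact h4 e h.1
    · exact gir_card _ _ _ _ e h.1
  have hab : (nc χ false : ℝ) + nc χ true = n := by exact_mod_cast nc_add χ
  rcases Nat.eq_zero_or_pos n with h0 | h0
  · subst h0
    have hX0 : 0 ≤ X := Nat.cast_nonneg _
    have hX2 : X = 0 := by
      norm_num at hX1
      linarith
    have he := card_quads_le E h4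
    have he2 : (E.card : ℝ) = 0 := by
      have : (0 : ℝ) ≤ (E.card : ℝ) := Nat.cast_nonneg _
      norm_num at he
      rw [he]
      norm_num
    rw [hX2, he2]
    norm_num
  · have hn : (0 : ℝ) < n := by exact_mod_cast h0
    have h2 : (n : ℝ) ^ 2 * (24 * X) ≤ 96 * (nc χ false * nc χ true) * X +
        (n : ℝ) ^ 4 * ((nc χ false : ℝ) - nc χ true) ^ 2 := by
      have h3 : 24 * X * ((nc χ false : ℝ) - nc χ true) ^ 2 ≤
          (n : ℝ) ^ 4 * ((nc χ false : ℝ) - nc χ true) ^ 2 :=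
        mul_le_mul_of_nonneg_right (by linarith) (sq_nonneg _)
      rw [← hab] at h3 ⊢
      nlinarith
    have h3 := mul_le_mul_of_nonneg_left h2 hcd'
    have h4 : (n : ℝ) ^ 2 * ((cd : ℝ) * (24 * X)) ≤
        (n : ℝ) ^ 2 * (cn * (11 / 16 * (n : ℝ) ^ 4 - 24 * (E.card : ℝ)) + K * (n : ℝ) ^ 3) := by
      calc (n : ℝ) ^ 2 * ((cd : ℝ) * (24 * X)) = cd * ((n : ℝ) ^ 2 * (24 * X)) := by ring
        _ ≤ _ := h3
        _ ≤ _ := h1
        _ = _ := by ring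
    exact le_of_mul_le_mul_left h4 (by positivity)

end Pool.Agent.Lib.MP_afdd4d_co.K9.Star
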