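import Pool.Agent.Lib.MP_afdd4d_co.K9.PtF
import Pool.Agent.Lib.MP_afdd4d_co.K9.T1H

/-!
# Few defects from local inequalities about pointed colourings: the theorem
-/

namespace Pool.Agent.Lib.MP_afdd4d_co.K9.Star

open Finset K8

section main
variable {n : ℕ}

/-- The sum of the potentials over all pointed windows. -/
theorem sum_pot (h : (Finset (Fin 6) → Bool) → ℤ) (E : Finset (Finset (Fin n))) :
    ∑ s ∈ inj (Fin n) 7, ∑ v : Fin 7, ((h (zb (Lk E (s v)) (s ∘ v.succAbove)) : ℤ) : ℝ) =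
      7 * ∑ r : Fin n, ∑ x ∈ (inj (Fin n) 6).filter (fun x => r ∉ univ.image x),
        ((h (zb (Lk E r) x) : ℤ) : ℝ) := by
  rw [Finset.sum_comm]
  have h1 : ∀ v : Fin 7, ∑ s ∈ inj (Fin n) 7, ((h (zb (Lk E (s v)) (s ∘ v.succAbove)) : ℤ) : ℝ) =
      ∑ r : Fin n, ∑ x ∈ (inj (Fin n) 6).filter (fun x => r ∉ univ.image x),
        ((h (zb (Lk E r) x) : ℤ) : ℝ) := by
    intro v
    have h2 := sum_inj_ins (V := Fin n) (m := 6) v
      (fun r x => ((h (zb (Lk E r) x) : ℤ) : ℝ))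
    refine h2.trans ?_
    have h3 : ∀ p ∈ inj (Fin n) 6, ∑ r ∈ (univ.image p)ᶜ, ((h (zb (Lk E r) p) : ℤ) : ℝ) =
        ∑ r : Fin n, if r ∉ univ.image p then ((h (zb (Lk E r) p) : ℤ) : ℝ) else 0 := by
      intro p _
      rw [← Finset.sum_filter]
      refine Finset.sum_congr ?_ fun _ _ => rfl
      ext r
      simp
    rw [Finset.sum_congr rfl h3, Finset.sum_comm]
    refine Finset.sum_congr rfl fun r _ => ?_
    rw [Finset.sum_filter]
  rw [Finset.sum_congr rfl fun v _ => h1 v, Finset.sum_const, Finset.card_univ, Fintype.card_fin,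
    nsmul_eq_mul]
  norm_num

theorem XW5_nonneg (e : Finset (Fin n) → Bool) (χ : Fin n → Bool) : 0 ≤ XW5 e χ :=
  Finset.sum_nonneg fun _ _ => w5_nonneg _ _ _

theorem XW5_le (e : Finset (Fin n) → Bool) (χ : Fin n → Bool) :
    ((XW5 e χ : ℤ) : ℝ) ≤ (n : ℝ) ^ 5 := by
  unfold XW5
  rw [Int.cast_sum]
  calc ∑ q ∈ inj (Fin n) 5, ((w5 e χ q : ℤ) : ℝ) ≤ ∑ _q ∈ inj (Fin n) 5, (1 : ℝ) :=
        Finset.sum_le_sum fun q _ => by exact_mod_cast w5_le _ _ _
    _ = ((inj (Fin n) 5).card : ℝ) := by rw [Finset.sum_const, nsmul_eq_mul, mul_one]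
    _ ≤ (n : ℝ) ^ 5 := by
        rw [card_inj, Fintype.card_fin]
        exact desc_le n 5

theorem o5_le (e : Finset (Fin 6) → Bool) (c : Fin 6 → Bool) : o5 e c ≤ 720 := by
  unfold o5
  calc ∑ p ∈ inj (Fin 6) 5, w5 e c p ≤ ∑ _p ∈ inj (Fin 6) 5, (1 : ℤ) :=
        Finset.sum_le_sum fun q _ => w5_le _ _ _
    _ = 720 := by
        rw [Finset.sum_const, card_inj, Fintype.card_fin]
        norm_num [Nat.descFactorial]

theorem S2_le6 (c : Fin 6 → Bool) : S2 c ≤ 30 := by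
  revert c
  unfold S2 sg
  decide

theorem PP24_ge (n : ℕ) : (n : ℝ) ^ 4 - 14 * (n : ℝ) ^ 3 ≤ PP n 2 4 := by
  unfold PP
  rw [Finset.prod_range_succ, Finset.prod_range_succ, Finset.prod_range_succ,
    Finset.prod_range_succ, Finset.prod_range_zero]
  push_cast
  have e : (1 * ((n : ℝ) - 2 - 0) * (n - 2 - 1) * (n - 2 - 2) * (n - 2 - 3)) -
      ((n : ℝ) ^ 4 - 14 * (n : ℝ) ^ 3) = 71 * (n : ℝ) ^ 2 - 154 * n + 120 := by ring
  nlinarith [sq_nonneg ((n : ℝ) - 1)]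

theorem PP24_le' (n : ℕ) (h : 8 ≤ n) : PP n 2 4 ≤ (n : ℝ) ^ 4 := by
  have h8 : (8 : ℝ) ≤ n := by exact_mod_cast h
  unfold PP
  rw [Finset.prod_range_succ, Finset.prod_range_succ, Finset.prod_range_succ,
    Finset.prod_range_succ, Finset.prod_range_zero]
  push_cast
  have e : (1 * ((n : ℝ) - 2 - 0) * (n - 2 - 1) * (n - 2 - 2) * (n - 2 - 3)) =
      ((n : ℝ) - 2) * (n - 3) * (n - 4) * (n - 5) := by ring
  rw [e]
  calc ((n : ℝ) - 2) * (n - 3) * (n - 4) * (n - 5) ≤ n * n * n * n := by gcongr <;> linarith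
    _ = (n : ℝ) ^ 4 := by ring

theorem PP43_ge (n : ℕ) (h : 8 ≤ n) : (n : ℝ) ^ 3 - 15 * (n : ℝ) ^ 2 ≤ PP n 4 3 := by
  unfold PP
  rw [Finset.prod_range_succ, Finset.prod_range_succ, Finset.prod_range_succ,
    Finset.prod_range_zero]
  push_cast
  have e : (1 * ((n : ℝ) - 4 - 0) * (n - 4 - 1) * (n - 4 - 2)) -
      ((n : ℝ) ^ 3 - 15 * (n : ℝ) ^ 2) = 74 * n - 120 := by ring
  have h2 : (8 : ℝ) ≤ n := by exact_mod_cast h
  linarith

end main

/-- Few defects from the local inequalities. -/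
theorem t1w_of_rows (a cw cs : ℤ) (ha : 0 ≤ a) (hcw : 0 < cw) (hcs : 0 ≤ cs)
    (h : (Finset (Fin 6) → Bool) → ℤ) (Z : FunP) (B : ℝ) (hB0 : 0 ≤ B)
    (hZB : ∀ {n : ℕ} (E : Finset (Finset (Fin n))) (r : Fin n) (x : Fin 6 → Fin n),
      ((Z E r x : ℤ) : ℝ) ≤ B) (hZ : PG Z) (hrow : PtRow h cw cs Z) (κ6 : Kern 6)
    (hB : BRow κ6 (fun {_} => W7 a h)) : T1W (4 * a / (9 * cw)) (cs / (6 * cw)) := by
  obtain ⟨C, hC, hZ⟩ := hZ
  have ha' : (0 : ℝ) ≤ a := by exact_mod_cast ha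
  have hcw' : (0 : ℝ) < cw := by exact_mod_cast hcw
  have hcs' : (0 : ℝ) ≤ cs := by exact_mod_cast hcs
  set G : ℝ := B + 720 * cw + 30 * cs with hG
  have hG0 : 0 ≤ G := by positivity
  set K1 : ℝ := 3136 * |κ6.C| with hK1
  have hK10 : 0 ≤ K1 := by positivity
  -- the inequality for large `n`
  have key : ∀ n : ℕ, 8 ≤ n → ∀ E : Finset (Finset (Fin n)), (∀ e ∈ E, e.card = 4) → EvenH n E →
      ∃ χ : Fin n → Bool, 7 * (n : ℝ) * (720 * cw * ((n : ℝ) - 5) * ((XW5 (mE E) χ : ℤ) : ℝ) +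
        30 * cs * PP n 2 4 * (((nc χ false : ℝ) - nc χ true) ^ 2 - n)) ≤
        a * (385 * (n.descFactorial 7 : ℝ) - 13440 * PP n 4 3 * (E.card : ℝ)) +
        (7 * C + 42 * G + K1) * (n : ℝ) ^ 6 := by
    intro n hn E h4 hE
    have hn0 : (8 : ℝ) ≤ n := by exact_mod_cast hn
    -- the sum of `W7`
    have e1 : ∑ t ∈ inj (Fin n) 8, ((DS (m := 7) (W7 a h E) t : ℤ) : ℝ) =
        8 * ((n : ℝ) - 7) * ∑ s ∈ inj (Fin n) 7, ((W7 a h E s : ℤ) : ℝ) := by
      have e2 : ∀ t : Fin 8 → Fin n, ((DS (m := 7) (W7 a h E) t : ℤ) : ℝ) =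
          ∑ x : Fin (7 + 1), ((W7 a h E (t ∘ x.succAbove) : ℤ) : ℝ) := by
        intro t
        unfold DS
        rw [Int.cast_sum]
      rw [Finset.sum_congr rfl fun t _ => e2 t, Finset.sum_comm]
      have e3 : ∀ x : Fin (7 + 1), ∑ t ∈ inj (Fin n) 8,
          ((W7 a h E (t ∘ x.succAbove) : ℤ) : ℝ) =
          ((n : ℝ) - 7) * ∑ s ∈ inj (Fin n) 7, ((W7 a h E s : ℤ) : ℝ) := by
        intro x
        have h1 := sum_inj_ins (V := Fin n) (m := 7) x (fun _ s => ((W7 a h E s : ℤ) : ℝ))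
        refine h1.trans ?_
        have h2 : ∀ p ∈ inj (Fin n) 7, ∑ r ∈ (univ.image p)ᶜ, ((W7 a h E p : ℤ) : ℝ) =
            ((n : ℝ) - 7) * ((W7 a h E p : ℤ) : ℝ) := by
          intro p hp
          rw [Finset.sum_const, nsmul_eq_mul, card_compl_image p (mem_inj.mp hp),
            Fintype.card_fin]
          push_cast
          ring
        rw [Finset.sum_congr rfl h2, ← Finset.mul_sum]
      rw [Finset.sum_congr rfl fun x _ => e3 x, Finset.sum_const, Finset.card_univ,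
        Fintype.card_fin, nsmul_eq_mul]
      push_cast
      ring
    have e4 : -(56 * |κ6.C| * D8 n) ≤ ∑ t ∈ inj (Fin n) 8,
        ((DS (m := 7) (W7 a h E) t : ℤ) : ℝ) := by
      have h2 := PS_inj_ge (V := Fin n) (k := 6) 0 (fun s u w => ((κ6.f E s u w : ℤ) : ℝ)) κ6.C
        (κ6.psd E) (κ6.bd E) id Function.injective_id
      have e3 : ∀ t : Fin 8 → Fin n, ((PS (k := 6) (κ6.f E) t : ℤ) : ℝ) =
          PS (k := 6) (fun s u w => ((κ6.f E s u w : ℤ) : ℝ)) t := fun t => cast_PS _ t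
      have h3 : -(56 * κ6.C * D8 n) ≤
          ∑ t ∈ inj (Fin n) 8, ((PS (k := 6) (κ6.f E) t : ℤ) : ℝ) := by
        rw [Finset.sum_congr rfl fun t _ => e3 t]
        rw [Fintype.card_fin] at h2
        refine le_trans (le_of_eq ?_) h2
        unfold D8
        norm_num
      have h4' : ∑ t ∈ inj (Fin n) 8, ((PS (k := 6) (κ6.f E) t : ℤ) : ℝ) ≤
          ∑ t ∈ inj (Fin n) 8, ((DS (m := 7) (W7 a h E) t : ℤ) : ℝ) := by
        refine Finset.sum_le_sum fun t ht => ?_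
        exact_mod_cast hB n E h4 hE t (mem_inj.mp ht)
      have h5 : κ6.C * D8 n ≤ |κ6.C| * D8 n :=
        mul_le_mul_of_nonneg_right (le_abs_self _) (D8_nonneg n)
      linarith
    have e5 : -(K1 * (n : ℝ) ^ 6) ≤ ∑ s ∈ inj (Fin n) 7, ((W7 a h E s : ℤ) : ℝ) := by
      set T : ℝ := ∑ s ∈ inj (Fin n) 7, ((W7 a h E s : ℤ) : ℝ) with hT
      rw [e1] at e4
      by_contra hlt
      push Not at hlt
      have h1 : T ≤ 0 := by
        have : 0 ≤ K1 * (n : ℝ) ^ 6 := by positivity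
        linarith
      have h2 : 8 * ((n : ℝ) - 7) * T ≤ n * T := by
        have h3 : (n : ℝ) ≤ 8 * ((n : ℝ) - 7) := by linarith
        exact mul_le_mul_of_nonpos_right h3 h1
      have h3 : (n : ℝ) * T < n * -(K1 * (n : ℝ) ^ 6) :=
        mul_lt_mul_of_pos_left hlt (by linarith)
      have h4 := mul_le_mul_of_nonneg_left (D8_le n) (by positivity : 0 ≤ 56 * |κ6.C|)
      have h5 : (n : ℝ) * -(K1 * (n : ℝ) ^ 6) = -(56 * |κ6.C| * (56 * (n : ℝ) ^ 7)) := by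
        rw [hK1]; ring
      rw [h5] at h3
      linarith
    -- the sum of the potentials
    have e6 : ∑ s ∈ inj (Fin n) 7, ((W7 a h E s : ℤ) : ℝ) =
        a * (385 * (n.descFactorial 7 : ℝ) - 13440 * PP n 4 3 * (E.card : ℝ)) -
        7 * ∑ r : Fin n, ∑ x ∈ (inj (Fin n) 6).filter (fun x => r ∉ univ.image x),
          ((h (zb (Lk E r) x) : ℤ) : ℝ) := by
      rw [← sum_pot]
      have h1 : ∀ s ∈ inj (Fin n) 7, ((W7 a h E s : ℤ) : ℝ) =
          (385 * a : ℝ) - 16 * a * ((S4 (zb E s) : ℤ) : ℝ) -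
          ∑ v : Fin 7, ((h (zb (Lk E (s v)) (s ∘ v.succAbove)) : ℤ) : ℝ) := by
        intro s _
        unfold W7
        push_cast
        ring
      rw [Finset.sum_congr rfl h1, Finset.sum_sub_distrib, Finset.sum_sub_distrib,
        ← Finset.mul_sum (inj (Fin n) 7) (fun s => ((S4 (zb E s) : ℤ) : ℝ)) (16 * (a : ℝ)),
        sum7_S4, S4_mE E h4, Finset.sum_const, nsmul_eq_mul, card_inj, Fintype.card_fin]
      push_cast
      ring
    -- lower bound for the potentials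
    have e7 : ∀ r : Fin n, -((C + 6 * G) * (n : ℝ) ^ 5) +
        (720 * cw * ((n : ℝ) - 5) * ((XW5 (mE E) (pc E r) : ℤ) : ℝ) +
        30 * cs * PP n 2 4 * (((nc (pc E r) false : ℝ) - nc (pc E r) true) ^ 2 - n)) ≤
        ∑ x ∈ (inj (Fin n) 6).filter (fun x => r ∉ univ.image x),
          ((h (zb (Lk E r) x) : ℤ) : ℝ) := by
      intro r
      have h1 : ∑ x ∈ (inj (Fin n) 6).filter (fun x => r ∉ univ.image x),
          (((Z E r x : ℤ) : ℝ) + ((pobj cw cs E r x : ℤ) : ℝ)) ≤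
          ∑ x ∈ (inj (Fin n) 6).filter (fun x => r ∉ univ.image x),
          ((h (zb (Lk E r) x) : ℤ) : ℝ) := by
        refine Finset.sum_le_sum fun x hx => ?_
        rw [Finset.mem_filter, mem_inj] at hx
        have h2 := hrow n E h4 hE r x hx.1 fun i hi => hx.2 (by
          rw [← hi]; exact Finset.mem_image_of_mem x (Finset.mem_univ i))
        exact_mod_cast h2
      have h2 : ∑ x ∈ (inj (Fin n) 6).filter (fun x => r ∉ univ.image x),
          (((Z E r x : ℤ) : ℝ) + ((pobj cw cs E r x : ℤ) : ℝ)) =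
          ∑ x ∈ inj (Fin n) 6, (((Z E r x : ℤ) : ℝ) + ((pobj cw cs E r x : ℤ) : ℝ)) -
          ∑ x ∈ (inj (Fin n) 6).filter (fun x => r ∈ univ.image x),
          (((Z E r x : ℤ) : ℝ) + ((pobj cw cs E r x : ℤ) : ℝ)) := by
        have h3 := Finset.sum_filter_add_sum_filter_not (inj (Fin n) 6)
          (fun x => r ∈ univ.image x)
          (fun x => ((Z E r x : ℤ) : ℝ) + ((pobj cw cs E r x : ℤ) : ℝ))
        linarith
      have h3 : ∑ x ∈ (inj (Fin n) 6).filter (fun x => r ∈ univ.image x),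
          (((Z E r x : ℤ) : ℝ) + ((pobj cw cs E r x : ℤ) : ℝ)) ≤ G * (6 * (n : ℝ) ^ 5) := by
        calc ∑ x ∈ (inj (Fin n) 6).filter (fun x => r ∈ univ.image x),
            (((Z E r x : ℤ) : ℝ) + ((pobj cw cs E r x : ℤ) : ℝ)) ≤
            ∑ _x ∈ (inj (Fin n) 6).filter (fun x => r ∈ univ.image x), G := by
              refine Finset.sum_le_sum fun x _ => ?_
              have h4 := hZB E r x
              have h5 : pobj cw cs E r x ≤ cw * 720 + cs * 30 := by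
                unfold pobj
                exact add_le_add (mul_le_mul_of_nonneg_left (o5_le _ _) hcw.le)
                  (mul_le_mul_of_nonneg_left (S2_le6 _) hcs)
              have h6 : ((pobj cw cs E r x : ℤ) : ℝ) ≤ cw * 720 + cs * 30 := by
                exact_mod_cast h5
              rw [hG]
              linarith
          _ = G * (((inj (Fin n) 6).filter (fun x => r ∈ univ.image x)).card : ℝ) := by
              rw [Finset.sum_const, nsmul_eq_mul]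
              ring
          _ ≤ G * (6 * (n : ℝ) ^ 5) := mul_le_mul_of_nonneg_left (card_mem6 r) hG0
      have h4' := hZ n E h4 hE r
      have h5 : ∑ x ∈ inj (Fin n) 6, ((pobj cw cs E r x : ℤ) : ℝ) =
          720 * cw * ((n : ℝ) - 5) * ((XW5 (mE E) (pc E r) : ℤ) : ℝ) +
          30 * cs * PP n 2 4 * (((nc (pc E r) false : ℝ) - nc (pc E r) true) ^ 2 - n) := by
        have h6 : ∀ x ∈ inj (Fin n) 6, ((pobj cw cs E r x : ℤ) : ℝ) =
            cw * ((o5 (zb E x) (fun i => pc E r (x i)) : ℤ) : ℝ) +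
            cs * ((S2 (fun i => pc E r (x i)) : ℤ) : ℝ) := by
          intro x _
          unfold pobj
          push_cast
          ring
        rw [Finset.sum_congr rfl h6, Finset.sum_add_distrib, ← Finset.mul_sum, ← Finset.mul_sum,
          sum6_o5, sum6_S2', S2_eq]
        push_cast
        ring
      rw [h2, Finset.sum_add_distrib, h5] at h1
      have h7 : (C + 6 * G) * (n : ℝ) ^ 5 = C * (n : ℝ) ^ 5 + G * (6 * (n : ℝ) ^ 5) := by ring
      linarith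
    -- the best vertex
    set V : Fin n → ℝ := fun r => 720 * cw * ((n : ℝ) - 5) * ((XW5 (mE E) (pc E r) : ℤ) : ℝ) +
        30 * cs * PP n 2 4 * (((nc (pc E r) false : ℝ) - nc (pc E r) true) ^ 2 - n) with hV
    have hne : (univ : Finset (Fin n)).Nonempty := ⟨⟨0, by omega⟩, Finset.mem_univ _⟩
    obtain ⟨r, _, hr⟩ := Finset.exists_min_image (univ : Finset (Fin n)) V hne
    refine ⟨pc E r, ?_⟩
    have h1 : (n : ℝ) * V r ≤ ∑ r' : Fin n, V r' := by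
      calc (n : ℝ) * V r = ∑ _r' : Fin n, V r := by
            rw [Finset.sum_const, Finset.card_univ, Fintype.card_fin, nsmul_eq_mul]
        _ ≤ ∑ r' : Fin n, V r' := Finset.sum_le_sum fun r' hr' => hr r' hr'
    have h2 : ∑ r' : Fin n, (-((C + 6 * G) * (n : ℝ) ^ 5) + V r') ≤
        ∑ r' : Fin n, ∑ x ∈ (inj (Fin n) 6).filter (fun x => r' ∉ univ.image x),
          ((h (zb (Lk E r') x) : ℤ) : ℝ) := Finset.sum_le_sum fun r' _ => e7 r'
    rw [Finset.sum_add_distrib, Finset.sum_const, Finset.card_univ, Fintype.card_fin,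
      nsmul_eq_mul] at h2
    rw [e6] at e5
    have h3 : (n : ℝ) * -((C + 6 * G) * (n : ℝ) ^ 5) = -((C + 6 * G) * (n : ℝ) ^ 6) := by ring
    rw [h3] at h2
    have h4' : 7 * (n : ℝ) * V r = 7 * ((n : ℝ) * V r) := by ring
    show 7 * (n : ℝ) * V r ≤ _
    rw [h4']
    have h5 : (7 * C + 42 * G + K1) * (n : ℝ) ^ 6 = 7 * ((C + 6 * G) * (n : ℝ) ^ 6) +
      K1 * (n : ℝ) ^ 6 := by ring
    rw [h5]
    linarith
  -- the limit
  set K : ℝ := 7 * C + 42 * G + K1 + 25200 * cw + 3150 * cs + 8400 * a with hK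
  have hK0 : 0 ≤ K := by positivity
  intro η hη
  obtain ⟨N, hN⟩ := exists_nat_gt (K / (1260 * cw) / η)
  refine ⟨max N 8, fun n hn E h4 hE => ?_⟩
  have hn8 : 8 ≤ n := le_trans (le_max_right _ _) hn
  have hnN : N ≤ n := le_trans (le_max_left _ _) hn
  obtain ⟨χ, hχ⟩ := key n hn8 E h4 hE
  refine ⟨χ, ?_⟩
  have hn0 : (8 : ℝ) ≤ n := by exact_mod_cast hn8
  have hnp : (0 : ℝ) < n := by linarith
  set X5 : ℝ := ((XW5 (mE E) χ : ℤ) : ℝ) with hX5
  have hX0 : 0 ≤ X5 := by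
    rw [hX5]
    exact_mod_cast XW5_nonneg _ _
  have hX1 : X5 ≤ (n : ℝ) ^ 5 := XW5_le _ _
  set d2 : ℝ := ((nc χ false : ℝ) - nc χ true) ^ 2 with hd2
  have hab : (nc χ false : ℝ) + nc χ true = n := by exact_mod_cast nc_add χ
  have hd0 : 0 ≤ d2 := sq_nonneg _
  have hd1 : d2 ≤ (n : ℝ) ^ 2 := by
    rw [hd2, ← hab]
    have ha0 : (0 : ℝ) ≤ (nc χ false : ℝ) := Nat.cast_nonneg _
    have hb0 : (0 : ℝ) ≤ (nc χ true : ℝ) := Nat.cast_nonneg _
    nlinarith [mul_nonneg ha0 hb0]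
  have hE1 := card_quads_le E h4
  have hE0 : (0 : ℝ) ≤ (E.card : ℝ) := Nat.cast_nonneg _
  set e : ℝ := (E.card : ℝ) with he
  have b1 : (n : ℝ) * X5 - 5 * (n : ℝ) ^ 5 ≤ ((n : ℝ) - 5) * X5 := by
    have : 5 * X5 ≤ 5 * (n : ℝ) ^ 5 := by linarith
    linarith
  have b2 : (n : ℝ) ^ 4 * d2 - 15 * (n : ℝ) ^ 5 ≤ PP n 2 4 * (d2 - n) := by
    have h1 : ((n : ℝ) ^ 4 - 14 * (n : ℝ) ^ 3) * d2 ≤ PP n 2 4 * d2 :=
      mul_le_mul_of_nonneg_right (PP24_ge n) hd0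
    have h2 : PP n 2 4 * n ≤ (n : ℝ) ^ 4 * n := mul_le_mul_of_nonneg_right (PP24_le' n hn8) hnp.le
    have h3 : (n : ℝ) ^ 3 * d2 ≤ (n : ℝ) ^ 3 * (n : ℝ) ^ 2 :=
      mul_le_mul_of_nonneg_left hd1 (by positivity)
    have h4' : (n : ℝ) ^ 3 * (n : ℝ) ^ 2 = (n : ℝ) ^ 5 := by ring
    have h5 : (n : ℝ) ^ 4 * n = (n : ℝ) ^ 5 := by ring
    rw [h4'] at h3
    rw [h5] at h2
    linarith
  have b3 : 385 * (n.descFactorial 7 : ℝ) - 13440 * PP n 4 3 * e ≤
      385 * (n : ℝ) ^ 7 - 13440 * (n : ℝ) ^ 3 * e + 8400 * (n : ℝ) ^ 6 := by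
    have h1 := desc_le n 7
    have h2 : ((n : ℝ) ^ 3 - 15 * (n : ℝ) ^ 2) * e ≤ PP n 4 3 * e :=
      mul_le_mul_of_nonneg_right (PP43_ge n hn8) hE0
    have h3 : (n : ℝ) ^ 2 * e ≤ (n : ℝ) ^ 2 * ((n : ℝ) ^ 4 / 24) :=
      mul_le_mul_of_nonneg_left hE1 (by positivity)
    have h4' : (n : ℝ) ^ 2 * ((n : ℝ) ^ 4 / 24) = (n : ℝ) ^ 6 / 24 := by ring
    rw [h4'] at h3
    linarith
  have c1 : 5040 * cw * (n : ℝ) ^ 2 * X5 + 210 * cs * (n : ℝ) ^ 5 * d2 ≤
      a * (385 * (n : ℝ) ^ 7 - 13440 * (n : ℝ) ^ 3 * e) + K * (n : ℝ) ^ 6 := by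
    have h1 := mul_le_mul_of_nonneg_left b1 (by positivity : 0 ≤ 7 * (n : ℝ) * (720 * cw))
    have h2 := mul_le_mul_of_nonneg_left b2 (by positivity : 0 ≤ 7 * (n : ℝ) * (30 * cs))
    have h3 := mul_le_mul_of_nonneg_left b3 ha'
    have e1 : 7 * (n : ℝ) * (720 * cw) * (n * X5 - 5 * (n : ℝ) ^ 5) =
        5040 * cw * (n : ℝ) ^ 2 * X5 - 25200 * cw * (n : ℝ) ^ 6 := by ring
    have e2 : 7 * (n : ℝ) * (30 * cs) * ((n : ℝ) ^ 4 * d2 - 15 * (n : ℝ) ^ 5) =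
        210 * cs * (n : ℝ) ^ 5 * d2 - 3150 * cs * (n : ℝ) ^ 6 := by ring
    have e3 : 7 * (n : ℝ) * (720 * cw * ((n : ℝ) - 5) * X5 + 30 * cs * PP n 2 4 * (d2 - n)) =
        7 * (n : ℝ) * (720 * cw) * (((n : ℝ) - 5) * X5) +
        7 * (n : ℝ) * (30 * cs) * (PP n 2 4 * (d2 - n)) := by ring
    have e4 : K * (n : ℝ) ^ 6 = (7 * C + 42 * G + K1) * (n : ℝ) ^ 6 +
        25200 * cw * (n : ℝ) ^ 6 + 3150 * cs * (n : ℝ) ^ 6 + a * (8400 * (n : ℝ) ^ 6) := by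
      rw [hK]; ring
    rw [e3] at hχ
    rw [e1] at h1
    rw [e2] at h2
    rw [e4]
    linarith
  -- divide by `n ^ 7`
  have hX : XW E χ = 4 * X5 / (n : ℝ) ^ 5 := rfl
  have hs : sg2 χ = d2 / (n : ℝ) ^ 2 := by
    unfold sg2
    rw [hd2, div_pow]
  have hd : e4 E = 24 * e / (n : ℝ) ^ 4 := rfl
  have c2 : 1260 * cw * XW E χ + 210 * cs * sg2 χ ≤
      560 * a * (11 / 16 - e4 E) + K / n := by
    rw [hX, hs, hd]
    have e1 : 1260 * cw * (4 * X5 / (n : ℝ) ^ 5) + 210 * cs * (d2 / (n : ℝ) ^ 2) =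
        (5040 * cw * (n : ℝ) ^ 2 * X5 + 210 * cs * (n : ℝ) ^ 5 * d2) / (n : ℝ) ^ 7 := by
      field_simp
      ring
    have e2 : 560 * a * (11 / 16 - 24 * e / (n : ℝ) ^ 4) + K / n =
        (a * (385 * (n : ℝ) ^ 7 - 13440 * (n : ℝ) ^ 3 * e) + K * (n : ℝ) ^ 6) / (n : ℝ) ^ 7 := by
      field_simp
      ring
    rw [e1, e2]
    exact div_le_div_of_nonneg_right c1 (by positivity)
  have c3 : K / n ≤ 1260 * cw * η := by
    have h1 : K / (1260 * cw) / η < n := lt_of_lt_of_le hN (by exact_mod_cast hnN)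
    rw [div_lt_iff₀ hη, div_lt_iff₀ (by positivity)] at h1
    rw [div_le_iff₀ hnp]
    linarith
  have c4 : 1260 * cw * XW E χ + 210 * cs * sg2 χ ≤
      560 * a * (11 / 16 - e4 E) + 1260 * cw * η := by linarith
  have e5 : XW E χ + cs / (6 * cw) * sg2 χ =
      (1260 * cw * XW E χ + 210 * cs * sg2 χ) / (1260 * cw) := by
    field_simp
    ring
  have e6 : 4 * a / (9 * cw) * (11 / 16 - e4 E) + η =
      (560 * a * (11 / 16 - e4 E) + 1260 * cw * η) / (1260 * cw) := by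
    field_simp
    ring
  rw [e5, e6]
  exact div_le_div_of_nonneg_right c4 (by positivity)

end Pool.Agent.Lib.MP_afdd4d_co.K9.Star
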