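import Pool.Agent.Lib.MP_afdd4d_co.K9.HessGood

/-!
# Equal degrees as a term of the local theorem
-/

namespace Pool.Agent.Lib.MP_afdd4d_co.K9.Star

open Finset K8

/-- Functions of an ordered quadruple and of some roots whose sum over the quadruples is almost
nonnegative up to a multiple of the excess of the density. -/
theorem good_core {P : ∀ n : ℕ, Finset (Finset (Fin n)) → Prop} {X1 : ℝ} {k : ℕ}
    (c : ∀ {n : ℕ}, Finset (Finset (Fin n)) → (Fin n → Bool) → (Fin n → Fin n → Bool) →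
      (Finset (Fin n) → Bool) → (Finset (Fin n) → Bool) → (Fin (4 + k) → Fin n) → ℤ)
    (B C0 : ℕ)
    (hc : ∀ δ : ℝ, 0 < δ → ∃ N : ℕ, ∀ n : ℕ, N ≤ n → ∀ (H : Finset (Finset (Fin n)))
      (χ : Fin n → Bool) M f g, Ctx P X1 H χ M f g → ∀ s : Fin k → Fin n,
        -((16 * (B : ℝ) * (e4 H - 11 / 16) + δ) * (n : ℝ) ^ 4) ≤
          ∑ q : Fin 4 → Fin n, ((c H χ M f g ((Fin.appendEquiv 4 k) (q, s)) : ℤ) : ℝ))
    (hb : ∀ {n : ℕ} (H : Finset (Finset (Fin n))) (χ : Fin n → Bool) M f g,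
      Ctx P X1 H χ M f g → ∀ p, ((c H χ M f g p : ℤ) : ℝ) ≤ C0)
    (j : Fin (4 + k) → Fin 6) (hj : Function.Injective j) :
    Good P X1 (fun H χ M f g t => 15 * c H χ M f g (t ∘ j) +
      (B : ℤ) * (16 * S4 (zb H t) - 165)) := by
  intro δ hδ
  obtain ⟨N1, hN1⟩ := hc (δ / 30) (by positivity)
  obtain ⟨N2, hN2⟩ := exists_nat_gt
    (2 * (15 * (C0 + (16 * B + δ)) * 60 + 2160 * B) / δ)
  refine ⟨max 30 (max N1 N2), fun n hn H χ M f g hctx => ?_⟩
  have hn30 : 30 ≤ n := le_trans (le_max_left _ _) hn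
  have hn1 : N1 ≤ n := le_trans (le_trans (le_max_left _ _) (le_max_right _ _)) hn
  have hn2 : (N2 : ℝ) ≤ n := by
    exact_mod_cast le_trans (le_trans (le_max_right _ _) (le_max_right _ _)) hn
  have hn0 : (0 : ℝ) < n := by exact_mod_cast (by omega : 0 < n)
  have hb' := hb H χ M f g hctx
  have hN1' := hN1 n hn1 H χ M f g hctx
  obtain ⟨h4, hK, hPH, hd, _⟩ := hctx
  have he1 := e4_le_one H h4 (by omega)
  have hB0 : (0 : ℝ) ≤ B := Nat.cast_nonneg _
  have hC0 : (0 : ℝ) ≤ C0 := Nat.cast_nonneg _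
  set a : ℝ := 16 * (B : ℝ) * (e4 H - 11 / 16) + δ / 30 with ha
  have ha0 : 0 ≤ a := by
    rw [ha]
    have : 0 ≤ 16 * (B : ℝ) * (e4 H - 11 / 16) := mul_nonneg (by positivity) (by linarith)
    linarith
  have ha1 : a ≤ 16 * B + δ := by
    rw [ha]
    have : 16 * (B : ℝ) * (e4 H - 11 / 16) ≤ 16 * B * 1 :=
      mul_le_mul_of_nonneg_left (by linarith) (by positivity)
    linarith
  have tot : 0 ≤ ∑ p : Fin (4 + k) → Fin n, (((c H χ M f g p : ℤ) : ℝ) + a) := by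
    rw [← (Fin.appendEquiv 4 k).sum_comp, Fintype.sum_prod_type, Finset.sum_comm]
    refine Finset.sum_nonneg fun s _ => ?_
    rw [Finset.sum_add_distrib]
    have h3 : ∑ _q : Fin 4 → Fin n, a = a * (n : ℝ) ^ 4 := by
      rw [Finset.sum_const, nsmul_eq_mul, Finset.card_univ, Fintype.card_fun, Fintype.card_fin,
        Fintype.card_fin]
      push_cast
      ring
    rw [h3]
    have := hN1' s
    linarith
  have hinj := inj_comp_ge' (V := Fin n) (fun p => ((c H χ M f g p : ℤ) : ℝ) + a)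
    (C0 + a) tot (fun p => by
      have := hb' p
      linarith) j hj
  rw [Fintype.card_fin] at hinj
  have e1 : ∑ t ∈ inj (Fin n) 6, (((c H χ M f g (t ∘ j) : ℤ) : ℝ) + a) =
      ∑ t ∈ inj (Fin n) 6, ((c H χ M f g (t ∘ j) : ℤ) : ℝ) + a * (n.descFactorial 6 : ℝ) := by
    rw [Finset.sum_add_distrib, Finset.sum_const, nsmul_eq_mul, card_inj, Fintype.card_fin]
    ring
  have hinj' : -((C0 + a) * ((n : ℝ) ^ 6 - (n.descFactorial 6 : ℝ))) ≤
      ∑ t ∈ inj (Fin n) 6, ((c H χ M f g (t ∘ j) : ℤ) : ℝ) +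
        a * (n.descFactorial 6 : ℝ) := by
    rw [← e1]
    exact hinj
  have e2 : ∑ t ∈ inj (Fin n) 6, ((15 * c H χ M f g (t ∘ j) +
      (B : ℤ) * (16 * S4 (zb H t) - 165) : ℤ) : ℝ) =
      15 * ∑ t ∈ inj (Fin n) 6, ((c H χ M f g (t ∘ j) : ℤ) : ℝ) +
      (B : ℝ) * (16 * (360 * (PP n 4 2 * (H.card : ℝ))) - 165 * (n.descFactorial 6 : ℝ)) := by
    have e3 : ∀ t : Fin 6 → Fin n, ((15 * c H χ M f g (t ∘ j) +
        (B : ℤ) * (16 * S4 (zb H t) - 165) : ℤ) : ℝ) =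
        15 * ((c H χ M f g (t ∘ j) : ℤ) : ℝ) +
          16 * (B : ℝ) * ((S4 (zb H t) : ℤ) : ℝ) - 165 * (B : ℝ) := by
      intro t
      push_cast
      ring
    rw [Finset.sum_congr rfl fun t _ => e3 t]
    simp_rw [Finset.sum_sub_distrib, Finset.sum_add_distrib, ← Finset.mul_sum]
    rw [sum6_S4 H h4]
    simp only [Finset.sum_const, nsmul_eq_mul, card_inj, Fintype.card_fin]
    ring
  rw [e2]
  have hn6 : (0 : ℝ) < (n : ℝ) ^ 6 := by positivity
  have fe : 24 * (H.card : ℝ) = (n : ℝ) ^ 4 * e4 H := by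
    unfold e4
    field_simp
  have he0 : 0 ≤ e4 H := by linarith
  have b4 : (n : ℝ) ^ 6 * (e4 H - 9 / n) ≤ 24 * (PP n 4 2 * (H.card : ℝ)) := by
    have h1 := PP42_ge n
    have h2 := mul_le_mul_of_nonneg_right h1 (by positivity : 0 ≤ (n : ℝ) ^ 4 * e4 H)
    have h3 : ((n : ℝ) ^ 2 - 9 * n) * ((n : ℝ) ^ 4 * e4 H) =
        (n : ℝ) ^ 6 * (e4 H - e4 H * (9 / n)) := by
      field_simp
    rw [h3, ← fe] at h2
    have h5 : e4 H * (9 / (n : ℝ)) ≤ 9 / n := by
      have : 0 ≤ 9 / (n : ℝ) := by positivity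
      nlinarith
    have h6 : (n : ℝ) ^ 6 * (e4 H - 9 / n) ≤ (n : ℝ) ^ 6 * (e4 H - e4 H * (9 / n)) :=
      mul_le_mul_of_nonneg_left (by linarith) hn6.le
    linarith
  have b6 := desc_le n 6
  have b7 := D6_le hn30
  have b8 : 60 / (n : ℝ) * (n.descFactorial 6 : ℝ) ≤ 60 / (n : ℝ) * (n : ℝ) ^ 6 :=
    mul_le_mul_of_nonneg_left b6 (by positivity)
  have b9 : (C0 + a) * ((n : ℝ) ^ 6 - (n.descFactorial 6 : ℝ)) ≤
      (C0 + (16 * B + δ)) * (60 / (n : ℝ) * (n : ℝ) ^ 6) :=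
    mul_le_mul (by linarith) (by linarith) (by linarith) (by positivity)
  have b10 : a * (n.descFactorial 6 : ℝ) ≤ a * (n : ℝ) ^ 6 := mul_le_mul_of_nonneg_left b6 ha0
  have b11 : (B : ℝ) * (240 * ((n : ℝ) ^ 6 * (e4 H - 9 / n)) - 165 * (n : ℝ) ^ 6) ≤
      (B : ℝ) * (16 * (360 * (PP n 4 2 * (H.card : ℝ))) - 165 * (n.descFactorial 6 : ℝ)) :=
    mul_le_mul_of_nonneg_left (by linarith) hB0
  have b12 : (15 * (C0 + (16 * B + δ)) * 60 + 2160 * B) / n ≤ δ / 2 := by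
    have h7 : 2 * (15 * (C0 + (16 * B + δ)) * 60 + 2160 * B) / δ < n := lt_of_lt_of_le hN2 hn2
    rw [div_lt_iff₀ hδ] at h7
    rw [div_le_iff₀ hn0]
    linarith
  have b13 : (n : ℝ) ^ 6 * (δ / 2 + (15 * (C0 + (16 * B + δ)) * 60 + 2160 * B) / n) ≤
      (n : ℝ) ^ 6 * δ := mul_le_mul_of_nonneg_left (by linarith) hn6.le
  have b14 : (n : ℝ) ^ 6 * (δ / 2 + (15 * (C0 + (16 * B + δ)) * 60 + 2160 * B) / n) =
      (n : ℝ) ^ 6 * (δ / 2) + 15 * ((C0 + (16 * B + δ)) * (60 / (n : ℝ) * (n : ℝ) ^ 6)) +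
        2160 * ((B : ℝ) / n * (n : ℝ) ^ 6) := by ring
  have b15 : 15 * (a * (n : ℝ) ^ 6) =
      (n : ℝ) ^ 6 * (240 * (B : ℝ) * (e4 H - 11 / 16)) + (n : ℝ) ^ 6 * (δ / 2) := by
    rw [ha]
    ring
  have b16 : (B : ℝ) * (240 * ((n : ℝ) ^ 6 * (e4 H - 9 / n)) - 165 * (n : ℝ) ^ 6) =
      (n : ℝ) ^ 6 * (240 * (B : ℝ) * (e4 H - 11 / 16)) -
        2160 * ((B : ℝ) / n * (n : ℝ) ^ 6) := by ring
  rw [b14] at b13
  rw [b16] at b11
  linarith

section reg
variable {n : ℕ}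

/-- The number of ordered edges that start with a vertex. -/
theorem sum_kE_first (H : Finset (Finset (Fin n))) (h4 : ∀ e ∈ H, e.card = 4) (γ : Fin n → ℝ) :
    ∑ q : Fin 4 → Fin n, kE H q * γ (q 0) =
      ∑ x : Fin n, γ x * (6 * ((H.filter fun e => x ∈ e).card : ℝ)) := by
  -- symmetrise over the position
  have h1 : ∀ i : Fin 4, ∑ q : Fin 4 → Fin n, γ (q i) * kE H q =
      ∑ q : Fin 4 → Fin n, γ (q 0) * kE H q := by
    intro i
    have h := sum_kE_perm H (fun q => γ (q 0)) (Equiv.swap 0 i)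
    have h2 : ∀ q : Fin 4 → Fin n, (q ∘ Equiv.swap 0 i) 0 = q i := by
      intro q
      rw [Function.comp_apply, Equiv.swap_apply_left]
    simp only [h2] at h
    exact h
  have h2 : ∑ q : Fin 4 → Fin n, (∑ i : Fin 4, γ (q i)) * kE H q =
      4 * ∑ q : Fin 4 → Fin n, γ (q 0) * kE H q := by
    have h3 : ∀ q : Fin 4 → Fin n, (∑ i : Fin 4, γ (q i)) * kE H q =
        ∑ i : Fin 4, γ (q i) * kE H q := fun q => Finset.sum_mul _ _ _
    rw [Finset.sum_congr rfl fun q _ => h3 q, Finset.sum_comm,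
      Finset.sum_congr rfl fun i _ => h1 i, Finset.sum_const, Finset.card_univ, Fintype.card_fin]
    norm_num
  have h3 : ∑ q : Fin 4 → Fin n, (∑ i : Fin 4, γ (q i)) * kE H q =
      24 * ∑ Q ∈ H, ∑ x ∈ Q, γ x := by
    have h5 := sum_img (V := Fin n) (fun Q => if Q ∈ H then ∑ x ∈ Q, γ x else 0)
    have h6 : ∑ Q ∈ (univ : Finset (Fin n)).powersetCard 4,
        (if Q ∈ H then ∑ x ∈ Q, γ x else 0) = ∑ Q ∈ H, ∑ x ∈ Q, γ x := by
      rw [← Finset.sum_filter]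
      refine Finset.sum_congr ?_ fun _ _ => rfl
      ext Q
      rw [Finset.mem_filter, Finset.mem_powersetCard]
      exact ⟨fun h => h.2, fun h => ⟨⟨Finset.subset_univ _, h4 Q h⟩, h⟩⟩
    rw [h6] at h5
    rw [← h5]
    refine Finset.sum_congr rfl fun q _ => ?_
    by_cases h : Function.Injective q
    · rw [if_pos h]
      unfold kE
      by_cases h7 : univ.image q ∈ H
      · rw [if_pos h7, if_pos h7, mul_one, Finset.sum_image fun a _ b _ hab => h hab]
      · rw [if_neg h7, if_neg h7, mul_zero]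
    · rw [if_neg h, kE_inj H h4 q h, mul_zero]
  have h5 : ∑ Q ∈ H, ∑ x ∈ Q, γ x = ∑ x : Fin n, γ x * ((H.filter fun e => x ∈ e).card : ℝ) := by
    have h6 : ∀ Q ∈ H, ∑ x ∈ Q, γ x = ∑ x : Fin n, if x ∈ Q then γ x else 0 := by
      intro Q _
      rw [← Finset.sum_filter]
      refine Finset.sum_congr ?_ fun _ _ => rfl
      ext x
      simp
    rw [Finset.sum_congr rfl h6, Finset.sum_comm]
    refine Finset.sum_congr rfl fun x _ => ?_
    rw [← Finset.sum_filter, Finset.sum_const, nsmul_eq_mul, mul_comm]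
  have h6 : ∑ q : Fin 4 → Fin n, kE H q * γ (q 0) = ∑ q : Fin 4 → Fin n, γ (q 0) * kE H q :=
    Finset.sum_congr rfl fun q _ => mul_comm _ _
  have h7 : ∑ x : Fin n, γ x * (6 * ((H.filter fun e => x ∈ e).card : ℝ)) =
      6 * ∑ x : Fin n, γ x * ((H.filter fun e => x ∈ e).card : ℝ) := by
    rw [Finset.mul_sum]
    refine Finset.sum_congr rfl fun x _ => ?_
    ring
  rw [h6, h7, ← h5]
  rw [h3] at h2
  linarith

/-- The degrees of an extremal 4-graph are almost equal, in the mean. -/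
theorem reg (H : Finset (Finset (Fin n))) (h4 : ∀ e ∈ H, e.card = 4) (hK : K5F H)
    (hE : Ext n H) (hn : 1 ≤ n) (γ : Fin n → ℝ) (hγ : ∀ x, |γ x| ≤ 1) :
    |∑ q : Fin 4 → Fin n, (kE H q - e4 H) * γ (q 0)| ≤ 6 * (n : ℝ) ^ 3 := by
  have hn0 : (0 : ℝ) < n := by exact_mod_cast hn
  have h1 : ∑ q : Fin 4 → Fin n, (kE H q - e4 H) * γ (q 0) =
      (n : ℝ) ^ 3 * ∑ x : Fin n, (dg H x - e4 H) * γ x := by
    have h2 : ∀ q : Fin 4 → Fin n, (kE H q - e4 H) * γ (q 0) =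
        kE H q * γ (q 0) - e4 H * γ (q 0) := fun q => sub_mul _ _ _
    have h3 : ∑ q : Fin 4 → Fin n, γ (q 0) = (n : ℝ) ^ 3 * ∑ x, γ x := by
      have h7 := Finset.prod_univ_sum (fun _ : Fin 4 => (univ : Finset (Fin n)))
        (fun (j : Fin 4) v => (![γ v, 1, 1, 1] : Fin 4 → ℝ) j)
      rw [Fintype.piFinset_univ, Fin.prod_univ_four] at h7
      have h8 : ∀ q : Fin 4 → Fin n,
          ∏ j : Fin 4, (![γ (q j), 1, 1, 1] : Fin 4 → ℝ) j = γ (q 0) := by
        intro q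
        rw [Fin.prod_univ_four]
        show γ (q 0) * 1 * 1 * 1 = _
        ring
      rw [Finset.sum_congr rfl fun q _ => h8 q] at h7
      rw [← h7]
      have a0 : ∑ v : Fin n, (![γ v, 1, 1, 1] : Fin 4 → ℝ) 0 = ∑ v, γ v := rfl
      have a1 : ∀ i : Fin 4, i ≠ 0 → ∑ v : Fin n, (![γ v, 1, 1, 1] : Fin 4 → ℝ) i = n := by
        intro i hi
        have h9 : ∀ v : Fin n, (![γ v, 1, 1, 1] : Fin 4 → ℝ) i = 1 := by
          intro v
          fin_cases i
          · exact absurd rfl hi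
          · rfl
          · rfl
          · rfl
        rw [Finset.sum_congr rfl fun v _ => h9 v, Finset.sum_const, Finset.card_univ,
          Fintype.card_fin, nsmul_eq_mul, mul_one]
      rw [a0, a1 1 (by decide), a1 2 (by decide), a1 3 (by decide)]
      ring
    rw [Finset.sum_congr rfl fun q _ => h2 q, Finset.sum_sub_distrib, ← Finset.mul_sum, h3,
      sum_kE_first H h4, Finset.mul_sum, Finset.mul_sum, Finset.mul_sum, ← Finset.sum_sub_distrib]
    refine Finset.sum_congr rfl fun x _ => ?_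
    unfold dg
    field_simp
  rw [h1, abs_mul, abs_of_nonneg (by positivity : (0 : ℝ) ≤ (n : ℝ) ^ 3)]
  have h2 : |∑ x : Fin n, (dg H x - e4 H) * γ x| ≤ ∑ x : Fin n, ((dg H x - e4 H) + 6 / n) := by
    refine le_trans (Finset.abs_sum_le_sum_abs _ _) (Finset.sum_le_sum fun x _ => ?_)
    rw [abs_mul]
    have h3 := dg_ge_of_ext H h4 hK hE x
    have h5 : |dg H x - e4 H| ≤ (dg H x - e4 H) + 6 / n := by
      have h6 : (6 : ℝ) / n = 3 / n + 3 / n := by ring
      rw [abs_le]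
      constructor
      · linarith
      · have : (0 : ℝ) < 6 / n := by positivity
        linarith
    calc |dg H x - e4 H| * |γ x| ≤ |dg H x - e4 H| * 1 :=
          mul_le_mul_of_nonneg_left (hγ x) (abs_nonneg _)
      _ ≤ _ := by linarith
  have h3 : ∑ x : Fin n, ((dg H x - e4 H) + 6 / n) = 6 := by
    rw [Finset.sum_add_distrib, Finset.sum_sub_distrib]
    have h5 : ∑ x : Fin n, dg H x = n * e4 H := by
      unfold dg e4
      rw [← Finset.sum_div, ← Finset.mul_sum, sum_deg H h4]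
      field_simp
      ring
    rw [h5]
    simp only [Finset.sum_const, Finset.card_univ, Fintype.card_fin, nsmul_eq_mul]
    field_simp
    ring
  rw [h3] at h2
  calc (n : ℝ) ^ 3 * |∑ x : Fin n, (dg H x - e4 H) * γ x| ≤ (n : ℝ) ^ 3 * 6 :=
        mul_le_mul_of_nonneg_left h2 (by positivity)
    _ = 6 * (n : ℝ) ^ 3 := by ring

end reg

/-- The term of the equality of the degrees. -/
def rc {k : ℕ} (σ : ℤ) (γ : GF k) {n : ℕ} (H : Finset (Finset (Fin n))) (χ : Fin n → Bool)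
    (M : Fin n → Fin n → Bool) (f g : Finset (Fin n) → Bool) (p : Fin (4 + k) → Fin n) : ℤ :=
  σ * ((16 * (if univ.image (fun i : Fin 4 => p (Fin.castAdd k i)) ∈ H then 1 else 0) - 11) *
    γ H χ M f g (fun i => p (Fin.natAdd 4 i)) (p (Fin.castAdd k 0)))

/-- The equality of the degrees as a term of the local theorem, with both signs. -/
theorem good_reg {P : ∀ n : ℕ, Finset (Finset (Fin n)) → Prop} {X1 : ℝ}
    (hP : ∀ n H, P n H → Ext n H) {k : ℕ} (σ : ℤ) (hσ : |σ| ≤ 1) (γ : GF k) (G : ℕ) (hG0 : 0 < G)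
    (hG : ∀ {n : ℕ} (H : Finset (Finset (Fin n))) (χ : Fin n → Bool) M f g,
      Ctx P X1 H χ M f g → ∀ s x, |γ H χ M f g s x| ≤ G)
    (j : Fin (4 + k) → Fin 6) (hj : Function.Injective j) :
    Good P X1 (fun H χ M f g t => 15 * rc σ γ H χ M f g (t ∘ j) +
      (G : ℤ) * (16 * S4 (zb H t) - 165)) := by
  have hG0' : (0 : ℝ) < G := by exact_mod_cast hG0
  have hσ' : |(σ : ℝ)| ≤ 1 := by exact_mod_cast hσ
  refine good_core (c := fun H χ M f g p => rc σ γ H χ M f g p) G (16 * G) ?_ ?_ j hj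
  · intro δ hδ
    obtain ⟨N, hN⟩ := exists_nat_gt (96 * (G : ℝ) / δ)
    refine ⟨max N 1, fun n hn H χ M f g hctx s => ?_⟩
    have hnN : (N : ℝ) ≤ n := by exact_mod_cast le_trans (le_max_left _ _) hn
    have hn1 : 1 ≤ n := le_trans (le_max_right _ _) hn
    have hn0 : (0 : ℝ) < n := by exact_mod_cast hn1
    have hb := hG H χ M f g hctx
    obtain ⟨h4, hK, hPH, hd, _⟩ := hctx
    set u : Fin n → ℝ := fun x => (γ H χ M f g s x : ℝ) / G with hu
    have hu1 : ∀ x, |u x| ≤ 1 := by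
      intro x
      rw [hu]
      show |(γ H χ M f g s x : ℝ) / G| ≤ 1
      rw [abs_div, abs_of_pos hG0', div_le_one hG0']
      have := hb s x
      exact_mod_cast this
    have h1 := reg H h4 hK (hP n H hPH) hn1 u hu1
    have h2 : ∀ q : Fin 4 → Fin n, ((rc σ γ H χ M f g ((Fin.appendEquiv 4 k) (q, s)) : ℤ) : ℝ) =
        16 * G * (σ * ((kE H q - e4 H) * u (q 0))) +
          16 * G * ((e4 H - 11 / 16) * (σ * u (q 0))) := by
      intro q
      unfold rc kE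
      simp only [Fin.appendEquiv_apply, Fin.append_left, Fin.append_right, hu]
      push_cast
      field_simp
      split_ifs <;> ring
    rw [Finset.sum_congr rfl fun q _ => h2 q, Finset.sum_add_distrib, ← Finset.mul_sum,
      ← Finset.mul_sum, ← Finset.mul_sum, ← Finset.mul_sum]
    have h3 : -(6 * (n : ℝ) ^ 3) ≤ σ * ∑ q : Fin 4 → Fin n, (kE H q - e4 H) * u (q 0) := by
      have h5 : |σ * ∑ q : Fin 4 → Fin n, (kE H q - e4 H) * u (q 0)| ≤ 6 * (n : ℝ) ^ 3 := by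
        rw [abs_mul]
        calc |(σ : ℝ)| * |∑ q : Fin 4 → Fin n, (kE H q - e4 H) * u (q 0)| ≤
            1 * (6 * (n : ℝ) ^ 3) := mul_le_mul hσ' h1 (abs_nonneg _) (by norm_num)
          _ = _ := one_mul _
      exact (abs_le.mp h5).1
    have h6 : -((n : ℝ) ^ 4) ≤ ∑ q : Fin 4 → Fin n, (σ : ℝ) * u (q 0) := by
      have h7 : ∑ q : Fin 4 → Fin n, (-1 : ℝ) ≤ ∑ q : Fin 4 → Fin n, (σ : ℝ) * u (q 0) := by
        refine Finset.sum_le_sum fun q _ => ?_
        have h8 : |(σ : ℝ) * u (q 0)| ≤ 1 := by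
          rw [abs_mul]
          exact mul_le_one₀ hσ' (abs_nonneg _) (hu1 _)
        exact (abs_le.mp h8).1
      refine le_trans (le_of_eq ?_) h7
      rw [Finset.sum_const, nsmul_eq_mul, Finset.card_univ, Fintype.card_fun, Fintype.card_fin,
        Fintype.card_fin]
      push_cast
      ring
    have h9 : 96 * (G : ℝ) * (n : ℝ) ^ 3 ≤ δ * (n : ℝ) ^ 4 := by
      have h10 : 96 * (G : ℝ) / δ < n := lt_of_lt_of_le hN hnN
      rw [div_lt_iff₀ hδ] at h10
      have h11 : 96 * (G : ℝ) * (n : ℝ) ^ 3 ≤ (n * δ) * (n : ℝ) ^ 3 :=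
        mul_le_mul_of_nonneg_right h10.le (by positivity)
      calc _ ≤ _ := h11
        _ = _ := by ring
    have h10 : 16 * (G : ℝ) * (-(6 * (n : ℝ) ^ 3)) ≤
        16 * G * (σ * ∑ q : Fin 4 → Fin n, (kE H q - e4 H) * u (q 0)) :=
      mul_le_mul_of_nonneg_left h3 (by positivity)
    have h11 : 16 * (G : ℝ) * ((e4 H - 11 / 16) * (-((n : ℝ) ^ 4))) ≤
        16 * G * ((e4 H - 11 / 16) * ∑ q : Fin 4 → Fin n, (σ : ℝ) * u (q 0)) :=
      mul_le_mul_of_nonneg_left (mul_le_mul_of_nonneg_left h6 (by linarith)) (by positivity)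
    linarith
  · intro n H χ M f g hctx p
    have hb := hG H χ M f g hctx
    have h1 : |rc σ γ H χ M f g p| ≤ 16 * (G : ℤ) := by
      unfold rc
      rw [abs_mul, abs_mul]
      have h2 : |(16 * (if univ.image (fun i : Fin 4 => p (Fin.castAdd k i)) ∈ H then 1 else 0)
          - 11 : ℤ)| ≤ 16 := by
        split_ifs <;> norm_num
      have h3 := hb (fun i => p (Fin.natAdd 4 i)) (p (Fin.castAdd k 0))
      have h5 := mul_le_mul h2 h3 (abs_nonneg _) (by norm_num)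
      calc _ ≤ 1 * (16 * (G : ℤ)) := mul_le_mul hσ h5 (by positivity) (by norm_num)
        _ = _ := one_mul _
    have h2 := le_trans (le_abs_self _) h1
    exact_mod_cast h2

end Pool.Agent.Lib.MP_afdd4d_co.K9.Star
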