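import Pool.Agent.Lib.MP_afdd4d_co.K8.GSkel

/-!
# Terms for pairs of a 4-graph and an optimal even 4-graph

Functions of a few vertices whose average over all tuples of vertices is nonnegative for every
4-graph together with an even 4-graph of smallest cost: joint kernels with several roots and flags
of several vertices, and changes of the even 4-graph by coboundaries of functions of triples that
contain up to three fixed vertices.
-/

namespace Pool.Agent.Lib.MP_afdd4d_co.K9.Star

open Finset K8

/-! ### Sums over injective tuples -/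

section gen
variable {V : Type*} [Fintype V] [DecidableEq V] {k M : ℕ}

theorem inj_comp_ge' (K : (Fin k → V) → ℝ) (C : ℝ) (hK : 0 ≤ ∑ t, K t) (hC : ∀ t, K t ≤ C)
    (j : Fin k → Fin M) (hj : Function.Injective j) :
    -(C * ((Fintype.card V : ℝ) ^ M - ((Fintype.card V).descFactorial M : ℝ))) ≤
      ∑ t ∈ inj V M, K (t ∘ j) := by
  have h1 : k ≤ M := by
    have h := Fintype.card_le_of_injective j hj
    rwa [Fintype.card_fin, Fintype.card_fin] at h
  obtain ⟨d, rfl⟩ := Nat.exists_eq_add_of_le h1
  exact inj_comp_ge d K C hK hC j hj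

end gen

/-- The number of tuples of eight vertices that are not injective. -/
noncomputable def D8 (n : ℕ) : ℝ := (n : ℝ) ^ 8 - (n.descFactorial 8 : ℝ)

theorem D8_nonneg (n : ℕ) : 0 ≤ D8 n := by
  unfold D8
  have h : (n.descFactorial 8 : ℝ) ≤ (n : ℝ) ^ 8 := by
    exact_mod_cast Nat.descFactorial_le_pow n 8
  linarith

/-- A function of `m` vertices with nonnegative average for all pairs with an optimal even
4-graph. -/
structure AT (c : Bool → Bool → ℤ) (m : ℕ) where
  f : ∀ {n : ℕ}, Finset (Finset (Fin n)) → Finset (Finset (Fin n)) → (Fin m → Fin n) → ℤ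
  C : ℝ
  avg : ∀ {n : ℕ} (H E : Finset (Finset (Fin n))), OptE c H E →
    ∀ j : Fin m → Fin 8, Function.Injective j →
      -(C * D8 n) ≤ ∑ t ∈ inj (Fin n) 8, ((f H E (t ∘ j) : ℤ) : ℝ)

namespace AT
variable {c : Bool → Bool → ℤ} {m : ℕ}

/-- Functions with nonnegative total sum and bounded values. -/
def ofTot (f : ∀ {n : ℕ}, Finset (Finset (Fin n)) → Finset (Finset (Fin n)) → (Fin m → Fin n) → ℤ)
    (C : ℝ) (h1 : ∀ {n : ℕ} (H E : Finset (Finset (Fin n))), OptE c H E →
      0 ≤ ∑ p, ((f H E p : ℤ) : ℝ))
    (h2 : ∀ {n : ℕ} (H E : Finset (Finset (Fin n))) (p : Fin m → Fin n),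
      ((f H E p : ℤ) : ℝ) ≤ C) : AT c m where
  f := f
  C := C
  avg := by
    intro n H E hE j hj
    have h := inj_comp_ge' (V := Fin n) (fun p => ((f H E p : ℤ) : ℝ)) C (h1 H E hE)
      (fun p => h2 H E p) j hj
    rw [Fintype.card_fin] at h
    exact h

/-- The zero term. -/
def zero : AT c m where
  f := fun _ _ _ => 0
  C := 0
  avg := by
    intro n H E _ j _
    simp

/-- The sum of two terms. -/
def add (A B : AT c m) : AT c m where
  f := fun H E p => A.f H E p + B.f H E p
  C := A.C + B.C
  avg := by
    intro n H E hE j hj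
    have h1 := A.avg H E hE j hj
    have h2 := B.avg H E hE j hj
    have h3 : ∑ t ∈ inj (Fin n) 8, ((A.f H E (t ∘ j) + B.f H E (t ∘ j) : ℤ) : ℝ) =
        ∑ t ∈ inj (Fin n) 8, ((A.f H E (t ∘ j) : ℤ) : ℝ) +
          ∑ t ∈ inj (Fin n) 8, ((B.f H E (t ∘ j) : ℤ) : ℝ) := by
      rw [← Finset.sum_add_distrib]
      refine Finset.sum_congr rfl fun t _ => ?_
      push_cast
      rfl
    rw [h3]
    linarith

/-- A multiple of a term. -/
def smul (w : ℕ) (A : AT c m) : AT c m where
  f := fun H E p => (w : ℤ) * A.f H E p
  C := w * A.C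
  avg := by
    intro n H E hE j hj
    have h1 := A.avg H E hE j hj
    have h3 : ∑ t ∈ inj (Fin n) 8, (((w : ℤ) * A.f H E (t ∘ j) : ℤ) : ℝ) =
        (w : ℝ) * ∑ t ∈ inj (Fin n) 8, ((A.f H E (t ∘ j) : ℤ) : ℝ) := by
      rw [Finset.mul_sum]
      refine Finset.sum_congr rfl fun t _ => ?_
      push_cast
      rfl
    rw [h3]
    have h4 := mul_le_mul_of_nonneg_left h1 (Nat.cast_nonneg (α := ℝ) w)
    have h5 : -(w * A.C * D8 n) = (w : ℝ) * -(A.C * D8 n) := by ring
    rw [h5]
    exact h4

/-- The sum of a family of terms. -/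
def sum {ι : Type*} (s : Finset ι) (A : ι → AT c m) : AT c m where
  f := fun H E p => ∑ i ∈ s, (A i).f H E p
  C := ∑ i ∈ s, (A i).C
  avg := by
    intro n H E hE j hj
    have h3 : ∑ t ∈ inj (Fin n) 8, ((∑ i ∈ s, (A i).f H E (t ∘ j) : ℤ) : ℝ) =
        ∑ i ∈ s, ∑ t ∈ inj (Fin n) 8, (((A i).f H E (t ∘ j) : ℤ) : ℝ) := by
      rw [Finset.sum_comm]
      refine Finset.sum_congr rfl fun t _ => ?_
      push_cast
      rfl
    rw [h3]
    have h5 : -((∑ i ∈ s, (A i).C) * D8 n) = ∑ i ∈ s, -((A i).C * D8 n) := by
      rw [Finset.sum_mul, Finset.sum_neg_distrib]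
    rw [h5]
    exact Finset.sum_le_sum fun i _ => (A i).avg H E hE j hj

/-- A term as a function of more vertices. -/
def comp {M : ℕ} (A : AT c m) (i : Fin m → Fin M) (hi : Function.Injective i) : AT c M where
  f := fun H E p => A.f H E (p ∘ i)
  C := A.C
  avg := by
    intro n H E hE j hj
    exact A.avg H E hE (j ∘ i) (hj.comp hi)

end AT

/-! ### Joint kernels -/

/-- A kernel with `k` roots and flags of `m` vertices. -/
structure FK (k m : ℕ) where
  f : ∀ {n : ℕ}, Finset (Finset (Fin n)) → Finset (Finset (Fin n)) → (Fin k → Fin n) →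
    (Fin m → Fin n) → (Fin m → Fin n) → ℤ
  C : ℝ
  psd : ∀ {n : ℕ} (H E : Finset (Finset (Fin n))) (s : Fin k → Fin n),
    0 ≤ ∑ x, ∑ y, ((f H E s x y : ℤ) : ℝ)
  bd : ∀ {n : ℕ} (H E : Finset (Finset (Fin n))) s x y, ((f H E s x y : ℤ) : ℝ) ≤ C

namespace FK
variable {k m : ℕ}

/-- The value at a tuple. -/
def val (κ : FK k m) {n : ℕ} (H E : Finset (Finset (Fin n))) (p : Fin (k + (m + m)) → Fin n) : ℤ :=
  κ.f H E (p ∘ Fin.castAdd (m + m)) ((p ∘ Fin.natAdd k) ∘ Fin.castAdd m)
    ((p ∘ Fin.natAdd k) ∘ Fin.natAdd m)

/-- The term of a kernel. -/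
def term (κ : FK k m) (c : Bool → Bool → ℤ) : AT c (k + (m + m)) :=
  AT.ofTot (fun H E p => κ.val H E p) κ.C
    (by
      intro n H E _
      rw [← (Fin.appendEquiv k (m + m)).sum_comp, Fintype.sum_prod_type]
      refine Finset.sum_nonneg fun s _ => ?_
      rw [← (Fin.appendEquiv m m).sum_comp, Fintype.sum_prod_type]
      refine le_trans (κ.psd H E s) (le_of_eq ?_)
      refine Finset.sum_congr rfl fun x _ => Finset.sum_congr rfl fun y _ => ?_
      congr 2
      · funext i
        simp only [Function.comp_apply, Fin.appendEquiv_apply, Fin.append_left]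
      · funext i
        simp only [Function.comp_apply, Fin.appendEquiv_apply, Fin.append_right, Fin.append_left]
      · funext i
        simp only [Function.comp_apply, Fin.appendEquiv_apply, Fin.append_right])
    (fun H E p => κ.bd H E _ _ _)

end FK

/-- A kernel for pairs as a kernel with flags of one vertex. -/
def _root_.Pool.Agent.Lib.MP_afdd4d_co.K8.PKern.toFK {k : ℕ} (κ : PKern k) : FK k 1 where
  f := fun H E s x y => κ.f H E s (x 0) (y 0)
  C := κ.C
  psd := by
    intro n H E s
    have h := κ.psd H E s
    rw [← (Equiv.funUnique (Fin 1) (Fin n)).sum_comp] at h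
    refine le_trans h (le_of_eq (Finset.sum_congr rfl fun x _ => ?_))
    rw [← (Equiv.funUnique (Fin 1) (Fin n)).sum_comp]
    rfl
  bd := fun H E s x y => κ.bd H E s _ _

/-! ### Changes of the even 4-graph -/

section fib
variable {V : Type*} [Fintype V] [DecidableEq V] {i j : ℕ}

/-- The extensions of an injective tuple to an ordering of a set. -/
noncomputable def fibU (u : Fin i → V) (hu : Function.Injective u) (Q : Finset V)
    (hQ : ∀ a, u a ∈ Q) :
    {x : Fin j → V // Function.Injective (Fin.append u x) ∧ univ.image (Fin.append u x) = Q} ≃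
      (Fin j ≃ (Q \ univ.image u : Finset V)) where
  toFun x := Equiv.ofBijective
    (fun b => (⟨x.1 b, by
      rw [Finset.mem_sdiff]
      constructor
      · have h : Fin.append u x.1 (Fin.natAdd i b) ∈ univ.image (Fin.append u x.1) :=
          Finset.mem_image_of_mem _ (Finset.mem_univ _)
        rw [Fin.append_right, x.2.2] at h
        exact h
      · intro h
        obtain ⟨a, _, ha⟩ := Finset.mem_image.mp h
        have h2 : Fin.append u x.1 (Fin.castAdd j a) = Fin.append u x.1 (Fin.natAdd i b) := by
          rw [Fin.append_left, Fin.append_right, ha]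
        have h3 := congrArg Fin.val (x.2.1 h2)
        rw [Fin.val_castAdd, Fin.val_natAdd] at h3
        have := a.isLt
        omega⟩ : (Q \ univ.image u : Finset V))) (by
      constructor
      · intro a b hab
        have h1 : x.1 a = x.1 b := congrArg Subtype.val hab
        have h2 : Fin.append u x.1 (Fin.natAdd i a) = Fin.append u x.1 (Fin.natAdd i b) := by
          rw [Fin.append_right, Fin.append_right, h1]
        exact Fin.natAdd_injective _ _ (x.2.1 h2)
      · rintro ⟨q, hq⟩
        rw [Finset.mem_sdiff] at hq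
        have h : q ∈ univ.image (Fin.append u x.1) := by rw [x.2.2]; exact hq.1
        obtain ⟨a, _, ha⟩ := Finset.mem_image.mp h
        induction a using Fin.addCases with
        | left a' =>
          rw [Fin.append_left] at ha
          exact absurd (Finset.mem_image.mpr ⟨a', Finset.mem_univ _, ha⟩) hq.2
        | right b =>
          rw [Fin.append_right] at ha
          exact ⟨b, Subtype.ext ha⟩)
  invFun e := ⟨fun b => (e b : V), by
    constructor
    · intro a b
      refine Fin.addCases (motive := fun a => Fin.append u _ a = Fin.append u _ b → a = b)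
        ?_ ?_ a
      · intro a'
        refine Fin.addCases (motive := fun b => Fin.append u _ (Fin.castAdd j a') =
          Fin.append u _ b → Fin.castAdd j a' = b) ?_ ?_ b
        · intro b' h
          rw [Fin.append_left, Fin.append_left] at h
          rw [hu h]
        · intro b' h
          rw [Fin.append_left, Fin.append_right] at h
          have h2 := (Finset.mem_sdiff.mp (e b').2).2
          exact absurd (Finset.mem_image.mpr ⟨a', Finset.mem_univ _, h⟩) h2
      · intro a'
        refine Fin.addCases (motive := fun b => Fin.append u _ (Fin.natAdd i a') =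
          Fin.append u _ b → Fin.natAdd i a' = b) ?_ ?_ b
        · intro b' h
          rw [Fin.append_left, Fin.append_right] at h
          have h2 := (Finset.mem_sdiff.mp (e a').2).2
          exact absurd (Finset.mem_image.mpr ⟨b', Finset.mem_univ _, h.symm⟩) h2
        · intro b' h
          rw [Fin.append_right, Fin.append_right] at h
          rw [e.injective (Subtype.ext h)]
    · ext q
      rw [Finset.mem_image]
      constructor
      · rintro ⟨a, _, rfl⟩
        refine Fin.addCases (motive := fun a => Fin.append u _ a ∈ Q) ?_ ?_ a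
        · intro a'
          rw [Fin.append_left]
          exact hQ a'
        · intro b'
          rw [Fin.append_right]
          exact (Finset.mem_sdiff.mp (e b').2).1
      · intro hq
        by_cases h : q ∈ univ.image u
        · obtain ⟨a, _, ha⟩ := Finset.mem_image.mp h
          exact ⟨Fin.castAdd j a, Finset.mem_univ _, by rw [Fin.append_left, ha]⟩
        · refine ⟨Fin.natAdd i (e.symm ⟨q, Finset.mem_sdiff.mpr ⟨hq, h⟩⟩), Finset.mem_univ _, ?_⟩
          rw [Fin.append_right, Equiv.apply_symm_apply]⟩
  left_inv x := by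
    apply Subtype.ext
    rfl
  right_inv e := by
    ext b
    rfl

theorem card_fibU (u : Fin i → V) (hu : Function.Injective u) (hij : i + j = 4) (Q : Finset V)
    (hc : Q.card = 4) (hQ : ∀ a, u a ∈ Q) :
    ((univ : Finset (Fin j → V)).filter fun x => Function.Injective (Fin.append u x) ∧
      univ.image (Fin.append u x) = Q).card = j.factorial := by
  classical
  have h1 : (Q \ univ.image u).card = j := by
    rw [Finset.card_sdiff_of_subset, Finset.card_image_of_injective _ hu, Finset.card_univ,
      Fintype.card_fin, hc]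
    · omega
    · intro q hq
      obtain ⟨a, _, ha⟩ := Finset.mem_image.mp hq
      rw [← ha]
      exact hQ a
  rw [← Fintype.card_subtype, Fintype.card_congr (fibU u hu Q hQ),
    Fintype.card_equiv (Fintype.equivOfCardEq (by rw [Fintype.card_fin, Fintype.card_coe, h1])),
    Fintype.card_fin]

/-- The sum over the extensions of an injective tuple of a function of the set. -/
theorem sum_ext (u : Fin i → V) (hu : Function.Injective u) (hij : i + j = 4)
    (F : Finset V → ℝ) (hF : ∀ Q, Q.card = 4 → (¬ ∀ a, u a ∈ Q) → F Q = 0) :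
    ∑ x : Fin j → V, (if Function.Injective (Fin.append u x) then F (univ.image (Fin.append u x))
      else 0) = (j.factorial : ℝ) * ∑ Q ∈ (univ : Finset V).powersetCard 4, F Q := by
  classical
  rw [← Finset.sum_filter]
  have hm : ∀ x ∈ (univ : Finset (Fin j → V)).filter (fun x => Function.Injective (Fin.append u x)),
      univ.image (Fin.append u x) ∈ (univ : Finset V).powersetCard 4 := by
    intro b hb
    rw [Finset.mem_powersetCard]
    refine ⟨Finset.subset_univ _, ?_⟩
    rw [Finset.card_image_of_injective _ (Finset.mem_filter.mp hb).2, Finset.card_univ,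
      Fintype.card_fin, hij]
  rw [← Finset.sum_fiberwise_of_maps_to hm, Finset.mul_sum]
  refine Finset.sum_congr rfl fun Q hQ => ?_
  have hc := (Finset.mem_powersetCard.mp hQ).2
  rw [Finset.filter_filter]
  have h1 : ∀ b ∈ (univ : Finset (Fin j → V)).filter
      (fun b => Function.Injective (Fin.append u b) ∧ univ.image (Fin.append u b) = Q),
      F (univ.image (Fin.append u b)) = F Q := by
    intro b hb
    rw [(Finset.mem_filter.mp hb).2.2]
  rw [Finset.sum_congr rfl h1, Finset.sum_const, nsmul_eq_mul]
  by_cases h : ∀ a, u a ∈ Q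
  · rw [card_fibU u hu hij Q hc h]
  · rw [hF Q hc h, mul_zero, mul_zero]

end fib

section mv
variable {n : ℕ}

/-- The change of the cost if the membership of `Q` in `E` is changed. -/
def dc (c : Bool → Bool → ℤ) (H E : Finset (Finset (Fin n))) (Q : Finset (Fin n)) : ℤ :=
  c (decide (Q ∈ H)) (!decide (Q ∈ E)) - c (decide (Q ∈ H)) (decide (Q ∈ E))

/-- The change of the cost by the coboundary of `γ` at `Q`. -/
def mvQ (c : Bool → Bool → ℤ) (H E : Finset (Finset (Fin n))) (γ : Finset (Fin n) → Bool)
    (Q : Finset (Fin n)) : ℤ := if par γ Q = true then dc c H E Q else 0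

theorem mvQ_sum (c : Bool → Bool → ℤ) (H E : Finset (Finset (Fin n))) (h : OptE c H E)
    (γ : Finset (Fin n) → Bool) :
    0 ≤ ∑ Q ∈ (univ : Finset (Fin n)).powersetCard 4, mvQ c H E γ Q := by
  have h1 := h.2.2 (flpE E γ) (flpE_card E γ) (evenH_flpE E h.2.1 γ)
  have h2 : K8.cst c H (flpE E γ) - K8.cst c H E = ∑ Q ∈ (univ : Finset (Fin n)).powersetCard 4,
      mvQ c H E γ Q := by
    unfold K8.cst
    rw [← Finset.sum_sub_distrib]
    refine Finset.sum_congr rfl fun Q hQ => ?_
    rw [dec_flpE E γ Q (Finset.mem_powersetCard.mp hQ).2]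
    unfold mvQ dc
    cases par γ Q with
    | false => rw [Bool.xor_false, if_neg Bool.false_ne_true, sub_self]
    | true => rw [Bool.xor_true, if_pos rfl]
  linarith

end mv

/-- A change of the even 4-graph: `i` fixed vertices, `k` further roots, `j` free vertices. -/
structure Mv (i k j : ℕ) where
  γ : ∀ {n : ℕ}, Finset (Finset (Fin n)) → Finset (Finset (Fin n)) → (Fin (i + k) → Fin n) →
    Finset (Fin n) → Bool
  g : ∀ {n : ℕ}, Finset (Finset (Fin n)) → Finset (Finset (Fin n)) → (Fin (i + k) → Fin n) → ℤ
  B : ℤ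
  g0 : ∀ {n : ℕ} (H E : Finset (Finset (Fin n))) R, 0 ≤ g H E R
  gB : ∀ {n : ℕ} (H E : Finset (Finset (Fin n))) R, g H E R ≤ B
  sup : ∀ {n : ℕ} (H E : Finset (Finset (Fin n))) (R : Fin (i + k) → Fin n) (Q : Finset (Fin n)),
    Q.card = 4 → par (γ H E R) Q = true → ∀ a : Fin i, R (Fin.castAdd k a) ∈ Q

namespace Mv
variable {i k j : ℕ}

/-- The value at roots and free vertices. -/
def fv (μ : Mv i k j) (c : Bool → Bool → ℤ) {n : ℕ} (H E : Finset (Finset (Fin n)))
    (R : Fin (i + k) → Fin n) (x : Fin j → Fin n) : ℤ :=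
  if Function.Injective (Fin.append (R ∘ Fin.castAdd k) x) then
    μ.g H E R * mvQ c H E (μ.γ H E R) (univ.image (Fin.append (R ∘ Fin.castAdd k) x)) else 0

theorem fv_sum (μ : Mv i k j) (hij : i + j = 4) (c : Bool → Bool → ℤ) {n : ℕ}
    (H E : Finset (Finset (Fin n))) (h : OptE c H E) (R : Fin (i + k) → Fin n) :
    0 ≤ ∑ x, ((μ.fv c H E R x : ℤ) : ℝ) := by
  by_cases hu : Function.Injective (R ∘ Fin.castAdd k)
  · have e1 : ∀ x : Fin j → Fin n, ((μ.fv c H E R x : ℤ) : ℝ) =
        if Function.Injective (Fin.append (R ∘ Fin.castAdd k) x) then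
          (fun Q : Finset (Fin n) => ((μ.g H E R * mvQ c H E (μ.γ H E R) Q : ℤ) : ℝ))
            (univ.image (Fin.append (R ∘ Fin.castAdd k) x)) else 0 := by
      intro x
      unfold fv
      split_ifs
      · rfl
      · simp
    rw [Finset.sum_congr rfl fun x _ => e1 x, sum_ext (R ∘ Fin.castAdd k) hu hij
      (fun Q : Finset (Fin n) => ((μ.g H E R * mvQ c H E (μ.γ H E R) Q : ℤ) : ℝ)) (by
        intro Q hc hQ
        have h1 : par (μ.γ H E R) Q ≠ true := fun h2 => hQ (μ.sup H E R Q hc h2)
        show ((μ.g H E R * mvQ c H E (μ.γ H E R) Q : ℤ) : ℝ) = 0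
        unfold mvQ
        rw [if_neg h1]
        simp)]
    refine mul_nonneg (Nat.cast_nonneg _) ?_
    have h2 : ∑ Q ∈ (univ : Finset (Fin n)).powersetCard 4,
        ((μ.g H E R * mvQ c H E (μ.γ H E R) Q : ℤ) : ℝ) =
        ((μ.g H E R * ∑ Q ∈ (univ : Finset (Fin n)).powersetCard 4,
          mvQ c H E (μ.γ H E R) Q : ℤ) : ℝ) := by
      rw [Finset.mul_sum]
      push_cast
      rfl
    rw [h2]
    exact_mod_cast mul_nonneg (μ.g0 H E R) (mvQ_sum c H E h _)
  · refine Finset.sum_nonneg fun x _ => ?_
    unfold fv
    rw [if_neg]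
    · simp
    · intro h1
      apply hu
      intro a b hab
      have h2 : Fin.append (R ∘ Fin.castAdd k) x (Fin.castAdd j a) =
          Fin.append (R ∘ Fin.castAdd k) x (Fin.castAdd j b) := by
        rw [Fin.append_left, Fin.append_left]
        exact hab
      exact Fin.castAdd_injective _ _ (h1 h2)

/-- The value at a tuple. -/
def val (μ : Mv i k j) (c : Bool → Bool → ℤ) {n : ℕ} (H E : Finset (Finset (Fin n)))
    (p : Fin (i + k + j) → Fin n) : ℤ :=
  μ.fv c H E (p ∘ Fin.castAdd j) (p ∘ Fin.natAdd (i + k))

/-- The term of a change. -/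
def term (μ : Mv i k j) (hij : i + j = 4) (c : Bool → Bool → ℤ) (C : ℤ) (hC0 : 0 ≤ C)
    (hC : ∀ x y, c x (!y) - c x y ≤ C) : AT c (i + k + j) :=
  AT.ofTot (fun H E p => μ.val c H E p) (μ.B * C : ℤ)
    (by
      intro n H E hE
      rw [← (Fin.appendEquiv (i + k) j).sum_comp, Fintype.sum_prod_type]
      refine Finset.sum_nonneg fun R _ => ?_
      refine le_trans (μ.fv_sum hij c H E hE R) (le_of_eq ?_)
      refine Finset.sum_congr rfl fun x _ => ?_
      unfold val
      congr 2
      · funext a
        simp only [Function.comp_apply, Fin.appendEquiv_apply, Fin.append_left]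
      · funext a
        simp only [Function.comp_apply, Fin.appendEquiv_apply, Fin.append_right])
    (by
      intro n H E p
      have hB : 0 ≤ μ.B := le_trans (μ.g0 H E (p ∘ Fin.castAdd j)) (μ.gB H E _)
      have h : μ.val c H E p ≤ μ.B * C := by
        unfold val fv
        split_ifs with h1
        · unfold mvQ
          split_ifs with h2
          · unfold dc
            have h3 := hC (decide ((univ.image (Fin.append ((p ∘ Fin.castAdd j) ∘
              Fin.castAdd k) (p ∘ Fin.natAdd (i + k)))) ∈ H)) (decide ((univ.image (Fin.append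
              ((p ∘ Fin.castAdd j) ∘ Fin.castAdd k) (p ∘ Fin.natAdd (i + k)))) ∈ E))
            have h4 := μ.g0 H E (p ∘ Fin.castAdd j)
            have h5 := μ.gB H E (p ∘ Fin.castAdd j)
            calc _ ≤ μ.g H E (p ∘ Fin.castAdd j) * C := mul_le_mul_of_nonneg_left h3 h4
              _ ≤ μ.B * C := mul_le_mul_of_nonneg_right h5 hC0
          · rw [mul_zero]
            exact mul_nonneg hB hC0
        · exact mul_nonneg hB hC0
      exact_mod_cast h)

end Mv

/-! ### Changes from functions of tuples -/

section phi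
variable {n : ℕ} {i j : ℕ}

/-- The function of triples that comes from a symmetric function of tuples of free vertices. -/
def gam (u : Fin i → Fin n) (φ : (Fin j → Fin n) → Bool) (T : Finset (Fin n)) : Bool :=
  decide (∃ y : Fin j → Fin n, Function.Injective (Fin.append u y) ∧
    univ.image (Fin.append u y) = T ∧ φ y = true)

theorem gam_sup (u : Fin i → Fin n) (φ : (Fin j → Fin n) → Bool) (T : Finset (Fin n))
    (h : gam u φ T = true) (a : Fin i) : u a ∈ T := by
  unfold gam at h
  obtain ⟨y, _, h2, _⟩ := of_decide_eq_true h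
  rw [← h2, Finset.mem_image]
  exact ⟨Fin.castAdd j a, Finset.mem_univ _, Fin.append_left _ _ _⟩

/-- Two orderings of the free vertices of a set differ by a permutation. -/
theorem exists_perm_append {V : Type*} [DecidableEq V] (u : Fin i → V)
    (y y' : Fin j → V) (h : Function.Injective (Fin.append u y))
    (he : univ.image (Fin.append u y) = univ.image (Fin.append u y')) :
    ∃ σ : Equiv.Perm (Fin j), y = y' ∘ σ := by
  have h1 : ∀ a : Fin j, ∃ b : Fin j, y' b = y a := by
    intro a
    have h2 : y a ∈ univ.image (Fin.append u y') := by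
      rw [← he, Finset.mem_image]
      exact ⟨Fin.natAdd i a, Finset.mem_univ _, Fin.append_right _ _ _⟩
    obtain ⟨z, _, hz⟩ := Finset.mem_image.mp h2
    induction z using Fin.addCases with
    | left z' =>
      rw [Fin.append_left] at hz
      have h3 : Fin.append u y (Fin.castAdd j z') = Fin.append u y (Fin.natAdd i a) := by
        rw [Fin.append_left, Fin.append_right, hz]
      have h4 := congrArg Fin.val (h h3)
      rw [Fin.val_castAdd, Fin.val_natAdd] at h4
      have := z'.isLt
      omega
    | right b =>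
      rw [Fin.append_right] at hz
      exact ⟨b, hz⟩
  choose g hg using h1
  have hinj : Function.Injective g := by
    intro a b hab
    have h2 : y a = y b := by rw [← hg a, ← hg b, hab]
    have h3 : Fin.append u y (Fin.natAdd i a) = Fin.append u y (Fin.natAdd i b) := by
      rw [Fin.append_right, Fin.append_right, h2]
    exact Fin.natAdd_injective _ _ (h h3)
  refine ⟨Equiv.ofBijective g (Finite.injective_iff_bijective.mp hinj), ?_⟩
  funext a
  exact (hg a).symm

theorem gam_eq (u : Fin i → Fin n) (φ : (Fin j → Fin n) → Bool)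
    (hφ : ∀ (σ : Equiv.Perm (Fin j)) y, φ (y ∘ σ) = φ y) (y : Fin j → Fin n)
    (h : Function.Injective (Fin.append u y)) : gam u φ (univ.image (Fin.append u y)) = φ y := by
  unfold gam
  rw [Bool.eq_iff_iff, decide_eq_true_iff]
  constructor
  · rintro ⟨y', h1, h2, h3⟩
    obtain ⟨σ, rfl⟩ := exists_perm_append u y y' h h2.symm
    rw [hφ]
    exact h3
  · intro h3
    exact ⟨y, h, rfl, h3⟩

theorem append_comp_succAbove {V : Type*} (u : Fin i → V) (x : Fin (j + 1) → V) (a : Fin (j + 1)) :
    ∃ e : Fin (i + j) → Fin (i + (j + 1)), Function.Injective e ∧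
      (∀ b, e b ≠ Fin.natAdd i a) ∧ Fin.append u (x ∘ a.succAbove) = Fin.append u x ∘ e := by
  refine ⟨Fin.append (fun z => Fin.castAdd (j + 1) z) (fun z => Fin.natAdd i (a.succAbove z)),
    ?_, ?_, ?_⟩
  · intro z z'
    induction z using Fin.addCases with
    | left z =>
      induction z' using Fin.addCases with
      | left z' =>
        intro h
        rw [Fin.append_left, Fin.append_left] at h
        rw [Fin.castAdd_injective _ _ h]
      | right z' =>
        intro h
        rw [Fin.append_left, Fin.append_right] at h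
        have h4 := congrArg Fin.val h
        rw [Fin.val_castAdd, Fin.val_natAdd] at h4
        have := z.isLt
        omega
    | right z =>
      induction z' using Fin.addCases with
      | left z' =>
        intro h
        rw [Fin.append_left, Fin.append_right] at h
        have h4 := congrArg Fin.val h
        rw [Fin.val_castAdd, Fin.val_natAdd] at h4
        have := z'.isLt
        omega
      | right z' =>
        intro h
        rw [Fin.append_right, Fin.append_right] at h
        rw [Fin.succAbove_right_injective (Fin.natAdd_injective _ _ h)]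
  · intro b
    induction b using Fin.addCases with
    | left z =>
      intro h
      rw [Fin.append_left] at h
      have h4 := congrArg Fin.val h
      rw [Fin.val_castAdd, Fin.val_natAdd] at h4
      have := z.isLt
      omega
    | right z =>
      intro h
      rw [Fin.append_right] at h
      exact Fin.succAbove_ne a z (Fin.natAdd_injective _ _ h)
  · funext z
    induction z using Fin.addCases with
    | left z => rw [Fin.append_left, Function.comp_apply, Fin.append_left, Fin.append_left]
    | right z =>
      rw [Fin.append_right, Function.comp_apply, Function.comp_apply, Fin.append_right,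
        Fin.append_right]

/-- The parity of the chosen triples of a quadruple with the fixed vertices. -/
theorem bz_par_gam (hij : i + (j + 1) = 4) (u : Fin i → Fin n) (φ : (Fin j → Fin n) → Bool)
    (hφ : ∀ (σ : Equiv.Perm (Fin j)) y, φ (y ∘ σ) = φ y) (x : Fin (j + 1) → Fin n)
    (h : Function.Injective (Fin.append u x)) :
    bz (par (gam u φ) (univ.image (Fin.append u x))) =
      ∑ a : Fin (j + 1), bz (φ (x ∘ a.succAbove)) := by
  classical
  set Q := univ.image (Fin.append u x) with hQ
  have hc : Q.card = 4 := by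
    rw [hQ, Finset.card_image_of_injective _ h, Finset.card_univ, Fintype.card_fin, hij]
  rw [bz_par]
  -- the triples are the sets without one vertex
  have h1 : ∑ T ∈ Q.powersetCard 3, bz (gam u φ T) = ∑ q ∈ Q, bz (gam u φ (Q.erase q)) := by
    symm
    refine Finset.sum_bij (fun q _ => Q.erase q) ?_ ?_ ?_ ?_
    · intro q hq
      rw [Finset.mem_powersetCard]
      exact ⟨Finset.erase_subset _ _, by rw [Finset.card_erase_of_mem hq, hc]⟩
    · intro a ha b hb hab
      by_contra hne
      have h5 : a ∈ Q.erase b := Finset.mem_erase.mpr ⟨hne, ha⟩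
      have hab' : Q.erase a = Q.erase b := hab
      rw [← hab'] at h5
      exact absurd h5 (Finset.notMem_erase a _)
    · intro T hT
      rw [Finset.mem_powersetCard] at hT
      have h5 : (Q \ T).card = 1 := by
        rw [Finset.card_sdiff_of_subset hT.1, hc, hT.2]
      obtain ⟨y, hy⟩ := Finset.card_eq_one.mp h5
      have hy1 : y ∈ Q \ T := by rw [hy]; exact Finset.mem_singleton_self y
      rw [Finset.mem_sdiff] at hy1
      refine ⟨y, hy1.1, ?_⟩
      symm
      apply Finset.eq_of_subset_of_card_le
      · intro z hz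
        rw [Finset.mem_erase]
        exact ⟨fun h => hy1.2 (h ▸ hz), hT.1 hz⟩
      · rw [Finset.card_erase_of_mem hy1.1, hc, hT.2]
    · intro q _
      rfl
  rw [h1, hQ, Finset.sum_image fun a _ b _ hab => h hab, ← hQ]
  have h2 : ∑ z : Fin (i + (j + 1)), bz (gam u φ (Q.erase (Fin.append u x z))) =
      ∑ a : Fin i, bz (gam u φ (Q.erase (u a))) +
        ∑ a : Fin (j + 1), bz (gam u φ (Q.erase (x a))) := by
    rw [Fin.sum_univ_add]
    congr 1
    · exact Finset.sum_congr rfl fun a _ => by rw [Fin.append_left]
    · exact Finset.sum_congr rfl fun a _ => by rw [Fin.append_right]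
  rw [h2, Finset.sum_eq_zero, zero_add]
  · refine Finset.sum_congr rfl fun a _ => ?_
    congr 1
    obtain ⟨e, he, hne, hea⟩ := append_comp_succAbove u x a
    have h3 : Function.Injective (Fin.append u (x ∘ a.succAbove)) := by
      rw [hea]
      exact h.comp he
    have h4 : Q.erase (x a) = univ.image (Fin.append u (x ∘ a.succAbove)) := by
      symm
      apply Finset.eq_of_subset_of_card_le
      · intro z hz
        obtain ⟨b, _, hb⟩ := Finset.mem_image.mp hz
        rw [hea, Function.comp_apply] at hb
        rw [Finset.mem_erase, ← hb]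
        refine ⟨?_, Finset.mem_image_of_mem _ (Finset.mem_univ _)⟩
        intro h5
        have h6 : Fin.append u x (e b) = Fin.append u x (Fin.natAdd i a) := by
          rw [h5, Fin.append_right]
        exact hne b (h h6)
      · have h7 : x a ∈ Q := by
          rw [hQ, Finset.mem_image]
          exact ⟨Fin.natAdd i a, Finset.mem_univ _, Fin.append_right _ _ _⟩
        rw [Finset.card_erase_of_mem h7, hc, Finset.card_image_of_injective _ h3,
          Finset.card_univ, Fintype.card_fin]
        omega
    rw [h4, gam_eq u φ hφ _ h3]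
  · intro a _
    have h3 : gam u φ (Q.erase (u a)) ≠ true := by
      intro h4
      exact absurd (gam_sup u φ _ h4 a) (Finset.notMem_erase _ _)
    rw [Bool.eq_false_iff.mpr h3]
    rfl

/-- A change that comes from a function of tuples has its support on the quadruples with the fixed
vertices. -/
theorem par_gam_sup (u : Fin i → Fin n) (φ : (Fin j → Fin n) → Bool) (Q : Finset (Fin n))
    (h : par (gam u φ) Q = true) (a : Fin i) : u a ∈ Q := by
  classical
  by_contra hne
  have h1 : bz (par (gam u φ) Q) = 0 := by
    rw [bz_par]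
    refine Finset.sum_eq_zero fun T hT => ?_
    rw [Finset.mem_powersetCard] at hT
    have h2 : gam u φ T ≠ true := fun h3 => hne (hT.1 (gam_sup u φ T h3 a))
    rw [Bool.eq_false_iff.mpr h2]
    rfl
  rw [h] at h1
  exact absurd h1 (by decide)

end phi

/-- A change of the even 4-graph from a function of tuples of free vertices. -/
structure Mp (i k j : ℕ) where
  φ : ∀ {n : ℕ}, Finset (Finset (Fin n)) → Finset (Finset (Fin n)) → (Fin (i + k) → Fin n) →
    (Fin j → Fin n) → Bool
  g : ∀ {n : ℕ}, Finset (Finset (Fin n)) → Finset (Finset (Fin n)) → (Fin (i + k) → Fin n) → ℤ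
  B : ℤ
  φs : ∀ {n : ℕ} (H E : Finset (Finset (Fin n))) R (σ : Equiv.Perm (Fin j)) y,
    φ H E R (y ∘ σ) = φ H E R y
  g0 : ∀ {n : ℕ} (H E : Finset (Finset (Fin n))) R, 0 ≤ g H E R
  gB : ∀ {n : ℕ} (H E : Finset (Finset (Fin n))) R, g H E R ≤ B

namespace Mp
variable {i k j : ℕ}

/-- The change of the even 4-graph. -/
def toMv (μ : Mp i k j) : Mv i k (j + 1) where
  γ := fun H E R => gam (R ∘ Fin.castAdd k) (μ.φ H E R)
  g := μ.g
  B := μ.B
  g0 := μ.g0
  gB := μ.gB
  sup := fun H E R Q _ h a => par_gam_sup (R ∘ Fin.castAdd k) (μ.φ H E R) Q h a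

/-- The value at an injective tuple. -/
theorem val_eq (μ : Mp i k j) (hij : i + (j + 1) = 4) (c : Bool → Bool → ℤ) {n : ℕ}
    (H E : Finset (Finset (Fin n))) (R : Fin (i + k) → Fin n) (x : Fin (j + 1) → Fin n)
    (h : Function.Injective (Fin.append (R ∘ Fin.castAdd k) x)) :
    μ.toMv.fv c H E R x = if ∑ a : Fin (j + 1), bz (μ.φ H E R (x ∘ a.succAbove)) = 1 then
      μ.g H E R * dc c H E (univ.image (Fin.append (R ∘ Fin.castAdd k) x)) else 0 := by
  unfold Mv.fv
  rw [if_pos h]
  have h1 := bz_par_gam hij (R ∘ Fin.castAdd k) (μ.φ H E R) (μ.φs H E R) x h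
  rw [← h1]
  show μ.g H E R * mvQ c H E (gam (R ∘ Fin.castAdd k) (μ.φ H E R)) _ = _
  unfold mvQ
  cases par (gam (R ∘ Fin.castAdd k) (μ.φ H E R)) (univ.image (Fin.append
      (R ∘ Fin.castAdd k) x)) with
  | false => rw [if_neg Bool.false_ne_true, if_neg (by decide), mul_zero]
  | true => rw [if_pos rfl, if_pos (by decide)]

end Mp

end Pool.Agent.Lib.MP_afdd4d_co.K9.Star
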