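import Pool.Agent.Lib.MP_afdd4d_co.K9.UTab
import Pool.Agent.Lib.MP_afdd4d_co.K8.JN

/-!
# Pair systems with a function of 4-graphs on six points

A nonnegative symmetric function of the 4-graphs on six points is added to the kernel of the
five-vertex types of a pair system.
-/

namespace Pool.Agent.Lib.MP_afdd4d_co.K9.Ug

open Finset K8

section perm

/-- The last point inserted at the end. -/
theorem exists_snoc_perm {k : ℕ} (y : Fin (k + 1)) : ∃ τ : Equiv.Perm (Fin (k + 1)),
    ∀ i, (Fin.snoc y.succAbove y : Fin (k + 1) → Fin (k + 1)) i = τ i := by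
  have hinj : Function.Injective (Fin.snoc y.succAbove y : Fin (k + 1) → Fin (k + 1)) := by
    intro i j hij
    revert hij
    refine Fin.lastCases ?_ (fun i' => ?_) i
    · refine Fin.lastCases (fun _ => rfl) (fun j' => ?_) j
      intro hij
      simp only [Fin.snoc_last, Fin.snoc_castSucc] at hij
      exact absurd hij.symm (Fin.succAbove_ne y j')
    · refine Fin.lastCases ?_ (fun j' => ?_) j
      · intro hij
        simp only [Fin.snoc_last, Fin.snoc_castSucc] at hij
        exact absurd hij (Fin.succAbove_ne y i')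
      · intro hij
        simp only [Fin.snoc_castSucc] at hij
        rw [Fin.succAbove_right_injective hij]
  exact ⟨Equiv.ofBijective _ (Finite.injective_iff_bijective.mp hinj), fun i => rfl⟩

theorem snoc_comp {V : Type*} {k : ℕ} (t : Fin (k + 1) → V) (y : Fin (k + 1)) :
    (Fin.snoc (t ∘ y.succAbove) (t y) : Fin (k + 1) → V) =
      t ∘ (Fin.snoc y.succAbove y : Fin (k + 1) → Fin (k + 1)) := by
  funext i
  refine Fin.lastCases ?_ (fun j => ?_) i
  · simp
  · simp

/-- The permutation that fixes the last point. -/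
theorem exists_snoc_ext {k : ℕ} (τ : Equiv.Perm (Fin k)) : ∃ σ : Equiv.Perm (Fin (k + 1)),
    ∀ {V : Type} (s : Fin k → V) (w : V),
      (Fin.snoc (s ∘ τ) w : Fin (k + 1) → V) = (Fin.snoc s w : Fin (k + 1) → V) ∘ σ := by
  set g : Fin (k + 1) → Fin (k + 1) := Fin.snoc (fun i => (τ i).castSucc) (Fin.last k) with hg
  have hinj : Function.Injective g := by
    intro i j hij
    revert hij
    refine Fin.lastCases ?_ (fun i' => ?_) i
    · refine Fin.lastCases (fun _ => rfl) (fun j' => ?_) j
      intro hij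
      simp only [hg, Fin.snoc_last, Fin.snoc_castSucc] at hij
      exact absurd hij.symm (Fin.castSucc_lt_last _).ne
    · refine Fin.lastCases ?_ (fun j' => ?_) j
      · intro hij
        simp only [hg, Fin.snoc_last, Fin.snoc_castSucc] at hij
        exact absurd hij (Fin.castSucc_lt_last _).ne
      · intro hij
        simp only [hg, Fin.snoc_castSucc] at hij
        rw [τ.injective (Fin.castSucc_injective _ hij)]
  refine ⟨Equiv.ofBijective g (Finite.injective_iff_bijective.mp hinj), fun s w => ?_⟩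
  funext i
  rw [Function.comp_apply, Equiv.ofBijective_apply]
  refine Fin.lastCases ?_ (fun j => ?_) i
  · simp [hg]
  · simp [hg]

end perm

section sys
variable {n : ℕ}

/-- The function as a function of five roots and two vertices. -/
def uk (W U : ℕ) (H : Finset (Finset (Fin n))) (s : Fin 5 → Fin n) (w : Fin n) : ℤ :=
  (uv W U H (Fin.snoc s w : Fin 6 → Fin n) : ℤ)

theorem uk_nonneg (W U : ℕ) (H : Finset (Finset (Fin n))) (s : Fin 5 → Fin n) (w : Fin n) :
    0 ≤ uk W U H s w := Int.natCast_nonneg _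

theorem uk_perm {W m U : ℕ} (h : UOK W m U) (H : Finset (Finset (Fin n)))
    (τ : Equiv.Perm (Fin 5)) (s : Fin 5 → Fin n) (w : Fin n) : uk W U H (s ∘ τ) w = uk W U H s w := by
  obtain ⟨σ, hσ⟩ := exists_snoc_ext τ
  unfold uk
  rw [hσ s w, uv_perm h H σ]

/-- The sum over the pairs. -/
theorem PS_uk {W m U : ℕ} (h : UOK W m U) (H : Finset (Finset (Fin n)))
    (s : Fin (5 + 1 + 1) → Fin n) :
    PS (k := 5) (fun s _ w => uk W U H s w) s = 6 * DS (m := 6) (fun p => (uv W U H p : ℤ)) s := by
  unfold PS DS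
  rw [Finset.mul_sum]
  refine Finset.sum_congr rfl fun x _ => ?_
  have h1 : ∀ y : Fin (5 + 1), uk W U H (s ∘ x.succAbove ∘ y.succAbove) (s (x.succAbove y)) =
      (uv W U H (s ∘ x.succAbove) : ℤ) := by
    intro y
    obtain ⟨τ, hτ⟩ := exists_snoc_perm y
    have e1 : (Fin.snoc (s ∘ x.succAbove ∘ y.succAbove) (s (x.succAbove y)) : Fin 6 → Fin n) =
        (s ∘ x.succAbove) ∘ τ := by
      have e2 := snoc_comp (s ∘ x.succAbove) y
      refine Eq.trans e2 ?_
      funext i
      rw [Function.comp_apply, Function.comp_apply (g := ⇑τ), hτ i]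
    unfold uk
    rw [e1]
    exact congrArg (Nat.cast (R := ℤ)) (uv_perm h H τ (s ∘ x.succAbove))
  rw [Finset.sum_congr rfl fun y _ => h1 y, Finset.sum_const, Finset.card_univ, Fintype.card_fin,
    nsmul_eq_mul]
  norm_num

end sys

/-- The kernel with the function. -/
def kerU (κ : Kern 5) {W m U : ℕ} (h : UOK W m U) : Kern 5 where
  f := fun H s u w => κ.f H s u w + uk W U H s w
  C := κ.C + 2 ^ m
  psd := by
    intro n H s
    have h1 := κ.psd H s
    have h2 : 0 ≤ ∑ u : Fin n, ∑ w : Fin n, ((uk W U H s w : ℤ) : ℝ) :=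
      Finset.sum_nonneg fun u _ => Finset.sum_nonneg fun w _ => by
        exact_mod_cast uk_nonneg W U H s w
    push_cast
    simp_rw [Finset.sum_add_distrib]
    linarith
  bd := by
    intro n H s u w
    have h1 := κ.bd H s u w
    have h2 : uv W U H (Fin.snoc s w : Fin 6 → Fin n) < 2 ^ m := uv_lt h H _
    have h3 : ((uk W U H s w : ℤ) : ℝ) ≤ 2 ^ m := by
      unfold uk
      have : ((uv W U H (Fin.snoc s w : Fin 6 → Fin n) : ℕ) : ℝ) ≤ ((2 ^ m : ℕ) : ℝ) := by
        exact_mod_cast h2.le
      push_cast at this ⊢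
      exact this
    push_cast
    linarith

/-- The pair system with the function. -/
def addU (S : PsiSys) {W m U : ℕ} (h : UOK W m U) : PsiSys where
  a := S.a
  Lo := S.Lo
  ha := S.ha
  k5 := kerU S.k5 h
  k5s := by
    intro n H τ s u w
    show S.k5.f H (s ∘ τ) u w + uk W U H (s ∘ τ) w = S.k5.f H s u w + uk W U H s w
    rw [S.k5s, uk_perm h]
  ψ := S.ψ
  ψs := S.ψs
  B := S.B
  Bs := S.Bs
  CB := S.CB
  hCB := S.hCB

theorem PS_kerU (κ : Kern 5) {W m U : ℕ} (h : UOK W m U) {n : ℕ} (H : Finset (Finset (Fin n)))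
    (s : Fin (5 + 1 + 1) → Fin n) : PS (k := 5) ((kerU κ h).f H) s =
      PS (k := 5) (κ.f H) s + 6 * DS (m := 6) (fun p => (uv W U H p : ℤ)) s := by
  rw [← PS_uk h H s]
  unfold PS
  rw [← Finset.sum_add_distrib]
  refine Finset.sum_congr rfl fun x _ => ?_
  rw [← Finset.sum_add_distrib]
  rfl

theorem row_addU (S : PsiSys) {W m U : ℕ} (h : UOK W m U) {n : ℕ} (H E' : Finset (Finset (Fin n)))
    (s : Fin 7 → Fin n) : (addU S h).row H E' s =
      S.row H E' s - 6 * DS (m := 6) (fun p => (uv W U H p : ℤ)) s := by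
  unfold PsiSys.row PsiSys.rowA
  have e : PS (k := 5) ((addU S h).k5.f H) s =
      PS (k := 5) (S.k5.f H) s + 6 * DS (m := 6) (fun p => (uv W U H p : ℤ)) s :=
    PS_kerU S.k5 h H s
  have e1 : (addU S h).a = S.a := rfl
  have e2 : (addU S h).Lo = S.Lo := rfl
  have e3 : (fun r p => (addU S h).ψ H (EvR H r) p) = fun r p => S.ψ H (EvR H r) p := rfl
  have e4 : (addU S h).ψ H E' = S.ψ H E' := rfl
  have e5 : (addU S h).B E' s = S.B E' s := rfl
  rw [e, e1, e2, e3, e4, e5]
  ring

end Pool.Agent.Lib.MP_afdd4d_co.K9.Ug
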