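import Pool.Agent.Lib.MP_afdd4d_co.K9.Col

/-!
# Stability of even 4-graphs: the reference structures and the frame

A reference structure consists of a colouring with two colours, a bipartite graph `M`, and
3-graphs `f`, `g` on the two colour classes.  The quadruples with one vertex of the second colour are
in the structure if the other three are not in `f`, and similarly for `g`, and the quadruples with two
vertices of each colour are in the structure if they contain an odd number of pairs of `M`.
A local inequality about all coloured even 4-graphs on seven vertices implies that every even 4-graph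
is close to such a structure, with a distance that is linear in the density defect.
-/

namespace Pool.Agent.Lib.MP_afdd4d_co.K9.Star

open Finset K8

/-! ### Reference structures -/

/-- A bit from an element of `ZMod 2`. -/
def oddB (z : ZMod 2) : Bool := decide (z = 1)

theorem bz_oddB (z : ZMod 2) : bz (oddB z) = z := by
  revert z
  decide

section gir
variable {V W : Type*} [DecidableEq V] [DecidableEq W]

/-- Membership of a quadruple in the reference structure. -/
def girB (χ : V → Bool) (M : V → V → Bool) (f g : Finset V → Bool) (Q : Finset V) : Bool :=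
  if (Q.filter fun v => χ v = true).card = 0 then oddB (∑ q ∈ Q, bz (f (Q.erase q)))
  else if (Q.filter fun v => χ v = true).card = 1 then !f (Q.filter fun v => χ v = false)
  else if (Q.filter fun v => χ v = true).card = 2 then
    oddB (∑ a ∈ Q.filter (fun v => χ v = false), ∑ b ∈ Q.filter (fun v => χ v = true), bz (M a b))
  else if (Q.filter fun v => χ v = true).card = 3 then !g (Q.filter fun v => χ v = true)
  else oddB (∑ q ∈ Q, bz (g (Q.erase q)))

theorem girB_map (χ : V → Bool) (M : V → V → Bool) (f g : Finset V → Bool) (s : W → V)
    (hs : Function.Injective s) (Q : Finset W) :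
    girB χ M f g (Q.image s) = girB (fun w => χ (s w)) (fun a b => M (s a) (s b))
      (fun T => f (T.image s)) (fun T => g (T.image s)) Q := by
  have hB : ∀ z : Bool, (Q.image s).filter (fun v => χ v = z) =
      (Q.filter fun w => χ (s w) = z).image s := by
    intro z
    rw [Finset.filter_image]
  have hc : ∀ z : Bool, ((Q.filter fun w => χ (s w) = z).image s).card =
      (Q.filter fun w => χ (s w) = z).card := fun z =>
    Finset.card_image_of_injective _ hs
  have he : ∀ h : Finset V → Bool, ∑ q ∈ Q.image s, bz (h ((Q.image s).erase q)) =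
      ∑ q ∈ Q, bz (h ((Q.erase q).image s)) := by
    intro h
    rw [Finset.sum_image fun a _ b _ hab => hs hab]
    refine Finset.sum_congr rfl fun q _ => ?_
    rw [Finset.image_erase hs]
  unfold girB
  rw [hB true, hB false, hc true, he f, he g, Finset.sum_image fun a _ b _ hab => hs hab]
  congr 1
  congr 1
  congr 1
  congr 1
  refine Finset.sum_congr rfl fun a _ => ?_
  rw [Finset.sum_image fun a _ b _ hab => hs hab]

/-- The structure of a function of quadruples that is read from two roots. -/
def gE (e : Finset V → Bool) (χ : V → Bool) (x y : V) (Q : Finset V) : Bool :=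
  girB χ (fun a b => e {x, a, y, b}) (fun T => !e (insert y T)) (fun T => !e (insert x T)) Q

theorem gE_map (e : Finset V → Bool) (χ : V → Bool) (s : W → V) (hs : Function.Injective s)
    (x y : W) (Q : Finset W) :
    gE e χ (s x) (s y) (Q.image s) = gE (fun T => e (T.image s)) (fun w => χ (s w)) x y Q := by
  unfold gE
  rw [girB_map χ _ _ _ s hs Q]
  congr 1
  · funext a b
    congr 1
    rw [Finset.image_insert, Finset.image_insert, Finset.image_insert, Finset.image_singleton]
  · funext T
    show (!e (insert (s y) (T.image s))) = !e ((insert y T).image s)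
    rw [Finset.image_insert]
  · funext T
    show (!e (insert (s x) (T.image s))) = !e ((insert x T).image s)
    rw [Finset.image_insert]

/-- The error at a quadruple. -/
def erB (e : Finset V → Bool) (χ : V → Bool) (x y : V) (Q : Finset V) : Bool :=
  e Q ^^ gE e χ x y Q

theorem erB_map (e : Finset V → Bool) (χ : V → Bool) (s : W → V) (hs : Function.Injective s)
    (x y : W) (Q : Finset W) :
    erB e χ (s x) (s y) (Q.image s) = erB (fun T => e (T.image s)) (fun w => χ (s w)) x y Q := by
  unfold erB
  rw [gE_map e χ s hs]

end gir

section girn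
variable {n : ℕ}

/-- The reference structure as a 4-graph. -/
def gir (χ : Fin n → Bool) (M : Fin n → Fin n → Bool) (f g : Finset (Fin n) → Bool) :
    Finset (Finset (Fin n)) :=
  ((univ : Finset (Fin n)).powersetCard 4).filter fun Q => girB χ M f g Q = true

theorem gir_card (χ : Fin n → Bool) (M : Fin n → Fin n → Bool) (f g : Finset (Fin n) → Bool) :
    ∀ e ∈ gir χ M f g, e.card = 4 := by
  intro e he
  exact (Finset.mem_powersetCard.mp (Finset.mem_filter.mp he).1).2

theorem dec_gir (χ : Fin n → Bool) (M : Fin n → Fin n → Bool) (f g : Finset (Fin n) → Bool)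
    (Q : Finset (Fin n)) (hQ : Q.card = 4) : decide (Q ∈ gir χ M f g) = girB χ M f g Q := by
  rw [Bool.eq_iff_iff, decide_eq_true_iff]
  unfold gir
  rw [Finset.mem_filter, Finset.mem_powersetCard]
  exact ⟨fun h => h.2, fun h => ⟨⟨Finset.subset_univ _, hQ⟩, h⟩⟩

end girn

/-! ### The statistic -/

section st
variable {V : Type*} [Fintype V] [DecidableEq V]

/-- The sign of a colour. -/
def sg (b : Bool) : ℤ := if b = true then -1 else 1

/-- The number of quadruples. -/
def S4 (e : Finset V → Bool) : ℤ := ∑ Q ∈ (univ : Finset V).powersetCard 4, ((e Q).toNat : ℤ)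

/-- The number of errors. -/
def S6 (e : Finset V → Bool) (χ : V → Bool) : ℤ :=
  ∑ x : V, ∑ y : V, if χ x = false ∧ χ y = true then
    ∑ Q ∈ (univ : Finset V).powersetCard 4, if x ∉ Q ∧ y ∉ Q then ((erB e χ x y Q).toNat : ℤ) else 0
  else 0

/-- The sum of the products of the signs of two vertices. -/
def S2 (χ : V → Bool) : ℤ := ∑ x : V, ∑ y : V, if x = y then 0 else sg (χ x) * sg (χ y)

/-- The statistic of a coloured function of the quadruples of seven vertices: the density defect with
the factor `cn`, minus the errors and the products of the signs with the factor `cd`. -/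
def st7 (cn cd : ℤ) (e : Finset (Fin 7) → Bool) (χ : Fin 7 → Bool) : ℤ :=
  3 * cn * (385 - 16 * S4 e) - cd * (32 * S6 e χ + 40 * S2 χ)

/-- The indicator of an error at six vertices. -/
def f6 (e : Finset V → Bool) (χ : V → Bool) (p : Fin 6 → V) : ℤ :=
  if χ (p 0) = false ∧ χ (p 1) = true then
    ((erB e χ (p 0) (p 1) (univ.image fun i : Fin 4 => p (Fin.natAdd 2 i))).toNat : ℤ) else 0

/-- The sum over injective tuples of length four. -/
theorem sum4_inj (e : Finset V → Bool) :
    ∑ p ∈ inj V 4, (((e (univ.image p)).toNat : ℤ) : ℝ) = 24 * ((S4 e : ℤ) : ℝ) := by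
  have h := sum_img (V := V) (fun Q => (((e Q).toNat : ℤ) : ℝ))
  rw [inj, Finset.sum_filter, h]
  unfold S4
  push_cast
  rfl

/-- The sum over injective tuples of length two. -/
theorem sum2_inj (χ : V → Bool) :
    ∑ p ∈ inj V 2, ((sg (χ (p 0)) * sg (χ (p 1)) : ℤ) : ℝ) = ((S2 χ : ℤ) : ℝ) := by
  rw [inj, Finset.sum_filter, ← (finTwoArrowEquiv V).symm.sum_comp, Fintype.sum_prod_type]
  unfold S2
  push_cast
  refine Finset.sum_congr rfl fun x _ => Finset.sum_congr rfl fun y _ => ?_
  have h1 : Function.Injective ((finTwoArrowEquiv V).symm (x, y)) ↔ x ≠ y := by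
    constructor
    · intro h hxy
      have h2 : ((finTwoArrowEquiv V).symm (x, y)) 0 = ((finTwoArrowEquiv V).symm (x, y)) 1 := hxy
      exact absurd (h h2) (by decide)
    · intro hxy a b hab
      fin_cases a <;> fin_cases b
      · rfl
      · exact absurd hab hxy
      · exact absurd hab.symm hxy
      · rfl
  by_cases h : x = y
  · rw [if_neg (by rw [h1]; exact fun h2 => h2 h), if_pos h]
    
  · rw [if_pos (h1.mpr h), if_neg h]
    rfl

end st

end Pool.Agent.Lib.MP_afdd4d_co.K9.Star
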