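import Pool.Agent.Lib.MP_afdd4d_co.K9.T1

/-!
# The reference structures are even
-/

namespace Pool.Agent.Lib.MP_afdd4d_co.K9.Star

open Finset K8

section ev
variable {n : ℕ}

/-- A double sum of a symmetric function. -/
theorem sum_symm_zero (S : Finset (Fin n)) (h : Fin n → Fin n → ZMod 2)
    (hs : ∀ v q, h v q = h q v) : ∑ v ∈ S, ∑ q ∈ S.erase v, h v q = 0 := by
  rw [Finset.sum_sigma']
  refine Finset.sum_involution (fun p _ => ⟨p.2, p.1⟩) ?_ ?_ ?_ ?_
  · rintro ⟨v, q⟩ _
    show h v q + h q v = 0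
    rw [hs q v]
    have h2 : ∀ z : ZMod 2, z + z = 0 := by decide
    exact h2 _
  · rintro ⟨v, q⟩ hm _ he
    rw [Finset.mem_sigma, Finset.mem_erase] at hm
    have h1 : q = v := congrArg Sigma.fst he
    exact hm.2.1 h1
  · rintro ⟨v, q⟩ hm
    rw [Finset.mem_sigma, Finset.mem_erase] at hm
    rw [Finset.mem_sigma, Finset.mem_erase]
    exact ⟨hm.2.2, fun h1 => hm.2.1 h1.symm, hm.1⟩
  · rintro ⟨v, q⟩ _
    rfl

theorem two_zero (z : ZMod 2) : z + z = 0 := by
  revert z
  decide

theorem bz_not (b : Bool) : bz (!b) = 1 + bz b := by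
  cases b <;> decide

/-- The sum over all vertices of a set without one of them. -/
theorem sum_erase_even (A : Finset (Fin n)) (R : Fin n → ZMod 2) (hA : A.card = 3) :
    ∑ v ∈ A, ∑ a ∈ A.erase v, R a = 0 := by
  have h1 : ∀ v ∈ A, ∑ a ∈ A.erase v, R a = ∑ a ∈ A, R a + R v := by
    intro v hv
    rw [← Finset.add_sum_erase A R hv]
    have h2 := two_zero (R v)
    calc ∑ a ∈ A.erase v, R a = ∑ a ∈ A.erase v, R a + (R v + R v) := by rw [h2, add_zero]
      _ = R v + ∑ a ∈ A.erase v, R a + R v := by ring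
  rw [Finset.sum_congr rfl h1, Finset.sum_add_distrib, Finset.sum_const, hA]
  have h3 : ∀ z : ZMod 2, 3 • z + z = 0 := by decide
  exact h3 _

/-- The number of elements of a structure among the quadruples of five vertices. -/
theorem card_eq_sum (H : Finset (Finset (Fin n))) (z : Finset (Fin n) → Bool)
    (hz : ∀ Q : Finset (Fin n), Q.card = 4 → decide (Q ∈ H) = z Q) (S : Finset (Fin n))
    (hS : S.card = 5) :
    ((((S.powersetCard 4).filter fun e => e ∈ H).card : ℕ) : ZMod 2) =
      ∑ v ∈ S, bz (z (S.erase v)) := by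
  rw [Finset.card_filter]
  push_cast
  symm
  refine Finset.sum_bij (fun v _ => S.erase v) ?_ ?_ ?_ ?_
  · intro v hv
    rw [Finset.mem_powersetCard]
    exact ⟨Finset.erase_subset _ _, by rw [Finset.card_erase_of_mem hv, hS]⟩
  · intro a ha b hb hab
    by_contra hne
    have h5 : a ∈ S.erase b := Finset.mem_erase.mpr ⟨hne, ha⟩
    have hab' : S.erase a = S.erase b := hab
    rw [← hab'] at h5
    exact absurd h5 (Finset.notMem_erase a _)
  · intro T hT
    rw [Finset.mem_powersetCard] at hT
    have h5 : (S \ T).card = 1 := by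
      rw [Finset.card_sdiff_of_subset hT.1, hS, hT.2]
    obtain ⟨y, hy⟩ := Finset.card_eq_one.mp h5
    have hy1 : y ∈ S \ T := by rw [hy]; exact Finset.mem_singleton_self y
    rw [Finset.mem_sdiff] at hy1
    refine ⟨y, hy1.1, ?_⟩
    symm
    apply Finset.eq_of_subset_of_card_le
    · intro w hw
      rw [Finset.mem_erase]
      exact ⟨fun h => hy1.2 (h ▸ hw), hT.1 hw⟩
    · rw [Finset.card_erase_of_mem hy1.1, hS, hT.2]
  · intro v hv
    rw [← hz (S.erase v) (by rw [Finset.card_erase_of_mem hv, hS])]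
    unfold bz
    by_cases h : S.erase v ∈ H
    · rw [if_pos h, decide_eq_true h, if_pos rfl]
    · rw [if_neg h, decide_eq_false h, if_neg Bool.false_ne_true]

/-- The reference structures are even. -/
theorem evenH_gir (χ : Fin n → Bool) (M : Fin n → Fin n → Bool) (f g : Finset (Fin n) → Bool) :
    EvenH n (gir χ M f g) := by
  intro S hS
  rw [← ZMod.natCast_eq_zero_iff_even, card_eq_sum _ (girB χ M f g) (dec_gir χ M f g) S hS]
  set A := S.filter fun v => χ v = false with hA
  set B := S.filter fun v => χ v = true with hB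
  have hAB : A.card + B.card = 5 := by
    have h := Finset.card_filter_add_card_filter_not (s := S) (fun v => χ v = false)
    rw [hS] at h
    have h1 : (S.filter fun v => ¬ χ v = false) = S.filter fun v => χ v = true := by
      refine Finset.filter_congr fun v _ => ?_
      rw [Bool.not_eq_false]
    rw [h1] at h
    exact h
  have hAm : ∀ v ∈ A, v ∈ S ∧ χ v = false := fun v hv => Finset.mem_filter.mp hv
  have hBm : ∀ v ∈ B, v ∈ S ∧ χ v = true := fun v hv => Finset.mem_filter.mp hv
  have hfA : ∀ v, (S.erase v).filter (fun v => χ v = false) = A.erase v := by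
    intro v
    rw [hA, Finset.filter_erase]
  have hfB : ∀ v, (S.erase v).filter (fun v => χ v = true) = B.erase v := by
    intro v
    rw [hB, Finset.filter_erase]
  have hBe : ∀ v ∈ A, B.erase v = B := by
    intro v hv
    refine Finset.erase_eq_of_notMem fun h => ?_
    have h1 := (hAm v hv).2
    rw [(hBm v h).2] at h1
    exact absurd h1 (by decide)
  have hAe : ∀ v ∈ B, A.erase v = A := by
    intro v hv
    refine Finset.erase_eq_of_notMem fun h => ?_
    have h1 := (hAm v h).2
    rw [(hBm v hv).2] at h1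
    exact absurd h1 (by decide)
  have hsplit : ∑ v ∈ S, bz (girB χ M f g (S.erase v)) =
      ∑ v ∈ A, bz (girB χ M f g (S.erase v)) + ∑ v ∈ B, bz (girB χ M f g (S.erase v)) := by
    rw [← Finset.sum_filter_add_sum_filter_not S (fun v => χ v = false)]
    have h1 : (S.filter fun v => ¬ χ v = false) = B := by
      rw [hB]
      refine Finset.filter_congr fun v _ => ?_
      rw [Bool.not_eq_false]
    rw [h1]
  have hSA : B.card = 0 → S = A := by
    intro h
    rw [hA]
    symm
    refine Finset.filter_true_of_mem fun v hv => ?_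
    by_contra h1
    rw [Bool.not_eq_false] at h1
    have h2 : v ∈ B := Finset.mem_filter.mpr ⟨hv, h1⟩
    rw [Finset.card_eq_zero.mp h] at h2
    exact absurd h2 (Finset.notMem_empty v)
  have hSB : A.card = 0 → S = B := by
    intro h
    rw [hB]
    symm
    refine Finset.filter_true_of_mem fun v hv => ?_
    by_contra h1
    rw [Bool.not_eq_true] at h1
    have h2 : v ∈ A := Finset.mem_filter.mpr ⟨hv, h1⟩
    rw [Finset.card_eq_zero.mp h] at h2
    exact absurd h2 (Finset.notMem_empty v)
  have hSeA : ∀ v ∈ A, A.card = 1 → S.erase v = B := by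
    intro v hv h1
    obtain ⟨a, ha⟩ := Finset.card_eq_one.mp h1
    ext w
    rw [Finset.mem_erase]
    constructor
    · rintro ⟨h2, h3⟩
      rw [hB, Finset.mem_filter]
      refine ⟨h3, ?_⟩
      by_contra h4
      rw [Bool.not_eq_true] at h4
      have h5 : w ∈ A := Finset.mem_filter.mpr ⟨h3, h4⟩
      rw [ha, Finset.mem_singleton] at h5 hv
      exact h2 (h5.trans hv.symm)
    · intro h2
      refine ⟨?_, (hBm w h2).1⟩
      intro h3
      have h4 := (hBm w h2).2
      rw [h3, (hAm v hv).2] at h4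
      exact absurd h4 (by decide)
  have hSeB : ∀ v ∈ B, B.card = 1 → S.erase v = A := by
    intro v hv h1
    obtain ⟨a, ha⟩ := Finset.card_eq_one.mp h1
    ext w
    rw [Finset.mem_erase]
    constructor
    · rintro ⟨h2, h3⟩
      rw [hA, Finset.mem_filter]
      refine ⟨h3, ?_⟩
      by_contra h4
      rw [Bool.not_eq_false] at h4
      have h5 : w ∈ B := Finset.mem_filter.mpr ⟨h3, h4⟩
      rw [ha, Finset.mem_singleton] at h5 hv
      exact h2 (h5.trans hv.symm)
    · intro h2
      refine ⟨?_, (hAm w h2).1⟩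
      intro h3
      have h4 := (hAm w h2).2
      rw [h3, (hBm v hv).2] at h4
      exact absurd h4 (by decide)
  -- the values
  have v0 : ∀ v, (B.erase v).card = 0 → bz (girB χ M f g (S.erase v)) =
      ∑ q ∈ S.erase v, bz (f ((S.erase v).erase q)) := by
    intro v h
    unfold girB
    rw [hfB v, if_pos h, bz_oddB]
  have v1 : ∀ v, (B.erase v).card = 1 → bz (girB χ M f g (S.erase v)) =
      1 + bz (f (A.erase v)) := by
    intro v h
    unfold girB
    rw [hfB v, if_neg (by omega), if_pos h, bz_not, hfA v]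
  have v2 : ∀ v, (B.erase v).card = 2 → bz (girB χ M f g (S.erase v)) =
      ∑ a ∈ A.erase v, ∑ b ∈ B.erase v, bz (M a b) := by
    intro v h
    unfold girB
    rw [hfB v, if_neg (by omega), if_neg (by omega), if_pos h, bz_oddB, hfA v]
  have v3 : ∀ v, (B.erase v).card = 3 → bz (girB χ M f g (S.erase v)) =
      1 + bz (g (B.erase v)) := by
    intro v h
    unfold girB
    rw [hfB v, if_neg (by omega), if_neg (by omega), if_neg (by omega), if_pos h, bz_not]
  have v4 : ∀ v, (B.erase v).card = 4 → bz (girB χ M f g (S.erase v)) =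
      ∑ q ∈ S.erase v, bz (g ((S.erase v).erase q)) := by
    intro v h
    unfold girB
    rw [hfB v, if_neg (by omega), if_neg (by omega), if_neg (by omega), if_neg (by omega),
      bz_oddB]
  have hcB : ∀ v ∈ B, (B.erase v).card = B.card - 1 := fun v hv => Finset.card_erase_of_mem hv
  have hcA : ∀ v ∈ A, (B.erase v).card = B.card := fun v hv => by rw [hBe v hv]
  have h5 : B.card ≤ 5 := by omega
  have hsym : ∀ (F : Finset (Fin n) → Bool) (v q : Fin n),
      bz (F ((S.erase v).erase q)) = bz (F ((S.erase q).erase v)) := by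
    intro F v q
    rw [Finset.erase_right_comm]
  rcases (by omega : B.card = 0 ∨ B.card = 1 ∨ B.card = 2 ∨ B.card = 3 ∨ B.card = 4 ∨
    B.card = 5) with k | k | k | k | k | k
  · have h1 : ∀ v ∈ S, bz (girB χ M f g (S.erase v)) =
        ∑ q ∈ S.erase v, bz (f ((S.erase v).erase q)) := by
      intro v hv
      refine v0 v ?_
      have := Finset.card_erase_le (s := B) (a := v)
      omega
    rw [Finset.sum_congr rfl h1]
    exact sum_symm_zero S _ (hsym f)
  · rw [hsplit, Finset.sum_congr rfl fun v hv => v1 v (by rw [hcA v hv, k]),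
      Finset.sum_congr rfl fun v hv => v0 v (by rw [hcB v hv, k])]
    obtain ⟨b, hb⟩ := Finset.card_eq_one.mp k
    have hbB : b ∈ B := by rw [hb]; exact Finset.mem_singleton_self b
    have h2 : ∑ v ∈ B, ∑ q ∈ S.erase v, bz (f ((S.erase v).erase q)) =
        ∑ q ∈ A, bz (f (A.erase q)) := by
      rw [hb, Finset.sum_singleton, hSeB b hbB k]
    rw [h2, Finset.sum_add_distrib, Finset.sum_const, add_assoc, two_zero, add_zero,
      show A.card = 4 by omega]
    decide
  · rw [hsplit, Finset.sum_congr rfl fun v hv => v2 v (by rw [hcA v hv, k]),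
      Finset.sum_congr rfl fun v hv => v1 v (by rw [hcB v hv, k])]
    have h1 : ∑ v ∈ A, ∑ a ∈ A.erase v, ∑ b ∈ B.erase v, bz (M a b) =
        ∑ v ∈ A, ∑ a ∈ A.erase v, ∑ b ∈ B, bz (M a b) :=
      Finset.sum_congr rfl fun v hv => by rw [hBe v hv]
    have h2 : ∑ v ∈ B, (1 + bz (f (A.erase v))) = ∑ v ∈ B, (1 + bz (f A)) :=
      Finset.sum_congr rfl fun v hv => by rw [hAe v hv]
    rw [h1, sum_erase_even A _ (by omega), h2, Finset.sum_const, k, zero_add]
    have h3 : ∀ z : ZMod 2, 2 • z = 0 := by decide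
    exact h3 _
  · rw [hsplit, Finset.sum_congr rfl fun v hv => v3 v (by rw [hcA v hv, k]),
      Finset.sum_congr rfl fun v hv => v2 v (by rw [hcB v hv, k])]
    have h1 : ∑ v ∈ A, (1 + bz (g (B.erase v))) = ∑ v ∈ A, (1 + bz (g B)) :=
      Finset.sum_congr rfl fun v hv => by rw [hBe v hv]
    have h2 : ∑ v ∈ B, ∑ a ∈ A.erase v, ∑ b ∈ B.erase v, bz (M a b) =
        ∑ v ∈ B, ∑ b ∈ B.erase v, ∑ a ∈ A, bz (M a b) :=
      Finset.sum_congr rfl fun v hv => by rw [hAe v hv, Finset.sum_comm]
    rw [h1, h2, sum_erase_even B _ k, Finset.sum_const, show A.card = 2 by omega, add_zero]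
    have h3 : ∀ z : ZMod 2, 2 • z = 0 := by decide
    exact h3 _
  · rw [hsplit, Finset.sum_congr rfl fun v hv => v4 v (by rw [hcA v hv, k]),
      Finset.sum_congr rfl fun v hv => v3 v (by rw [hcB v hv, k])]
    have hA1 : A.card = 1 := by omega
    obtain ⟨a, ha⟩ := Finset.card_eq_one.mp hA1
    have haA : a ∈ A := by rw [ha]; exact Finset.mem_singleton_self a
    have h2 : ∑ v ∈ A, ∑ q ∈ S.erase v, bz (g ((S.erase v).erase q)) =
        ∑ q ∈ B, bz (g (B.erase q)) := by
      rw [ha, Finset.sum_singleton, hSeA a haA hA1]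
    rw [h2, Finset.sum_add_distrib, Finset.sum_const, add_comm, add_assoc, two_zero, add_zero, k]
    decide
  · have hS' := hSB (by omega)
    have h1 : ∀ v ∈ S, bz (girB χ M f g (S.erase v)) =
        ∑ q ∈ S.erase v, bz (g ((S.erase v).erase q)) := by
      intro v hv
      refine v4 v ?_
      rw [hcB v (hS' ▸ hv), k]
    rw [Finset.sum_congr rfl h1]
    exact sum_symm_zero S _ (hsym g)

end ev

end Pool.Agent.Lib.MP_afdd4d_co.K9.Star
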