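import Pool.Agent.Lib.MP_afdd4d_co.K9.T1S

/-!
# Stability of even 4-graphs from local inequalities
-/

namespace Pool.Agent.Lib.MP_afdd4d_co.K9.Star

open Finset K8

section pull
variable {n : ℕ}

theorem zb_dec {m : ℕ} (H : Finset (Finset (Fin n))) (t : Fin m → Fin n) (T : Finset (Fin m)) :
    zb H t T = decide (T.image t ∈ H) := by
  unfold zb Pool.Agent.Lib.MP_afdd4d_co.E
  by_cases h : T.image t ∈ H
  · rw [decide_eq_true h, decide_eq_false (not_not.mpr h)]; rfl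
  · rw [decide_eq_false h, decide_eq_true h]; rfl

/-- The membership in a 4-graph. -/
def mE (E : Finset (Finset (Fin n))) (Q : Finset (Fin n)) : Bool := decide (Q ∈ E)

theorem zb_eq {m : ℕ} (H : Finset (Finset (Fin n))) (t : Fin m → Fin n) :
    zb H t = fun T => mE H (T.image t) := by
  funext T
  exact zb_dec H t T

/-- The product that counts the extensions of an injective tuple. -/
noncomputable def PP (n k d : ℕ) : ℝ := ∏ i ∈ Finset.range d, ((n : ℝ) - k - i)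

theorem sum_S4 (E : Finset (Finset (Fin n))) :
    ∑ t ∈ inj (Fin n) 8, ∑ x : Fin (7 + 1), ((S4 (zb E (t ∘ x.succAbove)) : ℤ) : ℝ) =
      6720 * PP n 4 4 * ((S4 (mE E) : ℤ) : ℝ) := by
  set F : (Fin 4 → Fin n) → ℝ := fun q => (((mE E (univ.image q)).toNat : ℤ) : ℝ) with hF
  have h1 : ∀ t ∈ inj (Fin n) 8, ∀ x : Fin (7 + 1),
      24 * ((S4 (zb E (t ∘ x.succAbove)) : ℤ) : ℝ) =
        ∑ p ∈ inj (Fin 7) 4, F ((t ∘ x.succAbove) ∘ p) := by
    intro t _ x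
    rw [← sum4_inj, zb_eq]
    refine Finset.sum_congr rfl fun p _ => ?_
    show (((mE E ((univ.image p).image (t ∘ x.succAbove))).toNat : ℤ) : ℝ) = _
    rw [Finset.image_image]
  have hB : ∀ j : Fin 4 → Fin 8, Function.Injective j → ∑ t ∈ inj (Fin n) 8, F (t ∘ j) =
      PP n 4 4 * (24 * ((S4 (mE E) : ℤ) : ℝ)) := by
    intro j hj
    rw [← sum4_inj]
    have h2 := sum_inj_comp (V := Fin n) 4 F j hj
    have h3 := sum_inj_castAdd (V := Fin n) F 4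
    rw [Fintype.card_fin] at h3
    exact h2.trans h3
  have h4 := sum_avg7 F _ hB
  have h5 : ∑ t ∈ inj (Fin n) 8, ∑ x : Fin (7 + 1), 24 * ((S4 (zb E (t ∘ x.succAbove)) : ℤ) : ℝ) =
      ∑ t ∈ inj (Fin n) 8, ∑ x : Fin (7 + 1), ∑ p ∈ inj (Fin 7) 4, F ((t ∘ x.succAbove) ∘ p) :=
    Finset.sum_congr rfl fun t ht => Finset.sum_congr rfl fun x _ => h1 t ht x
  rw [h4] at h5
  simp_rw [← Finset.mul_sum] at h5
  have h6 : (Nat.descFactorial 7 4 : ℝ) = 840 := by norm_num [Nat.descFactorial]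
  rw [h6] at h5
  linarith

theorem sum_S6 (E : Finset (Finset (Fin n))) (χ : Fin n → Bool) :
    ∑ t ∈ inj (Fin n) 8, ∑ x : Fin (7 + 1), ((S6 (zb E (t ∘ x.succAbove))
        (fun i => χ ((t ∘ x.succAbove) i)) : ℤ) : ℝ) =
      40320 * PP n 6 2 * ((S6 (mE E) χ : ℤ) : ℝ) := by
  set F : (Fin 6 → Fin n) → ℝ := fun q => ((f6 (mE E) χ q : ℤ) : ℝ) with hF
  have h1 : ∀ t ∈ inj (Fin n) 8, ∀ x : Fin (7 + 1),
      24 * ((S6 (zb E (t ∘ x.succAbove)) (fun i => χ ((t ∘ x.succAbove) i)) : ℤ) : ℝ) =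
        ∑ p ∈ inj (Fin 7) 6, F ((t ∘ x.succAbove) ∘ p) := by
    intro t ht x
    rw [← sum6_inj, zb_eq]
    refine Finset.sum_congr rfl fun p _ => ?_
    rw [f6_comp (mE E) χ (t ∘ x.succAbove)
      ((mem_inj.mp ht).comp Fin.succAbove_right_injective) p]
  have hB : ∀ j : Fin 6 → Fin 8, Function.Injective j → ∑ t ∈ inj (Fin n) 8, F (t ∘ j) =
      PP n 6 2 * (24 * ((S6 (mE E) χ : ℤ) : ℝ)) := by
    intro j hj
    rw [← sum6_inj]
    have h2 := sum_inj_comp (V := Fin n) 2 F j hj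
    have h3 := sum_inj_castAdd (V := Fin n) F 2
    rw [Fintype.card_fin] at h3
    exact h2.trans h3
  have h4 := sum_avg7 F _ hB
  have h5 : ∑ t ∈ inj (Fin n) 8, ∑ x : Fin (7 + 1), 24 * ((S6 (zb E (t ∘ x.succAbove))
        (fun i => χ ((t ∘ x.succAbove) i)) : ℤ) : ℝ) =
      ∑ t ∈ inj (Fin n) 8, ∑ x : Fin (7 + 1), ∑ p ∈ inj (Fin 7) 6, F ((t ∘ x.succAbove) ∘ p) :=
    Finset.sum_congr rfl fun t ht => Finset.sum_congr rfl fun x _ => h1 t ht x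
  rw [h4] at h5
  simp_rw [← Finset.mul_sum] at h5
  have h6 : (Nat.descFactorial 7 6 : ℝ) = 5040 := by norm_num [Nat.descFactorial]
  rw [h6] at h5
  linarith

theorem sum_S2 (χ : Fin n → Bool) :
    ∑ t ∈ inj (Fin n) 8, ∑ x : Fin (7 + 1), ((S2 (fun i => χ ((t ∘ x.succAbove) i)) : ℤ) : ℝ) =
      336 * PP n 2 6 * ((S2 χ : ℤ) : ℝ) := by
  set F : (Fin 2 → Fin n) → ℝ := fun q => ((sg (χ (q 0)) * sg (χ (q 1)) : ℤ) : ℝ) with hF
  have h1 : ∀ t ∈ inj (Fin n) 8, ∀ x : Fin (7 + 1),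
      ((S2 (fun i => χ ((t ∘ x.succAbove) i)) : ℤ) : ℝ) =
        ∑ p ∈ inj (Fin 7) 2, F ((t ∘ x.succAbove) ∘ p) := by
    intro t _ x
    rw [← sum2_inj]
    rfl
  have hB : ∀ j : Fin 2 → Fin 8, Function.Injective j → ∑ t ∈ inj (Fin n) 8, F (t ∘ j) =
      PP n 2 6 * ((S2 χ : ℤ) : ℝ) := by
    intro j hj
    rw [← sum2_inj]
    have h2 := sum_inj_comp (V := Fin n) 6 F j hj
    have h3 := sum_inj_castAdd (V := Fin n) F 6
    rw [Fintype.card_fin] at h3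
    exact h2.trans h3
  have h4 := sum_avg7 F _ hB
  have h5 : ∑ t ∈ inj (Fin n) 8, ∑ x : Fin (7 + 1),
      ((S2 (fun i => χ ((t ∘ x.succAbove) i)) : ℤ) : ℝ) =
      ∑ t ∈ inj (Fin n) 8, ∑ x : Fin (7 + 1), ∑ p ∈ inj (Fin 7) 2, F ((t ∘ x.succAbove) ∘ p) :=
    Finset.sum_congr rfl fun t ht => Finset.sum_congr rfl fun x _ => h1 t ht x
  rw [h4] at h5
  have h6 : (Nat.descFactorial 7 2 : ℝ) = 42 := by norm_num [Nat.descFactorial]
  rw [h6] at h5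
  linarith

/-- The statistic of all eight-tuples. -/
theorem sum_st7 (cn cd : ℤ) (E : Finset (Finset (Fin n))) (χ : Fin n → Bool) :
    ∑ t ∈ inj (Fin n) 8, ∑ x : Fin (7 + 1), ((st7 cn cd (zb E (t ∘ x.succAbove))
        (fun i => χ ((t ∘ x.succAbove) i)) : ℤ) : ℝ) =
      13440 * (cn * (11 / 16 * (n.descFactorial 8 : ℝ) - 24 * PP n 4 4 * ((S4 (mE E) : ℤ) : ℝ)) -
        cd * (96 * PP n 6 2 * ((S6 (mE E) χ : ℤ) : ℝ) + PP n 2 6 * ((S2 χ : ℤ) : ℝ))) := by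
  have h1 : ∀ t ∈ inj (Fin n) 8, ∀ x : Fin (7 + 1),
      ((st7 cn cd (zb E (t ∘ x.succAbove)) (fun i => χ ((t ∘ x.succAbove) i)) : ℤ) : ℝ) =
      (3 * cn * 385 : ℝ) - 48 * cn * ((S4 (zb E (t ∘ x.succAbove)) : ℤ) : ℝ) -
        32 * cd * ((S6 (zb E (t ∘ x.succAbove)) (fun i => χ ((t ∘ x.succAbove) i)) : ℤ) : ℝ) -
        40 * cd * ((S2 (fun i => χ ((t ∘ x.succAbove) i)) : ℤ) : ℝ) := by
    intro t _ x
    unfold st7
    push_cast
    ring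
  rw [Finset.sum_congr rfl fun t ht => Finset.sum_congr rfl fun x _ => h1 t ht x]
  simp_rw [Finset.sum_sub_distrib, ← Finset.mul_sum]
  rw [sum_S4, sum_S6, sum_S2]
  simp only [Finset.sum_const, nsmul_eq_mul, card_inj, Fintype.card_fin, Finset.card_univ]
  push_cast
  ring

end pull

/-- The cost that counts the differences. -/
def c0 (a b : Bool) : ℤ := if a = b then 0 else 1

theorem optE_self {n : ℕ} (E : Finset (Finset (Fin n))) (h4 : ∀ e ∈ E, e.card = 4)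
    (h : EvenH n E) : OptE c0 E E := by
  refine ⟨h4, h, fun E' _ _ => ?_⟩
  have h1 : K8.cst c0 E E = 0 := by
    unfold K8.cst c0
    refine Finset.sum_eq_zero fun Q _ => ?_
    rw [if_pos rfl]
  rw [h1]
  unfold K8.cst c0
  refine Finset.sum_nonneg fun Q _ => ?_
  split_ifs <;> norm_num

/-- The rows of the stability of even 4-graphs. -/
def T1Row {ce : Bool → Bool → ℕ → ℤ} (N : ℕ) (cn cd : ℤ) (T : CT c0 ce 7)
    (W : ∀ {n : ℕ}, Finset (Finset (Fin n)) → (Fin 7 → Fin n) → ℤ) : Prop :=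
  ∀ (n : ℕ) (E : Finset (Finset (Fin n))) (χ : Fin n → Bool), (∀ e ∈ E, e.card = 4) →
    EvenH n E → ∀ s : Fin 7 → Fin n, Function.Injective s →
      T.f E E χ s + W E s ≤ N * st7 cn cd (zb E s) (fun i => χ (s i))

/-- The average of the statistic. -/
theorem even_avg {ce : Bool → Bool → ℕ → ℤ} (N : ℕ) (cn cd : ℤ) (T : CT c0 ce 7) (κ6 : Kern 6)
    (W : ∀ {n : ℕ}, Finset (Finset (Fin n)) → (Fin 7 → Fin n) → ℤ) (hrow : T1Row N cn cd T W)
    (hB : BRow κ6 W) (n : ℕ) (E : Finset (Finset (Fin n))) (h4 : ∀ e ∈ E, e.card = 4)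
    (hE : EvenH n E) : ∃ χ : Fin n → Bool, -((8 * T.C + 56 * κ6.C) * D8 n) ≤
      N * (13440 * (cn * (11 / 16 * (n.descFactorial 8 : ℝ) -
        24 * PP n 4 4 * ((S4 (mE E) : ℤ) : ℝ)) -
        cd * (96 * PP n 6 2 * ((S6 (mE E) χ : ℤ) : ℝ) + PP n 2 6 * ((S2 χ : ℤ) : ℝ)))) := by
  obtain ⟨χ, hχ⟩ := exists_optC ce E E
  refine ⟨χ, ?_⟩
  have hO : OptT c0 ce E E χ := ⟨optE_self E h4 hE, hχ⟩
  rw [← sum_st7]
  have h1 : ∀ x : Fin (7 + 1), -(T.C * D8 n) ≤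
      ∑ t ∈ inj (Fin n) (4 + 4), ((T.f E E χ (t ∘ x.succAbove) : ℤ) : ℝ) := fun x =>
    T.avg E E χ hO x.succAbove Fin.succAbove_right_injective
  have h2 := PS_inj_ge (V := Fin n) (k := 6) 0 (fun s u w => ((κ6.f E s u w : ℤ) : ℝ)) κ6.C
    (κ6.psd E) (κ6.bd E) id Function.injective_id
  have e3 : ∀ t : Fin (4 + 4) → Fin n, ((PS (k := 6) (κ6.f E) t : ℤ) : ℝ) =
      PS (k := 6) (fun s u w => ((κ6.f E s u w : ℤ) : ℝ)) t := fun t => cast_PS _ t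
  have h3 : -(56 * κ6.C * D8 n) ≤
      ∑ t ∈ inj (Fin n) (4 + 4), ((PS (k := 6) (κ6.f E) t : ℤ) : ℝ) := by
    rw [Finset.sum_congr rfl fun t _ => e3 t]
    rw [Fintype.card_fin] at h2
    refine le_trans (le_of_eq ?_) h2
    unfold D8
    norm_num
  have h4' : ∑ x : Fin (7 + 1), -(T.C * D8 n) ≤ ∑ x : Fin (7 + 1),
      ∑ t ∈ inj (Fin n) (4 + 4), ((T.f E E χ (t ∘ x.succAbove) : ℤ) : ℝ) :=
    Finset.sum_le_sum fun x _ => h1 x
  rw [Finset.sum_const, Finset.card_univ, Fintype.card_fin, nsmul_eq_mul, Finset.sum_comm] at h4'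
  have h6 : ∀ t ∈ inj (Fin n) (4 + 4),
      ∑ x : Fin (7 + 1), ((T.f E E χ (t ∘ x.succAbove) : ℤ) : ℝ) +
        ((PS (k := 6) (κ6.f E) t : ℤ) : ℝ) ≤ ∑ x : Fin (7 + 1), (N : ℝ) *
          ((st7 cn cd (zb E (t ∘ x.succAbove)) (fun i => χ ((t ∘ x.succAbove) i)) : ℤ) : ℝ) := by
    intro t ht
    have hti : Function.Injective t := mem_inj.mp ht
    have h7 : ∀ x : Fin (7 + 1), T.f E E χ (t ∘ x.succAbove) + W E (t ∘ x.succAbove) ≤
        N * st7 cn cd (zb E (t ∘ x.succAbove)) (fun i => χ ((t ∘ x.succAbove) i)) := fun x =>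
      hrow n E χ h4 hE (t ∘ x.succAbove) (hti.comp Fin.succAbove_right_injective)
    have h8 := Finset.sum_le_sum fun x (_ : x ∈ (univ : Finset (Fin (7 + 1)))) => h7 x
    rw [Finset.sum_add_distrib] at h8
    have h9 := hB n E h4 hE t hti
    have e9 : DS (m := 7) (W E) t = ∑ x : Fin (7 + 1), W E (t ∘ x.succAbove) := rfl
    rw [e9] at h9
    have h10 : (∑ x : Fin (7 + 1), T.f E E χ (t ∘ x.succAbove)) + PS (k := 6) (κ6.f E) t ≤
        ∑ x : Fin (7 + 1), N * st7 cn cd (zb E (t ∘ x.succAbove))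
          (fun i => χ ((t ∘ x.succAbove) i)) := by
      have h11 : PS (k := 6) (κ6.f E) t ≤ ∑ x : Fin (7 + 1), W E (t ∘ x.succAbove) := h9
      linarith
    exact_mod_cast h10
  have h7 := Finset.sum_le_sum h6
  rw [Finset.sum_add_distrib] at h7
  push_cast at h4'
  have h12 : ∑ t ∈ inj (Fin n) (4 + 4), ∑ x : Fin (7 + 1), (N : ℝ) *
      ((st7 cn cd (zb E (t ∘ x.succAbove)) (fun i => χ ((t ∘ x.succAbove) i)) : ℤ) : ℝ) =
      (N : ℝ) * ∑ t ∈ inj (Fin n) (4 + 4), ∑ x : Fin (7 + 1),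
      ((st7 cn cd (zb E (t ∘ x.succAbove)) (fun i => χ ((t ∘ x.succAbove) i)) : ℤ) : ℝ) := by
    simp_rw [← Finset.mul_sum]
  rw [h12] at h7
  linarith

end Pool.Agent.Lib.MP_afdd4d_co.K9.Star
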