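import Pool.Agent.Lib.MP_afdd4d_co.K9.T1F

/-!
# Stability of even 4-graphs: the distance to a reference structure
-/

namespace Pool.Agent.Lib.MP_afdd4d_co.K9.Star

open Finset K8

section bounds
variable {n : ℕ}

theorem S4_mE (E : Finset (Finset (Fin n))) (h4 : ∀ e ∈ E, e.card = 4) :
    S4 (mE E) = (E.card : ℤ) := by
  have h1 : ∀ Q : Finset (Fin n), ((mE E Q).toNat : ℤ) = if Q ∈ E then 1 else 0 := by
    intro Q
    unfold mE
    by_cases h : Q ∈ E
    · rw [if_pos h, decide_eq_true h]; rfl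
    · rw [if_neg h, decide_eq_false h]; rfl
  unfold S4
  rw [Finset.sum_congr rfl fun Q _ => h1 Q, Finset.sum_boole]
  congr 2
  ext Q
  rw [Finset.mem_filter, Finset.mem_powersetCard]
  exact ⟨fun h => h.2, fun h => ⟨⟨Finset.subset_univ _, h4 Q h⟩, h⟩⟩

/-- The size of the symmetric difference of two sets of quadruples. -/
theorem card_symmDiff (E G : Finset (Finset (Fin n))) (h4 : ∀ e ∈ E, e.card = 4)
    (g4 : ∀ e ∈ G, e.card = 4) : ((symmDiff E G).card : ℤ) =
      ∑ Q ∈ (univ : Finset (Fin n)).powersetCard 4, ((mE E Q ^^ mE G Q).toNat : ℤ) := by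
  have h1 : ∀ Q : Finset (Fin n), ((mE E Q ^^ mE G Q).toNat : ℤ) =
      if Q ∈ symmDiff E G then 1 else 0 := by
    intro Q
    unfold mE
    by_cases h : Q ∈ E <;> by_cases g : Q ∈ G <;> simp [Finset.mem_symmDiff, h, g]
  rw [Finset.sum_congr rfl fun Q _ => h1 Q, Finset.sum_boole]
  congr 2
  ext Q
  rw [Finset.mem_filter, Finset.mem_powersetCard]
  constructor
  · intro h
    refine ⟨⟨Finset.subset_univ _, ?_⟩, h⟩
    rw [Finset.mem_symmDiff] at h
    rcases h with h | h
    · exact h4 Q h.1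
    · exact g4 Q h.1
  · exact fun h => h.2

/-- The number of quadruples that contain a vertex. -/
theorem sum_mem_le (x : Fin n) :
    ∑ Q ∈ (univ : Finset (Fin n)).powersetCard 4, (if x ∈ Q then (1 : ℝ) else 0) ≤
      (n : ℝ) ^ 3 / 6 := by
  rw [Finset.sum_boole]
  have h1 : (((univ : Finset (Fin n)).powersetCard 4).filter fun Q => x ∈ Q).card ≤ n.choose 3 := by
    have h2 : ((univ : Finset (Fin n)).powersetCard 3).card = n.choose 3 := by
      rw [Finset.card_powersetCard, Finset.card_univ, Fintype.card_fin]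
    rw [← h2]
    refine Finset.card_le_card_of_injOn (fun Q => Q.erase x) ?_ ?_
    · intro Q hQ
      have hQ' := Finset.mem_filter.mp (Finset.mem_coe.mp hQ)
      have hc := (Finset.mem_powersetCard.mp hQ'.1).2
      apply Finset.mem_coe.mpr
      rw [Finset.mem_powersetCard]
      exact ⟨Finset.subset_univ _, by rw [Finset.card_erase_of_mem hQ'.2, hc]⟩
    · intro Q hQ R hR h
      have hQ' := (Finset.mem_filter.mp (Finset.mem_coe.mp hQ)).2
      have hR' := (Finset.mem_filter.mp (Finset.mem_coe.mp hR)).2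
      have h3 : Q.erase x = R.erase x := h
      rw [← Finset.insert_erase hQ', ← Finset.insert_erase hR', h3]
  have h2 := Nat.choose_le_pow_div (α := ℝ) 3 n
  have h3 : (((univ : Finset (Fin n)).powersetCard 4).filter fun Q => x ∈ Q).card ≤
      ((n.choose 3 : ℕ) : ℝ) := by exact_mod_cast h1
  have h4 : ((Nat.factorial 3 : ℕ) : ℝ) = 6 := by norm_num [Nat.factorial]
  rw [h4] at h2
  exact h3.trans h2

theorem choose4_le : ((n.choose 4 : ℕ) : ℝ) ≤ (n : ℝ) ^ 4 / 24 := by
  have h2 := Nat.choose_le_pow_div (α := ℝ) 4 n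
  have h4 : ((Nat.factorial 4 : ℕ) : ℝ) = 24 := by norm_num [Nat.factorial]
  rwa [h4] at h2

theorem card_quads_le (E : Finset (Finset (Fin n))) (h4 : ∀ e ∈ E, e.card = 4) :
    (E.card : ℝ) ≤ (n : ℝ) ^ 4 / 24 := by
  have h1 : E.card ≤ n.choose 4 := by
    have h2 : ((univ : Finset (Fin n)).powersetCard 4).card = n.choose 4 := by
      rw [Finset.card_powersetCard, Finset.card_univ, Fintype.card_fin]
    rw [← h2]
    refine Finset.card_le_card fun Q hQ => ?_
    rw [Finset.mem_powersetCard]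
    exact ⟨Finset.subset_univ _, h4 Q hQ⟩
  have h3 : (E.card : ℝ) ≤ ((n.choose 4 : ℕ) : ℝ) := by exact_mod_cast h1
  exact h3.trans choose4_le

/-- The number of vertices of a colour. -/
def nc (χ : Fin n → Bool) (z : Bool) : ℕ := ((univ : Finset (Fin n)).filter fun v => χ v = z).card

theorem nc_add (χ : Fin n → Bool) : nc χ false + nc χ true = n := by
  have h := Finset.card_filter_add_card_filter_not (s := (univ : Finset (Fin n)))
    (fun v => χ v = false)
  rw [Finset.card_univ, Fintype.card_fin] at h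
  have h1 : ((univ : Finset (Fin n)).filter fun v => ¬ χ v = false) =
      (univ : Finset (Fin n)).filter fun v => χ v = true := by
    refine Finset.filter_congr fun v _ => ?_
    rw [Bool.not_eq_false]
  rw [h1] at h
  exact h

theorem sum_sg (χ : Fin n → Bool) : ∑ v, sg (χ v) = (nc χ false : ℤ) - nc χ true := by
  have h1 : ∀ v, sg (χ v) = (if χ v = false then (1 : ℤ) else 0) -
      (if χ v = true then (1 : ℤ) else 0) := by
    intro v
    unfold sg
    cases χ v <;> simp
  rw [Finset.sum_congr rfl fun v _ => h1 v, Finset.sum_sub_distrib, Finset.sum_boole,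
    Finset.sum_boole]
  rfl

theorem S2_eq (χ : Fin n → Bool) : S2 χ = ((nc χ false : ℤ) - nc χ true) ^ 2 - n := by
  have h1 : ∀ x y : Fin n, (if x = y then (0 : ℤ) else sg (χ x) * sg (χ y)) =
      sg (χ x) * sg (χ y) - if x = y then 1 else 0 := by
    intro x y
    by_cases h : x = y
    · rw [if_pos h, if_pos h, h]
      unfold sg
      cases χ y <;> simp
    · rw [if_neg h, if_neg h, sub_zero]
  unfold S2
  rw [Finset.sum_congr rfl fun x _ => Finset.sum_congr rfl fun y _ => h1 x y]
  simp_rw [Finset.sum_sub_distrib, ← Finset.mul_sum, ← Finset.sum_mul]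
  rw [sum_sg]
  simp
  ring

theorem mE_gir (χ : Fin n → Bool) (M : Fin n → Fin n → Bool) (f g : Finset (Fin n) → Bool)
    (Q : Finset (Fin n)) (hQ : Q.card = 4) : mE (gir χ M f g) Q = girB χ M f g Q :=
  dec_gir χ M f g Q hQ

theorem S6_ge (E : Finset (Finset (Fin n))) (h4 : ∀ e ∈ E, e.card = 4) (χ : Fin n → Bool) (X : ℝ)
    (hX : ∀ M f g, X ≤ ((symmDiff E (gir χ M f g)).card : ℝ)) :
    (nc χ false : ℝ) * nc χ true * (X - (n : ℝ) ^ 3 / 3) ≤ ((S6 (mE E) χ : ℤ) : ℝ) := by
  have h1 : ∀ x y : Fin n, X - (n : ℝ) ^ 3 / 3 ≤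
      ∑ Q ∈ (univ : Finset (Fin n)).powersetCard 4, if x ∉ Q ∧ y ∉ Q then
        (((erB (mE E) χ x y Q).toNat : ℤ) : ℝ) else 0 := by
    intro x y
    have h2 := hX (fun a b => mE E {x, a, y, b}) (fun T => !mE E (insert y T))
      (fun T => !mE E (insert x T))
    have h3 := card_symmDiff E (gir χ (fun a b => mE E {x, a, y, b})
      (fun T => !mE E (insert y T)) (fun T => !mE E (insert x T))) h4 (gir_card _ _ _ _)
    have h3' : ((symmDiff E (gir χ (fun a b => mE E {x, a, y, b})
      (fun T => !mE E (insert y T)) (fun T => !mE E (insert x T)))).card : ℝ) =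
        ∑ Q ∈ (univ : Finset (Fin n)).powersetCard 4,
          (((erB (mE E) χ x y Q).toNat : ℤ) : ℝ) := by
      have h5 : (((symmDiff E (gir χ (fun a b => mE E {x, a, y, b})
        (fun T => !mE E (insert y T)) (fun T => !mE E (insert x T)))).card : ℤ) : ℝ) =
          ((∑ Q ∈ (univ : Finset (Fin n)).powersetCard 4,
            ((erB (mE E) χ x y Q).toNat : ℤ) : ℤ) : ℝ) := by
        rw [h3]
        congr 1
        refine Finset.sum_congr rfl fun Q hQ => ?_
        rw [mE_gir _ _ _ _ Q (Finset.mem_powersetCard.mp hQ).2]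
        rfl
      rw [Int.cast_sum] at h5
      exact_mod_cast h5
    have h6 : ∀ Q ∈ (univ : Finset (Fin n)).powersetCard 4,
        (((erB (mE E) χ x y Q).toNat : ℤ) : ℝ) - (if x ∈ Q then (1 : ℝ) else 0) -
          (if y ∈ Q then (1 : ℝ) else 0) ≤
        if x ∉ Q ∧ y ∉ Q then (((erB (mE E) χ x y Q).toNat : ℤ) : ℝ) else 0 := by
      intro Q _
      have h7 : (((erB (mE E) χ x y Q).toNat : ℤ) : ℝ) ≤ 1 := by
        cases erB (mE E) χ x y Q <;> simp
      by_cases hx : x ∈ Q
      · rw [if_pos hx, if_neg (show ¬ (x ∉ Q ∧ y ∉ Q) from fun h => h.1 hx)]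
        by_cases hy : y ∈ Q
        · rw [if_pos hy]; linarith
        · rw [if_neg hy]; linarith
      · rw [if_neg hx]
        by_cases hy : y ∈ Q
        · rw [if_pos hy, if_neg (show ¬ (x ∉ Q ∧ y ∉ Q) from fun h => h.2 hy)]; linarith
        · rw [if_neg hy, if_pos (show x ∉ Q ∧ y ∉ Q from ⟨hx, hy⟩)]; linarith
    have h8 := Finset.sum_le_sum h6
    rw [Finset.sum_sub_distrib, Finset.sum_sub_distrib] at h8
    have h9 := sum_mem_le x
    have h10 := sum_mem_le y
    linarith
  unfold S6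
  push_cast
  have h2 : ∀ x y : Fin n, (if χ x = false ∧ χ y = true then X - (n : ℝ) ^ 3 / 3 else 0) ≤
      if χ x = false ∧ χ y = true then
        ∑ Q ∈ (univ : Finset (Fin n)).powersetCard 4, (if x ∉ Q ∧ y ∉ Q then
          (((erB (mE E) χ x y Q).toNat : ℕ) : ℝ) else 0) else 0 := by
    intro x y
    split_ifs with h
    · have h3 := h1 x y
      push_cast at h3
      exact h3
    · exact le_rfl
  have h3 := Finset.sum_le_sum fun x (_ : x ∈ (univ : Finset (Fin n))) =>
    Finset.sum_le_sum fun y (_ : y ∈ (univ : Finset (Fin n))) => h2 x y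
  refine le_trans (le_of_eq ?_) h3
  have h4 : ∀ x y : Fin n, (if χ x = false ∧ χ y = true then X - (n : ℝ) ^ 3 / 3 else 0) =
      (if χ x = false then (1 : ℝ) else 0) * ((if χ y = true then (1 : ℝ) else 0) *
        (X - (n : ℝ) ^ 3 / 3)) := by
    intro x y
    by_cases hx : χ x = false <;> by_cases hy : χ y = true <;> simp [hx, hy]
  rw [Finset.sum_congr rfl fun x _ => Finset.sum_congr rfl fun y _ => h4 x y]
  simp_rw [← Finset.mul_sum, ← Finset.sum_mul]
  rw [Finset.sum_boole, Finset.sum_boole]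
  unfold nc
  ring

theorem S6_le (E : Finset (Finset (Fin n))) (χ : Fin n → Bool) :
    ((S6 (mE E) χ : ℤ) : ℝ) ≤ (n : ℝ) ^ 6 / 24 := by
  unfold S6
  push_cast
  have h1 : ∀ x y : Fin n, (if χ x = false ∧ χ y = true then
        ∑ Q ∈ (univ : Finset (Fin n)).powersetCard 4, (if x ∉ Q ∧ y ∉ Q then
          (((erB (mE E) χ x y Q).toNat : ℕ) : ℝ) else 0) else 0) ≤ (n : ℝ) ^ 4 / 24 := by
    intro x y
    have h2 : ∑ Q ∈ (univ : Finset (Fin n)).powersetCard 4, (if x ∉ Q ∧ y ∉ Q then
          (((erB (mE E) χ x y Q).toNat : ℕ) : ℝ) else 0) ≤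
        ∑ Q ∈ (univ : Finset (Fin n)).powersetCard 4, (1 : ℝ) := by
      refine Finset.sum_le_sum fun Q _ => ?_
      split_ifs
      · cases erB (mE E) χ x y Q <;> simp
      · norm_num
    rw [Finset.sum_const, nsmul_eq_mul, mul_one, Finset.card_powersetCard, Finset.card_univ,
      Fintype.card_fin] at h2
    have h3 := choose4_le (n := n)
    split_ifs
    · linarith
    · positivity
  have h3 := Finset.sum_le_sum fun x (_ : x ∈ (univ : Finset (Fin n))) =>
    Finset.sum_le_sum fun y (_ : y ∈ (univ : Finset (Fin n))) => h1 x y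
  refine le_trans h3 (le_of_eq ?_)
  simp only [Finset.sum_const, nsmul_eq_mul, Finset.card_univ, Fintype.card_fin]
  ring

theorem S6_nonneg (E : Finset (Finset (Fin n))) (χ : Fin n → Bool) :
    0 ≤ ((S6 (mE E) χ : ℤ) : ℝ) := by
  unfold S6
  push_cast
  refine Finset.sum_nonneg fun x _ => Finset.sum_nonneg fun y _ => ?_
  split_ifs
  · refine Finset.sum_nonneg fun Q _ => ?_
    split_ifs
    · positivity
    · exact le_rfl
  · exact le_rfl

end bounds

end Pool.Agent.Lib.MP_afdd4d_co.K9.Star
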