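import Pool.Agent.Lib.MP_afdd4d_co.K9.T1
import Pool.Agent.Lib.MP_afdd4d_co.K8.PsiSkel

/-!
# Stability of even 4-graphs: the sums of the statistic over all tuples
-/

namespace Pool.Agent.Lib.MP_afdd4d_co.K9.Star

open Finset K8

section sums
variable {V : Type*} [Fintype V] [DecidableEq V]

/-- A sum over injective tuples of a function of the first coordinates. -/
theorem sum_inj_castAdd {k : ℕ} (F : (Fin k → V) → ℝ) : ∀ d : ℕ,
    ∑ t ∈ inj V (k + d), F (t ∘ Fin.castAdd d) =
      (∏ i ∈ Finset.range d, ((Fintype.card V : ℝ) - k - i)) * ∑ p ∈ inj V k, F p := by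
  intro d
  induction d with
  | zero =>
    rw [Finset.range_zero, Finset.prod_empty, one_mul]
    rfl
  | succ d ih =>
    have h1 := sum_inj_ins (V := V) (Fin.last (k + d)) fun _ p => F (p ∘ Fin.castAdd d)
    have h2 : ∀ t : Fin (k + d + 1) → V, F ((t ∘ (Fin.last (k + d)).succAbove) ∘ Fin.castAdd d) =
        F (t ∘ Fin.castAdd (d + 1)) := by
      intro t
      congr 1
      funext i
      show t ((Fin.last (k + d)).succAbove (Fin.castAdd d i)) = t (Fin.castAdd (d + 1) i)
      rw [Fin.succAbove_last]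
      rfl
    rw [Finset.sum_congr rfl fun t _ => h2 t] at h1
    have h3 : ∀ p ∈ inj V (k + d), ∑ r ∈ (univ.image p)ᶜ, F (p ∘ Fin.castAdd d) =
        ((Fintype.card V : ℝ) - k - d) * F (p ∘ Fin.castAdd d) := by
      intro p hp
      rw [Finset.sum_const, nsmul_eq_mul, card_compl_image p (mem_inj.mp hp)]
      push_cast
      ring
    rw [Finset.sum_congr rfl h3, ← Finset.mul_sum, ih] at h1
    rw [Finset.prod_range_succ]
    have h4 : ∑ t ∈ inj V (k + (d + 1)), F (t ∘ Fin.castAdd (d + 1)) =
        ∑ t ∈ inj V (k + d + 1), F (t ∘ Fin.castAdd (d + 1)) := rfl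
    rw [h4, h1]
    ring

/-- The average over the tuples without one of their eight vertices. -/
theorem sum_avg7 {k : ℕ} (F : (Fin k → V) → ℝ) (B : ℝ)
    (hB : ∀ j : Fin k → Fin 8, Function.Injective j → ∑ t ∈ inj V 8, F (t ∘ j) = B) :
    ∑ t ∈ inj V 8, ∑ x : Fin (7 + 1), ∑ p ∈ inj (Fin 7) k, F ((t ∘ x.succAbove) ∘ p) =
      8 * (Nat.descFactorial 7 k : ℝ) * B := by
  rw [Finset.sum_comm]
  have h1 : ∀ x ∈ (univ : Finset (Fin (7 + 1))),
      ∑ t ∈ inj V 8, ∑ p ∈ inj (Fin 7) k, F ((t ∘ x.succAbove) ∘ p) =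
        (Nat.descFactorial 7 k : ℝ) * B := by
    intro x _
    rw [Finset.sum_comm]
    have h2 : ∀ p ∈ inj (Fin 7) k, ∑ t ∈ inj V 8, F ((t ∘ x.succAbove) ∘ p) = B := by
      intro p hp
      exact hB (x.succAbove ∘ p) (Fin.succAbove_right_injective.comp (mem_inj.mp hp))
    rw [Finset.sum_congr rfl h2, Finset.sum_const, nsmul_eq_mul, card_inj, Fintype.card_fin]
  rw [Finset.sum_congr rfl h1, Finset.sum_const, nsmul_eq_mul, Finset.card_univ, Fintype.card_fin]
  push_cast
  ring

/-- The sum over injective tuples of length six. -/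
theorem sum6_inj (e : Finset V → Bool) (χ : V → Bool) :
    ∑ p ∈ inj V 6, ((f6 e χ p : ℤ) : ℝ) = 24 * ((S6 e χ : ℤ) : ℝ) := by
  have h0 : ∑ p ∈ inj V 6, ((f6 e χ p : ℤ) : ℝ) = ∑ p : Fin (2 + 4) → V,
      if Function.Injective p then ((f6 e χ p : ℤ) : ℝ) else 0 := by
    rw [inj, Finset.sum_filter]
  rw [h0, ← (Fin.appendEquiv 2 4).sum_comp, Fintype.sum_prod_type]
  have h1 : ∀ u : Fin 2 → V, ∑ q : Fin 4 → V,
      (if Function.Injective ((Fin.appendEquiv 2 4) (u, q)) then
        ((f6 e χ ((Fin.appendEquiv 2 4) (u, q)) : ℤ) : ℝ) else 0) =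
      24 * (((if χ (u 0) = false ∧ χ (u 1) = true then
        ∑ Q ∈ (univ : Finset V).powersetCard 4, if u 0 ∉ Q ∧ u 1 ∉ Q then
          ((erB e χ (u 0) (u 1) Q).toNat : ℤ) else 0 else 0 : ℤ)) : ℝ) := by
    intro u
    by_cases hc : χ (u 0) = false ∧ χ (u 1) = true
    · rw [if_pos hc]
      have hu : Function.Injective u := by
        intro a b hab
        fin_cases a <;> fin_cases b
        · rfl
        · have h2 : u 0 = u 1 := hab
          rw [h2, hc.2] at hc
          exact absurd hc.1 (by decide)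
        · have h2 : u 1 = u 0 := hab
          rw [h2, hc.1] at hc
          exact absurd hc.2 (by decide)
        · rfl
      have h2 : ∀ q : Fin 4 → V,
          (if Function.Injective ((Fin.appendEquiv 2 4) (u, q)) then
            ((f6 e χ ((Fin.appendEquiv 2 4) (u, q)) : ℤ) : ℝ) else 0) =
          if Function.Injective q then (fun Q : Finset V => (((if u 0 ∉ Q ∧ u 1 ∉ Q then
            ((erB e χ (u 0) (u 1) Q).toNat : ℤ) else 0 : ℤ)) : ℝ)) (univ.image q) else 0 := by
        intro q
        have e0 : (Fin.appendEquiv 2 4) (u, q) = Fin.append u q := rfl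
        have e1 : (Fin.append u q : Fin 6 → V) 0 = u 0 := Fin.append_left u q 0
        have e2 : (Fin.append u q : Fin 6 → V) 1 = u 1 := Fin.append_left u q 1
        have e3 : (fun i : Fin 4 => (Fin.append u q : Fin 6 → V) (Fin.natAdd 2 i)) = q := by
          funext i
          exact Fin.append_right u q i
        have e4 : f6 e χ (Fin.append u q) =
            ((erB e χ (u 0) (u 1) (univ.image q)).toNat : ℤ) := by
          unfold f6
          rw [e1, e2, e3, if_pos hc]
        rw [e0, e4]
        have e5 : Function.Injective (Fin.append u q) ↔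
            Function.Injective q ∧ (u 0 ∉ univ.image q ∧ u 1 ∉ univ.image q) := by
          rw [Fin.append_injective_iff]
          constructor
          · rintro ⟨_, h3, h4⟩
            refine ⟨h3, ?_, ?_⟩
            · intro h5
              obtain ⟨a, _, ha⟩ := Finset.mem_image.mp h5
              exact h4 0 a ha.symm
            · intro h5
              obtain ⟨a, _, ha⟩ := Finset.mem_image.mp h5
              exact h4 1 a ha.symm
          · rintro ⟨h3, h4, h5⟩
            refine ⟨hu, h3, fun i j hij => ?_⟩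
            fin_cases i
            · exact h4 (Finset.mem_image.mpr ⟨j, Finset.mem_univ _, hij.symm⟩)
            · exact h5 (Finset.mem_image.mpr ⟨j, Finset.mem_univ _, hij.symm⟩)
        by_cases h3 : Function.Injective q
        · rw [if_pos h3]
          by_cases h4 : u 0 ∉ univ.image q ∧ u 1 ∉ univ.image q
          · rw [if_pos (e5.mpr ⟨h3, h4⟩)]
            show _ = (((if u 0 ∉ univ.image q ∧ u 1 ∉ univ.image q then
              ((erB e χ (u 0) (u 1) (univ.image q)).toNat : ℤ) else 0 : ℤ)) : ℝ)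
            rw [if_pos h4]
          · rw [if_neg fun h => h4 (e5.mp h).2]
            show _ = (((if u 0 ∉ univ.image q ∧ u 1 ∉ univ.image q then
              ((erB e χ (u 0) (u 1) (univ.image q)).toNat : ℤ) else 0 : ℤ)) : ℝ)
            rw [if_neg h4, Int.cast_zero]
        · rw [if_neg h3, if_neg fun h => h3 (e5.mp h).1]
      rw [Finset.sum_congr rfl fun q _ => h2 q]
      refine (sum_img (V := V) fun Q : Finset V => (((if u 0 ∉ Q ∧ u 1 ∉ Q then
            ((erB e χ (u 0) (u 1) Q).toNat : ℤ) else 0 : ℤ)) : ℝ)).trans ?_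
      rw [Int.cast_sum]
    · rw [if_neg hc, Int.cast_zero, mul_zero]
      refine Finset.sum_eq_zero fun q _ => ?_
      have e0 : (Fin.appendEquiv 2 4) (u, q) = Fin.append u q := rfl
      have e1 : (Fin.append u q : Fin 6 → V) 0 = u 0 := Fin.append_left u q 0
      have e2 : (Fin.append u q : Fin 6 → V) 1 = u 1 := Fin.append_left u q 1
      have e4 : f6 e χ (Fin.append u q) = 0 := by
        unfold f6
        rw [e1, e2, if_neg hc]
      rw [e0, e4, Int.cast_zero]
      split_ifs <;> rfl
  rw [Finset.sum_congr rfl fun u _ => h1 u, ← Finset.mul_sum]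
  congr 1
  rw [← (finTwoArrowEquiv V).symm.sum_comp, Fintype.sum_prod_type]
  unfold S6
  rw [Int.cast_sum]
  refine Finset.sum_congr rfl fun x _ => ?_
  rw [Int.cast_sum]
  rfl

omit [Fintype V] in
/-- The indicator of an error as a function of the vertices. -/
theorem f6_comp {W : Type*} [DecidableEq W] (e : Finset V → Bool) (χ : V → Bool) (s : W → V)
    (hs : Function.Injective s) (p : Fin 6 → W) :
    f6 (fun T => e (T.image s)) (fun w => χ (s w)) p = f6 e χ (s ∘ p) := by
  unfold f6
  rw [← erB_map e χ s hs, Finset.image_image]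
  rfl

end sums

end Pool.Agent.Lib.MP_afdd4d_co.K9.Star
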