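import Pool.Agent.Lib.MP_afdd4d_co.K9.T4G
import Pool.Agent.Lib.MP_afdd4d_co.K9.T1E
import Pool.Agent.Lib.MP_afdd4d_co.K9.Iface

/-!
# The local theorem from inequalities on six-tuples
-/

namespace Pool.Agent.Lib.MP_afdd4d_co.K9.Star

open Finset K8

/-- The number of 5-sets of the window with exactly `i` members. -/
def O5 (h : Finset (Fin 6) → Bool) (i : ℕ) : ℕ :=
  (((univ : Finset (Fin 6)).powersetCard 5).filter fun S =>
    ∑ T ∈ S.powersetCard 4, (h T).toNat = i).card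

/-- The column of the distance to the reference structure. -/
def colF (cn cd : ℤ) (h e : Finset (Fin 6) → Bool) (χ : Fin 6 → Bool) : ℤ :=
  400 * cd * ((O5 h 1 : ℤ) + O5 h 3) + 1650 * cn - 160 * cn * S4 h +
    80 * cn * ((O5 h 3 : ℤ) - 3 * O5 h 1) - 160 * cd * S4 (fun T => h T ^^ e T) - 72 * cd * S2 χ

/-- The density defect of a window. -/
def colR (e : Finset (Fin 6) → Bool) : ℤ := 165 - 16 * S4 e

/-- The upper bound for the size of even 4-graphs. -/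
def EvUp : Prop := ∀ ε : ℝ, 0 < ε → ∃ N : ℕ, ∀ n : ℕ, N ≤ n → ∀ H : Finset (Finset (Fin n)),
    (∀ e ∈ H, e.card = 4) → EvenH n H →
    (H.card : ℝ) ≤ (11 / 16 + ε) * ((n.choose 4 : ℕ) : ℝ)

/-- The sum of the number of 5-sets of the window with `i` edges. -/
def SumO5 : Prop := ∀ (n : ℕ) (H : Finset (Finset (Fin n))) (i : ℕ), (∀ e ∈ H, e.card = 4) →
    ∑ t ∈ inj (Fin n) 6, ((O5 (zb H t) i : ℕ) : ℝ) = 720 * ((n : ℝ) - 5) * (T5 H i : ℝ)

section est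

/-- The estimate for the column of the distance. -/
theorem real_colF (u p6 p5 p42 p24 q1 q3 e X s cn cd : ℝ) (hu : 0 ≤ u) (hcn : 0 ≤ cn)
    (hcd : 0 ≤ cd) (h6 : 1 - 60 * u ≤ p6) (h5 : p5 = 1 - 5 * u) (h42 : p42 ≤ 1)
    (h24 : p24 ≤ 1) (h24' : 0 ≤ p24) (hq1 : 0 ≤ q1) (hq1' : q1 ≤ 1)
    (hq3' : q3 ≤ 1) (he : 0 ≤ e) (hX : 0 ≤ X) (hs : 0 ≤ s) :
    2400 * (cd * (q1 + q3) + cn * (11 / 16 - e) + cn * (q3 - 3 * q1) / 5 -
      cd * X - cd * (9 / 10 * s)) - (24000 * cd + 102000 * cn) * u ≤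
    2400 * cd * (q1 + q3) * p5 + 1650 * cn * p6 - 2400 * cn * (e * p42) +
      480 * cn * ((q3 - 3 * q1) * p5) - 2400 * cd * (X * p42) - 2160 * cd * (p24 * (s - u)) := by
  have a1 : -(24000 * cd * u) ≤ 2400 * cd * (q1 + q3) * p5 - 2400 * (cd * (q1 + q3)) := by
    rw [h5]
    have h1 : cd * u * (q1 + q3) ≤ cd * u * 2 :=
      mul_le_mul_of_nonneg_left (by linarith) (mul_nonneg hcd hu)
    linarith
  have a2 : 1650 * cn - 99000 * (cn * u) ≤ 1650 * cn * p6 := by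
    have h1 := mul_le_mul_of_nonneg_left h6 hcn
    linarith
  have a3 : cn * (e * p42) ≤ cn * e := by
    have h1 : e * p42 ≤ e * 1 := mul_le_mul_of_nonneg_left h42 he
    have h2 := mul_le_mul_of_nonneg_left h1 hcn
    linarith
  have a4 : 480 * (cn * (q3 - 3 * q1)) - 2400 * (cn * u) ≤ 480 * cn * ((q3 - 3 * q1) * p5) := by
    rw [h5]
    have h1 : cn * u * (q3 - 3 * q1) ≤ cn * u * 1 :=
      mul_le_mul_of_nonneg_left (by linarith) (mul_nonneg hcn hu)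
    linarith
  have a5 : cd * (X * p42) ≤ cd * X := by
    have h1 : X * p42 ≤ X * 1 := mul_le_mul_of_nonneg_left h42 hX
    have h2 := mul_le_mul_of_nonneg_left h1 hcd
    linarith
  have a6 : cd * (p24 * (s - u)) ≤ cd * s := by
    refine mul_le_mul_of_nonneg_left ?_ hcd
    have h1 : p24 * s ≤ 1 * s := mul_le_mul_of_nonneg_right h24 hs
    have h2 : 0 ≤ p24 * u := mul_nonneg h24' hu
    linarith
  have h7 : 0 ≤ cn * u := mul_nonneg hcn hu
  linarith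

end est

section cols
variable {n : ℕ}

theorem zb_xor_eq (H G : Finset (Finset (Fin n))) (t : Fin 6 → Fin n) :
    (fun T => zb H t T ^^ zb G t T) = fun T => zb H t T ^^ zb G t T := rfl

theorem PP24_le (h : 6 ≤ n) : PP n 2 4 ≤ (n : ℝ) ^ 4 := by
  obtain ⟨m, rfl⟩ := Nat.exists_eq_add_of_le h
  have e : PP (6 + m) 2 4 = (4 + m) * (3 + m) * (2 + m) * (1 + m) := by
    unfold PP
    rw [Finset.prod_range_succ, Finset.prod_range_succ, Finset.prod_range_succ,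
      Finset.prod_range_succ, Finset.prod_range_zero]
    push_cast
    ring
  rw [e]
  have h3 : ((4 + m) * (3 + m) * (2 + m) * (1 + m) : ℝ) ≤
      (6 + m) * (6 + m) * (6 + m) * (6 + m) := by gcongr <;> norm_num
  push_cast
  refine le_trans h3 (le_of_eq ?_)
  ring

theorem PP24_nonneg (h : 6 ≤ n) : 0 ≤ PP n 2 4 := by
  obtain ⟨m, rfl⟩ := Nat.exists_eq_add_of_le h
  have e : PP (6 + m) 2 4 = (4 + m) * (3 + m) * (2 + m) * (1 + m) := by
    unfold PP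
    rw [Finset.prod_range_succ, Finset.prod_range_succ, Finset.prod_range_succ,
      Finset.prod_range_succ, Finset.prod_range_zero]
    push_cast
    ring
  rw [e]
  positivity

theorem PP42_le (h : 6 ≤ n) : PP n 4 2 ≤ (n : ℝ) ^ 2 := by
  obtain ⟨m, rfl⟩ := Nat.exists_eq_add_of_le h
  have e : ((6 + m : ℕ) : ℝ) ^ 2 - PP (6 + m) 4 2 = 9 * m + 34 := by
    unfold PP
    rw [Finset.prod_range_succ, Finset.prod_range_succ, Finset.prod_range_zero]
    push_cast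
    ring
  have : (0 : ℝ) ≤ 9 * m + 34 := by positivity
  linarith

theorem PP42_ge (n : ℕ) : (n : ℝ) ^ 2 - 9 * n ≤ PP n 4 2 := by
  have e : PP n 4 2 - ((n : ℝ) ^ 2 - 9 * n) = 20 := by
    unfold PP
    rw [Finset.prod_range_succ, Finset.prod_range_succ, Finset.prod_range_zero]
    push_cast
    ring
  linarith

theorem choose5_le : ((n.choose 5 : ℕ) : ℝ) ≤ (n : ℝ) ^ 5 / 120 := by
  have h2 := Nat.choose_le_pow_div (α := ℝ) 5 n
  have h4 : ((Nat.factorial 5 : ℕ) : ℝ) = 120 := by norm_num [Nat.factorial]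
  rwa [h4] at h2

theorem q5_le_one (H : Finset (Finset (Fin n))) (i : ℕ) (hn : 0 < n) : q5 H i ≤ 1 := by
  have h1 : T5 H i ≤ n.choose 5 := by
    have h2 : ((univ : Finset (Fin n)).powersetCard 5).card = n.choose 5 := by
      rw [Finset.card_powersetCard, Finset.card_univ, Fintype.card_fin]
    rw [← h2]
    exact Finset.card_le_card (Finset.filter_subset _ _)
  have h2 : (T5 H i : ℝ) ≤ ((n.choose 5 : ℕ) : ℝ) := by exact_mod_cast h1
  have h3 := choose5_le (n := n)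
  have hn' : (0 : ℝ) < (n : ℝ) ^ 5 := by positivity
  unfold q5
  rw [div_le_one hn']
  linarith

theorem q5_ge_zero (H : Finset (Finset (Fin n))) (i : ℕ) : 0 ≤ q5 H i := by
  unfold q5
  positivity

theorem e4_le_one (H : Finset (Finset (Fin n))) (h4 : ∀ e ∈ H, e.card = 4) (hn : 0 < n) :
    e4 H ≤ 1 := by
  have h := card_quads_le H h4
  have hn' : (0 : ℝ) < (n : ℝ) ^ 4 := by positivity
  unfold e4
  rw [div_le_one hn']
  linarith

/-- The sum of the column of the distance. -/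
theorem sum_colF (hO : SumO5) (cn cd : ℤ) (hcn : 0 ≤ cn) (hcd : 0 < cd) (hn : 30 ≤ n)
    (H G : Finset (Finset (Fin n))) (h4 : ∀ e ∈ H, e.card = 4) (g4 : ∀ e ∈ G, e.card = 4)
    (χ : Fin n → Bool) :
    (n : ℝ) ^ 6 * (2400 * (cd * (FC ((cn : ℝ) / cd) H - X4 H G - 9 / 10 * sg2 χ)) -
      (24000 * cd + 102000 * cn) / n) ≤
      ∑ t ∈ inj (Fin n) 6, ((colF cn cd (zb H t) (zb G t) (fun i => χ (t i)) : ℤ) : ℝ) := by
  have hcn' : (0 : ℝ) ≤ cn := by exact_mod_cast hcn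
  have hcd' : (0 : ℝ) < cd := by exact_mod_cast hcd
  have hn0 : (0 : ℝ) < n := by exact_mod_cast (by omega : 0 < n)
  have e1 : ∀ t : Fin 6 → Fin n,
      ((colF cn cd (zb H t) (zb G t) (fun i => χ (t i)) : ℤ) : ℝ) =
      (400 * cd - 240 * cn) * ((O5 (zb H t) 1 : ℕ) : ℝ) +
        (400 * cd + 80 * cn) * ((O5 (zb H t) 3 : ℕ) : ℝ) + 1650 * cn -
        160 * cn * ((S4 (zb H t) : ℤ) : ℝ) -
        160 * cd * ((S4 (fun T => zb H t T ^^ zb G t T) : ℤ) : ℝ) -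
        72 * cd * ((S2 (fun i => χ (t i)) : ℤ) : ℝ) := by
    intro t
    unfold colF
    push_cast
    ring
  have e2 : ∑ t ∈ inj (Fin n) 6, ((colF cn cd (zb H t) (zb G t) (fun i => χ (t i)) : ℤ) : ℝ) =
      (400 * cd - 240 * cn) * (720 * ((n : ℝ) - 5) * (T5 H 1 : ℝ)) +
        (400 * cd + 80 * cn) * (720 * ((n : ℝ) - 5) * (T5 H 3 : ℝ)) +
        1650 * cn * (n.descFactorial 6 : ℝ) -
        160 * cn * (360 * (PP n 4 2 * (H.card : ℝ))) -
        160 * cd * (360 * (PP n 4 2 * ((symmDiff H G).card : ℝ))) -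
        72 * cd * (30 * (PP n 2 4 * ((S2 χ : ℤ) : ℝ))) := by
    rw [Finset.sum_congr rfl fun t _ => e1 t]
    simp_rw [Finset.sum_sub_distrib, Finset.sum_add_distrib, ← Finset.mul_sum]
    rw [hO n H 1 h4, hO n H 3 h4, sum6_S4 H h4, sum6_J H G h4 g4, sum6_S2]
    simp only [Finset.sum_const, nsmul_eq_mul, card_inj, Fintype.card_fin]
    ring
  rw [e2, S2_eq]
  -- normalisation
  set u : ℝ := 1 / n with hu
  have hu0 : 0 ≤ u := by positivity
  have hun : u * n = 1 := by rw [hu]; field_simp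
  have hn6 : (0 : ℝ) < (n : ℝ) ^ 6 := by positivity
  have hd6 : 1 - 60 * u ≤ (n.descFactorial 6 : ℝ) / (n : ℝ) ^ 6 := by
    have h1 := D6_le hn
    have h2 := desc_le n 6
    rw [le_div_iff₀ hn6]
    have h3 : 60 / (n : ℝ) * (n.descFactorial 6 : ℝ) ≤ 60 / (n : ℝ) * (n : ℝ) ^ 6 :=
      mul_le_mul_of_nonneg_left h2 (by positivity)
    have h4 : 60 / (n : ℝ) = 60 * u := by rw [hu]; ring
    rw [h4] at h1 h3
    linarith
  have h42 : PP n 4 2 / (n : ℝ) ^ 2 ≤ 1 := by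
    rw [div_le_one (by positivity)]
    exact PP42_le (by omega)
  have h24 : PP n 2 4 / (n : ℝ) ^ 4 ≤ 1 := by
    rw [div_le_one (by positivity)]
    exact PP24_le (by omega)
  have h24' : 0 ≤ PP n 2 4 / (n : ℝ) ^ 4 := div_nonneg (PP24_nonneg (by omega)) (by positivity)
  have hX0 : 0 ≤ X4 H G := by unfold X4; positivity
  have he0 : 0 ≤ e4 H := by unfold e4; positivity
  have hs0 : 0 ≤ sg2 χ := by unfold sg2; positivity
  have key := real_colF u ((n.descFactorial 6 : ℝ) / (n : ℝ) ^ 6) (1 - 5 * u)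
    (PP n 4 2 / (n : ℝ) ^ 2) (PP n 2 4 / (n : ℝ) ^ 4) (q5 H 1) (q5 H 3) (e4 H) (X4 H G) (sg2 χ)
    cn cd hu0 hcn' hcd'.le hd6 rfl h42 h24 h24' (q5_ge_zero H 1) (q5_le_one H 1 (by omega))
    (q5_le_one H 3 (by omega)) he0 hX0 hs0
  have key2 := mul_le_mul_of_nonneg_left key hn6.le
  refine le_trans (le_of_eq ?_) (le_trans key2 (le_of_eq ?_))
  · unfold FC
    rw [hu]
    field_simp
  · have f1 : (n : ℝ) ^ 5 * q5 H 1 = 120 * (T5 H 1 : ℝ) := by
      unfold q5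
      field_simp
    have f3 : (n : ℝ) ^ 5 * q5 H 3 = 120 * (T5 H 3 : ℝ) := by
      unfold q5
      field_simp
    have fe : (n : ℝ) ^ 4 * e4 H = 24 * (H.card : ℝ) := by
      unfold e4
      field_simp
    have fX : (n : ℝ) ^ 4 * X4 H G = 24 * ((symmDiff H G).card : ℝ) := by
      unfold X4
      field_simp
    have fs : (n : ℝ) ^ 2 * sg2 χ = ((nc χ false : ℝ) - nc χ true) ^ 2 := by
      unfold sg2
      field_simp
    have g5 : (n : ℝ) * (1 - 5 * u) = n - 5 := by rw [mul_sub, mul_one]; linarith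
    have gd : (n : ℝ) ^ 6 * ((n.descFactorial 6 : ℝ) / (n : ℝ) ^ 6) =
        (n.descFactorial 6 : ℝ) := by field_simp
    have g42 : (n : ℝ) ^ 2 * (PP n 4 2 / (n : ℝ) ^ 2) = PP n 4 2 := by field_simp
    have g24 : (n : ℝ) ^ 4 * (PP n 2 4 / (n : ℝ) ^ 4) = PP n 2 4 := by field_simp
    have gu : (n : ℝ) ^ 2 * u = n := by
      calc (n : ℝ) ^ 2 * u = n * (u * n) := by ring
        _ = n := by rw [hun, mul_one]
    set P42 : ℝ := PP n 4 2 / (n : ℝ) ^ 2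
    set P24 : ℝ := PP n 2 4 / (n : ℝ) ^ 4
    set D6' : ℝ := (n.descFactorial 6 : ℝ) / (n : ℝ) ^ 6
    have r1 : (n : ℝ) ^ 6 * (2400 * cd * (q5 H 1 + q5 H 3) * (1 - 5 * u) + 1650 * cn * D6' -
        2400 * cn * (e4 H * P42) + 480 * cn * ((q5 H 3 - 3 * q5 H 1) * (1 - 5 * u)) -
        2400 * cd * (X4 H G * P42) - 2160 * cd * (P24 * (sg2 χ - u))) =
        2400 * cd * (((n : ℝ) ^ 5 * q5 H 1 + (n : ℝ) ^ 5 * q5 H 3) * ((n : ℝ) * (1 - 5 * u))) +
        1650 * cn * ((n : ℝ) ^ 6 * D6') -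
        2400 * cn * ((n : ℝ) ^ 4 * e4 H * ((n : ℝ) ^ 2 * P42)) +
        480 * cn * (((n : ℝ) ^ 5 * q5 H 3 - 3 * ((n : ℝ) ^ 5 * q5 H 1)) *
          ((n : ℝ) * (1 - 5 * u))) -
        2400 * cd * ((n : ℝ) ^ 4 * X4 H G * ((n : ℝ) ^ 2 * P42)) -
        2160 * cd * ((n : ℝ) ^ 4 * P24 * ((n : ℝ) ^ 2 * sg2 χ - (n : ℝ) ^ 2 * u)) := by ring
    rw [r1, f1, f3, fe, fX, fs, g5, gd, g42, g24, gu]
    push_cast
    ring

end cols

end Pool.Agent.Lib.MP_afdd4d_co.K9.Star
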