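import Pool.Agent.Lib.MP_afdd4d_co.K9.T1H

/-!
# Averages over six-tuples
-/

namespace Pool.Agent.Lib.MP_afdd4d_co.K9.Star

open Finset K8

section avg6
variable {n : ℕ}

/-- The average over the injective six-tuples. -/
noncomputable def EE6 (F : (Fin 6 → Fin n) → ℝ) : ℝ :=
  (∑ t ∈ inj (Fin n) 6, F t) / (n.descFactorial 6 : ℝ)

/-- The density of a 4-graph. -/
noncomputable def dn (H : Finset (Finset (Fin n))) : ℝ := (H.card : ℝ) / ((n.choose 4 : ℕ) : ℝ)

theorem desc6_eq (h : 6 ≤ n) :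
    (n.descFactorial 6 : ℝ) = 24 * ((n.choose 4 : ℕ) : ℝ) * PP n 4 2 := by
  have h1 : n.descFactorial 6 = (n - 5) * ((n - 4) * n.descFactorial 4) := by
    rw [Nat.descFactorial_succ, Nat.descFactorial_succ]
  have h2 : n.descFactorial 4 = 24 * n.choose 4 := by
    rw [Nat.descFactorial_eq_factorial_mul_choose]
    rfl
  have h3 : ((n - 5 : ℕ) : ℝ) = (n : ℝ) - 5 := by
    rw [Nat.cast_sub (by omega)]
    norm_num
  have h4 : ((n - 4 : ℕ) : ℝ) = (n : ℝ) - 4 := by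
    rw [Nat.cast_sub (by omega)]
    norm_num
  rw [h1, h2]
  push_cast
  rw [h3, h4]
  unfold PP
  rw [Finset.prod_range_succ, Finset.prod_range_succ, Finset.prod_range_zero]
  push_cast
  ring

theorem desc6_pos (h : 6 ≤ n) : 0 < (n.descFactorial 6 : ℝ) := by
  exact_mod_cast Nat.descFactorial_pos.mpr h

theorem choose4_pos (h : 6 ≤ n) : 0 < ((n.choose 4 : ℕ) : ℝ) := by
  exact_mod_cast Nat.choose_pos (by omega : 4 ≤ n)

/-- The sum over the injective six-tuples of a sum over four of the vertices. -/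
theorem sum_sub4 (F : (Fin 4 → Fin n) → ℝ) :
    ∑ t ∈ inj (Fin n) 6, ∑ p ∈ inj (Fin 6) 4, F (t ∘ p) =
      360 * (PP n 4 2 * ∑ q ∈ inj (Fin n) 4, F q) := by
  rw [Finset.sum_comm]
  have h1 : ∀ p ∈ inj (Fin 6) 4, ∑ t ∈ inj (Fin n) 6, F (t ∘ p) =
      PP n 4 2 * ∑ q ∈ inj (Fin n) 4, F q := by
    intro p hp
    have h2 := sum_inj_comp (V := Fin n) 2 F p (mem_inj.mp hp)
    have h3 := sum_inj_castAdd (V := Fin n) F 2
    rw [Fintype.card_fin] at h3
    exact h2.trans h3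
  have h6 : (Nat.descFactorial 6 4 : ℝ) = 360 := by norm_num [Nat.descFactorial]
  rw [Finset.sum_congr rfl h1, Finset.sum_const, nsmul_eq_mul, card_inj, Fintype.card_fin, h6]

/-- The sum of a function of the quadruples of the window. -/
theorem sum6_quads (e : Finset (Fin n) → Bool) :
    ∑ t ∈ inj (Fin n) 6, ((S4 (fun T => e (T.image t)) : ℤ) : ℝ) =
      360 * (PP n 4 2 * ((S4 e : ℤ) : ℝ)) := by
  have h1 : 24 * ∑ t ∈ inj (Fin n) 6, ((S4 (fun T => e (T.image t)) : ℤ) : ℝ) =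
      360 * (PP n 4 2 * (24 * ((S4 e : ℤ) : ℝ))) := by
    rw [← sum4_inj, ← sum_sub4, Finset.mul_sum]
    refine Finset.sum_congr rfl fun t _ => ?_
    rw [← sum4_inj]
    refine Finset.sum_congr rfl fun p _ => ?_
    show (((e ((univ.image p).image t)).toNat : ℤ) : ℝ) = _
    rw [Finset.image_image]
  linarith

theorem sum6_S4 (H : Finset (Finset (Fin n))) (h4 : ∀ e ∈ H, e.card = 4) :
    ∑ t ∈ inj (Fin n) 6, ((S4 (zb H t) : ℤ) : ℝ) = 360 * (PP n 4 2 * (H.card : ℝ)) := by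
  have h1 := sum6_quads (mE H)
  rw [S4_mE H h4] at h1
  rw [Finset.sum_congr rfl fun t _ => by rw [zb_eq H t], h1]
  push_cast
  rfl

theorem sum6_J (H G : Finset (Finset (Fin n))) (h4 : ∀ e ∈ H, e.card = 4)
    (g4 : ∀ e ∈ G, e.card = 4) :
    ∑ t ∈ inj (Fin n) 6, ((S4 (fun T => zb H t T ^^ zb G t T) : ℤ) : ℝ) =
      360 * (PP n 4 2 * ((symmDiff H G).card : ℝ)) := by
  have h1 := sum6_quads (fun Q => mE H Q ^^ mE G Q)
  have h3 : S4 (fun Q => mE H Q ^^ mE G Q) = ((symmDiff H G).card : ℤ) :=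
    (card_symmDiff H G h4 g4).symm
  rw [h3] at h1
  rw [Finset.sum_congr rfl fun t _ => by rw [zb_eq H t, zb_eq G t], h1]
  push_cast
  rfl

/-- The average of a function of the quadruples of the window. -/
theorem EE6_quads (h : 6 ≤ n) (e : Finset (Fin n) → Bool) :
    EE6 (fun t : Fin 6 → Fin n => ((S4 (fun T => e (T.image t)) : ℤ) : ℝ)) =
      15 * (((S4 e : ℤ) : ℝ) / ((n.choose 4 : ℕ) : ℝ)) := by
  have h2 := sum6_quads e
  have h3 := choose4_pos h
  have h4 := desc6_pos h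
  have h5 := desc6_eq h
  have h6 : PP n 4 2 ≠ 0 := by
    intro h7
    rw [h7, mul_zero] at h5
    exact h4.ne' h5
  unfold EE6
  rw [h2, h5]
  field_simp
  ring

theorem EE6_S4 (h : 6 ≤ n) (H : Finset (Finset (Fin n))) (h4 : ∀ e ∈ H, e.card = 4) :
    EE6 (fun t : Fin 6 → Fin n => ((S4 (zb H t) : ℤ) : ℝ)) = 15 * dn H := by
  have h1 := EE6_quads h (mE H)
  rw [S4_mE H h4] at h1
  have h2 : (fun t : Fin 6 → Fin n => ((S4 (zb H t) : ℤ) : ℝ)) =
      fun t => ((S4 (fun T => mE H (T.image t)) : ℤ) : ℝ) := by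
    funext t
    rw [zb_eq]
  rw [h2, h1]
  unfold dn
  push_cast
  rfl

/-- The average of the number of quadruples of the window in which two 4-graphs differ. -/
theorem EE6_J (h : 6 ≤ n) (H G : Finset (Finset (Fin n))) (h4 : ∀ e ∈ H, e.card = 4)
    (g4 : ∀ e ∈ G, e.card = 4) :
    EE6 (fun t : Fin 6 → Fin n => ((S4 (fun T => zb H t T ^^ zb G t T) : ℤ) : ℝ)) =
      15 * dn (symmDiff H G) := by
  have h1 := EE6_quads h (fun Q => mE H Q ^^ mE G Q)
  have h3 : S4 (fun Q => mE H Q ^^ mE G Q) = ((symmDiff H G).card : ℤ) :=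
    (card_symmDiff H G h4 g4).symm
  rw [h3] at h1
  have h2 : (fun t : Fin 6 → Fin n => ((S4 (fun T => zb H t T ^^ zb G t T) : ℤ) : ℝ)) =
      fun t => ((S4 (fun T => mE H (T.image t) ^^ mE G (T.image t)) : ℤ) : ℝ) := by
    funext t
    rw [zb_eq, zb_eq]
  rw [h2, h1]
  unfold dn
  push_cast
  rfl

/-- The sum of the product of two signs. -/
theorem sum6_S2 (χ : Fin n → Bool) :
    ∑ t ∈ inj (Fin n) 6, ((S2 (fun i => χ (t i)) : ℤ) : ℝ) =
      30 * (PP n 2 4 * ((S2 χ : ℤ) : ℝ)) := by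
  set F : (Fin 2 → Fin n) → ℝ := fun q => ((sg (χ (q 0)) * sg (χ (q 1)) : ℤ) : ℝ) with hF
  have h1 : ∑ t ∈ inj (Fin n) 6, ((S2 (fun i => χ (t i)) : ℤ) : ℝ) =
      ∑ t ∈ inj (Fin n) 6, ∑ p ∈ inj (Fin 6) 2, F (t ∘ p) := by
    refine Finset.sum_congr rfl fun t _ => ?_
    rw [← sum2_inj]
    rfl
  have h2 : ∀ p ∈ inj (Fin 6) 2, ∑ t ∈ inj (Fin n) 6, F (t ∘ p) =
      PP n 2 4 * ((S2 χ : ℤ) : ℝ) := by
    intro p hp
    rw [← sum2_inj]
    have h2 := sum_inj_comp (V := Fin n) 4 F p (mem_inj.mp hp)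
    have h3 := sum_inj_castAdd (V := Fin n) F 4
    rw [Fintype.card_fin] at h3
    exact h2.trans h3
  have h6 : (Nat.descFactorial 6 2 : ℝ) = 30 := by norm_num [Nat.descFactorial]
  rw [h1, Finset.sum_comm, Finset.sum_congr rfl h2, Finset.sum_const, nsmul_eq_mul, card_inj,
    Fintype.card_fin, h6]

theorem EE6_const (h : 6 ≤ n) (c : ℝ) : EE6 (fun _ : Fin 6 → Fin n => c) = c := by
  unfold EE6
  rw [Finset.sum_const, nsmul_eq_mul, card_inj, Fintype.card_fin]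
  have := desc6_pos h
  field_simp

theorem EE6_add (F G : (Fin 6 → Fin n) → ℝ) : EE6 (fun t => F t + G t) = EE6 F + EE6 G := by
  unfold EE6
  rw [Finset.sum_add_distrib, add_div]

theorem EE6_sub (F G : (Fin 6 → Fin n) → ℝ) : EE6 (fun t => F t - G t) = EE6 F - EE6 G := by
  unfold EE6
  rw [Finset.sum_sub_distrib, sub_div]

theorem EE6_mul (c : ℝ) (F : (Fin 6 → Fin n) → ℝ) : EE6 (fun t => c * F t) = c * EE6 F := by
  unfold EE6
  rw [← Finset.mul_sum, mul_div_assoc]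

theorem EE6_mono (F G : (Fin 6 → Fin n) → ℝ) (h : ∀ t, Function.Injective t → F t ≤ G t) :
    EE6 F ≤ EE6 G := by
  unfold EE6
  exact div_le_div_of_nonneg_right (Finset.sum_le_sum fun t ht => h t (mem_inj.mp ht))
    (Nat.cast_nonneg _)

/-- The number of tuples that are not injective, as a fraction. -/
theorem D6_le (h : 30 ≤ n) : (n : ℝ) ^ 6 - (n.descFactorial 6 : ℝ) ≤
    60 / n * (n.descFactorial 6 : ℝ) := by
  obtain ⟨m, rfl⟩ := Nat.exists_eq_add_of_le h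
  have e1 : ((30 + m).descFactorial 6 : ℝ) =
      (30 + m) * (29 + m) * (28 + m) * (27 + m) * (26 + m) * (25 + m) := by
    have e1 : (30 + m).descFactorial 6 =
        (30 + m - 5) * ((30 + m - 4) * ((30 + m - 3) * ((30 + m - 2) *
          ((30 + m - 1) * (30 + m - 0))))) := by
      rw [Nat.descFactorial_succ, Nat.descFactorial_succ, Nat.descFactorial_succ,
        Nat.descFactorial_succ, Nat.descFactorial_succ, Nat.descFactorial_succ,
        Nat.descFactorial_zero, mul_one]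
    rw [e1]
    have c : ∀ k : ℕ, k ≤ 5 → ((30 + m - k : ℕ) : ℝ) = ((30 - k : ℕ) : ℝ) + m := fun k hk => by
      rw [show 30 + m - k = (30 - k) + m by omega]
      push_cast
      ring
    simp only [Nat.cast_mul]
    rw [c 5 (by norm_num), c 4 (by norm_num), c 3 (by norm_num), c 2 (by norm_num),
      c 1 (by norm_num), c 0 (by norm_num)]
    norm_num
    ring
  have hpos : (0 : ℝ) < ((30 + m : ℕ) : ℝ) := by positivity
  rw [e1, div_mul_eq_mul_div, le_div_iff₀ hpos]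
  push_cast
  have hm : (0 : ℝ) ≤ m := Nat.cast_nonneg _
  have key : 60 * ((30 + (m : ℝ)) * (29 + m) * (28 + m) * (27 + m) * (26 + m) * (25 + m)) -
      ((30 + (m : ℝ)) ^ 6 - (30 + m) * (29 + m) * (28 + m) * (27 + m) * (26 + m) * (25 + m)) *
        (30 + m) = 45 * (m : ℝ) ^ 6 + 7285 * (m : ℝ) ^ 5 + 490125 * (m : ℝ) ^ 4 +
          17536774 * (m : ℝ) ^ 3 + 351850980 * (m : ℝ) ^ 2 + 3752011800 * m + 16606620000 := by
    ring
  have hp : (0 : ℝ) ≤ 45 * (m : ℝ) ^ 6 + 7285 * (m : ℝ) ^ 5 + 490125 * (m : ℝ) ^ 4 +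
          17536774 * (m : ℝ) ^ 3 + 351850980 * (m : ℝ) ^ 2 + 3752011800 * m + 16606620000 := by
    positivity
  linarith

end avg6

end Pool.Agent.Lib.MP_afdd4d_co.K9.Star
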