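import Pool.Agent.Lib.MP_afdd4d_co.K9.T4M

/-!
# Kernels as terms of the local theorem
-/

namespace Pool.Agent.Lib.MP_afdd4d_co.K9.Star

open Finset K8

section ker
variable {P : ∀ n : ℕ, Finset (Finset (Fin n)) → Prop} {X1 : ℝ}

/-- Functions with nonnegative sum over all tuples. -/
theorem good_tot {k : ℕ}
    (Z : ∀ {n : ℕ}, Finset (Finset (Fin n)) → (Fin n → Bool) → (Fin n → Fin n → Bool) →
      (Finset (Fin n) → Bool) → (Finset (Fin n) → Bool) → (Fin k → Fin n) → ℤ) (C : ℝ)
    (h1 : ∀ {n : ℕ} (H : Finset (Finset (Fin n))) (χ : Fin n → Bool) M f g,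
      Ctx P X1 H χ M f g → 0 ≤ ∑ p, ((Z H χ M f g p : ℤ) : ℝ))
    (h2 : ∀ {n : ℕ} (H : Finset (Finset (Fin n))) (χ : Fin n → Bool) M f g,
      Ctx P X1 H χ M f g → ∀ p : Fin k → Fin n, ((Z H χ M f g p : ℤ) : ℝ) ≤ C)
    (j : Fin k → Fin 6) (hj : Function.Injective j) :
    Good P X1 (fun H χ M f g t => Z H χ M f g (t ∘ j)) := by
  refine Good.of_bound (Z := fun H χ M f g t => Z H χ M f g (t ∘ j)) C fun H χ M f g hc => ?_
  have h := inj_comp_ge' (V := Fin _) (fun p => ((Z H χ M f g p : ℤ) : ℝ)) C (h1 H χ M f g hc)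
    (h2 H χ M f g hc) j hj
  rw [Fintype.card_fin] at h
  exact h

theorem CK_tot {k m : ℕ} (κ : CK k m) {n : ℕ} (H E : Finset (Finset (Fin n)))
    (χ : Fin n → Bool) : 0 ≤ ∑ p, ((κ.val H E χ p : ℤ) : ℝ) := by
  rw [← (Fin.appendEquiv k (m + m)).sum_comp, Fintype.sum_prod_type]
  refine Finset.sum_nonneg fun s _ => ?_
  rw [← (Fin.appendEquiv m m).sum_comp, Fintype.sum_prod_type]
  refine le_trans (κ.psd H E χ s) (le_of_eq ?_)
  refine Finset.sum_congr rfl fun x _ => Finset.sum_congr rfl fun y _ => ?_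
  unfold CK.val
  congr 2
  · funext i
    simp only [Function.comp_apply, Fin.appendEquiv_apply, Fin.append_left]
  · funext i
    simp only [Function.comp_apply, Fin.appendEquiv_apply, Fin.append_right, Fin.append_left]
  · funext i
    simp only [Function.comp_apply, Fin.appendEquiv_apply, Fin.append_right]

/-- A coloured kernel at some of the six vertices. -/
theorem good_CK {k m : ℕ} (κ : CK k m) (j : Fin (k + (m + m)) → Fin 6)
    (hj : Function.Injective j) :
    Good P X1 (fun H χ M f g t => κ.val H (gir χ M f g) χ (t ∘ j)) :=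
  good_tot (fun H χ M f g p => κ.val H (gir χ M f g) χ p) κ.C
    (fun H χ M f g _ => CK_tot κ H (gir χ M f g) χ)
    (fun H χ M f g _ _ => κ.bd H (gir χ M f g) χ _ _ _) j hj

/-- A coloured kernel with flags of one vertex at all pairs of the six vertices. -/
theorem good_PS (κ : CK 4 1) :
    Good P X1 (fun H χ M f g t => PS (k := 4) (fun s u w =>
      κ.f H (gir χ M f g) χ s (fun _ => u) (fun _ => w)) t) := by
  refine Good.of_bound (Z := fun H χ M f g t => PS (k := 4) (fun s u w =>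
    κ.f H (gir χ M f g) χ s (fun _ => u) (fun _ => w)) t) (30 * κ.C) fun {n} H χ M f g _ => ?_
  have h := PS_inj_ge (V := Fin n) (k := 4) 0 (fun s u w =>
    ((κ.f H (gir χ M f g) χ s (fun _ => u) (fun _ => w) : ℤ) : ℝ)) κ.C (by
      intro s
      have h1 := κ.psd H (gir χ M f g) χ s
      rw [← (Equiv.funUnique (Fin 1) (Fin n)).symm.sum_comp] at h1
      refine le_trans h1 (le_of_eq (Finset.sum_congr rfl fun x _ => ?_))
      rw [← (Equiv.funUnique (Fin 1) (Fin n)).symm.sum_comp]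
      rfl) (fun s u w => κ.bd H (gir χ M f g) χ s _ _) id Function.injective_id
  rw [Fintype.card_fin] at h
  have e3 : ∀ t : Fin 6 → Fin n, ((PS (k := 4) (fun s u w =>
      κ.f H (gir χ M f g) χ s (fun _ => u) (fun _ => w)) t : ℤ) : ℝ) =
      PS (k := 4) (fun s u w =>
        ((κ.f H (gir χ M f g) χ s (fun _ => u) (fun _ => w) : ℤ) : ℝ)) t := fun t => cast_PS _ t
  rw [Finset.sum_congr rfl fun t _ => e3 t]
  refine le_trans (le_of_eq ?_) h
  norm_num

end ker

end Pool.Agent.Lib.MP_afdd4d_co.K9.Star
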