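import Pool.Agent.Lib.MP_afdd4d_co.K9.T4F

/-!
# The local theorem from inequalities on six-tuples: the limit argument
-/

namespace Pool.Agent.Lib.MP_afdd4d_co.K9.Star

open Finset K8

/-- Functions of six vertices, a 4-graph and a reference structure. -/
abbrev Fun6 : Type := ∀ {n : ℕ}, Finset (Finset (Fin n)) → (Fin n → Bool) →
  (Fin n → Fin n → Bool) → (Finset (Fin n) → Bool) → (Finset (Fin n) → Bool) →
  (Fin 6 → Fin n) → ℤ

/-- The context of the local theorem. -/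
structure Ctx (P : ∀ n : ℕ, Finset (Finset (Fin n)) → Prop) (X1 : ℝ) {n : ℕ}
    (H : Finset (Finset (Fin n))) (χ : Fin n → Bool) (M : Fin n → Fin n → Bool)
    (f g : Finset (Fin n) → Bool) : Prop where
  h4 : ∀ e ∈ H, e.card = 4
  k5 : K5F H
  p : P n H
  d : 11 / 16 ≤ e4 H
  X : X4 H (gir χ M f g) ≤ X1

/-- The average of the function is almost nonnegative for large `n`. -/
def Good (P : ∀ n : ℕ, Finset (Finset (Fin n)) → Prop) (X1 : ℝ) (Z : Fun6) : Prop :=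
  ∀ δ : ℝ, 0 < δ → ∃ N : ℕ, ∀ n : ℕ, N ≤ n → ∀ (H : Finset (Finset (Fin n))) (χ : Fin n → Bool)
    (M : Fin n → Fin n → Bool) (f g : Finset (Fin n) → Bool), Ctx P X1 H χ M f g →
    -(δ * (n : ℝ) ^ 6) ≤ ∑ t ∈ inj (Fin n) 6, ((Z H χ M f g t : ℤ) : ℝ)

section good
variable {P : ∀ n : ℕ, Finset (Finset (Fin n)) → Prop} {X1 : ℝ}

theorem Good.add {Z Z' : Fun6} (h : Good P X1 Z) (h' : Good P X1 Z') :
    Good P X1 (fun H χ M f g t => Z H χ M f g t + Z' H χ M f g t) := by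
  intro δ hδ
  obtain ⟨N, hN⟩ := h (δ / 2) (by positivity)
  obtain ⟨N', hN'⟩ := h' (δ / 2) (by positivity)
  refine ⟨max N N', fun n hn H χ M f g hc => ?_⟩
  have h1 := hN n (le_trans (le_max_left _ _) hn) H χ M f g hc
  have h2 := hN' n (le_trans (le_max_right _ _) hn) H χ M f g hc
  have h3 : ∑ t ∈ inj (Fin n) 6, ((Z H χ M f g t + Z' H χ M f g t : ℤ) : ℝ) =
      ∑ t ∈ inj (Fin n) 6, ((Z H χ M f g t : ℤ) : ℝ) +
        ∑ t ∈ inj (Fin n) 6, ((Z' H χ M f g t : ℤ) : ℝ) := by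
    rw [← Finset.sum_add_distrib]
    refine Finset.sum_congr rfl fun t _ => ?_
    push_cast
    rfl
  rw [h3]
  linarith

theorem Good.smul {Z : Fun6} (w : ℕ) (h : Good P X1 Z) :
    Good P X1 (fun H χ M f g t => (w : ℤ) * Z H χ M f g t) := by
  intro δ hδ
  have hw : (0 : ℝ) < w + 1 := by positivity
  obtain ⟨N, hN⟩ := h (δ / (w + 1)) (by positivity)
  refine ⟨N, fun n hn H χ M f g hc => ?_⟩
  have h1 := hN n hn H χ M f g hc
  have h3 : ∑ t ∈ inj (Fin n) 6, (((w : ℤ) * Z H χ M f g t : ℤ) : ℝ) =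
      (w : ℝ) * ∑ t ∈ inj (Fin n) 6, ((Z H χ M f g t : ℤ) : ℝ) := by
    rw [Finset.mul_sum]
    refine Finset.sum_congr rfl fun t _ => ?_
    push_cast
    rfl
  rw [h3]
  have h4 := mul_le_mul_of_nonneg_left h1 (Nat.cast_nonneg (α := ℝ) w)
  have h5 : (w : ℝ) * (δ / (w + 1) * (n : ℝ) ^ 6) ≤ δ * (n : ℝ) ^ 6 := by
    have h6 : (w : ℝ) * (δ / (w + 1)) ≤ δ := by
      rw [← mul_div_assoc, div_le_iff₀ hw]
      nlinarith
    calc (w : ℝ) * (δ / (w + 1) * (n : ℝ) ^ 6) = (w : ℝ) * (δ / (w + 1)) * (n : ℝ) ^ 6 := by ring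
      _ ≤ δ * (n : ℝ) ^ 6 := mul_le_mul_of_nonneg_right h6 (by positivity)
  linarith

theorem Good.sum {ι : Type*} (s : Finset ι) (Z : ι → Fun6)
    (h : ∀ i ∈ s, Good P X1 (fun H χ M f g t => Z i H χ M f g t)) :
    Good P X1 (fun H χ M f g t => ∑ i ∈ s, Z i H χ M f g t) := by
  classical
  induction s using Finset.induction_on with
  | empty =>
    intro δ hδ
    refine ⟨0, fun n _ H χ M f g _ => ?_⟩
    simp only [Finset.sum_empty, Int.cast_zero, Finset.sum_const_zero]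
    have : 0 ≤ δ * (n : ℝ) ^ 6 := by positivity
    linarith
  | insert a s ha ih =>
    have h1 := h a (Finset.mem_insert_self a s)
    have h2 := ih fun i hi => h i (Finset.mem_insert_of_mem hi)
    have h3 := h1.add h2
    intro δ hδ
    obtain ⟨N, hN⟩ := h3 δ hδ
    refine ⟨N, fun n hn H χ M f g hc => ?_⟩
    have h4 := hN n hn H χ M f g hc
    refine le_trans h4 (le_of_eq ?_)
    refine Finset.sum_congr rfl fun t _ => ?_
    show ((Z a H χ M f g t + ∑ i ∈ s, Z i H χ M f g t : ℤ) : ℝ) =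
      ((∑ i ∈ insert a s, Z i H χ M f g t : ℤ) : ℝ)
    rw [Finset.sum_insert ha]

theorem Good.mono {Z Z' : Fun6} (h : Good P X1 Z)
    (hle : ∀ {n : ℕ} (H : Finset (Finset (Fin n))) (χ : Fin n → Bool) M f g,
      Ctx P X1 H χ M f g → ∀ t : Fin 6 → Fin n, Function.Injective t →
      Z H χ M f g t ≤ Z' H χ M f g t) : Good P X1 (fun H χ M f g t => Z' H χ M f g t) := by
  intro δ hδ
  obtain ⟨N, hN⟩ := h δ hδ
  refine ⟨N, fun n hn H χ M f g hc => ?_⟩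
  refine le_trans (hN n hn H χ M f g hc) (Finset.sum_le_sum fun t ht => ?_)
  exact_mod_cast hle H χ M f g hc t (mem_inj.mp ht)

/-- Functions with a bound in terms of the number of tuples that are not injective. -/
theorem Good.of_bound {Z : Fun6} (C : ℝ)
    (h : ∀ {n : ℕ} (H : Finset (Finset (Fin n))) (χ : Fin n → Bool) M f g,
      Ctx P X1 H χ M f g → -(C * ((n : ℝ) ^ 6 - (n.descFactorial 6 : ℝ))) ≤
        ∑ t ∈ inj (Fin n) 6, ((Z H χ M f g t : ℤ) : ℝ)) :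
    Good P X1 (fun H χ M f g t => Z H χ M f g t) := by
  intro δ hδ
  obtain ⟨N, hN⟩ := exists_nat_gt (60 * |C| / δ)
  refine ⟨max 30 N, fun n hn H χ M f g hc => ?_⟩
  have h30 : 30 ≤ n := le_trans (le_max_left _ _) hn
  have hNn : (N : ℝ) ≤ n := by exact_mod_cast le_trans (le_max_right _ _) hn
  have hn0 : (0 : ℝ) < n := by exact_mod_cast (by omega : 0 < n)
  refine le_trans ?_ (h H χ M f g hc)
  have h1 := D6_le h30
  have h2 := desc_le n 6
  have h3 : 60 / (n : ℝ) * (n.descFactorial 6 : ℝ) ≤ 60 / (n : ℝ) * (n : ℝ) ^ 6 :=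
    mul_le_mul_of_nonneg_left h2 (by positivity)
  have h4 : 0 ≤ (n : ℝ) ^ 6 - (n.descFactorial 6 : ℝ) := by linarith
  have h5 : C * ((n : ℝ) ^ 6 - (n.descFactorial 6 : ℝ)) ≤ |C| * (60 / (n : ℝ) * (n : ℝ) ^ 6) := by
    calc C * ((n : ℝ) ^ 6 - (n.descFactorial 6 : ℝ)) ≤
        |C| * ((n : ℝ) ^ 6 - (n.descFactorial 6 : ℝ)) :=
          mul_le_mul_of_nonneg_right (le_abs_self C) h4
      _ ≤ |C| * (60 / (n : ℝ) * (n : ℝ) ^ 6) :=
          mul_le_mul_of_nonneg_left (by linarith) (abs_nonneg _)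
  have h6 : |C| * (60 / (n : ℝ)) ≤ δ := by
    have h7 : 60 * |C| / δ < n := lt_of_lt_of_le hN hNn
    rw [div_lt_iff₀ hδ] at h7
    rw [← mul_div_assoc, div_le_iff₀ hn0]
    linarith
  have h7 := mul_le_mul_of_nonneg_right h6 (by positivity : (0 : ℝ) ≤ (n : ℝ) ^ 6)
  have h8 : |C| * (60 / (n : ℝ)) * (n : ℝ) ^ 6 = |C| * (60 / (n : ℝ) * (n : ℝ) ^ 6) := by ring
  rw [h8] at h7
  linarith

/-- The density defect of the reference structure. -/
theorem good_colR (hE : EvUp) : Good P X1 (fun _ χ M f g t => colR (zb (gir χ M f g) t)) := by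
  intro δ hδ
  obtain ⟨N, hN⟩ := hE (δ / 240) (by positivity)
  refine ⟨max 6 N, fun n hn H χ M f g _ => ?_⟩
  have h6 : 6 ≤ n := le_trans (le_max_left _ _) hn
  have h1 := hN n (le_trans (le_max_right _ _) hn) (gir χ M f g) (gir_card χ M f g)
    (evenH_gir χ M f g)
  have e1 : ∑ t ∈ inj (Fin n) 6, ((colR (zb (gir χ M f g) t) : ℤ) : ℝ) =
      165 * (n.descFactorial 6 : ℝ) - 16 * (360 * (PP n 4 2 * ((gir χ M f g).card : ℝ))) := by
    have e2 : ∀ t : Fin 6 → Fin n, ((colR (zb (gir χ M f g) t) : ℤ) : ℝ) =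
        165 - 16 * ((S4 (zb (gir χ M f g) t) : ℤ) : ℝ) := by
      intro t
      unfold colR
      push_cast
      ring
    rw [Finset.sum_congr rfl fun t _ => e2 t]
    simp_rw [Finset.sum_sub_distrib, ← Finset.mul_sum]
    rw [sum6_S4 _ (gir_card χ M f g)]
    simp only [Finset.sum_const, nsmul_eq_mul, card_inj, Fintype.card_fin]
    ring
  rw [e1]
  have h2 := desc6_eq h6
  have h3 : 0 ≤ PP n 4 2 := by
    have h4 := desc6_pos h6
    have h5 := choose4_pos h6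
    by_contra hlt
    push Not at hlt
    have : 24 * ((n.choose 4 : ℕ) : ℝ) * PP n 4 2 < 0 := by
      apply mul_neg_of_pos_of_neg (by positivity) hlt
    linarith
  have h4 : PP n 4 2 * ((gir χ M f g).card : ℝ) ≤
      PP n 4 2 * ((11 / 16 + δ / 240) * ((n.choose 4 : ℕ) : ℝ)) :=
    mul_le_mul_of_nonneg_left h1 h3
  have h5 : 5760 * (PP n 4 2 * ((11 / 16 + δ / 240) * ((n.choose 4 : ℕ) : ℝ))) =
      (165 + δ) * (n.descFactorial 6 : ℝ) := by
    rw [h2]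
    ring
  have h7 := desc_le n 6
  have h8 : δ * (n.descFactorial 6 : ℝ) ≤ δ * (n : ℝ) ^ 6 := mul_le_mul_of_nonneg_left h7 hδ.le
  linarith

end good

/-- The rows of the local theorem. -/
def T4Row (P : ∀ n : ℕ, Finset (Finset (Fin n)) → Prop) (N x y : ℕ) (cn cd : ℤ) (Z : Fun6) :
    Prop :=
  ∀ (n : ℕ) (H : Finset (Finset (Fin n))) (χ : Fin n → Bool) (M : Fin n → Fin n → Bool)
    (f g : Finset (Fin n) → Bool), (∀ e ∈ H, e.card = 4) → K5F H → P n H →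
    ∀ t : Fin 6 → Fin n, Function.Injective t →
      Z H χ M f g t + x * colF cn cd (zb H t) (zb (gir χ M f g) t) (fun i => χ (t i)) +
        y * colR (zb (gir χ M f g) t) ≤ N * (165 - 16 * S4 (zb H t))

/-- The local theorem from the rows. -/
theorem t4_of_rows {P : ∀ n : ℕ, Finset (Finset (Fin n)) → Prop} (hO : SumO5) (hE : EvUp)
    (cn cd : ℤ) (hcn : 0 ≤ cn) (hcd : 0 < cd) (X0 X1 : ℝ) (h01 : X0 < X1) (N x y : ℕ)
    (hN : 0 < N) (Z : Fun6) (hZ : Good P X1 Z) (hrow : T4Row P N x y cn cd Z) :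
    T4 P ((cn : ℝ) / cd) X0 := by
  intro ε hε
  have hcn' : (0 : ℝ) ≤ cn := by exact_mod_cast hcn
  have hcd' : (0 : ℝ) < cd := by exact_mod_cast hcd
  have hN' : (0 : ℝ) < N := by exact_mod_cast hN
  set δ : ℝ := 48 * N * ε with hδ
  have hδ0 : 0 < δ := by positivity
  obtain ⟨N1, hN1⟩ := hZ δ hδ0
  obtain ⟨N2, hN2⟩ := (good_colR (P := P) (X1 := X1) hE).smul y δ hδ0
  set K1 : ℝ := 24000 * cd + 102000 * cn with hK1
  have hK10 : 0 ≤ K1 := by positivity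
  obtain ⟨N3, hN3⟩ := exists_nat_gt ((2160 * N + x * K1) / δ)
  set η : ℝ := min (X1 - X0) (δ / (2400 * cd * (x + 1))) with hη
  have hη0 : 0 < η := by
    rw [hη]
    refine lt_min (by linarith) (by positivity)
  refine ⟨η, hη0, max 30 (max N1 (max N2 N3)), fun n hn H h4 hk5 hP hd χ M f g hX hX2 => ?_⟩
  have h30 : 30 ≤ n := le_trans (le_max_left _ _) hn
  have hn' : max N1 (max N2 N3) ≤ n := le_trans (le_max_right _ _) hn
  have hn1 : N1 ≤ n := le_trans (le_max_left _ _) hn'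
  have hn2 : N2 ≤ n := le_trans (le_trans (le_max_left _ _) (le_max_right _ _)) hn'
  have hn3 : N3 ≤ n := le_trans (le_trans (le_max_right _ _) (le_max_right _ _)) hn'
  have hn3' : (N3 : ℝ) ≤ n := by exact_mod_cast hn3
  have hn0 : (0 : ℝ) < n := by exact_mod_cast (by omega : 0 < n)
  have hc : Ctx P X1 H χ M f g := ⟨h4, hk5, hP, hd, by
    have := min_le_left (X1 - X0) (δ / (2400 * cd * (x + 1)))
    rw [← hη] at this
    linarith⟩
  have s1 := hN1 n hn1 H χ M f g hc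
  have s2 := hN2 n hn2 H χ M f g hc
  have s3 := sum_colF hO cn cd hcn hcd h30 H (gir χ M f g) h4 (gir_card χ M f g) χ
  -- the sum of the rows
  have s4 : ∑ t ∈ inj (Fin n) 6, ((Z H χ M f g t + x * colF cn cd (zb H t) (zb (gir χ M f g) t)
      (fun i => χ (t i)) + y * colR (zb (gir χ M f g) t) : ℤ) : ℝ) ≤
      ∑ t ∈ inj (Fin n) 6, ((N * (165 - 16 * S4 (zb H t)) : ℤ) : ℝ) := by
    refine Finset.sum_le_sum fun t ht => ?_
    exact_mod_cast hrow n H χ M f g h4 hk5 hP t (mem_inj.mp ht)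
  have e1 : ∑ t ∈ inj (Fin n) 6, ((Z H χ M f g t + x * colF cn cd (zb H t) (zb (gir χ M f g) t)
      (fun i => χ (t i)) + y * colR (zb (gir χ M f g) t) : ℤ) : ℝ) =
      ∑ t ∈ inj (Fin n) 6, ((Z H χ M f g t : ℤ) : ℝ) +
      (x : ℝ) * ∑ t ∈ inj (Fin n) 6, ((colF cn cd (zb H t) (zb (gir χ M f g) t)
        (fun i => χ (t i)) : ℤ) : ℝ) +
      ∑ t ∈ inj (Fin n) 6, (((y : ℤ) * colR (zb (gir χ M f g) t) : ℤ) : ℝ) := by
    rw [Finset.mul_sum, ← Finset.sum_add_distrib, ← Finset.sum_add_distrib]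
    refine Finset.sum_congr rfl fun t _ => ?_
    push_cast
    ring
  have e2 : ∑ t ∈ inj (Fin n) 6, ((N * (165 - 16 * S4 (zb H t)) : ℤ) : ℝ) =
      N * (165 * (n.descFactorial 6 : ℝ) - 5760 * (PP n 4 2 * (H.card : ℝ))) := by
    have e3 : ∀ t : Fin 6 → Fin n, ((N * (165 - 16 * S4 (zb H t)) : ℤ) : ℝ) =
        N * 165 - 16 * N * ((S4 (zb H t) : ℤ) : ℝ) := by
      intro t
      push_cast
      ring
    rw [Finset.sum_congr rfl fun t _ => e3 t]
    simp_rw [Finset.sum_sub_distrib, ← Finset.mul_sum]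
    rw [sum6_S4 H h4]
    simp only [Finset.sum_const, nsmul_eq_mul, card_inj, Fintype.card_fin]
    ring
  rw [e1, e2] at s4
  -- the estimates
  have hn6 : (0 : ℝ) < (n : ℝ) ^ 6 := by positivity
  have b1 : (x : ℝ) * ((n : ℝ) ^ 6 * -(δ / (x + 1) + K1 / n)) ≤
      (x : ℝ) * ∑ t ∈ inj (Fin n) 6, ((colF cn cd (zb H t) (zb (gir χ M f g) t)
        (fun i => χ (t i)) : ℤ) : ℝ) := by
    refine mul_le_mul_of_nonneg_left (le_trans ?_ s3) (Nat.cast_nonneg _)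
    refine mul_le_mul_of_nonneg_left ?_ hn6.le
    have h1 : -η ≤ FC ((cn : ℝ) / cd) H - X4 H (gir χ M f g) - 9 / 10 * sg2 χ := by linarith
    have h2 := mul_le_mul_of_nonneg_left h1 hcd'.le
    have h3 : η ≤ δ / (2400 * cd * (x + 1)) := min_le_right _ _
    have h4 : 2400 * ((cd : ℝ) * η) ≤ δ / (x + 1) := by
      calc 2400 * ((cd : ℝ) * η) ≤ 2400 * (cd * (δ / (2400 * cd * (x + 1)))) := by gcongr
        _ = δ / (x + 1) := by field_simp
    rw [← hK1]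
    linarith
  have b2 : (x : ℝ) * (δ / (x + 1)) ≤ δ := by
    rw [← mul_div_assoc, div_le_iff₀ (by positivity)]
    nlinarith
  have b3 : (2160 * N + x * K1) / n ≤ δ := by
    have h7 : (2160 * N + x * K1) / δ < n := lt_of_lt_of_le hN3 hn3'
    rw [div_lt_iff₀ hδ0] at h7
    rw [div_le_iff₀ hn0]
    linarith
  have he1 := e4_le_one H h4 (by omega)
  have he0 : 0 ≤ e4 H := by unfold e4; positivity
  have fe : 24 * (H.card : ℝ) = (n : ℝ) ^ 4 * e4 H := by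
    unfold e4
    field_simp
  have b4 : (n : ℝ) ^ 6 * (e4 H * (1 - 9 / n)) ≤ 24 * (PP n 4 2 * (H.card : ℝ)) := by
    have h1 := PP42_ge n
    have h2 := mul_le_mul_of_nonneg_right h1 (by positivity : 0 ≤ (n : ℝ) ^ 4 * e4 H)
    have h3 : ((n : ℝ) ^ 2 - 9 * n) * ((n : ℝ) ^ 4 * e4 H) =
        (n : ℝ) ^ 6 * (e4 H * (1 - 9 / n)) := by
      field_simp
    rw [h3, ← fe] at h2
    linarith
  have b5 : 9 / (n : ℝ) * e4 H ≤ 9 / n := by
    have : 0 ≤ 9 / (n : ℝ) := by positivity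
    nlinarith
  have b6 := desc_le n 6
  have b7 : (N : ℝ) * (165 * (n.descFactorial 6 : ℝ) - 5760 * (PP n 4 2 * (H.card : ℝ))) ≤
      (n : ℝ) ^ 6 * (N * (165 - 240 * e4 H + 2160 / n)) := by
    have h1 : 165 * (n.descFactorial 6 : ℝ) - 5760 * (PP n 4 2 * (H.card : ℝ)) ≤
        (n : ℝ) ^ 6 * (165 - 240 * e4 H + 2160 / n) := by
      have h2 : (n : ℝ) ^ 6 * (9 / (n : ℝ) * e4 H) ≤ (n : ℝ) ^ 6 * (9 / n) :=
        mul_le_mul_of_nonneg_left b5 hn6.le
      have h3 : (n : ℝ) ^ 6 * (2160 / n) = 240 * ((n : ℝ) ^ 6 * (9 / n)) := by ring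
      have h4 : (n : ℝ) ^ 6 * (e4 H * (1 - 9 / n)) =
          (n : ℝ) ^ 6 * e4 H - (n : ℝ) ^ 6 * (9 / (n : ℝ) * e4 H) := by ring
      rw [h4] at b4
      have h5 : (n : ℝ) ^ 6 * (165 - 240 * e4 H + 2160 / n) =
          165 * (n : ℝ) ^ 6 - 240 * ((n : ℝ) ^ 6 * e4 H) + (n : ℝ) ^ 6 * (2160 / n) := by ring
      rw [h5, h3]
      linarith
    have h2 := mul_le_mul_of_nonneg_left h1 hN'.le
    calc _ ≤ _ := h2
      _ = _ := by ring
  have fin : (n : ℝ) ^ 6 * (240 * N * e4 H) ≤ (n : ℝ) ^ 6 * (165 * N + 5 * δ) := by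
    have h1 : (x : ℝ) * ((n : ℝ) ^ 6 * -(δ / (x + 1) + K1 / n)) =
        -((n : ℝ) ^ 6 * (x * (δ / (x + 1)))) - (n : ℝ) ^ 6 * (x * K1 / n) := by ring
    have h2 : (n : ℝ) ^ 6 * (x * (δ / (x + 1))) ≤ (n : ℝ) ^ 6 * δ :=
      mul_le_mul_of_nonneg_left b2 hn6.le
    have h3 : (n : ℝ) ^ 6 * ((2160 * N + x * K1) / n) ≤ (n : ℝ) ^ 6 * δ :=
      mul_le_mul_of_nonneg_left b3 hn6.le
    have h4 : (n : ℝ) ^ 6 * ((2160 * N + x * K1) / n) =
        (n : ℝ) ^ 6 * (N * (2160 / n)) + (n : ℝ) ^ 6 * (x * K1 / n) := by ring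
    have h5 : (n : ℝ) ^ 6 * (N * (165 - 240 * e4 H + 2160 / n)) =
        (n : ℝ) ^ 6 * (165 * N) - (n : ℝ) ^ 6 * (240 * N * e4 H) +
          (n : ℝ) ^ 6 * (N * (2160 / n)) := by ring
    rw [h5] at b7
    rw [h1] at b1
    rw [h4] at h3
    have h6 : (n : ℝ) ^ 6 * (165 * N + 5 * δ) =
        (n : ℝ) ^ 6 * (165 * N) + 5 * ((n : ℝ) ^ 6 * δ) := by ring
    have h7 : 0 < (n : ℝ) ^ 6 * δ := by positivity
    rw [h6]
    linarith
  have fin2 : 240 * N * e4 H ≤ 165 * N + 5 * δ := le_of_mul_le_mul_left fin hn6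
  have fin3 : 240 * (N : ℝ) * e4 H ≤ 240 * N * (11 / 16 + ε) := by
    rw [hδ] at fin2
    linarith
  exact le_of_mul_le_mul_left fin3 (by positivity)

end Pool.Agent.Lib.MP_afdd4d_co.K9.Star
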