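import Pool.Agent.Lib.MP_afdd4d_co.K9.TwR0
import Pool.Agent.Lib.MP_afdd4d_co.K9.TwR1
import Pool.Agent.Lib.MP_afdd4d_co.K9.TwR2
import Pool.Agent.Lib.MP_afdd4d_co.K9.TwR3
import Pool.Agent.Lib.MP_afdd4d_co.K9.TwR4
import Pool.Agent.Lib.MP_afdd4d_co.K9.TwR5
import Pool.Agent.Lib.MP_afdd4d_co.K9.TwR6
import Pool.Agent.Lib.MP_afdd4d_co.K9.TwR7

/-!
# The vertex inequality with the certificate

In a 4-graph close to Giraud's structure of density almost `11 / 16`, the number of windows of five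
vertices that are not flipped windows for the link of a vertex is bounded in terms of the degree of
the vertex and of the number of copies of `K_5` at the vertex.
-/

namespace Pool.Agent.Lib.MP_afdd4d_co.K9.Star.Tw

open Finset K8 W5

/-- The rows of the certificate. -/
theorem PhW_nonneg (D : XW 5) (hD : VR0 D) : 0 ≤ PhW D := by
  refine nonneg_of_reps PhW PhW_sub (fun r hr L hL => ?_) D hD
  interval_cases r
  · exact W5.row0 L hL
  · exact W5.row1 L hL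
  · exact W5.row2 L hL
  · exact W5.row3 L hL
  · exact W5.row4 L hL
  · exact W5.row5 L hL
  · exact W5.row6 L hL
  · exact W5.row7 L hL

/-- The vertex inequality: `30720 #bad ≤ 675840 n ^ 5 - 5898240 d n ^ 2 + 188743680 n k5 + δ n ^ 5`. -/
theorem vrow0 : ∀ δ : ℝ, 0 < δ → ∃ η : ℝ, 0 < η ∧ ∃ N0 : ℕ, ∀ n : ℕ, N0 ≤ n →
    ∀ (χ : Fin n → Bool) (M : Fin n → Fin n → Bool) (H : Finset (Finset (Fin n))),
      (∀ e ∈ H, e.card = 4) → 11 / 16 - η ≤ e4 (G0 χ M) →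
      ((symmDiff H (G0 χ M)).card : ℝ) ≤ η * (n : ℝ) ^ 4 → ∀ x : Fin n,
      ((30720 : ℕ) : ℝ) * (((univ : Finset (Fin 5 → Fin n)).filter fun t =>
        badW (xv χ M (lk H x) t) = true).card : ℝ) ≤
        110 * ((6144 : ℕ) : ℝ) * (n : ℝ) ^ 5 -
          960 * ((6144 : ℕ) : ℝ) * ((lk H x).card : ℝ) * (n : ℝ) ^ 2 +
          ((188743680 : ℕ) : ℝ) * (n * ((k5x H x : ℕ) : ℝ)) + δ * (n : ℝ) ^ 5 := by
  refine vtx_count 6144 30720 188743680 badW ZW goodX_ZW fun D hD => ?_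
  have h := PhW_nonneg D hD
  unfold PhW at h
  linarith

/-- The vertex inequality: five times the number of the windows that are not flipped windows is at most
`110 n ^ 5 - 960 d(x) n ^ 2 + 30720 n k5(x) + δ n ^ 5`. -/
theorem vrow : ∀ δ : ℝ, 0 < δ → ∃ η : ℝ, 0 < η ∧ ∃ N0 : ℕ, ∀ n : ℕ, N0 ≤ n →
    ∀ (χ : Fin n → Bool) (M : Fin n → Fin n → Bool) (H : Finset (Finset (Fin n))),
      (∀ e ∈ H, e.card = 4) → 11 / 16 - η ≤ e4 (G0 χ M) →
      ((symmDiff H (G0 χ M)).card : ℝ) ≤ η * (n : ℝ) ^ 4 → ∀ x : Fin n,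
      5 * (((univ : Finset (Fin 5 → Fin n)).filter fun t =>
        badW (xv χ M (lk H x) t) = true).card : ℝ) ≤
        110 * (n : ℝ) ^ 5 - 960 * ((lk H x).card : ℝ) * (n : ℝ) ^ 2 +
          30720 * (n * ((k5x H x : ℕ) : ℝ)) + δ * (n : ℝ) ^ 5 := by
  intro δ hδ
  obtain ⟨η, hη, N0, h⟩ := vrow0 (6144 * δ) (by positivity)
  refine ⟨η, hη, N0, fun n hn χ M H h4 hd hx x => ?_⟩
  have h1 := h n hn χ M H h4 hd hx x
  push_cast at h1
  linarith

theorem badW_iff (D : XW 5) : badW D = true ↔ ¬ VS.FG D.c D.e D.l univ := by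
  unfold badW
  split_ifs with h
  · exact ⟨fun h1 => absurd h1 (by decide), fun h1 => absurd h h1⟩
  · exact ⟨fun _ => h, fun _ => rfl⟩

/-- The vertex inequality with `FG`. -/
theorem vrow_fg : ∀ δ : ℝ, 0 < δ → ∃ η : ℝ, 0 < η ∧ ∃ N0 : ℕ, ∀ n : ℕ, N0 ≤ n →
    ∀ (χ : Fin n → Bool) (M : Fin n → Fin n → Bool) (H : Finset (Finset (Fin n))),
      (∀ e ∈ H, e.card = 4) → 11 / 16 - η ≤ e4 (G0 χ M) →
      ((symmDiff H (G0 χ M)).card : ℝ) ≤ η * (n : ℝ) ^ 4 → ∀ x : Fin n,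
      ∀ B : Finset (Fin 5 → Fin n), (∀ t ∈ B, ¬ VS.FG (xv χ M (lk H x) t).c (xv χ M (lk H x) t).e
        (xv χ M (lk H x) t).l univ) →
      5 * (B.card : ℝ) ≤
        110 * (n : ℝ) ^ 5 - 960 * ((lk H x).card : ℝ) * (n : ℝ) ^ 2 +
          30720 * (n * ((k5x H x : ℕ) : ℝ)) + δ * (n : ℝ) ^ 5 := by
  intro δ hδ
  obtain ⟨η, hη, N0, h⟩ := vrow δ hδ
  refine ⟨η, hη, N0, fun n hn χ M H h4 hd hx x B hB => ?_⟩
  have h1 := h n hn χ M H h4 hd hx x
  have h2 : B.card ≤ ((univ : Finset (Fin 5 → Fin n)).filter fun t =>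
        badW (xv χ M (lk H x) t) = true).card := by
    refine Finset.card_le_card fun t ht => ?_
    rw [Finset.mem_filter]
    exact ⟨Finset.mem_univ t, (badW_iff _).mpr (hB t ht)⟩
  have h3 : (B.card : ℝ) ≤ (((univ : Finset (Fin 5 → Fin n)).filter fun t =>
        badW (xv χ M (lk H x) t) = true).card : ℝ) := by exact_mod_cast h2
  linarith

end Pool.Agent.Lib.MP_afdd4d_co.K9.Star.Tw
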