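import Pool.Agent.Lib.MP_afdd4d_co.K9.TAIn
import Pool.Agent.Lib.MP_afdd4d_co.K9.P4.Main
import Pool.Agent.Lib.MP_afdd4d_co.VS.A2Fin

/-!
# The local exactness of the bound at the structures of Giraud

There is a radius `x0 > 0` such that a 4-graph with few copies of `K_5` which differs from a structure
of Giraud in at most `x0 n ^ 4` quadruples has density at most `11 / 16 + o(1)`.
-/

set_option autoImplicit false

namespace Pool.Agent.Lib.MP_afdd4d_co.K9.Star.VS

open Finset K8

/-- The theorem for small errors at the pairs with two colours. -/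
theorem inT : InT := fun ε hε => P4.main ε hε

/-- The lemma about one vertex. -/
theorem inV : InV := Pool.Agent.Lib.MP_afdd4d_co.VS.inV

/-- The local exactness. -/
theorem tgtP : ∃ x0 : ℝ, 0 < x0 ∧ Tw.TgtP x0 := tgtP_of inA inV inP inT

end Pool.Agent.Lib.MP_afdd4d_co.K9.Star.VS
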