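import Pool.Agent.Lib.MP_afdd4d_co.K9.TAPairB

/-!
# The pair lemma, final form
-/

set_option autoImplicit false

namespace Pool.Agent.Lib.MP_afdd4d_co.K9.Star.TA

open Finset K8 VS

variable {n : ℕ}

/-! ### The two sums -/

theorem card_J (H : Finset (Finset (Fin n))) (χ : Fin n → Bool) (M : Fin n → Fin n → Bool)
    (x : Fin n) : ((symmDiff H (G0 χ M)).filter fun Q => ({x} : Finset (Fin n)) ⊆ Q).card =
      J x H χ M := by
  unfold J G0
  congr 1
  refine filter_congr fun Q _ => ?_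
  rw [singleton_subset_iff]

theorem card_K (H : Finset (Finset (Fin n))) (a b : Fin n) :
    ((K5S H).filter fun Q => ({a, b} : Finset (Fin n)) ⊆ Q).card = k5p H a b := by
  unfold K5S k5p
  rw [filter_filter]
  congr 1
  refine filter_congr fun Q _ => ?_
  rw [insert_subset_iff, singleton_subset_iff]
  tauto

theorem sd4 {H : Finset (Finset (Fin n))} (hH : ∀ Q ∈ H, Q.card = 4) (χ : Fin n → Bool)
    (M : Fin n → Fin n → Bool) (x : Fin n) : ∀ Q ∈ symmDiff H (G0 χ M),
      Q.card = ({x} : Finset (Fin n)).card + 3 := by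
  intro Q hQ
  rw [card_singleton]
  rcases mem_symmDiff.mp hQ with h | h
  · exact hH Q h.1
  · exact gir_card _ _ _ _ Q h.1

theorem k55 (H : Finset (Finset (Fin n))) {a b : Fin n} (hab : a ≠ b) : ∀ Q ∈ K5S H,
      Q.card = ({a, b} : Finset (Fin n)).card + 3 := by
  intro Q hQ
  rw [card_pair hab]
  exact (mem_powersetCard.mp (mem_filter.mp hQ).1).2

/-- the summed inequality, for a class `k`; the indicator `d` of `{b, u, u', z} ∈ G` -/
theorem sum_ineq (H : Finset (Finset (Fin n))) (hH : ∀ Q ∈ H, Q.card = 4) (χ : Fin n → Bool)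
    (M : Fin n → Fin n → Bool) (k : Bool) {a b : Fin n} (ha : χ a = k) (hb : χ b = !k)
    (d : Fin n → Fin n → Fin n → ℝ) (hd : ∀ u u' z, d u u' z = 0 ∨ d u u' z = 1)
    (hG : ∀ u u' z, χ u = k → χ u' = k → χ z = !k → d u u' z = 1 →
      ({b, u, u', z} : Finset (Fin n)).card = 4 → ({b, u, u', z} : Finset (Fin n)) ∈ G0 χ M) :
    ∑ u ∈ ca χ k, ∑ u' ∈ ca χ k, ∑ z ∈ ca χ (!k), lF H a b u z * lF H a b u' z * d u u' z ≤
      (∑ u ∈ ca χ k, ∑ u' ∈ ca χ k, ∑ z ∈ ca χ (!k), (1 - lF H a b u u') * d u u' z) +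
        2 * ((J a H χ M : ℝ) + J b H χ M + k5p H a b) := by
  have hab : a ≠ b := by
    rintro rfl
    rw [ha] at hb
    cases k <;> simp at hb
  have h1 := cntR (symmDiff H (G0 χ M)) {b} (sd4 hH χ M b) χ k
  have h2 := cntR (symmDiff H (G0 χ M)) {a} (sd4 hH χ M a) χ k
  have h3 := cntR (K5S H) {a, b} (k55 H hab) χ k
  rw [card_J] at h1 h2
  rw [card_K] at h3
  have h4 : ∑ u ∈ ca χ k, ∑ u' ∈ ca χ k, ∑ z ∈ ca χ (!k), lF H a b u z * lF H a b u' z * d u u' z ≤
      ∑ u ∈ ca χ k, ∑ u' ∈ ca χ k, ∑ z ∈ ca χ (!k), ((1 - lF H a b u u') * d u u' z +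
      (if ({b} : Finset (Fin n)) ∪ {u, u', z} ∈ symmDiff H (G0 χ M) then (1 : ℝ) else 0) +
      (if ({a} : Finset (Fin n)) ∪ {u, u', z} ∈ symmDiff H (G0 χ M) then (1 : ℝ) else 0) +
      (if ({a, b} : Finset (Fin n)) ∪ {u, u', z} ∈ K5S H then (1 : ℝ) else 0)) := by
    refine sum_le_sum fun u hu => sum_le_sum fun u' hu' => sum_le_sum fun z hz => ?_
    rw [mem_ca] at hu hu' hz
    exact point H (G0 χ M) hH a b u u' z (fun h => mem_three χ M h ha hu hu' hz) _ (hd u u' z)
      (hG u u' z hu hu' hz)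
  simp only [sum_add_distrib] at h4
  linarith

theorem prod_rs (w x y z : Bool) : rs w * rs x * (rs y * rs z) = rs ((w ^^ x) ^^ (y ^^ z)) := by
  rw [rs_mul, rs_mul, rs_mul]

theorem dif_or (s : Fin n → Bool) (m : Fin n → Fin n → Bool) (u u' z : Fin n) :
    dif (fun v => rs (s v)) (fun x y => rs (m x y)) u u' z = 0 ∨
      dif (fun v => rs (s v)) (fun x y => rs (m x y)) u u' z = 1 := by
  unfold dif
  simp only
  rw [prod_rs]
  rcases rs_or ((s u ^^ m u z) ^^ (s u' ^^ m u' z)) with h | h <;> rw [h]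
  · left
    norm_num
  · right
    norm_num

theorem dif_one {s : Fin n → Bool} {m : Fin n → Fin n → Bool} {u u' z : Fin n}
    (h : dif (fun v => rs (s v)) (fun x y => rs (m x y)) u u' z = 1) :
    ((s u ^^ m u z) ^^ (s u' ^^ m u' z)) = true := by
  unfold dif at h
  simp only at h
  rw [prod_rs] at h
  generalize ((s u ^^ m u z) ^^ (s u' ^^ m u' z)) = x at h
  cases x
  · rw [rs_false] at h
    norm_num at h
  · rfl

theorem hEA (H : Finset (Finset (Fin n))) (hH : ∀ Q ∈ H, Q.card = 4) (χ : Fin n → Bool)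
    (M : Fin n → Fin n → Bool) {a b : Fin n} (ha : χ a = false) (hb : χ b = true) :
    ∑ u ∈ ca χ false, ∑ u' ∈ ca χ false, ∑ z ∈ ca χ true, lF H a b u z * lF H a b u' z *
        dif (fun v => rs (M v b)) (fun x y => rs (M x y)) u u' z ≤
      (∑ u ∈ ca χ false, ∑ u' ∈ ca χ false, ∑ z ∈ ca χ true, (1 - lF H a b u u') *
        dif (fun v => rs (M v b)) (fun x y => rs (M x y)) u u' z) +
        2 * ((J a H χ M : ℝ) + J b H χ M + k5p H a b) := by
  refine sum_ineq H hH χ M false ha hb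
    (fun u u' z => dif (fun v => rs (M v b)) (fun x y => rs (M x y)) u u' z)
    (fun u u' z => dif_or _ _ _ _ _) ?_
  intro u u' z hu hu' hz hd h4
  have hx := dif_one hd
  have e : ({b, u, u', z} : Finset (Fin n)) = {u, b, u', z} := insert_comm _ _ _
  rw [e] at h4 ⊢
  rw [mem_two χ M h4 hu hu' hb hz]
  exact hx

theorem hEB (H : Finset (Finset (Fin n))) (hH : ∀ Q ∈ H, Q.card = 4) (χ : Fin n → Bool)
    (M : Fin n → Fin n → Bool) {a b : Fin n} (ha : χ a = false) (hb : χ b = true) :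
    ∑ z ∈ ca χ true, ∑ z' ∈ ca χ true, ∑ u ∈ ca χ false, lF H a b z u * lF H a b z' u *
        dif (fun v => rs (M a v)) (fun x y => rs (M y x)) z z' u ≤
      (∑ z ∈ ca χ true, ∑ z' ∈ ca χ true, ∑ u ∈ ca χ false, (1 - lF H a b z z') *
        dif (fun v => rs (M a v)) (fun x y => rs (M y x)) z z' u) +
        2 * ((J a H χ M : ℝ) + J b H χ M + k5p H a b) := by
  have h := sum_ineq H hH χ M true (a := b) (b := a) hb ha
    (fun z z' u => dif (fun v => rs (M a v)) (fun x y => rs (M y x)) z z' u)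
    (fun z z' u => dif_or _ _ _ _ _) ?_
  · have ek : k5p H b a = k5p H a b := by
      unfold k5p
      congr 1
      refine filter_congr fun S _ => ?_
      tauto
    rw [ek] at h
    have el : ∀ u v : Fin n, lF H b a u v = lF H a b u v := fun u v => lF_swap _ _ _ _ _
    simp only [el, Bool.not_true] at h
    linarith
  · intro z z' u hz hz' hu hd h4
    have hx := dif_one hd
    have e : ({a, z, z', u} : Finset (Fin n)) = {a, z, u, z'} := swap4 _ _ _ _
    rw [e] at h4 ⊢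
    rw [mem_two χ M h4 ha hu hz hz']
    generalize M a z = x1 at hx ⊢
    generalize M a z' = x2 at hx ⊢
    generalize M u z = x3 at hx ⊢
    generalize M u z' = x4 at hx ⊢
    revert x1 x2 x3 x4
    decide

/-! ### The number of errors at the two vertices -/

theorem two_filt (χ : Fin n → Bool) {a b u z : Fin n} (ha : χ a = false) (hb : χ b = true)
    (hu : χ u = false) (hz : χ z = true) :
    (({a, b, u, z} : Finset (Fin n)).filter fun v => χ v = true) = {b, z} := by
  rw [filt, ha, hb, hu, hz]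
  ext v
  simp

theorem J22p_eq (H : Finset (Finset (Fin n))) (hH : ∀ Q ∈ H, Q.card = 4) (χ : Fin n → Bool)
    (M : Fin n → Fin n → Bool) {a b : Fin n} (ha : χ a = false) (hb : χ b = true) :
    J22p a b H χ M = (((ca χ false) ×ˢ (ca χ true)).filter fun p : Fin n × Fin n =>
      ({a, b, p.1, p.2} : Finset (Fin n)) ∈ symmDiff H (G0 χ M)).card := by
  symm
  have h4 : ∀ Q ∈ symmDiff H (G0 χ M), Q.card = 4 := fun Q hQ => by
    have := sd4 hH χ M a Q hQ
    rwa [card_singleton] at this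
  unfold J22p
  refine card_bij (fun p _ => ({a, b, p.1, p.2} : Finset (Fin n))) ?_ ?_ ?_
  · rintro ⟨u, z⟩ hp
    obtain ⟨hp1, hp2⟩ := mem_filter.mp hp
    rw [mem_product, mem_ca, mem_ca] at hp1
    have hp2' : ({a, b, u, z} : Finset (Fin n)) ∈ symmDiff H (G0 χ M) := hp2
    obtain ⟨n1, n2, n3, n4, n5, n6⟩ := nodup4 (h4 _ hp2')
    refine mem_filter.mpr ⟨hp2', by simp, by simp, ?_⟩
    show ((({a, b, u, z} : Finset (Fin n))).filter fun v => χ v = true).card = 2
    rw [two_filt χ ha hb hp1.1 hp1.2, card_pair n5]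
  · rintro ⟨u, z⟩ hp ⟨u', z'⟩ hp' he
    obtain ⟨hp1, hp2⟩ := mem_filter.mp hp
    obtain ⟨hq1, hq2⟩ := mem_filter.mp hp'
    rw [mem_product, mem_ca, mem_ca] at hp1 hq1
    have hu : χ u = false := hp1.1
    have hz : χ z = true := hp1.2
    have hu' : χ u' = false := hq1.1
    have hz' : χ z' = true := hq1.2
    have he' : ({a, b, u, z} : Finset (Fin n)) = {a, b, u', z'} := he
    have hp2' : ({a, b, u, z} : Finset (Fin n)) ∈ symmDiff H (G0 χ M) := hp2
    obtain ⟨n1, n2, n3, n4, n5, n6⟩ := nodup4 (h4 _ hp2')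
    have hum : u ∈ ({a, b, u', z'} : Finset (Fin n)) := by
      rw [← he']
      simp
    have hzm : z ∈ ({a, b, u', z'} : Finset (Fin n)) := by
      rw [← he']
      simp
    simp only [mem_insert, mem_singleton] at hum hzm
    have hne : ∀ x y : Fin n, χ x = false → χ y = true → x ≠ y := by
      rintro x y h1 h2 rfl
      rw [h1] at h2
      exact Bool.false_ne_true h2
    have e1 : u = u' := by
      rcases hum with h | h | h | h
      · exact absurd h.symm n2
      · exact absurd h.symm n4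
      · exact h
      · exact absurd h (hne _ _ hu hz')
    have e2 : z = z' := by
      rcases hzm with h | h | h | h
      · exact absurd h.symm n3
      · exact absurd h.symm n5
      · exact absurd h.symm (hne _ _ hu' hz)
      · exact h
    rw [e1, e2]
  · intro Q hQ
    obtain ⟨hQ1, haQ, hbQ, hQ2⟩ := mem_filter.mp hQ
    have hQ4 := h4 Q hQ1
    have hs := Finset.card_filter_add_card_filter_not (s := Q) (fun v => χ v = true)
    have hF : (Q.filter fun v => ¬ χ v = true).card = 2 := by omega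
    have haF : a ∈ Q.filter fun v => ¬ χ v = true := mem_filter.mpr ⟨haQ, by rw [ha]; decide⟩
    have hbT : b ∈ Q.filter fun v => χ v = true := mem_filter.mpr ⟨hbQ, hb⟩
    have hF1 : ((Q.filter fun v => ¬ χ v = true).erase a).card = 1 := by
      rw [card_erase_of_mem haF, hF]
    have hT1 : ((Q.filter fun v => χ v = true).erase b).card = 1 := by
      rw [card_erase_of_mem hbT, hQ2]
    obtain ⟨u, hu⟩ := card_eq_one.mp hF1
    obtain ⟨z, hz⟩ := card_eq_one.mp hT1
    have hu1 : u ∈ (Q.filter fun v => ¬ χ v = true).erase a := by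
      rw [hu]
      exact mem_singleton_self _
    have hz1 : z ∈ (Q.filter fun v => χ v = true).erase b := by
      rw [hz]
      exact mem_singleton_self _
    obtain ⟨hua, hu2⟩ := mem_erase.mp hu1
    obtain ⟨hzb, hz2⟩ := mem_erase.mp hz1
    obtain ⟨huQ, hu3⟩ := mem_filter.mp hu2
    obtain ⟨hzQ, hz3⟩ := mem_filter.mp hz2
    have hu4 : χ u = false := by simpa using hu3
    have e : ({a, b, u, z} : Finset (Fin n)) = Q := by
      refine eq_of_subset_of_card_le ?_ ?_
      · intro v hv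
        simp only [mem_insert, mem_singleton] at hv
        rcases hv with rfl | rfl | rfl | rfl <;> assumption
      · rw [hQ4]
        have hne : ∀ x y : Fin n, χ x = false → χ y = true → x ≠ y := by
          rintro x y h1 h2 rfl
          rw [h1] at h2
          exact Bool.false_ne_true h2
        rw [card4 (hne _ _ ha hb) (Ne.symm hua) (hne _ _ ha hz3) (hne _ _ hu4 hb).symm
          (Ne.symm hzb) (hne _ _ hu4 hz3)]
    refine ⟨(u, z), mem_filter.mpr ⟨?_, ?_⟩, e⟩
    · rw [mem_product, mem_ca, mem_ca]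
      exact ⟨hu4, hz3⟩
    · show ({a, b, u, z} : Finset (Fin n)) ∈ symmDiff H (G0 χ M)
      rw [e]
      exact hQ1

theorem wr_eq (H : Finset (Finset (Fin n))) (hH : ∀ Q ∈ H, Q.card = 4) (χ : Fin n → Bool)
    (M : Fin n → Fin n → Bool) {a b : Fin n} (ha : χ a = false) (hb : χ b = true) {u z : Fin n}
    (hu : χ u = false) (hz : χ z = true) :
    wr (lF H a b) (fun x y => rs (M x y)) (fun v => rs (M a v)) (fun v => rs (M v b)) (rs (M a b))
      u z = if ({a, b, u, z} : Finset (Fin n)) ∈ symmDiff H (G0 χ M) then (1 : ℝ) else 0 := by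
  have hp : rs (M a b) * rs (M a z) * rs (M u b) * rs (M u z) =
      rs ((M a b ^^ M a z) ^^ (M u b ^^ M u z)) := by
    rw [← prod_rs]
    ring
  unfold wr
  simp only
  rw [hp]
  have hdeg : ({a, b, u, z} : Finset (Fin n)).card ≠ 4 →
      ((M a b ^^ M a z) ^^ (M u b ^^ M u z)) = false := by
    intro h
    by_cases h1 : a = u
    · subst h1
      generalize M a b = x1
      generalize M a z = x2
      revert x1 x2
      decide
    by_cases h2 : b = z
    · subst h2
      generalize M a b = x1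
      generalize M u b = x2
      revert x1 x2
      decide
    exfalso
    have hne : ∀ x y : Fin n, χ x = false → χ y = true → x ≠ y := by
      rintro x y h1 h2 rfl
      rw [h1] at h2
      exact Bool.false_ne_true h2
    exact h (card4 (hne _ _ ha hb) h1 (hne _ _ ha hz) (hne _ _ hu hb).symm h2 (hne _ _ hu hz))
  by_cases h4 : ({a, b, u, z} : Finset (Fin n)).card = 4
  · have hm := mem_two χ M h4 ha hu hb hz
    have hm' : ({a, b, u, z} : Finset (Fin n)) ∈ symmDiff H (G0 χ M) ↔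
        (({a, b, u, z} : Finset (Fin n)) ∈ H ∧ ¬ ((M a b ^^ M a z) ^^ (M u b ^^ M u z)) = true) ∨
        (((M a b ^^ M a z) ^^ (M u b ^^ M u z)) = true ∧ ({a, b, u, z} : Finset (Fin n)) ∉ H) := by
      rw [mem_symmDiff, hm]
    generalize ((M a b ^^ M a z) ^^ (M u b ^^ M u z)) = x at hm' ⊢
    unfold lF
    by_cases hQ : ({a, b, u, z} : Finset (Fin n)) ∈ H
    · rw [if_pos hQ]
      cases x
      · rw [rs_false, if_pos (hm'.mpr (Or.inl ⟨hQ, Bool.false_ne_true⟩))]
        norm_num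
      · rw [rs_true, if_neg (fun h => by
          rcases hm'.mp h with h' | h'
          · exact h'.2 rfl
          · exact h'.2 hQ)]
        norm_num
    · rw [if_neg hQ]
      cases x
      · rw [rs_false, if_neg (fun h => by
          rcases hm'.mp h with h' | h'
          · exact hQ h'.1
          · exact Bool.false_ne_true h'.1)]
        norm_num
      · rw [rs_true, if_pos (hm'.mpr (Or.inr ⟨rfl, hQ⟩))]
        norm_num
  · have hn : ({a, b, u, z} : Finset (Fin n)) ∉ symmDiff H (G0 χ M) := by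
      intro h
      have := sd4 hH χ M a _ h
      rw [card_singleton] at this
      exact h4 this
    have hnH : ({a, b, u, z} : Finset (Fin n)) ∉ H := fun h => h4 (hH _ h)
    rw [if_neg hn, hdeg h4, rs_false]
    unfold lF
    rw [if_neg hnH]
    norm_num

theorem wrS_eq (H : Finset (Finset (Fin n))) (hH : ∀ Q ∈ H, Q.card = 4) (χ : Fin n → Bool)
    (M : Fin n → Fin n → Bool) {a b : Fin n} (ha : χ a = false) (hb : χ b = true) :
    wrS (ca χ false) (ca χ true) (lF H a b) (fun x y => rs (M x y)) (fun v => rs (M a v))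
      (fun v => rs (M v b)) (rs (M a b)) = (J22p a b H χ M : ℝ) := by
  rw [J22p_eq H hH χ M ha hb, card_filter, Nat.cast_sum, sum_product]
  unfold wrS
  refine sum_congr rfl fun u hu => sum_congr rfl fun z hz => ?_
  rw [mem_ca] at hu hz
  rw [wr_eq H hH χ M ha hb hu hz]
  split_ifs <;> simp

theorem sum_l (H : Finset (Finset (Fin n))) (hH : ∀ Q ∈ H, Q.card = 4) {a b : Fin n}
    (hab : a ≠ b) : ∑ u, ∑ v, lF H a b u v = 2 * (cd H a b : ℝ) := by
  have h := two_cd H hH hab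
  unfold cd
  have e : ∑ u, ∑ v, lF H a b u v = (((univ.filter fun p : Fin n × Fin n =>
      ({a, b, p.1, p.2} : Finset (Fin n)) ∈ H).card : ℕ) : ℝ) := by
    rw [card_filter, Nat.cast_sum, ← univ_product_univ, sum_product]
    refine sum_congr rfl fun u _ => sum_congr rfl fun v _ => ?_
    unfold lF
    split_ifs <;> simp
  rw [e, h]
  push_cast
  ring

/-! ### The transposed sum -/

theorem transp (A B : Finset (Fin n)) (m : Fin n → Fin n → ℝ) :
    ∑ z ∈ B, ∑ z' ∈ B, (∑ u ∈ A, m u z * m u z') ^ 2 =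
      ∑ u ∈ A, ∑ u' ∈ A, (∑ z ∈ B, m u z * m u' z) ^ 2 := by
  have e1 : ∀ z z' : Fin n, (∑ u ∈ A, m u z * m u z') ^ 2 =
      ∑ u ∈ A, ∑ u' ∈ A, (m u z * m u' z) * (m u z' * m u' z') := by
    intro z z'
    rw [_root_.sq, sum_mul_sum]
    refine sum_congr rfl fun u _ => sum_congr rfl fun u' _ => ?_
    ring
  have e2 : ∀ u u' : Fin n, (∑ z ∈ B, m u z * m u' z) ^ 2 =
      ∑ z ∈ B, ∑ z' ∈ B, (m u z * m u' z) * (m u z' * m u' z') := by
    intro u u'
    rw [_root_.sq, sum_mul_sum]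
  simp only [e1, e2]
  calc ∑ z ∈ B, ∑ z' ∈ B, ∑ u ∈ A, ∑ u' ∈ A, (m u z * m u' z) * (m u z' * m u' z')
      = ∑ z ∈ B, ∑ u ∈ A, ∑ z' ∈ B, ∑ u' ∈ A, (m u z * m u' z) * (m u z' * m u' z') :=
        sum_congr rfl fun z _ => sum_comm
    _ = ∑ u ∈ A, ∑ z ∈ B, ∑ z' ∈ B, ∑ u' ∈ A, (m u z * m u' z) * (m u z' * m u' z') := sum_comm
    _ = ∑ u ∈ A, ∑ z ∈ B, ∑ u' ∈ A, ∑ z' ∈ B, (m u z * m u' z) * (m u z' * m u' z') :=
        sum_congr rfl fun u _ => sum_congr rfl fun z _ => sum_comm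
    _ = ∑ u ∈ A, ∑ u' ∈ A, ∑ z ∈ B, ∑ z' ∈ B, (m u z * m u' z) * (m u z' * m u' z') :=
        sum_congr rfl fun u _ => sum_comm

theorem sq_rs (χ : Fin n → Bool) (M : Fin n → Fin n → Bool) :
    VS.sq χ M = ∑ u ∈ ca χ false, ∑ u' ∈ ca χ false,
      (∑ z ∈ ca χ true, rs (M u z) * rs (M u' z)) ^ 2 := by
  unfold VS.sq rs
  refine sum_congr rfl fun u _ => sum_congr rfl fun u' _ => ?_
  congr 1
  refine sum_congr rfl fun z _ => ?_
  push_cast
  ring

/-! ### The lemma -/

theorem J22p_le (H : Finset (Finset (Fin n))) (hH : ∀ Q ∈ H, Q.card = 4) (χ : Fin n → Bool)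
    (M : Fin n → Fin n → Bool) {a b : Fin n} (ha : χ a = false) (hb : χ b = true) :
    (J22p a b H χ M : ℝ) ≤ ((ca χ false).card : ℝ) * (ca χ true).card := by
  rw [J22p_eq H hH χ M ha hb]
  refine le_trans (Nat.cast_le.mpr (card_filter_le _ _)) ?_
  rw [card_product]
  push_cast
  exact le_rfl

theorem ca_add (χ : Fin n → Bool) : ((ca χ false).card : ℝ) + (ca χ true).card = n := by
  have h := Finset.card_filter_add_card_filter_not (s := (univ : Finset (Fin n)))
    (fun v => χ v = false)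
  have e : (univ.filter fun v : Fin n => ¬ χ v = false) = ca χ true := by
    unfold ca
    refine filter_congr fun v _ => ?_
    rw [Bool.not_eq_false]
  rw [e, card_univ, Fintype.card_fin] at h
  have h' : (ca χ false).card + (ca χ true).card = n := h
  exact_mod_cast h'

/-- The last step, for real numbers. -/
theorem arith {N W α β s r τ ja jb K x : ℝ} (hN : 0 < N) (hW0 : 0 ≤ W)
    (hW : W ≤ α * β) (hαβ : α + β = N) (hα : |α - N / 2| ≤ s * N)
    (hja : ja ≤ s * N ^ 3) (hjb : jb ≤ s * N ^ 3)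
    (hsum : s ^ 2 + 8 * s + 2 * r ^ 2 + 2 * r + 64 * s ≤ τ)
    (h : N ^ 2 * x ≤ (3 / 4) * N ^ 4 - 4 * W * (α * β - W) + (8 * s + 2 * r ^ 2 + 2 * r) * N ^ 4 +
      8 * N * (2 * (ja + jb + K) + 2 * (ja + jb + K))) :
    x ≤ (3 / 4 - (4 * W / N ^ 2) * (1 - 4 * W / N ^ 2) / 4 + τ) * N ^ 2 + 32 / N * K := by
  have hβ : β = N - α := by linarith
  have h1 : (α - N / 2) ^ 2 ≤ s ^ 2 * N ^ 2 := by
    rw [← mul_pow, ← sq_abs (α - N / 2)]
    exact pow_le_pow_left₀ (abs_nonneg _) hα 2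
  have h2 : α * β = N ^ 2 / 4 - (α - N / 2) ^ 2 := by
    rw [hβ]
    ring
  have h3 : α * β ≤ N ^ 2 / 4 := by
    rw [h2]
    nlinarith [sq_nonneg (α - N / 2)]
  have h4 : W ≤ N ^ 2 / 4 := hW.trans h3
  have h5 : N ^ 2 / 4 - s ^ 2 * N ^ 2 ≤ α * β := by
    rw [h2]
    linarith
  have h6 : W * (N ^ 2 / 4 - s ^ 2 * N ^ 2) ≤ W * (α * β) := mul_le_mul_of_nonneg_left h5 hW0
  have h7 : W * (s ^ 2 * N ^ 2) ≤ N ^ 2 / 4 * (s ^ 2 * N ^ 2) :=
    mul_le_mul_of_nonneg_right h4 (by positivity)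
  have h8 : N ^ 2 * x ≤ (3 / 4) * N ^ 4 - W * N ^ 2 + 4 * W ^ 2 + s ^ 2 * N ^ 4 +
      (8 * s + 2 * r ^ 2 + 2 * r) * N ^ 4 + 32 * N * (ja + jb + K) := by
    nlinarith
  have h9 : N * ja ≤ N * (s * N ^ 3) := mul_le_mul_of_nonneg_left hja hN.le
  have h10 : N * jb ≤ N * (s * N ^ 3) := mul_le_mul_of_nonneg_left hjb hN.le
  have h11 : (s ^ 2 + 8 * s + 2 * r ^ 2 + 2 * r + 64 * s) * N ^ 4 ≤ τ * N ^ 4 :=
    mul_le_mul_of_nonneg_right hsum (by positivity)
  have h12 : N ^ 2 * x ≤ (3 / 4) * N ^ 4 - W * N ^ 2 + 4 * W ^ 2 + τ * N ^ 4 + 32 * N * K := by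
    nlinarith
  have h13 : N ^ 2 * ((3 / 4 - (4 * W / N ^ 2) * (1 - 4 * W / N ^ 2) / 4 + τ) * N ^ 2 +
      32 / N * K) = (3 / 4) * N ^ 4 - W * N ^ 2 + 4 * W ^ 2 + τ * N ^ 4 + 32 * N * K := by
    field_simp
    ring
  rw [← h13] at h12
  exact le_of_mul_le_mul_left h12 (by positivity)

/-- **The pair lemma.** The codegree of two vertices `a`, `b` of different colours in a 4-graph
that is close to Giraud's structure at `a` and at `b`; `p = 4 J22p a b / n²` is the density of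
the errors at the pair. -/
theorem pair_lemma (τ : ℝ) (hτ : 0 < τ) : ∃ η : ℝ, 0 < η ∧ ∀ (n : ℕ)
    (H : Finset (Finset (Fin n))) (χ : Fin n → Bool) (M : Fin n → Fin n → Bool) (a b : Fin n),
    (∀ Q ∈ H, Q.card = 4) → χ a = false → χ b = true →
    |((ca χ true).card : ℝ) - n / 2| ≤ η * n → VS.sq χ M ≤ η * (n : ℝ) ^ 4 →
    (J a H χ M : ℝ) ≤ η * (n : ℝ) ^ 3 → (J b H χ M : ℝ) ≤ η * (n : ℝ) ^ 3 →
    2 * (cd H a b : ℝ) ≤ (3 / 4 - (4 * (J22p a b H χ M : ℝ) / (n : ℝ) ^ 2) *
      (1 - 4 * (J22p a b H χ M : ℝ) / (n : ℝ) ^ 2) / 4 + τ) * (n : ℝ) ^ 2 +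
      32 / n * (k5p H a b : ℝ) := by
  have hr0 : 0 < min 1 (τ / 77) := lt_min one_pos (by positivity)
  set r := min 1 (τ / 77) with hr
  have hr1 : r ≤ 1 := min_le_left _ _
  have hr2 : 77 * r ≤ τ := by
    have := min_le_right 1 (τ / 77)
    rw [← hr] at this
    linarith
  have hη1 : r ^ 4 ≤ r := by
    have : r ^ 4 ≤ r ^ 1 := pow_le_pow_of_le_one hr0.le hr1 (by norm_num)
    simpa using this
  have hη0 : 0 < r ^ 4 := by positivity
  refine ⟨r ^ 4, hη0, fun n H χ M a b hH ha hb hq1 hq2 hJa hJb => ?_⟩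
  have hn : 0 < (n : ℝ) := by
    have : 0 < n := lt_of_le_of_lt (Nat.zero_le _) a.isLt
    exact_mod_cast this
  have hab : a ≠ b := by
    rintro rfl
    rw [ha] at hb
    exact Bool.false_ne_true hb
  have hadd := ca_add χ
  have hα : |((ca χ false).card : ℝ) - n / 2| ≤ r ^ 4 * n := by
    have e : ((ca χ false).card : ℝ) - n / 2 = -(((ca χ true).card : ℝ) - n / 2) := by
      linarith
    rw [e, abs_neg]
    exact hq1
  have hqA : ∑ u ∈ ca χ false, ∑ u' ∈ ca χ false, (∑ z ∈ ca χ true, rs (M u z) * rs (M u' z)) ^ 2 ≤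
      r ^ 4 * (n : ℝ) ^ 4 := by
    rw [← sq_rs]
    exact hq2
  have hqB : ∑ z ∈ ca χ true, ∑ z' ∈ ca χ true,
      (∑ u ∈ ca χ false, rs (M u z) * rs (M u z')) ^ 2 ≤ r ^ 4 * (n : ℝ) ^ 4 := by
    rw [transp]
    exact hqA
  have hdis : Disjoint (ca χ false) (ca χ true) := by
    rw [disjoint_left]
    intro v h1 h2
    rw [mem_ca] at h1 h2
    rw [h1] at h2
    exact Bool.false_ne_true h2
  have huni : ca χ false ∪ ca χ true = univ := by
    ext v
    rw [mem_union, mem_ca, mem_ca]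
    refine ⟨fun _ => mem_univ _, fun _ => ?_⟩
    cases χ v
    · exact Or.inl rfl
    · exact Or.inr rfl
  have h := pair_num (ca χ false) (ca χ true) hdis huni (lF H a b) (fun x y => rs (M x y))
    (fun v => rs (M a v)) (fun v => rs (M v b)) (rs (M a b)) (lF_or H a b) (lF_symm H a b)
    (fun u v => rs_or _) (fun v => rs_or _) (fun v => rs_or _) (rs_or _)
    (2 * ((J a H χ M : ℝ) + J b H χ M + k5p H a b)) (2 * ((J a H χ M : ℝ) + J b H χ M + k5p H a b))
    (r ^ 4) r hr0.le (by positivity) (by positivity) (hEA H hH χ M ha hb) (hEB H hH χ M ha hb) hα hqA hqB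
  rw [wrS_eq H hH χ M ha hb, sum_l H hH hab] at h
  refine arith hn (Nat.cast_nonneg _) (J22p_le H hH χ M ha hb) hadd hα hJa hJb ?_ h
  have hs2 : (r ^ 4) ^ 2 ≤ r := by
    have : (r ^ 4) ^ 2 ≤ r ^ 1 := by
      rw [← pow_mul]
      exact pow_le_pow_of_le_one hr0.le hr1 (by norm_num)
    simpa using this
  have hr22 : r ^ 2 ≤ r := by
    have : r ^ 2 ≤ r ^ 1 := pow_le_pow_of_le_one hr0.le hr1 (by norm_num)
    simpa using this
  linarith

end Pool.Agent.Lib.MP_afdd4d_co.K9.Star.TA
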