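import Pool.Agent.Lib.MP_afdd4d_co.K9.TAqDef

/-!
# Degrees of vertices and of pairs in Giraud's structures

If the two classes have almost the same size and the relation between them is quasi-random, then
all vertices and all pairs of vertices of different colours have almost the expected degree.
-/

set_option autoImplicit false

namespace Pool.Agent.Lib.MP_afdd4d_co.K9.Star.VS

open Finset K8

section bil

variable {V : Type*} (U W : Finset V) (s : V → V → ℝ)

theorem sq_transpose : ∑ u ∈ U, ∑ u' ∈ U, (∑ v ∈ W, s u v * s u' v) ^ 2 =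
    ∑ v ∈ W, ∑ v' ∈ W, (∑ u ∈ U, s u v * s u v') ^ 2 := by
  have h1 : ∑ u ∈ U, ∑ u' ∈ U, (∑ v ∈ W, s u v * s u' v) ^ 2 =
      ∑ p ∈ U ×ˢ U, ∑ q ∈ W ×ˢ W, s p.1 q.1 * s p.2 q.1 * (s p.1 q.2 * s p.2 q.2) := by
    rw [Finset.sum_product]
    refine Finset.sum_congr rfl fun u _ => Finset.sum_congr rfl fun u' _ => ?_
    rw [pow_two, Finset.sum_mul_sum, Finset.sum_product]
  have h2 : ∑ v ∈ W, ∑ v' ∈ W, (∑ u ∈ U, s u v * s u v') ^ 2 =
      ∑ q ∈ W ×ˢ W, ∑ p ∈ U ×ˢ U, s p.1 q.1 * s p.2 q.1 * (s p.1 q.2 * s p.2 q.2) := by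
    rw [Finset.sum_product]
    refine Finset.sum_congr rfl fun v _ => Finset.sum_congr rfl fun v' _ => ?_
    rw [pow_two, Finset.sum_mul_sum, Finset.sum_product]
    refine Finset.sum_congr rfl fun u _ => Finset.sum_congr rfl fun u' _ => ?_
    ring
  rw [h1, h2, Finset.sum_comm]

variable {U W s}

theorem row_sq_le (hs : ∀ u v, s u v ^ 2 = 1) (x : V) :
    (∑ a ∈ U, (∑ b ∈ W, s x b * s a b) ^ 2) ^ 2 ≤
      (W.card : ℝ) ^ 2 * ∑ v ∈ W, ∑ v' ∈ W, (∑ u ∈ U, s u v * s u v') ^ 2 := by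
  have h1 : ∑ a ∈ U, (∑ b ∈ W, s x b * s a b) ^ 2 =
      ∑ q ∈ W ×ˢ W, (s x q.1 * s x q.2) * ∑ u ∈ U, s u q.1 * s u q.2 := by
    have e1 : ∀ a ∈ U, (∑ b ∈ W, s x b * s a b) ^ 2 =
        ∑ q ∈ W ×ˢ W, (s x q.1 * s x q.2) * (s a q.1 * s a q.2) := by
      intro a _
      rw [pow_two, Finset.sum_mul_sum, Finset.sum_product]
      refine Finset.sum_congr rfl fun v _ => Finset.sum_congr rfl fun v' _ => ?_
      ring
    rw [Finset.sum_congr rfl e1, Finset.sum_comm]
    refine Finset.sum_congr rfl fun q _ => ?_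
    rw [Finset.mul_sum]
  have h2 : ∑ q ∈ W ×ˢ W, (s x q.1 * s x q.2) ^ 2 = (W.card : ℝ) ^ 2 := by
    have e : ∀ q ∈ W ×ˢ W, (s x q.1 * s x q.2) ^ 2 = 1 := by
      intro q _
      rw [mul_pow, hs, hs, mul_one]
    rw [Finset.sum_congr rfl e, Finset.sum_const, Finset.card_product, nsmul_eq_mul, mul_one]
    push_cast
    ring
  have h3 : ∑ v ∈ W, ∑ v' ∈ W, (∑ u ∈ U, s u v * s u v') ^ 2 =
      ∑ q ∈ W ×ˢ W, (∑ u ∈ U, s u q.1 * s u q.2) ^ 2 := by
    rw [Finset.sum_product]
  rw [h1, h3, ← h2]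
  exact Finset.sum_mul_sq_le_sq_mul_sq _ _ _

theorem bil_sq_le (hs : ∀ u v, s u v ^ 2 = 1) (x y : V) :
    (∑ a ∈ U, ∑ b ∈ W, s x b * s a y * s a b) ^ 2 ≤
      (U.card : ℝ) * ∑ a ∈ U, (∑ b ∈ W, s x b * s a b) ^ 2 := by
  have h1 : ∑ a ∈ U, ∑ b ∈ W, s x b * s a y * s a b =
      ∑ a ∈ U, s a y * ∑ b ∈ W, s x b * s a b := by
    refine Finset.sum_congr rfl fun a _ => ?_
    rw [Finset.mul_sum]
    refine Finset.sum_congr rfl fun b _ => ?_
    ring
  have h2 : ∑ a ∈ U, (s a y) ^ 2 = (U.card : ℝ) := by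
    rw [Finset.sum_congr rfl fun a _ => hs a y, Finset.sum_const, nsmul_eq_mul, mul_one]
  rw [h1, ← h2]
  exact Finset.sum_mul_sq_le_sq_mul_sq _ _ _

end bil

section cnt

variable {n : ℕ}

/-- the bit of a vertex of the colour `z` and a vertex of the other colour -/
def bt (M : Fin n → Fin n → Bool) (z : Bool) (u v : Fin n) : Bool :=
  if z = true then M v u else M u v

/-- the sign of a pair, as a real number -/
def ss (M : Fin n → Fin n → Bool) (z : Bool) (u v : Fin n) : ℝ := ((sg (bt M z u v) : ℤ) : ℝ)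

theorem ss_sq (M : Fin n → Fin n → Bool) (z : Bool) (u v : Fin n) : ss M z u v ^ 2 = 1 := by
  unfold ss sg
  split_ifs <;> norm_num

theorem sg_xor (p q : Bool) : sg (p ^^ q) = sg p * sg q := by
  cases p <;> cases q <;> decide

theorem sq_eq (χ : Fin n → Bool) (M : Fin n → Fin n → Bool) (z : Bool) :
    ∑ v ∈ ca χ (!z), ∑ v' ∈ ca χ (!z), (∑ u ∈ ca χ z, ss M z u v * ss M z u v') ^ 2 =
      sq χ M := by
  cases z
  · rw [Bool.not_false, ← sq_transpose]
    unfold VS.sq ss bt
    simp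
  · rw [Bool.not_true]
    unfold VS.sq ss bt
    simp

theorem oddB_four (p q r s : Bool) :
    oddB (bz p + bz q + (bz r + bz s)) = (p ^^ q ^^ (r ^^ s)) := by
  cases p <;> cases q <;> cases r <;> cases s <;> decide

variable {χ : Fin n → Bool} {M : Fin n → Fin n → Bool}

theorem mem_gir0 {Q : Finset (Fin n)} :
    Q ∈ gir χ M (fun _ => false) (fun _ => false) ↔
      Q.card = 4 ∧ girB χ M (fun _ => false) (fun _ => false) Q = true := by
  unfold gir
  rw [Finset.mem_filter, Finset.mem_powersetCard]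
  simp

theorem filter_two {a a' b b' : Fin n} {z : Bool} (ha : χ a = z) (ha' : χ a' = z)
    (hb : χ b = !z) (hb' : χ b' = !z) :
    ({a, a', b, b'} : Finset (Fin n)).filter (fun v => χ v = z) = {a, a'} := by
  ext v
  simp only [Finset.mem_filter, Finset.mem_insert, Finset.mem_singleton]
  constructor
  · rintro ⟨h | h | h | h, hz⟩
    · exact Or.inl h
    · exact Or.inr h
    · rw [h, hb] at hz
      cases z <;> simp at hz
    · rw [h, hb'] at hz
      cases z <;> simp at hz
  · rintro (h | h)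
    · exact ⟨Or.inl h, by rw [h, ha]⟩
    · exact ⟨Or.inr (Or.inl h), by rw [h, ha']⟩

theorem quad_comm (a a' b b' : Fin n) : ({a, a', b, b'} : Finset (Fin n)) = {b, b', a, a'} := by
  ext v
  simp only [Finset.mem_insert, Finset.mem_singleton]
  tauto

theorem quad_card {a a' b b' : Fin n} {z : Bool} (haa : a ≠ a') (hbb : b ≠ b')
    (ha : χ a = z) (ha' : χ a' = z) (hb : χ b = !z) (hb' : χ b' = !z) :
    ({a, a', b, b'} : Finset (Fin n)).card = 4 := by
  have hne : ∀ u v : Fin n, χ u = z → χ v = !z → u ≠ v := by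
    rintro u v hu hv rfl
    rw [hu] at hv
    cases z <;> simp at hv
  have h1 := hne a b ha hb
  have h2 := hne a b' ha hb'
  have h3 := hne a' b ha' hb
  have h4 := hne a' b' ha' hb'
  rw [Finset.card_insert_of_notMem (by simp [haa, h1, h2]),
    Finset.card_insert_of_notMem (by simp [h3, h4]), Finset.card_pair hbb]

/-- the quadruples with two vertices of each colour -/
theorem quad_mem {a a' b b' : Fin n} {z : Bool} (haa : a ≠ a') (hbb : b ≠ b')
    (ha : χ a = z) (ha' : χ a' = z) (hb : χ b = !z) (hb' : χ b' = !z) :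
    {a, a', b, b'} ∈ gir χ M (fun _ => false) (fun _ => false) ↔
      (bt M z a b ^^ bt M z a b' ^^ (bt M z a' b ^^ bt M z a' b')) = true := by
  rw [mem_gir0]
  have hc := quad_card haa hbb ha ha' hb hb'
  cases z
  · have e1 : ({a, a', b, b'} : Finset (Fin n)).filter (fun v => χ v = true) = {b, b'} := by
      rw [quad_comm]
      exact filter_two (z := true) hb hb' (by simpa using ha) (by simpa using ha')
    have e2 := filter_two ha ha' hb hb'
    have e : girB χ M (fun _ => false) (fun _ => false) {a, a', b, b'} =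
        (bt M false a b ^^ bt M false a b' ^^ (bt M false a' b ^^ bt M false a' b')) := by
      unfold girB
      rw [e1, e2, Finset.card_pair hbb, if_neg (by omega), if_neg (by omega), if_pos rfl,
        Finset.sum_pair haa, Finset.sum_pair hbb, Finset.sum_pair hbb, oddB_four]
      rfl
    rw [e]
    exact ⟨fun h => h.2, fun h => ⟨hc, h⟩⟩
  · have e1 := filter_two ha ha' hb hb'
    have e2 : ({a, a', b, b'} : Finset (Fin n)).filter (fun v => χ v = false) = {b, b'} := by
      rw [quad_comm]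
      exact filter_two (z := false) hb hb' (by simpa using ha) (by simpa using ha')
    have e : girB χ M (fun _ => false) (fun _ => false) {a, a', b, b'} =
        (bt M true a b ^^ bt M true a b' ^^ (bt M true a' b ^^ bt M true a' b')) := by
      unfold girB
      rw [e1, e2, Finset.card_pair haa, if_neg (by omega), if_neg (by omega), if_pos rfl,
        Finset.sum_pair hbb, Finset.sum_pair haa, Finset.sum_pair haa, oddB_four]
      have f : ∀ u v : Fin n, bt M true u v = M v u := fun u v => rfl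
      rw [f, f, f, f]
      cases M b a <;> cases M b a' <;> cases M b' a <;> cases M b' a' <;> rfl
    rw [e]
    exact ⟨fun h => h.2, fun h => ⟨hc, h⟩⟩

/-- the quadruples with an odd number of vertices of each colour -/
theorem odd_mem {Q : Finset (Fin n)} {z : Bool} (hQ : Q.card = 4)
    (h : (Q.filter fun v => χ v = z).card = 1 ∨ (Q.filter fun v => χ v = z).card = 3) :
    Q ∈ gir χ M (fun _ => false) (fun _ => false) := by
  rw [mem_gir0]
  refine ⟨hQ, ?_⟩
  have h1 : (Q.filter fun v => χ v = true).card + (Q.filter fun v => χ v = false).card = 4 := by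
    rw [← hQ, ← Finset.card_filter_add_card_filter_not (s := Q) (fun v => χ v = true)]
    congr 2
    ext v
    simp
  have h2 : (Q.filter fun v => χ v = true).card = 1 ∨ (Q.filter fun v => χ v = true).card = 3 := by
    cases z
    · omega
    · exact h
  unfold girB
  rcases h2 with h | h
  · rw [h]; rfl
  · rw [h]; rfl

/-! ### the degree of a vertex -/

theorem bool_ne_not (z : Bool) : z ≠ !z := by cases z <;> decide

theorem ne_of_col {u v : Fin n} {z : Bool} (hu : χ u = z) (hv : χ v = !z) : u ≠ v := by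
  rintro rfl
  rw [hu] at hv
  exact bool_ne_not z hv

/-- filters of `T` and a vertex of the other colour -/
theorem filt_T {T : Finset (Fin n)} {z : Bool} (hT : ∀ v ∈ T, χ v = z) {b : Fin n}
    (hb : χ b = !z) : (insert b T).filter (fun v => χ v = z) = T ∧
      (insert b T).filter (fun v => χ v = !z) = {b} := by
  have hz : (!z) ≠ z := (bool_ne_not z).symm
  constructor
  · rw [Finset.filter_insert, if_neg (by rw [hb]; exact hz), Finset.filter_true_of_mem hT]
  · rw [Finset.filter_insert, if_pos hb]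
    have : T.filter (fun v => χ v = !z) = ∅ := by
      rw [Finset.filter_eq_empty_iff]
      intro v hv h
      rw [hT v hv] at h
      exact bool_ne_not z h
    rw [this]
    rfl

section vertex

variable {x : Fin n} {z : Bool}

/-- the members at `x` with `k` vertices of the colour of `x` -/
def Dk (χ : Fin n → Bool) (M : Fin n → Fin n → Bool) (x : Fin n) (z : Bool) (k : ℕ) :
    Finset (Finset (Fin n)) :=
  (gir χ M (fun _ => false) (fun _ => false)).filter fun Q =>
    x ∈ Q ∧ (Q.filter fun v => χ v = z).card = k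

theorem Dk_sum (z : Bool) : (Dk χ M x z 3).card + (Dk χ M x z 1).card + (Dk χ M x z 2).card ≤
    ((gir χ M (fun _ => false) (fun _ => false)).filter fun Q => x ∈ Q).card := by
  have h : ∀ i j : ℕ, i ≠ j → Disjoint (Dk χ M x z i) (Dk χ M x z j) := by
    intro i j hij
    rw [Finset.disjoint_left]
    intro Q h1 h2
    exact hij ((Finset.mem_filter.1 h1).2.2.symm.trans (Finset.mem_filter.1 h2).2.2)
  rw [← Finset.card_union_of_disjoint (h 3 1 (by omega)), ← Finset.card_union_of_disjoint]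
  · refine Finset.card_le_card fun Q hQ => ?_
    rw [Finset.mem_union, Finset.mem_union] at hQ
    rcases hQ with (hQ | hQ) | hQ <;>
    · have := Finset.mem_filter.1 hQ
      exact Finset.mem_filter.2 ⟨this.1, this.2.1⟩
  · rw [Finset.disjoint_union_left]
    exact ⟨h 3 2 (by omega), h 1 2 (by omega)⟩

theorem card_D3 (hx : χ x = z) :
    ((ca χ z).card - 1).choose 2 * (ca χ (!z)).card ≤ (Dk χ M x z 3).card := by
  have hxU : x ∈ ca χ z := mem_ca.2 hx
  have e : ((ca χ z).card - 1).choose 2 * (ca χ (!z)).card =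
      (((ca χ z).erase x).powersetCard 2 ×ˢ ca χ (!z)).card := by
    rw [Finset.card_product, Finset.card_powersetCard, Finset.card_erase_of_mem hxU]
  rw [e]
  have key : ∀ p ∈ ((ca χ z).erase x).powersetCard 2 ×ˢ ca χ (!z),
      (insert p.2 (insert x p.1)).filter (fun v => χ v = z) = insert x p.1 ∧
      (insert p.2 (insert x p.1)).filter (fun v => χ v = !z) = {p.2} ∧
      x ∉ p.1 ∧ (insert x p.1).card = 3 ∧ p.2 ∉ insert x p.1 := by
    rintro ⟨T, b⟩ hp
    rw [Finset.mem_product, Finset.mem_powersetCard] at hp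
    have hxT : x ∉ T := fun h => Finset.notMem_erase x _ (hp.1.1 h)
    have hT : ∀ v ∈ insert x T, χ v = z := by
      intro v hv
      rcases Finset.mem_insert.1 hv with h | h
      · rw [h, hx]
      · exact mem_ca.1 (Finset.mem_of_mem_erase (hp.1.1 h))
    have hb : χ b = !z := mem_ca.1 hp.2
    obtain ⟨h1, h2⟩ := filt_T hT hb
    refine ⟨h1, h2, hxT, ?_, ?_⟩
    · show (insert x T).card = 3
      rw [Finset.card_insert_of_notMem hxT, hp.1.2]
    · intro h
      exact ne_of_col (hT b h) hb rfl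
  refine Finset.card_le_card_of_injOn (fun p => insert p.2 (insert x p.1)) ?_ ?_
  · intro p hp
    obtain ⟨h1, h2, h3, h4, h5⟩ := key p hp
    have hc : (insert p.2 (insert x p.1)).card = 4 := by
      rw [Finset.card_insert_of_notMem h5, h4]
    refine Finset.mem_coe.2 (Finset.mem_filter.2 ⟨odd_mem (z := z) hc (Or.inr ?_), ?_, ?_⟩)
    · rw [h1, h4]
    · exact Finset.mem_insert_of_mem (Finset.mem_insert_self _ _)
    · rw [h1, h4]
  · rintro ⟨T, b⟩ hp ⟨T', b'⟩ hp' h
    obtain ⟨h1, h2, h3, -, -⟩ := key _ hp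
    obtain ⟨h1', h2', h3', -, -⟩ := key _ hp'
    dsimp only at h h1 h2 h3 h1' h2' h3'
    rw [h, h1'] at h1
    rw [h, h2'] at h2
    have hT : T = T' := by
      rw [← Finset.erase_insert h3, ← Finset.erase_insert h3', h1]
    have hb : b = b' := (Finset.singleton_injective h2).symm
    rw [hT, hb]

theorem card_D1 (hx : χ x = z) : (ca χ (!z)).card.choose 3 ≤ (Dk χ M x z 1).card := by
  rw [← Finset.card_powersetCard]
  have key : ∀ T ∈ (ca χ (!z)).powersetCard 3,
      (insert x T).filter (fun v => χ v = !z) = T ∧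
      (insert x T).filter (fun v => χ v = z) = {x} ∧ x ∉ T ∧ T.card = 3 := by
    intro T hT
    rw [Finset.mem_powersetCard] at hT
    have hT' : ∀ v ∈ T, χ v = !z := fun v hv => mem_ca.1 (hT.1 hv)
    have h1 := filt_T hT' (b := x) (by rw [hx, Bool.not_not])
    rw [Bool.not_not] at h1
    exact ⟨h1.1, h1.2, fun h => ne_of_col hx (hT' x h) rfl, hT.2⟩
  refine Finset.card_le_card_of_injOn (fun T => insert x T) ?_ ?_
  · intro T hT
    obtain ⟨h1, h2, h3, h4⟩ := key T hT
    have hc : (insert x T).card = 4 := by rw [Finset.card_insert_of_notMem h3, h4]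
    refine Finset.mem_coe.2 (Finset.mem_filter.2 ⟨odd_mem (z := z) hc (Or.inl ?_), ?_, ?_⟩)
    · rw [h2]; rfl
    · exact Finset.mem_insert_self _ _
    · rw [h2]; rfl
  · intro T hT T' hT' h
    obtain ⟨h1, -, -, -⟩ := key T hT
    obtain ⟨h1', -, -, -⟩ := key T' hT'
    dsimp only at h
    rw [← h1, ← h1', h]

/-- the pairs of vertices of the other colour for `x` and `a` -/
def P2 (χ : Fin n → Bool) (M : Fin n → Fin n → Bool) (x : Fin n) (z : Bool) :
    Finset (Fin n × Fin n × Fin n) :=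
  ((ca χ z).erase x ×ˢ (ca χ (!z) ×ˢ ca χ (!z))).filter fun p =>
    (bt M z x p.2.1 ^^ bt M z p.1 p.2.1) = false ∧ (bt M z x p.2.2 ^^ bt M z p.1 p.2.2) = true

theorem card_D2 (hx : χ x = z) : (P2 χ M x z).card ≤ (Dk χ M x z 2).card := by
  have key : ∀ p ∈ P2 χ M x z, χ p.1 = z ∧ x ≠ p.1 ∧ χ p.2.1 = !z ∧ χ p.2.2 = !z ∧
      p.2.1 ≠ p.2.2 ∧ (bt M z x p.2.1 ^^ bt M z p.1 p.2.1) = false ∧
      (bt M z x p.2.2 ^^ bt M z p.1 p.2.2) = true := by
    rintro ⟨a, b, b'⟩ hp
    obtain ⟨h1, h2, h3⟩ := Finset.mem_filter.1 hp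
    rw [Finset.mem_product, Finset.mem_product] at h1
    dsimp only at h1 h2 h3 ⊢
    refine ⟨mem_ca.1 (Finset.mem_of_mem_erase h1.1), (Finset.ne_of_mem_erase h1.1).symm,
      mem_ca.1 h1.2.1, mem_ca.1 h1.2.2, ?_, h2, h3⟩
    rintro rfl
    rw [h2] at h3
    exact absurd h3 (by decide)
  refine Finset.card_le_card_of_injOn (fun p => {x, p.1, p.2.1, p.2.2}) ?_ ?_
  · intro p hp
    obtain ⟨h1, h2, h3, h4, h5, h6, h7⟩ := key p hp
    refine Finset.mem_coe.2 (Finset.mem_filter.2 ⟨(quad_mem h2 h5 hx h1 h3 h4).2 ?_, ?_, ?_⟩)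
    · have e : (bt M z x p.2.1 ^^ bt M z x p.2.2 ^^ (bt M z p.1 p.2.1 ^^ bt M z p.1 p.2.2)) =
          ((bt M z x p.2.1 ^^ bt M z p.1 p.2.1) ^^ (bt M z x p.2.2 ^^ bt M z p.1 p.2.2)) := by
        cases bt M z x p.2.1 <;> cases bt M z x p.2.2 <;> cases bt M z p.1 p.2.1 <;>
          cases bt M z p.1 p.2.2 <;> rfl
      rw [e, h6, h7]
      rfl
    · simp
    · rw [filter_two hx h1 h3 h4, Finset.card_pair h2]
  · rintro ⟨a, b, c⟩ hp ⟨a', b', c'⟩ hp' h
    obtain ⟨h1, h2, h3, h4, h5, h6, h7⟩ := key _ hp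
    obtain ⟨h1', h2', h3', h4', h5', h6', h7'⟩ := key _ hp'
    dsimp only at h h1 h2 h3 h4 h5 h6 h7 h1' h2' h3' h4' h5' h6' h7'
    have f1 := filter_two hx h1 h3 h4
    have f1' := filter_two hx h1' h3' h4'
    rw [h, f1'] at f1
    have ha : a = a' := by
      have : a' ∈ ({x, a} : Finset (Fin n)) := by rw [← f1]; simp
      rw [Finset.mem_insert, Finset.mem_singleton] at this
      rcases this with h | h
      · exact absurd h.symm h2'
      · exact h.symm
    subst ha
    have f2 : ({x, a, b, c} : Finset (Fin n)).filter (fun v => χ v = !z) = {b, c} := by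
      rw [quad_comm]
      exact filter_two h3 h4 (by rw [Bool.not_not]; exact hx) (by rw [Bool.not_not]; exact h1)
    have f2' : ({x, a, b', c'} : Finset (Fin n)).filter (fun v => χ v = !z) = {b', c'} := by
      rw [quad_comm]
      exact filter_two h3' h4' (by rw [Bool.not_not]; exact hx) (by rw [Bool.not_not]; exact h1)
    rw [h, f2'] at f2
    have hb : b = b' := by
      have : b ∈ ({b', c'} : Finset (Fin n)) := by rw [f2]; simp
      rw [Finset.mem_insert, Finset.mem_singleton] at this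
      rcases this with h | h
      · exact h
      · rw [h, h7'] at h6
        exact absurd h6 (by decide)
    have hc : c = c' := by
      have : c ∈ ({b', c'} : Finset (Fin n)) := by rw [f2]; simp
      rw [Finset.mem_insert, Finset.mem_singleton] at this
      rcases this with h | h
      · rw [h, h6'] at h7
        exact absurd h7 (by decide)
      · exact h
    rw [hb, hc]

/-- the number of pairs with different bits -/
theorem pq_count (W : Finset (Fin n)) (c : Fin n → Bool) :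
    4 * (((W.filter fun b => c b = false).card * (W.filter fun b => c b = true).card : ℕ) : ℝ) =
      (W.card : ℝ) ^ 2 - (∑ b ∈ W, ((sg (c b) : ℤ) : ℝ)) ^ 2 := by
  have h1 : ((W.filter fun b => c b = false).card : ℝ) + (W.filter fun b => c b = true).card =
      W.card := by
    rw [← Finset.card_filter_add_card_filter_not (s := W) (fun b => c b = false)]
    push_cast
    congr 3
    ext v
    simp
  have h2 : ∑ b ∈ W, ((sg (c b) : ℤ) : ℝ) =
      ((W.filter fun b => c b = false).card : ℝ) - (W.filter fun b => c b = true).card := by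
    rw [← Finset.sum_filter_add_sum_filter_not W (fun b => c b = false)]
    have e1 : ∑ b ∈ W.filter (fun b => c b = false), ((sg (c b) : ℤ) : ℝ) =
        ((W.filter fun b => c b = false).card : ℝ) := by
      rw [Finset.sum_congr rfl (g := fun _ => (1 : ℝ)) (fun b hb => by
        rw [(Finset.mem_filter.1 hb).2]; simp [sg])]
      simp
    have e3 : W.filter (fun b => ¬ c b = false) = W.filter fun b => c b = true := by
      ext v
      simp
    have e2 : ∑ b ∈ W.filter (fun b => ¬ c b = false), ((sg (c b) : ℤ) : ℝ) =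
        -((W.filter fun b => c b = true).card : ℝ) := by
      rw [e3, Finset.sum_congr rfl (g := fun _ => (-1 : ℝ)) (fun b hb => by
        rw [(Finset.mem_filter.1 hb).2]; simp [sg])]
      simp
    rw [e1, e2]
    ring
  rw [h2, ← h1]
  push_cast
  ring

theorem card_P2 (hx : χ x = z) : 4 * ((P2 χ M x z).card : ℝ) =
    (((ca χ z).card : ℝ) - 1) * ((ca χ (!z)).card : ℝ) ^ 2 -
      ∑ a ∈ (ca χ z).erase x, (∑ b ∈ ca χ (!z), ss M z x b * ss M z a b) ^ 2 := by
  have hxU : x ∈ ca χ z := mem_ca.2 hx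
  have h1 : (P2 χ M x z).card = ∑ a ∈ (ca χ z).erase x,
      ((ca χ (!z)).filter fun b => (bt M z x b ^^ bt M z a b) = false).card *
        ((ca χ (!z)).filter fun b => (bt M z x b ^^ bt M z a b) = true).card := by
    unfold P2
    rw [Finset.card_filter, Finset.sum_product]
    refine Finset.sum_congr rfl fun a _ => ?_
    rw [Finset.card_filter, Finset.card_filter, Finset.sum_mul_sum, Finset.sum_product]
    refine Finset.sum_congr rfl fun b _ => Finset.sum_congr rfl fun b' _ => ?_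
    by_cases h : (bt M z x b ^^ bt M z a b) = false
    · by_cases h' : (bt M z x b' ^^ bt M z a b') = true
      · rw [if_pos ⟨h, h'⟩, if_pos h, if_pos h', mul_one]
      · rw [if_neg fun h2 => h' h2.2, if_neg h', mul_zero]
    · rw [if_neg fun h2 => h h2.1, if_neg h, zero_mul]
  have h2 : (((ca χ z).card : ℝ) - 1) = (((ca χ z).erase x).card : ℝ) := by
    rw [Finset.card_erase_of_mem hxU, Nat.cast_sub (Finset.card_pos.2 ⟨x, hxU⟩)]
    push_cast
    ring
  rw [h1, h2, Nat.cast_sum, Finset.mul_sum, ← nsmul_eq_mul, ← Finset.sum_const,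
    ← Finset.sum_sub_distrib]
  refine Finset.sum_congr rfl fun a _ => ?_
  rw [pq_count]
  congr 2
  refine Finset.sum_congr rfl fun b _ => ?_
  unfold ss
  rw [sg_xor]
  push_cast
  ring

end vertex

/-! ### the degree of a pair -/

section pair

variable {x y : Fin n} {z : Bool}

/-- the members at `x` and `y` with three vertices of the colour `z` -/
theorem card_E3 (hx : χ x = z) (hy : χ y = !z) : ((ca χ z).card - 1).choose 2 ≤
    ((gir χ M (fun _ => false) (fun _ => false)).filter fun Q =>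
      (x ∈ Q ∧ y ∈ Q) ∧ (Q.filter fun v => χ v = z).card = 3).card := by
  have hxU : x ∈ ca χ z := mem_ca.2 hx
  rw [← Finset.card_erase_of_mem hxU, ← Finset.card_powersetCard]
  have key : ∀ T ∈ ((ca χ z).erase x).powersetCard 2,
      (insert y (insert x T)).filter (fun v => χ v = z) = insert x T ∧ x ∉ T ∧
      (insert x T).card = 3 ∧ y ∉ insert x T := by
    intro T hT
    rw [Finset.mem_powersetCard] at hT
    have hxT : x ∉ T := fun h => Finset.notMem_erase x _ (hT.1 h)
    have hT' : ∀ v ∈ insert x T, χ v = z := by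
      intro v hv
      rcases Finset.mem_insert.1 hv with h | h
      · rw [h, hx]
      · exact mem_ca.1 (Finset.mem_of_mem_erase (hT.1 h))
    exact ⟨(filt_T hT' hy).1, hxT, by rw [Finset.card_insert_of_notMem hxT, hT.2],
      fun h => ne_of_col (hT' y h) hy rfl⟩
  refine Finset.card_le_card_of_injOn (fun T => insert y (insert x T)) ?_ ?_
  · intro T hT
    obtain ⟨h1, h2, h3, h4⟩ := key T hT
    have hc : (insert y (insert x T)).card = 4 := by rw [Finset.card_insert_of_notMem h4, h3]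
    refine Finset.mem_coe.2 (Finset.mem_filter.2 ⟨odd_mem (z := z) hc (Or.inr ?_), ⟨?_, ?_⟩, ?_⟩)
    · rw [h1, h3]
    · exact Finset.mem_insert_of_mem (Finset.mem_insert_self _ _)
    · exact Finset.mem_insert_self _ _
    · rw [h1, h3]
  · intro T hT T' hT' h
    obtain ⟨h1, h2, -, -⟩ := key T hT
    obtain ⟨h1', h2', -, -⟩ := key T' hT'
    dsimp only at h
    rw [h, h1'] at h1
    rw [← Finset.erase_insert h2, ← Finset.erase_insert h2', h1]

/-- the members at `x` and `y` with two vertices of each colour -/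
theorem card_E2 (hx : χ x = z) (hy : χ y = !z) :
    (((ca χ z).erase x ×ˢ (ca χ (!z)).erase y).filter fun p =>
      (bt M z x y ^^ bt M z x p.2 ^^ (bt M z p.1 y ^^ bt M z p.1 p.2)) = true).card ≤
    ((gir χ M (fun _ => false) (fun _ => false)).filter fun Q =>
      (x ∈ Q ∧ y ∈ Q) ∧ (Q.filter fun v => χ v = z).card = 2).card := by
  refine Finset.card_le_card_of_injOn (fun p => {x, p.1, y, p.2}) ?_ ?_
  · rintro ⟨a, b⟩ hp
    obtain ⟨h1, h2⟩ := Finset.mem_filter.1 (Finset.mem_coe.1 hp)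
    rw [Finset.mem_product] at h1
    dsimp only at h1 h2 ⊢
    have ha : χ a = z := mem_ca.1 (Finset.mem_of_mem_erase h1.1)
    have hb : χ b = !z := mem_ca.1 (Finset.mem_of_mem_erase h1.2)
    have hxa : x ≠ a := (Finset.ne_of_mem_erase h1.1).symm
    have hyb : y ≠ b := (Finset.ne_of_mem_erase h1.2).symm
    refine Finset.mem_coe.2 (Finset.mem_filter.2
      ⟨(quad_mem hxa hyb hx ha hy hb).2 h2, ⟨?_, ?_⟩, ?_⟩)
    · simp
    · simp
    · rw [filter_two hx ha hy hb, Finset.card_pair hxa]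
  · rintro ⟨a, b⟩ hp ⟨a', b'⟩ hp' h
    obtain ⟨h1, -⟩ := Finset.mem_filter.1 (Finset.mem_coe.1 hp)
    obtain ⟨h1', -⟩ := Finset.mem_filter.1 (Finset.mem_coe.1 hp')
    rw [Finset.mem_product] at h1 h1'
    dsimp only at h h1 h1'
    have ha : χ a = z := mem_ca.1 (Finset.mem_of_mem_erase h1.1)
    have hb : χ b = !z := mem_ca.1 (Finset.mem_of_mem_erase h1.2)
    have ha' : χ a' = z := mem_ca.1 (Finset.mem_of_mem_erase h1'.1)
    have hb' : χ b' = !z := mem_ca.1 (Finset.mem_of_mem_erase h1'.2)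
    have hxa : x ≠ a := (Finset.ne_of_mem_erase h1.1).symm
    have hyb : y ≠ b := (Finset.ne_of_mem_erase h1.2).symm
    have m1 : a ∈ ({x, a', y, b'} : Finset (Fin n)) := by rw [← h]; simp
    have m2 : b ∈ ({x, a', y, b'} : Finset (Fin n)) := by rw [← h]; simp
    simp only [Finset.mem_insert, Finset.mem_singleton] at m1 m2
    have e1 : a = a' := by
      rcases m1 with m | m | m | m
      · exact absurd m.symm hxa
      · exact m
      · rw [m] at ha
        exact absurd rfl (ne_of_col ha hy)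
      · rw [m] at ha
        exact absurd rfl (ne_of_col ha hb')
    have e2 : b = b' := by
      rcases m2 with m | m | m | m
      · rw [m] at hb
        exact absurd rfl (ne_of_col hx hb)
      · rw [m] at hb
        exact absurd rfl (ne_of_col ha' hb)
      · exact absurd m.symm hyb
      · exact m
    rw [e1, e2]

/-- the number of the positions with bit `true` -/
theorem bit_count {ι : Type*} (S : Finset ι) (c : ι → Bool) :
    2 * ((S.filter fun b => c b = true).card : ℝ) =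
      (S.card : ℝ) - ∑ b ∈ S, ((sg (c b) : ℤ) : ℝ) := by
  rw [Finset.card_filter, Finset.card_eq_sum_ones]
  push_cast
  rw [Finset.mul_sum, ← Finset.sum_sub_distrib]
  refine Finset.sum_congr rfl fun b _ => ?_
  cases c b <;> simp [sg] <;> norm_num

theorem gir_col {Q : Finset (Fin n)} (hQ : Q ∈ gir χ M (fun _ => false) (fun _ => false)) :
    (Q.filter fun v => χ v = z).card + (Q.filter fun v => χ v = !z).card = 4 := by
  rw [← (mem_gir0.1 hQ).1, ← Finset.card_filter_add_card_filter_not (s := Q) (fun v => χ v = z)]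
  congr 2
  ext v
  rw [Finset.mem_filter, Finset.mem_filter]
  have : χ v = !z ↔ ¬ χ v = z := by
    cases χ v <;> cases z <;> simp
  rw [this]

theorem pair_sum (z : Bool) :
    ((gir χ M (fun _ => false) (fun _ => false)).filter fun Q =>
      (x ∈ Q ∧ y ∈ Q) ∧ (Q.filter fun v => χ v = z).card = 3).card +
    ((gir χ M (fun _ => false) (fun _ => false)).filter fun Q =>
      (y ∈ Q ∧ x ∈ Q) ∧ (Q.filter fun v => χ v = !z).card = 3).card +
    ((gir χ M (fun _ => false) (fun _ => false)).filter fun Q =>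
      (x ∈ Q ∧ y ∈ Q) ∧ (Q.filter fun v => χ v = z).card = 2).card ≤
    ((gir χ M (fun _ => false) (fun _ => false)).filter fun Q => x ∈ Q ∧ y ∈ Q).card := by
  rw [← Finset.card_union_of_disjoint, ← Finset.card_union_of_disjoint]
  · refine Finset.card_le_card fun Q hQ => ?_
    rw [Finset.mem_union, Finset.mem_union] at hQ
    rcases hQ with (hQ | hQ) | hQ
    · have := Finset.mem_filter.1 hQ
      exact Finset.mem_filter.2 ⟨this.1, this.2.1⟩
    · have := Finset.mem_filter.1 hQ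
      exact Finset.mem_filter.2 ⟨this.1, this.2.1.2, this.2.1.1⟩
    · have := Finset.mem_filter.1 hQ
      exact Finset.mem_filter.2 ⟨this.1, this.2.1⟩
  · rw [Finset.disjoint_left]
    intro Q h1 h2
    have h2' := Finset.mem_filter.1 h2
    rw [Finset.mem_union] at h1
    have h3 := gir_col (z := z) h2'.1
    rcases h1 with h1 | h1
    · have h1' := (Finset.mem_filter.1 h1).2.2
      omega
    · have h1' := (Finset.mem_filter.1 h1).2.2
      omega
  · rw [Finset.disjoint_left]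
    intro Q h1 h2
    have h1' := Finset.mem_filter.1 h1
    have h3 := gir_col (z := z) h1'.1
    have h4 := h1'.2.2
    have h5 := (Finset.mem_filter.1 h2).2.2
    omega

theorem ss_abs (M : Fin n → Fin n → Bool) (z : Bool) (u v : Fin n) : |ss M z u v| = 1 := by
  unfold ss sg
  split_ifs <;> norm_num

/-- the count of the members at `x` and `y` with two vertices of each colour -/
theorem card_E2_ge (hx : χ x = z) (hy : χ y = !z) {B : ℝ}
    (hB : |∑ a ∈ ca χ z, ∑ b ∈ ca χ (!z), ss M z x b * ss M z a y * ss M z a b| ≤ B) :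
    (((ca χ z).card : ℝ) - 1) * (((ca χ (!z)).card : ℝ) - 1) - B - (ca χ z).card -
        (ca χ (!z)).card ≤
    2 * ((((ca χ z).erase x ×ˢ (ca χ (!z)).erase y).filter fun p =>
      (bt M z x y ^^ bt M z x p.2 ^^ (bt M z p.1 y ^^ bt M z p.1 p.2)) = true).card : ℝ) := by
  have hxU : x ∈ ca χ z := mem_ca.2 hx
  have hyW : y ∈ ca χ (!z) := mem_ca.2 hy
  have c1 : (((ca χ z).erase x).card : ℝ) = ((ca χ z).card : ℝ) - 1 := by
    rw [Finset.card_erase_of_mem hxU, Nat.cast_sub (Finset.card_pos.2 ⟨x, hxU⟩)]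
    push_cast
    ring
  have c2 : (((ca χ (!z)).erase y).card : ℝ) = ((ca χ (!z)).card : ℝ) - 1 := by
    rw [Finset.card_erase_of_mem hyW, Nat.cast_sub (Finset.card_pos.2 ⟨y, hyW⟩)]
    push_cast
    ring
  rw [bit_count _ (fun p : Fin n × Fin n =>
    (bt M z x y ^^ bt M z x p.2 ^^ (bt M z p.1 y ^^ bt M z p.1 p.2))), Finset.card_product]
  push_cast
  rw [c1, c2, Finset.sum_product]
  have e1 : ∑ a ∈ (ca χ z).erase x, ∑ b ∈ (ca χ (!z)).erase y,
      ((sg (bt M z x y ^^ bt M z x b ^^ (bt M z a y ^^ bt M z a b)) : ℤ) : ℝ) =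
      ss M z x y * ∑ a ∈ (ca χ z).erase x, ∑ b ∈ (ca χ (!z)).erase y,
        ss M z x b * ss M z a y * ss M z a b := by
    rw [Finset.mul_sum]
    refine Finset.sum_congr rfl fun a _ => ?_
    rw [Finset.mul_sum]
    refine Finset.sum_congr rfl fun b _ => ?_
    unfold ss
    rw [sg_xor, sg_xor, sg_xor]
    push_cast
    ring
  have e2 : ∑ a ∈ ca χ z, ∑ b ∈ ca χ (!z), ss M z x b * ss M z a y * ss M z a b =
      ∑ a ∈ (ca χ z).erase x, ∑ b ∈ (ca χ (!z)).erase y,
        ss M z x b * ss M z a y * ss M z a b +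
      ∑ a ∈ (ca χ z).erase x, ss M z x y * ss M z a y * ss M z a y +
      ∑ b ∈ ca χ (!z), ss M z x b * ss M z x y * ss M z x b := by
    rw [← Finset.sum_erase_add _ _ hxU, ← Finset.sum_add_distrib]
    congr 1
    refine Finset.sum_congr rfl fun a _ => ?_
    rw [← Finset.sum_erase_add _ _ hyW]
  have b1 : |∑ a ∈ (ca χ z).erase x, ss M z x y * ss M z a y * ss M z a y| ≤
      ((ca χ z).card : ℝ) := by
    refine (Finset.abs_sum_le_sum_abs _ _).trans ?_
    have : ∀ a ∈ (ca χ z).erase x, |ss M z x y * ss M z a y * ss M z a y| = 1 := by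
      intro a _
      rw [abs_mul, abs_mul, ss_abs, ss_abs, mul_one, mul_one]
    rw [Finset.sum_congr rfl this, Finset.sum_const, nsmul_eq_mul, mul_one, c1]
    linarith
  have b2 : |∑ b ∈ ca χ (!z), ss M z x b * ss M z x y * ss M z x b| ≤
      ((ca χ (!z)).card : ℝ) := by
    refine (Finset.abs_sum_le_sum_abs _ _).trans ?_
    have : ∀ b ∈ ca χ (!z), |ss M z x b * ss M z x y * ss M z x b| = 1 := by
      intro a _
      rw [abs_mul, abs_mul, ss_abs, ss_abs, mul_one, mul_one]
    rw [Finset.sum_congr rfl this, Finset.sum_const, nsmul_eq_mul, mul_one]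
  rw [e1]
  set A2 := ∑ a ∈ (ca χ z).erase x, ∑ b ∈ (ca χ (!z)).erase y,
        ss M z x b * ss M z a y * ss M z a b with hA2
  have b3 : |A2| ≤ B + (ca χ z).card + (ca χ (!z)).card := by
    rw [e2] at hB
    have h1 := abs_le.1 hB
    have h2 := abs_le.1 b1
    have h3 := abs_le.1 b2
    rw [abs_le]
    constructor <;> linarith [h1.1, h1.2, h2.1, h2.2, h3.1, h3.2]
  have b4 : |ss M z x y * A2| ≤ B + (ca χ z).card + (ca χ (!z)).card := by
    rw [abs_mul, ss_abs, one_mul]
    exact b3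
  linarith [(abs_le.1 b4).2]

end pair

/-! ### the estimates -/

section est

theorem choose_two_real (m : ℕ) (hm : 1 ≤ m) :
    (((m - 1).choose 2 : ℕ) : ℝ) = ((m : ℝ) - 1) * ((m : ℝ) - 2) / 2 := by
  rw [Nat.cast_choose_two, Nat.cast_sub hm]
  push_cast
  ring

theorem choose_three_real (m : ℕ) :
    ((m.choose 3 : ℕ) : ℝ) = (m : ℝ) * ((m : ℝ) - 1) * ((m : ℝ) - 2) / 6 := by
  have h := Nat.descFactorial_eq_factorial_mul_choose m 3
  have h2 : ((m.descFactorial 3 : ℕ) : ℝ) = (m : ℝ) * ((m : ℝ) - 1) * ((m : ℝ) - 2) := by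
    rcases m with _ | _ | m
    · simp
    · simp [Nat.descFactorial]
    · rw [Nat.descFactorial_succ, Nat.descFactorial_succ, Nat.descFactorial_succ,
        Nat.descFactorial_zero]
      have e1 : m + 1 + 1 - 2 = m := by omega
      have e2 : m + 1 + 1 - 1 = m + 1 := by omega
      have e3 : m + 1 + 1 - 0 = m + 2 := by omega
      rw [e1, e2, e3]
      push_cast
      ring
  have h3 : ((m.descFactorial 3 : ℕ) : ℝ) = 6 * ((m.choose 3 : ℕ) : ℝ) := by
    rw [h]
    push_cast
    have : ((3 : ℕ).factorial : ℝ) = 6 := by norm_num [Nat.factorial]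
    rw [this]
  linarith

theorem ca_card_add (z : Bool) :
    ((ca χ z).card : ℝ) + ((ca χ (!z)).card : ℝ) = (n : ℝ) := by
  have h1 : (ca χ z).card + (ca χ (!z)).card = n := by
    have h2 := Finset.card_filter_add_card_filter_not (s := (univ : Finset (Fin n)))
      (fun v => χ v = z)
    rw [Finset.card_univ, Fintype.card_fin] at h2
    have h3 : (ca χ (!z)) = univ.filter fun v => ¬ χ v = z := by
      ext v
      rw [mem_ca, Finset.mem_filter]
      constructor
      · intro h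
        exact ⟨Finset.mem_univ _, by rw [h]; exact (bool_ne_not z).symm⟩
      · rintro ⟨-, h⟩
        revert h
        cases χ v <;> cases z <;> simp
    rw [h3]
    exact h2
  exact_mod_cast h1

/-- the size of one class from the size of the other one -/
theorem ca_near {η : ℝ} (h : |((ca χ true).card : ℝ) - (n : ℝ) / 2| ≤ η * n) (z : Bool) :
    |((ca χ z).card : ℝ) - (n : ℝ) / 2| ≤ η * n := by
  cases z
  · have h1 := ca_card_add (χ := χ) false
    rw [Bool.not_false] at h1
    have e : ((ca χ false).card : ℝ) - (n : ℝ) / 2 = -(((ca χ true).card : ℝ) - (n : ℝ) / 2) := by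
      linarith
    rw [e, abs_neg]
    exact h
  · exact h

variable {x y : Fin n} {z : Bool}

theorem row_bound {t : ℝ} (ht : 0 ≤ t) (hsq : VS.sq χ M ≤ t ^ 4 * (n : ℝ) ^ 4) (x : Fin n)
    (z : Bool) : ∑ a ∈ ca χ z, (∑ b ∈ ca χ (!z), ss M z x b * ss M z a b) ^ 2 ≤
      t ^ 2 * (n : ℝ) ^ 3 := by
  have h1 := row_sq_le (U := ca χ z) (W := ca χ (!z)) (s := ss M z) (ss_sq M z) x
  rw [sq_eq] at h1
  have h2 := ca_card_add (χ := χ) z
  have h3 : ((ca χ (!z)).card : ℝ) ≤ n := by
    have : (0 : ℝ) ≤ ((ca χ z).card : ℝ) := Nat.cast_nonneg _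
    linarith
  have h4 : (0 : ℝ) ≤ ((ca χ (!z)).card : ℝ) := Nat.cast_nonneg _
  have h5 : ((ca χ (!z)).card : ℝ) ^ 2 ≤ (n : ℝ) ^ 2 := pow_le_pow_left₀ h4 h3 2
  have h6 : ((ca χ (!z)).card : ℝ) ^ 2 * VS.sq χ M ≤ (n : ℝ) ^ 2 * (t ^ 4 * (n : ℝ) ^ 4) := by
    refine (mul_le_mul_of_nonneg_left hsq (by positivity)).trans ?_
    exact mul_le_mul_of_nonneg_right h5 (by positivity)
  have h7 : (∑ a ∈ ca χ z, (∑ b ∈ ca χ (!z), ss M z x b * ss M z a b) ^ 2) ^ 2 ≤
      (t ^ 2 * (n : ℝ) ^ 3) ^ 2 := by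
    refine h1.trans (h6.trans (le_of_eq ?_))
    ring
  exact le_of_sq_le_sq h7 (by positivity)

theorem bil_bound {t : ℝ} (ht : 0 ≤ t) (hsq : VS.sq χ M ≤ t ^ 4 * (n : ℝ) ^ 4) (x y : Fin n)
    (z : Bool) : |∑ a ∈ ca χ z, ∑ b ∈ ca χ (!z), ss M z x b * ss M z a y * ss M z a b| ≤
      t * (n : ℝ) ^ 2 := by
  have h1 := bil_sq_le (U := ca χ z) (W := ca χ (!z)) (s := ss M z) (ss_sq M z) x y
  have h2 := ca_card_add (χ := χ) z
  have h3 : ((ca χ z).card : ℝ) ≤ n := by
    have : (0 : ℝ) ≤ ((ca χ (!z)).card : ℝ) := Nat.cast_nonneg _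
    linarith
  have h4 := row_bound ht hsq x z
  have h5 : (0 : ℝ) ≤ ∑ a ∈ ca χ z, (∑ b ∈ ca χ (!z), ss M z x b * ss M z a b) ^ 2 :=
    Finset.sum_nonneg fun _ _ => sq_nonneg _
  have h6 : (∑ a ∈ ca χ z, ∑ b ∈ ca χ (!z), ss M z x b * ss M z a y * ss M z a b) ^ 2 ≤
      (t * (n : ℝ) ^ 2) ^ 2 := by
    refine h1.trans ?_
    calc ((ca χ z).card : ℝ) * ∑ a ∈ ca χ z, (∑ b ∈ ca χ (!z), ss M z x b * ss M z a b) ^ 2
        ≤ (n : ℝ) * (t ^ 2 * (n : ℝ) ^ 3) := mul_le_mul h3 h4 h5 (Nat.cast_nonneg _)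
      _ = (t * (n : ℝ) ^ 2) ^ 2 := by ring
  exact abs_le_of_sq_le_sq h6 (by positivity)

/-- the degree of a vertex -/
theorem deg_vertex {t η : ℝ} (ht : 0 ≤ t) (hη : 0 ≤ η) (hη1 : η ≤ 1)
    (hcl : |((ca χ true).card : ℝ) - (n : ℝ) / 2| ≤ η * n)
    (hsq : VS.sq χ M ≤ t ^ 4 * (n : ℝ) ^ 4) (x : Fin n) :
    (11 / 96 - η - t ^ 2 / 4) * (n : ℝ) ^ 3 - 3 * (n : ℝ) ^ 2 ≤
      (((gir χ M (fun _ => false) (fun _ => false)).filter fun Q => x ∈ Q).card : ℝ) := by
  obtain ⟨z, hx⟩ : ∃ z, χ x = z := ⟨_, rfl⟩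
  have hxU : x ∈ ca χ z := mem_ca.2 hx
  have h1 := Dk_sum (χ := χ) (M := M) (x := x) z
  have h2 := card_D3 (M := M) hx
  have h3 := card_D1 (M := M) hx
  have h4 := card_D2 (M := M) hx
  have h5 := card_P2 (M := M) hx
  have h6 := row_bound ht hsq x z
  have h7 : ∑ a ∈ (ca χ z).erase x, (∑ b ∈ ca χ (!z), ss M z x b * ss M z a b) ^ 2 ≤
      ∑ a ∈ ca χ z, (∑ b ∈ ca χ (!z), ss M z x b * ss M z a b) ^ 2 :=
    Finset.sum_le_sum_of_subset_of_nonneg (Finset.erase_subset _ _) fun _ _ _ => sq_nonneg _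
  have hu1 : 1 ≤ (ca χ z).card := Finset.card_pos.2 ⟨x, hxU⟩
  have h2' : (((((ca χ z).card - 1).choose 2 : ℕ) : ℝ)) * ((ca χ (!z)).card : ℝ) ≤
      ((Dk χ M x z 3).card : ℝ) := by exact_mod_cast h2
  have h3' : (((ca χ (!z)).card.choose 3 : ℕ) : ℝ) ≤ ((Dk χ M x z 1).card : ℝ) := by
    exact_mod_cast h3
  have h4' : ((P2 χ M x z).card : ℝ) ≤ ((Dk χ M x z 2).card : ℝ) := by exact_mod_cast h4
  have h1' : ((Dk χ M x z 3).card : ℝ) + (Dk χ M x z 1).card + (Dk χ M x z 2).card ≤
      (((gir χ M (fun _ => false) (fun _ => false)).filter fun Q => x ∈ Q).card : ℝ) := by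
    exact_mod_cast h1
  rw [choose_two_real _ hu1] at h2'
  rw [choose_three_real] at h3'
  have hz := ca_near hcl z
  have hs := ca_card_add (χ := χ) z
  set u : ℝ := ((ca χ z).card : ℝ) with hu
  set w : ℝ := ((ca χ (!z)).card : ℝ) with hw
  obtain ⟨e, he⟩ : ∃ e : ℝ, e = u - (n : ℝ) / 2 := ⟨_, rfl⟩
  have hu' : u = (n : ℝ) / 2 + e := by linarith
  have hw' : w = (n : ℝ) / 2 - e := by linarith
  rw [← he] at hz
  have hn0 : (0 : ℝ) ≤ n := Nat.cast_nonneg _
  have hu0 : 0 ≤ u := Nat.cast_nonneg _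
  have hw0 : 0 ≤ w := Nat.cast_nonneg _
  have hun : u ≤ n := by linarith
  have hwn : w ≤ n := by linarith
  -- the main term
  have m1 : (11 / 96 - η) * (n : ℝ) ^ 3 ≤ u ^ 2 * w / 2 + w ^ 3 / 6 + u * w ^ 2 / 4 := by
    have e1 : u ^ 2 * w / 2 + w ^ 3 / 6 + u * w ^ 2 / 4 =
        11 / 96 * (n : ℝ) ^ 3 - (n : ℝ) ^ 2 * e / 16 - n * e ^ 2 / 8 - 5 / 12 * e ^ 3 := by
      rw [hu', hw']
      ring
    rw [e1]
    have habs := abs_le.1 hz
    have hen : η * n ≤ n := by nlinarith
    have he2 : e ^ 2 ≤ (η * n) * n := by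
      have : e ^ 2 ≤ (η * n) ^ 2 := sq_le_sq' habs.1 habs.2
      nlinarith [mul_nonneg hη hn0]
    have he1 : (n : ℝ) ^ 2 * e ≤ (n : ℝ) ^ 2 * (η * n) :=
      mul_le_mul_of_nonneg_left habs.2 (by positivity)
    have he3 : e ^ 3 ≤ (n : ℝ) ^ 2 * (η * n) := by
      have hen' : e ≤ n := habs.2.trans hen
      have : e ^ 3 ≤ e ^ 2 * n := by
        have h : e ^ 3 = e ^ 2 * e := by ring
        rw [h]
        exact mul_le_mul_of_nonneg_left hen' (sq_nonneg e)
      have h' : e ^ 2 * n ≤ (η * n) * n * n := mul_le_mul_of_nonneg_right he2 hn0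
      calc e ^ 3 ≤ e ^ 2 * n := this
        _ ≤ (η * n) * n * n := h'
        _ = (n : ℝ) ^ 2 * (η * n) := by ring
    have he2' : (n : ℝ) * e ^ 2 ≤ n * ((η * n) * n) := mul_le_mul_of_nonneg_left he2 hn0
    have hηn : 0 ≤ η * (n : ℝ) ^ 3 := by positivity
    nlinarith
  have m2 : u * w ≤ (n : ℝ) ^ 2 := by nlinarith
  have m3 : w ^ 2 ≤ (n : ℝ) ^ 2 := pow_le_pow_left₀ hw0 hwn 2
  have r1 : (u - 1) * (u - 2) / 2 * w = u ^ 2 * w / 2 - 3 / 2 * (u * w) + w := by ring
  have r2 : w * (w - 1) * (w - 2) / 6 = w ^ 3 / 6 - w ^ 2 / 2 + w / 3 := by ring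
  rw [r1] at h2'
  rw [r2] at h3'
  have r3 : (u - 1) * w ^ 2 = u * w ^ 2 - w ^ 2 := by ring
  rw [r3] at h5
  nlinarith

/-- the degree of a pair -/
theorem deg_pair {t η : ℝ} (ht : 0 ≤ t)
    (hcl : |((ca χ true).card : ℝ) - (n : ℝ) / 2| ≤ η * n)
    (hsq : VS.sq χ M ≤ t ^ 4 * (n : ℝ) ^ 4) {a b : Fin n} (ha : χ a = false) (hb : χ b = true) :
    (3 / 8 - t / 2) * (n : ℝ) ^ 2 - 3 * n ≤
      (((gir χ M (fun _ => false) (fun _ => false)).filter fun Q => a ∈ Q ∧ b ∈ Q).card : ℝ) := by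
  have hb' : χ b = !false := by rw [Bool.not_false]; exact hb
  have ha' : χ a = !true := by rw [Bool.not_true]; exact ha
  have haU : a ∈ ca χ false := mem_ca.2 ha
  have hbW : b ∈ ca χ true := mem_ca.2 hb
  have h1 := pair_sum (χ := χ) (M := M) (x := a) (y := b) false
  have h2 := card_E3 (M := M) ha hb'
  have h3 := card_E3 (M := M) hb ha'
  have h4 := card_E2 (M := M) ha hb'
  have h5 := card_E2_ge (M := M) ha hb' (bil_bound ht hsq a b false)
  rw [Bool.not_false] at h1 h4 h5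
  have hu1 : 1 ≤ (ca χ false).card := Finset.card_pos.2 ⟨a, haU⟩
  have hw1 : 1 ≤ (ca χ true).card := Finset.card_pos.2 ⟨b, hbW⟩
  have hs := ca_card_add (χ := χ) false
  rw [Bool.not_false] at hs
  set G := gir χ M (fun _ => false) (fun _ => false) with hG
  set X3 := (G.filter fun Q => (a ∈ Q ∧ b ∈ Q) ∧ (Q.filter fun v => χ v = false).card = 3).card
    with hX3
  set X1 := (G.filter fun Q => (b ∈ Q ∧ a ∈ Q) ∧ (Q.filter fun v => χ v = true).card = 3).card
    with hX1
  set X2 := (G.filter fun Q => (a ∈ Q ∧ b ∈ Q) ∧ (Q.filter fun v => χ v = false).card = 2).card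
    with hX2
  set X := (G.filter fun Q => a ∈ Q ∧ b ∈ Q).card with hX
  set P := (((ca χ false).erase a ×ˢ (ca χ true).erase b).filter fun p =>
      (bt M false a b ^^ bt M false a p.2 ^^ (bt M false p.1 b ^^ bt M false p.1 p.2)) = true).card
    with hP
  have h1' : (X3 : ℝ) + X1 + X2 ≤ X := by exact_mod_cast h1
  have h2' : ((((ca χ false).card - 1).choose 2 : ℕ) : ℝ) ≤ X3 := by exact_mod_cast h2
  have h3' : ((((ca χ true).card - 1).choose 2 : ℕ) : ℝ) ≤ X1 := by exact_mod_cast h3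
  have h4' : (P : ℝ) ≤ X2 := by exact_mod_cast h4
  rw [choose_two_real _ hu1] at h2'
  rw [choose_two_real _ hw1] at h3'
  set u : ℝ := ((ca χ false).card : ℝ) with hu
  set w : ℝ := ((ca χ true).card : ℝ) with hw
  have hw' : w = (n : ℝ) - u := by linarith
  rw [hw'] at h3' h5
  have hn0 : (0 : ℝ) ≤ n := Nat.cast_nonneg _
  nlinarith [sq_nonneg (u - (n : ℝ) / 2)]

/-- **(q3) and (q4) from (q1) and (q2)** -/
theorem q34 (τ : ℝ) (hτ : 0 < τ) : ∃ η : ℝ, 0 < η ∧ ∃ N : ℕ, ∀ n : ℕ, N ≤ n →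
    ∀ (χ : Fin n → Bool) (M : Fin n → Fin n → Bool),
      |((ca χ true).card : ℝ) - (n : ℝ) / 2| ≤ η * n → VS.sq χ M ≤ η * (n : ℝ) ^ 4 →
      (∀ x, (11 / 96 - τ) * (n : ℝ) ^ 3 ≤
        (((gir χ M (fun _ => false) (fun _ => false)).filter fun Q => x ∈ Q).card : ℝ)) ∧
      (∀ a b, χ a = false → χ b = true → (3 / 8 - τ) * (n : ℝ) ^ 2 ≤
        (((gir χ M (fun _ => false) (fun _ => false)).filter
          fun Q => a ∈ Q ∧ b ∈ Q).card : ℝ)) := by
  set t : ℝ := min τ 1 with ht
  have ht0 : 0 < t := lt_min hτ one_pos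
  have ht1 : t ≤ 1 := min_le_right _ _
  have htτ : t ≤ τ := min_le_left _ _
  refine ⟨min (t / 4) (t ^ 4), lt_min (by positivity) (by positivity), ⌈12 / τ⌉₊ + 1, ?_⟩
  intro n hn χ M hcl hsq
  set η : ℝ := min (t / 4) (t ^ 4) with hη
  have hη0 : 0 < η := lt_min (by positivity) (by positivity)
  have hηt : η ≤ t / 4 := min_le_left _ _
  have hη4 : η ≤ t ^ 4 := min_le_right _ _
  have hnτ : 12 / τ ≤ n := by
    have h1 : (12 / τ : ℝ) ≤ (⌈12 / τ⌉₊ : ℝ) := Nat.le_ceil _
    have h2 : ((⌈12 / τ⌉₊ + 1 : ℕ) : ℝ) ≤ n := by exact_mod_cast hn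
    push_cast at h2
    linarith
  have hn0 : (0 : ℝ) ≤ n := Nat.cast_nonneg _
  have hnτ' : 12 ≤ τ * n := by
    rw [div_le_iff₀ hτ] at hnτ
    linarith
  have hsq' : VS.sq χ M ≤ t ^ 4 * (n : ℝ) ^ 4 :=
    hsq.trans (mul_le_mul_of_nonneg_right hη4 (by positivity))
  constructor
  · intro x
    refine le_trans ?_ (deg_vertex ht0.le hη0.le (by linarith) hcl hsq' x)
    have h1 : t ^ 2 ≤ τ := by nlinarith
    have h2 : 0 ≤ (n : ℝ) ^ 2 := by positivity
    have h3 : 3 * (n : ℝ) ^ 2 ≤ τ / 4 * (n : ℝ) ^ 3 := by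
      have : (n : ℝ) ^ 3 = n * (n : ℝ) ^ 2 := by ring
      rw [this]
      nlinarith
    have h4 : (0 : ℝ) ≤ (n : ℝ) ^ 3 := by positivity
    nlinarith
  · intro a b ha hb
    refine le_trans ?_ (deg_pair ht0.le hcl hsq' ha hb)
    have h3 : 3 * (n : ℝ) ≤ τ / 4 * (n : ℝ) ^ 2 := by nlinarith
    have h4 : (0 : ℝ) ≤ (n : ℝ) ^ 2 := by positivity
    nlinarith

end est

end cnt

end Pool.Agent.Lib.MP_afdd4d_co.K9.Star.VS
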