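import Pool.Agent.Lib.MP_afdd4d_co.K9.TAq12
import Pool.Agent.Lib.MP_afdd4d_co.K9.TAq34

/-!
# The quasirandomness lemma (input A1)

A Giraud family with almost `11 / 16` of the quadruples is balanced, its relation is quasirandom,
every vertex has the degree and every pair of vertices of different colours has the codegree of the
random Giraud family.
-/

set_option autoImplicit false

namespace Pool.Agent.Lib.MP_afdd4d_co.K9.Star.VS

open Finset K8

/-- Input A1: (q1)-(q4). -/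
theorem qA1 (τ : ℝ) (hτ : 0 < τ) : ∃ η : ℝ, 0 < η ∧ ∃ N : ℕ, ∀ n : ℕ, N ≤ n →
    ∀ (χ : Fin n → Bool) (M : Fin n → Fin n → Bool),
    (11 / 16 - η) * (n.choose 4 : ℝ) ≤
      ((gir χ M (fun _ => false) (fun _ => false)).card : ℝ) →
    |((ca χ true).card : ℝ) - n / 2| ≤ τ * n ∧ sq χ M ≤ τ * (n : ℝ) ^ 4 ∧
    (∀ x : Fin n, (11 / 96 - τ) * (n : ℝ) ^ 3 ≤
      (((gir χ M (fun _ => false) (fun _ => false)).filter fun Q => x ∈ Q).card : ℝ)) ∧
    (∀ a b : Fin n, χ a = false → χ b = true → (3 / 8 - τ) * (n : ℝ) ^ 2 ≤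
      (((gir χ M (fun _ => false) (fun _ => false)).filter fun Q => a ∈ Q ∧ b ∈ Q).card : ℝ)) := by
  obtain ⟨η3, h3, N3, hq3⟩ := q34 τ hτ
  have h4 : 0 < min τ η3 := lt_min hτ h3
  obtain ⟨η, h0, N, hq⟩ := q12 (min τ η3) h4
  refine ⟨η, h0, max N N3, fun n hn χ M hG => ?_⟩
  obtain ⟨h1, h2⟩ := hq n ((le_max_left _ _).trans hn) χ M hG
  have hn0 : (0 : ℝ) ≤ n := Nat.cast_nonneg n
  have hn4 : (0 : ℝ) ≤ (n : ℝ) ^ 4 := by positivity
  have h5 := hq3 n ((le_max_right _ _).trans hn) χ M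
    (h1.trans (mul_le_mul_of_nonneg_right (min_le_right _ _) hn0))
    (h2.trans (mul_le_mul_of_nonneg_right (min_le_right _ _) hn4))
  exact ⟨h1.trans (mul_le_mul_of_nonneg_right (min_le_left _ _) hn0),
    h2.trans (mul_le_mul_of_nonneg_right (min_le_left _ _) hn4), h5.1, h5.2⟩

end Pool.Agent.Lib.MP_afdd4d_co.K9.Star.VS
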