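import Pool.Agent.Lib.MP_afdd4d_co.K9.TAMain
import Pool.Agent.Lib.MP_afdd4d_co.K9.TAq
import Pool.Agent.Lib.MP_afdd4d_co.K9.TAPairP

/-!
# The lemma about quasirandom structures and the pair lemma as inputs
-/

set_option autoImplicit false

namespace Pool.Agent.Lib.MP_afdd4d_co.K9.Star.VS

open Finset K8

theorem inA : InA := by
  intro τ hτ
  obtain ⟨η, hη, N, h⟩ := qA1 τ hτ
  refine ⟨η, hη, N, fun n hn χ M hG => ?_⟩
  obtain ⟨h1, h2, h3, h4⟩ := h n hn χ M hG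
  exact ⟨⟨h1, h2⟩, h3, h4⟩

theorem inP : InP := by
  intro τ hτ
  obtain ⟨η, hη, h⟩ := TA.pair_lemma τ hτ
  refine ⟨η, hη, 0, fun n _ χ M H hH h1 h2 a b ha hb hJa hJb => ?_⟩
  have h3 := h n H χ M a b hH ha hb h1 h2 hJa hJb
  have h4 : 32 / (n : ℝ) * (k5p H a b : ℝ) ≤ 100 * (k5p H a b : ℝ) / n := by
    rw [div_mul_eq_mul_div]
    refine div_le_div_of_nonneg_right ?_ (Nat.cast_nonneg n)
    have h5 : (0 : ℝ) ≤ (k5p H a b : ℝ) := Nat.cast_nonneg _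
    linarith
  linarith

end Pool.Agent.Lib.MP_afdd4d_co.K9.Star.VS
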