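import Pool.Agent.Lib.MP_afdd4d_co.K9.T1

/-!
# Colour classes and the square sum of a relation
-/

set_option autoImplicit false

namespace Pool.Agent.Lib.MP_afdd4d_co.K9.Star.VS

open Finset K8

variable {n : ℕ}

/-- a colour class -/
def ca (χ : Fin n → Bool) (z : Bool) : Finset (Fin n) := univ.filter fun v => χ v = z

theorem mem_ca {χ : Fin n → Bool} {z : Bool} {v : Fin n} : v ∈ ca χ z ↔ χ v = z := by
  unfold ca
  rw [Finset.mem_filter]
  exact ⟨fun h => h.2, fun h => ⟨Finset.mem_univ _, h⟩⟩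

/-- the square sum of the relation -/
noncomputable def sq (χ : Fin n → Bool) (M : Fin n → Fin n → Bool) : ℝ :=
  ∑ a ∈ ca χ false, ∑ a' ∈ ca χ false,
    (∑ b ∈ ca χ true, ((sg (M a b) * sg (M a' b) : ℤ) : ℝ)) ^ 2

end Pool.Agent.Lib.MP_afdd4d_co.K9.Star.VS
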