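import Pool.Agent.Lib.MP_afdd4d_co.K9.TwB

/-!
# 4-graphs with a small number of 5-sets with three or five edges

From the theorem for a small distance to Giraud's families (with a penalty for the copies of `K_5`),
from the stability of the extremal problem for even 4-graphs and from the inequality for the profile
of the 5-sets.
-/

namespace Pool.Agent.Lib.MP_afdd4d_co.K9.Star.Tw

open Finset K8
open Pool.Agent.Lib.MP_afdd4d_co.K9.Marks

/-- The theorem for a small distance to a structure, with a penalty for the copies of `K_5`. -/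
def TgtP (x0 : ℝ) : Prop :=
  ∀ ε : ℝ, 0 < ε → ∃ N0 : ℕ, ∀ n : ℕ, N0 ≤ n → ∀ (H : Finset (Finset (Fin n)))
    (χ : Fin n → Bool) (M : Fin n → Fin n → Bool),
    (∀ e ∈ H, e.card = 4) →
    ((symmDiff H (gir χ M (fun _ => false) (fun _ => false))).card : ℝ) ≤
      x0 * ((n.choose 4 : ℕ) : ℝ) →
    (H.card : ℝ) ≤ ((11 / 16 : ℝ) + ε) * ((n.choose 4 : ℕ) : ℝ) + 50 / n * (T5 H 5 : ℝ)

/-- The inequality for the profile of the 5-sets. -/
def Prof : Prop :=
  ∀ ε : ℝ, 0 < ε → ∃ N : ℕ, ∀ n : ℕ, N ≤ n → ∀ H : Finset (Finset (Fin n)),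
    (∀ e ∈ H, e.card = 4) →
    (H.card : ℝ) / ((n.choose 4 : ℕ) : ℝ) ≤ 11 / 16 +
      ((T5 H 3 : ℝ) + 5 * (T5 H 5 : ℝ) - 3 * (T5 H 1 : ℝ)) / (5 * ((n.choose 5 : ℕ) : ℝ)) + ε

theorem t5_zero {n : ℕ} (H : Finset (Finset (Fin n)))
    (hK : ∀ S : Finset (Fin n), S.card = 5 → ∃ e ∈ S.powersetCard 4, e ∉ H) : T5 H 5 = 0 := by
  classical
  unfold T5
  rw [Finset.card_eq_zero, Finset.filter_eq_empty_iff]
  intro S hS h5
  have hc := (Finset.mem_powersetCard.mp hS).2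
  obtain ⟨e, he, hne⟩ := hK S hc
  unfold c5 at h5
  have h6 : (S.powersetCard 4).card = 5 := by
    rw [Finset.card_powersetCard, hc]
    decide
  have h7 : ((S.powersetCard 4).filter fun e => e ∈ H) = S.powersetCard 4 :=
    Finset.eq_of_subset_of_card_le (Finset.filter_subset _ _) (by rw [h5, h6])
  rw [← h7] at he
  exact hne (Finset.mem_filter.mp he).2

theorem TgtP.tgtA {x0 : ℝ} (h : TgtP x0) : TgtA x0 := by
  intro ε hε
  obtain ⟨N0, hN0⟩ := h ε hε
  refine ⟨N0, fun n hn H χ M hH hK hx => ?_⟩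
  have h1 := hN0 n hn H χ M hH hx
  rw [t5_zero H hK, Nat.cast_zero, mul_zero, add_zero] at h1
  exact h1

/-- The theorem for 4-graphs with a small number of 5-sets with three or five edges. -/
theorem tgtB_plus {x0 : ℝ} (hx0 : 0 < x0) (hA : TgtP x0) (hT : T1Soft) (hP : Prof) :
    ∃ η : ℝ, 0 < η ∧ ∀ ε : ℝ, 0 < ε → ∃ N : ℕ, ∀ n : ℕ, N ≤ n → ∀ H : Finset (Finset (Fin n)),
      (∀ e ∈ H, e.card = 4) →
      (T5 H 3 : ℝ) + (T5 H 5 : ℝ) ≤ η * ((n.choose 5 : ℕ) : ℝ) →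
      (H.card : ℝ) ≤ ((11 / 16 : ℝ) + ε) * ((n.choose 4 : ℕ) : ℝ) + 50 / n * (T5 H 5 : ℝ) := by
  obtain ⟨η1, hη1, N1, hN1⟩ := hT (x0 / 2) (by positivity)
  set η : ℝ := min (x0 / 2) η1 with hη
  have hη0 : 0 < η := lt_min (by positivity) hη1
  obtain ⟨N3, hN3⟩ := hP (η / 5) (by positivity)
  refine ⟨η / 8, by positivity, fun ε hε => ?_⟩
  obtain ⟨N2, hN2⟩ := hA ε hε
  refine ⟨max 5 (max N1 (max N2 N3)), fun n hn H hH ho => ?_⟩
  have hn5 : 5 ≤ n := le_trans (le_max_left _ _) hn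
  have hm := le_trans (le_max_right _ _) hn
  have hnN1 : N1 ≤ n := le_trans (le_max_left _ _) hm
  have hnN2 : N2 ≤ n := le_trans (le_trans (le_max_left _ _) (le_max_right _ _)) hm
  have hnN3 : N3 ≤ n := le_trans (le_trans (le_max_right _ _) (le_max_right _ _)) hm
  set C : ℝ := ((n.choose 4 : ℕ) : ℝ) with hC
  set C5 : ℝ := ((n.choose 5 : ℕ) : ℝ) with hC5
  have hC0 : 0 < C := by
    rw [hC]
    exact_mod_cast Nat.choose_pos (by omega)
  have hC50 : 0 < C5 := by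
    rw [hC5]
    exact_mod_cast Nat.choose_pos (by omega)
  have hn0 : (0 : ℝ) < n := by exact_mod_cast (by omega : 0 < n)
  have hT0 : 0 ≤ 50 / (n : ℝ) * (T5 H 5 : ℝ) := by positivity
  by_cases hd : (H.card : ℝ) < 11 / 16 * C
  · have h1 : 0 ≤ ε * C := by positivity
    linarith
  rw [not_lt] at hd
  -- the number of 5-sets with an odd number of edges
  have hodd : (odd5 H : ℝ) ≤ η * C5 := by
    have h1 := hN3 n hnN3 H hH
    have h2 : (11 : ℝ) / 16 ≤ (H.card : ℝ) / C := by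
      rw [le_div_iff₀ hC0]
      exact hd
    have h3 : 0 ≤ ((T5 H 3 : ℝ) + 5 * (T5 H 5 : ℝ) - 3 * (T5 H 1 : ℝ)) / (5 * C5) + η / 5 := by
      linarith
    have h4 : 0 ≤ (((T5 H 3 : ℝ) + 5 * (T5 H 5 : ℝ) - 3 * (T5 H 1 : ℝ)) / (5 * C5) + η / 5) *
        (5 * C5) := mul_nonneg h3 (by positivity)
    have e1 : (((T5 H 3 : ℝ) + 5 * (T5 H 5 : ℝ) - 3 * (T5 H 1 : ℝ)) / (5 * C5) + η / 5) *
        (5 * C5) = (T5 H 3 : ℝ) + 5 * (T5 H 5 : ℝ) - 3 * (T5 H 1 : ℝ) + η * C5 := by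
      field_simp
    rw [e1] at h4
    have h5 : (odd5 H : ℝ) = (T5 H 1 : ℝ) + (T5 H 3 : ℝ) + (T5 H 5 : ℝ) := by
      rw [odd5_eq]
      push_cast
      ring
    rw [h5]
    have h6 : (0 : ℝ) ≤ (T5 H 3 : ℝ) := Nat.cast_nonneg _
    have h7 : (0 : ℝ) ≤ (T5 H 5 : ℝ) := Nat.cast_nonneg _
    have h8 : 0 ≤ η * C5 := by positivity
    linarith
  obtain ⟨E, hE⟩ := exists_optE (wc 1 1) H
  have h1 := near_even_le H E hH hE
  have h2 : ((symmDiff H E).card : ℝ) ≤ η * C := by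
    have h3 : (n : ℝ) * ((symmDiff H E).card : ℝ) ≤ 5 * (odd5 H : ℝ) := by exact_mod_cast h1
    have h5 : 5 * C5 ≤ n * C := by
      have h6 : n.choose 5 * 5 = n.choose 4 * (n - 4) := Nat.choose_succ_right_eq n 4
      have h7 : n.choose 5 * 5 ≤ n.choose 4 * n := by
        rw [h6]
        exact Nat.mul_le_mul_left _ (Nat.sub_le _ _)
      have h8 : (n.choose 5 : ℝ) * 5 ≤ (n.choose 4 : ℝ) * n := by exact_mod_cast h7
      rw [hC, hC5]
      linarith
    have h9 : (n : ℝ) * ((symmDiff H E).card : ℝ) ≤ n * (η * C) := by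
      have h10 := mul_le_mul_of_nonneg_left h5 hη0.le
      linarith
    exact le_of_mul_le_mul_left h9 hn0
  have h3 : (H.card : ℝ) ≤ (E.card : ℝ) + ((symmDiff H E).card : ℝ) := by
    have h4 : H ⊆ E ∪ symmDiff H E := by
      intro e he
      by_cases h5 : e ∈ E
      · exact Finset.mem_union_left _ h5
      · exact Finset.mem_union_right _ (Finset.mem_symmDiff.mpr (Or.inl ⟨he, h5⟩))
    exact_mod_cast le_trans (Finset.card_le_card h4) (Finset.card_union_le _ _)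
  have h4 : ((11 / 16 : ℝ) - η1) * C ≤ (E.card : ℝ) := by
    have h5 : η * C ≤ η1 * C := mul_le_mul_of_nonneg_right (min_le_right _ _) hC0.le
    linarith
  obtain ⟨χ, M, hM⟩ := hN1 n hnN1 E hE.1 hE.2.1 h4
  refine hN2 n hnN2 H χ M hH ?_
  have h5 : ((symmDiff H (gir χ M (fun _ => false) (fun _ => false))).card : ℝ) ≤
      ((symmDiff H E).card : ℝ) +
        ((symmDiff E (gir χ M (fun _ => false) (fun _ => false))).card : ℝ) := by
    have h6 := Finset.card_le_card (symmDiff_triangle H E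
      (gir χ M (fun _ => false) (fun _ => false)))
    exact_mod_cast le_trans h6 (Finset.card_union_le _ _)
  have h6 : η * C ≤ x0 / 2 * C := mul_le_mul_of_nonneg_right (min_le_left _ _) hC0.le
  linarith

end Pool.Agent.Lib.MP_afdd4d_co.K9.Star.Tw
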