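import Pool.Agent.Lib.MP_afdd4d_co.K9.TAOpt
import Pool.Agent.Lib.MP_afdd4d_co.K9.TAqDef
import Pool.Agent.Lib.MP_afdd4d_co.K9.TwBP
import Pool.Agent.Lib.MP_afdd4d_co.MC.Sharp

/-!
# The theorem for a small distance to a structure of Giraud

Among the 4-graphs close to some structure take an optimal one and a nearest structure. The degrees
and the codegrees of the optimal 4-graph are large, so the errors at every vertex, and then the errors
at every pair of vertices with two colours, are small, and the theorem for structures with small errors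
at the pairs gives the bound for the optimal 4-graph.
-/

set_option autoImplicit false

namespace Pool.Agent.Lib.MP_afdd4d_co.K9.Star.VS

open Finset K8

/-- A large structure is quasirandom. -/
def InA : Prop :=
  ∀ τ : ℝ, 0 < τ → ∃ η : ℝ, 0 < η ∧ ∃ N : ℕ, ∀ n : ℕ, N ≤ n →
    ∀ (χ : Fin n → Bool) (M : Fin n → Fin n → Bool),
      (11 / 16 - η) * ((n.choose 4 : ℕ) : ℝ) ≤
        ((gir χ M (fun _ => false) (fun _ => false)).card : ℝ) →
      (|((ca χ true).card : ℝ) - (n : ℝ) / 2| ≤ τ * n ∧ VS.sq χ M ≤ τ * (n : ℝ) ^ 4) ∧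
      (∀ x, (11 / 96 - τ) * (n : ℝ) ^ 3 ≤ (dg (gir χ M (fun _ => false) (fun _ => false)) x : ℝ)) ∧
      (∀ a b, χ a = false → χ b = true → (3 / 8 - τ) * (n : ℝ) ^ 2 ≤
        (cd (gir χ M (fun _ => false) (fun _ => false)) a b : ℝ))

/-- The size and the square sum of a large structure. -/
def InQ : Prop :=
  ∀ τ : ℝ, 0 < τ → ∃ η : ℝ, 0 < η ∧ ∃ N : ℕ, ∀ n : ℕ, N ≤ n →
    ∀ (χ : Fin n → Bool) (M : Fin n → Fin n → Bool),
      (11 / 16 - η) * ((n.choose 4 : ℕ) : ℝ) ≤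
        ((gir χ M (fun _ => false) (fun _ => false)).card : ℝ) →
      |((ca χ true).card : ℝ) - (n : ℝ) / 2| ≤ τ * n ∧ VS.sq χ M ≤ τ * (n : ℝ) ^ 4

/-- The degrees and the codegrees of a quasirandom structure. -/
def InD : Prop :=
  ∀ τ : ℝ, 0 < τ → ∃ η : ℝ, 0 < η ∧ ∃ N : ℕ, ∀ n : ℕ, N ≤ n →
    ∀ (χ : Fin n → Bool) (M : Fin n → Fin n → Bool),
      |((ca χ true).card : ℝ) - (n : ℝ) / 2| ≤ η * n → VS.sq χ M ≤ η * (n : ℝ) ^ 4 →
      (∀ x, (11 / 96 - τ) * (n : ℝ) ^ 3 ≤ (dg (gir χ M (fun _ => false) (fun _ => false)) x : ℝ)) ∧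
      (∀ a b, χ a = false → χ b = true → (3 / 8 - τ) * (n : ℝ) ^ 2 ≤
        (cd (gir χ M (fun _ => false) (fun _ => false)) a b : ℝ))

theorem inA_of (hQ : InQ) (hD : InD) : InA := by
  intro τ hτ
  obtain ⟨η2, hη2, N2, h2⟩ := hD τ hτ
  obtain ⟨η1, hη1, N1, h1⟩ := hQ (min τ η2) (lt_min hτ hη2)
  refine ⟨η1, hη1, max N1 N2, fun n hn χ M hG => ?_⟩
  obtain ⟨h3, h4⟩ := h1 n (le_trans (le_max_left _ _) hn) χ M hG
  have hn0 : (0 : ℝ) ≤ n := Nat.cast_nonneg n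
  have hn4 : (0 : ℝ) ≤ (n : ℝ) ^ 4 := by positivity
  refine ⟨⟨le_trans h3 (mul_le_mul_of_nonneg_right (min_le_left _ _) hn0),
    le_trans h4 (mul_le_mul_of_nonneg_right (min_le_left _ _) hn4)⟩, ?_⟩
  exact h2 n (le_trans (le_max_right _ _) hn) χ M
    (le_trans h3 (mul_le_mul_of_nonneg_right (min_le_right _ _) hn0))
    (le_trans h4 (mul_le_mul_of_nonneg_right (min_le_right _ _) hn4))

/-- The vertex lemma. -/
def InV : Prop :=
  ∀ θ : ℝ, 0 < θ → ∃ η : ℝ, 0 < η ∧ ∃ N : ℕ, ∀ n : ℕ, N ≤ n →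
    ∀ (χ : Fin n → Bool) (M : Fin n → Fin n → Bool) (H : Finset (Finset (Fin n))),
      (∀ e ∈ H, e.card = 4) →
      (11 / 16 - η) * ((n.choose 4 : ℕ) : ℝ) ≤
        ((gir χ M (fun _ => false) (fun _ => false)).card : ℝ) →
      (dst H χ M : ℝ) ≤ η * (n : ℝ) ^ 4 →
      ∀ x : Fin n, (11 / 96 - η) * (n : ℝ) ^ 3 + 32 / n * (k5v H x : ℝ) ≤ (dg H x : ℝ) →
        ∃ (k : Bool) (m : Fin n → Bool),
          (J x H (Function.update χ x k) (updM M x m) : ℝ) ≤ θ * (n : ℝ) ^ 3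

/-- The pair lemma. -/
def InP : Prop :=
  ∀ τ : ℝ, 0 < τ → ∃ η : ℝ, 0 < η ∧ ∃ N : ℕ, ∀ n : ℕ, N ≤ n →
    ∀ (χ : Fin n → Bool) (M : Fin n → Fin n → Bool) (H : Finset (Finset (Fin n))),
      (∀ e ∈ H, e.card = 4) →
      |((ca χ true).card : ℝ) - (n : ℝ) / 2| ≤ η * n → VS.sq χ M ≤ η * (n : ℝ) ^ 4 →
      ∀ a b : Fin n, χ a = false → χ b = true →
        (J a H χ M : ℝ) ≤ η * (n : ℝ) ^ 3 → (J b H χ M : ℝ) ≤ η * (n : ℝ) ^ 3 →
        2 * (cd H a b : ℝ) ≤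
          (3 / 4 - (4 * (J22p a b H χ M : ℝ) / (n : ℝ) ^ 2) *
            (1 - 4 * (J22p a b H χ M : ℝ) / (n : ℝ) ^ 2) / 4 + τ) * (n : ℝ) ^ 2 +
          100 * (k5p H a b : ℝ) / n

/-- The theorem for small errors at the pairs with two colours. -/
def InT : Prop :=
  ∀ ε : ℝ, 0 < ε → ∃ N0 : ℕ, ∀ n : ℕ, N0 ≤ n →
    ∀ (H : Finset (Finset (Fin n))) (χ : Fin n → Bool) (M : Fin n → Fin n → Bool),
      (∀ e ∈ H, e.card = 4) →
      (∀ x y : Fin n, χ x = false → χ y = true →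
        20 * ((symmDiff H (gir χ M (fun _ => false) (fun _ => false))).filter fun Q =>
          x ∈ Q ∧ y ∈ Q ∧ (Q.filter fun v => χ v = true).card = 2).card ≤
          1 * ((univ.filter fun v => χ v = false).card *
            (univ.filter fun v => χ v = true).card)) →
      ((100 : ℕ) : ℤ) * |∑ v : Fin n, sg (χ v)| ≤ ((1 : ℕ) : ℤ) * n →
      (n : ℝ) * (H.card : ℝ) ≤ n * (((11 / 16 : ℝ) + ε) * ((n.choose 4 : ℕ) : ℝ)) +
        14 * (T5 H 5 : ℝ)

section lem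
variable {n : ℕ}

theorem gir_free (χ : Fin n → Bool) (M : Fin n → Fin n → Bool) :
    ∀ S : Finset (Fin n), S.card = 5 →
      ∃ e ∈ S.powersetCard 4, e ∉ gir χ M (fun _ => false) (fun _ => false) := by
  have h := Tw.gir_eq_Gir χ (fun a b => M b a)
  have e : (fun a b => (fun a b => M b a) b a) = M := rfl
  rw [e] at h
  rw [h]
  exact MC.Gir_free _ _

theorem card_classes (χ : Fin n → Bool) :
    (univ.filter fun v => χ v = false).card + (univ.filter fun v => χ v = true).card = n := by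
  have h := Finset.card_filter_add_card_filter_not (s := (univ : Finset (Fin n)))
    (fun v => χ v = false)
  simp only [Bool.not_eq_false, Finset.card_univ, Fintype.card_fin] at h
  exact h

theorem sum_sg (χ : Fin n → Bool) : ∑ v : Fin n, sg (χ v) =
    (n : ℤ) - 2 * ((univ.filter fun v => χ v = true).card : ℤ) := by
  have h : ∀ v : Fin n, sg (χ v) = 1 - 2 * (if χ v = true then 1 else 0) := by
    intro v
    unfold sg
    split_ifs <;> norm_num
  rw [Finset.sum_congr rfl fun v _ => h v, Finset.sum_sub_distrib, ← Finset.mul_sum,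
    Finset.card_filter]
  push_cast
  simp

theorem card_le_dst (H : Finset (Finset (Fin n))) (χ : Fin n → Bool) (M : Fin n → Fin n → Bool) :
    H.card ≤ (gir χ M (fun _ => false) (fun _ => false)).card + dst H χ M := by
  unfold dst
  refine le_trans (Finset.card_le_card ?_) (Finset.card_union_le _ _)
  intro Q hQ
  rw [Finset.mem_union, Finset.mem_symmDiff]
  tauto

end lem

/-- The arithmetic for a pair. -/
theorem pair_arith {n J cG cH Ja Jb k p τ θ : ℝ} (hn : 0 < n)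
    (hp : p = 4 * J / n ^ 2) (hJ : 0 ≤ J) (hJ2 : 8 * J ≤ n ^ 2)
    (hτ : τ ≤ 1 / 1000) (hθ : θ ≤ 1 / 200000)
    (h1 : (3 / 8 - τ) * n ^ 2 ≤ cG)
    (h2 : cG ≤ cH + 50 / n * (Ja + Jb - k))
    (hJa : Ja ≤ θ * n ^ 3) (hJb : Jb ≤ θ * n ^ 3)
    (h3 : 2 * cH ≤ (3 / 4 - p * (1 - p) / 4 + 1 / 1000) * n ^ 2 + 100 * k / n) :
    20 * J ≤ 4 / 25 * n ^ 2 := by
  have hn2 : 0 < n ^ 2 := by positivity
  have e1 : 50 / n * (Ja + Jb - k) = 50 * (Ja + Jb) / n - 50 * k / n := by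
    field_simp
  have h4 : 50 * (Ja + Jb) / n ≤ 100 * θ * n ^ 2 := by
    rw [div_le_iff₀ hn]
    have : 100 * θ * n ^ 2 * n = 50 * (θ * n ^ 3 + θ * n ^ 3) := by ring
    rw [this]
    linarith
  have e2 : 100 * k / n = 2 * (50 * k / n) := by ring
  have h5 : p * (1 - p) / 4 * n ^ 2 ≤ (1 / 1000 + 2 * τ + 200 * θ) * n ^ 2 := by
    rw [e1] at h2
    rw [e2] at h3
    nlinarith
  have h6 : p * (1 - p) / 4 ≤ 1 / 1000 + 2 * τ + 200 * θ := le_of_mul_le_mul_right h5 hn2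
  have h7 : p * (1 - p) ≤ 16 / 1000 := by linarith
  have hp0 : 0 ≤ p := by rw [hp]; positivity
  have hp1 : p ≤ 1 / 2 := by
    rw [hp, div_le_iff₀ hn2]
    linarith
  have h8 : p ≤ 32 / 1000 := by nlinarith
  have h9 : 4 * J = p * n ^ 2 := by
    rw [hp]
    field_simp
  nlinarith

/-- The theorem for a small distance to a structure, from the four lemmas. -/
theorem tgtP_of (hA : InA) (hV : InV) (hP : InP) (hT : InT) :
    ∃ x0 : ℝ, 0 < x0 ∧ Tw.TgtP x0 := by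
  obtain ⟨ηP, hηP, NP, hP'⟩ := hP (1 / 1000) (by norm_num)
  obtain ⟨θ, hθ, hθ1, hθP⟩ : ∃ θ : ℝ, 0 < θ ∧ θ ≤ 1 / 200000 ∧ θ ≤ ηP :=
    ⟨min (1 / 200000) ηP, lt_min (by norm_num) hηP, min_le_left _ _, min_le_right _ _⟩
  obtain ⟨ηV, hηV, NV, hV'⟩ := hV θ hθ
  obtain ⟨τ, hτ, hτ1, hτP, hτV⟩ : ∃ τ : ℝ, 0 < τ ∧ τ ≤ 1 / 1000 ∧ τ ≤ ηP ∧ τ ≤ ηV / 2 :=
    ⟨min (1 / 1000) (min ηP (ηV / 2)), lt_min (by norm_num) (lt_min hηP (by positivity)),
      min_le_left _ _, le_trans (min_le_right _ _) (min_le_left _ _),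
      le_trans (min_le_right _ _) (min_le_right _ _)⟩
  obtain ⟨η1, hη1, N1, hA'⟩ := hA τ hτ
  obtain ⟨x0, hx0, hx1, hxV⟩ : ∃ x0 : ℝ, 0 < x0 ∧ x0 ≤ η1 / 2 ∧ x0 ≤ ηV / 5 :=
    ⟨min (η1 / 2) (ηV / 5), lt_min (by positivity) (by positivity), min_le_left _ _,
      min_le_right _ _⟩
  obtain ⟨NG, hG'⟩ := MC.Gir_large x0 hx0
  refine ⟨x0, hx0, fun ε hε => ?_⟩
  obtain ⟨NT, hT'⟩ := hT ε hε
  refine ⟨max 1 (max NP (max NV (max N1 (max NG NT)))), fun n hn H' χ' M' h4' hd' => ?_⟩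
  have hn1 : 1 ≤ n := le_trans (le_max_left _ _) hn
  have hm1 := le_trans (le_max_right _ _) hn
  have hnP : NP ≤ n := le_trans (le_max_left _ _) hm1
  have hm2 := le_trans (le_max_right _ _) hm1
  have hnV : NV ≤ n := le_trans (le_max_left _ _) hm2
  have hm3 := le_trans (le_max_right _ _) hm2
  have hnA : N1 ≤ n := le_trans (le_max_left _ _) hm3
  have hm4 := le_trans (le_max_right _ _) hm3
  have hnG : NG ≤ n := le_trans (le_max_left _ _) hm4
  have hnT : NT ≤ n := le_trans (le_max_right _ _) hm4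
  have hn0 : (0 : ℝ) < n := by exact_mod_cast hn1
  obtain ⟨H, χ, M, hO⟩ := exists_opt (n := n) 50 hx0.le
  set C : ℝ := ((n.choose 4 : ℕ) : ℝ) with hC
  have hC0 : 0 ≤ C := Nat.cast_nonneg _
  have hC4 : C ≤ (n : ℝ) ^ 4 / 24 := by
    have h := Nat.choose_le_pow_div (α := ℝ) 4 n
    have e : ((Nat.factorial 4 : ℕ) : ℝ) = 24 := by norm_num [Nat.factorial]
    rw [e] at h
    exact h
  set G := gir χ M (fun _ => false) (fun _ => false) with hGd
  have hGfree := gir_free χ M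
  -- it suffices to bound the optimal 4-graph
  suffices hPhi : Phi 50 H ≤ (11 / 16 + ε) * C by
    have h1 := hO.max H' ⟨h4', χ', M', hd'⟩
    unfold Phi at h1 hPhi
    linarith
  have hTn : ∀ F : Finset (Finset (Fin n)), 0 ≤ 50 / (n : ℝ) * (T5 F 5 : ℝ) := fun F => by
    positivity
  -- the sizes
  have hHs : (11 / 16 - x0) * C ≤ (H.card : ℝ) := by
    obtain ⟨χ1, M1, hM1⟩ := hG' n hnG
    rw [← Tw.gir_eq_Gir χ1 M1] at hM1
    have h1 := hO.max (gir χ1 (fun a b => M1 b a) (fun _ => false) (fun _ => false))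
      ⟨gir_card _ _ _ _, χ1, fun a b => M1 b a, by
        unfold dst
        rw [symmDiff_self]
        simp only [Finset.bot_eq_empty, Finset.card_empty, Nat.cast_zero]
        positivity⟩
    unfold Phi at h1
    rw [Tw.t5_zero _ (gir_free _ _), Nat.cast_zero, mul_zero, sub_zero] at h1
    have h2 := hTn H
    linarith
  have hds := hO.dist
  have hGs : (11 / 16 - 2 * x0) * C ≤ (G.card : ℝ) := by
    have h1 : (H.card : ℝ) ≤ (G.card : ℝ) + (dst H χ M : ℝ) := by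
      exact_mod_cast card_le_dst H χ M
    linarith
  have hGA : (11 / 16 - η1) * C ≤ (G.card : ℝ) := by
    refine le_trans (mul_le_mul_of_nonneg_right ?_ hC0) hGs
    linarith
  have hGV : (11 / 16 - ηV) * C ≤ (G.card : ℝ) := by
    refine le_trans (mul_le_mul_of_nonneg_right ?_ hC0) hGs
    linarith
  obtain ⟨⟨hq1, hq2⟩, hq3, hq4⟩ := hA' n hnA χ M hGA
  have hds' : (dst H χ M : ℝ) ≤ x0 * ((n : ℝ) ^ 4 / 24) :=
    le_trans hds (mul_le_mul_of_nonneg_left hC4 hx0.le)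
  have hn4 : (0 : ℝ) < (n : ℝ) ^ 4 := by positivity
  have hn3 : (0 : ℝ) < (n : ℝ) ^ 3 := by positivity
  -- the errors at a vertex
  have hJ : ∀ x, (J x H χ M : ℝ) ≤ θ * (n : ℝ) ^ 3 := by
    intro x
    have h1 := hO.deg (by norm_num) hGfree x
    have h2 := hq3 x
    have e1 : 50 / (n : ℝ) * ((dst H χ M : ℝ) - k5v H x) =
        50 / (n : ℝ) * (dst H χ M : ℝ) - 50 / (n : ℝ) * k5v H x := by ring
    have h3 : 50 / (n : ℝ) * (dst H χ M : ℝ) ≤ 50 / 24 * x0 * (n : ℝ) ^ 3 := by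
      refine le_trans (mul_le_mul_of_nonneg_left hds' (by positivity)) (le_of_eq ?_)
      field_simp
    have h4 : 32 / (n : ℝ) * (k5v H x : ℝ) ≤ 50 / (n : ℝ) * (k5v H x : ℝ) := by
      refine mul_le_mul_of_nonneg_right ?_ (Nat.cast_nonneg _)
      exact div_le_div_of_nonneg_right (by norm_num) hn0.le
    have h5 : (τ + 50 / 24 * x0) * (n : ℝ) ^ 3 ≤ ηV * (n : ℝ) ^ 3 := by
      refine mul_le_mul_of_nonneg_right ?_ hn3.le
      linarith
    obtain ⟨k, m, h6⟩ := hV' n hnV χ M H hO.h4 hGV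
      (le_trans hds' (by nlinarith)) x (by rw [e1] at h1; linarith)
    exact le_trans (by exact_mod_cast hO.near.row x k m) h6
  -- the class sizes
  have hcl := card_classes χ
  set a0 := (univ.filter fun v => χ v = false).card with ha0
  set b0 := (univ.filter fun v => χ v = true).card with hb0
  have hq1' : |(b0 : ℝ) - (n : ℝ) / 2| ≤ τ * n := hq1
  have hclR : (a0 : ℝ) + (b0 : ℝ) = n := by exact_mod_cast hcl
  have hab : (a0 : ℝ) * b0 = (n : ℝ) ^ 2 / 4 - ((b0 : ℝ) - n / 2) ^ 2 := by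
    have : (a0 : ℝ) = n - b0 := by linarith
    rw [this]
    ring
  have hsq : ((b0 : ℝ) - n / 2) ^ 2 ≤ (τ * n) ^ 2 := by
    rw [← sq_abs ((b0 : ℝ) - n / 2)]
    exact pow_le_pow_left₀ (abs_nonneg _) hq1' 2
  have hτ2 : (τ * n) ^ 2 ≤ 1 / 1000 * (n : ℝ) ^ 2 := by
    have h1 : τ ^ 2 ≤ 1 / 1000 := by nlinarith
    have e1 : (τ * n) ^ 2 = τ ^ 2 * (n : ℝ) ^ 2 := by ring
    rw [e1]
    exact mul_le_mul_of_nonneg_right h1 (by positivity)
  -- the errors at a pair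
  have hpair : ∀ x y : Fin n, χ x = false → χ y = true →
      20 * J22p x y H χ M ≤ 1 * (a0 * b0) := by
    intro x y hx hy
    have hxy : x ≠ y := by
      rintro rfl
      rw [hx] at hy
      exact Bool.false_ne_true hy
    have h1 := hO.near.entry hO.h4 hx hy
    have h2 : (a0 - 1) * (b0 - 1) ≤ a0 * b0 := Nat.mul_le_mul (Nat.sub_le _ _) (Nat.sub_le _ _)
    have h3 : (2 : ℝ) * (J22p x y H χ M : ℝ) ≤ (a0 : ℝ) * b0 := by
      exact_mod_cast le_trans h1 h2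
    have h4 : (8 : ℝ) * (J22p x y H χ M : ℝ) ≤ (n : ℝ) ^ 2 := by
      nlinarith [sq_nonneg ((b0 : ℝ) - n / 2)]
    have h5 := hO.cdeg (by norm_num) hGfree x y hxy
    have h6 := hP' n hnP χ M H hO.h4
      (le_trans hq1 (mul_le_mul_of_nonneg_right hτP hn0.le))
      (le_trans hq2 (mul_le_mul_of_nonneg_right hτP hn4.le)) x y hx hy
      (le_trans (hJ x) (mul_le_mul_of_nonneg_right hθP hn3.le))
      (le_trans (hJ y) (mul_le_mul_of_nonneg_right hθP hn3.le))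
    have h7 := pair_arith hn0 rfl (Nat.cast_nonneg _) h4 hτ1 hθ1 (hq4 x y hx hy) h5 (hJ x) (hJ y)
      h6
    have h8 : (20 : ℝ) * (J22p x y H χ M : ℝ) ≤ (a0 : ℝ) * b0 := by
      have h9 : (0 : ℝ) ≤ (n : ℝ) ^ 2 := by positivity
      nlinarith
    have h10 : 20 * J22p x y H χ M ≤ a0 * b0 := by exact_mod_cast h8
    rw [one_mul]
    exact h10
  -- the balance
  have hbal : ((100 : ℕ) : ℤ) * |∑ v : Fin n, sg (χ v)| ≤ ((1 : ℕ) : ℤ) * n := by
    rw [sum_sg]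
    have h1 : (100 : ℝ) * |(n : ℝ) - 2 * (b0 : ℝ)| ≤ n := by
      have e1 : (n : ℝ) - 2 * (b0 : ℝ) = -2 * ((b0 : ℝ) - n / 2) := by ring
      rw [e1, abs_mul]
      have e2 : |(-2 : ℝ)| = 2 := by norm_num
      rw [e2]
      nlinarith
    have h2 : ((((100 : ℕ) : ℤ) * |(n : ℤ) - 2 * (b0 : ℤ)| : ℤ) : ℝ) ≤
        (((((1 : ℕ) : ℤ) * n : ℤ)) : ℝ) := by
      push_cast
      linarith
    exact_mod_cast h2
  have hfin := hT' n hnT H χ M hO.h4 hpair hbal
  unfold Phi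
  have h1 : (H.card : ℝ) ≤ (11 / 16 + ε) * C + 14 / n * (T5 H 5 : ℝ) := by
    have e1 : (n : ℝ) * ((11 / 16 + ε) * C + 14 / n * (T5 H 5 : ℝ)) =
        n * ((11 / 16 + ε) * C) + 14 * (T5 H 5 : ℝ) := by
      field_simp
    rw [← e1] at hfin
    exact le_of_mul_le_mul_left hfin hn0
  have h2 : 14 / (n : ℝ) * (T5 H 5 : ℝ) ≤ 50 / (n : ℝ) * (T5 H 5 : ℝ) := by
    refine mul_le_mul_of_nonneg_right ?_ (Nat.cast_nonneg _)
    exact div_le_div_of_nonneg_right (by norm_num) hn0.le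
  linarith

end Pool.Agent.Lib.MP_afdd4d_co.K9.Star.VS
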