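import Pool.Agent.Lib.MP_afdd4d_co.K9.VS2
import Pool.Agent.Lib.MP_afdd4d_co.K8.Marked

/-!
# An optimal 4-graph and an optimal structure

Among the 4-graphs close to some structure of Giraud, take one for which the number of edges minus a
multiple of the number of copies of `K_5` is as large as possible, and the nearest structure.
Replacing the quadruples at a vertex, or at a pair of vertices, by those of the structure gives
lower bounds for degrees and codegrees, and changing the structure at a vertex, or at a pair, gives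
upper bounds for the errors there.
-/

namespace Pool.Agent.Lib.MP_afdd4d_co.K9.Star.VS

open Finset K8

variable {n : ℕ}

/-! ### Replacing quadruples -/

section rep
variable {V : Type*} [DecidableEq V]

/-- The quadruples with the property `W` are replaced by those of `G`. -/
def rep (H G : Finset (Finset V)) (W : Finset V → Prop) [DecidablePred W] : Finset (Finset V) :=
  (H.filter fun Q => ¬ W Q) ∪ (G.filter W)

variable {H G : Finset (Finset V)} {W : Finset V → Prop} [DecidablePred W]

theorem mem_rep {Q : Finset V} : Q ∈ rep H G W ↔ (Q ∈ H ∧ ¬ W Q) ∨ (Q ∈ G ∧ W Q) := by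
  unfold rep
  rw [Finset.mem_union, Finset.mem_filter, Finset.mem_filter]

theorem mem_rep_of {Q : Finset V} (hW : W Q) : Q ∈ rep H G W ↔ Q ∈ G := by
  rw [mem_rep]
  tauto

theorem mem_rep_of_not {Q : Finset V} (hW : ¬ W Q) : Q ∈ rep H G W ↔ Q ∈ H := by
  rw [mem_rep]
  tauto

theorem rep_card4 (hH : ∀ e ∈ H, e.card = 4) (hG : ∀ e ∈ G, e.card = 4) :
    ∀ e ∈ rep H G W, e.card = 4 := by
  intro e he
  rcases mem_rep.mp he with h | h
  · exact hH e h.1
  · exact hG e h.1

theorem symmDiff_rep_subset : symmDiff (rep H G W) G ⊆ symmDiff H G := by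
  intro Q hQ
  rw [Finset.mem_symmDiff] at hQ ⊢
  by_cases hW : W Q
  · rw [mem_rep_of hW] at hQ
    tauto
  · rw [mem_rep_of_not hW] at hQ
    exact hQ

theorem rep_card : (rep H G W).card + (H.filter W).card = H.card + (G.filter W).card := by
  have h1 : (rep H G W).card = (H.filter fun Q => ¬ W Q).card + (G.filter W).card := by
    unfold rep
    refine Finset.card_union_of_disjoint ?_
    rw [Finset.disjoint_left]
    intro Q h1 h2
    exact (Finset.mem_filter.mp h1).2 (Finset.mem_filter.mp h2).2
  have h2 := Finset.card_filter_add_card_filter_not (s := H) W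
  omega

theorem c5_five {S : Finset V} (hS : S.card = 5) : c5 H S = 5 ↔ ∀ v ∈ S, S.erase v ∈ H := by
  unfold c5
  rw [count_erase H S hS, ← hS]
  constructor
  · intro h v hv
    have h1 := Finset.filter_card_eq h
    exact h1 v hv
  · intro h
    rw [Finset.filter_true_of_mem h]

theorem exists_erase_notMem (hG : ∀ S : Finset V, S.card = 5 → ∃ e ∈ S.powersetCard 4, e ∉ G)
    {S : Finset V} (hS : S.card = 5) : ∃ v ∈ S, S.erase v ∉ G := by
  obtain ⟨e, he, heG⟩ := hG S hS
  obtain ⟨heS, hec⟩ := Finset.mem_powersetCard.mp he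
  obtain ⟨v, hv, hve⟩ : ∃ v ∈ S, v ∉ e := by
    by_contra h
    push Not at h
    have := Finset.card_le_card (show S ⊆ e from h)
    omega
  refine ⟨v, hv, ?_⟩
  have h1 : e ⊆ S.erase v := fun u hu => Finset.mem_erase.mpr ⟨fun h => hve (h ▸ hu), heS hu⟩
  have h2 : e = S.erase v := by
    refine Finset.eq_of_subset_of_card_le h1 ?_
    rw [Finset.card_erase_of_mem hv, hS, hec]
  rwa [← h2]

end rep

/-! ### Copies of `K_5` -/

/-- The number of copies of `K_5` at two vertices. -/
def k5p (H : Finset (Finset (Fin n))) (a b : Fin n) : ℕ :=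
  (((univ : Finset (Fin n)).powersetCard 5).filter fun S => a ∈ S ∧ b ∈ S ∧ c5 H S = 5).card

/-- The number of copies of `K_5` at a vertex. -/
def k5v (H : Finset (Finset (Fin n))) (x : Fin n) : ℕ :=
  (((univ : Finset (Fin n)).powersetCard 5).filter fun S => x ∈ S ∧ c5 H S = 5).card

/-- The degree of a vertex. -/
def dg (H : Finset (Finset (Fin n))) (x : Fin n) : ℕ := (H.filter fun Q => x ∈ Q).card

/-- The codegree of two vertices. -/
def cd (H : Finset (Finset (Fin n))) (a b : Fin n) : ℕ := (H.filter fun Q => a ∈ Q ∧ b ∈ Q).card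

section count
variable {H G : Finset (Finset (Fin n))}

theorem T5_rep_vertex (hG : ∀ S : Finset (Fin n), S.card = 5 → ∃ e ∈ S.powersetCard 4, e ∉ G)
    (x : Fin n) : T5 (rep H G fun Q => x ∈ Q) 5 + k5v H x ≤ T5 H 5 + (symmDiff H G).card := by
  classical
  set H' := rep H G fun Q => x ∈ Q with hH'
  have e1 : T5 H 5 = (((univ : Finset (Fin n)).powersetCard 5).filter fun S =>
      x ∉ S ∧ c5 H S = 5).card + k5v H x := by
    unfold T5 k5v
    rw [← Finset.card_union_of_disjoint]
    · congr 1
      ext S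
      simp only [Finset.mem_union, Finset.mem_filter]
      tauto
    · rw [Finset.disjoint_left]
      intro S h1 h2
      exact (Finset.mem_filter.mp h1).2.1 (Finset.mem_filter.mp h2).2.1
  have e2 : T5 H' 5 = (((univ : Finset (Fin n)).powersetCard 5).filter fun S =>
      x ∉ S ∧ c5 H' S = 5).card + k5v H' x := by
    unfold T5 k5v
    rw [← Finset.card_union_of_disjoint]
    · congr 1
      ext S
      simp only [Finset.mem_union, Finset.mem_filter]
      tauto
    · rw [Finset.disjoint_left]
      intro S h1 h2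
      exact (Finset.mem_filter.mp h1).2.1 (Finset.mem_filter.mp h2).2.1
  have e3 : (((univ : Finset (Fin n)).powersetCard 5).filter fun S =>
      x ∉ S ∧ c5 H' S = 5) = ((univ : Finset (Fin n)).powersetCard 5).filter fun S =>
      x ∉ S ∧ c5 H S = 5 := by
    refine Finset.filter_congr fun S hS => ?_
    have hS5 := (Finset.mem_powersetCard.mp hS).2
    rw [c5_five hS5, c5_five hS5]
    refine and_congr_right fun hx => forall₂_congr fun v _ => ?_
    rw [hH', mem_rep_of_not (fun h => hx (Finset.mem_of_mem_erase h))]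
  have e4 : k5v H' x ≤ (symmDiff H G).card := by
    unfold k5v
    refine Finset.card_le_card_of_injOn (fun S => S.erase x) ?_ ?_
    · intro S hS
      obtain ⟨hS, hx, hc⟩ := Finset.mem_filter.mp (Finset.mem_coe.mp hS)
      have hS5 := (Finset.mem_powersetCard.mp hS).2
      rw [c5_five hS5] at hc
      obtain ⟨v, hv, hvG⟩ := exists_erase_notMem hG hS5
      have hvx : v = x := by
        by_contra hne
        have h1 := hc v hv
        rw [hH', mem_rep_of (W := fun Q => x ∈ Q)
          (Finset.mem_erase.mpr ⟨fun h => hne h.symm, hx⟩)] at h1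
        exact hvG h1
      subst hvx
      have h1 := hc v hv
      rw [hH', mem_rep_of_not (W := fun Q => v ∈ Q)
        (fun h => (Finset.mem_erase.mp h).1 rfl)] at h1
      rw [Finset.mem_coe, Finset.mem_symmDiff]
      exact Or.inl ⟨h1, hvG⟩
    · intro S hS T hT h
      have hxS := (Finset.mem_filter.mp (Finset.mem_coe.mp hS)).2.1
      have hxT := (Finset.mem_filter.mp (Finset.mem_coe.mp hT)).2.1
      have h' : S.erase x = T.erase x := h
      rw [← Finset.insert_erase hxS, h', Finset.insert_erase hxT]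
  rw [e3] at e2
  omega

theorem T5_rep_pair (hG : ∀ S : Finset (Fin n), S.card = 5 → ∃ e ∈ S.powersetCard 4, e ∉ G)
    (a b : Fin n) (hab : a ≠ b) :
    T5 (rep H G fun Q => a ∈ Q ∧ b ∈ Q) 5 + k5p H a b ≤
      T5 H 5 + (((symmDiff H G).filter fun Q => a ∈ Q).card +
        ((symmDiff H G).filter fun Q => b ∈ Q).card) := by
  classical
  set H' := rep H G fun Q => a ∈ Q ∧ b ∈ Q with hH'
  have e0 : ∀ K : Finset (Finset (Fin n)), T5 K 5 =
      (((univ : Finset (Fin n)).powersetCard 5).filter fun S =>
        ¬ (a ∈ S ∧ b ∈ S) ∧ c5 K S = 5).card + k5p K a b := by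
    intro K
    unfold T5 k5p
    rw [← Finset.card_union_of_disjoint]
    · congr 1
      ext S
      simp only [Finset.mem_union, Finset.mem_filter]
      tauto
    · rw [Finset.disjoint_left]
      intro S h1 h2
      obtain ⟨_, h3, h4⟩ := Finset.mem_filter.mp h2
      exact (Finset.mem_filter.mp h1).2.1 ⟨h3, h4.1⟩
  have e3 : (((univ : Finset (Fin n)).powersetCard 5).filter fun S =>
      ¬ (a ∈ S ∧ b ∈ S) ∧ c5 H' S = 5) = ((univ : Finset (Fin n)).powersetCard 5).filter fun S =>
      ¬ (a ∈ S ∧ b ∈ S) ∧ c5 H S = 5 := by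
    refine Finset.filter_congr fun S hS => ?_
    have hS5 := (Finset.mem_powersetCard.mp hS).2
    rw [c5_five hS5, c5_five hS5]
    refine and_congr_right fun hx => forall₂_congr fun v _ => ?_
    rw [hH', mem_rep_of_not (fun h => hx
      ⟨Finset.mem_of_mem_erase h.1, Finset.mem_of_mem_erase h.2⟩)]
  have e4 : k5p H' a b ≤ ((symmDiff H G).filter fun Q => a ∈ Q).card +
        ((symmDiff H G).filter fun Q => b ∈ Q).card := by
    have key : (((univ : Finset (Fin n)).powersetCard 5).filter fun S =>
        a ∈ S ∧ b ∈ S ∧ c5 H' S = 5) ⊆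
        (((univ : Finset (Fin n)).powersetCard 5).filter fun S =>
          b ∈ S ∧ S.erase b ∈ (symmDiff H G).filter fun Q => a ∈ Q) ∪
        (((univ : Finset (Fin n)).powersetCard 5).filter fun S =>
          a ∈ S ∧ S.erase a ∈ (symmDiff H G).filter fun Q => b ∈ Q) := by
      intro S hS
      obtain ⟨hSp, ha, hb, hc⟩ := Finset.mem_filter.mp hS
      have hS5 := (Finset.mem_powersetCard.mp hSp).2
      rw [c5_five hS5] at hc
      obtain ⟨v, hv, hvG⟩ := exists_erase_notMem hG hS5
      have hvx : v = a ∨ v = b := by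
        by_contra hne
        push Not at hne
        have h1 := hc v hv
        rw [hH', mem_rep_of ⟨Finset.mem_erase.mpr ⟨fun h => hne.1 h.symm, ha⟩,
          Finset.mem_erase.mpr ⟨fun h => hne.2 h.symm, hb⟩⟩] at h1
        exact hvG h1
      rw [Finset.mem_union]
      rcases hvx with rfl | rfl
      · refine Or.inr (Finset.mem_filter.mpr ⟨hSp, ha, Finset.mem_filter.mpr ⟨?_, ?_⟩⟩)
        · have h1 := hc v hv
          rw [hH', mem_rep_of_not (fun h => (Finset.mem_erase.mp h.1).1 rfl)] at h1
          rw [Finset.mem_symmDiff]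
          exact Or.inl ⟨h1, hvG⟩
        · exact Finset.mem_erase.mpr ⟨fun h => hab h.symm, hb⟩
      · refine Or.inl (Finset.mem_filter.mpr ⟨hSp, hb, Finset.mem_filter.mpr ⟨?_, ?_⟩⟩)
        · have h1 := hc v hv
          rw [hH', mem_rep_of_not (fun h => (Finset.mem_erase.mp h.2).1 rfl)] at h1
          rw [Finset.mem_symmDiff]
          exact Or.inl ⟨h1, hvG⟩
        · exact Finset.mem_erase.mpr ⟨hab, ha⟩
    have inj : ∀ (c : Fin n) (D : Finset (Finset (Fin n))),
        (((univ : Finset (Fin n)).powersetCard 5).filter fun S => c ∈ S ∧ S.erase c ∈ D).card ≤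
          D.card := by
      intro c D
      refine Finset.card_le_card_of_injOn (fun S => S.erase c) ?_ ?_
      · intro S hS
        exact (Finset.mem_filter.mp (Finset.mem_coe.mp hS)).2.2
      · intro S hS T hT h
        have hxS := (Finset.mem_filter.mp (Finset.mem_coe.mp hS)).2.1
        have hxT := (Finset.mem_filter.mp (Finset.mem_coe.mp hT)).2.1
        have h' : S.erase c = T.erase c := h
        rw [← Finset.insert_erase hxS, h', Finset.insert_erase hxT]
    unfold k5p
    refine (Finset.card_le_card key).trans ((Finset.card_union_le _ _).trans ?_)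
    exact Nat.add_le_add (inj _ _) (inj _ _)
  have e1 := e0 H
  have e2 := e0 H'
  rw [e3] at e2
  omega

end count

/-! ### Changing the structure -/

/-- The number of errors at two vertices among the quadruples with two vertices of each colour. -/
def J22p (a b : Fin n) (H : Finset (Finset (Fin n))) (χ : Fin n → Bool)
    (M : Fin n → Fin n → Bool) : ℕ :=
  ((symmDiff H (gir χ M (fun _ => false) (fun _ => false))).filter fun Q =>
    a ∈ Q ∧ b ∈ Q ∧ (Q.filter fun v => χ v = true).card = 2).card

/-- The distance. -/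
def dst (H : Finset (Finset (Fin n))) (χ : Fin n → Bool) (M : Fin n → Fin n → Bool) : ℕ :=
  (symmDiff H (gir χ M (fun _ => false) (fun _ => false))).card

/-- The structure is a nearest one. -/
def Near (H : Finset (Finset (Fin n))) (χ : Fin n → Bool) (M : Fin n → Fin n → Bool) : Prop :=
  ∀ (χ' : Fin n → Bool) (M' : Fin n → Fin n → Bool), dst H χ M ≤ dst H χ' M'

theorem Near.row {H : Finset (Finset (Fin n))} {χ : Fin n → Bool} {M : Fin n → Fin n → Bool}
    (h : Near H χ M) (x : Fin n) (k : Bool) (m : Fin n → Bool) :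
    J x H χ M ≤ J x H (Function.update χ x k) (updM M x m) := by
  classical
  have h0 := h (Function.update χ x k) (updM M x m)
  unfold dst at h0
  have e1 := Finset.card_filter_add_card_filter_not
    (s := symmDiff H (gir χ M (fun _ => false) (fun _ => false))) (fun Q => x ∈ Q)
  have e2 := Finset.card_filter_add_card_filter_not
    (s := symmDiff H (gir (Function.update χ x k) (updM M x m) (fun _ => false)
      (fun _ => false))) (fun Q => x ∈ Q)
  have e3 : ((symmDiff H (gir χ M (fun _ => false) (fun _ => false))).filter fun Q => x ∉ Q) =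
      (symmDiff H (gir (Function.update χ x k) (updM M x m) (fun _ => false)
        (fun _ => false))).filter fun Q => x ∉ Q := by
    ext Q
    rw [Finset.mem_filter, Finset.mem_filter]
    refine and_congr_left fun hx => mem_symmDiff_congr (fun v hv => ?_) (fun u hu v hv => ?_)
    · have hvx : v ≠ x := fun h => hx (h ▸ hv)
      rw [Function.update_of_ne hvx]
    · have hvx : v ≠ x := fun h => hx (h ▸ hv)
      have hux : u ≠ x := fun h => hx (h ▸ hu)
      unfold updM
      rw [if_neg hux, if_neg hvx]
  rw [e3] at e1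
  unfold J
  omega

/-- One entry is flipped. -/
def flipM (M : Fin n → Fin n → Bool) (a b : Fin n) : Fin n → Fin n → Bool :=
  fun u v => if u = a ∧ v = b then !M a b else M u v

/-- The quadruples with two vertices of each colour at two vertices. -/
def T22 (χ : Fin n → Bool) (a b : Fin n) : Finset (Finset (Fin n)) :=
  ((univ : Finset (Fin n)).powersetCard 4).filter fun Q =>
    a ∈ Q ∧ b ∈ Q ∧ (Q.filter fun v => χ v = true).card = 2

theorem oddB_add_one (z : ZMod 2) : oddB (z + 1) = !oddB z := by
  revert z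
  decide

theorem bz_not (b : Bool) : K8.bz (!b) = K8.bz b + 1 := by
  cases b <;> decide

theorem sum_flip (M : Fin n → Fin n → Bool) (a b : Fin n) (A B : Finset (Fin n)) (ha : a ∈ A)
    (hb : b ∈ B) : ∑ u ∈ A, ∑ v ∈ B, K8.bz (flipM M a b u v) =
      ∑ u ∈ A, ∑ v ∈ B, K8.bz (M u v) + 1 := by
  have h1 : ∀ u ∈ A, ∑ v ∈ B, K8.bz (flipM M a b u v) =
      ∑ v ∈ B, K8.bz (M u v) + if u = a then 1 else 0 := by
    intro u _
    by_cases hu : u = a
    · subst hu
      rw [if_pos rfl, ← Finset.add_sum_erase _ _ hb, ← Finset.add_sum_erase _ _ hb]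
      have h2 : ∀ v ∈ B.erase b, K8.bz (flipM M u b u v) = K8.bz (M u v) := by
        intro v hv
        unfold flipM
        rw [if_neg (fun h => (Finset.mem_erase.mp hv).1 h.2)]
      rw [Finset.sum_congr rfl h2]
      have h3 : K8.bz (flipM M u b u b) = K8.bz (M u b) + 1 := by
        unfold flipM
        rw [if_pos ⟨rfl, rfl⟩, bz_not]
      rw [h3]
      ring
    · rw [if_neg hu, add_zero]
      refine Finset.sum_congr rfl fun v _ => ?_
      unfold flipM
      rw [if_neg (fun h => hu h.1)]
  rw [Finset.sum_congr rfl h1, Finset.sum_add_distrib]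
  congr 1
  rw [Finset.sum_ite_eq' A a, if_pos ha]

theorem sum_flip_not (M : Fin n → Fin n → Bool) (a b : Fin n) (A B : Finset (Fin n))
    (h : ¬ (a ∈ A ∧ b ∈ B)) : ∑ u ∈ A, ∑ v ∈ B, K8.bz (flipM M a b u v) =
      ∑ u ∈ A, ∑ v ∈ B, K8.bz (M u v) := by
  refine Finset.sum_congr rfl fun u hu => Finset.sum_congr rfl fun v hv => ?_
  unfold flipM
  rw [if_neg]
  rintro ⟨rfl, rfl⟩
  exact h ⟨hu, hv⟩

theorem girB_flip_mem {χ : Fin n → Bool} {M : Fin n → Fin n → Bool} {f g : Finset (Fin n) → Bool}
    {a b : Fin n} (ha : χ a = false) (hb : χ b = true) {Q : Finset (Fin n)}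
    (hQ : Q ∈ T22 χ a b) : girB χ (flipM M a b) f g Q = !girB χ M f g Q := by
  obtain ⟨hQ4, haQ, hbQ, hc⟩ := Finset.mem_filter.mp hQ
  unfold girB
  rw [hc]
  simp only [show (2 : ℕ) ≠ 0 by decide, show (2 : ℕ) ≠ 1 by decide, if_false, if_true]
  rw [sum_flip M a b _ _ (Finset.mem_filter.mpr ⟨haQ, ha⟩) (Finset.mem_filter.mpr ⟨hbQ, hb⟩),
    oddB_add_one]

theorem girB_flip_notMem {χ : Fin n → Bool} {M : Fin n → Fin n → Bool}
    {f g : Finset (Fin n) → Bool} {a b : Fin n} {Q : Finset (Fin n)} (hQ4 : Q.card = 4)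
    (hQ : Q ∉ T22 χ a b) : girB χ (flipM M a b) f g Q = girB χ M f g Q := by
  unfold girB
  by_cases h0 : (Q.filter fun v => χ v = true).card = 2
  · rw [h0]
    simp only [show (2 : ℕ) ≠ 0 by decide, show (2 : ℕ) ≠ 1 by decide, if_false, if_true]
    rw [sum_flip_not]
    rintro ⟨h1, h2⟩
    exact hQ (Finset.mem_filter.mpr ⟨Finset.mem_powersetCard.mpr ⟨Finset.subset_univ _, hQ4⟩,
      (Finset.mem_filter.mp h1).1, (Finset.mem_filter.mp h2).1, h0⟩)
  · simp only [h0, if_false]

theorem T22_card (χ : Fin n → Bool) {a b : Fin n} (ha : χ a = false) (hb : χ b = true) :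
    (T22 χ a b).card ≤ ((univ.filter fun v => χ v = false).card - 1) *
      ((univ.filter fun v => χ v = true).card - 1) := by
  classical
  set A := (univ : Finset (Fin n)).filter fun v => χ v = false with hA
  set B := (univ : Finset (Fin n)).filter fun v => χ v = true with hB
  have haA : a ∈ A := Finset.mem_filter.mpr ⟨Finset.mem_univ _, ha⟩
  have hbB : b ∈ B := Finset.mem_filter.mpr ⟨Finset.mem_univ _, hb⟩
  have h1 : T22 χ a b ⊆ ((A.erase a) ×ˢ (B.erase b)).image
      (fun p => insert a (insert b ({p.1, p.2} : Finset (Fin n)))) := by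
    intro Q hQ
    obtain ⟨hQ4, haQ, hbQ, hc⟩ := Finset.mem_filter.mp hQ
    have hQc := (Finset.mem_powersetCard.mp hQ4).2
    have hab : a ≠ b := by
      rintro rfl
      rw [ha] at hb
      exact absurd hb (by decide)
    have hT : ((Q.filter fun v => χ v = true).erase b).card = 1 := by
      rw [Finset.card_erase_of_mem (Finset.mem_filter.mpr ⟨hbQ, hb⟩), hc]
    have hF0 : (Q.filter fun v => χ v = false).card = 2 := by
      have e := Finset.card_filter_add_card_filter_not (s := Q) (fun v => χ v = true)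
      have e2 : (Q.filter fun v => ¬ χ v = true) = Q.filter fun v => χ v = false := by
        refine Finset.filter_congr fun v _ => ?_
        rw [Bool.not_eq_true]
      rw [e2] at e
      omega
    have hF : ((Q.filter fun v => χ v = false).erase a).card = 1 := by
      rw [Finset.card_erase_of_mem (Finset.mem_filter.mpr ⟨haQ, ha⟩), hF0]
    obtain ⟨b', hb'⟩ := Finset.card_eq_one.mp hT
    obtain ⟨a', ha'⟩ := Finset.card_eq_one.mp hF
    have ha1 : a' ∈ (Q.filter fun v => χ v = false).erase a := by
      rw [ha']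
      exact Finset.mem_singleton_self _
    have hb1 : b' ∈ (Q.filter fun v => χ v = true).erase b := by
      rw [hb']
      exact Finset.mem_singleton_self _
    rw [Finset.mem_erase, Finset.mem_filter] at ha1 hb1
    rw [Finset.mem_image]
    refine ⟨(a', b'), ?_, ?_⟩
    · rw [Finset.mem_product]
      exact ⟨Finset.mem_erase.mpr ⟨ha1.1, Finset.mem_filter.mpr ⟨Finset.mem_univ _, ha1.2.2⟩⟩,
        Finset.mem_erase.mpr ⟨hb1.1, Finset.mem_filter.mpr ⟨Finset.mem_univ _, hb1.2.2⟩⟩⟩
    · ext v
      simp only [Finset.mem_insert, Finset.mem_singleton]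
      constructor
      · rintro (rfl | rfl | rfl | rfl)
        · exact haQ
        · exact hbQ
        · exact ha1.2.1
        · exact hb1.2.1
      · intro hv
        by_cases hva : v = a
        · exact Or.inl hva
        by_cases hvb : v = b
        · exact Or.inr (Or.inl hvb)
        rcases Bool.eq_false_or_eq_true (χ v) with h | h
        · have : v ∈ (Q.filter fun v => χ v = true).erase b :=
            Finset.mem_erase.mpr ⟨hvb, Finset.mem_filter.mpr ⟨hv, h⟩⟩
          rw [hb', Finset.mem_singleton] at this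
          exact Or.inr (Or.inr (Or.inr this))
        · have : v ∈ (Q.filter fun v => χ v = false).erase a :=
            Finset.mem_erase.mpr ⟨hva, Finset.mem_filter.mpr ⟨hv, h⟩⟩
          rw [ha', Finset.mem_singleton] at this
          exact Or.inr (Or.inr (Or.inl this))
  refine (Finset.card_le_card h1).trans (Finset.card_image_le.trans ?_)
  rw [Finset.card_product, Finset.card_erase_of_mem haA, Finset.card_erase_of_mem hbB]

theorem Near.entry {H : Finset (Finset (Fin n))} (hH : ∀ e ∈ H, e.card = 4) {χ : Fin n → Bool}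
    {M : Fin n → Fin n → Bool} (h : Near H χ M) {a b : Fin n} (ha : χ a = false)
    (hb : χ b = true) :
    2 * J22p a b H χ M ≤ ((univ.filter fun v => χ v = false).card - 1) *
      ((univ.filter fun v => χ v = true).card - 1) := by
  classical
  refine le_trans ?_ (T22_card χ ha hb)
  have h0 := h χ (flipM M a b)
  unfold dst at h0
  set D := symmDiff H (gir χ M (fun _ => false) (fun _ => false)) with hD
  set D' := symmDiff H (gir χ (flipM M a b) (fun _ => false) (fun _ => false)) with hD'
  set T := T22 χ a b with hT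
  have e1 := Finset.card_filter_add_card_filter_not (s := D) (fun Q => Q ∈ T)
  have e2 := Finset.card_filter_add_card_filter_not (s := T) (fun Q => Q ∈ D)
  have e3 : (D.filter fun Q => Q ∈ T) = T.filter fun Q => Q ∈ D := by
    ext Q
    rw [Finset.mem_filter, Finset.mem_filter, and_comm]
  have e4 : J22p a b H χ M = (D.filter fun Q => Q ∈ T).card := by
    unfold J22p
    congr 1
    refine Finset.filter_congr fun Q hQ => ?_
    rw [hT]
    unfold T22
    rw [Finset.mem_filter, Finset.mem_powersetCard]
    exact ⟨fun h => ⟨⟨Finset.subset_univ _, card_four_of_mem hH hQ⟩, h⟩, fun h => h.2⟩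
  have e5 : D' ⊆ (D.filter fun Q => ¬ Q ∈ T) ∪ (T.filter fun Q => ¬ Q ∈ D) := by
    intro Q hQ
    have hQ4 := card_four_of_mem hH hQ
    rw [Finset.mem_union, Finset.mem_filter, Finset.mem_filter]
    rw [hD', Finset.mem_symmDiff] at hQ
    by_cases hQT : Q ∈ T
    · refine Or.inr ⟨hQT, ?_⟩
      have hg := girB_flip_mem (M := M) (f := fun _ => false) (g := fun _ => false) ha hb hQT
      rw [← dec_gir _ _ _ _ _ hQ4, ← dec_gir _ _ _ _ _ hQ4] at hg
      rw [hD, Finset.mem_symmDiff]
      by_cases g1 : Q ∈ gir χ M (fun _ => false) (fun _ => false) <;>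
        by_cases g2 : Q ∈ gir χ (flipM M a b) (fun _ => false) (fun _ => false) <;>
        simp only [g1, g2, decide_true, decide_false] at hg <;> tauto
    · refine Or.inl ⟨?_, hQT⟩
      have hg := girB_flip_notMem (M := M) (f := fun _ => false) (g := fun _ => false) hQ4 hQT
      rw [← dec_gir _ _ _ _ _ hQ4, ← dec_gir _ _ _ _ _ hQ4, decide_eq_decide] at hg
      rw [hD, Finset.mem_symmDiff]
      tauto
  have e6 := (Finset.card_le_card e5).trans (Finset.card_union_le _ _)
  rw [e3] at e1 e4
  omega

/-! ### The optimum -/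

/-- The number of edges minus a multiple of the number of copies of `K_5`. -/
noncomputable def Phi (L : ℝ) (H : Finset (Finset (Fin n))) : ℝ :=
  (H.card : ℝ) - L / n * (T5 H 5 : ℝ)

/-- The 4-graphs that are close to a structure. -/
def Cls (x0 : ℝ) (H : Finset (Finset (Fin n))) : Prop :=
  (∀ e ∈ H, e.card = 4) ∧ ∃ (χ : Fin n → Bool) (M : Fin n → Fin n → Bool),
    (dst H χ M : ℝ) ≤ x0 * ((n.choose 4 : ℕ) : ℝ)

/-- An optimal 4-graph and a nearest structure. -/
structure Opt (L x0 : ℝ) (H : Finset (Finset (Fin n))) (χ : Fin n → Bool)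
    (M : Fin n → Fin n → Bool) : Prop where
  h4 : ∀ e ∈ H, e.card = 4
  dist : (dst H χ M : ℝ) ≤ x0 * ((n.choose 4 : ℕ) : ℝ)
  near : Near H χ M
  max : ∀ H' : Finset (Finset (Fin n)), Cls x0 H' → Phi L H' ≤ Phi L H

theorem exists_opt (L : ℝ) {x0 : ℝ} (hx0 : 0 ≤ x0) : ∃ (H : Finset (Finset (Fin n)))
    (χ : Fin n → Bool) (M : Fin n → Fin n → Bool), Opt L x0 H χ M := by
  classical
  have hne : ((univ : Finset (Finset (Finset (Fin n)))).filter fun H => Cls x0 H).Nonempty := by
    refine ⟨gir (fun _ => false) (fun _ _ => false) (fun _ => false) (fun _ => false),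
      Finset.mem_filter.mpr ⟨Finset.mem_univ _, gir_card _ _ _ _, fun _ => false,
        fun _ _ => false, ?_⟩⟩
    unfold dst
    rw [symmDiff_self]
    simp only [Finset.bot_eq_empty, Finset.card_empty, Nat.cast_zero]
    positivity
  obtain ⟨H, hH, hmax⟩ := Finset.exists_max_image _ (fun H => Phi L H) hne
  obtain ⟨-, h4, χ0, M0, hd⟩ := Finset.mem_filter.mp hH
  obtain ⟨p, -, hp⟩ := Finset.exists_min_image
    (Finset.univ : Finset ((Fin n → Bool) × (Fin n → Fin n → Bool)))
    (fun p => dst H p.1 p.2) ⟨(χ0, M0), Finset.mem_univ _⟩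
  refine ⟨H, p.1, p.2, h4, ?_, fun χ' M' => hp (χ', M') (Finset.mem_univ _),
    fun H' hH' => hmax H' (Finset.mem_filter.mpr ⟨Finset.mem_univ _, hH'⟩)⟩
  refine le_trans ?_ hd
  exact_mod_cast hp (χ0, M0) (Finset.mem_univ _)

section opt
variable {L x0 : ℝ} {H : Finset (Finset (Fin n))} {χ : Fin n → Bool} {M : Fin n → Fin n → Bool}

theorem Opt.rep (h : Opt L x0 H χ M) (W : Finset (Fin n) → Prop) [DecidablePred W] :
    Phi L (rep H (gir χ M (fun _ => false) (fun _ => false)) W) ≤ Phi L H := by
  refine h.max _ ⟨rep_card4 h.h4 (gir_card _ _ _ _), χ, M, le_trans ?_ h.dist⟩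
  unfold dst
  exact_mod_cast Finset.card_le_card symmDiff_rep_subset

/-- Lower bound for the degrees. -/
theorem Opt.deg (h : Opt L x0 H χ M) (hL : 0 ≤ L)
    (hG : ∀ S : Finset (Fin n), S.card = 5 →
      ∃ e ∈ S.powersetCard 4, e ∉ gir χ M (fun _ => false) (fun _ => false)) (x : Fin n) :
    (dg (gir χ M (fun _ => false) (fun _ => false)) x : ℝ) ≤ dg H x +
      L / n * ((dst H χ M : ℝ) - k5v H x) := by
  have h1 := h.rep fun Q => x ∈ Q
  have h2 := rep_card (H := H) (G := gir χ M (fun _ => false) (fun _ => false))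
    (W := fun Q => x ∈ Q)
  have h3 := T5_rep_vertex (H := H) hG x
  set H' := VS.rep H (gir χ M (fun _ => false) (fun _ => false)) fun Q => x ∈ Q with hH'
  have h2' : (H'.card : ℝ) + dg H x =
      H.card + dg (gir χ M (fun _ => false) (fun _ => false)) x := by
    unfold dg
    exact_mod_cast h2
  have h3' : (T5 H' 5 : ℝ) + k5v H x ≤ T5 H 5 + dst H χ M := by
    unfold dst
    exact_mod_cast h3
  unfold Phi at h1
  have hLn : 0 ≤ L / n := by positivity
  have h4 : L / n * (T5 H' 5 : ℝ) + L / n * k5v H x ≤ L / n * T5 H 5 + L / n * dst H χ M := by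
    rw [← mul_add, ← mul_add]
    exact mul_le_mul_of_nonneg_left h3' hLn
  rw [mul_sub]
  linarith

/-- Lower bound for the codegrees. -/
theorem Opt.cdeg (h : Opt L x0 H χ M) (hL : 0 ≤ L)
    (hG : ∀ S : Finset (Fin n), S.card = 5 →
      ∃ e ∈ S.powersetCard 4, e ∉ gir χ M (fun _ => false) (fun _ => false)) (a b : Fin n)
    (hab : a ≠ b) :
    (cd (gir χ M (fun _ => false) (fun _ => false)) a b : ℝ) ≤ cd H a b +
      L / n * ((J a H χ M : ℝ) + J b H χ M - k5p H a b) := by
  have h1 := h.rep fun Q => a ∈ Q ∧ b ∈ Q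
  have h2 := rep_card (H := H) (G := gir χ M (fun _ => false) (fun _ => false))
    (W := fun Q => a ∈ Q ∧ b ∈ Q)
  have h3 := T5_rep_pair (H := H) hG a b hab
  set H' := VS.rep H (gir χ M (fun _ => false) (fun _ => false)) fun Q => a ∈ Q ∧ b ∈ Q with hH'
  have h2' : (H'.card : ℝ) + cd H a b =
      H.card + cd (gir χ M (fun _ => false) (fun _ => false)) a b := by
    unfold cd
    exact_mod_cast h2
  have h3' : (T5 H' 5 : ℝ) + k5p H a b ≤ T5 H 5 + ((J a H χ M : ℝ) + J b H χ M) := by
    unfold J
    exact_mod_cast h3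
  unfold Phi at h1
  have hLn : 0 ≤ L / n := by positivity
  have h4 : L / n * (T5 H' 5 : ℝ) + L / n * k5p H a b ≤
      L / n * T5 H 5 + L / n * ((J a H χ M : ℝ) + J b H χ M) := by
    rw [← mul_add, ← mul_add]
    exact mul_le_mul_of_nonneg_left h3' hLn
  rw [mul_sub]
  linarith

end opt

/-- The degree is the number of triples of the link. -/
theorem link_card {H : Finset (Finset (Fin n))} (hH : ∀ e ∈ H, e.card = 4) (x : Fin n) :
    (((univ : Finset (Fin n)).powersetCard 3).filter fun T => insert x T ∈ H).card = dg H x := by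
  classical
  unfold dg
  refine Finset.card_bij (fun T _ => insert x T) ?_ ?_ ?_
  · intro T hT
    exact Finset.mem_filter.mpr ⟨(Finset.mem_filter.mp hT).2, Finset.mem_insert_self _ _⟩
  · intro T hT R hR h
    have key : ∀ T ∈ ((univ : Finset (Fin n)).powersetCard 3).filter fun T => insert x T ∈ H,
        x ∉ T := by
      intro T hT hx
      obtain ⟨h1, h2⟩ := Finset.mem_filter.mp hT
      have h3 := hH _ h2
      rw [Finset.insert_eq_of_mem hx, (Finset.mem_powersetCard.mp h1).2] at h3
      exact absurd h3 (by decide)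
    have h' : insert x T = insert x R := h
    rw [← Finset.erase_insert (key T hT), h', Finset.erase_insert (key R hR)]
  · intro Q hQ
    obtain ⟨h1, h2⟩ := Finset.mem_filter.mp hQ
    refine ⟨Q.erase x, ?_, Finset.insert_erase h2⟩
    rw [Finset.mem_filter, Finset.mem_powersetCard, Finset.insert_erase h2]
    exact ⟨⟨Finset.subset_univ _, by rw [Finset.card_erase_of_mem h2, hH Q h1]⟩, h1⟩

end Pool.Agent.Lib.MP_afdd4d_co.K9.Star.VS
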