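import Mathlib

/-!
# The pair lemma, abstract part

Two classes `A`, `B` of the vertex set, a symmetric 0-1 function `l` (the co-link of two roots `a`
and `b` in the 4-graph), and signs `m u z`, `sa z`, `sb u`, `s0` (the relation between the two
classes, with the two roots).  If the edges of the co-link obey the local conditions up to a small
error and the relation has small correlations, then the number of pairs in the co-link is at most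
three quarters, minus the product of the parts of wrong and right pairs.
-/

set_option autoImplicit false

namespace Pool.Agent.Lib.MP_afdd4d_co.K9.Star.TA

open Finset

variable {V : Type*}

theorem tri (A B : Finset V) (x : V → V → ℝ) (hx : ∀ u ∈ A, ∀ z ∈ B, x u z = 1 ∨ x u z = -1) :
    ((A.card : ℝ) * B.card) ^ 2 - (∑ u ∈ A, ∑ z ∈ B, x u z) ^ 2 ≤
      B.card * ∑ z ∈ B, ((A.card : ℝ) ^ 2 - (∑ u ∈ A, x u z) ^ 2) +
      A.card * ∑ u ∈ A, ((B.card : ℝ) ^ 2 - (∑ z ∈ B, x u z) ^ 2) := by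
  have key : ∑ u ∈ A, ∑ z ∈ B, ∑ u' ∈ A, ∑ z' ∈ B, (1 - x u z * x u' z') ≤
      ∑ u ∈ A, ∑ z ∈ B, ∑ u' ∈ A, ∑ z' ∈ B,
        ((1 - x u z * x u' z) + (1 - x u' z * x u' z')) := by
    refine Finset.sum_le_sum fun u hu => Finset.sum_le_sum fun z hz =>
      Finset.sum_le_sum fun u' hu' => Finset.sum_le_sum fun z' hz' => ?_
    rcases hx u hu z hz with h1 | h1 <;> rcases hx u' hu' z hz with h2 | h2 <;>
      rcases hx u' hu' z' hz' with h3 | h3 <;> rw [h1, h2, h3] <;> norm_num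
  have e1 : ∑ u ∈ A, ∑ z ∈ B, ∑ u' ∈ A, ∑ z' ∈ B, (1 - x u z * x u' z') =
      ((A.card : ℝ) * B.card) ^ 2 - (∑ u ∈ A, ∑ z ∈ B, x u z) ^ 2 := by
    have h : ∀ u z, ∑ u' ∈ A, ∑ z' ∈ B, (1 - x u z * x u' z') =
        (A.card : ℝ) * B.card - x u z * ∑ u' ∈ A, ∑ z' ∈ B, x u' z' := by
      intro u z
      simp only [Finset.sum_sub_distrib, Finset.sum_const, nsmul_eq_mul, mul_one,
        Finset.mul_sum]
    simp only [h]
    simp only [Finset.sum_sub_distrib, Finset.sum_const, nsmul_eq_mul, ← Finset.sum_mul]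
    ring
  have e2 : ∑ u ∈ A, ∑ z ∈ B, ∑ u' ∈ A, ∑ z' ∈ B, (1 - x u z * x u' z) =
      B.card * ∑ z ∈ B, ((A.card : ℝ) ^ 2 - (∑ u ∈ A, x u z) ^ 2) := by
    have h : ∀ u z, ∑ u' ∈ A, ∑ z' ∈ B, (1 - x u z * x u' z) =
        (B.card : ℝ) * (A.card - x u z * ∑ u' ∈ A, x u' z) := by
      intro u z
      simp only [Finset.sum_const, nsmul_eq_mul]
      rw [← Finset.mul_sum]
      congr 1
      rw [Finset.sum_sub_distrib, Finset.sum_const, nsmul_eq_mul, mul_one, Finset.mul_sum]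
    simp only [h]
    rw [Finset.sum_comm, Finset.mul_sum]
    refine Finset.sum_congr rfl fun z _ => ?_
    rw [← Finset.mul_sum]
    congr 1
    rw [Finset.sum_sub_distrib, Finset.sum_const, nsmul_eq_mul, ← Finset.sum_mul]
    ring
  have e3 : ∑ u ∈ A, ∑ z ∈ B, ∑ u' ∈ A, ∑ z' ∈ B, (1 - x u' z * x u' z') =
      A.card * ∑ u ∈ A, ((B.card : ℝ) ^ 2 - (∑ z ∈ B, x u z) ^ 2) := by
    rw [Finset.sum_const, nsmul_eq_mul]
    congr 1
    rw [Finset.sum_comm]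
    refine Finset.sum_congr rfl fun u _ => ?_
    have h : ∀ z, ∑ z' ∈ B, (1 - x u z * x u z') = (B.card : ℝ) - x u z * ∑ z' ∈ B, x u z' := by
      intro z
      rw [Finset.sum_sub_distrib, Finset.sum_const, nsmul_eq_mul, mul_one, Finset.mul_sum]
    simp only [h]
    rw [Finset.sum_sub_distrib, Finset.sum_const, nsmul_eq_mul, ← Finset.sum_mul]
    ring
  have e4 : ∑ u ∈ A, ∑ z ∈ B, ∑ u' ∈ A, ∑ z' ∈ B,
        ((1 - x u z * x u' z) + (1 - x u' z * x u' z')) =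
      (∑ u ∈ A, ∑ z ∈ B, ∑ u' ∈ A, ∑ z' ∈ B, (1 - x u z * x u' z)) +
      ∑ u ∈ A, ∑ z ∈ B, ∑ u' ∈ A, ∑ z' ∈ B, (1 - x u' z * x u' z') := by
    simp only [Finset.sum_add_distrib]
  rw [e1, e4, e2, e3] at key
  exact key

theorem side (A B : Finset V) (l m : V → V → ℝ) (s : V → ℝ) (EA : ℝ)
    (hl : ∀ u v, l u v = 0 ∨ l u v = 1) (hm : ∀ u v, m u v = 1 ∨ m u v = -1)
    (hs : ∀ v, s v = 1 ∨ s v = -1)
    (hEA : ∑ u ∈ A, ∑ u' ∈ A, ∑ z ∈ B,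
        l u z * l u' z * ((1 - s u * m u z * (s u' * m u' z)) / 2) ≤
      (∑ u ∈ A, ∑ u' ∈ A, ∑ z ∈ B, (1 - l u u') * ((1 - s u * m u z * (s u' * m u' z)) / 2)) +
        EA) :
    ∑ z ∈ B, ((A.card : ℝ) ^ 2 - (∑ u ∈ A, s u * m u z * (1 - 2 * l u z)) ^ 2) ≤
      2 * (A.card : ℝ) ^ 2 * B.card - 4 * A.card * (∑ u ∈ A, ∑ z ∈ B, l u z) +
      4 * (B.card * (∑ u ∈ A, ∑ u' ∈ A, (1 - l u u')) +
        (∑ u ∈ A, ∑ u' ∈ A, |∑ z ∈ B, m u z * m u' z|) + 2 * EA) +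
      4 * A.card * ∑ z ∈ B, |∑ u ∈ A, s u * m u z| := by
  -- pointwise in z
  have h1 : ∀ z ∈ B, (A.card : ℝ) ^ 2 - (∑ u ∈ A, s u * m u z * (1 - 2 * l u z)) ^ 2 ≤
      2 * (A.card : ℝ) ^ 2 - 4 * A.card * (∑ u ∈ A, l u z) +
      4 * ((∑ u ∈ A, l u z) ^ 2 - (∑ u ∈ A, s u * m u z * l u z) ^ 2) +
      4 * A.card * |∑ u ∈ A, s u * m u z| := by
    intro z _
    have hP : ∑ u ∈ A, s u * m u z * (1 - 2 * l u z) =
        (∑ u ∈ A, s u * m u z) - 2 * ∑ u ∈ A, s u * m u z * l u z := by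
      rw [Finset.mul_sum, ← Finset.sum_sub_distrib]
      refine Finset.sum_congr rfl fun u _ => ?_
      ring
    have hX : |∑ u ∈ A, s u * m u z * l u z| ≤ A.card := by
      refine (Finset.abs_sum_le_sum_abs _ _).trans ?_
      have : ∀ u ∈ A, |s u * m u z * l u z| ≤ 1 := by
        intro u _
        rcases hs u with h | h <;> rcases hm u z with h' | h' <;> rcases hl u z with h'' | h'' <;>
          rw [h, h', h''] <;> norm_num
      refine (Finset.sum_le_sum this).trans ?_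
      simp
    rw [hP]
    set R := ∑ u ∈ A, s u * m u z with hR
    set X := ∑ u ∈ A, s u * m u z * l u z with hXd
    set Y := ∑ u ∈ A, l u z with hY
    have hRX : R * X ≤ A.card * |R| := by
      have h := le_abs_self (R * X)
      rw [abs_mul] at h
      have h' := mul_le_mul_of_nonneg_left hX (abs_nonneg R)
      linarith [mul_comm (|R|) (A.card : ℝ)]
    nlinarith [sq_nonneg R, sq_nonneg (2 * Y - A.card)]
  refine (Finset.sum_le_sum h1).trans ?_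
  -- the quadratic term
  have h2 : ∑ z ∈ B, ((∑ u ∈ A, l u z) ^ 2 - (∑ u ∈ A, s u * m u z * l u z) ^ 2) =
      2 * ∑ u ∈ A, ∑ u' ∈ A, ∑ z ∈ B,
        l u z * l u' z * ((1 - s u * m u z * (s u' * m u' z)) / 2) := by
    have e : ∀ z, (∑ u ∈ A, l u z) ^ 2 - (∑ u ∈ A, s u * m u z * l u z) ^ 2 =
        ∑ u ∈ A, ∑ u' ∈ A, 2 * (l u z * l u' z * ((1 - s u * m u z * (s u' * m u' z)) / 2)) := by
      intro z
      rw [sq, sq, Finset.sum_mul_sum, Finset.sum_mul_sum, ← Finset.sum_sub_distrib]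
      refine Finset.sum_congr rfl fun u _ => ?_
      rw [← Finset.sum_sub_distrib]
      refine Finset.sum_congr rfl fun u' _ => ?_
      ring
    simp only [e]
    rw [Finset.sum_comm, Finset.mul_sum]
    refine Finset.sum_congr rfl fun u _ => ?_
    rw [Finset.sum_comm, Finset.mul_sum]
    refine Finset.sum_congr rfl fun u' _ => ?_
    rw [Finset.mul_sum]
  have h3 : 2 * ∑ u ∈ A, ∑ u' ∈ A, ∑ z ∈ B,
      (1 - l u u') * ((1 - s u * m u z * (s u' * m u' z)) / 2) ≤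
      B.card * (∑ u ∈ A, ∑ u' ∈ A, (1 - l u u')) +
        (∑ u ∈ A, ∑ u' ∈ A, |∑ z ∈ B, m u z * m u' z|) := by
    rw [Finset.mul_sum, Finset.mul_sum, ← Finset.sum_add_distrib]
    refine Finset.sum_le_sum fun u _ => ?_
    rw [Finset.mul_sum, Finset.mul_sum, ← Finset.sum_add_distrib]
    refine Finset.sum_le_sum fun u' _ => ?_
    have e : 2 * ∑ z ∈ B, (1 - l u u') * ((1 - s u * m u z * (s u' * m u' z)) / 2) =
        (1 - l u u') * (B.card - s u * s u' * ∑ z ∈ B, m u z * m u' z) := by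
      have : ∑ z ∈ B, (1 - s u * m u z * (s u' * m u' z)) / 2 =
          ((B.card : ℝ) - s u * s u' * ∑ z ∈ B, (m u z * m u' z)) / 2 := by
        rw [← Finset.sum_div, Finset.sum_sub_distrib, Finset.sum_const, nsmul_eq_mul, mul_one,
          Finset.mul_sum]
        congr 2
        refine Finset.sum_congr rfl fun z _ => ?_
        ring
      rw [← Finset.mul_sum, this]
      ring
    rw [e]
    set C := ∑ z ∈ B, m u z * m u' z
    have hC1 := neg_abs_le C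
    have hC2 := le_abs_self C
    have hC0 := abs_nonneg C
    rcases hl u u' with h | h
    · rw [h]
      rcases hs u with h' | h' <;> rcases hs u' with h'' | h'' <;> rw [h', h''] <;> linarith
    · rw [h]
      linarith
  have h4 : ∑ z ∈ B, (2 * (A.card : ℝ) ^ 2 - 4 * A.card * (∑ u ∈ A, l u z) +
      4 * ((∑ u ∈ A, l u z) ^ 2 - (∑ u ∈ A, s u * m u z * l u z) ^ 2) +
      4 * A.card * |∑ u ∈ A, s u * m u z|) =
      2 * (A.card : ℝ) ^ 2 * B.card - 4 * A.card * (∑ u ∈ A, ∑ z ∈ B, l u z) +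
      4 * (∑ z ∈ B, ((∑ u ∈ A, l u z) ^ 2 - (∑ u ∈ A, s u * m u z * l u z) ^ 2)) +
      4 * A.card * ∑ z ∈ B, |∑ u ∈ A, s u * m u z| := by
    rw [Finset.sum_add_distrib, Finset.sum_add_distrib, Finset.sum_sub_distrib,
      Finset.sum_const, nsmul_eq_mul, ← Finset.mul_sum, ← Finset.mul_sum, ← Finset.mul_sum,
      Finset.sum_comm (s := A) (t := B)]
    ring
  rw [h4, h2]
  linarith


/-- the sum of the absolute values of the correlations. -/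
theorem corr_abs {n : ℕ} (A B : Finset V) (m : V → V → ℝ) (r : ℝ)
    (hq : ∑ u ∈ A, ∑ u' ∈ A, (∑ z ∈ B, m u z * m u' z) ^ 2 ≤ r ^ 4 * (n : ℝ) ^ 4) :
    ∑ u ∈ A, ∑ u' ∈ A, |∑ z ∈ B, m u z * m u' z| ≤ A.card * (r ^ 2 * (n : ℝ) ^ 2) := by
  have h0 : 0 ≤ (A.card : ℝ) * (r ^ 2 * (n : ℝ) ^ 2) := by positivity
  refine le_of_abs_le (abs_le_of_sq_le_sq ?_ h0)
  rw [← Finset.sum_product' (f := fun u u' => |∑ z ∈ B, m u z * m u' z|)]
  refine (sq_sum_le_card_mul_sum_sq).trans ?_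
  simp only [sq_abs]
  rw [Finset.sum_product' (f := fun u u' => (∑ z ∈ B, m u z * m u' z) ^ 2), Finset.card_product]
  push_cast
  calc (A.card : ℝ) * A.card * ∑ u ∈ A, ∑ u' ∈ A, (∑ z ∈ B, m u z * m u' z) ^ 2
      ≤ (A.card : ℝ) * A.card * (r ^ 4 * (n : ℝ) ^ 4) :=
        mul_le_mul_of_nonneg_left hq (by positivity)
    _ = ((A.card : ℝ) * (r ^ 2 * (n : ℝ) ^ 2)) ^ 2 := by ring

theorem lin_abs {n : ℕ} (A B : Finset V) (m : V → V → ℝ) (s : V → ℝ) (r : ℝ) (hr : 0 ≤ r)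
    (hs : ∀ v, s v = 1 ∨ s v = -1) (hAB : (A.card : ℝ) * B.card ≤ (n : ℝ) ^ 2 / 4)
    (hq : ∑ u ∈ A, ∑ u' ∈ A, |∑ z ∈ B, m u z * m u' z| ≤ A.card * (r ^ 2 * (n : ℝ) ^ 2)) :
    ∑ z ∈ B, |∑ u ∈ A, s u * m u z| ≤ r * (n : ℝ) ^ 2 / 2 := by
  have h0 : 0 ≤ r * (n : ℝ) ^ 2 / 2 := by positivity
  refine le_of_abs_le (abs_le_of_sq_le_sq ?_ h0)
  refine (sq_sum_le_card_mul_sum_sq).trans ?_
  simp only [sq_abs]
  have h1 : ∑ z ∈ B, (∑ u ∈ A, s u * m u z) ^ 2 =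
      ∑ u ∈ A, ∑ u' ∈ A, s u * s u' * ∑ z ∈ B, m u z * m u' z := by
    have e : ∀ z, (∑ u ∈ A, s u * m u z) ^ 2 =
        ∑ u ∈ A, ∑ u' ∈ A, s u * s u' * (m u z * m u' z) := by
      intro z
      rw [sq, Finset.sum_mul_sum]
      refine Finset.sum_congr rfl fun u _ => Finset.sum_congr rfl fun u' _ => ?_
      ring
    simp only [e]
    rw [Finset.sum_comm]
    refine Finset.sum_congr rfl fun u _ => ?_
    rw [Finset.sum_comm]
    refine Finset.sum_congr rfl fun u' _ => ?_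
    rw [Finset.mul_sum]
  have h2 : ∑ u ∈ A, ∑ u' ∈ A, s u * s u' * ∑ z ∈ B, m u z * m u' z ≤
      ∑ u ∈ A, ∑ u' ∈ A, |∑ z ∈ B, m u z * m u' z| := by
    refine Finset.sum_le_sum fun u _ => Finset.sum_le_sum fun u' _ => ?_
    set C := ∑ z ∈ B, m u z * m u' z
    have hC1 := neg_abs_le C
    have hC2 := le_abs_self C
    rcases hs u with h' | h' <;> rcases hs u' with h'' | h'' <;> rw [h', h''] <;> linarith
  rw [h1]
  have h3 := h2.trans hq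
  calc (B.card : ℝ) * ∑ u ∈ A, ∑ u' ∈ A, s u * s u' * ∑ z ∈ B, m u z * m u' z
      ≤ B.card * (A.card * (r ^ 2 * (n : ℝ) ^ 2)) := mul_le_mul_of_nonneg_left h3 (by positivity)
    _ = (A.card * B.card) * (r ^ 2 * (n : ℝ) ^ 2) := by ring
    _ ≤ ((n : ℝ) ^ 2 / 4) * (r ^ 2 * (n : ℝ) ^ 2) :=
        mul_le_mul_of_nonneg_right hAB (by positivity)
    _ = (r * (n : ℝ) ^ 2 / 2) ^ 2 := by ring

/-- `(1 - s u * m u z * (s u' * m u' z)) / 2` is `1` if the two signs differ and `0` if not. -/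
noncomputable def dif (s : V → ℝ) (m : V → V → ℝ) (u u' z : V) : ℝ :=
  (1 - s u * m u z * (s u' * m u' z)) / 2

/-- the indicator of a wrong pair: `l u z = 1` and the sign product is `1`, or `l u z = 0` and
the sign product is `-1`. -/
noncomputable def wr (l m : V → V → ℝ) (sa sb : V → ℝ) (s0 : ℝ) (u z : V) : ℝ :=
  (1 + s0 * sa z * sb u * m u z * (2 * l u z - 1)) / 2

/-- the number of wrong pairs. -/
noncomputable def wrS (A B : Finset V) (l m : V → V → ℝ) (sa sb : V → ℝ) (s0 : ℝ) : ℝ :=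
  ∑ u ∈ A, ∑ z ∈ B, wr l m sa sb s0 u z

/-- the basic inequality. -/
theorem pair_abs (A B : Finset V) (l m : V → V → ℝ) (sa sb : V → ℝ) (s0 : ℝ)
    (hl : ∀ u v, l u v = 0 ∨ l u v = 1) (hls : ∀ u v, l u v = l v u)
    (hm : ∀ u v, m u v = 1 ∨ m u v = -1)
    (hsa : ∀ v, sa v = 1 ∨ sa v = -1) (hsb : ∀ v, sb v = 1 ∨ sb v = -1)
    (hs0 : s0 = 1 ∨ s0 = -1) (EA EB : ℝ)
    (hEA : ∑ u ∈ A, ∑ u' ∈ A, ∑ z ∈ B, l u z * l u' z * dif sb m u u' z ≤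
      (∑ u ∈ A, ∑ u' ∈ A, ∑ z ∈ B, (1 - l u u') * dif sb m u u' z) + EA)
    (hEB : ∑ z ∈ B, ∑ z' ∈ B, ∑ u ∈ A, l z u * l z' u * dif sa (fun z u => m u z) z z' u ≤
      (∑ z ∈ B, ∑ z' ∈ B, ∑ u ∈ A, (1 - l z z') * dif sa (fun z u => m u z) z z' u) + EB) :
    wrS A B l m sa sb s0 * (A.card * B.card - wrS A B l m sa sb s0) ≤
      (A.card : ℝ) ^ 2 * (B.card : ℝ) ^ 2
      - 2 * A.card * B.card * (∑ u ∈ A, ∑ z ∈ B, l u z)
      + (B.card : ℝ) ^ 2 * (∑ u ∈ A, ∑ u' ∈ A, (1 - l u u'))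
      + (A.card : ℝ) ^ 2 * (∑ z ∈ B, ∑ z' ∈ B, (1 - l z z'))
      + B.card * ((∑ u ∈ A, ∑ u' ∈ A, |∑ z ∈ B, m u z * m u' z|) + 2 * EA)
      + A.card * ((∑ z ∈ B, ∑ z' ∈ B, |∑ u ∈ A, m u z * m u z'|) + 2 * EB)
      + A.card * B.card * ((∑ z ∈ B, |∑ u ∈ A, sb u * m u z|) +
        ∑ u ∈ A, |∑ z ∈ B, sa z * m u z|) := by
  have hA := side A B l m sb EA hl hm hsb hEA
  have hB := side B A l (fun z u => m u z) sa EB hl (fun u v => hm v u) hsa hEB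
  have hx : ∀ u ∈ A, ∀ z ∈ B, 1 - 2 * wr l m sa sb s0 u z = 1 ∨
      1 - 2 * wr l m sa sb s0 u z = -1 := by
    intro u _ z _
    unfold wr
    rcases hs0 with h1 | h1 <;> rcases hsa z with h2 | h2 <;> rcases hsb u with h3 | h3 <;>
      rcases hm u z with h4 | h4 <;> rcases hl u z with h5 | h5 <;>
      rw [h1, h2, h3, h4, h5] <;> norm_num
  have hT := tri A B (fun u z => 1 - 2 * wr l m sa sb s0 u z) hx
  have h1 : ∑ u ∈ A, ∑ z ∈ B, (1 - 2 * wr l m sa sb s0 u z) =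
      A.card * B.card - 2 * wrS A B l m sa sb s0 := by
    unfold wrS
    simp only [Finset.sum_sub_distrib, Finset.sum_const, nsmul_eq_mul, mul_one, ← Finset.mul_sum]
  have h2 : ∀ z, (∑ u ∈ A, (1 - 2 * wr l m sa sb s0 u z)) ^ 2 =
      (∑ u ∈ A, sb u * m u z * (1 - 2 * l u z)) ^ 2 := by
    intro z
    have e : ∑ u ∈ A, (1 - 2 * wr l m sa sb s0 u z) =
        s0 * sa z * ∑ u ∈ A, sb u * m u z * (1 - 2 * l u z) := by
      rw [Finset.mul_sum]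
      refine Finset.sum_congr rfl fun u _ => ?_
      unfold wr
      ring
    rw [e]
    rcases hs0 with h1 | h1 <;> rcases hsa z with h2 | h2 <;> rw [h1, h2] <;> ring
  have h3 : ∀ u, (∑ z ∈ B, (1 - 2 * wr l m sa sb s0 u z)) ^ 2 =
      (∑ z ∈ B, sa z * m u z * (1 - 2 * l z u)) ^ 2 := by
    intro u
    have e : ∑ z ∈ B, (1 - 2 * wr l m sa sb s0 u z) =
        s0 * sb u * ∑ z ∈ B, sa z * m u z * (1 - 2 * l z u) := by
      rw [Finset.mul_sum]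
      refine Finset.sum_congr rfl fun z _ => ?_
      unfold wr
      rw [hls z u]
      ring
    rw [e]
    rcases hs0 with h1 | h1 <;> rcases hsb u with h2 | h2 <;> rw [h1, h2] <;> ring
  have h4 : ∑ z ∈ B, ∑ u ∈ A, l z u = ∑ u ∈ A, ∑ z ∈ B, l u z := by
    rw [Finset.sum_comm]
    exact Finset.sum_congr rfl fun u _ => Finset.sum_congr rfl fun z _ => hls z u
  simp only [h1, h2, h3] at hT
  rw [h4] at hB
  have hA' := mul_le_mul_of_nonneg_left hA (Nat.cast_nonneg (α := ℝ) B.card)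
  have hB' := mul_le_mul_of_nonneg_left hB (Nat.cast_nonneg (α := ℝ) A.card)
  linarith


/-- the sizes. -/
theorem num_aux (a b n s LA LB e : ℝ) (ha : 0 ≤ a) (hb : 0 ≤ b) (hn : a + b = n)
    (hs : |a - n / 2| ≤ s * n) (hLA0 : 0 ≤ LA) (hLA : LA ≤ a ^ 2) (hLB0 : 0 ≤ LB)
    (hLB : LB ≤ b ^ 2) (he0 : 0 ≤ e) (he : e ≤ a * b) :
    4 * (a ^ 2 * b ^ 2 - 2 * a * b * e + b ^ 2 * (a ^ 2 - LA) + a ^ 2 * (b ^ 2 - LB)) +
      n ^ 2 * (LA + LB + 2 * e) ≤ 3 / 4 * n ^ 4 + 8 * s * n ^ 4 := by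
  have hn0 : 0 ≤ n := by linarith
  have hd := abs_le.mp hs
  have h1 : a - b ≤ 2 * (s * n) := by linarith [hd.2]
  have h2 : b - a ≤ 2 * (s * n) := by linarith [hd.1]
  have hsn : 0 ≤ s * n := by linarith
  have hab : 4 * (a * b) ≤ n ^ 2 := by
    rw [← hn]
    nlinarith [sq_nonneg (a - b)]
  have hab0 : 0 ≤ a * b := mul_nonneg ha hb
  have h12 : 12 * (a ^ 2 * b ^ 2) ≤ 3 / 4 * n ^ 4 := by
    have : (4 * (a * b)) * (4 * (a * b)) ≤ n ^ 2 * n ^ 2 :=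
      mul_le_mul hab hab (by positivity) (by positivity)
    nlinarith
  have hann : a ≤ n := by linarith
  have hbnn : b ≤ n := by linarith
  -- the first class
  have hA : (n ^ 2 - 4 * b ^ 2) * LA ≤ 2 * (s * n) * (3 * n) * n ^ 2 * (1 / 2) := by
    have e1 : n ^ 2 - 4 * b ^ 2 = (a - b) * (a + 3 * b) := by rw [← hn]; ring
    rw [e1]
    have hp : 0 ≤ (a + 3 * b) * LA := by positivity
    have hq : (a + 3 * b) * LA ≤ n ^ 3 := by
      have : (a + 3 * b) * LA ≤ (a + 3 * b) * a ^ 2 := mul_le_mul_of_nonneg_left hLA (by positivity)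
      have h' : (a + 3 * b) * a ^ 2 ≤ (a + b) ^ 3 := by
        have : 0 ≤ 3 * a * b ^ 2 + b ^ 3 := by positivity
        nlinarith
      rw [hn] at h'
      linarith
    calc (a - b) * (a + 3 * b) * LA = (a - b) * ((a + 3 * b) * LA) := by ring
      _ ≤ 2 * (s * n) * ((a + 3 * b) * LA) := mul_le_mul_of_nonneg_right h1 hp
      _ ≤ 2 * (s * n) * n ^ 3 := mul_le_mul_of_nonneg_left hq (by positivity)
      _ ≤ 2 * (s * n) * (3 * n) * n ^ 2 * (1 / 2) := by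
        have : 0 ≤ s * n * n ^ 3 := by positivity
        nlinarith
  have hB : (n ^ 2 - 4 * a ^ 2) * LB ≤ 2 * (s * n) * (3 * n) * n ^ 2 * (1 / 2) := by
    have e1 : n ^ 2 - 4 * a ^ 2 = (b - a) * (b + 3 * a) := by rw [← hn]; ring
    rw [e1]
    have hp : 0 ≤ (b + 3 * a) * LB := by positivity
    have hq : (b + 3 * a) * LB ≤ n ^ 3 := by
      have : (b + 3 * a) * LB ≤ (b + 3 * a) * b ^ 2 := mul_le_mul_of_nonneg_left hLB (by positivity)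
      have h' : (b + 3 * a) * b ^ 2 ≤ (a + b) ^ 3 := by
        have : 0 ≤ 3 * b * a ^ 2 + a ^ 3 := by positivity
        nlinarith
      rw [hn] at h'
      linarith
    calc (b - a) * (b + 3 * a) * LB = (b - a) * ((b + 3 * a) * LB) := by ring
      _ ≤ 2 * (s * n) * ((b + 3 * a) * LB) := mul_le_mul_of_nonneg_right h2 hp
      _ ≤ 2 * (s * n) * n ^ 3 := mul_le_mul_of_nonneg_left hq (by positivity)
      _ ≤ 2 * (s * n) * (3 * n) * n ^ 2 * (1 / 2) := by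
        have : 0 ≤ s * n * n ^ 3 := by positivity
        nlinarith
  have hE : (2 * n ^ 2 - 8 * (a * b)) * e ≤ 2 * (s * n) * n ^ 3 * (1 / 2) := by
    have e1 : 2 * n ^ 2 - 8 * (a * b) = 2 * (a - b) ^ 2 := by rw [← hn]; ring
    rw [e1]
    have h3 : (a - b) ^ 2 ≤ 2 * (s * n) * n := by
      have h4 : |a - b| ≤ 2 * (s * n) := abs_le.mpr ⟨by linarith, h1⟩
      have h5 : |a - b| ≤ n := abs_le.mpr ⟨by linarith, by linarith⟩
      calc (a - b) ^ 2 = |a - b| * |a - b| := by rw [← sq, sq_abs]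
        _ ≤ 2 * (s * n) * n := mul_le_mul h4 h5 (abs_nonneg _) (by positivity)
    have h6 : e ≤ n ^ 2 / 4 := by linarith
    calc 2 * (a - b) ^ 2 * e ≤ 2 * (2 * (s * n) * n) * (n ^ 2 / 4) := by
          apply mul_le_mul _ h6 he0 (by positivity)
          linarith
      _ = 2 * (s * n) * n ^ 3 * (1 / 2) := by ring
  have hlast : 2 * (s * n) * (3 * n) * n ^ 2 * (1 / 2) * 2 + 2 * (s * n) * n ^ 3 * (1 / 2) ≤
      8 * s * n ^ 4 := by
    have : 0 ≤ s * n * n ^ 3 := by positivity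
    nlinarith
  nlinarith

/-- an error term. -/
theorem num_e (c E a b n q : ℝ) (hc : c ≤ a * q) (hb : 0 ≤ b) (hbn : b ≤ n) (hE : 0 ≤ E) :
    b * (c + 2 * E) ≤ (a * b) * q + 2 * n * E := by
  have h1 := mul_le_mul_of_nonneg_left hc hb
  have h2 : b * E ≤ n * E := mul_le_mul_of_nonneg_right hbn hE
  calc b * (c + 2 * E) = b * c + 2 * (b * E) := by ring
    _ ≤ b * (a * q) + 2 * (n * E) := by linarith
    _ = (a * b) * q + 2 * n * E := by ring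

/-- the combination. -/
theorem num_fin {W a b n s r e LA LB XA XB S q EA EB : ℝ}
    (hP : W * (a * b - W) ≤ a ^ 2 * b ^ 2 - 2 * a * b * e + b ^ 2 * (a ^ 2 - LA) +
      a ^ 2 * (b ^ 2 - LB) + b * (XA + 2 * EA) + a * (XB + 2 * EB) + a * b * S)
    (hN : 4 * (a ^ 2 * b ^ 2 - 2 * a * b * e + b ^ 2 * (a ^ 2 - LA) + a ^ 2 * (b ^ 2 - LB)) +
      n ^ 2 * (LA + LB + 2 * e) ≤ 3 / 4 * n ^ 4 + 8 * s * n ^ 4)
    (e1 : b * (XA + 2 * EA) ≤ (a * b) * q + 2 * n * EA)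
    (e2 : a * (XB + 2 * EB) ≤ (a * b) * q + 2 * n * EB)
    (e3 : (a * b) * q ≤ r ^ 2 * n ^ 4 / 4)
    (e4 : a * b * S ≤ r * n ^ 4 / 4) (hr4 : 0 ≤ r * n ^ 4) :
    n ^ 2 * (LA + LB + 2 * e) ≤ 3 / 4 * n ^ 4 - 4 * W * (a * b - W) +
      (8 * s + 2 * r ^ 2 + 2 * r) * n ^ 4 + 8 * n * (EA + EB) := by
  have hP' : 4 * W * (a * b - W) ≤ 4 * (a ^ 2 * b ^ 2 - 2 * a * b * e + b ^ 2 * (a ^ 2 - LA) +
      a ^ 2 * (b ^ 2 - LB)) + 4 * (b * (XA + 2 * EA)) + 4 * (a * (XB + 2 * EB)) +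
      4 * (a * b * S) := by linarith
  have h5 : (8 * s + 2 * r ^ 2 + 2 * r) * n ^ 4 = 8 * s * n ^ 4 + 2 * (r ^ 2 * n ^ 4) +
      2 * (r * n ^ 4) := by ring
  have h6 : 8 * n * (EA + EB) = 4 * (2 * n * EA) + 4 * (2 * n * EB) := by ring
  rw [h5, h6]
  linarith

theorem pair_num {n : ℕ} (A B : Finset (Fin n)) (hAB : Disjoint A B) (hU : A ∪ B = univ)
    (l m : Fin n → Fin n → ℝ) (sa sb : Fin n → ℝ) (s0 : ℝ)
    (hl : ∀ u v, l u v = 0 ∨ l u v = 1) (hls : ∀ u v, l u v = l v u)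
    (hm : ∀ u v, m u v = 1 ∨ m u v = -1)
    (hsa : ∀ v, sa v = 1 ∨ sa v = -1) (hsb : ∀ v, sb v = 1 ∨ sb v = -1)
    (hs0 : s0 = 1 ∨ s0 = -1)
    (EA EB s r : ℝ) (hr : 0 ≤ r) (hEA0 : 0 ≤ EA) (hEB0 : 0 ≤ EB)
    (hEA : ∑ u ∈ A, ∑ u' ∈ A, ∑ z ∈ B, l u z * l u' z * dif sb m u u' z ≤
      (∑ u ∈ A, ∑ u' ∈ A, ∑ z ∈ B, (1 - l u u') * dif sb m u u' z) + EA)
    (hEB : ∑ z ∈ B, ∑ z' ∈ B, ∑ u ∈ A, l z u * l z' u * dif sa (fun z u => m u z) z z' u ≤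
      (∑ z ∈ B, ∑ z' ∈ B, ∑ u ∈ A, (1 - l z z') * dif sa (fun z u => m u z) z z' u) + EB)
    (hs : |(A.card : ℝ) - n / 2| ≤ s * n)
    (hqA : ∑ u ∈ A, ∑ u' ∈ A, (∑ z ∈ B, m u z * m u' z) ^ 2 ≤ r ^ 4 * n ^ 4)
    (hqB : ∑ z ∈ B, ∑ z' ∈ B, (∑ u ∈ A, m u z * m u z') ^ 2 ≤ r ^ 4 * n ^ 4) :
    (n : ℝ) ^ 2 * ∑ u, ∑ v, l u v ≤ (3 / 4) * (n : ℝ) ^ 4
      - 4 * wrS A B l m sa sb s0 * (A.card * B.card - wrS A B l m sa sb s0)
      + (8 * s + 2 * r ^ 2 + 2 * r) * (n : ℝ) ^ 4 + 8 * n * (EA + EB) := by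
  have hP := pair_abs A B l m sa sb s0 hl hls hm hsa hsb hs0 EA EB hEA hEB
  have hcard : (A.card : ℝ) + B.card = n := by
    rw [← Nat.cast_add, ← Finset.card_union_of_disjoint hAB, hU, Finset.card_univ, Fintype.card_fin]
  have hcA := corr_abs A B m r hqA
  have hcB := corr_abs B A (fun z u => m u z) r hqB
  have hab : (A.card : ℝ) * B.card ≤ (n : ℝ) ^ 2 / 4 := by
    rw [← hcard]
    nlinarith [sq_nonneg ((A.card : ℝ) - B.card)]
  have hRA := lin_abs A B m sb r hr hsb hab hcA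
  have hRB := lin_abs B A (fun z u => m u z) sa r hr hsa (by rw [mul_comm]; exact hab) hcB
  -- the total
  have hK : ∑ u, ∑ v, l u v = (∑ u ∈ A, ∑ u' ∈ A, l u u') + (∑ z ∈ B, ∑ z' ∈ B, l z z') +
      2 * ∑ u ∈ A, ∑ z ∈ B, l u z := by
    rw [← hU, Finset.sum_union hAB]
    simp only [Finset.sum_union hAB, Finset.sum_add_distrib]
    have h4 : ∑ z ∈ B, ∑ u ∈ A, l z u = ∑ u ∈ A, ∑ z ∈ B, l u z := by
      rw [Finset.sum_comm]
      exact Finset.sum_congr rfl fun u _ => Finset.sum_congr rfl fun z _ => hls z u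
    rw [h4]
    ring
  have hTA : ∑ u ∈ A, ∑ u' ∈ A, (1 - l u u') =
      (A.card : ℝ) ^ 2 - ∑ u ∈ A, ∑ u' ∈ A, l u u' := by
    simp only [Finset.sum_sub_distrib, Finset.sum_const, nsmul_eq_mul, mul_one]
    ring
  have hTB : ∑ u ∈ B, ∑ u' ∈ B, (1 - l u u') =
      (B.card : ℝ) ^ 2 - ∑ u ∈ B, ∑ u' ∈ B, l u u' := by
    simp only [Finset.sum_sub_distrib, Finset.sum_const, nsmul_eq_mul, mul_one]
    ring
  have hb0 : ∀ X Y : Finset (Fin n), 0 ≤ ∑ u ∈ X, ∑ v ∈ Y, l u v := by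
    intro X Y
    refine Finset.sum_nonneg fun u _ => Finset.sum_nonneg fun v _ => ?_
    rcases hl u v with h | h <;> rw [h]
    norm_num
  have hb1 : ∀ X Y : Finset (Fin n), ∑ u ∈ X, ∑ v ∈ Y, l u v ≤ X.card * Y.card := by
    intro X Y
    have : ∑ u ∈ X, ∑ v ∈ Y, l u v ≤ ∑ u ∈ X, ∑ v ∈ Y, (1 : ℝ) := by
      refine Finset.sum_le_sum fun u _ => Finset.sum_le_sum fun v _ => ?_
      rcases hl u v with h | h <;> rw [h]
      norm_num
    refine this.trans ?_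
    simp
  rw [hK]
  rw [hTA, hTB] at hP
  have hN := num_aux A.card B.card n s (∑ u ∈ A, ∑ u' ∈ A, l u u') (∑ z ∈ B, ∑ z' ∈ B, l z z')
    (∑ u ∈ A, ∑ z ∈ B, l u z) (Nat.cast_nonneg _) (Nat.cast_nonneg _) hcard hs (hb0 A A)
    (by rw [sq]; exact hb1 A A) (hb0 B B) (by rw [sq]; exact hb1 B B) (hb0 A B) (hb1 A B)
  -- the errors
  have ha0 : (0 : ℝ) ≤ A.card := Nat.cast_nonneg _
  have hb0' : (0 : ℝ) ≤ B.card := Nat.cast_nonneg _
  have hn0 : (0 : ℝ) ≤ n := Nat.cast_nonneg _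
  have e1 : (B.card : ℝ) * ((∑ u ∈ A, ∑ u' ∈ A, |∑ z ∈ B, m u z * m u' z|) + 2 * EA) ≤
      (A.card * B.card) * (r ^ 2 * (n : ℝ) ^ 2) + 2 * n * EA := by
    exact num_e _ _ _ _ _ _ hcA hb0' (by linarith) hEA0
  have e2 : (A.card : ℝ) * ((∑ z ∈ B, ∑ z' ∈ B, |∑ u ∈ A, m u z * m u z'|) + 2 * EB) ≤
      (A.card * B.card) * (r ^ 2 * (n : ℝ) ^ 2) + 2 * n * EB := by
    rw [mul_comm (A.card : ℝ) (B.card : ℝ)]
    exact num_e _ _ _ _ _ _ hcB ha0 (by linarith) hEB0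
  have hrn : (0 : ℝ) ≤ r ^ 2 * (n : ℝ) ^ 2 := by positivity
  have e3 : ((A.card : ℝ) * B.card) * (r ^ 2 * (n : ℝ) ^ 2) ≤ r ^ 2 * (n : ℝ) ^ 4 / 4 := by
    have := mul_le_mul_of_nonneg_right hab hrn
    linarith [this, (by ring : (n : ℝ) ^ 2 / 4 * (r ^ 2 * (n : ℝ) ^ 2) = r ^ 2 * (n : ℝ) ^ 4 / 4)]
  have hS0 : 0 ≤ (∑ z ∈ B, |∑ u ∈ A, sb u * m u z|) + ∑ u ∈ A, |∑ z ∈ B, sa z * m u z| :=
    add_nonneg (Finset.sum_nonneg fun _ _ => abs_nonneg _)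
      (Finset.sum_nonneg fun _ _ => abs_nonneg _)
  have e4 : (A.card : ℝ) * B.card * ((∑ z ∈ B, |∑ u ∈ A, sb u * m u z|) +
        ∑ u ∈ A, |∑ z ∈ B, sa z * m u z|) ≤ r * (n : ℝ) ^ 4 / 4 := by
    calc (A.card : ℝ) * B.card * ((∑ z ∈ B, |∑ u ∈ A, sb u * m u z|) +
        ∑ u ∈ A, |∑ z ∈ B, sa z * m u z|) ≤ ((n : ℝ) ^ 2 / 4) * (r * (n : ℝ) ^ 2) :=
          mul_le_mul hab (by linarith) hS0 (by positivity)
      _ = r * (n : ℝ) ^ 4 / 4 := by ring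
  have hr4 : 0 ≤ r * (n : ℝ) ^ 4 := by positivity
  exact num_fin hP hN e1 e2 e3 e4 hr4

/-- the number of wrong pairs lies between `0` and the number of pairs. -/
theorem wrS_mem (A B : Finset V) (l m : V → V → ℝ) (sa sb : V → ℝ) (s0 : ℝ)
    (hl : ∀ u v, l u v = 0 ∨ l u v = 1) (hm : ∀ u v, m u v = 1 ∨ m u v = -1)
    (hsa : ∀ v, sa v = 1 ∨ sa v = -1) (hsb : ∀ v, sb v = 1 ∨ sb v = -1)
    (hs0 : s0 = 1 ∨ s0 = -1) :
    0 ≤ wrS A B l m sa sb s0 ∧ wrS A B l m sa sb s0 ≤ A.card * B.card := by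
  have h : ∀ u z, wr l m sa sb s0 u z = 0 ∨ wr l m sa sb s0 u z = 1 := by
    intro u z
    unfold wr
    rcases hs0 with h1 | h1 <;> rcases hsa z with h2 | h2 <;> rcases hsb u with h3 | h3 <;>
      rcases hm u z with h4 | h4 <;> rcases hl u z with h5 | h5 <;>
      rw [h1, h2, h3, h4, h5] <;> norm_num
  constructor
  · refine Finset.sum_nonneg fun u _ => Finset.sum_nonneg fun z _ => ?_
    rcases h u z with h | h <;> rw [h]
    norm_num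
  · have : wrS A B l m sa sb s0 ≤ ∑ u ∈ A, ∑ z ∈ B, (1 : ℝ) := by
      refine Finset.sum_le_sum fun u _ => Finset.sum_le_sum fun z _ => ?_
      rcases h u z with h | h <;> rw [h]
      norm_num
    refine this.trans ?_
    simp

/-- the numbers of the final form. -/
theorem fin_aux (a b n s r W K E : ℝ) (hn0 : 0 < n) (hn : a + b = n) (ha : 0 ≤ a) (hb : 0 ≤ b)
    (hs : |a - n / 2| ≤ s * n) (hW1 : W ≤ a * b)
    (h : n ^ 2 * K ≤ 3 / 4 * n ^ 4 - 4 * W * (a * b - W) +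
      (8 * s + 2 * r ^ 2 + 2 * r) * n ^ 4 + 8 * n * E) :
    K ≤ (3 / 4 - 4 * W / n ^ 2 * (1 - 4 * W / n ^ 2) / 4 + 9 * s + 2 * r ^ 2 + 2 * r) * n ^ 2 +
      8 * E / n := by
  have hd := abs_le.mp hs
  have h1 : a - b ≤ 2 * (s * n) := by linarith [hd.2]
  have h2 : b - a ≤ 2 * (s * n) := by linarith [hd.1]
  have h3 : (a - b) ^ 2 ≤ 2 * (s * n) * n := by
    have h4 : |a - b| ≤ 2 * (s * n) := abs_le.mpr ⟨by linarith, h1⟩
    have h5 : |a - b| ≤ n := abs_le.mpr ⟨by linarith, by linarith⟩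
    have h6 : 0 ≤ s * n := by linarith
    calc (a - b) ^ 2 = |a - b| * |a - b| := by rw [← sq, sq_abs]
      _ ≤ 2 * (s * n) * n := mul_le_mul h4 h5 (abs_nonneg _) (by positivity)
  have h4 : a * b = (n ^ 2 - (a - b) ^ 2) / 4 := by
    rw [← hn]
    ring
  have hWn : 4 * W ≤ n ^ 2 := by
    rw [h4] at hW1
    linarith [sq_nonneg (a - b)]
  -- the error from the sizes
  have h5 : n ^ 2 * W - 4 * W ^ 2 - s * n ^ 4 ≤ 4 * W * (a * b - W) := by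
    have h6 : 4 * W * (a * b - W) = n ^ 2 * W - 4 * W ^ 2 - W * (a - b) ^ 2 := by
      rw [h4]
      ring
    have h7 : W * (a - b) ^ 2 ≤ n ^ 2 / 4 * (2 * (s * n) * n) :=
      mul_le_mul (by linarith) h3 (sq_nonneg _) (by positivity)
    have h8 : 0 ≤ s * n := by linarith
    have h9 : 0 ≤ s * n * n ^ 3 := by positivity
    rw [h6]
    have h10 : n ^ 2 / 4 * (2 * (s * n) * n) = s * n * n ^ 3 / 2 := by ring
    have h11 : s * n ^ 4 = s * n * n ^ 3 := by ring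
    rw [h11]
    linarith
  have h6 : K = n ^ 2 * K / n ^ 2 := by
    field_simp
  rw [h6, div_le_iff₀ (by positivity)]
  have h7 : ((3 / 4 - 4 * W / n ^ 2 * (1 - 4 * W / n ^ 2) / 4 + 9 * s + 2 * r ^ 2 + 2 * r) * n ^ 2 +
      8 * E / n) * n ^ 2 = 3 / 4 * n ^ 4 - (n ^ 2 * W - 4 * W ^ 2) + 9 * s * n ^ 4 +
      (2 * r ^ 2 + 2 * r) * n ^ 4 + 8 * n * E := by
    field_simp
    ring
  rw [h7]
  have h8 : (8 * s + 2 * r ^ 2 + 2 * r) * n ^ 4 = 8 * s * n ^ 4 + (2 * r ^ 2 + 2 * r) * n ^ 4 := by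
    ring
  linarith

/-- THE ABSTRACT PAIR LEMMA. -/
theorem pair_fin {n : ℕ} (hn : 0 < n) (A B : Finset (Fin n)) (hAB : Disjoint A B)
    (hU : A ∪ B = univ)
    (l m : Fin n → Fin n → ℝ) (sa sb : Fin n → ℝ) (s0 : ℝ)
    (hl : ∀ u v, l u v = 0 ∨ l u v = 1) (hls : ∀ u v, l u v = l v u)
    (hm : ∀ u v, m u v = 1 ∨ m u v = -1)
    (hsa : ∀ v, sa v = 1 ∨ sa v = -1) (hsb : ∀ v, sb v = 1 ∨ sb v = -1)
    (hs0 : s0 = 1 ∨ s0 = -1)
    (EA EB s r : ℝ) (hr : 0 ≤ r) (hEA0 : 0 ≤ EA) (hEB0 : 0 ≤ EB)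
    (hEA : ∑ u ∈ A, ∑ u' ∈ A, ∑ z ∈ B, l u z * l u' z * dif sb m u u' z ≤
      (∑ u ∈ A, ∑ u' ∈ A, ∑ z ∈ B, (1 - l u u') * dif sb m u u' z) + EA)
    (hEB : ∑ z ∈ B, ∑ z' ∈ B, ∑ u ∈ A, l z u * l z' u * dif sa (fun z u => m u z) z z' u ≤
      (∑ z ∈ B, ∑ z' ∈ B, ∑ u ∈ A, (1 - l z z') * dif sa (fun z u => m u z) z z' u) + EB)
    (hs : |(A.card : ℝ) - n / 2| ≤ s * n)
    (hqA : ∑ u ∈ A, ∑ u' ∈ A, (∑ z ∈ B, m u z * m u' z) ^ 2 ≤ r ^ 4 * n ^ 4)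
    (hqB : ∑ z ∈ B, ∑ z' ∈ B, (∑ u ∈ A, m u z * m u z') ^ 2 ≤ r ^ 4 * n ^ 4) :
    ∑ u, ∑ v, l u v ≤
      (3 / 4 - 4 * wrS A B l m sa sb s0 / (n : ℝ) ^ 2 *
        (1 - 4 * wrS A B l m sa sb s0 / (n : ℝ) ^ 2) / 4 + 9 * s + 2 * r ^ 2 + 2 * r) *
          (n : ℝ) ^ 2 + 8 * (EA + EB) / n := by
  have h := pair_num A B hAB hU l m sa sb s0 hl hls hm hsa hsb hs0 EA EB s r hr hEA0 hEB0 hEA hEB
    hs hqA hqB
  have hcard : (A.card : ℝ) + B.card = n := by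
    rw [← Nat.cast_add, ← Finset.card_union_of_disjoint hAB, hU, Finset.card_univ, Fintype.card_fin]
  have hw := wrS_mem A B l m sa sb s0 hl hm hsa hsb hs0
  exact fin_aux A.card B.card n s r _ _ (EA + EB) (by exact_mod_cast hn) hcard
    (Nat.cast_nonneg _) (Nat.cast_nonneg _) hs hw.2 h

end Pool.Agent.Lib.MP_afdd4d_co.K9.Star.TA
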