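import Pool.Agent.Lib.MP_afdd4d_co.K9.TAOpt
import Pool.Agent.Lib.MP_afdd4d_co.K9.TAqDef
import Pool.Agent.Lib.MP_afdd4d_co.K9.TAPairAbs

/-!
# The pair lemma

The codegree of two vertices of different colours in a 4-graph that is close at both vertices to
Giraud's structure of `χ`, `M`: from 4-graphs to functions of pairs and triples of vertices, and the
final form of the lemma.
-/

set_option autoImplicit false

namespace Pool.Agent.Lib.MP_afdd4d_co.K9.Star.TA

open Finset K8 VS

variable {n : ℕ}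

/-! ### Sets of four and five vertices -/

theorem nodup4 {a b x y : Fin n} (h : ({a, b, x, y} : Finset (Fin n)).card = 4) :
    a ≠ b ∧ a ≠ x ∧ a ≠ y ∧ b ≠ x ∧ b ≠ y ∧ x ≠ y := by
  have h1 : (({a, b, x, y} : Multiset (Fin n)).toFinset).card =
      Multiset.card ({a, b, x, y} : Multiset (Fin n)) := by
    have e : (({a, b, x, y} : Multiset (Fin n)).toFinset) = ({a, b, x, y} : Finset (Fin n)) := by
      ext v
      simp
    rw [e, h]
    rfl
  have h2 := Multiset.toFinset_card_eq_card_iff_nodup.mp h1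
  simp only [Multiset.insert_eq_cons, Multiset.nodup_cons, Multiset.mem_cons,
    Multiset.mem_singleton, Multiset.nodup_singleton, and_true, not_or] at h2
  tauto

theorem card4 {a b x y : Fin n} (h1 : a ≠ b) (h2 : a ≠ x) (h3 : a ≠ y) (h4 : b ≠ x) (h5 : b ≠ y)
    (h6 : x ≠ y) : ({a, b, x, y} : Finset (Fin n)).card = 4 := by
  rw [card_insert_of_notMem (by simp [h1, h2, h3]), card_insert_of_notMem (by simp [h4, h5]),
    card_insert_of_notMem (by simp [h6]), card_singleton]

/-- quadruples through two vertices and ordered pairs -/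
theorem two_cd (H : Finset (Finset (Fin n))) (hH : ∀ Q ∈ H, Q.card = 4) {a b : Fin n}
    (hab : a ≠ b) :
    (univ.filter fun p : Fin n × Fin n => ({a, b, p.1, p.2} : Finset (Fin n)) ∈ H).card =
      2 * (H.filter fun Q => a ∈ Q ∧ b ∈ Q).card := by
  rw [card_eq_sum_card_fiberwise (f := fun p : Fin n × Fin n => ({a, b, p.1, p.2} : Finset (Fin n)))
    (t := H.filter fun Q => a ∈ Q ∧ b ∈ Q)]
  · rw [sum_const_nat (m := 2), mul_comm]
    intro Q hQ
    obtain ⟨hQ1, hQa, hQb⟩ := mem_filter.mp hQ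
    have hc := hH Q hQ1
    have hR : ((Q.erase a).erase b).card = 2 := by
      rw [card_erase_of_mem (mem_erase.mpr ⟨hab.symm, hQb⟩), card_erase_of_mem hQa, hc]
    have e : (univ.filter fun p : Fin n × Fin n => ({a, b, p.1, p.2} : Finset (Fin n)) ∈ H).filter
        (fun p : Fin n × Fin n => ({a, b, p.1, p.2} : Finset (Fin n)) = Q) =
        ((Q.erase a).erase b).offDiag := by
      ext ⟨x, y⟩
      rw [mem_filter, mem_filter, mem_offDiag, mem_erase, mem_erase, mem_erase, mem_erase]
      constructor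
      · rintro ⟨-, h⟩
        have h' : ({a, b, x, y} : Finset (Fin n)) = Q := h
        obtain ⟨n1, n2, n3, n4, n5, n6⟩ := nodup4 (a := a) (b := b) (x := x) (y := y) (by rw [h', hc])
        have hx : x ∈ Q := by rw [← h']; simp
        have hy : y ∈ Q := by rw [← h']; simp
        exact ⟨⟨n4.symm, n2.symm, hx⟩, ⟨n5.symm, n3.symm, hy⟩, n6⟩
      · rintro ⟨⟨n4, n2, hx⟩, ⟨n5, n3, hy⟩, n6⟩
        have h' : ({a, b, x, y} : Finset (Fin n)) = Q := by
          refine eq_of_subset_of_card_le ?_ ?_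
          · intro v hv
            simp only [mem_insert, mem_singleton] at hv
            rcases hv with rfl | rfl | rfl | rfl <;> assumption
          · rw [hc, card4 hab n2.symm n3.symm n4.symm n5.symm n6]
        refine ⟨⟨mem_univ _, ?_⟩, h'⟩
        show ({a, b, x, y} : Finset (Fin n)) ∈ H
        rw [h']
        exact hQ1
    rw [e, offDiag_card, hR]
  · intro p hp
    have hp2 : ({a, b, p.1, p.2} : Finset (Fin n)) ∈ H := (mem_filter.mp hp).2
    exact mem_filter.mpr ⟨hp2, by simp, by simp⟩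

theorem swap4 (a b x y : Fin n) : ({a, b, x, y} : Finset (Fin n)) = {a, b, y, x} := by
  ext v
  simp only [mem_insert, mem_singleton]
  tauto

/-- Triples of two vertices of one colour and one of the other that complete a set to a member. -/
theorem cnt_aux (R : Finset (Fin n)) (hR : R.card = 3) (c : Fin n → Bool) :
    (univ.filter fun p : Fin n × Fin n × Fin n => c p.1 = false ∧ c p.2.1 = false ∧
      c p.2.2 = true ∧ ({p.1, p.2.1, p.2.2} : Finset (Fin n)) = R).card ≤ 2 := by
  have hs := Finset.card_filter_add_card_filter_not (s := R) (fun v => c v = false)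
  have hsub : (univ.filter fun p : Fin n × Fin n × Fin n => c p.1 = false ∧ c p.2.1 = false ∧
      c p.2.2 = true ∧ ({p.1, p.2.1, p.2.2} : Finset (Fin n)) = R) ⊆
      (((R.filter fun v => c v = false).offDiag) ×ˢ (R.filter fun v => ¬ c v = false)).image
        fun q : (Fin n × Fin n) × Fin n => (q.1.1, q.1.2, q.2) := by
    rintro ⟨u, u', z⟩ hp
    obtain ⟨-, h1, h2, h3, h4⟩ := mem_filter.mp hp
    have h1' : c u = false := h1
    have h2' : c u' = false := h2
    have h3' : c z = true := h3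
    have h4' : ({u, u', z} : Finset (Fin n)) = R := h4
    have hne : u ≠ u' := by
      rintro rfl
      have h5 : ({u, u, z} : Finset (Fin n)).card ≤ 2 := by
        rw [insert_eq_of_mem (mem_insert_self _ _)]
        exact card_le_two
      rw [h4', hR] at h5
      omega
    rw [mem_image]
    refine ⟨((u, u'), z), ?_, rfl⟩
    rw [mem_product, mem_offDiag]
    refine ⟨⟨mem_filter.mpr ⟨?_, h1'⟩, mem_filter.mpr ⟨?_, h2'⟩, hne⟩,
      mem_filter.mpr ⟨?_, by rw [h3']; decide⟩⟩ <;>
    · rw [← h4']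
      simp
  refine (card_le_card hsub).trans (card_image_le.trans ?_)
  rw [card_product, offDiag_card]
  generalize (R.filter fun v => c v = false).card = x at hs ⊢
  generalize (R.filter fun v => ¬ c v = false).card = y at hs ⊢
  have hx : x ≤ 3 := by omega
  have hy : y = 3 - x := by omega
  subst hy
  interval_cases x <;> simp

theorem cnt (S : Finset (Finset (Fin n))) (D : Finset (Fin n)) (hS : ∀ Q ∈ S, Q.card = D.card + 3)
    (c : Fin n → Bool) :
    (univ.filter fun p : Fin n × Fin n × Fin n => c p.1 = false ∧ c p.2.1 = false ∧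
      c p.2.2 = true ∧ D ∪ {p.1, p.2.1, p.2.2} ∈ S).card ≤ 2 * (S.filter fun Q => D ⊆ Q).card := by
  rw [card_eq_sum_card_fiberwise
    (f := fun p : Fin n × Fin n × Fin n => D ∪ ({p.1, p.2.1, p.2.2} : Finset (Fin n)))
    (t := S.filter fun Q => D ⊆ Q)]
  · rw [mul_comm, ← smul_eq_mul]
    refine sum_le_card_nsmul _ _ _ fun Q hQ => ?_
    obtain ⟨hQ1, hQD⟩ := mem_filter.mp hQ
    have hc := hS Q hQ1
    have hR : (Q \ D).card = 3 := by
      rw [card_sdiff_of_subset hQD, hc]
      omega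
    refine le_trans (card_le_card ?_) (cnt_aux (Q \ D) hR c)
    intro p hp
    obtain ⟨hp1, hp2⟩ := mem_filter.mp hp
    obtain ⟨-, h1, h2, h3, -⟩ := mem_filter.mp hp1
    refine mem_filter.mpr ⟨mem_univ _, h1, h2, h3, ?_⟩
    have hp3 : D ∪ ({p.1, p.2.1, p.2.2} : Finset (Fin n)) = Q := hp2
    symm
    refine eq_of_subset_of_card_le ?_ ?_
    · intro v hv
      obtain ⟨hv1, hv2⟩ := mem_sdiff.mp hv
      rw [← hp3, mem_union] at hv1
      exact hv1.resolve_left hv2
    · rw [hR]
      exact card_le_three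
  · intro p hp
    exact mem_filter.mpr ⟨(mem_filter.mp hp).2.2.2.2, subset_union_left⟩

theorem bxor_iff (x k : Bool) : ((x ^^ k) = false ↔ x = k) ∧ ((x ^^ k) = true ↔ x = !k) := by
  revert x k
  decide

/-- The same as a sum of real numbers. -/
theorem cntR (S : Finset (Finset (Fin n))) (D : Finset (Fin n)) (hS : ∀ Q ∈ S, Q.card = D.card + 3)
    (χ : Fin n → Bool) (k : Bool) :
    ∑ u ∈ ca χ k, ∑ u' ∈ ca χ k, ∑ z ∈ ca χ (!k),
      (if D ∪ {u, u', z} ∈ S then (1 : ℝ) else 0) ≤ 2 * ((S.filter fun Q => D ⊆ Q).card : ℝ) := by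
  have h := cnt S D hS fun v => χ v ^^ k
  have e : (univ.filter fun p : Fin n × Fin n × Fin n => (χ p.1 ^^ k) = false ∧
      (χ p.2.1 ^^ k) = false ∧ (χ p.2.2 ^^ k) = true ∧ D ∪ {p.1, p.2.1, p.2.2} ∈ S) =
      ((ca χ k) ×ˢ ((ca χ k) ×ˢ (ca χ (!k)))).filter
        fun p : Fin n × Fin n × Fin n => D ∪ {p.1, p.2.1, p.2.2} ∈ S := by
    ext ⟨u, u', z⟩
    rw [mem_filter, mem_filter, mem_product, mem_product, mem_ca, mem_ca, mem_ca]
    have h1 := (bxor_iff (χ u) k).1
    have h2 := (bxor_iff (χ u') k).1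
    have h3 := (bxor_iff (χ z) k).2
    constructor
    · rintro ⟨-, a1, a2, a3, a4⟩
      exact ⟨⟨h1.mp a1, h2.mp a2, h3.mp a3⟩, a4⟩
    · rintro ⟨⟨a1, a2, a3⟩, a4⟩
      exact ⟨mem_univ _, h1.mpr a1, h2.mpr a2, h3.mpr a3, a4⟩
  rw [e] at h
  have e2 : ∑ u ∈ ca χ k, ∑ u' ∈ ca χ k, ∑ z ∈ ca χ (!k),
      (if D ∪ {u, u', z} ∈ S then (1 : ℝ) else 0) =
      ((((ca χ k) ×ˢ ((ca χ k) ×ˢ (ca χ (!k)))).filter
        fun p : Fin n × Fin n × Fin n => D ∪ {p.1, p.2.1, p.2.2} ∈ S).card : ℝ) := by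
    rw [card_filter, Nat.cast_sum, sum_product]
    refine sum_congr rfl fun u _ => ?_
    rw [sum_product]
    refine sum_congr rfl fun u' _ => sum_congr rfl fun z _ => ?_
    split_ifs <;> simp
  rw [e2]
  exact_mod_cast h

/-! ### Membership in the structure -/

/-- Giraud's structure. -/
def G0 (χ : Fin n → Bool) (M : Fin n → Fin n → Bool) : Finset (Finset (Fin n)) :=
  gir χ M (fun _ => false) (fun _ => false)

theorem filt (χ : Fin n → Bool) (k : Bool) (p q r s : Fin n) :
    (({p, q, r, s} : Finset (Fin n)).filter fun v => χ v = k) =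
      (if χ p = k then {p} else ∅) ∪ ((if χ q = k then {q} else ∅) ∪
        ((if χ r = k then {r} else ∅) ∪ (if χ s = k then {s} else ∅))) := by
  ext v
  simp only [mem_filter, mem_insert, mem_singleton, mem_union]
  constructor
  · rintro ⟨rfl | rfl | rfl | rfl, h⟩ <;> simp [h]
  · intro h
    split_ifs at h <;> simp at h <;> aesop

theorem mem_three (χ : Fin n → Bool) (M : Fin n → Fin n → Bool) {a u u' z : Fin n} {k : Bool}
    (h4 : ({a, u, u', z} : Finset (Fin n)).card = 4) (ha : χ a = k) (hu : χ u = k)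
    (hu' : χ u' = k) (hz : χ z = !k) : ({a, u, u', z} : Finset (Fin n)) ∈ G0 χ M := by
  obtain ⟨n1, n2, n3, n4, n5, n6⟩ := nodup4 h4
  have h := dec_gir χ M (fun _ => false) (fun _ => false) _ h4
  have hg : girB χ M (fun _ => false) (fun _ => false) ({a, u, u', z} : Finset (Fin n)) = true := by
    unfold girB
    rw [filt χ true]
    cases k
    · rw [ha, hu, hu', hz]
      simp
    · rw [ha, hu, hu', hz]
      have : ((({a} : Finset (Fin n)) ∪ ({u} ∪ ({u'} ∪ (∅ : Finset (Fin n)))))).card = 3 := by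
        have e : ((({a} : Finset (Fin n)) ∪ ({u} ∪ ({u'} ∪ (∅ : Finset (Fin n)))))) = {a, u, u'} := by
          ext v
          simp only [mem_union, mem_singleton, mem_insert, notMem_empty, or_false]
        rw [e, card_eq_three]
        exact ⟨a, u, u', n1, n2, n4, rfl⟩
      simp only [if_true, Bool.not_true, Bool.false_eq_true, if_false]
      rw [this]
      simp
  rw [hg] at h
  exact of_decide_eq_true h

theorem mem_two (χ : Fin n → Bool) (M : Fin n → Fin n → Bool) {a b u z : Fin n}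
    (h4 : ({a, b, u, z} : Finset (Fin n)).card = 4) (ha : χ a = false) (hu : χ u = false)
    (hb : χ b = true) (hz : χ z = true) : ({a, b, u, z} : Finset (Fin n)) ∈ G0 χ M ↔
      ((M a b ^^ M a z) ^^ (M u b ^^ M u z)) = true := by
  obtain ⟨n1, n2, n3, n4, n5, n6⟩ := nodup4 h4
  have h := dec_gir χ M (fun _ => false) (fun _ => false) _ h4
  have hT : (({a, b, u, z} : Finset (Fin n)).filter fun v => χ v = true) = {b, z} := by
    rw [filt, ha, hb, hu, hz]
    ext v
    simp
  have hF : (({a, b, u, z} : Finset (Fin n)).filter fun v => χ v = false) = {a, u} := by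
    rw [filt, ha, hb, hu, hz]
    ext v
    simp
  have hg : girB χ M (fun _ => false) (fun _ => false) ({a, b, u, z} : Finset (Fin n)) =
      ((M a b ^^ M a z) ^^ (M u b ^^ M u z)) := by
    unfold girB
    rw [hT, hF, card_pair n5, sum_pair n2, sum_pair n5, sum_pair n5]
    simp only [OfNat.ofNat_ne_zero, if_false, OfNat.ofNat_ne_one, if_true]
    generalize M a b = x1
    generalize M a z = x2
    generalize M u b = x3
    generalize M u z = x4
    revert x1 x2 x3 x4
    decide
  rw [hg] at h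
  unfold G0
  rw [← h, decide_eq_true_iff]

/-! ### Signs -/

/-- The sign as a real number. -/
noncomputable def rs (x : Bool) : ℝ := ((sg x : ℤ) : ℝ)

theorem rs_or (x : Bool) : rs x = 1 ∨ rs x = -1 := by
  unfold rs sg
  cases x
  · left
    simp
  · right
    simp

theorem rs_true : rs true = -1 := by
  unfold rs sg
  simp

theorem rs_false : rs false = 1 := by
  unfold rs sg
  simp

theorem rs_mul (x y : Bool) : rs x * rs y = rs (x ^^ y) := by
  cases x <;> cases y <;> simp [rs_true, rs_false]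

/-- The link of two vertices. -/
noncomputable def lF (H : Finset (Finset (Fin n))) (a b u v : Fin n) : ℝ :=
  if ({a, b, u, v} : Finset (Fin n)) ∈ H then 1 else 0

theorem lF_or (H : Finset (Finset (Fin n))) (a b u v : Fin n) : lF H a b u v = 0 ∨
    lF H a b u v = 1 := by
  unfold lF
  split_ifs <;> simp

theorem lF_symm (H : Finset (Finset (Fin n))) (a b u v : Fin n) : lF H a b u v = lF H a b v u := by
  unfold lF
  rw [swap4]

theorem lF_swap (H : Finset (Finset (Fin n))) (a b u v : Fin n) : lF H a b u v = lF H b a u v := by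
  unfold lF
  rw [show ({a, b, u, v} : Finset (Fin n)) = {b, a, u, v} from insert_comm _ _ _]

/-- The 5-sets of `K_5` copies. -/
def K5S (H : Finset (Finset (Fin n))) : Finset (Finset (Fin n)) :=
  ((univ : Finset (Fin n)).powersetCard 5).filter fun S => c5 H S = 5

theorem erase_eq {S T : Finset (Fin n)} {v : Fin n} (hS : S = insert v T) (hv : v ∉ T) :
    S.erase v = T := by
  rw [hS, erase_insert hv]

theorem notMem4 {v p q r s : Fin n} (h1 : v ≠ p) (h2 : v ≠ q) (h3 : v ≠ r) (h4 : v ≠ s) :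
    v ∉ ({p, q, r, s} : Finset (Fin n)) := by
  simp only [mem_insert, mem_singleton, not_or]
  exact ⟨h1, h2, h3, h4⟩

theorem erase5 {H : Finset (Finset (Fin n))} {a b u u' z : Fin n} (n1 : a ≠ b) (n2 : a ≠ u)
    (n3 : a ≠ u') (n4 : a ≠ z) (n5 : b ≠ u) (n6 : b ≠ u') (n7 : b ≠ z) (n8 : u ≠ u') (n9 : u ≠ z)
    (n10 : u' ≠ z) (q1 : ({a, b, u, z} : Finset (Fin n)) ∈ H)
    (q2 : ({a, b, u', z} : Finset (Fin n)) ∈ H) (q3 : ({a, b, u, u'} : Finset (Fin n)) ∈ H)
    (q4 : ({a, u, u', z} : Finset (Fin n)) ∈ H) (q5 : ({b, u, u', z} : Finset (Fin n)) ∈ H) :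
    ∀ v ∈ (({a, b} : Finset (Fin n)) ∪ {u, u', z}),
      (({a, b} : Finset (Fin n)) ∪ {u, u', z}).erase v ∈ H := by
  have e : (({a, b} : Finset (Fin n)) ∪ {u, u', z}) = {a, b, u, u', z} := by
    ext w
    simp only [mem_union, mem_insert, mem_singleton, or_assoc]
  rw [e]
  have f1 : ({a, b, u, u', z} : Finset (Fin n)).erase a = {b, u, u', z} :=
    erase_eq rfl (notMem4 n1 n2 n3 n4)
  have f2 : ({a, b, u, u', z} : Finset (Fin n)).erase b = {a, u, u', z} :=
    erase_eq (by rw [insert_comm b a]) (notMem4 n1.symm n5 n6 n7)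
  have f3 : ({a, b, u, u', z} : Finset (Fin n)).erase u = {a, b, u', z} :=
    erase_eq (by rw [insert_comm u a, insert_comm u b]) (notMem4 n2.symm n5.symm n8 n9)
  have f4 : ({a, b, u, u', z} : Finset (Fin n)).erase u' = {a, b, u, z} :=
    erase_eq (by rw [insert_comm u' a, insert_comm u' b, insert_comm u' u])
      (notMem4 n3.symm n6.symm n8.symm n10)
  have f5 : ({a, b, u, u', z} : Finset (Fin n)).erase z = {a, b, u, u'} :=
    erase_eq (by rw [insert_comm z a, insert_comm z b, insert_comm z u, pair_comm z u'])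
      (notMem4 n4.symm n7.symm n9.symm n10.symm)
  intro v hv
  simp only [mem_insert, mem_singleton] at hv
  rcases hv with rfl | rfl | rfl | rfl | rfl
  · rw [f1]; exact q5
  · rw [f2]; exact q4
  · rw [f3]; exact q2
  · rw [f4]; exact q1
  · rw [f5]; exact q3

/-- The pointwise inequality. `d` is the indicator of `{b, u, u', z} ∈ G`. -/
theorem point (H G : Finset (Finset (Fin n))) (hH : ∀ Q ∈ H, Q.card = 4) (a b u u' z : Fin n)
    (hG1 : ({a, u, u', z} : Finset (Fin n)).card = 4 → ({a, u, u', z} : Finset (Fin n)) ∈ G)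
    (d : ℝ) (hd : d = 0 ∨ d = 1)
    (hG2 : d = 1 → ({b, u, u', z} : Finset (Fin n)).card = 4 →
      ({b, u, u', z} : Finset (Fin n)) ∈ G) :
    lF H a b u z * lF H a b u' z * d ≤ (1 - lF H a b u u') * d +
      (if ({b} : Finset (Fin n)) ∪ {u, u', z} ∈ symmDiff H G then (1 : ℝ) else 0) +
      (if ({a} : Finset (Fin n)) ∪ {u, u', z} ∈ symmDiff H G then (1 : ℝ) else 0) +
      (if ({a, b} : Finset (Fin n)) ∪ {u, u', z} ∈ K5S H then (1 : ℝ) else 0) := by
  have hi : ∀ P : Prop, ∀ _ : Decidable P, (0 : ℝ) ≤ if P then (1 : ℝ) else 0 := by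
    intro P _
    split_ifs <;> norm_num
  have i1 := hi (({b} : Finset (Fin n)) ∪ {u, u', z} ∈ symmDiff H G) inferInstance
  have i2 := hi (({a} : Finset (Fin n)) ∪ {u, u', z} ∈ symmDiff H G) inferInstance
  have i3 := hi (({a, b} : Finset (Fin n)) ∪ {u, u', z} ∈ K5S H) inferInstance
  rcases hd with rfl | hd1
  · rw [mul_zero, mul_zero]
    linarith
  by_cases q1 : ({a, b, u, z} : Finset (Fin n)) ∈ H
  swap
  · have : lF H a b u z = 0 := if_neg q1
    rw [this, hd1]
    rcases lF_or H a b u u' with h | h <;> rw [h] <;> linarith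
  by_cases q2 : ({a, b, u', z} : Finset (Fin n)) ∈ H
  swap
  · have : lF H a b u' z = 0 := if_neg q2
    rw [this, hd1]
    rcases lF_or H a b u u' with h | h <;> rw [h] <;> linarith
  by_cases q3 : ({a, b, u, u'} : Finset (Fin n)) ∈ H
  swap
  · have e1 : lF H a b u u' = 0 := if_neg q3
    have e2 : lF H a b u z = 1 := if_pos q1
    have e3 : lF H a b u' z = 1 := if_pos q2
    rw [e1, e2, e3, hd1]
    linarith
  have e1 : lF H a b u u' = 1 := if_pos q3
  have e2 : lF H a b u z = 1 := if_pos q1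
  have e3 : lF H a b u' z = 1 := if_pos q2
  obtain ⟨n1, n2, n3, n4, n5, n6⟩ := nodup4 (hH _ q1)
  obtain ⟨-, m2, -, m4, -, m6⟩ := nodup4 (hH _ q2)
  obtain ⟨-, -, -, -, -, k6⟩ := nodup4 (hH _ q3)
  have c1 : ({a, u, u', z} : Finset (Fin n)).card = 4 := card4 n2 m2 n3 k6 n6 m6
  have c2 : ({b, u, u', z} : Finset (Fin n)).card = 4 := card4 n4 m4 n5 k6 n6 m6
  have g1 := hG1 c1
  have g2 := hG2 hd1 c2
  rw [e1, e2, e3, hd1]
  by_cases q4 : ({a, u, u', z} : Finset (Fin n)) ∈ H
  swap
  · have : ({a} : Finset (Fin n)) ∪ {u, u', z} ∈ symmDiff H G := by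
      rw [mem_symmDiff]
      exact Or.inr ⟨g1, q4⟩
    rw [if_pos this]
    linarith
  by_cases q5 : ({b, u, u', z} : Finset (Fin n)) ∈ H
  swap
  · have : ({b} : Finset (Fin n)) ∪ {u, u', z} ∈ symmDiff H G := by
      rw [mem_symmDiff]
      exact Or.inr ⟨g2, q5⟩
    rw [if_pos this]
    linarith
  have hS : ({a, b} : Finset (Fin n)) ∪ {u, u', z} ∈ K5S H := by
    have hc : (({a, b} : Finset (Fin n)) ∪ {u, u', z}).card = 5 := by
      have : (({a, b} : Finset (Fin n)) ∪ {u, u', z}) = insert a ({b, u, u', z} : Finset (Fin n)) := by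
        ext v
        simp only [mem_union, mem_insert, mem_singleton]
        tauto
      rw [this, card_insert_of_notMem, c2]
      simp only [mem_insert, mem_singleton]
      tauto
    refine mem_filter.mpr ⟨mem_powersetCard.mpr ⟨subset_univ _, hc⟩, ?_⟩
    rw [c5_five hc]
    exact erase5 n1 n2 m2 n3 n4 m4 n5 k6 n6 m6 q1 q2 q3 q4 q5
  rw [if_pos hS]
  linarith

end Pool.Agent.Lib.MP_afdd4d_co.K9.Star.TA
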