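import Pool.Agent.Lib.MP_afdd4d_co.K9.TAqDef

/-!
# Large Giraud families are balanced and their relation is quasirandom

The number of ordered quadruples of a Giraud family is bounded by
`4 a ^ 3 b + 4 a b ^ 3 + 3 (a ^ 2 b ^ 2 - sq)`, where `a`, `b` are the sizes of the colour classes
and `sq` is the square sum of the relation.  If the family has almost `11 / 16` of the quadruples
then `a` and `b` are close to `n / 2` and `sq` is small.
-/

set_option autoImplicit false

namespace Pool.Agent.Lib.MP_afdd4d_co.K9.Star.VS.Q12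

open Finset K8

section gen
variable {V : Type*} [Fintype V]

theorem sum_fin_cons {k : ℕ} (F : (Fin (k + 1) → V) → ℝ) :
    ∑ p, F p = ∑ v : V, ∑ q : Fin k → V, F (Fin.cons v q) := by
  rw [← (Fin.consEquiv fun _ : Fin (k + 1) => V).sum_comp, Fintype.sum_prod_type]
  rfl

theorem sum_fin4 (F : V → V → V → V → ℝ) :
    ∑ p : Fin 4 → V, F (p 0) (p 1) (p 2) (p 3) = ∑ a, ∑ b, ∑ c, ∑ d, F a b c d := by
  rw [sum_fin_cons]
  refine Finset.sum_congr rfl fun a _ => ?_
  rw [sum_fin_cons]
  refine Finset.sum_congr rfl fun b _ => ?_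
  rw [sum_fin_cons]
  refine Finset.sum_congr rfl fun c _ => ?_
  rw [sum_fin_cons]
  refine Finset.sum_congr rfl fun d _ => ?_
  rw [Fintype.sum_unique]
  rfl

end gen

/-- the indicator of a colour -/
def al (c z : Bool) : ℝ := if c = z then 1 else 0

/-- the sign of a bit -/
def sr (b : Bool) : ℝ := ((sg b : ℤ) : ℝ)

theorem bz_false' : bz false = 0 := rfl

theorem girB4 (c : Fin 4 → Bool) (m : Fin 4 → Fin 4 → Bool) :
    ((girB c m (fun _ => false) (fun _ => false) univ).toNat : ℝ) =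
      (al (c 0) true * al (c 1) false * al (c 2) false * al (c 3) false +
       al (c 0) false * al (c 1) true * al (c 2) false * al (c 3) false +
       al (c 0) false * al (c 1) false * al (c 2) true * al (c 3) false +
       al (c 0) false * al (c 1) false * al (c 2) false * al (c 3) true) +
      (al (c 0) false * al (c 1) true * al (c 2) true * al (c 3) true +
       al (c 0) true * al (c 1) false * al (c 2) true * al (c 3) true +
       al (c 0) true * al (c 1) true * al (c 2) false * al (c 3) true +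
       al (c 0) true * al (c 1) true * al (c 2) true * al (c 3) false) +
      (al (c 0) false * al (c 1) false * al (c 2) true * al (c 3) true *
          (1 - sr (m 0 2) * sr (m 0 3) * sr (m 1 2) * sr (m 1 3)) / 2 +
       al (c 0) false * al (c 2) false * al (c 1) true * al (c 3) true *
          (1 - sr (m 0 1) * sr (m 0 3) * sr (m 2 1) * sr (m 2 3)) / 2 +
       al (c 0) false * al (c 3) false * al (c 1) true * al (c 2) true *
          (1 - sr (m 0 1) * sr (m 0 2) * sr (m 3 1) * sr (m 3 2)) / 2 +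
       al (c 1) false * al (c 2) false * al (c 0) true * al (c 3) true *
          (1 - sr (m 1 0) * sr (m 1 3) * sr (m 2 0) * sr (m 2 3)) / 2 +
       al (c 1) false * al (c 3) false * al (c 0) true * al (c 2) true *
          (1 - sr (m 1 0) * sr (m 1 2) * sr (m 3 0) * sr (m 3 2)) / 2 +
       al (c 2) false * al (c 3) false * al (c 0) true * al (c 1) true *
          (1 - sr (m 2 0) * sr (m 2 1) * sr (m 3 0) * sr (m 3 1)) / 2) := by
  have h2 : ∀ x y z w : Bool, ((oddB (bz x + bz y + (bz z + bz w))).toNat : ℝ) =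
      (1 - sr x * sr y * sr z * sr w) / 2 := by
    intro x y z w
    have h3 : (oddB (bz x + bz y + (bz z + bz w))) = (x ^^ y ^^ (z ^^ w)) := by
      revert x y z w
      decide
    rw [h3]
    cases x <;> cases y <;> cases z <;> cases w <;> norm_num [sr, sg]
  unfold girB
  rcases h0 : c 0 with _ | _ <;> rcases h1 : c 1 with _ | _ <;> rcases h22 : c 2 with _ | _ <;>
    rcases h3 : c 3 with _ | _ <;>
    simp only [Finset.card_filter, Finset.sum_filter, Fin.sum_univ_four, h0, h1, h22, h3, al,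
      Bool.false_eq_true, Bool.true_eq_false, if_true, if_false, add_zero, zero_add, mul_zero,
      zero_mul, mul_one, one_mul,
      Nat.reduceAdd, Nat.reduceEqDiff, OfNat.ofNat_ne_zero, one_ne_zero, bz_false', h2] <;>
    norm_num [oddB]


section gen2
variable {V : Type*} [Fintype V]

theorem sum_perm4 (G : V → V → V → V → ℝ) (σ : Equiv.Perm (Fin 4)) :
    ∑ p : Fin 4 → V, G (p (σ 0)) (p (σ 1)) (p (σ 2)) (p (σ 3)) =
      ∑ p : Fin 4 → V, G (p 0) (p 1) (p 2) (p 3) := by
  refine Fintype.sum_equiv (Equiv.arrowCongr σ.symm (Equiv.refl V)) _ _ fun p => ?_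
  rfl

/-- a permutation of four elements from its values -/
noncomputable def pm (f : Fin 4 → Fin 4) (hf : Function.Bijective f) : Equiv.Perm (Fin 4) :=
  Equiv.ofBijective f hf

end gen2

section cnt
variable {n : ℕ}

theorem sum_al (χ : Fin n → Bool) (z : Bool) : ∑ v, al (χ v) z = ((ca χ z).card : ℝ) := by
  unfold ca al
  rw [Finset.card_filter]
  push_cast
  rfl

theorem sum_al4 (χ : Fin n → Bool) (z0 z1 z2 z3 : Bool) :
    ∑ p : Fin 4 → Fin n, al (χ (p 0)) z0 * al (χ (p 1)) z1 * al (χ (p 2)) z2 * al (χ (p 3)) z3 =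
      ((ca χ z0).card : ℝ) * (ca χ z1).card * (ca χ z2).card * (ca χ z3).card := by
  rw [sum_fin4 fun a b c d => al (χ a) z0 * al (χ b) z1 * al (χ c) z2 * al (χ d) z3]
  simp only [← Finset.mul_sum, ← Finset.sum_mul, sum_al]

/-- the product of the four signs of a rectangle -/
def rec4 (M : Fin n → Fin n → Bool) (a a' b b' : Fin n) : ℝ :=
  sr (M a b) * sr (M a b') * sr (M a' b) * sr (M a' b')

theorem sum_sq (χ : Fin n → Bool) (M : Fin n → Fin n → Bool) :
    ∑ p : Fin 4 → Fin n, al (χ (p 0)) false * al (χ (p 1)) false * al (χ (p 2)) true *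
      al (χ (p 3)) true * rec4 M (p 0) (p 1) (p 2) (p 3) = sq χ M := by
  rw [sum_fin4 fun a b c d => al (χ a) false * al (χ b) false * al (χ c) true *
      al (χ d) true * rec4 M a b c d]
  unfold sq ca
  rw [Finset.sum_filter]
  refine Finset.sum_congr rfl fun a _ => ?_
  by_cases ha : χ a = false
  · rw [if_pos ha, Finset.sum_filter]
    refine Finset.sum_congr rfl fun a' _ => ?_
    by_cases ha' : χ a' = false
    · rw [if_pos ha', pow_two, Finset.sum_mul_sum, Finset.sum_filter]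
      refine Finset.sum_congr rfl fun b _ => ?_
      by_cases hb : χ b = true
      · rw [if_pos hb, Finset.sum_filter]
        refine Finset.sum_congr rfl fun b' _ => ?_
        by_cases hb' : χ b' = true
        · rw [if_pos hb']
          unfold al rec4 sr
          rw [if_pos ha, if_pos ha', if_pos hb, if_pos hb']
          push_cast
          ring
        · rw [if_neg hb']
          unfold al
          rw [if_neg hb']
          ring
      · rw [if_neg hb]
        refine Finset.sum_eq_zero fun b' _ => ?_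
        unfold al
        rw [if_neg hb]
        ring
    · rw [if_neg ha']
      refine Finset.sum_eq_zero fun b _ => Finset.sum_eq_zero fun b' _ => ?_
      unfold al
      rw [if_neg ha']
      ring
  · rw [if_neg ha]
    refine Finset.sum_eq_zero fun a' _ => Finset.sum_eq_zero fun b _ =>
      Finset.sum_eq_zero fun b' _ => ?_
    unfold al
    rw [if_neg ha]
    ring

/-- the indicator of two false and two true points with an odd rectangle -/
noncomputable def o4 (χ : Fin n → Bool) (M : Fin n → Fin n → Bool) (a a' b b' : Fin n) : ℝ :=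
  al (χ a) false * al (χ a') false * al (χ b) true * al (χ b') true * (1 - rec4 M a a' b b') / 2

theorem sum_o4 (χ : Fin n → Bool) (M : Fin n → Fin n → Bool) (σ : Equiv.Perm (Fin 4)) :
    ∑ p : Fin 4 → Fin n, o4 χ M (p (σ 0)) (p (σ 1)) (p (σ 2)) (p (σ 3)) =
      (((ca χ false).card : ℝ) ^ 2 * ((ca χ true).card : ℝ) ^ 2 - sq χ M) / 2 := by
  rw [sum_perm4 (o4 χ M) σ]
  have h1 : ∀ p : Fin 4 → Fin n, o4 χ M (p 0) (p 1) (p 2) (p 3) =
      (al (χ (p 0)) false * al (χ (p 1)) false * al (χ (p 2)) true * al (χ (p 3)) true -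
        al (χ (p 0)) false * al (χ (p 1)) false * al (χ (p 2)) true *
      al (χ (p 3)) true * rec4 M (p 0) (p 1) (p 2) (p 3)) * (1 / 2) := by
    intro p
    unfold o4
    ring
  rw [Finset.sum_congr rfl fun p _ => h1 p, ← Finset.sum_mul, Finset.sum_sub_distrib, sum_al4,
    sum_sq]
  ring

/-- the weight of a quadruple -/
noncomputable def e4 (χ : Fin n → Bool) (M : Fin n → Fin n → Bool) (p : Fin 4 → Fin n) : ℝ :=
  ((girB (fun i => χ (p i)) (fun i j => M (p i) (p j)) (fun _ => false) (fun _ => false)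
    univ).toNat : ℝ)

theorem e4_nonneg (χ : Fin n → Bool) (M : Fin n → Fin n → Bool) (p : Fin 4 → Fin n) :
    0 ≤ e4 χ M p := Nat.cast_nonneg _

theorem sum_e4 (χ : Fin n → Bool) (M : Fin n → Fin n → Bool) :
    ∑ p : Fin 4 → Fin n, e4 χ M p =
      4 * ((ca χ false).card : ℝ) ^ 3 * ((ca χ true).card : ℝ) +
      4 * ((ca χ false).card : ℝ) * ((ca χ true).card : ℝ) ^ 3 +
      3 * (((ca χ false).card : ℝ) ^ 2 * ((ca χ true).card : ℝ) ^ 2 - sq χ M) := by
  have b1 : Function.Bijective (![0, 1, 2, 3] : Fin 4 → Fin 4) := by decide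
  have b2 : Function.Bijective (![0, 2, 1, 3] : Fin 4 → Fin 4) := by decide
  have b3 : Function.Bijective (![0, 3, 1, 2] : Fin 4 → Fin 4) := by decide
  have b4 : Function.Bijective (![1, 2, 0, 3] : Fin 4 → Fin 4) := by decide
  have b5 : Function.Bijective (![1, 3, 0, 2] : Fin 4 → Fin 4) := by decide
  have b6 : Function.Bijective (![2, 3, 0, 1] : Fin 4 → Fin 4) := by decide
  have h0 : ∀ p : Fin 4 → Fin n, e4 χ M p =
      ((al (χ (p 0)) true * al (χ (p 1)) false * al (χ (p 2)) false * al (χ (p 3)) false +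
       al (χ (p 0)) false * al (χ (p 1)) true * al (χ (p 2)) false * al (χ (p 3)) false +
       al (χ (p 0)) false * al (χ (p 1)) false * al (χ (p 2)) true * al (χ (p 3)) false +
       al (χ (p 0)) false * al (χ (p 1)) false * al (χ (p 2)) false * al (χ (p 3)) true) +
      (al (χ (p 0)) false * al (χ (p 1)) true * al (χ (p 2)) true * al (χ (p 3)) true +
       al (χ (p 0)) true * al (χ (p 1)) false * al (χ (p 2)) true * al (χ (p 3)) true +
       al (χ (p 0)) true * al (χ (p 1)) true * al (χ (p 2)) false * al (χ (p 3)) true +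
       al (χ (p 0)) true * al (χ (p 1)) true * al (χ (p 2)) true * al (χ (p 3)) false)) +
      (o4 χ M (p (pm _ b1 0)) (p (pm _ b1 1)) (p (pm _ b1 2)) (p (pm _ b1 3)) +
       o4 χ M (p (pm _ b2 0)) (p (pm _ b2 1)) (p (pm _ b2 2)) (p (pm _ b2 3)) +
       o4 χ M (p (pm _ b3 0)) (p (pm _ b3 1)) (p (pm _ b3 2)) (p (pm _ b3 3)) +
       o4 χ M (p (pm _ b4 0)) (p (pm _ b4 1)) (p (pm _ b4 2)) (p (pm _ b4 3)) +
       o4 χ M (p (pm _ b5 0)) (p (pm _ b5 1)) (p (pm _ b5 2)) (p (pm _ b5 3)) +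
       o4 χ M (p (pm _ b6 0)) (p (pm _ b6 1)) (p (pm _ b6 2)) (p (pm _ b6 3))) := by
    intro p
    unfold e4
    rw [girB4]
    rfl
  rw [Finset.sum_congr rfl fun p _ => h0 p]
  simp only [Finset.sum_add_distrib, sum_al4, sum_o4]
  ring

theorem gir_le (χ : Fin n → Bool) (M : Fin n → Fin n → Bool) :
    24 * ((gir χ M (fun _ => false) (fun _ => false)).card : ℝ) ≤
      4 * ((ca χ false).card : ℝ) ^ 3 * ((ca χ true).card : ℝ) +
      4 * ((ca χ false).card : ℝ) * ((ca χ true).card : ℝ) ^ 3 +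
      3 * (((ca χ false).card : ℝ) ^ 2 * ((ca χ true).card : ℝ) ^ 2 - sq χ M) := by
  have h1 := sum4_inj (V := Fin n) (girB χ M (fun _ => false) (fun _ => false))
  have h2 : ((S4 (girB χ M (fun _ => false) (fun _ => false)) : ℤ) : ℝ) =
      ((gir χ M (fun _ => false) (fun _ => false)).card : ℝ) := by
    unfold S4 gir
    rw [Finset.card_filter]
    push_cast
    refine Finset.sum_congr rfl fun Q _ => ?_
    cases girB χ M (fun _ => false) (fun _ => false) Q <;> simp
  rw [← h2, ← h1, ← sum_e4]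
  have h3 : ∑ p ∈ inj (Fin n) 4,
      ((((girB χ M (fun _ => false) (fun _ => false)) (univ.image p)).toNat : ℤ) : ℝ) =
      ∑ p ∈ inj (Fin n) 4, e4 χ M p := by
    refine Finset.sum_congr rfl fun p hp => ?_
    rw [girB_map χ M _ _ p (mem_inj.mp hp) univ]
    unfold e4
    push_cast
    rfl
  rw [h3]
  exact Finset.sum_le_univ_sum_of_nonneg fun p => e4_nonneg χ M p

end cnt

theorem choose4_ge (n : ℕ) (hn : 3 ≤ n) :
    (n : ℝ) ^ 4 - 6 * (n : ℝ) ^ 3 ≤ 24 * (n.choose 4 : ℝ) := by
  obtain ⟨m, rfl⟩ : ∃ m, n = m + 3 := ⟨n - 3, by omega⟩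
  have h1 := Nat.descFactorial_eq_factorial_mul_choose (m + 3) 4
  have h2 : (m + 3).descFactorial 4 = m * ((m + 1) * ((m + 2) * (m + 3))) := by
    simp only [Nat.descFactorial_succ, Nat.descFactorial_zero]
    have : m + 3 - 3 = m := by omega
    have : m + 3 - 2 = m + 1 := by omega
    have : m + 3 - 1 = m + 2 := by omega
    simp [*]
  have h3 : Nat.factorial 4 = 24 := rfl
  rw [h2, h3] at h1
  have h4 : (24 : ℝ) * ((m + 3).choose 4 : ℝ) = (m : ℝ) * ((m + 1) * ((m + 2) * (m + 3))) := by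
    exact_mod_cast h1.symm
  rw [h4]
  push_cast
  have h5 : (0 : ℝ) ≤ m := Nat.cast_nonneg m
  nlinarith [sq_nonneg (m : ℝ)]

end Pool.Agent.Lib.MP_afdd4d_co.K9.Star.VS.Q12

namespace Pool.Agent.Lib.MP_afdd4d_co.K9.Star.VS

open Finset K8 Q12 in
/-- Inputs (q1) and (q2): a large Giraud family is balanced and its relation is quasirandom. -/
theorem q12 (τ : ℝ) (hτ : 0 < τ) : ∃ η : ℝ, 0 < η ∧ ∃ N : ℕ, ∀ n : ℕ, N ≤ n →
    ∀ (χ : Fin n → Bool) (M : Fin n → Fin n → Bool),
    (11 / 16 - η) * (n.choose 4 : ℝ) ≤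
      ((gir χ M (fun _ => false) (fun _ => false)).card : ℝ) →
    |((ca χ true).card : ℝ) - n / 2| ≤ τ * n ∧ sq χ M ≤ τ * (n : ℝ) ^ 4 := by
  obtain ⟨η, h0, h1, h2, h3⟩ : ∃ η : ℝ, 0 < η ∧ η ≤ τ ∧ η ≤ τ ^ 2 ∧ η ≤ 11 / 16 := by
    refine ⟨min (min τ (τ ^ 2)) (11 / 16), ?_, ?_, ?_, ?_⟩
    · have : 0 < τ ^ 2 := by positivity
      exact lt_min (lt_min hτ this) (by norm_num)
    · exact (min_le_left _ _).trans (min_le_left _ _)
    · exact (min_le_left _ _).trans (min_le_right _ _)
    · exact min_le_right _ _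
  refine ⟨η, h0, ⌈10 / η⌉₊ + 1, fun n hn χ M hG => ?_⟩
  have hn1 : (1 : ℝ) ≤ n := by
    have : (1 : ℕ) ≤ n := by omega
    exact_mod_cast this
  have hn2 : 10 ≤ η * n := by
    have h4 : 10 / η ≤ n := (Nat.le_ceil _).trans (by
      have : ⌈10 / η⌉₊ ≤ n := by omega
      exact_mod_cast this)
    rw [div_le_iff₀ h0] at h4
    linarith
  have hab : ((ca χ false).card : ℝ) + ((ca χ true).card : ℝ) = n := by
    have h4 := Finset.card_filter_add_card_filter_not (s := (univ : Finset (Fin n)))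
      (p := fun v => χ v = false)
    rw [Finset.card_univ, Fintype.card_fin] at h4
    have h5 : (univ.filter fun v => ¬ χ v = false) = ca χ true := by
      ext v
      rw [mem_ca]
      simp
    rw [h5] at h4
    unfold ca at *
    exact_mod_cast h4
  have hC : (n : ℝ) ^ 4 - 6 * (n : ℝ) ^ 3 ≤ 24 * (n.choose 4 : ℝ) := choose4_ge n (by
    by_contra h4
    have h5 : (n : ℝ) ≤ 2 := by
      have : n ≤ 2 := by omega
      exact_mod_cast this
    nlinarith)
  have hg := gir_le χ M
  set a : ℝ := ((ca χ false).card : ℝ) with ha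
  set b : ℝ := ((ca χ true).card : ℝ) with hb
  have hW : 0 ≤ sq χ M := by
    unfold sq
    exact Finset.sum_nonneg fun _ _ => Finset.sum_nonneg fun _ _ => sq_nonneg _
  have key : 3 * sq χ M + 3 / 8 * (n : ℝ) ^ 2 * (b - a) ^ 2 + 5 / 16 * (b - a) ^ 4 ≤
      η * (n : ℝ) ^ 4 + 5 * (n : ℝ) ^ 3 := by
    have e1 : (11 / 16 - η) * ((n : ℝ) ^ 4 - 6 * (n : ℝ) ^ 3) ≤
        24 * ((gir χ M (fun _ => false) (fun _ => false)).card : ℝ) := by
      have := mul_le_mul_of_nonneg_left hC (by linarith : (0 : ℝ) ≤ 11 / 16 - η)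
      linarith
    have e2 : 4 * a ^ 3 * b + 4 * a * b ^ 3 + 3 * (a ^ 2 * b ^ 2) =
        11 / 16 * (n : ℝ) ^ 4 - 3 / 8 * (n : ℝ) ^ 2 * (b - a) ^ 2 - 5 / 16 * (b - a) ^ 4 := by
      rw [← hab]
      ring
    have e3 : (11 / 16 - η) * 6 * (n : ℝ) ^ 3 ≤ 5 * (n : ℝ) ^ 3 := by
      have : 0 ≤ (n : ℝ) ^ 3 := by positivity
      nlinarith
    nlinarith
  have hn3 : 5 * (n : ℝ) ^ 3 ≤ η / 2 * (n : ℝ) ^ 4 := by
    have : 0 ≤ (n : ℝ) ^ 3 := by positivity
    nlinarith
  have hd4 : 0 ≤ (b - a) ^ 4 := by positivity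
  have hd2 : 0 ≤ (n : ℝ) ^ 2 * (b - a) ^ 2 := by positivity
  have hn4 : 0 < (n : ℝ) ^ 4 := by positivity
  constructor
  · have e4 : (n : ℝ) ^ 2 * (b - a) ^ 2 ≤ (n : ℝ) ^ 2 * (4 * (τ * n) ^ 2) := by
      have e5 : η * (n : ℝ) ^ 4 ≤ τ ^ 2 * (n : ℝ) ^ 4 := by
        exact mul_le_mul_of_nonneg_right h2 hn4.le
      nlinarith
    have e6 : (b - a) ^ 2 ≤ (2 * (τ * n)) ^ 2 := by
      have := le_of_mul_le_mul_left e4 (by positivity)
      nlinarith
    have e7 : |b - a| ≤ 2 * (τ * n) := abs_le_of_sq_le_sq e6 (by positivity)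
    have e8 : b - n / 2 = (b - a) / 2 := by
      rw [← hab]
      ring
    rw [e8, abs_div, abs_of_pos (by norm_num : (0 : ℝ) < 2)]
    linarith
  · have e5 : η * (n : ℝ) ^ 4 ≤ τ * (n : ℝ) ^ 4 := mul_le_mul_of_nonneg_right h1 hn4.le
    nlinarith

end Pool.Agent.Lib.MP_afdd4d_co.K9.Star.VS
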