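import Pool.Agent.Lib.MP_afdd4d_co.K9.TwMM

/-!
# A small distance to a structure

The 4-graph differs from Giraud's family of some colouring and some relation in a small number of
quadruples. The colouring and the relation are those of the smallest distance.
-/

namespace Pool.Agent.Lib.MP_afdd4d_co.K9.Star.Tw

open Finset K8
open Pool.Agent.Lib.MP_afdd4d_co.K9.Marks

/-- The parameters. -/
structure PA where
  xn : ℕ
  xd : ℕ
  yn : ℕ
  yd : ℕ
  sn : ℕ
  sd : ℕ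

/-- The condition: the structure of smallest distance, the distance is at most `xn / xd`, the
density is at least `11 / 16 - yn / (16 * yd)`, the imbalance of the colours is at most
`sn / sd`. -/
structure CtA (a : PA) {n : ℕ} (H E : Finset (Finset (Fin n))) (χ : Fin n → Bool) :
    Prop where
  h4 : ∀ e ∈ H, e.card = 4
  k5 : K5F H
  d : 11 * a.yd * n.choose 4 ≤ 16 * a.yd * H.card + a.yn * n.choose 4
  g : ∃ M : Fin n → Fin n → Bool, E = gir χ M (fun _ => false) (fun _ => false)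
  o : ∀ (χ' : Fin n → Bool) (M' : Fin n → Fin n → Bool),
    (symmDiff H E).card ≤ (symmDiff H (gir χ' M' (fun _ => false) (fun _ => false))).card
  x : a.xd * (symmDiff H E).card ≤ a.xn * n.choose 4
  s : (a.sd : ℤ) * |∑ v : Fin n, sg (χ v)| ≤ a.sn * n

/-- The condition as a family. -/
abbrev CtAX (a : PA) : X3 := fun {_} H E χ => CtA a H E χ

section ct
variable {a : PA} {P : ParX}

theorem CtA.e4' {n : ℕ} {H E : Finset (Finset (Fin n))} {χ : Fin n → Bool}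
    (h : CtA a H E χ) : (∀ e ∈ E, e.card = 4) ∧ EvenH n E := by
  obtain ⟨M, rfl⟩ := h.g
  exact ⟨gir_card _ _ _ _, evenH_gir _ _ _ _⟩

theorem CtA.o22 {n : ℕ} {H E : Finset (Finset (Fin n))} {χ : Fin n → Bool}
    (h : CtA a H E χ) : O22 H E χ := by
  obtain ⟨M, rfl⟩ := h.g
  exact O22.of_opt H h.h4 χ M fun M' => h.o χ M'

/-- The density of the structure. -/
theorem gvA_colR (hE : EvUp) : GV (CtAX a) P (fun D => colR D.r) :=
  goodP_colR hE fun _ _ _ hx => hx.e4'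

/-- The density of the 4-graph. -/
theorem gvA_dens : GV (CtAX a) P (fun D => a.yd * (16 * S4 D.e - 165) + 15 * a.yn) := by
  refine GoodP.of_n5 (Z := fun H _ _ t => a.yd * (16 * S4 (zb H t) - 165) + 15 * a.yn) 0
    fun {n} H E χ hx => ?_
  rw [zero_mul, neg_zero]
  rcases Nat.lt_or_ge n 6 with hlt | hge
  · have h0 : (inj (Fin n) 6).card = 0 := by
      rw [card_inj, Fintype.card_fin, Nat.descFactorial_eq_zero_iff_lt]
      exact hlt
    rw [Finset.card_eq_zero] at h0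
    rw [h0, Finset.sum_empty]
  · have e1 : ∑ t ∈ inj (Fin n) 6, (((a.yd * (16 * S4 (zb H t) - 165) + 15 * a.yn : ℤ)) : ℝ) =
        360 * (PP n 4 2 * (16 * a.yd * (H.card : ℝ) + a.yn * ((n.choose 4 : ℕ) : ℝ) -
          11 * a.yd * ((n.choose 4 : ℕ) : ℝ))) := by
      have e2 : ∀ t : Fin 6 → Fin n, (((a.yd * (16 * S4 (zb H t) - 165) + 15 * a.yn : ℤ)) : ℝ) =
          16 * a.yd * ((S4 (zb H t) : ℤ) : ℝ) - (165 * a.yd - 15 * a.yn) := by
        intro t
        push_cast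
        ring
      rw [Finset.sum_congr rfl fun t _ => e2 t, Finset.sum_sub_distrib, ← Finset.mul_sum,
        sum_S4_eq H hx.h4]
      simp only [Finset.sum_const, nsmul_eq_mul, card_inj, Fintype.card_fin]
      rw [desc6_eq hge]
      ring
    rw [e1]
    have h1 : (11 : ℝ) * a.yd * ((n.choose 4 : ℕ) : ℝ) ≤
        16 * a.yd * (H.card : ℝ) + a.yn * ((n.choose 4 : ℕ) : ℝ) := by exact_mod_cast hx.d
    exact mul_nonneg (by norm_num) (mul_nonneg (PP42_pos hge) (by linarith))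

/-- The bound of the distance. -/
theorem gvA_cap : GV (CtAX a) P (fun D => 15 * a.xn - a.xd * cw (wz 1 1) D.e D.r) := by
  refine goodP_cap (c := wz 1 1) a.xn a.xd fun {n} H E χ hx => ?_
  rw [cst_symm H E hx.h4 hx.e4'.1]
  exact_mod_cast hx.x

/-- The bounds of the imbalance. -/
theorem gvA_s (σ : ℤ) (hσ : |σ| ≤ 1) (μ : MuX 5) (j : Fin (5 + 1) → Fin 6)
    (hj : Function.Injective j) : GV (CtAX a) P (sV σ a.sn a.sd μ j) :=
  gv_s σ hσ a.sn a.sd μ j hj fun _ _ _ hx => hx.s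

theorem sq_nonneg_of_s {sn sd : ℕ} {n : ℕ} (χ : Fin n → Bool) (h : (sd : ℤ) * |∑ v : Fin n, sg (χ v)| ≤ sn * n) :
    0 ≤ (sn : ℤ) ^ 2 * (n : ℤ) ^ 2 + -(sd : ℤ) ^ 2 * (∑ v : Fin n, sg (χ v)) ^ 2 := by
  have h1 : ((sd : ℤ) * |∑ v : Fin n, sg (χ v)|) ^ 2 ≤ ((sn : ℤ) * n) ^ 2 := by
    refine pow_le_pow_left₀ (mul_nonneg (Int.natCast_nonneg _) (abs_nonneg _)) h 2
  rw [mul_pow, sq_abs, mul_pow] at h1
  linarith

theorem gvA_ss (μ : MuX 4) (j : Fin (4 + 2) → Fin 6) (hj : Function.Injective j) :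
    GV (CtAX a) P (ssV ((a.sn : ℤ) ^ 2) (-(a.sd : ℤ) ^ 2) μ j) :=
  gv_ss _ _ μ j hj fun _ _ _ hx => sq_nonneg_of_s _ hx.s

theorem gvA_sq (μ : MuX 4) (j : Fin (4 + 2) → Fin 6) (hj : Function.Injective j) :
    GV (CtAX a) P (ssV 0 1 μ j) :=
  gv_ss _ _ μ j hj fun _ _ χ _ => by
    rw [zero_mul, zero_add, one_mul]
    exact sq_nonneg _

/-- The changes of the relation. -/
theorem gvA_glob (μ : MuX (0 + 2)) (F : WD 4 → Bool) :
    GV (CtAX a) P (fun D => mmV 0 4 (globV F) ![2, 3, 4, 5] rfl μ D) :=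
  gv_glob (fun _ _ _ hx => hx.o22) μ F

theorem gvA_row (μ : MuX (1 + 2)) (F : WD 4 → Bool) :
    GV (CtAX a) P (fun D => mmV 1 3 (rowV F) q1 rfl μ D) :=
  gv_row (fun _ _ _ hx => hx.o22) μ F

theorem gvA_pair (μ : MuX (2 + 2)) :
    GV (CtAX a) P (fun D => mmV 2 2 pairV ![0, 1, 4, 5] rfl μ D) :=
  gv_pair (fun _ _ _ hx => hx.o22) μ

/-! ### The 4-graph of the differences -/

/-- The condition for the quadruples with two vertices of each colour in which the 4-graph differs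
from the structure. -/
def Ct2X (a : PA) : X3 := fun {n} J E χ =>
  E = ∅ ∧ ∃ H0 E0 : Finset (Finset (Fin n)), CtA a H0 E0 χ ∧ J = sd2 H0 E0 χ

theorem gv2_glob (μ : MuX (0 + 2)) (F : WD 4 → Bool) :
    GV (Ct2X a) P (fun D => mmV 0 4 (globV F) ![2, 3, 4, 5] rfl μ D) :=
  gv_glob (fun _ _ _ hx => by
    obtain ⟨rfl, H0, E0, h, rfl⟩ := hx
    exact O22.sd _ _ _ h.o22) μ F

theorem gv2_row (μ : MuX (1 + 2)) (F : WD 4 → Bool) :
    GV (Ct2X a) P (fun D => mmV 1 3 (rowV F) q1 rfl μ D) :=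
  gv_row (fun _ _ _ hx => by
    obtain ⟨rfl, H0, E0, h, rfl⟩ := hx
    exact O22.sd _ _ _ h.o22) μ F

theorem gv2_pair (μ : MuX (2 + 2)) :
    GV (Ct2X a) P (fun D => mmV 2 2 pairV ![0, 1, 4, 5] rfl μ D) :=
  gv_pair (fun _ _ _ hx => by
    obtain ⟨rfl, H0, E0, h, rfl⟩ := hx
    exact O22.sd _ _ _ h.o22) μ

theorem gv2_s (σ : ℤ) (hσ : |σ| ≤ 1) (μ : MuX 5) (j : Fin (5 + 1) → Fin 6)
    (hj : Function.Injective j) : GV (Ct2X a) P (sV σ a.sn a.sd μ j) :=
  gv_s σ hσ a.sn a.sd μ j hj fun _ _ _ hx => by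
    obtain ⟨_, H0, E0, h, _⟩ := hx
    exact h.s

theorem gv2_ss (μ : MuX 4) (j : Fin (4 + 2) → Fin 6) (hj : Function.Injective j) :
    GV (Ct2X a) P (ssV ((a.sn : ℤ) ^ 2) (-(a.sd : ℤ) ^ 2) μ j) :=
  gv_ss _ _ μ j hj fun _ _ _ hx => by
    obtain ⟨_, H0, E0, h, _⟩ := hx
    exact sq_nonneg_of_s _ h.s

theorem gv2_sq (μ : MuX 4) (j : Fin (4 + 2) → Fin 6) (hj : Function.Injective j) :
    GV (Ct2X a) P (ssV 0 1 μ j) :=
  gv_ss _ _ μ j hj fun _ _ χ _ => by
    rw [zero_mul, zero_add, one_mul]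
    exact sq_nonneg _

/-- The bound of the number of the differences. -/
theorem gv2_cap : GV (Ct2X a) P (fun D => 15 * a.xn - a.xd * S4 D.e) := by
  have h1 := goodP_cap (Cx := Ct2X a) (c := fun x _ => if x = true then 1 else 0) a.xn a.xd
    fun {n} H E χ hx => ?_
  · refine GoodP.mono h1 fun H E χ _ t _ => le_of_eq ?_
    have e : cw (fun x _ => if x = true then 1 else 0) (zb H t) (zb E t) = S4 (zb H t) := by
      unfold cw S4
      refine Finset.sum_congr rfl fun Q _ => ?_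
      cases zb H t Q <;> rfl
    rw [e]
    rfl
  · obtain ⟨rfl, H0, E0, h, rfl⟩ := hx
    have h2 : K8.cst (fun x _ => if x = true then 1 else 0) (sd2 H0 E0 χ)
        (∅ : Finset (Finset (Fin n))) = ((sd2 H0 E0 χ).card : ℤ) := by
      have h3 : sd2 H0 E0 χ = ((univ : Finset (Fin n)).powersetCard 4).filter fun Q =>
          Q ∈ sd2 H0 E0 χ := by
        ext Q
        rw [Finset.mem_filter, Finset.mem_powersetCard]
        exact ⟨fun h5 => ⟨⟨Finset.subset_univ _, sd2_card4 χ h.h4 h.e4'.1 Q h5⟩, h5⟩,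
          fun h5 => h5.2⟩
      conv_rhs => rw [h3]
      rw [Finset.card_filter]
      unfold K8.cst
      push_cast
      refine Finset.sum_congr rfl fun Q _ => ?_
      by_cases h2 : Q ∈ sd2 H0 E0 χ <;> simp [h2]
    rw [h2]
    have h4 : (sd2 H0 E0 χ).card ≤ (symmDiff H0 E0).card := Finset.card_filter_le _ _
    have h5 : a.xd * (sd2 H0 E0 χ).card ≤ a.xn * n.choose 4 :=
      le_trans (Nat.mul_le_mul_left _ h4) h.x
    exact_mod_cast h5

/-- A function with nonnegative average for the 4-graph of the differences. -/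
theorem gvA_of2 {P' : ParX} {V : WD 6 → ℤ} (hV : GV (Ct2X a) P V)
    (V0 : (Fin 6 → Bool) → (Finset (Fin 6) → Bool) → ℤ)
    (hrow : ∀ D : WD 6, (D.r = fun _ => false) →
      (∀ S, D.e S = true → (S.filter fun i => D.c i = true).card = 2) →
      (∀ i j, D.b i j = D.b j i) → V D ≤ V0 D.c D.e) :
    GV (CtAX a) P' (fun D => V0 D.c (w22 D)) := by
  intro δ hδ
  obtain ⟨N, hN⟩ := hV δ hδ
  refine ⟨N, fun n hn H E χ hc => ?_⟩
  have h1 := hN n hn (sd2 H E χ) ∅ χ ⟨rfl, H, E, hc, rfl⟩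
  refine le_trans h1 (Finset.sum_le_sum fun t ht => ?_)
  have ht' := mem_inj.mp ht
  have e1 := zb_sd2 H E χ t ht'
  have h2 := hrow (wt P (sd2 H E χ) ∅ χ t) ?_ ?_ ?_
  · have e2 : V0 (wt P (sd2 H E χ) ∅ χ t).c (wt P (sd2 H E χ) ∅ χ t).e =
        V0 (wt P' H E χ t).c (w22 (wt P' H E χ t)) := by
      show V0 (fun i => χ (t i)) (zb (sd2 H E χ) t) = V0 (fun i => χ (t i)) _
      rw [e1]
      rfl
    rw [e2] at h2
    exact_mod_cast h2
  · funext S
    show zb ∅ t S = false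
    rw [zb_eq]
    show decide (S.image t ∈ (∅ : Finset (Finset (Fin n)))) = false
    simp
  · intro S hS
    have h3 : zb (sd2 H E χ) t S = true := hS
    rw [e1] at h3
    rw [Bool.and_eq_true, decide_eq_true_eq] at h3
    exact h3.2
  · intro i j
    exact mk_comm _ P.dn P.dd _ _

/-! ### The theorem -/

/-- The imbalance of the colours of a structure. -/
theorem s_of_dens (a : PA) (hxd : 0 < a.xd) (hyd : 0 < a.yd)
    (hs : (a.yn * a.xd + 16 * a.xn * a.yd) * a.sd ^ 2 < 6 * a.sn ^ 2 * (a.xd * a.yd)) :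
    ∃ N0 : ℕ, ∀ n : ℕ, N0 ≤ n → ∀ (H : Finset (Finset (Fin n))) (χ : Fin n → Bool)
      (M : Fin n → Fin n → Bool),
      11 * a.yd * n.choose 4 ≤ 16 * a.yd * H.card + a.yn * n.choose 4 →
      a.xd * (symmDiff H (gir χ M (fun _ => false) (fun _ => false))).card ≤ a.xn * n.choose 4 →
      (a.sd : ℤ) * |∑ v : Fin n, sg (χ v)| ≤ a.sn * n := by
  -- the constants
  set A : ℝ := (a.yn : ℝ) / a.yd + 16 * ((a.xn : ℝ) / a.xd) with hA
  have hxd' : (0 : ℝ) < a.xd := by exact_mod_cast hxd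
  have hyd' : (0 : ℝ) < a.yd := by exact_mod_cast hyd
  have hA0 : 0 ≤ A := by positivity
  have hs' : A * (a.sd : ℝ) ^ 2 < 6 * (a.sn : ℝ) ^ 2 := by
    have h1 : ((a.yn : ℝ) * a.xd + 16 * a.xn * a.yd) * (a.sd : ℝ) ^ 2 <
        6 * (a.sn : ℝ) ^ 2 * (a.xd * a.yd) := by exact_mod_cast hs
    have e : A * (a.sd : ℝ) ^ 2 = ((a.yn : ℝ) * a.xd + 16 * a.xn * a.yd) * (a.sd : ℝ) ^ 2 /
        (a.xd * a.yd) := by
      rw [hA]
      field_simp
    rw [e, div_lt_iff₀ (by positivity)]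
    exact h1
  set g : ℝ := 6 * (a.sn : ℝ) ^ 2 - A * (a.sd : ℝ) ^ 2 with hg
  have hg0 : 0 < g := by rw [hg]; linarith
  obtain ⟨N, hN⟩ := exists_nat_gt (500 * (a.sd : ℝ) ^ 2 / g)
  refine ⟨max 4 N, fun n hn H χ M hd hx => ?_⟩
  have hn4 : 4 ≤ n := le_trans (le_max_left _ _) hn
  have hnN : (N : ℝ) ≤ n := by exact_mod_cast le_trans (le_max_right _ _) hn
  have hn0 : (0 : ℝ) < n := by exact_mod_cast (by omega : 0 < n)
  have hb := dens_gir χ M
  have h6 := choose4_ge n hn4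
  set G := gir χ M (fun _ => false) (fun _ => false) with hG
  set C : ℝ := ((n.choose 4 : ℕ) : ℝ) with hC
  -- the number of edges of the structure
  have h1 : (H.card : ℝ) ≤ (G.card : ℝ) + ((symmDiff H G).card : ℝ) := by
    have h2 : H ⊆ G ∪ symmDiff H G := by
      intro e he
      by_cases h3 : e ∈ G
      · exact Finset.mem_union_left _ h3
      · exact Finset.mem_union_right _ (Finset.mem_symmDiff.mpr (Or.inl ⟨he, h3⟩))
    have h3 := le_trans (Finset.card_le_card h2) (Finset.card_union_le _ _)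
    exact_mod_cast h3
  have h2 : 11 * C ≤ 16 * (H.card : ℝ) + (a.yn : ℝ) / a.yd * C := by
    have h3 : (11 : ℝ) * a.yd * C ≤ 16 * a.yd * (H.card : ℝ) + a.yn * C := by
      rw [hC]
      exact_mod_cast hd
    have e : (a.yn : ℝ) / a.yd * C = a.yn * C / a.yd := by ring
    rw [e, ← sub_le_iff_le_add', le_div_iff₀ hyd']
    linarith
  have h3 : ((symmDiff H G).card : ℝ) ≤ (a.xn : ℝ) / a.xd * C := by
    have h4 : (a.xd : ℝ) * ((symmDiff H G).card : ℝ) ≤ a.xn * C := by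
      rw [hC]
      exact_mod_cast hx
    have e : (a.xn : ℝ) / a.xd * C = a.xn * C / a.xd := by ring
    rw [e, le_div_iff₀ hxd']
    linarith
  have h4 : (11 - A) * C ≤ 16 * (G.card : ℝ) := by
    have e : (11 - A) * C = 11 * C - (a.yn : ℝ) / a.yd * C - 16 * ((a.xn : ℝ) / a.xd * C) := by
      rw [hA]
      ring
    rw [e]
    linarith
  have hc4 := c4s_nonneg χ M
  -- the bound of the imbalance
  have h5 : 6 * ((n : ℝ) ^ 2 * dn χ ^ 2) ≤ A * (n : ℝ) ^ 4 + 500 * (n : ℝ) ^ 3 := by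
    have hn3 : (0 : ℝ) ≤ (n : ℝ) ^ 3 := by positivity
    have hCle : C ≤ (n : ℝ) ^ 4 / 24 := by
      rw [hC]
      have := Nat.choose_le_pow_div (α := ℝ) 4 n
      have e : ((Nat.factorial 4 : ℕ) : ℝ) = 24 := by norm_num [Nat.factorial]
      rw [e] at this
      exact this
    have h7 : 11 * ((n : ℝ) ^ 4 / 24 - (n : ℝ) ^ 3 / 4) - A * ((n : ℝ) ^ 4 / 24) ≤
        16 * (G.card : ℝ) := by
      have h8 : 11 * ((n : ℝ) ^ 4 / 24 - (n : ℝ) ^ 3 / 4) ≤ 11 * C :=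
        mul_le_mul_of_nonneg_left h6 (by norm_num)
      have h9 : A * C ≤ A * ((n : ℝ) ^ 4 / 24) := mul_le_mul_of_nonneg_left hCle hA0
      linarith
    linarith
  have h7 : 500 * (a.sd : ℝ) ^ 2 ≤ g * n := by
    have h8 : 500 * (a.sd : ℝ) ^ 2 / g < n := lt_of_lt_of_le hN hnN
    rw [div_lt_iff₀ hg0] at h8
    linarith
  have h8 : (n : ℝ) ^ 2 * ((a.sd : ℝ) * |dn χ|) ^ 2 ≤ (n : ℝ) ^ 2 * ((a.sn : ℝ) * n) ^ 2 := by
    have e1 : (n : ℝ) ^ 2 * ((a.sd : ℝ) * |dn χ|) ^ 2 =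
        (a.sd : ℝ) ^ 2 * ((n : ℝ) ^ 2 * dn χ ^ 2) := by
      rw [mul_pow, sq_abs]
      ring
    rw [e1]
    have h9 := mul_le_mul_of_nonneg_left h5 (by positivity : (0 : ℝ) ≤ (a.sd : ℝ) ^ 2)
    have h10 := mul_le_mul_of_nonneg_right h7 (by positivity : (0 : ℝ) ≤ (n : ℝ) ^ 3)
    have e2 : g * n * (n : ℝ) ^ 3 =
        6 * ((n : ℝ) ^ 2 * ((a.sn : ℝ) * n) ^ 2) - (a.sd : ℝ) ^ 2 * (A * (n : ℝ) ^ 4) := by
      rw [hg]
      ring
    linarith
  have h9 : ((a.sd : ℝ) * |dn χ|) ^ 2 ≤ ((a.sn : ℝ) * n) ^ 2 :=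
    le_of_mul_le_mul_left h8 (by positivity)
  have h10 : (a.sd : ℝ) * |dn χ| ≤ a.sn * n :=
    le_of_sq_le_sq h9 (by positivity)
  rw [sum_sg]
  have h11 : ((((a.sd : ℤ) * |(nc χ false : ℤ) - nc χ true|) : ℤ) : ℝ) ≤
      (((a.sn * n : ℕ) : ℤ) : ℝ) := by
    push_cast
    exact h10
  exact_mod_cast h11

/-- The theorem for a small distance from the inequality on windows. -/
theorem locA {P : ParX} (a : PA) (N s : ℕ) (hN : 0 < N) (hxd : 0 < a.xd) (hyd : 0 < a.yd)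
    (hc : s * a.xn * a.yd ≤ N * a.xd * a.yn)
    (hs : (a.yn * a.xd + 16 * a.xn * a.yd) * a.sd ^ 2 < 6 * a.sn ^ 2 * (a.xd * a.yd))
    (v : WD 6 → ℤ) (hv : GV (CtAX a) P v)
    (hrow : ∀ D : WD 6, K5w D.e → (∃ z : Fin 6 → Fin 6 → Bool, D.r = eL D.c z) →
      v D + s * S4 (fun S => D.e S ^^ D.r S) ≤ N * (165 - 16 * S4 D.e)) :
    ∀ ε : ℝ, 0 < ε → ∃ N0 : ℕ, ∀ n : ℕ, N0 ≤ n → ∀ (H : Finset (Finset (Fin n)))
      (χ : Fin n → Bool) (M : Fin n → Fin n → Bool),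
      (∀ e ∈ H, e.card = 4) →
      (∀ S : Finset (Fin n), S.card = 5 → ∃ e ∈ S.powersetCard 4, e ∉ H) →
      (∀ (χ' : Fin n → Bool) (M' : Fin n → Fin n → Bool),
        (symmDiff H (gir χ M (fun _ => false) (fun _ => false))).card ≤
          (symmDiff H (gir χ' M' (fun _ => false) (fun _ => false))).card) →
      a.xd * (symmDiff H (gir χ M (fun _ => false) (fun _ => false))).card ≤ a.xn * n.choose 4 →
      (H.card : ℝ) + (s : ℝ) / (16 * N) *
        ((symmDiff H (gir χ M (fun _ => false) (fun _ => false))).card : ℝ) ≤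
          ((11 / 16 : ℝ) + ε) * ((n.choose 4 : ℕ) : ℝ) := by
  intro ε hε
  have hN' : (0 : ℝ) < N := by exact_mod_cast hN
  have hxd' : (0 : ℝ) < a.xd := by exact_mod_cast hxd
  have hyd' : (0 : ℝ) < a.yd := by exact_mod_cast hyd
  obtain ⟨N1, hN1⟩ := s_of_dens a hxd hyd hs
  obtain ⟨δ, _, N2, hN2⟩ := str_of_goodW (Cx := fun _ {_} H E χ => CtAX a H E χ) N 0 s hN
    (fun η {n} H E χ hc => ⟨hc.h4, hc.e4'.1⟩) (fun H E χ t => v (wt P H E χ t))
    (GoodW.of_goodP (Cx' := CtAX a) 1 one_pos (fun _ _ _ hc => hc) hv)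
    (fun η {n} H E χ hc t ht => by
      have h1 := hrow (wt P H E χ t) (k5w_zb H hc.h4 hc.k5 t ht) (by
        obtain ⟨M, rfl⟩ := hc.g
        exact ⟨(dt χ M t).2, zb_eL χ M t ht⟩)
      rw [Nat.cast_zero, zero_mul, add_zero]
      exact h1) ε hε
  refine ⟨max N1 N2, fun n hn H χ M hH hK ho hx => ?_⟩
  set G := gir χ M (fun _ => false) (fun _ => false) with hG
  by_cases hd : 11 * a.yd * n.choose 4 ≤ 16 * a.yd * H.card + a.yn * n.choose 4
  · have h1 := hN2 n (le_trans (le_max_right _ _) hn) H G χ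
      ⟨hH, hK, hd, ⟨M, hG⟩, ho, hx, hN1 n (le_trans (le_max_left _ _) hn) H χ M hd hx⟩
    rw [Nat.cast_zero, zero_div, zero_mul, add_zero] at h1
    exact h1
  · rw [not_le] at hd
    set C : ℝ := ((n.choose 4 : ℕ) : ℝ) with hC
    have hC0 : 0 ≤ C := Nat.cast_nonneg _
    have h2 : 16 * (a.yd : ℝ) * (H.card : ℝ) + a.yn * C ≤ 11 * a.yd * C := by
      rw [hC]
      exact_mod_cast hd.le
    have h3 : (a.xd : ℝ) * ((symmDiff H G).card : ℝ) ≤ a.xn * C := by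
      rw [hC]
      exact_mod_cast hx
    have hc' : (s : ℝ) * a.xn * a.yd ≤ N * a.xd * a.yn := by exact_mod_cast hc
    -- multiply everything by `16 * N * xd * yd`
    have h4 : 16 * N * a.xd * a.yd * ((H.card : ℝ) + (s : ℝ) / (16 * N) *
        ((symmDiff H G).card : ℝ)) ≤ 16 * N * a.xd * a.yd * (11 / 16 * C) := by
      have e1 : 16 * (N : ℝ) * a.xd * a.yd * ((H.card : ℝ) + (s : ℝ) / (16 * N) *
          ((symmDiff H G).card : ℝ)) = (N : ℝ) * a.xd * (16 * a.yd * (H.card : ℝ)) +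
            s * a.yd * (a.xd * ((symmDiff H G).card : ℝ)) := by
        field_simp
      have e2 : 16 * (N : ℝ) * a.xd * a.yd * (11 / 16 * C) = N * a.xd * (11 * a.yd * C) := by
        ring
      rw [e1, e2]
      have h5 := mul_le_mul_of_nonneg_left h2 (by positivity : (0 : ℝ) ≤ N * a.xd)
      have h6 := mul_le_mul_of_nonneg_left h3 (by positivity : (0 : ℝ) ≤ (s : ℝ) * a.yd)
      have h7 := mul_le_mul_of_nonneg_right hc' hC0
      linarith
    have h5 := le_of_mul_le_mul_left h4 (by positivity)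
    have h6 : 0 ≤ ε * C := by positivity
    linarith

end ct

end Pool.Agent.Lib.MP_afdd4d_co.K9.Star.Tw
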