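import Pool.Agent.Lib.MP_afdd4d_co.K9.TwA
import Pool.Agent.Lib.MP_afdd4d_co.K9.TwGir

/-!
# 4-graphs with a small number of 5-sets with an odd number of edges

From the theorem for a small distance to Giraud's families and from the stability of the extremal
problem for even 4-graphs.
-/

namespace Pool.Agent.Lib.MP_afdd4d_co.K9.Star.Tw

open Finset K8
open Pool.Agent.Lib.MP_afdd4d_co.K9.Marks

/-- The theorem for a small distance to a structure. -/
def TgtA (x0 : ℝ) : Prop :=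
  ∀ ε : ℝ, 0 < ε → ∃ N0 : ℕ, ∀ n : ℕ, N0 ≤ n → ∀ (H : Finset (Finset (Fin n)))
    (χ : Fin n → Bool) (M : Fin n → Fin n → Bool),
    (∀ e ∈ H, e.card = 4) →
    (∀ S : Finset (Fin n), S.card = 5 → ∃ e ∈ S.powersetCard 4, e ∉ H) →
    ((symmDiff H (gir χ M (fun _ => false) (fun _ => false))).card : ℝ) ≤
      x0 * ((n.choose 4 : ℕ) : ℝ) →
    (H.card : ℝ) ≤ ((11 / 16 : ℝ) + ε) * ((n.choose 4 : ℕ) : ℝ)

/-- The stability of the extremal problem for even 4-graphs. -/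
def T1Soft : Prop :=
  ∀ ε : ℝ, 0 < ε → ∃ η : ℝ, 0 < η ∧ ∃ N0 : ℕ, ∀ n : ℕ, N0 ≤ n → ∀ E : Finset (Finset (Fin n)),
    (∀ e ∈ E, e.card = 4) → EvenH n E →
    ((11 / 16 : ℝ) - η) * ((n.choose 4 : ℕ) : ℝ) ≤ (E.card : ℝ) →
    ∃ (χ : Fin n → Bool) (M : Fin n → Fin n → Bool),
      ((symmDiff E (gir χ M (fun _ => false) (fun _ => false))).card : ℝ) ≤
        ε * ((n.choose 4 : ℕ) : ℝ)

/-- There is a structure of smallest distance. -/
theorem exists_near_gir {n : ℕ} (H : Finset (Finset (Fin n))) :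
    ∃ (χ : Fin n → Bool) (M : Fin n → Fin n → Bool),
      ∀ (χ' : Fin n → Bool) (M' : Fin n → Fin n → Bool),
        (symmDiff H (gir χ M (fun _ => false) (fun _ => false))).card ≤
          (symmDiff H (gir χ' M' (fun _ => false) (fun _ => false))).card := by
  classical
  obtain ⟨p, _, hp⟩ := Finset.exists_min_image
    (Finset.univ : Finset ((Fin n → Bool) × (Fin n → Fin n → Bool)))
    (fun p => (symmDiff H (gir p.1 p.2 (fun _ => false) (fun _ => false))).card)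
    ⟨(fun _ => false, fun _ _ => false), Finset.mem_univ _⟩
  exact ⟨p.1, p.2, fun χ' M' => hp (χ', M') (Finset.mem_univ _)⟩

/-- The theorem for a small distance from the theorem for the structure of smallest distance. -/
theorem tgtA_of_near (xn xd : ℕ) (hxd : 0 < xd) (c : ℝ) (hc : 0 ≤ c)
    (h : ∀ ε : ℝ, 0 < ε → ∃ N0 : ℕ, ∀ n : ℕ, N0 ≤ n → ∀ (H : Finset (Finset (Fin n)))
      (χ : Fin n → Bool) (M : Fin n → Fin n → Bool),
      (∀ e ∈ H, e.card = 4) →
      (∀ S : Finset (Fin n), S.card = 5 → ∃ e ∈ S.powersetCard 4, e ∉ H) →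
      (∀ (χ' : Fin n → Bool) (M' : Fin n → Fin n → Bool),
        (symmDiff H (gir χ M (fun _ => false) (fun _ => false))).card ≤
          (symmDiff H (gir χ' M' (fun _ => false) (fun _ => false))).card) →
      xd * (symmDiff H (gir χ M (fun _ => false) (fun _ => false))).card ≤ xn * n.choose 4 →
      (H.card : ℝ) + c *
        ((symmDiff H (gir χ M (fun _ => false) (fun _ => false))).card : ℝ) ≤
          ((11 / 16 : ℝ) + ε) * ((n.choose 4 : ℕ) : ℝ)) : TgtA ((xn : ℝ) / xd) := by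
  intro ε hε
  obtain ⟨N0, hN0⟩ := h ε hε
  refine ⟨N0, fun n hn H χ M hH hK hx => ?_⟩
  obtain ⟨χ', M', ho⟩ := exists_near_gir H
  have hxd' : (0 : ℝ) < xd := by exact_mod_cast hxd
  have h1 : xd * (symmDiff H (gir χ' M' (fun _ => false) (fun _ => false))).card ≤
      xn * n.choose 4 := by
    have h2 : (xd : ℝ) * ((symmDiff H (gir χ M (fun _ => false) (fun _ => false))).card : ℝ) ≤
        xn * ((n.choose 4 : ℕ) : ℝ) := by
      have e : (xn : ℝ) / xd * ((n.choose 4 : ℕ) : ℝ) = xn * ((n.choose 4 : ℕ) : ℝ) / xd := by ring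
      rw [e, le_div_iff₀ hxd'] at hx
      linarith
    have h3 : xd * (symmDiff H (gir χ M (fun _ => false) (fun _ => false))).card ≤
        xn * n.choose 4 := by exact_mod_cast h2
    exact le_trans (Nat.mul_le_mul_left _ (ho χ M)) h3
  have h2 := hN0 n hn H χ' M' hH hK ho h1
  have h3 : 0 ≤ c * ((symmDiff H (gir χ' M' (fun _ => false) (fun _ => false))).card : ℝ) :=
    mul_nonneg hc (Nat.cast_nonneg _)
  linarith

section odd
variable {n : ℕ}

/-- The number of 5-sets with an odd number of edges. -/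
def odd5 (H : Finset (Finset (Fin n))) : ℕ :=
  ((univ.powersetCard 5).filter fun S : Finset (Fin n) =>
    Odd ((S.powersetCard 4).filter fun e => e ∈ H).card).card

theorem odd5_eq (H : Finset (Finset (Fin n))) : odd5 H = T5 H 1 + T5 H 3 + T5 H 5 := by
  have h1 := sum_c5 H fun c => if Odd c then 1 else 0
  have h2 : odd5 H = ∑ S ∈ univ.powersetCard 5, if Odd (c5 H S) then 1 else 0 := by
    unfold odd5
    rw [Finset.card_filter]
    rfl
  rw [h2, h1]
  simp only [Finset.sum_range_succ, Finset.sum_range_zero]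
  have e0 : ¬ Odd 0 := by decide
  have e1 : Odd 1 := by decide
  have e2 : ¬ Odd 2 := by decide
  have e3 : Odd 3 := by decide
  have e4 : ¬ Odd 4 := by decide
  have e5 : Odd 5 := by decide
  rw [if_neg e0, if_pos e1, if_neg e2, if_pos e3, if_neg e4, if_pos e5]
  ring

/-- The distance to the nearest even 4-graph. -/
theorem near_even_le (H E : Finset (Finset (Fin n))) (h4 : ∀ e ∈ H, e.card = 4)
    (hE : OptE (wc 1 1) H E) : n * (symmDiff H E).card ≤ 5 * odd5 H := by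
  have h1 := opt_le 1 1 H E h4 hE
  rw [odd5_eq]
  have h2 : (cN 1 1 H E : ℤ) = ((symmDiff H E).card : ℤ) := by
    rw [← cst_eq, ← cst_symm H E h4 hE.1]
    rfl
  have h3 : cN 1 1 H E = (symmDiff H E).card := by exact_mod_cast h2
  rw [h3] at h1
  linarith

end odd

/-- The theorem for 4-graphs with a small number of 5-sets with an odd number of edges. -/
theorem tgtB {x0 : ℝ} (hx0 : 0 < x0) (hA : TgtA x0) (hT : T1Soft) :
    ∃ η : ℝ, 0 < η ∧ ∀ ε : ℝ, 0 < ε → ∃ N : ℕ, ∀ n : ℕ, N ≤ n → ∀ H : Finset (Finset (Fin n)),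
      (∀ e ∈ H, e.card = 4) →
      (∀ S : Finset (Fin n), S.card = 5 → ∃ e ∈ S.powersetCard 4, e ∉ H) →
      ((((univ.powersetCard 5).filter fun S : Finset (Fin n) =>
        Odd ((S.powersetCard 4).filter fun e => e ∈ H).card).card : ℕ) : ℝ) ≤
          η * ((n.choose 5 : ℕ) : ℝ) →
      (H.card : ℝ) ≤ ((11 / 16 : ℝ) + ε) * ((n.choose 4 : ℕ) : ℝ) := by
  obtain ⟨η1, hη1, N1, hN1⟩ := hT (x0 / 2) (by positivity)
  refine ⟨min (x0 / 2) η1, lt_min (by positivity) hη1, fun ε hε => ?_⟩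
  set η : ℝ := min (x0 / 2) η1 with hη
  have hη0 : 0 < η := lt_min (by positivity) hη1
  obtain ⟨N2, hN2⟩ := hA ε hε
  refine ⟨max 5 (max N1 N2), fun n hn H hH hK ho => ?_⟩
  have hn5 : 5 ≤ n := le_trans (le_max_left _ _) hn
  have hnN1 : N1 ≤ n := le_trans (le_trans (le_max_left _ _) (le_max_right _ _)) hn
  have hnN2 : N2 ≤ n := le_trans (le_trans (le_max_right _ _) (le_max_right _ _)) hn
  set C : ℝ := ((n.choose 4 : ℕ) : ℝ) with hC
  have hC0 : 0 ≤ C := Nat.cast_nonneg _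
  have hn0 : (0 : ℝ) < n := by exact_mod_cast (by omega : 0 < n)
  by_cases hd : (H.card : ℝ) < 11 / 16 * C
  · have h1 : 0 ≤ ε * C := by positivity
    linarith
  rw [not_lt] at hd
  obtain ⟨E, hE⟩ := exists_optE (wc 1 1) H
  have h1 := near_even_le H E hH hE
  have h2 : ((symmDiff H E).card : ℝ) ≤ η * C := by
    have h3 : (n : ℝ) * ((symmDiff H E).card : ℝ) ≤ 5 * (odd5 H : ℝ) := by exact_mod_cast h1
    have h4 : (odd5 H : ℝ) ≤ η * ((n.choose 5 : ℕ) : ℝ) := ho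
    have h5 : 5 * ((n.choose 5 : ℕ) : ℝ) ≤ n * C := by
      have h6 : n.choose 5 * 5 = n.choose 4 * (n - 4) := Nat.choose_succ_right_eq n 4
      have h7 : n.choose 5 * 5 ≤ n.choose 4 * n := by
        rw [h6]
        exact Nat.mul_le_mul_left _ (Nat.sub_le _ _)
      have h8 : (n.choose 5 : ℝ) * 5 ≤ (n.choose 4 : ℝ) * n := by exact_mod_cast h7
      rw [hC]
      linarith
    have h9 : (n : ℝ) * ((symmDiff H E).card : ℝ) ≤ n * (η * C) := by
      have h10 := mul_le_mul_of_nonneg_left h5 hη0.le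
      linarith
    exact le_of_mul_le_mul_left h9 hn0
  have h3 : (H.card : ℝ) ≤ (E.card : ℝ) + ((symmDiff H E).card : ℝ) := by
    have h4 : H ⊆ E ∪ symmDiff H E := by
      intro e he
      by_cases h5 : e ∈ E
      · exact Finset.mem_union_left _ h5
      · exact Finset.mem_union_right _ (Finset.mem_symmDiff.mpr (Or.inl ⟨he, h5⟩))
    exact_mod_cast le_trans (Finset.card_le_card h4) (Finset.card_union_le _ _)
  have h4 : ((11 / 16 : ℝ) - η1) * C ≤ (E.card : ℝ) := by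
    have h5 : η * C ≤ η1 * C := mul_le_mul_of_nonneg_right (min_le_right _ _) hC0
    linarith
  obtain ⟨χ, M, hM⟩ := hN1 n hnN1 E hE.1 hE.2.1 h4
  refine hN2 n hnN2 H χ M hH hK ?_
  have h5 : ((symmDiff H (gir χ M (fun _ => false) (fun _ => false))).card : ℝ) ≤
      ((symmDiff H E).card : ℝ) +
        ((symmDiff E (gir χ M (fun _ => false) (fun _ => false))).card : ℝ) := by
    have h6 := Finset.card_le_card (symmDiff_triangle H E
      (gir χ M (fun _ => false) (fun _ => false)))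
    exact_mod_cast le_trans h6 (Finset.card_union_le _ _)
  have h6 : η * C ≤ x0 / 2 * C := mul_le_mul_of_nonneg_right (min_le_left _ _) hC0
  linarith

/-! ### Giraud's families -/

theorem t1Soft_of_Gir
    (h : ∀ ε : ℝ, 0 < ε → ∃ η : ℝ, 0 < η ∧ ∃ N0 : ℕ, ∀ n : ℕ, N0 ≤ n →
      ∀ E : Finset (Finset (Fin n)), (∀ e ∈ E, e.card = 4) →
      (∀ S : Finset (Fin n), S.card = 5 → Even ((S.powersetCard 4).filter fun e => e ∈ E).card) →
      ((11 / 16 : ℝ) - η) * ((n.choose 4 : ℕ) : ℝ) ≤ (E.card : ℝ) →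
      ∃ (χ : Fin n → Bool) (M : Fin n → Fin n → Bool),
        ((symmDiff E (MC.Gir χ M)).card : ℝ) ≤ ε * ((n.choose 4 : ℕ) : ℝ)) : T1Soft := by
  intro ε hε
  obtain ⟨η, hη, N0, hN0⟩ := h ε hε
  refine ⟨η, hη, N0, fun n hn E h4 hE hd => ?_⟩
  obtain ⟨χ, M, hM⟩ := hN0 n hn E h4 hE hd
  refine ⟨χ, fun a b => M b a, ?_⟩
  rw [gir_eq_Gir]
  exact hM

theorem TgtA.toGir {x0 : ℝ} (h : TgtA x0) :
    ∀ ε : ℝ, 0 < ε → ∃ N0 : ℕ, ∀ n : ℕ, N0 ≤ n → ∀ (H : Finset (Finset (Fin n)))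
      (χ : Fin n → Bool) (M : Fin n → Fin n → Bool),
      (∀ e ∈ H, e.card = 4) →
      (∀ S : Finset (Fin n), S.card = 5 → ∃ e ∈ S.powersetCard 4, e ∉ H) →
      ((symmDiff H (MC.Gir χ M)).card : ℝ) ≤ x0 * ((n.choose 4 : ℕ) : ℝ) →
      (H.card : ℝ) ≤ ((11 / 16 : ℝ) + ε) * ((n.choose 4 : ℕ) : ℝ) := by
  intro ε hε
  obtain ⟨N0, hN0⟩ := h ε hε
  refine ⟨N0, fun n hn H χ M hH hK hx => ?_⟩
  refine hN0 n hn H χ (fun a b => M b a) hH hK ?_
  rw [gir_eq_Gir]
  exact hx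

/-- The theorem for the structure of smallest distance in terms of Giraud's families. -/
theorem near_Gir {c : ℝ} {xn xd : ℕ}
    (h : ∀ ε : ℝ, 0 < ε → ∃ N0 : ℕ, ∀ n : ℕ, N0 ≤ n → ∀ (H : Finset (Finset (Fin n)))
      (χ : Fin n → Bool) (M : Fin n → Fin n → Bool),
      (∀ e ∈ H, e.card = 4) →
      (∀ S : Finset (Fin n), S.card = 5 → ∃ e ∈ S.powersetCard 4, e ∉ H) →
      (∀ (χ' : Fin n → Bool) (M' : Fin n → Fin n → Bool),
        (symmDiff H (gir χ M (fun _ => false) (fun _ => false))).card ≤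
          (symmDiff H (gir χ' M' (fun _ => false) (fun _ => false))).card) →
      xd * (symmDiff H (gir χ M (fun _ => false) (fun _ => false))).card ≤ xn * n.choose 4 →
      (H.card : ℝ) + c *
        ((symmDiff H (gir χ M (fun _ => false) (fun _ => false))).card : ℝ) ≤
          ((11 / 16 : ℝ) + ε) * ((n.choose 4 : ℕ) : ℝ)) :
    ∀ ε : ℝ, 0 < ε → ∃ N0 : ℕ, ∀ n : ℕ, N0 ≤ n → ∀ (H : Finset (Finset (Fin n)))
      (χ : Fin n → Bool) (M : Fin n → Fin n → Bool),
      (∀ e ∈ H, e.card = 4) →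
      (∀ S : Finset (Fin n), S.card = 5 → ∃ e ∈ S.powersetCard 4, e ∉ H) →
      (∀ (χ' : Fin n → Bool) (M' : Fin n → Fin n → Bool),
        (symmDiff H (MC.Gir χ M)).card ≤ (symmDiff H (MC.Gir χ' M')).card) →
      xd * (symmDiff H (MC.Gir χ M)).card ≤ xn * n.choose 4 →
      (H.card : ℝ) + c * ((symmDiff H (MC.Gir χ M)).card : ℝ) ≤
        ((11 / 16 : ℝ) + ε) * ((n.choose 4 : ℕ) : ℝ) := by
  intro ε hε
  obtain ⟨N0, hN0⟩ := h ε hε
  refine ⟨N0, fun n hn H χ M hH hK ho hx => ?_⟩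
  have h1 := hN0 n hn H χ (fun a b => M b a) hH hK
  rw [gir_eq_Gir] at h1
  refine h1 (fun χ' M' => ?_) hx
  have h2 := ho χ' fun a b => M' b a
  rw [← gir_eq_Gir χ' fun a b => M' b a] at h2
  exact h2

end Pool.Agent.Lib.MP_afdd4d_co.K9.Star.Tw
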