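import Pool.Agent.Lib.MP_afdd4d_co.K9.TwDef

/-!
# Marks for a 4-graph and a second 4-graph

Items whose multipliers are functions of the colours, of the two 4-graphs and of the marks of the
vertices, of the pairs and of the triples of the window.
-/

namespace Pool.Agent.Lib.MP_afdd4d_co.K9.Star.Tw

open Finset K8
open Pool.Agent.Lib.MP_afdd4d_co.K9.Marks

/-- A bounded nonnegative function of some vertices. -/
structure Ph (k : ℕ) where
  F : ∀ {n : ℕ}, Finset (Finset (Fin n)) → Finset (Finset (Fin n)) → (Fin n → Bool) →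
    (Fin k → Fin n) → ℤ
  B : ℕ
  h0 : ∀ {n : ℕ} (H E : Finset (Finset (Fin n))) (χ : Fin n → Bool) (s : Fin k → Fin n),
    0 ≤ F H E χ s
  hB : ∀ {n : ℕ} (H E : Finset (Finset (Fin n))) (χ : Fin n → Bool) (s : Fin k → Fin n),
    F H E χ s ≤ B

section genl
variable {Cx : X3}

/-- The upper bound of an average for each choice of the roots. -/
theorem good_upW {m l : ℕ} (φ : Ph m) (B : Ph (m + l)) (an ad : ℕ) (j : Fin (m + l) → Fin 6)
    (hj : Function.Injective j)
    (h : ∀ {n : ℕ} (H E : Finset (Finset (Fin n))) (χ : Fin n → Bool), Cx H E χ →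
      ∀ s : Fin m → Fin n, φ.F H E χ s ≠ 0 →
        (ad : ℤ) * ∑ u : Fin l → Fin n, B.F H E χ (Fin.append s u) ≤ an * (n : ℤ) ^ l) :
    GoodP Cx (fun H E χ t => φ.F H E χ (t ∘ j ∘ Fin.castAdd l) *
      ((an : ℤ) - ad * B.F H E χ (t ∘ j))) := by
  refine GoodP.of_bound (Z := fun H E χ t => φ.F H E χ (t ∘ j ∘ Fin.castAdd l) *
      ((an : ℤ) - ad * B.F H E χ (t ∘ j))) ((φ.B * an : ℕ) : ℝ)
    fun {n} H E χ hc => ?_
  have h1 := inj_ge_of_tot (fun p : Fin (m + l) → Fin n => φ.F H E χ (p ∘ Fin.castAdd l) *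
      ((an : ℤ) - ad * B.F H E χ p)) ((φ.B * an : ℕ) : ℝ) ?_ ?_ j hj
  · exact h1
  · rw [sum_app (k := m) (l := l)]
    refine Finset.sum_nonneg fun s _ => ?_
    have e : ∀ u : Fin l → Fin n, φ.F H E χ ((Fin.append s u) ∘ Fin.castAdd l) *
        ((an : ℤ) - ad * B.F H E χ (Fin.append s u)) = φ.F H E χ s *
        ((an : ℤ) - ad * B.F H E χ (Fin.append s u)) := by
      intro u
      rw [append_castAdd]
    rw [Finset.sum_congr rfl fun u _ => e u, ← Finset.mul_sum]
    by_cases h0 : φ.F H E χ s = 0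
    · rw [h0, zero_mul]
    · refine mul_nonneg (φ.h0 H E χ s) ?_
      rw [Finset.sum_sub_distrib, Finset.sum_const, nsmul_eq_mul, card_funs, ← Finset.mul_sum]
      have := h H E χ hc s h0
      linarith [mul_comm (an : ℤ) ((n : ℤ) ^ l)]
  · intro p
    have h2 : φ.F H E χ (p ∘ Fin.castAdd l) * ((an : ℤ) - ad * B.F H E χ p) ≤
        ((φ.B * an : ℕ) : ℤ) := by
      have h3 : (an : ℤ) - ad * B.F H E χ p ≤ an := by
        have : (0 : ℤ) ≤ ad * B.F H E χ p :=
          mul_nonneg (Int.natCast_nonneg _) (B.h0 _ _ _ _)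
        linarith
      push_cast
      calc _ ≤ φ.F H E χ (p ∘ Fin.castAdd l) * an :=
            mul_le_mul_of_nonneg_left h3 (φ.h0 _ _ _ _)
        _ ≤ φ.B * an := mul_le_mul_of_nonneg_right (φ.hB _ _ _ _) (Int.natCast_nonneg _)
    exact_mod_cast h2

/-- The lower bound of an average for each choice of the roots. -/
theorem good_loW {m l : ℕ} (φ : Ph m) (B : Ph (m + l)) (an ad : ℕ) (j : Fin (m + l) → Fin 6)
    (hj : Function.Injective j)
    (h : ∀ {n : ℕ} (H E : Finset (Finset (Fin n))) (χ : Fin n → Bool), Cx H E χ →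
      ∀ s : Fin m → Fin n, φ.F H E χ s ≠ 0 →
        an * (n : ℤ) ^ l ≤ (ad : ℤ) * ∑ u : Fin l → Fin n, B.F H E χ (Fin.append s u)) :
    GoodP Cx (fun H E χ t => φ.F H E χ (t ∘ j ∘ Fin.castAdd l) *
      (ad * B.F H E χ (t ∘ j) - (an : ℤ))) := by
  refine GoodP.of_bound (Z := fun H E χ t => φ.F H E χ (t ∘ j ∘ Fin.castAdd l) *
      (ad * B.F H E χ (t ∘ j) - (an : ℤ))) ((φ.B * (ad * B.B) : ℕ) : ℝ)
    fun {n} H E χ hc => ?_
  have h1 := inj_ge_of_tot (fun p : Fin (m + l) → Fin n => φ.F H E χ (p ∘ Fin.castAdd l) *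
      (ad * B.F H E χ p - (an : ℤ))) ((φ.B * (ad * B.B) : ℕ) : ℝ) ?_ ?_ j hj
  · exact h1
  · rw [sum_app (k := m) (l := l)]
    refine Finset.sum_nonneg fun s _ => ?_
    have e : ∀ u : Fin l → Fin n, φ.F H E χ ((Fin.append s u) ∘ Fin.castAdd l) *
        (ad * B.F H E χ (Fin.append s u) - (an : ℤ)) = φ.F H E χ s *
        (ad * B.F H E χ (Fin.append s u) - (an : ℤ)) := by
      intro u
      rw [append_castAdd]
    rw [Finset.sum_congr rfl fun u _ => e u, ← Finset.mul_sum]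
    by_cases h0 : φ.F H E χ s = 0
    · rw [h0, zero_mul]
    · refine mul_nonneg (φ.h0 H E χ s) ?_
      rw [Finset.sum_sub_distrib, Finset.sum_const, nsmul_eq_mul, card_funs, ← Finset.mul_sum]
      have := h H E χ hc s h0
      linarith [mul_comm (an : ℤ) ((n : ℤ) ^ l)]
  · intro p
    have h2 : φ.F H E χ (p ∘ Fin.castAdd l) * (ad * B.F H E χ p - (an : ℤ)) ≤
        ((φ.B * (ad * B.B) : ℕ) : ℤ) := by
      have h3 : ad * B.F H E χ p - (an : ℤ) ≤ ad * B.B := by
        have h4 : (ad : ℤ) * B.F H E χ p ≤ ad * B.B :=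
          mul_le_mul_of_nonneg_left (B.hB _ _ _ _) (Int.natCast_nonneg _)
        have h5 : (0 : ℤ) ≤ an := Int.natCast_nonneg _
        linarith
      push_cast
      have h6 : (0 : ℤ) ≤ ad * B.B := by positivity
      calc _ ≤ φ.F H E χ (p ∘ Fin.castAdd l) * (ad * B.B) :=
            mul_le_mul_of_nonneg_left h3 (φ.h0 _ _ _ _)
        _ ≤ φ.B * (ad * B.B) := mul_le_mul_of_nonneg_right (φ.hB _ _ _ _) h6
    exact_mod_cast h2

end genl

/-! ### The visible data -/

/-- The data of a tuple of vertices. -/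
def wt (P : ParX) {n k : ℕ} (H E : Finset (Finset (Fin n))) (χ : Fin n → Bool)
    (t : Fin k → Fin n) : WD k where
  c := fun i => χ (t i)
  e := zb H t
  r := zb E t
  m := fun i => mkV P (symmDiff H E) (t i)
  v := fun i => mkB P (symmDiff H E) (t i)
  b := fun i j => mkP P (symmDiff H E) (t i) (t j)
  τ := fun i j l => mkT P (symmDiff H E) (t i) (t j) (t l)

theorem wt_comp (P : ParX) {n k m : ℕ} (H E : Finset (Finset (Fin n))) (χ : Fin n → Bool)
    (t : Fin m → Fin n) (s : Fin k → Fin m) : wt P H E χ (t ∘ s) = (wt P H E χ t).sub s := by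
  unfold wt WD.sub
  rw [zb_comp, zb_comp]
  rfl

theorem sub_sub {k l m : ℕ} (D : WD m) (s : Fin l → Fin m) (u : Fin k → Fin l) :
    (D.sub s).sub u = D.sub (s ∘ u) := by
  unfold WD.sub
  simp only [Finset.image_image, Function.comp_apply]

theorem sub_id {m : ℕ} (D : WD m) : D.sub id = D := by
  unfold WD.sub
  simp only [Finset.image_id, id]

/-- A multiplier as a function of vertices. -/
def muPh {k : ℕ} (μ : MuX k) (P : ParX) : Ph k where
  F := fun H E χ s => (μ.F (wt P H E χ s) : ℕ)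
  B := μ.B
  h0 := fun _ _ _ _ => Int.natCast_nonneg _
  hB := fun _ _ _ _ => by exact_mod_cast μ.hB _

theorem muPh_comp {k m n : ℕ} (μ : MuX k) (P : ParX) (H E : Finset (Finset (Fin n)))
    (χ : Fin n → Bool) (t : Fin m → Fin n) (s : Fin k → Fin m) :
    (muPh μ P).F H E χ (t ∘ s) = (μ.F ((wt P H E χ t).sub s) : ℕ) := by
  show ((μ.F (wt P H E χ (t ∘ s)) : ℕ) : ℤ) = _
  rw [wt_comp]

theorem off_ne {k n : ℕ} (μ : MuX k) (P : ParX) (p : WD k → Bool)
    {H E : Finset (Finset (Fin n))} {χ : Fin n → Bool} {s : Fin k → Fin n}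
    (h : (muPh (μ.off p) P).F H E χ s ≠ 0) : p (wt P H E χ s) = false := by
  by_contra hp
  rw [Bool.not_eq_false] at hp
  apply h
  show (((if p (wt P H E χ s) = true then 0 else μ.F (wt P H E χ s)) : ℕ) : ℤ) = 0
  rw [if_pos hp]
  rfl

theorem on_ne {k n : ℕ} (μ : MuX k) (P : ParX) (p : WD k → Bool)
    {H E : Finset (Finset (Fin n))} {χ : Fin n → Bool} {s : Fin k → Fin n}
    (h : (muPh (μ.on p) P).F H E χ s ≠ 0) : p (wt P H E χ s) = true := by
  by_contra hp
  apply h
  show (((if p (wt P H E χ s) = true then μ.F (wt P H E χ s) else 0) : ℕ) : ℤ) = 0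
  rw [if_neg hp]
  rfl

/-! ### Functions of the free vertices -/

/-- The membership of four of the vertices in the difference. -/
def BJ {N : ℕ} (i : Fin 4 → Fin N) : Ph N where
  F := fun H E _ p => jv (symmDiff H E) (p ∘ i)
  B := 1
  h0 := fun _ _ _ _ => jv_nonneg _ _
  hB := fun _ _ _ _ => by exact_mod_cast jv_le_one _ _

/-- A function of the visible data with values `0` and `1`. -/
def BD (P : ParX) {N : ℕ} (b : WD N → Bool) : Ph N where
  F := fun H E χ p => ((b (wt P H E χ p)).toNat : ℕ)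
  B := 1
  h0 := fun _ _ _ _ => Int.natCast_nonneg _
  hB := fun _ _ _ _ => by exact_mod_cast Bool.toNat_le _

end Pool.Agent.Lib.MP_afdd4d_co.K9.Star.Tw
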