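import Pool.Agent.Lib.MP_afdd4d_co.K9.TwMain
import Pool.Agent.Lib.MP_afdd4d_co.K9.TwReg

/-!
# The rows for a 4-graph and an even 4-graph
-/

namespace Pool.Agent.Lib.MP_afdd4d_co.K9.Star.Tw

open Finset K8
open Pool.Agent.Lib.MP_afdd4d_co.K9.Marks

/-- The sum of the columns of a list of weighted functions of the window. -/
def psiS (LX : List (ℕ × Psi3)) (e r : Finset (Fin 6) → Bool) (c : Fin 6 → Bool) : ℤ :=
  (LX.map fun x => (x.1 : ℤ) * x.2 e r c).sum

/-- The rows: the terms, the columns of the colouring, the density of the even 4-graph and the cost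
are at most the density defect of the 4-graph. -/
def TwRow (P : ∀ n : ℕ, Finset (Finset (Fin n)) → Prop) (wp wm : ℕ) (N y u : ℕ)
    (LX : List (ℕ × Psi3)) (Z : Fn3) : Prop :=
  ∀ (n : ℕ) (H E : Finset (Finset (Fin n))) (χ : Fin n → Bool), (∀ e ∈ H, e.card = 4) → K5F H →
    P n H → (∀ e ∈ E, e.card = 4) → EvenH n E →
    ∀ t : Fin 6 → Fin n, Function.Injective t →
      Z H E χ t + psiS LX (zb H t) (zb E t) (fun i => χ (t i)) + y * colR (zb E t) +
        u * colC wp wm (zb H t) (zb E t) ≤ N * (165 - 16 * S4 (zb H t))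

section row
variable {P : ∀ n : ℕ, Finset (Finset (Fin n)) → Prop} {wp wm : ℕ} {L : List Psi3} {Q : C3}

theorem goodW_psiS (hQ : MonoW Q) (LX : List (ℕ × Psi3)) (hL : ∀ x ∈ LX, x.2 ∈ L) :
    GoodW (CtW P wp wm L Q) (fun H E χ t => psiS LX (zb H t) (zb E t) (fun i => χ (t i))) := by
  induction LX with
  | nil =>
    show GoodW (CtW P wp wm L Q) (fun _ _ _ _ => 0)
    exact GoodW.zero
  | cons x LX ih =>
    have h1 := (goodW_psi (P := P) (wp := wp) (wm := wm) (Q := Q) (hL x (by simp))).smul x.1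
    have h2 := ih fun y hy => hL y (by simp [hy])
    refine (GoodW.add (monoW_CtW hQ) h1 h2).mono fun _ _ H E χ _ t _ => le_of_eq ?_
    simp only [psiS, List.map_cons, List.sum_cons]

/-- The theorem for a condition from the rows. -/
theorem tw_of_rows (hO : SumO5) (hE : EvUp) (hQ : MonoW Q) (N y u : ℕ) (hN : 0 < N)
    (LX : List (ℕ × Psi3)) (hL : ∀ x ∈ LX, x.2 ∈ L) (Z : Fn3)
    (hZ : GoodW (CtW P wp wm L Q) (fun H E χ t => Z H E χ t))
    (hrow : TwRow P wp wm N y u LX Z) : TW P wp wm L Q := by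
  have hm := monoW_CtW (P := P) (wp := wp) (wm := wm) (L := L) hQ
  refine tw_of_goodW N hN ?_
  have h1 := GoodW.add hm (GoodW.add hm (GoodW.add hm hZ (goodW_psiS hQ LX hL))
    ((goodW_colR (P := P) (wp := wp) (wm := wm) (L := L) (Q := Q) hE).smul y))
    ((goodW_cost (P := P) (wp := wp) (wm := wm) (L := L) (Q := Q) hO).smul u)
  exact h1.mono fun η _ H E χ hc t ht =>
    hrow _ H E χ hc.h4 hc.k5 hc.p hc.o.1 hc.o.2.1 t ht

/-- The plain conditions contained in the conditions with a tolerance. -/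
structure CtX (P : ∀ n : ℕ, Finset (Finset (Fin n)) → Prop) (wp wm : ℕ) (R : X3) {n : ℕ}
    (H E : Finset (Finset (Fin n))) (χ : Fin n → Bool) : Prop where
  h4 : ∀ e ∈ H, e.card = 4
  k5 : K5F H
  p : P n H
  d : 11 / 16 ≤ e4 H
  o : OptE (wc wp wm) H E
  r : R H E χ

/-- The plain conditions as a family. -/
abbrev CtXX (P : ∀ n : ℕ, Finset (Finset (Fin n)) → Prop) (wp wm : ℕ) (R : X3) : X3 :=
  fun {_} H E χ => CtX P wp wm R H E χ

/-- No further plain condition. -/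
def TrueX : X3 := fun {_} _ _ _ => True

/-- Terms under the plain conditions are terms under the conditions with a tolerance. -/
theorem goodW_of_X {R : X3} {Z : Fn3} (η0 : ℝ) (h0 : 0 < η0)
    (hR : ∀ {n : ℕ} (H E : Finset (Finset (Fin n))) (χ : Fin n → Bool), Q η0 H E χ → R H E χ)
    (h : GoodP (CtXX P wp wm R) (fun H E χ t => Z H E χ t)) :
    GoodW (CtW P wp wm L Q) (fun H E χ t => Z H E χ t) :=
  GoodW.of_goodP (Cx' := CtXX P wp wm R) η0 h0
    (fun H E χ hc => ⟨hc.h4, hc.k5, hc.p, hc.d, hc.o, hR H E χ hc.q⟩) h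

theorem hasP_CtX (R : X3) : HasP P (CtXX P wp wm R) :=
  fun _ _ _ hc => ⟨hc.h4, hc.k5, hc.p, hc.d⟩

theorem optC3_CtX (R : X3) : OptC3 (CtXX P wp wm R) wp wm :=
  fun _ _ _ hc => hc.o

/-- The bound of the distance as a plain condition. -/
theorem hxx_CtX (P' : ParX) (R : X3) (X1 : ℝ) (w : ℕ) (hw : 0 < w) (hwp : w ≤ wp)
    (hwm : w ≤ wm) (hx : (P'.xd : ℝ) * X1 ≤ w * P'.xn)
    (hR : ∀ {n : ℕ} (H E : Finset (Finset (Fin n))) (χ : Fin n → Bool), R H E χ →
      24 * ((K8.cst (wc wp wm) H E : ℤ) : ℝ) ≤ X1 * (n : ℝ) ^ 4) :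
    HXX (CtXX P wp wm R) P' :=
  hxx_of_cost P' wp wm X1 w hw hwp hwm hx fun H E χ hc => ⟨hc.h4, hc.o.1, hR H E χ hc.r⟩

end row

end Pool.Agent.Lib.MP_afdd4d_co.K9.Star.Tw
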