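import Pool.Agent.Lib.MP_afdd4d_co.K9.TwNear
import Pool.Agent.Lib.MP_afdd4d_co.K9.TwReg
import Pool.Agent.Lib.MP_afdd4d_co.K9.TwRow

/-!
# The local theorem with an even 4-graph and a reference structure

A 4-graph without `K_5` of density at least `11 / 16`, an even 4-graph of smallest cost and a
reference structure of smallest cost. The functions with almost nonnegative average, conclusions with
a tolerance, and the theorem for 4-graphs that are close to the reference structures.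
-/

namespace Pool.Agent.Lib.MP_afdd4d_co.K9.Star.Tw

open Finset K8
open Pool.Agent.Lib.MP_afdd4d_co.K9.Marks

/-- Functions of a 4-graph, an even 4-graph, a reference structure and six vertices. -/
abbrev Fn6 : Type := ∀ {n : ℕ}, Finset (Finset (Fin n)) → Finset (Finset (Fin n)) →
  (Fin n → Bool) → (Fin n → Fin n → Bool) → (Finset (Fin n) → Bool) → (Finset (Fin n) → Bool) →
  (Fin 6 → Fin n) → ℤ

/-- Conditions. -/
abbrev X6 : Type := ∀ {n : ℕ}, Finset (Finset (Fin n)) → Finset (Finset (Fin n)) →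
  (Fin n → Bool) → (Fin n → Fin n → Bool) → (Finset (Fin n) → Bool) → (Finset (Fin n) → Bool) →
  Prop

/-- Conditions with a tolerance. -/
abbrev C6 : Type := ℝ → X6

/-- Functions of the 4-graph, the even 4-graph, the reference structure and the colours on a
window. -/
abbrev Psi4 : Type := (Finset (Fin 6) → Bool) → (Finset (Fin 6) → Bool) →
  (Finset (Fin 6) → Bool) → (Fin 6 → Bool) → ℤ

/-- The function of the window. -/
def fnB (Ψ : Psi4) : Fn6 := fun H E χ M f g t =>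
  Ψ (zb H t) (zb E t) (zb (gir χ M f g) t) (fun i => χ (t i))

/-- The average of the function is almost nonnegative for large `n` and small tolerances. -/
def GoodB (Cx : C6) (Z : Fn6) : Prop :=
  ∀ δ : ℝ, 0 < δ → ∃ η : ℝ, 0 < η ∧ ∃ N : ℕ, ∀ n : ℕ, N ≤ n → ∀ (H E : Finset (Finset (Fin n)))
    (χ : Fin n → Bool) (M : Fin n → Fin n → Bool) (f g : Finset (Fin n) → Bool),
    Cx η H E χ M f g →
    -(δ * (n : ℝ) ^ 6) ≤ ∑ t ∈ inj (Fin n) 6, ((Z H E χ M f g t : ℤ) : ℝ)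

/-- The conditions are weaker for larger tolerances. -/
def MonoB (Cx : C6) : Prop :=
  ∀ η η' : ℝ, η ≤ η' → ∀ {n : ℕ} (H E : Finset (Finset (Fin n))) (χ : Fin n → Bool)
    (M : Fin n → Fin n → Bool) (f g : Finset (Fin n) → Bool), Cx η H E χ M f g →
    Cx η' H E χ M f g

section goodB
variable {Cx : C6}

theorem GoodB.weaken {Cx' : C6} {Z : Fn6} (h : GoodB Cx Z)
    (hc : ∀ (η : ℝ) {n : ℕ} (H E : Finset (Finset (Fin n))) (χ : Fin n → Bool)
      (M : Fin n → Fin n → Bool) (f g : Finset (Fin n) → Bool),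
      Cx' η H E χ M f g → Cx η H E χ M f g) : GoodB Cx' Z := by
  intro δ hδ
  obtain ⟨η, hη, N, hN⟩ := h δ hδ
  exact ⟨η, hη, N, fun n hn H E χ M f g hx => hN n hn H E χ M f g (hc η H E χ M f g hx)⟩

theorem GoodB.zero : GoodB Cx (fun _ _ _ _ _ _ _ => 0) := by
  intro δ hδ
  refine ⟨1, one_pos, 0, fun n _ H E χ M f g _ => ?_⟩
  simp only [Int.cast_zero, Finset.sum_const_zero]
  have : 0 ≤ δ * (n : ℝ) ^ 6 := by positivity
  linarith

theorem GoodB.add (hm : MonoB Cx) {Z Z' : Fn6} (h : GoodB Cx Z) (h' : GoodB Cx Z') :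
    GoodB Cx (fun H E χ M f g t => Z H E χ M f g t + Z' H E χ M f g t) := by
  intro δ hδ
  obtain ⟨η, hη, N, hN⟩ := h (δ / 2) (by positivity)
  obtain ⟨η', hη', N', hN'⟩ := h' (δ / 2) (by positivity)
  refine ⟨min η η', lt_min hη hη', max N N', fun n hn H E χ M f g hc => ?_⟩
  have h1 := hN n (le_trans (le_max_left _ _) hn) H E χ M f g
    (hm _ _ (min_le_left _ _) H E χ M f g hc)
  have h2 := hN' n (le_trans (le_max_right _ _) hn) H E χ M f g
    (hm _ _ (min_le_right _ _) H E χ M f g hc)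
  rw [sum_int_add]
  linarith

theorem GoodB.smul {Z : Fn6} (w : ℕ) (h : GoodB Cx Z) :
    GoodB Cx (fun H E χ M f g t => (w : ℤ) * Z H E χ M f g t) := by
  intro δ hδ
  obtain ⟨η, hη, N, hN⟩ := h (δ / (w + 1)) (by positivity)
  refine ⟨η, hη, N, fun n hn H E χ M f g hc => ?_⟩
  rw [sum_int_mul]
  exact smul_aux w hδ (hN n hn H E χ M f g hc)

theorem GoodB.mono {Z Z' : Fn6} (h : GoodB Cx Z)
    (hle : ∀ (η : ℝ) {n : ℕ} (H E : Finset (Finset (Fin n))) (χ : Fin n → Bool)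
      (M : Fin n → Fin n → Bool) (f g : Finset (Fin n) → Bool), Cx η H E χ M f g →
      ∀ t : Fin 6 → Fin n, Function.Injective t →
      Z H E χ M f g t ≤ Z' H E χ M f g t) :
    GoodB Cx (fun H E χ M f g t => Z' H E χ M f g t) := by
  intro δ hδ
  obtain ⟨η, hη, N, hN⟩ := h δ hδ
  refine ⟨η, hη, N, fun n hn H E χ M f g hc => ?_⟩
  refine le_trans (hN n hn H E χ M f g hc) (Finset.sum_le_sum fun t ht => ?_)
  exact_mod_cast hle η H E χ M f g hc t (mem_inj.mp ht)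

theorem GoodB.perm {Z : Fn6} (h : GoodB Cx Z) (π : Equiv.Perm (Fin 6)) :
    GoodB Cx (fun H E χ M f g t => Z H E χ M f g (t ∘ π)) := by
  intro δ hδ
  obtain ⟨η, hη, N, hN⟩ := h δ hδ
  refine ⟨η, hη, N, fun n hn H E χ M f g hc =>
    le_trans (hN n hn H E χ M f g hc) (le_of_eq ?_)⟩
  exact (sum_perm6 (fun t => ((Z H E χ M f g t : ℤ) : ℝ)) π).symm

theorem GoodB.sum (hm : MonoB Cx) {ι : Type*} (s : Finset ι) (Z : ι → Fn6)
    (h : ∀ i ∈ s, GoodB Cx (fun H E χ M f g t => Z i H E χ M f g t)) :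
    GoodB Cx (fun H E χ M f g t => ∑ i ∈ s, Z i H E χ M f g t) := by
  classical
  induction s using Finset.induction_on with
  | empty =>
    refine GoodB.mono (Z := fun _ _ _ _ _ _ _ => 0) GoodB.zero
      fun _ _ H E χ M f g _ t _ => ?_
    rw [Finset.sum_empty]
  | insert a s ha ih =>
    have h1 := h a (Finset.mem_insert_self a s)
    have h2 := ih fun i hi => h i (Finset.mem_insert_of_mem hi)
    refine GoodB.mono (GoodB.add hm h1 h2) fun _ _ H E χ M f g _ t _ => le_of_eq ?_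
    rw [Finset.sum_insert ha]

/-- An error of order `n ^ 5`. -/
theorem GoodB.of_n5 {Z : Fn6} (C : ℝ)
    (h : ∀ (η : ℝ) {n : ℕ} (H E : Finset (Finset (Fin n))) (χ : Fin n → Bool)
      (M : Fin n → Fin n → Bool) (f g : Finset (Fin n) → Bool), Cx η H E χ M f g →
      -(C * (n : ℝ) ^ 5) ≤ ∑ t ∈ inj (Fin n) 6, ((Z H E χ M f g t : ℤ) : ℝ)) :
    GoodB Cx (fun H E χ M f g t => Z H E χ M f g t) := by
  intro δ hδ
  obtain ⟨N, hN⟩ := n5_aux (C := C) hδ
  refine ⟨1, one_pos, N, fun n hn H E χ M f g hc => le_trans ?_ (h 1 H E χ M f g hc)⟩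
  have := hN n hn
  linarith

end goodB

/-! ### The conditions -/

/-- The conditions, with a tolerance. -/
structure CtxB (P : ∀ n : ℕ, Finset (Finset (Fin n)) → Prop) (wp wm : ℕ) (w : ℝ) (Q : C6)
    (η : ℝ) {n : ℕ} (H E : Finset (Finset (Fin n))) (χ : Fin n → Bool)
    (M : Fin n → Fin n → Bool) (f g : Finset (Fin n) → Bool) : Prop where
  h4 : ∀ e ∈ H, e.card = 4
  k5 : K5F H
  p : P n H
  d : 11 / 16 ≤ e4 H
  o : OptE (wc wp wm) H E
  b : Best w H χ M f g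
  q : Q η H E χ M f g

/-- The conditions as a family. -/
abbrev CtB (P : ∀ n : ℕ, Finset (Finset (Fin n)) → Prop) (wp wm : ℕ) (w : ℝ) (Q : C6) : C6 :=
  fun η {_} H E χ M f g => CtxB P wp wm w Q η H E χ M f g

/-- Both conditions. -/
def AndB (Q Q' : C6) : C6 := fun η {_} H E χ M f g => Q η H E χ M f g ∧ Q' η H E χ M f g

theorem monoB_and {Q Q' : C6} (h : MonoB Q) (h' : MonoB Q') : MonoB (AndB Q Q') :=
  fun η η' hη _ H E χ M f g hc =>
    ⟨h η η' hη H E χ M f g hc.1, h' η η' hη H E χ M f g hc.2⟩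

/-- The cost of the reference structure is bounded. -/
def CostN (w x : ℝ) : C6 := fun η {_} H _ χ M f g => cost w H χ M f g ≤ x + η

theorem monoB_costN (w x : ℝ) : MonoB (CostN w x) := by
  intro η η' h n H E χ M f g hc
  exact le_trans hc (by linarith)

/-- The cost of the even 4-graph is bounded. -/
def CostE (wp wm : ℕ) (x : ℝ) : C6 := fun η {_} H E χ _ _ _ => CostW wp wm x η H E χ

theorem monoB_costE (wp wm : ℕ) (x : ℝ) : MonoB (CostE wp wm x) :=
  fun η η' h _ H E χ _ _ _ hc => monoW_cost x η η' h H E χ hc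

/-- The average of a function of the window is bounded from above. -/
def AvgB (Ψ : Psi4) (x : ℝ) : C6 := fun η {n} H E χ M f g =>
  ∑ t ∈ inj (Fin n) 6, ((fnB Ψ H E χ M f g t : ℤ) : ℝ) ≤ (x + η) * (n : ℝ) ^ 6

theorem monoB_avg (Ψ : Psi4) (x : ℝ) : MonoB (AvgB Ψ x) := by
  intro η η' h n H E χ M f g hc
  exact le_trans hc (mul_le_mul_of_nonneg_right (by linarith) (by positivity))

/-- The average of a function of the window is bounded from below. -/
def AvgL (Ψ : Psi4) (x : ℝ) : C6 := fun η {n} H E χ M f g =>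
  (x - η) * (n : ℝ) ^ 6 ≤ ∑ t ∈ inj (Fin n) 6, ((fnB Ψ H E χ M f g t : ℤ) : ℝ)

theorem monoB_avgL (Ψ : Psi4) (x : ℝ) : MonoB (AvgL Ψ x) := by
  intro η η' h n H E χ M f g hc
  exact le_trans (mul_le_mul_of_nonneg_right (by linarith) (by positivity)) hc

section ctx
variable {P : ∀ n : ℕ, Finset (Finset (Fin n)) → Prop} {wp wm : ℕ} {w : ℝ} {Q : C6}

theorem monoB_CtB (hQ : MonoB Q) : MonoB (CtB P wp wm w Q) := by
  intro η η' h n H E χ M f g hc
  exact ⟨hc.h4, hc.k5, hc.p, hc.d, hc.o, hc.b, hQ η η' h H E χ M f g hc.q⟩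

/-! ### Terms from the other frames -/

/-- Terms for the 4-graph, the even 4-graph and the colours. -/
theorem goodB_of_W {Q' : C3} {Z : Fn3} (h : GoodW (CtW P wp wm [] Q') Z)
    (hq : ∀ (η : ℝ) {n : ℕ} (H E : Finset (Finset (Fin n))) (χ : Fin n → Bool)
      (M : Fin n → Fin n → Bool) (f g : Finset (Fin n) → Bool), Q η H E χ M f g →
      Q' η H E χ) : GoodB (CtB P wp wm w Q) (fun H E χ _ _ _ t => Z H E χ t) := by
  intro δ hδ
  obtain ⟨η, hη, N, hN⟩ := h δ hδ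
  exact ⟨η, hη, N, fun n hn H E χ M f g hc => hN n hn H E χ
    ⟨hc.h4, hc.k5, hc.p, hc.d, hc.o, fun ψ hψ => absurd hψ (List.not_mem_nil),
      hq η H E χ M f g hc.q⟩⟩

/-- Terms for the 4-graph, the even 4-graph and the colours, without a tolerance. -/
theorem goodB_of_P {R : X3} {Z : Fn3} (η0 : ℝ) (h0 : 0 < η0)
    (h : GoodP (CtXX P wp wm R) Z)
    (hq : ∀ {n : ℕ} (H E : Finset (Finset (Fin n))) (χ : Fin n → Bool)
      (M : Fin n → Fin n → Bool) (f g : Finset (Fin n) → Bool), Q η0 H E χ M f g →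
      R H E χ) : GoodB (CtB P wp wm w Q) (fun H E χ _ _ _ t => Z H E χ t) := by
  intro δ hδ
  obtain ⟨N, hN⟩ := h δ hδ
  exact ⟨η0, h0, N, fun n hn H E χ M f g hc => hN n hn H E χ
    ⟨hc.h4, hc.k5, hc.p, hc.d, hc.o, hq H E χ M f g hc.q⟩⟩

/-- Terms for the 4-graph and the reference structure. -/
theorem goodB_of_C {Cx : CX} {Z : Fun6} (η0 : ℝ) (h0 : 0 < η0) (h : GoodC Cx Z)
    (hc : ∀ {n : ℕ} (H E : Finset (Finset (Fin n))) (χ : Fin n → Bool)
      (M : Fin n → Fin n → Bool) (f g : Finset (Fin n) → Bool),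
      CtxB P wp wm w Q η0 H E χ M f g → Cx H χ M f g) :
    GoodB (CtB P wp wm w Q) (fun H _ χ M f g t => Z H χ M f g t) := by
  intro δ hδ
  obtain ⟨N, hN⟩ := h δ hδ
  exact ⟨η0, h0, N, fun n hn H E χ M f g hx => hN n hn H χ M f g (hc H E χ M f g hx)⟩

/-- The plain conditions on the 4-graph and the reference structure. -/
structure CtV (P : ∀ n : ℕ, Finset (Finset (Fin n)) → Prop) (w X1 : ℝ) (R : CX) {n : ℕ}
    (H : Finset (Finset (Fin n))) (χ : Fin n → Bool) (M : Fin n → Fin n → Bool)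
    (f g : Finset (Fin n) → Bool) : Prop extends Ctx P X1 H χ M f g where
  b : Best w H χ M f g
  r : R H χ M f g

/-- The plain conditions as a family. -/
abbrev CtVX (P : ∀ n : ℕ, Finset (Finset (Fin n)) → Prop) (w X1 : ℝ) (R : CX) : CX :=
  fun {_} H χ M f g => CtV P w X1 R H χ M f g

/-- Terms for the 4-graph and the reference structure, for a bound of the cost. -/
theorem goodB_of_V {X0 X1 : ℝ} {R : CX} {Z : Fun6} (hw : 0 ≤ w) (h01 : X0 < X1) (η0 : ℝ)
    (h0 : 0 < η0) (h : GoodC (CtVX P w X1 R) Z)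
    (hq : ∀ (η : ℝ) {n : ℕ} (H E : Finset (Finset (Fin n))) (χ : Fin n → Bool)
      (M : Fin n → Fin n → Bool) (f g : Finset (Fin n) → Bool), Q η H E χ M f g →
      CostN w X0 η H E χ M f g)
    (hr : ∀ (η : ℝ), η ≤ η0 → ∀ {n : ℕ} (H E : Finset (Finset (Fin n))) (χ : Fin n → Bool)
      (M : Fin n → Fin n → Bool) (f g : Finset (Fin n) → Bool), Q η H E χ M f g →
      R H χ M f g) :
    GoodB (CtB P wp wm w Q) (fun H _ χ M f g t => Z H χ M f g t) := by
  refine goodB_of_C (min η0 (X1 - X0)) (lt_min h0 (by linarith)) h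
    fun H E χ M f g hc => ⟨⟨hc.h4, hc.k5, hc.p, hc.d, ?_⟩, hc.b,
      hr _ (min_le_left _ _) H E χ M f g hc.q⟩
  have h1 : cost w H χ M f g ≤ X0 + min η0 (X1 - X0) := hq _ H E χ M f g hc.q
  have h2 : min η0 (X1 - X0) ≤ X1 - X0 := min_le_right _ _
  have h3 := mul_nonneg hw (sg2_nonneg χ)
  unfold cost at h1
  linarith

/-! ### Conclusions -/

/-- A conclusion with a tolerance from the conditions. -/
def TBc (P : ∀ n : ℕ, Finset (Finset (Fin n)) → Prop) (wp wm : ℕ) (w : ℝ) (Q R : C6) : Prop :=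
  ∀ ε : ℝ, 0 < ε → ∃ η : ℝ, 0 < η ∧ ∃ N : ℕ, ∀ n : ℕ, N ≤ n → ∀ (H E : Finset (Finset (Fin n)))
    (χ : Fin n → Bool) (M : Fin n → Fin n → Bool) (f g : Finset (Fin n) → Bool),
    CtxB P wp wm w Q η H E χ M f g → R ε H E χ M f g

/-- The density is at most `11 / 16`. -/
def DensB : C6 := fun ε {_} H _ _ _ _ _ => e4 H ≤ 11 / 16 + ε

/-- Weaker conclusions and stronger conditions. -/
theorem TBc.mono {Q' R R' : C6} (h : TBc P wp wm w Q R)
    (hq : ∀ (η : ℝ) {n : ℕ} (H E : Finset (Finset (Fin n))) (χ : Fin n → Bool)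
      (M : Fin n → Fin n → Bool) (f g : Finset (Fin n) → Bool), Q' η H E χ M f g →
      Q η H E χ M f g)
    (hr : ∀ (η : ℝ) {n : ℕ} (H E : Finset (Finset (Fin n))) (χ : Fin n → Bool)
      (M : Fin n → Fin n → Bool) (f g : Finset (Fin n) → Bool), R η H E χ M f g →
      R' η H E χ M f g) : TBc P wp wm w Q' R' := by
  intro ε hε
  obtain ⟨η, hη, N, hN⟩ := h ε hε
  exact ⟨η, hη, N, fun n hn H E χ M f g hc => hr ε H E χ M f g (hN n hn H E χ M f g
    ⟨hc.h4, hc.k5, hc.p, hc.d, hc.o, hc.b, hq η H E χ M f g hc.q⟩)⟩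

/-- Two cases. -/
theorem tbc_or {Q' Q'' R : C6} (h : TBc P wp wm w Q R) (h' : TBc P wp wm w Q' R)
    (hm : MonoB Q'') (hq : ∀ (η : ℝ) {n : ℕ} (H E : Finset (Finset (Fin n)))
      (χ : Fin n → Bool) (M : Fin n → Fin n → Bool) (f g : Finset (Fin n) → Bool),
      Q'' η H E χ M f g → Q η H E χ M f g ∨ Q' η H E χ M f g) (hQ : MonoB Q)
    (hQ' : MonoB Q') : TBc P wp wm w Q'' R := by
  intro ε hε
  obtain ⟨η, hη, N, hN⟩ := h ε hε
  obtain ⟨η', hη', N', hN'⟩ := h' ε hε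
  refine ⟨min η η', lt_min hη hη', max N N', fun n hn H E χ M f g hc => ?_⟩
  have h1 := monoB_CtB hm _ _ (min_le_left η η') H E χ M f g hc
  have h2 := monoB_CtB hm _ _ (min_le_right η η') H E χ M f g hc
  rcases hq _ H E χ M f g hc.q with h3 | h3
  · exact hN n (le_trans (le_max_left _ _) hn) H E χ M f g
      ⟨h1.h4, h1.k5, h1.p, h1.d, h1.o, h1.b, hQ _ _ (min_le_left η η') H E χ M f g h3⟩
  · exact hN' n (le_trans (le_max_right _ _) hn) H E χ M f g
      ⟨h2.h4, h2.k5, h2.p, h2.d, h2.o, h2.b, hQ' _ _ (min_le_right η η') H E χ M f g h3⟩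

/-- The two cases of an average. -/
theorem tbc_cut {R : C6} (Ψ : Psi4) (x : ℝ) (hQ : MonoB Q)
    (h : TBc P wp wm w (AndB Q (AvgB Ψ x)) R)
    (h' : TBc P wp wm w (AndB Q (AvgL Ψ x)) R) : TBc P wp wm w Q R := by
  intro ε hε
  obtain ⟨η, hη, N, hN⟩ := h ε hε
  obtain ⟨η', hη', N', hN'⟩ := h' ε hε
  refine ⟨min η η', lt_min hη hη', max N N', fun n hn H E χ M f g hc => ?_⟩
  have h1 := monoB_CtB hQ _ _ (min_le_left η η') H E χ M f g hc
  have h2 := monoB_CtB hQ _ _ (min_le_right η η') H E χ M f g hc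
  have hn6 : (0 : ℝ) ≤ (n : ℝ) ^ 6 := by positivity
  rcases le_total (∑ t ∈ inj (Fin n) 6, ((fnB Ψ H E χ M f g t : ℤ) : ℝ)) (x * (n : ℝ) ^ 6)
    with h3 | h3
  · refine hN n (le_trans (le_max_left _ _) hn) H E χ M f g
      ⟨h1.h4, h1.k5, h1.p, h1.d, h1.o, h1.b, h1.q, le_trans h3 ?_⟩
    exact mul_le_mul_of_nonneg_right (by linarith) hn6
  · refine hN' n (le_trans (le_max_right _ _) hn) H E χ M f g
      ⟨h2.h4, h2.k5, h2.p, h2.d, h2.o, h2.b, h2.q, le_trans ?_ h3⟩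
    exact mul_le_mul_of_nonneg_right (by linarith) hn6

/-- A conclusion may be added to the conditions. -/
theorem tbc_step {R R' : C6} (hQ : MonoB Q) (h : TBc P wp wm w Q R)
    (h2 : TBc P wp wm w (AndB Q R) R') : TBc P wp wm w Q R' := by
  intro ε hε
  obtain ⟨η, hη, N, hN⟩ := h2 ε hε
  obtain ⟨η', hη', N', hN'⟩ := h η hη
  refine ⟨min η η', lt_min hη hη', max N N', fun n hn H E χ M f g hc => ?_⟩
  have h1 := monoB_CtB hQ _ _ (min_le_left η η') H E χ M f g hc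
  have h3 := monoB_CtB hQ _ _ (min_le_right η η') H E χ M f g hc
  exact hN n (le_trans (le_max_left _ _) hn) H E χ M f g
    ⟨h1.h4, h1.k5, h1.p, h1.d, h1.o, h1.b,
      h1.q, hN' n (le_trans (le_max_right _ _) hn) H E χ M f g h3⟩

/-- The bound of an average from the inequality on windows. -/
theorem avgB_of_goodB (Ψ : Psi4) (c d : ℕ) (hd : 0 < d)
    (h : GoodB (CtB P wp wm w Q) (fun H E χ M f g t => c - d * fnB Ψ H E χ M f g t)) :
    TBc P wp wm w Q (AvgB Ψ ((c : ℝ) / d)) := by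
  intro ε hε
  have hd' : (0 : ℝ) < d := by exact_mod_cast hd
  obtain ⟨η, hη, N, hN⟩ := h (d * ε) (by positivity)
  refine ⟨η, hη, N, fun n hn H E χ M f g hc => ?_⟩
  have s := hN n hn H E χ M f g hc
  have e1 : ∑ t ∈ inj (Fin n) 6, ((c - d * fnB Ψ H E χ M f g t : ℤ) : ℝ) =
      c * (n.descFactorial 6 : ℝ) -
        d * ∑ t ∈ inj (Fin n) 6, ((fnB Ψ H E χ M f g t : ℤ) : ℝ) := by
    have e2 : ∀ t : Fin 6 → Fin n, ((c - d * fnB Ψ H E χ M f g t : ℤ) : ℝ) =
        c - d * ((fnB Ψ H E χ M f g t : ℤ) : ℝ) := by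
      intro t
      push_cast
      ring
    rw [Finset.sum_congr rfl fun t _ => e2 t, Finset.sum_sub_distrib, ← Finset.mul_sum]
    simp only [Finset.sum_const, nsmul_eq_mul, card_inj, Fintype.card_fin]
    ring
  rw [e1] at s
  have h5 := desc_le n 6
  have h6 : (c : ℝ) * (n.descFactorial 6 : ℝ) ≤ c * (n : ℝ) ^ 6 :=
    mul_le_mul_of_nonneg_left h5 (Nat.cast_nonneg _)
  show _ ≤ _
  have h7 : (d : ℝ) * ∑ t ∈ inj (Fin n) 6, ((fnB Ψ H E χ M f g t : ℤ) : ℝ) ≤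
      d * (((c : ℝ) / d + ε) * (n : ℝ) ^ 6) := by
    have e3 : (d : ℝ) * (((c : ℝ) / d + ε) * (n : ℝ) ^ 6) =
        c * (n : ℝ) ^ 6 + d * ε * (n : ℝ) ^ 6 := by
      field_simp
    rw [e3]
    linarith
  exact le_of_mul_le_mul_left h7 hd'

/-- The upper bound of the density from the inequality on windows. -/
theorem tb_of_goodB (N : ℕ) (hN : 0 < N)
    (h : GoodB (CtB P wp wm w Q) (fun H _ _ _ _ _ t => N * (165 - 16 * S4 (zb H t)))) :
    TBc P wp wm w Q DensB := by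
  intro ε hε
  have h0 : GoodW (fun η {n} H E χ => ∃ M f g, CtxB P wp wm w Q η (n := n) H E χ M f g)
      (fun H _ _ t => N * (165 - 16 * S4 (zb H t))) := by
    intro δ hδ
    obtain ⟨η, hη, N1, hN1⟩ := h δ hδ
    refine ⟨η, hη, N1, fun n hn H E χ hc => ?_⟩
    obtain ⟨M, f, g, hc⟩ := hc
    exact hN1 n hn H E χ M f g hc
  -- the conditions of the other frame with an additional condition
  have h1 : GoodW (CtW P wp wm [] (fun η {n} H E χ => ∃ M f g,
      CtxB P wp wm w Q η (n := n) H E χ M f g))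
      (fun H _ _ t => N * (165 - 16 * S4 (zb H t))) :=
    h0.weaken fun _ _ _ _ _ hc => hc.q
  obtain ⟨η, hη, N1, hN1⟩ := tw_of_goodW N hN h1 ε hε
  exact ⟨η, hη, N1, fun n hn H E χ M f g hc => hN1 n hn H E χ
    ⟨hc.h4, hc.k5, hc.p, hc.d, hc.o, fun ψ hψ => absurd hψ (List.not_mem_nil), ⟨M, f, g, hc⟩⟩⟩

/-! ### The columns -/

/-- The density of the 4-graph. -/
theorem goodB_dens :
    GoodB (CtB P wp wm w Q) (fun H _ _ _ _ _ t => 16 * S4 (zb H t) - 165) :=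
  goodB_of_W (Q' := TrueW) (Z := fun H _ _ t => 16 * S4 (zb H t) - 165) goodW_dens
    fun _ _ _ _ _ _ _ _ _ => trivial

/-- The density of the even 4-graph. -/
theorem goodB_colE (hE : EvUp) :
    GoodB (CtB P wp wm w Q) (fun _ E _ _ _ _ t => colR (zb E t)) :=
  goodB_of_W (Q' := TrueW) (Z := fun _ E _ t => colR (zb E t)) (goodW_colR hE)
    fun _ _ _ _ _ _ _ _ _ => trivial

/-- The cost of the even 4-graph is at most the average of the costs of the even 4-graphs of the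
vertices. -/
theorem goodB_cost (hO : SumO5) :
    GoodB (CtB P wp wm w Q) (fun H E _ _ _ _ t => colC wp wm (zb H t) (zb E t)) :=
  goodB_of_W (Q' := TrueW) (Z := fun H E _ t => colC wp wm (zb H t) (zb E t)) (goodW_cost hO)
    fun _ _ _ _ _ _ _ _ _ => trivial

/-- The density of the reference structure. -/
theorem goodB_colR (hE : EvUp) :
    GoodB (CtB P wp wm w Q) (fun _ _ χ M f g t => colR (zb (gir χ M f g) t)) := by
  intro δ hδ
  obtain ⟨N2, hN2⟩ := hE (δ / 240) (by positivity)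
  refine ⟨1, one_pos, max 6 N2, fun n hn H E χ M f g _ => ?_⟩
  have h6 : 6 ≤ n := le_trans (le_max_left _ _) hn
  have h1 := hN2 n (le_trans (le_max_right _ _) hn) (gir χ M f g) (gir_card χ M f g)
    (evenH_gir χ M f g)
  rw [sum_colR_eq _ (gir_card χ M f g)]
  have h2 := desc6_eq (n := n) h6
  have h3 := PP42_pos h6
  have h4 : PP n 4 2 * ((gir χ M f g).card : ℝ) ≤
      PP n 4 2 * ((11 / 16 + δ / 240) * ((n.choose 4 : ℕ) : ℝ)) :=
    mul_le_mul_of_nonneg_left h1 h3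
  have h5 : 5760 * (PP n 4 2 * ((11 / 16 + δ / 240) * ((n.choose 4 : ℕ) : ℝ))) =
      (165 + δ) * (n.descFactorial 6 : ℝ) := by
    rw [h2]
    ring
  have h7 := desc_le n 6
  have h8 : δ * (n.descFactorial 6 : ℝ) ≤ δ * (n : ℝ) ^ 6 := mul_le_mul_of_nonneg_left h7 hδ.le
  linarith

/-- The even 4-graph has at most the cost of the reference structure. -/
theorem goodB_cmp :
    GoodB (CtB P wp wm w Q) (fun H E χ M f g t =>
      cw (wc wp wm) (zb H t) (zb (gir χ M f g) t) - cw (wc wp wm) (zb H t) (zb E t)) := by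
  refine GoodB.of_n5 (Z := fun H E χ M f g t =>
    cw (wc wp wm) (zb H t) (zb (gir χ M f g) t) - cw (wc wp wm) (zb H t) (zb E t)) 0
    fun η {n} H E χ M f g hc => ?_
  rw [zero_mul, neg_zero]
  have e1 : ∑ t ∈ inj (Fin n) 6, ((cw (wc wp wm) (zb H t) (zb (gir χ M f g) t) -
      cw (wc wp wm) (zb H t) (zb E t) : ℤ) : ℝ) =
      360 * (PP n 4 2 * ((K8.cst (wc wp wm) H (gir χ M f g) : ℤ) : ℝ)) -
      360 * (PP n 4 2 * ((K8.cst (wc wp wm) H E : ℤ) : ℝ)) := by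
    rw [← sum6_cw, ← sum6_cw, ← Finset.sum_sub_distrib]
    refine Finset.sum_congr rfl fun t _ => ?_
    push_cast
    ring
  rw [e1]
  have h1 := hc.o.2.2 (gir χ M f g) (gir_card χ M f g) (evenH_gir χ M f g)
  have h2 : ((K8.cst (wc wp wm) H E : ℤ) : ℝ) ≤
      ((K8.cst (wc wp wm) H (gir χ M f g) : ℤ) : ℝ) := by exact_mod_cast h1
  have h3 : 0 ≤ PP n 4 2 := by
    have e2 : PP n 4 2 = ((n : ℝ) - 4) * (n - 5) := by
      unfold PP
      rw [Finset.prod_range_succ, Finset.prod_range_succ, Finset.prod_range_zero]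
      push_cast
      ring
    rw [e2]
    rcases le_or_gt n 4 with h4 | h4
    · have h5 : (n : ℝ) ≤ 4 := by exact_mod_cast h4
      nlinarith
    · have h5 : (5 : ℝ) ≤ n := by exact_mod_cast h4
      nlinarith
  have h4 := mul_le_mul_of_nonneg_left h2 h3
  linarith

/-- The bound of an average as a column. -/
theorem goodB_avg (Ψ : Psi4) (c d : ℕ) (x : ℝ) (hx : d * x ≤ c)
    (hq : ∀ (η : ℝ) {n : ℕ} (H E : Finset (Finset (Fin n))) (χ : Fin n → Bool)
      (M : Fin n → Fin n → Bool) (f g : Finset (Fin n) → Bool), Q η H E χ M f g →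
      AvgB Ψ x η H E χ M f g) :
    GoodB (CtB P wp wm w Q) (fun H E χ M f g t => c - d * fnB Ψ H E χ M f g t) := by
  intro δ hδ
  have hd1 : (0 : ℝ) < 2 * (d + 1) := by positivity
  obtain ⟨N, hN⟩ := exists_nat_gt (120 * c / δ)
  refine ⟨δ / (2 * (d + 1)), by positivity, max 30 N, fun n hn H E χ M f g hc => ?_⟩
  have h30 : 30 ≤ n := le_trans (le_max_left _ _) hn
  have hNn : (N : ℝ) ≤ n := by exact_mod_cast le_trans (le_max_right _ _) hn
  have hn0 : (0 : ℝ) < n := by exact_mod_cast (by omega : 0 < n)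
  have h1 := hq _ H E χ M f g hc.q
  have e1 : ∑ t ∈ inj (Fin n) 6, ((c - d * fnB Ψ H E χ M f g t : ℤ) : ℝ) =
      c * (n.descFactorial 6 : ℝ) -
        d * ∑ t ∈ inj (Fin n) 6, ((fnB Ψ H E χ M f g t : ℤ) : ℝ) := by
    have e2 : ∀ t : Fin 6 → Fin n, ((c - d * fnB Ψ H E χ M f g t : ℤ) : ℝ) =
        c - d * ((fnB Ψ H E χ M f g t : ℤ) : ℝ) := by
      intro t
      push_cast
      ring
    rw [Finset.sum_congr rfl fun t _ => e2 t, Finset.sum_sub_distrib, ← Finset.mul_sum]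
    simp only [Finset.sum_const, nsmul_eq_mul, card_inj, Fintype.card_fin]
    ring
  rw [e1]
  have h2 : (d : ℝ) * ∑ t ∈ inj (Fin n) 6, ((fnB Ψ H E χ M f g t : ℤ) : ℝ) ≤
      d * ((x + δ / (2 * (d + 1))) * (n : ℝ) ^ 6) :=
    mul_le_mul_of_nonneg_left h1 (Nat.cast_nonneg _)
  have h3 := D6_le h30
  have h4 : (d : ℝ) * (δ / (2 * (d + 1))) ≤ δ / 2 := by
    rw [← mul_div_assoc, div_le_div_iff₀ hd1 (by norm_num)]
    nlinarith
  have h5 : 60 / (n : ℝ) * c ≤ δ / 2 := by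
    have h7 : 120 * c / δ < n := lt_of_lt_of_le hN hNn
    rw [div_lt_iff₀ hδ] at h7
    rw [div_mul_eq_mul_div, div_le_iff₀ hn0]
    linarith
  have h6 := desc_le n 6
  have h7 : 60 / (n : ℝ) * c * (n.descFactorial 6 : ℝ) ≤ δ / 2 * (n : ℝ) ^ 6 := by
    refine mul_le_mul h5 h6 (Nat.cast_nonneg _) (by positivity)
  have h8 : (c : ℝ) * (n : ℝ) ^ 6 ≤ c * (n.descFactorial 6 : ℝ) +
      60 / (n : ℝ) * c * (n.descFactorial 6 : ℝ) := by
    have h9 : (n : ℝ) ^ 6 ≤ (n.descFactorial 6 : ℝ) +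
        60 / (n : ℝ) * (n.descFactorial 6 : ℝ) := by linarith
    have h10 := mul_le_mul_of_nonneg_left h9 (Nat.cast_nonneg (α := ℝ) c)
    linarith
  have h9 : (d : ℝ) * (δ / (2 * (d + 1))) * (n : ℝ) ^ 6 ≤ δ / 2 * (n : ℝ) ^ 6 :=
    mul_le_mul_of_nonneg_right h4 (by positivity)
  have h10 : (d : ℝ) * x * (n : ℝ) ^ 6 ≤ c * (n : ℝ) ^ 6 :=
    mul_le_mul_of_nonneg_right hx (by positivity)
  linarith

/-- The lower bound of an average as a column. -/
theorem goodB_avgL (Ψ : Psi4) (c d : ℕ) (x : ℝ) (hx : c ≤ d * x)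
    (hq : ∀ (η : ℝ) {n : ℕ} (H E : Finset (Finset (Fin n))) (χ : Fin n → Bool)
      (M : Fin n → Fin n → Bool) (f g : Finset (Fin n) → Bool), Q η H E χ M f g →
      AvgL Ψ x η H E χ M f g) :
    GoodB (CtB P wp wm w Q) (fun H E χ M f g t => d * fnB Ψ H E χ M f g t - c) := by
  intro δ hδ
  have hd1 : (0 : ℝ) < d + 1 := by positivity
  refine ⟨δ / (d + 1), by positivity, 0, fun n _ H E χ M f g hc => ?_⟩
  have h1 := hq _ H E χ M f g hc.q
  have e1 : ∑ t ∈ inj (Fin n) 6, ((d * fnB Ψ H E χ M f g t - c : ℤ) : ℝ) =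
      d * ∑ t ∈ inj (Fin n) 6, ((fnB Ψ H E χ M f g t : ℤ) : ℝ) -
        c * (n.descFactorial 6 : ℝ) := by
    have e2 : ∀ t : Fin 6 → Fin n, ((d * fnB Ψ H E χ M f g t - c : ℤ) : ℝ) =
        d * ((fnB Ψ H E χ M f g t : ℤ) : ℝ) - c := by
      intro t
      push_cast
      ring
    rw [Finset.sum_congr rfl fun t _ => e2 t, Finset.sum_sub_distrib, ← Finset.mul_sum]
    simp only [Finset.sum_const, nsmul_eq_mul, card_inj, Fintype.card_fin]
    ring
  rw [e1]
  have h2 : (d : ℝ) * ((x - δ / (d + 1)) * (n : ℝ) ^ 6) ≤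
      d * ∑ t ∈ inj (Fin n) 6, ((fnB Ψ H E χ M f g t : ℤ) : ℝ) :=
    mul_le_mul_of_nonneg_left h1 (Nat.cast_nonneg _)
  have h4 : (d : ℝ) * (δ / (d + 1)) ≤ δ := by
    rw [← mul_div_assoc, div_le_iff₀ hd1]
    nlinarith
  have h6 := desc_le n 6
  have h7 : (c : ℝ) * (n.descFactorial 6 : ℝ) ≤ c * (n : ℝ) ^ 6 :=
    mul_le_mul_of_nonneg_left h6 (Nat.cast_nonneg _)
  have h9 : (d : ℝ) * (δ / (d + 1)) * (n : ℝ) ^ 6 ≤ δ * (n : ℝ) ^ 6 :=
    mul_le_mul_of_nonneg_right h4 (by positivity)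
  have h10 : (c : ℝ) * (n : ℝ) ^ 6 ≤ d * x * (n : ℝ) ^ 6 :=
    mul_le_mul_of_nonneg_right hx (by positivity)
  linarith

/-! ### The cost of the reference structure -/

/-- The distance to the reference structure and the imbalance. -/
def disR (a c : ℕ) : Psi4 := fun e _ r x => a * cw (wc 1 1) e r + c * S2 x

theorem cst_one {n : ℕ} (H G : Finset (Finset (Fin n))) (h4 : ∀ e ∈ H, e.card = 4)
    (h4' : ∀ e ∈ G, e.card = 4) :
    ((K8.cst (wc 1 1) H G : ℤ) : ℝ) = ((symmDiff H G).card : ℝ) := by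
  have hJ4 : ∀ e ∈ symmDiff H G, e.card = 4 := by
    intro e he
    rw [Finset.mem_symmDiff] at he
    rcases he with h1 | h1
    · exact h4 e h1.1
    · exact h4' e h1.1
  rw [cst_eq, Int.cast_natCast]
  congr 1
  unfold cN
  have h1 : ∀ Q : Finset (Fin n), (if Q ∈ H then (if Q ∈ G then 0 else 1)
      else (if Q ∈ G then 1 else 0)) = if Q ∈ symmDiff H G then 1 else 0 := by
    intro Q
    by_cases h1 : Q ∈ H <;> by_cases h2 : Q ∈ G <;> simp [Finset.mem_symmDiff, h1, h2]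
  rw [Finset.sum_congr rfl fun Q _ => h1 Q, Finset.sum_boole]
  simp only [Nat.cast_id]
  congr 1
  ext e
  rw [Finset.mem_filter, Finset.mem_powersetCard]
  exact ⟨fun h => h.2, fun h => ⟨⟨Finset.subset_univ _, hJ4 e h⟩, h⟩⟩

theorem sum_disR (a c : ℕ) {n : ℕ} (hn : 8 ≤ n) (H E : Finset (Finset (Fin n)))
    (h4 : ∀ e ∈ H, e.card = 4) (χ : Fin n → Bool) (M : Fin n → Fin n → Bool)
    (f g : Finset (Fin n) → Bool) :
    (n : ℝ) ^ 6 * (15 * a * X4 H (gir χ M f g) + 30 * c * sg2 χ) -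
      (270 * a + 450 * c) * (n : ℝ) ^ 5 ≤
    ∑ t ∈ inj (Fin n) 6, ((fnB (disR a c) H E χ M f g t : ℤ) : ℝ) := by
  have e1 : ∑ t ∈ inj (Fin n) 6, ((fnB (disR a c) H E χ M f g t : ℤ) : ℝ) =
      a * ∑ t ∈ inj (Fin n) 6, ((cw (wc 1 1) (zb H t) (zb (gir χ M f g) t) : ℤ) : ℝ) +
      c * ∑ t ∈ inj (Fin n) 6, ((S2 (fun i => χ (t i)) : ℤ) : ℝ) := by
    rw [Finset.mul_sum, Finset.mul_sum, ← Finset.sum_add_distrib]
    refine Finset.sum_congr rfl fun t _ => ?_
    unfold fnB disR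
    push_cast
    ring
  rw [e1]
  have h1 := mul_le_mul_of_nonneg_left (sum6_cw_ge 1 1 H (gir χ M f g) (by omega))
    (Nat.cast_nonneg (α := ℝ) a)
  have h3 := mul_le_mul_of_nonneg_left (sum6_S2_ge hn χ) (Nat.cast_nonneg (α := ℝ) c)
  refine le_trans (le_of_eq ?_) (add_le_add h1 h3)
  rw [cst_one H (gir χ M f g) h4 (gir_card χ M f g)]
  unfold X4
  push_cast
  ring

/-- The bound of the cost of the reference structure from the average. -/
theorem costN_of_avg (a c : ℕ) (ha : 0 < a) (x : ℝ) (hw : w * a ≤ 2 * c)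
    (h : TBc P wp wm w Q (AvgB (disR a c) x)) :
    TBc P wp wm w Q (CostN w (x / (15 * a))) := by
  intro ε hε
  have ha' : (0 : ℝ) < a := by exact_mod_cast ha
  obtain ⟨η, hη, N1, hN1⟩ := h (15 * a * (ε / 2)) (by positivity)
  obtain ⟨N2, hN2⟩ := n5_aux (C := 270 * a + 450 * c) (δ := 15 * a * (ε / 2)) (by positivity)
  refine ⟨η, hη, max 8 (max N1 N2), fun n hn H E χ M f g hc => ?_⟩
  have hn8 : 8 ≤ n := le_trans (le_max_left _ _) hn
  have hn1 : N1 ≤ n := le_trans (le_trans (le_max_left _ _) (le_max_right _ _)) hn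
  have hn2 : N2 ≤ n := le_trans (le_trans (le_max_right _ _) (le_max_right _ _)) hn
  have hn0 : (0 : ℝ) < n := by exact_mod_cast (by omega : 0 < n)
  have hn6 : (0 : ℝ) < (n : ℝ) ^ 6 := by positivity
  have h1 := le_trans (sum_disR a c hn8 H E hc.h4 χ M f g) (hN1 n hn1 H E χ M f g hc)
  have h2 := hN2 n hn2
  have h3 : (n : ℝ) ^ 6 * (15 * a * X4 H (gir χ M f g) + 30 * c * sg2 χ) ≤
      (n : ℝ) ^ 6 * (x + 15 * a * ε) := by
    have e1 : (n : ℝ) ^ 6 * (x + 15 * a * ε) = (x + 15 * a * (ε / 2)) * (n : ℝ) ^ 6 +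
      15 * a * (ε / 2) * (n : ℝ) ^ 6 := by ring
    rw [e1]
    linarith
  have h4 := le_of_mul_le_mul_left h3 hn6
  have h5 := mul_le_mul_of_nonneg_right hw (sg2_nonneg χ)
  show cost w H χ M f g ≤ x / (15 * a) + ε
  have h6 : 15 * (a : ℝ) * cost w H χ M f g ≤ 15 * a * (x / (15 * a) + ε) := by
    have e1 : 15 * (a : ℝ) * (x / (15 * a) + ε) = x + 15 * a * ε := by
      field_simp
    rw [e1]
    unfold cost
    linarith
  exact le_of_mul_le_mul_left h6 (by positivity)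

/-! ### The theorem -/

/-- Closeness from closeness and a conclusion. -/
theorem near_step {X0 X1 : ℝ} (h : Near P w X0)
    (h2 : TBc P wp wm w (CostN w X0) (CostN w X1)) : Near P w X1 := by
  intro η hη
  obtain ⟨η2, hη2, N2, hN2⟩ := h2 η hη
  obtain ⟨N1, hN1⟩ := h η2 hη2
  refine ⟨max N1 N2, fun n hn H hH hK hP hd => ?_⟩
  obtain ⟨χ', M', f', g', h3⟩ := hN1 n (le_trans (le_max_left _ _) hn) H hH hK hP hd
  obtain ⟨E, hE⟩ := exists_optE (wc wp wm) H
  obtain ⟨χ, M, f, g, hb⟩ := exists_best w H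
  exact ⟨χ, M, f, g, hN2 n (le_trans (le_max_right _ _) hn) H E χ M f g
    ⟨hH, hK, hP, hd, hE, hb, le_trans (hb χ' M' f' g') h3⟩⟩

/-- The bound for 4-graphs with the property. -/
theorem assembly_near {X0 : ℝ} (h : Near P w X0) (h2 : TBc P wp wm w (CostN w X0) DensB) :
    ∀ ε : ℝ, 0 < ε → ∃ N : ℕ, ∀ n : ℕ, N ≤ n → ∀ H : Finset (Finset (Fin n)),
      (∀ e ∈ H, e.card = 4) → K5F H → P n H → e4 H ≤ 11 / 16 + ε := by
  intro ε hε
  obtain ⟨η2, hη2, N2, hN2⟩ := h2 ε hε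
  obtain ⟨N1, hN1⟩ := h η2 hη2
  refine ⟨max N1 N2, fun n hn H hH hK hP => ?_⟩
  by_contra hlt
  rw [not_le] at hlt
  have hd : 11 / 16 ≤ e4 H := by linarith
  obtain ⟨χ', M', f', g', h3⟩ := hN1 n (le_trans (le_max_left _ _) hn) H hH hK hP hd
  obtain ⟨E, hE⟩ := exists_optE (wc wp wm) H
  obtain ⟨χ, M, f, g, hb⟩ := exists_best w H
  exact absurd (hN2 n (le_trans (le_max_right _ _) hn) H E χ M f g
    ⟨hH, hK, hP, hd, hE, hb, le_trans (hb χ' M' f' g') h3⟩) (not_le.mpr hlt)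

/-- A theorem of the first frame for the whole class, from the bound for 4-graphs with the
property. -/
theorem tw_of_assembly (h : ∀ ε : ℝ, 0 < ε → ∃ N : ℕ, ∀ n : ℕ, N ≤ n →
      ∀ H : Finset (Finset (Fin n)),
      (∀ e ∈ H, e.card = 4) → K5F H → P n H → e4 H ≤ 11 / 16 + ε) : TW P wp wm [] TrueW := by
  intro ε hε
  obtain ⟨N, hN⟩ := h ε hε
  exact ⟨1, one_pos, N, fun n hn H E χ hc => hN n hn H hc.h4 hc.k5 hc.p⟩

/-- The exact theorem from closeness and the local theorem. -/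
theorem main_near {X0 : ℝ} (hR : Red P) (h : Near P w X0)
    (h2 : TBc P wp wm w (CostN w X0) DensB) :
    ∀ ε : ℝ, 0 < ε → ∃ N : ℕ, ∀ n : ℕ, N ≤ n →
      (∃ H : Finset (Finset (Fin n)),
          (∀ e ∈ H, e.card = 4) ∧
          (∀ S : Finset (Fin n), S.card = 5 → ∃ e ∈ S.powersetCard 4, e ∉ H) ∧
          ((11 / 16 : ℝ) - ε) * ((n.choose 4 : ℕ) : ℝ) ≤ (H.card : ℝ)) ∧
      (∀ H : Finset (Finset (Fin n)),
          (∀ e ∈ H, e.card = 4) →
          (∀ S : Finset (Fin n), S.card = 5 → ∃ e ∈ S.powersetCard 4, e ∉ H) →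
          (H.card : ℝ) ≤ ((11 / 16 : ℝ) + ε) * ((n.choose 4 : ℕ) : ℝ)) :=
  main (wp := wp) (wm := wm) hR (t1L_nil P wp wm) (tw_of_assembly (assembly_near h h2))

end ctx

end Pool.Agent.Lib.MP_afdd4d_co.K9.Star.Tw
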