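import Pool.Agent.Lib.MP_afdd4d_co.K9.TwT1

/-!
# The distance to the reference structures and the defects of a colouring

The number of errors of the reference structures that are read from two vertices is bounded by the
number of defects of the colouring.
-/

namespace Pool.Agent.Lib.MP_afdd4d_co.K9.Star.Tw

open Finset K8

/-! ### The windows of six vertices -/

section win
variable (e : Finset (Fin 6) → Bool)

/-- Even windows. -/
def Ev6 : Prop := ∀ S : Finset (Fin 6), S.card = 5 → ∑ x ∈ S, bz (e (S.erase x)) = 0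

theorem q2345 : (univ.image fun i : Fin 4 => (id (Fin.natAdd 2 i) : Fin 6)) = {2, 3, 4, 5} := by
  decide

theorem bz_ne (a b : Bool) : (if a ≠ b then (1 : ℤ) else 0) = ((a ^^ b).toNat : ℤ) := by
  cases a <;> cases b <;> rfl

theorem xor4 {z : Bool} {a b c d : Bool} (h : bz z + (bz a + bz b + (bz c + bz d)) = 0) :
    (z.toNat : ℤ) ≤ ((a ^^ b).toNat : ℤ) + ((c ^^ d).toNat : ℤ) := by
  revert z a b c d
  decide

theorem bz_false {z : Bool} (h : bz z = 0) : z = false := by
  revert z
  decide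

theorem bz_xor' (a b : Bool) : bz (a ^^ b) = bz a + bz b := by
  cases a <;> cases b <;> decide

theorem zmod_two : (2 : ZMod 2) = 0 := by decide


theorem pt_0000 (he : Ev6 e) : f6 e ![false, true, false, false, false, false] id ≤ 0 := by
  have hT : ({2, 3, 4, 5} : Finset (Fin 6)).filter (fun v => (![false, true, false, false, false, false] : Fin 6 → Bool) v = true) =
      ∅ := by decide
  have h := he {1, 2, 3, 4, 5} (by decide)
  rw [show ({1, 2, 3, 4, 5} : Finset (Fin 6)) = {1, 2, 3, 4, 5} from by decide,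
    Finset.sum_insert (by decide)] at h
  have h0 : (({1, 2, 3, 4, 5} : Finset (Fin 6)).erase 1) = {2, 3, 4, 5} := by decide
  have hs : ∑ x ∈ ({2, 3, 4, 5} : Finset (Fin 6)),
      bz (e (({1, 2, 3, 4, 5} : Finset (Fin 6)).erase x)) =
      ∑ x ∈ ({2, 3, 4, 5} : Finset (Fin 6)), bz (!e (insert 1 (({2, 3, 4, 5} : Finset (Fin 6)).erase x))) := by
    have h1 : ∀ x ∈ ({2, 3, 4, 5} : Finset (Fin 6)),
        bz (e (({1, 2, 3, 4, 5} : Finset (Fin 6)).erase x)) =
        bz (!e (insert 1 (({2, 3, 4, 5} : Finset (Fin 6)).erase x))) + 1 := by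
      intro x hx
      have h2 : (({1, 2, 3, 4, 5} : Finset (Fin 6)).erase x) =
          insert 1 (({2, 3, 4, 5} : Finset (Fin 6)).erase x) := by
        revert x
        decide
      rw [h2]
      cases e (insert 1 (({2, 3, 4, 5} : Finset (Fin 6)).erase x)) <;> decide
    rw [Finset.sum_congr rfl h1, Finset.sum_add_distrib, Finset.sum_const]
    have h3 : (({2, 3, 4, 5} : Finset (Fin 6)).card • (1 : ZMod 2)) = 0 := by decide
    rw [h3, add_zero]
  rw [h0, hs] at h
  unfold f6
  rw [if_pos (by decide), q2345]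
  unfold erB gE girB
  rw [hT]
  rw [if_pos (by decide)]
  have h4 : bz (e {2, 3, 4, 5} ^^ oddB (∑ x ∈ ({2, 3, 4, 5} : Finset (Fin 6)),
      bz (!e (insert 1 (({2, 3, 4, 5} : Finset (Fin 6)).erase x))))) = 0 := by
    rw [bz_xor', bz_oddB]
    exact h
  have h5 := bz_false h4
  show ((e {2, 3, 4, 5} ^^ oddB (∑ x ∈ ({2, 3, 4, 5} : Finset (Fin 6)),
    bz (!e (insert 1 (({2, 3, 4, 5} : Finset (Fin 6)).erase x))))).toNat : ℤ) ≤ 0
  rw [h5]
  rfl

theorem pt_0001 : f6 e ![false, true, false, false, false, true] id ≤ w5 e ![false, true, false, false, false, true] ![2, 3, 4, 5, 1] := by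
  have hT : ({2, 3, 4, 5} : Finset (Fin 6)).filter (fun v => (![false, true, false, false, false, true] : Fin 6 → Bool) v = true) =
      {5} := by decide
  have hA : ({2, 3, 4, 5} : Finset (Fin 6)).filter (fun v => (![false, true, false, false, false, true] : Fin 6 → Bool) v = false) =
      {2, 3, 4} := by decide
  have hi : (insert 1 {2, 3, 4} : Finset (Fin 6)) = {2, 3, 4, 1} := by decide
  have hQ : ({2, 3, 4, 5} : Finset (Fin 6)) = {2, 3, 4, 5} := by decide
  have hw : w5 e ![false, true, false, false, false, true] ![2, 3, 4, 5, 1] = if e {2, 3, 4, 5} ≠ e {2, 3, 4, 1} then 1 else 0 := by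
    unfold w5
    exact if_congr ⟨fun h => h.2.2.2.2, fun h => ⟨by decide, by decide, by decide, by decide, h⟩⟩
      rfl rfl
  rw [hw, bz_ne]
  unfold f6
  rw [if_pos (by decide), q2345]
  unfold erB gE girB
  rw [hT, hA]
  rw [if_neg (by decide), if_pos (by decide)]
  show ((e {2, 3, 4, 5} ^^ !!e (insert 1 {2, 3, 4})).toNat : ℤ) ≤ _
  rw [hi, hQ, Bool.not_not]

theorem pt_0010 : f6 e ![false, true, false, false, true, false] id ≤ w5 e ![false, true, false, false, true, false] ![2, 3, 5, 4, 1] := by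
  have hT : ({2, 3, 4, 5} : Finset (Fin 6)).filter (fun v => (![false, true, false, false, true, false] : Fin 6 → Bool) v = true) =
      {4} := by decide
  have hA : ({2, 3, 4, 5} : Finset (Fin 6)).filter (fun v => (![false, true, false, false, true, false] : Fin 6 → Bool) v = false) =
      {2, 3, 5} := by decide
  have hi : (insert 1 {2, 3, 5} : Finset (Fin 6)) = {2, 3, 5, 1} := by decide
  have hQ : ({2, 3, 4, 5} : Finset (Fin 6)) = {2, 3, 5, 4} := by decide
  have hw : w5 e ![false, true, false, false, true, false] ![2, 3, 5, 4, 1] = if e {2, 3, 5, 4} ≠ e {2, 3, 5, 1} then 1 else 0 := by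
    unfold w5
    exact if_congr ⟨fun h => h.2.2.2.2, fun h => ⟨by decide, by decide, by decide, by decide, h⟩⟩
      rfl rfl
  rw [hw, bz_ne]
  unfold f6
  rw [if_pos (by decide), q2345]
  unfold erB gE girB
  rw [hT, hA]
  rw [if_neg (by decide), if_pos (by decide)]
  show ((e {2, 3, 4, 5} ^^ !!e (insert 1 {2, 3, 5})).toNat : ℤ) ≤ _
  rw [hi, hQ, Bool.not_not]

theorem pt_0011 (he : Ev6 e) : f6 e ![false, true, false, false, true, true] id ≤ w5 e ![false, true, false, false, true, true] ![4, 5, 1, 2, 3] + w5 e ![false, true, false, false, true, true] ![0, 2, 3, 4, 5] := by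
  have hT : ({2, 3, 4, 5} : Finset (Fin 6)).filter (fun v => (![false, true, false, false, true, true] : Fin 6 → Bool) v = true) =
      {4, 5} := by decide
  have hA : ({2, 3, 4, 5} : Finset (Fin 6)).filter (fun v => (![false, true, false, false, true, true] : Fin 6 → Bool) v = false) =
      {2, 3} := by decide
  have g0 : bz (e {2, 3, 4, 5}) + (bz (e {1, 3, 4, 5}) + (bz (e {1, 2, 4, 5}) +
      (bz (e {1, 2, 3, 5}) + bz (e {1, 2, 3, 4})))) = 0 := by
    have h := he {1, 2, 3, 4, 5} (by decide)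
    rw [Finset.sum_insert (by decide), Finset.sum_insert (by decide), Finset.sum_insert (by decide),
      Finset.sum_insert (by decide), Finset.sum_singleton] at h
    exact h
  have g1 : bz (e {1, 2, 3, 5}) + (bz (e {0, 2, 3, 5}) + (bz (e {0, 1, 3, 5}) +
      (bz (e {0, 1, 2, 5}) + bz (e {0, 1, 2, 3})))) = 0 := by
    have h := he {0, 1, 2, 3, 5} (by decide)
    rw [Finset.sum_insert (by decide), Finset.sum_insert (by decide), Finset.sum_insert (by decide),
      Finset.sum_insert (by decide), Finset.sum_singleton] at h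
    exact h
  have g2 : bz (e {1, 2, 3, 4}) + (bz (e {0, 2, 3, 4}) + (bz (e {0, 1, 3, 4}) +
      (bz (e {0, 1, 2, 4}) + bz (e {0, 1, 2, 3})))) = 0 := by
    have h := he {0, 1, 2, 3, 4} (by decide)
    rw [Finset.sum_insert (by decide), Finset.sum_insert (by decide), Finset.sum_insert (by decide),
      Finset.sum_insert (by decide), Finset.sum_singleton] at h
    exact h
  have w1 : w5 e ![false, true, false, false, true, true] ![4, 5, 1, 2, 3] = if e {1, 2, 4, 5} ≠ e {1, 3, 4, 5} then 1 else 0 := by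
    unfold w5
    refine if_congr ⟨fun h => ?_, fun h => ⟨by decide, by decide, by decide, by decide, ?_⟩⟩ rfl rfl
    · have h2 := h.2.2.2.2
      rw [show ({1, 2, 4, 5} : Finset (Fin 6)) = {4, 5, 1, 2} from by decide,
        show ({1, 3, 4, 5} : Finset (Fin 6)) = {4, 5, 1, 3} from by decide]
      exact h2
    · rw [show ({1, 2, 4, 5} : Finset (Fin 6)) = {4, 5, 1, 2} from by decide,
        show ({1, 3, 4, 5} : Finset (Fin 6)) = {4, 5, 1, 3} from by decide] at h
      exact h
  have w2 : w5 e ![false, true, false, false, true, true] ![0, 2, 3, 4, 5] = if e {0, 2, 3, 4} ≠ e {0, 2, 3, 5} then 1 else 0 := by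
    unfold w5
    refine if_congr ⟨fun h => ?_, fun h => ⟨by decide, by decide, by decide, by decide, ?_⟩⟩ rfl rfl
    · have h2 := h.2.2.2.2
      rw [show ({0, 2, 3, 4} : Finset (Fin 6)) = {0, 2, 3, 4} from by decide,
        show ({0, 2, 3, 5} : Finset (Fin 6)) = {0, 2, 3, 5} from by decide]
      exact h2
    · rw [show ({0, 2, 3, 4} : Finset (Fin 6)) = {0, 2, 3, 4} from by decide,
        show ({0, 2, 3, 5} : Finset (Fin 6)) = {0, 2, 3, 5} from by decide] at h
      exact h
  rw [w1, w2, bz_ne, bz_ne]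
  unfold f6
  rw [if_pos (by decide), q2345]
  unfold erB gE girB
  rw [hT, hA]
  rw [if_neg (by decide), if_neg (by decide), if_pos (by decide)]
  rw [Finset.sum_pair (by decide), Finset.sum_pair (by decide), Finset.sum_pair (by decide)]
  apply xor4
  rw [bz_xor', bz_oddB]
  show bz (e {2, 3, 4, 5}) + (bz (e {0, 2, 1, 4}) + bz (e {0, 2, 1, 5}) +
    (bz (e {0, 3, 1, 4}) + bz (e {0, 3, 1, 5}))) + (bz (e {1, 2, 4, 5}) +
    bz (e {1, 3, 4, 5}) + (bz (e {0, 2, 3, 4}) + bz (e {0, 2, 3, 5}))) = 0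
  rw [show ({0, 2, 1, 4} : Finset (Fin 6)) = {0, 1, 2, 4} from by decide,
    show ({0, 2, 1, 5} : Finset (Fin 6)) = {0, 1, 2, 5} from by decide,
    show ({0, 3, 1, 4} : Finset (Fin 6)) = {0, 1, 3, 4} from by decide,
    show ({0, 3, 1, 5} : Finset (Fin 6)) = {0, 1, 3, 5} from by decide]
  linear_combination g0 + g1 + g2 - (bz (e {0, 1, 2, 3}) + bz (e {1, 2, 3, 4}) + bz (e {1, 2, 3, 5})) * zmod_two

theorem pt_0100 : f6 e ![false, true, false, true, false, false] id ≤ w5 e ![false, true, false, true, false, false] ![2, 4, 5, 3, 1] := by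
  have hT : ({2, 3, 4, 5} : Finset (Fin 6)).filter (fun v => (![false, true, false, true, false, false] : Fin 6 → Bool) v = true) =
      {3} := by decide
  have hA : ({2, 3, 4, 5} : Finset (Fin 6)).filter (fun v => (![false, true, false, true, false, false] : Fin 6 → Bool) v = false) =
      {2, 4, 5} := by decide
  have hi : (insert 1 {2, 4, 5} : Finset (Fin 6)) = {2, 4, 5, 1} := by decide
  have hQ : ({2, 3, 4, 5} : Finset (Fin 6)) = {2, 4, 5, 3} := by decide
  have hw : w5 e ![false, true, false, true, false, false] ![2, 4, 5, 3, 1] = if e {2, 4, 5, 3} ≠ e {2, 4, 5, 1} then 1 else 0 := by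
    unfold w5
    exact if_congr ⟨fun h => h.2.2.2.2, fun h => ⟨by decide, by decide, by decide, by decide, h⟩⟩
      rfl rfl
  rw [hw, bz_ne]
  unfold f6
  rw [if_pos (by decide), q2345]
  unfold erB gE girB
  rw [hT, hA]
  rw [if_neg (by decide), if_pos (by decide)]
  show ((e {2, 3, 4, 5} ^^ !!e (insert 1 {2, 4, 5})).toNat : ℤ) ≤ _
  rw [hi, hQ, Bool.not_not]

theorem pt_0101 (he : Ev6 e) : f6 e ![false, true, false, true, false, true] id ≤ w5 e ![false, true, false, true, false, true] ![3, 5, 1, 2, 4] + w5 e ![false, true, false, true, false, true] ![0, 2, 4, 3, 5] := by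
  have hT : ({2, 3, 4, 5} : Finset (Fin 6)).filter (fun v => (![false, true, false, true, false, true] : Fin 6 → Bool) v = true) =
      {3, 5} := by decide
  have hA : ({2, 3, 4, 5} : Finset (Fin 6)).filter (fun v => (![false, true, false, true, false, true] : Fin 6 → Bool) v = false) =
      {2, 4} := by decide
  have g0 : bz (e {2, 3, 4, 5}) + (bz (e {1, 3, 4, 5}) + (bz (e {1, 2, 4, 5}) +
      (bz (e {1, 2, 3, 5}) + bz (e {1, 2, 3, 4})))) = 0 := by
    have h := he {1, 2, 3, 4, 5} (by decide)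
    rw [Finset.sum_insert (by decide), Finset.sum_insert (by decide), Finset.sum_insert (by decide),
      Finset.sum_insert (by decide), Finset.sum_singleton] at h
    exact h
  have g1 : bz (e {1, 2, 4, 5}) + (bz (e {0, 2, 4, 5}) + (bz (e {0, 1, 4, 5}) +
      (bz (e {0, 1, 2, 5}) + bz (e {0, 1, 2, 4})))) = 0 := by
    have h := he {0, 1, 2, 4, 5} (by decide)
    rw [Finset.sum_insert (by decide), Finset.sum_insert (by decide), Finset.sum_insert (by decide),
      Finset.sum_insert (by decide), Finset.sum_singleton] at h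
    exact h
  have g2 : bz (e {1, 2, 3, 4}) + (bz (e {0, 2, 3, 4}) + (bz (e {0, 1, 3, 4}) +
      (bz (e {0, 1, 2, 4}) + bz (e {0, 1, 2, 3})))) = 0 := by
    have h := he {0, 1, 2, 3, 4} (by decide)
    rw [Finset.sum_insert (by decide), Finset.sum_insert (by decide), Finset.sum_insert (by decide),
      Finset.sum_insert (by decide), Finset.sum_singleton] at h
    exact h
  have w1 : w5 e ![false, true, false, true, false, true] ![3, 5, 1, 2, 4] = if e {1, 2, 3, 5} ≠ e {1, 3, 4, 5} then 1 else 0 := by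
    unfold w5
    refine if_congr ⟨fun h => ?_, fun h => ⟨by decide, by decide, by decide, by decide, ?_⟩⟩ rfl rfl
    · have h2 := h.2.2.2.2
      rw [show ({1, 2, 3, 5} : Finset (Fin 6)) = {3, 5, 1, 2} from by decide,
        show ({1, 3, 4, 5} : Finset (Fin 6)) = {3, 5, 1, 4} from by decide]
      exact h2
    · rw [show ({1, 2, 3, 5} : Finset (Fin 6)) = {3, 5, 1, 2} from by decide,
        show ({1, 3, 4, 5} : Finset (Fin 6)) = {3, 5, 1, 4} from by decide] at h
      exact h
  have w2 : w5 e ![false, true, false, true, false, true] ![0, 2, 4, 3, 5] = if e {0, 2, 3, 4} ≠ e {0, 2, 4, 5} then 1 else 0 := by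
    unfold w5
    refine if_congr ⟨fun h => ?_, fun h => ⟨by decide, by decide, by decide, by decide, ?_⟩⟩ rfl rfl
    · have h2 := h.2.2.2.2
      rw [show ({0, 2, 3, 4} : Finset (Fin 6)) = {0, 2, 4, 3} from by decide,
        show ({0, 2, 4, 5} : Finset (Fin 6)) = {0, 2, 4, 5} from by decide]
      exact h2
    · rw [show ({0, 2, 3, 4} : Finset (Fin 6)) = {0, 2, 4, 3} from by decide,
        show ({0, 2, 4, 5} : Finset (Fin 6)) = {0, 2, 4, 5} from by decide] at h
      exact h
  rw [w1, w2, bz_ne, bz_ne]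
  unfold f6
  rw [if_pos (by decide), q2345]
  unfold erB gE girB
  rw [hT, hA]
  rw [if_neg (by decide), if_neg (by decide), if_pos (by decide)]
  rw [Finset.sum_pair (by decide), Finset.sum_pair (by decide), Finset.sum_pair (by decide)]
  apply xor4
  rw [bz_xor', bz_oddB]
  show bz (e {2, 3, 4, 5}) + (bz (e {0, 2, 1, 3}) + bz (e {0, 2, 1, 5}) +
    (bz (e {0, 4, 1, 3}) + bz (e {0, 4, 1, 5}))) + (bz (e {1, 2, 3, 5}) +
    bz (e {1, 3, 4, 5}) + (bz (e {0, 2, 3, 4}) + bz (e {0, 2, 4, 5}))) = 0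
  rw [show ({0, 2, 1, 3} : Finset (Fin 6)) = {0, 1, 2, 3} from by decide,
    show ({0, 2, 1, 5} : Finset (Fin 6)) = {0, 1, 2, 5} from by decide,
    show ({0, 4, 1, 3} : Finset (Fin 6)) = {0, 1, 3, 4} from by decide,
    show ({0, 4, 1, 5} : Finset (Fin 6)) = {0, 1, 4, 5} from by decide]
  linear_combination g0 + g1 + g2 - (bz (e {0, 1, 2, 4}) + bz (e {1, 2, 3, 4}) + bz (e {1, 2, 4, 5})) * zmod_two

theorem pt_0110 (he : Ev6 e) : f6 e ![false, true, false, true, true, false] id ≤ w5 e ![false, true, false, true, true, false] ![3, 4, 1, 2, 5] + w5 e ![false, true, false, true, true, false] ![0, 2, 5, 3, 4] := by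
  have hT : ({2, 3, 4, 5} : Finset (Fin 6)).filter (fun v => (![false, true, false, true, true, false] : Fin 6 → Bool) v = true) =
      {3, 4} := by decide
  have hA : ({2, 3, 4, 5} : Finset (Fin 6)).filter (fun v => (![false, true, false, true, true, false] : Fin 6 → Bool) v = false) =
      {2, 5} := by decide
  have g0 : bz (e {2, 3, 4, 5}) + (bz (e {1, 3, 4, 5}) + (bz (e {1, 2, 4, 5}) +
      (bz (e {1, 2, 3, 5}) + bz (e {1, 2, 3, 4})))) = 0 := by
    have h := he {1, 2, 3, 4, 5} (by decide)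
    rw [Finset.sum_insert (by decide), Finset.sum_insert (by decide), Finset.sum_insert (by decide),
      Finset.sum_insert (by decide), Finset.sum_singleton] at h
    exact h
  have g1 : bz (e {1, 2, 4, 5}) + (bz (e {0, 2, 4, 5}) + (bz (e {0, 1, 4, 5}) +
      (bz (e {0, 1, 2, 5}) + bz (e {0, 1, 2, 4})))) = 0 := by
    have h := he {0, 1, 2, 4, 5} (by decide)
    rw [Finset.sum_insert (by decide), Finset.sum_insert (by decide), Finset.sum_insert (by decide),
      Finset.sum_insert (by decide), Finset.sum_singleton] at h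
    exact h
  have g2 : bz (e {1, 2, 3, 5}) + (bz (e {0, 2, 3, 5}) + (bz (e {0, 1, 3, 5}) +
      (bz (e {0, 1, 2, 5}) + bz (e {0, 1, 2, 3})))) = 0 := by
    have h := he {0, 1, 2, 3, 5} (by decide)
    rw [Finset.sum_insert (by decide), Finset.sum_insert (by decide), Finset.sum_insert (by decide),
      Finset.sum_insert (by decide), Finset.sum_singleton] at h
    exact h
  have w1 : w5 e ![false, true, false, true, true, false] ![3, 4, 1, 2, 5] = if e {1, 2, 3, 4} ≠ e {1, 3, 4, 5} then 1 else 0 := by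
    unfold w5
    refine if_congr ⟨fun h => ?_, fun h => ⟨by decide, by decide, by decide, by decide, ?_⟩⟩ rfl rfl
    · have h2 := h.2.2.2.2
      rw [show ({1, 2, 3, 4} : Finset (Fin 6)) = {3, 4, 1, 2} from by decide,
        show ({1, 3, 4, 5} : Finset (Fin 6)) = {3, 4, 1, 5} from by decide]
      exact h2
    · rw [show ({1, 2, 3, 4} : Finset (Fin 6)) = {3, 4, 1, 2} from by decide,
        show ({1, 3, 4, 5} : Finset (Fin 6)) = {3, 4, 1, 5} from by decide] at h
      exact h
  have w2 : w5 e ![false, true, false, true, true, false] ![0, 2, 5, 3, 4] = if e {0, 2, 3, 5} ≠ e {0, 2, 4, 5} then 1 else 0 := by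
    unfold w5
    refine if_congr ⟨fun h => ?_, fun h => ⟨by decide, by decide, by decide, by decide, ?_⟩⟩ rfl rfl
    · have h2 := h.2.2.2.2
      rw [show ({0, 2, 3, 5} : Finset (Fin 6)) = {0, 2, 5, 3} from by decide,
        show ({0, 2, 4, 5} : Finset (Fin 6)) = {0, 2, 5, 4} from by decide]
      exact h2
    · rw [show ({0, 2, 3, 5} : Finset (Fin 6)) = {0, 2, 5, 3} from by decide,
        show ({0, 2, 4, 5} : Finset (Fin 6)) = {0, 2, 5, 4} from by decide] at h
      exact h
  rw [w1, w2, bz_ne, bz_ne]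
  unfold f6
  rw [if_pos (by decide), q2345]
  unfold erB gE girB
  rw [hT, hA]
  rw [if_neg (by decide), if_neg (by decide), if_pos (by decide)]
  rw [Finset.sum_pair (by decide), Finset.sum_pair (by decide), Finset.sum_pair (by decide)]
  apply xor4
  rw [bz_xor', bz_oddB]
  show bz (e {2, 3, 4, 5}) + (bz (e {0, 2, 1, 3}) + bz (e {0, 2, 1, 4}) +
    (bz (e {0, 5, 1, 3}) + bz (e {0, 5, 1, 4}))) + (bz (e {1, 2, 3, 4}) +
    bz (e {1, 3, 4, 5}) + (bz (e {0, 2, 3, 5}) + bz (e {0, 2, 4, 5}))) = 0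
  rw [show ({0, 2, 1, 3} : Finset (Fin 6)) = {0, 1, 2, 3} from by decide,
    show ({0, 2, 1, 4} : Finset (Fin 6)) = {0, 1, 2, 4} from by decide,
    show ({0, 5, 1, 3} : Finset (Fin 6)) = {0, 1, 3, 5} from by decide,
    show ({0, 5, 1, 4} : Finset (Fin 6)) = {0, 1, 4, 5} from by decide]
  linear_combination g0 + g1 + g2 - (bz (e {0, 1, 2, 5}) + bz (e {1, 2, 3, 5}) + bz (e {1, 2, 4, 5})) * zmod_two

theorem pt_0111 : f6 e ![false, true, false, true, true, true] id ≤ w5 e ![false, true, false, true, true, true] ![3, 4, 5, 2, 0] := by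
  have hT : ({2, 3, 4, 5} : Finset (Fin 6)).filter (fun v => (![false, true, false, true, true, true] : Fin 6 → Bool) v = true) =
      {3, 4, 5} := by decide
  have hA : ({2, 3, 4, 5} : Finset (Fin 6)).filter (fun v => (![false, true, false, true, true, true] : Fin 6 → Bool) v = false) =
      {2} := by decide
  have hi : (insert 0 {3, 4, 5} : Finset (Fin 6)) = {3, 4, 5, 0} := by decide
  have hQ : ({2, 3, 4, 5} : Finset (Fin 6)) = {3, 4, 5, 2} := by decide
  have hw : w5 e ![false, true, false, true, true, true] ![3, 4, 5, 2, 0] = if e {3, 4, 5, 2} ≠ e {3, 4, 5, 0} then 1 else 0 := by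
    unfold w5
    exact if_congr ⟨fun h => h.2.2.2.2, fun h => ⟨by decide, by decide, by decide, by decide, h⟩⟩
      rfl rfl
  rw [hw, bz_ne]
  unfold f6
  rw [if_pos (by decide), q2345]
  unfold erB gE girB
  rw [hT, hA]
  rw [if_neg (by decide), if_neg (by decide), if_neg (by decide), if_pos (by decide)]
  show ((e {2, 3, 4, 5} ^^ !!e (insert 0 {3, 4, 5})).toNat : ℤ) ≤ _
  rw [hi, hQ, Bool.not_not]

theorem pt_1000 : f6 e ![false, true, true, false, false, false] id ≤ w5 e ![false, true, true, false, false, false] ![3, 4, 5, 2, 1] := by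
  have hT : ({2, 3, 4, 5} : Finset (Fin 6)).filter (fun v => (![false, true, true, false, false, false] : Fin 6 → Bool) v = true) =
      {2} := by decide
  have hA : ({2, 3, 4, 5} : Finset (Fin 6)).filter (fun v => (![false, true, true, false, false, false] : Fin 6 → Bool) v = false) =
      {3, 4, 5} := by decide
  have hi : (insert 1 {3, 4, 5} : Finset (Fin 6)) = {3, 4, 5, 1} := by decide
  have hQ : ({2, 3, 4, 5} : Finset (Fin 6)) = {3, 4, 5, 2} := by decide
  have hw : w5 e ![false, true, true, false, false, false] ![3, 4, 5, 2, 1] = if e {3, 4, 5, 2} ≠ e {3, 4, 5, 1} then 1 else 0 := by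
    unfold w5
    exact if_congr ⟨fun h => h.2.2.2.2, fun h => ⟨by decide, by decide, by decide, by decide, h⟩⟩
      rfl rfl
  rw [hw, bz_ne]
  unfold f6
  rw [if_pos (by decide), q2345]
  unfold erB gE girB
  rw [hT, hA]
  rw [if_neg (by decide), if_pos (by decide)]
  show ((e {2, 3, 4, 5} ^^ !!e (insert 1 {3, 4, 5})).toNat : ℤ) ≤ _
  rw [hi, hQ, Bool.not_not]

theorem pt_1001 (he : Ev6 e) : f6 e ![false, true, true, false, false, true] id ≤ w5 e ![false, true, true, false, false, true] ![2, 5, 1, 3, 4] + w5 e ![false, true, true, false, false, true] ![0, 3, 4, 2, 5] := by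
  have hT : ({2, 3, 4, 5} : Finset (Fin 6)).filter (fun v => (![false, true, true, false, false, true] : Fin 6 → Bool) v = true) =
      {2, 5} := by decide
  have hA : ({2, 3, 4, 5} : Finset (Fin 6)).filter (fun v => (![false, true, true, false, false, true] : Fin 6 → Bool) v = false) =
      {3, 4} := by decide
  have g0 : bz (e {2, 3, 4, 5}) + (bz (e {1, 3, 4, 5}) + (bz (e {1, 2, 4, 5}) +
      (bz (e {1, 2, 3, 5}) + bz (e {1, 2, 3, 4})))) = 0 := by
    have h := he {1, 2, 3, 4, 5} (by decide)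
    rw [Finset.sum_insert (by decide), Finset.sum_insert (by decide), Finset.sum_insert (by decide),
      Finset.sum_insert (by decide), Finset.sum_singleton] at h
    exact h
  have g1 : bz (e {1, 3, 4, 5}) + (bz (e {0, 3, 4, 5}) + (bz (e {0, 1, 4, 5}) +
      (bz (e {0, 1, 3, 5}) + bz (e {0, 1, 3, 4})))) = 0 := by
    have h := he {0, 1, 3, 4, 5} (by decide)
    rw [Finset.sum_insert (by decide), Finset.sum_insert (by decide), Finset.sum_insert (by decide),
      Finset.sum_insert (by decide), Finset.sum_singleton] at h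
    exact h
  have g2 : bz (e {1, 2, 3, 4}) + (bz (e {0, 2, 3, 4}) + (bz (e {0, 1, 3, 4}) +
      (bz (e {0, 1, 2, 4}) + bz (e {0, 1, 2, 3})))) = 0 := by
    have h := he {0, 1, 2, 3, 4} (by decide)
    rw [Finset.sum_insert (by decide), Finset.sum_insert (by decide), Finset.sum_insert (by decide),
      Finset.sum_insert (by decide), Finset.sum_singleton] at h
    exact h
  have w1 : w5 e ![false, true, true, false, false, true] ![2, 5, 1, 3, 4] = if e {1, 2, 3, 5} ≠ e {1, 2, 4, 5} then 1 else 0 := by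
    unfold w5
    refine if_congr ⟨fun h => ?_, fun h => ⟨by decide, by decide, by decide, by decide, ?_⟩⟩ rfl rfl
    · have h2 := h.2.2.2.2
      rw [show ({1, 2, 3, 5} : Finset (Fin 6)) = {2, 5, 1, 3} from by decide,
        show ({1, 2, 4, 5} : Finset (Fin 6)) = {2, 5, 1, 4} from by decide]
      exact h2
    · rw [show ({1, 2, 3, 5} : Finset (Fin 6)) = {2, 5, 1, 3} from by decide,
        show ({1, 2, 4, 5} : Finset (Fin 6)) = {2, 5, 1, 4} from by decide] at h
      exact h
  have w2 : w5 e ![false, true, true, false, false, true] ![0, 3, 4, 2, 5] = if e {0, 2, 3, 4} ≠ e {0, 3, 4, 5} then 1 else 0 := by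
    unfold w5
    refine if_congr ⟨fun h => ?_, fun h => ⟨by decide, by decide, by decide, by decide, ?_⟩⟩ rfl rfl
    · have h2 := h.2.2.2.2
      rw [show ({0, 2, 3, 4} : Finset (Fin 6)) = {0, 3, 4, 2} from by decide,
        show ({0, 3, 4, 5} : Finset (Fin 6)) = {0, 3, 4, 5} from by decide]
      exact h2
    · rw [show ({0, 2, 3, 4} : Finset (Fin 6)) = {0, 3, 4, 2} from by decide,
        show ({0, 3, 4, 5} : Finset (Fin 6)) = {0, 3, 4, 5} from by decide] at h
      exact h
  rw [w1, w2, bz_ne, bz_ne]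
  unfold f6
  rw [if_pos (by decide), q2345]
  unfold erB gE girB
  rw [hT, hA]
  rw [if_neg (by decide), if_neg (by decide), if_pos (by decide)]
  rw [Finset.sum_pair (by decide), Finset.sum_pair (by decide), Finset.sum_pair (by decide)]
  apply xor4
  rw [bz_xor', bz_oddB]
  show bz (e {2, 3, 4, 5}) + (bz (e {0, 3, 1, 2}) + bz (e {0, 3, 1, 5}) +
    (bz (e {0, 4, 1, 2}) + bz (e {0, 4, 1, 5}))) + (bz (e {1, 2, 3, 5}) +
    bz (e {1, 2, 4, 5}) + (bz (e {0, 2, 3, 4}) + bz (e {0, 3, 4, 5}))) = 0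
  rw [show ({0, 3, 1, 2} : Finset (Fin 6)) = {0, 1, 2, 3} from by decide,
    show ({0, 3, 1, 5} : Finset (Fin 6)) = {0, 1, 3, 5} from by decide,
    show ({0, 4, 1, 2} : Finset (Fin 6)) = {0, 1, 2, 4} from by decide,
    show ({0, 4, 1, 5} : Finset (Fin 6)) = {0, 1, 4, 5} from by decide]
  linear_combination g0 + g1 + g2 - (bz (e {0, 1, 3, 4}) + bz (e {1, 2, 3, 4}) + bz (e {1, 3, 4, 5})) * zmod_two

theorem pt_1010 (he : Ev6 e) : f6 e ![false, true, true, false, true, false] id ≤ w5 e ![false, true, true, false, true, false] ![2, 4, 1, 3, 5] + w5 e ![false, true, true, false, true, false] ![0, 3, 5, 2, 4] := by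
  have hT : ({2, 3, 4, 5} : Finset (Fin 6)).filter (fun v => (![false, true, true, false, true, false] : Fin 6 → Bool) v = true) =
      {2, 4} := by decide
  have hA : ({2, 3, 4, 5} : Finset (Fin 6)).filter (fun v => (![false, true, true, false, true, false] : Fin 6 → Bool) v = false) =
      {3, 5} := by decide
  have g0 : bz (e {2, 3, 4, 5}) + (bz (e {1, 3, 4, 5}) + (bz (e {1, 2, 4, 5}) +
      (bz (e {1, 2, 3, 5}) + bz (e {1, 2, 3, 4})))) = 0 := by
    have h := he {1, 2, 3, 4, 5} (by decide)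
    rw [Finset.sum_insert (by decide), Finset.sum_insert (by decide), Finset.sum_insert (by decide),
      Finset.sum_insert (by decide), Finset.sum_singleton] at h
    exact h
  have g1 : bz (e {1, 3, 4, 5}) + (bz (e {0, 3, 4, 5}) + (bz (e {0, 1, 4, 5}) +
      (bz (e {0, 1, 3, 5}) + bz (e {0, 1, 3, 4})))) = 0 := by
    have h := he {0, 1, 3, 4, 5} (by decide)
    rw [Finset.sum_insert (by decide), Finset.sum_insert (by decide), Finset.sum_insert (by decide),
      Finset.sum_insert (by decide), Finset.sum_singleton] at h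
    exact h
  have g2 : bz (e {1, 2, 3, 5}) + (bz (e {0, 2, 3, 5}) + (bz (e {0, 1, 3, 5}) +
      (bz (e {0, 1, 2, 5}) + bz (e {0, 1, 2, 3})))) = 0 := by
    have h := he {0, 1, 2, 3, 5} (by decide)
    rw [Finset.sum_insert (by decide), Finset.sum_insert (by decide), Finset.sum_insert (by decide),
      Finset.sum_insert (by decide), Finset.sum_singleton] at h
    exact h
  have w1 : w5 e ![false, true, true, false, true, false] ![2, 4, 1, 3, 5] = if e {1, 2, 3, 4} ≠ e {1, 2, 4, 5} then 1 else 0 := by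
    unfold w5
    refine if_congr ⟨fun h => ?_, fun h => ⟨by decide, by decide, by decide, by decide, ?_⟩⟩ rfl rfl
    · have h2 := h.2.2.2.2
      rw [show ({1, 2, 3, 4} : Finset (Fin 6)) = {2, 4, 1, 3} from by decide,
        show ({1, 2, 4, 5} : Finset (Fin 6)) = {2, 4, 1, 5} from by decide]
      exact h2
    · rw [show ({1, 2, 3, 4} : Finset (Fin 6)) = {2, 4, 1, 3} from by decide,
        show ({1, 2, 4, 5} : Finset (Fin 6)) = {2, 4, 1, 5} from by decide] at h
      exact h
  have w2 : w5 e ![false, true, true, false, true, false] ![0, 3, 5, 2, 4] = if e {0, 2, 3, 5} ≠ e {0, 3, 4, 5} then 1 else 0 := by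
    unfold w5
    refine if_congr ⟨fun h => ?_, fun h => ⟨by decide, by decide, by decide, by decide, ?_⟩⟩ rfl rfl
    · have h2 := h.2.2.2.2
      rw [show ({0, 2, 3, 5} : Finset (Fin 6)) = {0, 3, 5, 2} from by decide,
        show ({0, 3, 4, 5} : Finset (Fin 6)) = {0, 3, 5, 4} from by decide]
      exact h2
    · rw [show ({0, 2, 3, 5} : Finset (Fin 6)) = {0, 3, 5, 2} from by decide,
        show ({0, 3, 4, 5} : Finset (Fin 6)) = {0, 3, 5, 4} from by decide] at h
      exact h
  rw [w1, w2, bz_ne, bz_ne]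
  unfold f6
  rw [if_pos (by decide), q2345]
  unfold erB gE girB
  rw [hT, hA]
  rw [if_neg (by decide), if_neg (by decide), if_pos (by decide)]
  rw [Finset.sum_pair (by decide), Finset.sum_pair (by decide), Finset.sum_pair (by decide)]
  apply xor4
  rw [bz_xor', bz_oddB]
  show bz (e {2, 3, 4, 5}) + (bz (e {0, 3, 1, 2}) + bz (e {0, 3, 1, 4}) +
    (bz (e {0, 5, 1, 2}) + bz (e {0, 5, 1, 4}))) + (bz (e {1, 2, 3, 4}) +
    bz (e {1, 2, 4, 5}) + (bz (e {0, 2, 3, 5}) + bz (e {0, 3, 4, 5}))) = 0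
  rw [show ({0, 3, 1, 2} : Finset (Fin 6)) = {0, 1, 2, 3} from by decide,
    show ({0, 3, 1, 4} : Finset (Fin 6)) = {0, 1, 3, 4} from by decide,
    show ({0, 5, 1, 2} : Finset (Fin 6)) = {0, 1, 2, 5} from by decide,
    show ({0, 5, 1, 4} : Finset (Fin 6)) = {0, 1, 4, 5} from by decide]
  linear_combination g0 + g1 + g2 - (bz (e {0, 1, 3, 5}) + bz (e {1, 2, 3, 5}) + bz (e {1, 3, 4, 5})) * zmod_two

theorem pt_1011 : f6 e ![false, true, true, false, true, true] id ≤ w5 e ![false, true, true, false, true, true] ![2, 4, 5, 3, 0] := by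
  have hT : ({2, 3, 4, 5} : Finset (Fin 6)).filter (fun v => (![false, true, true, false, true, true] : Fin 6 → Bool) v = true) =
      {2, 4, 5} := by decide
  have hA : ({2, 3, 4, 5} : Finset (Fin 6)).filter (fun v => (![false, true, true, false, true, true] : Fin 6 → Bool) v = false) =
      {3} := by decide
  have hi : (insert 0 {2, 4, 5} : Finset (Fin 6)) = {2, 4, 5, 0} := by decide
  have hQ : ({2, 3, 4, 5} : Finset (Fin 6)) = {2, 4, 5, 3} := by decide
  have hw : w5 e ![false, true, true, false, true, true] ![2, 4, 5, 3, 0] = if e {2, 4, 5, 3} ≠ e {2, 4, 5, 0} then 1 else 0 := by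
    unfold w5
    exact if_congr ⟨fun h => h.2.2.2.2, fun h => ⟨by decide, by decide, by decide, by decide, h⟩⟩
      rfl rfl
  rw [hw, bz_ne]
  unfold f6
  rw [if_pos (by decide), q2345]
  unfold erB gE girB
  rw [hT, hA]
  rw [if_neg (by decide), if_neg (by decide), if_neg (by decide), if_pos (by decide)]
  show ((e {2, 3, 4, 5} ^^ !!e (insert 0 {2, 4, 5})).toNat : ℤ) ≤ _
  rw [hi, hQ, Bool.not_not]

theorem pt_1100 (he : Ev6 e) : f6 e ![false, true, true, true, false, false] id ≤ w5 e ![false, true, true, true, false, false] ![2, 3, 1, 4, 5] + w5 e ![false, true, true, true, false, false] ![0, 4, 5, 2, 3] := by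
  have hT : ({2, 3, 4, 5} : Finset (Fin 6)).filter (fun v => (![false, true, true, true, false, false] : Fin 6 → Bool) v = true) =
      {2, 3} := by decide
  have hA : ({2, 3, 4, 5} : Finset (Fin 6)).filter (fun v => (![false, true, true, true, false, false] : Fin 6 → Bool) v = false) =
      {4, 5} := by decide
  have g0 : bz (e {2, 3, 4, 5}) + (bz (e {1, 3, 4, 5}) + (bz (e {1, 2, 4, 5}) +
      (bz (e {1, 2, 3, 5}) + bz (e {1, 2, 3, 4})))) = 0 := by
    have h := he {1, 2, 3, 4, 5} (by decide)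
    rw [Finset.sum_insert (by decide), Finset.sum_insert (by decide), Finset.sum_insert (by decide),
      Finset.sum_insert (by decide), Finset.sum_singleton] at h
    exact h
  have g1 : bz (e {1, 3, 4, 5}) + (bz (e {0, 3, 4, 5}) + (bz (e {0, 1, 4, 5}) +
      (bz (e {0, 1, 3, 5}) + bz (e {0, 1, 3, 4})))) = 0 := by
    have h := he {0, 1, 3, 4, 5} (by decide)
    rw [Finset.sum_insert (by decide), Finset.sum_insert (by decide), Finset.sum_insert (by decide),
      Finset.sum_insert (by decide), Finset.sum_singleton] at h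
    exact h
  have g2 : bz (e {1, 2, 4, 5}) + (bz (e {0, 2, 4, 5}) + (bz (e {0, 1, 4, 5}) +
      (bz (e {0, 1, 2, 5}) + bz (e {0, 1, 2, 4})))) = 0 := by
    have h := he {0, 1, 2, 4, 5} (by decide)
    rw [Finset.sum_insert (by decide), Finset.sum_insert (by decide), Finset.sum_insert (by decide),
      Finset.sum_insert (by decide), Finset.sum_singleton] at h
    exact h
  have w1 : w5 e ![false, true, true, true, false, false] ![2, 3, 1, 4, 5] = if e {1, 2, 3, 4} ≠ e {1, 2, 3, 5} then 1 else 0 := by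
    unfold w5
    refine if_congr ⟨fun h => ?_, fun h => ⟨by decide, by decide, by decide, by decide, ?_⟩⟩ rfl rfl
    · have h2 := h.2.2.2.2
      rw [show ({1, 2, 3, 4} : Finset (Fin 6)) = {2, 3, 1, 4} from by decide,
        show ({1, 2, 3, 5} : Finset (Fin 6)) = {2, 3, 1, 5} from by decide]
      exact h2
    · rw [show ({1, 2, 3, 4} : Finset (Fin 6)) = {2, 3, 1, 4} from by decide,
        show ({1, 2, 3, 5} : Finset (Fin 6)) = {2, 3, 1, 5} from by decide] at h
      exact h
  have w2 : w5 e ![false, true, true, true, false, false] ![0, 4, 5, 2, 3] = if e {0, 2, 4, 5} ≠ e {0, 3, 4, 5} then 1 else 0 := by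
    unfold w5
    refine if_congr ⟨fun h => ?_, fun h => ⟨by decide, by decide, by decide, by decide, ?_⟩⟩ rfl rfl
    · have h2 := h.2.2.2.2
      rw [show ({0, 2, 4, 5} : Finset (Fin 6)) = {0, 4, 5, 2} from by decide,
        show ({0, 3, 4, 5} : Finset (Fin 6)) = {0, 4, 5, 3} from by decide]
      exact h2
    · rw [show ({0, 2, 4, 5} : Finset (Fin 6)) = {0, 4, 5, 2} from by decide,
        show ({0, 3, 4, 5} : Finset (Fin 6)) = {0, 4, 5, 3} from by decide] at h
      exact h
  rw [w1, w2, bz_ne, bz_ne]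
  unfold f6
  rw [if_pos (by decide), q2345]
  unfold erB gE girB
  rw [hT, hA]
  rw [if_neg (by decide), if_neg (by decide), if_pos (by decide)]
  rw [Finset.sum_pair (by decide), Finset.sum_pair (by decide), Finset.sum_pair (by decide)]
  apply xor4
  rw [bz_xor', bz_oddB]
  show bz (e {2, 3, 4, 5}) + (bz (e {0, 4, 1, 2}) + bz (e {0, 4, 1, 3}) +
    (bz (e {0, 5, 1, 2}) + bz (e {0, 5, 1, 3}))) + (bz (e {1, 2, 3, 4}) +
    bz (e {1, 2, 3, 5}) + (bz (e {0, 2, 4, 5}) + bz (e {0, 3, 4, 5}))) = 0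
  rw [show ({0, 4, 1, 2} : Finset (Fin 6)) = {0, 1, 2, 4} from by decide,
    show ({0, 4, 1, 3} : Finset (Fin 6)) = {0, 1, 3, 4} from by decide,
    show ({0, 5, 1, 2} : Finset (Fin 6)) = {0, 1, 2, 5} from by decide,
    show ({0, 5, 1, 3} : Finset (Fin 6)) = {0, 1, 3, 5} from by decide]
  linear_combination g0 + g1 + g2 - (bz (e {0, 1, 4, 5}) + bz (e {1, 2, 4, 5}) + bz (e {1, 3, 4, 5})) * zmod_two

theorem pt_1101 : f6 e ![false, true, true, true, false, true] id ≤ w5 e ![false, true, true, true, false, true] ![2, 3, 5, 4, 0] := by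
  have hT : ({2, 3, 4, 5} : Finset (Fin 6)).filter (fun v => (![false, true, true, true, false, true] : Fin 6 → Bool) v = true) =
      {2, 3, 5} := by decide
  have hA : ({2, 3, 4, 5} : Finset (Fin 6)).filter (fun v => (![false, true, true, true, false, true] : Fin 6 → Bool) v = false) =
      {4} := by decide
  have hi : (insert 0 {2, 3, 5} : Finset (Fin 6)) = {2, 3, 5, 0} := by decide
  have hQ : ({2, 3, 4, 5} : Finset (Fin 6)) = {2, 3, 5, 4} := by decide
  have hw : w5 e ![false, true, true, true, false, true] ![2, 3, 5, 4, 0] = if e {2, 3, 5, 4} ≠ e {2, 3, 5, 0} then 1 else 0 := by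
    unfold w5
    exact if_congr ⟨fun h => h.2.2.2.2, fun h => ⟨by decide, by decide, by decide, by decide, h⟩⟩
      rfl rfl
  rw [hw, bz_ne]
  unfold f6
  rw [if_pos (by decide), q2345]
  unfold erB gE girB
  rw [hT, hA]
  rw [if_neg (by decide), if_neg (by decide), if_neg (by decide), if_pos (by decide)]
  show ((e {2, 3, 4, 5} ^^ !!e (insert 0 {2, 3, 5})).toNat : ℤ) ≤ _
  rw [hi, hQ, Bool.not_not]

theorem pt_1110 : f6 e ![false, true, true, true, true, false] id ≤ w5 e ![false, true, true, true, true, false] ![2, 3, 4, 5, 0] := by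
  have hT : ({2, 3, 4, 5} : Finset (Fin 6)).filter (fun v => (![false, true, true, true, true, false] : Fin 6 → Bool) v = true) =
      {2, 3, 4} := by decide
  have hA : ({2, 3, 4, 5} : Finset (Fin 6)).filter (fun v => (![false, true, true, true, true, false] : Fin 6 → Bool) v = false) =
      {5} := by decide
  have hi : (insert 0 {2, 3, 4} : Finset (Fin 6)) = {2, 3, 4, 0} := by decide
  have hQ : ({2, 3, 4, 5} : Finset (Fin 6)) = {2, 3, 4, 5} := by decide
  have hw : w5 e ![false, true, true, true, true, false] ![2, 3, 4, 5, 0] = if e {2, 3, 4, 5} ≠ e {2, 3, 4, 0} then 1 else 0 := by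
    unfold w5
    exact if_congr ⟨fun h => h.2.2.2.2, fun h => ⟨by decide, by decide, by decide, by decide, h⟩⟩
      rfl rfl
  rw [hw, bz_ne]
  unfold f6
  rw [if_pos (by decide), q2345]
  unfold erB gE girB
  rw [hT, hA]
  rw [if_neg (by decide), if_neg (by decide), if_neg (by decide), if_pos (by decide)]
  show ((e {2, 3, 4, 5} ^^ !!e (insert 0 {2, 3, 4})).toNat : ℤ) ≤ _
  rw [hi, hQ, Bool.not_not]

theorem pt_1111 (he : Ev6 e) : f6 e ![false, true, true, true, true, true] id ≤ 0 := by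
  have hT : ({2, 3, 4, 5} : Finset (Fin 6)).filter (fun v => (![false, true, true, true, true, true] : Fin 6 → Bool) v = true) =
      {2, 3, 4, 5} := by decide
  have h := he {0, 2, 3, 4, 5} (by decide)
  rw [show ({0, 2, 3, 4, 5} : Finset (Fin 6)) = {0, 2, 3, 4, 5} from by decide,
    Finset.sum_insert (by decide)] at h
  have h0 : (({0, 2, 3, 4, 5} : Finset (Fin 6)).erase 0) = {2, 3, 4, 5} := by decide
  have hs : ∑ x ∈ ({2, 3, 4, 5} : Finset (Fin 6)),
      bz (e (({0, 2, 3, 4, 5} : Finset (Fin 6)).erase x)) =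
      ∑ x ∈ ({2, 3, 4, 5} : Finset (Fin 6)), bz (!e (insert 0 (({2, 3, 4, 5} : Finset (Fin 6)).erase x))) := by
    have h1 : ∀ x ∈ ({2, 3, 4, 5} : Finset (Fin 6)),
        bz (e (({0, 2, 3, 4, 5} : Finset (Fin 6)).erase x)) =
        bz (!e (insert 0 (({2, 3, 4, 5} : Finset (Fin 6)).erase x))) + 1 := by
      intro x hx
      have h2 : (({0, 2, 3, 4, 5} : Finset (Fin 6)).erase x) =
          insert 0 (({2, 3, 4, 5} : Finset (Fin 6)).erase x) := by
        revert x
        decide
      rw [h2]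
      cases e (insert 0 (({2, 3, 4, 5} : Finset (Fin 6)).erase x)) <;> decide
    rw [Finset.sum_congr rfl h1, Finset.sum_add_distrib, Finset.sum_const]
    have h3 : (({2, 3, 4, 5} : Finset (Fin 6)).card • (1 : ZMod 2)) = 0 := by decide
    rw [h3, add_zero]
  rw [h0, hs] at h
  unfold f6
  rw [if_pos (by decide), q2345]
  unfold erB gE girB
  rw [hT]
  rw [if_neg (by decide), if_neg (by decide), if_neg (by decide), if_neg (by decide)]
  have h4 : bz (e {2, 3, 4, 5} ^^ oddB (∑ x ∈ ({2, 3, 4, 5} : Finset (Fin 6)),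
      bz (!e (insert 0 (({2, 3, 4, 5} : Finset (Fin 6)).erase x))))) = 0 := by
    rw [bz_xor', bz_oddB]
    exact h
  have h5 := bz_false h4
  show ((e {2, 3, 4, 5} ^^ oddB (∑ x ∈ ({2, 3, 4, 5} : Finset (Fin 6)),
    bz (!e (insert 0 (({2, 3, 4, 5} : Finset (Fin 6)).erase x))))).toNat : ℤ) ≤ 0
  rw [h5]
  rfl

end win

/-- The five-tuples with a triple and one vertex of the quadruple, and the second root. -/
def iA : Fin 4 → Fin 5 → Fin 6 := ![![3, 4, 5, 2, 1], ![2, 4, 5, 3, 1], ![2, 3, 5, 4, 1], ![2, 3, 4, 5, 1]]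

/-- The five-tuples with a triple and one vertex of the quadruple, and the first root. -/
def iB : Fin 4 → Fin 5 → Fin 6 := ![![3, 4, 5, 2, 0], ![2, 4, 5, 3, 0], ![2, 3, 5, 4, 0], ![2, 3, 4, 5, 0]]

/-- The five-tuples with the second root in the triple. -/
def iC : Fin 6 → Fin 5 → Fin 6 := ![![4, 5, 1, 2, 3], ![3, 5, 1, 2, 4], ![3, 4, 1, 2, 5], ![2, 5, 1, 3, 4], ![2, 4, 1, 3, 5], ![2, 3, 1, 4, 5]]

/-- The five-tuples with the first root in the triple. -/
def iD : Fin 6 → Fin 5 → Fin 6 := ![![0, 2, 3, 4, 5], ![0, 2, 4, 3, 5], ![0, 2, 5, 3, 4], ![0, 3, 4, 2, 5], ![0, 3, 5, 2, 4], ![0, 4, 5, 2, 3]]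

/-- The errors are bounded by the defects. -/
theorem f6_win (e : Finset (Fin 6) → Bool) (he : Ev6 e) (c : Fin 6 → Bool) (h0 : c 0 = false)
    (h1 : c 1 = true) : f6 e c id ≤ ∑ i : Fin 4, (w5 e c (iA i) + w5 e c (iB i)) +
      ∑ j : Fin 6, (w5 e c (iC j) + w5 e c (iD j)) := by
  have hc : c = ![false, true, c 2, c 3, c 4, c 5] := by
    funext x
    fin_cases x
    · exact h0
    · exact h1
    all_goals rfl
  rw [hc]
  generalize c 2 = c2
  generalize c 3 = c3
  generalize c 4 = c4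
  generalize c 5 = c5
  have hw : ∀ (c : Fin 6 → Bool) q, 0 ≤ w5 e c q := fun c q => w5_nonneg e c q
  have hz : ∀ c : Fin 6 → Bool, 0 ≤ ∑ i : Fin 4, (w5 e c (iA i) + w5 e c (iB i)) +
      ∑ j : Fin 6, (w5 e c (iC j) + w5 e c (iD j)) := fun c =>
    add_nonneg (Finset.sum_nonneg fun _ _ => add_nonneg (hw _ _) (hw _ _))
      (Finset.sum_nonneg fun _ _ => add_nonneg (hw _ _) (hw _ _))
  have hA : ∀ (c : Fin 6 → Bool) (i : Fin 4), w5 e c (iA i) ≤
      ∑ i : Fin 4, (w5 e c (iA i) + w5 e c (iB i)) +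
      ∑ j : Fin 6, (w5 e c (iC j) + w5 e c (iD j)) := by
    intro c i
    have h1 := Finset.single_le_sum (f := fun i => w5 e c (iA i) + w5 e c (iB i))
      (fun _ _ => add_nonneg (hw _ _) (hw _ _)) (Finset.mem_univ i)
    have h2 : 0 ≤ ∑ j : Fin 6, (w5 e c (iC j) + w5 e c (iD j)) :=
      Finset.sum_nonneg fun _ _ => add_nonneg (hw _ _) (hw _ _)
    have h3 := hw c (iB i)
    linarith
  have hB : ∀ (c : Fin 6 → Bool) (i : Fin 4), w5 e c (iB i) ≤
      ∑ i : Fin 4, (w5 e c (iA i) + w5 e c (iB i)) +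
      ∑ j : Fin 6, (w5 e c (iC j) + w5 e c (iD j)) := by
    intro c i
    have h1 := Finset.single_le_sum (f := fun i => w5 e c (iA i) + w5 e c (iB i))
      (fun _ _ => add_nonneg (hw _ _) (hw _ _)) (Finset.mem_univ i)
    have h2 : 0 ≤ ∑ j : Fin 6, (w5 e c (iC j) + w5 e c (iD j)) :=
      Finset.sum_nonneg fun _ _ => add_nonneg (hw _ _) (hw _ _)
    have h3 := hw c (iA i)
    linarith
  have hC : ∀ (c : Fin 6 → Bool) (j : Fin 6), w5 e c (iC j) + w5 e c (iD j) ≤
      ∑ i : Fin 4, (w5 e c (iA i) + w5 e c (iB i)) +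
      ∑ j : Fin 6, (w5 e c (iC j) + w5 e c (iD j)) := by
    intro c j
    have h1 := Finset.single_le_sum (f := fun j => w5 e c (iC j) + w5 e c (iD j))
      (fun _ _ => add_nonneg (hw _ _) (hw _ _)) (Finset.mem_univ j)
    have h2 : 0 ≤ ∑ i : Fin 4, (w5 e c (iA i) + w5 e c (iB i)) :=
      Finset.sum_nonneg fun _ _ => add_nonneg (hw _ _) (hw _ _)
    linarith
  match c2, c3, c4, c5 with
  | false, false, false, false => exact le_trans (pt_0000 e he) (hz _)
  | false, false, false, true => exact le_trans (pt_0001 e) (hA _ 3)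
  | false, false, true, false => exact le_trans (pt_0010 e) (hA _ 2)
  | false, false, true, true => exact le_trans (pt_0011 e he) (hC _ 0)
  | false, true, false, false => exact le_trans (pt_0100 e) (hA _ 1)
  | false, true, false, true => exact le_trans (pt_0101 e he) (hC _ 1)
  | false, true, true, false => exact le_trans (pt_0110 e he) (hC _ 2)
  | false, true, true, true => exact le_trans (pt_0111 e) (hB _ 0)
  | true, false, false, false => exact le_trans (pt_1000 e) (hA _ 0)
  | true, false, false, true => exact le_trans (pt_1001 e he) (hC _ 3)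
  | true, false, true, false => exact le_trans (pt_1010 e he) (hC _ 4)
  | true, false, true, true => exact le_trans (pt_1011 e) (hB _ 1)
  | true, true, false, false => exact le_trans (pt_1100 e he) (hC _ 5)
  | true, true, false, true => exact le_trans (pt_1101 e) (hB _ 2)
  | true, true, true, false => exact le_trans (pt_1110 e) (hB _ 3)
  | true, true, true, true => exact le_trans (pt_1111 e he) (hz _)

/-! ### The sums -/

section sums
variable {n : ℕ}

theorem ev6_of_even (E : Finset (Finset (Fin n))) (hE : EvenH n E) (p : Fin 6 → Fin n)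
    (hp : Function.Injective p) : Ev6 (zb E p) := by
  intro S hS
  have h := evT_of_evenH E hE p hp S hS
  unfold dl at h
  rw [← h]
  exact Finset.sum_congr rfl fun x _ => (zt_eq E p (S.erase x)).symm

/-- The errors at a tuple are bounded by the defects. -/
theorem f6_tuple (E : Finset (Finset (Fin n))) (hE : EvenH n E) (χ : Fin n → Bool)
    (p : Fin 6 → Fin n) (hp : Function.Injective p) :
    f6 (mE E) χ p ≤ (if χ (p 0) = false ∧ χ (p 1) = true then
      ∑ i : Fin 4, (w5 (mE E) χ (p ∘ iA i) + w5 (mE E) χ (p ∘ iB i)) +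
      ∑ j : Fin 6, (w5 (mE E) χ (p ∘ iC j) + w5 (mE E) χ (p ∘ iD j)) else 0) := by
  by_cases h : χ (p 0) = false ∧ χ (p 1) = true
  · rw [if_pos h]
    have h1 := f6_win (zb E p) (ev6_of_even E hE p hp) (fun i => χ (p i)) h.1 h.2
    have h2 : f6 (zb E p) (fun i => χ (p i)) id = f6 (mE E) χ p := by
      rw [zb_eq]
      exact f6_comp (mE E) χ p hp id
    rw [h2] at h1
    simp only [w5_comp] at h1
    exact h1
  · rw [if_neg h]
    unfold f6
    rw [if_neg h]

/-- A sum with one free vertex. -/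
theorem sum_free (z : Fin 6) (j : Fin 5 → Fin 6) (hj : Function.Injective j)
    (hz : ∀ a : Fin 6, a = z ∨ ∃ i, j i = a) (a : Fin n → ℝ) (ha : ∀ x, 0 ≤ a x)
    (G : (Fin 5 → Fin n) → ℝ) (hG : ∀ q, 0 ≤ G q) :
    ∑ p ∈ inj (Fin n) 6, a (p z) * G (p ∘ j) ≤ (∑ x, a x) * ∑ q ∈ inj (Fin n) 5, G q := by
  classical
  rw [Finset.sum_mul_sum, ← Finset.sum_product']
  have h1 : ∑ p ∈ inj (Fin n) 6, a (p z) * G (p ∘ j) =
      ∑ y ∈ (inj (Fin n) 6).image (fun p => (p z, p ∘ j)), a y.1 * G y.2 := by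
    rw [Finset.sum_image]
    intro p _ p' _ h
    have h1 : p z = p' z := congrArg Prod.fst h
    have h2 : p ∘ j = p' ∘ j := congrArg Prod.snd h
    funext b
    rcases hz b with hb | ⟨i, hi⟩
    · rw [hb]; exact h1
    · rw [← hi]; exact congrFun h2 i
  rw [h1]
  refine Finset.sum_le_sum_of_subset_of_nonneg ?_ fun y _ _ => mul_nonneg (ha _) (hG _)
  intro y hy
  obtain ⟨p, hp, rfl⟩ := Finset.mem_image.mp hy
  rw [Finset.mem_product]
  exact ⟨Finset.mem_univ _, mem_inj.mpr ((mem_inj.mp hp).comp hj)⟩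

/-- The defects with a given colour of the triple. -/
noncomputable def Dz (E : Finset (Finset (Fin n))) (χ : Fin n → Bool) (z : Bool) : ℝ :=
  ∑ q ∈ inj (Fin n) 5, (if χ (q 0) = z then ((w5 (mE E) χ q : ℤ) : ℝ) else 0)

theorem Dz_nonneg (E : Finset (Finset (Fin n))) (χ : Fin n → Bool) (z : Bool) :
    0 ≤ Dz E χ z := by
  refine Finset.sum_nonneg fun q _ => ?_
  have := w5_nonneg (mE E) χ q
  split_ifs
  · exact_mod_cast this
  · exact le_rfl

theorem Dz_add (E : Finset (Finset (Fin n))) (χ : Fin n → Bool) :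
    Dz E χ false + Dz E χ true = ((XW5 (mE E) χ : ℤ) : ℝ) := by
  unfold Dz XW5
  rw [← Finset.sum_add_distrib, Int.cast_sum]
  refine Finset.sum_congr rfl fun q _ => ?_
  cases χ (q 0) <;> simp

theorem w5_ne {E : Finset (Finset (Fin n))} {χ : Fin n → Bool} {q : Fin 5 → Fin n}
    (h : w5 (mE E) χ q ≠ 0) : χ (q 0) = χ (q 1) ∧ χ (q 1) = χ (q 2) ∧ χ (q 3) = χ (q 4) ∧
      χ (q 0) ≠ χ (q 3) := by
  unfold w5 at h
  by_contra hc
  apply h
  rw [if_neg]
  intro h2
  exact hc ⟨h2.1, h2.2.1, h2.2.2.1, h2.2.2.2.1⟩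

theorem sum_col (χ : Fin n → Bool) (z : Bool) :
    ∑ x, (if χ x = z then (1 : ℝ) else 0) = nc χ z := by
  rw [Finset.sum_boole]
  rfl

/-- The terms of the sum. -/
theorem sum_term (E : Finset (Finset (Fin n))) (χ : Fin n → Bool) (z : Fin 6) (zc tc : Bool)
    (j : Fin 5 → Fin 6) (hj : Function.Injective j) (hz : ∀ a : Fin 6, a = z ∨ ∃ i, j i = a)
    (hc : ∀ p : Fin 6 → Fin n, χ (p 0) = false ∧ χ (p 1) = true → w5 (mE E) χ (p ∘ j) ≠ 0 →
      χ (p z) = zc ∧ χ ((p ∘ j) 0) = tc) :
    ∑ p ∈ inj (Fin n) 6, (if χ (p 0) = false ∧ χ (p 1) = true then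
      ((w5 (mE E) χ (p ∘ j) : ℤ) : ℝ) else 0) ≤ nc χ zc * Dz E χ tc := by
  rw [← sum_col χ zc]
  refine le_trans ?_ (sum_free z j hj hz (fun x => if χ x = zc then (1 : ℝ) else 0)
    (fun x => by split_ifs <;> norm_num)
    (fun q => if χ (q 0) = tc then ((w5 (mE E) χ q : ℤ) : ℝ) else 0) fun q => by
      have := w5_nonneg (mE E) χ q
      split_ifs
      · exact_mod_cast this
      · exact le_rfl)
  refine Finset.sum_le_sum fun p _ => ?_
  have h0 : (0 : ℝ) ≤ ((w5 (mE E) χ (p ∘ j) : ℤ) : ℝ) := by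
    exact_mod_cast w5_nonneg (mE E) χ (p ∘ j)
  by_cases h1 : χ (p 0) = false ∧ χ (p 1) = true
  · rw [if_pos h1]
    by_cases h2 : w5 (mE E) χ (p ∘ j) = 0
    · rw [h2]
      split_ifs <;> simp
    · obtain ⟨h3, h4⟩ := hc p h1 h2
      rw [if_pos h3, if_pos h4, one_mul]
  · rw [if_neg h1]
    refine mul_nonneg ?_ ?_
    · split_ifs <;> norm_num
    · split_ifs
      · exact h0
      · exact le_rfl

theorem kiA : ∀ i : Fin 4, iA i 4 = 1 := by decide
theorem kiB : ∀ i : Fin 4, iB i 4 = 0 := by decide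
theorem kiC : ∀ i : Fin 6, iC i 2 = 1 := by decide
theorem kiD : ∀ i : Fin 6, iD i 0 = 0 := by decide

theorem bool_ne {a b c : Bool} (h : a ≠ b) (hb : b = c) : a = !c := by
  revert a b c
  decide

/-- The number of errors is bounded by the number of defects. -/
theorem S6_le_XW5 (E : Finset (Finset (Fin n))) (hE : EvenH n E) (χ : Fin n → Bool) :
    24 * ((S6 (mE E) χ : ℤ) : ℝ) ≤
      (5 * (n : ℝ) + |(nc χ false : ℝ) - nc χ true|) * ((XW5 (mE E) χ : ℤ) : ℝ) := by
  have hA : ∀ i : Fin 4, ∑ p ∈ inj (Fin n) 6, (if χ (p 0) = false ∧ χ (p 1) = true then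
      ((w5 (mE E) χ (p ∘ iA i) : ℤ) : ℝ) else 0) ≤ nc χ false * Dz E χ false := by
    intro i
    refine sum_term E χ 0 false false (iA i) (by revert i; decide) (by revert i; decide)
      fun p hp hw => ⟨hp.1, ?_⟩
    obtain ⟨_, _, h3, h4⟩ := w5_ne hw
    have h5 : (p ∘ iA i) 4 = p 1 := congrArg p (kiA i)
    exact bool_ne h4 (h3.trans ((congrArg χ h5).trans hp.2))
  have hB : ∀ i : Fin 4, ∑ p ∈ inj (Fin n) 6, (if χ (p 0) = false ∧ χ (p 1) = true then
      ((w5 (mE E) χ (p ∘ iB i) : ℤ) : ℝ) else 0) ≤ nc χ true * Dz E χ true := by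
    intro i
    refine sum_term E χ 1 true true (iB i) (by revert i; decide) (by revert i; decide)
      fun p hp hw => ⟨hp.2, ?_⟩
    obtain ⟨_, _, h3, h4⟩ := w5_ne hw
    have h5 : (p ∘ iB i) 4 = p 0 := congrArg p (kiB i)
    exact bool_ne h4 (h3.trans ((congrArg χ h5).trans hp.1))
  have hC : ∀ i : Fin 6, ∑ p ∈ inj (Fin n) 6, (if χ (p 0) = false ∧ χ (p 1) = true then
      ((w5 (mE E) χ (p ∘ iC i) : ℤ) : ℝ) else 0) ≤ nc χ false * Dz E χ true := by
    intro i
    refine sum_term E χ 0 false true (iC i) (by revert i; decide) (by revert i; decide)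
      fun p hp hw => ⟨hp.1, ?_⟩
    obtain ⟨h1, h2, _, _⟩ := w5_ne hw
    have h5 : (p ∘ iC i) 2 = p 1 := congrArg p (kiC i)
    exact (h1.trans h2).trans ((congrArg χ h5).trans hp.2)
  have hD : ∀ i : Fin 6, ∑ p ∈ inj (Fin n) 6, (if χ (p 0) = false ∧ χ (p 1) = true then
      ((w5 (mE E) χ (p ∘ iD i) : ℤ) : ℝ) else 0) ≤ nc χ true * Dz E χ false := by
    intro i
    refine sum_term E χ 1 true false (iD i) (by revert i; decide) (by revert i; decide)
      fun p hp _ => ⟨hp.2, ?_⟩
    have h5 : (p ∘ iD i) 0 = p 0 := congrArg p (kiD i)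
    exact (congrArg χ h5).trans hp.1
  have h1 : 24 * ((S6 (mE E) χ : ℤ) : ℝ) ≤
      ∑ i : Fin 4, ((nc χ false : ℝ) * Dz E χ false + nc χ true * Dz E χ true) +
      ∑ i : Fin 6, ((nc χ false : ℝ) * Dz E χ true + nc χ true * Dz E χ false) := by
    rw [← sum6_inj]
    have h2 : ∀ p ∈ inj (Fin n) 6, ((f6 (mE E) χ p : ℤ) : ℝ) ≤
        ∑ i : Fin 4, ((if χ (p 0) = false ∧ χ (p 1) = true then
          ((w5 (mE E) χ (p ∘ iA i) : ℤ) : ℝ) else 0) +
          (if χ (p 0) = false ∧ χ (p 1) = true then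
          ((w5 (mE E) χ (p ∘ iB i) : ℤ) : ℝ) else 0)) +
        ∑ j : Fin 6, ((if χ (p 0) = false ∧ χ (p 1) = true then
          ((w5 (mE E) χ (p ∘ iC j) : ℤ) : ℝ) else 0) +
          (if χ (p 0) = false ∧ χ (p 1) = true then
          ((w5 (mE E) χ (p ∘ iD j) : ℤ) : ℝ) else 0)) := by
      intro p hp
      have h3 := f6_tuple E hE χ p (mem_inj.mp hp)
      have h4 : ((f6 (mE E) χ p : ℤ) : ℝ) ≤
          (((if χ (p 0) = false ∧ χ (p 1) = true then
      ∑ i : Fin 4, (w5 (mE E) χ (p ∘ iA i) + w5 (mE E) χ (p ∘ iB i)) +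
      ∑ j : Fin 6, (w5 (mE E) χ (p ∘ iC j) + w5 (mE E) χ (p ∘ iD j)) else 0) : ℤ) : ℝ) := by
        exact_mod_cast h3
      refine le_trans h4 (le_of_eq ?_)
      by_cases hc : χ (p 0) = false ∧ χ (p 1) = true
      · simp only [if_pos hc]
        push_cast
        rfl
      · simp only [if_neg hc]
        simp
    refine le_trans (Finset.sum_le_sum h2) ?_
    rw [Finset.sum_add_distrib, Finset.sum_comm, Finset.sum_comm (t := (univ : Finset (Fin 6)))]
    refine add_le_add (Finset.sum_le_sum fun i _ => ?_) (Finset.sum_le_sum fun i _ => ?_)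
    · rw [Finset.sum_add_distrib]
      exact add_le_add (hA i) (hB i)
    · rw [Finset.sum_add_distrib]
      exact add_le_add (hC i) (hD i)
  rw [Finset.sum_const, Finset.sum_const, Finset.card_univ, Finset.card_univ, Fintype.card_fin,
    Fintype.card_fin, nsmul_eq_mul, nsmul_eq_mul] at h1
  push_cast at h1
  have h2 := Dz_nonneg E χ false
  have h3 := Dz_nonneg E χ true
  rw [← Dz_add]
  have h4 : (nc χ false : ℝ) + nc χ true = n := by exact_mod_cast nc_add χ
  set a : ℝ := (nc χ false : ℝ)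
  set b : ℝ := (nc χ true : ℝ)
  have h5 : 4 * a + 6 * b ≤ 5 * (n : ℝ) + |a - b| := by
    have := neg_abs_le (a - b)
    linarith
  have h6 : 4 * b + 6 * a ≤ 5 * (n : ℝ) + |a - b| := by
    have := le_abs_self (a - b)
    linarith
  have h7 := mul_le_mul_of_nonneg_right h5 h2
  have h8 := mul_le_mul_of_nonneg_right h6 h3
  linarith

/-- The closest reference structure with the given colours. -/
theorem exists_near (E : Finset (Finset (Fin n))) (h4 : ∀ e ∈ E, e.card = 4)
    (χ : Fin n → Bool) (hn : 1 ≤ n) : ∃ M f g,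
    (1 - sg2 χ) * X4 E (gir χ M f g) ≤ 96 * ((S6 (mE E) χ : ℤ) : ℝ) / (n : ℝ) ^ 6 + 8 / n := by
  obtain ⟨z, _, hz⟩ := Finset.exists_min_image (univ : Finset ((Fin n → Fin n → Bool) ×
    (Finset (Fin n) → Bool) × (Finset (Fin n) → Bool)))
    (fun z => (symmDiff E (gir χ z.1 z.2.1 z.2.2)).card) ⟨⟨fun _ _ => false, fun _ => false,
      fun _ => false⟩, Finset.mem_univ _⟩
  refine ⟨z.1, z.2.1, z.2.2, ?_⟩
  set X : ℝ := ((symmDiff E (gir χ z.1 z.2.1 z.2.2)).card : ℝ) with hX
  have hmin : ∀ M f g, X ≤ ((symmDiff E (gir χ M f g)).card : ℝ) := by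
    intro M f g
    rw [hX]
    exact_mod_cast hz (M, f, g) (Finset.mem_univ _)
  have h1 := S6_ge E h4 χ X hmin
  have hn0 : (0 : ℝ) < n := by exact_mod_cast hn
  set a : ℝ := (nc χ false : ℝ) with ha
  set b : ℝ := (nc χ true : ℝ) with hb
  have ha0 : 0 ≤ a := Nat.cast_nonneg _
  have hb0 : 0 ≤ b := Nat.cast_nonneg _
  have hab : a + b = n := by
    rw [ha, hb]
    exact_mod_cast nc_add χ
  have hs : sg2 χ = (a - b) ^ 2 / (n : ℝ) ^ 2 := by
    unfold sg2
    rw [div_pow]
  have hX4 : X4 E (gir χ z.1 z.2.1 z.2.2) = 24 * X / (n : ℝ) ^ 4 := rfl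
  have h4ab : 1 - (a - b) ^ 2 / (n : ℝ) ^ 2 = 4 * (a * b) / (n : ℝ) ^ 2 := by
    have h5 : (n : ℝ) ^ 2 ≠ 0 := by positivity
    rw [eq_div_iff h5, sub_mul, div_mul_cancel₀ _ h5, ← hab]
    ring
  rw [hs, hX4, h4ab]
  have e1 : 4 * (a * b) / (n : ℝ) ^ 2 * (24 * X / (n : ℝ) ^ 4) =
      96 * (a * b * X) / (n : ℝ) ^ 6 := by
    field_simp
    ring
  rw [e1]
  have h5 : a * b ≤ (n : ℝ) ^ 2 / 4 := by
    rw [← hab]
    nlinarith [sq_nonneg (a - b)]
  have h6 : a * b * X ≤ ((S6 (mE E) χ : ℤ) : ℝ) + (n : ℝ) ^ 5 / 12 := by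
    have h7 : a * b * ((n : ℝ) ^ 3 / 3) ≤ (n : ℝ) ^ 2 / 4 * ((n : ℝ) ^ 3 / 3) :=
      mul_le_mul_of_nonneg_right h5 (by positivity)
    have h8 : (n : ℝ) ^ 2 / 4 * ((n : ℝ) ^ 3 / 3) = (n : ℝ) ^ 5 / 12 := by ring
    rw [h8] at h7
    have h9 : a * b * (X - (n : ℝ) ^ 3 / 3) = a * b * X - a * b * ((n : ℝ) ^ 3 / 3) := by ring
    rw [h9] at h1
    linarith
  have e2 : 96 * ((S6 (mE E) χ : ℤ) : ℝ) / (n : ℝ) ^ 6 + 8 / n =
      96 * (((S6 (mE E) χ : ℤ) : ℝ) + (n : ℝ) ^ 5 / 12) / (n : ℝ) ^ 6 := by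
    field_simp
    ring
  rw [e2]
  exact div_le_div_of_nonneg_right (by linarith) (by positivity)

/-- The closest reference structure and the defects. -/
theorem exists_near_XW (E : Finset (Finset (Fin n))) (h4 : ∀ e ∈ E, e.card = 4)
    (hE : EvenH n E) (χ : Fin n → Bool) (hn : 1 ≤ n) : ∃ M f g,
    (1 - sg2 χ) * X4 E (gir χ M f g) ≤
      (5 + |(nc χ false : ℝ) - nc χ true| / n) * XW E χ + 8 / n := by
  obtain ⟨M, f, g, h⟩ := exists_near E h4 χ hn
  refine ⟨M, f, g, le_trans h ?_⟩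
  have hn0 : (0 : ℝ) < n := by exact_mod_cast hn
  have h1 := S6_le_XW5 E hE χ
  have e1 : (5 + |(nc χ false : ℝ) - nc χ true| / n) * XW E χ =
      4 * ((5 * (n : ℝ) + |(nc χ false : ℝ) - nc χ true|) * ((XW5 (mE E) χ : ℤ) : ℝ)) /
        (n : ℝ) ^ 6 := by
    unfold XW
    field_simp
  rw [e1]
  have h2 : 96 * ((S6 (mE E) χ : ℤ) : ℝ) / (n : ℝ) ^ 6 ≤
      4 * ((5 * (n : ℝ) + |(nc χ false : ℝ) - nc χ true|) * ((XW5 (mE E) χ : ℤ) : ℝ)) /
        (n : ℝ) ^ 6 := div_le_div_of_nonneg_right (by linarith) (by positivity)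
  linarith

end sums

end Pool.Agent.Lib.MP_afdd4d_co.K9.Star.Tw
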