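import Pool.Agent.Lib.MP_afdd4d_co.K9.TwDef

/-!
# The cost of an even 4-graph

The cost of an even 4-graph with respect to a 4-graph counts the quadruples of the 4-graph that are
not in the even 4-graph and the quadruples of the even 4-graph that are not in the 4-graph, with two
weights. The sum of the costs of the even 4-graphs of all vertices is a sum over the odd 5-sets.
-/

namespace Pool.Agent.Lib.MP_afdd4d_co.K9.Star.Tw

open Finset K8
open Pool.Agent.Lib.MP_afdd4d_co.K9.Marks

/-- The cost of a quadruple: `wp` if it is only in the 4-graph, `wm` if it is only in the even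
4-graph. -/
def wc (wp wm : ℕ) (x y : Bool) : ℤ :=
  if x = true then (if y = true then 0 else wp) else (if y = true then wm else 0)

theorem wc_nonneg (wp wm : ℕ) (x y : Bool) : 0 ≤ wc wp wm x y := by
  unfold wc
  cases x <;> cases y <;> simp

theorem wc_le (wp wm : ℕ) (x y : Bool) : wc wp wm x y ≤ wp + wm := by
  unfold wc
  cases x <;> cases y <;> simp <;> omega

/-- The change of the cost of a quadruple. -/
def dw (wp wm : ℕ) (x y : Bool) : ℤ :=
  if x = true then (if y = true then (wp : ℤ) else -wp) else (if y = true then -(wm : ℤ) else wm)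

theorem dw_eq (wp wm : ℕ) (x y : Bool) : wc wp wm x (!y) - wc wp wm x y = dw wp wm x y := by
  unfold wc dw
  cases x <;> cases y <;> simp

theorem dw_le (wp wm : ℕ) (x y : Bool) : dw wp wm x y ≤ wp + wm := by
  unfold dw
  cases x <;> cases y <;> simp <;> omega

theorem dw_ge (wp wm : ℕ) (x y : Bool) : -(wp + wm : ℤ) ≤ dw wp wm x y := by
  unfold dw
  cases x <;> cases y <;> simp <;> omega

theorem dw_one (x y : Bool) : dw 1 1 x y = 1 - 2 * ((x ^^ y).toNat : ℤ) := by
  cases x <;> cases y <;> rfl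

/-! ### The even 4-graphs of the vertices -/

section eg
variable {V : Type*} [DecidableEq V] [Fintype V]

/-- The cost as a natural number. -/
def cN (wp wm : ℕ) (H E : Finset (Finset V)) : ℕ :=
  ∑ Q ∈ (univ : Finset V).powersetCard 4,
    if Q ∈ H then (if Q ∈ E then 0 else wp) else (if Q ∈ E then wm else 0)

theorem EG_iff (H : Finset (Finset V)) (h4 : ∀ e ∈ H, e.card = 4) (v : V) (Q : Finset V)
    (hQ : Q.card = 4) :
    (if Q ∈ H then (if Q ∈ EG H v then 0 else 1) else (if Q ∈ EG H v then 1 else 0)) =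
      if v ∉ Q ∧ Odd (c5 H (insert v Q)) then 1 else 0 := by
  have h1 := mem_symmDiff_EG H h4 v Q
  rw [Finset.mem_symmDiff, Finset.mem_filter, Finset.mem_filter, Finset.mem_powersetCard] at h1
  have h2 : (Q ∈ H ∧ Q ∉ EG H v ∨ Q ∈ EG H v ∧ Q ∉ H) ↔ v ∉ Q ∧ Odd (c5 H (insert v Q)) := by
    rw [h1]
    constructor
    · rintro ⟨⟨_, h3⟩, h4'⟩
      exact ⟨h3, h4'⟩
    · rintro ⟨h3, h4'⟩
      exact ⟨⟨⟨Finset.subset_univ _, hQ⟩, h3⟩, h4'⟩
  by_cases h3 : Q ∈ H <;> by_cases h5 : Q ∈ EG H v <;> simp only [h3, h5, if_true, if_false] <;>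
    simp only [h3, h5, not_true, not_false_iff, and_true, true_and, and_false, false_and, or_false,
      false_or, or_self, true_iff, false_iff] at h2
  · rw [if_neg h2]
  · rw [if_pos h2]
  · rw [if_pos h2]
  · rw [if_neg h2]

theorem sum_cN_EG (wp wm : ℕ) (H : Finset (Finset V)) (h4 : ∀ e ∈ H, e.card = 4) :
    ∑ v : V, cN wp wm H (EG H v) =
      (wp + 4 * wm) * T5 H 1 + (3 * wp + 2 * wm) * T5 H 3 + 5 * wp * T5 H 5 := by
  have h1 : ∀ v : V, cN wp wm H (EG H v) =
      ∑ Q ∈ (univ.powersetCard 4).filter (fun Q => v ∉ Q),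
        if Odd (c5 H (insert v Q)) then (if Q ∈ H then wp else wm) else 0 := by
    intro v
    unfold cN
    rw [Finset.sum_filter]
    refine Finset.sum_congr rfl fun Q hQ => ?_
    have h2 := EG_iff H h4 v Q (Finset.mem_powersetCard.mp hQ).2
    by_cases h3 : Q ∈ H <;> by_cases h5 : Q ∈ EG H v <;>
      by_cases h6 : v ∉ Q <;> by_cases h7 : Odd (c5 H (insert v Q)) <;>
      simp only [h3, h5, h6, h7, if_true, if_false, and_true, and_false, true_and, false_and,
        not_true, not_false_iff] at h2 ⊢ <;> first | rfl | exact absurd h2 (by decide)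
  rw [Finset.sum_congr rfl fun v _ => h1 v,
    sum_pairs 4 fun v Q => if Odd (c5 H (insert v Q)) then (if Q ∈ H then wp else wm) else 0]
  have h2 : ∀ S ∈ (univ : Finset V).powersetCard 5,
      (∑ v ∈ S, if Odd (c5 H (insert v (S.erase v))) then
        (if S.erase v ∈ H then wp else wm) else 0) =
        (fun c => if Odd c then wp * c + wm * (5 - c) else 0) (c5 H S) := by
    intro S hS
    have hc := (Finset.mem_powersetCard.mp hS).2
    have h3 : ∀ v ∈ S, (if Odd (c5 H (insert v (S.erase v))) then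
        (if S.erase v ∈ H then wp else wm) else 0) =
        if Odd (c5 H S) then (if S.erase v ∈ H then wp else wm) else 0 := by
      intro v hv
      rw [Finset.insert_erase hv]
    rw [Finset.sum_congr rfl h3]
    dsimp only
    split_ifs with ho
    · have h5 : c5 H S = (S.filter fun y => S.erase y ∈ H).card := by
        unfold c5
        exact count_erase H S hc
      have h6 := Finset.card_filter_add_card_filter_not (s := S) (fun y => S.erase y ∈ H)
      rw [Finset.sum_ite, Finset.sum_const, Finset.sum_const, smul_eq_mul, smul_eq_mul, ← h5]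
      have h7 : (S.filter fun y => S.erase y ∉ H).card = 5 - c5 H S := by omega
      rw [h7]
      ring
    · rw [Finset.sum_const_zero]
  rw [Finset.sum_congr rfl h2, sum_c5 H fun c => if Odd c then wp * c + wm * (5 - c) else 0]
  simp only [Finset.sum_range_succ, Finset.sum_range_zero]
  have e0 : ¬ Odd 0 := by decide
  have e1 : Odd 1 := by decide
  have e2 : ¬ Odd 2 := by decide
  have e3 : Odd 3 := by decide
  have e4 : ¬ Odd 4 := by decide
  have e5 : Odd 5 := by decide
  rw [if_neg e0, if_pos e1, if_neg e2, if_pos e3, if_neg e4, if_pos e5]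
  ring

end eg

section cost
variable {n : ℕ}

theorem cst_eq (wp wm : ℕ) (H E : Finset (Finset (Fin n))) :
    K8.cst (wc wp wm) H E = (cN wp wm H E : ℤ) := by
  unfold K8.cst cN
  push_cast
  refine Finset.sum_congr rfl fun Q _ => ?_
  unfold wc
  by_cases h1 : Q ∈ H <;> by_cases h2 : Q ∈ E <;> simp [h1, h2]

/-- The smallest cost is at most the average of the costs of the even 4-graphs of the vertices. -/
theorem opt_le (wp wm : ℕ) (H E : Finset (Finset (Fin n))) (h4 : ∀ e ∈ H, e.card = 4)
    (hE : OptE (wc wp wm) H E) : n * cN wp wm H E ≤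
      (wp + 4 * wm) * T5 H 1 + (3 * wp + 2 * wm) * T5 H 3 + 5 * wp * T5 H 5 := by
  rw [← sum_cN_EG wp wm H h4]
  have h1 : ∀ v : Fin n, cN wp wm H E ≤ cN wp wm H (EG H v) := by
    intro v
    have h2 := hE.2.2 (EG H v) (fun e he => ((mem_EG H v e).mp he).1)
      (fun S hS => EG_even H v S hS)
    rw [cst_eq, cst_eq] at h2
    exact_mod_cast h2
  calc n * cN wp wm H E = ∑ _v : Fin n, cN wp wm H E := by
        rw [Finset.sum_const, Finset.card_univ, Fintype.card_fin, smul_eq_mul]
    _ ≤ _ := Finset.sum_le_sum fun v _ => h1 v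

/-- The cost on a window. -/
def cw (c : Bool → Bool → ℤ) (e r : Finset (Fin 6) → Bool) : ℤ :=
  ∑ T ∈ (univ : Finset (Fin 6)).powersetCard 4, c (e T) (r T)

/-- The sum over the six-tuples of a sum over the quadruples. -/
theorem sum6_F (f : Finset (Fin n) → ℝ) :
    ∑ t ∈ inj (Fin n) 6, ∑ T ∈ (univ : Finset (Fin 6)).powersetCard 4, f (T.image t) =
      360 * (PP n 4 2 * ∑ Q ∈ (univ : Finset (Fin n)).powersetCard 4, f Q) := by
  have h0 : ∀ {m : ℕ} (g : Finset (Fin m) → ℝ), ∑ p ∈ inj (Fin m) 4, g (univ.image p) =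
      24 * ∑ Q ∈ (univ : Finset (Fin m)).powersetCard 4, g Q := by
    intro m g
    rw [← sum_img g]
    unfold inj
    rw [Finset.sum_filter]
  have h1 := sum_sub4 (n := n) fun q => f (univ.image q)
  rw [h0 f] at h1
  have h2 : ∀ t ∈ inj (Fin n) 6, ∑ p ∈ inj (Fin 6) 4, f (univ.image (t ∘ p)) =
      24 * ∑ T ∈ (univ : Finset (Fin 6)).powersetCard 4, f (T.image t) := by
    intro t _
    rw [← h0 fun T => f (T.image t)]
    refine Finset.sum_congr rfl fun p _ => ?_
    rw [Finset.image_image]
  rw [Finset.sum_congr rfl h2, ← Finset.mul_sum] at h1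
  linarith

theorem dec_zb (H : Finset (Finset (Fin n))) (t : Fin 6 → Fin n) (T : Finset (Fin 6)) :
    zb H t T = decide (T.image t ∈ H) := by
  rw [zb_eq]
  rfl

theorem sum6_cw (c : Bool → Bool → ℤ) (H E : Finset (Finset (Fin n))) :
    ∑ t ∈ inj (Fin n) 6, ((cw c (zb H t) (zb E t) : ℤ) : ℝ) =
      360 * (PP n 4 2 * ((K8.cst c H E : ℤ) : ℝ)) := by
  have h1 := sum6_F (n := n) fun Q => ((c (decide (Q ∈ H)) (decide (Q ∈ E)) : ℤ) : ℝ)
  unfold K8.cst
  push_cast
  rw [← h1]
  refine Finset.sum_congr rfl fun t _ => ?_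
  unfold cw
  push_cast
  refine Finset.sum_congr rfl fun T _ => ?_
  rw [dec_zb, dec_zb]

end cost

end Pool.Agent.Lib.MP_afdd4d_co.K9.Star.Tw
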