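import Pool.Agent.Lib.MP_afdd4d_co.K9.TwCost
import Pool.Agent.Lib.MP_afdd4d_co.K9.PtG

/-!
# The theorem with two references

A 4-graph without `K_5` of density at least `11 / 16`, an even 4-graph of smallest cost and a
colouring for which some functions of six vertices have almost nonnegative average. The columns of
the linear program for the local inequalities, and its conclusions.
-/

namespace Pool.Agent.Lib.MP_afdd4d_co.K9.Star.Tw

open Finset K8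
open Pool.Agent.Lib.MP_afdd4d_co.K9.Marks

/-- Functions of the 4-graph, the even 4-graph and the colours on a window. -/
abbrev Psi3 : Type :=
  (Finset (Fin 6) → Bool) → (Finset (Fin 6) → Bool) → (Fin 6 → Bool) → ℤ

/-- The conditions, with a tolerance. -/
structure CtxW (P : ∀ n : ℕ, Finset (Finset (Fin n)) → Prop) (wp wm : ℕ) (L : List Psi3)
    (Q : C3) (η : ℝ) {n : ℕ} (H E : Finset (Finset (Fin n))) (χ : Fin n → Bool) : Prop where
  h4 : ∀ e ∈ H, e.card = 4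
  k5 : K5F H
  p : P n H
  d : 11 / 16 ≤ e4 H
  o : OptE (wc wp wm) H E
  t : ∀ ψ ∈ L, -(η * (n : ℝ) ^ 6) ≤
    ∑ t ∈ inj (Fin n) 6, ((ψ (zb H t) (zb E t) (fun i => χ (t i)) : ℤ) : ℝ)
  q : Q η H E χ

/-- The conditions as a family. -/
abbrev CtW (P : ∀ n : ℕ, Finset (Finset (Fin n)) → Prop) (wp wm : ℕ) (L : List Psi3)
    (Q : C3) : C3 :=
  fun η {_} H E χ => CtxW P wp wm L Q η H E χ

/-- No further condition. -/
def TrueW : C3 := fun _ {_} _ _ _ => True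

/-- Both conditions. -/
def AndW (Q Q' : C3) : C3 := fun η {_} H E χ => Q η H E χ ∧ Q' η H E χ

theorem monoW_true : MonoW TrueW := fun _ _ _ _ _ _ _ h => h

theorem monoW_and {Q Q' : C3} (h : MonoW Q) (h' : MonoW Q') : MonoW (AndW Q Q') :=
  fun η η' hη _ H E χ hc => ⟨h η η' hη H E χ hc.1, h' η η' hη H E χ hc.2⟩

section ctx
variable {P : ∀ n : ℕ, Finset (Finset (Fin n)) → Prop} {wp wm : ℕ} {L : List Psi3} {Q : C3}

theorem monoW_CtW (hQ : MonoW Q) : MonoW (CtW P wp wm L Q) := by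
  intro η η' h n H E χ hc
  refine ⟨hc.h4, hc.k5, hc.p, hc.d, hc.o, fun ψ hψ => le_trans ?_ (hc.t ψ hψ), hQ η η' h H E χ hc.q⟩
  have : η * (n : ℝ) ^ 6 ≤ η' * (n : ℝ) ^ 6 := mul_le_mul_of_nonneg_right h (by positivity)
  linarith

/-! ### The columns -/

/-- The column of a function in the list. -/
theorem goodW_psi {ψ : Psi3} (hψ : ψ ∈ L) : GoodW (CtW P wp wm L Q)
    (fun H E χ t => ψ (zb H t) (zb E t) (fun i => χ (t i))) := by
  intro δ hδ
  exact ⟨δ, hδ, 0, fun n _ H E χ hc => hc.t ψ hψ⟩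

/-- The density of the 4-graph. -/
theorem goodW_dens : GoodW (CtW P wp wm L Q) (fun H _ _ t => 16 * S4 (zb H t) - 165) := by
  have h : ∀ (η : ℝ) {n : ℕ} (H E : Finset (Finset (Fin n))) (χ : Fin n → Bool),
      CtW P wp wm L Q η H E χ → -(2160 * (n : ℝ) ^ 5) ≤
        ∑ t ∈ inj (Fin n) 6, (((16 * S4 (zb H t) - 165 : ℤ)) : ℝ) := by
    intro η n H E χ hc
    have e1 : ∑ t ∈ inj (Fin n) 6, (((16 * S4 (zb H t) - 165 : ℤ)) : ℝ) =
        -∑ t ∈ inj (Fin n) 6, ((colR (zb H t) : ℤ) : ℝ) := by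
      rw [← Finset.sum_neg_distrib]
      refine Finset.sum_congr rfl fun t _ => ?_
      unfold colR
      push_cast
      ring
    rw [e1, sum_colR_eq H hc.h4]
    rcases Nat.eq_zero_or_pos n with h0 | h0
    · subst h0
      have h1 := hc.d
      unfold e4 at h1
      norm_num at h1
    · have hn0 : (0 : ℝ) < n := by exact_mod_cast h0
      have h1 := hc.d
      unfold e4 at h1
      rw [le_div_iff₀ (by positivity)] at h1
      have h2 := PP42_ge n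
      have h3 : ((n : ℝ) ^ 2 - 9 * n) * (H.card : ℝ) ≤ PP n 4 2 * (H.card : ℝ) :=
        mul_le_mul_of_nonneg_right h2 (Nat.cast_nonneg _)
      have h4 := desc_le n 6
      have h5 := card_quads_le H hc.h4
      have h6 : 24 * ((n : ℝ) ^ 2 * (H.card : ℝ)) ≥ 11 / 16 * (n : ℝ) ^ 6 := by
        have := mul_le_mul_of_nonneg_left h1 (by positivity : (0 : ℝ) ≤ (n : ℝ) ^ 2)
        have e : (n : ℝ) ^ 2 * (11 / 16 * (n : ℝ) ^ 4) = 11 / 16 * (n : ℝ) ^ 6 := by ring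
        rw [e] at this
        linarith
      have h7 : 9 * (n : ℝ) * (H.card : ℝ) ≤ 9 * (n : ℝ) * ((n : ℝ) ^ 4 / 24) :=
        mul_le_mul_of_nonneg_left (by linarith) (by positivity)
      have e : 9 * (n : ℝ) * ((n : ℝ) ^ 4 / 24) = 9 / 24 * (n : ℝ) ^ 5 := by ring
      rw [e] at h7
      have h8 : 0 ≤ (n : ℝ) ^ 5 := by positivity
      linarith
  exact GoodW.of_n5 (Z := fun H _ _ t => 16 * S4 (zb H t) - 165) 2160 h

/-- The density of the even 4-graph. -/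
theorem goodW_colR (hE : EvUp) : GoodW (CtW P wp wm L Q) (fun _ E _ t => colR (zb E t)) := by
  intro δ hδ
  obtain ⟨N2, hN2⟩ := hE (δ / 240) (by positivity)
  refine ⟨1, one_pos, max 6 N2, fun n hn H E χ hc => ?_⟩
  have h6 : 6 ≤ n := le_trans (le_max_left _ _) hn
  have h1 := hN2 n (le_trans (le_max_right _ _) hn) E hc.o.1 hc.o.2.1
  rw [sum_colR_eq _ hc.o.1]
  have h2 := desc6_eq (n := n) h6
  have h3 := PP42_pos h6
  have h4 : PP n 4 2 * (E.card : ℝ) ≤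
      PP n 4 2 * ((11 / 16 + δ / 240) * ((n.choose 4 : ℕ) : ℝ)) :=
    mul_le_mul_of_nonneg_left h1 h3
  have h5 : 5760 * (PP n 4 2 * ((11 / 16 + δ / 240) * ((n.choose 4 : ℕ) : ℝ))) =
      (165 + δ) * (n.descFactorial 6 : ℝ) := by
    rw [h2]
    ring
  have h7 := desc_le n 6
  have h8 : δ * (n.descFactorial 6 : ℝ) ≤ δ * (n : ℝ) ^ 6 := mul_le_mul_of_nonneg_left h7 hδ.le
  linarith

/-- The column of the cost: the odd 5-sets and the cost of the window. -/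
def colC (wp wm : ℕ) (e r : Finset (Fin 6) → Bool) : ℤ :=
  (wp + 4 * wm : ℕ) * (O5 e 1 : ℤ) + (3 * wp + 2 * wm : ℕ) * (O5 e 3 : ℤ) -
    2 * cw (wc wp wm) e r

/-- The smallest cost is at most the average of the costs of the even 4-graphs of the vertices. -/
theorem goodW_cost (hO : SumO5) :
    GoodW (CtW P wp wm L Q) (fun H E _ t => colC wp wm (zb H t) (zb E t)) := by
  refine GoodW.of_n5 (Z := fun H E _ t => colC wp wm (zb H t) (zb E t)) 0
    fun η {n} H E χ hc => ?_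
  rw [zero_mul, neg_zero]
  rcases Nat.lt_or_ge n 6 with hlt | hge
  · have h0 : (inj (Fin n) 6).card = 0 := by
      rw [card_inj, Fintype.card_fin, Nat.descFactorial_eq_zero_iff_lt]
      exact hlt
    rw [Finset.card_eq_zero] at h0
    rw [h0, Finset.sum_empty]
  · have e1 : ∑ t ∈ inj (Fin n) 6, ((colC wp wm (zb H t) (zb E t) : ℤ) : ℝ) =
        (wp + 4 * wm) * (720 * ((n : ℝ) - 5) * (T5 H 1 : ℝ)) +
        (3 * wp + 2 * wm) * (720 * ((n : ℝ) - 5) * (T5 H 3 : ℝ)) -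
        2 * (360 * (PP n 4 2 * ((K8.cst (wc wp wm) H E : ℤ) : ℝ))) := by
      rw [← hO n H 1 hc.h4, ← hO n H 3 hc.h4, ← sum6_cw, Finset.mul_sum, Finset.mul_sum,
        Finset.mul_sum, ← Finset.sum_add_distrib, ← Finset.sum_sub_distrib]
      refine Finset.sum_congr rfl fun t _ => ?_
      unfold colC
      push_cast
      ring
    have e2 : PP n 4 2 = ((n : ℝ) - 4) * (n - 5) := by
      unfold PP
      rw [Finset.prod_range_succ, Finset.prod_range_succ, Finset.prod_range_zero]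
      push_cast
      ring
    have h1 := opt_le wp wm H E hc.h4 hc.o
    rw [T5_five H hc.k5, mul_zero, add_zero] at h1
    have h2 : (n : ℝ) * (cN wp wm H E : ℝ) ≤
        (wp + 4 * wm) * (T5 H 1 : ℝ) + (3 * wp + 2 * wm) * (T5 H 3 : ℝ) := by
      exact_mod_cast h1
    have h3 : (6 : ℝ) ≤ n := by exact_mod_cast hge
    have h4 : (0 : ℝ) ≤ (cN wp wm H E : ℝ) := Nat.cast_nonneg _
    rw [e1, e2, cst_eq, Int.cast_natCast]
    have h5 : 720 * ((n : ℝ) - 5) * ((n : ℝ) * (cN wp wm H E : ℝ)) ≤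
        720 * ((n : ℝ) - 5) *
          ((wp + 4 * wm) * (T5 H 1 : ℝ) + (3 * wp + 2 * wm) * (T5 H 3 : ℝ)) :=
      mul_le_mul_of_nonneg_left h2 (by linarith)
    have h6 : 0 ≤ 720 * ((n : ℝ) - 5) * (4 * (cN wp wm H E : ℝ)) :=
      mul_nonneg (by linarith) (by positivity)
    linarith

/-! ### The conclusions -/

/-- The theorem for a condition. -/
def TW (P : ∀ n : ℕ, Finset (Finset (Fin n)) → Prop) (wp wm : ℕ) (L : List Psi3) (Q : C3) :
    Prop :=
  ∀ ε : ℝ, 0 < ε → ∃ η : ℝ, 0 < η ∧ ∃ N : ℕ, ∀ n : ℕ, N ≤ n → ∀ (H E : Finset (Finset (Fin n)))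
    (χ : Fin n → Bool), CtxW P wp wm L Q η H E χ → e4 H ≤ 11 / 16 + ε

/-- The upper bound of the density from the inequality on windows. -/
theorem tw_of_goodW (N : ℕ) (hN : 0 < N)
    (h : GoodW (CtW P wp wm L Q) (fun H _ _ t => N * (165 - 16 * S4 (zb H t)))) :
    TW P wp wm L Q := by
  intro ε hε
  have hN' : (0 : ℝ) < N := by exact_mod_cast hN
  obtain ⟨η, hη, N1, hN1⟩ := h (N * (120 * ε)) (by positivity)
  obtain ⟨N2, hN2⟩ := n5_aux (C := 2160) (δ := 120 * ε) (by positivity)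
  refine ⟨η, hη, max 1 (max N1 N2), fun n hn H E χ hc => ?_⟩
  have hn1 : 1 ≤ n := le_trans (le_max_left _ _) hn
  have hn' : max N1 N2 ≤ n := le_trans (le_max_right _ _) hn
  have s := hN1 n (le_trans (le_max_left _ _) hn') H E χ hc
  have h10 := hN2 n (le_trans (le_max_right _ _) hn')
  have h4 := hc.h4
  have hn0 : (0 : ℝ) < n := by exact_mod_cast hn1
  have e1 : ∑ t ∈ inj (Fin n) 6, (((N * (165 - 16 * S4 (zb H t)) : ℤ)) : ℝ) =
      N * ∑ t ∈ inj (Fin n) 6, ((colR (zb H t) : ℤ) : ℝ) := by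
    rw [Finset.mul_sum]
    refine Finset.sum_congr rfl fun t _ => ?_
    unfold colR
    push_cast
    ring
  rw [e1, sum_colR_eq H h4] at s
  have s2 : -(120 * ε * (n : ℝ) ^ 6) ≤
      165 * (n.descFactorial 6 : ℝ) - 16 * (360 * (PP n 4 2 * (H.card : ℝ))) := by
    have e : -(N * (120 * ε) * (n : ℝ) ^ 6) = N * -(120 * ε * (n : ℝ) ^ 6) := by ring
    rw [e] at s
    exact le_of_mul_le_mul_left s hN'
  have h2 := PP42_ge n
  have h3 : ((n : ℝ) ^ 2 - 9 * n) * (H.card : ℝ) ≤ PP n 4 2 * (H.card : ℝ) :=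
    mul_le_mul_of_nonneg_right h2 (Nat.cast_nonneg _)
  have h5 := desc_le n 6
  have h6 : 24 * (H.card : ℝ) ≤ (n : ℝ) ^ 4 := by
    have := card_quads_le H h4
    linarith
  have fe : 24 * (H.card : ℝ) = (n : ℝ) ^ 4 * e4 H := by
    unfold e4
    field_simp
  have h7 : 9 * (n : ℝ) * (24 * (H.card : ℝ)) ≤ 9 * (n : ℝ) * (n : ℝ) ^ 4 :=
    mul_le_mul_of_nonneg_left h6 (by positivity)
  have h8 : (n : ℝ) ^ 6 * e4 H = (n : ℝ) ^ 2 * (24 * (H.card : ℝ)) := by rw [fe]; ring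
  have h9 : 240 * ((n : ℝ) ^ 6 * e4 H) ≤ 165 * (n : ℝ) ^ 6 + 120 * ε * (n : ℝ) ^ 6 +
      2160 * (n : ℝ) ^ 5 := by
    rw [h8]
    have e : 9 * (n : ℝ) * (n : ℝ) ^ 4 = 9 * (n : ℝ) ^ 5 := by ring
    rw [e] at h7
    linarith
  have hn6 : (0 : ℝ) < (n : ℝ) ^ 6 := by positivity
  have fin : (n : ℝ) ^ 6 * (240 * e4 H) ≤ (n : ℝ) ^ 6 * (165 + 240 * ε) := by
    have e : (n : ℝ) ^ 6 * (165 + 240 * ε) = 165 * (n : ℝ) ^ 6 + 240 * ε * (n : ℝ) ^ 6 := by ring
    rw [e]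
    linarith
  have := le_of_mul_le_mul_left fin hn6
  linarith

/-- A step: a consequence of the conditions may be added to them. -/
theorem tw_of_step {Q R : C3} (hQ : MonoW Q)
    (h : ∀ ε : ℝ, 0 < ε → ∃ η : ℝ, 0 < η ∧ ∃ N : ℕ, ∀ n : ℕ, N ≤ n →
      ∀ (H E : Finset (Finset (Fin n))) (χ : Fin n → Bool),
      CtxW P wp wm L Q η H E χ → R ε H E χ)
    (h2 : TW P wp wm L (AndW Q R)) : TW P wp wm L Q := by
  intro ε hε
  obtain ⟨η, hη, N, hN⟩ := h2 ε hε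
  obtain ⟨η', hη', N', hN'⟩ := h η hη
  refine ⟨min η η', lt_min hη hη', max N N', fun n hn H E χ hc => ?_⟩
  have h1 := monoW_CtW hQ _ _ (min_le_left η η') H E χ hc
  have h3 := monoW_CtW hQ _ _ (min_le_right η η') H E χ hc
  exact hN n (le_trans (le_max_left _ _) hn) H E χ
    ⟨h1.h4, h1.k5, h1.p, h1.d, h1.o, h1.t,
      h1.q, hN' n (le_trans (le_max_right _ _) hn) H E χ h3⟩

/-- Two cases. -/
theorem tw_or {Q Q' Q'' : C3} (h : TW P wp wm L Q) (h' : TW P wp wm L Q')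
    (hm : MonoW Q'') (hq : ∀ (η : ℝ) {n : ℕ} (H E : Finset (Finset (Fin n)))
      (χ : Fin n → Bool), Q'' η H E χ → Q η H E χ ∨ Q' η H E χ) (hQ : MonoW Q)
    (hQ' : MonoW Q') : TW P wp wm L Q'' := by
  intro ε hε
  obtain ⟨η, hη, N, hN⟩ := h ε hε
  obtain ⟨η', hη', N', hN'⟩ := h' ε hε
  refine ⟨min η η', lt_min hη hη', max N N', fun n hn H E χ hc => ?_⟩
  have h1 := monoW_CtW hm _ _ (min_le_left η η') H E χ hc
  have h2 := monoW_CtW hm _ _ (min_le_right η η') H E χ hc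
  rcases hq _ H E χ hc.q with h3 | h3
  · exact hN n (le_trans (le_max_left _ _) hn) H E χ
      ⟨h1.h4, h1.k5, h1.p, h1.d, h1.o, h1.t, hQ _ _ (min_le_left η η') H E χ h3⟩
  · exact hN' n (le_trans (le_max_right _ _) hn) H E χ
      ⟨h2.h4, h2.k5, h2.p, h2.d, h2.o, h2.t, hQ' _ _ (min_le_right η η') H E χ h3⟩

/-- The cost is bounded. -/
def CostW (wp wm : ℕ) (x : ℝ) : C3 := fun η {n} H E _ =>
  24 * ((K8.cst (wc wp wm) H E : ℤ) : ℝ) ≤ (x + η) * (n : ℝ) ^ 4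

theorem monoW_cost (x : ℝ) : MonoW (CostW wp wm x) := by
  intro η η' h n H E χ hc
  refine le_trans hc (mul_le_mul_of_nonneg_right (by linarith) (by positivity))

/-- A bound of the cost from the inequality on windows. -/
theorem cost_of_goodW (xn xd : ℕ) (hxd : 0 < xd)
    (h : GoodW (CtW P wp wm L Q) (fun H E _ t =>
      15 * xn - xd * cw (wc wp wm) (zb H t) (zb E t))) :
    ∀ ε : ℝ, 0 < ε → ∃ η : ℝ, 0 < η ∧ ∃ N : ℕ, ∀ n : ℕ, N ≤ n →
      ∀ (H E : Finset (Finset (Fin n))) (χ : Fin n → Bool),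
      CtxW P wp wm L Q η H E χ → CostW wp wm ((xn : ℝ) / xd) ε H E χ := by
  intro ε hε
  have hxd' : (0 : ℝ) < xd := by exact_mod_cast hxd
  obtain ⟨η, hη, N1, hN1⟩ := h (xd * (7 * ε)) (by positivity)
  obtain ⟨N2, hN2⟩ := n5_aux (C := 135 * (wp + wm)) (δ := 7 * ε) (by positivity)
  refine ⟨η, hη, max 1 (max N1 N2), fun n hn H E χ hc => ?_⟩
  have hn1 : 1 ≤ n := le_trans (le_max_left _ _) hn
  have hn' : max N1 N2 ≤ n := le_trans (le_max_right _ _) hn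
  have s := hN1 n (le_trans (le_max_left _ _) hn') H E χ hc
  have h10 := hN2 n (le_trans (le_max_right _ _) hn')
  have hn0 : (0 : ℝ) < n := by exact_mod_cast hn1
  have e1 : ∑ t ∈ inj (Fin n) 6,
      (((15 * xn - xd * cw (wc wp wm) (zb H t) (zb E t) : ℤ)) : ℝ) =
      15 * xn * (n.descFactorial 6 : ℝ) -
        xd * (360 * (PP n 4 2 * ((K8.cst (wc wp wm) H E : ℤ) : ℝ))) := by
    have e2 : ∀ t : Fin 6 → Fin n,
        (((15 * xn - xd * cw (wc wp wm) (zb H t) (zb E t) : ℤ)) : ℝ) =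
        15 * xn - xd * ((cw (wc wp wm) (zb H t) (zb E t) : ℤ) : ℝ) := by
      intro t
      push_cast
      ring
    rw [Finset.sum_congr rfl fun t _ => e2 t]
    simp_rw [Finset.sum_sub_distrib, ← Finset.mul_sum]
    rw [sum6_cw]
    simp only [Finset.sum_const, nsmul_eq_mul, card_inj, Fintype.card_fin]
    ring
  rw [e1] at s
  have hJ1 : ((K8.cst (wc wp wm) H E : ℤ) : ℝ) ≤ (wp + wm) * ((n : ℝ) ^ 4 / 24) := by
    have h1 : K8.cst (wc wp wm) H E ≤ ∑ _Q ∈ (univ : Finset (Fin n)).powersetCard 4,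
        ((wp : ℤ) + wm) := Finset.sum_le_sum fun Q _ => wc_le wp wm _ _
    rw [Finset.sum_const, Finset.card_powersetCard, Finset.card_univ, Fintype.card_fin,
      nsmul_eq_mul] at h1
    have h2 : ((K8.cst (wc wp wm) H E : ℤ) : ℝ) ≤ ((n.choose 4 : ℕ) : ℝ) * (wp + wm) := by
      exact_mod_cast h1
    have h3 : ((n.choose 4 : ℕ) : ℝ) ≤ (n : ℝ) ^ 4 / 24 := by
      have h4 := Nat.choose_le_pow_div (α := ℝ) 4 n
      have h5 : ((Nat.factorial 4 : ℕ) : ℝ) = 24 := by norm_num [Nat.factorial]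
      rwa [h5] at h4
    refine le_trans h2 ?_
    rw [mul_comm]
    exact mul_le_mul_of_nonneg_left h3 (by positivity)
  set J : ℝ := ((K8.cst (wc wp wm) H E : ℤ) : ℝ) with hJ
  have hJ0 : 0 ≤ J := by
    rw [hJ, cst_eq, Int.cast_natCast]
    exact Nat.cast_nonneg _
  have h2 := PP42_ge n
  have h3 : ((n : ℝ) ^ 2 - 9 * n) * J ≤ PP n 4 2 * J := mul_le_mul_of_nonneg_right h2 hJ0
  have h5 := desc_le n 6
  have h7 : 9 * (n : ℝ) * (24 * J) ≤ 9 * (n : ℝ) * ((wp + wm) * (n : ℝ) ^ 4) :=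
    mul_le_mul_of_nonneg_left (by linarith) (by positivity)
  have h9 : (xd : ℝ) * (15 * ((n : ℝ) ^ 2 * (24 * J))) ≤
      15 * xn * (n : ℝ) ^ 6 + xd * (7 * ε) * (n : ℝ) ^ 6 +
        xd * (135 * (wp + wm) * (n : ℝ) ^ 5) := by
    have e : 9 * (n : ℝ) * ((wp + wm) * (n : ℝ) ^ 4) = 9 * (wp + wm) * (n : ℝ) ^ 5 := by ring
    rw [e] at h7
    have h10 : (xd : ℝ) * (360 * (((n : ℝ) ^ 2 - 9 * n) * J)) ≤ xd * (360 * (PP n 4 2 * J)) :=
      mul_le_mul_of_nonneg_left (by linarith) hxd'.le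
    have h11 : 15 * (xn : ℝ) * (n.descFactorial 6 : ℝ) ≤ 15 * xn * (n : ℝ) ^ 6 :=
      mul_le_mul_of_nonneg_left h5 (by positivity)
    have h12 : (xd : ℝ) * (15 * (9 * (n : ℝ) * (24 * J))) ≤
        xd * (15 * (9 * (wp + wm) * (n : ℝ) ^ 5)) :=
      mul_le_mul_of_nonneg_left (by linarith) hxd'.le
    have e2 : (xd : ℝ) * (15 * ((n : ℝ) ^ 2 * (24 * J))) =
        xd * (360 * (((n : ℝ) ^ 2 - 9 * n) * J)) + xd * (15 * (9 * (n : ℝ) * (24 * J))) := by ring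
    rw [e2]
    linarith
  have h13 : (xd : ℝ) * (135 * (wp + wm) * (n : ℝ) ^ 5) ≤ xd * (7 * ε * (n : ℝ) ^ 6) :=
    mul_le_mul_of_nonneg_left h10 hxd'.le
  have fin : (n : ℝ) ^ 2 * (15 * xd * (24 * J)) ≤
      (n : ℝ) ^ 2 * (15 * xd * (((xn : ℝ) / xd + ε) * (n : ℝ) ^ 4)) := by
    have e : (n : ℝ) ^ 2 * (15 * xd * (((xn : ℝ) / xd + ε) * (n : ℝ) ^ 4)) =
        15 * xn * (n : ℝ) ^ 6 + 15 * xd * ε * (n : ℝ) ^ 6 := by
      field_simp
    have h14 : 0 ≤ (xd : ℝ) * ε * (n : ℝ) ^ 6 := by positivity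
    rw [e]
    linarith
  exact le_of_mul_le_mul_left (le_of_mul_le_mul_left fin (by positivity)) (by positivity)

end ctx

end Pool.Agent.Lib.MP_afdd4d_co.K9.Star.Tw
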