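import Pool.Agent.Lib.MP_afdd4d_co.K9.VCase

/-!
# Averages for a 4-graph, a second 4-graph and a colouring

The functions with almost nonnegative average over the six-tuples of vertices, for 4-graphs, second
4-graphs and colourings that satisfy a condition, or a condition with a small tolerance.
-/

namespace Pool.Agent.Lib.MP_afdd4d_co.K9.Star.Tw

open Finset K8
open Pool.Agent.Lib.MP_afdd4d_co.K9.Marks

/-- Functions of a 4-graph, a second 4-graph, a colouring and six vertices. -/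
abbrev Fn3 : Type := ∀ {n : ℕ}, Finset (Finset (Fin n)) → Finset (Finset (Fin n)) →
  (Fin n → Bool) → (Fin 6 → Fin n) → ℤ

/-- Conditions. -/
abbrev X3 : Type := ∀ {n : ℕ}, Finset (Finset (Fin n)) → Finset (Finset (Fin n)) →
  (Fin n → Bool) → Prop

/-- Conditions with a tolerance. -/
abbrev C3 : Type := ℝ → X3

/-- The average of the function is almost nonnegative for large `n`. -/
def GoodP (Cx : X3) (Z : Fn3) : Prop :=
  ∀ δ : ℝ, 0 < δ → ∃ N : ℕ, ∀ n : ℕ, N ≤ n → ∀ (H E : Finset (Finset (Fin n)))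
    (χ : Fin n → Bool), Cx H E χ →
    -(δ * (n : ℝ) ^ 6) ≤ ∑ t ∈ inj (Fin n) 6, ((Z H E χ t : ℤ) : ℝ)

/-- The average of the function is almost nonnegative for large `n` and small tolerances. -/
def GoodW (Cx : C3) (Z : Fn3) : Prop :=
  ∀ δ : ℝ, 0 < δ → ∃ η : ℝ, 0 < η ∧ ∃ N : ℕ, ∀ n : ℕ, N ≤ n → ∀ (H E : Finset (Finset (Fin n)))
    (χ : Fin n → Bool), Cx η H E χ →
    -(δ * (n : ℝ) ^ 6) ≤ ∑ t ∈ inj (Fin n) 6, ((Z H E χ t : ℤ) : ℝ)

/-- The conditions are weaker for larger tolerances. -/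
def MonoW (Cx : C3) : Prop :=
  ∀ η η' : ℝ, η ≤ η' → ∀ {n : ℕ} (H E : Finset (Finset (Fin n))) (χ : Fin n → Bool),
    Cx η H E χ → Cx η' H E χ

/-! ### Sums over injective tuples -/

section sums
variable {n : ℕ}

theorem sum_perm6 (F : (Fin 6 → Fin n) → ℝ) (π : Equiv.Perm (Fin 6)) :
    ∑ t ∈ inj (Fin n) 6, F (t ∘ π) = ∑ t ∈ inj (Fin n) 6, F t := by
  refine Finset.sum_bij' (fun t _ => t ∘ π) (fun t _ => t ∘ π.symm) ?_ ?_ ?_ ?_ ?_
  · intro t ht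
    exact mem_inj.mpr ((mem_inj.mp ht).comp π.injective)
  · intro t ht
    exact mem_inj.mpr ((mem_inj.mp ht).comp π.symm.injective)
  · intro t _
    funext i
    exact congrArg t (π.apply_symm_apply i)
  · intro t _
    funext i
    exact congrArg t (π.symm_apply_apply i)
  · intro t _
    rfl

theorem sum_int_add (F G : (Fin 6 → Fin n) → ℤ) :
    ∑ t ∈ inj (Fin n) 6, ((F t + G t : ℤ) : ℝ) =
      ∑ t ∈ inj (Fin n) 6, ((F t : ℤ) : ℝ) + ∑ t ∈ inj (Fin n) 6, ((G t : ℤ) : ℝ) := by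
  rw [← Finset.sum_add_distrib]
  refine Finset.sum_congr rfl fun t _ => ?_
  push_cast
  rfl

theorem sum_int_mul (w : ℕ) (F : (Fin 6 → Fin n) → ℤ) :
    ∑ t ∈ inj (Fin n) 6, (((w : ℤ) * F t : ℤ) : ℝ) =
      (w : ℝ) * ∑ t ∈ inj (Fin n) 6, ((F t : ℤ) : ℝ) := by
  rw [Finset.mul_sum]
  refine Finset.sum_congr rfl fun t _ => ?_
  push_cast
  rfl

end sums

/-! ### Conditions without tolerance -/

section goodP
variable {Cx : X3}

theorem GoodP.weaken {Cx' : X3} {Z : Fn3} (h : GoodP Cx Z)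
    (hc : ∀ {n : ℕ} (H E : Finset (Finset (Fin n))) (χ : Fin n → Bool),
      Cx' H E χ → Cx H E χ) : GoodP Cx' Z := by
  intro δ hδ
  obtain ⟨N, hN⟩ := h δ hδ
  exact ⟨N, fun n hn H E χ hx => hN n hn H E χ (hc H E χ hx)⟩

theorem GoodP.zero : GoodP Cx (fun _ _ _ _ => 0) := by
  intro δ hδ
  refine ⟨0, fun n _ H E χ _ => ?_⟩
  simp only [Int.cast_zero, Finset.sum_const_zero]
  have : 0 ≤ δ * (n : ℝ) ^ 6 := by positivity
  linarith

theorem GoodP.add {Z Z' : Fn3} (h : GoodP Cx Z) (h' : GoodP Cx Z') :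
    GoodP Cx (fun H E χ t => Z H E χ t + Z' H E χ t) := by
  intro δ hδ
  obtain ⟨N, hN⟩ := h (δ / 2) (by positivity)
  obtain ⟨N', hN'⟩ := h' (δ / 2) (by positivity)
  refine ⟨max N N', fun n hn H E χ hc => ?_⟩
  have h1 := hN n (le_trans (le_max_left _ _) hn) H E χ hc
  have h2 := hN' n (le_trans (le_max_right _ _) hn) H E χ hc
  rw [sum_int_add]
  linarith

theorem smul_aux {n : ℕ} {δ S : ℝ} (w : ℕ) (hδ : 0 < δ)
    (h : -(δ / (w + 1) * (n : ℝ) ^ 6) ≤ S) : -(δ * (n : ℝ) ^ 6) ≤ w * S := by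
  have hw : (0 : ℝ) < w + 1 := by positivity
  have h4 := mul_le_mul_of_nonneg_left h (Nat.cast_nonneg (α := ℝ) w)
  have h5 : (w : ℝ) * (δ / (w + 1) * (n : ℝ) ^ 6) ≤ δ * (n : ℝ) ^ 6 := by
    have h6 : (w : ℝ) * (δ / (w + 1)) ≤ δ := by
      rw [← mul_div_assoc, div_le_iff₀ hw]
      nlinarith
    calc (w : ℝ) * (δ / (w + 1) * (n : ℝ) ^ 6) = (w : ℝ) * (δ / (w + 1)) * (n : ℝ) ^ 6 := by ring
      _ ≤ δ * (n : ℝ) ^ 6 := mul_le_mul_of_nonneg_right h6 (by positivity)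
  linarith

theorem GoodP.smul {Z : Fn3} (w : ℕ) (h : GoodP Cx Z) :
    GoodP Cx (fun H E χ t => (w : ℤ) * Z H E χ t) := by
  intro δ hδ
  obtain ⟨N, hN⟩ := h (δ / (w + 1)) (by positivity)
  refine ⟨N, fun n hn H E χ hc => ?_⟩
  rw [sum_int_mul]
  exact smul_aux w hδ (hN n hn H E χ hc)

theorem GoodP.mono {Z Z' : Fn3} (h : GoodP Cx Z)
    (hle : ∀ {n : ℕ} (H E : Finset (Finset (Fin n))) (χ : Fin n → Bool),
      Cx H E χ → ∀ t : Fin 6 → Fin n, Function.Injective t →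
      Z H E χ t ≤ Z' H E χ t) : GoodP Cx (fun H E χ t => Z' H E χ t) := by
  intro δ hδ
  obtain ⟨N, hN⟩ := h δ hδ
  refine ⟨N, fun n hn H E χ hc => ?_⟩
  refine le_trans (hN n hn H E χ hc) (Finset.sum_le_sum fun t ht => ?_)
  exact_mod_cast hle H E χ hc t (mem_inj.mp ht)

theorem GoodP.perm {Z : Fn3} (h : GoodP Cx Z) (π : Equiv.Perm (Fin 6)) :
    GoodP Cx (fun H E χ t => Z H E χ (t ∘ π)) := by
  intro δ hδ
  obtain ⟨N, hN⟩ := h δ hδ
  refine ⟨N, fun n hn H E χ hc => le_trans (hN n hn H E χ hc) (le_of_eq ?_)⟩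
  exact (sum_perm6 (fun t => ((Z H E χ t : ℤ) : ℝ)) π).symm

theorem GoodP.sum {ι : Type*} (s : Finset ι) (Z : ι → Fn3)
    (h : ∀ i ∈ s, GoodP Cx (fun H E χ t => Z i H E χ t)) :
    GoodP Cx (fun H E χ t => ∑ i ∈ s, Z i H E χ t) := by
  classical
  induction s using Finset.induction_on with
  | empty =>
    refine GoodP.mono (Z := fun _ _ _ _ => 0) GoodP.zero fun H E χ _ t _ => ?_
    rw [Finset.sum_empty]
  | insert a s ha ih =>
    have h1 := h a (Finset.mem_insert_self a s)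
    have h2 := ih fun i hi => h i (Finset.mem_insert_of_mem hi)
    refine GoodP.mono (h1.add h2) fun H E χ _ t _ => le_of_eq ?_
    rw [Finset.sum_insert ha]

/-- The sum over all permutations. -/
theorem GoodP.sym {Z : Fn3} (h : GoodP Cx Z) :
    GoodP Cx (fun H E χ t => ∑ π : Equiv.Perm (Fin 6), Z H E χ (t ∘ π)) :=
  GoodP.sum Finset.univ (fun (π : Equiv.Perm (Fin 6)) => fun H E χ t => Z H E χ (t ∘ π))
    fun π _ => h.perm π

/-- An error of order `n ^ 5`. -/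
theorem n5_aux {δ C : ℝ} (hδ : 0 < δ) : ∃ N : ℕ, ∀ n : ℕ, N ≤ n →
    C * (n : ℝ) ^ 5 ≤ δ * (n : ℝ) ^ 6 := by
  obtain ⟨N, hN⟩ := exists_nat_gt (|C| / δ)
  refine ⟨N, fun n hn => ?_⟩
  have hNn : (N : ℝ) ≤ n := by exact_mod_cast hn
  have h7 : |C| / δ < n := lt_of_lt_of_le hN hNn
  rw [div_lt_iff₀ hδ] at h7
  have h5 : C * (n : ℝ) ^ 5 ≤ n * δ * (n : ℝ) ^ 5 :=
    mul_le_mul_of_nonneg_right (le_trans (le_abs_self C) h7.le) (by positivity)
  have h6 : n * δ * (n : ℝ) ^ 5 = δ * (n : ℝ) ^ 6 := by ring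
  linarith

theorem GoodP.of_n5 {Z : Fn3} (C : ℝ)
    (h : ∀ {n : ℕ} (H E : Finset (Finset (Fin n))) (χ : Fin n → Bool), Cx H E χ →
      -(C * (n : ℝ) ^ 5) ≤ ∑ t ∈ inj (Fin n) 6, ((Z H E χ t : ℤ) : ℝ)) :
    GoodP Cx (fun H E χ t => Z H E χ t) := by
  intro δ hδ
  obtain ⟨N, hN⟩ := n5_aux (C := C) hδ
  refine ⟨N, fun n hn H E χ hc => le_trans ?_ (h H E χ hc)⟩
  have := hN n hn
  linarith

/-- Functions with a bound in terms of the number of tuples that are not injective. -/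
theorem GoodP.of_bound {Z : Fn3} (C : ℝ)
    (h : ∀ {n : ℕ} (H E : Finset (Finset (Fin n))) (χ : Fin n → Bool),
      Cx H E χ → -(C * ((n : ℝ) ^ 6 - (n.descFactorial 6 : ℝ))) ≤
        ∑ t ∈ inj (Fin n) 6, ((Z H E χ t : ℤ) : ℝ)) :
    GoodP Cx (fun H E χ t => Z H E χ t) := by
  intro δ hδ
  obtain ⟨N, hN⟩ := exists_nat_gt (60 * |C| / δ)
  refine ⟨max 30 N, fun n hn H E χ hc => ?_⟩
  have h30 : 30 ≤ n := le_trans (le_max_left _ _) hn
  have hNn : (N : ℝ) ≤ n := by exact_mod_cast le_trans (le_max_right _ _) hn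
  have hn0 : (0 : ℝ) < n := by exact_mod_cast (by omega : 0 < n)
  refine le_trans ?_ (h H E χ hc)
  have h1 := D6_le h30
  have h2 := desc_le n 6
  have h3 : 60 / (n : ℝ) * (n.descFactorial 6 : ℝ) ≤ 60 / (n : ℝ) * (n : ℝ) ^ 6 :=
    mul_le_mul_of_nonneg_left h2 (by positivity)
  have h4 : 0 ≤ (n : ℝ) ^ 6 - (n.descFactorial 6 : ℝ) := by linarith
  have h5 : C * ((n : ℝ) ^ 6 - (n.descFactorial 6 : ℝ)) ≤ |C| * (60 / (n : ℝ) * (n : ℝ) ^ 6) := by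
    calc C * ((n : ℝ) ^ 6 - (n.descFactorial 6 : ℝ)) ≤
        |C| * ((n : ℝ) ^ 6 - (n.descFactorial 6 : ℝ)) :=
          mul_le_mul_of_nonneg_right (le_abs_self C) h4
      _ ≤ |C| * (60 / (n : ℝ) * (n : ℝ) ^ 6) :=
          mul_le_mul_of_nonneg_left (by linarith) (abs_nonneg _)
  have h6 : |C| * (60 / (n : ℝ)) ≤ δ := by
    have h7 : 60 * |C| / δ < n := lt_of_lt_of_le hN hNn
    rw [div_lt_iff₀ hδ] at h7
    rw [← mul_div_assoc, div_le_iff₀ hn0]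
    linarith
  have h7 := mul_le_mul_of_nonneg_right h6 (by positivity : (0 : ℝ) ≤ (n : ℝ) ^ 6)
  have h8 : |C| * (60 / (n : ℝ)) * (n : ℝ) ^ 6 = |C| * (60 / (n : ℝ) * (n : ℝ) ^ 6) := by ring
  rw [h8] at h7
  linarith

/-- Functions of some of the vertices with nonnegative total sum and bounded values. -/
theorem GoodP.of_tot {k : ℕ}
    (Z : ∀ {n : ℕ}, Finset (Finset (Fin n)) → Finset (Finset (Fin n)) → (Fin n → Bool) →
      (Fin k → Fin n) → ℤ) (C : ℝ)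
    (h1 : ∀ {n : ℕ} (H E : Finset (Finset (Fin n))) (χ : Fin n → Bool),
      Cx H E χ → 0 ≤ ∑ p, ((Z H E χ p : ℤ) : ℝ))
    (h2 : ∀ {n : ℕ} (H E : Finset (Finset (Fin n))) (χ : Fin n → Bool),
      Cx H E χ → ∀ p : Fin k → Fin n, ((Z H E χ p : ℤ) : ℝ) ≤ C)
    (j : Fin k → Fin 6) (hj : Function.Injective j) :
    GoodP Cx (fun H E χ t => Z H E χ (t ∘ j)) := by
  refine GoodP.of_bound (Z := fun H E χ t => Z H E χ (t ∘ j)) C fun H E χ hc => ?_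
  have h := inj_comp_ge' (V := Fin _) (fun p => ((Z H E χ p : ℤ) : ℝ)) C (h1 H E χ hc)
    (h2 H E χ hc) j hj
  rw [Fintype.card_fin] at h
  exact h

end goodP

/-! ### Conditions with a tolerance -/

section goodW
variable {Cx : C3}

theorem GoodW.of_goodP {Cx' : X3} {Z : Fn3} (η0 : ℝ) (h0 : 0 < η0)
    (hc : ∀ {n : ℕ} (H E : Finset (Finset (Fin n))) (χ : Fin n → Bool),
      Cx η0 H E χ → Cx' H E χ) (h : GoodP Cx' Z) : GoodW Cx Z := by
  intro δ hδ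
  obtain ⟨N, hN⟩ := h δ hδ
  exact ⟨η0, h0, N, fun n hn H E χ hx => hN n hn H E χ (hc H E χ hx)⟩

theorem GoodW.weaken {Cx' : C3} {Z : Fn3} (h : GoodW Cx Z)
    (hc : ∀ (η : ℝ) {n : ℕ} (H E : Finset (Finset (Fin n))) (χ : Fin n → Bool),
      Cx' η H E χ → Cx η H E χ) : GoodW Cx' Z := by
  intro δ hδ
  obtain ⟨η, hη, N, hN⟩ := h δ hδ
  exact ⟨η, hη, N, fun n hn H E χ hx => hN n hn H E χ (hc η H E χ hx)⟩

theorem GoodW.zero : GoodW Cx (fun _ _ _ _ => 0) := by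
  intro δ hδ
  refine ⟨1, one_pos, 0, fun n _ H E χ _ => ?_⟩
  simp only [Int.cast_zero, Finset.sum_const_zero]
  have : 0 ≤ δ * (n : ℝ) ^ 6 := by positivity
  linarith

theorem GoodW.add (hm : MonoW Cx) {Z Z' : Fn3} (h : GoodW Cx Z) (h' : GoodW Cx Z') :
    GoodW Cx (fun H E χ t => Z H E χ t + Z' H E χ t) := by
  intro δ hδ
  obtain ⟨η, hη, N, hN⟩ := h (δ / 2) (by positivity)
  obtain ⟨η', hη', N', hN'⟩ := h' (δ / 2) (by positivity)
  refine ⟨min η η', lt_min hη hη', max N N', fun n hn H E χ hc => ?_⟩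
  have h1 := hN n (le_trans (le_max_left _ _) hn) H E χ (hm _ _ (min_le_left _ _) H E χ hc)
  have h2 := hN' n (le_trans (le_max_right _ _) hn) H E χ (hm _ _ (min_le_right _ _) H E χ hc)
  rw [sum_int_add]
  linarith

theorem GoodW.smul {Z : Fn3} (w : ℕ) (h : GoodW Cx Z) :
    GoodW Cx (fun H E χ t => (w : ℤ) * Z H E χ t) := by
  intro δ hδ
  obtain ⟨η, hη, N, hN⟩ := h (δ / (w + 1)) (by positivity)
  refine ⟨η, hη, N, fun n hn H E χ hc => ?_⟩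
  rw [sum_int_mul]
  exact smul_aux w hδ (hN n hn H E χ hc)

theorem GoodW.mono {Z Z' : Fn3} (h : GoodW Cx Z)
    (hle : ∀ (η : ℝ) {n : ℕ} (H E : Finset (Finset (Fin n))) (χ : Fin n → Bool),
      Cx η H E χ → ∀ t : Fin 6 → Fin n, Function.Injective t →
      Z H E χ t ≤ Z' H E χ t) : GoodW Cx (fun H E χ t => Z' H E χ t) := by
  intro δ hδ
  obtain ⟨η, hη, N, hN⟩ := h δ hδ
  refine ⟨η, hη, N, fun n hn H E χ hc => ?_⟩
  refine le_trans (hN n hn H E χ hc) (Finset.sum_le_sum fun t ht => ?_)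
  exact_mod_cast hle η H E χ hc t (mem_inj.mp ht)

theorem GoodW.perm {Z : Fn3} (h : GoodW Cx Z) (π : Equiv.Perm (Fin 6)) :
    GoodW Cx (fun H E χ t => Z H E χ (t ∘ π)) := by
  intro δ hδ
  obtain ⟨η, hη, N, hN⟩ := h δ hδ
  refine ⟨η, hη, N, fun n hn H E χ hc => le_trans (hN n hn H E χ hc) (le_of_eq ?_)⟩
  exact (sum_perm6 (fun t => ((Z H E χ t : ℤ) : ℝ)) π).symm

theorem GoodW.sum (hm : MonoW Cx) {ι : Type*} (s : Finset ι) (Z : ι → Fn3)
    (h : ∀ i ∈ s, GoodW Cx (fun H E χ t => Z i H E χ t)) :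
    GoodW Cx (fun H E χ t => ∑ i ∈ s, Z i H E χ t) := by
  classical
  induction s using Finset.induction_on with
  | empty =>
    refine GoodW.mono (Z := fun _ _ _ _ => 0) GoodW.zero fun _ _ H E χ _ t _ => ?_
    rw [Finset.sum_empty]
  | insert a s ha ih =>
    have h1 := h a (Finset.mem_insert_self a s)
    have h2 := ih fun i hi => h i (Finset.mem_insert_of_mem hi)
    refine GoodW.mono (GoodW.add hm h1 h2) fun _ _ H E χ _ t _ => le_of_eq ?_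
    rw [Finset.sum_insert ha]

/-- An error of order `n ^ 5`. -/
theorem GoodW.of_n5 {Z : Fn3} (C : ℝ)
    (h : ∀ (η : ℝ) {n : ℕ} (H E : Finset (Finset (Fin n))) (χ : Fin n → Bool), Cx η H E χ →
      -(C * (n : ℝ) ^ 5) ≤ ∑ t ∈ inj (Fin n) 6, ((Z H E χ t : ℤ) : ℝ)) :
    GoodW Cx (fun H E χ t => Z H E χ t) := by
  intro δ hδ
  obtain ⟨N, hN⟩ := n5_aux (C := C) hδ
  refine ⟨1, one_pos, N, fun n hn H E χ hc => le_trans ?_ (h 1 H E χ hc)⟩
  have := hN n hn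
  linarith

/-- An error that is a multiple of the tolerance. -/
theorem GoodW.of_tol {Z : Fn3} (C D : ℝ) (hD : 0 ≤ D)
    (h : ∀ (η : ℝ) {n : ℕ} (H E : Finset (Finset (Fin n))) (χ : Fin n → Bool), Cx η H E χ →
      -(D * η * (n : ℝ) ^ 6) - C * (n : ℝ) ^ 5 ≤
        ∑ t ∈ inj (Fin n) 6, ((Z H E χ t : ℤ) : ℝ)) :
    GoodW Cx (fun H E χ t => Z H E χ t) := by
  intro δ hδ
  obtain ⟨N, hN⟩ := n5_aux (C := C) (half_pos hδ)
  have hD1 : 0 < 2 * (D + 1) := by positivity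
  refine ⟨δ / (2 * (D + 1)), by positivity, N, fun n hn H E χ hc =>
    le_trans ?_ (h _ H E χ hc)⟩
  have h1 := hN n hn
  have h2 : D * (δ / (2 * (D + 1))) ≤ δ / 2 := by
    rw [← mul_div_assoc, div_le_div_iff₀ hD1 (by norm_num)]
    nlinarith
  have h3 := mul_le_mul_of_nonneg_right h2 (by positivity : (0 : ℝ) ≤ (n : ℝ) ^ 6)
  linarith

end goodW

/-- Functions that depend only on the 4-graph. -/
theorem GoodP.of_H {Cx : X3}
    {Z : ∀ {n : ℕ}, Finset (Finset (Fin n)) → (Fin 6 → Fin n) → ℤ}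
    (h : ∃ C : ℝ, ∀ (n : ℕ) (H : Finset (Finset (Fin n))), (∀ e ∈ H, e.card = 4) →
      (∀ T : Finset (Fin n), T.card = 5 → ∃ e ∈ T.powersetCard 4, e ∉ H) →
      -(C * (n : ℝ) ^ 5) ≤ ∑ t ∈ inj (Fin n) 6, ((Z H t : ℤ) : ℝ))
    (hc : ∀ {n : ℕ} (H E : Finset (Finset (Fin n))) (χ : Fin n → Bool), Cx H E χ →
      (∀ e ∈ H, e.card = 4) ∧ K5F H) :
    GoodP Cx (fun H _ _ t => Z H t) := by
  obtain ⟨C, hC⟩ := h
  exact GoodP.of_n5 (Z := fun H _ _ t => Z H t) C fun H E χ hx =>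
    hC _ H (hc H E χ hx).1 (hc H E χ hx).2

end Pool.Agent.Lib.MP_afdd4d_co.K9.Star.Tw
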