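import Pool.Agent.Lib.MP_afdd4d_co.K9.TwLaw

/-!
# The law of a new vertex

If the density of a reference structure without flips is close to `11 / 16`, then for almost all
tuples of vertices the colour of a further vertex and its pairs with the vertices of the tuple of the
other colour have almost the uniform law. The functions of the tuple are arbitrary.
-/

namespace Pool.Agent.Lib.MP_afdd4d_co.K9.Star.Tw

open Finset K8
open Pool.Agent.Lib.MP_afdd4d_co.K9.Marks

section code
variable {n m : ℕ}

/-- The sum with the sign of a pair and a function of the tuple, independent of the second vertex,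
and of a code that is independent of the first vertex. -/
theorem mu_code (χ : Fin n → Bool) (M : Fin n → Fin n → Bool) (i j : Fin m) (hij : i ≠ j)
    {β : Type*} [Fintype β] [DecidableEq β] (Φ : (Fin m → Fin n) → β → ℝ)
    (b : (Fin m → Fin n) → β) (B : ℝ) (hB : ∀ t w, |Φ t w| ≤ B)
    (hΦ : ∀ t y w, Φ (Function.update t j y) w = Φ t w)
    (hb : ∀ t x, b (Function.update t i x) = b t)
    (θ : ℝ) (hθ : 0 ≤ θ) (h : c4s χ M ≤ θ ^ 4 * (n : ℝ) ^ 4) :
    |∑ t : Fin m → Fin n, mu χ M (t i) (t j) * Φ t (b t)| ≤
        (Fintype.card β : ℝ) * B * (θ * (n : ℝ) ^ m) ∧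
      |∑ t : Fin m → Fin n, mu χ M (t j) (t i) * Φ t (b t)| ≤
        (Fintype.card β : ℝ) * B * (θ * (n : ℝ) ^ m) := by
  classical
  rcases isEmpty_or_nonempty (Fin m → Fin n) with he | ⟨⟨t0⟩⟩
  · have hc : (0 : ℝ) ≤ (Fintype.card β : ℝ) * |B| * (θ * (n : ℝ) ^ m) := by positivity
    rcases isEmpty_or_nonempty β with hβ | hβ
    · rw [Fintype.card_eq_zero, Nat.cast_zero, zero_mul, zero_mul]
      rw [Finset.univ_eq_empty, Finset.sum_empty, Finset.sum_empty, abs_zero]
      exact ⟨le_refl _, le_refl _⟩
    · have hn : (n : ℝ) ^ m = 0 := by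
        have h1 := Fintype.card_eq_zero (α := Fin m → Fin n)
        rw [Fintype.card_fun, Fintype.card_fin, Fintype.card_fin] at h1
        exact_mod_cast h1
      rw [hn, mul_zero, mul_zero, Finset.univ_eq_empty, Finset.sum_empty, Finset.sum_empty,
        abs_zero]
      exact ⟨le_refl _, le_refl _⟩
  have hB0 : 0 ≤ B ∨ Fintype.card β = 0 := by
    rcases isEmpty_or_nonempty β with hβ | ⟨⟨w⟩⟩
    · exact Or.inr Fintype.card_eq_zero
    · exact Or.inl (le_trans (abs_nonneg _) (hB t0 w))
  rcases hB0 with hB0 | hc0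
  swap
  · have hβ : IsEmpty β := Fintype.card_eq_zero_iff.mp hc0
    exact (hβ.false (b t0)).elim
  rcases hB0.lt_or_eq with hB1 | hB1
  swap
  · have hz : ∀ t w, Φ t w = 0 := fun t w => by
      have := hB t w
      rw [← hB1] at this
      exact abs_eq_zero.mp (le_antisymm this (abs_nonneg _))
    simp only [hz, mul_zero, Finset.sum_const_zero, abs_zero]
    rw [← hB1, mul_zero, zero_mul]
    exact ⟨le_refl _, le_refl _⟩
  -- the expansion
  have e1 : ∀ (ν : (Fin m → Fin n) → ℝ), ∑ t : Fin m → Fin n, ν t * Φ t (b t) =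
      ∑ w : β, B * ∑ t : Fin m → Fin n, ν t * ((Φ t w / B) * (if b t = w then 1 else 0)) := by
    intro ν
    have e2 : ∀ w : β, B * ∑ t : Fin m → Fin n, ν t * ((Φ t w / B) * (if b t = w then 1 else 0)) =
        ∑ t : Fin m → Fin n, ν t * (Φ t w * (if b t = w then 1 else 0)) := by
      intro w
      rw [Finset.mul_sum]
      refine Finset.sum_congr rfl fun t _ => ?_
      field_simp
    rw [Finset.sum_congr rfl fun w _ => e2 w, Finset.sum_comm]
    refine Finset.sum_congr rfl fun t _ => ?_
    rw [← Finset.mul_sum]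
    congr 1
    simp only [mul_ite, mul_one, mul_zero]
    rw [Finset.sum_ite_eq]
    simp
  have hU1 : ∀ (w : β) (t : Fin m → Fin n), |Φ t w / B| ≤ 1 := by
    intro w t
    rw [abs_div, abs_of_pos hB1, div_le_one hB1]
    exact hB t w
  have hW1 : ∀ (w : β) (t : Fin m → Fin n), |(if b t = w then (1 : ℝ) else 0)| ≤ 1 := by
    intro w t
    split_ifs <;> norm_num
  have hU : ∀ (w : β) (t : Fin m → Fin n) y, Φ (Function.update t j y) w / B = Φ t w / B :=
    fun w t y => by rw [hΦ]
  have hW : ∀ (w : β) (t : Fin m → Fin n) x, (if b (Function.update t i x) = w then (1 : ℝ) else 0) =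
      if b t = w then 1 else 0 := fun w t x => by rw [hb]
  constructor
  · rw [e1 fun t => mu χ M (t i) (t j)]
    refine le_trans (Finset.abs_sum_le_sum_abs _ _) ?_
    refine le_trans (Finset.sum_le_sum (g := fun _ => B * (θ * (n : ℝ) ^ m)) fun w _ => ?_) ?_
    · rw [abs_mul, abs_of_pos hB1]
      refine mul_le_mul_of_nonneg_left ?_ hB1.le
      exact sum_mu_le χ M i j hij (fun t => Φ t w / B) (fun t => if b t = w then 1 else 0)
        (hU1 w) (hW1 w) (hU w) (hW w) θ hθ h
    · rw [Finset.sum_const, Finset.card_univ, nsmul_eq_mul]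
      exact le_of_eq (by ring)
  · rw [e1 fun t => mu χ M (t j) (t i)]
    refine le_trans (Finset.abs_sum_le_sum_abs _ _) ?_
    refine le_trans (Finset.sum_le_sum (g := fun _ => B * (θ * (n : ℝ) ^ m)) fun w _ => ?_) ?_
    · rw [abs_mul, abs_of_pos hB1]
      refine mul_le_mul_of_nonneg_left ?_ hB1.le
      have h2 := sum_mu_le χ M j i hij.symm (fun t => if b t = w then 1 else 0)
        (fun t => Φ t w / B) (hW1 w) (hU1 w) (hW w) (hU w) θ hθ h
      have e3 : ∀ t : Fin m → Fin n, mu χ M (t j) (t i) *
          ((if b t = w then (1 : ℝ) else 0) * (Φ t w / B)) = mu χ M (t j) (t i) *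
          ((Φ t w / B) * (if b t = w then 1 else 0)) := fun t => by ring
      rw [Finset.sum_congr rfl fun t _ => e3 t] at h2
      exact h2
    · rw [Finset.sum_const, Finset.card_univ, nsmul_eq_mul]
      exact le_of_eq (by ring)

end code

/-! ### The pairs of a new vertex -/

section row
variable {n k : ℕ}

/-- The pair of two vertices of different colours. -/
def rb2 (χ : Fin n → Bool) (M : Fin n → Fin n → Bool) (x y : Fin n) : Bool :=
  if χ x = χ y then false else if χ y = true then M x y else M y x

/-- The pairs of a new vertex with the vertices of a tuple. -/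
def rowb (χ : Fin n → Bool) (M : Fin n → Fin n → Bool) (s : Fin k → Fin n) (y : Fin n) :
    Fin k → Bool := fun i => rb2 χ M (s i) y

/-- The pairs with vertices of the other colour. -/
def msk (χ : Fin n → Bool) (s : Fin k → Fin n) (cy : Bool) (z : Fin k → Bool) : Fin k → Bool :=
  fun i => if χ (s i) = cy then false else z i

/-- The sign of the pair of two vertices of different colours. -/
def mu2 (χ : Fin n → Bool) (M : Fin n → Fin n → Bool) (x y : Fin n) : ℝ :=
  mu χ M x y + mu χ M y x

/-- One pair. -/
theorem one_pair (χ : Fin n → Bool) (M : Fin n → Fin n → Bool) (x y : Fin n) (A : Bool → ℝ) :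
    A (rb2 χ M x y) - (A (if χ x = χ y then false else false) +
      A (if χ x = χ y then false else true)) / 2 =
      mu2 χ M x y * ((A false - A true) / 2) := by
  unfold rb2 mu2 mu
  cases hx : χ x <;> cases hy : χ y <;> cases hM : M x y <;> cases hM' : M y x <;>
    simp <;> ring

/-- The sum over the functions with values in `Bool`. -/
theorem sum_updB (G : (Fin k → Bool) → ℝ) (l : Fin k) :
    ∑ z : Fin k → Bool, (G (Function.update z l false) + G (Function.update z l true)) / 2 =
      ∑ z : Fin k → Bool, G z := by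
  classical
  have e1 : ∑ z : Fin k → Bool, ∑ b : Bool, G (Function.update z l b) =
      2 * ∑ z : Fin k → Bool, G z := by
    have e1 : ∑ z : Fin k → Bool, ∑ b : Bool, G (Function.update z l b) =
        ∑ p : (Fin k → Bool) × Bool, G (Function.update p.1 l p.2) := by
      rw [Fintype.sum_prod_type]
    have e2 : ∑ p : (Fin k → Bool) × Bool, G (Function.update p.1 l p.2) =
        ∑ p : (Fin k → Bool) × Bool, G p.1 := by
      refine Fintype.sum_equiv (Function.Involutive.toPerm
        (fun p : (Fin k → Bool) × Bool => (Function.update p.1 l p.2, p.1 l)) ?_) _ _ ?_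
      · rintro ⟨t, x⟩
        simp
      · rintro ⟨t, x⟩
        rfl
    rw [e1, e2, Fintype.sum_prod_type]
    simp only [Finset.sum_const, Finset.card_univ, Fintype.card_bool, nsmul_eq_mul]
    rw [Finset.mul_sum]
    refine Finset.sum_congr rfl fun z _ => ?_
    push_cast
    ring
  have e2 : ∀ z : Fin k → Bool, (G (Function.update z l false) + G (Function.update z l true)) / 2 =
      (∑ b : Bool, G (Function.update z l b)) / 2 := by
    intro z
    rw [Fintype.sum_bool]
    ring
  rw [Finset.sum_congr rfl fun z _ => e2 z, ← Finset.sum_div, e1]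
  ring

/-- The pairs of the new vertex, uniform for the first `l` vertices of the tuple. -/
def hyb (χ : Fin n → Bool) (M : Fin n → Fin n → Bool) (l : ℕ) (z : Fin k → Bool)
    (s : Fin k → Fin n) (y : Fin n) : Fin k → Bool :=
  fun i => if (i : ℕ) < l then msk χ s (χ y) z i else rowb χ M s y i

theorem hyb_zero (χ : Fin n → Bool) (M : Fin n → Fin n → Bool) (z : Fin k → Bool)
    (s : Fin k → Fin n) (y : Fin n) : hyb χ M 0 z s y = rowb χ M s y := by
  funext i
  unfold hyb
  rw [if_neg (Nat.not_lt_zero _)]

theorem hyb_last (χ : Fin n → Bool) (M : Fin n → Fin n → Bool) (z : Fin k → Bool)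
    (s : Fin k → Fin n) (y : Fin n) : hyb χ M k z s y = msk χ s (χ y) z := by
  funext i
  unfold hyb
  rw [if_pos i.isLt]

/-- The sum over the tuples and the new vertex. -/
theorem sum_snoc (F : (Fin k → Fin n) → Fin n → ℝ) :
    ∑ t : Fin (k + 1) → Fin n, F (Fin.init t) (t (Fin.last k)) =
      ∑ s : Fin k → Fin n, ∑ y : Fin n, F s y := by
  have e := (Fintype.sum_equiv (Fin.snocEquiv (fun _ : Fin (k + 1) => Fin n))
    (fun p => F p.2 p.1) (fun t => F (Fin.init t) (t (Fin.last k)))
    (fun p => by simp [Fin.snocEquiv])).symm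
  rw [e, Fintype.sum_prod_type, Finset.sum_comm]

/-- One step of the exchange of the pairs. -/
theorem hyb_step (χ : Fin n → Bool) (M : Fin n → Fin n → Bool)
    (F : (Fin k → Fin n) → Bool → (Fin k → Bool) → ℝ) (B : ℝ) (hB : ∀ s c z, |F s c z| ≤ B)
    (θ : ℝ) (hθ : 0 ≤ θ) (h : c4s χ M ≤ θ ^ 4 * (n : ℝ) ^ 4) (l : ℕ) (hl : l < k) :
    |∑ s : Fin k → Fin n, ∑ y : Fin n, ∑ z : Fin k → Bool, F s (χ y) (hyb χ M l z s y) -
      ∑ s : Fin k → Fin n, ∑ y : Fin n, ∑ z : Fin k → Bool, F s (χ y) (hyb χ M (l + 1) z s y)| ≤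
      4 ^ (k + 1) * (B * (θ * (n : ℝ) ^ (k + 1))) := by
  classical
  set L : Fin k := ⟨l, hl⟩ with hL
  -- the difference for one tuple
  have e1 : ∀ (s : Fin k → Fin n) (y : Fin n),
      ∑ z : Fin k → Bool, F s (χ y) (hyb χ M l z s y) -
        ∑ z : Fin k → Bool, F s (χ y) (hyb χ M (l + 1) z s y) =
      ∑ z : Fin k → Bool, mu2 χ M (s L) y *
        ((F s (χ y) (Function.update (hyb χ M l z s y) L false) -
          F s (χ y) (Function.update (hyb χ M l z s y) L true)) / 2) := by
    intro s y
    rw [← sum_updB (fun z => F s (χ y) (hyb χ M (l + 1) z s y)) L, ← Finset.sum_sub_distrib]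
    refine Finset.sum_congr rfl fun z _ => ?_
    rw [← one_pair χ M (s L) y (fun b => F s (χ y) (Function.update (hyb χ M l z s y) L b))]
    have e2 : Function.update (hyb χ M l z s y) L (rb2 χ M (s L) y) = hyb χ M l z s y := by
      funext i
      by_cases hi : i = L
      · rw [hi, Function.update_self]
        unfold hyb rowb
        rw [if_neg (by rw [hL]; exact lt_irrefl _)]
      · rw [Function.update_of_ne hi]
    have e3 : ∀ b : Bool, hyb χ M (l + 1) (Function.update z L b) s y =
        Function.update (hyb χ M l z s y) L (if χ (s L) = χ y then false else b) := by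
      intro b
      funext i
      by_cases hi : i = L
      · rw [hi, Function.update_self]
        unfold hyb msk
        rw [if_pos (by rw [hL]; exact Nat.lt_succ_self _), Function.update_self]
      · rw [Function.update_of_ne hi]
        have hi2 : (i : ℕ) ≠ l := fun h5 => hi (Fin.ext h5)
        unfold hyb
        by_cases h6 : (i : ℕ) < l
        · rw [if_pos h6, if_pos (by omega)]
          unfold msk
          rw [Function.update_of_ne hi]
        · rw [if_neg h6, if_neg (by omega)]
    beta_reduce
    rw [e2, e3 false, e3 true]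
  -- the sum over the tuples of `k + 1` vertices
  set Φ : (Fin k → Bool) → (Fin (k + 1) → Fin n) → (Bool × (Fin k → Bool)) → ℝ :=
    fun z t w => (F (Fin.init t) w.1 (Function.update
      (fun i => if (i : ℕ) < l then msk χ (Fin.init t) w.1 z i else w.2 i) L false) -
      F (Fin.init t) w.1 (Function.update
      (fun i => if (i : ℕ) < l then msk χ (Fin.init t) w.1 z i else w.2 i) L true)) / 2 with hΦ
  set bb : (Fin (k + 1) → Fin n) → (Bool × (Fin k → Bool)) :=
    fun t => (χ (t (Fin.last k)), fun i => if i = L then false else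
      rowb χ M (Fin.init t) (t (Fin.last k)) i) with hbb
  have hinit : ∀ (t : Fin (k + 1) → Fin n) (y : Fin n),
      (Fin.init (Function.update t (Fin.last k) y) : Fin k → Fin n) = Fin.init t := by
    intro t y
    funext i
    unfold Fin.init
    rw [Function.update_of_ne (Fin.castSucc_lt_last i).ne]
  have e4 : ∀ z : Fin k → Bool, |∑ s : Fin k → Fin n, ∑ y : Fin n, mu2 χ M (s L) y *
        ((F s (χ y) (Function.update (hyb χ M l z s y) L false) -
          F s (χ y) (Function.update (hyb χ M l z s y) L true)) / 2)| ≤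
      2 ^ (k + 2) * (B * (θ * (n : ℝ) ^ (k + 1))) := by
    intro z
    have h1 := mu_code χ M L.castSucc (Fin.last k) (Fin.castSucc_lt_last L).ne (Φ z) bb B
      (by
        intro t w
        rw [hΦ]
        beta_reduce
        have h2 := hB (Fin.init t) w.1 (Function.update
          (fun i => if (i : ℕ) < l then msk χ (Fin.init t) w.1 z i else w.2 i) L false)
        have h3 := hB (Fin.init t) w.1 (Function.update
          (fun i => if (i : ℕ) < l then msk χ (Fin.init t) w.1 z i else w.2 i) L true)
        rw [abs_le] at h2 h3 ⊢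
        constructor <;> linarith [h2.1, h2.2, h3.1, h3.2])
      (by
        intro t y w
        rw [hΦ]
        beta_reduce
        rw [hinit])
      (by
        intro t x
        rw [hbb]
        beta_reduce
        have h2 : Function.update t L.castSucc x (Fin.last k) = t (Fin.last k) := by
          rw [Function.update_of_ne (Fin.castSucc_lt_last L).ne']
        rw [h2]
        refine Prod.ext rfl ?_
        funext i
        show (if i = L then false else rowb χ M (Fin.init (Function.update t L.castSucc x))
          (t (Fin.last k)) i) = if i = L then false else rowb χ M (Fin.init t) (t (Fin.last k)) i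
        by_cases hi : i = L
        · rw [if_pos hi, if_pos hi]
        · rw [if_neg hi, if_neg hi]
          unfold rowb
          have h3 : (Fin.init (Function.update t L.castSucc x) : Fin k → Fin n) i =
              (Fin.init t : Fin k → Fin n) i := by
            unfold Fin.init
            rw [Function.update_of_ne]
            intro h4
            exact hi (Fin.castSucc_injective k h4)
          rw [h3])
      θ hθ h
    have e5 : ∀ t : Fin (k + 1) → Fin n, Φ z t (bb t) =
        (F (Fin.init t) (χ (t (Fin.last k))) (Function.update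
          (hyb χ M l z (Fin.init t) (t (Fin.last k))) L false) -
        F (Fin.init t) (χ (t (Fin.last k))) (Function.update
          (hyb χ M l z (Fin.init t) (t (Fin.last k))) L true)) / 2 := by
      intro t
      have h2 : ∀ b : Bool, Function.update (fun i : Fin k => if (i : ℕ) < l then
          msk χ (Fin.init t) (χ (t (Fin.last k))) z i else if i = L then false else
            rowb χ M (Fin.init t) (t (Fin.last k)) i) L b =
          Function.update (hyb χ M l z (Fin.init t) (t (Fin.last k))) L b := by
        intro b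
        funext i
        by_cases hi : i = L
        · rw [hi, Function.update_self, Function.update_self]
        · rw [Function.update_of_ne hi, Function.update_of_ne hi]
          unfold hyb
          rw [if_neg hi]
      rw [hΦ, hbb]
      beta_reduce
      rw [h2 false, h2 true]
    have e6 : ∑ s : Fin k → Fin n, ∑ y : Fin n, mu2 χ M (s L) y *
        ((F s (χ y) (Function.update (hyb χ M l z s y) L false) -
          F s (χ y) (Function.update (hyb χ M l z s y) L true)) / 2) =
        ∑ t : Fin (k + 1) → Fin n, mu χ M (t L.castSucc) (t (Fin.last k)) * Φ z t (bb t) +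
        ∑ t : Fin (k + 1) → Fin n, mu χ M (t (Fin.last k)) (t L.castSucc) * Φ z t (bb t) := by
      rw [← Finset.sum_add_distrib, ← sum_snoc (fun s y => mu2 χ M (s L) y *
        ((F s (χ y) (Function.update (hyb χ M l z s y) L false) -
          F s (χ y) (Function.update (hyb χ M l z s y) L true)) / 2))]
      refine Finset.sum_congr rfl fun t _ => ?_
      rw [e5 t]
      unfold mu2
      have h2 : (Fin.init t : Fin k → Fin n) L = t L.castSucc := rfl
      rw [h2]
      ring
    rw [e6]
    have hc : (Fintype.card (Bool × (Fin k → Bool)) : ℝ) = 2 ^ (k + 1) := by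
      rw [Fintype.card_prod, Fintype.card_bool, Fintype.card_fun, Fintype.card_bool,
        Fintype.card_fin]
      push_cast
      ring
    rw [hc] at h1
    refine le_trans (abs_add_le _ _) ?_
    calc _ ≤ 2 ^ (k + 1) * B * (θ * (n : ℝ) ^ (k + 1)) +
        2 ^ (k + 1) * B * (θ * (n : ℝ) ^ (k + 1)) := add_le_add h1.1 h1.2
      _ = _ := by ring
  have e7 : ∑ s : Fin k → Fin n, ∑ y : Fin n, ∑ z : Fin k → Bool, F s (χ y) (hyb χ M l z s y) -
      ∑ s : Fin k → Fin n, ∑ y : Fin n, ∑ z : Fin k → Bool, F s (χ y) (hyb χ M (l + 1) z s y) =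
      ∑ z : Fin k → Bool, ∑ s : Fin k → Fin n, ∑ y : Fin n, mu2 χ M (s L) y *
        ((F s (χ y) (Function.update (hyb χ M l z s y) L false) -
          F s (χ y) (Function.update (hyb χ M l z s y) L true)) / 2) := by
    have e9 : ∀ s : Fin k → Fin n,
        ∑ y : Fin n, ∑ z : Fin k → Bool, F s (χ y) (hyb χ M l z s y) -
        ∑ y : Fin n, ∑ z : Fin k → Bool, F s (χ y) (hyb χ M (l + 1) z s y) =
        ∑ z : Fin k → Bool, ∑ y : Fin n, mu2 χ M (s L) y *
        ((F s (χ y) (Function.update (hyb χ M l z s y) L false) -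
          F s (χ y) (Function.update (hyb χ M l z s y) L true)) / 2) := by
      intro s
      rw [← Finset.sum_sub_distrib, Finset.sum_congr rfl fun y _ => e1 s y, Finset.sum_comm]
    rw [← Finset.sum_sub_distrib, Finset.sum_congr rfl fun s _ => e9 s, Finset.sum_comm]
  rw [e7]
  refine le_trans (Finset.abs_sum_le_sum_abs _ _) ?_
  refine le_trans (Finset.sum_le_sum fun z _ => e4 z) ?_
  rw [Finset.sum_const, Finset.card_univ, Fintype.card_fun, Fintype.card_bool, Fintype.card_fin,
    nsmul_eq_mul]
  push_cast
  have e8 : (4 : ℝ) ^ (k + 1) = 2 ^ k * 2 ^ (k + 2) := by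
    rw [← pow_add, show (4 : ℝ) = 2 ^ 2 by norm_num, ← pow_mul]
    congr 1
    ring
  rw [e8]
  exact le_of_eq (by ring)

/-- The law of a new vertex: for functions of a tuple, of the colour of the new vertex and of its
pairs with the tuple. -/
theorem ext_law (χ : Fin n → Bool) (M : Fin n → Fin n → Bool)
    (F : (Fin k → Fin n) → Bool → (Fin k → Bool) → ℝ) (B : ℝ) (hB : ∀ s c z, |F s c z| ≤ B)
    (θ : ℝ) (hθ : 0 ≤ θ) (h : c4s χ M ≤ θ ^ 4 * (n : ℝ) ^ 4) (hd : |dn χ| ≤ θ * n) :
    |2 ^ (k + 1) * ∑ s : Fin k → Fin n, ∑ y : Fin n, F s (χ y) (rowb χ M s y) -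
      ∑ s : Fin k → Fin n, ∑ _y : Fin n, ∑ c : Bool, ∑ z : Fin k → Bool, F s c (msk χ s c z)| ≤
      (2 * k * 4 ^ (k + 1) + 2 ^ (k + 1)) * (B * (θ * (n : ℝ) ^ (k + 1))) := by
  classical
  rcases Nat.eq_zero_or_pos n with hn | hn
  · subst hn
    simp
  have hn0 : (0 : ℝ) ≤ n := Nat.cast_nonneg n
  have hB0 : 0 ≤ B := le_trans (abs_nonneg _) (hB (fun _ => ⟨0, hn⟩) false fun _ => false)
  set S : ℕ → ℝ := fun l => ∑ s : Fin k → Fin n, ∑ y : Fin n, ∑ z : Fin k → Bool,
    F s (χ y) (hyb χ M l z s y) with hS
  have h1 : ∀ l : ℕ, l ≤ k → |S 0 - S l| ≤ l * (4 ^ (k + 1) * (B * (θ * (n : ℝ) ^ (k + 1)))) := by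
    intro l
    induction l with
    | zero =>
      intro _
      simp
    | succ l ih =>
      intro hl
      have h2 := ih (by omega)
      have h3 := hyb_step χ M F B hB θ hθ h l (by omega)
      have e1 : S 0 - S (l + 1) = (S 0 - S l) + (S l - S (l + 1)) := by ring
      rw [e1]
      refine le_trans (abs_add_le _ _) ?_
      push_cast
      have h4 : |S l - S (l + 1)| ≤ 4 ^ (k + 1) * (B * (θ * (n : ℝ) ^ (k + 1))) := h3
      linarith
  have h2 := h1 k (le_refl k)
  have e0 : S 0 = 2 ^ k * ∑ s : Fin k → Fin n, ∑ y : Fin n, F s (χ y) (rowb χ M s y) := by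
    rw [hS]
    beta_reduce
    simp only [hyb_zero, Finset.sum_const, Finset.card_univ, Fintype.card_fun, Fintype.card_bool,
      Fintype.card_fin, nsmul_eq_mul, ← Finset.mul_sum]
    push_cast
    ring
  have ek : S k = ∑ s : Fin k → Fin n, ∑ y : Fin n, ∑ z : Fin k → Bool,
      F s (χ y) (msk χ s (χ y) z) := by
    rw [hS]
    beta_reduce
    simp only [hyb_last]
  -- the colour
  have h3 : ∀ G : Bool → ℝ, (∀ c, |G c| ≤ 2 ^ k * B) →
      |2 * ∑ y : Fin n, G (χ y) - ∑ _y : Fin n, ∑ c : Bool, G c| ≤ 2 ^ (k + 1) * B * (θ * n) := by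
    intro G hG
    have e1 : ∑ y : Fin n, G (χ y) = (nc χ true : ℝ) * G true + (nc χ false : ℝ) * G false := by
      have e2 : ∀ y : Fin n, G (χ y) = (if χ y = true then G true else 0) +
          (if χ y = false then G false else 0) := by
        intro y
        cases χ y <;> simp
      rw [Finset.sum_congr rfl fun y _ => e2 y, Finset.sum_add_distrib, ← Finset.sum_filter,
        ← Finset.sum_filter, Finset.sum_const, Finset.sum_const, nsmul_eq_mul, nsmul_eq_mul]
      rfl
    have e3 : (n : ℝ) = nc χ true + nc χ false := by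
      have h4 := Finset.card_filter_add_card_filter_not (s := (Finset.univ : Finset (Fin n)))
        (fun y => χ y = true)
      have hf : ((Finset.univ : Finset (Fin n)).filter fun y => ¬χ y = true) =
          Finset.univ.filter fun y => χ y = false := by
        refine Finset.filter_congr fun v _ => ?_
        rw [Bool.not_eq_true]
      rw [hf, Finset.card_univ, Fintype.card_fin] at h4
      have h5 : nc χ true + nc χ false = n := h4
      exact_mod_cast h5.symm
    have e4 : 2 * ∑ y : Fin n, G (χ y) - ∑ _y : Fin n, ∑ c : Bool, G c =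
        dn χ * (G false - G true) := by
      rw [Finset.sum_const, Finset.card_univ, Fintype.card_fin, nsmul_eq_mul, Fintype.sum_bool,
        e1]
      unfold dn
      linear_combination (-(G true + G false)) * e3
    rw [e4, abs_mul]
    have h5 : |G false - G true| ≤ 2 ^ (k + 1) * B := by
      have h6 := hG false
      have h7 := hG true
      rw [abs_le] at h6 h7 ⊢
      rw [pow_succ]
      constructor <;> linarith [h6.1, h6.2, h7.1, h7.2]
    calc |dn χ| * |G false - G true| ≤ (θ * n) * (2 ^ (k + 1) * B) :=
          mul_le_mul hd h5 (abs_nonneg _) (by positivity)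
      _ = _ := by ring
  have h4 : |2 * S k - ∑ s : Fin k → Fin n, ∑ _y : Fin n, ∑ c : Bool, ∑ z : Fin k → Bool,
      F s c (msk χ s c z)| ≤ 2 ^ (k + 1) * (B * (θ * (n : ℝ) ^ (k + 1))) := by
    rw [ek, Finset.mul_sum, ← Finset.sum_sub_distrib]
    refine le_trans (Finset.abs_sum_le_sum_abs _ _) ?_
    refine le_trans (Finset.sum_le_sum fun s _ => h3 (fun c => ∑ z : Fin k → Bool,
      F s c (msk χ s c z)) fun c => ?_) ?_
    · refine le_trans (Finset.abs_sum_le_sum_abs _ _) ?_
      refine le_trans (Finset.sum_le_sum fun z _ => hB s c (msk χ s c z)) ?_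
      rw [Finset.sum_const, Finset.card_univ, Fintype.card_fun, Fintype.card_bool,
        Fintype.card_fin, nsmul_eq_mul]
      push_cast
      exact le_refl _
    · rw [Finset.sum_const, Finset.card_univ, Fintype.card_fun, Fintype.card_fin,
        Fintype.card_fin, nsmul_eq_mul]
      push_cast
      exact le_of_eq (by ring)
  have e5 : 2 ^ (k + 1) * ∑ s : Fin k → Fin n, ∑ y : Fin n, F s (χ y) (rowb χ M s y) -
      ∑ s : Fin k → Fin n, ∑ _y : Fin n, ∑ c : Bool, ∑ z : Fin k → Bool, F s c (msk χ s c z) =
      2 * (S 0 - S k) + (2 * S k - ∑ s : Fin k → Fin n, ∑ _y : Fin n, ∑ c : Bool,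
        ∑ z : Fin k → Bool, F s c (msk χ s c z)) := by
    rw [e0]
    ring
  rw [e5]
  refine le_trans (abs_add_le _ _) ?_
  rw [abs_mul, abs_of_pos (by norm_num : (0 : ℝ) < 2)]
  linarith

end row

end Pool.Agent.Lib.MP_afdd4d_co.K9.Star.Tw
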