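import Pool.Agent.Lib.MP_afdd4d_co.K9.TwMove
import Pool.Agent.Lib.MP_afdd4d_co.K9.TwStr
import Pool.Agent.Lib.MP_afdd4d_co.K9.SumO5

/-!
# General costs

The even 4-graph minimises a cost that is a sum over the quadruples of an integer function of the
memberships in the 4-graph and in the even 4-graph; the function can take negative values, so that
the cost can contain the density of the even 4-graph.
-/

namespace Pool.Agent.Lib.MP_afdd4d_co.K9.Star.Tw

open Finset K8
open Pool.Agent.Lib.MP_afdd4d_co.K9.Marks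

/-- A bound for the cost of a quadruple and for its changes. -/
def cB (c : Bool → Bool → ℤ) : ℕ :=
  (c true true).natAbs + (c true false).natAbs + (c false true).natAbs + (c false false).natAbs

theorem abs_le_cB (c : Bool → Bool → ℤ) (x y : Bool) : |c x y| ≤ cB c := by
  unfold cB
  have h1 := Int.natCast_natAbs (c true true)
  have h2 := Int.natCast_natAbs (c true false)
  have h3 := Int.natCast_natAbs (c false true)
  have h4 := Int.natCast_natAbs (c false false)
  push_cast
  have g1 := abs_nonneg (c true true)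
  have g2 := abs_nonneg (c true false)
  have g3 := abs_nonneg (c false true)
  have g4 := abs_nonneg (c false false)
  cases x <;> cases y <;> linarith

/-- The change of the cost of a quadruple. -/
def dz (c : Bool → Bool → ℤ) (x y : Bool) : ℤ := c x (!y) - c x y

theorem abs_dz_le (c : Bool → Bool → ℤ) (x y : Bool) : |dz c x y| ≤ cB c := by
  unfold cB dz
  have h1 := Int.natCast_natAbs (c true true)
  have h2 := Int.natCast_natAbs (c true false)
  have h3 := Int.natCast_natAbs (c false true)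
  have h4 := Int.natCast_natAbs (c false false)
  push_cast
  have g1 := abs_nonneg (c true true)
  have g2 := abs_nonneg (c true false)
  have g3 := abs_nonneg (c false true)
  have g4 := abs_nonneg (c false false)
  have h := abs_sub (c x (!y)) (c x y)
  cases x <;> cases y <;> simp only [Bool.not_true, Bool.not_false] at h ⊢ <;> linarith

theorem dz_le (c : Bool → Bool → ℤ) (x y : Bool) : dz c x y ≤ cB c :=
  le_trans (le_abs_self _) (abs_dz_le c x y)

theorem dc_dz (c : Bool → Bool → ℤ) {n : ℕ} (H E : Finset (Finset (Fin n)))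
    (Q : Finset (Fin n)) : dc c H E Q = dz c (decide (Q ∈ H)) (decide (Q ∈ E)) := rfl

theorem dz_wc (wp wm : ℕ) (x y : Bool) : dz (wc wp wm) x y = dw wp wm x y := dw_eq wp wm x y

section mv
variable {n i j : ℕ}

theorem mvx_leG (c : Bool → Bool → ℤ) (H E : Finset (Finset (Fin n))) (u : Fin i → Fin n)
    (φ : (Fin j → Fin n) → Bool) (x : Fin (j + 1) → Fin n) :
    mvx c H E u φ x ≤ cB c := by
  have h0 : (0 : ℤ) ≤ cB c := Int.natCast_nonneg _
  unfold mvx
  split_ifs
  · rw [dc_dz]
    exact dz_le _ _ _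
  · exact h0
  · exact h0

/-- The term of a change: a multiplier of the roots and the change of the cost. -/
noncomputable def mvG (c : Bool → Bool → ℤ) (μ : MuX (i + 2)) (R : Rl i j) (P : ParX) {n : ℕ}
    (H E : Finset (Finset (Fin n))) (χ : Fin n → Bool) (p : Fin (i + 2 + (j + 1)) → Fin n) : ℤ :=
  (μ.F (wt P H E χ (p ∘ Fin.castAdd (j + 1))) : ℕ) *
    mvx c H E ((p ∘ Fin.castAdd (j + 1)) ∘ Fin.castAdd 2)
      (R.φ P H E χ (p ∘ Fin.castAdd (j + 1))) (p ∘ Fin.natAdd (i + 2))

/-- The smallest cost. -/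
def OptG (Cx : X3) (c : Bool → Bool → ℤ) : Prop :=
  ∀ {n : ℕ} (H E : Finset (Finset (Fin n))) (χ : Fin n → Bool), Cx H E χ → OptE c H E

theorem OptG.of3 {Cx : X3} {wp wm : ℕ} (h : OptC3 Cx wp wm) : OptG Cx (wc wp wm) :=
  fun H E χ hc => h H E χ hc

theorem good_mvG {Cx : X3} (hij : i + (j + 1) = 4) (c : Bool → Bool → ℤ) (hO : OptG Cx c)
    (μ : MuX (i + 2)) (R : Rl i j) (P : ParX) (f : Fin (i + 2 + (j + 1)) → Fin 6)
    (hf : Function.Injective f) :
    GoodP Cx (fun H E χ t => mvG c μ R P H E χ (t ∘ f)) := by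
  refine GoodP.of_tot (k := i + 2 + (j + 1)) (fun H E χ p => mvG c μ R P H E χ p)
    ((μ.B * cB c : ℕ) : ℝ) (fun {n} H E χ hc => ?_) (fun {n} H E χ hc p => ?_) f hf
  · have h1 : (0 : ℤ) ≤ ∑ p, mvG c μ R P H E χ p := by
      rw [sum_app (k := i + 2) (l := j + 1)]
      refine Finset.sum_nonneg fun s _ => ?_
      have e : ∀ x : Fin (j + 1) → Fin n, mvG c μ R P H E χ (Fin.append s x) =
          (μ.F (wt P H E χ s) : ℕ) * mvx c H E (s ∘ Fin.castAdd 2)
            (R.φ P H E χ s) x := by
        intro x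
        unfold mvG
        have e1 : (Fin.append s x : Fin (i + 2 + (j + 1)) → Fin n) ∘ Fin.castAdd (j + 1) = s :=
          append_castAdd s x
        have e2 : (Fin.append s x : Fin (i + 2 + (j + 1)) → Fin n) ∘ Fin.natAdd (i + 2) = x := by
          funext a
          exact Fin.append_right s x a
        rw [e1, e2]
      rw [Finset.sum_congr rfl fun x _ => e x, ← Finset.mul_sum]
      exact mul_nonneg (Int.natCast_nonneg _)
        (mvx_sum hij c H E (hO H E χ hc) _ _ (R.φ_sy P H E χ s))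
    exact_mod_cast h1
  · have h1 : mvG c μ R P H E χ p ≤ ((μ.B * cB c : ℕ) : ℤ) := by
      unfold mvG
      have h2 := mvx_leG c H E ((p ∘ Fin.castAdd (j + 1)) ∘ Fin.castAdd 2)
        (R.φ P H E χ (p ∘ Fin.castAdd (j + 1))) (p ∘ Fin.natAdd (i + 2))
      have h3 : (μ.F (wt P H E χ (p ∘ Fin.castAdd (j + 1))) : ℤ) ≤ μ.B := by
        exact_mod_cast μ.hB _
      push_cast
      calc _ ≤ (μ.F (wt P H E χ (p ∘ Fin.castAdd (j + 1))) : ℤ) * cB c :=
            mul_le_mul_of_nonneg_left h2 (Int.natCast_nonneg _)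
        _ ≤ μ.B * cB c := mul_le_mul_of_nonneg_right h3 (Int.natCast_nonneg _)
    exact_mod_cast h1

/-- The value of a change on a window. -/
def mvVG (c : Bool → Bool → ℤ) {i j : ℕ} (μ : MuX (i + 2)) (R : Rl i j)
    (D : WD (i + 2 + (j + 1))) : ℤ :=
  (μ.F (D.sub (Fin.castAdd (j + 1))) : ℕ) *
    (if ∑ a : Fin (j + 1), bz (R.F (D.sub (ea i j a))) = 1 then
      dz c (D.e (univ.image (eq4 i j))) (D.r (univ.image (eq4 i j))) else 0)

theorem mvG_win (c : Bool → Bool → ℤ) {i j : ℕ} (μ : MuX (i + 2)) (R : Rl i j) (P : ParX)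
    (H E : Finset (Finset (Fin n))) (χ : Fin n → Bool) (p : Fin (i + 2 + (j + 1)) → Fin n)
    (hp : Function.Injective p) :
    mvG c μ R P H E χ p = mvVG c μ R (wt P H E χ p) := by
  unfold mvG mvVG mvx
  have e1 : (Fin.append ((p ∘ Fin.castAdd (j + 1)) ∘ Fin.castAdd 2) (p ∘ Fin.natAdd (i + 2)) :
      Fin (i + (j + 1)) → Fin n) = p ∘ eq4 i j := by
    funext a
    unfold eq4
    induction a using Fin.addCases with
    | left a =>
      rw [Fin.append_left, Function.comp_apply, Function.comp_apply, Function.comp_apply,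
        Fin.append_left]
    | right a =>
      rw [Fin.append_right, Function.comp_apply, Function.comp_apply, Fin.append_right]
  have e2 : ∀ a : Fin (j + 1), R.φ P H E χ (p ∘ Fin.castAdd (j + 1))
      ((p ∘ Fin.natAdd (i + 2)) ∘ a.succAbove) = R.F ((wt P H E χ p).sub (ea i j a)) := by
    intro a
    unfold Rl.φ
    rw [← wt_comp]
    congr 2
    funext b
    unfold ea
    induction b using Fin.addCases with
    | left b =>
      rw [Fin.append_left, Function.comp_apply, Function.comp_apply, Fin.append_left]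
    | right b =>
      rw [Fin.append_right, Function.comp_apply, Function.comp_apply, Function.comp_apply,
        Fin.append_right, Function.comp_apply]
  rw [e1, if_pos (hp.comp (eq4_inj i j)), dc_dz]
  have e3 : ∀ G : Finset (Finset (Fin n)), decide (univ.image (p ∘ eq4 i j) ∈ G) =
      zb G p (univ.image (eq4 i j)) := by
    intro G
    rw [zb_eq]
    show _ = decide ((univ.image (eq4 i j)).image p ∈ G)
    rw [Finset.image_image]
  rw [e3, e3]
  simp only [e2]
  rw [wt_comp]
  rfl

end mv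

/-! ### The two weights -/

/-- The cost with two integer weights: `p` for a quadruple that is only in the 4-graph, `m` for a
quadruple that is only in the even 4-graph. -/
def wz (p m : ℤ) (x y : Bool) : ℤ :=
  if x = true then (if y = true then 0 else p) else (if y = true then m else 0)

/-- The change of the cost with two integer weights. -/
def dwz (p m : ℤ) (x y : Bool) : ℤ :=
  if x = true then (if y = true then p else -p) else (if y = true then -m else m)

theorem dz_wz (p m : ℤ) (x y : Bool) : dz (wz p m) x y = dwz p m x y := by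
  unfold dz wz dwz
  cases x <;> cases y <;> simp

theorem wz_wc (wp wm : ℕ) : wz wp wm = wc wp wm := by
  funext x y
  rfl

theorem wz_split (p m : ℤ) (x y : Bool) : wz p m x y = p * wc 1 0 x y + m * wc 0 1 x y := by
  unfold wz wc
  cases x <;> cases y <;> simp

section opt
variable {n : ℕ}

theorem cst_wz (p m : ℤ) (H E : Finset (Finset (Fin n))) :
    K8.cst (wz p m) H E = p * (cN 1 0 H E : ℤ) + m * (cN 0 1 H E : ℤ) := by
  rw [← cst_eq, ← cst_eq]
  unfold K8.cst
  rw [Finset.mul_sum, Finset.mul_sum, ← Finset.sum_add_distrib]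
  exact Finset.sum_congr rfl fun Q _ => wz_split p m _ _

/-- Each cost has the same optima as a cost with two weights. -/
theorem optE_wz (c : Bool → Bool → ℤ) (H E : Finset (Finset (Fin n))) :
    OptE c H E ↔ OptE (wz (dz c true true) (dz c false false)) H E := by
  have h1 : ∀ E' : Finset (Finset (Fin n)), K8.cst c H E' =
      (∑ Q ∈ (univ : Finset (Fin n)).powersetCard 4, c (decide (Q ∈ H)) (decide (Q ∈ H))) +
        K8.cst (wz (dz c true true) (dz c false false)) H E' := by
    intro E'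
    unfold K8.cst
    rw [← Finset.sum_add_distrib]
    refine Finset.sum_congr rfl fun Q _ => ?_
    generalize decide (Q ∈ H) = x
    generalize decide (Q ∈ E') = y
    unfold wz dz
    cases x <;> cases y <;> simp
  unfold OptE
  refine and_congr_right fun _ => and_congr_right fun _ => ?_
  constructor
  · intro h E' h4 he
    have h2 := h E' h4 he
    rw [h1 E, h1 E'] at h2
    linarith
  · intro h E' h4 he
    have h2 := h E' h4 he
    rw [h1 E, h1 E']
    linarith

theorem optE_mul {p m k : ℤ} (hk : 0 < k) (H E : Finset (Finset (Fin n))) :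
    OptE (wz (k * p) (k * m)) H E ↔ OptE (wz p m) H E := by
  have h1 : ∀ E' : Finset (Finset (Fin n)), K8.cst (wz (k * p) (k * m)) H E' =
      k * K8.cst (wz p m) H E' := by
    intro E'
    rw [cst_wz, cst_wz]
    ring
  unfold OptE
  refine and_congr_right fun _ => and_congr_right fun _ => ?_
  constructor
  · intro h E' h4 he
    have h2 := h E' h4 he
    rw [h1 E, h1 E'] at h2
    exact le_of_mul_le_mul_left h2 hk
  · intro h E' h4 he
    have h2 := h E' h4 he
    rw [h1 E, h1 E']
    exact mul_le_mul_of_nonneg_left h2 hk.le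

/-- An even 4-graph of smallest cost has smallest cost with respect to itself. -/
theorem OptE.self {p m : ℤ} (hpm : 0 ≤ p + m) {H E : Finset (Finset (Fin n))}
    (h : OptE (wz p m) H E) : OptE (wz p m) E E := by
  refine ⟨h.1, h.2.1, fun E' h4 he => ?_⟩
  have h1 := h.2.2 E' h4 he
  have h2 : K8.cst (wz p m) H E' - K8.cst (wz p m) H E ≤ K8.cst (wz p m) E E' - K8.cst (wz p m) E E := by
    unfold K8.cst
    rw [← Finset.sum_sub_distrib, ← Finset.sum_sub_distrib]
    refine Finset.sum_le_sum fun Q _ => ?_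
    generalize decide (Q ∈ H) = x
    generalize decide (Q ∈ E') = y
    generalize decide (Q ∈ E) = z
    unfold wz
    cases x <;> cases y <;> cases z <;> simp <;> linarith
  linarith

/-- The number of quadruples in which the 4-graphs differ. -/
theorem cst_symm (H E : Finset (Finset (Fin n))) (h4 : ∀ e ∈ H, e.card = 4)
    (h4' : ∀ e ∈ E, e.card = 4) :
    K8.cst (wz 1 1) H E = ((symmDiff H E).card : ℤ) := by
  have h1 : symmDiff H E = ((univ : Finset (Fin n)).powersetCard 4).filter fun Q =>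
      Q ∈ symmDiff H E := by
    ext Q
    rw [Finset.mem_filter, Finset.mem_powersetCard]
    refine ⟨fun h => ⟨⟨Finset.subset_univ _, symmDiff_card4 h4 h4' Q h⟩, h⟩, fun h => h.2⟩
  rw [h1, Finset.card_filter]
  unfold K8.cst
  push_cast
  refine Finset.sum_congr rfl fun Q _ => ?_
  by_cases h2 : Q ∈ H <;> by_cases h3 : Q ∈ E <;> simp [wz, Finset.mem_symmDiff, h2, h3]

/-- The cost is a combination of the distance and of the numbers of quadruples. -/
theorem cst_wz_dist (a b : ℤ) (H E : Finset (Finset (Fin n))) (h4 : ∀ e ∈ H, e.card = 4)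
    (h4' : ∀ e ∈ E, e.card = 4) :
    K8.cst (wz (a + b) (a - b)) H E =
      a * ((symmDiff H E).card : ℤ) + b * ((H.card : ℤ) - E.card) := by
  rw [← cst_symm H E h4 h4']
  have hc : ∀ G : Finset (Finset (Fin n)), (∀ e ∈ G, e.card = 4) → (G.card : ℤ) =
      ∑ Q ∈ (univ : Finset (Fin n)).powersetCard 4, if Q ∈ G then (1 : ℤ) else 0 := by
    intro G hG
    have h1 : G = ((univ : Finset (Fin n)).powersetCard 4).filter fun Q => Q ∈ G := by
      ext Q
      rw [Finset.mem_filter, Finset.mem_powersetCard]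
      exact ⟨fun h => ⟨⟨Finset.subset_univ _, hG Q h⟩, h⟩, fun h => h.2⟩
    conv_lhs => rw [h1]
    rw [Finset.card_filter]
    push_cast
    rfl
  rw [hc H h4, hc E h4', ← Finset.sum_sub_distrib, Finset.mul_sum]
  unfold K8.cst
  rw [Finset.mul_sum, ← Finset.sum_add_distrib]
  refine Finset.sum_congr rfl fun Q _ => ?_
  by_cases h2 : Q ∈ H <;> by_cases h3 : Q ∈ E <;> simp [wz, h2, h3] <;> ring

/-- The sum of the costs of the even 4-graphs of the vertices. -/
theorem sum_cst_EG (p m : ℤ) (H : Finset (Finset (Fin n))) (h4 : ∀ e ∈ H, e.card = 4) :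
    ∑ v : Fin n, K8.cst (wz p m) H (EG H v) =
      (p + 4 * m) * (T5 H 1 : ℤ) + (3 * p + 2 * m) * (T5 H 3 : ℤ) + 5 * p * (T5 H 5 : ℤ) := by
  have h1 := sum_cN_EG 1 0 H h4
  have h2 := sum_cN_EG 0 1 H h4
  have h1' : ∑ v : Fin n, (cN 1 0 H (EG H v) : ℤ) =
      (T5 H 1 : ℤ) + 3 * (T5 H 3 : ℤ) + 5 * (T5 H 5 : ℤ) := by
    have := congrArg (Nat.cast (R := ℤ)) h1
    push_cast at this
    rw [this]
    ring
  have h2' : ∑ v : Fin n, (cN 0 1 H (EG H v) : ℤ) = 4 * (T5 H 1 : ℤ) + 2 * (T5 H 3 : ℤ) := by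
    have := congrArg (Nat.cast (R := ℤ)) h2
    push_cast at this
    rw [this]
    ring
  rw [Finset.sum_congr rfl fun v _ => cst_wz p m H (EG H v), Finset.sum_add_distrib,
    ← Finset.mul_sum, ← Finset.mul_sum, h1', h2']
  ring

/-- The smallest cost is at most the average of the costs of the even 4-graphs of the vertices. -/
theorem opt_leZ (p m : ℤ) (H E : Finset (Finset (Fin n))) (h4 : ∀ e ∈ H, e.card = 4)
    (hE : OptE (wz p m) H E) : (n : ℤ) * K8.cst (wz p m) H E ≤
      (p + 4 * m) * (T5 H 1 : ℤ) + (3 * p + 2 * m) * (T5 H 3 : ℤ) + 5 * p * (T5 H 5 : ℤ) := by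
  rw [← sum_cst_EG p m H h4]
  have h1 : ∀ v : Fin n, K8.cst (wz p m) H E ≤ K8.cst (wz p m) H (EG H v) := fun v =>
    hE.2.2 (EG H v) (fun e he => ((mem_EG H v e).mp he).1) (fun S hS => EG_even H v S hS)
  calc (n : ℤ) * K8.cst (wz p m) H E = ∑ _v : Fin n, K8.cst (wz p m) H E := by
        rw [Finset.sum_const, Finset.card_univ, Fintype.card_fin, nsmul_eq_mul]
    _ ≤ _ := Finset.sum_le_sum fun v _ => h1 v

theorem abs_cst_le (c : Bool → Bool → ℤ) (H E : Finset (Finset (Fin n))) :
    |K8.cst c H E| ≤ cB c * (n.choose 4 : ℕ) := by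
  unfold K8.cst
  refine le_trans (Finset.abs_sum_le_sum_abs _ _) ?_
  refine le_trans (Finset.sum_le_sum fun Q _ => abs_le_cB c _ _) ?_
  rw [Finset.sum_const, Finset.card_powersetCard, Finset.card_univ, Fintype.card_fin,
    nsmul_eq_mul]
  exact le_of_eq (mul_comm _ _)

end opt

/-- The column of the cost with two weights. -/
def colCZ (p m : ℤ) (e r : Finset (Fin 6) → Bool) : ℤ :=
  (p + 4 * m) * (O5 e 1 : ℤ) + (3 * p + 2 * m) * (O5 e 3 : ℤ) - 2 * cw (wz p m) e r

/-- The smallest cost is at most the average of the costs of the even 4-graphs of the vertices. -/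
theorem goodP_costZ {Cx : X3} {p m : ℤ}
    (hc : ∀ {n : ℕ} (H E : Finset (Finset (Fin n))) (χ : Fin n → Bool), Cx H E χ →
      (∀ e ∈ H, e.card = 4) ∧ K5F H ∧ OptE (wz p m) H E) :
    GoodP Cx (fun H E _ t => colCZ p m (zb H t) (zb E t)) := by
  refine GoodP.of_n5 (Z := fun H E _ t => colCZ p m (zb H t) (zb E t)) (120 * cB (wz p m))
    fun {n} H E χ hx => ?_
  obtain ⟨h40, hk5, ho⟩ := hc H E χ hx
  rcases Nat.lt_or_ge n 6 with hlt | hge
  · have h0 : (inj (Fin n) 6).card = 0 := by
      rw [card_inj, Fintype.card_fin, Nat.descFactorial_eq_zero_iff_lt]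
      exact hlt
    rw [Finset.card_eq_zero] at h0
    rw [h0, Finset.sum_empty]
    have : (0 : ℝ) ≤ 120 * cB (wz p m) * (n : ℝ) ^ 5 := by positivity
    linarith
  · have e1 : ∑ t ∈ inj (Fin n) 6, ((colCZ p m (zb H t) (zb E t) : ℤ) : ℝ) =
        (p + 4 * m) * (720 * ((n : ℝ) - 5) * (T5 H 1 : ℝ)) +
        (3 * p + 2 * m) * (720 * ((n : ℝ) - 5) * (T5 H 3 : ℝ)) -
        2 * (360 * (PP n 4 2 * ((K8.cst (wz p m) H E : ℤ) : ℝ))) := by
      rw [← sumO5 n H 1 h40, ← sumO5 n H 3 h40, ← sum6_cw, Finset.mul_sum, Finset.mul_sum,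
        Finset.mul_sum, ← Finset.sum_add_distrib, ← Finset.sum_sub_distrib]
      refine Finset.sum_congr rfl fun t _ => ?_
      unfold colCZ
      push_cast
      ring
    have e2 : PP n 4 2 = ((n : ℝ) - 4) * (n - 5) := by
      unfold PP
      rw [Finset.prod_range_succ, Finset.prod_range_succ, Finset.prod_range_zero]
      push_cast
      ring
    have h1 := opt_leZ p m H E h40 ho
    rw [T5_five H hk5, Nat.cast_zero, mul_zero, add_zero] at h1
    have h2 : (n : ℝ) * ((K8.cst (wz p m) H E : ℤ) : ℝ) ≤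
        (p + 4 * m) * (T5 H 1 : ℝ) + (3 * p + 2 * m) * (T5 H 3 : ℝ) := by
      exact_mod_cast h1
    have h3 : (6 : ℝ) ≤ n := by exact_mod_cast hge
    have h4 : |((K8.cst (wz p m) H E : ℤ) : ℝ)| ≤ cB (wz p m) * ((n.choose 4 : ℕ) : ℝ) := by
      have := abs_cst_le (wz p m) H E
      exact_mod_cast this
    have h4b : ((n.choose 4 : ℕ) : ℝ) ≤ (n : ℝ) ^ 4 / 24 := by
      have := Nat.choose_le_pow_div (α := ℝ) 4 n
      have e : ((Nat.factorial 4 : ℕ) : ℝ) = 24 := by norm_num [Nat.factorial]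
      rw [e] at this
      exact this
    rw [e1, e2]
    set K : ℝ := ((K8.cst (wz p m) H E : ℤ) : ℝ) with hK
    have h5 : 720 * ((n : ℝ) - 5) * ((n : ℝ) * K) ≤
        720 * ((n : ℝ) - 5) *
          ((p + 4 * m) * (T5 H 1 : ℝ) + (3 * p + 2 * m) * (T5 H 3 : ℝ)) :=
      mul_le_mul_of_nonneg_left h2 (by linarith)
    have hB0 : (0 : ℝ) ≤ cB (wz p m) := Nat.cast_nonneg _
    have h6 : |K| ≤ cB (wz p m) * ((n : ℝ) ^ 4 / 24) :=
      le_trans h4 (mul_le_mul_of_nonneg_left h4b hB0)
    have h7 : -(cB (wz p m) * ((n : ℝ) ^ 4 / 24)) ≤ K := (abs_le.mp h6).1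
    have h8 : 2880 * ((n : ℝ) - 5) * -(cB (wz p m) * ((n : ℝ) ^ 4 / 24)) ≤
        2880 * ((n : ℝ) - 5) * K := mul_le_mul_of_nonneg_left h7 (by linarith)
    have h9 : 0 ≤ (cB (wz p m) : ℝ) * (n : ℝ) ^ 4 := by positivity
    have e3 : 2880 * ((n : ℝ) - 5) * -(cB (wz p m) * ((n : ℝ) ^ 4 / 24)) =
        -(120 * cB (wz p m) * (n : ℝ) ^ 5) + 600 * ((cB (wz p m) : ℝ) * (n : ℝ) ^ 4) := by ring
    have e4 : 2 * (360 * (((n : ℝ) - 4) * (n - 5) * K)) =
        720 * ((n : ℝ) - 5) * ((n : ℝ) * K) - 2880 * ((n : ℝ) - 5) * K := by ring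
    rw [e4]
    linarith

/-- A bound of the cost as a column. -/
theorem goodP_cap {Cx : X3} {c : Bool → Bool → ℤ} (bn : ℤ) (bd : ℕ)
    (hc : ∀ {n : ℕ} (H E : Finset (Finset (Fin n))) (χ : Fin n → Bool), Cx H E χ →
      bd * K8.cst c H E ≤ bn * (n.choose 4 : ℕ)) :
    GoodP Cx (fun H E _ t => 15 * bn - bd * cw c (zb H t) (zb E t)) := by
  refine GoodP.of_n5 (Z := fun H E _ t => 15 * bn - bd * cw c (zb H t) (zb E t)) 0
    fun {n} H E χ hx => ?_
  have h1 := hc H E χ hx
  rw [zero_mul, neg_zero]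
  rcases Nat.lt_or_ge n 6 with hlt | hge
  · have h0 : (inj (Fin n) 6).card = 0 := by
      rw [card_inj, Fintype.card_fin, Nat.descFactorial_eq_zero_iff_lt]
      exact hlt
    rw [Finset.card_eq_zero] at h0
    rw [h0, Finset.sum_empty]
  · have e1 : ∑ t ∈ inj (Fin n) 6, ((15 * bn - bd * cw c (zb H t) (zb E t) : ℤ) : ℝ) =
        360 * (PP n 4 2 * (bn * ((n.choose 4 : ℕ) : ℝ) - bd * ((K8.cst c H E : ℤ) : ℝ))) := by
      have e2 : ∀ t : Fin 6 → Fin n, ((15 * bn - bd * cw c (zb H t) (zb E t) : ℤ) : ℝ) =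
          15 * bn - bd * ((cw c (zb H t) (zb E t) : ℤ) : ℝ) := by
        intro t
        push_cast
        ring
      rw [Finset.sum_congr rfl fun t _ => e2 t, Finset.sum_sub_distrib,
        ← Finset.mul_sum _ _ (bd : ℝ), sum6_cw]
      simp only [Finset.sum_const, nsmul_eq_mul, card_inj, Fintype.card_fin]
      rw [desc6_eq hge]
      ring
    rw [e1]
    have h2 : (0 : ℝ) ≤ bn * ((n.choose 4 : ℕ) : ℝ) - bd * ((K8.cst c H E : ℤ) : ℝ) := by
      have h3 : ((bd * K8.cst c H E : ℤ) : ℝ) ≤ ((bn * (n.choose 4 : ℕ) : ℤ) : ℝ) := by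
        exact_mod_cast h1
      push_cast at h3
      linarith
    have h3 : (6 : ℝ) ≤ n := by exact_mod_cast hge
    have e2 : PP n 4 2 = ((n : ℝ) - 4) * (n - 5) := by
      unfold PP
      rw [Finset.prod_range_succ, Finset.prod_range_succ, Finset.prod_range_zero]
      push_cast
      ring
    rw [e2]
    refine mul_nonneg (by norm_num) (mul_nonneg (mul_nonneg (by linarith) (by linarith)) h2)

end Pool.Agent.Lib.MP_afdd4d_co.K9.Star.Tw
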