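import Pool.Agent.Lib.MP_afdd4d_co.K9.TwMove
import Pool.Agent.Lib.MP_afdd4d_co.K9.TwCtx

/-!
# The list of items for a 4-graph and an even 4-graph
-/

namespace Pool.Agent.Lib.MP_afdd4d_co.K9.Star.Tw

open Finset K8
open Pool.Agent.Lib.MP_afdd4d_co.K9.Marks

/-! ### The changes on windows -/

theorem bz1 (a : Bool) : (bz a = 1) ↔ a = true := by
  cases a <;> decide

theorem bz2 (a b : Bool) : (bz a + bz b = 1) ↔ (a ^^ b) = true := by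
  cases a <;> cases b <;> decide

theorem bz3 (a b c : Bool) : (bz a + bz b + bz c = 1) ↔ ((a ^^ b) ^^ c) = true := by
  cases a <;> cases b <;> cases c <;> decide

theorem bz4 (a b c d : Bool) : (bz a + bz b + bz c + bz d = 1) ↔
    ((a ^^ b) ^^ (c ^^ d)) = true := by
  cases a <;> cases b <;> cases c <;> cases d <;> decide

theorem ea03 : ∀ a : Fin 4, ea 0 3 a = ![(![0, 1, 3, 4, 5] : Fin 5 → Fin 6), ![0, 1, 2, 4, 5],
    ![0, 1, 2, 3, 5], ![0, 1, 2, 3, 4]] a := by decide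

theorem ea30 : ∀ a : Fin 1, ea 3 0 a = ![(![0, 1, 2, 3, 4] : Fin 5 → Fin 6)] a := by decide

theorem ea21 : ∀ a : Fin 2, ea 2 1 a = ![(![0, 1, 2, 3, 5] : Fin 5 → Fin 6),
    ![0, 1, 2, 3, 4]] a := by decide

theorem ea12 : ∀ a : Fin 3, ea 1 2 a = ![(![0, 1, 2, 4, 5] : Fin 5 → Fin 6), ![0, 1, 2, 3, 5],
    ![0, 1, 2, 3, 4]] a := by decide

theorem eq03 : (univ.image (eq4 0 3) : Finset (Fin 6)) = {2, 3, 4, 5} := by decide

theorem eq30 : (univ.image (eq4 3 0) : Finset (Fin 6)) = {0, 1, 2, 5} := by decide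

theorem eq21 : (univ.image (eq4 2 1) : Finset (Fin 6)) = {0, 1, 4, 5} := by decide

theorem eq12 : (univ.image (eq4 1 2) : Finset (Fin 6)) = {0, 3, 4, 5} := by decide

theorem mvV03 (wp wm : ℕ) (μ : MuX (0 + 2)) (R : Rl 0 3) (D : WD (0 + 2 + (3 + 1))) :
    mvV wp wm μ R D = (μ.F (D.sub (Fin.castAdd 4)) : ℕ) *
      (if ((R.F (D.sub ![0, 1, 3, 4, 5]) ^^ R.F (D.sub ![0, 1, 2, 4, 5])) ^^
        (R.F (D.sub ![0, 1, 2, 3, 5]) ^^ R.F (D.sub ![0, 1, 2, 3, 4]))) = true then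
        dw wp wm (D.e {2, 3, 4, 5}) (D.r {2, 3, 4, 5}) else 0) := by
  unfold mvV
  rw [Fin.sum_univ_four, ea03 0, ea03 1, ea03 2, ea03 3]
  refine congrArg₂ _ rfl (if_congr ?_ ?_ rfl)
  · exact bz4 _ _ _ _
  · exact congrArg₂ (dw wp wm) (congrArg D.e eq03) (congrArg D.r eq03)

theorem mvV30 (wp wm : ℕ) (μ : MuX (3 + 2)) (R : Rl 3 0) (D : WD (3 + 2 + (0 + 1))) :
    mvV wp wm μ R D = (μ.F (D.sub (Fin.castAdd 1)) : ℕ) *
      (if R.F (D.sub ![0, 1, 2, 3, 4]) = true then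
        dw wp wm (D.e {0, 1, 2, 5}) (D.r {0, 1, 2, 5}) else 0) := by
  unfold mvV
  rw [Fin.sum_univ_one, ea30 0]
  refine congrArg₂ _ rfl (if_congr ?_ ?_ rfl)
  · exact bz1 _
  · exact congrArg₂ (dw wp wm) (congrArg D.e eq30) (congrArg D.r eq30)

theorem mvV21 (wp wm : ℕ) (μ : MuX (2 + 2)) (R : Rl 2 1) (D : WD (2 + 2 + (1 + 1))) :
    mvV wp wm μ R D = (μ.F (D.sub (Fin.castAdd 2)) : ℕ) *
      (if (R.F (D.sub ![0, 1, 2, 3, 5]) ^^ R.F (D.sub ![0, 1, 2, 3, 4])) = true then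
        dw wp wm (D.e {0, 1, 4, 5}) (D.r {0, 1, 4, 5}) else 0) := by
  unfold mvV
  rw [Fin.sum_univ_two, ea21 0, ea21 1]
  refine congrArg₂ _ rfl (if_congr ?_ ?_ rfl)
  · exact bz2 _ _
  · exact congrArg₂ (dw wp wm) (congrArg D.e eq21) (congrArg D.r eq21)

theorem mvV12 (wp wm : ℕ) (μ : MuX (1 + 2)) (R : Rl 1 2) (D : WD (1 + 2 + (2 + 1))) :
    mvV wp wm μ R D = (μ.F (D.sub (Fin.castAdd 3)) : ℕ) *
      (if ((R.F (D.sub ![0, 1, 2, 4, 5]) ^^ R.F (D.sub ![0, 1, 2, 3, 5])) ^^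
        R.F (D.sub ![0, 1, 2, 3, 4])) = true then
        dw wp wm (D.e {0, 3, 4, 5}) (D.r {0, 3, 4, 5}) else 0) := by
  unfold mvV
  rw [Fin.sum_univ_three, ea12 0, ea12 1, ea12 2]
  refine congrArg₂ _ rfl (if_congr ?_ ?_ rfl)
  · exact bz3 _ _ _
  · exact congrArg₂ (dw wp wm) (congrArg D.e eq12) (congrArg D.r eq12)

/-! ### The items -/

/-- The items. -/
inductive ItT : Type
  | um1 (μ : MuX 3)
  | ma1 (μ : MuX 3)
  | um2 (μ : MuX 4)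
  | ma2 (μ : MuX 4)
  | um3 (μ : MuX 5)
  | ma3 (μ : MuX 5)
  | umB (μ : MuX 5)
  | maB (μ : MuX 5)
  | fe1 (μ : MuX 5)
  | fe2 (μ : MuX 4)
  | fe3 (μ : MuX 3)
  | feB (μ : MuX 5)
  | al (μ : MuX 2)
  | v2 (μ : MuX 5)
  | v3 (μ : MuX 4)
  | p3 (μ : MuX 5)
  | o0 (μ : MuX 2) (R : Rl 0 3)
  | o1 (μ : MuX 5) (R : Rl 3 0)
  | o2 (μ : MuX 4) (R : Rl 2 1)
  | o3 (μ : MuX 3) (R : Rl 1 2)
  | u51 (μ : MuX 5) (ψ : MuX (5 + 1)) (an ad : ℕ)
  | l51 (μ : MuX 5) (ψ : MuX (5 + 1)) (an ad : ℕ)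
  | u42 (μ : MuX 4) (ψ : MuX (4 + 2)) (an ad : ℕ)
  | l42 (μ : MuX 4) (ψ : MuX (4 + 2)) (an ad : ℕ)
  | u33 (μ : MuX 3) (ψ : MuX (3 + 3)) (an ad : ℕ)
  | l33 (μ : MuX 3) (ψ : MuX (3 + 3)) (an ad : ℕ)
  | u24 (μ : MuX 2) (ψ : MuX (2 + 4)) (an ad : ℕ)
  | l24 (μ : MuX 2) (ψ : MuX (2 + 4)) (an ad : ℕ)

/-- The function of an item. -/
noncomputable def ItT.fn (wp wm : ℕ) (P : ParX) (i : ItT) : Fn3 := fun H E χ t =>
  match i with
  | .um1 μ => (muPh (μ.off fun D => D.m 0) P).F H E χ (t ∘ id ∘ Fin.castAdd 3) *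
      (((P.vn : ℕ) : ℤ) - ((P.vd : ℕ) : ℤ) *
        (BJ (N := 3 + 3) ![0, 3, 4, 5]).F H E χ (t ∘ id))
  | .ma1 μ => (muPh (μ.on fun D => D.m 0) P).F H E χ (t ∘ id ∘ Fin.castAdd 3) *
      (((P.vd : ℕ) : ℤ) * (BJ (N := 3 + 3) ![0, 3, 4, 5]).F H E χ (t ∘ id) -
        ((P.vn : ℕ) : ℤ))
  | .um2 μ => (muPh (μ.off fun D => D.b 0 1) P).F H E χ (t ∘ id ∘ Fin.castAdd 2) *
      (((P.dn : ℕ) : ℤ) - ((P.dd : ℕ) : ℤ) *
        (BJ (N := 4 + 2) ![0, 1, 4, 5]).F H E χ (t ∘ id))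
  | .ma2 μ => (muPh (μ.on fun D => D.b 0 1) P).F H E χ (t ∘ id ∘ Fin.castAdd 2) *
      (((P.dd : ℕ) : ℤ) * (BJ (N := 4 + 2) ![0, 1, 4, 5]).F H E χ (t ∘ id) -
        ((P.dn : ℕ) : ℤ))
  | .um3 μ => (muPh (μ.off fun D => D.τ 0 1 2) P).F H E χ (t ∘ id ∘ Fin.castAdd 1) *
      (((P.tn : ℕ) : ℤ) - ((P.td : ℕ) : ℤ) *
        (BJ (N := 5 + 1) ![0, 1, 2, 5]).F H E χ (t ∘ id))
  | .ma3 μ => (muPh (μ.on fun D => D.τ 0 1 2) P).F H E χ (t ∘ id ∘ Fin.castAdd 1) *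
      (((P.td : ℕ) : ℤ) * (BJ (N := 5 + 1) ![0, 1, 2, 5]).F H E χ (t ∘ id) -
        ((P.tn : ℕ) : ℤ))
  | .umB μ => (muPh (μ.off fun D => D.v 0) P).F H E χ (t ∘ id ∘ Fin.castAdd 1) *
      (((P.bn : ℕ) : ℤ) - ((P.bd : ℕ) : ℤ) *
        (BD P (N := 5 + 1) fun D => D.b 0 5).F H E χ (t ∘ id))
  | .maB μ => (muPh (μ.on fun D => D.v 0) P).F H E χ (t ∘ id ∘ Fin.castAdd 1) *
      (((P.bd : ℕ) : ℤ) * (BD P (N := 5 + 1) fun D => D.b 0 5).F H E χ (t ∘ id) -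
        ((P.bn : ℕ) : ℤ))
  | .fe1 μ => (muPh μ P).F H E χ (t ∘ id ∘ Fin.castAdd 1) *
      (((P.xn * P.vd : ℕ) : ℤ) - ((P.xd * P.vn : ℕ) : ℤ) *
        (BD P (N := 5 + 1) fun D => D.m 5).F H E χ (t ∘ id))
  | .fe2 μ => (muPh μ P).F H E χ (t ∘ id ∘ Fin.castAdd 2) *
      (((P.xn * P.dd : ℕ) : ℤ) - ((P.xd * P.dn : ℕ) : ℤ) *
        (BD P (N := 4 + 2) fun D => D.b 4 5).F H E χ (t ∘ id))
  | .fe3 μ => (muPh μ P).F H E χ (t ∘ id ∘ Fin.castAdd 3) *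
      (((P.xn * P.td : ℕ) : ℤ) - ((P.xd * P.tn : ℕ) : ℤ) *
        (BD P (N := 3 + 3) fun D => D.τ 3 4 5).F H E χ (t ∘ id))
  | .feB μ => (muPh μ P).F H E χ (t ∘ id ∘ Fin.castAdd 1) *
      (((P.xn * P.dd * P.bd : ℕ) : ℤ) - ((P.xd * P.dn * P.bn : ℕ) : ℤ) *
        (BD P (N := 5 + 1) fun D => D.v 5).F H E χ (t ∘ id))
  | .al μ => (muPh μ P).F H E χ (t ∘ id ∘ Fin.castAdd 4) *
      (((P.xn : ℕ) : ℤ) - ((P.xd : ℕ) : ℤ) *
        (BJ (N := 2 + 4) ![2, 3, 4, 5]).F H E χ (t ∘ id))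
  | .v2 μ => (muPh (μ.off fun D => D.m 0) P).F H E χ (t ∘ id ∘ Fin.castAdd 1) *
      (((P.vn * P.dd : ℕ) : ℤ) - ((P.vd * P.dn : ℕ) : ℤ) *
        (BD P (N := 5 + 1) fun D => D.b 0 5).F H E χ (t ∘ id))
  | .v3 μ => (muPh (μ.off fun D => D.m 0) P).F H E χ (t ∘ id ∘ Fin.castAdd 2) *
      (((P.vn * P.td : ℕ) : ℤ) - ((P.vd * P.tn : ℕ) : ℤ) *
        (BD P (N := 4 + 2) fun D => D.τ 0 4 5).F H E χ (t ∘ id))
  | .p3 μ => (muPh (μ.off fun D => D.b 0 1) P).F H E χ (t ∘ id ∘ Fin.castAdd 1) *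
      (((P.dn * P.td : ℕ) : ℤ) - ((P.dd * P.tn : ℕ) : ℤ) *
        (BD P (N := 5 + 1) fun D => D.τ 0 1 5).F H E χ (t ∘ id))
  | .o0 μ R => mvF (i := 0) (j := 3) wp wm μ R P H E χ (t ∘ id)
  | .o1 μ R => mvF (i := 3) (j := 0) wp wm μ R P H E χ (t ∘ id)
  | .o2 μ R => mvF (i := 2) (j := 1) wp wm μ R P H E χ (t ∘ id)
  | .o3 μ R => mvF (i := 1) (j := 2) wp wm μ R P H E χ (t ∘ id)
  | .u51 μ ψ an ad => (muPh μ P).F H E χ (t ∘ id ∘ Fin.castAdd 1) *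
      ((an : ℤ) - ad * (muPh ψ P).F H E χ (t ∘ id))
  | .l51 μ ψ an ad => (muPh μ P).F H E χ (t ∘ id ∘ Fin.castAdd 1) *
      (ad * (muPh ψ P).F H E χ (t ∘ id) - (an : ℤ))
  | .u42 μ ψ an ad => (muPh μ P).F H E χ (t ∘ id ∘ Fin.castAdd 2) *
      ((an : ℤ) - ad * (muPh ψ P).F H E χ (t ∘ id))
  | .l42 μ ψ an ad => (muPh μ P).F H E χ (t ∘ id ∘ Fin.castAdd 2) *
      (ad * (muPh ψ P).F H E χ (t ∘ id) - (an : ℤ))
  | .u33 μ ψ an ad => (muPh μ P).F H E χ (t ∘ id ∘ Fin.castAdd 3) *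
      ((an : ℤ) - ad * (muPh ψ P).F H E χ (t ∘ id))
  | .l33 μ ψ an ad => (muPh μ P).F H E χ (t ∘ id ∘ Fin.castAdd 3) *
      (ad * (muPh ψ P).F H E χ (t ∘ id) - (an : ℤ))
  | .u24 μ ψ an ad => (muPh μ P).F H E χ (t ∘ id ∘ Fin.castAdd 4) *
      ((an : ℤ) - ad * (muPh ψ P).F H E χ (t ∘ id))
  | .l24 μ ψ an ad => (muPh μ P).F H E χ (t ∘ id ∘ Fin.castAdd 4) *
      (ad * (muPh ψ P).F H E χ (t ∘ id) - (an : ℤ))

/-- An upper bound of an average for each choice of the roots. -/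
def UpR (Cx : X3) (P : ParX) {m l : ℕ} (μ : MuX m) (ψ : MuX (m + l)) (an ad : ℕ) : Prop :=
  ∀ {n : ℕ} (H E : Finset (Finset (Fin n))) (χ : Fin n → Bool), Cx H E χ →
    ∀ s : Fin m → Fin n, (muPh μ P).F H E χ s ≠ 0 →
      (ad : ℤ) * ∑ u : Fin l → Fin n, (muPh ψ P).F H E χ (Fin.append s u) ≤ an * (n : ℤ) ^ l

/-- A lower bound of an average for each choice of the roots. -/
def LoR (Cx : X3) (P : ParX) {m l : ℕ} (μ : MuX m) (ψ : MuX (m + l)) (an ad : ℕ) : Prop :=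
  ∀ {n : ℕ} (H E : Finset (Finset (Fin n))) (χ : Fin n → Bool), Cx H E χ →
    ∀ s : Fin m → Fin n, (muPh μ P).F H E χ s ≠ 0 →
      an * (n : ℤ) ^ l ≤ (ad : ℤ) * ∑ u : Fin l → Fin n, (muPh ψ P).F H E χ (Fin.append s u)

/-- The distance is bounded. -/
def HXX (Cx : X3) (P : ParX) : Prop :=
  ∀ {n : ℕ} (H E : Finset (Finset (Fin n))) (χ : Fin n → Bool), Cx H E χ →
    (P.xd : ℤ) * ∑ p, jv (symmDiff H E) p ≤ P.xn * (n : ℤ) ^ 4

/-- The conditions on the context for an item. -/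
def ItT.Ok (Cx : X3) (wp wm : ℕ) (P : ParX) (i : ItT) : Prop :=
  match i with
  | .um1 _ => True
  | .ma1 _ => True
  | .um2 _ => True
  | .ma2 _ => True
  | .um3 _ => True
  | .ma3 _ => True
  | .umB _ => True
  | .maB _ => True
  | .fe1 _ => HXX Cx P
  | .fe2 _ => HXX Cx P
  | .fe3 _ => HXX Cx P
  | .feB _ => HXX Cx P
  | .al _ => HXX Cx P
  | .v2 _ => True
  | .v3 _ => True
  | .p3 _ => True
  | .o0 _ _ => OptC3 Cx wp wm
  | .o1 _ _ => OptC3 Cx wp wm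
  | .o2 _ _ => OptC3 Cx wp wm
  | .o3 _ _ => OptC3 Cx wp wm
  | .u51 μ ψ an ad => UpR Cx P (m := 5) (l := 1) μ ψ an ad
  | .l51 μ ψ an ad => LoR Cx P (m := 5) (l := 1) μ ψ an ad
  | .u42 μ ψ an ad => UpR Cx P (m := 4) (l := 2) μ ψ an ad
  | .l42 μ ψ an ad => LoR Cx P (m := 4) (l := 2) μ ψ an ad
  | .u33 μ ψ an ad => UpR Cx P (m := 3) (l := 3) μ ψ an ad
  | .l33 μ ψ an ad => LoR Cx P (m := 3) (l := 3) μ ψ an ad
  | .u24 μ ψ an ad => UpR Cx P (m := 2) (l := 4) μ ψ an ad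
  | .l24 μ ψ an ad => LoR Cx P (m := 2) (l := 4) μ ψ an ad

section good
variable (Cx : X3) (wp wm : ℕ) (P : ParX)

theorem goodX_um1 (μ : MuX 3) :
    GoodP Cx (fun H E χ t => (ItT.um1 μ).fn wp wm P H E χ t) := by
  refine good_upW (m := 3) (l := 3) (muPh (μ.off fun D => D.m 0) P)
    (BJ (N := 3 + 3) ![0, 3, 4, 5]) P.vn P.vd id Function.injective_id
    fun {n} H E χ hc s hs => ?_
  have h1 := off_ne μ P _ hs
  have h2 : mkV P (symmDiff H E) (s 0) = false := h1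
  have e : ∑ u : Fin 3 → Fin n, (BJ (N := 3 + 3) ![0, 3, 4, 5]).F H E χ (Fin.append s u) =
      vs (jv (symmDiff H E)) (s 0) := by
    unfold vs
    refine Finset.sum_congr rfl fun u _ => congrArg (jv (symmDiff H E)) ?_
    funext i
    fin_cases i <;> rfl
  rw [e]
  unfold mkV at h2
  rw [decide_eq_false_iff_not, not_lt] at h2
  exact h2

theorem goodX_ma1 (μ : MuX 3) :
    GoodP Cx (fun H E χ t => (ItT.ma1 μ).fn wp wm P H E χ t) := by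
  refine good_loW (m := 3) (l := 3) (muPh (μ.on fun D => D.m 0) P)
    (BJ (N := 3 + 3) ![0, 3, 4, 5]) P.vn P.vd id Function.injective_id
    fun {n} H E χ hc s hs => ?_
  have h1 := on_ne μ P _ hs
  have h2 : mkV P (symmDiff H E) (s 0) = true := h1
  have e : ∑ u : Fin 3 → Fin n, (BJ (N := 3 + 3) ![0, 3, 4, 5]).F H E χ (Fin.append s u) =
      vs (jv (symmDiff H E)) (s 0) := by
    unfold vs
    refine Finset.sum_congr rfl fun u _ => congrArg (jv (symmDiff H E)) ?_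
    funext i
    fin_cases i <;> rfl
  rw [e]
  unfold mkV at h2
  rw [decide_eq_true_iff] at h2
  exact h2.le

theorem goodX_um2 (μ : MuX 4) :
    GoodP Cx (fun H E χ t => (ItT.um2 μ).fn wp wm P H E χ t) := by
  refine good_upW (m := 4) (l := 2) (muPh (μ.off fun D => D.b 0 1) P)
    (BJ (N := 4 + 2) ![0, 1, 4, 5]) P.dn P.dd id Function.injective_id
    fun {n} H E χ hc s hs => ?_
  have h1 := off_ne μ P _ hs
  have h2 : mkP P (symmDiff H E) (s 0) (s 1) = false := h1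
  have e : ∑ u : Fin 2 → Fin n, (BJ (N := 4 + 2) ![0, 1, 4, 5]).F H E χ (Fin.append s u) =
      js (jv (symmDiff H E)) (s 0) (s 1) := by
    unfold js
    refine Finset.sum_congr rfl fun u _ => congrArg (jv (symmDiff H E)) ?_
    funext i
    fin_cases i <;> rfl
  rw [e]
  unfold mkP Marks.mk at h2
  rw [decide_eq_false_iff_not, not_lt] at h2
  exact h2

theorem goodX_ma2 (μ : MuX 4) :
    GoodP Cx (fun H E χ t => (ItT.ma2 μ).fn wp wm P H E χ t) := by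
  refine good_loW (m := 4) (l := 2) (muPh (μ.on fun D => D.b 0 1) P)
    (BJ (N := 4 + 2) ![0, 1, 4, 5]) P.dn P.dd id Function.injective_id
    fun {n} H E χ hc s hs => ?_
  have h1 := on_ne μ P _ hs
  have h2 : mkP P (symmDiff H E) (s 0) (s 1) = true := h1
  have e : ∑ u : Fin 2 → Fin n, (BJ (N := 4 + 2) ![0, 1, 4, 5]).F H E χ (Fin.append s u) =
      js (jv (symmDiff H E)) (s 0) (s 1) := by
    unfold js
    refine Finset.sum_congr rfl fun u _ => congrArg (jv (symmDiff H E)) ?_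
    funext i
    fin_cases i <;> rfl
  rw [e]
  unfold mkP Marks.mk at h2
  rw [decide_eq_true_iff] at h2
  exact h2.le

theorem goodX_um3 (μ : MuX 5) :
    GoodP Cx (fun H E χ t => (ItT.um3 μ).fn wp wm P H E χ t) := by
  refine good_upW (m := 5) (l := 1) (muPh (μ.off fun D => D.τ 0 1 2) P)
    (BJ (N := 5 + 1) ![0, 1, 2, 5]) P.tn P.td id Function.injective_id
    fun {n} H E χ hc s hs => ?_
  have h1 := off_ne μ P _ hs
  have h2 : mkT P (symmDiff H E) (s 0) (s 1) (s 2) = false := h1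
  have e : ∑ u : Fin 1 → Fin n, (BJ (N := 5 + 1) ![0, 1, 2, 5]).F H E χ (Fin.append s u) =
      ts (symmDiff H E) (s 0) (s 1) (s 2) := by
    unfold ts
    refine Finset.sum_congr rfl fun u _ => congrArg (jv (symmDiff H E)) ?_
    funext i
    fin_cases i <;> rfl
  rw [e]
  unfold mkT at h2
  rw [decide_eq_false_iff_not, not_lt] at h2
  exact h2

theorem goodX_ma3 (μ : MuX 5) :
    GoodP Cx (fun H E χ t => (ItT.ma3 μ).fn wp wm P H E χ t) := by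
  refine good_loW (m := 5) (l := 1) (muPh (μ.on fun D => D.τ 0 1 2) P)
    (BJ (N := 5 + 1) ![0, 1, 2, 5]) P.tn P.td id Function.injective_id
    fun {n} H E χ hc s hs => ?_
  have h1 := on_ne μ P _ hs
  have h2 : mkT P (symmDiff H E) (s 0) (s 1) (s 2) = true := h1
  have e : ∑ u : Fin 1 → Fin n, (BJ (N := 5 + 1) ![0, 1, 2, 5]).F H E χ (Fin.append s u) =
      ts (symmDiff H E) (s 0) (s 1) (s 2) := by
    unfold ts
    refine Finset.sum_congr rfl fun u _ => congrArg (jv (symmDiff H E)) ?_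
    funext i
    fin_cases i <;> rfl
  rw [e]
  unfold mkT at h2
  rw [decide_eq_true_iff] at h2
  exact h2.le

theorem goodX_umB (μ : MuX 5) :
    GoodP Cx (fun H E χ t => (ItT.umB μ).fn wp wm P H E χ t) := by
  refine good_upW (m := 5) (l := 1) (muPh (μ.off fun D => D.v 0) P)
    (BD P (N := 5 + 1) fun D => D.b 0 5) P.bn P.bd id Function.injective_id
    fun {n} H E χ hc s hs => ?_
  have h1 := off_ne μ P _ hs
  have h2 : mkB P (symmDiff H E) (s 0) = false := h1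
  unfold mkB at h2
  rw [decide_eq_false_iff_not, not_lt] at h2
  exact h2

theorem goodX_maB (μ : MuX 5) :
    GoodP Cx (fun H E χ t => (ItT.maB μ).fn wp wm P H E χ t) := by
  refine good_loW (m := 5) (l := 1) (muPh (μ.on fun D => D.v 0) P)
    (BD P (N := 5 + 1) fun D => D.b 0 5) P.bn P.bd id Function.injective_id
    fun {n} H E χ hc s hs => ?_
  have h1 := on_ne μ P _ hs
  have h2 : mkB P (symmDiff H E) (s 0) = true := h1
  unfold mkB at h2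
  rw [decide_eq_true_iff] at h2
  exact h2.le

theorem goodX_fe1 (μ : MuX 5) (h : HXX Cx P) :
    GoodP Cx (fun H E χ t => (ItT.fe1 μ).fn wp wm P H E χ t) := by
  refine good_upW (m := 5) (l := 1) (muPh μ P)
    (BD P (N := 5 + 1) fun D => D.m 5) (P.xn * P.vd) (P.xd * P.vn) id Function.injective_id
    fun {n} H E χ hc s hs => ?_
  exact few_V P (symmDiff H E) (h H E χ hc)

theorem goodX_fe2 (μ : MuX 4) (h : HXX Cx P) :
    GoodP Cx (fun H E χ t => (ItT.fe2 μ).fn wp wm P H E χ t) := by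
  refine good_upW (m := 4) (l := 2) (muPh μ P)
    (BD P (N := 4 + 2) fun D => D.b 4 5) (P.xn * P.dd) (P.xd * P.dn) id Function.injective_id
    fun {n} H E χ hc s hs => ?_
  exact few_P P (symmDiff H E) (h H E χ hc)

theorem goodX_fe3 (μ : MuX 3) (h : HXX Cx P) :
    GoodP Cx (fun H E χ t => (ItT.fe3 μ).fn wp wm P H E χ t) := by
  refine good_upW (m := 3) (l := 3) (muPh μ P)
    (BD P (N := 3 + 3) fun D => D.τ 3 4 5) (P.xn * P.td) (P.xd * P.tn) id Function.injective_id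
    fun {n} H E χ hc s hs => ?_
  exact few_T P (symmDiff H E) (h H E χ hc)

theorem goodX_feB (μ : MuX 5) (h : HXX Cx P) :
    GoodP Cx (fun H E χ t => (ItT.feB μ).fn wp wm P H E χ t) := by
  refine good_upW (m := 5) (l := 1) (muPh μ P)
    (BD P (N := 5 + 1) fun D => D.v 5) (P.xn * P.dd * P.bd) (P.xd * P.dn * P.bn) id Function.injective_id
    fun {n} H E χ hc s hs => ?_
  exact few_B P (symmDiff H E) (h H E χ hc)

theorem goodX_al (μ : MuX 2) (h : HXX Cx P) :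
    GoodP Cx (fun H E χ t => (ItT.al μ).fn wp wm P H E χ t) := by
  refine good_upW (m := 2) (l := 4) (muPh μ P)
    (BJ (N := 2 + 4) ![2, 3, 4, 5]) P.xn P.xd id Function.injective_id
    fun {n} H E χ hc s hs => ?_
  have e : ∑ u : Fin 4 → Fin n, (BJ (N := 2 + 4) ![2, 3, 4, 5]).F H E χ (Fin.append s u) =
      ∑ p, jv (symmDiff H E) p := by
    refine Finset.sum_congr rfl fun u _ => congrArg (jv (symmDiff H E)) ?_
    funext i
    fin_cases i <;> rfl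
  rw [e]
  exact h H E χ hc

theorem goodX_v2 (μ : MuX 5) :
    GoodP Cx (fun H E χ t => (ItT.v2 μ).fn wp wm P H E χ t) := by
  refine good_upW (m := 5) (l := 1) (muPh (μ.off fun D => D.m 0) P)
    (BD P (N := 5 + 1) fun D => D.b 0 5) (P.vn * P.dd) (P.vd * P.dn) id Function.injective_id
    fun {n} H E χ hc s hs => ?_
  have h1 := off_ne μ P _ hs
  exact unV_P P (symmDiff H E) (s 0) h1

theorem goodX_v3 (μ : MuX 4) :
    GoodP Cx (fun H E χ t => (ItT.v3 μ).fn wp wm P H E χ t) := by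
  refine good_upW (m := 4) (l := 2) (muPh (μ.off fun D => D.m 0) P)
    (BD P (N := 4 + 2) fun D => D.τ 0 4 5) (P.vn * P.td) (P.vd * P.tn) id Function.injective_id
    fun {n} H E χ hc s hs => ?_
  have h1 := off_ne μ P _ hs
  exact unV_T P (symmDiff H E) (s 0) h1

theorem goodX_p3 (μ : MuX 5) :
    GoodP Cx (fun H E χ t => (ItT.p3 μ).fn wp wm P H E χ t) := by
  refine good_upW (m := 5) (l := 1) (muPh (μ.off fun D => D.b 0 1) P)
    (BD P (N := 5 + 1) fun D => D.τ 0 1 5) (P.dn * P.td) (P.dd * P.tn) id Function.injective_id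
    fun {n} H E χ hc s hs => ?_
  have h1 := off_ne μ P _ hs
  exact unP_T P (symmDiff H E) (s 0) (s 1) h1

end good

/-- An item has almost nonnegative average. -/
theorem good_itT (Cx : X3) (wp wm : ℕ) (P : ParX) (i : ItT) (h : i.Ok Cx wp wm P) :
    GoodP Cx (fun H E χ t => i.fn wp wm P H E χ t) := by
  match i, h with
  | .um1 μ, _ => exact goodX_um1 Cx wp wm P μ
  | .ma1 μ, _ => exact goodX_ma1 Cx wp wm P μ
  | .um2 μ, _ => exact goodX_um2 Cx wp wm P μ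
  | .ma2 μ, _ => exact goodX_ma2 Cx wp wm P μ
  | .um3 μ, _ => exact goodX_um3 Cx wp wm P μ
  | .ma3 μ, _ => exact goodX_ma3 Cx wp wm P μ
  | .umB μ, _ => exact goodX_umB Cx wp wm P μ
  | .maB μ, _ => exact goodX_maB Cx wp wm P μ
  | .fe1 μ, h => exact goodX_fe1 Cx wp wm P μ h
  | .fe2 μ, h => exact goodX_fe2 Cx wp wm P μ h
  | .fe3 μ, h => exact goodX_fe3 Cx wp wm P μ h
  | .feB μ, h => exact goodX_feB Cx wp wm P μ h
  | .al μ, h => exact goodX_al Cx wp wm P μ h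
  | .v2 μ, _ => exact goodX_v2 Cx wp wm P μ
  | .v3 μ, _ => exact goodX_v3 Cx wp wm P μ
  | .p3 μ, _ => exact goodX_p3 Cx wp wm P μ
  | .o0 μ R, h => exact good_mvF (i := 0) (j := 3) rfl wp wm h μ R P id Function.injective_id
  | .o1 μ R, h => exact good_mvF (i := 3) (j := 0) rfl wp wm h μ R P id Function.injective_id
  | .o2 μ R, h => exact good_mvF (i := 2) (j := 1) rfl wp wm h μ R P id Function.injective_id
  | .o3 μ R, h => exact good_mvF (i := 1) (j := 2) rfl wp wm h μ R P id Function.injective_id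
  | .u51 μ ψ an ad, h =>
    exact good_upW (m := 5) (l := 1) (muPh μ P) (muPh ψ P) an ad id Function.injective_id h
  | .l51 μ ψ an ad, h =>
    exact good_loW (m := 5) (l := 1) (muPh μ P) (muPh ψ P) an ad id Function.injective_id h
  | .u42 μ ψ an ad, h =>
    exact good_upW (m := 4) (l := 2) (muPh μ P) (muPh ψ P) an ad id Function.injective_id h
  | .l42 μ ψ an ad, h =>
    exact good_loW (m := 4) (l := 2) (muPh μ P) (muPh ψ P) an ad id Function.injective_id h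
  | .u33 μ ψ an ad, h =>
    exact good_upW (m := 3) (l := 3) (muPh μ P) (muPh ψ P) an ad id Function.injective_id h
  | .l33 μ ψ an ad, h =>
    exact good_loW (m := 3) (l := 3) (muPh μ P) (muPh ψ P) an ad id Function.injective_id h
  | .u24 μ ψ an ad, h =>
    exact good_upW (m := 2) (l := 4) (muPh μ P) (muPh ψ P) an ad id Function.injective_id h
  | .l24 μ ψ an ad, h =>
    exact good_loW (m := 2) (l := 4) (muPh μ P) (muPh ψ P) an ad id Function.injective_id h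

/-- The value of an item on a window. -/
def ItT.val (wp wm : ℕ) (P : ParX) (i : ItT) (D : WD 6) : ℤ :=
  match i with
  | .um1 μ => ((μ.off fun D => D.m 0).F (D.sub (Fin.castAdd 3)) : ℕ) *
      (((P.vn : ℕ) : ℤ) - ((P.vd : ℕ) : ℤ) * ((D.e {0, 3, 4, 5} ^^ D.r {0, 3, 4, 5}).toNat : ℕ))
  | .ma1 μ => ((μ.on fun D => D.m 0).F (D.sub (Fin.castAdd 3)) : ℕ) *
      (((P.vd : ℕ) : ℤ) * ((D.e {0, 3, 4, 5} ^^ D.r {0, 3, 4, 5}).toNat : ℕ) - ((P.vn : ℕ) : ℤ))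
  | .um2 μ => ((μ.off fun D => D.b 0 1).F (D.sub (Fin.castAdd 2)) : ℕ) *
      (((P.dn : ℕ) : ℤ) - ((P.dd : ℕ) : ℤ) * ((D.e {0, 1, 4, 5} ^^ D.r {0, 1, 4, 5}).toNat : ℕ))
  | .ma2 μ => ((μ.on fun D => D.b 0 1).F (D.sub (Fin.castAdd 2)) : ℕ) *
      (((P.dd : ℕ) : ℤ) * ((D.e {0, 1, 4, 5} ^^ D.r {0, 1, 4, 5}).toNat : ℕ) - ((P.dn : ℕ) : ℤ))
  | .um3 μ => ((μ.off fun D => D.τ 0 1 2).F (D.sub (Fin.castAdd 1)) : ℕ) *
      (((P.tn : ℕ) : ℤ) - ((P.td : ℕ) : ℤ) * ((D.e {0, 1, 2, 5} ^^ D.r {0, 1, 2, 5}).toNat : ℕ))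
  | .ma3 μ => ((μ.on fun D => D.τ 0 1 2).F (D.sub (Fin.castAdd 1)) : ℕ) *
      (((P.td : ℕ) : ℤ) * ((D.e {0, 1, 2, 5} ^^ D.r {0, 1, 2, 5}).toNat : ℕ) - ((P.tn : ℕ) : ℤ))
  | .umB μ => ((μ.off fun D => D.v 0).F (D.sub (Fin.castAdd 1)) : ℕ) *
      (((P.bn : ℕ) : ℤ) - ((P.bd : ℕ) : ℤ) * ((D.b 0 5).toNat : ℕ))
  | .maB μ => ((μ.on fun D => D.v 0).F (D.sub (Fin.castAdd 1)) : ℕ) *
      (((P.bd : ℕ) : ℤ) * ((D.b 0 5).toNat : ℕ) - ((P.bn : ℕ) : ℤ))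
  | .fe1 μ => (μ.F (D.sub (Fin.castAdd 1)) : ℕ) *
      (((P.xn * P.vd : ℕ) : ℤ) - ((P.xd * P.vn : ℕ) : ℤ) * ((D.m 5).toNat : ℕ))
  | .fe2 μ => (μ.F (D.sub (Fin.castAdd 2)) : ℕ) *
      (((P.xn * P.dd : ℕ) : ℤ) - ((P.xd * P.dn : ℕ) : ℤ) * ((D.b 4 5).toNat : ℕ))
  | .fe3 μ => (μ.F (D.sub (Fin.castAdd 3)) : ℕ) *
      (((P.xn * P.td : ℕ) : ℤ) - ((P.xd * P.tn : ℕ) : ℤ) * ((D.τ 3 4 5).toNat : ℕ))
  | .feB μ => (μ.F (D.sub (Fin.castAdd 1)) : ℕ) *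
      (((P.xn * P.dd * P.bd : ℕ) : ℤ) - ((P.xd * P.dn * P.bn : ℕ) : ℤ) * ((D.v 5).toNat : ℕ))
  | .al μ => (μ.F (D.sub (Fin.castAdd 4)) : ℕ) *
      (((P.xn : ℕ) : ℤ) - ((P.xd : ℕ) : ℤ) * ((D.e {2, 3, 4, 5} ^^ D.r {2, 3, 4, 5}).toNat : ℕ))
  | .v2 μ => ((μ.off fun D => D.m 0).F (D.sub (Fin.castAdd 1)) : ℕ) *
      (((P.vn * P.dd : ℕ) : ℤ) - ((P.vd * P.dn : ℕ) : ℤ) * ((D.b 0 5).toNat : ℕ))
  | .v3 μ => ((μ.off fun D => D.m 0).F (D.sub (Fin.castAdd 2)) : ℕ) *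
      (((P.vn * P.td : ℕ) : ℤ) - ((P.vd * P.tn : ℕ) : ℤ) * ((D.τ 0 4 5).toNat : ℕ))
  | .p3 μ => ((μ.off fun D => D.b 0 1).F (D.sub (Fin.castAdd 1)) : ℕ) *
      (((P.dn * P.td : ℕ) : ℤ) - ((P.dd * P.tn : ℕ) : ℤ) * ((D.τ 0 1 5).toNat : ℕ))
  | .o0 μ R => (μ.F (D.sub (Fin.castAdd 4)) : ℕ) *
      (if ((R.F (D.sub ![0, 1, 3, 4, 5]) ^^ R.F (D.sub ![0, 1, 2, 4, 5])) ^^
        (R.F (D.sub ![0, 1, 2, 3, 5]) ^^ R.F (D.sub ![0, 1, 2, 3, 4]))) = true then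
        dw wp wm (D.e {2, 3, 4, 5}) (D.r {2, 3, 4, 5}) else 0)
  | .o1 μ R => (μ.F (D.sub (Fin.castAdd 1)) : ℕ) *
      (if R.F (D.sub ![0, 1, 2, 3, 4]) = true then
        dw wp wm (D.e {0, 1, 2, 5}) (D.r {0, 1, 2, 5}) else 0)
  | .o2 μ R => (μ.F (D.sub (Fin.castAdd 2)) : ℕ) *
      (if (R.F (D.sub ![0, 1, 2, 3, 5]) ^^ R.F (D.sub ![0, 1, 2, 3, 4])) = true then
        dw wp wm (D.e {0, 1, 4, 5}) (D.r {0, 1, 4, 5}) else 0)
  | .o3 μ R => (μ.F (D.sub (Fin.castAdd 3)) : ℕ) *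
      (if ((R.F (D.sub ![0, 1, 2, 4, 5]) ^^ R.F (D.sub ![0, 1, 2, 3, 5])) ^^
        R.F (D.sub ![0, 1, 2, 3, 4])) = true then
        dw wp wm (D.e {0, 3, 4, 5}) (D.r {0, 3, 4, 5}) else 0)
  | .u51 μ ψ an ad => (μ.F (D.sub (Fin.castAdd 1)) : ℕ) * ((an : ℤ) - ad * (ψ.F D : ℕ))
  | .l51 μ ψ an ad => (μ.F (D.sub (Fin.castAdd 1)) : ℕ) * (ad * (ψ.F D : ℕ) - (an : ℤ))
  | .u42 μ ψ an ad => (μ.F (D.sub (Fin.castAdd 2)) : ℕ) * ((an : ℤ) - ad * (ψ.F D : ℕ))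
  | .l42 μ ψ an ad => (μ.F (D.sub (Fin.castAdd 2)) : ℕ) * (ad * (ψ.F D : ℕ) - (an : ℤ))
  | .u33 μ ψ an ad => (μ.F (D.sub (Fin.castAdd 3)) : ℕ) * ((an : ℤ) - ad * (ψ.F D : ℕ))
  | .l33 μ ψ an ad => (μ.F (D.sub (Fin.castAdd 3)) : ℕ) * (ad * (ψ.F D : ℕ) - (an : ℤ))
  | .u24 μ ψ an ad => (μ.F (D.sub (Fin.castAdd 4)) : ℕ) * ((an : ℤ) - ad * (ψ.F D : ℕ))
  | .l24 μ ψ an ad => (μ.F (D.sub (Fin.castAdd 4)) : ℕ) * (ad * (ψ.F D : ℕ) - (an : ℤ))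

section val
variable {n : ℕ} (H E : Finset (Finset (Fin n))) (χ : Fin n → Bool) (t : Fin 6 → Fin n)

theorem BJ_win (P : ParX) (ht : Function.Injective t) (a b c d : Fin 6) (h : Function.Injective ![a, b, c, d]) :
    (BJ ![a, b, c, d]).F H E χ (t ∘ id) = ((((wt P H E χ t).e {a, b, c, d} ^^
      (wt P H E χ t).r {a, b, c, d}).toNat : ℕ) : ℤ) := by
  have e : (t ∘ id) ∘ ![a, b, c, d] = ![t a, t b, t c, t d] := by
    funext x
    fin_cases x <;> rfl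
  show jv (symmDiff H E) ((t ∘ id) ∘ ![a, b, c, d]) = _
  rw [e, jv_win4 H E t ht a b c d h]
  rfl

/-- An item on a window. -/
theorem ItT.val_eq (wp wm : ℕ) (P : ParX) (i : ItT) (ht : Function.Injective t) :
    i.fn wp wm P H E χ t = i.val wp wm P (wt P H E χ t) := by
  have w2 := fun μ : MuX 2 => muPh_comp μ P H E χ t (Fin.castAdd 4)
  have w3 := fun μ : MuX 3 => muPh_comp μ P H E χ t (Fin.castAdd 3)
  have w4 := fun μ : MuX 4 => muPh_comp μ P H E χ t (Fin.castAdd 2)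
  have w5 := fun μ : MuX 5 => muPh_comp μ P H E χ t (Fin.castAdd 1)
  match i with
  | .um1 μ =>
    show (muPh (μ.off fun D => D.m 0) P).F H E χ (t ∘ Fin.castAdd 3) *
      (((P.vn : ℕ) : ℤ) - ((P.vd : ℕ) : ℤ) *
        (BJ (N := 3 + 3) ![0, 3, 4, 5]).F H E χ (t ∘ id)) = _
    have e : (BJ (N := 3 + 3) ![0, 3, 4, 5]).F H E χ (t ∘ id) = _ :=
      BJ_win H E χ t P ht 0 3 4 5 (by decide)
    rw [w3, e]
    rfl
  | .ma1 μ =>
    show (muPh (μ.on fun D => D.m 0) P).F H E χ (t ∘ Fin.castAdd 3) *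
      (((P.vd : ℕ) : ℤ) * (BJ (N := 3 + 3) ![0, 3, 4, 5]).F H E χ (t ∘ id) -
        ((P.vn : ℕ) : ℤ)) = _
    have e : (BJ (N := 3 + 3) ![0, 3, 4, 5]).F H E χ (t ∘ id) = _ :=
      BJ_win H E χ t P ht 0 3 4 5 (by decide)
    rw [w3, e]
    rfl
  | .um2 μ =>
    show (muPh (μ.off fun D => D.b 0 1) P).F H E χ (t ∘ Fin.castAdd 2) *
      (((P.dn : ℕ) : ℤ) - ((P.dd : ℕ) : ℤ) *
        (BJ (N := 4 + 2) ![0, 1, 4, 5]).F H E χ (t ∘ id)) = _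
    have e : (BJ (N := 4 + 2) ![0, 1, 4, 5]).F H E χ (t ∘ id) = _ :=
      BJ_win H E χ t P ht 0 1 4 5 (by decide)
    rw [w4, e]
    rfl
  | .ma2 μ =>
    show (muPh (μ.on fun D => D.b 0 1) P).F H E χ (t ∘ Fin.castAdd 2) *
      (((P.dd : ℕ) : ℤ) * (BJ (N := 4 + 2) ![0, 1, 4, 5]).F H E χ (t ∘ id) -
        ((P.dn : ℕ) : ℤ)) = _
    have e : (BJ (N := 4 + 2) ![0, 1, 4, 5]).F H E χ (t ∘ id) = _ :=
      BJ_win H E χ t P ht 0 1 4 5 (by decide)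
    rw [w4, e]
    rfl
  | .um3 μ =>
    show (muPh (μ.off fun D => D.τ 0 1 2) P).F H E χ (t ∘ Fin.castAdd 1) *
      (((P.tn : ℕ) : ℤ) - ((P.td : ℕ) : ℤ) *
        (BJ (N := 5 + 1) ![0, 1, 2, 5]).F H E χ (t ∘ id)) = _
    have e : (BJ (N := 5 + 1) ![0, 1, 2, 5]).F H E χ (t ∘ id) = _ :=
      BJ_win H E χ t P ht 0 1 2 5 (by decide)
    rw [w5, e]
    rfl
  | .ma3 μ =>
    show (muPh (μ.on fun D => D.τ 0 1 2) P).F H E χ (t ∘ Fin.castAdd 1) *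
      (((P.td : ℕ) : ℤ) * (BJ (N := 5 + 1) ![0, 1, 2, 5]).F H E χ (t ∘ id) -
        ((P.tn : ℕ) : ℤ)) = _
    have e : (BJ (N := 5 + 1) ![0, 1, 2, 5]).F H E χ (t ∘ id) = _ :=
      BJ_win H E χ t P ht 0 1 2 5 (by decide)
    rw [w5, e]
    rfl
  | .umB μ =>
    show (muPh (μ.off fun D => D.v 0) P).F H E χ (t ∘ Fin.castAdd 1) *
      (((P.bn : ℕ) : ℤ) - ((P.bd : ℕ) : ℤ) *
        (BD P (N := 5 + 1) fun D => D.b 0 5).F H E χ (t ∘ id)) = _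
    rw [w5]
    rfl
  | .maB μ =>
    show (muPh (μ.on fun D => D.v 0) P).F H E χ (t ∘ Fin.castAdd 1) *
      (((P.bd : ℕ) : ℤ) * (BD P (N := 5 + 1) fun D => D.b 0 5).F H E χ (t ∘ id) -
        ((P.bn : ℕ) : ℤ)) = _
    rw [w5]
    rfl
  | .fe1 μ =>
    show (muPh μ P).F H E χ (t ∘ Fin.castAdd 1) *
      (((P.xn * P.vd : ℕ) : ℤ) - ((P.xd * P.vn : ℕ) : ℤ) *
        (BD P (N := 5 + 1) fun D => D.m 5).F H E χ (t ∘ id)) = _
    rw [w5]
    rfl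
  | .fe2 μ =>
    show (muPh μ P).F H E χ (t ∘ Fin.castAdd 2) *
      (((P.xn * P.dd : ℕ) : ℤ) - ((P.xd * P.dn : ℕ) : ℤ) *
        (BD P (N := 4 + 2) fun D => D.b 4 5).F H E χ (t ∘ id)) = _
    rw [w4]
    rfl
  | .fe3 μ =>
    show (muPh μ P).F H E χ (t ∘ Fin.castAdd 3) *
      (((P.xn * P.td : ℕ) : ℤ) - ((P.xd * P.tn : ℕ) : ℤ) *
        (BD P (N := 3 + 3) fun D => D.τ 3 4 5).F H E χ (t ∘ id)) = _
    rw [w3]
    rfl
  | .feB μ =>
    show (muPh μ P).F H E χ (t ∘ Fin.castAdd 1) *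
      (((P.xn * P.dd * P.bd : ℕ) : ℤ) - ((P.xd * P.dn * P.bn : ℕ) : ℤ) *
        (BD P (N := 5 + 1) fun D => D.v 5).F H E χ (t ∘ id)) = _
    rw [w5]
    rfl
  | .al μ =>
    show (muPh μ P).F H E χ (t ∘ Fin.castAdd 4) *
      (((P.xn : ℕ) : ℤ) - ((P.xd : ℕ) : ℤ) *
        (BJ (N := 2 + 4) ![2, 3, 4, 5]).F H E χ (t ∘ id)) = _
    have e : (BJ (N := 2 + 4) ![2, 3, 4, 5]).F H E χ (t ∘ id) = _ :=
      BJ_win H E χ t P ht 2 3 4 5 (by decide)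
    rw [w2, e]
    rfl
  | .v2 μ =>
    show (muPh (μ.off fun D => D.m 0) P).F H E χ (t ∘ Fin.castAdd 1) *
      (((P.vn * P.dd : ℕ) : ℤ) - ((P.vd * P.dn : ℕ) : ℤ) *
        (BD P (N := 5 + 1) fun D => D.b 0 5).F H E χ (t ∘ id)) = _
    rw [w5]
    rfl
  | .v3 μ =>
    show (muPh (μ.off fun D => D.m 0) P).F H E χ (t ∘ Fin.castAdd 2) *
      (((P.vn * P.td : ℕ) : ℤ) - ((P.vd * P.tn : ℕ) : ℤ) *
        (BD P (N := 4 + 2) fun D => D.τ 0 4 5).F H E χ (t ∘ id)) = _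
    rw [w4]
    rfl
  | .p3 μ =>
    show (muPh (μ.off fun D => D.b 0 1) P).F H E χ (t ∘ Fin.castAdd 1) *
      (((P.dn * P.td : ℕ) : ℤ) - ((P.dd * P.tn : ℕ) : ℤ) *
        (BD P (N := 5 + 1) fun D => D.τ 0 1 5).F H E χ (t ∘ id)) = _
    rw [w5]
    rfl
  | .o0 μ R =>
    show mvF (i := 0) (j := 3) wp wm μ R P H E χ t = _
    rw [mvF_win wp wm μ R P H E χ t ht]
    exact mvV03 wp wm μ R (wt P H E χ t)
  | .o1 μ R =>
    show mvF (i := 3) (j := 0) wp wm μ R P H E χ t = _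
    rw [mvF_win wp wm μ R P H E χ t ht]
    exact mvV30 wp wm μ R (wt P H E χ t)
  | .o2 μ R =>
    show mvF (i := 2) (j := 1) wp wm μ R P H E χ t = _
    rw [mvF_win wp wm μ R P H E χ t ht]
    exact mvV21 wp wm μ R (wt P H E χ t)
  | .o3 μ R =>
    show mvF (i := 1) (j := 2) wp wm μ R P H E χ t = _
    rw [mvF_win wp wm μ R P H E χ t ht]
    exact mvV12 wp wm μ R (wt P H E χ t)
  | .u51 μ ψ an ad =>
    show (muPh μ P).F H E χ (t ∘ Fin.castAdd 1) * ((an : ℤ) - ad * (muPh ψ P).F H E χ t) = _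
    rw [w5]
    rfl
  | .l51 μ ψ an ad =>
    show (muPh μ P).F H E χ (t ∘ Fin.castAdd 1) * (ad * (muPh ψ P).F H E χ t - (an : ℤ)) = _
    rw [w5]
    rfl
  | .u42 μ ψ an ad =>
    show (muPh μ P).F H E χ (t ∘ Fin.castAdd 2) * ((an : ℤ) - ad * (muPh ψ P).F H E χ t) = _
    rw [w4]
    rfl
  | .l42 μ ψ an ad =>
    show (muPh μ P).F H E χ (t ∘ Fin.castAdd 2) * (ad * (muPh ψ P).F H E χ t - (an : ℤ)) = _
    rw [w4]
    rfl
  | .u33 μ ψ an ad =>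
    show (muPh μ P).F H E χ (t ∘ Fin.castAdd 3) * ((an : ℤ) - ad * (muPh ψ P).F H E χ t) = _
    rw [w3]
    rfl
  | .l33 μ ψ an ad =>
    show (muPh μ P).F H E χ (t ∘ Fin.castAdd 3) * (ad * (muPh ψ P).F H E χ t - (an : ℤ)) = _
    rw [w3]
    rfl
  | .u24 μ ψ an ad =>
    show (muPh μ P).F H E χ (t ∘ Fin.castAdd 4) * ((an : ℤ) - ad * (muPh ψ P).F H E χ t) = _
    rw [w2]
    rfl
  | .l24 μ ψ an ad =>
    show (muPh μ P).F H E χ (t ∘ Fin.castAdd 4) * (ad * (muPh ψ P).F H E χ t - (an : ℤ)) = _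
    rw [w2]
    rfl

end val

/-! ### Lists of items -/

/-- An item with a weight and an ordering of the window. -/
structure WIt where
  i : ItT
  w : ℕ
  π : Equiv.Perm (Fin 6)

/-- The sum of a list of items. -/
noncomputable def itF (wp wm : ℕ) (P : ParX) (L : List WIt) : Fn3 := fun H E χ t =>
  (L.map fun x => (x.w : ℤ) * x.i.fn wp wm P H E χ (t ∘ x.π)).sum

/-- The sum of a list of items on a window. -/
def itV (wp wm : ℕ) (P : ParX) (L : List WIt) (D : WD 6) : ℤ :=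
  (L.map fun x => (x.w : ℤ) * x.i.val wp wm P (D.sub x.π)).sum

theorem good_itF (Cx : X3) (wp wm : ℕ) (P : ParX) (L : List WIt)
    (h : ∀ x ∈ L, x.i.Ok Cx wp wm P) :
    GoodP Cx (fun H E χ t => itF wp wm P L H E χ t) := by
  induction L with
  | nil =>
    show GoodP Cx (fun _ _ _ _ => 0)
    exact GoodP.zero
  | cons x L ih =>
    have h1 := ((good_itT Cx wp wm P x.i (h x (by simp))).perm x.π).smul x.w
    have h2 := ih fun y hy => h y (by simp [hy])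
    refine (h1.add h2).mono fun H E χ _ t _ => le_of_eq ?_
    simp only [itF, List.map_cons, List.sum_cons]

theorem itF_eq (wp wm : ℕ) (P : ParX) (L : List WIt) {n : ℕ} (H E : Finset (Finset (Fin n)))
    (χ : Fin n → Bool) (t : Fin 6 → Fin n) (ht : Function.Injective t) :
    itF wp wm P L H E χ t = itV wp wm P L (wt P H E χ t) := by
  unfold itF itV
  congr 1
  refine List.map_congr_left fun x _ => ?_
  rw [x.i.val_eq H E χ (t ∘ x.π) wp wm P (ht.comp x.π.injective), wt_comp]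

/-- A function of the visible data of the window that is at least the sum of the items. -/
theorem good_V (Cx : X3) (wp wm : ℕ) (P : ParX) (L : List WIt)
    (h : ∀ x ∈ L, x.i.Ok Cx wp wm P)
    (V : WD 6 → ℤ) (hV : ∀ {n : ℕ} (H E : Finset (Finset (Fin n))) (χ : Fin n → Bool),
      Cx H E χ → ∀ t : Fin 6 → Fin n, Function.Injective t →
      itV wp wm P L (wt P H E χ t) ≤ V (wt P H E χ t)) :
    GoodP Cx (fun H E χ t => V (wt P H E χ t)) :=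
  (good_itF Cx wp wm P L h).mono fun H E χ hc t ht => by
    rw [itF_eq wp wm P L H E χ t ht]
    exact hV H E χ hc t ht

/-! ### Averages -/

/-- The average of a function lies in an interval. -/
def AvgT {k : ℕ} (ψ : Ph k) (a b d : ℕ) : X3 := fun {n} H E χ =>
  a * (n : ℤ) ^ k ≤ d * ∑ s, ψ.F H E χ s ∧ d * ∑ s, ψ.F H E χ s ≤ b * (n : ℤ) ^ k

theorem freeT_append (P : ParX) {m l n : ℕ} (ψ : MuX l) (H E : Finset (Finset (Fin n)))
    (χ : Fin n → Bool) (s : Fin m → Fin n) (u : Fin l → Fin n) :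
    (muPh (ψ.free m) P).F H E χ (Fin.append s u) = (muPh ψ P).F H E χ u := by
  have h := muPh_comp ψ P H E χ (Fin.append s u) (Fin.natAdd m)
  have e : (Fin.append s u : Fin (m + l) → Fin n) ∘ Fin.natAdd m = u := by
    funext i
    exact Fin.append_right s u i
  rw [e] at h
  exact h.symm

/-- The upper bound of the average of a function of the free vertices. -/
theorem upT_of_avg {Cx : X3} (P : ParX) {m l : ℕ} (μ : MuX m) (ψ : MuX l) (a b d : ℕ)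
    (h : ∀ {n : ℕ} (H E : Finset (Finset (Fin n))) (χ : Fin n → Bool), Cx H E χ →
      AvgT (muPh ψ P) a b d H E χ) : UpR Cx P (l := l) μ (ψ.free m) b d := by
  intro n H E χ hc s _
  rw [Finset.sum_congr rfl fun u _ => freeT_append P ψ H E χ s u]
  exact (h H E χ hc).2

/-- The lower bound of the average of a function of the free vertices. -/
theorem loT_of_avg {Cx : X3} (P : ParX) {m l : ℕ} (μ : MuX m) (ψ : MuX l) (a b d : ℕ)
    (h : ∀ {n : ℕ} (H E : Finset (Finset (Fin n))) (χ : Fin n → Bool), Cx H E χ →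
      AvgT (muPh ψ P) a b d H E χ) : LoR Cx P (l := l) μ (ψ.free m) a d := by
  intro n H E χ hc s _
  rw [Finset.sum_congr rfl fun u _ => freeT_append P ψ H E χ s u]
  exact (h H E χ hc).1

theorem mulT_sum_eq (P : ParX) {k l n : ℕ} (μ : MuX k) (ψ : MuX l)
    (H E : Finset (Finset (Fin n))) (χ : Fin n → Bool) :
    ∑ p, (muPh (μ.mul ψ) P).F H E χ p =
      (∑ s, (muPh μ P).F H E χ s) * ∑ u, (muPh ψ P).F H E χ u := by
  rw [← sum_kl (k := k) (m := l)]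
  refine Finset.sum_congr rfl fun p _ => ?_
  rw [muPh_comp, muPh_comp]
  show ((μ.F ((wt P H E χ p).sub (Fin.castAdd l)) *
    ψ.F ((wt P H E χ p).sub (Fin.natAdd k)) : ℕ) : ℤ) = _
  push_cast
  rfl

/-- The average of a product of functions of disjoint vertices. -/
theorem avgT_mul (P : ParX) {k l : ℕ} (μ : MuX k) (ψ : MuX l) (a b d a' b' d' : ℕ) {n : ℕ}
    (H E : Finset (Finset (Fin n))) (χ : Fin n → Bool) (h : AvgT (muPh μ P) a b d H E χ)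
    (h' : AvgT (muPh ψ P) a' b' d' H E χ) :
    AvgT (muPh (μ.mul ψ) P) (a * a') (b * b') (d * d') H E χ := by
  obtain ⟨h1, h2⟩ := h
  obtain ⟨h1', h2'⟩ := h'
  unfold AvgT
  rw [mulT_sum_eq]
  set A : ℤ := ∑ s, (muPh μ P).F H E χ s
  set B : ℤ := ∑ u, (muPh ψ P).F H E χ u
  have hA : 0 ≤ A := Finset.sum_nonneg fun s _ => (muPh μ P).h0 _ _ _ _
  have hB : 0 ≤ B := Finset.sum_nonneg fun s _ => (muPh ψ P).h0 _ _ _ _
  push_cast
  constructor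
  · have h3 := mul_le_mul h1 h1' (by positivity) (by positivity)
    calc (a * a' : ℤ) * (n : ℤ) ^ (k + l) = a * (n : ℤ) ^ k * (a' * (n : ℤ) ^ l) := by ring
      _ ≤ d * A * (d' * B) := h3
      _ = d * d' * (A * B) := by ring
  · have h3 := mul_le_mul h2 h2' (by positivity) (by positivity)
    calc (d * d' : ℤ) * (A * B) = d * A * (d' * B) := by ring
      _ ≤ b * (n : ℤ) ^ k * (b' * (n : ℤ) ^ l) := h3
      _ = (b * b' : ℤ) * (n : ℤ) ^ (k + l) := by ring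

/-- A cover of the unit interval. -/
theorem exists_avgT {k : ℕ} (ψ : Ph k) (hB : ψ.B ≤ 1) (l : List (ℕ × ℕ × ℕ))
    (hl : ∀ x y : ℤ, 0 ≤ x → x ≤ y → ∃ p ∈ l, (p.1 : ℤ) * y ≤ p.2.2 * x ∧
      (p.2.2 : ℤ) * x ≤ p.2.1 * y) {n : ℕ} (H E : Finset (Finset (Fin n)))
    (χ : Fin n → Bool) : ∃ p ∈ l, AvgT ψ p.1 p.2.1 p.2.2 H E χ := by
  have h0 : 0 ≤ ∑ s, ψ.F H E χ s := Finset.sum_nonneg fun s _ => ψ.h0 _ _ _ _
  have h1 : ∑ s, ψ.F H E χ s ≤ (n : ℤ) ^ k := by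
    calc ∑ s, ψ.F H E χ s ≤ ∑ _s : Fin k → Fin n, (1 : ℤ) :=
          Finset.sum_le_sum fun s _ => le_trans (ψ.hB H E χ s) (by exact_mod_cast hB)
      _ = (n : ℤ) ^ k := by
          rw [Finset.sum_const, nsmul_eq_mul, mul_one, card_funs]
  obtain ⟨p, hp, h2, h3⟩ := hl _ _ h0 h1
  exact ⟨p, hp, h2, h3⟩

end Pool.Agent.Lib.MP_afdd4d_co.K9.Star.Tw
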