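import Pool.Agent.Lib.MP_afdd4d_co.K9.TwLoc

/-!
# Local theorems for the quadruples with two vertices of each colour
-/

namespace Pool.Agent.Lib.MP_afdd4d_co.K9.Star.Tw

open Finset K8
open Pool.Agent.Lib.MP_afdd4d_co.K9.Marks

/-! ### Functions of the visible data, with a tolerance -/

/-- The average of a function of the visible data is almost nonnegative for small tolerances. -/
def GW (Cx : C3) (P : ParX) (v : WD 6 → ℤ) : Prop := GoodW Cx (fun H E χ t => v (wt P H E χ t))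

section gw
variable {Cx : C3} {P : ParX}

theorem GW.add (hm : MonoW Cx) {v v' : WD 6 → ℤ} (h : GW Cx P v) (h' : GW Cx P v') :
    GW Cx P (fun D => v D + v' D) := GoodW.add hm h h'

theorem GW.smul {v : WD 6 → ℤ} (w : ℕ) (h : GW Cx P v) : GW Cx P (fun D => w * v D) :=
  GoodW.smul w h

theorem GW.zero : GW Cx P (fun _ => 0) := GoodW.zero

theorem GW.perm {v : WD 6 → ℤ} (h : GW Cx P v) (π : Equiv.Perm (Fin 6)) :
    GW Cx P (fun D => v (D.sub π)) := by
  have h1 := GoodW.perm (Z := fun H E χ t => v (wt P H E χ t)) h π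
  refine GoodW.mono (Z := fun H E χ t => v (wt P H E χ (t ∘ π))) h1 fun _ _ H E χ _ t _ =>
    le_of_eq ?_
  show v (wt P H E χ (t ∘ π)) = v ((wt P H E χ t).sub π)
  rw [wt_comp]

theorem GW.sum (hm : MonoW Cx) {ι : Type*} (s : Finset ι) (v : ι → WD 6 → ℤ)
    (h : ∀ i ∈ s, GW Cx P (v i)) : GW Cx P (fun D => ∑ i ∈ s, v i D) :=
  GoodW.sum hm s (fun i => fun H E χ t => v i (wt P H E χ t)) h

theorem GW.list (hm : MonoW Cx) (L : List (WD 6 → ℤ)) (h : ∀ v ∈ L, GW Cx P v) :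
    GW Cx P (fun D => (L.map fun v => v D).sum) := by
  induction L with
  | nil => exact GW.zero
  | cons v L ih =>
    have h1 := (h v (by simp)).add hm (ih fun w hw => h w (by simp [hw]))
    refine GoodW.mono (Z := fun H E χ t => v (wt P H E χ t) +
      (L.map fun v => v (wt P H E χ t)).sum) h1 fun _ _ H E χ _ t _ => le_of_eq ?_
    simp only [List.map_cons, List.sum_cons]

theorem GW.of_gv {Cx' : X3} {v : WD 6 → ℤ} (η0 : ℝ) (h0 : 0 < η0)
    (hc : ∀ {n : ℕ} (H E : Finset (Finset (Fin n))) (χ : Fin n → Bool),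
      Cx η0 H E χ → Cx' H E χ) (h : GV Cx' P v) : GW Cx P v :=
  GoodW.of_goodP η0 h0 hc h

end gw

/-! ### Items with a comparison of two averages -/

/-- An average that is nonnegative for each choice of the roots. -/
theorem good_cmpW {Cx : X3} {m l : ℕ} (φ : Ph m)
    (Z : ∀ {n : ℕ}, Finset (Finset (Fin n)) → Finset (Finset (Fin n)) → (Fin n → Bool) →
      (Fin (m + l) → Fin n) → ℤ) (C : ℕ)
    (hC : ∀ {n : ℕ} (H E : Finset (Finset (Fin n))) (χ : Fin n → Bool) p, Z H E χ p ≤ C)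
    (j : Fin (m + l) → Fin 6) (hj : Function.Injective j)
    (h : ∀ {n : ℕ} (H E : Finset (Finset (Fin n))) (χ : Fin n → Bool), Cx H E χ →
      ∀ s : Fin m → Fin n, φ.F H E χ s ≠ 0 → 0 ≤ ∑ u : Fin l → Fin n, Z H E χ (Fin.append s u)) :
    GoodP Cx (fun H E χ t => φ.F H E χ (t ∘ j ∘ Fin.castAdd l) * Z H E χ (t ∘ j)) := by
  refine GoodP.of_bound (Z := fun H E χ t => φ.F H E χ (t ∘ j ∘ Fin.castAdd l) *
      Z H E χ (t ∘ j)) ((φ.B * C : ℕ) : ℝ) fun {n} H E χ hc => ?_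
  have h1 := inj_ge_of_tot (fun p : Fin (m + l) → Fin n => φ.F H E χ (p ∘ Fin.castAdd l) *
      Z H E χ p) ((φ.B * C : ℕ) : ℝ) ?_ ?_ j hj
  · exact h1
  · rw [sum_app (k := m) (l := l)]
    refine Finset.sum_nonneg fun s _ => ?_
    have e : ∀ u : Fin l → Fin n, φ.F H E χ ((Fin.append s u) ∘ Fin.castAdd l) *
        Z H E χ (Fin.append s u) = φ.F H E χ s * Z H E χ (Fin.append s u) := by
      intro u
      rw [append_castAdd]
    rw [Finset.sum_congr rfl fun u _ => e u, ← Finset.mul_sum]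
    by_cases h0 : φ.F H E χ s = 0
    · rw [h0, zero_mul]
    · exact mul_nonneg (φ.h0 H E χ s) (h H E χ hc s h0)
  · intro p
    have h2 : φ.F H E χ (p ∘ Fin.castAdd l) * Z H E χ p ≤ ((φ.B * C : ℕ) : ℤ) := by
      push_cast
      calc _ ≤ φ.F H E χ (p ∘ Fin.castAdd l) * C :=
            mul_le_mul_of_nonneg_left (hC _ _ _ _) (φ.h0 _ _ _ _)
        _ ≤ φ.B * C := mul_le_mul_of_nonneg_right (φ.hB _ _ _ _) (Int.natCast_nonneg _)
    exact_mod_cast h2

/-! ### The quadruples inside the pairs of vertices of different colours -/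

/-- Each pair of vertices of different colours is in a small number of the quadruples with two
vertices of each colour that are in exactly one of the two 4-graphs, compared with all pairs of
vertices of different colours. -/
def PairC (dn dd : ℕ) {n : ℕ} (H E : Finset (Finset (Fin n))) (χ : Fin n → Bool) : Prop :=
  ∀ x y : Fin n, χ x = false → χ y = true →
    dd * (qJ H E χ x y).card ≤ dn * (nc χ false * nc χ true)

/-- The number of ordered pairs of vertices of different colours. -/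
theorem sum_cross {n : ℕ} (χ : Fin n → Bool) :
    ∑ u : Fin 2 → Fin n, (((χ (u 0) ^^ χ (u 1)).toNat : ℕ) : ℤ) =
      2 * ((nc χ false * nc χ true : ℕ) : ℤ) := by
  have h1 : ∀ z : Bool, ∑ v : Fin n, (if χ v = z then (1 : ℤ) else 0) = (nc χ z : ℤ) := by
    intro z
    rw [Finset.sum_boole]
    rfl
  rw [← (finTwoArrowEquiv (Fin n)).symm.sum_comp, Fintype.sum_prod_type]
  have h2 : ∀ x y : Fin n, (((χ ((finTwoArrowEquiv (Fin n)).symm (x, y) 0) ^^
      χ ((finTwoArrowEquiv (Fin n)).symm (x, y) 1)).toNat : ℕ) : ℤ) =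
      (if χ x = false then 1 else 0) * (if χ y = true then 1 else 0) +
        (if χ x = true then 1 else 0) * (if χ y = false then 1 else 0) := by
    intro x y
    have e0 : (finTwoArrowEquiv (Fin n)).symm (x, y) 0 = x := rfl
    have e1 : (finTwoArrowEquiv (Fin n)).symm (x, y) 1 = y := rfl
    rw [e0, e1]
    cases χ x <;> cases χ y <;> rfl
  rw [Finset.sum_congr rfl fun x _ => Finset.sum_congr rfl fun y _ => h2 x y]
  simp_rw [Finset.sum_add_distrib, ← Finset.mul_sum, h1, ← Finset.sum_mul, h1]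
  push_cast
  ring

/-- The column of a pair of vertices of different colours, relative to the pairs of vertices of
different colours, on the data of a window. -/
def jCV {k : ℕ} (μ : MuX (2 + k)) (dn dd : ℕ) (j : Fin (2 + k + 2) → Fin 6) (D : WD 6) : ℤ :=
  ((μ.on fun D => !D.c (Fin.castAdd k 0) && D.c (Fin.castAdd k 1)).F
    (D.sub (j ∘ Fin.castAdd 2)) : ℕ) *
    ((dn : ℤ) * (((D.c (j (Fin.natAdd (2 + k) 0)) ^^ D.c (j (Fin.natAdd (2 + k) 1))).toNat : ℕ) : ℤ) -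
      dd * (((jB (Fin.castAdd 2 (Fin.castAdd k 0)) (Fin.castAdd 2 (Fin.castAdd k 1))
      (Fin.natAdd (2 + k) 0) (Fin.natAdd (2 + k) 1) (D.sub j)).toNat : ℕ) : ℤ))

theorem gv_jC {Cx : X3} {P : ParX} {k : ℕ} (μ : MuX (2 + k)) (dn dd : ℕ)
    (j : Fin (2 + k + 2) → Fin 6) (hj : Function.Injective j)
    (hc : ∀ {n : ℕ} (H E : Finset (Finset (Fin n))) (χ : Fin n → Bool), Cx H E χ →
      (∀ e ∈ H, e.card = 4) ∧ (∀ e ∈ E, e.card = 4) ∧ PairC dn dd H E χ) :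
    GV Cx P (jCV μ dn dd j) := by
  have h1 := good_cmpW (Cx := Cx) (m := 2 + k) (l := 2)
    (muPh (μ.on fun D => !D.c (Fin.castAdd k 0) && D.c (Fin.castAdd k 1)) P)
    (fun {n} (H E : Finset (Finset (Fin n))) (χ : Fin n → Bool) (p : Fin (2 + k + 2) → Fin n) =>
      (dn : ℤ) * (((χ (p (Fin.natAdd (2 + k) 0)) ^^ χ (p (Fin.natAdd (2 + k) 1))).toNat : ℕ) : ℤ) -
        dd * (((jB (Fin.castAdd 2 (Fin.castAdd k 0)) (Fin.castAdd 2 (Fin.castAdd k 1))
          (Fin.natAdd (2 + k) 0) (Fin.natAdd (2 + k) 1) (wt P H E χ p)).toNat : ℕ) : ℤ))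
    dn ?_ j hj ?_
  · refine GoodP.mono h1 fun H E χ _ t _ => le_of_eq ?_
    unfold jCV
    rw [← wt_comp, ← wt_comp]
    rfl
  · intro n H E χ p
    have h2 : (((χ (p (Fin.natAdd (2 + k) 0)) ^^ χ (p (Fin.natAdd (2 + k) 1))).toNat : ℕ) : ℤ) ≤ 1 := by
      exact_mod_cast Bool.toNat_le _
    have h3 : (dn : ℤ) * (((χ (p (Fin.natAdd (2 + k) 0)) ^^
        χ (p (Fin.natAdd (2 + k) 1))).toNat : ℕ) : ℤ) ≤ dn * 1 :=
      mul_le_mul_of_nonneg_left h2 (Int.natCast_nonneg _)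
    have h4 : (0 : ℤ) ≤ dd * (((jB (Fin.castAdd 2 (Fin.castAdd k 0))
        (Fin.castAdd 2 (Fin.castAdd k 1)) (Fin.natAdd (2 + k) 0) (Fin.natAdd (2 + k) 1)
          (wt P H E χ p)).toNat : ℕ) : ℤ) := by positivity
    linarith
  · intro n H E χ hx s hs
    obtain ⟨hH, hE, hP⟩ := hc H E χ hx
    have h2 := on_ne μ P _ hs
    rw [Bool.and_eq_true] at h2
    have h3 : χ (s (Fin.castAdd k 0)) = false := by
      have h4 : (!χ (s (Fin.castAdd k 0))) = true := h2.1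
      rwa [Bool.not_eq_true'] at h4
    have h4 : χ (s (Fin.castAdd k 1)) = true := h2.2
    have h5 := sum_jB P H E χ hH hE s h3 h4
    have h6 := hP _ _ h3 h4
    have h7 : (dd : ℤ) * ((qJ H E χ (s (Fin.castAdd k 0)) (s (Fin.castAdd k 1))).card : ℤ) ≤
        dn * ((nc χ false * nc χ true : ℕ) : ℤ) := by exact_mod_cast h6
    rw [Finset.sum_sub_distrib, ← Finset.mul_sum, ← Finset.mul_sum]
    have e1 : ∀ u : Fin 2 → Fin n,
        (((χ ((Fin.append s u : Fin (2 + k + 2) → Fin n) (Fin.natAdd (2 + k) 0)) ^^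
          χ ((Fin.append s u : Fin (2 + k + 2) → Fin n) (Fin.natAdd (2 + k) 1))).toNat : ℕ) : ℤ) =
        (((χ (u 0) ^^ χ (u 1)).toNat : ℕ) : ℤ) := by
      intro u
      rw [Fin.append_right, Fin.append_right]
    rw [Finset.sum_congr rfl fun u _ => e1 u, sum_cross]
    have h9 : (dd : ℤ) * ∑ u : Fin 2 → Fin n,
        (((jB (Fin.castAdd 2 (Fin.castAdd k 0)) (Fin.castAdd 2 (Fin.castAdd k 1))
          (Fin.natAdd (2 + k) 0) (Fin.natAdd (2 + k) 1)
            (wt P H E χ (Fin.append s u))).toNat : ℕ) : ℤ) ≤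
        dd * (2 * ((qJ H E χ (s (Fin.castAdd k 0)) (s (Fin.castAdd k 1))).card : ℤ)) :=
      mul_le_mul_of_nonneg_left h5 (Int.natCast_nonneg _)
    linarith

/-! ### Balanced colours -/

/-- A function of five vertices and the sign of the sixth. -/
def balV (j : Fin (5 + 1) → Fin 6) (γ : WD 5 → ℤ) (D : WD 6) : ℤ :=
  sg (D.c (j (Fin.natAdd 5 0))) * γ (D.sub (j ∘ Fin.castAdd 1))

/-- The average with the sign of a vertex is small if the colours are balanced. -/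
theorem gw_bal {Cx : C3} {P : ParX} (γ : WD 5 → ℤ) (G : ℕ) (hG : ∀ D, |γ D| ≤ G)
    (j : Fin (5 + 1) → Fin 6) (hj : Function.Injective j)
    (hc : ∀ (η : ℝ) {n : ℕ} (H E : Finset (Finset (Fin n))) (χ : Fin n → Bool), Cx η H E χ →
      |(nc χ false : ℝ) - nc χ true| ≤ η * n) : GW Cx P (balV j γ) := by
  intro δ hδ
  obtain ⟨N, hN⟩ := n5_aux (C := 15 * (G : ℝ)) (δ := δ / 2) (by positivity)
  refine ⟨δ / (2 * (G + 1)), by positivity, N, fun n hn H E χ hx => ?_⟩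
  have h1 := hc _ H E χ hx
  have hb : ∀ t : Fin 6 → Fin n, |((balV j γ (wt P H E χ t) : ℤ) : ℝ)| ≤ (G : ℝ) := by
    intro t
    have h2 : |balV j γ (wt P H E χ t)| ≤ (G : ℤ) := by
      unfold balV
      rw [abs_mul]
      have h3 : ∀ b, |sg b| = 1 := by decide
      rw [h3, one_mul]
      exact hG _
    exact_mod_cast h2
  have h2 := sum_all_inj (fun t => ((balV j γ (wt P H E χ t) : ℤ) : ℝ)) (G : ℝ) hb
  have h3 := hN n hn
  have h4 := desc6_ge n
  have e1 : ∑ t : Fin 6 → Fin n, ((balV j γ (wt P H E χ t) : ℤ) : ℝ) =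
      (∑ s : Fin 5 → Fin n, ((γ (wt P H E χ s) : ℤ) : ℝ)) * dn χ := by
    have hjb : Function.Bijective j := (Fintype.bijective_iff_injective_and_card j).mpr ⟨hj, rfl⟩
    have e2 : ∑ t : Fin 6 → Fin n, ((balV j γ (wt P H E χ t) : ℤ) : ℝ) =
        ∑ p : Fin (5 + 1) → Fin n, ((sg (χ (p (Fin.natAdd 5 0))) *
          γ (wt P H E χ (p ∘ Fin.castAdd 1)) : ℤ) : ℝ) := by
      rw [← (Equiv.arrowCongr (Equiv.ofBijective j hjb) (Equiv.refl (Fin n))).symm.sum_comp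
        fun p : Fin (5 + 1) → Fin n => ((sg (χ (p (Fin.natAdd 5 0))) *
          γ (wt P H E χ (p ∘ Fin.castAdd 1)) : ℤ) : ℝ)]
      refine Finset.sum_congr rfl fun t _ => ?_
      unfold balV
      rw [← wt_comp]
      rfl
    have e3 : ∑ p : Fin (5 + 1) → Fin n, ((sg (χ (p (Fin.natAdd 5 0))) *
          γ (wt P H E χ (p ∘ Fin.castAdd 1)) : ℤ) : ℝ) =
        ∑ s : Fin 5 → Fin n, ∑ u : Fin 1 → Fin n,
          ((sg (χ (u 0)) * γ (wt P H E χ s) : ℤ) : ℝ) := by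
      rw [← (Fin.appendEquiv 5 1).sum_comp, Fintype.sum_prod_type]
      refine Finset.sum_congr rfl fun s _ => Finset.sum_congr rfl fun u _ => ?_
      have a0 : (Fin.appendEquiv 5 1) (s, u) = Fin.append s u := rfl
      have a1 : (Fin.append s u : Fin (5 + 1) → Fin n) (Fin.natAdd 5 0) = u 0 :=
        Fin.append_right s u 0
      have a2 : (Fin.append s u : Fin (5 + 1) → Fin n) ∘ Fin.castAdd 1 = s := append_castAdd s u
      rw [a0, a1, a2]
    rw [e2, e3, Finset.sum_mul]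
    refine Finset.sum_congr rfl fun s _ => ?_
    have e4 : ∀ u : Fin 1 → Fin n, ((sg (χ (u 0)) * γ (wt P H E χ s) : ℤ) : ℝ) =
        ((γ (wt P H E χ s) : ℤ) : ℝ) * sr (χ (u 0)) := by
      intro u
      push_cast
      have : ((sg (χ (u 0)) : ℤ) : ℝ) = sr (χ (u 0)) := by
        unfold sg sr
        cases χ (u 0) <;> norm_num
      rw [this]
      ring
    rw [Finset.sum_congr rfl fun u _ => e4 u, ← Finset.mul_sum]
    congr 1
    rw [← sum_sr, ← (Equiv.funUnique (Fin 1) (Fin n)).symm.sum_comp]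
    rfl
  rw [e1] at h2
  have h5 : |∑ s : Fin 5 → Fin n, ((γ (wt P H E χ s) : ℤ) : ℝ)| ≤ G * (n : ℝ) ^ 5 := by
    refine le_trans (Finset.abs_sum_le_sum_abs _ _) ?_
    have h6 : ∀ s : Fin 5 → Fin n, |((γ (wt P H E χ s) : ℤ) : ℝ)| ≤ (G : ℝ) := by
      intro s
      exact_mod_cast hG _
    refine le_trans (Finset.sum_le_sum fun s _ => h6 s) ?_
    rw [Finset.sum_const, Finset.card_univ, Fintype.card_fun, Fintype.card_fin, Fintype.card_fin,
      nsmul_eq_mul]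
    push_cast
    linarith
  have h6 : |(∑ s : Fin 5 → Fin n, ((γ (wt P H E χ s) : ℤ) : ℝ)) * dn χ| ≤
      δ / 2 * (n : ℝ) ^ 6 := by
    rw [abs_mul]
    have h7 : |dn χ| ≤ δ / (2 * (G + 1)) * n := h1
    calc |∑ s : Fin 5 → Fin n, ((γ (wt P H E χ s) : ℤ) : ℝ)| * |dn χ| ≤
        G * (n : ℝ) ^ 5 * (δ / (2 * (G + 1)) * n) :=
          mul_le_mul h5 h7 (abs_nonneg _) (by positivity)
      _ = G * (δ / (2 * (G + 1))) * (n : ℝ) ^ 6 := by ring
      _ ≤ δ / 2 * (n : ℝ) ^ 6 := by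
          refine mul_le_mul_of_nonneg_right ?_ (by positivity)
          rw [← mul_div_assoc, div_le_div_iff₀ (by positivity) (by norm_num)]
          nlinarith [Nat.cast_nonneg (α := ℝ) G]
  have h7 := (abs_le.mp h6).1
  have h8 := (abs_le.mp h2).2
  have h9 : (G : ℝ) * ((n : ℝ) ^ 6 - (n.descFactorial 6 : ℝ)) ≤ 15 * G * (n : ℝ) ^ 5 := by
    have := mul_le_mul_of_nonneg_left h4 (Nat.cast_nonneg (α := ℝ) G)
    linarith
  have e5 : -(δ * (n : ℝ) ^ 6) = -(δ / 2 * (n : ℝ) ^ 6) - δ / 2 * (n : ℝ) ^ 6 := by ring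
  show -(δ * (n : ℝ) ^ 6) ≤ ∑ t ∈ inj (Fin n) 6, ((balV j γ (wt P H E χ t) : ℤ) : ℝ)
  rw [e5]
  linarith

/-! ### The densities of two 4-graphs -/

/-- The sum of the density defects of the windows. -/
theorem sum_def_le {n : ℕ} (hn : 1 ≤ n) (H : Finset (Finset (Fin n))) (h4 : ∀ e ∈ H, e.card = 4) :
    ∑ t ∈ inj (Fin n) 6, (((165 - 16 * S4 (zb H t) : ℤ)) : ℝ) ≤
      (n : ℝ) ^ 6 * (240 * (11 / 16 - e4 H)) + 2160 * (n : ℝ) ^ 5 := by
  have hn0 : (0 : ℝ) < n := by exact_mod_cast hn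
  have e1 : ∑ t ∈ inj (Fin n) 6, (((165 - 16 * S4 (zb H t) : ℤ)) : ℝ) =
      ∑ t ∈ inj (Fin n) 6, ((colR (zb H t) : ℤ) : ℝ) := rfl
  rw [e1, sum_colR_eq H h4]
  have h2 := PP42_ge n
  have h3 : ((n : ℝ) ^ 2 - 9 * n) * (H.card : ℝ) ≤ PP n 4 2 * (H.card : ℝ) :=
    mul_le_mul_of_nonneg_right h2 (Nat.cast_nonneg _)
  have h5 := desc_le n 6
  have h6 : 24 * (H.card : ℝ) ≤ (n : ℝ) ^ 4 := by
    have := card_quads_le H h4
    linarith
  have fe : 24 * (H.card : ℝ) = (n : ℝ) ^ 4 * e4 H := by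
    unfold e4
    field_simp
  have h7 : 9 * (n : ℝ) * (24 * (H.card : ℝ)) ≤ 9 * (n : ℝ) * (n : ℝ) ^ 4 :=
    mul_le_mul_of_nonneg_left h6 (by positivity)
  have e : 9 * (n : ℝ) * (n : ℝ) ^ 4 = 9 * (n : ℝ) ^ 5 := by ring
  rw [e] at h7
  have h8 : (n : ℝ) ^ 6 * (240 * (11 / 16 - e4 H)) =
      165 * (n : ℝ) ^ 6 - 240 * ((n : ℝ) ^ 2 * (24 * (H.card : ℝ))) := by
    rw [fe]
    ring
  rw [h8]
  linarith

/-- The density from the sums of the density defects of two 4-graphs. -/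
theorem e4_le_of_sum2 (N y : ℕ) (hN : 0 < N) (ε : ℝ) (hε : 0 < ε) :
    ∃ δ : ℝ, 0 < δ ∧ ∃ N0 : ℕ, ∀ n : ℕ, N0 ≤ n → ∀ H G : Finset (Finset (Fin n)),
      (∀ e ∈ H, e.card = 4) → (∀ e ∈ G, e.card = 4) →
      -(δ * (n : ℝ) ^ 6) ≤
        ∑ t ∈ inj (Fin n) 6, (((N * (165 - 16 * S4 (zb H t)) + y * (165 - 16 * S4 (zb G t)) :
          ℤ)) : ℝ) →
      e4 H ≤ 11 / 16 + (y : ℝ) / N * (11 / 16 - e4 G) + ε := by
  have hN' : (0 : ℝ) < N := by exact_mod_cast hN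
  obtain ⟨N2, hN2⟩ := n5_aux (C := 2160 * ((N : ℝ) + y)) (δ := N * (120 * ε)) (by positivity)
  refine ⟨N * (120 * ε), by positivity, max 1 N2, fun n hn H G h4 h4' s => ?_⟩
  have hn1 : 1 ≤ n := le_trans (le_max_left _ _) hn
  have h10 := hN2 n (le_trans (le_max_right _ _) hn)
  have hn0 : (0 : ℝ) < n := by exact_mod_cast hn1
  have e1 : ∑ t ∈ inj (Fin n) 6, (((N * (165 - 16 * S4 (zb H t)) + y * (165 - 16 * S4 (zb G t)) :
          ℤ)) : ℝ) = N * ∑ t ∈ inj (Fin n) 6, (((165 - 16 * S4 (zb H t) : ℤ)) : ℝ) +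
      y * ∑ t ∈ inj (Fin n) 6, (((165 - 16 * S4 (zb G t) : ℤ)) : ℝ) := by
    rw [Finset.mul_sum, Finset.mul_sum, ← Finset.sum_add_distrib]
    refine Finset.sum_congr rfl fun t _ => ?_
    push_cast
    ring
  rw [e1] at s
  have a1 := mul_le_mul_of_nonneg_left (sum_def_le hn1 H h4) hN'.le
  have a2 := mul_le_mul_of_nonneg_left (sum_def_le hn1 G h4') (Nat.cast_nonneg (α := ℝ) y)
  have fin : (n : ℝ) ^ 6 * (N * (240 * e4 H)) ≤ (n : ℝ) ^ 6 *
      (N * (240 * (11 / 16)) + y * (240 * (11 / 16 - e4 G)) + N * (240 * ε)) := by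
    have b1 : N * ((n : ℝ) ^ 6 * (240 * (11 / 16 - e4 H)) + 2160 * (n : ℝ) ^ 5) =
        (n : ℝ) ^ 6 * (N * (240 * (11 / 16))) - (n : ℝ) ^ 6 * (N * (240 * e4 H)) +
          2160 * N * (n : ℝ) ^ 5 := by ring
    have b2 : (y : ℝ) * ((n : ℝ) ^ 6 * (240 * (11 / 16 - e4 G)) + 2160 * (n : ℝ) ^ 5) =
        (n : ℝ) ^ 6 * (y * (240 * (11 / 16 - e4 G))) + 2160 * y * (n : ℝ) ^ 5 := by ring
    rw [b1] at a1
    rw [b2] at a2
    have b3 : (n : ℝ) ^ 6 * (N * (240 * (11 / 16)) + y * (240 * (11 / 16 - e4 G)) +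
        N * (240 * ε)) = (n : ℝ) ^ 6 * (N * (240 * (11 / 16))) +
        (n : ℝ) ^ 6 * (y * (240 * (11 / 16 - e4 G))) + 2 * (N * (120 * ε) * (n : ℝ) ^ 6) := by ring
    rw [b3]
    linarith
  have h11 := le_of_mul_le_mul_left fin (by positivity)
  have h12 : (N : ℝ) * (240 * e4 H) ≤
      N * (240 * (11 / 16 + (y : ℝ) / N * (11 / 16 - e4 G) + ε)) := by
    have e : (N : ℝ) * (240 * (11 / 16 + (y : ℝ) / N * (11 / 16 - e4 G) + ε)) =
        N * (240 * (11 / 16)) + y * (240 * (11 / 16 - e4 G)) + N * (240 * ε) := by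
      field_simp
    rw [e]
    exact h11
  have h13 := le_of_mul_le_mul_left h12 hN'
  linarith

/-! ### The theorem for pairs and balanced colours -/

/-- The condition of the theorem for pairs, with almost balanced colours. -/
structure CtK (dn dd : ℕ) (η : ℝ) {n : ℕ} (H E : Finset (Finset (Fin n))) (χ : Fin n → Bool) :
    Prop where
  h4 : ∀ e ∈ H, e.card = 4
  k5 : K5F H
  g : ∃ M : Fin n → Fin n → Bool, E = gir χ M (fun _ => false) (fun _ => false)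
  s : |(nc χ false : ℝ) - nc χ true| ≤ η * n
  j : PairJ dn dd H E χ

/-- The condition as a family. -/
abbrev CtKX (dn dd : ℕ) : C3 := fun η {_} H E χ => CtK dn dd η H E χ

theorem monoW_CtK (dn dd : ℕ) : MonoW (CtKX dn dd) := by
  intro η η' h n H E χ hc
  exact ⟨hc.h4, hc.k5, hc.g, le_trans hc.s (mul_le_mul_of_nonneg_right h (Nat.cast_nonneg _)),
    hc.j⟩

/-- Terms under the condition without the balance. -/
theorem gwB_of_gv {P : ParX} {dn dd : ℕ} {v : WD 6 → ℤ} (h : GV (CtJX dn dd 1 1) P v) :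
    GW (CtKX dn dd) P v :=
  GW.of_gv 1 one_pos (fun H E χ hc => ⟨hc.h4, hc.k5, hc.g, by
    rw [Nat.cast_one]
    exact (one_mul _).le.trans hc.s, hc.j⟩) h

/-- The column of the balance. -/
theorem gwB_bal {P : ParX} {dn dd : ℕ} (γ : WD 5 → ℤ) (G : ℕ) (hG : ∀ D, |γ D| ≤ G)
    (j : Fin (5 + 1) → Fin 6) (hj : Function.Injective j) : GW (CtKX dn dd) P (balV j γ) :=
  gw_bal γ G hG j hj fun _ _ _ _ _ hc => hc.s

/-- The theorem for pairs and balanced colours from the inequality on windows. -/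
theorem locB {P : ParX} (dn dd N : ℕ) (hN : 0 < N) (v : WD 6 → ℤ)
    (hv : GW (CtKX dn dd) P v)
    (hrow : ∀ D : WD 6, K5w D.e → (∃ z : Fin 6 → Fin 6 → Bool, D.r = eL D.c z) →
      v D ≤ N * (165 - 16 * S4 D.e)) :
    ∀ ε : ℝ, 0 < ε → ∃ δ : ℝ, 0 < δ ∧ ∃ N0 : ℕ, ∀ n : ℕ, N0 ≤ n →
      ∀ (H : Finset (Finset (Fin n))) (χ : Fin n → Bool) (M : Fin n → Fin n → Bool),
      (∀ e ∈ H, e.card = 4) →
      (∀ S : Finset (Fin n), S.card = 5 → ∃ e ∈ S.powersetCard 4, e ∉ H) →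
      |((univ.filter fun v => χ v = false).card : ℝ) -
        ((univ.filter fun v => χ v = true).card : ℝ)| ≤ δ * n →
      (∀ x y : Fin n, χ x = false → χ y = true →
        dd * ((symmDiff H (gir χ M (fun _ => false) (fun _ => false))).filter fun Q =>
          x ∈ Q ∧ y ∈ Q ∧ (Q.filter fun v => χ v = true).card = 2).card ≤ dn * n.choose 2) →
      (H.card : ℝ) ≤ ((11 / 16 : ℝ) + ε) * ((n.choose 4 : ℕ) : ℝ) := by
  intro ε hε
  obtain ⟨δ, hδ, N1, hN1⟩ := e4_le_of_sum N hN (ε / 2) (by linarith)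
  obtain ⟨η, hη, N2, hN2⟩ := hv δ hδ
  obtain ⟨N3, hN3⟩ := card_le_of_e4 ε hε
  refine ⟨η, hη, max N1 (max N2 N3), fun n hn H χ M hH hK hs hj => ?_⟩
  have hn' : max N2 N3 ≤ n := le_trans (le_max_right _ _) hn
  have hc : CtK dn dd η H (gir χ M (fun _ => false) (fun _ => false)) χ :=
    ⟨hH, hK, ⟨M, rfl⟩, hs, fun x y hx hy => hj x y hx hy⟩
  have h1 := hN2 n (le_trans (le_max_left _ _) hn') H _ χ hc
  refine hN3 n (le_trans (le_max_right _ _) hn') H
    (hN1 n (le_trans (le_max_left _ _) hn) H hH (le_trans h1 (Finset.sum_le_sum fun t ht => ?_)))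
  have ht' := mem_inj.mp ht
  exact_mod_cast hrow (wt P H (gir χ M (fun _ => false) (fun _ => false)) χ t)
    (k5w_zb H hH hK t ht') ⟨(dt χ M t).2, zb_eL χ M t ht'⟩

/-! ### The theorem for pairs, relative to the pairs of different colours -/

/-- The condition of the theorem. -/
structure CtC (dn dd : ℕ) {n : ℕ} (H E : Finset (Finset (Fin n))) (χ : Fin n → Bool) :
    Prop where
  h4 : ∀ e ∈ H, e.card = 4
  k5 : K5F H
  g : ∃ M : Fin n → Fin n → Bool, E = gir χ M (fun _ => false) (fun _ => false)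
  j : PairC dn dd H E χ

/-- The condition as a family. -/
abbrev CtCX (dn dd : ℕ) : X3 := fun {_} H E χ => CtC dn dd H E χ

theorem CtC.e4' {dn dd : ℕ} {n : ℕ} {H E : Finset (Finset (Fin n))} {χ : Fin n → Bool}
    (h : CtC dn dd H E χ) : (∀ e ∈ E, e.card = 4) ∧ EvenH n E := by
  obtain ⟨M, rfl⟩ := h.g
  exact ⟨gir_card _ _ _ _, evenH_gir _ _ _ _⟩

/-- The column of a pair of vertices of different colours. -/
theorem gvC_pair {P : ParX} {dn dd k : ℕ} (μ : MuX (2 + k)) (j : Fin (2 + k + 2) → Fin 6)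
    (hj : Function.Injective j) : GV (CtCX dn dd) P (jCV μ dn dd j) :=
  gv_jC μ dn dd j hj fun _ _ _ hx => ⟨hx.h4, hx.e4'.1, hx.j⟩

/-- The theorem for pairs, relative to the pairs of different colours, from the inequality on
windows. -/
theorem locC {P : ParX} (dn dd N y : ℕ) (hN : 0 < N) (v : WD 6 → ℤ)
    (hv : GV (CtCX dn dd) P v)
    (hrow : ∀ D : WD 6, K5w D.e → (∃ z : Fin 6 → Fin 6 → Bool, D.r = eL D.c z) →
      v D ≤ N * (165 - 16 * S4 D.e) + y * (165 - 16 * S4 D.r)) :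
    ∀ ε : ℝ, 0 < ε → ∃ N0 : ℕ, ∀ n : ℕ, N0 ≤ n → ∀ (H : Finset (Finset (Fin n)))
      (χ : Fin n → Bool) (M : Fin n → Fin n → Bool),
      (∀ e ∈ H, e.card = 4) →
      (∀ S : Finset (Fin n), S.card = 5 → ∃ e ∈ S.powersetCard 4, e ∉ H) →
      (∀ x y : Fin n, χ x = false → χ y = true →
        dd * ((symmDiff H (gir χ M (fun _ => false) (fun _ => false))).filter fun Q =>
          x ∈ Q ∧ y ∈ Q ∧ (Q.filter fun v => χ v = true).card = 2).card ≤
          dn * ((univ.filter fun v => χ v = false).card *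
            (univ.filter fun v => χ v = true).card)) →
      (H.card : ℝ) ≤ ((11 / 16 : ℝ) + ε) * ((n.choose 4 : ℕ) : ℝ) +
        (y : ℝ) / N * ((11 / 16 : ℝ) * ((n.choose 4 : ℕ) : ℝ) -
          ((gir χ M (fun _ => false) (fun _ => false)).card : ℝ)) := by
  intro ε hε
  have hN' : (0 : ℝ) < N := by exact_mod_cast hN
  set κ : ℝ := (y : ℝ) / N with hκ
  have hκ0 : 0 ≤ κ := by positivity
  obtain ⟨δ, hδ, N1, hN1⟩ := e4_le_of_sum2 N y hN (ε / 2) (by linarith)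
  obtain ⟨N2, hN2⟩ := hv δ hδ
  obtain ⟨N3, hN3⟩ := exists_nat_gt ((11 / 16 + ε + κ) * 12 / ε)
  refine ⟨max (max 4 N1) (max N2 N3), fun n hn H χ M hH hK hj => ?_⟩
  have hn4 : 4 ≤ n := le_trans (le_trans (le_max_left _ _) (le_max_left _ _)) hn
  have hnN1 : N1 ≤ n := le_trans (le_trans (le_max_right _ _) (le_max_left _ _)) hn
  have hnN2 : N2 ≤ n := le_trans (le_trans (le_max_left _ _) (le_max_right _ _)) hn
  have hnN3 : (N3 : ℝ) ≤ n := by
    exact_mod_cast le_trans (le_trans (le_max_right _ _) (le_max_right _ _)) hn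
  have hn0 : (0 : ℝ) < n := by exact_mod_cast (by omega : 0 < n)
  set G : Finset (Finset (Fin n)) := gir χ M (fun _ => false) (fun _ => false) with hG
  have hG4 : ∀ e ∈ G, e.card = 4 := gir_card _ _ _ _
  have h6 := choose4_ge n hn4
  have hc : CtC dn dd H G χ := ⟨hH, hK, ⟨M, hG⟩, fun x y hx hy => hj x y hx hy⟩
  have h1 := hN2 n hnN2 H G χ hc
  have key := hN1 n hnN1 H G hH hG4 (le_trans h1 (Finset.sum_le_sum fun t ht => by
    have ht' := mem_inj.mp ht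
    exact_mod_cast hrow (wt P H G χ t) (k5w_zb H hH hK t ht')
      ⟨(dt χ M t).2, by rw [hG]; exact zb_eL χ M t ht'⟩))
  have h7 : (11 / 16 + ε + κ) * 12 / ε < n := lt_of_lt_of_le hN3 hnN3
  rw [div_lt_iff₀ hε] at h7
  have fH : 24 * (H.card : ℝ) = (n : ℝ) ^ 4 * e4 H := by
    unfold e4
    field_simp
  have fG : 24 * (G.card : ℝ) = (n : ℝ) ^ 4 * e4 G := by
    unfold e4
    field_simp
  have h8 : 24 * (H.card : ℝ) ≤ (n : ℝ) ^ 4 * (11 / 16 + ε / 2) +
      κ * ((n : ℝ) ^ 4 * (11 / 16) - 24 * (G.card : ℝ)) := by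
    rw [fH, fG]
    have := mul_le_mul_of_nonneg_left key (by positivity : (0 : ℝ) ≤ (n : ℝ) ^ 4)
    linarith
  have h9 : (11 / 16 + ε + κ) * 12 * (n : ℝ) ^ 3 ≤ n * ε * (n : ℝ) ^ 3 :=
    mul_le_mul_of_nonneg_right h7.le (by positivity)
  have h10 : n * ε * (n : ℝ) ^ 3 = ε * (n : ℝ) ^ 4 := by ring
  rw [h10] at h9
  have h11 : (11 / 16 + ε) * ((n : ℝ) ^ 4 / 24 - (n : ℝ) ^ 3 / 4) ≤
      (11 / 16 + ε) * ((n.choose 4 : ℕ) : ℝ) := mul_le_mul_of_nonneg_left h6 (by linarith)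
  have h12 : κ * (11 / 16) * ((n : ℝ) ^ 4 / 24 - (n : ℝ) ^ 3 / 4) ≤
      κ * (11 / 16) * ((n.choose 4 : ℕ) : ℝ) := mul_le_mul_of_nonneg_left h6 (by positivity)
  have h13 : 0 ≤ κ * (n : ℝ) ^ 3 := by positivity
  nlinarith

end Pool.Agent.Lib.MP_afdd4d_co.K9.Star.Tw
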