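import Pool.Agent.Lib.MP_afdd4d_co.K9.TwBoth

/-!
# Kernels with marks and functions of the visible data

Kernels whose types and codes are functions of all visible data of the roots and of the flags, marks
included; the second-order condition and the equality of the degrees with functions of the visible
data.
-/

namespace Pool.Agent.Lib.MP_afdd4d_co.K9.Star.Tw

open Finset K8
open Pool.Agent.Lib.MP_afdd4d_co.K9.Marks

/-! ### Kernels -/

/-- A kernel with `k` roots and flags of `m` vertices: a code of the flag with the roots, and a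
matrix for the data of the roots. -/
structure MKer (k m : ℕ) where
  K : ℕ
  cod : WD (k + m) → ℕ
  lt : ∀ D, cod D < K
  g : WD k → ℕ → ℕ → ℤ
  C : ℕ
  psd : ∀ (D : WD k) (a : ℕ → ℝ),
    0 ≤ ∑ i ∈ range K, ∑ j ∈ range K, (g D i j : ℝ) * (a i * a j)
  bd : ∀ D, ∀ i < K, ∀ j < K, g D i j ≤ C

theorem comp_append {α β : Type*} {k m : ℕ} (t : α → β) (s : Fin k → α) (u : Fin m → α) :
    Fin.append (t ∘ s) (t ∘ u) = t ∘ Fin.append s u := by
  funext i
  refine Fin.addCases (fun a => ?_) (fun a => ?_) i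
  · simp only [Fin.append_left, Function.comp_apply]
  · simp only [Fin.append_right, Function.comp_apply]

namespace MKer
variable {k m : ℕ}

/-- The kernel as a function of vertices. -/
def ck (κ : MKer k m) (P : ParX) : CK k m where
  f := fun H E χ s x y => κ.g (wt P H E χ s) (κ.cod (wt P H E χ (Fin.append s x)))
    (κ.cod (wt P H E χ (Fin.append s y)))
  C := κ.C
  psd := fun H E χ s => psd_codes κ.K (fun x => κ.cod (wt P H E χ (Fin.append s x)))
    (fun _ => κ.lt _) (fun i j => (κ.g (wt P H E χ s) i j : ℝ)) (κ.psd _)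
  bd := fun H E χ s x y => by exact_mod_cast κ.bd _ _ (κ.lt _) _ (κ.lt _)

/-- The value of a kernel on the data of a window. -/
def v (κ : MKer k m) {N : ℕ} (j : Fin (k + (m + m)) → Fin N) (D : WD N) : ℤ :=
  κ.g (D.sub (j ∘ Fin.castAdd (m + m)))
    (κ.cod (D.sub (Fin.append (j ∘ Fin.castAdd (m + m)) ((j ∘ Fin.natAdd k) ∘ Fin.castAdd m))))
    (κ.cod (D.sub (Fin.append (j ∘ Fin.castAdd (m + m)) ((j ∘ Fin.natAdd k) ∘ Fin.natAdd m))))

theorem ck_val (κ : MKer k m) (P : ParX) {n N : ℕ} (H E : Finset (Finset (Fin n)))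
    (χ : Fin n → Bool) (t : Fin N → Fin n) (j : Fin (k + (m + m)) → Fin N) :
    (κ.ck P).val H E χ (t ∘ j) = κ.v j (wt P H E χ t) := by
  unfold CK.val v
  show κ.g (wt P H E χ (t ∘ (j ∘ Fin.castAdd (m + m))))
    (κ.cod (wt P H E χ (Fin.append (t ∘ (j ∘ Fin.castAdd (m + m)))
      (t ∘ ((j ∘ Fin.natAdd k) ∘ Fin.castAdd m)))))
    (κ.cod (wt P H E χ (Fin.append (t ∘ (j ∘ Fin.castAdd (m + m)))
      (t ∘ ((j ∘ Fin.natAdd k) ∘ Fin.natAdd m))))) = _
  rw [comp_append, comp_append, wt_comp, wt_comp, wt_comp]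

end MKer

/-! ### Functions of the visible data, for the 4-graph and the even 4-graph -/

/-- The average of a function of the visible data is almost nonnegative. -/
def GV (Cx : X3) (P : ParX) (v : WD 6 → ℤ) : Prop := GoodP Cx (fun H E χ t => v (wt P H E χ t))

/-- The term of the second-order condition on the data of a window. -/
def hessV {k : ℕ} (j : Fin (4 + k) → Fin 6) (γ : WD (k + 1) → ℤ) (G : ℕ) (D : WD 6) : ℤ :=
  15 * ((11 - 16 * ((D.e (univ.image fun i : Fin 4 => j (Fin.castAdd k i))).toNat : ℤ)) *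
    (γ (D.sub (Fin.append (fun i => j (Fin.natAdd 4 i)) ![j (Fin.castAdd k 0)])) *
      γ (D.sub (Fin.append (fun i => j (Fin.natAdd 4 i)) ![j (Fin.castAdd k 1)])))) +
    (G : ℤ) ^ 2 * (16 * S4 D.e - 165)

/-- The term of the equality of the degrees on the data of a window. -/
def regV {k : ℕ} (σ : ℤ) (j : Fin (4 + k) → Fin 6) (γ : WD (k + 1) → ℤ) (G : ℕ) (D : WD 6) : ℤ :=
  15 * (σ * ((16 * ((D.e (univ.image fun i : Fin 4 => j (Fin.castAdd k i))).toNat : ℤ) - 11) *
    γ (D.sub (Fin.append (fun i => j (Fin.natAdd 4 i)) ![j (Fin.castAdd k 0)])))) +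
    (G : ℤ) * (16 * S4 D.e - 165)

theorem mem_zb {n N : ℕ} (H : Finset (Finset (Fin n))) (t : Fin N → Fin n) (S : Finset (Fin N)) :
    (if S.image t ∈ H then (1 : ℤ) else 0) = ((zb H t S).toNat : ℤ) := by
  have h : zb H t S = decide (S.image t ∈ H) := by
    rw [zb_eq]
    rfl
  rw [h]
  by_cases h1 : S.image t ∈ H
  · rw [if_pos h1, decide_eq_true h1]
    rfl
  · rw [if_neg h1, decide_eq_false h1]
    rfl

theorem image_comp4 {n N k : ℕ} (t : Fin N → Fin n) (j : Fin (4 + k) → Fin N) :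
    (univ.image fun i : Fin 4 => (t ∘ j) (Fin.castAdd k i)) =
      (univ.image fun i : Fin 4 => j (Fin.castAdd k i)).image t := by
  rw [Finset.image_image]
  rfl

theorem append_one {n N k : ℕ} (t : Fin N → Fin n) (j : Fin (4 + k) → Fin N)
    (a : Fin (4 + k)) :
    Fin.append (fun i => (t ∘ j) (Fin.natAdd 4 i)) ![(t ∘ j) a] =
      t ∘ Fin.append (fun i => j (Fin.natAdd 4 i)) ![j a] := by
  rw [← comp_append]
  congr 1
  funext i
  fin_cases i
  rfl

section gv
variable {Cx : X3} {P : ParX}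

theorem GV.add {v v' : WD 6 → ℤ} (h : GV Cx P v) (h' : GV Cx P v') :
    GV Cx P (fun D => v D + v' D) := GoodP.add h h'

theorem GV.smul {v : WD 6 → ℤ} (w : ℕ) (h : GV Cx P v) : GV Cx P (fun D => w * v D) :=
  GoodP.smul w h

theorem GV.zero : GV Cx P (fun _ => 0) := GoodP.zero

theorem GV.perm {v : WD 6 → ℤ} (h : GV Cx P v) (π : Equiv.Perm (Fin 6)) :
    GV Cx P (fun D => v (D.sub π)) := by
  have h1 := GoodP.perm (Z := fun H E χ t => v (wt P H E χ t)) h π
  refine GoodP.mono (Z := fun H E χ t => v (wt P H E χ (t ∘ π))) h1 fun H E χ _ t _ =>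
    le_of_eq ?_
  show v (wt P H E χ (t ∘ π)) = v ((wt P H E χ t).sub π)
  rw [wt_comp]

theorem GV.sum {ι : Type*} (s : Finset ι) (v : ι → WD 6 → ℤ) (h : ∀ i ∈ s, GV Cx P (v i)) :
    GV Cx P (fun D => ∑ i ∈ s, v i D) :=
  GoodP.sum s (fun i => fun H E χ t => v i (wt P H E χ t)) h

theorem GV.list (L : List (WD 6 → ℤ)) (h : ∀ v ∈ L, GV Cx P v) :
    GV Cx P (fun D => (L.map fun v => v D).sum) := by
  induction L with
  | nil => exact GV.zero
  | cons v L ih =>
    have h1 := (h v (by simp)).add (ih fun w hw => h w (by simp [hw]))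
    refine GoodP.mono (Z := fun H E χ t => v (wt P H E χ t) +
      (L.map fun v => v (wt P H E χ t)).sum) h1 fun H E χ _ t _ => le_of_eq ?_
    simp only [List.map_cons, List.sum_cons]

theorem GV.mono {v v' : WD 6 → ℤ} (h : GV Cx P v)
    (hle : ∀ {n : ℕ} (H E : Finset (Finset (Fin n))) (χ : Fin n → Bool), Cx H E χ →
      ∀ t : Fin 6 → Fin n, Function.Injective t → v (wt P H E χ t) ≤ v' (wt P H E χ t)) :
    GV Cx P v' := GoodP.mono (Z := fun H E χ t => v (wt P H E χ t)) h hle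

/-- A kernel. -/
theorem gv_ker {k m : ℕ} (κ : MKer k m) (j : Fin (k + (m + m)) → Fin 6)
    (hj : Function.Injective j) : GV Cx P (κ.v j) := by
  refine GoodP.mono (Z := fun H E χ t => (κ.ck P).val H E χ (t ∘ j))
    (goodP_CK (κ.ck P) j hj) fun H E χ _ t _ => le_of_eq (κ.ck_val P H E χ t j)

/-- An item. -/
theorem gv_item (wp wm : ℕ) (i : ItT) (h : i.Ok Cx wp wm P) :
    GV Cx P (fun D => i.val wp wm P D) := by
  refine GoodP.mono (Z := fun H E χ t => i.fn wp wm P H E χ t) (good_itT Cx wp wm P i h)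
    fun H E χ _ t ht => le_of_eq (ItT.val_eq H E χ t wp wm P i ht)

/-- The second-order condition. -/
theorem gv_hess {P0 : ∀ n : ℕ, Finset (Finset (Fin n)) → Prop} (hCx : HasP P0 Cx)
    (hP : ∀ n H, P0 n H → Ext n H) {k : ℕ} (γ : WD (k + 1) → ℤ) (G : ℕ) (hG0 : 0 < G)
    (hG : ∀ D, |γ D| ≤ G) (j : Fin (4 + k) → Fin 6) (hj : Function.Injective j) :
    GV Cx P (hessV j γ G) := by
  refine GoodP.mono (goodP_hess hCx hP
    (fun H E χ s x => γ (wt P H E χ (Fin.append s ![x]))) G hG0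
    (fun _ _ _ _ _ _ => hG _) j hj) fun H E χ _ t _ => le_of_eq ?_
  unfold hcT hessV
  beta_reduce
  rw [image_comp4, mem_zb, append_one, append_one, wt_comp, wt_comp]
  rfl

/-- The equality of the degrees. -/
theorem gv_reg {P0 : ∀ n : ℕ, Finset (Finset (Fin n)) → Prop} (hCx : HasP P0 Cx)
    (hP : ∀ n H, P0 n H → Ext n H) {k : ℕ} (σ : ℤ) (hσ : |σ| ≤ 1) (γ : WD (k + 1) → ℤ) (G : ℕ)
    (hG0 : 0 < G) (hG : ∀ D, |γ D| ≤ G) (j : Fin (4 + k) → Fin 6) (hj : Function.Injective j) :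
    GV Cx P (regV σ j γ G) := by
  refine GoodP.mono (goodP_reg hCx hP σ hσ
    (fun H E χ s x => γ (wt P H E χ (Fin.append s ![x]))) G hG0
    (fun _ _ _ _ _ _ => hG _) j hj) fun H E χ _ t _ => le_of_eq ?_
  unfold rcT regV
  beta_reduce
  rw [image_comp4, mem_zb, append_one, wt_comp]
  rfl

end gv

/-! ### Functions of the visible data, for the 4-graph and the reference structure -/

/-- The average of a function of the visible data is almost nonnegative. -/
def GVC (Cx : CX) (P : ParX) (v : WD 6 → ℤ) : Prop :=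
  GoodC Cx (fun H χ M f g t => v (wd P H χ M f g t))

theorem wd_eq_wt (P : ParX) {n k : ℕ} (H : Finset (Finset (Fin n))) (χ : Fin n → Bool)
    (M : Fin n → Fin n → Bool) (f g : Finset (Fin n) → Bool) (t : Fin k → Fin n) :
    wd P H χ M f g t = wt P H (gir χ M f g) χ t := rfl

section gvc
variable {Cx : CX} {P : ParX}

theorem GVC.add {v v' : WD 6 → ℤ} (h : GVC Cx P v) (h' : GVC Cx P v') :
    GVC Cx P (fun D => v D + v' D) := GoodC.add h h'

theorem GVC.smul {v : WD 6 → ℤ} (w : ℕ) (h : GVC Cx P v) : GVC Cx P (fun D => w * v D) :=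
  GoodC.smul w h

theorem GVC.zero : GVC Cx P (fun _ => 0) := GoodC.zero

theorem GVC.perm {v : WD 6 → ℤ} (h : GVC Cx P v) (π : Equiv.Perm (Fin 6)) :
    GVC Cx P (fun D => v (D.sub π)) := by
  have h1 := GoodC.perm (Z := fun H χ M f g t => v (wd P H χ M f g t)) h π
  refine GoodC.mono (Z := fun H χ M f g t => v (wd P H χ M f g (t ∘ π))) h1
    fun H χ M f g _ t _ => le_of_eq ?_
  show v (wd P H χ M f g (t ∘ π)) = v ((wd P H χ M f g t).sub π)
  rw [wd_comp]

theorem GVC.sum {ι : Type*} (s : Finset ι) (v : ι → WD 6 → ℤ) (h : ∀ i ∈ s, GVC Cx P (v i)) :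
    GVC Cx P (fun D => ∑ i ∈ s, v i D) :=
  GoodC.sum s (fun i => fun H χ M f g t => v i (wd P H χ M f g t)) h

theorem GVC.list (L : List (WD 6 → ℤ)) (h : ∀ v ∈ L, GVC Cx P v) :
    GVC Cx P (fun D => (L.map fun v => v D).sum) := by
  induction L with
  | nil => exact GVC.zero
  | cons v L ih =>
    have h1 := (h v (by simp)).add (ih fun w hw => h w (by simp [hw]))
    refine GoodC.mono (Z := fun H χ M f g t => v (wd P H χ M f g t) +
      (L.map fun v => v (wd P H χ M f g t)).sum) h1 fun H χ M f g _ t _ => le_of_eq ?_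
    simp only [List.map_cons, List.sum_cons]

theorem GVC.mono {v v' : WD 6 → ℤ} (h : GVC Cx P v)
    (hle : ∀ {n : ℕ} (H : Finset (Finset (Fin n))) (χ : Fin n → Bool) M f g, Cx H χ M f g →
      ∀ t : Fin 6 → Fin n, Function.Injective t →
        v (wd P H χ M f g t) ≤ v' (wd P H χ M f g t)) : GVC Cx P v' :=
  GoodC.mono (Z := fun H χ M f g t => v (wd P H χ M f g t)) h hle

/-- A kernel. -/
theorem gvc_ker {k m : ℕ} (κ : MKer k m) (j : Fin (k + (m + m)) → Fin 6)
    (hj : Function.Injective j) : GVC Cx P (κ.v j) := by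
  refine GoodC.mono (Z := fun H χ M f g t => (κ.ck P).val H (gir χ M f g) χ (t ∘ j))
    (GoodC.of_bound (Z := fun H χ M f g t => (κ.ck P).val H (gir χ M f g) χ (t ∘ j)) (κ.C : ℝ)
      fun {n} H χ M f g _ => ?_)
    fun H χ M f g _ t _ => le_of_eq (κ.ck_val P H (gir χ M f g) χ t j)
  have h := inj_comp_ge' (V := Fin n)
    (fun p => (((κ.ck P).val H (gir χ M f g) χ p : ℤ) : ℝ)) (κ.C : ℝ)
    (CK_tot (κ.ck P) H (gir χ M f g) χ) (fun p => (κ.ck P).bd H (gir χ M f g) χ _ _ _) j hj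
  rw [Fintype.card_fin] at h
  exact h

/-- An item. -/
theorem gvc_item (i : ItemX) (h : i.Ok Cx P) : GVC Cx P (fun D => i.val P D) := by
  refine GoodC.mono (Z := fun H χ M f g t => i.fn P H χ M f g t) (good_itemX Cx P i h)
    fun H χ M f g _ t ht => le_of_eq (i.val_eq H χ M f g t P ht)

/-- The second-order condition. -/
theorem gvc_hess {P0 : ∀ n : ℕ, Finset (Finset (Fin n)) → Prop} {X1 : ℝ}
    (hCx : ∀ {n : ℕ} (H : Finset (Finset (Fin n))) (χ : Fin n → Bool) M f g, Cx H χ M f g →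
      Ctx P0 X1 H χ M f g)
    (hP : ∀ n H, P0 n H → Ext n H) {k : ℕ} (γ : WD (k + 1) → ℤ) (G : ℕ) (hG0 : 0 < G)
    (hG : ∀ D, |γ D| ≤ G) (j : Fin (4 + k) → Fin 6) (hj : Function.Injective j) :
    GVC Cx P (hessV j γ G) := by
  refine GoodC.mono (GoodC.of_good (good_hess (X1 := X1) hP
    (fun H χ M f g s x => γ (wd P H χ M f g (Fin.append s ![x]))) G hG0
    (fun _ _ _ _ _ _ _ _ => hG _) j hj) hCx) fun H χ M f g _ t _ => le_of_eq ?_
  unfold hc hessV
  beta_reduce
  rw [image_comp4, mem_zb, append_one, append_one, wd_comp, wd_comp]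
  rfl

/-- The equality of the degrees. -/
theorem gvc_reg {P0 : ∀ n : ℕ, Finset (Finset (Fin n)) → Prop} {X1 : ℝ}
    (hCx : ∀ {n : ℕ} (H : Finset (Finset (Fin n))) (χ : Fin n → Bool) M f g, Cx H χ M f g →
      Ctx P0 X1 H χ M f g)
    (hP : ∀ n H, P0 n H → Ext n H) {k : ℕ} (σ : ℤ) (hσ : |σ| ≤ 1) (γ : WD (k + 1) → ℤ) (G : ℕ)
    (hG0 : 0 < G) (hG : ∀ D, |γ D| ≤ G) (j : Fin (4 + k) → Fin 6) (hj : Function.Injective j) :
    GVC Cx P (regV σ j γ G) := by
  refine GoodC.mono (GoodC.of_good (good_reg (X1 := X1) hP σ hσ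
    (fun H χ M f g s x => γ (wd P H χ M f g (Fin.append s ![x]))) G hG0
    (fun _ _ _ _ _ _ _ _ => hG _) j hj) hCx) fun H χ M f g _ t _ => le_of_eq ?_
  unfold rc regV
  beta_reduce
  rw [image_comp4, mem_zb, append_one, wd_comp]
  rfl

end gvc

end Pool.Agent.Lib.MP_afdd4d_co.K9.Star.Tw
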