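import Pool.Agent.Lib.MP_afdd4d_co.K9.W6Itm

/-!
# Windows of six vertices: codes and kernels

The colours and the difference of the two 4-graphs on a window, the kernels with two roots and flags
of two vertices, the kernel without roots and with flags of three vertices, and the sum of all kernels
over a window.
-/

namespace Pool.Agent.Lib.MP_afdd4d_co.K9.W6

open Finset K8
open Pool.Agent.Lib.MP_afdd4d_co.K9.Star

section codes
variable {n : ℕ}

/-- The bits of the difference. -/
def jb (H E : Finset (Finset (Fin n))) (t : Fin 6 → Fin n) (r : ℕ) : Bool := hq H t r ^^ hq E t r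

/-- The code of the difference. -/
def jc (H E : Finset (Finset (Fin n))) (t : Fin 6 → Fin n) : ℕ := idx 15 (jb H E t)

/-- The code of the colours. -/
def xc (χ : Fin n → Bool) (t : Fin 6 → Fin n) : ℕ := idx 6 fun r => χ (t (Fin.ofNat 6 r))

/-- The quadruple of two roots and a flag. -/
def q2 (s x : Fin 2 → Fin n) : Fin 4 → Fin n := ![s 0, s 1, x 0, x 1]

/-- The code of a flag of two vertices. -/
def cd2 (H E : Finset (Finset (Fin n))) (χ : Fin n → Bool) (s x : Fin 2 → Fin n) : ℕ :=
  4 * ((χ (x 0)).toNat + (χ (x 1)).toNat) +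
    (2 * (zb H (q2 s x) univ ^^ zb E (q2 s x) univ).toNat + (zb E (q2 s x) univ).toNat)

/-- The code of a flag of three vertices without roots. -/
def cd3 (χ : Fin n → Bool) (x : Fin 3 → Fin n) : ℕ :=
  (χ (x 0)).toNat + (χ (x 1)).toNat + (χ (x 2)).toNat

end codes

/-- The data of the kernels with flags of two and three vertices: width and offset of the entries, the
twelve rows of each of the three types, the four rows of the matrix without roots. -/
structure B2 where
  W : ℕ
  of : ℕ
  R : List (List ℕ)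
  R3 : List ℕ

namespace B2
variable (B : B2)

/-- The entries of the matrices. -/
def m (τ a b : ℕ) : ℤ := me B.W B.of (nthG [] B.R τ) a b

/-- The entries of the matrix without roots. -/
def m3 (a b : ℕ) : ℤ := me B.W B.of B.R3 a b

/-- The conditions on the matrices. -/
structure OK : Prop where
  psd : ∀ τ < 3, ∀ a : ℕ → ℝ,
    0 ≤ ∑ i ∈ range 12, ∑ j ∈ range 12, (B.m τ i j : ℝ) * (a i * a j)
  bd : ∀ τ < 3, ∀ i < 12, ∀ j < 12, |B.m τ i j| ≤ B.of
  sy : ∀ τ < 3, ∀ i < 12, ∀ j < 12, B.m τ i j = B.m τ j i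
  psd3 : ∀ a : ℕ → ℝ, 0 ≤ ∑ i ∈ range 4, ∑ j ∈ range 4, (B.m3 i j : ℝ) * (a i * a j)
  bd3 : ∀ i < 4, ∀ j < 4, |B.m3 i j| ≤ B.of
  sy3 : ∀ i < 4, ∀ j < 4, B.m3 i j = B.m3 j i

variable {n : ℕ}

/-- The kernel with two roots. -/
def k22 (H E : Finset (Finset (Fin n))) (χ : Fin n → Bool) (s x y : Fin 2 → Fin n) : ℤ :=
  B.m ((χ (s 0)).toNat + (χ (s 1)).toNat) (cd2 H E χ s x) (cd2 H E χ s y)

/-- The kernel without roots. -/
def k03 (χ : Fin n → Bool) (x y : Fin 3 → Fin n) : ℤ := B.m3 (cd3 χ x) (cd3 χ y)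

/-- The sum of the kernel with two roots over a window. -/
def S22 (H E : Finset (Finset (Fin n))) (χ : Fin n → Bool) (t : Fin 6 → Fin n) : ℤ :=
  PS (k := 4) (fun s u w => PS (k := 2) (fun s' u' w' => B.k22 H E χ s' ![u, u'] ![w, w']) s) t

/-- The sum of the kernel without roots over a window. -/
def S03 (χ : Fin n → Bool) (t : Fin 6 → Fin n) : ℤ :=
  PS (k := 4) (fun s u w => PS (k := 2) (fun s' u' w' =>
    B.k03 χ ![u, u', s' 0] ![w, w', s' 1] + B.k03 χ ![u, u', s' 1] ![w, w', s' 0]) s) t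

end B2

/-- The sum of all kernels over a window. -/
def KS (D : C4D) (B : B2) {n : ℕ} (H E : Finset (Finset (Fin n))) (χ : Fin n → Bool)
    (t : Fin 6 → Fin n) : ℤ :=
  12 * PS (k := 4) (fun s u w => D.kj H E χ s u w) t + 3 * B.S22 H E χ t + B.S03 χ t

/-! ### Index tables

Pairs of vertices `x < z` of the window, their complements as roots, and the quadruples of the
triples of roots with `x` and with `z`. -/

/-- The pairs. -/
def vL : List (List ℕ) := [[0, 1], [0, 2], [0, 3], [0, 4], [0, 5], [1, 2], [1, 3], [1, 4], [1, 5],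
  [2, 3], [2, 4], [2, 5], [3, 4], [3, 5], [4, 5]]

/-- The roots. -/
def rtL : List (List ℕ) := [[2, 3, 4, 5], [1, 3, 4, 5], [1, 2, 4, 5], [1, 2, 3, 5], [1, 2, 3, 4],
  [0, 3, 4, 5], [0, 2, 4, 5], [0, 2, 3, 5], [0, 2, 3, 4], [0, 1, 4, 5], [0, 1, 3, 5],
  [0, 1, 3, 4], [0, 1, 2, 5], [0, 1, 2, 4], [0, 1, 2, 3]]

/-- The vertex number `i` of the pair number `q`. -/
def vq (q i : ℕ) : ℕ := nthG 0 (nthG [] vL q) i

/-- The root number `i` for the pair number `q`. -/
def rq (q i : ℕ) : ℕ := nthG 0 (nthG [] rtL q) i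

/-- The roots for a pair, as a tuple of positions. -/
def rp (q : ℕ) (i : Fin 4) : Fin 6 := Fin.ofNat 6 (rq q i)

/-- The roots, the first and the second flag of the terms with two roots. -/
def mL : List (List ℕ) := ((List.range 15).map fun q =>
  [[vq q 0, vq q 1, rq q 0, rq q 1, rq q 2, rq q 3], [vq q 0, vq q 1, rq q 0, rq q 2, rq q 1, rq q 3],
    [vq q 0, vq q 1, rq q 0, rq q 3, rq q 1, rq q 2]]).flatten

/-- Position `i` of the term number `m`: two roots, two vertices of the first flag, two vertices of the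
second flag. -/
def mq (m i : ℕ) : ℕ := nthG 0 (nthG [] mL m) i

/-- The positions `i`, `j` of the term number `m` as a pair of positions of the window. -/
def mp (m i j : ℕ) : Fin 2 → Fin 6 := ![Fin.ofNat 6 (mq m i), Fin.ofNat 6 (mq m j)]

end Pool.Agent.Lib.MP_afdd4d_co.K9.W6
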