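import Pool.Agent.Lib.MP_afdd4d_co.K9.T4K
import Pool.Agent.Lib.MP_afdd4d_co.K9.W6Def
import Pool.Agent.Lib.MP_afdd4d_co.K9.TwDef

/-!
# Kernels as terms for a 4-graph, a second 4-graph and a colouring
-/

namespace Pool.Agent.Lib.MP_afdd4d_co.K9.Star.Tw

open Finset K8
open Pool.Agent.Lib.MP_afdd4d_co.K9.W6

section ker
variable {Cx : X3}

/-- A coloured kernel at some of the six vertices. -/
theorem goodP_CK {k m : ℕ} (κ : CK k m) (j : Fin (k + (m + m)) → Fin 6)
    (hj : Function.Injective j) :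
    GoodP Cx (fun H E χ t => κ.val H E χ (t ∘ j)) :=
  GoodP.of_tot (fun H E χ p => κ.val H E χ p) κ.C
    (fun H E χ _ => CK_tot κ H E χ)
    (fun H E χ _ _ => κ.bd H E χ _ _ _) j hj

/-- A coloured kernel with flags of one vertex at all pairs of the six vertices. -/
theorem goodP_PS (κ : CK 4 1) :
    GoodP Cx (fun H E χ t => PS (k := 4) (fun s u w =>
      κ.f H E χ s (fun _ => u) (fun _ => w)) t) := by
  refine GoodP.of_bound (Z := fun H E χ t => PS (k := 4) (fun s u w =>
    κ.f H E χ s (fun _ => u) (fun _ => w)) t) (30 * κ.C) fun {n} H E χ _ => ?_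
  have h := PS_inj_ge (V := Fin n) (k := 4) 0 (fun s u w =>
    ((κ.f H E χ s (fun _ => u) (fun _ => w) : ℤ) : ℝ)) κ.C (by
      intro s
      have h1 := κ.psd H E χ s
      rw [← (Equiv.funUnique (Fin 1) (Fin n)).symm.sum_comp] at h1
      refine le_trans h1 (le_of_eq (Finset.sum_congr rfl fun x _ => ?_))
      rw [← (Equiv.funUnique (Fin 1) (Fin n)).symm.sum_comp]
      rfl) (fun s u w => κ.bd H E χ s _ _) id Function.injective_id
  rw [Fintype.card_fin] at h
  have e3 : ∀ t : Fin 6 → Fin n, ((PS (k := 4) (fun s u w =>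
      κ.f H E χ s (fun _ => u) (fun _ => w)) t : ℤ) : ℝ) =
      PS (k := 4) (fun s u w =>
        ((κ.f H E χ s (fun _ => u) (fun _ => w) : ℤ) : ℝ)) t := fun t => cast_PS _ t
  rw [Finset.sum_congr rfl fun t _ => e3 t]
  refine le_trans (le_of_eq ?_) h
  norm_num

end ker

/-! ### The kernels with two roots and without roots -/

/-- A quadratic form in the numbers of the values of a code. -/
theorem psd_codes {ι : Type*} [Fintype ι] (K : ℕ) (c : ι → ℕ) (hc : ∀ x, c x < K)
    (g : ℕ → ℕ → ℝ) (h : ∀ a : ℕ → ℝ, 0 ≤ ∑ i ∈ range K, ∑ j ∈ range K, g i j * (a i * a j)) :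
    0 ≤ ∑ x, ∑ y, g (c x) (c y) := by
  refine le_trans (h fun i => ∑ x, if c x = i then (1 : ℝ) else 0) (le_of_eq ?_)
  have e1 : ∀ x y, g (c x) (c y) = ∑ i ∈ range K, ∑ j ∈ range K,
      g i j * ((if c x = i then (1 : ℝ) else 0) * if c y = j then (1 : ℝ) else 0) := by
    intro x y
    rw [Finset.sum_eq_single (c x), Finset.sum_eq_single (c y)]
    · rw [if_pos rfl, if_pos rfl, mul_one, mul_one]
    · intro j _ hj
      rw [if_neg (Ne.symm hj), mul_zero, mul_zero]
    · intro hj
      exact absurd (Finset.mem_range.mpr (hc y)) hj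
    · intro i _ hi
      refine Finset.sum_eq_zero fun j _ => ?_
      rw [if_neg (Ne.symm hi), zero_mul, mul_zero]
    · intro hi
      exact absurd (Finset.mem_range.mpr (hc x)) hi
  rw [Finset.sum_congr rfl fun x _ => Finset.sum_congr rfl fun y _ => e1 x y]
  have e2 : ∀ i j : ℕ, g i j * ((∑ x, if c x = i then (1 : ℝ) else 0) *
      ∑ y, if c y = j then (1 : ℝ) else 0) =
      ∑ x, ∑ y, g i j * ((if c x = i then (1 : ℝ) else 0) * if c y = j then (1 : ℝ) else 0) := by
    intro i j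
    rw [Finset.sum_mul, Finset.mul_sum]
    refine Finset.sum_congr rfl fun x _ => ?_
    rw [Finset.mul_sum, Finset.mul_sum]
  rw [Finset.sum_congr rfl fun i _ => Finset.sum_congr rfl fun j _ => e2 i j]
  calc ∑ i ∈ range K, ∑ j ∈ range K, ∑ x, ∑ y,
        g i j * ((if c x = i then (1 : ℝ) else 0) * if c y = j then (1 : ℝ) else 0)
      = ∑ i ∈ range K, ∑ x, ∑ y, ∑ j ∈ range K,
        g i j * ((if c x = i then (1 : ℝ) else 0) * if c y = j then (1 : ℝ) else 0) := by
        refine Finset.sum_congr rfl fun i _ => ?_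
        rw [Finset.sum_comm]
        refine Finset.sum_congr rfl fun x _ => ?_
        rw [Finset.sum_comm]
    _ = _ := by
        rw [Finset.sum_comm]
        refine Finset.sum_congr rfl fun x _ => ?_
        rw [Finset.sum_comm]

section codes
variable {n : ℕ}

theorem cd2_lt (H E : Finset (Finset (Fin n))) (χ : Fin n → Bool) (s x : Fin 2 → Fin n) :
    cd2 H E χ s x < 12 := by
  unfold cd2
  have h1 := Bool.toNat_lt (χ (x 0))
  have h2 := Bool.toNat_lt (χ (x 1))
  have h3 := Bool.toNat_lt (zb H (q2 s x) univ ^^ zb E (q2 s x) univ)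
  have h4 := Bool.toNat_lt (zb E (q2 s x) univ)
  omega

theorem cd3_lt (χ : Fin n → Bool) (x : Fin 3 → Fin n) : cd3 χ x < 4 := by
  unfold cd3
  have h1 := Bool.toNat_lt (χ (x 0))
  have h2 := Bool.toNat_lt (χ (x 1))
  have h3 := Bool.toNat_lt (χ (x 2))
  omega

theorem ty2_lt (χ : Fin n → Bool) (s : Fin 2 → Fin n) : (χ (s 0)).toNat + (χ (s 1)).toNat < 3 := by
  have h1 := Bool.toNat_lt (χ (s 0))
  have h2 := Bool.toNat_lt (χ (s 1))
  omega

end codes

/-- The kernel with two roots. -/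
def kern2 (B : B2) (h : B.OK) : CK 2 2 where
  f := fun H E χ s x y => B.k22 H E χ s x y
  C := B.of
  psd := by
    intro n H E χ s
    exact psd_codes 12 (cd2 H E χ s) (cd2_lt H E χ s)
      (fun i j => (B.m ((χ (s 0)).toNat + (χ (s 1)).toNat) i j : ℝ)) (h.psd _ (ty2_lt χ s))
  bd := by
    intro n H E χ s x y
    have h1 := h.bd _ (ty2_lt χ s) _ (cd2_lt H E χ s x) _ (cd2_lt H E χ s y)
    have h2 : B.k22 H E χ s x y ≤ (B.of : ℤ) := le_trans (le_abs_self _) h1
    exact_mod_cast h2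

/-- The kernel without roots. -/
def kern3 (B : B2) (h : B.OK) : CK 0 3 where
  f := fun _ _ χ _ x y => B.k03 χ x y
  C := B.of
  psd := by
    intro n H E χ s
    exact psd_codes 4 (cd3 χ) (cd3_lt χ) (fun i j => (B.m3 i j : ℝ)) h.psd3
  bd := by
    intro n H E χ s x y
    have h1 := h.bd3 _ (cd3_lt χ x) _ (cd3_lt χ y)
    have h2 : B.k03 χ x y ≤ (B.of : ℤ) := le_trans (le_abs_self _) h1
    exact_mod_cast h2

/-- The positions of the roots and of the two flags. -/
def j22 (x : Fin 6) (y : Fin 5) (x' : Fin 4) (y' : Fin 3) : Fin (2 + (2 + 2)) → Fin 6 :=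
  Fin.append (x.succAbove ∘ y.succAbove ∘ x'.succAbove ∘ y'.succAbove)
    (Fin.append ![x, x.succAbove (y.succAbove x')]
      ![x.succAbove y, x.succAbove (y.succAbove (x'.succAbove y'))])

theorem j22_inj : ∀ (x : Fin 6) (y : Fin 5) (x' : Fin 4) (y' : Fin 3),
    Function.Injective (j22 x y x' y') := by
  decide +kernel

/-- The positions of the two flags, first order of the last two vertices. -/
def j03 (x : Fin 6) (y : Fin 5) (x' : Fin 4) (y' : Fin 3) (z : Fin 2) : Fin (0 + (3 + 3)) → Fin 6 :=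
  Fin.append (Fin.elim0 : Fin 0 → Fin 6)
    (Fin.append ![x, x.succAbove (y.succAbove x'),
        x.succAbove (y.succAbove (x'.succAbove (y'.succAbove z)))]
      ![x.succAbove y, x.succAbove (y.succAbove (x'.succAbove y')),
        x.succAbove (y.succAbove (x'.succAbove (y'.succAbove (1 - z))))])

theorem j03_inj : ∀ (x : Fin 6) (y : Fin 5) (x' : Fin 4) (y' : Fin 3) (z : Fin 2),
    Function.Injective (j03 x y x' y' z) := by
  decide +kernel

section sums
variable {n : ℕ}

theorem S22_eq (B : B2) (h : B.OK) (H E : Finset (Finset (Fin n))) (χ : Fin n → Bool)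
    (t : Fin 6 → Fin n) : B.S22 H E χ t = ∑ x : Fin 6, ∑ y : Fin 5, ∑ x' : Fin 4, ∑ y' : Fin 3,
      (kern2 B h).val H E χ (t ∘ j22 x y x' y') := by
  unfold B2.S22 PS
  refine Finset.sum_congr rfl fun x _ => Finset.sum_congr rfl fun y _ =>
    Finset.sum_congr rfl fun x' _ => Finset.sum_congr rfl fun y' _ => ?_
  unfold CK.val
  show B.k22 H E χ _ _ _ = B.k22 H E χ _ _ _
  congr 1
  · funext i
    show _ = t (j22 x y x' y' (Fin.castAdd (2 + 2) i))
    unfold j22
    rw [Fin.append_left]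
    rfl
  · funext i
    show _ = t (j22 x y x' y' (Fin.natAdd 2 (Fin.castAdd 2 i)))
    unfold j22
    rw [Fin.append_right, Fin.append_left]
    fin_cases i <;> rfl
  · funext i
    show _ = t (j22 x y x' y' (Fin.natAdd 2 (Fin.natAdd 2 i)))
    unfold j22
    rw [Fin.append_right, Fin.append_right]
    fin_cases i <;> rfl

theorem S03_eq (B : B2) (h : B.OK) (H E : Finset (Finset (Fin n))) (χ : Fin n → Bool)
    (t : Fin 6 → Fin n) : B.S03 χ t = ∑ x : Fin 6, ∑ y : Fin 5, ∑ x' : Fin 4, ∑ y' : Fin 3,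
      ∑ z : Fin 2, (kern3 B h).val H E χ (t ∘ j03 x y x' y' z) := by
  unfold B2.S03 PS
  refine Finset.sum_congr rfl fun x _ => Finset.sum_congr rfl fun y _ =>
    Finset.sum_congr rfl fun x' _ => Finset.sum_congr rfl fun y' _ => ?_
  rw [Fin.sum_univ_two]
  have key : ∀ z : Fin 2, (kern3 B h).val H E χ (t ∘ j03 x y x' y' z) =
      B.k03 χ ![t x, t (x.succAbove (y.succAbove x')),
        t (x.succAbove (y.succAbove (x'.succAbove (y'.succAbove z))))]
      ![t (x.succAbove y), t (x.succAbove (y.succAbove (x'.succAbove y'))),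
        t (x.succAbove (y.succAbove (x'.succAbove (y'.succAbove (1 - z)))))] := by
    intro z
    unfold CK.val
    show B.k03 χ _ _ = B.k03 χ _ _
    congr 1
    · funext i
      show t (j03 x y x' y' z (Fin.natAdd 0 (Fin.castAdd 3 i))) = _
      unfold j03
      rw [Fin.append_right, Fin.append_left]
      fin_cases i <;> rfl
    · funext i
      show t (j03 x y x' y' z (Fin.natAdd 0 (Fin.natAdd 3 i))) = _
      unfold j03
      rw [Fin.append_right, Fin.append_right]
      fin_cases i <;> rfl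
  rw [key 0, key 1]
  rfl

end sums

section good
variable {Cx : X3}

/-- The sum of all kernels over a window. -/
theorem goodP_KS (D : C4D) (B : B2) (hD : D.OK) (hB : B.OK) :
    GoodP Cx (fun H E χ t => KS D B H E χ t) := by
  have h1 : GoodP Cx (fun H E χ t => PS (k := 4) (fun s u w =>
      D.kj H E χ s u w) t) := goodP_PS (D.kern hD)
  have h2 : GoodP Cx (fun H E χ t => B.S22 H E χ t) := by
    have h3 := GoodP.sum (Cx := Cx) univ
      (fun (a : Fin 6 × Fin 5 × Fin 4 × Fin 3) {n} H E χ (t : Fin 6 → Fin n) =>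
        (kern2 B hB).val H E χ (t ∘ j22 a.1 a.2.1 a.2.2.1 a.2.2.2))
      fun a _ => goodP_CK (kern2 B hB) (j22 a.1 a.2.1 a.2.2.1 a.2.2.2) (j22_inj _ _ _ _)
    refine h3.mono fun H E χ _ t _ => le_of_eq ?_
    rw [S22_eq B hB]
    simp only [Fintype.sum_prod_type]
  have h4 : GoodP Cx (fun H E χ t => B.S03 χ t) := by
    have h3 := GoodP.sum (Cx := Cx) univ
      (fun (a : Fin 6 × Fin 5 × Fin 4 × Fin 3 × Fin 2) {n} H E χ (t : Fin 6 → Fin n) =>
        (kern3 B hB).val H E χ (t ∘ j03 a.1 a.2.1 a.2.2.1 a.2.2.2.1 a.2.2.2.2))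
      fun a _ => goodP_CK (kern3 B hB) (j03 a.1 a.2.1 a.2.2.1 a.2.2.2.1 a.2.2.2.2)
        (j03_inj _ _ _ _ _)
    refine h3.mono fun H E χ _ t _ => le_of_eq ?_
    rw [S03_eq B hB H E]
    simp only [Fintype.sum_prod_type]
  refine (((h1.smul 12).add (h2.smul 3)).add h4).mono fun H E χ _ t _ => le_of_eq ?_
  unfold KS
  push_cast
  rfl

end good

end Pool.Agent.Lib.MP_afdd4d_co.K9.Star.Tw
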