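import Pool.Agent.Lib.MP_afdd4d_co.K9.TwBoth

/-!
# The law of the windows of an almost extremal structure

If the density of a reference structure without flips is close to `11 / 16`, then the two colours are
almost equally frequent, the bipartite graph is quasirandom, and the windows have almost the uniform
law: the colours and the memberships of the quadruples with two vertices of each colour that contain
a fixed vertex of each colour are almost independent and uniform.
-/

namespace Pool.Agent.Lib.MP_afdd4d_co.K9.Star.Tw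

open Finset K8
open Pool.Agent.Lib.MP_afdd4d_co.K9.Marks

/-! ### The signed bipartite graph -/

section box
variable {V : Type*} [Fintype V] [DecidableEq V]

/-- The sign of a pair with colours `false`, `true`. -/
def mu (χ : V → Bool) (M : V → V → Bool) (x a : V) : ℝ :=
  if χ x = false ∧ χ a = true then (if M x a = true then -1 else 1) else 0

theorem abs_mu_le (χ : V → Bool) (M : V → V → Bool) (x a : V) : |mu χ M x a| ≤ 1 := by
  unfold mu
  split_ifs <;> norm_num

/-- The signed number of 4-cycles. -/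
def c4s (χ : V → Bool) (M : V → V → Bool) : ℝ :=
  ∑ a : V, ∑ b : V, (∑ x : V, mu χ M x a * mu χ M x b) ^ 2

theorem c4s_nonneg (χ : V → Bool) (M : V → V → Bool) : 0 ≤ c4s χ M :=
  Finset.sum_nonneg fun _ _ => Finset.sum_nonneg fun _ _ => sq_nonneg _

/-- The Cauchy-Schwarz inequality for the 4-cycles. -/
theorem box_pow (χ : V → Bool) (M : V → V → Bool) (u v : V → ℝ) (hu : ∀ a, |u a| ≤ 1)
    (hv : ∀ x, |v x| ≤ 1) :
    (∑ x : V, ∑ a : V, mu χ M x a * (v x * u a)) ^ 4 ≤ (Fintype.card V : ℝ) ^ 4 * c4s χ M := by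
  set n : ℝ := (Fintype.card V : ℝ) with hn
  have hn0 : 0 ≤ n := Nat.cast_nonneg _
  have sq1 : ∀ y : ℝ, |y| ≤ 1 → y ^ 2 ≤ 1 := fun y hy => by
    rw [← sq_abs]
    exact pow_le_one₀ (abs_nonneg _) hy
  set T : ℝ := ∑ x : V, ∑ a : V, mu χ M x a * (v x * u a) with hT
  have e1 : T = ∑ x : V, v x * ∑ a : V, mu χ M x a * u a := by
    rw [hT]
    refine Finset.sum_congr rfl fun x _ => ?_
    rw [Finset.mul_sum]
    refine Finset.sum_congr rfl fun a _ => ?_
    ring
  set P : ℝ := ∑ x : V, (∑ a : V, mu χ M x a * u a) ^ 2 with hP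
  have hP0 : 0 ≤ P := Finset.sum_nonneg fun _ _ => sq_nonneg _
  have h1 : T ^ 2 ≤ n * P := by
    rw [e1]
    refine le_trans (Finset.sum_mul_sq_le_sq_mul_sq _ _ _) ?_
    refine mul_le_mul_of_nonneg_right ?_ hP0
    calc ∑ x : V, v x ^ 2 ≤ ∑ _x : V, (1 : ℝ) := Finset.sum_le_sum fun x _ => sq1 _ (hv x)
      _ = n := by rw [Finset.sum_const, Finset.card_univ, nsmul_eq_mul, mul_one]
  have e2 : P = ∑ p : V × V, (u p.1 * u p.2) * ∑ x : V, mu χ M x p.1 * mu χ M x p.2 := by
    rw [hP, Fintype.sum_prod_type]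
    have e3 : ∀ x : V, (∑ a : V, mu χ M x a * u a) ^ 2 =
        ∑ a : V, ∑ b : V, (u a * u b) * (mu χ M x a * mu χ M x b) := by
      intro x
      rw [sq, Finset.sum_mul_sum]
      refine Finset.sum_congr rfl fun a _ => Finset.sum_congr rfl fun b _ => ?_
      ring
    rw [Finset.sum_congr rfl fun x _ => e3 x, Finset.sum_comm]
    refine Finset.sum_congr rfl fun a _ => ?_
    rw [Finset.sum_comm]
    refine Finset.sum_congr rfl fun b _ => ?_
    rw [Finset.mul_sum]
  have h2 : P ^ 2 ≤ n ^ 2 * c4s χ M := by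
    rw [e2]
    refine le_trans (Finset.sum_mul_sq_le_sq_mul_sq _ _ _) ?_
    have e4 : ∑ p : V × V, (∑ x : V, mu χ M x p.1 * mu χ M x p.2) ^ 2 = c4s χ M := by
      rw [Fintype.sum_prod_type]
      rfl
    rw [e4]
    refine mul_le_mul_of_nonneg_right ?_ (c4s_nonneg χ M)
    calc ∑ p : V × V, (u p.1 * u p.2) ^ 2 ≤ ∑ _p : V × V, (1 : ℝ) := by
          refine Finset.sum_le_sum fun p _ => ?_
          rw [mul_pow]
          exact mul_le_one₀ (sq1 _ (hu _)) (sq_nonneg _) (sq1 _ (hu _))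
      _ = n ^ 2 := by
          rw [Finset.sum_const, Finset.card_univ, Fintype.card_prod, nsmul_eq_mul, mul_one]
          push_cast
          ring
  calc T ^ 4 = (T ^ 2) ^ 2 := by ring
    _ ≤ (n * P) ^ 2 := pow_le_pow_left₀ (sq_nonneg _) h1 2
    _ = n ^ 2 * P ^ 2 := by ring
    _ ≤ n ^ 2 * (n ^ 2 * c4s χ M) := mul_le_mul_of_nonneg_left h2 (sq_nonneg _)
    _ = n ^ 4 * c4s χ M := by ring

theorem box_le (χ : V → Bool) (M : V → V → Bool) (u v : V → ℝ) (hu : ∀ a, |u a| ≤ 1)
    (hv : ∀ x, |v x| ≤ 1) (θ : ℝ) (hθ : 0 ≤ θ)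
    (h : c4s χ M ≤ θ ^ 4 * (Fintype.card V : ℝ) ^ 4) :
    |∑ x : V, ∑ a : V, mu χ M x a * (v x * u a)| ≤ θ * (Fintype.card V : ℝ) ^ 2 := by
  have h1 := box_pow χ M u v hu hv
  have h2 : (∑ x : V, ∑ a : V, mu χ M x a * (v x * u a)) ^ 4 ≤
      (θ * (Fintype.card V : ℝ) ^ 2) ^ 4 := by
    refine le_trans h1 ?_
    calc (Fintype.card V : ℝ) ^ 4 * c4s χ M ≤
        (Fintype.card V : ℝ) ^ 4 * (θ ^ 4 * (Fintype.card V : ℝ) ^ 4) :=
          mul_le_mul_of_nonneg_left h (by positivity)
      _ = (θ * (Fintype.card V : ℝ) ^ 2) ^ 4 := by ring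
  have h3 : |∑ x : V, ∑ a : V, mu χ M x a * (v x * u a)| ^ 4 ≤
      (θ * (Fintype.card V : ℝ) ^ 2) ^ 4 := by
    have e : |∑ x : V, ∑ a : V, mu χ M x a * (v x * u a)| ^ 4 =
        (∑ x : V, ∑ a : V, mu χ M x a * (v x * u a)) ^ 4 := by
      rw [← abs_pow]
      exact abs_of_nonneg (by positivity)
    rw [e]
    exact h2
  exact le_of_pow_le_pow_left₀ (by norm_num) (by positivity) h3

end box

/-! ### Sums over tuples -/

section tup
variable {n m : ℕ}

/-- The average over one coordinate. -/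
theorem sum_upd (F : (Fin m → Fin n) → ℝ) (i : Fin m) :
    ∑ t : Fin m → Fin n, ∑ x : Fin n, F (Function.update t i x) =
      (n : ℝ) * ∑ t : Fin m → Fin n, F t := by
  classical
  have e1 : ∑ t : Fin m → Fin n, ∑ x : Fin n, F (Function.update t i x) =
      ∑ p : (Fin m → Fin n) × Fin n, F (Function.update p.1 i p.2) := by
    rw [Fintype.sum_prod_type]
  have e2 : ∑ p : (Fin m → Fin n) × Fin n, F (Function.update p.1 i p.2) =
      ∑ p : (Fin m → Fin n) × Fin n, F p.1 := by
    refine Fintype.sum_equiv (Function.Involutive.toPerm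
      (fun p : (Fin m → Fin n) × Fin n => (Function.update p.1 i p.2, p.1 i)) ?_) _ _ ?_
    · rintro ⟨t, x⟩
      simp
    · rintro ⟨t, x⟩
      rfl
  rw [e1, e2, Fintype.sum_prod_type]
  simp only [Finset.sum_const, Finset.card_univ, Fintype.card_fin, nsmul_eq_mul]
  rw [Finset.mul_sum]

/-- The sum with the sign of a pair and functions that are independent of one of the two vertices. -/
theorem sum_mu_le (χ : Fin n → Bool) (M : Fin n → Fin n → Bool) (i j : Fin m) (hij : i ≠ j)
    (U W : (Fin m → Fin n) → ℝ) (hU1 : ∀ t, |U t| ≤ 1) (hW1 : ∀ t, |W t| ≤ 1)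
    (hU : ∀ t y, U (Function.update t j y) = U t) (hW : ∀ t x, W (Function.update t i x) = W t)
    (θ : ℝ) (hθ : 0 ≤ θ) (h : c4s χ M ≤ θ ^ 4 * (n : ℝ) ^ 4) :
    |∑ t : Fin m → Fin n, mu χ M (t i) (t j) * (U t * W t)| ≤ θ * (n : ℝ) ^ m := by
  classical
  rcases Nat.eq_zero_or_pos n with h0 | h0
  · subst h0
    have hm : 0 < m := i.pos
    have : IsEmpty (Fin m → Fin 0) := ⟨fun t => (t i).elim0⟩
    rw [Finset.univ_eq_empty, Finset.sum_empty, abs_zero]
    positivity
  · have hn0 : (0 : ℝ) < n := by exact_mod_cast h0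
    have e1 := sum_upd (fun t => mu χ M (t i) (t j) * (U t * W t)) i
    have e2 := sum_upd (fun t => ∑ x : Fin n, mu χ M ((Function.update t i x) i)
      ((Function.update t i x) j) * (U (Function.update t i x) * W (Function.update t i x))) j
    rw [e1] at e2
    have e3 : ∀ (t : Fin m → Fin n) (a x : Fin n),
        mu χ M ((Function.update (Function.update t j a) i x) i)
          ((Function.update (Function.update t j a) i x) j) *
          (U (Function.update (Function.update t j a) i x) *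
            W (Function.update (Function.update t j a) i x)) =
        mu χ M x a * (U (Function.update t i x) * W (Function.update t j a)) := by
      intro t a x
      rw [Function.update_self, Function.update_of_ne hij.symm, Function.update_self, hW,
        Function.update_comm hij.symm, hU]
    have e4 : ∀ t : Fin m → Fin n, |∑ a : Fin n, ∑ x : Fin n,
        mu χ M ((Function.update (Function.update t j a) i x) i)
          ((Function.update (Function.update t j a) i x) j) *
          (U (Function.update (Function.update t j a) i x) *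
            W (Function.update (Function.update t j a) i x))| ≤ θ * (n : ℝ) ^ 2 := by
      intro t
      rw [Finset.sum_comm]
      rw [Finset.sum_congr rfl fun x _ => Finset.sum_congr rfl fun a _ => e3 t a x]
      have h1 := box_le χ M (fun a => W (Function.update t j a)) (fun x => U (Function.update t i x))
        (fun a => hW1 _) (fun x => hU1 _) θ hθ (by rw [Fintype.card_fin]; exact h)
      rw [Fintype.card_fin] at h1
      exact h1
    have h5 : |(n : ℝ) * ((n : ℝ) * ∑ t : Fin m → Fin n, mu χ M (t i) (t j) * (U t * W t))| ≤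
        (n : ℝ) ^ m * (θ * (n : ℝ) ^ 2) := by
      rw [← e2]
      refine le_trans (Finset.abs_sum_le_sum_abs _ _) ?_
      refine le_trans (Finset.sum_le_sum fun t _ => e4 t) ?_
      rw [Finset.sum_const, Finset.card_univ, Fintype.card_fun, Fintype.card_fin, Fintype.card_fin,
        nsmul_eq_mul]
      push_cast
      exact le_refl _
    rw [← mul_assoc, abs_mul, abs_of_nonneg (by positivity : (0 : ℝ) ≤ n * n)] at h5
    have e6 : (n : ℝ) ^ m * (θ * (n : ℝ) ^ 2) = (n * n) * (θ * (n : ℝ) ^ m) := by ring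
    rw [e6] at h5
    exact le_of_mul_le_mul_left h5 (by positivity)

end tup

/-! ### The data of a window -/

/-- The colours and the pairs of a window. -/
abbrev Wn (m : ℕ) : Type := (Fin m → Bool) × (Fin m → Fin m → Bool)

/-- The data of a tuple: the colours and the pairs with colours `false`, `true`. -/
def dt {n m : ℕ} (χ : Fin n → Bool) (M : Fin n → Fin n → Bool) (t : Fin m → Fin n) : Wn m :=
  (fun i => χ (t i), fun i j => !χ (t i) && (χ (t j) && M (t i) (t j)))

/-- The data without one vertex. -/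
def er {m : ℕ} (j : Fin m) (D : Wn m) : Wn m :=
  (fun k => if k = j then false else D.1 k, fun k l => if k = j ∨ l = j then false else D.2 k l)

/-- The data that agree with `W` at one vertex and with `U` elsewhere. -/
def mg {m : ℕ} (j : Fin m) (U W : Wn m) : Wn m :=
  (fun k => if k = j then W.1 k else U.1 k, fun k l => if k = j ∨ l = j then W.2 k l else U.2 k l)

section data
variable {n m : ℕ}

theorem er_upd (χ : Fin n → Bool) (M : Fin n → Fin n → Bool) (j : Fin m) (t : Fin m → Fin n)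
    (y : Fin n) : er j (dt χ M (Function.update t j y)) = er j (dt χ M t) := by
  unfold er dt
  refine Prod.ext ?_ ?_
  · funext k
    show (if k = j then false else χ (Function.update t j y k)) = if k = j then false else χ (t k)
    by_cases hk : k = j
    · rw [if_pos hk, if_pos hk]
    · rw [if_neg hk, if_neg hk, Function.update_of_ne hk]
  · funext k l
    by_cases hk : k = j ∨ l = j
    · simp only [if_pos hk]
    · simp only [if_neg hk]
      rw [not_or] at hk
      rw [Function.update_of_ne hk.1, Function.update_of_ne hk.2]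

/-- The sum with the sign of a pair and a function of the data that is independent of the pair. -/
theorem sum_mu_data (χ : Fin n → Bool) (M : Fin n → Fin n → Bool) (i j : Fin m) (hij : i ≠ j)
    (G : Wn m → ℝ) (B : ℝ) (hB : ∀ D, |G D| ≤ B)
    (hG : ∀ D D' : Wn m, D.1 = D'.1 → (∀ k l, ¬(k = i ∧ l = j) → ¬(k = j ∧ l = i) →
      D.2 k l = D'.2 k l) → G D = G D')
    (θ : ℝ) (hθ : 0 ≤ θ) (h : c4s χ M ≤ θ ^ 4 * (n : ℝ) ^ 4) :
    |∑ t : Fin m → Fin n, mu χ M (t i) (t j) * G (dt χ M t)| ≤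
      (Fintype.card (Wn m × Wn m) : ℝ) * (B * (θ * (n : ℝ) ^ m)) := by
  classical
  have e1 : ∀ t : Fin m → Fin n, G (dt χ M t) = ∑ p : Wn m × Wn m, G (mg j p.1 p.2) *
      ((if er j (dt χ M t) = p.1 then 1 else 0) * (if er i (dt χ M t) = p.2 then 1 else 0)) := by
    intro t
    rw [Finset.sum_eq_single (er j (dt χ M t), er i (dt χ M t))]
    · rw [if_pos rfl, if_pos rfl, mul_one, mul_one]
      refine hG _ _ ?_ ?_
      · funext k
        show (dt χ M t).1 k = if k = j then (if k = i then false else (dt χ M t).1 k) else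
          (if k = j then false else (dt χ M t).1 k)
        by_cases hk : k = j
        · rw [if_pos hk, if_neg (by rw [hk]; exact hij.symm)]
        · rw [if_neg hk, if_neg hk]
      · intro k l h1 h2
        show (dt χ M t).2 k l = if k = j ∨ l = j then
          (if k = i ∨ l = i then false else (dt χ M t).2 k l) else
          (if k = j ∨ l = j then false else (dt χ M t).2 k l)
        by_cases hk : k = j ∨ l = j
        · rw [if_pos hk, if_neg]
          rintro (h3 | h3)
          · rcases hk with h4 | h4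
            · exact hij (h3.symm.trans h4)
            · exact h1 ⟨h3, h4⟩
          · rcases hk with h4 | h4
            · exact h2 ⟨h4, h3⟩
            · exact hij (h3.symm.trans h4)
        · rw [if_neg hk, if_neg hk]
    · rintro ⟨U, W⟩ _ hne
      by_cases h1 : er j (dt χ M t) = U
      · by_cases h2 : er i (dt χ M t) = W
        · exact absurd (Prod.ext h1.symm h2.symm) hne
        · rw [if_neg h2, mul_zero, mul_zero]
      · rw [if_neg h1, zero_mul, mul_zero]
    · intro h1
      exact absurd (Finset.mem_univ _) h1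
  have e2 : ∑ t : Fin m → Fin n, mu χ M (t i) (t j) * G (dt χ M t) =
      ∑ p : Wn m × Wn m, G (mg j p.1 p.2) * ∑ t : Fin m → Fin n, mu χ M (t i) (t j) *
        ((if er j (dt χ M t) = p.1 then 1 else 0) * (if er i (dt χ M t) = p.2 then 1 else 0)) := by
    rw [Finset.sum_congr rfl fun t _ => by rw [e1 t, Finset.mul_sum], Finset.sum_comm]
    refine Finset.sum_congr rfl fun p _ => ?_
    rw [Finset.mul_sum]
    refine Finset.sum_congr rfl fun t _ => ?_
    ring
  rw [e2]
  refine le_trans (Finset.abs_sum_le_sum_abs _ _) ?_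
  have e3 : ∀ p : Wn m × Wn m, |G (mg j p.1 p.2) * ∑ t : Fin m → Fin n, mu χ M (t i) (t j) *
        ((if er j (dt χ M t) = p.1 then 1 else 0) * (if er i (dt χ M t) = p.2 then 1 else 0))| ≤
      B * (θ * (n : ℝ) ^ m) := by
    intro p
    rw [abs_mul]
    refine mul_le_mul (hB _) ?_ (abs_nonneg _) (le_trans (abs_nonneg _) (hB (mg j p.1 p.2)))
    refine sum_mu_le χ M i j hij (fun t => if er j (dt χ M t) = p.1 then 1 else 0)
      (fun t => if er i (dt χ M t) = p.2 then 1 else 0) ?_ ?_ ?_ ?_ θ hθ h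
    · intro t
      show |(if er j (dt χ M t) = p.1 then (1 : ℝ) else 0)| ≤ 1
      split_ifs <;> norm_num
    · intro t
      show |(if er i (dt χ M t) = p.2 then (1 : ℝ) else 0)| ≤ 1
      split_ifs <;> norm_num
    · intro t y
      show (if er j (dt χ M (Function.update t j y)) = p.1 then (1 : ℝ) else 0) = _
      rw [er_upd]
    · intro t x
      show (if er i (dt χ M (Function.update t i x)) = p.2 then (1 : ℝ) else 0) = _
      rw [er_upd]
  refine le_trans (Finset.sum_le_sum fun p _ => e3 p) ?_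
  rw [Finset.sum_const, Finset.card_univ, nsmul_eq_mul]

end data

/-! ### Averages over the free pairs -/

/-- The first vertex of colour `false`. -/
def ra (c : Fin 6 → Bool) : Fin 6 := ((List.finRange 6).find? fun k => !c k).getD 0

/-- The first vertex of colour `true`. -/
def rb (c : Fin 6 → Bool) : Fin 6 := ((List.finRange 6).find? fun k => c k).getD 0

theorem ra_spec (c : Fin 6 → Bool) (k : Fin 6) (hk : c k = false) : c (ra c) = false := by
  unfold ra
  cases h : (List.finRange 6).find? fun k => !c k with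
  | none =>
    rw [List.find?_eq_none] at h
    have := h k (List.mem_finRange k)
    rw [hk] at this
    exact absurd rfl this
  | some a =>
    have := List.find?_some h
    simpa using this

theorem rb_spec (c : Fin 6 → Bool) (k : Fin 6) (hk : c k = true) : c (rb c) = true := by
  unfold rb
  cases h : (List.finRange 6).find? fun k => c k with
  | none =>
    rw [List.find?_eq_none] at h
    have := h k (List.mem_finRange k)
    rw [hk] at this
    exact absurd rfl this
  | some a =>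
    have := List.find?_some h
    simpa using this

/-- The free pairs of a colouring. -/
def fr (c : Fin 6 → Bool) (k l : Fin 6) : Bool :=
  !c k && (c l && (decide (k ≠ ra c) && decide (l ≠ rb c)))

/-- The list of the free pairs. -/
def Lc (c : Fin 6 → Bool) : List (Fin 6 × Fin 6) :=
  ((List.finRange 6) ×ˢ (List.finRange 6)).filter fun p => fr c p.1 p.2

/-- The change of a pair. -/
def upd (z : Fin 6 → Fin 6 → Bool) (p : Fin 6 × Fin 6) (b : Bool) : Fin 6 → Fin 6 → Bool :=
  fun k l => if k = p.1 ∧ l = p.2 then b else z k l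

/-- The normal form of the pairs. -/
def nrm (c : Fin 6 → Bool) (m : Fin 6 → Fin 6 → Bool) : Fin 6 → Fin 6 → Bool :=
  fun k l => if fr c k l = true then
    (m k l ^^ (m (ra c) l ^^ (m k (rb c) ^^ m (ra c) (rb c)))) else false

/-- The average over the values at the pairs of a list. -/
noncomputable def itA : List (Fin 6 × Fin 6) → ((Fin 6 → Fin 6 → Bool) → ℝ) →
    (Fin 6 → Fin 6 → Bool) → ℝ
  | [], Φ, z => Φ z
  | p :: L, Φ, z => (itA L Φ (upd z p false) + itA L Φ (upd z p true)) / 2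

/-- The sum over the values at the pairs of a list. -/
def itZ : List (Fin 6 × Fin 6) → ((Fin 6 → Fin 6 → Bool) → ℤ) → (Fin 6 → Fin 6 → Bool) → ℤ
  | [], Φ, z => Φ z
  | p :: L, Φ, z => itZ L Φ (upd z p false) + itZ L Φ (upd z p true)

theorem itZ_eq (L : List (Fin 6 × Fin 6)) (Φ : (Fin 6 → Fin 6 → Bool) → ℤ)
    (z : Fin 6 → Fin 6 → Bool) :
    ((itZ L Φ z : ℤ) : ℝ) = 2 ^ L.length * itA L (fun y => ((Φ y : ℤ) : ℝ)) z := by
  induction L generalizing z with
  | nil =>
    simp [itZ, itA]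
  | cons p L ih =>
    simp only [itZ, itA, List.length_cons]
    push_cast
    rw [ih, ih, pow_succ]
    ring

theorem itA_abs (L : List (Fin 6 × Fin 6)) (Φ : (Fin 6 → Fin 6 → Bool) → ℝ) (B : ℝ)
    (hB : ∀ z, |Φ z| ≤ B) (z : Fin 6 → Fin 6 → Bool) : |itA L Φ z| ≤ B := by
  induction L generalizing z with
  | nil => exact hB z
  | cons p L ih =>
    simp only [itA]
    rw [abs_div, abs_of_pos (by norm_num : (0 : ℝ) < 2)]
    have h1 := abs_add_le (itA L Φ (upd z p false)) (itA L Φ (upd z p true))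
    have h2 := ih (upd z p false)
    have h3 := ih (upd z p true)
    linarith

theorem itA_congr (L : List (Fin 6 × Fin 6)) (Φ : (Fin 6 → Fin 6 → Bool) → ℝ)
    (z z' : Fin 6 → Fin 6 → Bool) (h : ∀ k l, (k, l) ∉ L → z k l = z' k l) :
    itA L Φ z = itA L Φ z' := by
  induction L generalizing z z' with
  | nil =>
    have e : z = z' := by
      funext k l
      exact h k l (List.not_mem_nil)
    rw [e]
  | cons p L ih =>
    simp only [itA]
    have h1 : ∀ b, itA L Φ (upd z p b) = itA L Φ (upd z' p b) := by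
      intro b
      refine ih _ _ fun k l hkl => ?_
      unfold upd
      by_cases hp : k = p.1 ∧ l = p.2
      · rw [if_pos hp, if_pos hp]
      · rw [if_neg hp, if_neg hp]
        refine h k l ?_
        rw [List.mem_cons]
        rintro (h2 | h2)
        · exact hp ⟨by rw [← h2], by rw [← h2]⟩
        · exact hkl h2
    rw [h1, h1]

/-- The sign of a bit. -/
def sr (b : Bool) : ℝ := if b = true then -1 else 1

theorem sr_xor (a b : Bool) : sr (a ^^ b) = sr a * sr b := by
  unfold sr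
  cases a <;> cases b <;> simp

theorem abs_sr (a : Bool) : |sr a| = 1 := by
  unfold sr
  cases a <;> simp

/-- The function of the data for one step. -/
noncomputable def stG (c : Fin 6 → Bool) (p : Fin 6 × Fin 6) (Φ : (Fin 6 → Fin 6 → Bool) → ℝ)
    (D : Wn 6) : ℝ :=
  if D.1 = c then
    sr (D.2 (ra c) p.2) * (sr (D.2 p.1 (rb c)) * sr (D.2 (ra c) (rb c))) *
      ((Φ (upd (nrm c D.2) p false) - Φ (upd (nrm c D.2) p true)) / 2) else 0

theorem stG_abs (c : Fin 6 → Bool) (p : Fin 6 × Fin 6) (Φ : (Fin 6 → Fin 6 → Bool) → ℝ) (B : ℝ)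
    (hB : ∀ z, |Φ z| ≤ B) (D : Wn 6) : |stG c p Φ D| ≤ B := by
  have hB0 : 0 ≤ B := le_trans (abs_nonneg _) (hB fun _ _ => false)
  unfold stG
  split_ifs
  · rw [abs_mul, abs_mul, abs_mul, abs_sr, abs_sr, abs_sr, one_mul, one_mul, one_mul, abs_div,
      abs_of_pos (by norm_num : (0 : ℝ) < 2)]
    have h1 := abs_sub (Φ (upd (nrm c D.2) p false)) (Φ (upd (nrm c D.2) p true))
    have h2 := hB (upd (nrm c D.2) p false)
    have h3 := hB (upd (nrm c D.2) p true)
    linarith
  · rw [abs_zero]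
    exact hB0

theorem fr_iff (c : Fin 6 → Bool) (k l : Fin 6) :
    fr c k l = true ↔ c k = false ∧ c l = true ∧ k ≠ ra c ∧ l ≠ rb c := by
  unfold fr
  simp [Bool.and_eq_true]

theorem mem_Lc (c : Fin 6 → Bool) (p : Fin 6 × Fin 6) : p ∈ Lc c ↔ fr c p.1 p.2 = true := by
  obtain ⟨k, l⟩ := p
  unfold Lc
  rw [List.mem_filter, List.mem_product]
  exact ⟨fun h => h.2, fun h => ⟨⟨List.mem_finRange _, List.mem_finRange _⟩, h⟩⟩

theorem stG_indep (c : Fin 6 → Bool) (p : Fin 6 × Fin 6) (hp : p ∈ Lc c)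
    (Φ : (Fin 6 → Fin 6 → Bool) → ℝ) (D D' : Wn 6) (h1 : D.1 = D'.1)
    (h2 : ∀ k l, ¬(k = p.1 ∧ l = p.2) → ¬(k = p.2 ∧ l = p.1) → D.2 k l = D'.2 k l) :
    stG c p Φ D = stG c p Φ D' := by
  rw [mem_Lc, fr_iff] at hp
  obtain ⟨hc1, hc2, hn1, hn2⟩ := hp
  have hra := ra_spec c p.1 hc1
  have hrb := rb_spec c p.2 hc2
  have a1 : D.2 (ra c) p.2 = D'.2 (ra c) p.2 := by
    refine h2 _ _ (fun h => hn1 h.1.symm) (fun h => ?_)
    rw [h.1, hc2] at hra
    exact absurd hra (by decide)
  have a2 : D.2 p.1 (rb c) = D'.2 p.1 (rb c) := by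
    refine h2 _ _ (fun h => hn2 h.2.symm) (fun h => ?_)
    rw [h.2, hc1] at hrb
    exact absurd hrb (by decide)
  have a3 : D.2 (ra c) (rb c) = D'.2 (ra c) (rb c) := by
    refine h2 _ _ (fun h => hn1 h.1.symm) (fun h => ?_)
    rw [h.1, hc2] at hra
    exact absurd hra (by decide)
  have a4 : ∀ b, upd (nrm c D.2) p b = upd (nrm c D'.2) p b := by
    intro b
    funext k l
    unfold upd
    by_cases hkl : k = p.1 ∧ l = p.2
    · rw [if_pos hkl, if_pos hkl]
    · rw [if_neg hkl, if_neg hkl]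
      unfold nrm
      by_cases hf : fr c k l = true
      · rw [if_pos hf, if_pos hf]
        rw [fr_iff] at hf
        obtain ⟨f1, f2, f3, f4⟩ := hf
        have b1 : D.2 k l = D'.2 k l := by
          refine h2 _ _ hkl (fun h => ?_)
          rw [h.1, hc2] at f1
          exact absurd f1 (by decide)
        have b2 : D.2 (ra c) l = D'.2 (ra c) l := by
          refine h2 _ _ (fun h => hn1 h.1.symm) (fun h => ?_)
          rw [h.1, hc2] at hra
          exact absurd hra (by decide)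
        have b3 : D.2 k (rb c) = D'.2 k (rb c) := by
          refine h2 _ _ (fun h => hn2 h.2.symm) (fun h => ?_)
          rw [h.2, hc1] at hrb
          exact absurd hrb (by decide)
        rw [b1, b2, b3, a3]
      · rw [if_neg hf, if_neg hf]
  unfold stG
  rw [h1, a1, a2, a3, a4, a4]

section step
variable {n : ℕ}

/-- One step of the averaging. -/
theorem step_eq (χ : Fin n → Bool) (M : Fin n → Fin n → Bool) (c : Fin 6 → Bool)
    (p : Fin 6 × Fin 6) (hp : p ∈ Lc c) (Φ : (Fin 6 → Fin 6 → Bool) → ℝ) (t : Fin 6 → Fin n) :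
    (if (dt χ M t).1 = c then Φ (nrm c (dt χ M t).2) -
      (Φ (upd (nrm c (dt χ M t).2) p false) + Φ (upd (nrm c (dt χ M t).2) p true)) / 2 else 0) =
    mu χ M (t p.1) (t p.2) * stG c p Φ (dt χ M t) := by
  rw [mem_Lc] at hp
  have hp' := hp
  rw [fr_iff] at hp'
  obtain ⟨hc1, hc2, hn1, hn2⟩ := hp'
  unfold stG
  by_cases h : (dt χ M t).1 = c
  · rw [if_pos h, if_pos h]
    have h1 : χ (t p.1) = false := by
      have := congrFun h p.1
      rw [hc1] at this
      exact this
    have h2 : χ (t p.2) = true := by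
      have := congrFun h p.2
      rw [hc2] at this
      exact this
    have e1 : mu χ M (t p.1) (t p.2) = sr ((dt χ M t).2 p.1 p.2) := by
      unfold mu sr dt
      rw [if_pos ⟨h1, h2⟩]
      simp only [h1, h2, Bool.not_false, Bool.true_and]
    set z := nrm c (dt χ M t).2 with hz
    have e2 : sr (z p.1 p.2) = sr ((dt χ M t).2 p.1 p.2) * (sr ((dt χ M t).2 (ra c) p.2) *
        (sr ((dt χ M t).2 p.1 (rb c)) * sr ((dt χ M t).2 (ra c) (rb c)))) := by
      rw [hz]
      unfold nrm
      rw [if_pos hp, sr_xor, sr_xor, sr_xor]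
    have e3 : Φ z = (Φ (upd z p false) + Φ (upd z p true)) / 2 +
        sr (z p.1 p.2) * ((Φ (upd z p false) - Φ (upd z p true)) / 2) := by
      have h5 : ∀ b, z p.1 p.2 = b → upd z p b = z := by
        intro b hb
        funext k l
        unfold upd
        by_cases hkl : k = p.1 ∧ l = p.2
        · rw [if_pos hkl, hkl.1, hkl.2, hb]
        · rw [if_neg hkl]
      cases hb : z p.1 p.2 with
      | false =>
        rw [h5 false hb]
        unfold sr
        rw [if_neg (by decide)]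
        ring
      | true =>
        rw [h5 true hb]
        unfold sr
        rw [if_pos rfl]
        ring
    rw [e1]
    have e4 : Φ z - (Φ (upd z p false) + Φ (upd z p true)) / 2 =
        sr (z p.1 p.2) * ((Φ (upd z p false) - Φ (upd z p true)) / 2) := by linarith
    rw [e4, e2]
    ring
  · rw [if_neg h, if_neg h, mul_zero]

/-- The average over the free pairs. -/
theorem sum_itA (χ : Fin n → Bool) (M : Fin n → Fin n → Bool) (c : Fin 6 → Bool)
    (Φ : (Fin 6 → Fin 6 → Bool) → ℝ) (B : ℝ) (hB : ∀ z, |Φ z| ≤ B) (θ : ℝ) (hθ : 0 ≤ θ)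
    (h : c4s χ M ≤ θ ^ 4 * (n : ℝ) ^ 4) (L : List (Fin 6 × Fin 6)) (hL : ∀ p ∈ L, p ∈ Lc c) :
    |∑ t : Fin 6 → Fin n, if (dt χ M t).1 = c then
      Φ (nrm c (dt χ M t).2) - itA L Φ (nrm c (dt χ M t).2) else 0| ≤
      L.length * ((Fintype.card (Wn 6 × Wn 6) : ℝ) * (B * (θ * (n : ℝ) ^ 6))) := by
  induction L with
  | nil =>
    simp [itA]
  | cons p L ih =>
    have hp := hL p (by simp)
    have h1 := ih fun q hq => hL q (by simp [hq])
    have hne : p.1 ≠ p.2 := by
      intro he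
      rw [mem_Lc, fr_iff] at hp
      rw [he, hp.2.1] at hp
      exact absurd hp.1 (by decide)
    have h2 := sum_mu_data χ M p.1 p.2 hne (stG c p (itA L Φ)) B
      (stG_abs c p _ B (itA_abs L Φ B hB)) (stG_indep c p hp _) θ hθ h
    rw [← Finset.sum_congr rfl fun t _ => step_eq χ M c p hp (itA L Φ) t] at h2
    have e1 : ∑ t : Fin 6 → Fin n, (if (dt χ M t).1 = c then
        Φ (nrm c (dt χ M t).2) - itA (p :: L) Φ (nrm c (dt χ M t).2) else 0) =
        ∑ t : Fin 6 → Fin n, (if (dt χ M t).1 = c then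
          Φ (nrm c (dt χ M t).2) - itA L Φ (nrm c (dt χ M t).2) else 0) +
        ∑ t : Fin 6 → Fin n, (if (dt χ M t).1 = c then itA L Φ (nrm c (dt χ M t).2) -
          (itA L Φ (upd (nrm c (dt χ M t).2) p false) +
            itA L Φ (upd (nrm c (dt χ M t).2) p true)) / 2 else 0) := by
      rw [← Finset.sum_add_distrib]
      refine Finset.sum_congr rfl fun t _ => ?_
      by_cases hc : (dt χ M t).1 = c
      · rw [if_pos hc, if_pos hc, if_pos hc]
        simp only [itA]
        ring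
      · rw [if_neg hc, if_neg hc, if_neg hc, add_zero]
    rw [e1]
    refine le_trans (abs_add_le _ _) ?_
    rw [List.length_cons]
    push_cast
    linarith

end step

/-! ### The colours -/

theorem prod_near {k : ℕ} (f : Fin k → ℝ) (x s : ℝ) (hx : 0 ≤ x) (hs : s ≤ x)
    (hf : ∀ i, |f i - x| ≤ s) : x * |∏ i, f i - x ^ k| ≤ (2 ^ k - 1) * (s * x ^ k) := by
  induction k with
  | zero =>
    simp
  | succ k ih =>
    have h1 := ih (fun i => f i.castSucc) fun i => hf i.castSucc
    rw [Fin.prod_univ_castSucc]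
    have h2 := hf (Fin.last k)
    have h3 : |f (Fin.last k)| ≤ 2 * x := by
      have h4 := abs_sub_abs_le_abs_sub (f (Fin.last k)) x
      rw [abs_of_nonneg hx] at h4
      linarith
    have e : (∏ i : Fin k, f i.castSucc) * f (Fin.last k) - x ^ (k + 1) =
        f (Fin.last k) * (∏ i : Fin k, f i.castSucc - x ^ k) + (f (Fin.last k) - x) * x ^ k := by
      ring
    rw [e]
    have h5 := abs_add_le (f (Fin.last k) * (∏ i : Fin k, f i.castSucc - x ^ k))
      ((f (Fin.last k) - x) * x ^ k)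
    rw [abs_mul, abs_mul, abs_of_nonneg (pow_nonneg hx k)] at h5
    have h6 : |f (Fin.last k)| * |∏ i : Fin k, f i.castSucc - x ^ k| ≤
        2 * x * |∏ i : Fin k, f i.castSucc - x ^ k| :=
      mul_le_mul_of_nonneg_right h3 (abs_nonneg _)
    have h7 : |f (Fin.last k) - x| * x ^ k ≤ s * x ^ k :=
      mul_le_mul_of_nonneg_right h2 (pow_nonneg hx k)
    calc x * |f (Fin.last k) * (∏ i : Fin k, f i.castSucc - x ^ k) +
          (f (Fin.last k) - x) * x ^ k| ≤
        x * (2 * x * |∏ i : Fin k, f i.castSucc - x ^ k| + s * x ^ k) :=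
          mul_le_mul_of_nonneg_left (by linarith) hx
      _ = 2 * x * (x * |∏ i : Fin k, f i.castSucc - x ^ k|) + s * x ^ (k + 1) := by ring
      _ ≤ 2 * x * ((2 ^ k - 1) * (s * x ^ k)) + s * x ^ (k + 1) := by
          have := mul_le_mul_of_nonneg_left h1 (by positivity : 0 ≤ 2 * x)
          linarith
      _ = (2 ^ (k + 1) - 1) * (s * x ^ (k + 1)) := by ring

section col
variable {n : ℕ}

/-- The difference of the numbers of vertices of the two colours. -/
def dn (χ : Fin n → Bool) : ℝ := (nc χ false : ℝ) - nc χ true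

theorem sumCol (χ : Fin n → Bool) (c : Fin 6 → Bool) :
    ∑ t : Fin 6 → Fin n, (if (fun i => χ (t i)) = c then (1 : ℝ) else 0) =
      ∏ i : Fin 6, (nc χ (c i) : ℝ) := by
  classical
  rw [Finset.sum_boole]
  have e : (univ.filter fun t : Fin 6 → Fin n => (fun i => χ (t i)) = c) =
      Fintype.piFinset fun i => univ.filter fun v => χ v = c i := by
    ext t
    rw [Finset.mem_filter, Fintype.mem_piFinset]
    constructor
    · rintro ⟨_, h⟩ i
      rw [Finset.mem_filter]
      exact ⟨Finset.mem_univ _, congrFun h i⟩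
    · intro h
      refine ⟨Finset.mem_univ _, funext fun i => ?_⟩
      exact (Finset.mem_filter.mp (h i)).2
  rw [e, Fintype.card_piFinset]
  push_cast
  rfl

theorem sum_col_near (χ : Fin n → Bool) (c : Fin 6 → Bool) :
    |∑ t : Fin 6 → Fin n, (if (fun i => χ (t i)) = c then (1 : ℝ) else 0) - (n : ℝ) ^ 6 / 64| ≤
      |dn χ| * (n : ℝ) ^ 5 := by
  rw [sumCol]
  have h0 : ((nc χ false : ℝ) + nc χ true) = n := by exact_mod_cast nc_add χ
  have hf0 : (0 : ℝ) ≤ nc χ false := Nat.cast_nonneg _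
  have ht0 : (0 : ℝ) ≤ nc χ true := Nat.cast_nonneg _
  have hn0 : (0 : ℝ) ≤ n := Nat.cast_nonneg _
  have h1 : |dn χ| ≤ n := by
    unfold dn
    rw [abs_le]
    constructor <;> linarith
  have h2 : ∀ i : Fin 6, |2 * (nc χ (c i) : ℝ) - n| ≤ |dn χ| := by
    intro i
    cases hc : c i with
    | false =>
      have e : 2 * (nc χ false : ℝ) - n = dn χ := by
        unfold dn
        linarith
      rw [e]
    | true =>
      have e : 2 * (nc χ true : ℝ) - n = -dn χ := by
        unfold dn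
        linarith
      rw [e, abs_neg]
  have h3 := prod_near (fun i : Fin 6 => 2 * (nc χ (c i) : ℝ)) n |dn χ| hn0 h1 h2
  have e1 : ∏ i : Fin 6, 2 * (nc χ (c i) : ℝ) = 64 * ∏ i : Fin 6, (nc χ (c i) : ℝ) := by
    rw [Finset.prod_mul_distrib, Finset.prod_const, Finset.card_univ, Fintype.card_fin]
    norm_num
  rw [e1] at h3
  rcases hn0.eq_or_lt with h4 | h4
  · have h5 : |dn χ| = 0 := le_antisymm (by rw [h4]; exact h1) (abs_nonneg _)
    have h6 : (nc χ (c 0) : ℝ) = 0 := by
      have := h2 0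
      rw [h5, ← h4, sub_zero] at this
      have h7 := abs_nonpos_iff.mp this
      linarith
    rw [h5, ← h4]
    have h8 : ∏ i : Fin 6, (nc χ (c i) : ℝ) = 0 :=
      Finset.prod_eq_zero (Finset.mem_univ 0) h6
    rw [h8]
    norm_num
  · have e2 : (2 ^ 6 - 1) * (|dn χ| * (n : ℝ) ^ 6) = n * (63 * (|dn χ| * (n : ℝ) ^ 5)) := by ring
    rw [e2] at h3
    have h5 := le_of_mul_le_mul_left h3 h4
    have e3 : 64 * ∏ i : Fin 6, (nc χ (c i) : ℝ) - (n : ℝ) ^ 6 =
        64 * (∏ i : Fin 6, (nc χ (c i) : ℝ) - (n : ℝ) ^ 6 / 64) := by ring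
    rw [e3, abs_mul, abs_of_pos (by norm_num : (0 : ℝ) < 64)] at h5
    have h6 : 0 ≤ |dn χ| * (n : ℝ) ^ 5 := by positivity
    linarith

end col

/-! ### The windows -/

/-- The quadruples of a window. -/
def eL {m : ℕ} (c : Fin m → Bool) (z : Fin m → Fin m → Bool) : Finset (Fin m) → Bool :=
  fun S => decide (S.card = 4) && girB c z (fun _ => false) (fun _ => false) S

theorem girB_congr {V : Type*} [DecidableEq V] (χ : V → Bool) (M M' : V → V → Bool)
    (f g : Finset V → Bool) (Q : Finset V)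
    (h : ∀ a b, χ a = false → χ b = true → M a b = M' a b) :
    girB χ M f g Q = girB χ M' f g Q := by
  unfold girB
  have e : ∑ a ∈ Q.filter (fun v => χ v = false), ∑ b ∈ Q.filter (fun v => χ v = true),
      bz (M a b) = ∑ a ∈ Q.filter (fun v => χ v = false), ∑ b ∈ Q.filter (fun v => χ v = true),
      bz (M' a b) := by
    refine Finset.sum_congr rfl fun a ha => Finset.sum_congr rfl fun b hb => ?_
    rw [h a b (Finset.mem_filter.mp ha).2 (Finset.mem_filter.mp hb).2]
  rw [e]

theorem two_smul_z2 (x : ZMod 2) : (2 : ℕ) • x = 0 := by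
  revert x
  decide

theorem girB_nrm (c : Fin 6 → Bool) (m : Fin 6 → Fin 6 → Bool) (f g : Finset (Fin 6) → Bool)
    (S : Finset (Fin 6)) (hS : S.card = 4) : girB c (nrm c m) f g S = girB c m f g S := by
  have hc := Finset.card_filter_add_card_filter_not (s := S) (fun v => c v = true)
  have hf : (S.filter fun v => ¬c v = true) = S.filter fun v => c v = false := by
    refine Finset.filter_congr fun v _ => ?_
    rw [Bool.not_eq_true]
  rw [hf, hS] at hc
  unfold girB
  by_cases h2 : (S.filter fun v => c v = true).card = 2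
  · have h2' : (S.filter fun v => c v = false).card = 2 := by omega
    rw [h2, if_neg (by norm_num), if_neg (by norm_num), if_pos rfl, if_neg (by norm_num),
      if_neg (by norm_num), if_pos rfl]
    congr 1
    have e1 : ∀ a ∈ S.filter (fun v => c v = false), ∀ b ∈ S.filter (fun v => c v = true),
        bz (nrm c m a b) = bz (m a b) + (bz (m (ra c) b) + (bz (m a (rb c)) +
          bz (m (ra c) (rb c)))) := by
      intro a ha b hb
      have h3 := (Finset.mem_filter.mp ha).2
      have h4 := (Finset.mem_filter.mp hb).2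
      have key : ∀ x y z w : Bool, bz (x ^^ (y ^^ (z ^^ w))) = bz x + (bz y + (bz z + bz w)) := by
        decide
      unfold nrm
      by_cases h5 : fr c a b = true
      · rw [if_pos h5, key]
      · rw [if_neg h5]
        rw [fr_iff, not_and, not_and] at h5
        have h6 := h5 h3 h4
        rw [not_and_or, not_not, not_not] at h6
        rcases h6 with h6 | h6
        · rw [h6]
          have key2 : ∀ y w : Bool, bz false = bz y + (bz y + (bz w + bz w)) := by decide
          exact key2 _ _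
        · rw [h6]
          have key2 : ∀ y w : Bool, bz false = bz y + (bz w + (bz y + bz w)) := by decide
          exact key2 _ _
    rw [Finset.sum_congr rfl fun a ha => Finset.sum_congr rfl fun b hb => e1 a ha b hb]
    simp only [Finset.sum_add_distrib, Finset.sum_const, h2, h2']
    rw [two_smul_z2, ← Finset.smul_sum, two_smul_z2, two_smul_z2, add_zero, add_zero, add_zero]
  · have e2 : ∀ A B C D E F : Bool, (if (S.filter fun v => c v = true).card = 0 then A
      else if (S.filter fun v => c v = true).card = 1 then B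
      else if (S.filter fun v => c v = true).card = 2 then C
      else if (S.filter fun v => c v = true).card = 3 then D else E) =
      if (S.filter fun v => c v = true).card = 0 then A
      else if (S.filter fun v => c v = true).card = 1 then B
      else if (S.filter fun v => c v = true).card = 2 then F
      else if (S.filter fun v => c v = true).card = 3 then D else E := by
      intro A B C D E F
      rw [if_neg h2, if_neg h2]
    exact e2 _ _ _ _ _ _

theorem eL_nrm (c : Fin 6 → Bool) (m : Fin 6 → Fin 6 → Bool) : eL c (nrm c m) = eL c m := by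
  funext S
  unfold eL
  by_cases hS : S.card = 4
  · rw [girB_nrm c m _ _ S hS]
  · rw [decide_eq_false hS, Bool.false_and, Bool.false_and]

theorem zb_eL {n m : ℕ} (χ : Fin n → Bool) (M : Fin n → Fin n → Bool) (t : Fin m → Fin n)
    (ht : Function.Injective t) :
    zb (gir χ M (fun _ => false) (fun _ => false)) t = eL (dt χ M t).1 (dt χ M t).2 := by
  funext S
  have h1 : (S.image t).card = S.card := Finset.card_image_of_injective _ ht
  have h2 : zb (gir χ M (fun _ => false) (fun _ => false)) t S =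
      decide (S.image t ∈ gir χ M (fun _ => false) (fun _ => false)) := by
    rw [zb_eq]
    rfl
  rw [h2]
  unfold eL
  by_cases hS : S.card = 4
  · rw [decide_eq_true hS, Bool.true_and, dec_gir _ _ _ _ _ (h1.trans hS),
      girB_map χ M _ _ t ht S]
    refine girB_congr _ _ _ _ _ _ fun a b ha hb => ?_
    show M (t a) (t b) = (!χ (t a) && (χ (t b) && M (t a) (t b)))
    rw [ha, hb]
    rfl
  · rw [decide_eq_false hS, Bool.false_and, decide_eq_false]
    intro h3
    exact hS (h1.symm.trans (gir_card _ _ _ _ _ h3))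

/-! ### The law -/

/-- The sum of a function of the windows with the weights of the uniform law. -/
def lawSum (ψ : (Finset (Fin 6) → Bool) → (Fin 6 → Bool) → ℤ) : ℤ :=
  ∑ c : Fin 6 → Bool, 2 ^ (4 - (Lc c).length) * itZ (Lc c) (fun z => ψ (eL c z) c)
    (fun _ _ => false)

set_option maxRecDepth 100000 in
theorem Lc_len : ∀ c : Fin 6 → Bool, (Lc c).length ≤ 4 := by
  decide

/-- The number of pairs of data. -/
def KW : ℝ := (Fintype.card (Wn 6 × Wn 6) : ℝ)

theorem KW_nonneg : 0 ≤ KW := Nat.cast_nonneg _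

section law
variable {n : ℕ}

/-- The average over the windows with given colours. -/
theorem law_col (χ : Fin n → Bool) (M : Fin n → Fin n → Bool)
    (ψ : (Finset (Fin 6) → Bool) → (Fin 6 → Bool) → ℤ) (B : ℝ)
    (hB : ∀ e c, |((ψ e c : ℤ) : ℝ)| ≤ B) (θ : ℝ) (hθ : 0 ≤ θ)
    (h : c4s χ M ≤ θ ^ 4 * (n : ℝ) ^ 4) (hd : |dn χ| ≤ θ * n) (c : Fin 6 → Bool) :
    |∑ t : Fin 6 → Fin n, (if (dt χ M t).1 = c then
      ((ψ (eL c (dt χ M t).2) c : ℤ) : ℝ) else 0) - (n : ℝ) ^ 6 / 1024 *
      ((2 ^ (4 - (Lc c).length) * itZ (Lc c) (fun z => ψ (eL c z) c)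
        (fun _ _ => false) : ℤ) : ℝ)| ≤
      (4 * KW + 1) * (B * (θ * (n : ℝ) ^ 6)) := by
  have hB0 : 0 ≤ B := le_trans (abs_nonneg _) (hB (fun _ => false) c)
  set Φ : (Fin 6 → Fin 6 → Bool) → ℝ := fun z => ((ψ (eL c z) c : ℤ) : ℝ) with hΦ
  set hc : ℝ := itA (Lc c) Φ (fun _ _ => false) with hhc
  have hΦB : ∀ z, |Φ z| ≤ B := fun z => hB _ _
  have h1 := sum_itA χ M c Φ B hΦB θ hθ h (Lc c) fun _ hp => hp
  change _ ≤ ((Lc c).length : ℝ) * (KW * (B * (θ * (n : ℝ) ^ 6))) at h1
  have h2 : ∀ t : Fin 6 → Fin n, itA (Lc c) Φ (nrm c (dt χ M t).2) = hc := by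
    intro t
    refine itA_congr _ _ _ _ fun k l hkl => ?_
    unfold nrm
    rw [if_neg]
    intro h3
    exact hkl ((mem_Lc c (k, l)).mpr h3)
  have e1 : ∑ t : Fin 6 → Fin n, (if (dt χ M t).1 = c then
      ((ψ (eL c (dt χ M t).2) c : ℤ) : ℝ) else 0) =
      ∑ t : Fin 6 → Fin n, (if (dt χ M t).1 = c then
        Φ (nrm c (dt χ M t).2) - itA (Lc c) Φ (nrm c (dt χ M t).2) else 0) +
      hc * ∑ t : Fin 6 → Fin n, (if (fun i => χ (t i)) = c then (1 : ℝ) else 0) := by
    rw [Finset.mul_sum, ← Finset.sum_add_distrib]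
    refine Finset.sum_congr rfl fun t _ => ?_
    have e2 : (dt χ M t).1 = fun i => χ (t i) := rfl
    rw [← e2]
    by_cases h3 : (dt χ M t).1 = c
    · rw [if_pos h3, if_pos h3, if_pos h3, h2 t, hΦ]
      beta_reduce
      rw [eL_nrm]
      ring
    · rw [if_neg h3, if_neg h3, if_neg h3, mul_zero, add_zero]
  have e3 : ((2 ^ (4 - (Lc c).length) * itZ (Lc c) (fun z => ψ (eL c z) c)
        (fun _ _ => false) : ℤ) : ℝ) = 16 * hc := by
    push_cast
    rw [itZ_eq, ← mul_assoc, ← pow_add, Nat.sub_add_cancel (Lc_len c)]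
    norm_num
    rfl
  have h4 := sum_col_near χ c
  have h5 : |hc| ≤ B := itA_abs _ _ B hΦB _
  rw [e1, e3]
  have e4 : ∑ t : Fin 6 → Fin n, (if (dt χ M t).1 = c then
        Φ (nrm c (dt χ M t).2) - itA (Lc c) Φ (nrm c (dt χ M t).2) else 0) +
      hc * ∑ t : Fin 6 → Fin n, (if (fun i => χ (t i)) = c then (1 : ℝ) else 0) -
      (n : ℝ) ^ 6 / 1024 * (16 * hc) =
      ∑ t : Fin 6 → Fin n, (if (dt χ M t).1 = c then
        Φ (nrm c (dt χ M t).2) - itA (Lc c) Φ (nrm c (dt χ M t).2) else 0) +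
      hc * (∑ t : Fin 6 → Fin n, (if (fun i => χ (t i)) = c then (1 : ℝ) else 0) -
        (n : ℝ) ^ 6 / 64) := by ring
  rw [e4]
  refine le_trans (abs_add_le _ _) ?_
  rw [abs_mul]
  have h6 : |hc| * |∑ t : Fin 6 → Fin n, (if (fun i => χ (t i)) = c then (1 : ℝ) else 0) -
        (n : ℝ) ^ 6 / 64| ≤ B * (θ * (n : ℝ) ^ 6) := by
    refine mul_le_mul h5 (le_trans h4 ?_) (abs_nonneg _) hB0
    calc |dn χ| * (n : ℝ) ^ 5 ≤ θ * n * (n : ℝ) ^ 5 :=
          mul_le_mul_of_nonneg_right hd (by positivity)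
      _ = θ * (n : ℝ) ^ 6 := by ring
  have h7 : ((Lc c).length : ℝ) * (KW * (B * (θ * (n : ℝ) ^ 6))) ≤
      4 * (KW * (B * (θ * (n : ℝ) ^ 6))) := by
    refine mul_le_mul_of_nonneg_right ?_ (mul_nonneg KW_nonneg (by positivity))
    exact_mod_cast Lc_len c
  linarith

/-- The sum over all tuples. -/
theorem law_all (χ : Fin n → Bool) (M : Fin n → Fin n → Bool)
    (ψ : (Finset (Fin 6) → Bool) → (Fin 6 → Bool) → ℤ) (B : ℝ)
    (hB : ∀ e c, |((ψ e c : ℤ) : ℝ)| ≤ B) (θ : ℝ) (hθ : 0 ≤ θ)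
    (h : c4s χ M ≤ θ ^ 4 * (n : ℝ) ^ 4) (hd : |dn χ| ≤ θ * n) :
    |∑ t : Fin 6 → Fin n, ((ψ (eL (dt χ M t).1 (dt χ M t).2) (dt χ M t).1 : ℤ) : ℝ) -
      (n : ℝ) ^ 6 / 1024 * ((lawSum ψ : ℤ) : ℝ)| ≤
      64 * ((4 * KW + 1) * (B * (θ * (n : ℝ) ^ 6))) := by
  have e1 : ∑ t : Fin 6 → Fin n, ((ψ (eL (dt χ M t).1 (dt χ M t).2) (dt χ M t).1 : ℤ) : ℝ) =
      ∑ c : Fin 6 → Bool, ∑ t : Fin 6 → Fin n, (if (dt χ M t).1 = c then
      ((ψ (eL c (dt χ M t).2) c : ℤ) : ℝ) else 0) := by
    rw [Finset.sum_comm]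
    refine Finset.sum_congr rfl fun t _ => ?_
    rw [Finset.sum_ite_eq, if_pos (Finset.mem_univ _)]
  have e2 : (n : ℝ) ^ 6 / 1024 * ((lawSum ψ : ℤ) : ℝ) = ∑ c : Fin 6 → Bool,
      (n : ℝ) ^ 6 / 1024 * ((2 ^ (4 - (Lc c).length) * itZ (Lc c) (fun z => ψ (eL c z) c)
        (fun _ _ => false) : ℤ) : ℝ) := by
    unfold lawSum
    rw [Int.cast_sum, Finset.mul_sum]
  rw [e1, e2, ← Finset.sum_sub_distrib]
  refine le_trans (Finset.abs_sum_le_sum_abs _ _) ?_
  refine le_trans (Finset.sum_le_sum fun c _ => law_col χ M ψ B hB θ hθ h hd c) ?_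
  rw [Finset.sum_const, Finset.card_univ, Fintype.card_fun, Fintype.card_fin, Fintype.card_bool,
    nsmul_eq_mul]
  norm_num

end law

/-! ### The density -/

/-- The product of the signs of the four pairs between two pairs of vertices. -/
def w4 {V : Type*} (χ : V → Bool) (M : V → V → Bool) (x y a b : V) : ℝ :=
  mu χ M x a * mu χ M x b * (mu χ M y a * mu χ M y b)

/-- The sum over the six partitions of four vertices into ordered pairs. -/
def q6 {V : Type*} (χ : V → Bool) (M : V → V → Bool) (x y a b : V) : ℝ :=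
  w4 χ M x y a b + w4 χ M x a y b + w4 χ M x b y a + w4 χ M y a x b + w4 χ M y b x a +
    w4 χ M a b x y

theorem girB_odd {V : Type*} [DecidableEq V] {Q : Finset V} (χ : V → Bool) (M : V → V → Bool)
    (h : (Q.filter fun v => χ v = true).card = 1 ∨ (Q.filter fun v => χ v = true).card = 3) :
    girB χ M (fun _ => false) (fun _ => false) Q = true := by
  unfold girB
  rcases h with h | h
  · rw [h, if_neg (by norm_num), if_pos rfl]
    rfl
  · rw [h, if_neg (by norm_num), if_neg (by norm_num), if_neg (by norm_num), if_pos rfl]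
    rfl

theorem girB_mono {V : Type*} [DecidableEq V] {Q : Finset V} (χ : V → Bool) (M : V → V → Bool)
    (h : (Q.filter fun v => χ v = true).card = 0 ∨ (Q.filter fun v => χ v = true).card = 4) :
    girB χ M (fun _ => false) (fun _ => false) Q = false := by
  have h0 : oddB (∑ _q ∈ Q, bz false) = false := by
    have e : bz false = 0 := by decide
    rw [e, Finset.sum_const_zero]
    decide
  unfold girB
  rcases h with h | h
  · rw [h, if_pos rfl]
    exact h0
  · rw [h, if_neg (by norm_num), if_neg (by norm_num), if_neg (by norm_num), if_neg (by norm_num)]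
    exact h0

theorem toNat_odd4 (a b c d : Bool) :
    (((oddB (bz a + bz b + (bz c + bz d))).toNat : ℕ) : ℝ) =
      (1 - sr a * sr b * (sr c * sr d)) / 2 := by
  have h : (oddB (bz a + bz b + (bz c + bz d))).toNat = (a ^^ b ^^ c ^^ d).toNat := by
    revert a b c d
    decide
  rw [h]
  unfold sr
  cases a <;> cases b <;> cases c <;> cases d <;> norm_num

theorem girB_two {Q : Finset (Fin 4)} (c : Fin 4 → Bool) (z : Fin 4 → Fin 4 → Bool)
    (i j k l : Fin 4) (hij : i ≠ j) (hkl : k ≠ l)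
    (hF : (Q.filter fun v => c v = false) = {i, j})
    (hT : (Q.filter fun v => c v = true) = {k, l}) :
    girB c z (fun _ => false) (fun _ => false) Q =
      oddB (bz (z i k) + bz (z i l) + (bz (z j k) + bz (z j l))) := by
  unfold girB
  rw [hT, hF, Finset.card_pair hkl, if_neg (by norm_num), if_neg (by norm_num), if_pos rfl,
    Finset.sum_pair hij, Finset.sum_pair hkl, Finset.sum_pair hkl]

theorem girB4 (c : Fin 4 → Bool) (z : Fin 4 → Fin 4 → Bool) :
    16 * (((girB c z (fun _ => false) (fun _ => false) univ).toNat : ℕ) : ℝ) =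
      11 - 5 * (sr (c 0) * sr (c 1) * sr (c 2) * sr (c 3)) -
      (sr (c 0) * sr (c 1) + sr (c 0) * sr (c 2) + sr (c 0) * sr (c 3) + sr (c 1) * sr (c 2) +
        sr (c 1) * sr (c 3) + sr (c 2) * sr (c 3)) - 8 * q6 c z 0 1 2 3 := by
  have hc : c = ![c 0, c 1, c 2, c 3] := by
    funext i
    fin_cases i <;> rfl
  rw [hc]
  generalize c 0 = b0
  generalize c 1 = b1
  generalize c 2 = b2
  generalize c 3 = b3
  cases b0 <;> cases b1 <;> cases b2 <;> cases b3
  · have hT : ((univ : Finset (Fin 4)).filter fun v => (![false, false, false, false] : Fin 4 → Bool) v = true) = (∅ : Finset (Fin 4)) := by decide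
    rw [girB_mono _ z (by rw [hT]; decide)]
    simp [mu, sr, q6, w4]
    try norm_num
  · have hT : ((univ : Finset (Fin 4)).filter fun v => (![false, false, false, true] : Fin 4 → Bool) v = true) = ({3} : Finset (Fin 4)) := by decide
    rw [girB_odd _ z (by rw [hT]; decide)]
    simp [mu, sr, q6, w4]
    try norm_num
  · have hT : ((univ : Finset (Fin 4)).filter fun v => (![false, false, true, false] : Fin 4 → Bool) v = true) = ({2} : Finset (Fin 4)) := by decide
    rw [girB_odd _ z (by rw [hT]; decide)]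
    simp [mu, sr, q6, w4]
    try norm_num
  · have hT : ((univ : Finset (Fin 4)).filter fun v => (![false, false, true, true] : Fin 4 → Bool) v = true) = ({2, 3} : Finset (Fin 4)) := by decide
    have hF : ((univ : Finset (Fin 4)).filter fun v => (![false, false, true, true] : Fin 4 → Bool) v = false) = ({0, 1} : Finset (Fin 4)) := by decide
    have e := girB_two ![false, false, true, true] z 0 1 2 3 (by decide) (by decide) hF hT
    rw [e, toNat_odd4]
    simp [mu, sr, q6, w4]
    split_ifs <;> norm_num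
  · have hT : ((univ : Finset (Fin 4)).filter fun v => (![false, true, false, false] : Fin 4 → Bool) v = true) = ({1} : Finset (Fin 4)) := by decide
    rw [girB_odd _ z (by rw [hT]; decide)]
    simp [mu, sr, q6, w4]
    try norm_num
  · have hT : ((univ : Finset (Fin 4)).filter fun v => (![false, true, false, true] : Fin 4 → Bool) v = true) = ({1, 3} : Finset (Fin 4)) := by decide
    have hF : ((univ : Finset (Fin 4)).filter fun v => (![false, true, false, true] : Fin 4 → Bool) v = false) = ({0, 2} : Finset (Fin 4)) := by decide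
    have e := girB_two ![false, true, false, true] z 0 2 1 3 (by decide) (by decide) hF hT
    rw [e, toNat_odd4]
    simp [mu, sr, q6, w4]
    split_ifs <;> norm_num
  · have hT : ((univ : Finset (Fin 4)).filter fun v => (![false, true, true, false] : Fin 4 → Bool) v = true) = ({1, 2} : Finset (Fin 4)) := by decide
    have hF : ((univ : Finset (Fin 4)).filter fun v => (![false, true, true, false] : Fin 4 → Bool) v = false) = ({0, 3} : Finset (Fin 4)) := by decide
    have e := girB_two ![false, true, true, false] z 0 3 1 2 (by decide) (by decide) hF hT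
    rw [e, toNat_odd4]
    simp [mu, sr, q6, w4]
    split_ifs <;> norm_num
  · have hT : ((univ : Finset (Fin 4)).filter fun v => (![false, true, true, true] : Fin 4 → Bool) v = true) = ({1, 2, 3} : Finset (Fin 4)) := by decide
    rw [girB_odd _ z (by rw [hT]; decide)]
    simp [mu, sr, q6, w4]
    try norm_num
  · have hT : ((univ : Finset (Fin 4)).filter fun v => (![true, false, false, false] : Fin 4 → Bool) v = true) = ({0} : Finset (Fin 4)) := by decide
    rw [girB_odd _ z (by rw [hT]; decide)]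
    simp [mu, sr, q6, w4]
    try norm_num
  · have hT : ((univ : Finset (Fin 4)).filter fun v => (![true, false, false, true] : Fin 4 → Bool) v = true) = ({0, 3} : Finset (Fin 4)) := by decide
    have hF : ((univ : Finset (Fin 4)).filter fun v => (![true, false, false, true] : Fin 4 → Bool) v = false) = ({1, 2} : Finset (Fin 4)) := by decide
    have e := girB_two ![true, false, false, true] z 1 2 0 3 (by decide) (by decide) hF hT
    rw [e, toNat_odd4]
    simp [mu, sr, q6, w4]
    split_ifs <;> norm_num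
  · have hT : ((univ : Finset (Fin 4)).filter fun v => (![true, false, true, false] : Fin 4 → Bool) v = true) = ({0, 2} : Finset (Fin 4)) := by decide
    have hF : ((univ : Finset (Fin 4)).filter fun v => (![true, false, true, false] : Fin 4 → Bool) v = false) = ({1, 3} : Finset (Fin 4)) := by decide
    have e := girB_two ![true, false, true, false] z 1 3 0 2 (by decide) (by decide) hF hT
    rw [e, toNat_odd4]
    simp [mu, sr, q6, w4]
    split_ifs <;> norm_num
  · have hT : ((univ : Finset (Fin 4)).filter fun v => (![true, false, true, true] : Fin 4 → Bool) v = true) = ({0, 2, 3} : Finset (Fin 4)) := by decide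
    rw [girB_odd _ z (by rw [hT]; decide)]
    simp [mu, sr, q6, w4]
    try norm_num
  · have hT : ((univ : Finset (Fin 4)).filter fun v => (![true, true, false, false] : Fin 4 → Bool) v = true) = ({0, 1} : Finset (Fin 4)) := by decide
    have hF : ((univ : Finset (Fin 4)).filter fun v => (![true, true, false, false] : Fin 4 → Bool) v = false) = ({2, 3} : Finset (Fin 4)) := by decide
    have e := girB_two ![true, true, false, false] z 2 3 0 1 (by decide) (by decide) hF hT
    rw [e, toNat_odd4]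
    simp [mu, sr, q6, w4]
    split_ifs <;> norm_num
  · have hT : ((univ : Finset (Fin 4)).filter fun v => (![true, true, false, true] : Fin 4 → Bool) v = true) = ({0, 1, 3} : Finset (Fin 4)) := by decide
    rw [girB_odd _ z (by rw [hT]; decide)]
    simp [mu, sr, q6, w4]
    try norm_num
  · have hT : ((univ : Finset (Fin 4)).filter fun v => (![true, true, true, false] : Fin 4 → Bool) v = true) = ({0, 1, 2} : Finset (Fin 4)) := by decide
    rw [girB_odd _ z (by rw [hT]; decide)]
    simp [mu, sr, q6, w4]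
    try norm_num
  · have hT : ((univ : Finset (Fin 4)).filter fun v => (![true, true, true, true] : Fin 4 → Bool) v = true) = ({0, 1, 2, 3} : Finset (Fin 4)) := by decide
    rw [girB_mono _ z (by rw [hT]; decide)]
    simp [mu, sr, q6, w4]
    try norm_num

section dens
variable {n : ℕ}

/-- The sum over all tuples and over the injective tuples. -/
theorem sum_all_inj {k : ℕ} (F : (Fin k → Fin n) → ℝ) (B : ℝ) (hB : ∀ t, |F t| ≤ B) :
    |∑ t : Fin k → Fin n, F t - ∑ t ∈ inj (Fin n) k, F t| ≤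
      B * ((n : ℝ) ^ k - (n.descFactorial k : ℝ)) := by
  classical
  have h1 := Finset.sum_filter_add_sum_filter_not (univ : Finset (Fin k → Fin n))
    (fun t => Function.Injective t) F
  have h2 : inj (Fin n) k = (univ : Finset (Fin k → Fin n)).filter fun t => Function.Injective t := by
    ext t
    rw [mem_inj, Finset.mem_filter]
    exact ⟨fun h => ⟨Finset.mem_univ _, h⟩, fun h => h.2⟩
  have h3 : ∑ t : Fin k → Fin n, F t - ∑ t ∈ inj (Fin n) k, F t =
      ∑ t ∈ (univ : Finset (Fin k → Fin n)).filter (fun t => ¬Function.Injective t), F t := by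
    rw [h2]
    linarith
  have h4 := Finset.card_filter_add_card_filter_not (s := (univ : Finset (Fin k → Fin n)))
    (fun t => Function.Injective t)
  rw [← h2, card_inj, Fintype.card_fin, Finset.card_univ, Fintype.card_fun, Fintype.card_fin,
    Fintype.card_fin] at h4
  have h5 : (((univ : Finset (Fin k → Fin n)).filter fun t => ¬Function.Injective t).card : ℝ) =
      (n : ℝ) ^ k - (n.descFactorial k : ℝ) := by
    have : (n.descFactorial k : ℝ) +
        (((univ : Finset (Fin k → Fin n)).filter fun t => ¬Function.Injective t).card : ℝ) =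
        (n : ℝ) ^ k := by exact_mod_cast h4
    linarith
  rw [h3]
  refine le_trans (Finset.abs_sum_le_sum_abs _ _) ?_
  refine le_trans (Finset.sum_le_sum fun t _ => hB t) ?_
  rw [Finset.sum_const, nsmul_eq_mul, h5]
  exact le_of_eq (mul_comm _ _)

/-- The tuples of length four. -/
def e4t (V : Type*) : (Fin 4 → V) ≃ V × V × V × V where
  toFun t := (t 0, t 1, t 2, t 3)
  invFun p := ![p.1, p.2.1, p.2.2.1, p.2.2.2]
  left_inv := by
    intro t
    funext i
    fin_cases i <;> rfl
  right_inv := by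
    intro p
    rfl

theorem sum_fin4 {V : Type*} [Fintype V] (F : V → V → V → V → ℝ) :
    ∑ t : Fin 4 → V, F (t 0) (t 1) (t 2) (t 3) = ∑ x, ∑ y, ∑ a, ∑ b, F x y a b := by
  rw [← (e4t V).symm.sum_comp, Fintype.sum_prod_type]
  refine Finset.sum_congr rfl fun x _ => ?_
  rw [Fintype.sum_prod_type]
  refine Finset.sum_congr rfl fun y _ => ?_
  rw [Fintype.sum_prod_type]
  rfl

theorem sum_w4 (χ : Fin n → Bool) (M : Fin n → Fin n → Bool) :
    ∑ t : Fin 4 → Fin n, w4 χ M (t 0) (t 1) (t 2) (t 3) = c4s χ M := by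
  rw [sum_fin4 (w4 χ M)]
  unfold c4s
  have e1 : ∀ a b : Fin n, (∑ x : Fin n, mu χ M x a * mu χ M x b) ^ 2 =
      ∑ x : Fin n, ∑ y : Fin n, w4 χ M x y a b := by
    intro a b
    rw [sq, Finset.sum_mul_sum]
    rfl
  rw [Finset.sum_congr rfl fun a _ => Finset.sum_congr rfl fun b _ => e1 a b]
  have e2 : ∑ a : Fin n, ∑ b : Fin n, ∑ x : Fin n, ∑ y : Fin n, w4 χ M x y a b =
      ∑ x : Fin n, ∑ y : Fin n, ∑ a : Fin n, ∑ b : Fin n, w4 χ M x y a b := by
    calc ∑ a : Fin n, ∑ b : Fin n, ∑ x : Fin n, ∑ y : Fin n, w4 χ M x y a b =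
        ∑ a : Fin n, ∑ x : Fin n, ∑ b : Fin n, ∑ y : Fin n, w4 χ M x y a b :=
          Finset.sum_congr rfl fun a _ => Finset.sum_comm
      _ = ∑ x : Fin n, ∑ a : Fin n, ∑ b : Fin n, ∑ y : Fin n, w4 χ M x y a b := Finset.sum_comm
      _ = ∑ x : Fin n, ∑ a : Fin n, ∑ y : Fin n, ∑ b : Fin n, w4 χ M x y a b :=
          Finset.sum_congr rfl fun x _ => Finset.sum_congr rfl fun a _ => Finset.sum_comm
      _ = ∑ x : Fin n, ∑ y : Fin n, ∑ a : Fin n, ∑ b : Fin n, w4 χ M x y a b :=
          Finset.sum_congr rfl fun x _ => Finset.sum_comm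
  exact e2.symm

theorem sum_w4p (χ : Fin n → Bool) (M : Fin n → Fin n → Bool) (f : Fin 4 → Fin 4)
    (hf : Function.Bijective f) :
    ∑ t : Fin 4 → Fin n, w4 χ M (t (f 0)) (t (f 1)) (t (f 2)) (t (f 3)) = c4s χ M := by
  rw [← sum_w4]
  exact (Equiv.arrowCongr (Equiv.ofBijective f hf) (Equiv.refl (Fin n))).symm.sum_comp
    fun t : Fin 4 → Fin n => w4 χ M (t 0) (t 1) (t 2) (t 3)

theorem sum_q6 (χ : Fin n → Bool) (M : Fin n → Fin n → Bool) :
    ∑ t : Fin 4 → Fin n, q6 χ M (t 0) (t 1) (t 2) (t 3) = 6 * c4s χ M := by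
  unfold q6
  simp_rw [Finset.sum_add_distrib]
  have h1 := sum_w4 χ M
  have h2 := sum_w4p χ M ![0, 2, 1, 3] (by decide)
  have h3 := sum_w4p χ M ![0, 3, 1, 2] (by decide)
  have h4 := sum_w4p χ M ![1, 2, 0, 3] (by decide)
  have h5 := sum_w4p χ M ![1, 3, 0, 2] (by decide)
  have h6 := sum_w4p χ M ![2, 3, 0, 1] (by decide)
  have h2' : ∑ t : Fin 4 → Fin n, w4 χ M (t 0) (t 2) (t 1) (t 3) = c4s χ M := h2
  have h3' : ∑ t : Fin 4 → Fin n, w4 χ M (t 0) (t 3) (t 1) (t 2) = c4s χ M := h3
  have h4' : ∑ t : Fin 4 → Fin n, w4 χ M (t 1) (t 2) (t 0) (t 3) = c4s χ M := h4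
  have h5' : ∑ t : Fin 4 → Fin n, w4 χ M (t 1) (t 3) (t 0) (t 2) = c4s χ M := h5
  have h6' : ∑ t : Fin 4 → Fin n, w4 χ M (t 2) (t 3) (t 0) (t 1) = c4s χ M := h6
  rw [h1, h2', h3', h4', h5', h6']
  ring

theorem sum_sr (χ : Fin n → Bool) : ∑ v : Fin n, sr (χ v) = dn χ := by
  have h1 : ∀ v : Fin n, sr (χ v) = (if χ v = false then (1 : ℝ) else 0) -
      (if χ v = true then 1 else 0) := by
    intro v
    unfold sr
    cases χ v <;> norm_num
  rw [Finset.sum_congr rfl fun v _ => h1 v, Finset.sum_sub_distrib, Finset.sum_boole,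
    Finset.sum_boole]
  rfl

/-- The membership of a quadruple, as a function of the signs. -/
def R4 (χ : Fin n → Bool) (M : Fin n → Fin n → Bool) (t : Fin 4 → Fin n) : ℝ :=
  11 - 5 * (sr (χ (t 0)) * sr (χ (t 1)) * sr (χ (t 2)) * sr (χ (t 3))) -
    (sr (χ (t 0)) * sr (χ (t 1)) + sr (χ (t 0)) * sr (χ (t 2)) + sr (χ (t 0)) * sr (χ (t 3)) +
      sr (χ (t 1)) * sr (χ (t 2)) + sr (χ (t 1)) * sr (χ (t 3)) + sr (χ (t 2)) * sr (χ (t 3))) -
    8 * q6 χ M (t 0) (t 1) (t 2) (t 3)

theorem R4_eq (χ : Fin n → Bool) (M : Fin n → Fin n → Bool) (t : Fin 4 → Fin n)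
    (ht : Function.Injective t) :
    16 * (((mE (gir χ M (fun _ => false) (fun _ => false)) (univ.image t)).toNat : ℕ) : ℝ) =
      R4 χ M t := by
  have h1 : mE (gir χ M (fun _ => false) (fun _ => false)) (univ.image t) =
      eL (dt χ M t).1 (dt χ M t).2 univ := by
    rw [← zb_eL χ M t ht, zb_eq]
  have h2 : eL (dt χ M t).1 (dt χ M t).2 univ =
      girB (dt χ M t).1 (dt χ M t).2 (fun _ => false) (fun _ => false) univ := by
    unfold eL
    rw [Finset.card_univ, Fintype.card_fin]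
    rfl
  rw [h1, h2, girB4]
  have h3 : ∀ i k : Fin 4, mu (dt χ M t).1 (dt χ M t).2 i k = mu χ M (t i) (t k) := by
    intro i k
    unfold mu dt
    by_cases h : χ (t i) = false ∧ χ (t k) = true
    · simp only [h, and_self, if_true, Bool.not_false, Bool.true_and]
    · simp only [h, if_false]
  unfold R4 q6 w4
  simp only [h3]
  rfl

theorem sum_R4 (χ : Fin n → Bool) (M : Fin n → Fin n → Bool) :
    ∑ t : Fin 4 → Fin n, R4 χ M t =
      11 * (n : ℝ) ^ 4 - 5 * dn χ ^ 4 - 6 * ((n : ℝ) ^ 2 * dn χ ^ 2) - 48 * c4s χ M := by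
  have hq := sum_q6 χ M
  have e1 : ∑ t : Fin 4 → Fin n, sr (χ (t 0)) * sr (χ (t 1)) * sr (χ (t 2)) * sr (χ (t 3)) =
      dn χ ^ 4 := by
    rw [sum_fin4 fun x y a b => sr (χ x) * sr (χ y) * sr (χ a) * sr (χ b)]
    simp only [← Finset.mul_sum, ← Finset.sum_mul, sum_sr]
    ring
  have e2 : ∀ f : Fin 4 → Fin 4, Function.Bijective f →
      ∑ t : Fin 4 → Fin n, sr (χ (t (f 0))) * sr (χ (t (f 1))) = (n : ℝ) ^ 2 * dn χ ^ 2 := by
    intro f hf
    have h1 : ∑ t : Fin 4 → Fin n, sr (χ (t (f 0))) * sr (χ (t (f 1))) =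
        ∑ t : Fin 4 → Fin n, sr (χ (t 0)) * sr (χ (t 1)) :=
      (Equiv.arrowCongr (Equiv.ofBijective f hf) (Equiv.refl (Fin n))).symm.sum_comp
        fun t : Fin 4 → Fin n => sr (χ (t 0)) * sr (χ (t 1))
    rw [h1, sum_fin4 fun x y _ _ => sr (χ x) * sr (χ y)]
    simp only [Finset.sum_const, Finset.card_univ, Fintype.card_fin, nsmul_eq_mul,
      ← Finset.mul_sum, ← Finset.sum_mul, sum_sr]
    ring
  have f1 : ∑ t : Fin 4 → Fin n, sr (χ (t 0)) * sr (χ (t 1)) = (n : ℝ) ^ 2 * dn χ ^ 2 :=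
    e2 ![0, 1, 2, 3] (by decide)
  have f2 : ∑ t : Fin 4 → Fin n, sr (χ (t 0)) * sr (χ (t 2)) = (n : ℝ) ^ 2 * dn χ ^ 2 :=
    e2 ![0, 2, 1, 3] (by decide)
  have f3 : ∑ t : Fin 4 → Fin n, sr (χ (t 0)) * sr (χ (t 3)) = (n : ℝ) ^ 2 * dn χ ^ 2 :=
    e2 ![0, 3, 1, 2] (by decide)
  have f4 : ∑ t : Fin 4 → Fin n, sr (χ (t 1)) * sr (χ (t 2)) = (n : ℝ) ^ 2 * dn χ ^ 2 :=
    e2 ![1, 2, 0, 3] (by decide)
  have f5 : ∑ t : Fin 4 → Fin n, sr (χ (t 1)) * sr (χ (t 3)) = (n : ℝ) ^ 2 * dn χ ^ 2 :=
    e2 ![1, 3, 0, 2] (by decide)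
  have f6 : ∑ t : Fin 4 → Fin n, sr (χ (t 2)) * sr (χ (t 3)) = (n : ℝ) ^ 2 * dn χ ^ 2 :=
    e2 ![2, 3, 0, 1] (by decide)
  unfold R4
  simp_rw [Finset.sum_sub_distrib, ← Finset.mul_sum, Finset.sum_add_distrib]
  rw [e1, f1, f2, f3, f4, f5, f6, hq]
  simp only [Finset.sum_const, Finset.card_univ, Fintype.card_fun, Fintype.card_fin, nsmul_eq_mul]
  push_cast
  ring

theorem abs_R4_le (χ : Fin n → Bool) (M : Fin n → Fin n → Bool) (t : Fin 4 → Fin n) :
    |R4 χ M t| ≤ 70 := by
  have hs : ∀ b, -1 ≤ sr b ∧ sr b ≤ 1 := by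
    intro b
    unfold sr
    cases b <;> norm_num
  have ab : ∀ x y : ℝ, |x| ≤ 1 → |y| ≤ 1 → |x * y| ≤ 1 := by
    intro x y hx hy
    rw [abs_mul]
    exact mul_le_one₀ hx (abs_nonneg _) hy
  have hsr : ∀ b, |sr b| ≤ 1 := fun b => le_of_eq (abs_sr b)
  have hw : ∀ x y a b, |w4 χ M x y a b| ≤ 1 := by
    intro x y a b
    unfold w4
    exact ab _ _ (ab _ _ (abs_mu_le _ _ _ _) (abs_mu_le _ _ _ _))
      (ab _ _ (abs_mu_le _ _ _ _) (abs_mu_le _ _ _ _))
  have b0 := abs_le.mp (ab _ _ (ab _ _ (ab _ _ (hsr (χ (t 0))) (hsr (χ (t 1)))) (hsr (χ (t 2))))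
    (hsr (χ (t 3))))
  have b1 := abs_le.mp (ab _ _ (hsr (χ (t 0))) (hsr (χ (t 1))))
  have b2 := abs_le.mp (ab _ _ (hsr (χ (t 0))) (hsr (χ (t 2))))
  have b3 := abs_le.mp (ab _ _ (hsr (χ (t 0))) (hsr (χ (t 3))))
  have b4 := abs_le.mp (ab _ _ (hsr (χ (t 1))) (hsr (χ (t 2))))
  have b5 := abs_le.mp (ab _ _ (hsr (χ (t 1))) (hsr (χ (t 3))))
  have b6 := abs_le.mp (ab _ _ (hsr (χ (t 2))) (hsr (χ (t 3))))
  have c1 := abs_le.mp (hw (t 0) (t 1) (t 2) (t 3))
  have c2 := abs_le.mp (hw (t 0) (t 2) (t 1) (t 3))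
  have c3 := abs_le.mp (hw (t 0) (t 3) (t 1) (t 2))
  have c4 := abs_le.mp (hw (t 1) (t 2) (t 0) (t 3))
  have c5 := abs_le.mp (hw (t 1) (t 3) (t 0) (t 2))
  have c6 := abs_le.mp (hw (t 2) (t 3) (t 0) (t 1))
  unfold R4 q6
  rw [abs_le]
  constructor <;> linarith

theorem desc4_ge (n : ℕ) : (n : ℝ) ^ 4 - (n.descFactorial 4 : ℝ) ≤ 6 * (n : ℝ) ^ 3 := by
  rcases Nat.lt_or_ge n 4 with h | h
  · have h2 : (n : ℝ) ≤ 4 := by exact_mod_cast h.le
    have h3 : (0 : ℝ) ≤ (n.descFactorial 4 : ℝ) := Nat.cast_nonneg _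
    have h4 : (n : ℝ) ^ 4 ≤ 4 * (n : ℝ) ^ 3 := by
      have : (n : ℝ) ^ 4 = n * (n : ℝ) ^ 3 := by ring
      rw [this]
      exact mul_le_mul_of_nonneg_right h2 (by positivity)
    have h5 : (0 : ℝ) ≤ (n : ℝ) ^ 3 := by positivity
    linarith
  · obtain ⟨m, rfl⟩ := Nat.exists_eq_add_of_le h
    have e1 : ((4 + m).descFactorial 4 : ℝ) = (4 + m) * (3 + m) * (2 + m) * (1 + m) := by
      have h1 : (4 + m).descFactorial 4 = (4 + m) * (3 + m) * (2 + m) * (1 + m) := by
        rw [Nat.descFactorial_succ, Nat.descFactorial_succ, Nat.descFactorial_succ,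
          Nat.descFactorial_one]
        have a1 : 4 + m - 3 = 1 + m := by omega
        have a2 : 4 + m - 2 = 2 + m := by omega
        have a3 : 4 + m - 1 = 3 + m := by omega
        rw [a1, a2, a3]
        ring
      rw [h1]
      push_cast
      ring
    rw [e1]
    push_cast
    have hm : (0 : ℝ) ≤ m := Nat.cast_nonneg _
    nlinarith [pow_nonneg hm 2, pow_nonneg hm 3, pow_nonneg hm 4]

/-- The density of a reference structure without flips. -/
theorem dens_gir (χ : Fin n → Bool) (M : Fin n → Fin n → Bool) :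
    384 * ((gir χ M (fun _ => false) (fun _ => false)).card : ℝ) + 6 * ((n : ℝ) ^ 2 * dn χ ^ 2) +
      48 * c4s χ M ≤ 11 * (n : ℝ) ^ 4 + 420 * (n : ℝ) ^ 3 := by
  have h1 := sum4_inj (mE (gir χ M (fun _ => false) (fun _ => false)))
  rw [S4_mE _ (gir_card _ _ _ _)] at h1
  have h2 : ∑ t ∈ inj (Fin n) 4, R4 χ M t =
      384 * ((gir χ M (fun _ => false) (fun _ => false)).card : ℝ) := by
    have e1 : ∑ t ∈ inj (Fin n) 4, R4 χ M t = ∑ t ∈ inj (Fin n) 4, 16 *
        (((mE (gir χ M (fun _ => false) (fun _ => false)) (univ.image t)).toNat : ℤ) : ℝ) := by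
      refine Finset.sum_congr rfl fun t ht => ?_
      rw [← R4_eq χ M t (mem_inj.mp ht)]
      push_cast
      rfl
    rw [e1, ← Finset.mul_sum, h1]
    push_cast
    ring
  have h3 := sum_all_inj (R4 χ M) 70 (abs_R4_le χ M)
  rw [sum_R4, h2] at h3
  have h4 := (abs_le.mp h3).1
  have h5 := desc4_ge n
  have h6 : 0 ≤ dn χ ^ 4 := by positivity
  linarith

end dens

/-! ### The column of the law -/

/-- The even 4-graph is a reference structure without flips and of density almost `11 / 16`. -/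
def GirQ : C3 := fun η {n} _ E χ =>
  (∃ M : Fin n → Fin n → Bool, E = gir χ M (fun _ => false) (fun _ => false)) ∧
    11 / 16 - η ≤ e4 E

theorem monoW_gir : MonoW GirQ := by
  intro η η' h n H E χ hc
  exact ⟨hc.1, le_trans (by linarith) hc.2⟩

/-- The parameters of an almost extremal reference structure are small. -/
theorem gir_small (θ : ℝ) (hθ : 0 < θ) : ∃ η : ℝ, 0 < η ∧ ∃ N : ℕ, ∀ n : ℕ, N ≤ n →
    ∀ (χ : Fin n → Bool) (M : Fin n → Fin n → Bool),
    11 / 16 - η ≤ e4 (gir χ M (fun _ => false) (fun _ => false)) →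
    c4s χ M ≤ θ ^ 4 * (n : ℝ) ^ 4 ∧ |dn χ| ≤ θ * n := by
  set κ : ℝ := min (θ ^ 2) (θ ^ 4) with hκ
  have hκ0 : 0 < κ := lt_min (by positivity) (by positivity)
  obtain ⟨N, hN⟩ := exists_nat_gt (105 / κ)
  refine ⟨κ / 8, by positivity, max 1 N, fun n hn χ M hd => ?_⟩
  have hn1 : 1 ≤ n := le_trans (le_max_left _ _) hn
  have hnN : (N : ℝ) ≤ n := by exact_mod_cast le_trans (le_max_right _ _) hn
  have hn0 : (0 : ℝ) < n := by exact_mod_cast hn1
  have h1 : 105 / κ < n := lt_of_lt_of_le hN hnN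
  rw [div_lt_iff₀ hκ0] at h1
  have h2 := dens_gir χ M
  unfold e4 at hd
  rw [le_div_iff₀ (by positivity)] at hd
  have h3 : 420 * (n : ℝ) ^ 3 ≤ 4 * κ * (n : ℝ) ^ 4 := by
    have h4 := mul_le_mul_of_nonneg_right h1.le (by positivity : (0 : ℝ) ≤ 4 * (n : ℝ) ^ 3)
    have e : n * κ * (4 * (n : ℝ) ^ 3) = 4 * κ * (n : ℝ) ^ 4 := by ring
    rw [e] at h4
    linarith
  have h5 : 6 * ((n : ℝ) ^ 2 * dn χ ^ 2) + 48 * c4s χ M ≤ 6 * κ * (n : ℝ) ^ 4 := by
    have e : (11 / 16 - κ / 8) * (n : ℝ) ^ 4 = 11 / 16 * (n : ℝ) ^ 4 - κ * (n : ℝ) ^ 4 / 8 := by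
      ring
    rw [e] at hd
    linarith
  have h6 := c4s_nonneg χ M
  have h7 : 0 ≤ (n : ℝ) ^ 2 * dn χ ^ 2 := by positivity
  have hκ2 : κ ≤ θ ^ 2 := min_le_left _ _
  have hκ4 : κ ≤ θ ^ 4 := min_le_right _ _
  constructor
  · have h8 : κ * (n : ℝ) ^ 4 ≤ θ ^ 4 * (n : ℝ) ^ 4 :=
      mul_le_mul_of_nonneg_right hκ4 (by positivity)
    have h9 : 0 ≤ κ * (n : ℝ) ^ 4 := by positivity
    linarith
  · refine abs_le_of_sq_le_sq ?_ (by positivity)
    have h8 : (n : ℝ) ^ 2 * dn χ ^ 2 ≤ (n : ℝ) ^ 2 * (θ * n) ^ 2 := by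
      have h9 : κ * (n : ℝ) ^ 4 ≤ θ ^ 2 * (n : ℝ) ^ 4 :=
        mul_le_mul_of_nonneg_right hκ2 (by positivity)
      have e : (n : ℝ) ^ 2 * (θ * n) ^ 2 = θ ^ 2 * (n : ℝ) ^ 4 := by ring
      rw [e]
      linarith
    exact le_of_mul_le_mul_left h8 (by positivity)

theorem exists_bound (ψ : (Finset (Fin 6) → Bool) → (Fin 6 → Bool) → ℤ) :
    ∃ B : ℝ, 0 ≤ B ∧ ∀ e c, |((ψ e c : ℤ) : ℝ)| ≤ B := by
  have h := (Set.finite_range fun p : (Finset (Fin 6) → Bool) × (Fin 6 → Bool) =>
    |((ψ p.1 p.2 : ℤ) : ℝ)|).bddAbove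
  obtain ⟨b, hb⟩ := h
  refine ⟨max b 0, le_max_right _ _, fun e c => le_trans (hb ⟨(e, c), rfl⟩) (le_max_left _ _)⟩

/-- The average of a function of the windows is almost nonnegative if its sum with the weights of
the uniform law is nonnegative. -/
theorem goodW_law {P : ∀ n : ℕ, Finset (Finset (Fin n)) → Prop} {wp wm : ℕ} {L : List Psi3}
    {Q : C3} (hQ : ∀ (η : ℝ) {n : ℕ} (H E : Finset (Finset (Fin n))) (χ : Fin n → Bool),
      Q η H E χ → GirQ η H E χ)
    (ψ : (Finset (Fin 6) → Bool) → (Fin 6 → Bool) → ℤ) (hψ : 0 ≤ lawSum ψ) :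
    GoodW (CtW P wp wm L Q) (fun _ E χ t => ψ (zb E t) (fun i => χ (t i))) := by
  intro δ hδ
  obtain ⟨B, hB0, hB⟩ := exists_bound ψ
  set C : ℝ := 64 * ((4 * KW + 1) * B) with hC
  have hC0 : 0 ≤ C := by
    have := KW_nonneg
    rw [hC]
    exact mul_nonneg (by norm_num) (mul_nonneg (add_nonneg (mul_nonneg (by norm_num) this)
      zero_le_one) hB0)
  set θ : ℝ := δ / (2 * (C + 1)) with hθ
  have hθ0 : 0 < θ := by
    rw [hθ]
    positivity
  obtain ⟨η, hη, N, hN⟩ := gir_small θ hθ0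
  obtain ⟨N2, hN2⟩ := n5_aux (C := 15 * B) (δ := δ / 2) (by positivity)
  refine ⟨η, hη, max N N2, fun n hn H E χ hc => ?_⟩
  obtain ⟨⟨M, rfl⟩, hd⟩ := hQ η H E χ hc.q
  obtain ⟨h1, h2⟩ := hN n (le_trans (le_max_left _ _) hn) χ M hd
  have h3 := hN2 n (le_trans (le_max_right _ _) hn)
  have h4 := law_all χ M ψ B hB θ hθ0.le h1 h2
  have h5 := sum_all_inj (n := n) (k := 6)
    (fun t => ((ψ (eL (dt χ M t).1 (dt χ M t).2) (dt χ M t).1 : ℤ) : ℝ)) B (fun t => hB _ _)
  have h6 := desc6_ge n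
  have e1 : ∑ t ∈ inj (Fin n) 6,
      ((ψ (zb (gir χ M (fun _ => false) (fun _ => false)) t) (fun i => χ (t i)) : ℤ) : ℝ) =
      ∑ t ∈ inj (Fin n) 6, ((ψ (eL (dt χ M t).1 (dt χ M t).2) (dt χ M t).1 : ℤ) : ℝ) := by
    refine Finset.sum_congr rfl fun t ht => ?_
    rw [zb_eL χ M t (mem_inj.mp ht)]
    rfl
  rw [e1]
  have h7 := (abs_le.mp h4).1
  have h8 := (abs_le.mp h5).2
  have h9 : 64 * ((4 * KW + 1) * (B * (θ * (n : ℝ) ^ 6))) ≤ δ / 2 * (n : ℝ) ^ 6 := by
    have e2 : 64 * ((4 * KW + 1) * (B * (θ * (n : ℝ) ^ 6))) = (C * θ) * (n : ℝ) ^ 6 := by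
      rw [hC]
      ring
    rw [e2]
    refine mul_le_mul_of_nonneg_right ?_ (by positivity)
    rw [hθ, ← mul_div_assoc, div_le_div_iff₀ (by positivity) (by norm_num)]
    nlinarith
  have h10 : (0 : ℝ) ≤ (n : ℝ) ^ 6 / 1024 * ((lawSum ψ : ℤ) : ℝ) := by
    have : (0 : ℝ) ≤ ((lawSum ψ : ℤ) : ℝ) := by exact_mod_cast hψ
    positivity
  have h11 : B * ((n : ℝ) ^ 6 - (n.descFactorial 6 : ℝ)) ≤ 15 * B * (n : ℝ) ^ 5 := by
    have := mul_le_mul_of_nonneg_left h6 hB0
    linarith
  have e3 : -(δ * (n : ℝ) ^ 6) = -(δ / 2 * (n : ℝ) ^ 6) - δ / 2 * (n : ℝ) ^ 6 := by ring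
  rw [e3]
  linarith

/-! ### The theorem -/

/-- A window of a 4-graph without `K_5`. -/
def K5w (K : Finset (Fin 6) → Bool) : Prop :=
  (∀ S : Finset (Fin 6), S.card = 5 → ∃ T ∈ S.powersetCard 4, K T = false) ∧
    ∀ T : Finset (Fin 6), T.card ≠ 4 → K T = false

theorem k5w_zb {n : ℕ} (H : Finset (Finset (Fin n))) (h4 : ∀ e ∈ H, e.card = 4) (hK : K5F H)
    (t : Fin 6 → Fin n) (ht : Function.Injective t) : K5w (zb H t) := by
  have hz : ∀ T : Finset (Fin 6), zb H t T = decide (T.image t ∈ H) := by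
    intro T
    rw [zb_eq]
    rfl
  constructor
  · intro S hS
    obtain ⟨e, he, hne⟩ := hK (S.image t) (by rw [Finset.card_image_of_injective _ ht, hS])
    rw [Finset.mem_powersetCard] at he
    refine ⟨S.filter fun i => t i ∈ e, ?_, ?_⟩
    · rw [Finset.mem_powersetCard]
      refine ⟨Finset.filter_subset _ _, ?_⟩
      have h1 : (S.filter fun i => t i ∈ e).image t = e := by
        ext v
        rw [Finset.mem_image]
        constructor
        · rintro ⟨i, hi, rfl⟩
          exact (Finset.mem_filter.mp hi).2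
        · intro hv
          obtain ⟨i, hi, rfl⟩ := Finset.mem_image.mp (he.1 hv)
          exact ⟨i, Finset.mem_filter.mpr ⟨hi, hv⟩, rfl⟩
      rw [← he.2, ← Finset.card_image_of_injective _ ht, h1]
    · rw [hz, decide_eq_false_iff_not]
      have h1 : (S.filter fun i => t i ∈ e).image t = e := by
        ext v
        rw [Finset.mem_image]
        constructor
        · rintro ⟨i, hi, rfl⟩
          exact (Finset.mem_filter.mp hi).2
        · intro hv
          obtain ⟨i, hi, rfl⟩ := Finset.mem_image.mp (he.1 hv)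
          exact ⟨i, Finset.mem_filter.mpr ⟨hi, hv⟩, rfl⟩
      rw [h1]
      exact hne
  · intro T hT
    rw [hz, decide_eq_false_iff_not]
    intro h1
    exact hT (by rw [← h4 _ h1, Finset.card_image_of_injective _ ht])

/-- The theorem for almost extremal reference structures from the inequality on windows. -/
theorem tw_gir (wp wm N : ℕ) (hN : 0 < N)
    (v : (Finset (Fin 6) → Bool) → (Finset (Fin 6) → Bool) → (Fin 6 → Bool) → ℤ)
    (hv : GoodW (CtW (fun _ _ => True) wp wm [] GirQ)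
      (fun H E χ t => v (zb H t) (zb E t) (fun i => χ (t i))))
    (hrow : ∀ K : Finset (Fin 6) → Bool, K5w K → ∀ (c : Fin 6 → Bool) (z : Fin 6 → Fin 6 → Bool),
      v K (eL c z) c ≤ N * (165 - 16 * S4 K)) :
    TW (fun _ _ => True) wp wm [] GirQ := by
  refine tw_of_goodW N hN ?_
  refine hv.mono fun η n H E χ hc t ht => ?_
  obtain ⟨⟨M, rfl⟩, _⟩ := hc.q
  rw [zb_eL χ M t ht]
  exact hrow (zb H t) (k5w_zb H hc.h4 hc.k5 t ht) _ _

/-- The theorem for 4-graphs whose nearest even 4-graph is an almost extremal reference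
structure. -/
theorem prodE (h : TW (fun _ _ => True) 1 1 [] GirQ) :
    ∀ ε : ℝ, 0 < ε → ∃ δ : ℝ, 0 < δ ∧ ∃ N : ℕ, ∀ n : ℕ, N ≤ n →
      ∀ (H : Finset (Finset (Fin n))) (χ : Fin n → Bool) (M : Fin n → Fin n → Bool),
      (∀ e ∈ H, e.card = 4) →
      (∀ S : Finset (Fin n), S.card = 5 → ∃ e ∈ S.powersetCard 4, e ∉ H) →
      (∀ E' : Finset (Finset (Fin n)), (∀ e ∈ E', e.card = 4) → EvenH n E' →
        (symmDiff H (gir χ M (fun _ => false) (fun _ => false))).card ≤ (symmDiff H E').card) →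
      ((11 / 16 : ℝ) - δ) * ((n.choose 4 : ℕ) : ℝ) ≤
        ((gir χ M (fun _ => false) (fun _ => false)).card : ℝ) →
      (H.card : ℝ) ≤ ((11 / 16 : ℝ) + ε) * ((n.choose 4 : ℕ) : ℝ) := by
  intro ε hε
  obtain ⟨η, hη, N1, hN1⟩ := h (ε / 2) (by linarith)
  obtain ⟨N2, hN2⟩ := exists_nat_gt ((11 / 16 + ε) * 12 / ε)
  obtain ⟨N3, hN3⟩ := exists_nat_gt (9 / η)
  refine ⟨η / 2, by positivity, max (max 4 N1) (max N2 N3), fun n hn H χ M hH hK hopt hd => ?_⟩
  have hn4 : 4 ≤ n := le_trans (le_trans (le_max_left _ _) (le_max_left _ _)) hn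
  have hnN1 : N1 ≤ n := le_trans (le_trans (le_max_right _ _) (le_max_left _ _)) hn
  have hnN2 : (N2 : ℝ) ≤ n := by
    exact_mod_cast le_trans (le_trans (le_max_left _ _) (le_max_right _ _)) hn
  have hnN3 : (N3 : ℝ) ≤ n := by
    exact_mod_cast le_trans (le_trans (le_max_right _ _) (le_max_right _ _)) hn
  have hn0 : (0 : ℝ) < n := by exact_mod_cast (by omega : 0 < n)
  set E : Finset (Finset (Fin n)) := gir χ M (fun _ => false) (fun _ => false) with hE
  have hE4 : ∀ e ∈ E, e.card = 4 := gir_card _ _ _ _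
  have h6 := choose4_ge n hn4
  have key : e4 H ≤ 11 / 16 + ε / 2 := by
    by_contra hlt
    rw [not_le] at hlt
    have hO : OptE (wc 1 1) H E := by
      refine ⟨hE4, evenH_gir _ _ _ _, fun E' h4' hE' => ?_⟩
      have h7 := hopt E' h4' hE'
      have h8 : ((K8.cst (wc 1 1) H E : ℤ) : ℝ) ≤ ((K8.cst (wc 1 1) H E' : ℤ) : ℝ) := by
        rw [cst_one H E hH hE4, cst_one H E' hH h4']
        exact_mod_cast h7
      exact_mod_cast h8
    have hq : 11 / 16 - η ≤ e4 E := by
      unfold e4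
      rw [le_div_iff₀ (by positivity)]
      have h9 : 9 / η < n := lt_of_lt_of_le hN3 hnN3
      rw [div_lt_iff₀ hη] at h9
      have h10 : (11 / 16 - η / 2) * ((n : ℝ) ^ 4 / 24 - (n : ℝ) ^ 3 / 4) ≤
          (11 / 16 - η / 2) * ((n.choose 4 : ℕ) : ℝ) ∨ 11 / 16 - η / 2 < 0 := by
        by_cases h11 : 0 ≤ 11 / 16 - η / 2
        · exact Or.inl (mul_le_mul_of_nonneg_left h6 h11)
        · exact Or.inr (not_le.mp h11)
      have hE0 : (0 : ℝ) ≤ (E.card : ℝ) := Nat.cast_nonneg _
      rcases h10 with h10 | h10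
      · have h12 : 9 * (n : ℝ) ^ 3 ≤ n * η * (n : ℝ) ^ 3 :=
          mul_le_mul_of_nonneg_right h9.le (by positivity)
        have e : n * η * (n : ℝ) ^ 3 = η * (n : ℝ) ^ 4 := by ring
        rw [e] at h12
        have h13 : 0 ≤ η * (n : ℝ) ^ 3 := by positivity
        nlinarith
      · have h14 : (11 / 16 - η) * (n : ℝ) ^ 4 ≤ 0 := by
          have : 11 / 16 - η ≤ 0 := by linarith
          exact mul_nonpos_of_nonpos_of_nonneg this (by positivity)
        linarith
    have := hN1 n hnN1 H E χ ⟨hH, hK, trivial, by linarith, hO,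
      fun ψ hψ => absurd hψ (List.not_mem_nil), ⟨⟨M, hE⟩, hq⟩⟩
    linarith
  unfold e4 at key
  rw [div_le_iff₀ (by positivity)] at key
  have h7 : (11 / 16 + ε) * 12 / ε < n := lt_of_lt_of_le hN2 hnN2
  rw [div_lt_iff₀ hε] at h7
  have h8 : (11 / 16 + ε) * ((n : ℝ) ^ 4 / 24 - (n : ℝ) ^ 3 / 4) ≤
      (11 / 16 + ε) * ((n.choose 4 : ℕ) : ℝ) := mul_le_mul_of_nonneg_left h6 (by linarith)
  have h9 : (11 / 16 + ε) * 12 * (n : ℝ) ^ 3 ≤ n * ε * (n : ℝ) ^ 3 :=
    mul_le_mul_of_nonneg_right h7.le (by positivity)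
  have h10 : n * ε * (n : ℝ) ^ 3 = ε * (n : ℝ) ^ 4 := by ring
  rw [h10] at h9
  have h11 : (H.card : ℝ) ≤ (11 / 16 + ε / 2) * ((n : ℝ) ^ 4 / 24) := by linarith
  nlinarith

end Pool.Agent.Lib.MP_afdd4d_co.K9.Star.Tw
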