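import Pool.Agent.Lib.MP_afdd4d_co.K9.TwT1

/-!
# Pointed colourings and columns of the colouring

The local inequalities about pointed colourings, with an arbitrary rule for the colouring, an
arbitrary function of the even 4-graph and of the colours on six vertices, and an additive constant.
-/

namespace Pool.Agent.Lib.MP_afdd4d_co.K9.Star.Tw

open Finset K8
open Pool.Agent.Lib.MP_afdd4d_co.K9.Marks

/-- A rule for the colouring of a pointed 4-graph. -/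
abbrev CRule : Type := ∀ {n : ℕ}, Finset (Finset (Fin n)) → Fin n → Fin n → Bool

/-- The local inequality about links and colourings for a general function. -/
def PtRowG (κ : CRule) (Ψ : (Finset (Fin 6) → Bool) → (Fin 6 → Bool) → ℤ)
    (h : (Finset (Fin 6) → Bool) → ℤ) (Z : FunP) : Prop :=
  ∀ (n : ℕ) (E : Finset (Finset (Fin n))), (∀ e ∈ E, e.card = 4) → EvenH n E → ∀ (r : Fin n)
    (x : Fin 6 → Fin n), Function.Injective x → (∀ i, x i ≠ r) →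
    Z E r x + Ψ (zb E x) (fun i => κ E r (x i)) ≤ h (zb (Lk E r) x)

/-- The column of a function of the even 4-graph and of the colours. -/
def colP (a k : ℕ) (Ψ : (Finset (Fin 6) → Bool) → (Fin 6 → Bool) → ℤ) : Psi3 := fun _ r x =>
  7 * a * (165 - 16 * S4 r) + 3 * k - 21 * Ψ r x

section key
variable {n : ℕ}

theorem PP43_eq (n : ℕ) : PP n 4 3 = PP n 4 2 * ((n : ℝ) - 6) := by
  unfold PP
  rw [Finset.prod_range_succ]
  congr 1
  push_cast
  ring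

theorem desc7_eq (n : ℕ) (hn : 7 ≤ n) :
    (n.descFactorial 7 : ℝ) = (n.descFactorial 6 : ℝ) * ((n : ℝ) - 6) := by
  have h1 : n.descFactorial 7 = (n - 6) * n.descFactorial 6 := Nat.descFactorial_succ n 6
  have h2 : ((n - 6 : ℕ) : ℝ) = (n : ℝ) - 6 := by
    rw [Nat.cast_sub (by omega)]
    norm_num
  rw [h1]
  push_cast
  rw [h2]
  ring

/-- The sum of a seven-point function with an inequality on eight-tuples. -/
theorem sum7_ge (κ6 : Kern 6) (W : ∀ {n : ℕ}, Finset (Finset (Fin n)) → (Fin 7 → Fin n) → ℤ)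
    (hB : BRow κ6 (fun {_} => W)) (hn : 8 ≤ n) (E : Finset (Finset (Fin n)))
    (h4 : ∀ e ∈ E, e.card = 4) (hE : EvenH n E) :
    -(3136 * |κ6.C| * (n : ℝ) ^ 6) ≤ ∑ s ∈ inj (Fin n) 7, ((W E s : ℤ) : ℝ) := by
  have hn0 : (8 : ℝ) ≤ n := by exact_mod_cast hn
  have e1 : ∑ t ∈ inj (Fin n) 8, ((DS (m := 7) (W E) t : ℤ) : ℝ) =
      8 * ((n : ℝ) - 7) * ∑ s ∈ inj (Fin n) 7, ((W E s : ℤ) : ℝ) := by
    have e2 : ∀ t : Fin 8 → Fin n, ((DS (m := 7) (W E) t : ℤ) : ℝ) =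
        ∑ x : Fin (7 + 1), ((W E (t ∘ x.succAbove) : ℤ) : ℝ) := by
      intro t
      unfold DS
      rw [Int.cast_sum]
    rw [Finset.sum_congr rfl fun t _ => e2 t, Finset.sum_comm]
    have e3 : ∀ x : Fin (7 + 1), ∑ t ∈ inj (Fin n) 8,
        ((W E (t ∘ x.succAbove) : ℤ) : ℝ) =
        ((n : ℝ) - 7) * ∑ s ∈ inj (Fin n) 7, ((W E s : ℤ) : ℝ) := by
      intro x
      have h1 := sum_inj_ins (V := Fin n) (m := 7) x (fun _ s => ((W E s : ℤ) : ℝ))
      refine h1.trans ?_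
      have h2 : ∀ p ∈ inj (Fin n) 7, ∑ r ∈ (univ.image p)ᶜ, ((W E p : ℤ) : ℝ) =
          ((n : ℝ) - 7) * ((W E p : ℤ) : ℝ) := by
        intro p hp
        rw [Finset.sum_const, nsmul_eq_mul, card_compl_image p (mem_inj.mp hp),
          Fintype.card_fin]
        push_cast
        ring
      rw [Finset.sum_congr rfl h2, ← Finset.mul_sum]
    rw [Finset.sum_congr rfl fun x _ => e3 x, Finset.sum_const, Finset.card_univ,
      Fintype.card_fin, nsmul_eq_mul]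
    push_cast
    ring
  have e4 : -(56 * |κ6.C| * D8 n) ≤ ∑ t ∈ inj (Fin n) 8,
      ((DS (m := 7) (W E) t : ℤ) : ℝ) := by
    have h2 := PS_inj_ge (V := Fin n) (k := 6) 0 (fun s u w => ((κ6.f E s u w : ℤ) : ℝ)) κ6.C
      (κ6.psd E) (κ6.bd E) id Function.injective_id
    have e3 : ∀ t : Fin 8 → Fin n, ((PS (k := 6) (κ6.f E) t : ℤ) : ℝ) =
        PS (k := 6) (fun s u w => ((κ6.f E s u w : ℤ) : ℝ)) t := fun t => cast_PS _ t
    have h3 : -(56 * κ6.C * D8 n) ≤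
        ∑ t ∈ inj (Fin n) 8, ((PS (k := 6) (κ6.f E) t : ℤ) : ℝ) := by
      rw [Finset.sum_congr rfl fun t _ => e3 t]
      rw [Fintype.card_fin] at h2
      refine le_trans (le_of_eq ?_) h2
      unfold D8
      norm_num
    have h4' : ∑ t ∈ inj (Fin n) 8, ((PS (k := 6) (κ6.f E) t : ℤ) : ℝ) ≤
        ∑ t ∈ inj (Fin n) 8, ((DS (m := 7) (W E) t : ℤ) : ℝ) := by
      refine Finset.sum_le_sum fun t ht => ?_
      exact_mod_cast hB n E h4 hE t (mem_inj.mp ht)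
    have h5 : κ6.C * D8 n ≤ |κ6.C| * D8 n :=
      mul_le_mul_of_nonneg_right (le_abs_self _) (D8_nonneg n)
    linarith
  set T : ℝ := ∑ s ∈ inj (Fin n) 7, ((W E s : ℤ) : ℝ) with hT
  rw [e1] at e4
  by_contra hlt
  push Not at hlt
  have h1 : T ≤ 0 := by
    have : 0 ≤ 3136 * |κ6.C| * (n : ℝ) ^ 6 := by positivity
    linarith
  have h2 : 8 * ((n : ℝ) - 7) * T ≤ n * T := by
    have h3 : (n : ℝ) ≤ 8 * ((n : ℝ) - 7) := by linarith
    exact mul_le_mul_of_nonpos_right h3 h1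
  have h3 : (n : ℝ) * T < n * -(3136 * |κ6.C| * (n : ℝ) ^ 6) :=
    mul_lt_mul_of_pos_left hlt (by linarith)
  have h4 := mul_le_mul_of_nonneg_left (D8_le n) (by positivity : 0 ≤ 56 * |κ6.C|)
  have h5 : (n : ℝ) * -(3136 * |κ6.C| * (n : ℝ) ^ 6) =
      -(56 * |κ6.C| * (56 * (n : ℝ) ^ 7)) := by ring
  rw [h5] at h3
  linarith

end key

/-- A colouring with a nonnegative column from the rows about pointed colourings. -/
theorem exists_colP (a k : ℕ) (κ : CRule) (Ψ : (Finset (Fin 6) → Bool) → (Fin 6 → Bool) → ℤ)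
    (KΨ : ℝ) (hK0 : 0 ≤ KΨ) (hΨ : ∀ e c, ((Ψ e c : ℤ) : ℝ) ≤ KΨ)
    (h : (Finset (Fin 6) → Bool) → ℤ) (Z : FunP) (B : ℝ) (hB0 : 0 ≤ B)
    (hZB : ∀ {n : ℕ} (E : Finset (Finset (Fin n))) (r : Fin n) (x : Fin 6 → Fin n),
      ((Z E r x : ℤ) : ℝ) ≤ B) (hZ : PG Z) (hrow : PtRowG κ Ψ h Z) (κ6 : Kern 6)
    (hB : BRow κ6 (fun {_} E s => W7 a h E s + k)) :
    ∃ K : ℝ, 0 ≤ K ∧ ∀ n : ℕ, 8 ≤ n → ∀ E : Finset (Finset (Fin n)), (∀ e ∈ E, e.card = 4) →
      EvenH n E → ∃ χ : Fin n → Bool, ∀ H : Finset (Finset (Fin n)),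
        -(K * (n : ℝ) ^ 5) ≤ ∑ t ∈ inj (Fin n) 6,
          ((colP a k Ψ (zb H t) (zb E t) (fun i => χ (t i)) : ℤ) : ℝ) := by
  obtain ⟨C, hC, hZ⟩ := hZ
  have ha' : (0 : ℝ) ≤ a := Nat.cast_nonneg _
  have hk' : (0 : ℝ) ≤ k := Nat.cast_nonneg _
  set G : ℝ := B + KΨ with hG
  have hG0 : 0 ≤ G := by positivity
  set K1 : ℝ := 3136 * |κ6.C| with hK1
  have hK10 : 0 ≤ K1 := by positivity
  refine ⟨10080 * a + 3 * (7 * C + 42 * G + K1), by positivity, fun n hn E h4 hE => ?_⟩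
  have hn0 : (8 : ℝ) ≤ n := by exact_mod_cast hn
  have hnp : (0 : ℝ) < n := by linarith
  -- the sum of the function of seven vertices
  have e5 := sum7_ge κ6 (fun {_} E s => W7 a h E s + k) hB hn E h4 hE
  have e6 : ∑ s ∈ inj (Fin n) 7, ((W7 a h E s + k : ℤ) : ℝ) =
      a * (385 * (n.descFactorial 7 : ℝ) - 13440 * PP n 4 3 * (E.card : ℝ)) +
      k * (n.descFactorial 7 : ℝ) -
      7 * ∑ r : Fin n, ∑ x ∈ (inj (Fin n) 6).filter (fun x => r ∉ univ.image x),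
        ((h (zb (Lk E r) x) : ℤ) : ℝ) := by
    rw [← sum_pot]
    have h1 : ∀ s ∈ inj (Fin n) 7, ((W7 a h E s + k : ℤ) : ℝ) =
        (385 * a + k : ℝ) - 16 * a * ((S4 (zb E s) : ℤ) : ℝ) -
        ∑ v : Fin 7, ((h (zb (Lk E (s v)) (s ∘ v.succAbove)) : ℤ) : ℝ) := by
      intro s _
      unfold W7
      push_cast
      ring
    rw [Finset.sum_congr rfl h1, Finset.sum_sub_distrib, Finset.sum_sub_distrib,
      ← Finset.mul_sum (inj (Fin n) 7) (fun s => ((S4 (zb E s) : ℤ) : ℝ)) (16 * (a : ℝ)),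
      sum7_S4, S4_mE E h4, Finset.sum_const, nsmul_eq_mul, card_inj, Fintype.card_fin]
    push_cast
    ring
  -- lower bound for the potentials
  set V : Fin n → ℝ := fun r => ∑ x ∈ inj (Fin n) 6,
    ((Ψ (zb E x) (fun i => κ E r (x i)) : ℤ) : ℝ) with hV
  have e7 : ∀ r : Fin n, -((C + 6 * G) * (n : ℝ) ^ 5) + V r ≤
      ∑ x ∈ (inj (Fin n) 6).filter (fun x => r ∉ univ.image x),
        ((h (zb (Lk E r) x) : ℤ) : ℝ) := by
    intro r
    have h1 : ∑ x ∈ (inj (Fin n) 6).filter (fun x => r ∉ univ.image x),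
        (((Z E r x : ℤ) : ℝ) + ((Ψ (zb E x) (fun i => κ E r (x i)) : ℤ) : ℝ)) ≤
        ∑ x ∈ (inj (Fin n) 6).filter (fun x => r ∉ univ.image x),
        ((h (zb (Lk E r) x) : ℤ) : ℝ) := by
      refine Finset.sum_le_sum fun x hx => ?_
      rw [Finset.mem_filter, mem_inj] at hx
      have h2 := hrow n E h4 hE r x hx.1 fun i hi => hx.2 (by
        rw [← hi]; exact Finset.mem_image_of_mem x (Finset.mem_univ i))
      exact_mod_cast h2
    have h2 : ∑ x ∈ (inj (Fin n) 6).filter (fun x => r ∉ univ.image x),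
        (((Z E r x : ℤ) : ℝ) + ((Ψ (zb E x) (fun i => κ E r (x i)) : ℤ) : ℝ)) =
        ∑ x ∈ inj (Fin n) 6, (((Z E r x : ℤ) : ℝ) +
          ((Ψ (zb E x) (fun i => κ E r (x i)) : ℤ) : ℝ)) -
        ∑ x ∈ (inj (Fin n) 6).filter (fun x => r ∈ univ.image x),
        (((Z E r x : ℤ) : ℝ) + ((Ψ (zb E x) (fun i => κ E r (x i)) : ℤ) : ℝ)) := by
      have h3 := Finset.sum_filter_add_sum_filter_not (inj (Fin n) 6)
        (fun x => r ∈ univ.image x)
        (fun x => ((Z E r x : ℤ) : ℝ) + ((Ψ (zb E x) (fun i => κ E r (x i)) : ℤ) : ℝ))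
      linarith
    have h3 : ∑ x ∈ (inj (Fin n) 6).filter (fun x => r ∈ univ.image x),
        (((Z E r x : ℤ) : ℝ) + ((Ψ (zb E x) (fun i => κ E r (x i)) : ℤ) : ℝ)) ≤
        G * (6 * (n : ℝ) ^ 5) := by
      calc ∑ x ∈ (inj (Fin n) 6).filter (fun x => r ∈ univ.image x),
          (((Z E r x : ℤ) : ℝ) + ((Ψ (zb E x) (fun i => κ E r (x i)) : ℤ) : ℝ)) ≤
          ∑ _x ∈ (inj (Fin n) 6).filter (fun x => r ∈ univ.image x), G := by
            refine Finset.sum_le_sum fun x _ => ?_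
            have h4 := hZB E r x
            have h5 := hΨ (zb E x) (fun i => κ E r (x i))
            rw [hG]
            linarith
        _ = G * (((inj (Fin n) 6).filter (fun x => r ∈ univ.image x)).card : ℝ) := by
            rw [Finset.sum_const, nsmul_eq_mul]
            ring
        _ ≤ G * (6 * (n : ℝ) ^ 5) := mul_le_mul_of_nonneg_left (card_mem6 r) hG0
    have h4' := hZ n E h4 hE r
    rw [h2, Finset.sum_add_distrib] at h1
    have h7 : (C + 6 * G) * (n : ℝ) ^ 5 = C * (n : ℝ) ^ 5 + G * (6 * (n : ℝ) ^ 5) := by ring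
    rw [h7]
    show -(C * (n : ℝ) ^ 5 + G * (6 * (n : ℝ) ^ 5)) + ∑ x ∈ inj (Fin n) 6,
      ((Ψ (zb E x) (fun i => κ E r (x i)) : ℤ) : ℝ) ≤ _
    linarith
  -- the best vertex
  have hne : (univ : Finset (Fin n)).Nonempty := ⟨⟨0, by omega⟩, Finset.mem_univ _⟩
  obtain ⟨r, _, hr⟩ := Finset.exists_min_image (univ : Finset (Fin n)) V hne
  refine ⟨κ E r, fun H => ?_⟩
  have h1 : (n : ℝ) * V r ≤ ∑ r' : Fin n, V r' := by
    calc (n : ℝ) * V r = ∑ _r' : Fin n, V r := by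
          rw [Finset.sum_const, Finset.card_univ, Fintype.card_fin, nsmul_eq_mul]
      _ ≤ ∑ r' : Fin n, V r' := Finset.sum_le_sum fun r' hr' => hr r' hr'
  have h2 : ∑ r' : Fin n, (-((C + 6 * G) * (n : ℝ) ^ 5) + V r') ≤
      ∑ r' : Fin n, ∑ x ∈ (inj (Fin n) 6).filter (fun x => r' ∉ univ.image x),
        ((h (zb (Lk E r') x) : ℤ) : ℝ) := Finset.sum_le_sum fun r' _ => e7 r'
  rw [Finset.sum_add_distrib, Finset.sum_const, Finset.card_univ, Fintype.card_fin,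
    nsmul_eq_mul] at h2
  have e5' : -(K1 * (n : ℝ) ^ 6) ≤
      a * (385 * (n.descFactorial 7 : ℝ) - 13440 * PP n 4 3 * (E.card : ℝ)) +
      k * (n.descFactorial 7 : ℝ) -
      7 * ∑ r : Fin n, ∑ x ∈ (inj (Fin n) 6).filter (fun x => r ∉ univ.image x),
        ((h (zb (Lk E r) x) : ℤ) : ℝ) := by
    rw [← e6]
    exact e5
  have h3 : (n : ℝ) * -((C + 6 * G) * (n : ℝ) ^ 5) = -((C + 6 * G) * (n : ℝ) ^ 6) := by ring
  rw [h3] at h2
  have key : 7 * ((n : ℝ) * V r) ≤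
      a * (385 * (n.descFactorial 7 : ℝ) - 13440 * PP n 4 3 * (E.card : ℝ)) +
      k * (n.descFactorial 7 : ℝ) + (7 * C + 42 * G + K1) * (n : ℝ) ^ 6 := by
    have h5 : (7 * C + 42 * G + K1) * (n : ℝ) ^ 6 = 7 * ((C + 6 * G) * (n : ℝ) ^ 6) +
      K1 * (n : ℝ) ^ 6 := by ring
    rw [h5]
    linarith
  rw [desc7_eq n (by omega), PP43_eq] at key
  -- the sum of the column
  have s1 : ∑ t ∈ inj (Fin n) 6,
      ((colP a k Ψ (zb H t) (zb E t) (fun i => κ E r (t i)) : ℤ) : ℝ) =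
      7 * a * (165 * (n.descFactorial 6 : ℝ) - 16 * (360 * (PP n 4 2 * (E.card : ℝ)))) +
      3 * k * (n.descFactorial 6 : ℝ) - 21 * V r := by
    rw [← sum_colR_eq E h4]
    have h5 : ∀ t : Fin 6 → Fin n,
        ((colP a k Ψ (zb H t) (zb E t) (fun i => κ E r (t i)) : ℤ) : ℝ) =
        7 * a * ((colR (zb E t) : ℤ) : ℝ) + 3 * k -
          21 * ((Ψ (zb E t) (fun i => κ E r (t i)) : ℤ) : ℝ) := by
      intro t
      unfold colP colR
      push_cast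
      ring
    have h6 : V r = ∑ x ∈ inj (Fin n) 6,
      ((Ψ (zb E x) (fun i => κ E r (x i)) : ℤ) : ℝ) := rfl
    rw [Finset.sum_congr rfl fun t _ => h5 t, Finset.sum_sub_distrib, Finset.sum_add_distrib,
      ← Finset.mul_sum, ← Finset.mul_sum (inj (Fin n) 6)
        (fun t => ((Ψ (zb E t) (fun i => κ E r (t i)) : ℤ) : ℝ)) 21, ← h6,
      Finset.sum_const, nsmul_eq_mul, card_inj, Fintype.card_fin]
    ring
  rw [s1]
  have hE1 := card_quads_le E h4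
  have hE0 : (0 : ℝ) ≤ (E.card : ℝ) := Nat.cast_nonneg _
  set e : ℝ := (E.card : ℝ) with he
  set d6 : ℝ := (n.descFactorial 6 : ℝ) with hd6
  have hd60 : 0 ≤ d6 := Nat.cast_nonneg _
  set p : ℝ := PP n 4 2 with hp
  have hp1 : p ≤ (n : ℝ) ^ 2 := by
    rw [hp]
    unfold PP
    rw [Finset.prod_range_succ, Finset.prod_range_succ, Finset.prod_range_zero]
    push_cast
    nlinarith
  have hp2 : p * e ≤ (n : ℝ) ^ 6 / 24 := by
    calc p * e ≤ (n : ℝ) ^ 2 * e := mul_le_mul_of_nonneg_right hp1 hE0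
      _ ≤ (n : ℝ) ^ 2 * ((n : ℝ) ^ 4 / 24) := mul_le_mul_of_nonneg_left hE1 (by positivity)
      _ = (n : ℝ) ^ 6 / 24 := by ring
  set K2 : ℝ := 7 * C + 42 * G + K1 with hK2
  have fin : (n : ℝ) * -((10080 * a + 3 * K2) * (n : ℝ) ^ 5) ≤
      n * (7 * a * (165 * d6 - 16 * (360 * (p * e))) + 3 * k * d6 - 21 * V r) := by
    have e1 : (n : ℝ) * -((10080 * a + 3 * K2) * (n : ℝ) ^ 5) =
        -(10080 * (a * (n : ℝ) ^ 6)) - 3 * (K2 * (n : ℝ) ^ 6) := by ring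
    have e2 : (n : ℝ) * (7 * a * (165 * d6 - 16 * (360 * (p * e))) + 3 * k * d6 - 21 * V r) =
        3 * (a * (385 * (d6 * (n - 6)) - 13440 * (p * (n - 6)) * e) + k * (d6 * (n - 6))) +
        6930 * (a * d6) - 241920 * (a * (p * e)) + 18 * (k * d6) - 3 * (7 * (n * V r)) := by ring
    have c1 := mul_le_mul_of_nonneg_left hp2 ha'
    have c2 : 0 ≤ (a : ℝ) * d6 := mul_nonneg ha' hd60
    have c3 : 0 ≤ (k : ℝ) * d6 := mul_nonneg hk' hd60
    have c4 : (a : ℝ) * ((n : ℝ) ^ 6 / 24) = a * (n : ℝ) ^ 6 / 24 := by ring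
    rw [c4] at c1
    rw [e1, e2]
    linarith
  exact le_of_mul_le_mul_left fin hnp

/-- The column of the pointed colourings. -/
theorem t1L_of_pt (P : ∀ n : ℕ, Finset (Finset (Fin n)) → Prop) (wp wm : ℕ) (a k : ℕ) (κ : CRule)
    (Ψ : (Finset (Fin 6) → Bool) → (Fin 6 → Bool) → ℤ)
    (KΨ : ℝ) (hK0 : 0 ≤ KΨ) (hΨ : ∀ e c, ((Ψ e c : ℤ) : ℝ) ≤ KΨ)
    (h : (Finset (Fin 6) → Bool) → ℤ) (Z : FunP) (B : ℝ) (hB0 : 0 ≤ B)
    (hZB : ∀ {n : ℕ} (E : Finset (Finset (Fin n))) (r : Fin n) (x : Fin 6 → Fin n),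
      ((Z E r x : ℤ) : ℝ) ≤ B) (hZ : PG Z) (hrow : PtRowG κ Ψ h Z) (κ6 : Kern 6)
    (hB : BRow κ6 (fun {_} E s => W7 a h E s + k)) : T1L P wp wm [colP a k Ψ] := by
  obtain ⟨K, hK, hKn⟩ := exists_colP a k κ Ψ KΨ hK0 hΨ h Z B hB0 hZB hZ hrow κ6 hB
  intro η hη
  obtain ⟨N, hN⟩ := n5_aux (C := K) hη
  refine ⟨max 8 N, fun n hn H E h4 _ _ _ hO => ?_⟩
  obtain ⟨χ, hχ⟩ := hKn n (le_trans (le_max_left _ _) hn) E hO.1 hO.2.1
  refine ⟨χ, fun ψ hψ => ?_⟩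
  rw [List.mem_singleton] at hψ
  subst hψ
  have h1 := hN n (le_trans (le_max_right _ _) hn)
  have h2 := hχ H
  linarith

end Pool.Agent.Lib.MP_afdd4d_co.K9.Star.Tw
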