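import Pool.Agent.Lib.MP_afdd4d_co.K9.TwBoth
import Pool.Agent.Lib.MP_afdd4d_co.K9.TwPt

/-!
# Closeness and columns for the nearest reference structure

Functions of the even 4-graph and of the colours that bound the distance to the reference structures,
closeness and columns for the reference structure of smallest cost from a bound of such a function.
-/

namespace Pool.Agent.Lib.MP_afdd4d_co.K9.Star.Tw

open Finset K8
open Pool.Agent.Lib.MP_afdd4d_co.K9.Marks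

/-- Functions of the even 4-graph and of the colours on a window. -/
abbrev Psi2 : Type := (Finset (Fin 6) → Bool) → (Fin 6 → Bool) → ℤ

/-- The average of the function bounds the distance to the reference structures with the given
colours, if the imbalance is at most `s`. -/
def DistF (Ξ : Psi2) (T s : ℝ) : Prop :=
  ∀ η : ℝ, 0 < η → ∃ N : ℕ, ∀ n : ℕ, N ≤ n → ∀ (E : Finset (Finset (Fin n))) (χ : Fin n → Bool),
    (∀ e ∈ E, e.card = 4) → EvenH n E → sg2 χ ≤ s ^ 2 → ∃ M f g,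
    T * X4 E (gir χ M f g) * (n : ℝ) ^ 6 ≤
      ∑ t ∈ inj (Fin n) 6, ((Ξ (zb E t) (fun i => χ (t i)) : ℤ) : ℝ) + η * (n : ℝ) ^ 6

/-- The defects. -/
theorem distF_o5 (b : ℕ) (T s : ℝ) (hT : 0 ≤ T) (hs0 : 0 < s) (hs1 : s < 1)
    (h : (5 + s) * T ≤ 180 * b * (1 - s ^ 2)) : DistF (fun r x => b * o5 r x) T s := by
  intro η hη
  have hs2 : 0 < 1 - s ^ 2 := by nlinarith
  obtain ⟨N1, hN1⟩ := n5_aux (C := 3600 * (b : ℝ)) (half_pos hη)
  obtain ⟨N2, hN2⟩ := exists_nat_gt (16 * T / (1 - s ^ 2) / η)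
  refine ⟨max 1 (max N1 N2), fun n hn E χ h4 hEv hs => ?_⟩
  have hn1 : 1 ≤ n := le_trans (le_max_left _ _) hn
  have hn2 : N1 ≤ n := le_trans (le_trans (le_max_left _ _) (le_max_right _ _)) hn
  have hn3 : N2 ≤ n := le_trans (le_trans (le_max_right _ _) (le_max_right _ _)) hn
  have hn0 : (0 : ℝ) < n := by exact_mod_cast hn1
  have hn6 : (0 : ℝ) < (n : ℝ) ^ 6 := by positivity
  obtain ⟨M, f, g, h10⟩ := exists_near_XW E h4 hEv χ hn1
  refine ⟨M, f, g, ?_⟩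
  have hX0 : 0 ≤ XW E χ := by
    unfold XW
    have : (0 : ℝ) ≤ ((XW5 (mE E) χ : ℤ) : ℝ) := by exact_mod_cast XW5_nonneg _ _
    positivity
  have hG0 : 0 ≤ X4 E (gir χ M f g) := by unfold X4; positivity
  have h9 := abs_le_of_sg2 χ hn1 hs0.le hs
  have h13 : (1 - s ^ 2) * X4 E (gir χ M f g) ≤ (5 + s) * XW E χ + 8 / n := by
    have h14 : (1 - s ^ 2) * X4 E (gir χ M f g) ≤ (1 - sg2 χ) * X4 E (gir χ M f g) :=
      mul_le_mul_of_nonneg_right (by linarith) hG0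
    have h15 : (5 + |(nc χ false : ℝ) - nc χ true| / n) * XW E χ ≤ (5 + s) * XW E χ :=
      mul_le_mul_of_nonneg_right (by linarith) hX0
    linarith
  have k2 : 8 * T / (1 - s ^ 2) / n ≤ η / 2 := by
    have h5 : 16 * T / (1 - s ^ 2) / η < n := lt_of_lt_of_le hN2 (by exact_mod_cast hn3)
    rw [div_lt_iff₀ hη] at h5
    rw [div_le_iff₀ hn0]
    have e1 : 16 * T / (1 - s ^ 2) = 2 * (8 * T / (1 - s ^ 2)) := by ring
    rw [e1] at h5
    linarith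
  have h16 : T * X4 E (gir χ M f g) ≤ 180 * b * XW E χ + 8 * T / (1 - s ^ 2) / n := by
    have h17 : (1 - s ^ 2) * (T * X4 E (gir χ M f g)) ≤
        (1 - s ^ 2) * (180 * b * XW E χ + 8 * T / (1 - s ^ 2) / n) := by
      have e1 : (1 - s ^ 2) * (180 * b * XW E χ + 8 * T / (1 - s ^ 2) / n) =
          180 * b * (1 - s ^ 2) * XW E χ + T * (8 / n) := by
        field_simp
      rw [e1]
      have h18 := mul_le_mul_of_nonneg_left h13 hT
      have h19 : (5 + s) * T * XW E χ ≤ 180 * b * (1 - s ^ 2) * XW E χ :=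
        mul_le_mul_of_nonneg_right h hX0
      have e2 : T * ((5 + s) * XW E χ + 8 / n) =
          (5 + s) * T * XW E χ + T * (8 / n) := by ring
      rw [e2] at h18
      linarith
    exact le_of_mul_le_mul_left h17 hs2
  have e3 : ∑ t ∈ inj (Fin n) 6, ((b * o5 (zb E t) (fun i => χ (t i)) : ℤ) : ℝ) =
      b * ∑ t ∈ inj (Fin n) 6, ((o5 (zb E t) (fun i => χ (t i)) : ℤ) : ℝ) := by
    rw [Finset.mul_sum]
    refine Finset.sum_congr rfl fun t _ => ?_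
    push_cast
    ring
  rw [e3]
  have h2 := mul_le_mul_of_nonneg_left (sum6_o5_ge E χ hn1) (Nat.cast_nonneg (α := ℝ) b)
  have h20 : T * X4 E (gir χ M f g) * (n : ℝ) ^ 6 ≤ (180 * b * XW E χ + η / 2) * (n : ℝ) ^ 6 :=
    mul_le_mul_of_nonneg_right (by linarith) hn6.le
  have h21 := hN1 n hn2
  have e4 : (b : ℝ) * ((n : ℝ) ^ 6 * (180 * XW E χ) - 3600 * (n : ℝ) ^ 5) =
      180 * b * XW E χ * (n : ℝ) ^ 6 - 3600 * b * (n : ℝ) ^ 5 := by ring
  rw [e4] at h2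
  linarith

/-- The errors. -/
theorem distF_f6 (b : ℕ) (T s : ℝ) (hT : 0 ≤ T) (hs0 : 0 < s) (hs1 : s < 1)
    (h : 4 * T ≤ b * (1 - s ^ 2)) : DistF (fun r x => b * f6 r x id) T s := by
  intro η hη
  have hs2 : 0 < 1 - s ^ 2 := by nlinarith
  obtain ⟨N2, hN2⟩ := exists_nat_gt (8 * T / (1 - s ^ 2) / η)
  refine ⟨max 1 N2, fun n hn E χ h4 hEv hs => ?_⟩
  have hn1 : 1 ≤ n := le_trans (le_max_left _ _) hn
  have hn3 : N2 ≤ n := le_trans (le_max_right _ _) hn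
  have hn0 : (0 : ℝ) < n := by exact_mod_cast hn1
  have hn6 : (0 : ℝ) < (n : ℝ) ^ 6 := by positivity
  obtain ⟨M, f, g, h10⟩ := exists_near E h4 χ hn1
  refine ⟨M, f, g, ?_⟩
  have hG0 : 0 ≤ X4 E (gir χ M f g) := by unfold X4; positivity
  set Y : ℝ := 24 * ((S6 (mE E) χ : ℤ) : ℝ) / (n : ℝ) ^ 6 with hY
  have hY0 : 0 ≤ Y := by
    have h8 : (0 : ℝ) ≤ 24 * ((S6 (mE E) χ : ℤ) : ℝ) := by
      rw [← sum6_inj]
      refine Finset.sum_nonneg fun t _ => ?_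
      have : 0 ≤ f6 (mE E) χ t := by
        unfold f6
        split_ifs <;> norm_num
      exact_mod_cast this
    rw [hY]
    positivity
  have h13 : (1 - s ^ 2) * X4 E (gir χ M f g) ≤ 4 * Y + 8 / n := by
    have h14 : (1 - s ^ 2) * X4 E (gir χ M f g) ≤ (1 - sg2 χ) * X4 E (gir χ M f g) :=
      mul_le_mul_of_nonneg_right (by linarith) hG0
    have h15 : 96 * ((S6 (mE E) χ : ℤ) : ℝ) / (n : ℝ) ^ 6 = 4 * Y := by
      rw [hY]
      ring
    linarith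
  have k2 : 8 * T / (1 - s ^ 2) / n ≤ η := by
    have h5 : 8 * T / (1 - s ^ 2) / η < n := lt_of_lt_of_le hN2 (by exact_mod_cast hn3)
    rw [div_lt_iff₀ hη] at h5
    rw [div_le_iff₀ hn0]
    linarith
  have h16 : T * X4 E (gir χ M f g) ≤ b * Y + 8 * T / (1 - s ^ 2) / n := by
    have h17 : (1 - s ^ 2) * (T * X4 E (gir χ M f g)) ≤
        (1 - s ^ 2) * (b * Y + 8 * T / (1 - s ^ 2) / n) := by
      have e1 : (1 - s ^ 2) * (b * Y + 8 * T / (1 - s ^ 2) / n) =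
          (b * (1 - s ^ 2)) * Y + T * (8 / n) := by
        field_simp
      rw [e1]
      have h18 := mul_le_mul_of_nonneg_left h13 hT
      have h19 : 4 * T * Y ≤ b * (1 - s ^ 2) * Y := mul_le_mul_of_nonneg_right h hY0
      have e2 : T * (4 * Y + 8 / n) = 4 * T * Y + T * (8 / n) := by ring
      rw [e2] at h18
      linarith
    exact le_of_mul_le_mul_left h17 hs2
  have e3 : ∑ t ∈ inj (Fin n) 6, ((b * f6 (zb E t) (fun i => χ (t i)) id : ℤ) : ℝ) =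
      b * Y * (n : ℝ) ^ 6 := by
    have e5 : ∑ t ∈ inj (Fin n) 6, ((b * f6 (zb E t) (fun i => χ (t i)) id : ℤ) : ℝ) =
        b * ∑ t ∈ inj (Fin n) 6, ((f6 (mE E) χ t : ℤ) : ℝ) := by
      rw [Finset.mul_sum]
      refine Finset.sum_congr rfl fun t ht => ?_
      have h2 : f6 (zb E t) (fun i => χ (t i)) id = f6 (mE E) χ t := by
        rw [zb_eq]
        exact f6_comp (mE E) χ t (mem_inj.mp ht) id
      rw [h2]
      push_cast
      ring
    rw [e5, sum6_inj, hY]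
    field_simp
  rw [e3]
  have h20 : T * X4 E (gir χ M f g) * (n : ℝ) ^ 6 ≤ (b * Y + η) * (n : ℝ) ^ 6 :=
    mul_le_mul_of_nonneg_right (by linarith) hn6.le
  linarith

/-- The sum of two functions. -/
theorem DistF.add {Ξ Ξ' : Psi2} {T T' s : ℝ} (hT : 0 ≤ T) (hT' : 0 ≤ T') (h : DistF Ξ T s)
    (h' : DistF Ξ' T' s) : DistF (fun r x => Ξ r x + Ξ' r x) (T + T') s := by
  intro η hη
  obtain ⟨N, hN⟩ := h (η / 2) (half_pos hη)
  obtain ⟨N', hN'⟩ := h' (η / 2) (half_pos hη)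
  refine ⟨max N N', fun n hn E χ h4 hEv hs => ?_⟩
  obtain ⟨M, f, g, h1⟩ := hN n (le_trans (le_max_left _ _) hn) E χ h4 hEv hs
  obtain ⟨M', f', g', h1'⟩ := hN' n (le_trans (le_max_right _ _) hn) E χ h4 hEv hs
  have hn6 : (0 : ℝ) ≤ (n : ℝ) ^ 6 := by positivity
  have e1 : ∑ t ∈ inj (Fin n) 6, ((Ξ (zb E t) (fun i => χ (t i)) +
      Ξ' (zb E t) (fun i => χ (t i)) : ℤ) : ℝ) =
      ∑ t ∈ inj (Fin n) 6, ((Ξ (zb E t) (fun i => χ (t i)) : ℤ) : ℝ) +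
      ∑ t ∈ inj (Fin n) 6, ((Ξ' (zb E t) (fun i => χ (t i)) : ℤ) : ℝ) := by
    rw [← Finset.sum_add_distrib]
    refine Finset.sum_congr rfl fun t _ => ?_
    push_cast
    rfl
  rcases le_total (X4 E (gir χ M f g)) (X4 E (gir χ M' f' g')) with h2 | h2
  · refine ⟨M, f, g, ?_⟩
    rw [e1]
    have h3 : T' * X4 E (gir χ M f g) * (n : ℝ) ^ 6 ≤
        T' * X4 E (gir χ M' f' g') * (n : ℝ) ^ 6 :=
      mul_le_mul_of_nonneg_right (mul_le_mul_of_nonneg_left h2 hT') hn6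
    linarith
  · refine ⟨M', f', g', ?_⟩
    rw [e1]
    have h3 : T * X4 E (gir χ M' f' g') * (n : ℝ) ^ 6 ≤
        T * X4 E (gir χ M f g) * (n : ℝ) ^ 6 :=
      mul_le_mul_of_nonneg_right (mul_le_mul_of_nonneg_left h2 hT) hn6
    linarith

/-- A larger function. -/
theorem DistF.mono {Ξ Ξ' : Psi2} {T T' s s' : ℝ} (h : DistF Ξ T s)
    (hle : ∀ (r : Finset (Fin 6) → Bool) (x : Fin 6 → Bool), Ξ r x ≤ Ξ' r x) (hT : T' ≤ T)
    (hs0 : 0 ≤ s') (hs : s' ≤ s) : DistF Ξ' T' s' := by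
  intro η hη
  obtain ⟨N, hN⟩ := h η hη
  refine ⟨N, fun n hn E χ h4 hEv hs2 => ?_⟩
  obtain ⟨M, f, g, h1⟩ := hN n hn E χ h4 hEv (le_trans hs2 (pow_le_pow_left₀ hs0 hs 2))
  refine ⟨M, f, g, ?_⟩
  have h2 : ∑ t ∈ inj (Fin n) 6, ((Ξ (zb E t) (fun i => χ (t i)) : ℤ) : ℝ) ≤
      ∑ t ∈ inj (Fin n) 6, ((Ξ' (zb E t) (fun i => χ (t i)) : ℤ) : ℝ) :=
    Finset.sum_le_sum fun t _ => by exact_mod_cast hle _ _
  have hG0 : 0 ≤ X4 E (gir χ M f g) := by unfold X4; positivity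
  have h3 : T' * X4 E (gir χ M f g) * (n : ℝ) ^ 6 ≤ T * X4 E (gir χ M f g) * (n : ℝ) ^ 6 :=
    mul_le_mul_of_nonneg_right (mul_le_mul_of_nonneg_right hT hG0) (by positivity)
  linarith

/-! ### The two columns -/

/-- The cost, the distance and the imbalance. -/
noncomputable def disG (wp wm a : ℕ) (Ξ : Psi2) (c : ℕ) : Psi3 := fun e r x =>
  a * cw (wc wp wm) e r + Ξ r x + c * S2 x

/-- The column of the colouring: the density defect of the even 4-graph and a constant, minus the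
function and the imbalance of the colouring. -/
noncomputable def colG (a k : ℕ) (Ξ : Psi2) (c : ℕ) : Psi3 := fun _ r x =>
  a * (165 - 16 * S4 r) + k - Ξ r x - c * S2 x

section sums
variable {n : ℕ}

theorem disG_ge (wp wm a c : ℕ) (Ξ : Psi2) (hn : 8 ≤ n) (H E : Finset (Finset (Fin n)))
    (χ : Fin n → Bool) :
    (n : ℝ) ^ 6 * (15 * a * (24 * ((K8.cst (wc wp wm) H E : ℤ) : ℝ) / (n : ℝ) ^ 4) +
      30 * c * sg2 χ) + ∑ t ∈ inj (Fin n) 6, ((Ξ (zb E t) (fun i => χ (t i)) : ℤ) : ℝ) -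
      (135 * (wp + wm) * a + 450 * c) * (n : ℝ) ^ 5 ≤
    ∑ t ∈ inj (Fin n) 6,
      ((disG wp wm a Ξ c (zb H t) (zb E t) (fun i => χ (t i)) : ℤ) : ℝ) := by
  have e1 : ∑ t ∈ inj (Fin n) 6,
      ((disG wp wm a Ξ c (zb H t) (zb E t) (fun i => χ (t i)) : ℤ) : ℝ) =
      a * ∑ t ∈ inj (Fin n) 6, ((cw (wc wp wm) (zb H t) (zb E t) : ℤ) : ℝ) +
      ∑ t ∈ inj (Fin n) 6, ((Ξ (zb E t) (fun i => χ (t i)) : ℤ) : ℝ) +
      c * ∑ t ∈ inj (Fin n) 6, ((S2 (fun i => χ (t i)) : ℤ) : ℝ) := by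
    rw [Finset.mul_sum, Finset.mul_sum, ← Finset.sum_add_distrib, ← Finset.sum_add_distrib]
    refine Finset.sum_congr rfl fun t _ => ?_
    unfold disG
    push_cast
    ring
  rw [e1]
  have h1 := mul_le_mul_of_nonneg_left (sum6_cw_ge wp wm H E (by omega))
    (Nat.cast_nonneg (α := ℝ) a)
  have h3 := mul_le_mul_of_nonneg_left (sum6_S2_ge hn χ) (Nat.cast_nonneg (α := ℝ) c)
  have e2 : (a : ℝ) * ((n : ℝ) ^ 6 * (15 * (24 * ((K8.cst (wc wp wm) H E : ℤ) : ℝ) /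
      (n : ℝ) ^ 4)) - 135 * (wp + wm) * (n : ℝ) ^ 5) =
      (n : ℝ) ^ 6 * (15 * a * (24 * ((K8.cst (wc wp wm) H E : ℤ) : ℝ) / (n : ℝ) ^ 4)) -
        135 * (wp + wm) * a * (n : ℝ) ^ 5 := by ring
  have e3 : (c : ℝ) * ((n : ℝ) ^ 6 * (30 * sg2 χ) - 450 * (n : ℝ) ^ 5) =
      (n : ℝ) ^ 6 * (30 * c * sg2 χ) - 450 * c * (n : ℝ) ^ 5 := by ring
  rw [e2] at h1
  rw [e3] at h3
  have e4 : (n : ℝ) ^ 6 * (15 * a * (24 * ((K8.cst (wc wp wm) H E : ℤ) : ℝ) / (n : ℝ) ^ 4) +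
      30 * c * sg2 χ) =
      (n : ℝ) ^ 6 * (15 * a * (24 * ((K8.cst (wc wp wm) H E : ℤ) : ℝ) / (n : ℝ) ^ 4)) +
      (n : ℝ) ^ 6 * (30 * c * sg2 χ) := by ring
  have e5 : (135 * ((wp : ℝ) + wm) * a + 450 * c) * (n : ℝ) ^ 5 =
      135 * (wp + wm) * a * (n : ℝ) ^ 5 + 450 * c * (n : ℝ) ^ 5 := by ring
  rw [e4, e5]
  linarith

theorem sum6_colR_le (E : Finset (Finset (Fin n))) (h4 : ∀ e ∈ E, e.card = 4) (hn : 1 ≤ n) :
    ∑ t ∈ inj (Fin n) 6, ((colR (zb E t) : ℤ) : ℝ) ≤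
      (n : ℝ) ^ 6 * (240 * (11 / 16 - e4 E)) + 2160 * (n : ℝ) ^ 5 := by
  rw [sum_colR_eq E h4]
  have hn0 : (0 : ℝ) < n := by exact_mod_cast hn
  have h1 := desc_le n 6
  have h2 := PP42_ge n
  have hE0 : (0 : ℝ) ≤ (E.card : ℝ) := Nat.cast_nonneg _
  have h3 : ((n : ℝ) ^ 2 - 9 * n) * (E.card : ℝ) ≤ PP n 4 2 * (E.card : ℝ) :=
    mul_le_mul_of_nonneg_right h2 hE0
  have h5 := card_quads_le E h4
  have e1 : (n : ℝ) ^ 6 * (240 * (11 / 16 - e4 E)) =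
      165 * (n : ℝ) ^ 6 - 5760 * ((n : ℝ) ^ 2 * (E.card : ℝ)) := by
    unfold e4
    field_simp
    ring
  rw [e1]
  have h7 : 9 * (n : ℝ) * (E.card : ℝ) ≤ 9 * (n : ℝ) * ((n : ℝ) ^ 4 / 24) :=
    mul_le_mul_of_nonneg_left (by linarith) (by positivity)
  have e : 9 * (n : ℝ) * ((n : ℝ) ^ 4 / 24) = 9 / 24 * (n : ℝ) ^ 5 := by ring
  rw [e] at h7
  linarith

theorem colG_le (a k c : ℕ) (Ξ : Psi2) (hn : 8 ≤ n) (H E : Finset (Finset (Fin n)))
    (χ : Fin n → Bool) (h4 : ∀ e ∈ E, e.card = 4) :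
    ∑ t ∈ inj (Fin n) 6, ((colG a k Ξ c (zb H t) (zb E t) (fun i => χ (t i)) : ℤ) : ℝ) ≤
      (n : ℝ) ^ 6 * (240 * a * (11 / 16 - e4 E) + k - 30 * c * sg2 χ) +
      (2160 * a + 450 * c) * (n : ℝ) ^ 5 -
      ∑ t ∈ inj (Fin n) 6, ((Ξ (zb E t) (fun i => χ (t i)) : ℤ) : ℝ) := by
  have e1 : ∑ t ∈ inj (Fin n) 6,
      ((colG a k Ξ c (zb H t) (zb E t) (fun i => χ (t i)) : ℤ) : ℝ) =
      a * ∑ t ∈ inj (Fin n) 6, ((colR (zb E t) : ℤ) : ℝ) + k * (n.descFactorial 6 : ℝ) -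
      ∑ t ∈ inj (Fin n) 6, ((Ξ (zb E t) (fun i => χ (t i)) : ℤ) : ℝ) -
      c * ∑ t ∈ inj (Fin n) 6, ((S2 (fun i => χ (t i)) : ℤ) : ℝ) := by
    have e2 : ∀ t : Fin 6 → Fin n,
        ((colG a k Ξ c (zb H t) (zb E t) (fun i => χ (t i)) : ℤ) : ℝ) =
        a * ((colR (zb E t) : ℤ) : ℝ) + k - ((Ξ (zb E t) (fun i => χ (t i)) : ℤ) : ℝ) -
        c * ((S2 (fun i => χ (t i)) : ℤ) : ℝ) := by
      intro t
      unfold colG colR
      push_cast
      ring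
    rw [Finset.sum_congr rfl fun t _ => e2 t, Finset.sum_sub_distrib, Finset.sum_sub_distrib,
      Finset.sum_add_distrib, ← Finset.mul_sum, ← Finset.mul_sum, Finset.sum_const,
      nsmul_eq_mul, card_inj, Fintype.card_fin]
    ring
  rw [e1]
  have h1 := mul_le_mul_of_nonneg_left (sum6_colR_le E h4 (by omega))
    (Nat.cast_nonneg (α := ℝ) a)
  have h3 := mul_le_mul_of_nonneg_left (sum6_S2_ge hn χ) (Nat.cast_nonneg (α := ℝ) c)
  have h5 := mul_le_mul_of_nonneg_left (desc_le n 6) (Nat.cast_nonneg (α := ℝ) k)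
  have e3 : (c : ℝ) * ((n : ℝ) ^ 6 * (30 * sg2 χ) - 450 * (n : ℝ) ^ 5) =
      (n : ℝ) ^ 6 * (30 * c * sg2 χ) - 450 * c * (n : ℝ) ^ 5 := by ring
  rw [e3] at h3
  have e4 : (n : ℝ) ^ 6 * (240 * a * (11 / 16 - K9.Star.e4 E) + k - 30 * c * sg2 χ) +
      (2160 * a + 450 * c) * (n : ℝ) ^ 5 =
      a * ((n : ℝ) ^ 6 * (240 * (11 / 16 - K9.Star.e4 E)) + 2160 * (n : ℝ) ^ 5) +
      k * (n : ℝ) ^ 6 - ((n : ℝ) ^ 6 * (30 * c * sg2 χ) - 450 * c * (n : ℝ) ^ 5) := by ring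
  rw [e4]
  linarith

end sums

/-! ### Closeness -/

section near
variable {P : ∀ n : ℕ, Finset (Finset (Fin n)) → Prop} {wp wm : ℕ} {L : List Psi3}

/-- The imbalance is bounded. -/
def SgW (y : ℝ) : C3 := fun η {_} _ _ χ => sg2 χ ≤ y + η

theorem monoW_sg (y : ℝ) : MonoW (SgW y) := by
  intro η η' h n H E χ hc
  exact le_trans hc (by linarith)

/-- The bound of the imbalance from the bound of the average. -/
theorem sgW_of_disG {Q : C3} (a c : ℕ) (Ξ : Psi2) (x y : ℝ) (hc : 0 < c) (hx : x ≤ 30 * c * y)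
    (hΞ : ∀ r x, 0 ≤ Ξ r x) (h2 : TWc P wp wm L Q (AvgW (disG wp wm a Ξ c) x)) :
    TWc P wp wm L Q (SgW y) := by
  intro ε hε
  have hc' : (0 : ℝ) < c := by exact_mod_cast hc
  obtain ⟨η, hη, N1, hN1⟩ := h2 (30 * c * (ε / 2)) (by positivity)
  obtain ⟨N2, hN2⟩ := n5_aux (C := 135 * (wp + wm) * a + 450 * c) (δ := 30 * c * (ε / 2))
    (by positivity)
  refine ⟨η, hη, max 8 (max N1 N2), fun n hn H E χ hcx => ?_⟩
  have hn8 : 8 ≤ n := le_trans (le_max_left _ _) hn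
  have hn1 : N1 ≤ n := le_trans (le_trans (le_max_left _ _) (le_max_right _ _)) hn
  have hn2 : N2 ≤ n := le_trans (le_trans (le_max_right _ _) (le_max_right _ _)) hn
  have hn0 : (0 : ℝ) < n := by exact_mod_cast (by omega : 0 < n)
  have hn6 : (0 : ℝ) < (n : ℝ) ^ 6 := by positivity
  have h1 := le_trans (disG_ge wp wm a c Ξ hn8 H E χ) (hN1 n hn1 H E χ hcx)
  have h3 := hN2 n hn2
  have h4 : 0 ≤ ∑ t ∈ inj (Fin n) 6, ((Ξ (zb E t) (fun i => χ (t i)) : ℤ) : ℝ) :=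
    Finset.sum_nonneg fun t _ => by exact_mod_cast hΞ _ _
  have h5 : 0 ≤ 15 * (a : ℝ) * (24 * ((K8.cst (wc wp wm) H E : ℤ) : ℝ) / (n : ℝ) ^ 4) := by
    have := cst_nonneg wp wm H E
    positivity
  have h6 : (n : ℝ) ^ 6 * (30 * c * sg2 χ) ≤ (n : ℝ) ^ 6 * (30 * c * (y + ε)) := by
    have h7 : (n : ℝ) ^ 6 * (30 * c * sg2 χ) ≤ (n : ℝ) ^ 6 *
        (15 * a * (24 * ((K8.cst (wc wp wm) H E : ℤ) : ℝ) / (n : ℝ) ^ 4) + 30 * c * sg2 χ) :=
      mul_le_mul_of_nonneg_left (by linarith) hn6.le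
    have h8 : x * (n : ℝ) ^ 6 ≤ 30 * c * y * (n : ℝ) ^ 6 := mul_le_mul_of_nonneg_right hx hn6.le
    linarith
  have h7 := le_of_mul_le_mul_left h6 hn6
  exact le_of_mul_le_mul_left h7 (by positivity)

/-- The imbalance is bounded before the tolerance. -/
theorem near_of_disG (h1 : T1L P wp wm L) (a c w0 : ℕ) (Ξ : Psi2) (hΞ : ∀ r x, 0 ≤ Ξ r x)
    (x s w : ℝ) (hwp : w0 ≤ wp)
    (hwm : w0 ≤ wm) (ha : 0 < a * w0) (hc : 0 < c)
    (h2 : TWc P wp wm L TrueW (AvgW (disG wp wm a Ξ c) x))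
    (hs : x < 30 * c * s ^ 2) (hd : DistF Ξ (15 * (a * w0)) s)
    (hw : w * (a * w0) ≤ 2 * c) : Near P w (x / (15 * (a * w0))) := by
  refine near_core h1 h2 fun η hη => ?_
  have ha' : (0 : ℝ) < a * w0 := by exact_mod_cast ha
  have hc' : (0 : ℝ) < c := by exact_mod_cast hc
  set T : ℝ := 15 * (a * w0) with hT
  have hT0 : 0 < T := by positivity
  set K : ℝ := 135 * (wp + wm) * a + 450 * c with hK
  have hK0 : 0 ≤ K := by positivity
  set ε : ℝ := min (T * η / 3) ((30 * c * s ^ 2 - x) / 2) with hε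
  have hε0 : 0 < ε := lt_min (by positivity) (by linarith)
  have hε1 : ε ≤ T * η / 3 := min_le_left _ _
  have hε2 : ε ≤ (30 * c * s ^ 2 - x) / 2 := min_le_right _ _
  obtain ⟨N1, hN1⟩ := exists_nat_gt (K / ε)
  obtain ⟨N2, hN2⟩ := hd ε hε0
  refine ⟨ε, hε0, max 8 (max N1 N2), fun n hn H E χ h4 h4' hEv hR => ?_⟩
  have hn8 : 8 ≤ n := le_trans (le_max_left _ _) hn
  have hn1 : N1 ≤ n := le_trans (le_trans (le_max_left _ _) (le_max_right _ _)) hn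
  have hn2 : N2 ≤ n := le_trans (le_trans (le_max_right _ _) (le_max_right _ _)) hn
  have hn0 : (0 : ℝ) < n := by exact_mod_cast (by omega : 0 < n)
  have hn6 : (0 : ℝ) < (n : ℝ) ^ 6 := by positivity
  have k1 : K / n ≤ ε := by
    have h5 : K / ε < n := lt_of_lt_of_le hN1 (by exact_mod_cast hn1)
    rw [div_lt_iff₀ hε0] at h5
    rw [div_le_iff₀ hn0]
    linarith
  have h5 := le_trans (disG_ge wp wm a c Ξ hn8 H E χ) hR
  set C4 : ℝ := 24 * ((K8.cst (wc wp wm) H E : ℤ) : ℝ) / (n : ℝ) ^ 4 with hC4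
  set Y : ℝ := ∑ t ∈ inj (Fin n) 6, ((Ξ (zb E t) (fun i => χ (t i)) : ℤ) : ℝ) with hY
  have hY0 : 0 ≤ Y := Finset.sum_nonneg fun t _ => by exact_mod_cast hΞ _ _
  have h6 : (n : ℝ) ^ 6 * (15 * a * C4 + Y / (n : ℝ) ^ 6 + 30 * c * sg2 χ) ≤
      (n : ℝ) ^ 6 * (x + ε + K / n) := by
    have e1 : (n : ℝ) ^ 6 * (x + ε + K / n) = (x + ε) * (n : ℝ) ^ 6 + K * (n : ℝ) ^ 5 := by
      field_simp
    have e2 : (n : ℝ) ^ 6 * (15 * a * C4 + Y / (n : ℝ) ^ 6 + 30 * c * sg2 χ) =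
        (n : ℝ) ^ 6 * (15 * a * C4 + 30 * c * sg2 χ) + Y := by
      field_simp
      ring
    rw [e1, e2]
    linarith
  have h7 : 15 * a * C4 + Y / (n : ℝ) ^ 6 + 30 * c * sg2 χ ≤ x + ε + K / n :=
    le_of_mul_le_mul_left h6 hn6
  have hC0 : 0 ≤ C4 := by
    have := cst_nonneg wp wm H E
    rw [hC4]
    positivity
  have hg0 := sg2_nonneg χ
  have hYn : 0 ≤ Y / (n : ℝ) ^ 6 := by positivity
  have h8 : sg2 χ ≤ s ^ 2 := by
    have h9 : 0 ≤ 15 * (a : ℝ) * C4 := by positivity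
    have h11 : 30 * (c : ℝ) * sg2 χ ≤ 30 * c * s ^ 2 := by linarith
    exact le_of_mul_le_mul_left h11 (by positivity)
  obtain ⟨M, f, g, h10⟩ := hN2 n hn2 E χ h4' hEv h8
  refine ⟨M, f, g, ?_⟩
  have h11 : w0 * X4 H E ≤ C4 := X4_le_cst wp wm w0 hwp hwm (by omega) H E h4 h4'
  have h12 := X4_triangle H E (gir χ M f g)
  have h16 : T * X4 E (gir χ M f g) ≤ Y / (n : ℝ) ^ 6 + ε := by
    have h17 : (n : ℝ) ^ 6 * (T * X4 E (gir χ M f g)) ≤ (n : ℝ) ^ 6 * (Y / (n : ℝ) ^ 6 + ε) := by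
      have e1 : (n : ℝ) ^ 6 * (Y / (n : ℝ) ^ 6 + ε) = Y + ε * (n : ℝ) ^ 6 := by
        field_simp
      rw [e1]
      linarith
    exact le_of_mul_le_mul_left h17 hn6
  have h20 : T * (w * sg2 χ) ≤ 30 * c * sg2 χ := by
    have h21 := mul_le_mul_of_nonneg_right hw hg0
    rw [hT]
    linarith
  have h22 : T * X4 H E ≤ 15 * a * C4 := by
    have h23 := mul_le_mul_of_nonneg_left h11 (by positivity : (0 : ℝ) ≤ 15 * a)
    rw [hT]
    linarith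
  have h24 : T * cost w H χ M f g ≤ T * (x / T + η) := by
    have e1 : T * (x / T + η) = x + T * η := by
      field_simp
    rw [e1]
    unfold cost
    have h25 := mul_le_mul_of_nonneg_left h12 hT0.le
    linarith
  exact le_of_mul_le_mul_left h24 hT0

/-! ### Conditions for the reference structure of smallest cost -/

/-- The 4-graphs, the even 4-graphs of smallest cost and the reference structures of smallest cost
satisfy a condition. -/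
def NearQ (P : ∀ n : ℕ, Finset (Finset (Fin n)) → Prop) (wp wm : ℕ) (w : ℝ) (Q : C6) : Prop :=
  ∀ η : ℝ, 0 < η → ∃ N : ℕ, ∀ n : ℕ, N ≤ n → ∀ (H E : Finset (Finset (Fin n)))
    (χ : Fin n → Bool) (M : Fin n → Fin n → Bool) (f g : Finset (Fin n) → Bool),
    (∀ e ∈ H, e.card = 4) → K5F H → P n H → 11 / 16 ≤ e4 H → OptE (wc wp wm) H E →
    Best w H χ M f g → Q η H E χ M f g

theorem nearQ_of_near {w X0 : ℝ} (h : Near P w X0) : NearQ P wp wm w (CostN w X0) := by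
  intro η hη
  obtain ⟨N, hN⟩ := h η hη
  refine ⟨N, fun n hn H E χ M f g h4 hk hP hd _ hb => ?_⟩
  obtain ⟨χ', M', f', g', h3⟩ := hN n hn H h4 hk hP hd
  exact le_trans (hb χ' M' f' g') h3

theorem near_of_nearQ {w X0 : ℝ} (h : NearQ P wp wm w (CostN w X0)) : Near P w X0 := by
  intro η hη
  obtain ⟨N, hN⟩ := h η hη
  refine ⟨N, fun n hn H h4 hk hP hd => ?_⟩
  obtain ⟨E, hE⟩ := exists_optE (wc wp wm) H
  obtain ⟨χ, M, f, g, hb⟩ := exists_best w H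
  exact ⟨χ, M, f, g, hN n hn H E χ M f g h4 hk hP hd hE hb⟩

theorem nearQ_true {w : ℝ} : NearQ P wp wm w (fun _ _ _ _ _ _ _ _ => True) :=
  fun _ _ => ⟨0, fun _ _ _ _ _ _ _ _ _ _ _ _ _ _ => trivial⟩

theorem NearQ.mono {w : ℝ} {Q Q' : C6} (h : NearQ P wp wm w Q)
    (hq : ∀ (η : ℝ) {n : ℕ} (H E : Finset (Finset (Fin n))) (χ : Fin n → Bool)
      (M : Fin n → Fin n → Bool) (f g : Finset (Fin n) → Bool), Q η H E χ M f g →
      Q' η H E χ M f g) : NearQ P wp wm w Q' := by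
  intro η hη
  obtain ⟨N, hN⟩ := h η hη
  exact ⟨N, fun n hn H E χ M f g h4 hk hP hd ho hb =>
    hq η H E χ M f g (hN n hn H E χ M f g h4 hk hP hd ho hb)⟩

theorem nearQ_and {w : ℝ} {Q Q' : C6} (h : NearQ P wp wm w Q) (h' : NearQ P wp wm w Q') :
    NearQ P wp wm w (AndB Q Q') := by
  intro η hη
  obtain ⟨N, hN⟩ := h η hη
  obtain ⟨N', hN'⟩ := h' η hη
  exact ⟨max N N', fun n hn H E χ M f g h4 hk hP hd ho hb =>
    ⟨hN n (le_trans (le_max_left _ _) hn) H E χ M f g h4 hk hP hd ho hb,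
      hN' n (le_trans (le_max_right _ _) hn) H E χ M f g h4 hk hP hd ho hb⟩⟩

/-- A conclusion from the condition is a condition. -/
theorem nearQ_step {w : ℝ} {Q R : C6} (h : NearQ P wp wm w Q) (h2 : TBc P wp wm w Q R) :
    NearQ P wp wm w R := by
  intro η hη
  obtain ⟨η2, hη2, N2, hN2⟩ := h2 η hη
  obtain ⟨N1, hN1⟩ := h η2 hη2
  exact ⟨max N1 N2, fun n hn H E χ M f g h4 hk hP hd ho hb =>
    hN2 n (le_trans (le_max_right _ _) hn) H E χ M f g ⟨h4, hk, hP, hd, ho, hb,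
      hN1 n (le_trans (le_max_left _ _) hn) H E χ M f g h4 hk hP hd ho hb⟩⟩

/-- The bound for 4-graphs with the property. -/
theorem assembly_nearQ {w : ℝ} {Q : C6} (h : NearQ P wp wm w Q) (h2 : TBc P wp wm w Q DensB) :
    ∀ ε : ℝ, 0 < ε → ∃ N : ℕ, ∀ n : ℕ, N ≤ n → ∀ H : Finset (Finset (Fin n)),
      (∀ e ∈ H, e.card = 4) → K5F H → P n H → e4 H ≤ 11 / 16 + ε := by
  intro ε hε
  obtain ⟨N, hN⟩ := nearQ_step h h2 ε hε
  refine ⟨N, fun n hn H hH hK hP => ?_⟩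
  by_contra hlt
  rw [not_le] at hlt
  have hd : 11 / 16 ≤ e4 H := by linarith
  obtain ⟨E, hE⟩ := exists_optE (wc wp wm) H
  obtain ⟨χ, M, f, g, hb⟩ := exists_best w H
  exact absurd (hN n hn H E χ M f g hH hK hP hd hE hb) (not_le.mpr hlt)

/-- The exact theorem from a condition and the local theorem. -/
theorem main_nearQ {w : ℝ} {Q : C6} (hR : Red P) (h : NearQ P wp wm w Q)
    (h2 : TBc P wp wm w Q DensB) :
    ∀ ε : ℝ, 0 < ε → ∃ N : ℕ, ∀ n : ℕ, N ≤ n →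
      (∃ H : Finset (Finset (Fin n)),
          (∀ e ∈ H, e.card = 4) ∧
          (∀ S : Finset (Fin n), S.card = 5 → ∃ e ∈ S.powersetCard 4, e ∉ H) ∧
          ((11 / 16 : ℝ) - ε) * ((n.choose 4 : ℕ) : ℝ) ≤ (H.card : ℝ)) ∧
      (∀ H : Finset (Finset (Fin n)),
          (∀ e ∈ H, e.card = 4) →
          (∀ S : Finset (Fin n), S.card = 5 → ∃ e ∈ S.powersetCard 4, e ∉ H) →
          (H.card : ℝ) ≤ ((11 / 16 : ℝ) + ε) * ((n.choose 4 : ℕ) : ℝ)) :=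
  main (wp := wp) (wm := wm) hR (t1L_nil P wp wm) (tw_of_assembly (assembly_nearQ h h2))

/-! ### The column of the reference structure of smallest cost -/

/-- The cost of the even 4-graph and its density defect, minus the cost of the reference
structure. -/
noncomputable def colT (wp wm w0 α a k c : ℕ) : Psi4 := fun e r r' x =>
  α * cw (wc wp wm) e r + (a * (165 - 16 * S4 r) + k) -
    ((α * w0 : ℕ) * cw (wc 1 1) e r' + c * S2 x)

theorem sum6_cw_one_le {n : ℕ} (H G : Finset (Finset (Fin n))) (h4 : ∀ e ∈ H, e.card = 4)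
    (h4' : ∀ e ∈ G, e.card = 4) (hn : 8 ≤ n) :
    ∑ t ∈ inj (Fin n) 6, ((cw (wc 1 1) (zb H t) (zb G t) : ℤ) : ℝ) ≤
      (n : ℝ) ^ 6 * (15 * X4 H G) := by
  rw [sum6_cw, cst_one H G h4 h4']
  have hn0 : (0 : ℝ) < n := by exact_mod_cast (by omega : 0 < n)
  have h8 : (8 : ℝ) ≤ n := by exact_mod_cast hn
  have h1 : PP n 4 2 ≤ (n : ℝ) ^ 2 := by
    unfold PP
    rw [Finset.prod_range_succ, Finset.prod_range_succ, Finset.prod_range_zero]
    push_cast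
    nlinarith
  have e1 : (n : ℝ) ^ 6 * (15 * X4 H G) = 360 * ((n : ℝ) ^ 2 * ((symmDiff H G).card : ℝ)) := by
    unfold X4
    field_simp
    ring
  rw [e1]
  have h2 : PP n 4 2 * ((symmDiff H G).card : ℝ) ≤ (n : ℝ) ^ 2 * ((symmDiff H G).card : ℝ) :=
    mul_le_mul_of_nonneg_right h1 (Nat.cast_nonneg _)
  linarith

theorem sum6_S2_le {n : ℕ} (hn : 8 ≤ n) (χ : Fin n → Bool) :
    ∑ t ∈ inj (Fin n) 6, ((S2 (fun i => χ (t i)) : ℤ) : ℝ) ≤ (n : ℝ) ^ 6 * (30 * sg2 χ) := by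
  rw [sum6_S2', S2_eq]
  have hn8 : (8 : ℝ) ≤ n := by exact_mod_cast hn
  have hn0 : (0 : ℝ) < n := by linarith
  push_cast
  set d2 : ℝ := ((nc χ false : ℝ) - nc χ true) ^ 2 with hd2
  have hd0 : 0 ≤ d2 := sq_nonneg _
  have hs : sg2 χ = d2 / (n : ℝ) ^ 2 := by
    unfold sg2
    rw [hd2, div_pow]
  have e1 : (n : ℝ) ^ 6 * (30 * sg2 χ) = 30 * ((n : ℝ) ^ 4 * d2) := by
    rw [hs]
    field_simp
  rw [e1]
  have h1 : PP n 2 4 * d2 ≤ (n : ℝ) ^ 4 * d2 := mul_le_mul_of_nonneg_right (PP24_le' n hn) hd0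
  have h2 : 0 ≤ PP n 2 4 := by
    unfold PP
    refine Finset.prod_nonneg fun i hi => ?_
    have h3 := Finset.mem_range.mp hi
    have h4 : (i : ℝ) ≤ 3 := by exact_mod_cast (by omega : i ≤ 3)
    push_cast
    linarith
  have h3 : 0 ≤ PP n 2 4 * n := mul_nonneg h2 hn0.le
  linarith

/-- The column of the reference structure of smallest cost, from the column of the colouring of the
even 4-graph and a bound of the imbalance of that colouring. -/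
theorem nearQ_colT (h1 : T1L P wp wm L) (a k c w0 α c' : ℕ) (Ξ : Psi2) (y s w : ℝ)
    (hψ : colG a k Ξ c ∈ L) (hwp : w0 ≤ wp) (hwm : w0 ≤ wm)
    (h2 : TWc P wp wm L TrueW (SgW y)) (hs : y < s ^ 2)
    (hd : DistF Ξ (15 * (α * w0)) s) (hw : w * (α * w0) ≤ 2 * c) (hw' : 2 * c' ≤ w * (α * w0)) :
    NearQ P wp wm w (AvgL (colT wp wm w0 α a k c') 0) := by
  intro η hη
  set T : ℝ := 15 * (α * w0) with hT
  have hT0 : 0 ≤ T := by positivity
  set ε : ℝ := min (η / 4) (s ^ 2 - y) with hε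
  have hε0 : 0 < ε := lt_min (by positivity) (by linarith)
  have hε1 : ε ≤ η / 4 := min_le_left _ _
  have hε2 : ε ≤ s ^ 2 - y := min_le_right _ _
  obtain ⟨η2, hη2, N2, hN2⟩ := h2 ε hε0
  obtain ⟨N1, hN1⟩ := h1 (min η2 ε) (lt_min hη2 hε0)
  obtain ⟨N3, hN3⟩ := hd ε hε0
  obtain ⟨N4, hN4⟩ := n5_aux (C := (2160 * a + 450 * c) + 135 * (wp + wm) * α + 2475 * a +
    15 * k) hε0
  refine ⟨max 8 (max (max N1 N2) (max N3 N4)), fun n hn H E χR MR fR gR hH hK hP hdn hE hb => ?_⟩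
  have hn8 : 8 ≤ n := le_trans (le_max_left _ _) hn
  have hna : max N1 N2 ≤ n := le_trans (le_trans (le_max_left _ _) (le_max_right _ _)) hn
  have hnb : max N3 N4 ≤ n := le_trans (le_trans (le_max_right _ _) (le_max_right _ _)) hn
  have hn1 : N1 ≤ n := le_trans (le_max_left _ _) hna
  have hn2 : N2 ≤ n := le_trans (le_max_right _ _) hna
  have hn3 : N3 ≤ n := le_trans (le_max_left _ _) hnb
  have hn4 : N4 ≤ n := le_trans (le_max_right _ _) hnb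
  have hn0 : (0 : ℝ) < n := by exact_mod_cast (by omega : 0 < n)
  have hn6 : (0 : ℝ) < (n : ℝ) ^ 6 := by positivity
  obtain ⟨χ, hχ⟩ := hN1 n hn1 H E hH hK hP hdn hE
  have hsg : sg2 χ ≤ y + ε := hN2 n hn2 H E χ ⟨hH, hK, hP, hdn, hE, fun ψ hψ' =>
    le_trans (neg_le_neg (mul_le_mul_of_nonneg_right (min_le_left _ _) hn6.le)) (hχ ψ hψ'),
    trivial⟩
  have h8 : sg2 χ ≤ s ^ 2 := by linarith
  obtain ⟨M, f, g, h10⟩ := hN3 n hn3 E χ hE.1 hE.2.1 h8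
  set Y : ℝ := ∑ t ∈ inj (Fin n) 6, ((Ξ (zb E t) (fun i => χ (t i)) : ℤ) : ℝ) with hY
  set C4 : ℝ := 24 * ((K8.cst (wc wp wm) H E : ℤ) : ℝ) / (n : ℝ) ^ 4 with hC4
  -- the column of the colouring
  have h11 : -(ε * (n : ℝ) ^ 6) ≤ (n : ℝ) ^ 6 * (240 * a * (11 / 16 - e4 E) + k -
      30 * c * sg2 χ) + (2160 * a + 450 * c) * (n : ℝ) ^ 5 - Y := by
    refine le_trans ?_ (le_trans (hχ _ hψ) (colG_le a k c Ξ hn8 H E χ hE.1))
    exact neg_le_neg (mul_le_mul_of_nonneg_right (min_le_right _ _) hn6.le)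
  -- the smallest cost
  have h12 : cost w H χR MR fR gR ≤ X4 H E + X4 E (gir χ M f g) + w * sg2 χ := by
    have h13 := hb χ M f g
    have h14 := X4_triangle H E (gir χ M f g)
    unfold cost at h13 ⊢
    linarith
  have h15 : w0 * X4 H E ≤ C4 := X4_le_cst wp wm w0 hwp hwm (by omega) H E hH hE.1
  have hg0 := sg2_nonneg χ
  have h16 : T * (w * sg2 χ) ≤ 30 * c * sg2 χ := by
    have h21 := mul_le_mul_of_nonneg_right hw hg0
    rw [hT]
    linarith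
  have h17 : T * X4 H E ≤ 15 * α * C4 := by
    have h23 := mul_le_mul_of_nonneg_left h15 (by positivity : (0 : ℝ) ≤ 15 * α)
    rw [hT]
    linarith
  have h18 : (n : ℝ) ^ 6 * (T * cost w H χR MR fR gR) ≤
      (n : ℝ) ^ 6 * (15 * α * C4 + 30 * c * sg2 χ) + Y + ε * (n : ℝ) ^ 6 := by
    have h19 := mul_le_mul_of_nonneg_left (mul_le_mul_of_nonneg_left h12 hT0) hn6.le
    have h20 : (n : ℝ) ^ 6 * (T * X4 H E + T * (w * sg2 χ)) ≤
        (n : ℝ) ^ 6 * (15 * α * C4 + 30 * c * sg2 χ) :=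
      mul_le_mul_of_nonneg_left (by linarith) hn6.le
    have e1 : (n : ℝ) ^ 6 * (T * (X4 H E + X4 E (gir χ M f g) + w * sg2 χ)) =
        (n : ℝ) ^ 6 * (T * X4 H E + T * (w * sg2 χ)) +
        T * X4 E (gir χ M f g) * (n : ℝ) ^ 6 := by ring
    rw [e1] at h19
    linarith
  -- the sum
  have e1 : ∑ t ∈ inj (Fin n) 6, ((fnB (colT wp wm w0 α a k c') H E χR MR fR gR t : ℤ) : ℝ) =
      α * ∑ t ∈ inj (Fin n) 6, ((cw (wc wp wm) (zb H t) (zb E t) : ℤ) : ℝ) +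
      a * ∑ t ∈ inj (Fin n) 6, ((colR (zb E t) : ℤ) : ℝ) + k * (n.descFactorial 6 : ℝ) -
      (α * w0 * ∑ t ∈ inj (Fin n) 6,
        ((cw (wc 1 1) (zb H t) (zb (gir χR MR fR gR) t) : ℤ) : ℝ) +
      c' * ∑ t ∈ inj (Fin n) 6, ((S2 (fun i => χR (t i)) : ℤ) : ℝ)) := by
    have e2 : ∀ t : Fin 6 → Fin n,
        ((fnB (colT wp wm w0 α a k c') H E χR MR fR gR t : ℤ) : ℝ) =
        α * ((cw (wc wp wm) (zb H t) (zb E t) : ℤ) : ℝ) + a * ((colR (zb E t) : ℤ) : ℝ) + k -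
        (α * w0 * ((cw (wc 1 1) (zb H t) (zb (gir χR MR fR gR) t) : ℤ) : ℝ) +
        c' * ((S2 (fun i => χR (t i)) : ℤ) : ℝ)) := by
      intro t
      unfold fnB colT colR
      push_cast
      ring
    rw [Finset.sum_congr rfl fun t _ => e2 t, Finset.sum_sub_distrib, Finset.sum_add_distrib,
      Finset.sum_add_distrib, Finset.sum_add_distrib, ← Finset.mul_sum, ← Finset.mul_sum,
      ← Finset.mul_sum, ← Finset.mul_sum, Finset.sum_const, nsmul_eq_mul, card_inj,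
      Fintype.card_fin]
    ring
  show (0 - η) * (n : ℝ) ^ 6 ≤ _
  rw [e1]
  have b1 := mul_le_mul_of_nonneg_left (sum6_cw_ge wp wm H E (by omega))
    (Nat.cast_nonneg (α := ℝ) α)
  have b2 : (n : ℝ) ^ 6 * (240 * a * (11 / 16 - e4 E)) - 2475 * a * (n : ℝ) ^ 5 ≤
      a * ∑ t ∈ inj (Fin n) 6, ((colR (zb E t) : ℤ) : ℝ) := by
    have h21 := colW_ge a 0 0 hn8 H E χ hE.1
    have e3 : ∑ t ∈ inj (Fin n) 6,
        ((colW a 0 0 (zb H t) (zb E t) (fun i => χ (t i)) : ℤ) : ℝ) =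
        a * ∑ t ∈ inj (Fin n) 6, ((colR (zb E t) : ℤ) : ℝ) := by
      rw [Finset.mul_sum]
      refine Finset.sum_congr rfl fun t _ => ?_
      unfold colW colR
      push_cast
      ring
    rw [e3] at h21
    refine le_trans (le_of_eq ?_) h21
    push_cast
    ring
  have b3 : (k : ℝ) * ((n : ℝ) ^ 6 - 15 * (n : ℝ) ^ 5) ≤ k * (n.descFactorial 6 : ℝ) := by
    refine mul_le_mul_of_nonneg_left ?_ (Nat.cast_nonneg _)
    have := desc6_ge n
    linarith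
  have b4 := mul_le_mul_of_nonneg_left (sum6_cw_one_le H (gir χR MR fR gR) hH
    (gir_card χR MR fR gR) hn8) (by positivity : (0 : ℝ) ≤ α * w0)
  have b5 := mul_le_mul_of_nonneg_left (sum6_S2_le hn8 χR) (Nat.cast_nonneg (α := ℝ) c')
  have b6 : (n : ℝ) ^ 6 * (30 * c' * sg2 χR) ≤ (n : ℝ) ^ 6 * (T * (w * sg2 χR)) := by
    refine mul_le_mul_of_nonneg_left ?_ hn6.le
    have h21 := mul_le_mul_of_nonneg_right hw' (sg2_nonneg χR)
    rw [hT]
    linarith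
  have h22 := hN4 n hn4
  have e4 : (n : ℝ) ^ 6 * (T * cost w H χR MR fR gR) =
      (α * w0) * ((n : ℝ) ^ 6 * (15 * X4 H (gir χR MR fR gR))) +
      (n : ℝ) ^ 6 * (T * (w * sg2 χR)) := by
    unfold cost
    rw [hT]
    ring
  rw [e4] at h18
  have e5 : (n : ℝ) ^ 6 * (240 * a * (11 / 16 - K9.Star.e4 E) + k - 30 * c * sg2 χ) =
      (n : ℝ) ^ 6 * (240 * a * (11 / 16 - K9.Star.e4 E)) + k * (n : ℝ) ^ 6 -
      (n : ℝ) ^ 6 * (30 * c * sg2 χ) := by ring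
  rw [e5] at h11
  have e6 : (α : ℝ) * ((n : ℝ) ^ 6 * (15 * (24 * ((K8.cst (wc wp wm) H E : ℤ) : ℝ) /
      (n : ℝ) ^ 4)) - 135 * (wp + wm) * (n : ℝ) ^ 5) =
      (n : ℝ) ^ 6 * (15 * α * C4) - 135 * (wp + wm) * α * (n : ℝ) ^ 5 := by
    rw [hC4]
    ring
  rw [e6] at b1
  have e7 : (n : ℝ) ^ 6 * (15 * α * C4 + 30 * c * sg2 χ) =
      (n : ℝ) ^ 6 * (15 * α * C4) + (n : ℝ) ^ 6 * (30 * c * sg2 χ) := by ring
  rw [e7] at h18
  have e8 : ((2160 * (a : ℝ) + 450 * c) + 135 * (wp + wm) * α + 2475 * a + 15 * k) *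
      (n : ℝ) ^ 5 = (2160 * a + 450 * c) * (n : ℝ) ^ 5 + 135 * (wp + wm) * α * (n : ℝ) ^ 5 +
      2475 * a * (n : ℝ) ^ 5 + 15 * k * (n : ℝ) ^ 5 := by ring
  rw [e8] at h22
  have e9 : (k : ℝ) * ((n : ℝ) ^ 6 - 15 * (n : ℝ) ^ 5) =
      k * (n : ℝ) ^ 6 - 15 * k * (n : ℝ) ^ 5 := by ring
  rw [e9] at b3
  have e10 : (c' : ℝ) * ((n : ℝ) ^ 6 * (30 * sg2 χR)) = (n : ℝ) ^ 6 * (30 * c' * sg2 χR) := by
    ring
  rw [e10] at b5
  have h23 : ε * (n : ℝ) ^ 6 ≤ η / 4 * (n : ℝ) ^ 6 := mul_le_mul_of_nonneg_right hε1 hn6.le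
  have h24 : 0 ≤ η * (n : ℝ) ^ 6 := by positivity
  linarith

end near

end Pool.Agent.Lib.MP_afdd4d_co.K9.Star.Tw
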