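import Pool.Agent.Lib.MP_afdd4d_co.K9.TwLaw
import Pool.Agent.Lib.MP_afdd4d_co.K9.TwKM
import Pool.Agent.Lib.MP_afdd4d_co.K9.TwNearQ

/-!
# Local theorems

The upper bound of the density for 4-graphs and structures that satisfy a condition, without a
reduction to extremal 4-graphs.
-/

namespace Pool.Agent.Lib.MP_afdd4d_co.K9.Star.Tw

open Finset K8
open Pool.Agent.Lib.MP_afdd4d_co.K9.Marks

/-! ### The density from the sum over the windows -/

/-- The density from the sum of the density defects of the windows. -/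
theorem e4_le_of_sum (N : ℕ) (hN : 0 < N) (ε : ℝ) (hε : 0 < ε) :
    ∃ δ : ℝ, 0 < δ ∧ ∃ N0 : ℕ, ∀ n : ℕ, N0 ≤ n → ∀ H : Finset (Finset (Fin n)),
      (∀ e ∈ H, e.card = 4) →
      -(δ * (n : ℝ) ^ 6) ≤
        ∑ t ∈ inj (Fin n) 6, (((N * (165 - 16 * S4 (zb H t)) : ℤ)) : ℝ) →
      e4 H ≤ 11 / 16 + ε := by
  have hN' : (0 : ℝ) < N := by exact_mod_cast hN
  obtain ⟨N2, hN2⟩ := n5_aux (C := 2160) (δ := 120 * ε) (by positivity)
  refine ⟨N * (120 * ε), by positivity, max 1 N2, fun n hn H h4 s => ?_⟩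
  have hn1 : 1 ≤ n := le_trans (le_max_left _ _) hn
  have h10 := hN2 n (le_trans (le_max_right _ _) hn)
  have hn0 : (0 : ℝ) < n := by exact_mod_cast hn1
  have e1 : ∑ t ∈ inj (Fin n) 6, (((N * (165 - 16 * S4 (zb H t)) : ℤ)) : ℝ) =
      N * ∑ t ∈ inj (Fin n) 6, ((colR (zb H t) : ℤ) : ℝ) := by
    rw [Finset.mul_sum]
    refine Finset.sum_congr rfl fun t _ => ?_
    unfold colR
    push_cast
    ring
  rw [e1, sum_colR_eq H h4] at s
  have s2 : -(120 * ε * (n : ℝ) ^ 6) ≤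
      165 * (n.descFactorial 6 : ℝ) - 16 * (360 * (PP n 4 2 * (H.card : ℝ))) := by
    have e : -(N * (120 * ε) * (n : ℝ) ^ 6) = N * -(120 * ε * (n : ℝ) ^ 6) := by ring
    rw [e] at s
    exact le_of_mul_le_mul_left s hN'
  have h2 := PP42_ge n
  have h3 : ((n : ℝ) ^ 2 - 9 * n) * (H.card : ℝ) ≤ PP n 4 2 * (H.card : ℝ) :=
    mul_le_mul_of_nonneg_right h2 (Nat.cast_nonneg _)
  have h5 := desc_le n 6
  have h6 : 24 * (H.card : ℝ) ≤ (n : ℝ) ^ 4 := by
    have := card_quads_le H h4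
    linarith
  have fe : 24 * (H.card : ℝ) = (n : ℝ) ^ 4 * e4 H := by
    unfold e4
    field_simp
  have h7 : 9 * (n : ℝ) * (24 * (H.card : ℝ)) ≤ 9 * (n : ℝ) * (n : ℝ) ^ 4 :=
    mul_le_mul_of_nonneg_left h6 (by positivity)
  have h8 : (n : ℝ) ^ 6 * e4 H = (n : ℝ) ^ 2 * (24 * (H.card : ℝ)) := by rw [fe]; ring
  have h9 : 240 * ((n : ℝ) ^ 6 * e4 H) ≤ 165 * (n : ℝ) ^ 6 + 120 * ε * (n : ℝ) ^ 6 +
      2160 * (n : ℝ) ^ 5 := by
    rw [h8]
    have e : 9 * (n : ℝ) * (n : ℝ) ^ 4 = 9 * (n : ℝ) ^ 5 := by ring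
    rw [e] at h7
    linarith
  have hn6 : (0 : ℝ) < (n : ℝ) ^ 6 := by positivity
  have fin : (n : ℝ) ^ 6 * (240 * e4 H) ≤ (n : ℝ) ^ 6 * (165 + 240 * ε) := by
    have e : (n : ℝ) ^ 6 * (165 + 240 * ε) = 165 * (n : ℝ) ^ 6 + 240 * ε * (n : ℝ) ^ 6 := by ring
    rw [e]
    linarith
  have := le_of_mul_le_mul_left fin hn6
  linarith

/-- The number of edges from the density. -/
theorem card_le_of_e4 (ε : ℝ) (hε : 0 < ε) : ∃ N : ℕ, ∀ n : ℕ, N ≤ n →
    ∀ H : Finset (Finset (Fin n)), e4 H ≤ 11 / 16 + ε / 2 →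
      (H.card : ℝ) ≤ ((11 / 16 : ℝ) + ε) * ((n.choose 4 : ℕ) : ℝ) := by
  obtain ⟨N2, hN2⟩ := exists_nat_gt ((11 / 16 + ε) * 12 / ε)
  refine ⟨max 4 N2, fun n hn H key => ?_⟩
  have hn4 : 4 ≤ n := le_trans (le_max_left _ _) hn
  have hnN2 : (N2 : ℝ) ≤ n := by exact_mod_cast le_trans (le_max_right _ _) hn
  have hn0 : (0 : ℝ) < n := by exact_mod_cast (by omega : 0 < n)
  have h6 := choose4_ge n hn4
  unfold e4 at key
  rw [div_le_iff₀ (by positivity)] at key
  have h7 : (11 / 16 + ε) * 12 / ε < n := lt_of_lt_of_le hN2 hnN2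
  rw [div_lt_iff₀ hε] at h7
  have h8 : (11 / 16 + ε) * ((n : ℝ) ^ 4 / 24 - (n : ℝ) ^ 3 / 4) ≤
      (11 / 16 + ε) * ((n.choose 4 : ℕ) : ℝ) := mul_le_mul_of_nonneg_left h6 (by linarith)
  have h9 : (11 / 16 + ε) * 12 * (n : ℝ) ^ 3 ≤ n * ε * (n : ℝ) ^ 3 :=
    mul_le_mul_of_nonneg_right h7.le (by positivity)
  have h10 : n * ε * (n : ℝ) ^ 3 = ε * (n : ℝ) ^ 4 := by ring
  rw [h10] at h9
  have h11 : (H.card : ℝ) ≤ (11 / 16 + ε / 2) * ((n : ℝ) ^ 4 / 24) := by linarith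
  nlinarith

/-- The bound for a condition from the inequality on windows. -/
theorem loc_of_goodP {Cx : X3} (N : ℕ) (hN : 0 < N)
    (h4 : ∀ {n : ℕ} (H E : Finset (Finset (Fin n))) (χ : Fin n → Bool), Cx H E χ →
      ∀ e ∈ H, e.card = 4)
    (h : GoodP Cx (fun H _ _ t => N * (165 - 16 * S4 (zb H t)))) :
    ∀ ε : ℝ, 0 < ε → ∃ N0 : ℕ, ∀ n : ℕ, N0 ≤ n → ∀ (H E : Finset (Finset (Fin n)))
      (χ : Fin n → Bool), Cx H E χ →
      (H.card : ℝ) ≤ ((11 / 16 : ℝ) + ε) * ((n.choose 4 : ℕ) : ℝ) := by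
  intro ε hε
  obtain ⟨δ, hδ, N1, hN1⟩ := e4_le_of_sum N hN (ε / 2) (by linarith)
  obtain ⟨N2, hN2⟩ := h δ hδ
  obtain ⟨N3, hN3⟩ := card_le_of_e4 ε hε
  refine ⟨max N1 (max N2 N3), fun n hn H E χ hc => ?_⟩
  have hn' : max N2 N3 ≤ n := le_trans (le_max_right _ _) hn
  exact hN3 n (le_trans (le_max_right _ _) hn') H
    (hN1 n (le_trans (le_max_left _ _) hn) H (h4 H E χ hc)
      (hN2 n (le_trans (le_max_left _ _) hn') H E χ hc))

/-- The bound for a condition on reference structures from the inequality on windows. -/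
theorem loc_of_goodC {Cx : CX} (N : ℕ) (hN : 0 < N)
    (h4 : ∀ {n : ℕ} (H : Finset (Finset (Fin n))) (χ : Fin n → Bool) M f g, Cx H χ M f g →
      ∀ e ∈ H, e.card = 4)
    (h : GoodC Cx (fun H _ _ _ _ t => N * (165 - 16 * S4 (zb H t)))) :
    ∀ ε : ℝ, 0 < ε → ∃ N0 : ℕ, ∀ n : ℕ, N0 ≤ n → ∀ (H : Finset (Finset (Fin n)))
      (χ : Fin n → Bool) M f g, Cx H χ M f g →
      (H.card : ℝ) ≤ ((11 / 16 : ℝ) + ε) * ((n.choose 4 : ℕ) : ℝ) := by
  intro ε hε
  obtain ⟨δ, hδ, N1, hN1⟩ := e4_le_of_sum N hN (ε / 2) (by linarith)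
  obtain ⟨N2, hN2⟩ := h δ hδ
  obtain ⟨N3, hN3⟩ := card_le_of_e4 ε hε
  refine ⟨max N1 (max N2 N3), fun n hn H χ M f g hc => ?_⟩
  have hn' : max N2 N3 ≤ n := le_trans (le_max_right _ _) hn
  exact hN3 n (le_trans (le_max_right _ _) hn') H
    (hN1 n (le_trans (le_max_left _ _) hn) H (h4 H χ M f g hc)
      (hN2 n (le_trans (le_max_left _ _) hn') H χ M f g hc))

/-! ### Columns -/

/-- The density of an even 4-graph. -/
theorem goodP_colR {Cx : X3} (hE : EvUp)
    (hc : ∀ {n : ℕ} (H E : Finset (Finset (Fin n))) (χ : Fin n → Bool), Cx H E χ →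
      (∀ e ∈ E, e.card = 4) ∧ EvenH n E) : GoodP Cx (fun _ E _ t => colR (zb E t)) := by
  intro δ hδ
  obtain ⟨N2, hN2⟩ := hE (δ / 240) (by positivity)
  refine ⟨max 6 N2, fun n hn H E χ hx => ?_⟩
  obtain ⟨hE4, hEv⟩ := hc H E χ hx
  have h6 : 6 ≤ n := le_trans (le_max_left _ _) hn
  have h1 := hN2 n (le_trans (le_max_right _ _) hn) E hE4 hEv
  rw [sum_colR_eq _ hE4]
  have h2 := desc6_eq (n := n) h6
  have h3 := PP42_pos h6
  have h4 : PP n 4 2 * (E.card : ℝ) ≤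
      PP n 4 2 * ((11 / 16 + δ / 240) * ((n.choose 4 : ℕ) : ℝ)) :=
    mul_le_mul_of_nonneg_left h1 h3
  have h5 : 5760 * (PP n 4 2 * ((11 / 16 + δ / 240) * ((n.choose 4 : ℕ) : ℝ))) =
      (165 + δ) * (n.descFactorial 6 : ℝ) := by
    rw [h2]
    ring
  have h7 := desc_le n 6
  have h8 : δ * (n.descFactorial 6 : ℝ) ≤ δ * (n : ℝ) ^ 6 := mul_le_mul_of_nonneg_left h7 hδ.le
  linarith

/-- The column of the imbalance. -/
def colI (sn sd : ℕ) (x : Fin 6 → Bool) : ℤ := 30 * (sn : ℤ) ^ 2 - (sd : ℤ) ^ 2 * S2 x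

/-- The imbalance of the colouring. -/
theorem goodP_colI {Cx : X3} (sn sd : ℕ)
    (hc : ∀ {n : ℕ} (H E : Finset (Finset (Fin n))) (χ : Fin n → Bool), Cx H E χ →
      (sd : ℝ) * |(nc χ false : ℝ) - nc χ true| ≤ sn * n) :
    GoodP Cx (fun _ _ χ t => colI sn sd (fun i => χ (t i))) := by
  intro δ hδ
  obtain ⟨N, hN⟩ := n5_aux (C := 450 * (sn : ℝ) ^ 2) hδ
  refine ⟨max 8 N, fun n hn H E χ hx => ?_⟩
  have h8 : 8 ≤ n := le_trans (le_max_left _ _) hn
  have h9 := hN n (le_trans (le_max_right _ _) hn)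
  have hn0 : (0 : ℝ) < n := by exact_mod_cast (by omega : 0 < n)
  have h1 := hc H E χ hx
  have e1 : ∑ t ∈ inj (Fin n) 6, ((colI sn sd (fun i => χ (t i)) : ℤ) : ℝ) =
      30 * (sn : ℝ) ^ 2 * (n.descFactorial 6 : ℝ) -
        (sd : ℝ) ^ 2 * ∑ t ∈ inj (Fin n) 6, ((S2 (fun i => χ (t i)) : ℤ) : ℝ) := by
    rw [Finset.mul_sum]
    have e2 : ∀ t : Fin 6 → Fin n, ((colI sn sd (fun i => χ (t i)) : ℤ) : ℝ) =
        30 * (sn : ℝ) ^ 2 - (sd : ℝ) ^ 2 * ((S2 (fun i => χ (t i)) : ℤ) : ℝ) := by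
      intro t
      unfold colI
      push_cast
      ring
    rw [Finset.sum_congr rfl fun t _ => e2 t, Finset.sum_sub_distrib]
    simp only [Finset.sum_const, nsmul_eq_mul, card_inj, Fintype.card_fin]
    ring
  have h2 : (sd : ℝ) ^ 2 * sg2 χ ≤ (sn : ℝ) ^ 2 := by
    have h3 : ((sd : ℝ) * |(nc χ false : ℝ) - nc χ true|) ^ 2 ≤ (sn * n) ^ 2 :=
      pow_le_pow_left₀ (by positivity) h1 2
    rw [mul_pow, mul_pow, sq_abs] at h3
    unfold sg2
    rw [div_pow, ← mul_div_assoc, div_le_iff₀ (by positivity)]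
    exact h3
  have h3 := sum6_S2_le h8 χ
  have h4 := desc6_ge n
  have h5 : (sd : ℝ) ^ 2 * ∑ t ∈ inj (Fin n) 6, ((S2 (fun i => χ (t i)) : ℤ) : ℝ) ≤
      30 * ((sn : ℝ) ^ 2 * (n : ℝ) ^ 6) := by
    calc (sd : ℝ) ^ 2 * ∑ t ∈ inj (Fin n) 6, ((S2 (fun i => χ (t i)) : ℤ) : ℝ) ≤
        (sd : ℝ) ^ 2 * ((n : ℝ) ^ 6 * (30 * sg2 χ)) :=
          mul_le_mul_of_nonneg_left h3 (by positivity)
      _ = 30 * (((sd : ℝ) ^ 2 * sg2 χ) * (n : ℝ) ^ 6) := by ring
      _ ≤ 30 * ((sn : ℝ) ^ 2 * (n : ℝ) ^ 6) := by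
          have := mul_le_mul_of_nonneg_right h2 (by positivity : (0 : ℝ) ≤ (n : ℝ) ^ 6)
          linarith
  have h6 : 30 * (sn : ℝ) ^ 2 * ((n : ℝ) ^ 6 - (n.descFactorial 6 : ℝ)) ≤
      30 * (sn : ℝ) ^ 2 * (15 * (n : ℝ) ^ 5) :=
    mul_le_mul_of_nonneg_left h4 (by positivity)
  rw [e1]
  have e3 : 30 * (sn : ℝ) ^ 2 * ((n : ℝ) ^ 6 - (n.descFactorial 6 : ℝ)) =
      30 * ((sn : ℝ) ^ 2 * (n : ℝ) ^ 6) - 30 * (sn : ℝ) ^ 2 * (n.descFactorial 6 : ℝ) := by ring
  have e4 : 30 * (sn : ℝ) ^ 2 * (15 * (n : ℝ) ^ 5) = 450 * (sn : ℝ) ^ 2 * (n : ℝ) ^ 5 := by ring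
  rw [e3, e4] at h6
  linarith

/-! ### The theorem for pairs -/

/-- Two vertices of each colour. -/
def c22 (a b c d : Bool) : Bool := decide (a.toNat + b.toNat + c.toNat + d.toNat = 2)

/-- The function of the window: the quadruple of the vertices `i`, `j`, `k`, `l` has two vertices of
each colour and is in exactly one of the two 4-graphs. -/
def jB {N : ℕ} (i j k l : Fin N) (D : WD N) : Bool :=
  c22 (D.c i) (D.c j) (D.c k) (D.c l) && (D.e {i, j, k, l} ^^ D.r {i, j, k, l})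

/-- The quadruples with two vertices of each colour that contain two vertices and are in exactly one
of the two 4-graphs. -/
def qJ {n : ℕ} (H E : Finset (Finset (Fin n))) (χ : Fin n → Bool) (x y : Fin n) :
    Finset (Finset (Fin n)) :=
  (symmDiff H E).filter fun Q => x ∈ Q ∧ y ∈ Q ∧ (Q.filter fun v => χ v = true).card = 2

/-- Each pair of vertices of different colours is in a small number of these quadruples. -/
def PairJ (dn dd : ℕ) {n : ℕ} (H E : Finset (Finset (Fin n))) (χ : Fin n → Bool) : Prop :=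
  ∀ x y : Fin n, χ x = false → χ y = true → dd * (qJ H E χ x y).card ≤ dn * n.choose 2

theorem card_true4 {n : ℕ} (χ : Fin n → Bool) (q : Fin 4 → Fin n) (hq : Function.Injective q) :
    ((univ.image q).filter fun v => χ v = true).card =
      (χ (q 0)).toNat + (χ (q 1)).toNat + (χ (q 2)).toNat + (χ (q 3)).toNat := by
  rw [Finset.filter_image, Finset.card_image_of_injective _ hq, Finset.card_filter]
  rw [Fin.sum_univ_four]
  have e : ∀ b : Bool, (if b = true then 1 else 0) = b.toNat := by decide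
  rw [e, e, e, e]

theorem sum_jB {n k : ℕ} (P : ParX) (H E : Finset (Finset (Fin n))) (χ : Fin n → Bool)
    (hH : ∀ e ∈ H, e.card = 4) (hE : ∀ e ∈ E, e.card = 4) (s : Fin (2 + k) → Fin n)
    (h0 : χ (s (Fin.castAdd k 0)) = false) (h1 : χ (s (Fin.castAdd k 1)) = true) :
    ∑ u : Fin 2 → Fin n, (((jB (Fin.castAdd 2 (Fin.castAdd k 0)) (Fin.castAdd 2 (Fin.castAdd k 1))
      (Fin.natAdd (2 + k) 0) (Fin.natAdd (2 + k) 1) (wt P H E χ (Fin.append s u))).toNat : ℕ) : ℤ) ≤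
      2 * ((qJ H E χ (s (Fin.castAdd k 0)) (s (Fin.castAdd k 1))).card : ℤ) := by
  classical
  set x := s (Fin.castAdd k 0) with hx
  set y := s (Fin.castAdd k 1) with hy
  have hxy : x ≠ y := by
    intro h
    rw [h, h1] at h0
    exact absurd h0 (by decide)
  have hinj : Function.Injective (![x, y] : Fin 2 → Fin n) := by
    intro a b hab
    fin_cases a <;> fin_cases b
    · rfl
    · exact absurd hab hxy
    · exact absurd hab.symm hxy
    · rfl
  set F : Finset (Fin n) → ℤ := fun Q =>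
    if Q ∈ symmDiff H E ∧ (Q.filter fun v => χ v = true).card = 2 then 1 else 0 with hF
  have h3 := sum_root 2 (![x, y] : Fin 2 → Fin n) hinj F
  have h4 : ∑ Q ∈ (univ : Finset (Fin n)).powersetCard (2 + 2),
      (if univ.image (![x, y] : Fin 2 → Fin n) ⊆ Q then F Q else 0) =
      ((qJ H E χ x y).card : ℤ) := by
    have e1 : ∀ Q : Finset (Fin n), (if univ.image (![x, y] : Fin 2 → Fin n) ⊆ Q then F Q else 0) =
        if Q ∈ qJ H E χ x y then (1 : ℤ) else 0 := by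
      intro Q
      rw [hF]
      have e2 : univ.image (![x, y] : Fin 2 → Fin n) ⊆ Q ↔ x ∈ Q ∧ y ∈ Q := by
        constructor
        · intro h
          exact ⟨h (Finset.mem_image.mpr ⟨0, Finset.mem_univ _, rfl⟩),
            h (Finset.mem_image.mpr ⟨1, Finset.mem_univ _, rfl⟩)⟩
        · rintro ⟨ha, hb⟩ z hz
          rw [Finset.mem_image] at hz
          obtain ⟨i, _, rfl⟩ := hz
          fin_cases i
          · exact ha
          · exact hb
      have e3 : Q ∈ qJ H E χ x y ↔ Q ∈ symmDiff H E ∧ x ∈ Q ∧ y ∈ Q ∧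
          (Q.filter fun v => χ v = true).card = 2 := Finset.mem_filter
      by_cases hp : Q ∈ qJ H E χ x y
      · rw [if_pos hp]
        rw [e3] at hp
        rw [if_pos (e2.mpr ⟨hp.2.1, hp.2.2.1⟩)]
        beta_reduce
        rw [if_pos ⟨hp.1, hp.2.2.2⟩]
      · rw [if_neg hp]
        rw [e3] at hp
        by_cases hq : univ.image (![x, y] : Fin 2 → Fin n) ⊆ Q
        · rw [if_pos hq]
          beta_reduce
          rw [if_neg]
          intro h5
          exact hp ⟨h5.1, (e2.mp hq).1, (e2.mp hq).2, h5.2⟩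
        · rw [if_neg hq]
    rw [Finset.sum_congr rfl fun Q _ => e1 Q, Finset.sum_boole]
    congr 2
    ext Q
    rw [Finset.mem_filter, Finset.mem_powersetCard]
    constructor
    · intro h
      exact h.2
    · intro h
      refine ⟨⟨Finset.subset_univ _, ?_⟩, h⟩
      have h5 := (Finset.mem_filter.mp h).1
      rw [Finset.mem_symmDiff] at h5
      rcases h5 with h6 | h6
      · exact hH Q h6.1
      · exact hE Q h6.1
  rw [h4] at h3
  have h5 : ((Nat.factorial 2 : ℕ) : ℤ) = 2 := by decide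
  rw [h5] at h3
  rw [← h3]
  refine Finset.sum_le_sum fun u _ => ?_
  set q : Fin (2 + 2) → Fin n := Fin.append ![x, y] u with hq
  have q0 : q 0 = x := Fin.append_left (![x, y] : Fin 2 → Fin n) u 0
  have q1 : q 1 = y := Fin.append_left (![x, y] : Fin 2 → Fin n) u 1
  have q2 : q 2 = u 0 := Fin.append_right (![x, y] : Fin 2 → Fin n) u 0
  have q3 : q 3 = u 1 := Fin.append_right (![x, y] : Fin 2 → Fin n) u 1
  have ht : ∀ (p : Fin (2 + k + 2) → Fin n) (hp : p = Fin.append s u),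
      p (Fin.castAdd 2 (Fin.castAdd k 0)) = x ∧ p (Fin.castAdd 2 (Fin.castAdd k 1)) = y ∧
      p (Fin.natAdd (2 + k) 0) = u 0 ∧ p (Fin.natAdd (2 + k) 1) = u 1 := by
    intro p hp
    rw [hp]
    exact ⟨Fin.append_left s u _, Fin.append_left s u _, Fin.append_right s u _,
      Fin.append_right s u _⟩
  obtain ⟨t0, t1, t2, t3⟩ := ht _ rfl
  have him : univ.image q = {x, y, u 0, u 1} := by
    ext z
    rw [Finset.mem_image]
    simp only [Finset.mem_insert, Finset.mem_singleton]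
    constructor
    · rintro ⟨i, _, rfl⟩
      fin_cases i
      · exact Or.inl q0
      · exact Or.inr (Or.inl q1)
      · exact Or.inr (Or.inr (Or.inl q2))
      · exact Or.inr (Or.inr (Or.inr q3))
    · rintro (h | h | h | h)
      · exact ⟨0, Finset.mem_univ _, by rw [h]; exact q0⟩
      · exact ⟨1, Finset.mem_univ _, by rw [h]; exact q1⟩
      · exact ⟨2, Finset.mem_univ _, by rw [h]; exact q2⟩
      · exact ⟨3, Finset.mem_univ _, by rw [h]; exact q3⟩
  have hz : ∀ G : Finset (Finset (Fin n)), zb G (Fin.append s u)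
      {Fin.castAdd 2 (Fin.castAdd k 0), Fin.castAdd 2 (Fin.castAdd k 1), Fin.natAdd (2 + k) 0,
        Fin.natAdd (2 + k) 1} = decide (univ.image q ∈ G) := by
    intro G
    rw [zb_eq]
    show decide (_ ∈ G) = _
    rw [Finset.image_insert, Finset.image_insert, Finset.image_insert, Finset.image_singleton,
      t0, t1, t2, t3, him]
  have hb : jB (Fin.castAdd 2 (Fin.castAdd k 0)) (Fin.castAdd 2 (Fin.castAdd k 1))
      (Fin.natAdd (2 + k) 0) (Fin.natAdd (2 + k) 1) (wt P H E χ (Fin.append s u)) =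
      (c22 (χ x) (χ y) (χ (u 0)) (χ (u 1)) &&
        (decide (univ.image q ∈ H) ^^ decide (univ.image q ∈ E))) := by
    unfold jB wt
    simp only [hz, t0, t1, t2, t3]
  rw [hb]
  by_cases hqi : Function.Injective q
  · rw [if_pos hqi, hF]
    beta_reduce
    have hcard := card_true4 χ q hqi
    rw [q0, q1, q2, q3] at hcard
    by_cases hm : univ.image q ∈ symmDiff H E ∧
        ((univ.image q).filter fun v => χ v = true).card = 2
    · rw [if_pos hm]
      exact_mod_cast Bool.toNat_le _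
    · rw [if_neg hm]
      have hfalse : (c22 (χ x) (χ y) (χ (u 0)) (χ (u 1)) &&
        (decide (univ.image q ∈ H) ^^ decide (univ.image q ∈ E))) = false := by
        by_contra hne
        rw [Bool.not_eq_false, Bool.and_eq_true] at hne
        apply hm
        constructor
        · rw [Finset.mem_symmDiff]
          have h6 := hne.2
          by_cases ha : univ.image q ∈ H <;> by_cases hb' : univ.image q ∈ E
          · rw [decide_eq_true ha, decide_eq_true hb'] at h6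
            exact absurd h6 (by decide)
          · exact Or.inl ⟨ha, hb'⟩
          · exact Or.inr ⟨hb', ha⟩
          · rw [decide_eq_false ha, decide_eq_false hb'] at h6
            exact absurd h6 (by decide)
        · rw [hcard]
          have h6 := hne.1
          unfold c22 at h6
          exact of_decide_eq_true h6
      rw [hfalse]
      rfl
  · rw [if_neg hqi]
    have hcard : (univ.image q).card ≠ 4 := by
      intro h6
      apply hqi
      have h7 : (univ.image q).card = (univ : Finset (Fin (2 + 2))).card := by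
        rw [h6, Finset.card_univ, Fintype.card_fin]
      intro a b hab
      exact Finset.injOn_of_card_image_eq h7 (Finset.mem_coe.mpr (Finset.mem_univ a))
        (Finset.mem_coe.mpr (Finset.mem_univ b)) hab
    have ha : univ.image q ∉ H := fun h6 => hcard (hH _ h6)
    have hb' : univ.image q ∉ E := fun h6 => hcard (hE _ h6)
    rw [decide_eq_false ha, decide_eq_false hb']
    have e : ∀ b : Bool, ((b && (false ^^ false)).toNat : ℤ) ≤ 0 := by decide
    exact e _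

/-- The column of a pair of vertices of different colours, on the data of a window. -/
def j4V {k : ℕ} (μ : MuX (2 + k)) (dn dd : ℕ) (j : Fin (2 + k + 2) → Fin 6) (D : WD 6) : ℤ :=
  ((μ.on fun D => !D.c (Fin.castAdd k 0) && D.c (Fin.castAdd k 1)).F
    (D.sub (j ∘ Fin.castAdd 2)) : ℕ) *
    ((dn : ℤ) - dd * (((jB (Fin.castAdd 2 (Fin.castAdd k 0)) (Fin.castAdd 2 (Fin.castAdd k 1))
      (Fin.natAdd (2 + k) 0) (Fin.natAdd (2 + k) 1) (D.sub j)).toNat : ℕ) : ℤ))

theorem gv_j4 {Cx : X3} {P : ParX} {k : ℕ} (μ : MuX (2 + k)) (dn dd : ℕ)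
    (j : Fin (2 + k + 2) → Fin 6) (hj : Function.Injective j)
    (hc : ∀ {n : ℕ} (H E : Finset (Finset (Fin n))) (χ : Fin n → Bool), Cx H E χ →
      (∀ e ∈ H, e.card = 4) ∧ (∀ e ∈ E, e.card = 4) ∧ PairJ dn dd H E χ) :
    GV Cx P (j4V μ dn dd j) := by
  have h1 := good_upW (Cx := Cx) (m := 2 + k) (l := 2)
    (muPh (μ.on fun D => !D.c (Fin.castAdd k 0) && D.c (Fin.castAdd k 1)) P)
    (BD P (jB (Fin.castAdd 2 (Fin.castAdd k 0)) (Fin.castAdd 2 (Fin.castAdd k 1))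
      (Fin.natAdd (2 + k) 0) (Fin.natAdd (2 + k) 1))) dn dd j hj ?_
  · refine GoodP.mono h1 fun H E χ _ t _ => le_of_eq ?_
    unfold j4V
    rw [← wt_comp, ← wt_comp]
    rfl
  · intro n H E χ hx s hs
    obtain ⟨hH, hE, hP⟩ := hc H E χ hx
    have h2 := on_ne μ P _ hs
    rw [Bool.and_eq_true] at h2
    have h3 : χ (s (Fin.castAdd k 0)) = false := by
      have h4 : (!χ (s (Fin.castAdd k 0))) = true := h2.1
      rwa [Bool.not_eq_true'] at h4
    have h4 : χ (s (Fin.castAdd k 1)) = true := h2.2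
    have h5 := sum_jB P H E χ hH hE s h3 h4
    have h6 := hP _ _ h3 h4
    have h7 : (dd : ℤ) * ((qJ H E χ (s (Fin.castAdd k 0)) (s (Fin.castAdd k 1))).card : ℤ) ≤
        dn * ((n.choose 2 : ℕ) : ℤ) := by exact_mod_cast h6
    have h8 : 2 * ((n.choose 2 : ℕ) : ℤ) ≤ (n : ℤ) ^ 2 := by
      have h9 : 2 * n.choose 2 ≤ n ^ 2 := by
        rw [Nat.choose_two_right]
        have h10 := Nat.div_mul_le_self (n * (n - 1)) 2
        have h11 : n * (n - 1) ≤ n ^ 2 := by
          rw [sq]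
          exact Nat.mul_le_mul_left n (Nat.sub_le n 1)
        omega
      exact_mod_cast h9
    have h9 : (dd : ℤ) * ∑ u : Fin 2 → Fin n,
        (((jB (Fin.castAdd 2 (Fin.castAdd k 0)) (Fin.castAdd 2 (Fin.castAdd k 1))
          (Fin.natAdd (2 + k) 0) (Fin.natAdd (2 + k) 1)
            (wt P H E χ (Fin.append s u))).toNat : ℕ) : ℤ) ≤
        dd * (2 * ((qJ H E χ (s (Fin.castAdd k 0)) (s (Fin.castAdd k 1))).card : ℤ)) :=
      mul_le_mul_of_nonneg_left h5 (Int.natCast_nonneg _)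
    have h10 : (dn : ℤ) * (2 * ((n.choose 2 : ℕ) : ℤ)) ≤ dn * (n : ℤ) ^ 2 :=
      mul_le_mul_of_nonneg_left h8 (Int.natCast_nonneg _)
    refine le_trans h9 (le_trans ?_ h10)
    linarith

/-- The condition of the theorem for pairs. -/
structure CtJ (dn dd sn sd : ℕ) {n : ℕ} (H E : Finset (Finset (Fin n))) (χ : Fin n → Bool) :
    Prop where
  h4 : ∀ e ∈ H, e.card = 4
  k5 : K5F H
  g : ∃ M : Fin n → Fin n → Bool, E = gir χ M (fun _ => false) (fun _ => false)
  s : (sd : ℝ) * |(nc χ false : ℝ) - nc χ true| ≤ sn * n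
  j : PairJ dn dd H E χ

/-- The condition as a family. -/
abbrev CtJX (dn dd sn sd : ℕ) : X3 := fun {_} H E χ => CtJ dn dd sn sd H E χ

theorem CtJ.e4' {dn dd sn sd : ℕ} {n : ℕ} {H E : Finset (Finset (Fin n))} {χ : Fin n → Bool}
    (h : CtJ dn dd sn sd H E χ) : (∀ e ∈ E, e.card = 4) ∧ EvenH n E := by
  obtain ⟨M, rfl⟩ := h.g
  exact ⟨gir_card _ _ _ _, evenH_gir _ _ _ _⟩

/-- The column of a pair of vertices of different colours. -/
theorem gvJ_pair {P : ParX} {dn dd sn sd k : ℕ} (μ : MuX (2 + k)) (j : Fin (2 + k + 2) → Fin 6)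
    (hj : Function.Injective j) : GV (CtJX dn dd sn sd) P (j4V μ dn dd j) :=
  gv_j4 μ dn dd j hj fun _ _ _ hx => ⟨hx.h4, hx.e4'.1, hx.j⟩

/-- The column of the density of the structure. -/
theorem gvJ_colR {P : ParX} {dn dd sn sd : ℕ} (hE : EvUp) :
    GV (CtJX dn dd sn sd) P (fun D => colR D.r) :=
  goodP_colR hE fun _ _ _ hx => hx.e4'

/-- The column of the imbalance. -/
theorem gvJ_colI {P : ParX} {dn dd sn sd : ℕ} :
    GV (CtJX dn dd sn sd) P (fun D => colI sn sd D.c) :=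
  goodP_colI sn sd fun _ _ _ hx => hx.s

/-- The theorem for pairs from the inequality on windows. -/
theorem locJ {P : ParX} (dn dd sn sd N : ℕ) (hN : 0 < N) (v : WD 6 → ℤ)
    (hv : GV (CtJX dn dd sn sd) P v)
    (hrow : ∀ D : WD 6, K5w D.e → (∃ z : Fin 6 → Fin 6 → Bool, D.r = eL D.c z) →
      v D ≤ N * (165 - 16 * S4 D.e)) :
    ∀ ε : ℝ, 0 < ε → ∃ N0 : ℕ, ∀ n : ℕ, N0 ≤ n → ∀ (H : Finset (Finset (Fin n)))
      (χ : Fin n → Bool) (M : Fin n → Fin n → Bool),
      (∀ e ∈ H, e.card = 4) →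
      (∀ S : Finset (Fin n), S.card = 5 → ∃ e ∈ S.powersetCard 4, e ∉ H) →
      (sd : ℝ) * |((univ.filter fun v => χ v = false).card : ℝ) -
        ((univ.filter fun v => χ v = true).card : ℝ)| ≤ sn * n →
      (∀ x y : Fin n, χ x = false → χ y = true →
        dd * ((symmDiff H (gir χ M (fun _ => false) (fun _ => false))).filter fun Q =>
          x ∈ Q ∧ y ∈ Q ∧ (Q.filter fun v => χ v = true).card = 2).card ≤ dn * n.choose 2) →
      (H.card : ℝ) ≤ ((11 / 16 : ℝ) + ε) * ((n.choose 4 : ℕ) : ℝ) := by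
  have h1 : GoodP (CtJX dn dd sn sd) (fun H _ _ t => N * (165 - 16 * S4 (zb H t))) := by
    refine GoodP.mono (Z := fun H E χ t => v (wt P H E χ t)) hv fun H E χ hc t ht => ?_
    refine hrow (wt P H E χ t) (k5w_zb H hc.h4 hc.k5 t ht) ?_
    obtain ⟨M, rfl⟩ := hc.g
    exact ⟨(dt χ M t).2, zb_eL χ M t ht⟩
  have h2 := loc_of_goodP N hN (fun H E χ hc => hc.h4) h1
  intro ε hε
  obtain ⟨N0, hN0⟩ := h2 ε hε
  refine ⟨N0, fun n hn H χ M hH hK hs hj => ?_⟩
  exact hN0 n hn H (gir χ M (fun _ => false) (fun _ => false)) χ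
    ⟨hH, hK, ⟨M, rfl⟩, hs, fun x y hx hy => hj x y hx hy⟩

/-! ### The theorem for a small distance -/

/-- The quadruples of a window of a reference structure. -/
def eF {m : ℕ} (c : Fin m → Bool) (z : Fin m → Fin m → Bool) (f g : Finset (Fin m) → Bool) :
    Finset (Fin m) → Bool :=
  fun S => decide (S.card = 4) && girB c z f g S

theorem zb_eF {n m : ℕ} (χ : Fin n → Bool) (M : Fin n → Fin n → Bool) (f g : Finset (Fin n) → Bool)
    (t : Fin m → Fin n) (ht : Function.Injective t) :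
    zb (gir χ M f g) t = eF (fun i => χ (t i)) (fun i j => M (t i) (t j))
      (fun T => f (T.image t)) (fun T => g (T.image t)) := by
  funext S
  have h1 : (S.image t).card = S.card := Finset.card_image_of_injective _ ht
  have h2 : zb (gir χ M f g) t S = decide (S.image t ∈ gir χ M f g) := by
    rw [zb_eq]
    rfl
  rw [h2]
  unfold eF
  by_cases hS : S.card = 4
  · rw [decide_eq_true hS, Bool.true_and, dec_gir _ _ _ _ _ (h1.trans hS),
      girB_map χ M _ _ t ht S]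
  · rw [decide_eq_false hS, Bool.false_and, decide_eq_false]
    intro h3
    exact hS (h1.symm.trans (gir_card _ _ _ _ _ h3))

/-- The condition of the theorem for a small distance: a reference structure of smallest distance,
at most `x0`. -/
structure CtF (x0 : ℝ) {n : ℕ} (H : Finset (Finset (Fin n))) (χ : Fin n → Bool)
    (M : Fin n → Fin n → Bool) (f g : Finset (Fin n) → Bool) : Prop where
  h4 : ∀ e ∈ H, e.card = 4
  k5 : K5F H
  b : Best 0 H χ M f g
  x : X4 H (gir χ M f g) ≤ x0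

/-- The condition as a family. -/
abbrev CtFX (x0 : ℝ) : CX := fun {_} H χ M f g => CtF x0 H χ M f g

/-- The column of the density of the reference structure. -/
theorem gvF_colR {P : ParX} (x0 : ℝ) (hE : EvUp) : GVC (CtFX x0) P (fun D => colR D.r) := by
  have h1 : GoodP (fun {n} (_ E : Finset (Finset (Fin n))) (χ : Fin n → Bool) =>
      ∃ M f g, E = gir χ M f g) (fun _ E _ t => colR (zb E t)) := by
    refine goodP_colR hE fun H E χ hx => ?_
    obtain ⟨M, f, g, rfl⟩ := hx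
    exact ⟨gir_card _ _ _ _, evenH_gir _ _ _ _⟩
  intro δ hδ
  obtain ⟨N, hN⟩ := h1 δ hδ
  exact ⟨N, fun n hn H χ M f g _ => hN n hn H (gir χ M f g) χ ⟨M, f, g, rfl⟩⟩

/-- The theorem for a small distance from the inequality on windows. -/
theorem locF {P : ParX} (x0 : ℝ) (hx0 : 0 ≤ x0) (N : ℕ) (hN : 0 < N) (v : WD 6 → ℤ)
    (hv : GVC (CtFX x0) P v)
    (hrow : ∀ D : WD 6, K5w D.e → (∃ z f g, D.r = eF D.c z f g) →
      v D ≤ N * (165 - 16 * S4 D.e)) :
    ∀ ε : ℝ, 0 < ε → ∃ N0 : ℕ, ∀ n : ℕ, N0 ≤ n → ∀ (H : Finset (Finset (Fin n)))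
      (χ : Fin n → Bool) (M : Fin n → Fin n → Bool) (f g : Finset (Fin n) → Bool),
      (∀ e ∈ H, e.card = 4) →
      (∀ S : Finset (Fin n), S.card = 5 → ∃ e ∈ S.powersetCard 4, e ∉ H) →
      ((symmDiff H (gir χ M f g)).card : ℝ) ≤ x0 * ((n.choose 4 : ℕ) : ℝ) →
      (H.card : ℝ) ≤ ((11 / 16 : ℝ) + ε) * ((n.choose 4 : ℕ) : ℝ) := by
  have h1 : GoodC (CtFX x0) (fun H _ _ _ _ t => N * (165 - 16 * S4 (zb H t))) := by
    refine GoodC.mono (Z := fun H χ M f g t => v (wd P H χ M f g t)) hv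
      fun H χ M f g hc t ht => ?_
    exact hrow (wd P H χ M f g t) (k5w_zb H hc.h4 hc.k5 t ht) ⟨_, _, _, zb_eF χ M f g t ht⟩
  have h2 := loc_of_goodC N hN (fun H χ M f g hc => hc.h4) h1
  intro ε hε
  obtain ⟨N0, hN0⟩ := h2 ε hε
  refine ⟨max 1 N0, fun n hn H χ M f g hH hK hx => ?_⟩
  have hn1 : 1 ≤ n := le_trans (le_max_left _ _) hn
  have hn0 : (0 : ℝ) < n := by exact_mod_cast hn1
  obtain ⟨χ', M', f', g', hb⟩ := exists_best 0 H
  refine hN0 n (le_trans (le_max_right _ _) hn) H χ' M' f' g' ⟨hH, hK, hb, ?_⟩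
  have h3 := hb χ M f g
  unfold cost at h3
  rw [zero_mul, zero_mul, add_zero, add_zero] at h3
  refine le_trans h3 ?_
  unfold X4
  rw [div_le_iff₀ (by positivity)]
  have h4 : ((n.choose 4 : ℕ) : ℝ) ≤ (n : ℝ) ^ 4 / 24 := by
    have h5 := Nat.choose_le_pow_div (α := ℝ) 4 n
    have h6 : ((Nat.factorial 4 : ℕ) : ℝ) = 24 := by norm_num [Nat.factorial]
    rwa [h6] at h5
  have h5 := mul_le_mul_of_nonneg_left h4 hx0
  linarith

end Pool.Agent.Lib.MP_afdd4d_co.K9.Star.Tw
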