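import Pool.Agent.Lib.MP_afdd4d_co.K9.TwGen

/-!
# Changes of the relation of a structure

The relation between the vertices of the two colours is changed. The membership of a quadruple with
two vertices of each colour in the structure is changed if the change is true for an odd number of
its pairs of vertices of different colours; no other membership is changed.
-/

namespace Pool.Agent.Lib.MP_afdd4d_co.K9.Star.Tw

open Finset K8
open Pool.Agent.Lib.MP_afdd4d_co.K9.Marks

section m22
variable {V W : Type*} [DecidableEq V] [DecidableEq W]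

/-- A quadruple with two vertices of each colour with an odd number of pairs for which the function
is true. -/
def m22 (χ : V → Bool) (φ : V → V → Bool) (Q : Finset V) : Bool :=
  decide ((Q.filter fun v => χ v = true).card = 2) &&
    girB χ φ (fun _ => false) (fun _ => false) Q

theorem m22_map (χ : V → Bool) (φ : V → V → Bool) (s : W → V) (hs : Function.Injective s)
    (Q : Finset W) :
    m22 χ φ (Q.image s) = m22 (fun w => χ (s w)) (fun a b => φ (s a) (s b)) Q := by
  unfold m22
  rw [girB_map χ φ _ _ s hs Q, Finset.filter_image, Finset.card_image_of_injective _ hs]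

theorem m22_congr (χ : V → Bool) (φ φ' : V → V → Bool) (Q : Finset V)
    (h : ∀ a b, χ a = false → χ b = true → φ a b = φ' a b) :
    m22 χ φ Q = m22 χ φ' Q := by
  unfold m22
  rw [girB_congr χ φ φ' _ _ Q h]

/-- A change of the relation. -/
theorem girB_xor (χ : V → Bool) (M φ : V → V → Bool) (Q : Finset V) (hQ : Q.card = 4) :
    girB χ (fun a b => M a b ^^ φ a b) (fun _ => false) (fun _ => false) Q =
      (girB χ M (fun _ => false) (fun _ => false) Q ^^ m22 χ φ Q) := by
  have hle : (Q.filter fun v => χ v = true).card ≤ 4 := by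
    rw [← hQ]
    exact Finset.card_filter_le _ _
  by_cases h2 : (Q.filter fun v => χ v = true).card = 2
  · have e : m22 χ φ Q = girB χ φ (fun _ => false) (fun _ => false) Q := by
      unfold m22
      rw [decide_eq_true h2, Bool.true_and]
    rw [e]
    have g : ∀ N : V → V → Bool, girB χ N (fun _ => false) (fun _ => false) Q =
        oddB (∑ a ∈ Q.filter (fun v => χ v = false), ∑ b ∈ Q.filter (fun v => χ v = true),
          bz (N a b)) := by
      intro N
      unfold girB
      rw [h2, if_neg (by norm_num), if_neg (by norm_num), if_pos rfl]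
    rw [g, g, g]
    have e1 : ∑ a ∈ Q.filter (fun v => χ v = false), ∑ b ∈ Q.filter (fun v => χ v = true),
        bz (M a b ^^ φ a b) =
        ∑ a ∈ Q.filter (fun v => χ v = false), ∑ b ∈ Q.filter (fun v => χ v = true),
          bz (M a b) +
        ∑ a ∈ Q.filter (fun v => χ v = false), ∑ b ∈ Q.filter (fun v => χ v = true),
          bz (φ a b) := by
      rw [← Finset.sum_add_distrib]
      refine Finset.sum_congr rfl fun a _ => ?_
      rw [← Finset.sum_add_distrib]
      exact Finset.sum_congr rfl fun b _ => bz_xor' _ _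
    rw [e1]
    have e2 : ∀ x y : ZMod 2, oddB (x + y) = (oddB x ^^ oddB y) := by decide
    exact e2 _ _
  · have e : m22 χ φ Q = false := by
      unfold m22
      rw [decide_eq_false h2, Bool.false_and]
    rw [e, Bool.xor_false]
    unfold girB
    by_cases h0 : (Q.filter fun v => χ v = true).card = 0
    · rw [if_pos h0, if_pos h0]
    · rw [if_neg h0, if_neg h0]
      by_cases h1 : (Q.filter fun v => χ v = true).card = 1
      · rw [if_pos h1, if_pos h1]
      · rw [if_neg h1, if_neg h1, if_neg h2, if_neg h2]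

/-- Only the quadruples with a pair for which the function is true are changed. -/
theorem m22_supp (χ : V → Bool) (φ : V → V → Bool) (Q : Finset V) (h : m22 χ φ Q = true) :
    ∃ a ∈ Q, ∃ b ∈ Q, χ a = false ∧ χ b = true ∧ φ a b = true := by
  unfold m22 at h
  rw [Bool.and_eq_true, decide_eq_true_eq] at h
  obtain ⟨h2, h3⟩ := h
  unfold girB at h3
  rw [h2, if_neg (by norm_num), if_neg (by norm_num), if_pos rfl] at h3
  by_contra hn
  have e : ∑ a ∈ Q.filter (fun v => χ v = false), ∑ b ∈ Q.filter (fun v => χ v = true),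
      bz (φ a b) = 0 := by
    refine Finset.sum_eq_zero fun a ha => Finset.sum_eq_zero fun b hb => ?_
    rw [Finset.mem_filter] at ha hb
    have h4 : φ a b = false := by
      by_contra h5
      rw [Bool.not_eq_false] at h5
      exact hn ⟨a, ha.1, b, hb.1, ha.2, hb.2, h5⟩
    rw [h4]
    rfl
  rw [e] at h3
  revert h3
  decide

end m22

/-- The change of a tuple of four vertices, explicitly. -/
def p22 (c : Fin 4 → Bool) (z : Fin 4 → Fin 4 → Bool) : Bool :=
  match c 0, c 1, c 2, c 3 with
  | false, false, true, true => (z 0 2 ^^ z 0 3) ^^ (z 1 2 ^^ z 1 3)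
  | false, true, false, true => (z 0 1 ^^ z 0 3) ^^ (z 2 1 ^^ z 2 3)
  | false, true, true, false => (z 0 1 ^^ z 0 2) ^^ (z 3 1 ^^ z 3 2)
  | true, false, false, true => (z 1 0 ^^ z 1 3) ^^ (z 2 0 ^^ z 2 3)
  | true, false, true, false => (z 1 0 ^^ z 1 2) ^^ (z 3 0 ^^ z 3 2)
  | true, true, false, false => (z 2 0 ^^ z 2 1) ^^ (z 3 0 ^^ z 3 1)
  | _, _, _, _ => false

theorem oddB4 (a b c d : Bool) :
    oddB (bz a + bz b + (bz c + bz d)) = ((a ^^ b) ^^ (c ^^ d)) := by
  revert a b c d
  decide

theorem m22_univ (c : Fin 4 → Bool) (z : Fin 4 → Fin 4 → Bool) : m22 c z univ = p22 c z := by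
  have key : ∀ c0 c1 c2 c3 : Bool, c 0 = c0 → c 1 = c1 → c 2 = c2 → c 3 = c3 →
      m22 c z univ = p22 c z := by
    intro c0 c1 c2 c3 h0 h1 h2 h3
    have hc : c = ![c0, c1, c2, c3] := by
      funext i
      fin_cases i <;> simp [h0, h1, h2, h3]
    by_cases hz : (((univ : Finset (Fin 4)).filter fun v => ![c0, c1, c2, c3] v = true).card = 2)
    · have e : ∀ i j k l : Fin 4, i ≠ j → k ≠ l →
          ((univ : Finset (Fin 4)).filter fun v => ![c0, c1, c2, c3] v = false) = {i, j} →
          ((univ : Finset (Fin 4)).filter fun v => ![c0, c1, c2, c3] v = true) = {k, l} →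
          m22 c z univ = ((z i k ^^ z i l) ^^ (z j k ^^ z j l)) := by
        intro i j k l hij hkl hF hT
        rw [hc]
        unfold m22
        rw [decide_eq_true hz, Bool.true_and, girB_two _ z i j k l hij hkl hF hT, oddB4]
      unfold p22
      rw [h0, h1, h2, h3]
      revert e hz
      revert c0 c1 c2 c3
      intro c0 c1 c2 c3 _ _ _ _ _ hz e
      cases c0 <;> cases c1 <;> cases c2 <;> cases c3 <;>
        first
          | exact absurd hz (by decide)
          | exact e 0 1 2 3 (by decide) (by decide) (by decide) (by decide)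
          | exact e 0 2 1 3 (by decide) (by decide) (by decide) (by decide)
          | exact e 0 3 1 2 (by decide) (by decide) (by decide) (by decide)
          | exact e 1 2 0 3 (by decide) (by decide) (by decide) (by decide)
          | exact e 1 3 0 2 (by decide) (by decide) (by decide) (by decide)
          | exact e 2 3 0 1 (by decide) (by decide) (by decide) (by decide)
    · have e : m22 c z univ = false := by
        rw [hc]
        unfold m22
        rw [decide_eq_false hz, Bool.false_and]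
      rw [e]
      unfold p22
      rw [h0, h1, h2, h3]
      revert hz
      cases c0 <;> cases c1 <;> cases c2 <;> cases c3 <;> intro hz <;>
        first
          | rfl
          | exact absurd (by decide) hz
  exact key _ _ _ _ rfl rfl rfl rfl

/-! ### The smallest distance -/

section opt
variable {n : ℕ}

/-- No change of the relation decreases the number of quadruples with two vertices of each colour in
which the 4-graph differs from the structure. -/
def O22 (H E : Finset (Finset (Fin n))) (χ : Fin n → Bool) : Prop :=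
  ∀ φ : Fin n → Fin n → Bool, 0 ≤ ∑ Q ∈ (univ : Finset (Fin n)).powersetCard 4,
    if m22 χ φ Q = true then 1 - 2 * (((decide (Q ∈ H) ^^ decide (Q ∈ E)).toNat : ℕ) : ℤ) else 0

/-- The structure of smallest distance. -/
theorem O22.of_opt (H : Finset (Finset (Fin n))) (h4 : ∀ e ∈ H, e.card = 4) (χ : Fin n → Bool)
    (M : Fin n → Fin n → Bool)
    (h : ∀ M' : Fin n → Fin n → Bool,
      (symmDiff H (gir χ M (fun _ => false) (fun _ => false))).card ≤
        (symmDiff H (gir χ M' (fun _ => false) (fun _ => false))).card) :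
    O22 H (gir χ M (fun _ => false) (fun _ => false)) χ := by
  intro φ
  have h1 := h fun a b => M a b ^^ φ a b
  have h2 : (((symmDiff H (gir χ M (fun _ => false) (fun _ => false))).card : ℕ) : ℤ) ≤
      (((symmDiff H (gir χ (fun a b => M a b ^^ φ a b) (fun _ => false)
        (fun _ => false))).card : ℕ) : ℤ) := by exact_mod_cast h1
  rw [← cst_symm H _ h4 (gir_card _ _ _ _), ← cst_symm H _ h4 (gir_card _ _ _ _)] at h2
  unfold K8.cst at h2
  rw [← sub_nonneg, ← Finset.sum_sub_distrib] at h2
  refine le_trans h2 (le_of_eq (Finset.sum_congr rfl fun Q hQ => ?_))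
  have hQ4 := (Finset.mem_powersetCard.mp hQ).2
  have e : ∀ N : Fin n → Fin n → Bool, decide (Q ∈ gir χ N (fun _ => false) (fun _ => false)) =
      girB χ N (fun _ => false) (fun _ => false) Q := by
    intro N
    unfold gir
    by_cases h3 : girB χ N (fun _ => false) (fun _ => false) Q = true
    · rw [h3, decide_eq_true_eq, Finset.mem_filter]
      exact ⟨hQ, h3⟩
    · rw [Bool.not_eq_true] at h3
      rw [h3, decide_eq_false_iff_not, Finset.mem_filter]
      rintro ⟨_, h5⟩
      rw [h3] at h5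
      exact absurd h5 (by decide)
  rw [e, e, girB_xor χ M φ Q hQ4]
  generalize decide (Q ∈ H) = x
  generalize girB χ M (fun _ => false) (fun _ => false) Q = y
  generalize m22 χ φ Q = z
  revert x y z
  decide

/-- The conditions for the 4-graph of the differences. -/
theorem O22.sd (H E : Finset (Finset (Fin n))) (χ : Fin n → Bool) (h : O22 H E χ) :
    O22 (sd2 H E χ) ∅ χ := by
  intro φ
  refine le_trans (h φ) (le_of_eq (Finset.sum_congr rfl fun Q _ => ?_))
  by_cases hm : m22 χ φ Q = true
  · rw [if_pos hm, if_pos hm]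
    have h2 : (Q.filter fun v => χ v = true).card = 2 := by
      unfold m22 at hm
      rw [Bool.and_eq_true, decide_eq_true_eq] at hm
      exact hm.1
    have e : decide (Q ∈ sd2 H E χ) = (decide (Q ∈ H) ^^ decide (Q ∈ E)) := by
      unfold sd2
      by_cases h3 : Q ∈ H <;> by_cases h4 : Q ∈ E <;>
        simp [Finset.mem_filter, Finset.mem_symmDiff, h2, h3, h4]
    rw [e]
    have e2 : decide (Q ∈ (∅ : Finset (Finset (Fin n)))) = false := by simp
    rw [e2, Bool.xor_false]
  · rw [if_neg hm, if_neg hm]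

end opt

/-! ### The terms -/

section terms
variable {i l : ℕ}

/-- A rule for the change of the relation: a function of pairs of vertices that depends on roots;
each changed quadruple contains the first `i` roots. -/
structure Rm (i : ℕ) where
  φ : ∀ {n : ℕ}, Finset (Finset (Fin n)) → Finset (Finset (Fin n)) → (Fin n → Bool) →
    (Fin (i + 2) → Fin n) → Fin n → Fin n → Bool
  supp : ∀ {n : ℕ} (H E : Finset (Finset (Fin n))) (χ : Fin n → Bool) (s : Fin (i + 2) → Fin n)
    (Q : Finset (Fin n)), m22 χ (φ H E χ s) Q = true → ∀ a : Fin i, s (Fin.castAdd 2 a) ∈ Q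

/-- The change of a quadruple of the fixed and the free vertices. -/
noncomputable def mmx {n : ℕ} (H E : Finset (Finset (Fin n))) (χ : Fin n → Bool)
    (φ : Fin n → Fin n → Bool) (u : Fin i → Fin n) (x : Fin l → Fin n) : ℤ :=
  open Classical in
  if Function.Injective (Fin.append u x) then
    (if m22 χ φ (univ.image (Fin.append u x)) = true then
      1 - 2 * (((decide (univ.image (Fin.append u x) ∈ H) ^^
        decide (univ.image (Fin.append u x) ∈ E)).toNat : ℕ) : ℤ) else 0) else 0

theorem mmx_le {n : ℕ} (H E : Finset (Finset (Fin n))) (χ : Fin n → Bool)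
    (φ : Fin n → Fin n → Bool) (u : Fin i → Fin n) (x : Fin l → Fin n) :
    mmx H E χ φ u x ≤ 1 := by
  unfold mmx
  have h := Int.natCast_nonneg (decide (univ.image (Fin.append u x) ∈ H) ^^
        decide (univ.image (Fin.append u x) ∈ E)).toNat
  split_ifs
  · linarith
  · norm_num
  · norm_num

theorem mmx_sum {n : ℕ} (hil : i + l = 4) (H E : Finset (Finset (Fin n))) (χ : Fin n → Bool)
    (φ : Fin n → Fin n → Bool) (u : Fin i → Fin n) (h : O22 H E χ)
    (hφ : ∀ Q, m22 χ φ Q = true → ∀ a, u a ∈ Q) :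
    0 ≤ ∑ x : Fin l → Fin n, mmx H E χ φ u x := by
  classical
  by_cases hu : Function.Injective u
  · set F : Finset (Fin n) → ℝ := fun Q => ((if m22 χ φ Q = true then
        1 - 2 * (((decide (Q ∈ H) ^^ decide (Q ∈ E)).toNat : ℕ) : ℤ) else 0 : ℤ) : ℝ) with hF
    have e1 : ∀ x : Fin l → Fin n, ((mmx H E χ φ u x : ℤ) : ℝ) =
        if Function.Injective (Fin.append u x) then F (univ.image (Fin.append u x)) else 0 := by
      intro x
      unfold mmx
      by_cases h1 : Function.Injective (Fin.append u x)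
      · rw [if_pos h1, if_pos h1]
      · rw [if_neg h1, if_neg h1, Int.cast_zero]
    have h3 : (0 : ℝ) ≤ ∑ x : Fin l → Fin n, ((mmx H E χ φ u x : ℤ) : ℝ) := by
      rw [Finset.sum_congr rfl fun x _ => e1 x, sum_ext u hu hil F (by
          intro Q _ hQ
          have h1 : m22 χ φ Q ≠ true := fun h2 => hQ (hφ Q h2)
          rw [hF]
          show ((if m22 χ φ Q = true then _ else 0 : ℤ) : ℝ) = 0
          rw [if_neg h1, Int.cast_zero])]
      refine mul_nonneg (Nat.cast_nonneg _) ?_
      have h4 := h φ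
      rw [hF]
      beta_reduce
      exact_mod_cast h4
    exact_mod_cast h3
  · refine Finset.sum_nonneg fun x _ => ?_
    unfold mmx
    rw [if_neg]
    intro h1
    apply hu
    intro a b hab
    have h2 : Fin.append u x (Fin.castAdd l a) = Fin.append u x (Fin.castAdd l b) := by
      rw [Fin.append_left, Fin.append_left]
      exact hab
    exact Fin.castAdd_injective _ _ (h1 h2)

/-- The term of a change of the relation. -/
noncomputable def mmF (l : ℕ) (μ : MuX (i + 2)) (R : Rm i) (P : ParX) {n : ℕ}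
    (H E : Finset (Finset (Fin n))) (χ : Fin n → Bool) (p : Fin (i + 2 + l) → Fin n) : ℤ :=
  (μ.F (wt P H E χ (p ∘ Fin.castAdd l)) : ℕ) *
    mmx H E χ (R.φ H E χ (p ∘ Fin.castAdd l)) ((p ∘ Fin.castAdd l) ∘ Fin.castAdd 2)
      (p ∘ Fin.natAdd (i + 2))

theorem good_mmF {Cx : X3} (hil : i + l = 4)
    (hO : ∀ {n : ℕ} (H E : Finset (Finset (Fin n))) (χ : Fin n → Bool), Cx H E χ → O22 H E χ)
    (μ : MuX (i + 2)) (R : Rm i) (P : ParX) (f : Fin (i + 2 + l) → Fin 6)
    (hf : Function.Injective f) :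
    GoodP Cx (fun H E χ t => mmF l μ R P H E χ (t ∘ f)) := by
  refine GoodP.of_tot (k := i + 2 + l) (fun H E χ p => mmF l μ R P H E χ p)
    ((μ.B : ℕ) : ℝ) (fun {n} H E χ hc => ?_) (fun {n} H E χ hc p => ?_) f hf
  · have h1 : (0 : ℤ) ≤ ∑ p, mmF l μ R P H E χ p := by
      rw [sum_app (k := i + 2) (l := l)]
      refine Finset.sum_nonneg fun s _ => ?_
      have e : ∀ x : Fin l → Fin n, mmF l μ R P H E χ (Fin.append s x) =
          (μ.F (wt P H E χ s) : ℕ) * mmx H E χ (R.φ H E χ s) (s ∘ Fin.castAdd 2) x := by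
        intro x
        unfold mmF
        have e1 : (Fin.append s x : Fin (i + 2 + l) → Fin n) ∘ Fin.castAdd l = s :=
          append_castAdd s x
        have e2 : (Fin.append s x : Fin (i + 2 + l) → Fin n) ∘ Fin.natAdd (i + 2) = x := by
          funext a
          exact Fin.append_right s x a
        rw [e1, e2]
      rw [Finset.sum_congr rfl fun x _ => e x, ← Finset.mul_sum]
      exact mul_nonneg (Int.natCast_nonneg _)
        (mmx_sum hil H E χ _ _ (hO H E χ hc) (R.supp H E χ s))
    exact_mod_cast h1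
  · have h1 : mmF l μ R P H E χ p ≤ ((μ.B : ℕ) : ℤ) := by
      unfold mmF
      have h2 := mmx_le H E χ (R.φ H E χ (p ∘ Fin.castAdd l))
        ((p ∘ Fin.castAdd l) ∘ Fin.castAdd 2) (p ∘ Fin.natAdd (i + 2))
      have h3 : (μ.F (wt P H E χ (p ∘ Fin.castAdd l)) : ℤ) ≤ μ.B := by
        exact_mod_cast μ.hB _
      calc _ ≤ (μ.F (wt P H E χ (p ∘ Fin.castAdd l)) : ℤ) * 1 :=
            mul_le_mul_of_nonneg_left h2 (Int.natCast_nonneg _)
        _ ≤ μ.B := by linarith
    exact_mod_cast h1

end terms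

/-! ### Rules -/

/-- The index of a pair of free vertices together with the roots. -/
def g0 (x y : Fin 4) : Fin 4 → Fin 6 := ![0, 1, ![2, 3, 4, 5] x, ![2, 3, 4, 5] y]

/-- A global rule: the change of a pair depends on the data of the two roots and of the pair; the
first vertex of the pair has the first colour. -/
def Rm.glob (F : WD 4 → Bool) (P : ParX) : Rm 0 where
  φ := fun H E χ s a b => F (wt P H E χ (Fin.append s ![a, b]))
  supp := fun _ _ _ _ _ _ a => a.elim0

/-- The data of the window for a global rule. -/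
def globV (F : WD 4 → Bool) (D : WD 6) : Bool :=
  p22 (fun x => D.c (![2, 3, 4, 5] x)) fun x y => F (D.sub (g0 x y))

/-- A rule for the pairs of a vertex: the change of a pair depends on the data of the vertex, of the
two further roots and of the second vertex of the pair. -/
def Rm.row (F : WD 4 → Bool) (P : ParX) : Rm 1 where
  φ := fun H E χ s a b => if a = s 0 then F (wt P H E χ (Fin.append s ![b]))
    else if b = s 0 then F (wt P H E χ (Fin.append s ![a])) else false
  supp := by
    intro n H E χ s Q h a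
    obtain ⟨x, hx, y, hy, _, _, h3⟩ := m22_supp _ _ _ h
    have ha : Fin.castAdd 2 a = (0 : Fin (1 + 2)) := by
      have : a = 0 := Subsingleton.elim _ _
      rw [this]
      rfl
    rw [ha]
    split_ifs at h3 with h1 h2
    · rw [← h1]
      exact hx
    · rw [← h2]
      exact hy

/-- The quadruple of a rule for the pairs of a vertex. -/
def q1 : Fin 4 → Fin 6 := ![0, 3, 4, 5]

/-- The data of the window for a rule for the pairs of a vertex. -/
def rowV (F : WD 4 → Bool) (D : WD 6) : Bool :=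
  p22 (fun x => D.c (q1 x)) fun x y =>
    if x = 0 then F (D.sub ![0, 1, 2, q1 y]) else if y = 0 then F (D.sub ![0, 1, 2, q1 x]) else false

/-- The change of one pair. -/
def Rm.pair : Rm 2 where
  φ := fun _ _ _ s a b => decide (a = s 0) && decide (b = s 1) || decide (a = s 1) && decide (b = s 0)
  supp := by
    intro n H E χ s Q h a
    obtain ⟨x, hx, y, hy, _, _, h3⟩ := m22_supp _ _ _ h
    rw [Bool.or_eq_true, Bool.and_eq_true, Bool.and_eq_true, decide_eq_true_eq, decide_eq_true_eq,
      decide_eq_true_eq, decide_eq_true_eq] at h3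
    fin_cases a
    · show s 0 ∈ Q
      rcases h3 with h | h
      · rw [← h.1]
        exact hx
      · rw [← h.2]
        exact hy
    · show s 1 ∈ Q
      rcases h3 with h | h
      · rw [← h.2]
        exact hy
      · rw [← h.1]
        exact hx

/-- The data of the window for the change of one pair. -/
def pairV (D : WD 6) : Bool := (D.c 0 ^^ D.c 1) && (D.c 4 ^^ D.c 5)

/-- The value of a change on a window. -/
def mmV (i : ℕ) (l : ℕ) (w : WD 6 → Bool) (q : Fin 4 → Fin 6) (e : i + 2 + l = 6)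
    (μ : MuX (i + 2)) (D : WD 6) : ℤ :=
  (μ.F (D.sub fun a => Fin.cast e (Fin.castAdd l a)) : ℕ) *
    (if w D = true then 1 - 2 * (((D.e (univ.image q) ^^ D.r (univ.image q)).toNat : ℕ) : ℤ) else 0)

theorem image_q {n : ℕ} (t : Fin 6 → Fin n) (q : Fin 4 → Fin 6) :
    univ.image (t ∘ q) = (univ.image q).image t := by
  rw [Finset.image_image]

theorem zb_q {n : ℕ} (H : Finset (Finset (Fin n))) (t : Fin 6 → Fin n) (q : Fin 4 → Fin 6) :
    decide (univ.image (t ∘ q) ∈ H) = zb H t (univ.image q) := by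
  rw [dec_zb, image_q]

theorem mmF_glob (μ : MuX (0 + 2)) (F : WD 4 → Bool) (P : ParX) {n : ℕ}
    (H E : Finset (Finset (Fin n))) (χ : Fin n → Bool) (t : Fin (0 + 2 + 4) → Fin n)
    (ht : Function.Injective t) :
    mmF 4 μ (Rm.glob F P) P H E χ t =
      mmV 0 4 (globV F) ![2, 3, 4, 5] rfl μ (wt P H E χ t) := by
  unfold mmF mmV mmx
  have e0 : (Fin.append ((t ∘ Fin.castAdd 4) ∘ Fin.castAdd 2) (t ∘ Fin.natAdd (0 + 2)) :
      Fin (0 + 4) → Fin n) = t ∘ ![2, 3, 4, 5] := by
    funext a
    fin_cases a <;> rfl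
  have e1 : (Fin.cast (rfl : 0 + 2 + 4 = 6) ∘ Fin.castAdd 4 : Fin 2 → Fin 6) =
      fun a => Fin.cast rfl (Fin.castAdd 4 a) := rfl
  have hq : Function.Injective (![2, 3, 4, 5] : Fin 4 → Fin 6) := by decide
  have hi : Function.Injective (t ∘ ![2, 3, 4, 5]) := ht.comp hq
  have e2 : m22 χ ((Rm.glob F P).φ H E χ (t ∘ Fin.castAdd 4)) (univ.image (t ∘ ![2, 3, 4, 5])) =
      globV F (wt P H E χ t) := by
    rw [m22_map χ _ _ hi univ, m22_univ]
    unfold globV
    congr 1
    funext x y
    show F (wt P H E χ _) = F ((wt P H E χ t).sub (g0 x y))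
    rw [← wt_comp]
    congr 2
    funext a
    fin_cases a <;> rfl
  rw [e0, if_pos hi, e2, zb_q, zb_q]
  rw [wt_comp]
  rfl

theorem mmF_row (μ : MuX (1 + 2)) (F : WD 4 → Bool) (P : ParX) {n : ℕ}
    (H E : Finset (Finset (Fin n))) (χ : Fin n → Bool) (t : Fin (1 + 2 + 3) → Fin n)
    (ht : Function.Injective t) :
    mmF 3 μ (Rm.row F P) P H E χ t =
      mmV 1 3 (rowV F) q1 rfl μ (wt P H E χ t) := by
  unfold mmF mmV mmx
  have e0 : (Fin.append ((t ∘ Fin.castAdd 3) ∘ Fin.castAdd 2) (t ∘ Fin.natAdd (1 + 2)) :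
      Fin (1 + 3) → Fin n) = t ∘ q1 := by
    funext a
    fin_cases a <;> rfl
  have hq : Function.Injective q1 := by decide
  have hi : Function.Injective (t ∘ q1) := ht.comp hq
  have e2 : m22 χ ((Rm.row F P).φ H E χ (t ∘ Fin.castAdd 3)) (univ.image (t ∘ q1)) =
      rowV F (wt P H E χ t) := by
    rw [m22_map χ _ _ hi univ, m22_univ]
    unfold rowV
    congr 1
    funext x y
    have h0 : ∀ x : Fin 4, (t ∘ q1) x = (t ∘ Fin.castAdd 3) 0 ↔ x = 0 := by
      intro x
      show t (q1 x) = t 0 ↔ x = 0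
      rw [ht.eq_iff]
      revert x
      decide
    have hF : ∀ z : Fin 4, wt P H E χ (Fin.append (t ∘ Fin.castAdd 3) ![(t ∘ q1) z]) =
        (wt P H E χ t).sub ![0, 1, 2, q1 z] := by
      intro z
      rw [← wt_comp]
      congr 1
      funext a
      fin_cases a <;> rfl
    show (if (t ∘ q1) x = (t ∘ Fin.castAdd 3) 0 then
        F (wt P H E χ (Fin.append (t ∘ Fin.castAdd 3) ![(t ∘ q1) y]))
      else if (t ∘ q1) y = (t ∘ Fin.castAdd 3) 0 then
        F (wt P H E χ (Fin.append (t ∘ Fin.castAdd 3) ![(t ∘ q1) x])) else false) = _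
    rw [hF, hF]
    simp only [h0]
  rw [e0, if_pos hi, e2, zb_q, zb_q]
  rw [wt_comp]
  rfl

theorem mmF_pair (μ : MuX (2 + 2)) (P : ParX) {n : ℕ}
    (H E : Finset (Finset (Fin n))) (χ : Fin n → Bool) (t : Fin (2 + 2 + 2) → Fin n)
    (ht : Function.Injective t) :
    mmF 2 μ Rm.pair P H E χ t =
      mmV 2 2 pairV ![0, 1, 4, 5] rfl μ (wt P H E χ t) := by
  unfold mmF mmV mmx
  have e0 : (Fin.append ((t ∘ Fin.castAdd 2) ∘ Fin.castAdd 2) (t ∘ Fin.natAdd (2 + 2)) :
      Fin (2 + 2) → Fin n) = t ∘ ![0, 1, 4, 5] := by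
    funext a
    fin_cases a <;> rfl
  have hq : Function.Injective (![0, 1, 4, 5] : Fin 4 → Fin 6) := by decide
  have hi : Function.Injective (t ∘ ![0, 1, 4, 5]) := ht.comp hq
  have e2 : m22 χ (Rm.pair.φ H E χ (t ∘ Fin.castAdd 2)) (univ.image (t ∘ ![0, 1, 4, 5])) =
      pairV (wt P H E χ t) := by
    rw [m22_map χ _ _ hi univ, m22_univ]
    have h0 : ∀ x : Fin 4, ((t ∘ ![0, 1, 4, 5]) x = (t ∘ Fin.castAdd 2) 0) ↔ x = 0 := by
      intro x
      show t ((![0, 1, 4, 5] : Fin 4 → Fin 6) x) = t 0 ↔ x = 0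
      rw [ht.eq_iff]
      revert x
      decide
    have h1 : ∀ x : Fin 4, ((t ∘ ![0, 1, 4, 5]) x = (t ∘ Fin.castAdd 2) 1) ↔ x = 1 := by
      intro x
      show t ((![0, 1, 4, 5] : Fin 4 → Fin 6) x) = t 1 ↔ x = 1
      rw [ht.eq_iff]
      revert x
      decide
    have e3 : (fun a b : Fin 4 => Rm.pair.φ H E χ (t ∘ Fin.castAdd 2)
        ((t ∘ ![0, 1, 4, 5]) a) ((t ∘ ![0, 1, 4, 5]) b)) =
        fun a b => decide (a = 0) && decide (b = 1) || decide (a = 1) && decide (b = 0) := by
      funext a b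
      show (decide ((t ∘ ![0, 1, 4, 5]) a = (t ∘ Fin.castAdd 2) 0) &&
        decide ((t ∘ ![0, 1, 4, 5]) b = (t ∘ Fin.castAdd 2) 1) ||
        decide ((t ∘ ![0, 1, 4, 5]) a = (t ∘ Fin.castAdd 2) 1) &&
          decide ((t ∘ ![0, 1, 4, 5]) b = (t ∘ Fin.castAdd 2) 0)) = _
      simp only [h0, h1]
    rw [e3]
    have e4 : ∀ c0 c1 c4 c5 : Bool, p22 ![c0, c1, c4, c5]
        (fun a b => decide (a = 0) && decide (b = 1) || decide (a = 1) && decide (b = 0)) =
        ((c0 ^^ c1) && (c4 ^^ c5)) := by decide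
    have e5 : (fun w : Fin 4 => χ ((t ∘ ![0, 1, 4, 5]) w)) = ![χ (t 0), χ (t 1), χ (t 4), χ (t 5)] := by
      funext w
      fin_cases w <;> rfl
    rw [e5, e4]
    rfl
  rw [e0, if_pos hi, e2, zb_q, zb_q]
  rw [wt_comp]
  rfl

/-! ### The terms on the data of the windows -/

section gv
variable {Cx : X3} {P : ParX}

/-- A global change of the relation. -/
theorem gv_glob (hO : ∀ {n : ℕ} (H E : Finset (Finset (Fin n))) (χ : Fin n → Bool),
      Cx H E χ → O22 H E χ) (μ : MuX (0 + 2)) (F : WD 4 → Bool) :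
    GV Cx P (fun D => mmV 0 4 (globV F) ![2, 3, 4, 5] rfl μ D) := by
  refine GoodP.mono (good_mmF (i := 0) (l := 4) rfl hO μ (Rm.glob F P) P id
    Function.injective_id) fun H E χ _ t ht => le_of_eq ?_
  exact mmF_glob μ F P H E χ t ht

/-- A change of the relation for the pairs of a vertex. -/
theorem gv_row (hO : ∀ {n : ℕ} (H E : Finset (Finset (Fin n))) (χ : Fin n → Bool),
      Cx H E χ → O22 H E χ) (μ : MuX (1 + 2)) (F : WD 4 → Bool) :
    GV Cx P (fun D => mmV 1 3 (rowV F) q1 rfl μ D) := by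
  refine GoodP.mono (good_mmF (i := 1) (l := 3) rfl hO μ (Rm.row F P) P id
    Function.injective_id) fun H E χ _ t ht => le_of_eq ?_
  exact mmF_row μ F P H E χ t ht

/-- A change of the relation for one pair. -/
theorem gv_pair (hO : ∀ {n : ℕ} (H E : Finset (Finset (Fin n))) (χ : Fin n → Bool),
      Cx H E χ → O22 H E χ) (μ : MuX (2 + 2)) :
    GV Cx P (fun D => mmV 2 2 pairV ![0, 1, 4, 5] rfl μ D) := by
  refine GoodP.mono (good_mmF (i := 2) (l := 2) rfl hO μ Rm.pair P id
    Function.injective_id) fun H E χ _ t ht => le_of_eq ?_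
  exact mmF_pair μ P H E χ t ht

/-- The bound of the imbalance with a nonnegative function of five vertices. -/
def sV (σ : ℤ) (sn sd : ℕ) (μ : MuX 5) (j : Fin (5 + 1) → Fin 6) (D : WD 6) : ℤ :=
  (μ.F (D.sub (j ∘ Fin.castAdd 1)) : ℕ) * (sn + σ * sd * sg (D.c (j (Fin.natAdd 5 0))))

theorem abs_sg (b : Bool) : |sg b| = 1 := by
  revert b
  decide

theorem gv_s (σ : ℤ) (hσ : |σ| ≤ 1) (sn sd : ℕ) (μ : MuX 5) (j : Fin (5 + 1) → Fin 6)
    (hj : Function.Injective j)
    (hc : ∀ {n : ℕ} (H E : Finset (Finset (Fin n))) (χ : Fin n → Bool), Cx H E χ →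
      sd * |∑ v : Fin n, sg (χ v)| ≤ sn * n) : GV Cx P (sV σ sn sd μ j) := by
  have h1 := good_cmpW (Cx := Cx) (m := 5) (l := 1) (muPh μ P)
    (fun {n} (_ _ : Finset (Finset (Fin n))) (χ : Fin n → Bool) (p : Fin (5 + 1) → Fin n) =>
      (sn : ℤ) + σ * sd * sg (χ (p (Fin.natAdd 5 0)))) (sn + sd) ?_ j hj ?_
  · refine GoodP.mono h1 fun H E χ _ t _ => le_of_eq ?_
    unfold sV
    rw [← wt_comp]
    rfl
  · intro n H E χ p
    have h2 : |σ * sd * sg (χ (p (Fin.natAdd 5 0)))| ≤ (sd : ℤ) := by
      rw [abs_mul, abs_mul, abs_sg, mul_one, Nat.abs_cast]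
      calc |σ| * (sd : ℤ) ≤ 1 * sd := mul_le_mul_of_nonneg_right hσ (Int.natCast_nonneg _)
        _ = sd := one_mul _
    have h3 := (abs_le.mp h2).2
    push_cast at h3 ⊢
    linarith
  · intro n H E χ hx s _
    have h2 := hc H E χ hx
    have e : ∀ u : Fin 1 → Fin n, (sn : ℤ) + σ * sd * sg (χ ((Fin.append s u : Fin (5 + 1) → Fin n)
        (Fin.natAdd 5 0))) = (sn : ℤ) + σ * sd * sg (χ (u 0)) := by
      intro u
      rw [Fin.append_right]
    rw [Finset.sum_congr rfl fun u _ => e u, Finset.sum_add_distrib, ← Finset.mul_sum,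
      Finset.sum_const, Finset.card_univ, Fintype.card_fun, Fintype.card_fin, Fintype.card_fin,
      pow_one, nsmul_eq_mul]
    have e2 : ∑ u : Fin 1 → Fin n, sg (χ (u 0)) = ∑ v : Fin n, sg (χ v) := by
      rw [← (Equiv.funUnique (Fin 1) (Fin n)).symm.sum_comp]
      rfl
    rw [e2]
    have h3 : |σ * sd * ∑ v : Fin n, sg (χ v)| ≤ sn * n := by
      rw [abs_mul, abs_mul, Nat.abs_cast]
      calc |σ| * (sd : ℤ) * |∑ v : Fin n, sg (χ v)| = |σ| * (sd * |∑ v : Fin n, sg (χ v)|) := by
            ring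
        _ ≤ 1 * (sd * |∑ v : Fin n, sg (χ v)|) :=
            mul_le_mul_of_nonneg_right hσ (mul_nonneg (Int.natCast_nonneg _) (abs_nonneg _))
        _ ≤ sn * n := by rw [one_mul]; exact h2
    have h4 := (abs_le.mp h3).1
    linarith

/-- The bounds of the square of the imbalance with a nonnegative function of four vertices:
`an` + `ad` times the product of the two signs. -/
def ssV (an ad : ℤ) (μ : MuX 4) (j : Fin (4 + 2) → Fin 6) (D : WD 6) : ℤ :=
  (μ.F (D.sub (j ∘ Fin.castAdd 2)) : ℕ) *
    (an + ad * (sg (D.c (j (Fin.natAdd 4 0))) * sg (D.c (j (Fin.natAdd 4 1)))))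

theorem gv_ss (an ad : ℤ) (μ : MuX 4) (j : Fin (4 + 2) → Fin 6)
    (hj : Function.Injective j)
    (hc : ∀ {n : ℕ} (H E : Finset (Finset (Fin n))) (χ : Fin n → Bool), Cx H E χ →
      0 ≤ an * n ^ 2 + ad * (∑ v : Fin n, sg (χ v)) ^ 2) : GV Cx P (ssV an ad μ j) := by
  have h1 := good_cmpW (Cx := Cx) (m := 4) (l := 2) (muPh μ P)
    (fun {n} (_ _ : Finset (Finset (Fin n))) (χ : Fin n → Bool) (p : Fin (4 + 2) → Fin n) =>
      an + ad * (sg (χ (p (Fin.natAdd 4 0))) * sg (χ (p (Fin.natAdd 4 1)))))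
    (an.natAbs + ad.natAbs) ?_ j hj ?_
  · refine GoodP.mono h1 fun H E χ _ t _ => le_of_eq ?_
    unfold ssV
    rw [← wt_comp]
    rfl
  · intro n H E χ p
    have h2 : |ad * (sg (χ (p (Fin.natAdd 4 0))) * sg (χ (p (Fin.natAdd 4 1))))| ≤ |ad| := by
      rw [abs_mul, abs_mul, abs_sg, abs_sg, mul_one, mul_one]
    have h3 := (abs_le.mp h2).2
    have h4 := le_abs_self an
    have e1 := Int.natCast_natAbs an
    have e2 := Int.natCast_natAbs ad
    push_cast at h3 ⊢
    linarith
  · intro n H E χ hx s _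
    have h2 := hc H E χ hx
    have e : ∀ u : Fin 2 → Fin n, an + ad * (sg (χ ((Fin.append s u : Fin (4 + 2) → Fin n)
        (Fin.natAdd 4 0))) * sg (χ ((Fin.append s u : Fin (4 + 2) → Fin n) (Fin.natAdd 4 1)))) =
        an + ad * (sg (χ (u 0)) * sg (χ (u 1))) := by
      intro u
      rw [Fin.append_right, Fin.append_right]
    rw [Finset.sum_congr rfl fun u _ => e u, Finset.sum_add_distrib, ← Finset.mul_sum,
      Finset.sum_const, Finset.card_univ, Fintype.card_fun, Fintype.card_fin, Fintype.card_fin,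
      nsmul_eq_mul]
    have e2 : ∑ u : Fin 2 → Fin n, sg (χ (u 0)) * sg (χ (u 1)) = (∑ v : Fin n, sg (χ v)) ^ 2 := by
      rw [← (finTwoArrowEquiv (Fin n)).symm.sum_comp, Fintype.sum_prod_type, pow_two,
        Finset.sum_mul_sum]
      rfl
    rw [e2]
    push_cast
    linarith

end gv

end Pool.Agent.Lib.MP_afdd4d_co.K9.Star.Tw
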