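import Pool.Agent.Lib.MP_afdd4d_co.K9.TwT1
import Pool.Agent.Lib.MP_afdd4d_co.K9.TwItem
import Pool.Agent.Lib.MP_afdd4d_co.K9.TwKer
import Pool.Agent.Lib.MP_afdd4d_co.K9.CutPsi

/-!
# The exact theorem from a local theorem about a 4-graph and the nearest even 4-graph
-/

namespace Pool.Agent.Lib.MP_afdd4d_co.K9.Star.Tw

open Finset K8
open Pool.Agent.Lib.MP_afdd4d_co.K9.Marks

/-- The linear inequality for the 4-graphs without `K_5` on six points. -/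
theorem goodP_cut {Cx : X3} (S : PsiSys) (κ6 : Kern 6) {W m U : ℕ} (hU : Ug.UOK W m U)
    (hrow : ∀ (n : ℕ) (H E' : Finset (Finset (Fin n))) (s : Fin 7 → Fin n), PsiSys.Pr H E' s →
      0 ≤ (Ug.addU S hU).row H E' s)
    (hB : ∀ (n : ℕ) (E' : Finset (Finset (Fin n))), (∀ e ∈ E', e.card = 4) → EvenH n E' →
      ∀ t : Fin (7 + 1) → Fin n, Function.Injective t →
        PS (κ6.f E') t ≤ DS (m := 7) (S.B E') t)
    (hc : ∀ {n : ℕ} (H E : Finset (Finset (Fin n))) (χ : Fin n → Bool), Cx H E χ →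
      (∀ e ∈ H, e.card = 4) ∧ K5F H) :
    GoodP Cx (fun H _ _ t =>
      14 * S.a * (N8 H t : ℤ) - 126 * (Ug.uv W U H t : ℤ) - 6 * S.Lo) :=
  GoodP.of_H (Z := fun H t => 14 * S.a * (N8 H t : ℤ) - 126 * (Ug.uv W U H t : ℤ) - 6 * S.Lo)
    (Ug.cut6 S κ6 hU hrow hB) hc

theorem cN_ge (wp wm w : ℕ) (hwp : w ≤ wp) (hwm : w ≤ wm) {n : ℕ} (H E : Finset (Finset (Fin n)))
    (h4 : ∀ e ∈ symmDiff H E, e.card = 4) : w * (symmDiff H E).card ≤ cN wp wm H E := by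
  have h1 : symmDiff H E ⊆ (univ : Finset (Fin n)).powersetCard 4 := fun Q hQ =>
    Finset.mem_powersetCard.mpr ⟨Finset.subset_univ _, h4 Q hQ⟩
  unfold cN
  calc w * (symmDiff H E).card = ∑ _Q ∈ symmDiff H E, w := by
        rw [Finset.sum_const, smul_eq_mul, mul_comm]
    _ ≤ ∑ Q ∈ symmDiff H E,
        (if Q ∈ H then (if Q ∈ E then 0 else wp) else (if Q ∈ E then wm else 0)) := by
        refine Finset.sum_le_sum fun Q hQ => ?_
        rw [Finset.mem_symmDiff] at hQ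
        rcases hQ with h | h
        · rw [if_pos h.1, if_neg h.2]
          exact hwp
        · rw [if_neg h.2, if_pos h.1]
          exact hwm
    _ ≤ _ := Finset.sum_le_sum_of_subset h1

/-- The bound of the distance from the bound of the cost. -/
theorem hxx_of_cost (P' : ParX) (wp wm : ℕ) (X1 : ℝ) (w : ℕ) (hw : 0 < w) (hwp : w ≤ wp)
    (hwm : w ≤ wm) (hx : (P'.xd : ℝ) * X1 ≤ w * P'.xn) {Cx : X3}
    (h : ∀ {n : ℕ} (H E : Finset (Finset (Fin n))) (χ : Fin n → Bool), Cx H E χ →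
      (∀ e ∈ H, e.card = 4) ∧ (∀ e ∈ E, e.card = 4) ∧
        24 * ((K8.cst (wc wp wm) H E : ℤ) : ℝ) ≤ X1 * (n : ℝ) ^ 4) : HXX Cx P' := by
  intro n H E χ hc
  obtain ⟨h4, h4', hX⟩ := h H E χ hc
  have hJ4 : ∀ e ∈ symmDiff H E, e.card = 4 := by
    intro e he
    rw [Finset.mem_symmDiff] at he
    rcases he with h1 | h1
    · exact h4 e h1.1
    · exact h4' e h1.1
  have h1 := jv_tot (symmDiff H E) hJ4
  have h2 : (w : ℝ) * ((symmDiff H E).card : ℝ) ≤ ((K8.cst (wc wp wm) H E : ℤ) : ℝ) := by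
    have h3 : w * (symmDiff H E).card ≤ cN wp wm H E := cN_ge wp wm w hwp hwm H E hJ4
    rw [cst_eq, Int.cast_natCast]
    exact_mod_cast h3
  have hw' : (0 : ℝ) < w := by exact_mod_cast hw
  have h3 : (w : ℝ) * ((P'.xd : ℝ) * ((∑ p, jv (symmDiff H E) p : ℤ) : ℝ)) ≤
      w * (P'.xn * (n : ℝ) ^ 4) := by
    have h5 : (0 : ℝ) ≤ P'.xd := Nat.cast_nonneg _
    calc (w : ℝ) * ((P'.xd : ℝ) * ((∑ p, jv (symmDiff H E) p : ℤ) : ℝ)) ≤
        w * (P'.xd * (24 * ((symmDiff H E).card : ℝ))) :=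
          mul_le_mul_of_nonneg_left (mul_le_mul_of_nonneg_left h1 h5) hw'.le
      _ = P'.xd * (24 * (w * ((symmDiff H E).card : ℝ))) := by ring
      _ ≤ P'.xd * (24 * ((K8.cst (wc wp wm) H E : ℤ) : ℝ)) :=
          mul_le_mul_of_nonneg_left (mul_le_mul_of_nonneg_left h2 (by norm_num)) h5
      _ ≤ P'.xd * (X1 * (n : ℝ) ^ 4) := mul_le_mul_of_nonneg_left hX h5
      _ = P'.xd * X1 * (n : ℝ) ^ 4 := by ring
      _ ≤ w * P'.xn * (n : ℝ) ^ 4 := mul_le_mul_of_nonneg_right hx (by positivity)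
      _ = w * (P'.xn * (n : ℝ) ^ 4) := by ring
  have h4 := le_of_mul_le_mul_left h3 hw'
  exact_mod_cast h4

section main
variable {P : ∀ n : ℕ, Finset (Finset (Fin n)) → Prop} {wp wm : ℕ} {L : List Psi3}

/-- The bound for 4-graphs with the property. -/
theorem assembly (h1 : T1L P wp wm L) (h2 : TW P wp wm L TrueW) :
    ∀ ε : ℝ, 0 < ε → ∃ N : ℕ, ∀ n : ℕ, N ≤ n → ∀ H : Finset (Finset (Fin n)),
      (∀ e ∈ H, e.card = 4) → K5F H → P n H → e4 H ≤ 11 / 16 + ε := by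
  intro ε hε
  obtain ⟨η, hη, N, hN⟩ := h2 ε hε
  obtain ⟨N', hN'⟩ := h1 η hη
  refine ⟨max N N', fun n hn H hH hK hP => ?_⟩
  by_contra hlt
  rw [not_le] at hlt
  have hd : 11 / 16 ≤ e4 H := by linarith
  obtain ⟨E, hE⟩ := exists_optE (wc wp wm) H
  obtain ⟨χ, hχ⟩ := hN' n (le_trans (le_max_right _ _) hn) H E hH hK hP hd hE
  exact absurd (hN n (le_trans (le_max_left _ _) hn) H E χ ⟨hH, hK, hP, hd, hE, hχ, trivial⟩)
    (not_le.mpr hlt)

/-- The upper bound, with the normalisation `n ^ 4 / 24`. -/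
theorem upper4 (hR : Red P) (h1 : T1L P wp wm L) (h2 : TW P wp wm L TrueW) :
    ∀ ε : ℝ, 0 < ε → ∃ N : ℕ, ∀ n : ℕ, N ≤ n → ∀ H : Finset (Finset (Fin n)),
      (∀ e ∈ H, e.card = 4) → K5F H → e4 H ≤ 11 / 16 + ε := by
  intro ε hε
  obtain ⟨N, hN⟩ := assembly h1 h2 (ε / 2) (by linarith)
  obtain ⟨N', hN'⟩ := hR ε hε N
  refine ⟨N', fun n hn H hH hK => ?_⟩
  by_contra hlt
  rw [not_le] at hlt
  obtain ⟨m, hm, H', hH', hK', hP', hd'⟩ := hN' n hn H hH hK hlt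
  have := hN m hm H' hH' hK' hP'
  linarith

/-- The upper bound. -/
theorem upper (hR : Red P) (h1 : T1L P wp wm L) (h2 : TW P wp wm L TrueW) :
    ∀ ε : ℝ, 0 < ε → ∃ N : ℕ, ∀ n : ℕ, N ≤ n → ∀ H : Finset (Finset (Fin n)),
      (∀ e ∈ H, e.card = 4) → K5F H →
      (H.card : ℝ) ≤ ((11 / 16 : ℝ) + ε) * ((n.choose 4 : ℕ) : ℝ) := by
  intro ε hε
  obtain ⟨N, hN⟩ := upper4 hR h1 h2 (ε / 2) (by linarith)
  obtain ⟨M, hM⟩ := exists_nat_gt ((11 / 16 + ε) * 12 / ε)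
  refine ⟨max N (max M 4), fun n hn H hH hK => ?_⟩
  have hnN : N ≤ n := le_trans (le_max_left _ _) hn
  have hnM : M ≤ n := le_trans (le_trans (le_max_left _ _) (le_max_right _ _)) hn
  have hn4 : 4 ≤ n := le_trans (le_trans (le_max_right _ _) (le_max_right _ _)) hn
  have hn0 : (0 : ℝ) < n := by exact_mod_cast (by omega : 0 < n)
  have h5 := hN n hnN H hH hK
  unfold e4 at h5
  rw [div_le_iff₀ (by positivity)] at h5
  have h6 := choose4_ge n hn4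
  have h7 : (11 / 16 + ε) * 12 / ε < n := lt_of_lt_of_le hM (by exact_mod_cast hnM)
  rw [div_lt_iff₀ hε] at h7
  have h8 : (11 / 16 + ε) * ((n : ℝ) ^ 4 / 24 - (n : ℝ) ^ 3 / 4) ≤
      (11 / 16 + ε) * ((n.choose 4 : ℕ) : ℝ) := mul_le_mul_of_nonneg_left h6 (by linarith)
  have h9 : (11 / 16 + ε) * 12 * (n : ℝ) ^ 3 ≤ n * ε * (n : ℝ) ^ 3 :=
    mul_le_mul_of_nonneg_right h7.le (by positivity)
  have h10 : n * ε * (n : ℝ) ^ 3 = ε * (n : ℝ) ^ 4 := by ring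
  rw [h10] at h9
  have h11 : (H.card : ℝ) ≤ (11 / 16 + ε / 2) * ((n : ℝ) ^ 4 / 24) := by linarith
  nlinarith

/-- The exact theorem. -/
theorem main (hR : Red P) (h1 : T1L P wp wm L) (h2 : TW P wp wm L TrueW) :
    ∀ ε : ℝ, 0 < ε → ∃ N : ℕ, ∀ n : ℕ, N ≤ n →
      (∃ H : Finset (Finset (Fin n)),
          (∀ e ∈ H, e.card = 4) ∧
          (∀ S : Finset (Fin n), S.card = 5 → ∃ e ∈ S.powersetCard 4, e ∉ H) ∧
          ((11 / 16 : ℝ) - ε) * ((n.choose 4 : ℕ) : ℝ) ≤ (H.card : ℝ)) ∧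
      (∀ H : Finset (Finset (Fin n)),
          (∀ e ∈ H, e.card = 4) →
          (∀ S : Finset (Fin n), S.card = 5 → ∃ e ∈ S.powersetCard 4, e ∉ H) →
          (H.card : ℝ) ≤ ((11 / 16 : ℝ) + ε) * ((n.choose 4 : ℕ) : ℝ)) := by
  intro ε hε
  obtain ⟨N1, hN1⟩ := lower_even ε hε
  obtain ⟨N2, hN2⟩ := upper hR h1 h2 ε hε
  refine ⟨max N1 N2, fun n hn => ⟨?_, ?_⟩⟩
  · obtain ⟨H, hH4, hHe, hHc⟩ := hN1 n (le_trans (le_max_left _ _) hn)
    refine ⟨H, hH4, ?_, hHc⟩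
    intro S hS
    by_contra hcon
    push Not at hcon
    have h := hHe S hS
    have h2 : ((S.powersetCard 4).filter fun e => e ∈ H) = S.powersetCard 4 :=
      Finset.filter_true_of_mem hcon
    rw [h2, Finset.card_powersetCard, hS] at h
    exact absurd h (by decide)
  · intro H hH hK
    exact hN2 n (le_trans (le_max_right _ _) hn) H hH hK

end main

end Pool.Agent.Lib.MP_afdd4d_co.K9.Star.Tw
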