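import Pool.Agent.Lib.MP_afdd4d_co.K9.TwMark
import Pool.Agent.Lib.MP_afdd4d_co.K9.TwCost

/-!
# Changes of the even 4-graph

The even 4-graph of smallest cost is changed by the coboundary of a family of triples. The triples
contain `i` fixed vertices; whether a triple is in the family depends on the visible data of the
triple together with the roots. The change of the cost is nonnegative for each choice of the roots.
-/

namespace Pool.Agent.Lib.MP_afdd4d_co.K9.Star.Tw

open Finset K8
open Pool.Agent.Lib.MP_afdd4d_co.K9.Marks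

section mv
variable {n i j : ℕ}

/-- The change of the cost at the quadruple of the fixed and the free vertices. -/
noncomputable def mvx (c : Bool → Bool → ℤ) (H E : Finset (Finset (Fin n))) (u : Fin i → Fin n)
    (φ : (Fin j → Fin n) → Bool) (x : Fin (j + 1) → Fin n) : ℤ :=
  open Classical in
  if Function.Injective (Fin.append u x) then
    (if ∑ a : Fin (j + 1), bz (φ (x ∘ a.succAbove)) = 1 then
      dc c H E (univ.image (Fin.append u x)) else 0) else 0

/-- The change of the cost is nonnegative. -/
theorem mvx_sum (hij : i + (j + 1) = 4) (c : Bool → Bool → ℤ) (H E : Finset (Finset (Fin n)))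
    (h : OptE c H E) (u : Fin i → Fin n) (φ : (Fin j → Fin n) → Bool)
    (hφ : ∀ (σ : Equiv.Perm (Fin j)) y, φ (y ∘ σ) = φ y) :
    0 ≤ ∑ x : Fin (j + 1) → Fin n, mvx c H E u φ x := by
  classical
  by_cases hu : Function.Injective u
  · have e1 : ∀ x : Fin (j + 1) → Fin n, ((mvx c H E u φ x : ℤ) : ℝ) =
        if Function.Injective (Fin.append u x) then
          (fun Q : Finset (Fin n) => ((mvQ c H E (gam u φ) Q : ℤ) : ℝ))
            (univ.image (Fin.append u x)) else 0 := by
      intro x
      unfold mvx
      by_cases h1 : Function.Injective (Fin.append u x)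
      · have h2 := bz_par_gam hij u φ hφ x h1
        rw [if_pos h1, if_pos h1, ← h2]
        show _ = ((mvQ c H E (gam u φ) (univ.image (Fin.append u x)) : ℤ) : ℝ)
        unfold mvQ
        cases par (gam u φ) (univ.image (Fin.append u x)) with
        | false => rw [if_neg (by decide), if_neg (by decide)]
        | true => rw [if_pos (by decide), if_pos (by decide)]
      · rw [if_neg h1, if_neg h1, Int.cast_zero]
    have h3 : (0 : ℝ) ≤ ∑ x : Fin (j + 1) → Fin n, ((mvx c H E u φ x : ℤ) : ℝ) := by
      rw [Finset.sum_congr rfl fun x _ => e1 x, sum_ext u hu hij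
        (fun Q : Finset (Fin n) => ((mvQ c H E (gam u φ) Q : ℤ) : ℝ)) (by
          intro Q _ hQ
          have h1 : par (gam u φ) Q ≠ true := fun h2 => hQ (par_gam_sup u φ Q h2)
          show ((mvQ c H E (gam u φ) Q : ℤ) : ℝ) = 0
          unfold mvQ
          rw [if_neg h1]
          simp)]
      refine mul_nonneg (Nat.cast_nonneg _) ?_
      exact_mod_cast mvQ_sum c H E h (gam u φ)
    exact_mod_cast h3
  · refine Finset.sum_nonneg fun x _ => ?_
    unfold mvx
    rw [if_neg]
    intro h1
    apply hu
    intro a b hab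
    have h2 : Fin.append u x (Fin.castAdd (j + 1) a) = Fin.append u x (Fin.castAdd (j + 1) b) := by
      rw [Fin.append_left, Fin.append_left]
      exact hab
    exact Fin.castAdd_injective _ _ (h1 h2)

theorem dc_wc (wp wm : ℕ) (H E : Finset (Finset (Fin n))) (Q : Finset (Fin n)) :
    dc (wc wp wm) H E Q = dw wp wm (decide (Q ∈ H)) (decide (Q ∈ E)) := by
  unfold dc
  exact dw_eq wp wm _ _

theorem mvx_le (wp wm : ℕ) (H E : Finset (Finset (Fin n))) (u : Fin i → Fin n)
    (φ : (Fin j → Fin n) → Bool) (x : Fin (j + 1) → Fin n) :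
    mvx (wc wp wm) H E u φ x ≤ wp + wm := by
  have h0 : (0 : ℤ) ≤ wp + wm := by positivity
  unfold mvx
  split_ifs
  · rw [dc_wc]
    exact dw_le _ _ _ _
  · exact h0
  · exact h0

end mv

/-! ### Rules -/

/-- The exchange of the free vertices of a triple. -/
def fe (i : ℕ) {j : ℕ} (σ : Equiv.Perm (Fin j)) : Fin (i + 2 + j) → Fin (i + 2 + j) :=
  Fin.append (Fin.castAdd j) (Fin.natAdd (i + 2) ∘ σ)

/-- A rule: a function of the visible data of the roots and of the free vertices of a triple. The
first `i` of the `i + 2` roots are in all triples. -/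
structure Rl (i j : ℕ) where
  F : WD (i + 2 + j) → Bool
  sy : ∀ (σ : Equiv.Perm (Fin j)) (D : WD (i + 2 + j)), F (D.sub (fe i σ)) = F D

theorem append_fe {n i j : ℕ} (s : Fin (i + 2) → Fin n) (y : Fin j → Fin n)
    (σ : Equiv.Perm (Fin j)) : Fin.append s (y ∘ σ) = Fin.append s y ∘ fe i σ := by
  funext a
  unfold fe
  induction a using Fin.addCases with
  | left a =>
    rw [Fin.append_left, Function.comp_apply, Fin.append_left, Fin.append_left]
  | right a =>
    rw [Fin.append_right, Function.comp_apply, Function.comp_apply, Fin.append_right,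
      Function.comp_apply, Fin.append_right]

/-- The family of triples of a rule. -/
def Rl.φ {i j : ℕ} (R : Rl i j) (P : ParX) {n : ℕ} (H E : Finset (Finset (Fin n)))
    (χ : Fin n → Bool) (s : Fin (i + 2) → Fin n) (y : Fin j → Fin n) : Bool :=
  R.F (wt P H E χ (Fin.append s y))

theorem Rl.φ_sy {i j : ℕ} (R : Rl i j) (P : ParX) {n : ℕ} (H E : Finset (Finset (Fin n)))
    (χ : Fin n → Bool) (s : Fin (i + 2) → Fin n) (σ : Equiv.Perm (Fin j)) (y : Fin j → Fin n) :
    R.φ P H E χ s (y ∘ σ) = R.φ P H E χ s y := by
  unfold Rl.φ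
  rw [append_fe, wt_comp, R.sy]

/-- A rule from an arbitrary function: some order of the free vertices has the property. -/
def Rl.or {i j : ℕ} (F : WD (i + 2 + j) → Bool) : Rl i j where
  F := fun D => decide (∃ σ : Equiv.Perm (Fin j), F (D.sub (fe i σ)) = true)
  sy := by
    intro τ D
    rw [Bool.eq_iff_iff, decide_eq_true_iff, decide_eq_true_iff]
    have e : ∀ σ : Equiv.Perm (Fin j), (D.sub (fe i τ)).sub (fe i σ) =
        D.sub (fe i (σ.trans τ)) := by
      intro σ
      rw [sub_sub]
      congr 1
      funext a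
      unfold fe
      induction a using Fin.addCases with
      | left a =>
        rw [Function.comp_apply, Fin.append_left, Fin.append_left, Fin.append_left]
      | right a =>
        rw [Function.comp_apply, Fin.append_right, Function.comp_apply, Fin.append_right,
          Fin.append_right]
        rfl
    constructor
    · rintro ⟨σ, h⟩
      exact ⟨σ.trans τ, by rw [← e]; exact h⟩
    · rintro ⟨σ, h⟩
      refine ⟨σ.trans τ.symm, ?_⟩
      rw [e]
      have e2 : (σ.trans τ.symm).trans τ = σ := by
        ext a
        simp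
      rw [e2]
      exact h

/-- A rule without free vertices. -/
def Rl.of0 {i : ℕ} (F : WD (i + 2 + 0) → Bool) : Rl i 0 where
  F := F
  sy := by
    intro σ D
    have e : fe i σ = id := by
      funext a
      unfold fe
      induction a using Fin.addCases with
      | left a => rw [Fin.append_left]; rfl
      | right a => exact a.elim0
    rw [e, sub_id]

/-- A rule with one free vertex. -/
def Rl.of1 {i : ℕ} (F : WD (i + 2 + 1) → Bool) : Rl i 1 where
  F := F
  sy := by
    intro σ D
    have h1 : σ = 1 := Subsingleton.elim _ _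
    have e : fe i σ = id := by
      funext a
      unfold fe
      rw [h1]
      induction a using Fin.addCases with
      | left a => rw [Fin.append_left]; rfl
      | right a => rw [Fin.append_right]; rfl
    rw [e, sub_id]

/-- The triple of a rule: the fixed and the free vertices. -/
def tS (i j : ℕ) : Finset (Fin (i + 2 + j)) :=
  (univ.image fun a : Fin i => Fin.castAdd j (Fin.castAdd 2 a)) ∪
    univ.image fun a : Fin j => Fin.natAdd (i + 2) a

/-- The further roots. -/
def rS (i j : ℕ) (k : Fin 2) : Fin (i + 2 + j) := Fin.castAdd j (Fin.natAdd i k)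

theorem fe_left (i : ℕ) {j : ℕ} (σ : Equiv.Perm (Fin j)) (a : Fin (i + 2)) :
    fe i σ (Fin.castAdd j a) = Fin.castAdd j a := by
  unfold fe
  rw [Fin.append_left]

theorem fe_right (i : ℕ) {j : ℕ} (σ : Equiv.Perm (Fin j)) (a : Fin j) :
    fe i σ (Fin.natAdd (i + 2) a) = Fin.natAdd (i + 2) (σ a) := by
  unfold fe
  rw [Fin.append_right]
  rfl

theorem tS_image (i j : ℕ) (σ : Equiv.Perm (Fin j)) : (tS i j).image (fe i σ) = tS i j := by
  unfold tS
  rw [Finset.image_union, Finset.image_image, Finset.image_image]
  congr 1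
  · refine Finset.image_congr fun a _ => ?_
    exact fe_left i σ _
  · ext q
    simp only [Finset.mem_image, Finset.mem_univ, true_and, Function.comp_apply]
    constructor
    · rintro ⟨a, rfl⟩
      exact ⟨σ a, (fe_right i σ a).symm⟩
    · rintro ⟨a, rfl⟩
      refine ⟨σ.symm a, ?_⟩
      rw [fe_right, Equiv.apply_symm_apply]

/-- The number of free vertices of the second colour. -/
def cS {i j : ℕ} (D : WD (i + 2 + j)) : ℕ :=
  ∑ a : Fin j, (D.c (Fin.natAdd (i + 2) a)).toNat

/-- A rule from a table: a function of the colours of the roots, of the number of free vertices of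
the second colour, and of the memberships of the triple with each of the two further roots. -/
def Rl.tab (i j : ℕ) (G : (Fin (i + 2) → Bool) → ℕ → (Fin 2 → Bool) → (Fin 2 → Bool) → Bool) :
    Rl i j where
  F := fun D => G (fun a => D.c (Fin.castAdd j a)) (cS D)
    (fun k => D.e (insert (rS i j k) (tS i j))) (fun k => D.r (insert (rS i j k) (tS i j)))
  sy := by
    intro σ D
    have h1 : (fun a : Fin (i + 2) => (D.sub (fe i σ)).c (Fin.castAdd j a)) =
        fun a => D.c (Fin.castAdd j a) := by
      funext a
      show D.c (fe i σ (Fin.castAdd j a)) = _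
      rw [fe_left]
    have h2 : cS (D.sub (fe i σ)) = cS D := by
      unfold cS
      have e : ∀ a : Fin j, (D.sub (fe i σ)).c (Fin.natAdd (i + 2) a) =
          D.c (Fin.natAdd (i + 2) (σ a)) := by
        intro a
        show D.c (fe i σ (Fin.natAdd (i + 2) a)) = _
        rw [fe_right]
      rw [Finset.sum_congr rfl fun a _ => by rw [e a]]
      exact Equiv.sum_comp σ fun a => (D.c (Fin.natAdd (i + 2) a)).toNat
    have h3 : ∀ k : Fin 2, (insert (rS i j k) (tS i j)).image (fe i σ) =
        insert (rS i j k) (tS i j) := by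
      intro k
      rw [Finset.image_insert, tS_image]
      congr 1
      exact fe_left i σ _
    have h4 : (fun k : Fin 2 => (D.sub (fe i σ)).e (insert (rS i j k) (tS i j))) =
        fun k => D.e (insert (rS i j k) (tS i j)) := by
      funext k
      show D.e ((insert (rS i j k) (tS i j)).image (fe i σ)) = _
      rw [h3]
    have h5 : (fun k : Fin 2 => (D.sub (fe i σ)).r (insert (rS i j k) (tS i j))) =
        fun k => D.r (insert (rS i j k) (tS i j)) := by
      funext k
      show D.r ((insert (rS i j k) (tS i j)).image (fe i σ)) = _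
      rw [h3]
    rw [h1, h2, h4, h5]

/-! ### The terms -/

section terms
variable {i j : ℕ}

/-- The term of a change: a multiplier of the roots and the change of the cost. -/
noncomputable def mvF (wp wm : ℕ) (μ : MuX (i + 2)) (R : Rl i j) (P : ParX) {n : ℕ}
    (H E : Finset (Finset (Fin n))) (χ : Fin n → Bool) (p : Fin (i + 2 + (j + 1)) → Fin n) : ℤ :=
  (μ.F (wt P H E χ (p ∘ Fin.castAdd (j + 1))) : ℕ) *
    mvx (wc wp wm) H E ((p ∘ Fin.castAdd (j + 1)) ∘ Fin.castAdd 2)
      (R.φ P H E χ (p ∘ Fin.castAdd (j + 1))) (p ∘ Fin.natAdd (i + 2))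

/-- The smallest cost. -/
def OptC3 (Cx : X3) (wp wm : ℕ) : Prop :=
  ∀ {n : ℕ} (H E : Finset (Finset (Fin n))) (χ : Fin n → Bool), Cx H E χ → OptE (wc wp wm) H E

theorem good_mvF {Cx : X3} (hij : i + (j + 1) = 4) (wp wm : ℕ) (hO : OptC3 Cx wp wm)
    (μ : MuX (i + 2)) (R : Rl i j) (P : ParX) (f : Fin (i + 2 + (j + 1)) → Fin 6)
    (hf : Function.Injective f) :
    GoodP Cx (fun H E χ t => mvF wp wm μ R P H E χ (t ∘ f)) := by
  refine GoodP.of_tot (k := i + 2 + (j + 1)) (fun H E χ p => mvF wp wm μ R P H E χ p)
    ((μ.B * (wp + wm) : ℕ) : ℝ) (fun {n} H E χ hc => ?_) (fun {n} H E χ hc p => ?_) f hf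
  · have h1 : (0 : ℤ) ≤ ∑ p, mvF wp wm μ R P H E χ p := by
      rw [sum_app (k := i + 2) (l := j + 1)]
      refine Finset.sum_nonneg fun s _ => ?_
      have e : ∀ x : Fin (j + 1) → Fin n, mvF wp wm μ R P H E χ (Fin.append s x) =
          (μ.F (wt P H E χ s) : ℕ) * mvx (wc wp wm) H E (s ∘ Fin.castAdd 2)
            (R.φ P H E χ s) x := by
        intro x
        unfold mvF
        have e1 : (Fin.append s x : Fin (i + 2 + (j + 1)) → Fin n) ∘ Fin.castAdd (j + 1) = s :=
          append_castAdd s x
        have e2 : (Fin.append s x : Fin (i + 2 + (j + 1)) → Fin n) ∘ Fin.natAdd (i + 2) = x := by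
          funext a
          exact Fin.append_right s x a
        rw [e1, e2]
      rw [Finset.sum_congr rfl fun x _ => e x, ← Finset.mul_sum]
      exact mul_nonneg (Int.natCast_nonneg _)
        (mvx_sum hij (wc wp wm) H E (hO H E χ hc) _ _ (R.φ_sy P H E χ s))
    exact_mod_cast h1
  · have h1 : mvF wp wm μ R P H E χ p ≤ ((μ.B * (wp + wm) : ℕ) : ℤ) := by
      unfold mvF
      have h2 := mvx_le wp wm H E ((p ∘ Fin.castAdd (j + 1)) ∘ Fin.castAdd 2)
        (R.φ P H E χ (p ∘ Fin.castAdd (j + 1))) (p ∘ Fin.natAdd (i + 2))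
      have h3 : (μ.F (wt P H E χ (p ∘ Fin.castAdd (j + 1))) : ℤ) ≤ μ.B := by
        exact_mod_cast μ.hB _
      push_cast
      calc _ ≤ (μ.F (wt P H E χ (p ∘ Fin.castAdd (j + 1))) : ℤ) * (wp + wm) :=
            mul_le_mul_of_nonneg_left h2 (Int.natCast_nonneg _)
        _ ≤ μ.B * (wp + wm) := mul_le_mul_of_nonneg_right h3 (by positivity)
    exact_mod_cast h1

end terms

/-! ### The terms on windows -/

section val
variable {n : ℕ}

/-- The vertices of a triple of the free vertices and of the roots. -/
def ea (i j : ℕ) (a : Fin (j + 1)) : Fin (i + 2 + j) → Fin (i + 2 + (j + 1)) :=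
  Fin.append (Fin.castAdd (j + 1)) (Fin.natAdd (i + 2) ∘ a.succAbove)

/-- The fixed and the free vertices. -/
def eq4 (i j : ℕ) : Fin (i + (j + 1)) → Fin (i + 2 + (j + 1)) :=
  Fin.append (fun a => Fin.castAdd (j + 1) (Fin.castAdd 2 a)) (Fin.natAdd (i + 2))

theorem eq4_inj (i j : ℕ) : Function.Injective (eq4 i j) := by
  intro a b
  unfold eq4
  induction a using Fin.addCases with
  | left a =>
    induction b using Fin.addCases with
    | left b =>
      intro h
      rw [Fin.append_left, Fin.append_left] at h
      have h2 := congrArg Fin.val h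
      apply Fin.ext
      simpa using h2
    | right b =>
      intro h
      rw [Fin.append_left, Fin.append_right] at h
      have h2 := congrArg Fin.val h
      have := a.isLt
      simp at h2
      omega
  | right a =>
    induction b using Fin.addCases with
    | left b =>
      intro h
      rw [Fin.append_left, Fin.append_right] at h
      have h2 := congrArg Fin.val h
      have := b.isLt
      simp at h2
      omega
    | right b =>
      intro h
      rw [Fin.append_right, Fin.append_right] at h
      rw [Fin.natAdd_injective _ _ h]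

/-- The value of a change on a window. -/
def mvV (wp wm : ℕ) {i j : ℕ} (μ : MuX (i + 2)) (R : Rl i j) (D : WD (i + 2 + (j + 1))) : ℤ :=
  (μ.F (D.sub (Fin.castAdd (j + 1))) : ℕ) *
    (if ∑ a : Fin (j + 1), bz (R.F (D.sub (ea i j a))) = 1 then
      dw wp wm (D.e (univ.image (eq4 i j))) (D.r (univ.image (eq4 i j))) else 0)

theorem mvF_win (wp wm : ℕ) {i j : ℕ} (μ : MuX (i + 2)) (R : Rl i j) (P : ParX)
    (H E : Finset (Finset (Fin n))) (χ : Fin n → Bool) (p : Fin (i + 2 + (j + 1)) → Fin n)
    (hp : Function.Injective p) :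
    mvF wp wm μ R P H E χ p = mvV wp wm μ R (wt P H E χ p) := by
  unfold mvF mvV mvx
  have e1 : (Fin.append ((p ∘ Fin.castAdd (j + 1)) ∘ Fin.castAdd 2) (p ∘ Fin.natAdd (i + 2)) :
      Fin (i + (j + 1)) → Fin n) = p ∘ eq4 i j := by
    funext a
    unfold eq4
    induction a using Fin.addCases with
    | left a =>
      rw [Fin.append_left, Function.comp_apply, Function.comp_apply, Function.comp_apply,
        Fin.append_left]
    | right a =>
      rw [Fin.append_right, Function.comp_apply, Function.comp_apply, Fin.append_right]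
  have e2 : ∀ a : Fin (j + 1), R.φ P H E χ (p ∘ Fin.castAdd (j + 1))
      ((p ∘ Fin.natAdd (i + 2)) ∘ a.succAbove) = R.F ((wt P H E χ p).sub (ea i j a)) := by
    intro a
    unfold Rl.φ
    rw [← wt_comp]
    congr 2
    funext b
    unfold ea
    induction b using Fin.addCases with
    | left b =>
      rw [Fin.append_left, Function.comp_apply, Function.comp_apply, Fin.append_left]
    | right b =>
      rw [Fin.append_right, Function.comp_apply, Function.comp_apply, Function.comp_apply,
        Fin.append_right, Function.comp_apply]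
  rw [e1, if_pos (hp.comp (eq4_inj i j)), dc_wc]
  have e3 : ∀ G : Finset (Finset (Fin n)), decide (univ.image (p ∘ eq4 i j) ∈ G) =
      zb G p (univ.image (eq4 i j)) := by
    intro G
    rw [zb_eq]
    show _ = decide ((univ.image (eq4 i j)).image p ∈ G)
    rw [Finset.image_image]
  rw [e3, e3]
  simp only [e2]
  rw [wt_comp]
  rfl

end val

end Pool.Agent.Lib.MP_afdd4d_co.K9.Star.Tw
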