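import Pool.Agent.Lib.MP_afdd4d_co.K9.TwBr
import Pool.Agent.Lib.MP_afdd4d_co.K9.TwMain

/-!
# Closeness to the reference structures from the inequalities on windows

Conclusions with a tolerance from the conditions on a 4-graph, an even 4-graph and a colouring; the
4-graphs without `K_5` of density at least `11 / 16` are close to the reference structures.
-/

namespace Pool.Agent.Lib.MP_afdd4d_co.K9.Star.Tw

open Finset K8
open Pool.Agent.Lib.MP_afdd4d_co.K9.Marks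

/-! ### Conclusions with a tolerance -/

/-- A conclusion with a tolerance from the conditions. -/
def TWc (P : ∀ n : ℕ, Finset (Finset (Fin n)) → Prop) (wp wm : ℕ) (L : List Psi3) (Q R : C3) :
    Prop :=
  ∀ ε : ℝ, 0 < ε → ∃ η : ℝ, 0 < η ∧ ∃ N : ℕ, ∀ n : ℕ, N ≤ n → ∀ (H E : Finset (Finset (Fin n)))
    (χ : Fin n → Bool), CtxW P wp wm L Q η H E χ → R ε H E χ

section twc
variable {P : ∀ n : ℕ, Finset (Finset (Fin n)) → Prop} {wp wm : ℕ} {L : List Psi3}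

/-- Weaker conclusions and stronger conditions. -/
theorem TWc.mono {Q Q' R R' : C3} (h : TWc P wp wm L Q R)
    (hq : ∀ (η : ℝ) {n : ℕ} (H E : Finset (Finset (Fin n))) (χ : Fin n → Bool),
      Q' η H E χ → Q η H E χ)
    (hr : ∀ (η : ℝ) {n : ℕ} (H E : Finset (Finset (Fin n))) (χ : Fin n → Bool),
      R η H E χ → R' η H E χ) : TWc P wp wm L Q' R' := by
  intro ε hε
  obtain ⟨η, hη, N, hN⟩ := h ε hε
  exact ⟨η, hη, N, fun n hn H E χ hc => hr ε H E χ (hN n hn H E χ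
    ⟨hc.h4, hc.k5, hc.p, hc.d, hc.o, hc.t, hq η H E χ hc.q⟩)⟩

/-- Two cases. -/
theorem twc_or {Q Q' Q'' R : C3} (h : TWc P wp wm L Q R) (h' : TWc P wp wm L Q' R)
    (hm : MonoW Q'') (hq : ∀ (η : ℝ) {n : ℕ} (H E : Finset (Finset (Fin n)))
      (χ : Fin n → Bool), Q'' η H E χ → Q η H E χ ∨ Q' η H E χ) (hQ : MonoW Q)
    (hQ' : MonoW Q') : TWc P wp wm L Q'' R := by
  intro ε hε
  obtain ⟨η, hη, N, hN⟩ := h ε hε
  obtain ⟨η', hη', N', hN'⟩ := h' ε hε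
  refine ⟨min η η', lt_min hη hη', max N N', fun n hn H E χ hc => ?_⟩
  have h1 := monoW_CtW hm _ _ (min_le_left η η') H E χ hc
  have h2 := monoW_CtW hm _ _ (min_le_right η η') H E χ hc
  rcases hq _ H E χ hc.q with h3 | h3
  · exact hN n (le_trans (le_max_left _ _) hn) H E χ
      ⟨h1.h4, h1.k5, h1.p, h1.d, h1.o, h1.t, hQ _ _ (min_le_left η η') H E χ h3⟩
  · exact hN' n (le_trans (le_max_right _ _) hn) H E χ
      ⟨h2.h4, h2.k5, h2.p, h2.d, h2.o, h2.t, hQ' _ _ (min_le_right η η') H E χ h3⟩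

/-- A conclusion may be added to the conditions. -/
theorem twc_step {Q R R' : C3} (hQ : MonoW Q) (h : TWc P wp wm L Q R)
    (h2 : TWc P wp wm L (AndW Q R) R') : TWc P wp wm L Q R' := by
  intro ε hε
  obtain ⟨η, hη, N, hN⟩ := h2 ε hε
  obtain ⟨η', hη', N', hN'⟩ := h η hη
  refine ⟨min η η', lt_min hη hη', max N N', fun n hn H E χ hc => ?_⟩
  have h1 := monoW_CtW hQ _ _ (min_le_left η η') H E χ hc
  have h3 := monoW_CtW hQ _ _ (min_le_right η η') H E χ hc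
  exact hN n (le_trans (le_max_left _ _) hn) H E χ
    ⟨h1.h4, h1.k5, h1.p, h1.d, h1.o, h1.t,
      h1.q, hN' n (le_trans (le_max_right _ _) hn) H E χ h3⟩

/-- Both conclusions. -/
theorem twc_and {Q R R' : C3} (hQ : MonoW Q) (h : TWc P wp wm L Q R)
    (h2 : TWc P wp wm L Q R') : TWc P wp wm L Q (AndW R R') := by
  intro ε hε
  obtain ⟨η, hη, N, hN⟩ := h ε hε
  obtain ⟨η', hη', N', hN'⟩ := h2 ε hε
  refine ⟨min η η', lt_min hη hη', max N N', fun n hn H E χ hc => ?_⟩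
  exact ⟨hN n (le_trans (le_max_left _ _) hn) H E χ
      (monoW_CtW hQ _ _ (min_le_left η η') H E χ hc),
    hN' n (le_trans (le_max_right _ _) hn) H E χ
      (monoW_CtW hQ _ _ (min_le_right η η') H E χ hc)⟩

/-! ### Averages of functions of the window -/

/-- The average of a function of the window is bounded. -/
def AvgW (Ψ : Psi3) (x : ℝ) : C3 := fun η {n} H E χ =>
  ∑ t ∈ inj (Fin n) 6, ((Ψ (zb H t) (zb E t) (fun i => χ (t i)) : ℤ) : ℝ) ≤ (x + η) * (n : ℝ) ^ 6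

theorem monoW_avg (Ψ : Psi3) (x : ℝ) : MonoW (AvgW Ψ x) := by
  intro η η' h n H E χ hc
  exact le_trans hc (mul_le_mul_of_nonneg_right (by linarith) (by positivity))

/-- The bound of an average from the inequality on windows. -/
theorem avgW_of_goodW {Q : C3} (Ψ : Psi3) (c d : ℕ) (hd : 0 < d)
    (h : GoodW (CtW P wp wm L Q) (fun H E χ t =>
      c - d * Ψ (zb H t) (zb E t) (fun i => χ (t i)))) :
    TWc P wp wm L Q (AvgW Ψ ((c : ℝ) / d)) := by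
  intro ε hε
  have hd' : (0 : ℝ) < d := by exact_mod_cast hd
  obtain ⟨η, hη, N, hN⟩ := h (d * ε) (by positivity)
  refine ⟨η, hη, N, fun n hn H E χ hc => ?_⟩
  have s := hN n hn H E χ hc
  have e1 : ∑ t ∈ inj (Fin n) 6, ((c - d * Ψ (zb H t) (zb E t) (fun i => χ (t i)) : ℤ) : ℝ) =
      c * (n.descFactorial 6 : ℝ) -
        d * ∑ t ∈ inj (Fin n) 6, ((Ψ (zb H t) (zb E t) (fun i => χ (t i)) : ℤ) : ℝ) := by
    have e2 : ∀ t : Fin 6 → Fin n,
        ((c - d * Ψ (zb H t) (zb E t) (fun i => χ (t i)) : ℤ) : ℝ) =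
        c - d * ((Ψ (zb H t) (zb E t) (fun i => χ (t i)) : ℤ) : ℝ) := by
      intro t
      push_cast
      ring
    rw [Finset.sum_congr rfl fun t _ => e2 t, Finset.sum_sub_distrib, ← Finset.mul_sum]
    simp only [Finset.sum_const, nsmul_eq_mul, card_inj, Fintype.card_fin]
    ring
  rw [e1] at s
  have h5 := desc_le n 6
  have h6 : (c : ℝ) * (n.descFactorial 6 : ℝ) ≤ c * (n : ℝ) ^ 6 :=
    mul_le_mul_of_nonneg_left h5 (Nat.cast_nonneg _)
  show _ ≤ _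
  have h7 : (d : ℝ) * ∑ t ∈ inj (Fin n) 6, ((Ψ (zb H t) (zb E t) (fun i => χ (t i)) : ℤ) : ℝ) ≤
      d * (((c : ℝ) / d + ε) * (n : ℝ) ^ 6) := by
    have e3 : (d : ℝ) * (((c : ℝ) / d + ε) * (n : ℝ) ^ 6) =
        c * (n : ℝ) ^ 6 + d * ε * (n : ℝ) ^ 6 := by
      field_simp
    rw [e3]
    linarith
  exact le_of_mul_le_mul_left h7 hd'

end twc

/-! ### The functions that bound the distance to the reference structures -/

/-- The cost, the defects and the imbalance. -/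
noncomputable def disA (wp wm a b c : ℕ) : Psi3 := fun e r x =>
  a * cw (wc wp wm) e r + b * o5 r x + c * S2 x

/-- The cost, the errors and the imbalance. -/
noncomputable def disB (wp wm a b c : ℕ) : Psi3 := fun e r x =>
  a * cw (wc wp wm) e r + b * f6 r x id + c * S2 x

section dis
variable {n : ℕ}

theorem sum6_S2_ge (hn : 8 ≤ n) (χ : Fin n → Bool) :
    (n : ℝ) ^ 6 * (30 * sg2 χ) - 450 * (n : ℝ) ^ 5 ≤
      ∑ t ∈ inj (Fin n) 6, ((S2 (fun i => χ (t i)) : ℤ) : ℝ) := by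
  rw [sum6_S2', S2_eq]
  have hn8 : (8 : ℝ) ≤ n := by exact_mod_cast hn
  have hn0 : (0 : ℝ) < n := by linarith
  push_cast
  set d2 : ℝ := ((nc χ false : ℝ) - nc χ true) ^ 2 with hd2
  have hd0 : 0 ≤ d2 := sq_nonneg _
  have hs : sg2 χ = d2 / (n : ℝ) ^ 2 := by
    unfold sg2
    rw [hd2, div_pow]
  have hd1 : d2 ≤ (n : ℝ) ^ 2 := by
    have h1 := sg2_le_one χ (by omega)
    rw [hs, div_le_one (by positivity)] at h1
    exact h1
  have e0 : PP n 2 4 = ((n : ℝ) - 2) * (n - 3) * (n - 4) * (n - 5) := by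
    unfold PP
    rw [Finset.prod_range_succ, Finset.prod_range_succ, Finset.prod_range_succ,
      Finset.prod_range_succ, Finset.prod_range_zero]
    push_cast
    ring
  have h1 : (n : ℝ) ^ 4 - 14 * (n : ℝ) ^ 3 ≤ PP n 2 4 := by
    rw [e0]
    nlinarith [sq_nonneg ((n : ℝ) - 2), mul_nonneg hn0.le hn0.le]
  have h2 : PP n 2 4 ≤ (n : ℝ) ^ 4 := PP24_le' n hn
  have h3 : ((n : ℝ) ^ 4 - 14 * (n : ℝ) ^ 3) * d2 ≤ PP n 2 4 * d2 :=
    mul_le_mul_of_nonneg_right h1 hd0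
  have h4 : PP n 2 4 * n ≤ (n : ℝ) ^ 4 * n := mul_le_mul_of_nonneg_right h2 hn0.le
  have h5 : 14 * (n : ℝ) ^ 3 * d2 ≤ 14 * (n : ℝ) ^ 3 * (n : ℝ) ^ 2 :=
    mul_le_mul_of_nonneg_left hd1 (by positivity)
  have e1 : (n : ℝ) ^ 6 * (30 * sg2 χ) = 30 * ((n : ℝ) ^ 4 * d2) := by
    rw [hs]
    field_simp
  rw [e1]
  have e2 : (n : ℝ) ^ 5 = (n : ℝ) ^ 4 * n := by ring
  have e3 : (n : ℝ) ^ 5 = (n : ℝ) ^ 3 * (n : ℝ) ^ 2 := by ring
  linarith

theorem XW5_le (e : Finset (Fin n) → Bool) (χ : Fin n → Bool) :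
    ((XW5 e χ : ℤ) : ℝ) ≤ (n : ℝ) ^ 5 := by
  have h1 : XW5 e χ ≤ ∑ _q ∈ inj (Fin n) 5, (1 : ℤ) := by
    unfold XW5
    refine Finset.sum_le_sum fun q _ => ?_
    unfold w5
    split_ifs <;> norm_num
  rw [Finset.sum_const, nsmul_eq_mul, mul_one, card_inj, Fintype.card_fin] at h1
  have h2 : ((XW5 e χ : ℤ) : ℝ) ≤ (n.descFactorial 5 : ℝ) := by exact_mod_cast h1
  have h3 : (n.descFactorial 5 : ℝ) ≤ (n : ℝ) ^ 5 := by
    exact_mod_cast Nat.descFactorial_le_pow n 5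
  linarith

theorem sum6_o5_ge (E : Finset (Finset (Fin n))) (χ : Fin n → Bool) (hn : 1 ≤ n) :
    (n : ℝ) ^ 6 * (180 * XW E χ) - 3600 * (n : ℝ) ^ 5 ≤
      ∑ t ∈ inj (Fin n) 6, ((o5 (zb E t) (fun i => χ (t i)) : ℤ) : ℝ) := by
  rw [sum6_o5]
  have hn0 : (0 : ℝ) < n := by exact_mod_cast hn
  have h1 := XW5_le (mE E) χ
  have e1 : (n : ℝ) ^ 6 * (180 * XW E χ) = 720 * (n * ((XW5 (mE E) χ : ℤ) : ℝ)) := by
    unfold XW
    field_simp
    ring
  rw [e1]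
  linarith

theorem cst_le (wp wm : ℕ) (H E : Finset (Finset (Fin n))) :
    24 * ((K8.cst (wc wp wm) H E : ℤ) : ℝ) ≤ (wp + wm) * (n : ℝ) ^ 4 := by
  have h1 : K8.cst (wc wp wm) H E ≤ ∑ _Q ∈ (univ : Finset (Fin n)).powersetCard 4,
      ((wp : ℤ) + wm) := Finset.sum_le_sum fun Q _ => wc_le wp wm _ _
  rw [Finset.sum_const, Finset.card_powersetCard, Finset.card_univ, Fintype.card_fin,
    nsmul_eq_mul] at h1
  have h2 : ((K8.cst (wc wp wm) H E : ℤ) : ℝ) ≤ ((n.choose 4 : ℕ) : ℝ) * (wp + wm) := by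
    exact_mod_cast h1
  have h3 : ((n.choose 4 : ℕ) : ℝ) ≤ (n : ℝ) ^ 4 / 24 := by
    have h4 := Nat.choose_le_pow_div (α := ℝ) 4 n
    have h5 : ((Nat.factorial 4 : ℕ) : ℝ) = 24 := by norm_num [Nat.factorial]
    rwa [h5] at h4
  have h4 : ((n.choose 4 : ℕ) : ℝ) * ((wp : ℝ) + wm) ≤ (n : ℝ) ^ 4 / 24 * (wp + wm) :=
    mul_le_mul_of_nonneg_right h3 (by positivity)
  linarith

theorem cst_nonneg (wp wm : ℕ) (H E : Finset (Finset (Fin n))) :
    0 ≤ ((K8.cst (wc wp wm) H E : ℤ) : ℝ) := by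
  rw [cst_eq, Int.cast_natCast]
  exact Nat.cast_nonneg _

theorem sum6_cw_ge (wp wm : ℕ) (H E : Finset (Finset (Fin n))) (hn : 1 ≤ n) :
    (n : ℝ) ^ 6 * (15 * (24 * ((K8.cst (wc wp wm) H E : ℤ) : ℝ) / (n : ℝ) ^ 4)) -
      135 * (wp + wm) * (n : ℝ) ^ 5 ≤
      ∑ t ∈ inj (Fin n) 6, ((cw (wc wp wm) (zb H t) (zb E t) : ℤ) : ℝ) := by
  rw [sum6_cw]
  have hn0 : (0 : ℝ) < n := by exact_mod_cast hn
  have h0 := cst_nonneg wp wm H E
  have h1 := cst_le wp wm H E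
  set J : ℝ := ((K8.cst (wc wp wm) H E : ℤ) : ℝ) with hJ
  have h2 := PP42_ge n
  have h3 : ((n : ℝ) ^ 2 - 9 * n) * J ≤ PP n 4 2 * J := mul_le_mul_of_nonneg_right h2 h0
  have e1 : (n : ℝ) ^ 6 * (15 * (24 * J / (n : ℝ) ^ 4)) = 360 * ((n : ℝ) ^ 2 * J) := by
    field_simp
    ring
  rw [e1]
  have h4 : 135 * (n : ℝ) * (24 * J) ≤ 135 * (n : ℝ) * ((wp + wm) * (n : ℝ) ^ 4) :=
    mul_le_mul_of_nonneg_left h1 (by positivity)
  have e2 : 135 * (n : ℝ) * ((wp + wm) * (n : ℝ) ^ 4) = 135 * (wp + wm) * (n : ℝ) ^ 5 := by ring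
  rw [e2] at h4
  linarith

/-- The lower bound of the sum of the first function. -/
theorem disA_ge (wp wm a b c : ℕ) (hn : 8 ≤ n) (H E : Finset (Finset (Fin n)))
    (χ : Fin n → Bool) :
    (n : ℝ) ^ 6 * (15 * a * (24 * ((K8.cst (wc wp wm) H E : ℤ) : ℝ) / (n : ℝ) ^ 4) +
      180 * b * XW E χ + 30 * c * sg2 χ) -
      (135 * (wp + wm) * a + 3600 * b + 450 * c) * (n : ℝ) ^ 5 ≤
    ∑ t ∈ inj (Fin n) 6,
      ((disA wp wm a b c (zb H t) (zb E t) (fun i => χ (t i)) : ℤ) : ℝ) := by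
  have e1 : ∑ t ∈ inj (Fin n) 6,
      ((disA wp wm a b c (zb H t) (zb E t) (fun i => χ (t i)) : ℤ) : ℝ) =
      a * ∑ t ∈ inj (Fin n) 6, ((cw (wc wp wm) (zb H t) (zb E t) : ℤ) : ℝ) +
      b * ∑ t ∈ inj (Fin n) 6, ((o5 (zb E t) (fun i => χ (t i)) : ℤ) : ℝ) +
      c * ∑ t ∈ inj (Fin n) 6, ((S2 (fun i => χ (t i)) : ℤ) : ℝ) := by
    rw [Finset.mul_sum, Finset.mul_sum, Finset.mul_sum, ← Finset.sum_add_distrib,
      ← Finset.sum_add_distrib]
    refine Finset.sum_congr rfl fun t _ => ?_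
    unfold disA
    push_cast
    ring
  rw [e1]
  have h1 := mul_le_mul_of_nonneg_left (sum6_cw_ge wp wm H E (by omega))
    (Nat.cast_nonneg (α := ℝ) a)
  have h2 := mul_le_mul_of_nonneg_left (sum6_o5_ge E χ (by omega)) (Nat.cast_nonneg (α := ℝ) b)
  have h3 := mul_le_mul_of_nonneg_left (sum6_S2_ge hn χ) (Nat.cast_nonneg (α := ℝ) c)
  refine le_trans (le_of_eq ?_) (add_le_add (add_le_add h1 h2) h3)
  ring

/-- The lower bound of the sum of the second function. -/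
theorem disB_ge (wp wm a b c : ℕ) (hn : 8 ≤ n) (H E : Finset (Finset (Fin n)))
    (χ : Fin n → Bool) :
    (n : ℝ) ^ 6 * (15 * a * (24 * ((K8.cst (wc wp wm) H E : ℤ) : ℝ) / (n : ℝ) ^ 4) +
      b * (24 * ((S6 (mE E) χ : ℤ) : ℝ) / (n : ℝ) ^ 6) + 30 * c * sg2 χ) -
      (135 * (wp + wm) * a + 450 * c) * (n : ℝ) ^ 5 ≤
    ∑ t ∈ inj (Fin n) 6,
      ((disB wp wm a b c (zb H t) (zb E t) (fun i => χ (t i)) : ℤ) : ℝ) := by
  have hn0 : (0 : ℝ) < n := by exact_mod_cast (by omega : 0 < n)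
  have e1 : ∑ t ∈ inj (Fin n) 6,
      ((disB wp wm a b c (zb H t) (zb E t) (fun i => χ (t i)) : ℤ) : ℝ) =
      a * ∑ t ∈ inj (Fin n) 6, ((cw (wc wp wm) (zb H t) (zb E t) : ℤ) : ℝ) +
      b * ∑ t ∈ inj (Fin n) 6, ((f6 (mE E) χ t : ℤ) : ℝ) +
      c * ∑ t ∈ inj (Fin n) 6, ((S2 (fun i => χ (t i)) : ℤ) : ℝ) := by
    rw [Finset.mul_sum, Finset.mul_sum, Finset.mul_sum, ← Finset.sum_add_distrib,
      ← Finset.sum_add_distrib]
    refine Finset.sum_congr rfl fun t ht => ?_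
    have h2 : f6 (zb E t) (fun i => χ (t i)) id = f6 (mE E) χ t := by
      rw [zb_eq]
      exact f6_comp (mE E) χ t (mem_inj.mp ht) id
    unfold disB
    rw [h2]
    push_cast
    ring
  rw [e1, sum6_inj]
  have h1 := mul_le_mul_of_nonneg_left (sum6_cw_ge wp wm H E (by omega))
    (Nat.cast_nonneg (α := ℝ) a)
  have h3 := mul_le_mul_of_nonneg_left (sum6_S2_ge hn χ) (Nat.cast_nonneg (α := ℝ) c)
  have e2 : (n : ℝ) ^ 6 * (b * (24 * ((S6 (mE E) χ : ℤ) : ℝ) / (n : ℝ) ^ 6)) =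
      b * (24 * ((S6 (mE E) χ : ℤ) : ℝ)) := by
    field_simp
  have e3 : (n : ℝ) ^ 6 * (15 * a * (24 * ((K8.cst (wc wp wm) H E : ℤ) : ℝ) / (n : ℝ) ^ 4) +
      b * (24 * ((S6 (mE E) χ : ℤ) : ℝ) / (n : ℝ) ^ 6) + 30 * c * sg2 χ) =
      (n : ℝ) ^ 6 * (15 * a * (24 * ((K8.cst (wc wp wm) H E : ℤ) : ℝ) / (n : ℝ) ^ 4) +
        30 * c * sg2 χ) + (n : ℝ) ^ 6 * (b * (24 * ((S6 (mE E) χ : ℤ) : ℝ) / (n : ℝ) ^ 6)) := by
    ring
  rw [e3, e2]
  have e4 : (n : ℝ) ^ 6 * (15 * a * (24 * ((K8.cst (wc wp wm) H E : ℤ) : ℝ) / (n : ℝ) ^ 4) +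
        30 * c * sg2 χ) + b * (24 * ((S6 (mE E) χ : ℤ) : ℝ)) -
      (135 * (wp + wm) * a + 450 * c) * (n : ℝ) ^ 5 =
      a * ((n : ℝ) ^ 6 * (15 * (24 * ((K8.cst (wc wp wm) H E : ℤ) : ℝ) / (n : ℝ) ^ 4)) -
        135 * (wp + wm) * (n : ℝ) ^ 5) + b * (24 * ((S6 (mE E) χ : ℤ) : ℝ)) +
      c * ((n : ℝ) ^ 6 * (30 * sg2 χ) - 450 * (n : ℝ) ^ 5) := by ring
  rw [e4]
  linarith

/-- The distance is bounded by the cost. -/
theorem X4_le_cst (wp wm w : ℕ) (hwp : w ≤ wp) (hwm : w ≤ wm) (hn : 1 ≤ n)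
    (H E : Finset (Finset (Fin n))) (h4 : ∀ e ∈ H, e.card = 4) (h4' : ∀ e ∈ E, e.card = 4) :
    w * X4 H E ≤ 24 * ((K8.cst (wc wp wm) H E : ℤ) : ℝ) / (n : ℝ) ^ 4 := by
  have hn0 : (0 : ℝ) < n := by exact_mod_cast hn
  have hJ4 : ∀ e ∈ symmDiff H E, e.card = 4 := by
    intro e he
    rw [Finset.mem_symmDiff] at he
    rcases he with h1 | h1
    · exact h4 e h1.1
    · exact h4' e h1.1
  have h2 : (w : ℝ) * ((symmDiff H E).card : ℝ) ≤ ((K8.cst (wc wp wm) H E : ℤ) : ℝ) := by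
    have h3 : w * (symmDiff H E).card ≤ cN wp wm H E := cN_ge wp wm w hwp hwm H E hJ4
    rw [cst_eq, Int.cast_natCast]
    exact_mod_cast h3
  unfold X4
  rw [← mul_div_assoc]
  exact div_le_div_of_nonneg_right (by linarith) (by positivity)

theorem abs_le_of_sg2 (χ : Fin n → Bool) (hn : 1 ≤ n) {s : ℝ} (hs : 0 ≤ s)
    (h : sg2 χ ≤ s ^ 2) : |(nc χ false : ℝ) - nc χ true| / n ≤ s := by
  have hn0 : (0 : ℝ) < n := by exact_mod_cast hn
  unfold sg2 at h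
  have h1 := sq_le_sq.mp h
  rw [abs_div, abs_of_pos hn0, abs_of_nonneg hs] at h1
  exact h1

end dis

/-! ### Closeness -/

/-- The 4-graphs without `K_5` of density at least `11 / 16` are close to the reference
structures. -/
def Near (P : ∀ n : ℕ, Finset (Finset (Fin n)) → Prop) (w X0 : ℝ) : Prop :=
  ∀ η : ℝ, 0 < η → ∃ N : ℕ, ∀ n : ℕ, N ≤ n → ∀ H : Finset (Finset (Fin n)),
    (∀ e ∈ H, e.card = 4) → K5F H → P n H → 11 / 16 ≤ e4 H →
    ∃ χ M f g, cost w H χ M f g ≤ X0 + η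

section near
variable {P : ∀ n : ℕ, Finset (Finset (Fin n)) → Prop} {wp wm : ℕ} {L : List Psi3}

/-- Closeness from a bound of the cost with the nearest reference structure to the even 4-graph. -/
theorem near_core {R : C3} {w X0 : ℝ} (h1 : T1L P wp wm L) (h2 : TWc P wp wm L TrueW R)
    (h3 : ∀ η : ℝ, 0 < η → ∃ ε : ℝ, 0 < ε ∧ ∃ N : ℕ, ∀ n : ℕ, N ≤ n →
      ∀ (H E : Finset (Finset (Fin n))) (χ : Fin n → Bool), (∀ e ∈ H, e.card = 4) →
      (∀ e ∈ E, e.card = 4) → EvenH n E → R ε H E χ → ∃ M f g, cost w H χ M f g ≤ X0 + η) :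
    Near P w X0 := by
  intro η hη
  obtain ⟨ε, hε, N3, hN3⟩ := h3 η hη
  obtain ⟨η2, hη2, N2, hN2⟩ := h2 ε hε
  obtain ⟨N1, hN1⟩ := h1 η2 hη2
  refine ⟨max N1 (max N2 N3), fun n hn H hH hK hP hd => ?_⟩
  have hn1 : N1 ≤ n := le_trans (le_max_left _ _) hn
  have hn2 : N2 ≤ n := le_trans (le_trans (le_max_left _ _) (le_max_right _ _)) hn
  have hn3 : N3 ≤ n := le_trans (le_trans (le_max_right _ _) (le_max_right _ _)) hn
  obtain ⟨E, hE⟩ := exists_optE (wc wp wm) H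
  obtain ⟨χ, hχ⟩ := hN1 n hn1 H E hH hK hP hd hE
  have h4 := hN2 n hn2 H E χ ⟨hH, hK, hP, hd, hE, hχ, trivial⟩
  obtain ⟨M, f, g, h5⟩ := hN3 n hn3 H E χ hH hE.1 hE.2.1 h4
  exact ⟨χ, M, f, g, h5⟩

/-- Closeness from a bound of the cost, the defects and the imbalance. -/
theorem near_of_disA (h1 : T1L P wp wm L) (a b c w0 : ℕ) (x s w : ℝ) (hwp : w0 ≤ wp)
    (hwm : w0 ≤ wm) (ha : 0 < a * w0) (hs0 : 0 < s) (hs1 : s < 1) (hc : 0 < c)
    (h2 : TWc P wp wm L TrueW (AvgW (disA wp wm a b c) x))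
    (hs : x < 30 * c * s ^ 2) (hb : (5 + s) * (a * w0) ≤ 12 * b * (1 - s ^ 2))
    (hw : w * (a * w0) ≤ 2 * c) : Near P w (x / (15 * (a * w0))) := by
  refine near_core h1 h2 fun η hη => ?_
  have ha' : (0 : ℝ) < a * w0 := by exact_mod_cast ha
  have hc' : (0 : ℝ) < c := by exact_mod_cast hc
  have hs2 : 0 < 1 - s ^ 2 := by nlinarith
  set T : ℝ := 15 * (a * w0) with hT
  have hT0 : 0 < T := by positivity
  set K : ℝ := 135 * (wp + wm) * a + 3600 * b + 450 * c with hK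
  have hK0 : 0 ≤ K := by positivity
  set ε : ℝ := min (T * η / 3) ((30 * c * s ^ 2 - x) / 2) with hε
  have hε0 : 0 < ε := lt_min (by positivity) (by linarith)
  have hε1 : ε ≤ T * η / 3 := min_le_left _ _
  have hε2 : ε ≤ (30 * c * s ^ 2 - x) / 2 := min_le_right _ _
  obtain ⟨N1, hN1⟩ := exists_nat_gt (K / ε)
  obtain ⟨N2, hN2⟩ := exists_nat_gt (8 * T / (1 - s ^ 2) / ε)
  refine ⟨ε, hε0, max 8 (max N1 N2), fun n hn H E χ h4 h4' hEv hR => ?_⟩
  have hn8 : 8 ≤ n := le_trans (le_max_left _ _) hn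
  have hn1 : N1 ≤ n := le_trans (le_trans (le_max_left _ _) (le_max_right _ _)) hn
  have hn2 : N2 ≤ n := le_trans (le_trans (le_max_right _ _) (le_max_right _ _)) hn
  have hn0 : (0 : ℝ) < n := by exact_mod_cast (by omega : 0 < n)
  have hn6 : (0 : ℝ) < (n : ℝ) ^ 6 := by positivity
  have k1 : K / n ≤ ε := by
    have h5 : K / ε < n := lt_of_lt_of_le hN1 (by exact_mod_cast hn1)
    rw [div_lt_iff₀ hε0] at h5
    rw [div_le_iff₀ hn0]
    linarith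
  have k2 : 8 * T / (1 - s ^ 2) / n ≤ ε := by
    have h5 : 8 * T / (1 - s ^ 2) / ε < n := lt_of_lt_of_le hN2 (by exact_mod_cast hn2)
    rw [div_lt_iff₀ hε0] at h5
    rw [div_le_iff₀ hn0]
    linarith
  have h5 := le_trans (disA_ge wp wm a b c hn8 H E χ) hR
  set C4 : ℝ := 24 * ((K8.cst (wc wp wm) H E : ℤ) : ℝ) / (n : ℝ) ^ 4 with hC4
  have h6 : (n : ℝ) ^ 6 * (15 * a * C4 + 180 * b * XW E χ + 30 * c * sg2 χ) ≤
      (n : ℝ) ^ 6 * (x + ε + K / n) := by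
    have e1 : (n : ℝ) ^ 6 * (x + ε + K / n) = (x + ε) * (n : ℝ) ^ 6 + K * (n : ℝ) ^ 5 := by
      field_simp
    rw [e1]
    linarith
  have h7 : 15 * a * C4 + 180 * b * XW E χ + 30 * c * sg2 χ ≤ x + ε + K / n :=
    le_of_mul_le_mul_left h6 hn6
  have hX0 : 0 ≤ XW E χ := by
    unfold XW
    have : (0 : ℝ) ≤ ((XW5 (mE E) χ : ℤ) : ℝ) := by exact_mod_cast XW5_nonneg _ _
    positivity
  have hC0 : 0 ≤ C4 := by
    have := cst_nonneg wp wm H E
    rw [hC4]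
    positivity
  have hg0 := sg2_nonneg χ
  have h8 : sg2 χ ≤ s ^ 2 := by
    have h9 : 0 ≤ 15 * (a : ℝ) * C4 := by positivity
    have h10 : 0 ≤ 180 * (b : ℝ) * XW E χ := by positivity
    have h11 : 30 * (c : ℝ) * sg2 χ ≤ 30 * c * s ^ 2 := by linarith
    exact le_of_mul_le_mul_left h11 (by positivity)
  have h9 := abs_le_of_sg2 χ (by omega) hs0.le h8
  obtain ⟨M, f, g, h10⟩ := exists_near_XW E h4' hEv χ (by omega)
  refine ⟨M, f, g, ?_⟩
  have h11 : w0 * X4 H E ≤ C4 := X4_le_cst wp wm w0 hwp hwm (by omega) H E h4 h4'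
  have h12 := X4_triangle H E (gir χ M f g)
  have hG0 : 0 ≤ X4 E (gir χ M f g) := by unfold X4; positivity
  have h13 : (1 - s ^ 2) * X4 E (gir χ M f g) ≤ (5 + s) * XW E χ + 8 / n := by
    have h14 : (1 - s ^ 2) * X4 E (gir χ M f g) ≤ (1 - sg2 χ) * X4 E (gir χ M f g) :=
      mul_le_mul_of_nonneg_right (by linarith) hG0
    have h15 : (5 + |(nc χ false : ℝ) - nc χ true| / n) * XW E χ ≤ (5 + s) * XW E χ :=
      mul_le_mul_of_nonneg_right (by linarith) hX0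
    linarith
  have h16 : T * X4 E (gir χ M f g) ≤ 180 * b * XW E χ + 8 * T / (1 - s ^ 2) / n := by
    have h17 : (1 - s ^ 2) * (T * X4 E (gir χ M f g)) ≤
        (1 - s ^ 2) * (180 * b * XW E χ + 8 * T / (1 - s ^ 2) / n) := by
      have e1 : (1 - s ^ 2) * (180 * b * XW E χ + 8 * T / (1 - s ^ 2) / n) =
          15 * (12 * b * (1 - s ^ 2)) * XW E χ + T * (8 / n) := by
        field_simp
        ring
      rw [e1]
      have h18 := mul_le_mul_of_nonneg_left h13 hT0.le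
      have h19 : 15 * ((5 + s) * (a * w0)) * XW E χ ≤ 15 * (12 * b * (1 - s ^ 2)) * XW E χ :=
        mul_le_mul_of_nonneg_right (by linarith) hX0
      have e2 : T * ((5 + s) * XW E χ + 8 / n) =
          15 * ((5 + s) * (a * w0)) * XW E χ + T * (8 / n) := by
        rw [hT]
        ring
      rw [e2] at h18
      linarith
    exact le_of_mul_le_mul_left h17 hs2
  have h20 : T * (w * sg2 χ) ≤ 30 * c * sg2 χ := by
    have h21 := mul_le_mul_of_nonneg_right hw hg0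
    rw [hT]
    linarith
  have h22 : T * X4 H E ≤ 15 * a * C4 := by
    have h23 := mul_le_mul_of_nonneg_left h11 (by positivity : (0 : ℝ) ≤ 15 * a)
    rw [hT]
    linarith
  have h24 : T * cost w H χ M f g ≤ T * (x / T + η) := by
    have e1 : T * (x / T + η) = x + T * η := by
      field_simp
    rw [e1]
    unfold cost
    have h25 := mul_le_mul_of_nonneg_left h12 hT0.le
    linarith
  exact le_of_mul_le_mul_left h24 hT0

/-- Closeness from a bound of the cost, the errors and the imbalance. -/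
theorem near_of_disB (h1 : T1L P wp wm L) (a b c w0 : ℕ) (x s w : ℝ) (hwp : w0 ≤ wp)
    (hwm : w0 ≤ wm) (ha : 0 < a * w0) (hs0 : 0 < s) (hs1 : s < 1) (hc : 0 < c)
    (h2 : TWc P wp wm L TrueW (AvgW (disB wp wm a b c) x))
    (hs : x < 30 * c * s ^ 2) (hb : 60 * (a * w0) ≤ b * (1 - s ^ 2))
    (hw : w * (a * w0) ≤ 2 * c) : Near P w (x / (15 * (a * w0))) := by
  refine near_core h1 h2 fun η hη => ?_
  have ha' : (0 : ℝ) < a * w0 := by exact_mod_cast ha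
  have hc' : (0 : ℝ) < c := by exact_mod_cast hc
  have hs2 : 0 < 1 - s ^ 2 := by nlinarith
  set T : ℝ := 15 * (a * w0) with hT
  have hT0 : 0 < T := by positivity
  set K : ℝ := 135 * (wp + wm) * a + 450 * c with hK
  have hK0 : 0 ≤ K := by positivity
  set ε : ℝ := min (T * η / 3) ((30 * c * s ^ 2 - x) / 2) with hε
  have hε0 : 0 < ε := lt_min (by positivity) (by linarith)
  have hε1 : ε ≤ T * η / 3 := min_le_left _ _
  have hε2 : ε ≤ (30 * c * s ^ 2 - x) / 2 := min_le_right _ _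
  obtain ⟨N1, hN1⟩ := exists_nat_gt (K / ε)
  obtain ⟨N2, hN2⟩ := exists_nat_gt (8 * T / (1 - s ^ 2) / ε)
  refine ⟨ε, hε0, max 8 (max N1 N2), fun n hn H E χ h4 h4' hEv hR => ?_⟩
  have hn8 : 8 ≤ n := le_trans (le_max_left _ _) hn
  have hn1 : N1 ≤ n := le_trans (le_trans (le_max_left _ _) (le_max_right _ _)) hn
  have hn2 : N2 ≤ n := le_trans (le_trans (le_max_right _ _) (le_max_right _ _)) hn
  have hn0 : (0 : ℝ) < n := by exact_mod_cast (by omega : 0 < n)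
  have hn6 : (0 : ℝ) < (n : ℝ) ^ 6 := by positivity
  have k1 : K / n ≤ ε := by
    have h5 : K / ε < n := lt_of_lt_of_le hN1 (by exact_mod_cast hn1)
    rw [div_lt_iff₀ hε0] at h5
    rw [div_le_iff₀ hn0]
    linarith
  have k2 : 8 * T / (1 - s ^ 2) / n ≤ ε := by
    have h5 : 8 * T / (1 - s ^ 2) / ε < n := lt_of_lt_of_le hN2 (by exact_mod_cast hn2)
    rw [div_lt_iff₀ hε0] at h5
    rw [div_le_iff₀ hn0]
    linarith
  have h5 := le_trans (disB_ge wp wm a b c hn8 H E χ) hR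
  set C4 : ℝ := 24 * ((K8.cst (wc wp wm) H E : ℤ) : ℝ) / (n : ℝ) ^ 4 with hC4
  set Y : ℝ := 24 * ((S6 (mE E) χ : ℤ) : ℝ) / (n : ℝ) ^ 6 with hY
  have h6 : (n : ℝ) ^ 6 * (15 * a * C4 + b * Y + 30 * c * sg2 χ) ≤
      (n : ℝ) ^ 6 * (x + ε + K / n) := by
    have e1 : (n : ℝ) ^ 6 * (x + ε + K / n) = (x + ε) * (n : ℝ) ^ 6 + K * (n : ℝ) ^ 5 := by
      field_simp
    rw [e1]
    linarith
  have h7 : 15 * a * C4 + b * Y + 30 * c * sg2 χ ≤ x + ε + K / n :=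
    le_of_mul_le_mul_left h6 hn6
  have hY0 : 0 ≤ Y := by
    have h8 : (0 : ℝ) ≤ 24 * ((S6 (mE E) χ : ℤ) : ℝ) := by
      rw [← sum6_inj]
      refine Finset.sum_nonneg fun t _ => ?_
      have : 0 ≤ f6 (mE E) χ t := by
        unfold f6
        split_ifs <;> norm_num
      exact_mod_cast this
    rw [hY]
    positivity
  have hC0 : 0 ≤ C4 := by
    have := cst_nonneg wp wm H E
    rw [hC4]
    positivity
  have hg0 := sg2_nonneg χ
  have h8 : sg2 χ ≤ s ^ 2 := by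
    have h9 : 0 ≤ 15 * (a : ℝ) * C4 := by positivity
    have h10 : 0 ≤ (b : ℝ) * Y := by positivity
    have h11 : 30 * (c : ℝ) * sg2 χ ≤ 30 * c * s ^ 2 := by linarith
    exact le_of_mul_le_mul_left h11 (by positivity)
  obtain ⟨M, f, g, h10⟩ := exists_near E h4' χ (by omega)
  refine ⟨M, f, g, ?_⟩
  have h11 : w0 * X4 H E ≤ C4 := X4_le_cst wp wm w0 hwp hwm (by omega) H E h4 h4'
  have h12 := X4_triangle H E (gir χ M f g)
  have hG0 : 0 ≤ X4 E (gir χ M f g) := by unfold X4; positivity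
  have h13 : (1 - s ^ 2) * X4 E (gir χ M f g) ≤ 4 * Y + 8 / n := by
    have h14 : (1 - s ^ 2) * X4 E (gir χ M f g) ≤ (1 - sg2 χ) * X4 E (gir χ M f g) :=
      mul_le_mul_of_nonneg_right (by linarith) hG0
    have h15 : 96 * ((S6 (mE E) χ : ℤ) : ℝ) / (n : ℝ) ^ 6 = 4 * Y := by
      rw [hY]
      ring
    linarith
  have h16 : T * X4 E (gir χ M f g) ≤ b * Y + 8 * T / (1 - s ^ 2) / n := by
    have h17 : (1 - s ^ 2) * (T * X4 E (gir χ M f g)) ≤
        (1 - s ^ 2) * (b * Y + 8 * T / (1 - s ^ 2) / n) := by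
      have e1 : (1 - s ^ 2) * (b * Y + 8 * T / (1 - s ^ 2) / n) =
          (b * (1 - s ^ 2)) * Y + T * (8 / n) := by
        field_simp
      rw [e1]
      have h18 := mul_le_mul_of_nonneg_left h13 hT0.le
      have h19 : 60 * (a * w0) * Y ≤ b * (1 - s ^ 2) * Y :=
        mul_le_mul_of_nonneg_right hb hY0
      have e2 : T * (4 * Y + 8 / n) = 60 * (a * w0) * Y + T * (8 / n) := by
        rw [hT]
        ring
      rw [e2] at h18
      linarith
    exact le_of_mul_le_mul_left h17 hs2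
  have h20 : T * (w * sg2 χ) ≤ 30 * c * sg2 χ := by
    have h21 := mul_le_mul_of_nonneg_right hw hg0
    rw [hT]
    linarith
  have h22 : T * X4 H E ≤ 15 * a * C4 := by
    have h23 := mul_le_mul_of_nonneg_left h11 (by positivity : (0 : ℝ) ≤ 15 * a)
    rw [hT]
    linarith
  have h24 : T * cost w H χ M f g ≤ T * (x / T + η) := by
    have e1 : T * (x / T + η) = x + T * η := by
      field_simp
    rw [e1]
    unfold cost
    have h25 := mul_le_mul_of_nonneg_left h12 hT0.le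
    linarith
  exact le_of_mul_le_mul_left h24 hT0

end near

end Pool.Agent.Lib.MP_afdd4d_co.K9.Star.Tw
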