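import Pool.Agent.Lib.MP_afdd4d_co.K9.TwCtx
import Pool.Agent.Lib.MP_afdd4d_co.K9.PtG

/-!
# The colouring of the even 4-graph
-/

namespace Pool.Agent.Lib.MP_afdd4d_co.K9.Star.Tw

open Finset K8
open Pool.Agent.Lib.MP_afdd4d_co.K9.Marks

/-- The column of the colouring: the density defect of the even 4-graph, minus the defects and the
imbalance of the colouring. -/
noncomputable def colW (a b c : ℕ) : Psi3 := fun _ r x =>
  a * (165 - 16 * S4 r) - b * o5 r x - c * S2 x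

/-- The existence of a colouring with the columns of a list. -/
def T1L (P : ∀ n : ℕ, Finset (Finset (Fin n)) → Prop) (wp wm : ℕ) (L : List Psi3) : Prop :=
  ∀ η : ℝ, 0 < η → ∃ N : ℕ, ∀ n : ℕ, N ≤ n → ∀ H E : Finset (Finset (Fin n)),
    (∀ e ∈ H, e.card = 4) → K5F H → P n H → 11 / 16 ≤ e4 H → OptE (wc wp wm) H E →
    ∃ χ : Fin n → Bool, ∀ ψ ∈ L, -(η * (n : ℝ) ^ 6) ≤
      ∑ t ∈ inj (Fin n) 6, ((ψ (zb H t) (zb E t) (fun i => χ (t i)) : ℤ) : ℝ)

/-- No columns. -/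
theorem t1L_nil (P : ∀ n : ℕ, Finset (Finset (Fin n)) → Prop) (wp wm : ℕ) : T1L P wp wm [] := by
  intro η hη
  refine ⟨0, fun n _ H E _ _ _ _ _ => ⟨fun _ => false, fun ψ hψ => ?_⟩⟩
  exact absurd hψ (List.not_mem_nil)

section w
variable {n : ℕ}

/-- The sum of the column over the windows. -/
theorem sum_colW (a b c : ℕ) (H E : Finset (Finset (Fin n))) (χ : Fin n → Bool)
    (h4 : ∀ e ∈ E, e.card = 4) :
    ∑ t ∈ inj (Fin n) 6, ((colW a b c (zb H t) (zb E t) (fun i => χ (t i)) : ℤ) : ℝ) =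
      a * (165 * (n.descFactorial 6 : ℝ) - 16 * (360 * (PP n 4 2 * (E.card : ℝ)))) -
      b * (720 * ((n : ℝ) - 5) * ((XW5 (mE E) χ : ℤ) : ℝ)) -
      c * (30 * PP n 2 4 * ((S2 χ : ℤ) : ℝ)) := by
  rw [← sum_colR_eq E h4, ← sum6_o5, ← sum6_S2', Finset.mul_sum, Finset.mul_sum, Finset.mul_sum,
    ← Finset.sum_sub_distrib, ← Finset.sum_sub_distrib]
  refine Finset.sum_congr rfl fun t _ => ?_
  unfold colW colR
  push_cast
  ring

/-- The lower bound of the sum. -/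
theorem colW_ge (a b c : ℕ) (hn : 8 ≤ n) (H E : Finset (Finset (Fin n))) (χ : Fin n → Bool)
    (h4 : ∀ e ∈ E, e.card = 4) :
    (n : ℝ) ^ 6 * (240 * a * (11 / 16 - e4 E) - 180 * b * XW E χ - 30 * c * sg2 χ) -
      2475 * a * (n : ℝ) ^ 5 ≤
    ∑ t ∈ inj (Fin n) 6, ((colW a b c (zb H t) (zb E t) (fun i => χ (t i)) : ℤ) : ℝ) := by
  rw [sum_colW a b c H E χ h4, S2_eq]
  have hn8 : (8 : ℝ) ≤ n := by exact_mod_cast hn
  have hn0 : (0 : ℝ) < n := by linarith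
  have ha : (0 : ℝ) ≤ a := Nat.cast_nonneg _
  have hb : (0 : ℝ) ≤ b := Nat.cast_nonneg _
  have hc : (0 : ℝ) ≤ c := Nat.cast_nonneg _
  set X5 : ℝ := ((XW5 (mE E) χ : ℤ) : ℝ) with hX5
  have hX0 : 0 ≤ X5 := by
    rw [hX5]
    exact_mod_cast XW5_nonneg _ _
  push_cast
  set d2 : ℝ := ((nc χ false : ℝ) - nc χ true) ^ 2 with hd2
  have hd0 : 0 ≤ d2 := sq_nonneg _
  have hE0 : (0 : ℝ) ≤ (E.card : ℝ) := Nat.cast_nonneg _
  have b1 : ((n : ℝ) - 5) * X5 ≤ n * X5 := mul_le_mul_of_nonneg_right (by linarith) hX0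
  have b2 : PP n 2 4 * (d2 - n) ≤ (n : ℝ) ^ 4 * d2 := by
    have h1 : PP n 2 4 * d2 ≤ (n : ℝ) ^ 4 * d2 := mul_le_mul_of_nonneg_right (PP24_le' n hn) hd0
    have h2 : 0 ≤ PP n 2 4 := by
      unfold PP
      refine Finset.prod_nonneg fun i hi => ?_
      have h3 := Finset.mem_range.mp hi
      have h4 : (i : ℝ) ≤ 3 := by exact_mod_cast (by omega : i ≤ 3)
      push_cast
      linarith
    have h3 : 0 ≤ PP n 2 4 * n := mul_nonneg h2 hn0.le
    linarith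
  have b3 : PP n 4 2 * (E.card : ℝ) ≤ (n : ℝ) ^ 2 * (E.card : ℝ) := by
    refine mul_le_mul_of_nonneg_right ?_ hE0
    unfold PP
    rw [Finset.prod_range_succ, Finset.prod_range_succ, Finset.prod_range_zero]
    push_cast
    nlinarith
  have b4 := desc6_ge n
  have hX : XW E χ = 4 * X5 / (n : ℝ) ^ 5 := rfl
  have hs : sg2 χ = d2 / (n : ℝ) ^ 2 := by
    unfold sg2
    rw [hd2, div_pow]
  have hd : e4 E = 24 * (E.card : ℝ) / (n : ℝ) ^ 4 := rfl
  have e1 : (n : ℝ) ^ 6 * (240 * a * (11 / 16 - e4 E) - 180 * b * XW E χ - 30 * c * sg2 χ) =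
      a * (165 * (n : ℝ) ^ 6 - 5760 * ((n : ℝ) ^ 2 * (E.card : ℝ))) -
      b * (720 * (n * X5)) - c * (30 * ((n : ℝ) ^ 4 * d2)) := by
    rw [hX, hs, hd]
    field_simp
    ring
  rw [e1]
  have c1 := mul_le_mul_of_nonneg_left b1 hb
  have c2 := mul_le_mul_of_nonneg_left b2 hc
  have c3 := mul_le_mul_of_nonneg_left b3 ha
  have c4 := mul_le_mul_of_nonneg_left b4 ha
  have e2 : (a : ℝ) * (165 * (n.descFactorial 6 : ℝ) - 16 * (360 * (PP n 4 2 * (E.card : ℝ)))) -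
      b * (720 * ((n : ℝ) - 5) * X5) - c * (30 * PP n 2 4 * (d2 - n)) =
      165 * (a * (n.descFactorial 6 : ℝ)) - 5760 * (a * (PP n 4 2 * (E.card : ℝ))) -
      720 * (b * (((n : ℝ) - 5) * X5)) - 30 * (c * (PP n 2 4 * (d2 - n))) := by ring
  have e3 : (a : ℝ) * (165 * (n : ℝ) ^ 6 - 5760 * ((n : ℝ) ^ 2 * (E.card : ℝ))) -
      b * (720 * (n * X5)) - c * (30 * ((n : ℝ) ^ 4 * d2)) =
      165 * (a * (n : ℝ) ^ 6) - 5760 * (a * ((n : ℝ) ^ 2 * (E.card : ℝ))) -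
      720 * (b * (n * X5)) - 30 * (c * ((n : ℝ) ^ 4 * d2)) := by ring
  rw [e2, e3]
  have e4 : (a : ℝ) * ((n : ℝ) ^ 6 - (n.descFactorial 6 : ℝ)) =
      a * (n : ℝ) ^ 6 - a * (n.descFactorial 6 : ℝ) := by ring
  rw [e4] at c4
  linarith

end w

/-- The column from the theorem on colourings of even 4-graphs. -/
theorem t1L_of_T1W (P : ∀ n : ℕ, Finset (Finset (Fin n)) → Prop) (wp wm a b c : ℕ) (hb : 0 < b)
    (h : T1W (4 * a / (3 * b)) (c / (6 * b))) : T1L P wp wm [colW a b c] := by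
  intro η hη
  have hb' : (0 : ℝ) < b := by exact_mod_cast hb
  have ha : (0 : ℝ) ≤ a := Nat.cast_nonneg _
  obtain ⟨N, hN⟩ := h (η / (360 * b)) (by positivity)
  obtain ⟨N2, hN2⟩ := n5_aux (C := 2475 * (a : ℝ)) (half_pos hη)
  refine ⟨max 8 (max N N2), fun n hn H E h4 _ _ _ hO => ?_⟩
  have hn8 : 8 ≤ n := le_trans (le_max_left _ _) hn
  have hn' : max N N2 ≤ n := le_trans (le_max_right _ _) hn
  obtain ⟨χ, hχ⟩ := hN n (le_trans (le_max_left _ _) hn') E hO.1 hO.2.1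
  refine ⟨χ, fun ψ hψ => ?_⟩
  rw [List.mem_singleton] at hψ
  subst hψ
  refine le_trans ?_ (colW_ge a b c hn8 H E χ hO.1)
  have h1 := hN2 n (le_trans (le_max_right _ _) hn')
  have h2 : -(η / 2) ≤ 240 * a * (11 / 16 - e4 E) - 180 * b * XW E χ - 30 * c * sg2 χ := by
    have h3 := mul_le_mul_of_nonneg_left hχ (by positivity : (0 : ℝ) ≤ 180 * b)
    have e1 : 180 * (b : ℝ) * (XW E χ + c / (6 * b) * sg2 χ) =
        180 * b * XW E χ + 30 * c * sg2 χ := by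
      field_simp
      ring
    have e2 : 180 * (b : ℝ) * (4 * a / (3 * b) * (11 / 16 - e4 E) + η / (360 * b)) =
        240 * a * (11 / 16 - e4 E) + η / 2 := by
      field_simp
      ring
    rw [e1, e2] at h3
    linarith
  have h3 := mul_le_mul_of_nonneg_left h2 (by positivity : (0 : ℝ) ≤ (n : ℝ) ^ 6)
  linarith

/-- A larger constant. -/
theorem t1W_mono (hE : EvUp) {C C' ρ ρ' : ℝ} (hC : C ≤ C') (hρ : ρ' ≤ ρ) (h : T1W C ρ) :
    T1W C' ρ' := by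
  intro η hη
  obtain ⟨N, hN⟩ := h (η / 2) (half_pos hη)
  obtain ⟨N2, hN2⟩ := hE (η / (2 * (C' - C + 1))) (by
    have : 0 < 2 * (C' - C + 1) := by linarith
    positivity)
  refine ⟨max 1 (max N N2), fun n hn E h4 hEv => ?_⟩
  have hn1 : 1 ≤ n := le_trans (le_max_left _ _) hn
  have hn' : max N N2 ≤ n := le_trans (le_max_right _ _) hn
  obtain ⟨χ, hχ⟩ := hN n (le_trans (le_max_left _ _) hn') E h4 hEv
  refine ⟨χ, ?_⟩
  have h1 := hN2 n (le_trans (le_max_right _ _) hn') E h4 hEv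
  have hn0 : (0 : ℝ) < n := by exact_mod_cast hn1
  have h2 : e4 E ≤ 11 / 16 + η / (2 * (C' - C + 1)) := by
    unfold e4
    rw [div_le_iff₀ (by positivity)]
    have h3 : ((n.choose 4 : ℕ) : ℝ) ≤ (n : ℝ) ^ 4 / 24 := by
      have h4 := Nat.choose_le_pow_div (α := ℝ) 4 n
      have h5 : ((Nat.factorial 4 : ℕ) : ℝ) = 24 := by norm_num [Nat.factorial]
      rwa [h5] at h4
    have h5 : (0 : ℝ) ≤ 11 / 16 + η / (2 * (C' - C + 1)) := by
      have : 0 < 2 * (C' - C + 1) := by linarith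
      positivity
    have h6 := mul_le_mul_of_nonneg_left h3 h5
    linarith
  have h3 : (C - C') * (11 / 16 - e4 E) ≤ η / 2 := by
    have hp : 0 < 2 * (C' - C + 1) := by linarith
    have h4 : (C' - C) * (e4 E - 11 / 16) ≤ (C' - C) * (η / (2 * (C' - C + 1))) :=
      mul_le_mul_of_nonneg_left (by linarith) (by linarith)
    have h5 : (C' - C) * (η / (2 * (C' - C + 1))) ≤ η / 2 := by
      rw [← mul_div_assoc, div_le_div_iff₀ hp (by norm_num)]
      nlinarith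
    linarith
  have h4 : ρ' * sg2 χ ≤ ρ * sg2 χ := mul_le_mul_of_nonneg_right hρ (sg2_nonneg χ)
  linarith

end Pool.Agent.Lib.MP_afdd4d_co.K9.Star.Tw
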