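import Pool.Agent.Lib.MP_afdd4d_co.K9.TwExt
import Pool.Agent.Lib.MP_afdd4d_co.K9.TwKer

/-!
# The windows at one vertex

A family `L` of 3-sets (the link of a vertex) and Giraud's structure of density almost `11 / 16`: the
data of a tuple are the colours, the quadruples of the structure and the members of `L`. Functions of
the data of five vertices whose sum over all tuples is almost nonnegative for every `L`.
-/

namespace Pool.Agent.Lib.MP_afdd4d_co.K9.Star.Tw

open Finset K8
open Pool.Agent.Lib.MP_afdd4d_co.K9.Marks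

/-- Giraud's structure. -/
abbrev G0 {n : ℕ} (χ : Fin n → Bool) (M : Fin n → Fin n → Bool) : Finset (Finset (Fin n)) :=
  gir χ M (fun _ => false) (fun _ => false)

/-- The data of a tuple: colours, quadruples of the structure, members of the family of 3-sets. -/
structure XW (k : ℕ) where
  c : Fin k → Bool
  e : Finset (Fin k) → Bool
  l : Finset (Fin k) → Bool

/-- The data of a part of a tuple. -/
def XW.sub {k m : ℕ} (D : XW k) (j : Fin m → Fin k) : XW m :=
  ⟨D.c ∘ j, fun S => D.e (S.image j), fun S => D.l (S.image j)⟩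

theorem XW.sub_sub {k m p : ℕ} (D : XW k) (j : Fin m → Fin k) (i : Fin p → Fin m) :
    (D.sub j).sub i = D.sub (j ∘ i) := by
  unfold XW.sub
  simp only [Finset.image_image]
  rfl

theorem XW.sub_id {k : ℕ} (D : XW k) : D.sub id = D := by
  unfold XW.sub
  simp only [Finset.image_id]
  rfl

instance (k : ℕ) : Finite (XW k) :=
  Finite.of_injective (fun D : XW k => (D.c, D.e, D.l)) fun D D' h => by
    cases D
    cases D'
    simp only [Prod.mk.injEq] at h
    obtain ⟨h1, h2, h3⟩ := h
    subst h1 h2 h3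
    rfl

theorem XW.bound {k : ℕ} (Z : XW k → ℤ) : ∃ B : ℝ, 0 ≤ B ∧ ∀ D, |((Z D : ℤ) : ℝ)| ≤ B := by
  obtain ⟨b, hb⟩ := (Set.finite_range fun D : XW k => |((Z D : ℤ) : ℝ)|).bddAbove
  exact ⟨max b 0, le_max_right _ _, fun D => le_trans (hb ⟨D, rfl⟩) (le_max_left _ _)⟩

/-- The data of a tuple. -/
def xv {n k : ℕ} (χ : Fin n → Bool) (M : Fin n → Fin n → Bool) (L : Finset (Finset (Fin n)))
    (t : Fin k → Fin n) : XW k :=
  ⟨fun i => χ (t i), eL (dt χ M t).1 (dt χ M t).2, fun S => decide (S.image t ∈ L)⟩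

theorem eL_sub {k m : ℕ} (c : Fin k → Bool) (z : Fin k → Fin k → Bool) (j : Fin m → Fin k)
    (hj : Function.Injective j) (S : Finset (Fin m)) :
    eL c z (S.image j) = eL (c ∘ j) (fun a b => z (j a) (j b)) S := by
  unfold eL
  rw [Finset.card_image_of_injective _ hj, girB_map c z _ _ j hj S]
  rfl

theorem xv_comp {n k m : ℕ} (χ : Fin n → Bool) (M : Fin n → Fin n → Bool)
    (L : Finset (Finset (Fin n))) (t : Fin k → Fin n) (j : Fin m → Fin k)
    (hj : Function.Injective j) : xv χ M L (t ∘ j) = (xv χ M L t).sub j := by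
  unfold xv XW.sub
  congr 1
  · funext S
    show _ = eL (dt χ M t).1 (dt χ M t).2 (S.image j)
    rw [eL_sub _ _ j hj]
    rfl
  · funext S
    show decide (S.image (t ∘ j) ∈ L) = decide ((S.image j).image t ∈ L)
    rw [Finset.image_image]

/-- The sum over all tuples is almost nonnegative. -/
def GoodX (Z : XW 5 → ℤ) : Prop :=
  ∀ δ : ℝ, 0 < δ → ∃ η : ℝ, 0 < η ∧ ∃ N : ℕ, ∀ n : ℕ, N ≤ n →
    ∀ (χ : Fin n → Bool) (M : Fin n → Fin n → Bool), 11 / 16 - η ≤ e4 (G0 χ M) →
    ∀ L : Finset (Finset (Fin n)),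
      -(δ * (n : ℝ) ^ 5) ≤ ∑ t : Fin 5 → Fin n, ((Z (xv χ M L t) : ℤ) : ℝ)

theorem n4_aux {δ C : ℝ} (hδ : 0 < δ) : ∃ N : ℕ, ∀ n : ℕ, N ≤ n →
    C * (n : ℝ) ^ 4 ≤ δ * (n : ℝ) ^ 5 := by
  obtain ⟨N, hN⟩ := exists_nat_gt (|C| / δ)
  refine ⟨N, fun n hn => ?_⟩
  have hNn : (N : ℝ) ≤ n := by exact_mod_cast hn
  have h7 : |C| / δ < n := lt_of_lt_of_le hN hNn
  rw [div_lt_iff₀ hδ] at h7
  have h5 : C * (n : ℝ) ^ 4 ≤ n * δ * (n : ℝ) ^ 4 :=
    mul_le_mul_of_nonneg_right (le_trans (le_abs_self C) h7.le) (by positivity)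
  have h6 : n * δ * (n : ℝ) ^ 4 = δ * (n : ℝ) ^ 5 := by ring
  linarith

namespace GoodX

theorem of_nonneg {Z : XW 5 → ℤ} (h : ∀ {n : ℕ} (χ : Fin n → Bool) (M : Fin n → Fin n → Bool)
    (L : Finset (Finset (Fin n))), (0 : ℝ) ≤ ∑ t : Fin 5 → Fin n, ((Z (xv χ M L t) : ℤ) : ℝ)) :
    GoodX Z := by
  intro δ hδ
  refine ⟨1, one_pos, 0, fun n _ χ M _ L => ?_⟩
  have h1 : 0 ≤ δ * (n : ℝ) ^ 5 := by positivity
  linarith [h χ M L]

theorem zero : GoodX fun _ => 0 := of_nonneg fun χ M L => by simp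

theorem add {Z Z' : XW 5 → ℤ} (h : GoodX Z) (h' : GoodX Z') : GoodX fun D => Z D + Z' D := by
  intro δ hδ
  obtain ⟨η, hη, N, hN⟩ := h (δ / 2) (by positivity)
  obtain ⟨η', hη', N', hN'⟩ := h' (δ / 2) (by positivity)
  refine ⟨min η η', lt_min hη hη', max N N', fun n hn χ M hd L => ?_⟩
  have h1 := hN n (le_trans (le_max_left _ _) hn) χ M
    (le_trans (by linarith [min_le_left η η']) hd) L
  have h2 := hN' n (le_trans (le_max_right _ _) hn) χ M
    (le_trans (by linarith [min_le_right η η']) hd) L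
  push_cast
  rw [Finset.sum_add_distrib]
  linarith

theorem smul {Z : XW 5 → ℤ} (h : GoodX Z) (a : ℕ) : GoodX fun D => a * Z D := by
  intro δ hδ
  obtain ⟨η, hη, N, hN⟩ := h (δ / (a + 1)) (by positivity)
  refine ⟨η, hη, N, fun n hn χ M hd L => ?_⟩
  have h1 := hN n hn χ M hd L
  push_cast
  rw [← Finset.mul_sum]
  have ha : (0 : ℝ) ≤ a := Nat.cast_nonneg a
  have h2 := mul_le_mul_of_nonneg_left h1 ha
  have h3 : a * (δ / (a + 1) * (n : ℝ) ^ 5) ≤ δ * (n : ℝ) ^ 5 := by
    rw [← mul_assoc]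
    refine mul_le_mul_of_nonneg_right ?_ (by positivity)
    rw [mul_div_assoc', div_le_iff₀ (by positivity)]
    nlinarith
  linarith

theorem sum {ι : Type*} (s : Finset ι) (Z : ι → XW 5 → ℤ) (h : ∀ i ∈ s, GoodX (Z i)) :
    GoodX fun D => ∑ i ∈ s, Z i D := by
  classical
  induction s using Finset.induction_on with
  | empty => simpa using zero
  | insert i s hi ih =>
    have e : (fun D => ∑ k ∈ insert i s, Z k D) = fun D => Z i D + ∑ k ∈ s, Z k D := by
      funext D
      rw [Finset.sum_insert hi]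
    rw [e]
    exact add (h i (Finset.mem_insert_self _ _)) (ih fun k hk => h k (Finset.mem_insert_of_mem hk))

theorem list {ι : Type*} (s : List ι) (Z : ι → XW 5 → ℤ) (h : ∀ i ∈ s, GoodX (Z i)) :
    GoodX fun D => (s.map fun i => Z i D).sum := by
  induction s with
  | nil => simpa using zero
  | cons i s ih =>
    have e : (fun D => ((i :: s).map fun k => Z k D).sum) =
        fun D => Z i D + (s.map fun k => Z k D).sum := by
      funext D
      rw [List.map_cons, List.sum_cons]
    rw [e]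
    exact add (h i (by simp)) (ih fun k hk => h k (by simp [hk]))

theorem congr {Z Z' : XW 5 → ℤ} (h : GoodX Z) (e : ∀ D, Z' D = Z D) : GoodX Z' := by
  have : Z' = Z := funext e
  rw [this]
  exact h

theorem perm {Z : XW 5 → ℤ} (h : GoodX Z) (σ : Equiv.Perm (Fin 5)) :
    GoodX fun D => Z (D.sub σ) := by
  intro δ hδ
  obtain ⟨η, hη, N, hN⟩ := h δ hδ
  refine ⟨η, hη, N, fun n hn χ M hd L => ?_⟩
  refine le_trans (hN n hn χ M hd L) (le_of_eq ?_)
  have h2 := (Equiv.arrowCongr σ.symm (Equiv.refl (Fin n))).sum_comp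
    (fun t : Fin 5 → Fin n => ((Z (xv χ M L t) : ℤ) : ℝ))
  rw [← h2]
  refine Finset.sum_congr rfl fun t _ => ?_
  have e : (Equiv.arrowCongr σ.symm (Equiv.refl (Fin n))) t = t ∘ σ := rfl
  rw [e, xv_comp χ M L t σ σ.injective]

theorem sym {Z : XW 5 → ℤ} (h : GoodX Z) : GoodX fun D => ∑ σ : Equiv.Perm (Fin 5), Z (D.sub σ) :=
  sum Finset.univ (fun (σ : Equiv.Perm (Fin 5)) D => Z (D.sub σ)) fun σ _ => h.perm σ

end GoodX

/-! ### Kernels -/

/-- A kernel with `k` roots and flags of `m` vertices. -/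
structure XKer (k m : ℕ) where
  K : ℕ
  cod : XW (k + m) → ℕ
  lt : ∀ D, cod D < K
  g : XW k → ℕ → ℕ → ℤ
  psd : ∀ (D : XW k) (a : ℕ → ℝ),
    0 ≤ ∑ i ∈ range K, ∑ j ∈ range K, (g D i j : ℝ) * (a i * a j)

/-- The value of a kernel on the data of a window. -/
def XKer.v {k m : ℕ} (κ : XKer k m) (D : XW (k + (m + m))) : ℤ :=
  κ.g (D.sub (Fin.castAdd (m + m)))
    (κ.cod (D.sub (Fin.append (Fin.castAdd (m + m)) (Fin.natAdd k ∘ Fin.castAdd m))))
    (κ.cod (D.sub (Fin.append (Fin.castAdd (m + m)) (Fin.natAdd k ∘ Fin.natAdd m))))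

theorem append_inj1 (k m : ℕ) : Function.Injective
    (Fin.append (Fin.castAdd (m + m)) (Fin.natAdd k ∘ Fin.castAdd m) :
      Fin (k + m) → Fin (k + (m + m))) := by
  intro a b
  refine Fin.addCases (fun a => ?_) (fun a => ?_) a <;>
    refine Fin.addCases (fun b => ?_) (fun b => ?_) b <;>
    simp only [Fin.append_left, Fin.append_right, Function.comp_apply, Fin.ext_iff, Fin.val_castAdd,
      Fin.val_natAdd] <;> omega

theorem append_inj2 (k m : ℕ) : Function.Injective
    (Fin.append (Fin.castAdd (m + m)) (Fin.natAdd k ∘ Fin.natAdd m) :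
      Fin (k + m) → Fin (k + (m + m))) := by
  intro a b
  refine Fin.addCases (fun a => ?_) (fun a => ?_) a <;>
    refine Fin.addCases (fun b => ?_) (fun b => ?_) b <;>
    simp only [Fin.append_left, Fin.append_right, Function.comp_apply, Fin.ext_iff, Fin.val_castAdd,
      Fin.val_natAdd] <;> omega

/-- The sum of a kernel over all tuples. -/
theorem XKer.tot {k m n : ℕ} (κ : XKer k m) (χ : Fin n → Bool) (M : Fin n → Fin n → Bool)
    (L : Finset (Finset (Fin n))) :
    (0 : ℝ) ≤ ∑ t : Fin (k + (m + m)) → Fin n, ((κ.v (xv χ M L t) : ℤ) : ℝ) := by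
  have h1 : ∑ t : Fin (k + (m + m)) → Fin n, ((κ.v (xv χ M L t) : ℤ) : ℝ) =
      ∑ s : Fin k → Fin n, ∑ x : Fin m → Fin n, ∑ y : Fin m → Fin n,
        ((κ.g (xv χ M L s) (κ.cod (xv χ M L (Fin.append s x)))
          (κ.cod (xv χ M L (Fin.append s y))) : ℤ) : ℝ) := by
    rw [← (Fin.appendEquiv k (m + m)).sum_comp, Fintype.sum_prod_type]
    refine Finset.sum_congr rfl fun s _ => ?_
    rw [← (Fin.appendEquiv m m).sum_comp, Fintype.sum_prod_type]
    refine Finset.sum_congr rfl fun x _ => Finset.sum_congr rfl fun y _ => ?_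
    have e0 : (Fin.appendEquiv k (m + m)) (s, (Fin.appendEquiv m m) (x, y)) =
        Fin.append s (Fin.append x y) := rfl
    rw [e0]
    unfold XKer.v
    rw [← xv_comp χ M L _ _ (Fin.castAdd_injective k (m + m)),
      ← xv_comp χ M L _ _ (append_inj1 k m), ← xv_comp χ M L _ _ (append_inj2 k m)]
    have e1 : Fin.append s (Fin.append x y) ∘ Fin.castAdd (m + m) = s := by
      funext i
      rw [Function.comp_apply, Fin.append_left]
    have e2 : Fin.append s (Fin.append x y) ∘
        (Fin.append (Fin.castAdd (m + m)) (Fin.natAdd k ∘ Fin.castAdd m)) = Fin.append s x := by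
      funext i
      refine Fin.addCases (fun a => ?_) (fun a => ?_) i
      · simp only [Function.comp_apply, Fin.append_left]
      · simp only [Function.comp_apply, Fin.append_right, Fin.append_left]
    have e3 : Fin.append s (Fin.append x y) ∘
        (Fin.append (Fin.castAdd (m + m)) (Fin.natAdd k ∘ Fin.natAdd m)) = Fin.append s y := by
      funext i
      refine Fin.addCases (fun a => ?_) (fun a => ?_) i
      · simp only [Function.comp_apply, Fin.append_left]
      · simp only [Function.comp_apply, Fin.append_right]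
    rw [e1, e2, e3]
  rw [h1]
  refine Finset.sum_nonneg fun s _ => ?_
  exact psd_codes κ.K (fun x => κ.cod (xv χ M L (Fin.append s x))) (fun _ => κ.lt _)
    (fun i j => (κ.g (xv χ M L s) i j : ℝ)) (κ.psd _)

theorem goodX_ker3 (κ : XKer 3 1) : GoodX κ.v := GoodX.of_nonneg fun χ M L => κ.tot χ M L

theorem goodX_ker1 (κ : XKer 1 2) : GoodX κ.v := GoodX.of_nonneg fun χ M L => κ.tot χ M L

/-! ### The law of the structure -/

/-- A function of five vertices as a function of six. -/
def up6 (ψ : (Finset (Fin 5) → Bool) → (Fin 5 → Bool) → ℤ) :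
    (Finset (Fin 6) → Bool) → (Fin 6 → Bool) → ℤ :=
  fun e c => ψ (fun S => e (S.image (Fin.castSucc : Fin 5 → Fin 6))) (c ∘ Fin.castSucc)

/-- A function of the colours and of the quadruples whose sum with the weights of the uniform law is
nonnegative. -/
theorem goodX_law (ψ : (Finset (Fin 5) → Bool) → (Fin 5 → Bool) → ℤ)
    (hψ : 0 ≤ lawSum (up6 ψ)) : GoodX fun D => ψ D.e D.c := by
  intro δ hδ
  obtain ⟨B, hB0, hB⟩ := exists_bound (up6 ψ)
  set C : ℝ := 64 * ((4 * KW + 1) * B) with hC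
  have hC0 : 0 ≤ C := by
    have := KW_nonneg
    rw [hC]
    exact mul_nonneg (by norm_num) (mul_nonneg (add_nonneg (mul_nonneg (by norm_num) this)
      zero_le_one) hB0)
  set θ : ℝ := δ / (C + 1) with hθ
  have hθ0 : 0 < θ := by
    rw [hθ]
    positivity
  obtain ⟨η, hη, N, hN⟩ := gir_small θ hθ0
  refine ⟨η, hη, max 1 N, fun n hn χ M hd L => ?_⟩
  have hn1 : 1 ≤ n := le_trans (le_max_left _ _) hn
  have hn0 : (0 : ℝ) < n := by exact_mod_cast hn1
  obtain ⟨h1, h2⟩ := hN n (le_trans (le_max_right _ _) hn) χ M hd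
  have h4 := law_all χ M (up6 ψ) B hB θ hθ0.le h1 h2
  have e1 : ∑ t : Fin 6 → Fin n, ((up6 ψ (eL (dt χ M t).1 (dt χ M t).2) (dt χ M t).1 : ℤ) : ℝ) =
      n * ∑ t : Fin 5 → Fin n, ((ψ (xv χ M L t).e (xv χ M L t).c : ℤ) : ℝ) := by
    have e2 : ∀ t : Fin 6 → Fin n,
        ((up6 ψ (eL (dt χ M t).1 (dt χ M t).2) (dt χ M t).1 : ℤ) : ℝ) =
        ((ψ (xv χ M L (Fin.init t : Fin 5 → Fin n)).e
          (xv χ M L (Fin.init t : Fin 5 → Fin n)).c : ℤ) : ℝ) := by
      intro t
      unfold up6
      have e3 : (fun S : Finset (Fin 5) => eL (dt χ M t).1 (dt χ M t).2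
          (S.image (Fin.castSucc : Fin 5 → Fin 6))) = (xv χ M L (Fin.init t : Fin 5 → Fin n)).e := by
        funext S
        rw [eL_sub _ _ _ (Fin.castSucc_injective 5)]
        rfl
      rw [e3]
      rfl
    rw [Finset.sum_congr rfl fun t _ => e2 t,
      sum_snoc (k := 5) (fun s _ => ((ψ (xv χ M L s).e (xv χ M L s).c : ℤ) : ℝ)), Finset.mul_sum]
    refine Finset.sum_congr rfl fun s _ => ?_
    rw [Finset.sum_const, Finset.card_univ, Fintype.card_fin, nsmul_eq_mul]
  rw [e1] at h4
  have h7 := (abs_le.mp h4).1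
  have h9 : 64 * ((4 * KW + 1) * (B * (θ * (n : ℝ) ^ 6))) ≤ n * (δ * (n : ℝ) ^ 5) := by
    have e2 : 64 * ((4 * KW + 1) * (B * (θ * (n : ℝ) ^ 6))) = (C * θ) * (n : ℝ) ^ 6 := by
      rw [hC]
      ring
    have e3 : n * (δ * (n : ℝ) ^ 5) = δ * (n : ℝ) ^ 6 := by ring
    rw [e2, e3]
    refine mul_le_mul_of_nonneg_right ?_ (by positivity)
    have h12 : 0 < C + 1 := by linarith
    rw [hθ, ← mul_div_assoc, div_le_iff₀ h12]
    nlinarith
  have h10 : (0 : ℝ) ≤ (n : ℝ) ^ 6 / 1024 * ((lawSum (up6 ψ) : ℤ) : ℝ) := by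
    have : (0 : ℝ) ≤ ((lawSum (up6 ψ) : ℤ) : ℝ) := by exact_mod_cast hψ
    positivity
  have h11 : -(n * (δ * (n : ℝ) ^ 5)) ≤
      n * ∑ t : Fin 5 → Fin n, ((ψ (xv χ M L t).e (xv χ M L t).c : ℤ) : ℝ) := by linarith
  rw [← mul_neg] at h11
  exact le_of_mul_le_mul_left h11 hn0

/-! ### The law of a new vertex -/

/-- The pairs of a tuple with a new vertex. -/
def mex {k : ℕ} (m : Fin k → Fin k → Bool) (z : Fin k → Bool) : Fin (k + 1) → Fin (k + 1) → Bool :=
  Fin.snoc (α := fun _ => Fin (k + 1) → Bool)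
    (fun a => Fin.snoc (α := fun _ => Bool) (fun b => m a b) (z a))
    (Fin.snoc (α := fun _ => Bool) (fun b => z b) false)

theorem mex_cc {k : ℕ} (m : Fin k → Fin k → Bool) (z : Fin k → Bool) (a b : Fin k) :
    mex m z a.castSucc b.castSucc = m a b := by
  unfold mex
  rw [Fin.snoc_castSucc, Fin.snoc_castSucc]

theorem mex_cl {k : ℕ} (m : Fin k → Fin k → Bool) (z : Fin k → Bool) (a : Fin k) :
    mex m z a.castSucc (Fin.last k) = z a := by
  unfold mex
  rw [Fin.snoc_castSucc, Fin.snoc_last]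

theorem mex_lc {k : ℕ} (m : Fin k → Fin k → Bool) (z : Fin k → Bool) (b : Fin k) :
    mex m z (Fin.last k) b.castSucc = z b := by
  unfold mex
  rw [Fin.snoc_last, Fin.snoc_castSucc]

/-- The quadruples with a new vertex: by the missing vertex of four. -/
def eY (c : Fin 4 → Bool) (m : Fin 4 → Fin 4 → Bool) (cy : Bool) (z : Fin 4 → Bool) :
    Fin 4 → Bool := fun i => eL (Fin.snoc (α := fun _ => Bool) c cy : Fin 5 → Bool) (mex m z)
  (Finset.univ.erase i.castSucc)

/-- The pairs that matter. -/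
theorem eL_congr {k : ℕ} (c : Fin k → Bool) (z z' : Fin k → Fin k → Bool)
    (h : ∀ a b, c a = false → c b = true → z a b = z' a b) : eL c z = eL c z' := by
  funext S
  unfold eL
  rw [girB_congr c z z' _ _ S h]

/-- A change of the pairs by functions of one vertex. -/
theorem eL_gauge {k : ℕ} (c : Fin k → Bool) (z : Fin k → Fin k → Bool) (u v : Fin k → Bool) :
    eL c (fun a b => z a b ^^ (u a ^^ v b)) = eL c z := by
  funext S
  unfold eL
  by_cases hS : S.card = 4
  swap
  · rw [decide_eq_false hS, Bool.false_and, Bool.false_and]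
  rw [decide_eq_true hS, Bool.true_and, Bool.true_and]
  have hc := Finset.card_filter_add_card_filter_not (s := S) (fun v => c v = true)
  have hf : (S.filter fun v => ¬c v = true) = S.filter fun v => c v = false := by
    refine Finset.filter_congr fun v _ => ?_
    rw [Bool.not_eq_true]
  rw [hf, hS] at hc
  unfold girB
  by_cases h2 : (S.filter fun v => c v = true).card = 2
  · have h2' : (S.filter fun v => c v = false).card = 2 := by omega
    rw [h2, if_neg (by norm_num), if_neg (by norm_num), if_pos rfl, if_neg (by norm_num),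
      if_neg (by norm_num), if_pos rfl]
    congr 1
    have key : ∀ x y w : Bool, bz (x ^^ (y ^^ w)) = bz x + (bz y + bz w) := by decide
    simp only [key, Finset.sum_add_distrib, Finset.sum_const, h2, h2']
    rw [← Finset.smul_sum, two_smul_z2, two_smul_z2, add_zero, add_zero]
  · have e2 : ∀ A B C D E F : Bool, (if (S.filter fun v => c v = true).card = 0 then A
      else if (S.filter fun v => c v = true).card = 1 then B
      else if (S.filter fun v => c v = true).card = 2 then C
      else if (S.filter fun v => c v = true).card = 3 then D else E) =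
      if (S.filter fun v => c v = true).card = 0 then A
      else if (S.filter fun v => c v = true).card = 1 then B
      else if (S.filter fun v => c v = true).card = 2 then F
      else if (S.filter fun v => c v = true).card = 3 then D else E := by
      intro A B C D E F
      rw [if_neg h2, if_neg h2]
    exact e2 _ _ _ _ _ _

/-- The first vertex of a colour. -/
def fc (c : Fin 4 → Bool) (b : Bool) : Fin 4 := ((List.finRange 4).find? fun k => c k == b).getD 0

/-- Representatives of the pairs of four vertices with a given quadruple. -/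
def mst (c : Fin 4 → Bool) (e : Bool) : Fin 4 → Fin 4 → Bool :=
  fun a b => e && (decide (a ≠ fc c false) && decide (b ≠ fc c true))

theorem fc_spec (c : Fin 4 → Bool) (b : Bool) (k : Fin 4) (hk : c k = b) : c (fc c b) = b := by
  unfold fc
  cases h : (List.finRange 4).find? (fun k => c k == b) with
  | none =>
    have := List.find?_eq_none.mp h k (List.mem_finRange k)
    rw [hk] at this
    simp at this
  | some a =>
    have := List.find?_some h
    simpa using this

theorem mst_gauge (c : Fin 4 → Bool) (m : Fin 4 → Fin 4 → Bool) (a b : Fin 4)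
    (ha : c a = false) (hb : c b = true) :
    mst c (eL c m univ) a b = (m a b ^^ (m a (fc c true) ^^ (m (fc c false) b ^^
      m (fc c false) (fc c true)))) := by
  have ha0 := fc_spec c false a ha
  have hb0 := fc_spec c true b hb
  set a0 := fc c false with hA
  set b0 := fc c true with hB
  by_cases h1 : a = a0
  · have e : mst c (eL c m univ) a b = false := by
      unfold mst
      rw [← hA, decide_eq_false (not_not.mpr h1), Bool.false_and, Bool.and_false]
    rw [e, h1]
    have key : ∀ p q : Bool, false = (p ^^ (q ^^ (p ^^ q))) := by decide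
    exact key _ _
  by_cases h2 : b = b0
  · have e : mst c (eL c m univ) a b = false := by
      unfold mst
      rw [← hB, decide_eq_false (not_not.mpr h2), Bool.and_false, Bool.and_false]
    rw [e, h2]
    have key : ∀ p q : Bool, false = (p ^^ (p ^^ (q ^^ q))) := by decide
    exact key _ _
  have hab : a ≠ b := by
    intro h
    rw [h, hb] at ha
    exact absurd ha (by decide)
  have hab0 : a ≠ b0 := by
    intro h
    rw [h, hb0] at ha
    exact absurd ha (by decide)
  have ha0b : a0 ≠ b := by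
    intro h
    rw [h, hb] at ha0
    exact absurd ha0 (by decide)
  have ha0b0 : a0 ≠ b0 := by
    intro h
    rw [h, hb0] at ha0
    exact absurd ha0 (by decide)
  have hU : (univ : Finset (Fin 4)) = {a0, a, b0, b} := by
    symm
    rw [← Finset.card_eq_iff_eq_univ, Fintype.card_fin, Finset.card_insert_of_notMem,
      Finset.card_insert_of_notMem, Finset.card_pair (Ne.symm h2)]
    · simp [hab0, hab]
    · simp [Ne.symm h1, ha0b0, ha0b]
  have hF : ((univ : Finset (Fin 4)).filter fun v => c v = false) = {a0, a} := by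
    rw [hU]
    ext x
    simp only [Finset.mem_filter, Finset.mem_insert, Finset.mem_singleton]
    constructor
    · rintro ⟨h | h | h | h, h3⟩
      · exact Or.inl h
      · exact Or.inr h
      · rw [h, hb0] at h3
        exact absurd h3 (by decide)
      · rw [h, hb] at h3
        exact absurd h3 (by decide)
    · rintro (h | h)
      · exact ⟨Or.inl h, by rw [h]; exact ha0⟩
      · exact ⟨Or.inr (Or.inl h), by rw [h]; exact ha⟩
  have hT : ((univ : Finset (Fin 4)).filter fun v => c v = true) = {b0, b} := by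
    rw [hU]
    ext x
    simp only [Finset.mem_filter, Finset.mem_insert, Finset.mem_singleton]
    constructor
    · rintro ⟨h | h | h | h, h3⟩
      · rw [h, ha0] at h3
        exact absurd h3 (by decide)
      · rw [h, ha] at h3
        exact absurd h3 (by decide)
      · exact Or.inl h
      · exact Or.inr h
    · rintro (h | h)
      · exact ⟨Or.inr (Or.inr (Or.inl h)), by rw [h]; exact hb0⟩
      · exact ⟨Or.inr (Or.inr (Or.inr h)), by rw [h]; exact hb⟩
  have e1 : eL c m univ = oddB (bz (m a0 b0) + bz (m a0 b) + (bz (m a b0) + bz (m a b))) := by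
    unfold eL
    rw [girB_two c m a0 a b0 b (Ne.symm h1) (Ne.symm h2) hF hT]
    simp
  rw [e1]
  unfold mst
  rw [← hA, ← hB, decide_eq_true h1, decide_eq_true h2]
  generalize m a0 b0 = p
  generalize m a0 b = q
  generalize m a b0 = r
  generalize m a b = s
  revert p q r s
  decide

/-- The sum over the pairs of the new vertex depends only on the quadruple of the roots. -/
theorem sum_eY (c : Fin 4 → Bool) (m : Fin 4 → Fin 4 → Bool) (cy : Bool) (f : (Fin 4 → Bool) → ℤ) :
    ∑ z : Fin 4 → Bool, f (eY c m cy z) =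
      ∑ z : Fin 4 → Bool, f (eY c (mst c (eL c m univ)) cy z) := by
  -- the gauge
  set u : Fin 4 → Bool := fun a => m a (fc c true) with hu
  set v : Fin 4 → Bool := fun b => m (fc c false) b ^^ m (fc c false) (fc c true) with hv
  set w : Fin 4 → Bool := fun i => if c i = true then v i else u i with hw
  have e1 : ∀ z : Fin 4 → Bool, eY c m cy z =
      eY c (mst c (eL c m univ)) cy (fun i => z i ^^ w i) := by
    intro z
    funext i
    unfold eY
    rw [← eL_gauge (Fin.snoc (α := fun _ => Bool) c cy : Fin 5 → Bool) (mex m z)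
      (Fin.snoc (α := fun _ => Bool) u false) (Fin.snoc (α := fun _ => Bool) v false)]
    refine congrFun (eL_congr _ _ _ fun a b => ?_) _
    refine Fin.lastCases ?_ (fun a => ?_) a
    · refine Fin.lastCases ?_ (fun b => ?_) b
      · intro h1 h2
        rw [h1] at h2
        exact absurd h2 (by decide)
      · intro _ h2
        rw [Fin.snoc_castSucc] at h2
        rw [mex_lc, mex_lc, Fin.snoc_last, Fin.snoc_castSucc, hw]
        beta_reduce
        rw [if_pos h2, Bool.false_xor]
    · refine Fin.lastCases ?_ (fun b => ?_) b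
      · intro h1 _
        rw [Fin.snoc_castSucc] at h1
        rw [mex_cl, mex_cl, Fin.snoc_last, Fin.snoc_castSucc, hw]
        beta_reduce
        rw [h1, if_neg (by decide), Bool.xor_false]
      · intro h1 h2
        rw [Fin.snoc_castSucc] at h1 h2
        rw [mex_cc, mex_cc, Fin.snoc_castSucc, Fin.snoc_castSucc, mst_gauge c m a b h1 h2]
  rw [Finset.sum_congr rfl fun z _ => congrArg f (e1 z)]
  refine Fintype.sum_equiv (Function.Involutive.toPerm
    (fun z : Fin 4 → Bool => fun i => z i ^^ w i) ?_) _ _ ?_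
  · intro z
    funext i
    show ((z i ^^ w i) ^^ w i) = z i
    generalize z i = p
    generalize w i = q
    revert p q
    decide
  · intro z
    rfl

/-- The column of the law of a new vertex for a function of the data of the roots, of the colour of the
new vertex and of the quadruples with the new vertex (by the missing root). -/
def extV (φ : XW 4 → Bool → (Fin 4 → Bool) → ℤ) (D : XW 5) : ℤ :=
  32 * φ (D.sub Fin.castSucc) (D.c (Fin.last 4)) (fun i => D.e (univ.erase i.castSucc)) -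
    ∑ cy : Bool, ∑ z : Fin 4 → Bool, φ (D.sub Fin.castSucc) cy
      (eY (D.sub Fin.castSucc).c (mst (D.sub Fin.castSucc).c ((D.sub Fin.castSucc).e univ)) cy z)

theorem eY_msk {n : ℕ} (χ : Fin n → Bool) (s : Fin 4 → Fin n) (m : Fin 4 → Fin 4 → Bool)
    (cy : Bool) (z : Fin 4 → Bool) :
    eY (fun i => χ (s i)) m cy (msk χ s cy z) = eY (fun i => χ (s i)) m cy z := by
  funext i
  unfold eY
  refine congrFun (eL_congr _ _ _ fun a b => ?_) _
  refine Fin.lastCases ?_ (fun a => ?_) a
  · refine Fin.lastCases ?_ (fun b => ?_) b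
    · intro h1 h2
      rw [h1] at h2
      exact absurd h2 (by decide)
    · intro h1 h2
      rw [Fin.snoc_castSucc] at h2
      rw [Fin.snoc_last] at h1
      rw [mex_lc, mex_lc]
      unfold msk
      rw [h2, h1, if_neg (by decide)]
  · refine Fin.lastCases ?_ (fun b => ?_) b
    · intro h1 h2
      rw [Fin.snoc_castSucc] at h1
      rw [Fin.snoc_last] at h2
      rw [mex_cl, mex_cl]
      unfold msk
      rw [h2, h1, if_neg (by decide)]
    · intro _ _
      rw [mex_cc, mex_cc]

/-- The quadruples of a tuple with a new vertex. -/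
theorem e_snoc {n : ℕ} (χ : Fin n → Bool) (M : Fin n → Fin n → Bool) (t : Fin 5 → Fin n)
    (i : Fin 4) : eL (dt χ M t).1 (dt χ M t).2 (univ.erase i.castSucc) =
      eY (fun k => χ ((Fin.init t : Fin 4 → Fin n) k)) (dt χ M (Fin.init t : Fin 4 → Fin n)).2
        (χ (t (Fin.last 4))) (rowb χ M (Fin.init t) (t (Fin.last 4))) i := by
  unfold eY
  have ec : (dt χ M t).1 = (Fin.snoc (α := fun _ => Bool)
      (fun k => χ ((Fin.init t : Fin 4 → Fin n) k)) (χ (t (Fin.last 4))) : Fin 5 → Bool) := by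
    funext a
    refine Fin.lastCases ?_ (fun a => ?_) a
    · rw [Fin.snoc_last]
      rfl
    · rw [Fin.snoc_castSucc]
      rfl
  rw [← ec]
  refine congrFun (eL_congr _ _ _ fun a b => ?_) _
  refine Fin.lastCases ?_ (fun a => ?_) a
  · refine Fin.lastCases ?_ (fun b => ?_) b
    · intro h1 h2
      rw [h1] at h2
      exact absurd h2 (by decide)
    · intro h1 h2
      rw [mex_lc]
      change χ (t (Fin.last 4)) = false at h1
      change χ (t b.castSucc) = true at h2
      show (!χ (t (Fin.last 4)) && (χ (t b.castSucc) && M (t (Fin.last 4)) (t b.castSucc))) =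
        rb2 χ M (t b.castSucc) (t (Fin.last 4))
      unfold rb2
      rw [h1, h2, if_neg (by decide), if_neg (by decide)]
      rfl
  · refine Fin.lastCases ?_ (fun b => ?_) b
    · intro h1 h2
      rw [mex_cl]
      change χ (t a.castSucc) = false at h1
      change χ (t (Fin.last 4)) = true at h2
      show (!χ (t a.castSucc) && (χ (t (Fin.last 4)) && M (t a.castSucc) (t (Fin.last 4)))) =
        rb2 χ M (t a.castSucc) (t (Fin.last 4))
      unfold rb2
      rw [h1, h2, if_neg (by decide), if_pos rfl]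
      rfl
    · intro _ _
      rw [mex_cc]
      rfl

/-- The columns of the law of a new vertex. -/
theorem goodX_ext (φ : XW 4 → Bool → (Fin 4 → Bool) → ℤ) : GoodX (extV φ) := by
  intro δ hδ
  obtain ⟨B, hB0, hB⟩ : ∃ B : ℝ, 0 ≤ B ∧ ∀ D c z, |((φ D c z : ℤ) : ℝ)| ≤ B := by
    obtain ⟨b, hb⟩ := (Set.finite_range fun p : XW 4 × Bool × (Fin 4 → Bool) =>
      |((φ p.1 p.2.1 p.2.2 : ℤ) : ℝ)|).bddAbove
    exact ⟨max b 0, le_max_right _ _, fun D c z => le_trans (hb ⟨(D, c, z), rfl⟩)
      (le_max_left _ _)⟩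
  set C : ℝ := (2 * (4 : ℕ) * 4 ^ (4 + 1) + 2 ^ (4 + 1)) * B with hC
  have hC0 : 0 ≤ C := by
    rw [hC]
    positivity
  set θ : ℝ := δ / (C + 1) with hθ
  have hθ0 : 0 < θ := by
    rw [hθ]
    positivity
  obtain ⟨η, hη, N, hN⟩ := gir_small θ hθ0
  refine ⟨η, hη, N, fun n hn χ M hd L => ?_⟩
  obtain ⟨h1, h2⟩ := hN n hn χ M hd
  have h3 := ext_law (k := 4) χ M
    (fun s cy z => ((φ (xv χ M L s) cy (eY (fun i => χ (s i)) (dt χ M s).2 cy z) : ℤ) : ℝ)) B
    (fun _ _ _ => hB _ _ _) θ hθ0.le h1 h2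
  have e1 : ∑ t : Fin 5 → Fin n, ((extV φ (xv χ M L t) : ℤ) : ℝ) =
      2 ^ (4 + 1) * ∑ s : Fin 4 → Fin n, ∑ y : Fin n, ((φ (xv χ M L s) (χ y)
        (eY (fun i => χ (s i)) (dt χ M s).2 (χ y) (rowb χ M s y)) : ℤ) : ℝ) -
      ∑ s : Fin 4 → Fin n, ∑ _y : Fin n, ∑ c : Bool, ∑ z : Fin 4 → Bool,
        ((φ (xv χ M L s) c (eY (fun i => χ (s i)) (dt χ M s).2 c (msk χ s c z)) : ℤ) : ℝ) := by
    rw [← sum_snoc (k := 4) (fun s y => ((φ (xv χ M L s) (χ y)
        (eY (fun i => χ (s i)) (dt χ M s).2 (χ y) (rowb χ M s y)) : ℤ) : ℝ)),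
      ← sum_snoc (k := 4) (fun s _ => ∑ c : Bool, ∑ z : Fin 4 → Bool,
        ((φ (xv χ M L s) c (eY (fun i => χ (s i)) (dt χ M s).2 c (msk χ s c z)) : ℤ) : ℝ)),
      Finset.mul_sum, ← Finset.sum_sub_distrib]
    refine Finset.sum_congr rfl fun t _ => ?_
    have e2 : (xv χ M L t).sub Fin.castSucc = xv χ M L (Fin.init t : Fin 4 → Fin n) := by
      rw [← xv_comp χ M L t _ (Fin.castSucc_injective 4)]
      rfl
    unfold extV
    rw [e2]
    have e3 : (fun i : Fin 4 => (xv χ M L t).e (univ.erase i.castSucc)) =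
        eY (fun i => χ ((Fin.init t : Fin 4 → Fin n) i)) (dt χ M (Fin.init t : Fin 4 → Fin n)).2
          (χ (t (Fin.last 4))) (rowb χ M (Fin.init t) (t (Fin.last 4))) := by
      funext i
      exact e_snoc χ M t i
    rw [e3]
    have e4 : ∀ c : Bool, ∑ z : Fin 4 → Bool, φ (xv χ M L (Fin.init t : Fin 4 → Fin n)) c
        (eY (xv χ M L (Fin.init t : Fin 4 → Fin n)).c
          (mst (xv χ M L (Fin.init t : Fin 4 → Fin n)).c
            ((xv χ M L (Fin.init t : Fin 4 → Fin n)).e univ)) c z) =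
        ∑ z : Fin 4 → Bool, φ (xv χ M L (Fin.init t : Fin 4 → Fin n)) c
        (eY (fun i => χ ((Fin.init t : Fin 4 → Fin n) i))
          (dt χ M (Fin.init t : Fin 4 → Fin n)).2 c (msk χ (Fin.init t) c z)) := by
      intro c
      have e5 := sum_eY (fun i => χ ((Fin.init t : Fin 4 → Fin n) i))
        (dt χ M (Fin.init t : Fin 4 → Fin n)).2 c (φ (xv χ M L (Fin.init t : Fin 4 → Fin n)) c)
      rw [Finset.sum_congr rfl fun z _ => congrArg (φ (xv χ M L (Fin.init t : Fin 4 → Fin n)) c)
        (eY_msk χ (Fin.init t) _ c z), e5]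
      rfl
    rw [Finset.sum_congr rfl fun c _ => e4 c]
    push_cast
    norm_num
    rfl
  rw [e1]
  have h4 := (abs_le.mp h3).1
  have h5 : (2 * (4 : ℕ) * 4 ^ (4 + 1) + 2 ^ (4 + 1)) * (B * (θ * (n : ℝ) ^ (4 + 1))) ≤
      δ * (n : ℝ) ^ 5 := by
    have e2 : (2 * (4 : ℕ) * 4 ^ (4 + 1) + 2 ^ (4 + 1)) * (B * (θ * (n : ℝ) ^ (4 + 1))) =
        (C * θ) * (n : ℝ) ^ 5 := by
      rw [hC]
      ring
    rw [e2]
    refine mul_le_mul_of_nonneg_right ?_ (by positivity)
    rw [hθ, ← mul_div_assoc, div_le_iff₀ (by positivity)]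
    nlinarith
  linarith

/-! ### The windows at a vertex of a 4-graph without `K_5` -/

/-- The link of a vertex. -/
def lk {n : ℕ} (H : Finset (Finset (Fin n))) (x : Fin n) : Finset (Finset (Fin n)) :=
  ((univ : Finset (Fin n)).powersetCard 3).filter fun T => insert x T ∈ H

/-- The data of the windows that occur. -/
structure VR (D : XW 5) : Prop where
  e : ∃ m : Fin 5 → Fin 5 → Bool, D.e = eL D.c m
  l3 : ∀ S : Finset (Fin 5), S.card ≠ 3 → D.l S = false
  k : ∀ S : Finset (Fin 5), S.card = 4 → D.e S = true → ∃ T ∈ S.powersetCard 3, D.l T = false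

/-- The sum over the windows at every vertex is almost nonnegative. -/
def GoodV (V : XW 5 → ℤ) : Prop :=
  ∀ δ : ℝ, 0 < δ → ∃ η : ℝ, 0 < η ∧ ∃ N : ℕ, ∀ n : ℕ, N ≤ n →
    ∀ (χ : Fin n → Bool) (M : Fin n → Fin n → Bool) (H : Finset (Finset (Fin n))),
      (∀ e ∈ H, e.card = 4) → K5F H → 11 / 16 - η ≤ e4 (G0 χ M) →
      ((symmDiff H (G0 χ M)).card : ℝ) ≤ η * (n : ℝ) ^ 4 → ∀ x : Fin n,
      -(δ * (n : ℝ) ^ 5) ≤ ∑ t : Fin 5 → Fin n, ((V (xv χ M (lk H x) t) : ℤ) : ℝ)

section fin
variable {n : ℕ}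

theorem vr_of (χ : Fin n → Bool) (M : Fin n → Fin n → Bool) (H : Finset (Finset (Fin n)))
    (hK : K5F H) (x : Fin n) (t : Fin 5 → Fin n) (ht : Function.Injective t)
    (hx : ∀ i, t i ≠ x)
    (hD : ∀ S ∈ (univ : Finset (Fin 5)).powersetCard 4, S.image t ∉ symmDiff H (G0 χ M)) :
    VR (xv χ M (lk H x) t) := by
  refine ⟨⟨(dt χ M t).2, rfl⟩, fun S hS => ?_, fun S hS he => ?_⟩
  · show decide (S.image t ∈ lk H x) = false
    rw [decide_eq_false_iff_not]
    unfold lk
    rw [Finset.mem_filter, Finset.mem_powersetCard, not_and]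
    intro h1 _
    exact hS (by rw [← h1.2, Finset.card_image_of_injective _ ht])
  · have h1 := hD S (Finset.mem_powersetCard.mpr ⟨Finset.subset_univ _, hS⟩)
    have h2 : S.image t ∈ G0 χ M := by
      have h3 := congrFun (zb_eL χ M t ht) S
      have h4 : zb (G0 χ M) t S = decide (S.image t ∈ G0 χ M) := by
        rw [zb_eq]
        rfl
      have h5 : (xv χ M (lk H x) t).e S = zb (G0 χ M) t S := h3.symm
      rw [h5, h4, decide_eq_true_iff] at he
      exact he
    have h3 : S.image t ∈ H := by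
      by_contra h4
      exact h1 (Finset.mem_symmDiff.mpr (Or.inr ⟨h2, h4⟩))
    have hxS : x ∉ S.image t := by
      intro h4
      obtain ⟨i, _, hi⟩ := Finset.mem_image.mp h4
      exact hx i hi
    have hc : (S.image t).card = 4 := by
      rw [Finset.card_image_of_injective _ ht, hS]
    obtain ⟨e, he1, he2⟩ := hK (insert x (S.image t)) (by
      rw [Finset.card_insert_of_notMem hxS, hc])
    rw [Finset.mem_powersetCard] at he1
    have hxe : x ∈ e := by
      by_contra h4
      have h5 : e ⊆ S.image t := fun y hy => by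
        rcases Finset.mem_insert.mp (he1.1 hy) with h6 | h6
        · rw [h6] at hy
          exact absurd hy h4
        · exact h6
      have h6 : e = S.image t := Finset.eq_of_subset_of_card_le h5 (by rw [hc, he1.2])
      rw [h6] at he2
      exact he2 h3
    -- the triple
    have h4 : e.erase x ⊆ S.image t := fun y hy => by
      rw [Finset.mem_erase] at hy
      rcases Finset.mem_insert.mp (he1.1 hy.2) with h6 | h6
      · exact absurd h6 hy.1
      · exact h6
    obtain ⟨T, hT, hTe⟩ := Finset.subset_image_iff.mp h4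
    have hTS : T ⊆ S := by exact_mod_cast hT
    have hT3 : T.card = 3 := by
      have h5 : (T.image t).card = T.card := Finset.card_image_of_injective _ ht
      rw [← h5, hTe, Finset.card_erase_of_mem hxe, he1.2]
    refine ⟨T, Finset.mem_powersetCard.mpr ⟨hTS, hT3⟩, ?_⟩
    show decide (T.image t ∈ lk H x) = false
    rw [decide_eq_false_iff_not, hTe]
    unfold lk
    rw [Finset.mem_filter, not_and]
    intro _
    rw [Finset.insert_erase hxe]
    exact he2

/-- The number of tuples with a quadruple in a small family. -/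
theorem sum_img_le (Δ : Finset (Finset (Fin n))) (h4 : ∀ e ∈ Δ, e.card = 4) (hn : 0 < n)
    (S : Finset (Fin 5)) (hS : S.card = 4) :
    ∑ t : Fin 5 → Fin n, (if S.image t ∈ Δ then (1 : ℝ) else 0) ≤ n * (24 * (Δ.card : ℝ)) := by
  obtain ⟨j, hj, hjS⟩ := exists_inj_of_card S hS
  have hn0 : (0 : ℝ) < n := by exact_mod_cast hn
  have h1 := tot_comp (V := Fin n) 1 (fun q : Fin 4 → Fin n => 24 * (Δ.card : ℝ) / (n : ℝ) ^ 4 -
    kE Δ q) (by
      rw [Finset.sum_sub_distrib, card_eq_kE Δ h4, Finset.sum_const, Finset.card_univ,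
        Fintype.card_fun, Fintype.card_fin, Fintype.card_fin, nsmul_eq_mul]
      push_cast
      rw [mul_div_cancel₀ _ (by positivity)]
      linarith) j hj
  rw [Finset.sum_sub_distrib, Finset.sum_const, Finset.card_univ, Fintype.card_fun,
    Fintype.card_fin, Fintype.card_fin, nsmul_eq_mul] at h1
  push_cast at h1
  have e1 : ((n : ℝ) ^ (4 + 1)) * (24 * (Δ.card : ℝ) / (n : ℝ) ^ 4) = n * (24 * (Δ.card : ℝ)) := by
    rw [pow_succ]
    field_simp
  rw [e1] at h1
  have e2 : ∑ t : Fin 5 → Fin n, (if S.image t ∈ Δ then (1 : ℝ) else 0) =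
      ∑ t : Fin (4 + 1) → Fin n, kE Δ (t ∘ j) := by
    refine Finset.sum_congr rfl fun t _ => ?_
    unfold kE
    rw [← hjS, Finset.image_image]
  rw [e2]
  linarith

theorem sum_hit_le (x : Fin n) (i : Fin 5) :
    ∑ t : Fin 5 → Fin n, (if t i = x then (1 : ℝ) else 0) = (n : ℝ) ^ 4 := by
  have hn : 0 < n := lt_of_le_of_lt (Nat.zero_le _) x.isLt
  have hn0 : (0 : ℝ) < n := by exact_mod_cast hn
  have h1 := sum_upd (n := n) (m := 5) (fun t => if t i = x then (1 : ℝ) else 0) i
  have h2 : ∀ t : Fin 5 → Fin n, ∑ y : Fin n,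
      (if Function.update t i y i = x then (1 : ℝ) else 0) = 1 := by
    intro t
    simp only [Function.update_self]
    rw [Finset.sum_ite_eq' Finset.univ x (fun _ => (1 : ℝ)), if_pos (Finset.mem_univ _)]
  rw [Finset.sum_congr rfl fun t _ => h2 t, Finset.sum_const, Finset.card_univ, Fintype.card_fun,
    Fintype.card_fin, Fintype.card_fin, nsmul_eq_mul, mul_one] at h1
  push_cast at h1
  have h3 : (n : ℝ) * ∑ t : Fin 5 → Fin n, (if t i = x then (1 : ℝ) else 0) = n * (n : ℝ) ^ 4 := by
    rw [← h1]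
    ring
  exact mul_left_cancel₀ hn0.ne' h3

theorem desc5_ge (n : ℕ) : (n : ℝ) ^ 5 - (n.descFactorial 5 : ℝ) ≤ 10 * (n : ℝ) ^ 4 := by
  have h0 := desc4_ge n
  have h1 : (n.descFactorial 5 : ℝ) ≥ ((n : ℝ) - 4) * (n.descFactorial 4 : ℝ) := by
    rw [Nat.descFactorial_succ]
    push_cast
    have h2 : (n : ℝ) - 4 ≤ ((n - 4 : ℕ) : ℝ) := by
      rcases Nat.le_total 4 n with h | h
      · rw [Nat.cast_sub h]
        push_cast
        exact le_rfl
      · rw [Nat.sub_eq_zero_of_le h]
        have : (n : ℝ) ≤ 4 := by exact_mod_cast h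
        push_cast
        linarith
    exact mul_le_mul_of_nonneg_right h2 (Nat.cast_nonneg _)
  have h3 : (n.descFactorial 4 : ℝ) ≤ (n : ℝ) ^ 4 := by
    exact_mod_cast Nat.descFactorial_le_pow n 4
  have h4 : (0 : ℝ) ≤ n := Nat.cast_nonneg n
  nlinarith [mul_le_mul_of_nonneg_left h0 h4]

theorem sum_noninj_le :
    ∑ t : Fin 5 → Fin n, (if ¬Function.Injective t then (1 : ℝ) else 0) ≤ 10 * (n : ℝ) ^ 4 := by
  classical
  have h1 := sum_all_inj (n := n) (k := 5) (fun _ => (1 : ℝ)) 1 (fun _ => by norm_num)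
  have h2 := desc5_ge n
  have h3 := Finset.sum_filter_add_sum_filter_not (univ : Finset (Fin 5 → Fin n))
    (fun t => Function.Injective t) (fun _ => (1 : ℝ))
  have h4 : inj (Fin n) 5 = (univ : Finset (Fin 5 → Fin n)).filter fun t => Function.Injective t := by
    ext t
    rw [mem_inj, Finset.mem_filter]
    exact ⟨fun h => ⟨Finset.mem_univ _, h⟩, fun h => h.2⟩
  have h5 := (abs_le.mp h1).2
  rw [h4] at h5
  rw [← Finset.sum_filter]
  linarith

/-- The number of tuples that are not windows. -/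
theorem sum_bad_le (χ : Fin n → Bool) (M : Fin n → Fin n → Bool) (H : Finset (Finset (Fin n)))
    (h4 : ∀ e ∈ H, e.card = 4) (hK : K5F H) (x : Fin n) (F : (Fin 5 → Fin n) → ℝ) (B : ℝ)
    (hB0 : 0 ≤ B) (hB : ∀ t, -B ≤ F t) (hF : ∀ t, VR (xv χ M (lk H x) t) → 0 ≤ F t) :
    -(B * (15 * (n : ℝ) ^ 4 + 120 * (n * ((symmDiff H (G0 χ M)).card : ℝ)))) ≤ ∑ t, F t := by
  classical
  have hn : 0 < n := lt_of_le_of_lt (Nat.zero_le _) x.isLt
  set Δ := symmDiff H (G0 χ M) with hΔ
  have hΔ4 : ∀ e ∈ Δ, e.card = 4 := by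
    intro e he
    rw [hΔ, Finset.mem_symmDiff] at he
    rcases he with h | h
    · exact h4 e h.1
    · exact gir_card _ _ _ _ e h.1
  set W : (Fin 5 → Fin n) → ℝ := fun t => (if ¬Function.Injective t then (1 : ℝ) else 0) +
    ∑ i : Fin 5, (if t i = x then (1 : ℝ) else 0) +
    ∑ S ∈ (univ : Finset (Fin 5)).powersetCard 4, (if S.image t ∈ Δ then (1 : ℝ) else 0) with hW
  have h1 : ∀ t, -(B * W t) ≤ F t := by
    intro t
    have p1 : ∀ i : Fin 5, (0 : ℝ) ≤ (if t i = x then (1 : ℝ) else 0) := fun i => by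
      split_ifs <;> norm_num
    have p2 : ∀ S : Finset (Fin 5), (0 : ℝ) ≤ (if S.image t ∈ Δ then (1 : ℝ) else 0) := fun S => by
      split_ifs <;> norm_num
    have p3 : (0 : ℝ) ≤ (if ¬Function.Injective t then (1 : ℝ) else 0) := by
      split_ifs <;> norm_num
    have q1 : (0 : ℝ) ≤ ∑ i : Fin 5, (if t i = x then (1 : ℝ) else 0) :=
      Finset.sum_nonneg fun i _ => p1 i
    have q2 : (0 : ℝ) ≤ ∑ S ∈ (univ : Finset (Fin 5)).powersetCard 4,
        (if S.image t ∈ Δ then (1 : ℝ) else 0) := Finset.sum_nonneg fun S _ => p2 S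
    by_cases hw : 1 ≤ W t
    · have h2 : B * 1 ≤ B * W t := mul_le_mul_of_nonneg_left hw hB0
      linarith [hB t]
    · have h2 : 0 ≤ F t := by
        refine hF t (vr_of χ M H hK x t ?_ ?_ ?_)
        · by_contra h3
          apply hw
          rw [hW]
          beta_reduce
          rw [if_pos h3]
          linarith
        · intro i hi
          apply hw
          have h3 := Finset.single_le_sum (f := fun i => if t i = x then (1 : ℝ) else 0)
            (fun i _ => p1 i) (Finset.mem_univ i)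
          beta_reduce at h3
          rw [if_pos hi] at h3
          rw [hW]
          beta_reduce
          linarith
        · intro S hS hSΔ
          apply hw
          have h3 := Finset.single_le_sum (f := fun S : Finset (Fin 5) =>
            if S.image t ∈ Δ then (1 : ℝ) else 0) (fun S _ => p2 S) hS
          beta_reduce at h3
          rw [if_pos hSΔ] at h3
          rw [hW]
          beta_reduce
          linarith
      have h3 : 0 ≤ W t := by
        rw [hW]
        beta_reduce
        linarith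
      have h5 : 0 ≤ B * W t := mul_nonneg hB0 h3
      linarith
  have h2 : ∑ t, W t ≤ 15 * (n : ℝ) ^ 4 + 120 * (n * (Δ.card : ℝ)) := by
    rw [hW]
    beta_reduce
    rw [Finset.sum_add_distrib, Finset.sum_add_distrib]
    have e1 : ∑ t : Fin 5 → Fin n, ∑ i : Fin 5, (if t i = x then (1 : ℝ) else 0) =
        5 * (n : ℝ) ^ 4 := by
      rw [Finset.sum_comm, Finset.sum_congr rfl fun i _ => sum_hit_le x i, Finset.sum_const,
        Finset.card_univ, Fintype.card_fin, nsmul_eq_mul]
      norm_num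
    have e2 : ∑ t : Fin 5 → Fin n, ∑ S ∈ (univ : Finset (Fin 5)).powersetCard 4,
        (if S.image t ∈ Δ then (1 : ℝ) else 0) ≤ 5 * (n * (24 * (Δ.card : ℝ))) := by
      rw [Finset.sum_comm]
      refine le_trans (Finset.sum_le_sum fun S hS => sum_img_le Δ hΔ4 hn S
        (Finset.mem_powersetCard.mp hS).2) ?_
      rw [Finset.sum_const, Finset.card_powersetCard, Finset.card_univ, Fintype.card_fin,
        nsmul_eq_mul]
      norm_num
    rw [e1]
    have e3 := sum_noninj_le (n := n)
    linarith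
  have h3 : ∑ t, -(B * W t) ≤ ∑ t, F t := Finset.sum_le_sum fun t _ => h1 t
  rw [Finset.sum_neg_distrib, ← Finset.mul_sum] at h3
  have h5 := mul_le_mul_of_nonneg_left h2 hB0
  linarith

end fin

/-- The inequality for all windows gives the inequality at all vertices. -/
theorem goodV_of (V Z : XW 5 → ℤ) (hZ : GoodX Z)
    (hrow : ∀ D : XW 5, VR D → ∑ σ : Equiv.Perm (Fin 5), Z (D.sub σ) ≤
      ∑ σ : Equiv.Perm (Fin 5), V (D.sub σ)) : GoodV V := by
  intro δ hδ
  obtain ⟨B, hB0, hB⟩ := XW.bound (fun D : XW 5 => ∑ σ : Equiv.Perm (Fin 5), V (D.sub σ) -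
    ∑ σ : Equiv.Perm (Fin 5), Z (D.sub σ))
  obtain ⟨η, hη, N, hN⟩ := hZ.sym (δ / 2) (by positivity)
  obtain ⟨N2, hN2⟩ := n4_aux (C := B * 15) (δ := δ / 4) (by positivity)
  set η' : ℝ := δ / (480 * (B + 1)) with hη'
  have hη'0 : 0 < η' := by
    rw [hη']
    positivity
  refine ⟨min η η', lt_min hη hη'0, max N N2, fun n hn χ M H h4 hK hd hx x => ?_⟩
  have h1 := hN n (le_trans (le_max_left _ _) hn) χ M
    (le_trans (by linarith [min_le_left η η']) hd) (lk H x)
  have h2 := hN2 n (le_trans (le_max_right _ _) hn)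
  have h3 := sum_bad_le χ M H h4 hK x (fun t => (((∑ σ : Equiv.Perm (Fin 5),
    V ((xv χ M (lk H x) t).sub σ) - ∑ σ : Equiv.Perm (Fin 5), Z ((xv χ M (lk H x) t).sub σ) : ℤ)) : ℝ))
    B hB0 (fun t => (abs_le.mp (hB (xv χ M (lk H x) t))).1) (fun t ht => by
      have := hrow _ ht
      have h5 : (0 : ℤ) ≤ ∑ σ : Equiv.Perm (Fin 5), V ((xv χ M (lk H x) t).sub σ) -
        ∑ σ : Equiv.Perm (Fin 5), Z ((xv χ M (lk H x) t).sub σ) := by linarith
      exact_mod_cast h5)
  have hn0 : (0 : ℝ) ≤ n := Nat.cast_nonneg n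
  have hx' : ((symmDiff H (G0 χ M)).card : ℝ) ≤ η' * (n : ℝ) ^ 4 :=
    le_trans hx (mul_le_mul_of_nonneg_right (min_le_right _ _) (by positivity))
  have h5 : B * (120 * (n * ((symmDiff H (G0 χ M)).card : ℝ))) ≤ δ / 4 * (n : ℝ) ^ 5 := by
    have h6 : n * ((symmDiff H (G0 χ M)).card : ℝ) ≤ n * (η' * (n : ℝ) ^ 4) :=
      mul_le_mul_of_nonneg_left hx' hn0
    have h7 : B * (120 * (n * ((symmDiff H (G0 χ M)).card : ℝ))) ≤
        B * (120 * (n * (η' * (n : ℝ) ^ 4))) := by
      refine mul_le_mul_of_nonneg_left ?_ hB0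
      linarith
    refine le_trans h7 ?_
    have e1 : B * (120 * (n * (η' * (n : ℝ) ^ 4))) = (120 * (B * η')) * (n : ℝ) ^ 5 := by ring
    rw [e1]
    refine mul_le_mul_of_nonneg_right ?_ (by positivity)
    have h8 : B * η' ≤ δ / 480 := by
      rw [hη', mul_div_assoc', div_le_div_iff₀ (by positivity) (by norm_num)]
      nlinarith
    linarith
  have e2 : ∑ t : Fin 5 → Fin n, (((∑ σ : Equiv.Perm (Fin 5),
      V ((xv χ M (lk H x) t).sub σ) - ∑ σ : Equiv.Perm (Fin 5),
        Z ((xv χ M (lk H x) t).sub σ) : ℤ)) : ℝ) =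
      120 * ∑ t : Fin 5 → Fin n, ((V (xv χ M (lk H x) t) : ℤ) : ℝ) -
      ∑ t : Fin 5 → Fin n, (((∑ σ : Equiv.Perm (Fin 5),
        Z ((xv χ M (lk H x) t).sub σ) : ℤ)) : ℝ) := by
    have e3 : ∑ t : Fin 5 → Fin n, (((∑ σ : Equiv.Perm (Fin 5),
        V ((xv χ M (lk H x) t).sub σ) : ℤ)) : ℝ) =
        120 * ∑ t : Fin 5 → Fin n, ((V (xv χ M (lk H x) t) : ℤ) : ℝ) := by
      have e4 : ∀ σ : Equiv.Perm (Fin 5), ∑ t : Fin 5 → Fin n,
          ((V ((xv χ M (lk H x) t).sub σ) : ℤ) : ℝ) =
          ∑ t : Fin 5 → Fin n, ((V (xv χ M (lk H x) t) : ℤ) : ℝ) := by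
        intro σ
        have h6 := (Equiv.arrowCongr σ.symm (Equiv.refl (Fin n))).sum_comp
          (fun t : Fin 5 → Fin n => ((V (xv χ M (lk H x) t) : ℤ) : ℝ))
        rw [← h6]
        refine Finset.sum_congr rfl fun t _ => ?_
        have e : (Equiv.arrowCongr σ.symm (Equiv.refl (Fin n))) t = t ∘ σ := rfl
        rw [e, xv_comp χ M _ t σ σ.injective]
      push_cast
      rw [Finset.sum_comm, Finset.sum_congr rfl fun σ _ => e4 σ, Finset.sum_const,
        Finset.card_univ, Fintype.card_perm, Fintype.card_fin, nsmul_eq_mul]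
      norm_num [Nat.factorial]
    rw [← e3, ← Finset.sum_sub_distrib]
    refine Finset.sum_congr rfl fun t _ => ?_
    push_cast
    ring
  rw [e2] at h3
  nlinarith [h1, h2, h3, h5]

end Pool.Agent.Lib.MP_afdd4d_co.K9.Star.Tw
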