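import Pool.Agent.Lib.MP_afdd4d_co.K9.TwVP
import Pool.Agent.Lib.MP_afdd4d_co.K9.SumO5

/-!
# The number of bad windows at a vertex

The inequality for the windows at a vertex in terms of the degree of the vertex, of the number of
windows of a given kind and of the number of copies of `K_5` at the vertex.
-/

namespace Pool.Agent.Lib.MP_afdd4d_co.K9.Star.Tw

open Finset K8
open Pool.Agent.Lib.MP_afdd4d_co.K9.Marks

/-- The number of triples in the link. -/
def nl (D : XW 5) : ℤ := ∑ S ∈ (univ : Finset (Fin 5)).powersetCard 3, ((D.l S).toNat : ℤ)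

section fin
variable {n : ℕ}

theorem sum_tri (L : Finset (Finset (Fin n))) (h3 : ∀ e ∈ L, e.card = 3) :
    ∑ q : Fin 3 → Fin n, (if univ.image q ∈ L then (1 : ℝ) else 0) = 6 * (L.card : ℝ) := by
  classical
  have h1 := sum_imgK (V := Fin n) (k := 3) fun Q => if Q ∈ L then (1 : ℝ) else 0
  have h2 : ∑ Q ∈ (univ : Finset (Fin n)).powersetCard 3, (if Q ∈ L then (1 : ℝ) else 0) =
      (L.card : ℝ) := by
    rw [← Finset.sum_filter, Finset.sum_const, nsmul_eq_mul, mul_one]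
    congr 2
    ext Q
    rw [Finset.mem_filter, Finset.mem_powersetCard]
    exact ⟨fun h => h.2, fun h => ⟨⟨Finset.subset_univ _, h3 Q h⟩, h⟩⟩
  have h4 : ((Nat.factorial 3 : ℕ) : ℝ) = 6 := by norm_num [Nat.factorial]
  rw [h2, h4] at h1
  rw [← h1]
  symm
  refine Finset.sum_subset (Finset.subset_univ _) fun q _ hq => ?_
  rw [if_neg]
  intro h5
  apply hq
  rw [mem_inj]
  have h6 : (univ.image q).card = (univ : Finset (Fin 3)).card := by
    rw [h3 _ h5, Finset.card_univ, Fintype.card_fin]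
  rw [Finset.card_image_iff] at h6
  intro a b hab
  exact h6 (Finset.mem_coe.mpr (Finset.mem_univ a)) (Finset.mem_coe.mpr (Finset.mem_univ b)) hab

theorem exists_inj3 (S : Finset (Fin 5)) (hS : S.card = 3) :
    ∃ j : Fin 3 → Fin 5, Function.Injective j ∧ univ.image j = S :=
  ⟨S.orderEmbOfFin hS, (S.orderEmbOfFin hS).injective, Finset.image_orderEmbOfFin_univ S hS⟩

/-- The tuples with a given triple in the link. -/
theorem sum_img3 (L : Finset (Finset (Fin n))) (h3 : ∀ e ∈ L, e.card = 3) (hn : 0 < n)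
    (S : Finset (Fin 5)) (hS : S.card = 3) :
    ∑ t : Fin 5 → Fin n, (if S.image t ∈ L then (1 : ℝ) else 0) =
      (n : ℝ) ^ 2 * (6 * (L.card : ℝ)) := by
  obtain ⟨j, hj, hjS⟩ := exists_inj3 S hS
  have hn0 : (0 : ℝ) < n := by exact_mod_cast hn
  have e2 : ∑ t : Fin 5 → Fin n, (if S.image t ∈ L then (1 : ℝ) else 0) =
      ∑ t : Fin (3 + 2) → Fin n, (fun q : Fin 3 → Fin n =>
        if univ.image q ∈ L then (1 : ℝ) else 0) (t ∘ j) := by
    refine Finset.sum_congr rfl fun t _ => ?_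
    show _ = if univ.image (t ∘ j) ∈ L then (1 : ℝ) else 0
    rw [← hjS, Finset.image_image]
  have key : ∀ σ : ℝ, 0 ≤ ∑ t : Fin (3 + 2) → Fin n, (fun q : Fin 3 → Fin n =>
      σ * ((if univ.image q ∈ L then (1 : ℝ) else 0) - 6 * (L.card : ℝ) / (n : ℝ) ^ 3)) (t ∘ j) := by
    intro σ
    refine tot_comp (V := Fin n) 2 (fun q : Fin 3 → Fin n =>
      σ * ((if univ.image q ∈ L then (1 : ℝ) else 0) - 6 * (L.card : ℝ) / (n : ℝ) ^ 3))
      (le_of_eq ?_) j hj
    rw [← Finset.mul_sum, Finset.sum_sub_distrib, sum_tri L h3, Finset.sum_const,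
      Finset.card_univ, Fintype.card_fun, Fintype.card_fin, Fintype.card_fin, nsmul_eq_mul]
    push_cast
    rw [mul_div_cancel₀ _ (by positivity)]
    ring
  have h5 : ∀ σ : ℝ, ∑ t : Fin (3 + 2) → Fin n, (fun q : Fin 3 → Fin n =>
      σ * ((if univ.image q ∈ L then (1 : ℝ) else 0) - 6 * (L.card : ℝ) / (n : ℝ) ^ 3)) (t ∘ j) =
      σ * (∑ t : Fin (3 + 2) → Fin n, (fun q : Fin 3 → Fin n =>
        if univ.image q ∈ L then (1 : ℝ) else 0) (t ∘ j) - (n : ℝ) ^ 2 * (6 * (L.card : ℝ))) := by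
    intro σ
    beta_reduce
    rw [← Finset.mul_sum, Finset.sum_sub_distrib, Finset.sum_const, Finset.card_univ,
      Fintype.card_fun, Fintype.card_fin, Fintype.card_fin, nsmul_eq_mul]
    congr 2
    push_cast
    have e3 : (n : ℝ) ^ (3 + 2) = n ^ 3 * n ^ 2 := by ring
    rw [e3]
    field_simp
  have h6 := key 1
  have h7 := key (-1)
  rw [h5] at h6 h7
  rw [e2]
  linarith

/-- The sum of the number of triples in the link over the windows. -/
theorem sum_nl (χ : Fin n → Bool) (M : Fin n → Fin n → Bool) (H : Finset (Finset (Fin n)))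
    (x : Fin n) :
    ∑ t : Fin 5 → Fin n, ((nl (xv χ M (lk H x) t) : ℤ) : ℝ) =
      60 * ((lk H x).card : ℝ) * (n : ℝ) ^ 2 := by
  classical
  have hn : 0 < n := lt_of_le_of_lt (Nat.zero_le _) x.isLt
  have h3 : ∀ e ∈ lk H x, e.card = 3 := fun e he =>
    (Finset.mem_powersetCard.mp (Finset.mem_filter.mp he).1).2
  have e1 : ∀ t : Fin 5 → Fin n, ((nl (xv χ M (lk H x) t) : ℤ) : ℝ) =
      ∑ S ∈ (univ : Finset (Fin 5)).powersetCard 3,
        (if S.image t ∈ lk H x then (1 : ℝ) else 0) := by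
    intro t
    unfold nl
    push_cast
    refine Finset.sum_congr rfl fun S _ => ?_
    have e2 : (xv χ M (lk H x) t).l S = decide (S.image t ∈ lk H x) := rfl
    rw [e2]
    by_cases h : S.image t ∈ lk H x
    · rw [if_pos h, decide_eq_true h]
      norm_num
    · rw [if_neg h, decide_eq_false h]
      norm_num
  rw [Finset.sum_congr rfl fun t _ => e1 t, Finset.sum_comm,
    Finset.sum_congr rfl fun S hS => sum_img3 (lk H x) h3 hn S (Finset.mem_powersetCard.mp hS).2,
    Finset.sum_const, Finset.card_powersetCard, Finset.card_univ, Fintype.card_fin, nsmul_eq_mul]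
  norm_num [Nat.choose]
  ring

end fin

/-- The number of bad windows at a vertex. -/
theorem vtx_count (N s p : ℕ) (bad : XW 5 → Bool) (Z : XW 5 → ℤ) (hZ : GoodX Z)
    (hrow : ∀ D : XW 5, VR0 D → ∑ σ : Equiv.Perm (Fin 5), Z (D.sub σ) ≤
      ∑ σ : Equiv.Perm (Fin 5), (N * (110 - 16 * nl (D.sub σ)) - s * ((bad (D.sub σ)).toNat : ℤ)) +
        p * k5n D) :
    ∀ δ : ℝ, 0 < δ → ∃ η : ℝ, 0 < η ∧ ∃ N0 : ℕ, ∀ n : ℕ, N0 ≤ n →
      ∀ (χ : Fin n → Bool) (M : Fin n → Fin n → Bool) (H : Finset (Finset (Fin n))),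
        (∀ e ∈ H, e.card = 4) → 11 / 16 - η ≤ e4 (G0 χ M) →
        ((symmDiff H (G0 χ M)).card : ℝ) ≤ η * (n : ℝ) ^ 4 → ∀ x : Fin n,
        (s : ℝ) * (((univ : Finset (Fin 5 → Fin n)).filter fun t =>
          bad (xv χ M (lk H x) t) = true).card : ℝ) ≤
          110 * N * (n : ℝ) ^ 5 - 960 * N * ((lk H x).card : ℝ) * (n : ℝ) ^ 2 +
            p * (n * ((k5x H x : ℕ) : ℝ)) + δ * (n : ℝ) ^ 5 := by
  intro δ hδ
  obtain ⟨η, hη, N0, h⟩ := goodV_pen
    (fun D => N * (110 - 16 * nl D) - s * ((bad D).toNat : ℤ)) Z hZ p hrow δ hδ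
  refine ⟨η, hη, N0, fun n hn χ M H h4 hd hx x => ?_⟩
  have h1 := h n hn χ M H h4 hd hx x
  have e1 : ∑ t : Fin 5 → Fin n, (((N * (110 - 16 * nl (xv χ M (lk H x) t)) -
      s * ((bad (xv χ M (lk H x) t)).toNat : ℤ) : ℤ)) : ℝ) =
      110 * N * (n : ℝ) ^ 5 - 960 * N * ((lk H x).card : ℝ) * (n : ℝ) ^ 2 -
        s * (((univ : Finset (Fin 5 → Fin n)).filter fun t =>
          bad (xv χ M (lk H x) t) = true).card : ℝ) := by
    have e2 : ∀ t : Fin 5 → Fin n, (((N * (110 - 16 * nl (xv χ M (lk H x) t)) -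
        s * ((bad (xv χ M (lk H x) t)).toNat : ℤ) : ℤ)) : ℝ) =
        110 * (N : ℝ) - 16 * N * ((nl (xv χ M (lk H x) t) : ℤ) : ℝ) -
          s * (if bad (xv χ M (lk H x) t) = true then (1 : ℝ) else 0) := by
      intro t
      push_cast
      cases bad (xv χ M (lk H x) t)
      · simp
        ring
      · simp
        ring
    rw [Finset.sum_congr rfl fun t _ => e2 t, Finset.sum_sub_distrib, Finset.sum_sub_distrib,
      ← Finset.mul_sum, ← Finset.mul_sum, ← Finset.mul_sum, sum_nl, Finset.sum_boole,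
      Finset.sum_const,
      Finset.card_univ, Fintype.card_fun, Fintype.card_fin, Fintype.card_fin, nsmul_eq_mul]
    push_cast
    ring
  rw [e1] at h1
  linarith

end Pool.Agent.Lib.MP_afdd4d_co.K9.Star.Tw
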