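import Pool.Agent.Lib.MP_afdd4d_co.K9.TwV

/-!
# The windows at one vertex, with copies of `K_5`

The inequality for the windows at every vertex of an arbitrary 4-graph, with a penalty for the
copies of `K_5` at the vertex.
-/

namespace Pool.Agent.Lib.MP_afdd4d_co.K9.Star.Tw

open Finset K8
open Pool.Agent.Lib.MP_afdd4d_co.K9.Marks

/-- The data of the windows that occur. -/
structure VR0 (D : XW 5) : Prop where
  e : ∃ m : Fin 5 → Fin 5 → Bool, D.e = eL D.c m
  l3 : ∀ S : Finset (Fin 5), S.card ≠ 3 → D.l S = false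

/-- The number of copies of `K_5` with the vertex. -/
def k5n (D : XW 5) : ℕ :=
  (((univ : Finset (Fin 5)).powersetCard 4).filter fun S =>
    D.e S = true ∧ ∀ T ∈ S.powersetCard 3, D.l T = true).card

/-- The number of copies of `K_5` at a vertex. -/
def k5x {n : ℕ} (H : Finset (Finset (Fin n))) (x : Fin n) : ℕ :=
  (((univ : Finset (Fin n)).powersetCard 5).filter fun S => x ∈ S ∧ c5 H S = 5).card

section fin
variable {n : ℕ}

theorem vr0_of (χ : Fin n → Bool) (M : Fin n → Fin n → Bool) (H : Finset (Finset (Fin n)))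
    (x : Fin n) (t : Fin 5 → Fin n) (ht : Function.Injective t) : VR0 (xv χ M (lk H x) t) := by
  refine ⟨⟨(dt χ M t).2, rfl⟩, fun S hS => ?_⟩
  show decide (S.image t ∈ lk H x) = false
  rw [decide_eq_false_iff_not]
  unfold lk
  rw [Finset.mem_filter, Finset.mem_powersetCard, not_and]
  intro h1 _
  exact hS (by rw [← h1.2, Finset.card_image_of_injective _ ht])

/-- The quadruples of the structure whose triples are all in the link. -/
def kx (χ : Fin n → Bool) (M : Fin n → Fin n → Bool) (H : Finset (Finset (Fin n))) (x : Fin n) :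
    Finset (Finset (Fin n)) :=
  (G0 χ M).filter fun Q => ∀ T ∈ Q.powersetCard 3, insert x T ∈ H

theorem kx_card (χ : Fin n → Bool) (M : Fin n → Fin n → Bool) (H : Finset (Finset (Fin n)))
    (h4 : ∀ e ∈ H, e.card = 4) (x : Fin n) :
    (kx χ M H x).card ≤ k5x H x + (symmDiff H (G0 χ M)).card := by
  classical
  have hx : ∀ Q ∈ kx χ M H x, x ∉ Q := by
    intro Q hQ hxQ
    obtain ⟨hG, hT⟩ := Finset.mem_filter.mp hQ
    have hc : Q.card = 4 := gir_card _ _ _ _ Q hG
    -- a triple with the vertex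
    obtain ⟨y, hy⟩ : ∃ y ∈ Q, y ≠ x := by
      by_contra h
      push Not at h
      have h1 : Q ⊆ {x} := fun y hy => Finset.mem_singleton.mpr (h y hy)
      have h2 := Finset.card_le_card h1
      rw [hc, Finset.card_singleton] at h2
      omega
    have h1 := hT (Q.erase y) (by
      rw [Finset.mem_powersetCard]
      exact ⟨Finset.erase_subset _ _, by rw [Finset.card_erase_of_mem hy.1, hc]⟩)
    have h2 : insert x (Q.erase y) = Q.erase y :=
      Finset.insert_eq_self.mpr (Finset.mem_erase.mpr ⟨Ne.symm hy.2, hxQ⟩)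
    rw [h2] at h1
    have h3 := h4 _ h1
    rw [Finset.card_erase_of_mem hy.1, hc] at h3
    omega
  have h1 : kx χ M H x ⊆ (kx χ M H x).filter (fun Q => Q ∈ H) ∪ symmDiff H (G0 χ M) := by
    intro Q hQ
    rw [Finset.mem_union]
    by_cases h : Q ∈ H
    · exact Or.inl (Finset.mem_filter.mpr ⟨hQ, h⟩)
    · exact Or.inr (Finset.mem_symmDiff.mpr (Or.inr ⟨(Finset.mem_filter.mp hQ).1, h⟩))
  refine le_trans (Finset.card_le_card h1) (le_trans (Finset.card_union_le _ _) ?_)
  refine Nat.add_le_add_right ?_ _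
  unfold k5x
  refine Finset.card_le_card_of_injOn (fun Q => insert x Q) ?_ ?_
  · intro Q hQ
    obtain ⟨hQ1, hQH⟩ := Finset.mem_filter.mp (Finset.mem_coe.mp hQ)
    have hxQ := hx Q hQ1
    obtain ⟨hG, hT⟩ := Finset.mem_filter.mp hQ1
    have hc : Q.card = 4 := gir_card _ _ _ _ Q hG
    have hS : (insert x Q).card = 5 := by rw [Finset.card_insert_of_notMem hxQ, hc]
    apply Finset.mem_coe.mpr
    rw [Finset.mem_filter, Finset.mem_powersetCard]
    refine ⟨⟨Finset.subset_univ _, hS⟩, Finset.mem_insert_self _ _, ?_⟩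
    unfold c5
    rw [Finset.filter_true_of_mem, Finset.card_powersetCard, hS]
    · decide
    · intro e he
      rw [Finset.mem_powersetCard] at he
      by_cases hxe : x ∈ e
      · have h2 : e.erase x ∈ Q.powersetCard 3 := by
          rw [Finset.mem_powersetCard]
          refine ⟨fun y hy => ?_, by rw [Finset.card_erase_of_mem hxe, he.2]⟩
          rw [Finset.mem_erase] at hy
          rcases Finset.mem_insert.mp (he.1 hy.2) with h5 | h5
          · exact absurd h5 hy.1
          · exact h5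
        have h3 := hT _ h2
        rw [Finset.insert_erase hxe] at h3
        exact h3
      · have h2 : e ⊆ Q := fun y hy => by
          rcases Finset.mem_insert.mp (he.1 hy) with h5 | h5
          · rw [h5] at hy
            exact absurd hy hxe
          · exact h5
        have h3 : e = Q := Finset.eq_of_subset_of_card_le h2 (by rw [hc, he.2])
        rw [h3]
        exact hQH
  · intro Q hQ R hR h
    have hQ' := hx Q (Finset.mem_filter.mp (Finset.mem_coe.mp hQ)).1
    have hR' := hx R (Finset.mem_filter.mp (Finset.mem_coe.mp hR)).1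
    have h3 : insert x Q = insert x R := h
    rw [← Finset.erase_insert hQ', ← Finset.erase_insert hR', h3]

/-- The copies of `K_5` in the windows. -/
theorem sum_k5n_le (χ : Fin n → Bool) (M : Fin n → Fin n → Bool) (H : Finset (Finset (Fin n)))
    (h4 : ∀ e ∈ H, e.card = 4) (x : Fin n) :
    ∑ t : Fin 5 → Fin n, ((k5n (xv χ M (lk H x) t) : ℕ) : ℝ) ≤
      120 * (n * ((k5x H x : ℕ) : ℝ)) + 120 * (n * ((symmDiff H (G0 χ M)).card : ℝ)) +
        50 * (n : ℝ) ^ 4 := by
  classical
  have hn : 0 < n := lt_of_le_of_lt (Nat.zero_le _) x.isLt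
  have h1 : ∀ t : Fin 5 → Fin n, ((k5n (xv χ M (lk H x) t) : ℕ) : ℝ) ≤
      ∑ S ∈ (univ : Finset (Fin 5)).powersetCard 4,
        (if S.image t ∈ kx χ M H x then (1 : ℝ) else 0) +
      5 * (if ¬Function.Injective t then (1 : ℝ) else 0) := by
    intro t
    have p2 : ∀ S : Finset (Fin 5), (0 : ℝ) ≤ (if S.image t ∈ kx χ M H x then (1 : ℝ) else 0) :=
      fun S => by split_ifs <;> norm_num
    by_cases ht : Function.Injective t
    · rw [if_neg (not_not.mpr ht), mul_zero, add_zero]
      unfold k5n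
      rw [Finset.card_filter]
      push_cast
      refine Finset.sum_le_sum fun S hS => ?_
      by_cases h : (xv χ M (lk H x) t).e S = true ∧
          ∀ T ∈ S.powersetCard 3, (xv χ M (lk H x) t).l T = true
      · rw [if_pos h, if_pos]
        have hS4 := (Finset.mem_powersetCard.mp hS).2
        unfold kx
        rw [Finset.mem_filter]
        constructor
        · have h3 := congrFun (zb_eL χ M t ht) S
          have h5 : zb (G0 χ M) t S = decide (S.image t ∈ G0 χ M) := by
            rw [zb_eq]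
            rfl
          have h6 : (xv χ M (lk H x) t).e S = zb (G0 χ M) t S := h3.symm
          have h7 := h.1
          rw [h6, h5, decide_eq_true_iff] at h7
          exact h7
        · intro T hT
          rw [Finset.mem_powersetCard] at hT
          obtain ⟨T', hT', hTe⟩ := Finset.subset_image_iff.mp hT.1
          have hTS : T' ⊆ S := by exact_mod_cast hT'
          have hT3 : T'.card = 3 := by
            have h5 : (T'.image t).card = T'.card := Finset.card_image_of_injective _ ht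
            rw [← h5, hTe, hT.2]
          have h6 := h.2 T' (Finset.mem_powersetCard.mpr ⟨hTS, hT3⟩)
          have h7 : (xv χ M (lk H x) t).l T' = decide (T'.image t ∈ lk H x) := rfl
          rw [h7, decide_eq_true_iff, hTe] at h6
          exact (Finset.mem_filter.mp h6).2
      · rw [if_neg h]
        exact p2 S
    · rw [if_pos ht]
      have h2 : k5n (xv χ M (lk H x) t) ≤ 5 := by
        unfold k5n
        refine le_trans (Finset.card_le_card (Finset.filter_subset _ _)) ?_
        rw [Finset.card_powersetCard, Finset.card_univ, Fintype.card_fin]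
        decide
      have h3 : ((k5n (xv χ M (lk H x) t) : ℕ) : ℝ) ≤ 5 := by exact_mod_cast h2
      have h5 := Finset.sum_nonneg fun S (_ : S ∈ (univ : Finset (Fin 5)).powersetCard 4) => p2 S
      linarith
  refine le_trans (Finset.sum_le_sum fun t _ => h1 t) ?_
  rw [Finset.sum_add_distrib, ← Finset.mul_sum, Finset.sum_comm]
  have hk4 : ∀ e ∈ kx χ M H x, e.card = 4 := fun e he =>
    gir_card _ _ _ _ e (Finset.mem_filter.mp he).1
  have h2 : ∑ S ∈ (univ : Finset (Fin 5)).powersetCard 4, ∑ t : Fin 5 → Fin n,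
      (if S.image t ∈ kx χ M H x then (1 : ℝ) else 0) ≤
      5 * (n * (24 * ((kx χ M H x).card : ℝ))) := by
    refine le_trans (Finset.sum_le_sum fun S hS => sum_img_le _ hk4 hn S
      (Finset.mem_powersetCard.mp hS).2) ?_
    rw [Finset.sum_const, Finset.card_powersetCard, Finset.card_univ, Fintype.card_fin,
      nsmul_eq_mul]
    norm_num
  have h3 := sum_noninj_le (n := n)
  have h5 : ((kx χ M H x).card : ℝ) ≤ ((k5x H x : ℕ) : ℝ) + ((symmDiff H (G0 χ M)).card : ℝ) := by
    exact_mod_cast kx_card χ M H h4 x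
  have hn0 : (0 : ℝ) ≤ n := Nat.cast_nonneg n
  have h6 := mul_le_mul_of_nonneg_left h5 hn0
  linarith

end fin

/-- The inequality for all windows, with a penalty `p` for every copy of `K_5`, gives the inequality at
all vertices of an arbitrary 4-graph. -/
theorem goodV_pen (V Z : XW 5 → ℤ) (hZ : GoodX Z) (p : ℕ)
    (hrow : ∀ D : XW 5, VR0 D → ∑ σ : Equiv.Perm (Fin 5), Z (D.sub σ) ≤
      ∑ σ : Equiv.Perm (Fin 5), V (D.sub σ) + p * k5n D) :
    ∀ δ : ℝ, 0 < δ → ∃ η : ℝ, 0 < η ∧ ∃ N : ℕ, ∀ n : ℕ, N ≤ n →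
      ∀ (χ : Fin n → Bool) (M : Fin n → Fin n → Bool) (H : Finset (Finset (Fin n))),
        (∀ e ∈ H, e.card = 4) → 11 / 16 - η ≤ e4 (G0 χ M) →
        ((symmDiff H (G0 χ M)).card : ℝ) ≤ η * (n : ℝ) ^ 4 → ∀ x : Fin n,
        -(δ * (n : ℝ) ^ 5) ≤ ∑ t : Fin 5 → Fin n, ((V (xv χ M (lk H x) t) : ℤ) : ℝ) +
          p * (n * ((k5x H x : ℕ) : ℝ)) := by
  intro δ hδ
  obtain ⟨B, hB0, hB⟩ := XW.bound (fun D : XW 5 => ∑ σ : Equiv.Perm (Fin 5), V (D.sub σ) +
    p * k5n D - ∑ σ : Equiv.Perm (Fin 5), Z (D.sub σ))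
  obtain ⟨η, hη, N, hN⟩ := hZ.sym δ hδ
  obtain ⟨N2, hN2⟩ := n4_aux (C := 10 * B + 50 * p) (δ := δ) hδ
  set η' : ℝ := δ / (120 * (p + 1)) with hη'
  have hη'0 : 0 < η' := by
    rw [hη']
    positivity
  refine ⟨min η η', lt_min hη hη'0, max N N2, fun n hn χ M H h4 hd hx x => ?_⟩
  have h1 := hN n (le_trans (le_max_left _ _) hn) χ M
    (le_trans (by linarith [min_le_left η η']) hd) (lk H x)
  have h2 := hN2 n (le_trans (le_max_right _ _) hn)
  have h3 := sum_k5n_le χ M H h4 x
  have hp0 : (0 : ℝ) ≤ p := Nat.cast_nonneg p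
  have hn0 : (0 : ℝ) ≤ n := Nat.cast_nonneg n
  -- the sum of the nonnegative function
  have h5 : -(B * (10 * (n : ℝ) ^ 4)) ≤ ∑ t : Fin 5 → Fin n,
      (((∑ σ : Equiv.Perm (Fin 5), V ((xv χ M (lk H x) t).sub σ) +
        p * k5n (xv χ M (lk H x) t) - ∑ σ : Equiv.Perm (Fin 5),
          Z ((xv χ M (lk H x) t).sub σ) : ℤ)) : ℝ) := by
    have h6 : ∀ t : Fin 5 → Fin n, -(B * (if ¬Function.Injective t then (1 : ℝ) else 0)) ≤
        (((∑ σ : Equiv.Perm (Fin 5), V ((xv χ M (lk H x) t).sub σ) +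
          p * k5n (xv χ M (lk H x) t) - ∑ σ : Equiv.Perm (Fin 5),
            Z ((xv χ M (lk H x) t).sub σ) : ℤ)) : ℝ) := by
      intro t
      by_cases ht : Function.Injective t
      · rw [if_neg (not_not.mpr ht), mul_zero, neg_zero]
        have h7 := hrow _ (vr0_of χ M H x t ht)
        have h8 : (0 : ℤ) ≤ ∑ σ : Equiv.Perm (Fin 5), V ((xv χ M (lk H x) t).sub σ) +
          p * k5n (xv χ M (lk H x) t) - ∑ σ : Equiv.Perm (Fin 5),
            Z ((xv χ M (lk H x) t).sub σ) := by linarith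
        exact_mod_cast h8
      · rw [if_pos ht, mul_one]
        exact (abs_le.mp (hB (xv χ M (lk H x) t))).1
    refine le_trans ?_ (Finset.sum_le_sum fun t _ => h6 t)
    rw [Finset.sum_neg_distrib, ← Finset.mul_sum]
    have h7 := mul_le_mul_of_nonneg_left (sum_noninj_le (n := n)) hB0
    linarith
  have e2 : ∑ t : Fin 5 → Fin n, (((∑ σ : Equiv.Perm (Fin 5),
      V ((xv χ M (lk H x) t).sub σ) + p * k5n (xv χ M (lk H x) t) -
        ∑ σ : Equiv.Perm (Fin 5), Z ((xv χ M (lk H x) t).sub σ) : ℤ)) : ℝ) =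
      120 * ∑ t : Fin 5 → Fin n, ((V (xv χ M (lk H x) t) : ℤ) : ℝ) +
      p * ∑ t : Fin 5 → Fin n, ((k5n (xv χ M (lk H x) t) : ℕ) : ℝ) -
      ∑ t : Fin 5 → Fin n, (((∑ σ : Equiv.Perm (Fin 5),
        Z ((xv χ M (lk H x) t).sub σ) : ℤ)) : ℝ) := by
    have e3 : ∑ t : Fin 5 → Fin n, (((∑ σ : Equiv.Perm (Fin 5),
        V ((xv χ M (lk H x) t).sub σ) : ℤ)) : ℝ) =
        120 * ∑ t : Fin 5 → Fin n, ((V (xv χ M (lk H x) t) : ℤ) : ℝ) := by
      have e4 : ∀ σ : Equiv.Perm (Fin 5), ∑ t : Fin 5 → Fin n,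
          ((V ((xv χ M (lk H x) t).sub σ) : ℤ) : ℝ) =
          ∑ t : Fin 5 → Fin n, ((V (xv χ M (lk H x) t) : ℤ) : ℝ) := by
        intro σ
        have h6 := (Equiv.arrowCongr σ.symm (Equiv.refl (Fin n))).sum_comp
          (fun t : Fin 5 → Fin n => ((V (xv χ M (lk H x) t) : ℤ) : ℝ))
        rw [← h6]
        refine Finset.sum_congr rfl fun t _ => ?_
        have e : (Equiv.arrowCongr σ.symm (Equiv.refl (Fin n))) t = t ∘ σ := rfl
        rw [e, xv_comp χ M _ t σ σ.injective]
      push_cast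
      rw [Finset.sum_comm, Finset.sum_congr rfl fun σ _ => e4 σ, Finset.sum_const,
        Finset.card_univ, Fintype.card_perm, Fintype.card_fin, nsmul_eq_mul]
      norm_num [Nat.factorial]
    rw [← e3, Finset.mul_sum, ← Finset.sum_add_distrib, ← Finset.sum_sub_distrib]
    refine Finset.sum_congr rfl fun t _ => ?_
    push_cast
    ring
  rw [e2] at h5
  have h7 := mul_le_mul_of_nonneg_left h3 hp0
  have h8 : p * (120 * (n * ((symmDiff H (G0 χ M)).card : ℝ))) ≤ δ * (n : ℝ) ^ 5 := by
    have hx' : ((symmDiff H (G0 χ M)).card : ℝ) ≤ η' * (n : ℝ) ^ 4 :=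
      le_trans hx (mul_le_mul_of_nonneg_right (min_le_right _ _) (by positivity))
    have h9 : n * ((symmDiff H (G0 χ M)).card : ℝ) ≤ n * (η' * (n : ℝ) ^ 4) :=
      mul_le_mul_of_nonneg_left hx' hn0
    have h10 : p * (120 * (n * ((symmDiff H (G0 χ M)).card : ℝ))) ≤
        p * (120 * (n * (η' * (n : ℝ) ^ 4))) := by
      refine mul_le_mul_of_nonneg_left ?_ hp0
      linarith
    refine le_trans h10 ?_
    have e1 : p * (120 * (n * (η' * (n : ℝ) ^ 4))) = (120 * (p * η')) * (n : ℝ) ^ 5 := by ring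
    rw [e1]
    refine mul_le_mul_of_nonneg_right ?_ (by positivity)
    have h11 : p * η' ≤ δ / 120 := by
      rw [hη', mul_div_assoc', div_le_div_iff₀ (by positivity) (by norm_num)]
      nlinarith
    linarith
  have e6 : p * (120 * (n * ((k5x H x : ℕ) : ℝ)) + 120 * (n * ((symmDiff H (G0 χ M)).card : ℝ)) +
        50 * (n : ℝ) ^ 4) = 120 * (p * (n * ((k5x H x : ℕ) : ℝ))) +
        p * (120 * (n * ((symmDiff H (G0 χ M)).card : ℝ))) + p * (50 * (n : ℝ) ^ 4) := by ring
  rw [e6] at h7
  have h12 : 0 ≤ δ * (n : ℝ) ^ 5 := by positivity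
  nlinarith [h1, h2, h5, h7, h8, h12]

end Pool.Agent.Lib.MP_afdd4d_co.K9.Star.Tw
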