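import Pool.Agent.Lib.MP_afdd4d_co.K9.TwVP

/-!
# Representatives of the windows at one vertex

The data of a window of five vertices are given by a number for the colours, a number for the
quadruples and a number for the triples. Up to a permutation of the vertices there are eight
possibilities for the colours and the quadruples.
-/

namespace Pool.Agent.Lib.MP_afdd4d_co.K9.Star.Tw.W5

open Finset K8

set_option maxRecDepth 100000

/-- The number of the image of a set. -/
def mj {k : ℕ} (j : Fin k → Fin 5) (S : Finset (Fin k)) : ℕ := ∑ i ∈ S, 2 ^ (j i).val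

/-- The data given by three numbers. -/
def dx {k : ℕ} (c e l : ℕ) (j : Fin k → Fin 5) : XW k :=
  ⟨fun i => c.testBit (j i).val, fun S => decide (S.card = 4) && e.testBit (mj j S),
    fun S => decide (S.card = 3) && l.testBit (mj j S)⟩

theorem mj_image {k m : ℕ} (j : Fin k → Fin 5) (i : Fin m → Fin k) (hi : Function.Injective i)
    (S : Finset (Fin m)) : mj j (S.image i) = mj (j ∘ i) S := by
  unfold mj
  rw [Finset.sum_image fun a _ b _ h => hi h]
  rfl

theorem dx_sub {k m : ℕ} (c e l : ℕ) (j : Fin k → Fin 5) (i : Fin m → Fin k)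
    (hi : Function.Injective i) : (dx c e l j).sub i = dx c e l (j ∘ i) := by
  unfold dx XW.sub
  congr 1
  · funext S
    show (decide ((S.image i).card = 4) && e.testBit (mj j (S.image i))) = _
    rw [Finset.card_image_of_injective _ hi, mj_image j i hi]
  · funext S
    show (decide ((S.image i).card = 3) && l.testBit (mj j (S.image i))) = _
    rw [Finset.card_image_of_injective _ hi, mj_image j i hi]

/-! ### Codes of permutations -/

/-- The digit of a code. -/
def dn5 (N a : ℕ) : ℕ := Nat.mod (Nat.shiftRight N (Nat.mul 3 a)) 8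

/-- The function of a code. -/
def dg5 (N : ℕ) (i : Fin 5) : Fin 5 := Fin.ofNat 5 (dn5 N i.val)

/-- Numbers that are different from each other and are not bits of `s`. -/
def nd5 : List ℕ → ℕ → Bool
  | [], _ => true
  | a :: l, s => (!s.testBit a) && nd5 l (s ||| 2 ^ a)

theorem nd5_spec : ∀ (l : List ℕ) (s : ℕ), nd5 l s = true →
    l.Nodup ∧ ∀ a ∈ l, s.testBit a = false
  | [], _, _ => ⟨List.nodup_nil, fun _ h => by cases h⟩
  | a :: l, s, h => by
    rw [nd5, Bool.and_eq_true] at h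
    obtain ⟨h1, h2⟩ := nd5_spec l (s ||| 2 ^ a) h.2
    have h3 : ∀ b ∈ l, s.testBit b = false ∧ b ≠ a := by
      intro b hb
      have h4 := h2 b hb
      rw [Nat.testBit_or, Bool.or_eq_false_iff, Nat.testBit_two_pow] at h4
      exact ⟨h4.1, fun e => of_decide_eq_false h4.2 e.symm⟩
    refine ⟨List.nodup_cons.mpr ⟨fun ha => (h3 a ha).2 rfl, h1⟩, fun b hb => ?_⟩
    rcases List.mem_cons.mp hb with rfl | hb
    · simpa using h.1
    · exact (h3 b hb).1

/-- The check that a number is the code of a permutation. -/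
def ij5 (N : ℕ) : Bool := Nat.blt N 32768 && ((Nat.blt (dn5 N 0) 5 && (Nat.blt (dn5 N 1) 5 &&
  (Nat.blt (dn5 N 2) 5 && (Nat.blt (dn5 N 3) 5 && Nat.blt (dn5 N 4) 5)))) &&
  nd5 [dn5 N 0, dn5 N 1, dn5 N 2, dn5 N 3, dn5 N 4] 0)

theorem ij5_spec (N : ℕ) (h : ij5 N = true) :
    N < 32768 ∧ (∀ a : Fin 5, dn5 N a.val < 5) ∧ Function.Injective (dg5 N) := by
  unfold ij5 at h
  simp only [Bool.and_eq_true, Nat.blt_eq] at h
  obtain ⟨h0, ⟨h1, h2, h3, h4, h5⟩, h6⟩ := h
  have h7 : ∀ a : Fin 5, dn5 N a.val < 5 := by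
    intro a
    fin_cases a <;> assumption
  refine ⟨h0, h7, fun a b hab => ?_⟩
  have h8 := (nd5_spec _ _ h6).1
  have h9 : [dn5 N 0, dn5 N 1, dn5 N 2, dn5 N 3, dn5 N 4] =
      List.ofFn fun i : Fin 5 => dn5 N i.val := by
    simp [List.ofFn_succ]
  rw [h9, List.nodup_ofFn] at h8
  apply h8
  have h10 := congrArg Fin.val hab
  unfold dg5 at h10
  rwa [Fin.val_ofNat, Fin.val_ofNat, Nat.mod_eq_of_lt (h7 a), Nat.mod_eq_of_lt (h7 b)] at h10

/-- The permutation of a code. -/
noncomputable def pm5 (N : ℕ) : Equiv.Perm (Fin 5) :=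
  open Classical in if h : Function.Bijective (dg5 N) then Equiv.ofBijective _ h else 1

theorem pm5_eq (N : ℕ) (h : Function.Injective (dg5 N)) : (pm5 N : Fin 5 → Fin 5) = dg5 N := by
  have hb : Function.Bijective (dg5 N) := Finite.injective_iff_bijective.mp h
  unfold pm5
  rw [dif_pos hb]
  rfl

theorem dg5_inj {N N' : ℕ} (h : N < 32768) (h' : N' < 32768) (hd : ∀ a : Fin 5, dn5 N a.val < 5)
    (hd' : ∀ a : Fin 5, dn5 N' a.val < 5) (e : dg5 N = dg5 N') : N = N' := by
  have h1 : ∀ a : Fin 5, dn5 N a.val = dn5 N' a.val := by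
    intro a
    have h2 := congrArg Fin.val (congrFun e a)
    unfold dg5 at h2
    rwa [Fin.val_ofNat, Fin.val_ofNat, Nat.mod_eq_of_lt (hd a), Nat.mod_eq_of_lt (hd' a)] at h2
  have h3 : ∀ a : Fin 5, N / 2 ^ (3 * a.val) % 8 = N' / 2 ^ (3 * a.val) % 8 := by
    intro a
    have h4 := h1 a
    unfold dn5 at h4
    have h5 : ∀ x y : ℕ, Nat.mod (Nat.shiftRight x (Nat.mul 3 y)) 8 = x / 2 ^ (3 * y) % 8 := by
      intro x y
      show (x >>> (3 * y)) % 8 = _
      rw [Nat.shiftRight_eq_div_pow]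
    rwa [h5, h5] at h4
  have g0 := h3 0
  have g1 := h3 1
  have g2 := h3 2
  have g3 := h3 3
  have g4 := h3 4
  norm_num at g0 g1 g2 g3 g4
  omega

/-- The check that a list is the list of the codes of all permutations. -/
def okC5 (l : List ℕ) : Bool := Nat.beq l.length 120 && (nd5 l 0 && l.all ij5)

/-- The sum over all permutations. -/
theorem sum_codes5 (l : List ℕ) (h : okC5 l = true) (F : (Fin 5 → Fin 5) → ℤ) :
    ∑ σ : Equiv.Perm (Fin 5), F σ = (l.map fun N => F (dg5 N)).sum := by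
  rw [okC5, Bool.and_eq_true, Bool.and_eq_true] at h
  obtain ⟨h1, h2, h3⟩ := h
  have h1 := Nat.eq_of_beq_eq_true h1
  have h2 := (nd5_spec l 0 h2).1
  have h3 : ∀ N ∈ l, N < 32768 ∧ (∀ a : Fin 5, dn5 N a.val < 5) ∧ Function.Injective (dg5 N) :=
    fun N hN => ij5_spec N (List.all_eq_true.mp h3 N hN)
  have hinj : Set.InjOn pm5 (l.toFinset : Set ℕ) := by
    intro N hN N' hN' e
    have hN : N ∈ l := by simpa using hN
    have hN' : N' ∈ l := by simpa using hN'
    have e2 : (pm5 N : Fin 5 → Fin 5) = pm5 N' := by rw [e]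
    rw [pm5_eq N (h3 N hN).2.2, pm5_eq N' (h3 N' hN').2.2] at e2
    exact dg5_inj (h3 N hN).1 (h3 N' hN').1 (h3 N hN).2.1 (h3 N' hN').2.1 e2
  have hu : l.toFinset.image pm5 = univ := by
    apply Finset.eq_univ_of_card
    rw [Finset.card_image_of_injOn hinj, List.toFinset_card_of_nodup h2, h1, Fintype.card_perm,
      Fintype.card_fin]
    rfl
  rw [← hu, Finset.sum_image hinj, List.sum_toFinset _ h2]
  refine congrArg List.sum (List.map_congr_left fun N hN => ?_)
  rw [pm5_eq N (h3 N hN).2.2]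

/-- The codes of the permutations. -/
def pmL : List ℕ := [18056, 14472, 17608, 10440, 13576, 9992, 18000, 14416, 17104, 6352, 13072, 5904, 17496, 10328,
  17048, 6296, 8984, 5400, 13408, 9824, 12960, 5792, 8928, 5344, 18049, 14465, 17601, 10433, 13569,
  9985, 17937, 14353, 16593, 2257, 12561, 1809, 17433, 10265, 16537, 2201, 8473, 1305, 13345, 9761,
  12449, 1697, 8417, 1249, 17986, 14402, 17090, 6338, 13058, 5890, 17930, 14346, 16586, 2250,
  12554, 1802, 16922, 6170, 16474, 2138, 4378, 794, 12834, 5666, 12386, 1634, 4322, 738, 17475,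
  10307, 17027, 6275, 8963, 5379, 17419, 10251, 16523, 2187, 8459, 1291, 16915, 6163, 16467, 2131,
  4371, 787, 8739, 5155, 8291, 1123, 4259, 675, 13380, 9796, 12932, 5764, 8900, 5316, 13324, 9740,
  12428, 1676, 8396, 1228, 12820, 5652, 12372, 1620, 4308, 724, 8732, 5148, 8284, 1116, 4252, 668]

theorem pmL_ok : okC5 pmL = true := by decide +kernel

/-! ### The representatives -/

/-- Sorted colourings. -/
def cS (k : ℕ) : ℕ := nthG 0 [0, 16, 24, 28, 30, 31] k

/-- The codes of the permutations that sort the colours. -/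
def srtL : List ℕ := [18056, 2257, 6352, 4378, 10440, 8473, 8984, 8739, 14472, 12561, 13072, 12834, 13576, 13345,
  13408, 13380, 18056, 16593, 17104, 16922, 17608, 17433, 17496, 17475, 18056, 17937, 18000, 17986,
  18056, 18049, 18056, 18056]

theorem srt_all : ∀ c < 32, ij5 (nthG 0 srtL c) = true ∧ ∃ k < 6, ∀ i : Fin 5,
    c.testBit (dg5 (nthG 0 srtL c) i).val = (cS k).testBit i.val := by decide +kernel

theorem sort5 (c : Fin 5 → Bool) : ∃ σ : Equiv.Perm (Fin 5), ∃ k < 6, ∀ i, c (σ i) =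
    (cS k).testBit i.val := by
  have h0 : ∀ i : Fin 5, (idx 5 fun r => c (Fin.ofNat 5 r)).testBit i.val = c i := by
    intro i
    rw [testBit_idx]
    have : (Fin.ofNat 5 i.val : Fin 5) = i := by
      apply Fin.ext
      rw [Fin.val_ofNat]
      exact Nat.mod_eq_of_lt i.isLt
    rw [this, decide_eq_true i.isLt, Bool.true_and]
  obtain ⟨h1, k, hk, h2⟩ := srt_all (idx 5 fun r => c (Fin.ofNat 5 r)) (idx_lt 5 _)
  have h3 := (ij5_spec _ h1).2.2
  refine ⟨pm5 (nthG 0 srtL (idx 5 fun r => c (Fin.ofNat 5 r))), k, hk, fun i => ?_⟩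
  rw [pm5_eq _ h3, ← h2 i, h0]

/-- Pairs in normal form. -/
def mmk (k : ℕ) (x0 x1 : Bool) (a b : Fin 5) : Bool :=
  (Nat.beq k 2 && ((Nat.beq a.val 1 && (Nat.beq b.val 4 && x0)) ||
    (Nat.beq a.val 2 && (Nat.beq b.val 4 && x1)))) ||
  (Nat.beq k 3 && ((Nat.beq a.val 1 && (Nat.beq b.val 3 && x0)) ||
    (Nat.beq a.val 1 && (Nat.beq b.val 4 && x1))))

theorem eL_gg {k : ℕ} (c : Fin k → Bool) (m m' : Fin k → Fin k → Bool) (a0 b0 : Fin k)
    (h : ∀ a b, c a = false → c b = true →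
      (m a b ^^ (m a b0 ^^ (m a0 b ^^ m a0 b0))) = m' a b) : eL c m = eL c m' := by
  rw [← eL_gauge c m (fun a => m a b0) fun b => m a0 b ^^ m a0 b0]
  exact eL_congr c _ _ h

theorem eL_nf (k : ℕ) (hk : k < 6) (m : Fin 5 → Fin 5 → Bool) : ∃ x0 x1,
    eL (fun i => (cS k).testBit i.val) m = eL (fun i => (cS k).testBit i.val) (mmk k x0 x1) := by
  have h1 : ∀ x0 x1, mmk 2 x0 x1 1 4 = x0 := by decide
  have h2 : ∀ x0 x1, mmk 2 x0 x1 2 4 = x1 := by decide
  have h3 : ∀ x0 x1, mmk 3 x0 x1 1 3 = x0 := by decide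
  have h4 : ∀ x0 x1, mmk 3 x0 x1 1 4 = x1 := by decide
  interval_cases k
  · refine ⟨false, false, eL_gg _ _ _ 0 0 fun a b ha hb => ?_⟩
    fin_cases b <;> exact absurd hb (by decide)
  · refine ⟨false, false, eL_gg _ _ _ 0 4 fun a b ha hb => ?_⟩
    fin_cases a <;> fin_cases b <;> first
      | exact absurd ha (by decide)
      | exact absurd hb (by decide)
      | exact (h1 _ _).symm
      | exact (h2 _ _).symm
      | exact (h3 _ _).symm
      | exact (h4 _ _).symm
      | (simp [mmk]; done)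
      | (simp [mmk, Bool.xor_comm, Bool.xor_left_comm]; done)
  · refine ⟨m 1 4 ^^ (m 1 3 ^^ (m 0 4 ^^ m 0 3)), m 2 4 ^^ (m 2 3 ^^ (m 0 4 ^^ m 0 3)),
      eL_gg _ _ _ 0 3 fun a b ha hb => ?_⟩
    fin_cases a <;> fin_cases b <;> first
      | exact absurd ha (by decide)
      | exact absurd hb (by decide)
      | exact (h1 _ _).symm
      | exact (h2 _ _).symm
      | exact (h3 _ _).symm
      | exact (h4 _ _).symm
      | (simp [mmk]; done)
      | (simp [mmk, Bool.xor_comm, Bool.xor_left_comm]; done)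
  · refine ⟨m 1 3 ^^ (m 1 2 ^^ (m 0 3 ^^ m 0 2)), m 1 4 ^^ (m 1 2 ^^ (m 0 4 ^^ m 0 2)),
      eL_gg _ _ _ 0 2 fun a b ha hb => ?_⟩
    fin_cases a <;> fin_cases b <;> first
      | exact absurd ha (by decide)
      | exact absurd hb (by decide)
      | exact (h1 _ _).symm
      | exact (h2 _ _).symm
      | exact (h3 _ _).symm
      | exact (h4 _ _).symm
      | (simp [mmk]; done)
      | (simp [mmk, Bool.xor_comm, Bool.xor_left_comm]; done)
  · refine ⟨false, false, eL_gg _ _ _ 0 1 fun a b ha hb => ?_⟩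
    fin_cases a <;> fin_cases b <;> first
      | exact absurd ha (by decide)
      | exact absurd hb (by decide)
      | exact (h1 _ _).symm
      | exact (h2 _ _).symm
      | exact (h3 _ _).symm
      | exact (h4 _ _).symm
      | (simp [mmk]; done)
      | (simp [mmk, Bool.xor_comm, Bool.xor_left_comm]; done)
  · refine ⟨false, false, eL_gg _ _ _ 0 0 fun a b ha hb => ?_⟩
    fin_cases a <;> exact absurd ha (by decide)

/-- The colours of the representatives. -/
def cR (r : ℕ) : ℕ := nthG 0 [0, 16, 24, 24, 28, 28, 30, 31] r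

/-- The quadruples of the representatives. -/
def eR (r : ℕ) : ℕ := nthG 0 [0, 1753219072, 8421376, 679510016, 1610612736, 1619034112, 679510016, 0] r

/-- The code of the permutation and the number of the representative. -/
def tNr (k : ℕ) (x0 x1 : Bool) : ℕ × ℕ :=
  if k = 0 then (18056, 0) else if k = 1 then (18056, 1) else
  if k = 2 then (bif x0 then (bif x1 then (18056, 3) else (18049, 3)) else
    (bif x1 then (17930, 3) else (18056, 2))) else
  if k = 3 then (bif x0 then (bif x1 then (18056, 5) else (17608, 5)) else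
    (bif x1 then (9992, 5) else (18056, 4))) else
  if k = 4 then (18056, 6) else (18056, 7)

theorem tNr_all : ∀ k < 6, ∀ x0 x1 : Bool, ij5 (tNr k x0 x1).1 = true ∧ (tNr k x0 x1).2 < 8 ∧
    (∀ i : Fin 5, (cS k).testBit (dg5 (tNr k x0 x1).1 i).val =
      (cR (tNr k x0 x1).2).testBit i.val) ∧
    ∀ S : Finset (Fin 5), eL (fun i : Fin 5 => (cS k).testBit i.val) (mmk k x0 x1)
      (S.image (dg5 (tNr k x0 x1).1)) =
      (decide (S.card = 4) && (eR (tNr k x0 x1).2).testBit (mj id S)) := by decide +kernel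

/-- The masks of the triples. -/
def tmL : List ℕ := [7, 11, 13, 14, 19, 21, 22, 25, 26, 28]

/-- The number of a set of triples, with a bit for every mask. -/
def spG (L : ℕ) : ℕ :=
  Nat.add (Nat.mul (Nat.mod L 2) 128)
  (Nat.add (Nat.mul (Nat.mod (Nat.shiftRight L 1) 2) 2048)
  (Nat.add (Nat.mul (Nat.mod (Nat.shiftRight L 2) 2) 8192)
  (Nat.add (Nat.mul (Nat.mod (Nat.shiftRight L 3) 2) 16384)
  (Nat.add (Nat.mul (Nat.mod (Nat.shiftRight L 4) 2) 524288)
  (Nat.add (Nat.mul (Nat.mod (Nat.shiftRight L 5) 2) 2097152)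
  (Nat.add (Nat.mul (Nat.mod (Nat.shiftRight L 6) 2) 4194304)
  (Nat.add (Nat.mul (Nat.mod (Nat.shiftRight L 7) 2) 33554432)
  (Nat.add (Nat.mul (Nat.mod (Nat.shiftRight L 8) 2) 67108864)
  (Nat.mul (Nat.mod (Nat.shiftRight L 9) 2) 268435456)))))))))

theorem spG_all : ∀ L < 1024, ∀ r < 10, (spG L).testBit (nthG 0 tmL r) = L.testBit r := by
  decide +kernel

/-- The set with a given mask. -/
def sm (m : ℕ) : Finset (Fin 5) := univ.filter fun i => m.testBit i.val

theorem sm_all : ∀ S : Finset (Fin 5), S.card = 3 → ∃ r < 10, mj id S = nthG 0 tmL r ∧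
    sm (nthG 0 tmL r) = S := by decide +kernel

/-- Every window is a permutation of a representative. -/
theorem cover (D : XW 5) (h : VR0 D) : ∃ σ : Equiv.Perm (Fin 5), ∃ r < 8, ∃ L < 1024,
    D.sub σ = dx (cR r) (eR r) (spG L) id := by
  obtain ⟨m, hm⟩ := h.e
  obtain ⟨σ1, k, hk, h1⟩ := sort5 D.c
  obtain ⟨x0, x1, h2⟩ := eL_nf k hk fun a b => m (σ1 a) (σ1 b)
  obtain ⟨h3, h4, h5, h6⟩ := tNr_all k hk x0 x1
  have h7 := (ij5_spec _ h3).2.2
  set σ2 := pm5 (tNr k x0 x1).1 with hσ2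
  have h8 : (σ2 : Fin 5 → Fin 5) = dg5 (tNr k x0 x1).1 := pm5_eq _ h7
  have hc : (fun i => D.c (σ1 i)) = fun i : Fin 5 => (cS k).testBit i.val := funext h1
  refine ⟨σ2.trans σ1, (tNr k x0 x1).2, h4,
    idx 10 fun r => D.l ((sm (nthG 0 tmL r)).image (σ2.trans σ1)), idx_lt 10 _, ?_⟩
  have hE : ((σ2.trans σ1 : Equiv.Perm (Fin 5)) : Fin 5 → Fin 5) = σ1 ∘ σ2 := by
    funext i
    rfl
  unfold XW.sub dx
  congr 1
  · funext i
    show D.c (σ1 (σ2 i)) = _
    rw [h1, h8]
    exact h5 i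
  · funext S
    show D.e (S.image (σ2.trans σ1)) = _
    rw [hm, hE, ← Finset.image_image, eL_sub D.c m σ1 σ1.injective]
    have e1 : (D.c ∘ σ1) = fun i : Fin 5 => (cS k).testBit i.val := hc
    rw [e1, h2, h8]
    exact h6 S
  · funext S
    show D.l (S.image (σ2.trans σ1)) = _
    by_cases hS : S.card = 3
    · obtain ⟨r, hr, h9, h10⟩ := sm_all S hS
      rw [decide_eq_true hS, Bool.true_and, h9, spG_all _ (idx_lt 10 _) r hr, testBit_idx,
        decide_eq_true hr, Bool.true_and, h10]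
    · rw [decide_eq_false hS, Bool.false_and]
      apply h.l3
      rw [Finset.card_image_of_injective _ (σ2.trans σ1).injective]
      exact hS

/-- An invariant function that is nonnegative at the representatives is nonnegative. -/
theorem nonneg_of_reps (Φ : XW 5 → ℤ) (hΦ : ∀ (D : XW 5) (σ : Equiv.Perm (Fin 5)),
    Φ (D.sub σ) = Φ D) (h : ∀ r < 8, ∀ L < 1024, 0 ≤ Φ (dx (cR r) (eR r) (spG L) id))
    (D : XW 5) (hD : VR0 D) : 0 ≤ Φ D := by
  obtain ⟨σ, r, hr, L, hL, h1⟩ := cover D hD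
  rw [← hΦ D σ, h1]
  exact h r hr L hL

end Pool.Agent.Lib.MP_afdd4d_co.K9.Star.Tw.W5
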