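import Pool.Agent.Lib.MP_afdd4d_co.K9.TwX
import Pool.Agent.Lib.MP_afdd4d_co.K9.TwVC
import Pool.Agent.Lib.MP_afdd4d_co.VS.Seven

/-!
# The row of a window at one vertex in terms of numbers
-/

namespace Pool.Agent.Lib.MP_afdd4d_co.K9.Star.Tw.W5

open Finset K8

set_option maxRecDepth 100000

/-! ### Invariance -/

theorem img_symm (σ : Equiv.Perm (Fin 5)) (S : Finset (Fin 5)) :
    (S.image σ).image σ.symm = S := by
  rw [Finset.image_image, Equiv.symm_comp_self, Finset.image_id]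

theorem img_symm' (σ : Equiv.Perm (Fin 5)) (S : Finset (Fin 5)) :
    (S.image σ.symm).image σ = S := by
  rw [Finset.image_image, Equiv.self_comp_symm, Finset.image_id]

theorem mem_img {k : ℕ} (σ : Equiv.Perm (Fin 5)) {S : Finset (Fin 5)}
    (h : S ∈ (univ : Finset (Fin 5)).powersetCard k) :
    S.image σ ∈ (univ : Finset (Fin 5)).powersetCard k := by
  rw [Finset.mem_powersetCard] at h ⊢
  refine ⟨Finset.subset_univ _, ?_⟩
  rw [Finset.card_image_of_injective _ σ.injective]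
  exact h.2

theorem nl_sub (D : XW 5) (σ : Equiv.Perm (Fin 5)) : nl (D.sub σ) = nl D := by
  unfold nl
  refine Finset.sum_bij' (fun S _ => S.image σ) (fun S _ => S.image σ.symm)
    (fun S hS => mem_img σ hS) (fun S hS => mem_img σ.symm hS) (fun S _ => img_symm σ S)
    (fun S _ => img_symm' σ S) fun S _ => rfl

theorem k5n_sub (D : XW 5) (σ : Equiv.Perm (Fin 5)) : k5n (D.sub σ) = k5n D := by
  unfold k5n
  have key : ∀ S : Finset (Fin 5), (∀ T ∈ S.powersetCard 3, (D.sub σ).l T = true) ↔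
      ∀ T ∈ (S.image σ).powersetCard 3, D.l T = true := by
    intro S
    constructor
    · intro h T hT
      rw [Finset.mem_powersetCard] at hT
      have h1 := h (T.image σ.symm) (by
        rw [Finset.mem_powersetCard]
        constructor
        · have := Finset.image_subset_image (f := σ.symm) hT.1
          rwa [img_symm] at this
        · rw [Finset.card_image_of_injective _ σ.symm.injective]
          exact hT.2)
      have h2 : (D.sub σ).l (T.image σ.symm) = D.l ((T.image σ.symm).image σ) := rfl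
      rwa [h2, img_symm'] at h1
    · intro h T hT
      rw [Finset.mem_powersetCard] at hT
      refine h (T.image σ) ?_
      rw [Finset.mem_powersetCard]
      refine ⟨Finset.image_subset_image hT.1, ?_⟩
      rw [Finset.card_image_of_injective _ σ.injective]
      exact hT.2
  refine Finset.card_bij' (fun S _ => S.image σ) (fun S _ => S.image σ.symm) ?_ ?_
    (fun S _ => img_symm σ S) (fun S _ => img_symm' σ S)
  · intro S hS
    rw [Finset.mem_filter] at hS ⊢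
    exact ⟨mem_img σ hS.1, hS.2.1, (key S).mp hS.2.2⟩
  · intro S hS
    rw [Finset.mem_filter] at hS ⊢
    refine ⟨mem_img σ.symm hS.1, ?_, ?_⟩
    · show D.e ((S.image σ.symm).image σ) = true
      rw [img_symm']
      exact hS.2.1
    · rw [key, img_symm']
      exact hS.2.2

theorem fg_sub1 (D : XW 5) (σ : Equiv.Perm (Fin 5)) (h : VS.FG D.c D.e D.l univ) :
    VS.FG (D.sub σ).c (D.sub σ).e (D.sub σ).l univ := by
  have h3 : ∀ a b d : Fin 5, (D.sub σ).l {a, b, d} = D.l {σ a, σ b, σ d} := by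
    intro a b d
    show D.l (({a, b, d} : Finset (Fin 5)).image σ) = _
    rw [Finset.image_insert, Finset.image_insert, Finset.image_singleton]
  have h4 : ∀ a b d x : Fin 5, (D.sub σ).e {a, b, d, x} = D.e {σ a, σ b, σ d, σ x} := by
    intro a b d x
    show D.e (({a, b, d, x} : Finset (Fin 5)).image σ) = _
    rw [Finset.image_insert, Finset.image_insert, Finset.image_insert, Finset.image_singleton]
  have hc : ∀ a : Fin 5, (D.sub σ).c a = D.c (σ a) := fun a => rfl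
  have hn : ∀ {a b : Fin 5}, a ≠ b → σ a ≠ σ b := fun h => σ.injective.ne h
  have hu : ∀ a : Fin 5, a ∈ (univ : Finset (Fin 5)) := fun a => Finset.mem_univ a
  have hP : ∀ κ : Bool, VS.PK κ D.c D.l univ → VS.PK κ (D.sub σ).c (D.sub σ).l univ := by
    intro κ hκ
    refine ⟨?_, ?_⟩
    · intro u _ u' _ b _ b' _ h1 h2 h5 h6 h7 h8
      rw [h3, h3]
      exact hκ.1 _ (hu _) _ (hu _) _ (hu _) _ (hu _) (hn h1) (hn h2) h5 h6 h7 h8
    · intro b _ b' _ b'' _ h1 h2 h5 h6 h7 h8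
      rw [h3]
      exact hκ.2 _ (hu _) _ (hu _) _ (hu _) (hn h1) (hn h2) (hn h5) h6 h7 h8
  refine ⟨?_, h.2.imp (hP false) (hP true)⟩
  intro p _ q _ r _ s _ h1 h2 h5 h6 h7 h8
  rw [h3, h3, h3, h3, h4]
  exact h.1 _ (hu _) _ (hu _) _ (hu _) _ (hu _) (hn h1) (hn h2) (hn h5) (hn h6) (hn h7) (hn h8)

theorem fg_sub (D : XW 5) (σ : Equiv.Perm (Fin 5)) :
    VS.FG (D.sub σ).c (D.sub σ).e (D.sub σ).l univ ↔ VS.FG D.c D.e D.l univ := by
  refine ⟨fun h => ?_, fg_sub1 D σ⟩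
  have h1 := fg_sub1 (D.sub σ) σ.symm h
  rw [XW.sub_sub, Equiv.self_comp_symm, XW.sub_id] at h1
  exact h1

/-- The windows that are not flipped windows. -/
noncomputable def badW (D : XW 5) : Bool :=
  open Classical in if VS.FG D.c D.e D.l univ then false else true

theorem badW_sub (D : XW 5) (σ : Equiv.Perm (Fin 5)) : badW (D.sub σ) = badW D := by
  unfold badW
  rw [fg_sub]

theorem badW_false {D : XW 5} (h : VS.FG D.c D.e D.l univ) : badW D = false := by
  unfold badW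
  rw [if_pos h]

/-! ### The number of triples and of full quadruples -/

/-- A bit. -/
def bt (l m : ℕ) : ℕ := Nat.mod (Nat.shiftRight l m) 2

theorem bt_eq (l m : ℕ) : bt l m = (l.testBit m).toNat := by
  show (l >>> m) % 2 = _
  rw [Nat.testBit]
  rcases Nat.mod_two_eq_zero_or_one (l >>> m) with h | h
  · simp [h]
  · simp [h]

/-- The number of triples. -/
def nlG (l : ℕ) : ℕ := Nat.add (bt l 7) (Nat.add (bt l 11) (Nat.add (bt l 13) (Nat.add (bt l 14)
  (Nat.add (bt l 19) (Nat.add (bt l 21) (Nat.add (bt l 22) (Nat.add (bt l 25) (Nat.add (bt l 26)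
  (bt l 28)))))))))

theorem tri_list : (univ : Finset (Fin 5)).powersetCard 3 = (tmL.map sm).toFinset := by decide +kernel

theorem tri_nodup : (tmL.map sm).Nodup := by decide +kernel

theorem tri_mj : ∀ m ∈ tmL, (sm m).card = 3 ∧ mj id (sm m) = m := by decide +kernel

theorem nl_dx (c e l : ℕ) : nl (dx c e l id) = (nlG l : ℤ) := by
  unfold nl
  rw [tri_list, List.sum_toFinset _ tri_nodup, List.map_map]
  have h : ∀ m ∈ tmL, ((fun S => (((dx c e l id).l S).toNat : ℤ)) ∘ sm) m = (bt l m : ℤ) := by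
    intro m hm
    have h1 := tri_mj m hm
    show (((decide ((sm m).card = 3) && l.testBit (mj id (sm m))).toNat : ℕ) : ℤ) = _
    rw [h1.1, h1.2, bt_eq]
    rfl
  rw [List.map_congr_left h]
  have h2 : ((tmL.map fun m => (bt l m : ℤ)).sum) = ((bt l 7 : ℤ) + (bt l 11 + (bt l 13 +
    (bt l 14 + (bt l 19 + (bt l 21 + (bt l 22 + (bt l 25 + (bt l 26 + (bt l 28 + 0)))))))))) := rfl
  rw [h2]
  unfold nlG
  simp only [Nat.add_eq]
  push_cast
  ring

/-- The quadruples and their triples. -/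
def qdL : List (ℕ × (ℕ × ℕ × ℕ × ℕ)) := [(15, (7, 11, 13, 14)), (23, (7, 19, 21, 22)),
  (27, (11, 19, 25, 26)), (29, (13, 21, 25, 28)), (30, (14, 22, 26, 28))]

/-- The number of full quadruples. -/
def nfG (e l : ℕ) : ℕ := @List.rec (ℕ × (ℕ × ℕ × ℕ × ℕ)) (fun _ => ℕ) 0
  (fun q _ ih => Nat.add ih (Nat.mul (bt e q.1) (Nat.mul (bt l q.2.1) (Nat.mul (bt l q.2.2.1)
    (Nat.mul (bt l q.2.2.2.1) (bt l q.2.2.2.2)))))) qdL

theorem quad_list : (univ : Finset (Fin 5)).powersetCard 4 = (qdL.map fun q => sm q.1).toFinset := by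
  decide +kernel

theorem quad_nodup : (qdL.map fun q => sm q.1).Nodup := by decide +kernel

theorem quad_mj : ∀ q ∈ qdL, (sm q.1).card = 4 ∧ mj id (sm q.1) = q.1 ∧ (sm q.1).powersetCard 3 =
    {sm q.2.1, sm q.2.2.1, sm q.2.2.2.1, sm q.2.2.2.2} ∧ q.2.1 ∈ tmL ∧ q.2.2.1 ∈ tmL ∧
    q.2.2.2.1 ∈ tmL ∧ q.2.2.2.2 ∈ tmL := by decide +kernel

theorem nf_list (e l : ℕ) : ∀ L : List (ℕ × (ℕ × ℕ × ℕ × ℕ)), @List.rec (ℕ × (ℕ × ℕ × ℕ × ℕ))
    (fun _ => ℕ) 0 (fun q _ ih => Nat.add ih (Nat.mul (bt e q.1) (Nat.mul (bt l q.2.1)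
    (Nat.mul (bt l q.2.2.1) (Nat.mul (bt l q.2.2.2.1) (bt l q.2.2.2.2)))))) L =
    (L.map fun q => (bif e.testBit q.1 && (l.testBit q.2.1 && (l.testBit q.2.2.1 &&
      (l.testBit q.2.2.2.1 && l.testBit q.2.2.2.2))) then 1 else 0)).sum := by
  intro L
  induction L with
  | nil => rfl
  | cons q L ih =>
    rw [List.map_cons, List.sum_cons, ← ih, add_comm]
    refine congrArg₂ (fun x y : ℕ => x + y) rfl ?_
    simp only [bt_eq, Nat.mul_eq]
    cases e.testBit q.1 <;> cases l.testBit q.2.1 <;> cases l.testBit q.2.2.1 <;>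
      cases l.testBit q.2.2.2.1 <;> cases l.testBit q.2.2.2.2 <;> rfl

theorem k5n_dx (c e l : ℕ) : k5n (dx c e l id) = nfG e l := by
  unfold k5n nfG
  rw [nf_list, Finset.card_filter, quad_list, List.sum_toFinset _ quad_nodup, List.map_map]
  refine congrArg List.sum (List.map_congr_left fun q hq => ?_)
  obtain ⟨h1, h2, h3, h4, h5, h6, h7⟩ := quad_mj q hq
  have h8 : (dx c e l id).e (sm q.1) = e.testBit q.1 := by
    show (decide ((sm q.1).card = 4) && e.testBit (mj id (sm q.1))) = _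
    rw [h1, h2]
    rfl
  have h9 : ∀ m ∈ tmL, (dx c e l id).l (sm m) = l.testBit m := by
    intro m hm
    have h10 := tri_mj m hm
    show (decide ((sm m).card = 3) && l.testBit (mj id (sm m))) = _
    rw [h10.1, h10.2]
    rfl
  show (if ((dx c e l id).e (sm q.1) = true ∧ ∀ T ∈ (sm q.1).powersetCard 3,
    (dx c e l id).l T = true) then 1 else 0) = _
  rw [h8, h3]
  simp only [Finset.mem_insert, Finset.mem_singleton, forall_eq_or_imp, forall_eq, h9 _ h4, h9 _ h5,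
    h9 _ h6, h9 _ h7]
  cases e.testBit q.1 <;> cases l.testBit q.2.1 <;> cases l.testBit q.2.2.1 <;>
    cases l.testBit q.2.2.2.1 <;> cases l.testBit q.2.2.2.2 <;> rfl

/-! ### Flipped windows -/

/-- The check of the own colour. -/
def pkG (κ : Bool) (c l : ℕ) : Bool :=
  decide (∀ u u' b b' : Fin 5, u ≠ u' → b ≠ b' → c.testBit u.val = κ → c.testBit u'.val = κ →
    c.testBit b.val = (!κ) → c.testBit b'.val = (!κ) →
    l.testBit (m3 u u' b) = l.testBit (m3 u u' b')) &&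
  decide (∀ b b' b'' : Fin 5, b ≠ b' → b ≠ b'' → b' ≠ b'' → c.testBit b.val = (!κ) →
    c.testBit b'.val = (!κ) → c.testBit b''.val = (!κ) → l.testBit (m3 b b' b'') = true)

/-- The check of the parity. -/
def evG (e l : ℕ) : Bool :=
  decide (∀ p q r s : Fin 5, (p ≠ q ∧ p ≠ r ∧ p ≠ s ∧ q ≠ r ∧ q ≠ s ∧ r ≠ s) →
    (l.testBit (m3 p q r) ^^ l.testBit (m3 p q s) ^^ l.testBit (m3 p r s) ^^
      l.testBit (m3 q r s)) = e.testBit (m4 p q r s))

/-- The check of a flipped window. -/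
def fgG (c e l : ℕ) : Bool := evG e l && (pkG false c l || pkG true c l)

theorem pkG_spec {κ : Bool} {c e l : ℕ} (h : pkG κ c l = true) :
    VS.PK κ (dx c e l (id : Fin 5 → Fin 5)).c (dx c e l (id : Fin 5 → Fin 5)).l univ := by
  unfold pkG at h
  rw [Bool.and_eq_true] at h
  have h1 := of_decide_eq_true h.1
  have h2 := of_decide_eq_true h.2
  have hne : ∀ {u b : Fin 5}, c.testBit u.val = κ → c.testBit b.val = (!κ) → u ≠ b := by
    intro u b h3 h4 h5
    rw [h5, h4] at h3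
    cases κ <;> cases h3
  refine ⟨?_, ?_⟩
  · intro u _ u' _ b _ b' _ h3 h4 h5 h6 h7 h8
    have g1 : u ≠ b := hne h5 h7
    have g2 : u' ≠ b := hne h6 h7
    have g3 : u ≠ b' := hne h5 h8
    have g4 : u' ≠ b' := hne h6 h8
    rw [dx_l c e l id h3 g1 g2, dx_l c e l id h3 g3 g4]
    exact h1 u u' b b' h3 h4 h5 h6 h7 h8
  · intro b _ b' _ b'' _ h3 h4 h5 h6 h7 h8
    rw [dx_l c e l id h3 h4 h5]
    exact h2 b b' b'' h3 h4 h5 h6 h7 h8

theorem fgG_spec {c e l : ℕ} (h : fgG c e l = true) :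
    VS.FG (dx c e l (id : Fin 5 → Fin 5)).c (dx c e l (id : Fin 5 → Fin 5)).e
      (dx c e l (id : Fin 5 → Fin 5)).l univ := by
  unfold fgG at h
  rw [Bool.and_eq_true, Bool.or_eq_true] at h
  refine ⟨?_, h.2.imp pkG_spec pkG_spec⟩
  have h1 := of_decide_eq_true h.1
  intro p _ q _ r _ s _ h2 h3 h4 h5 h6 h7
  have h8 : (dx c e l (id : Fin 5 → Fin 5)).e {p, q, r, s} = e.testBit (m4 p q r s) := by
    show (decide (({p, q, r, s} : Finset (Fin 5)).card = 4) && e.testBit (mj id {p, q, r, s})) = _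
    have h9 : ({p, q, r, s} : Finset (Fin 5)).card = 4 := by
      rw [Finset.card_insert_of_notMem (by simp [h2, h3, h4]),
        Finset.card_insert_of_notMem (by simp [h5, h6]), Finset.card_pair h7]
    have h10 : mj id ({p, q, r, s} : Finset (Fin 5)) = m4 p q r s := by
      unfold mj m4
      rw [Finset.sum_insert (by simp [h2, h3, h4]), Finset.sum_insert (by simp [h5, h6]),
        Finset.sum_pair h7]
      simp only [id]
      ring
    rw [h9, h10]
    rfl
  rw [dx_l c e l id h2 h3 h5, dx_l c e l id h2 h4 h6, dx_l c e l id h3 h4 h7, dx_l c e l id h5 h6 h7,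
    h8]
  exact h1 p q r s ⟨h2, h3, h4, h5, h6, h7⟩

/-! ### Lists -/

theorem sum_filter_map {α : Type} (p : ℕ → Bool) (g : ℕ → α) (f : α → ℤ) (F : ℕ → ℤ)
    (h : ∀ N, F N = bif p N then f (g N) else 0) : ∀ L : List ℕ,
    (L.map F).sum = (((L.filter p).map g).map f).sum
  | [] => rfl
  | N :: L => by
    rw [List.map_cons, List.sum_cons, sum_filter_map p g f F h L, h N]
    cases hp : p N
    · rw [List.filter_cons_of_neg (by rw [hp]; decide), cond_false, zero_add]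
    · rw [List.filter_cons_of_pos hp, List.map_cons, List.map_cons, List.sum_cons, cond_true]

/-- A sum over a list. -/
def sL {α : Type} (f : α → ℕ) (l : List α) : ℕ :=
  @List.rec α (fun _ => ℕ) 0 (fun a _ ih => Nat.add (f a) ih) l

theorem sL_eq {α : Type} (f : α → ℕ) (o : ℕ) : ∀ l : List α,
    (l.map fun a => (f a : ℤ) - o).sum = (sL f l : ℤ) - o * l.length
  | [] => by simp [sL]
  | a :: l => by
    rw [List.map_cons, List.sum_cons, sL_eq f o l]
    have h : sL f (a :: l) = f a + sL f l := rfl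
    rw [h, List.length_cons]
    push_cast
    ring

/-- The data of a term of the kernel. -/
structure KT where
  t : ℕ
  a1 : ℕ
  a2 : ℕ
  a3 : ℕ
  b1 : ℕ
  b2 : ℕ
  b3 : ℕ
  oa : ℕ
  ob : ℕ
deriving DecidableEq

/-- The data of a term of the columns. -/
structure ET where
  m1 : ℕ
  m2 : ℕ
  m3 : ℕ
  m4 : ℕ
  k : ℕ
  e : ℕ
  cy : ℕ
  ey : ℕ
deriving DecidableEq

/-- The windows with a term of the kernel. -/
def cdK (c : ℕ) (j : Fin 5 → Fin 5) : Bool :=
  (c.testBit (j 0).val == c.testBit (j 1).val) && (c.testBit (j 0).val != c.testBit (j 2).val)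

/-- The part of a code without the triples. -/
def ofX (c e : ℕ) (a b d x : Fin 5) : ℕ :=
  bif c.testBit x.val == c.testBit a.val then 0 else 8 + 8 * (e.testBit (m4 a b d x)).toNat

/-- The data of a term of the kernel of a window. -/
def ktX (c e : ℕ) (j : Fin 5 → Fin 5) : KT :=
  ⟨m3 (j 0) (j 1) (j 2), m3 (j 0) (j 1) (j 3), m3 (j 0) (j 2) (j 3), m3 (j 1) (j 2) (j 3),
    m3 (j 0) (j 1) (j 4), m3 (j 0) (j 2) (j 4), m3 (j 1) (j 2) (j 4),
    ofX c e (j 0) (j 1) (j 2) (j 3), ofX c e (j 0) (j 1) (j 2) (j 4)⟩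

/-- The code of three triples. -/
def tc (l o a b d : ℕ) : ℕ :=
  Nat.add o (Nat.add (Nat.mul 4 (bt l a)) (Nat.add (Nat.mul 2 (bt l b)) (bt l d)))

/-- The value of a term of the kernel. -/
noncomputable def evK (l : ℕ) (q : KT) : ℕ :=
  lnG 32 (nthG 0 (@Nat.rec (fun _ => List ℕ) R0 (fun _ _ => R1) (bt l q.t))
    (tc l q.oa q.a1 q.a2 q.a3)) (tc l q.ob q.b1 q.b2 q.b3)

theorem cdx_tc (c e l : ℕ) (a b d x : Fin 5) :
    cdx c e l a b d x = tc l (ofX c e a b d x) (m3 a b x) (m3 a d x) (m3 b d x) := by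
  unfold cdx tc ofX
  simp only [bt_eq, Nat.add_eq, Nat.mul_eq]
  ring

theorem me_rec (A B : List ℕ) (t : Bool) (x y : ℕ) :
    me 32 16384 (bif t then B else A) x y =
      (lnG 32 (nthG 0 (@Nat.rec (fun _ => List ℕ) A (fun _ _ => B) t.toNat) x) y : ℤ) -
        ((16384 : ℕ) : ℤ) := by
  unfold me
  rw [lnG_eq, nthG_eq]
  cases t <;> rfl

theorem evK_eq (l : ℕ) (q : KT) : (evK l q : ℤ) - ((16384 : ℕ) : ℤ) =
    me 32 16384 (bif l.testBit q.t then R1 else R0) (tc l q.oa q.a1 q.a2 q.a3)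
      (tc l q.ob q.b1 q.b2 q.b3) := by
  rw [me_rec, ← bt_eq, evK]

theorem kX_ev (c e l : ℕ) (j : Fin 5 → Fin 5) : kX.v (dx c e l j) =
    bif cdK c j then (evK l (ktX c e j) : ℤ) - ((16384 : ℕ) : ℤ) else 0 := by
  rw [kX_dx, evK_eq, cdx_tc, cdx_tc, Rt, cdK, ktX]

/-- The data of a term of the columns of a window. -/
def etX (c e : ℕ) (j : Fin 5 → Fin 5) : ET :=
  ⟨m3 (j 0) (j 1) (j 2), m3 (j 0) (j 1) (j 3), m3 (j 0) (j 2) (j 3), m3 (j 1) (j 2) (j 3),
    kn4 (c4x c j), (e.testBit (m4 (j 0) (j 1) (j 2) (j 3))).toNat, (c.testBit (j 4).val).toNat,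
    (e.testBit (m4 (j 1) (j 2) (j 3) (j 4))).toNat +
      2 * (e.testBit (m4 (j 0) (j 2) (j 3) (j 4))).toNat +
      4 * (e.testBit (m4 (j 0) (j 1) (j 3) (j 4))).toNat +
      8 * (e.testBit (m4 (j 0) (j 1) (j 2) (j 4))).toNat⟩

/-- The number of four triples. -/
def l4q (l : ℕ) (q : ET) : ℕ := Nat.add (Nat.mul 8 (bt l q.m1)) (Nat.add (Nat.mul 4 (bt l q.m2))
  (Nat.add (Nat.mul 2 (bt l q.m3)) (bt l q.m4)))

theorem l4x_q (c e l : ℕ) (j : Fin 5 → Fin 5) :
    l4x l (j 0) (j 1) (j 2) (j 3) = l4q l (etX c e j) := by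
  unfold l4x l4q etX
  simp only [bt_eq, Nat.add_eq, Nat.mul_eq]
  ring

theorem bt_le (l m : ℕ) : bt l m ≤ 1 := by
  rw [bt_eq]
  exact Bool.toNat_le _

theorem l4q_lt (l : ℕ) (q : ET) : l4q l q < 16 := by
  unfold l4q
  simp only [Nat.add_eq, Nat.mul_eq]
  have h1 := bt_le l q.m1
  have h2 := bt_le l q.m2
  have h3 := bt_le l q.m3
  have h4 := bt_le l q.m4
  omega

/-- The value of a term of the columns. -/
def evE (l : ℕ) (z : ET × ℕ) : ℕ := lnG 32 z.2 (l4q l z.1)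

/-- The check of the table of a term of the columns. -/
noncomputable def okT (z : ET × ℕ) : Bool := allN (fun x => Nat.beq
  (Nat.add (lnG 32 z.2 x) (lawN pv eyv z.1.k x z.1.e))
  (Nat.add (Nat.mul 32 (pv z.1.k x z.1.e z.1.cy z.1.ey)) 67108864)) 16

/-- The value of the columns on a window from the data. -/
def vE (P : ℕ → ℕ → ℕ → ℕ → ℕ → ℕ) (Y : ℕ → ℕ → ℕ → ℕ → ℕ) (l : ℕ) (q : ET) : ℤ :=
  32 * (P q.k (l4q l q) q.e q.cy q.ey : ℤ) - (lawN P Y q.k (l4q l q) q.e : ℤ)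

theorem okT_spec {z : ET × ℕ} (h : okT z = true) (l : ℕ) :
    vE pv eyv l z.1 = (evE l z : ℤ) - ((67108864 : ℕ) : ℤ) := by
  have h1 := Nat.eq_of_beq_eq_true (allN_spec _ _ h _ (l4q_lt l z.1))
  unfold evE vE
  generalize lnG 32 z.2 (l4q l z.1) = A at h1 ⊢
  generalize lawN pv eyv z.1.k (l4q l z.1) z.1.e = B at h1 ⊢
  generalize pv z.1.k (l4q l z.1) z.1.e z.1.cy z.1.ey = C at h1 ⊢
  have h2 : A + B = 32 * C + 67108864 := h1
  have h3 : ((A : ℕ) : ℤ) + B = 32 * C + 67108864 := by exact_mod_cast h2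
  push_cast
  linarith

theorem ext_ev (P : ℕ → ℕ → ℕ → ℕ → ℕ → ℕ) (Y : ℕ → ℕ → ℕ → ℕ → ℕ)
    (hY : ∀ k < 5, ∀ e cy : Bool, ∀ z < 16,
      e4n (eY (cS4 k) (mst (cS4 k) e) cy fun i => z.testBit i.val) = Y k e.toNat cy.toNat z)
    (c e l : ℕ) (j : Fin 5 → Fin 5) : extV (phV P) (dx c e l j) =
    bif srt4 (c4x c j) then vE P Y l (etX c e j) else 0 := by
  rw [ext_dx P Y hY, l4x_q c e l, vE]
  rfl

theorem sum_perm (c e l : ℕ) (F : XW 5 → ℤ) :
    ∑ σ : Equiv.Perm (Fin 5), F ((dx c e l id).sub σ) =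
      (pmL.map fun N => F (dx c e l (dg5 N))).sum := by
  rw [← sum_codes5 pmL pmL_ok fun j : Fin 5 → Fin 5 => F (dx c e l j)]
  refine Finset.sum_congr rfl fun σ _ => ?_
  rw [dx_sub c e l id _ σ.injective, Function.id_comp]

/-- The sum of the kernel over the permutations. -/
theorem sum_kX (c e l : ℕ) (K : List KT)
    (hK : ((pmL.filter fun N => cdK c (dg5 N)).map fun N => ktX c e (dg5 N)) = K) :
    ∑ σ : Equiv.Perm (Fin 5), kX.v ((dx c e l id).sub σ) =
      (sL (evK l) K : ℤ) - ((16384 : ℕ) : ℤ) * K.length := by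
  rw [sum_perm, sum_filter_map (fun N => cdK c (dg5 N)) (fun N => ktX c e (dg5 N))
      (fun q => (evK l q : ℤ) - ((16384 : ℕ) : ℤ)) _ (fun N => kX_ev c e l (dg5 N)), hK, sL_eq]

/-- The sum of the columns over the permutations. -/
theorem sum_eX (P : ℕ → ℕ → ℕ → ℕ → ℕ → ℕ) (Y : ℕ → ℕ → ℕ → ℕ → ℕ)
    (hY : ∀ k < 5, ∀ e cy : Bool, ∀ z < 16,
      e4n (eY (cS4 k) (mst (cS4 k) e) cy fun i => z.testBit i.val) = Y k e.toNat cy.toNat z)
    (c e l : ℕ) (E : List (ET × ℕ))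
    (hE : ((pmL.filter fun N => srt4 (c4x c (dg5 N))).map fun N => etX c e (dg5 N)) =
      E.map Prod.fst)
    (hT : ∀ z ∈ E, vE P Y l z.1 = (evE l z : ℤ) - ((67108864 : ℕ) : ℤ)) :
    ∑ σ : Equiv.Perm (Fin 5), extV (phV P) ((dx c e l id).sub σ) =
      (sL (evE l) E : ℤ) - ((67108864 : ℕ) : ℤ) * E.length := by
  rw [sum_perm, sum_filter_map (fun N => srt4 (c4x c (dg5 N))) (fun N => etX c e (dg5 N))
      (vE P Y l) _ (fun N => ext_ev P Y hY c e l (dg5 N)), hE, List.map_map, ← sL_eq]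
  exact congrArg List.sum (List.map_congr_left fun z hz => hT z hz)

end Pool.Agent.Lib.MP_afdd4d_co.K9.Star.Tw.W5
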