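import Pool.Agent.Lib.MP_afdd4d_co.K9.TwY

/-!
# The check of the rows of a representative
-/

namespace Pool.Agent.Lib.MP_afdd4d_co.K9.Star.Tw.W5

open Finset K8

set_option maxRecDepth 100000

/-- The sum of the kernel and the columns. -/
noncomputable def ZW (D : XW 5) : ℤ := ((1920 : ℕ) : ℤ) * kX.v D + extV (phV pv) D

theorem goodX_ZW : GoodX ZW := (GoodX.smul (goodX_ker3 kX) 1920).add (goodX_ext (phV pv))

/-- The row of a window. -/
noncomputable def PhW (D : XW 5) : ℤ :=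
  ∑ σ : Equiv.Perm (Fin 5), (((6144 : ℕ) : ℤ) * (110 - 16 * nl (D.sub σ)) -
    ((30720 : ℕ) : ℤ) * ((badW (D.sub σ)).toNat : ℤ)) + ((188743680 : ℕ) : ℤ) * k5n D -
    ∑ σ : Equiv.Perm (Fin 5), ZW (D.sub σ)

theorem sum_sub (F : XW 5 → ℤ) (D : XW 5) (τ : Equiv.Perm (Fin 5)) :
    ∑ σ : Equiv.Perm (Fin 5), F ((D.sub τ).sub σ) = ∑ σ : Equiv.Perm (Fin 5), F (D.sub σ) := by
  rw [← Equiv.sum_comp (Equiv.mulLeft τ) fun σ : Equiv.Perm (Fin 5) => F (D.sub σ)]
  refine Finset.sum_congr rfl fun σ _ => ?_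
  rw [XW.sub_sub]
  rfl

theorem PhW_sub (D : XW 5) (τ : Equiv.Perm (Fin 5)) : PhW (D.sub τ) = PhW D := by
  unfold PhW
  rw [sum_sub ZW D τ, sum_sub (fun D => ((6144 : ℕ) : ℤ) * (110 - 16 * nl D) -
    ((30720 : ℕ) : ℤ) * ((badW D).toNat : ℤ)) D τ, k5n_sub]

theorem PhW_eq (D : XW 5) : PhW D = 120 * (6144 * (110 - 16 * nl D) -
    30720 * ((badW D).toNat : ℤ)) + 188743680 * k5n D -
    (1920 * ∑ σ : Equiv.Perm (Fin 5), kX.v (D.sub σ) +
      ∑ σ : Equiv.Perm (Fin 5), extV (phV pv) (D.sub σ)) := by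
  unfold PhW ZW
  rw [Finset.sum_add_distrib, ← Finset.mul_sum]
  simp only [nl_sub, badW_sub]
  rw [Finset.sum_const, Finset.card_univ, Fintype.card_perm, Fintype.card_fin, nsmul_eq_mul]
  have h : Nat.factorial 5 = 120 := rfl
  rw [h]
  push_cast
  ring

/-- Evaluation with a number. -/
def frc (n : ℕ) (f : ℕ → Bool) : Bool := @Nat.rec (fun _ => Bool) (f 0) (fun k _ => f (Nat.succ k)) n

theorem frc_eq (n : ℕ) (f : ℕ → Bool) : frc n f = f n := by
  cases n <;> rfl

/-- The check of a row. -/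
noncomputable def rowC (K : List KT) (E : List (ET × ℕ)) (e b ct l : ℕ) : Bool :=
  Nat.ble (Nat.add (Nat.mul 1920 (sL (evK l) K)) (Nat.add (sL (evE l) E)
    (Nat.add (Nat.mul 11796480 (nlG l)) (Nat.mul 3686400 (Nat.sub 1 b)))))
    (Nat.add ct (Nat.mul 188743680 (nfG e l)))

/-- The check of the rows. -/
noncomputable def rowsC (K : List KT) (E : List (ET × ℕ)) (e FM ct a n : ℕ) : Bool :=
  allN (fun L => frc (spG (Nat.add a L)) fun l => rowC K E e (bt FM (Nat.add a L)) ct l) n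

/-- The check of the flipped windows. -/
def fmC (c e FM : ℕ) : Bool := allN (fun L => @Nat.rec (fun _ => Bool) true
  (fun _ _ => frc (spG L) fun l => fgG c e l) (bt FM L)) 1024

theorem fmC_spec {c e FM : ℕ} (h : fmC c e FM = true) (L : ℕ) (hL : L < 1024) :
    (badW (dx c e (spG L) id)).toNat ≤ 1 - bt FM L := by
  have h1 := allN_spec _ _ h L hL
  have h2 := bt_le FM L
  rcases Nat.eq_zero_or_pos (bt FM L) with h3 | h3
  · rw [h3]
    exact Bool.toNat_le _
  · have h4 : bt FM L = 1 := by omega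
    rw [h4] at h1
    have h5 : (frc (spG L) fun l => fgG c e l) = true := h1
    rw [frc_eq] at h5
    rw [badW_false (fgG_spec h5), h4]
    rfl

/-- The rows from the checks. -/
theorem row_of (c e : ℕ) (K : List KT) (E : List (ET × ℕ)) (FM ct : ℕ)
    (hK : ((pmL.filter fun N => cdK c (dg5 N)).map fun N => ktX c e (dg5 N)) = K)
    (hE : ((pmL.filter fun N => srt4 (c4x c (dg5 N))).map fun N => etX c e (dg5 N)) =
      E.map Prod.fst)
    (hT : E.all okT = true) (hF : fmC c e FM = true)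
    (hct : ct = 81100800 + 1920 * (16384 * K.length) + 67108864 * E.length)
    (hR : ∀ L < 1024, rowC K E e (bt FM L) ct (spG L) = true) (L : ℕ) (hL : L < 1024) :
    0 ≤ PhW (dx c e (spG L) id) := by
  have h1 := hR L hL
  have h2 := fmC_spec hF L hL
  have h3 := Nat.ble_eq.mp h1
  have h4 : 1920 * sL (evK (spG L)) K + (sL (evE (spG L)) E + (11796480 * nlG (spG L) +
    3686400 * (1 - bt FM L))) ≤ ct + 188743680 * nfG e (spG L) := h3
  rw [PhW_eq, sum_kX c e (spG L) K hK, sum_eX pv eyv eyv_all c e (spG L) E hE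
    (fun z hz => okT_spec (List.all_eq_true.mp hT z hz) (spG L)), nl_dx, k5n_dx]
  generalize sL (evK (spG L)) K = A at h4 ⊢
  generalize sL (evE (spG L)) E = B at h4 ⊢
  generalize nlG (spG L) = n at h4 ⊢
  generalize nfG e (spG L) = f at h4 ⊢
  generalize (badW (dx c e (spG L) id)).toNat = w at h2 ⊢
  generalize bt FM L = b at h2 h4
  rw [hct] at h4
  generalize K.length = k at h4 ⊢
  generalize E.length = m at h4 ⊢
  push_cast
  omega

theorem rowsC_spec {K : List KT} {E : List (ET × ℕ)} {e FM ct a n : ℕ}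
    (h : rowsC K E e FM ct a n = true) (L : ℕ) (h1 : a ≤ L) (h2 : L < a + n) :
    rowC K E e (bt FM L) ct (spG L) = true := by
  have h3 := allN_spec _ _ h (L - a) (by omega)
  rw [frc_eq] at h3
  have h4 : Nat.add a (L - a) = L := by
    show a + (L - a) = L
    omega
  rwa [h4] at h3

end Pool.Agent.Lib.MP_afdd4d_co.K9.Star.Tw.W5
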