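import Pool.Agent.Lib.MP_afdd4d_co.K9.TwB

/-!
# The local theorems for functions of the tuples

The local theorems for a function of the 4-graph, of the structure, of the colouring and of six
vertices that is not given as a function of the data of the window.
-/

namespace Pool.Agent.Lib.MP_afdd4d_co.K9.Star.Tw

open Finset K8
open Pool.Agent.Lib.MP_afdd4d_co.K9.Marks

/-- The bound with a multiple of the size of a family that is visible on the windows. -/
theorem str_of_goodWF {Cx : C3} (N y s : ℕ) (hN : 0 < N)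
    (h4 : ∀ (η : ℝ) {n : ℕ} (H E : Finset (Finset (Fin n))) (χ : Fin n → Bool), Cx η H E χ →
      (∀ e ∈ H, e.card = 4) ∧ ∀ e ∈ E, e.card = 4)
    (F : ∀ {n : ℕ}, Finset (Finset (Fin n)) → Finset (Finset (Fin n)) → (Fin n → Bool) →
      Finset (Finset (Fin n)))
    (hF : ∀ (η : ℝ) {n : ℕ} (H E : Finset (Finset (Fin n))) (χ : Fin n → Bool), Cx η H E χ →
      ∀ e ∈ F H E χ, e.card = 4)
    (Z : Fn3) (hv : GoodW Cx (fun H E χ t => Z H E χ t))
    (hrow : ∀ (η : ℝ) {n : ℕ} (H E : Finset (Finset (Fin n))) (χ : Fin n → Bool), Cx η H E χ →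
      ∀ t : Fin 6 → Fin n, Function.Injective t →
        Z H E χ t + s * S4 (zb (F H E χ) t) ≤
          N * (165 - 16 * S4 (zb H t)) + y * (165 - 16 * S4 (zb E t))) :
    ∀ ε : ℝ, 0 < ε → ∃ η : ℝ, 0 < η ∧ ∃ N0 : ℕ, ∀ n : ℕ, N0 ≤ n →
      ∀ (H E : Finset (Finset (Fin n))) (χ : Fin n → Bool), Cx η H E χ →
      (H.card : ℝ) + (s : ℝ) / (16 * N) * ((F H E χ).card : ℝ) ≤
        ((11 / 16 : ℝ) + ε) * ((n.choose 4 : ℕ) : ℝ) +
          (y : ℝ) / N * ((11 / 16 : ℝ) * ((n.choose 4 : ℕ) : ℝ) - (E.card : ℝ)) := by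
  intro ε hε
  have hN' : (0 : ℝ) < N := by exact_mod_cast hN
  obtain ⟨δ, hδ, N1, hN1⟩ := cards_of_sum N y s (16 * (N * ε)) (by positivity)
  obtain ⟨η, hη, N2, hN2⟩ := hv δ hδ
  refine ⟨η, hη, max N1 N2, fun n hn H E χ hc => ?_⟩
  have h1 := hN2 n (le_trans (le_max_right _ _) hn) H E χ hc
  obtain ⟨hH, hE⟩ := h4 η H E χ hc
  refine cards_div hN (hN1 n (le_trans (le_max_left _ _) hn) H E (F H E χ) hH hE
    (hF η H E χ hc) (le_trans h1 (Finset.sum_le_sum fun t ht => ?_)))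
  have ht' := mem_inj.mp ht
  have h3 := hrow η H E χ hc t ht'
  have h5 : Z H E χ t ≤ N * (165 - 16 * S4 (zb H t)) + y * (165 - 16 * S4 (zb E t)) -
      s * S4 (zb (F H E χ) t) := by linarith
  exact_mod_cast h5

/-- The theorem for pairs, relative to the pairs of different colours, for a function of the
tuples. -/
theorem locC2Z (dn dd N y s : ℕ) (hN : 0 < N) (Z : Fn3)
    (hv : GoodP (CtCX dn dd) (fun H E χ t => Z H E χ t))
    (hrow : ∀ {n : ℕ} (H E : Finset (Finset (Fin n))) (χ : Fin n → Bool), CtC dn dd H E χ →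
      ∀ t : Fin 6 → Fin n, Function.Injective t →
        Z H E χ t + s * S4 (fun S => (zb H t S ^^ zb E t S) &&
            decide ((S.filter fun i => χ (t i) = true).card = 2)) ≤
          N * (165 - 16 * S4 (zb H t)) + y * (165 - 16 * S4 (zb E t))) :
    ∀ ε : ℝ, 0 < ε → ∃ N0 : ℕ, ∀ n : ℕ, N0 ≤ n → ∀ (H : Finset (Finset (Fin n)))
      (χ : Fin n → Bool) (M : Fin n → Fin n → Bool),
      (∀ e ∈ H, e.card = 4) →
      (∀ S : Finset (Fin n), S.card = 5 → ∃ e ∈ S.powersetCard 4, e ∉ H) →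
      (∀ x y : Fin n, χ x = false → χ y = true →
        dd * ((symmDiff H (gir χ M (fun _ => false) (fun _ => false))).filter fun Q =>
          x ∈ Q ∧ y ∈ Q ∧ (Q.filter fun v => χ v = true).card = 2).card ≤
          dn * ((univ.filter fun v => χ v = false).card *
            (univ.filter fun v => χ v = true).card)) →
      (H.card : ℝ) + (s : ℝ) / (16 * N) *
          (((symmDiff H (gir χ M (fun _ => false) (fun _ => false))).filter fun Q =>
            (Q.filter fun v => χ v = true).card = 2).card : ℝ) ≤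
        ((11 / 16 : ℝ) + ε) * ((n.choose 4 : ℕ) : ℝ) +
        (y : ℝ) / N * ((11 / 16 : ℝ) * ((n.choose 4 : ℕ) : ℝ) -
          ((gir χ M (fun _ => false) (fun _ => false)).card : ℝ)) := by
  intro ε hε
  obtain ⟨δ, _, N0, hN0⟩ := str_of_goodWF (Cx := fun _ {_} H E χ => CtCX dn dd H E χ) N y s hN
    (fun η {n} H E χ hc => ⟨hc.h4, hc.e4'.1⟩)
    (fun {n} H E χ => sd2 H E χ)
    (fun η {n} H E χ hc => sd2_card4 χ hc.h4 hc.e4'.1) Z
    (GoodW.of_goodP (Cx' := CtCX dn dd) 1 one_pos (fun _ _ _ hc => hc) hv)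
    (fun η {n} H E χ hc t ht => by
      rw [zb_sd2 H E χ t ht]
      exact hrow H E χ hc t ht) ε hε
  refine ⟨N0, fun n hn H χ M hH hK hj => ?_⟩
  exact hN0 n hn H (gir χ M (fun _ => false) (fun _ => false)) χ
    ⟨hH, hK, ⟨M, rfl⟩, fun x y hx hy => hj x y hx hy⟩

/-- The theorem for a small distance, for a function of the tuples. -/
theorem locAZ (a : PA) (N s : ℕ) (hN : 0 < N) (hxd : 0 < a.xd) (hyd : 0 < a.yd)
    (hc : s * a.xn * a.yd ≤ N * a.xd * a.yn)
    (hs : (a.yn * a.xd + 16 * a.xn * a.yd) * a.sd ^ 2 < 6 * a.sn ^ 2 * (a.xd * a.yd))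
    (Z : Fn3) (hv : GoodP (CtAX a) (fun H E χ t => Z H E χ t))
    (hrow : ∀ {n : ℕ} (H E : Finset (Finset (Fin n))) (χ : Fin n → Bool), CtA a H E χ →
      ∀ t : Fin 6 → Fin n, Function.Injective t →
        Z H E χ t + s * S4 (fun S => zb H t S ^^ zb E t S) ≤ N * (165 - 16 * S4 (zb H t))) :
    ∀ ε : ℝ, 0 < ε → ∃ N0 : ℕ, ∀ n : ℕ, N0 ≤ n → ∀ (H : Finset (Finset (Fin n)))
      (χ : Fin n → Bool) (M : Fin n → Fin n → Bool),
      (∀ e ∈ H, e.card = 4) →
      (∀ S : Finset (Fin n), S.card = 5 → ∃ e ∈ S.powersetCard 4, e ∉ H) →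
      (∀ (χ' : Fin n → Bool) (M' : Fin n → Fin n → Bool),
        (symmDiff H (gir χ M (fun _ => false) (fun _ => false))).card ≤
          (symmDiff H (gir χ' M' (fun _ => false) (fun _ => false))).card) →
      a.xd * (symmDiff H (gir χ M (fun _ => false) (fun _ => false))).card ≤ a.xn * n.choose 4 →
      (H.card : ℝ) + (s : ℝ) / (16 * N) *
        ((symmDiff H (gir χ M (fun _ => false) (fun _ => false))).card : ℝ) ≤
          ((11 / 16 : ℝ) + ε) * ((n.choose 4 : ℕ) : ℝ) := by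
  intro ε hε
  have hN' : (0 : ℝ) < N := by exact_mod_cast hN
  have hxd' : (0 : ℝ) < a.xd := by exact_mod_cast hxd
  have hyd' : (0 : ℝ) < a.yd := by exact_mod_cast hyd
  obtain ⟨N1, hN1⟩ := s_of_dens a hxd hyd hs
  obtain ⟨δ, _, N2, hN2⟩ := str_of_goodW (Cx := fun _ {_} H E χ => CtAX a H E χ) N 0 s hN
    (fun η {n} H E χ hc => ⟨hc.h4, hc.e4'.1⟩) Z
    (GoodW.of_goodP (Cx' := CtAX a) 1 one_pos (fun _ _ _ hc => hc) hv)
    (fun η {n} H E χ hc t ht => by
      rw [Nat.cast_zero, zero_mul, add_zero]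
      exact hrow H E χ hc t ht) ε hε
  refine ⟨max N1 N2, fun n hn H χ M hH hK ho hx => ?_⟩
  set G := gir χ M (fun _ => false) (fun _ => false) with hG
  by_cases hd : 11 * a.yd * n.choose 4 ≤ 16 * a.yd * H.card + a.yn * n.choose 4
  · have h1 := hN2 n (le_trans (le_max_right _ _) hn) H G χ
      ⟨hH, hK, hd, ⟨M, hG⟩, ho, hx, hN1 n (le_trans (le_max_left _ _) hn) H χ M hd hx⟩
    rw [Nat.cast_zero, zero_div, zero_mul, add_zero] at h1
    exact h1
  · rw [not_le] at hd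
    set C : ℝ := ((n.choose 4 : ℕ) : ℝ) with hC
    have hC0 : 0 ≤ C := Nat.cast_nonneg _
    have h2 : 16 * (a.yd : ℝ) * (H.card : ℝ) + a.yn * C ≤ 11 * a.yd * C := by
      rw [hC]
      exact_mod_cast hd.le
    have h3 : (a.xd : ℝ) * ((symmDiff H G).card : ℝ) ≤ a.xn * C := by
      rw [hC]
      exact_mod_cast hx
    have hc' : (s : ℝ) * a.xn * a.yd ≤ N * a.xd * a.yn := by exact_mod_cast hc
    -- multiply everything by `16 * N * xd * yd`
    have h4 : 16 * N * a.xd * a.yd * ((H.card : ℝ) + (s : ℝ) / (16 * N) *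
        ((symmDiff H G).card : ℝ)) ≤ 16 * N * a.xd * a.yd * (11 / 16 * C) := by
      have e1 : 16 * (N : ℝ) * a.xd * a.yd * ((H.card : ℝ) + (s : ℝ) / (16 * N) *
          ((symmDiff H G).card : ℝ)) = (N : ℝ) * a.xd * (16 * a.yd * (H.card : ℝ)) +
            s * a.yd * (a.xd * ((symmDiff H G).card : ℝ)) := by
        field_simp
      have e2 : 16 * (N : ℝ) * a.xd * a.yd * (11 / 16 * C) = N * a.xd * (11 * a.yd * C) := by
        ring
      rw [e1, e2]
      have h5 := mul_le_mul_of_nonneg_left h2 (by positivity : (0 : ℝ) ≤ N * a.xd)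
      have h6 := mul_le_mul_of_nonneg_left h3 (by positivity : (0 : ℝ) ≤ (s : ℝ) * a.yd)
      have h7 := mul_le_mul_of_nonneg_right hc' hC0
      linarith
    have h5 := le_of_mul_le_mul_left h4 (by positivity)
    have h6 : 0 ≤ ε * C := by positivity
    linarith

end Pool.Agent.Lib.MP_afdd4d_co.K9.Star.Tw
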