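import Pool.Agent.Lib.MP_afdd4d_co.K8.JE
import Pool.Agent.Lib.MP_afdd4d_co.K8.F5Code
import Pool.Agent.Lib.MP_afdd4d_co.K8.PtPrm
import Pool.Agent.Lib.MP_afdd4d_co.K8.PsiPot

/-!
# Functions of 4-graphs on six points by lanes

A symmetric function of the 4-graphs on six points is a number with `2 ^ 15` lanes.  Its values on the
4-graphs with a given difference to an even 4-graph are an array of `2 ^ 10` lanes over the codes of
the even 4-graph.
-/

namespace Pool.Agent.Lib.MP_afdd4d_co.K9.Ug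

open Finset K8

/-- The value of the table on a six-tuple. -/
def uv (W U : ℕ) {n : ℕ} (H : Finset (Finset (Fin n))) (p : Fin 6 → Fin n) : ℕ :=
  Ln W U (idx 15 fun r => zb H p (q6 6 r))

/-! ### Symmetry -/

/-- The programs of the exchanges. -/
def uex : List (List (ℕ × ℕ × ℕ)) := [
  [(1, 3, 4), (1, 7, 8), (1, 10, 11), (1, 12, 13)],
  [(1, 2, 3), (1, 6, 7), (1, 9, 10), (1, 13, 14)],
  [(1, 1, 2), (1, 5, 6), (1, 10, 12), (1, 11, 13)],
  [(1, 0, 1), (1, 6, 9), (1, 7, 10), (1, 8, 11)],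
  [(1, 1, 5), (1, 2, 6), (1, 3, 7), (1, 4, 8)]]

theorem uex_ok : ∀ i : Fin 5, okV (uex.getD i []) 15 = true ∧ nvG (uex.getD i []) 15 = 15 := by
  decide +kernel

theorem uex_sx : ∀ i : Fin 5, ∀ r < 15, sxG 0 (uex.getD i []) 15 r = 2 ^ (p6 i r + 1) := by
  decide +kernel

/-- The program of an exchange. -/
def uexG (i : ℕ) : List (ℕ × ℕ × ℕ) := nthG [] uex i

/-- The conditions on a table: the lanes have `m` bits and the table is invariant. -/
structure UOK (W m U : ℕ) : Prop where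
  hw : 0 < W
  hm : m < W
  ar : Ar W 15 U fun b => Ln W U (idx 15 b)
  le : ∀ b, Ln W U (idx 15 b) < 2 ^ m
  inv : ∀ i : Fin 5, rvG W 0 (uex.getD i []) 15 U = U

/-- The check of the conditions. -/
def ckU (W m U : ℕ) : Bool :=
  @Bool.rec (fun _ => Bool) false
    (@Bool.rec (fun _ => Bool) false
      (allN (fun i => Nat.beq (rvG W 0 (uexG i) 15 U) U) 5)
      (Nat.beq (Nat.land U (csG W (Nat.sub (Nat.pow 2 W) (Nat.pow 2 m)) 15)) 0))
    (Nat.beq (Nat.shiftRight U (Nat.mul W 32768)) 0)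

theorem ckU_spec {W m U : ℕ} (hW : 0 < W) (hm : m < W) (h : ckU W m U = true) : UOK W m U := by
  unfold ckU at h
  cases h1 : Nat.beq (Nat.shiftRight U (Nat.mul W 32768)) 0 with
  | false =>
    rw [h1] at h
    exact absurd (show false = true from h) Bool.false_ne_true
  | true =>
    rw [h1] at h
    dsimp only at h
    cases h2 : Nat.beq (Nat.land U (csG W (Nat.sub (Nat.pow 2 W) (Nat.pow 2 m)) 15)) 0 with
    | false =>
      rw [h2] at h
      exact absurd (show false = true from h) Bool.false_ne_true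
    | true =>
      rw [h2] at h
      dsimp only at h
      have h3 : U < 2 ^ (W * 32768) := Pt.lt_of_shiftRight h1
      have h4 : Ar W 15 U fun b => Ln W U (idx 15 b) := ⟨h3, fun b => rfl⟩
      have h5 : U &&& csG W (2 ^ W - 2 ^ m) 15 = 0 := Nat.eq_of_beq_eq_true h2
      refine ⟨hW, hm, h4, fun b => ?_, fun i => ?_⟩
      · have hpm : 2 ^ m < 2 ^ W := Nat.pow_lt_pow_right (by norm_num) hm
        have hpp := Nat.two_pow_pos m
        have h6 := csG_ar (W := W) (c := 2 ^ W - 2 ^ m) hW (by omega) 15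
        have h7 : Ln W (U &&& csG W (2 ^ W - 2 ^ m) 15) (idx 15 b) = 0 := by
          rw [h5, Ln_zero_left]
        rw [Ln_and, h6.get] at h7
        have hx := Ln_lt W U (idx 15 b)
        apply Nat.lt_pow_two_of_testBit
        intro i hi
        rcases Nat.lt_or_ge i W with h8 | h8
        · have h9 : (Ln W U (idx 15 b) &&& (2 ^ W - 2 ^ m)).testBit i = false := by
            rw [h7, Nat.zero_testBit]
          have h10 : (2 ^ W - 2 ^ m).testBit i = true := by
            have e1 : 2 ^ W - 2 ^ m = 2 ^ m * (2 ^ (W - m) - 1) := by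
              rw [Nat.mul_sub, mul_one, ← pow_add, Nat.add_sub_cancel' hm.le]
            rw [e1, mul_comm, Nat.testBit_mul_two_pow, Nat.testBit_two_pow_sub_one,
              decide_eq_true hi, decide_eq_true (by omega), Bool.true_and]
          rw [Nat.testBit_and, h10, Bool.and_true] at h9
          exact h9
        · exact Nat.testBit_lt_two_pow (lt_of_lt_of_le hx (Nat.pow_le_pow_right (by norm_num) h8))
      · have h6 := Nat.eq_of_beq_eq_true (allN_spec _ _ h i i.isLt)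
        unfold uexG at h6
        rw [nthG_eq] at h6
        exact h6

theorem uv_ex {W m U : ℕ} (h : UOK W m U) {n : ℕ} (H : Finset (Finset (Fin n)))
    (p : Fin 6 → Fin n) (i : Fin 5) : uv W U H (p ∘ e6 i) = uv W U H p := by
  obtain ⟨h1, h2⟩ := uex_ok i
  have h3 := rvG_ar (τ := 0) h.hw _ 15 U _ h1 h.ar
  rw [h2, h.inv i] at h3
  have h4 := h3.get fun r => zb H p (q6 6 r)
  unfold uv
  rw [h4]
  refine congrArg (Ln W U) (idx_congr 15 _ _ fun r hr => ?_)
  rw [svG_eq 0 15 _ _ 15 h1 (by rw [h2]) r hr, uex_sx i r hr, lf_two_pow,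
    decide_eq_true (p6_lt i i.isLt r hr), Bool.true_and, zb_comp, p6_geo i r hr]

/-- The function is symmetric. -/
theorem uv_perm {W m U : ℕ} (h : UOK W m U) {n : ℕ} (H : Finset (Finset (Fin n)))
    (τ : Equiv.Perm (Fin 6)) : ∀ p : Fin 6 → Fin n, uv W U H (p ∘ τ) = uv W U H p := by
  have h1 : τ ∈ Submonoid.closure (Set.range fun i : Fin 5 => Equiv.swap i.castSucc i.succ) := by
    rw [Equiv.Perm.mclosure_swap_castSucc_succ]
    exact Submonoid.mem_top _
  induction h1 using Submonoid.closure_induction with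
  | mem x hx =>
    obtain ⟨i, rfl⟩ := hx
    intro p
    exact uv_ex h H p i
  | one =>
    intro p
    rfl
  | mul x y _ _ hx hy =>
    intro p
    have e : p ∘ (x * y) = (p ∘ x) ∘ y := rfl
    rw [e, hy, hx]

theorem uv_lt {W m U : ℕ} (h : UOK W m U) {n : ℕ} (H : Finset (Finset (Fin n)))
    (p : Fin 6 → Fin n) : uv W U H p < 2 ^ m := h.le _

/-! ### The array of a difference -/

/-- The program of the even 4-graphs. -/
def uprog : List (ℕ × ℕ × ℕ) := [
  (2, 3, 14), (2, 7, 14), (2, 10, 14), (2, 12, 14), (4, 14, 0),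
  (2, 2, 13), (2, 6, 13), (2, 9, 13), (2, 12, 13), (4, 13, 0),
  (2, 1, 11), (2, 5, 11), (2, 9, 11), (2, 10, 11), (4, 11, 0),
  (2, 0, 8), (2, 5, 8), (2, 6, 8), (2, 7, 8), (4, 8, 0),
  (2, 0, 4), (2, 1, 4), (2, 2, 4), (2, 3, 4), (4, 4, 0),
  (1, 4, 5), (1, 5, 6), (1, 6, 7), (1, 8, 9), (1, 7, 8)]

theorem uprog_ok : okV uprog 15 = true ∧ nvG uprog 15 = 10 := by decide +kernel

theorem uprog_sx : ∀ r < 15, sxG 0 uprog 15 r = Og.exF6 (q6 6 r) := by decide +kernel

/-- The array of the difference `J`. -/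
def tU (W U J : ℕ) : ℕ := rvG W 0 uprog 15 (xkG W 15 J 15 U)

/-- The value of the array of the difference `J`. -/
def fU (W U J : ℕ) (b : ℕ → Bool) : ℕ :=
  Ln W U (idx 15 fun r => lf 10 (Og.exF6 (q6 6 r)) b ^^ J.testBit r)

theorem tU_ar {W m U : ℕ} (h : UOK W m U) (J : ℕ) : Ar W 10 (tU W U J) (fU W U J) := by
  obtain ⟨h1, h2⟩ := uprog_ok
  have h3 := rvG_ar (τ := 0) h.hw _ 15 _ _ h1 (xkG_ar h.hw h.ar (k := J) 15 le_rfl)
  rw [h2] at h3
  refine h3.congr fun b => ?_
  refine congrArg (Ln W U) (idx_congr 15 _ _ fun r hr => ?_)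
  rw [svG_eq 0 10 _ _ 15 h1 (by rw [h2]) r hr, uprog_sx r hr, decide_eq_true hr, Bool.true_and]

theorem fU_le {W m U : ℕ} (h : UOK W m U) (J : ℕ) (b : ℕ → Bool) : fU W U J b < 2 ^ m := h.le _

theorem fU_eq {W m U : ℕ} (_h : UOK W m U) {n : ℕ} (H E' : Finset (Finset (Fin n)))
    (p : Fin 6 → Fin n) (J : ℕ) (hev : EvT E' p)
    (hd : ∀ r < 15, (zb H p (q6 6 r) ^^ zb E' p (q6 6 r)) = J.testBit r) :
    fU W U J (gc E' p) = uv W U H p := by
  refine congrArg (Ln W U) (idx_congr 15 _ _ fun r hr => ?_)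
  rw [← hd r hr, ← Og.zb6_eq E' p hev _ (q6_card r hr)]
  cases zb H p (q6 6 r) <;> cases zb E' p (q6 6 r) <;> rfl

end Pool.Agent.Lib.MP_afdd4d_co.K9.Ug
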