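import Pool.Agent.Lib.MP_afdd4d_co.K9.VFitB
import Pool.Agent.Lib.MP_afdd4d_co.K9.Final

/-!
# Reference structures of smallest cost

The reference structure can be chosen such that no other one has a smaller cost. The changes of the
reference structure give functions of six vertices with almost nonnegative average.
-/

namespace Pool.Agent.Lib.MP_afdd4d_co.K9.Star

open Finset K8
open Pool.Agent.Lib.MP_afdd4d_co.K9.Marks

/-! ### Sums over tuples that extend a given tuple -/

section root
variable {V : Type*} [DecidableEq V]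

theorem append_inj_iff {k l : ℕ} (s : Fin k → V) (u : Fin l → V) :
    Function.Injective (Fin.append s u) ↔
      (Function.Injective s ∧ Function.Injective u ∧ Disjoint (univ.image s) (univ.image u)) := by
  rw [Fin.append_injective_iff]
  refine and_congr_right fun _ => and_congr_right fun _ => ?_
  rw [Finset.disjoint_left]
  constructor
  · intro h a ha hb
    rw [Finset.mem_image] at ha hb
    obtain ⟨i, _, hi⟩ := ha
    obtain ⟨j, _, hj⟩ := hb
    exact h i j (by rw [hi, hj])
  · intro h i j hij
    exact h (Finset.mem_image_of_mem s (Finset.mem_univ i))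
      (by rw [hij]; exact Finset.mem_image_of_mem u (Finset.mem_univ j))

theorem image_append {k l : ℕ} (s : Fin k → V) (u : Fin l → V) :
    (univ : Finset (Fin (k + l))).image (Fin.append s u) = univ.image s ∪ univ.image u := by
  ext y
  rw [Finset.mem_union, Finset.mem_image, Finset.mem_image, Finset.mem_image]
  constructor
  · rintro ⟨i, _, hi⟩
    refine Fin.addCases (fun j h => ?_) (fun j h => ?_) i hi
    · rw [Fin.append_left] at h
      exact Or.inl ⟨j, Finset.mem_univ _, h⟩
    · rw [Fin.append_right] at h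
      exact Or.inr ⟨j, Finset.mem_univ _, h⟩
  · rintro (⟨j, _, hj⟩ | ⟨j, _, hj⟩)
    · exact ⟨Fin.castAdd l j, Finset.mem_univ _, by rw [Fin.append_left, hj]⟩
    · exact ⟨Fin.natAdd k j, Finset.mem_univ _, by rw [Fin.append_right, hj]⟩

/-- The sum over the injective tuples that start with a given injective tuple. -/
theorem sum_root [Fintype V] {k : ℕ} (l : ℕ) (s : Fin k → V) (hs : Function.Injective s) (F : Finset V → ℤ) :
    ∑ u : Fin l → V, (if Function.Injective (Fin.append s u) then
      F (univ.image (Fin.append s u)) else 0) =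
      l.factorial * ∑ Q ∈ (univ : Finset V).powersetCard (k + l),
        if univ.image s ⊆ Q then F Q else 0 := by
  classical
  have h1 : ∑ u : Fin l → V, (if Function.Injective (Fin.append s u) then
      F (univ.image (Fin.append s u)) else 0) =
      ∑ u : Fin l → V, (if Function.Injective u then
        (fun S : Finset V => if Disjoint (univ.image s) S then F (univ.image s ∪ S) else 0)
          (univ.image u) else 0) := by
    refine Finset.sum_congr rfl fun u _ => ?_
    rw [image_append]
    have hi := append_inj_iff s u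
    by_cases hu : Function.Injective u
    · rw [if_pos hu]
      refine if_congr ⟨fun h => (hi.mp h).2.2, fun h => hi.mpr ⟨hs, hu, h⟩⟩ rfl rfl
    · rw [if_neg hu, if_neg fun h => hu (hi.mp h).2.1]
  rw [h1, sum_img_r l (fun S : Finset V => if Disjoint (univ.image s) S then
    F (univ.image s ∪ S) else 0), ← Finset.sum_filter, ← Finset.sum_filter]
  congr 1
  have hc : (univ.image s).card = k := by
    rw [Finset.card_image_of_injective _ hs, Finset.card_univ, Fintype.card_fin]
  symm
  refine Finset.sum_bij' (fun Q _ => Q \ univ.image s) (fun S _ => univ.image s ∪ S) ?_ ?_ ?_ ?_ ?_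
  · intro Q hQ
    rw [Finset.mem_filter, Finset.mem_powersetCard] at hQ
    rw [Finset.mem_filter, Finset.mem_powersetCard]
    refine ⟨⟨Finset.subset_univ _, ?_⟩, Finset.disjoint_sdiff⟩
    rw [Finset.card_sdiff_of_subset hQ.2, hQ.1.2, hc]
    omega
  · intro S hS
    rw [Finset.mem_filter, Finset.mem_powersetCard] at hS
    rw [Finset.mem_filter, Finset.mem_powersetCard]
    refine ⟨⟨Finset.subset_univ _, ?_⟩, Finset.subset_union_left⟩
    rw [Finset.card_union_of_disjoint hS.2, hS.1.2, hc]
  · intro Q hQ
    rw [Finset.mem_filter] at hQ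
    exact Finset.union_sdiff_of_subset hQ.2
  · intro S hS
    rw [Finset.mem_filter] at hS
    show (univ.image s ∪ S) \ univ.image s = S
    rw [Finset.union_sdiff_cancel_left hS.2]
  · intro Q hQ
    rw [Finset.mem_filter] at hQ
    rw [Finset.union_sdiff_of_subset hQ.2]

end root

/-! ### The smallest cost -/

section best
variable {n : ℕ}

/-- The distance to a reference structure and a multiple of the imbalance. -/
noncomputable def cost (w : ℝ) (H : Finset (Finset (Fin n))) (χ : Fin n → Bool)
    (M : Fin n → Fin n → Bool) (f g : Finset (Fin n) → Bool) : ℝ :=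
  X4 H (gir χ M f g) + w * sg2 χ

/-- No reference structure has a smaller cost. -/
def Best (w : ℝ) (H : Finset (Finset (Fin n))) (χ : Fin n → Bool) (M : Fin n → Fin n → Bool)
    (f g : Finset (Fin n) → Bool) : Prop :=
  ∀ χ' M' f' g', cost w H χ M f g ≤ cost w H χ' M' f' g'

theorem exists_best (w : ℝ) (H : Finset (Finset (Fin n))) : ∃ χ M f g, Best w H χ M f g := by
  obtain ⟨p, hp⟩ := Finite.exists_min (fun p : (Fin n → Bool) × (Fin n → Fin n → Bool) ×
    (Finset (Fin n) → Bool) × (Finset (Fin n) → Bool) => cost w H p.1 p.2.1 p.2.2.1 p.2.2.2)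
  exact ⟨p.1, p.2.1, p.2.2.1, p.2.2.2, fun χ' M' f' g' => hp (χ', M', f', g')⟩

/-- No reference structure with the same colours is closer. -/
def BestM (H : Finset (Finset (Fin n))) (χ : Fin n → Bool) (M : Fin n → Fin n → Bool)
    (f g : Finset (Fin n) → Bool) : Prop :=
  ∀ M' f' g', (symmDiff H (gir χ M f g)).card ≤ (symmDiff H (gir χ M' f' g')).card

theorem Best.toM {w : ℝ} {H : Finset (Finset (Fin n))} {χ : Fin n → Bool}
    {M : Fin n → Fin n → Bool} {f g : Finset (Fin n) → Bool} (h : Best w H χ M f g) :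
    BestM H χ M f g := by
  intro M' f' g'
  rcases Nat.eq_zero_or_pos n with h0 | h0
  · subst h0
    have e : ∀ M f g, gir χ M f g = ∅ := by
      intro M f g
      rw [Finset.eq_empty_iff_forall_notMem]
      intro e he
      have h4 := gir_card χ M f g e he
      have h5 := Finset.card_le_univ e
      rw [h4, Fintype.card_fin] at h5
      omega
    rw [e, e]
  · have hn : (0 : ℝ) < (n : ℝ) ^ 4 := by positivity
    have h1 := h χ M' f' g'
    unfold cost X4 at h1
    have h2 : 24 * ((symmDiff H (gir χ M f g)).card : ℝ) / (n : ℝ) ^ 4 ≤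
        24 * ((symmDiff H (gir χ M' f' g')).card : ℝ) / (n : ℝ) ^ 4 := by linarith
    rw [div_le_div_iff_of_pos_right hn] at h2
    have h3 : ((symmDiff H (gir χ M f g)).card : ℝ) ≤ ((symmDiff H (gir χ M' f' g')).card : ℝ) := by
      linarith
    exact_mod_cast h3

/-- The number of quadruples as a sum over tuples. -/
theorem jv_tot_eq (J : Finset (Finset (Fin n))) (hJ : ∀ e ∈ J, e.card = 4) :
    ∑ p, jv J p = 24 * (J.card : ℤ) := by
  classical
  have h1 : ∑ p, jv J p = ∑ p : Fin 4 → Fin n, (if Function.Injective p then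
      (fun T : Finset (Fin n) => if T ∈ J then (1 : ℤ) else 0) (univ.image p) else 0) := by
    refine Finset.sum_congr rfl fun p _ => ?_
    unfold jv
    by_cases hp : Function.Injective p
    · rw [if_pos hp]
      exact if_congr ⟨fun h => h.2, fun h => ⟨hp, h⟩⟩ rfl rfl
    · rw [if_neg hp, if_neg fun h => hp h.1]
  rw [h1, sum_img_r 4 (fun T : Finset (Fin n) => if T ∈ J then (1 : ℤ) else 0)]
  have h3 : ((Nat.factorial 4 : ℕ) : ℤ) = 24 := by decide
  rw [h3, Finset.sum_boole]
  congr 2
  congr 1
  ext e
  rw [Finset.mem_filter, Finset.mem_powersetCard]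
  exact ⟨fun h => h.2, fun h => ⟨⟨Finset.subset_univ _, hJ e h⟩, h⟩⟩

/-- The sum of the changes on the quadruples where two families differ. -/
theorem sum_diff_ge (H G G' : Finset (Finset (Fin n))) (hH : ∀ e ∈ H, e.card = 4)
    (hG : ∀ e ∈ G, e.card = 4) (hG' : ∀ e ∈ G', e.card = 4)
    (h : (symmDiff H G).card ≤ (symmDiff H G').card) :
    0 ≤ ∑ Q ∈ (univ : Finset (Fin n)).powersetCard 4,
      (if mE G Q = mE G' Q then (0 : ℤ) else 1 - 2 * ((mE (symmDiff H G) Q).toNat : ℕ)) := by
  classical
  have h1 : ∀ A : Finset (Finset (Fin n)), (∀ e ∈ A, e.card = 4) →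
      (A.card : ℤ) = ∑ Q ∈ (univ : Finset (Fin n)).powersetCard 4, (((mE A Q).toNat : ℕ) : ℤ) := by
    intro A hA
    have e : ∀ Q : Finset (Fin n), (((mE A Q).toNat : ℕ) : ℤ) = if Q ∈ A then 1 else 0 := by
      intro Q
      unfold mE
      by_cases hQ : Q ∈ A
      · rw [decide_eq_true hQ, if_pos hQ]; rfl
      · rw [decide_eq_false hQ, if_neg hQ]; rfl
    rw [Finset.sum_congr rfl fun Q _ => e Q, Finset.sum_boole]
    congr 2
    ext Q
    rw [Finset.mem_filter, Finset.mem_powersetCard]
    exact ⟨fun h => ⟨⟨Finset.subset_univ _, hA Q h⟩, h⟩, fun h => h.2⟩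
  have hs : ∀ A B : Finset (Finset (Fin n)), (∀ e ∈ A, e.card = 4) → (∀ e ∈ B, e.card = 4) →
      ∀ e ∈ symmDiff A B, e.card = 4 := by
    intro A B hA hB e he
    rw [Finset.mem_symmDiff] at he
    rcases he with h | h
    · exact hA e h.1
    · exact hB e h.1
  have h2 : ((symmDiff H G).card : ℤ) ≤ ((symmDiff H G').card : ℤ) := by exact_mod_cast h
  rw [h1 _ (hs H G hH hG), h1 _ (hs H G' hH hG')] at h2
  have h3 : ∑ Q ∈ (univ : Finset (Fin n)).powersetCard 4,
      (if mE G Q = mE G' Q then (0 : ℤ) else 1 - 2 * ((mE (symmDiff H G) Q).toNat : ℕ)) =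
      ∑ Q ∈ (univ : Finset (Fin n)).powersetCard 4, (((mE (symmDiff H G') Q).toNat : ℕ) : ℤ) -
        ∑ Q ∈ (univ : Finset (Fin n)).powersetCard 4, (((mE (symmDiff H G) Q).toNat : ℕ) : ℤ) := by
    rw [← Finset.sum_sub_distrib]
    refine Finset.sum_congr rfl fun Q _ => ?_
    have hx : ∀ A B : Finset (Finset (Fin n)), mE (symmDiff A B) Q = (mE A Q ^^ mE B Q) := by
      intro A B
      unfold mE
      by_cases ha : Q ∈ A <;> by_cases hb : Q ∈ B <;> simp [Finset.mem_symmDiff, ha, hb]
    rw [hx, hx]
    cases mE H Q <;> cases mE G Q <;> cases mE G' Q <;> rfl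
  rw [h3]
  linarith

end best

end Pool.Agent.Lib.MP_afdd4d_co.K9.Star
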