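import Pool.Agent.Lib.MP_afdd4d_co.K9.VItemX

/-!
# The conditions of the items and the cases of the averages
-/

namespace Pool.Agent.Lib.MP_afdd4d_co.K9.Star

open Finset K8
open Pool.Agent.Lib.MP_afdd4d_co.K9.Marks

section cond
variable {Cx : CX}

/-- The bound of the distance. -/
theorem hxx_of_X (P : ParX) (X1 : ℝ) (hx : (P.xd : ℝ) * X1 ≤ P.xn)
    (h : ∀ {n : ℕ} (H : Finset (Finset (Fin n))) (χ : Fin n → Bool) M f g, Cx H χ M f g →
      (∀ e ∈ H, e.card = 4) ∧ X4 H (gir χ M f g) ≤ X1) : HXX Cx P := by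
  intro n H χ M f g hc
  obtain ⟨h4, hX⟩ := h H χ M f g hc
  have h1 := jv_tot (symmDiff H (gir χ M f g)) (symmDiff_card4 h4 χ M f g)
  have h2 : 24 * ((symmDiff H (gir χ M f g)).card : ℝ) ≤ X1 * (n : ℝ) ^ 4 := by
    rcases Nat.eq_zero_or_pos n with h0 | h0
    · subst h0
      have h3 : symmDiff H (gir χ M f g) = ∅ := by
        rw [Finset.eq_empty_iff_forall_notMem]
        intro e he
        have h4 := symmDiff_card4 h4 χ M f g e he
        have h5 := Finset.card_le_univ e
        rw [h4, Fintype.card_fin] at h5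
        omega
      rw [h3]
      simp
    · have hn : (0 : ℝ) < (n : ℝ) ^ 4 := by positivity
      unfold X4 at hX
      rw [div_le_iff₀ hn] at hX
      exact hX
  have h3 : (P.xd : ℝ) * ((∑ p, jv (symmDiff H (gir χ M f g)) p : ℤ) : ℝ) ≤
      P.xn * (n : ℝ) ^ 4 := by
    calc (P.xd : ℝ) * ((∑ p, jv (symmDiff H (gir χ M f g)) p : ℤ) : ℝ) ≤
        P.xd * (X1 * (n : ℝ) ^ 4) :=
          mul_le_mul_of_nonneg_left (le_trans h1 h2) (Nat.cast_nonneg _)
      _ = P.xd * X1 * (n : ℝ) ^ 4 := by ring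
      _ ≤ P.xn * (n : ℝ) ^ 4 := mul_le_mul_of_nonneg_right hx (by positivity)
  exact_mod_cast h3

theorem hbc_of_best (w : ℝ) (h : ∀ {n : ℕ} (H : Finset (Finset (Fin n))) (χ : Fin n → Bool) M f g,
    Cx H χ M f g → Best w H χ M f g) : HBC Cx :=
  fun H χ M f g hc => (h H χ M f g hc).toM

/-- A function of the free vertices. -/
def MuX.free {l : ℕ} (m : ℕ) (ψ : MuX l) : MuX (m + l) where
  F := fun D => ψ.F (D.sub (Fin.natAdd m))
  B := ψ.B
  hB := fun _ => ψ.hB _

/-- A function with the values `0` and `1`. -/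
def MuX.ofBool {k : ℕ} (b : WD k → Bool) : MuX k where
  F := fun D => (b D).toNat
  B := 1
  hB := fun _ => Bool.toNat_le _

/-- The constant multiplier. -/
def MuX.one (k : ℕ) : MuX k where
  F := fun _ => 1
  B := 1
  hB := fun _ => le_rfl

theorem free_append (P : ParX) {m l n : ℕ} (ψ : MuX l) (H : Finset (Finset (Fin n)))
    (χ : Fin n → Bool) (M : Fin n → Fin n → Bool) (f g : Finset (Fin n) → Bool)
    (s : Fin m → Fin n) (u : Fin l → Fin n) :
    ((ψ.free m).phi P).F H χ M f g (Fin.append s u) = (ψ.phi P).F H χ M f g u := by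
  have h := ψ.phi_comp P H χ M f g (Fin.append s u) (Fin.natAdd m)
  have e : (Fin.append s u : Fin (m + l) → Fin n) ∘ Fin.natAdd m = u := by
    funext i
    exact Fin.append_right s u i
  rw [e] at h
  exact h.symm

/-- The upper bound of the average of a function of the free vertices. -/
theorem upR_of_avg (P : ParX) {m l : ℕ} (μ : MuX m) (ψ : MuX l) (a b d : ℕ)
    (h : ∀ {n : ℕ} (H : Finset (Finset (Fin n))) (χ : Fin n → Bool) M f g, Cx H χ M f g →
      Avg (ψ.phi P) a b d H χ M f g) : UpR Cx P (l := l) μ (ψ.free m) b d := by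
  intro n H χ M f g hc s _
  rw [Finset.sum_congr rfl fun u _ => free_append P ψ H χ M f g s u]
  exact (h H χ M f g hc).2

/-- The lower bound of the average of a function of the free vertices. -/
theorem loR_of_avg (P : ParX) {m l : ℕ} (μ : MuX m) (ψ : MuX l) (a b d : ℕ)
    (h : ∀ {n : ℕ} (H : Finset (Finset (Fin n))) (χ : Fin n → Bool) M f g, Cx H χ M f g →
      Avg (ψ.phi P) a b d H χ M f g) : LoR Cx P (l := l) μ (ψ.free m) a d := by
  intro n H χ M f g hc s _
  rw [Finset.sum_congr rfl fun u _ => free_append P ψ H χ M f g s u]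
  exact (h H χ M f g hc).1

/-- The product of two functions of disjoint vertices. -/
def MuX.mul {k l : ℕ} (μ : MuX k) (ψ : MuX l) : MuX (k + l) where
  F := fun D => μ.F (D.sub (Fin.castAdd l)) * ψ.F (D.sub (Fin.natAdd k))
  B := μ.B * ψ.B
  hB := fun _ => Nat.mul_le_mul (μ.hB _) (ψ.hB _)

theorem mul_sum_eq (P : ParX) {k l n : ℕ} (μ : MuX k) (ψ : MuX l) (H : Finset (Finset (Fin n)))
    (χ : Fin n → Bool) (M : Fin n → Fin n → Bool) (f g : Finset (Fin n) → Bool) :
    ∑ p, ((μ.mul ψ).phi P).F H χ M f g p =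
      (∑ s, (μ.phi P).F H χ M f g s) * ∑ u, (ψ.phi P).F H χ M f g u := by
  rw [← sum_kl (k := k) (m := l)]
  refine Finset.sum_congr rfl fun p _ => ?_
  rw [μ.phi_comp, ψ.phi_comp]
  show ((μ.F ((wd P H χ M f g p).sub (Fin.castAdd l)) *
    ψ.F ((wd P H χ M f g p).sub (Fin.natAdd k)) : ℕ) : ℤ) = _
  push_cast
  rfl

/-- The average of a product of functions of disjoint vertices. -/
theorem avg_mul (P : ParX) {k l : ℕ} (μ : MuX k) (ψ : MuX l) (a b d a' b' d' : ℕ) {n : ℕ}
    (H : Finset (Finset (Fin n))) (χ : Fin n → Bool) (M : Fin n → Fin n → Bool)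
    (f g : Finset (Fin n) → Bool) (h : Avg (μ.phi P) a b d H χ M f g)
    (h' : Avg (ψ.phi P) a' b' d' H χ M f g) :
    Avg ((μ.mul ψ).phi P) (a * a') (b * b') (d * d') H χ M f g := by
  obtain ⟨h1, h2⟩ := h
  obtain ⟨h1', h2'⟩ := h'
  unfold Avg
  rw [mul_sum_eq]
  set A : ℤ := ∑ s, (μ.phi P).F H χ M f g s
  set B : ℤ := ∑ u, (ψ.phi P).F H χ M f g u
  have hA : 0 ≤ A := Finset.sum_nonneg fun s _ => (μ.phi P).h0 _ _ _ _ _ _
  have hB : 0 ≤ B := Finset.sum_nonneg fun s _ => (ψ.phi P).h0 _ _ _ _ _ _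
  push_cast
  constructor
  · have h3 := mul_le_mul h1 h1' (by positivity) (by positivity)
    calc (a * a' : ℤ) * (n : ℤ) ^ (k + l) = a * (n : ℤ) ^ k * (a' * (n : ℤ) ^ l) := by ring
      _ ≤ d * A * (d' * B) := h3
      _ = d * d' * (A * B) := by ring
  · have h3 := mul_le_mul h2 h2' (by positivity) (by positivity)
    calc (d * d' : ℤ) * (A * B) = d * A * (d' * B) := by ring
      _ ≤ b * (n : ℤ) ^ k * (b' * (n : ℤ) ^ l) := h3
      _ = (b * b' : ℤ) * (n : ℤ) ^ (k + l) := by ring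

end cond

/-! ### Lists of items -/

/-- An item with a weight and an ordering of the window. -/
structure WItem where
  i : ItemX
  w : ℕ
  π : Equiv.Perm (Fin 6)

/-- The sum of a list of items. -/
def itemsF (P : ParX) (L : List WItem) : Fun6 := fun H χ M f g t =>
  (L.map fun x => (x.w : ℤ) * x.i.fn P H χ M f g (t ∘ x.π)).sum

/-- The sum of a list of items on a window. -/
def itemsV (P : ParX) (L : List WItem) (D : WD 6) : ℤ :=
  (L.map fun x => (x.w : ℤ) * x.i.val P (D.sub x.π)).sum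

theorem good_items (Cx : CX) (P : ParX) (L : List WItem) (h : ∀ x ∈ L, x.i.Ok Cx P) :
    GoodC Cx (fun H χ M f g t => itemsF P L H χ M f g t) := by
  induction L with
  | nil =>
    show GoodC Cx (fun _ _ _ _ _ _ => 0)
    exact GoodC.zero
  | cons x L ih =>
    have h1 := ((good_itemX Cx P x.i (h x (by simp))).perm x.π).smul x.w
    have h2 := ih fun y hy => h y (by simp [hy])
    have h3 := h1.add h2
    intro δ hδ
    obtain ⟨N, hN⟩ := h3 δ hδ
    refine ⟨N, fun n hn H χ M f g hc => le_trans (hN n hn H χ M f g hc) (le_of_eq ?_)⟩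
    refine Finset.sum_congr rfl fun t _ => ?_
    simp only [itemsF, List.map_cons, List.sum_cons]

theorem itemsF_eq (P : ParX) (L : List WItem) {n : ℕ} (H : Finset (Finset (Fin n)))
    (χ : Fin n → Bool) (M : Fin n → Fin n → Bool) (f g : Finset (Fin n) → Bool)
    (t : Fin 6 → Fin n) (ht : Function.Injective t) :
    itemsF P L H χ M f g t = itemsV P L (wd P H χ M f g t) := by
  unfold itemsF itemsV
  congr 1
  refine List.map_congr_left fun x _ => ?_
  rw [x.i.val_eq H χ M f g (t ∘ x.π) P (ht.comp x.π.injective), wd_comp]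

/-- A function of the visible data of the window that is at least the sum of the items. -/
theorem good_V (Cx : CX) (P : ParX) (L : List WItem) (h : ∀ x ∈ L, x.i.Ok Cx P)
    (V : WD 6 → ℤ) (hV : ∀ {n : ℕ} (H : Finset (Finset (Fin n))) (χ : Fin n → Bool) M f g,
      Cx H χ M f g → ∀ t : Fin 6 → Fin n, Function.Injective t →
      itemsV P L (wd P H χ M f g t) ≤ V (wd P H χ M f g t)) :
    GoodC Cx (fun H χ M f g t => V (wd P H χ M f g t)) :=
  (good_items Cx P L h).mono fun H χ M f g hc t ht => by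
    rw [itemsF_eq P L H χ M f g t ht]
    exact hV H χ M f g hc t ht

end Pool.Agent.Lib.MP_afdd4d_co.K9.Star
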