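import Pool.Agent.Lib.MP_afdd4d_co.K9.T4K

/-!
# The local theorem with a general context

The functions with almost nonnegative average for 4-graphs and reference structures that satisfy a
given condition, and the local theorem from inequalities on six-tuples for such a condition.
-/

namespace Pool.Agent.Lib.MP_afdd4d_co.K9.Star

open Finset K8

/-- Conditions on a 4-graph and a reference structure. -/
abbrev CX : Type := ∀ {n : ℕ}, Finset (Finset (Fin n)) → (Fin n → Bool) →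
  (Fin n → Fin n → Bool) → (Finset (Fin n) → Bool) → (Finset (Fin n) → Bool) → Prop

/-- The average of the function is almost nonnegative for large `n`. -/
def GoodC (Cx : CX) (Z : Fun6) : Prop :=
  ∀ δ : ℝ, 0 < δ → ∃ N : ℕ, ∀ n : ℕ, N ≤ n → ∀ (H : Finset (Finset (Fin n))) (χ : Fin n → Bool)
    (M : Fin n → Fin n → Bool) (f g : Finset (Fin n) → Bool), Cx H χ M f g →
    -(δ * (n : ℝ) ^ 6) ≤ ∑ t ∈ inj (Fin n) 6, ((Z H χ M f g t : ℤ) : ℝ)

section good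
variable {Cx : CX}

theorem GoodC.weaken {Cx' : CX} {Z : Fun6} (h : GoodC Cx Z)
    (hc : ∀ {n : ℕ} (H : Finset (Finset (Fin n))) (χ : Fin n → Bool) M f g,
      Cx' H χ M f g → Cx H χ M f g) : GoodC Cx' Z := by
  intro δ hδ
  obtain ⟨N, hN⟩ := h δ hδ
  exact ⟨N, fun n hn H χ M f g hx => hN n hn H χ M f g (hc H χ M f g hx)⟩

/-- The functions with almost nonnegative average in the simplest context. -/
theorem GoodC.of_good {P : ∀ n : ℕ, Finset (Finset (Fin n)) → Prop} {X1 : ℝ} {Z : Fun6}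
    (h : Good P X1 Z) (hc : ∀ {n : ℕ} (H : Finset (Finset (Fin n))) (χ : Fin n → Bool) M f g,
      Cx H χ M f g → Ctx P X1 H χ M f g) : GoodC Cx Z := by
  intro δ hδ
  obtain ⟨N, hN⟩ := h δ hδ
  exact ⟨N, fun n hn H χ M f g hx => hN n hn H χ M f g (hc H χ M f g hx)⟩

theorem GoodC.add {Z Z' : Fun6} (h : GoodC Cx Z) (h' : GoodC Cx Z') :
    GoodC Cx (fun H χ M f g t => Z H χ M f g t + Z' H χ M f g t) := by
  intro δ hδ
  obtain ⟨N, hN⟩ := h (δ / 2) (by positivity)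
  obtain ⟨N', hN'⟩ := h' (δ / 2) (by positivity)
  refine ⟨max N N', fun n hn H χ M f g hc => ?_⟩
  have h1 := hN n (le_trans (le_max_left _ _) hn) H χ M f g hc
  have h2 := hN' n (le_trans (le_max_right _ _) hn) H χ M f g hc
  have h3 : ∑ t ∈ inj (Fin n) 6, ((Z H χ M f g t + Z' H χ M f g t : ℤ) : ℝ) =
      ∑ t ∈ inj (Fin n) 6, ((Z H χ M f g t : ℤ) : ℝ) +
        ∑ t ∈ inj (Fin n) 6, ((Z' H χ M f g t : ℤ) : ℝ) := by
    rw [← Finset.sum_add_distrib]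
    refine Finset.sum_congr rfl fun t _ => ?_
    push_cast
    rfl
  rw [h3]
  linarith

theorem GoodC.smul {Z : Fun6} (w : ℕ) (h : GoodC Cx Z) :
    GoodC Cx (fun H χ M f g t => (w : ℤ) * Z H χ M f g t) := by
  intro δ hδ
  have hw : (0 : ℝ) < w + 1 := by positivity
  obtain ⟨N, hN⟩ := h (δ / (w + 1)) (by positivity)
  refine ⟨N, fun n hn H χ M f g hc => ?_⟩
  have h1 := hN n hn H χ M f g hc
  have h3 : ∑ t ∈ inj (Fin n) 6, (((w : ℤ) * Z H χ M f g t : ℤ) : ℝ) =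
      (w : ℝ) * ∑ t ∈ inj (Fin n) 6, ((Z H χ M f g t : ℤ) : ℝ) := by
    rw [Finset.mul_sum]
    refine Finset.sum_congr rfl fun t _ => ?_
    push_cast
    rfl
  rw [h3]
  have h4 := mul_le_mul_of_nonneg_left h1 (Nat.cast_nonneg (α := ℝ) w)
  have h5 : (w : ℝ) * (δ / (w + 1) * (n : ℝ) ^ 6) ≤ δ * (n : ℝ) ^ 6 := by
    have h6 : (w : ℝ) * (δ / (w + 1)) ≤ δ := by
      rw [← mul_div_assoc, div_le_iff₀ hw]
      nlinarith
    calc (w : ℝ) * (δ / (w + 1) * (n : ℝ) ^ 6) = (w : ℝ) * (δ / (w + 1)) * (n : ℝ) ^ 6 := by ring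
      _ ≤ δ * (n : ℝ) ^ 6 := mul_le_mul_of_nonneg_right h6 (by positivity)
  linarith

theorem GoodC.zero : GoodC Cx (fun _ _ _ _ _ _ => 0) := by
  intro δ hδ
  refine ⟨0, fun n _ H χ M f g _ => ?_⟩
  simp only [Int.cast_zero, Finset.sum_const_zero]
  have : 0 ≤ δ * (n : ℝ) ^ 6 := by positivity
  linarith

theorem GoodC.sum {ι : Type*} (s : Finset ι) (Z : ι → Fun6)
    (h : ∀ i ∈ s, GoodC Cx (fun H χ M f g t => Z i H χ M f g t)) :
    GoodC Cx (fun H χ M f g t => ∑ i ∈ s, Z i H χ M f g t) := by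
  classical
  induction s using Finset.induction_on with
  | empty =>
    intro δ hδ
    refine ⟨0, fun n _ H χ M f g _ => ?_⟩
    simp only [Finset.sum_empty, Int.cast_zero, Finset.sum_const_zero]
    have : 0 ≤ δ * (n : ℝ) ^ 6 := by positivity
    linarith
  | insert a s ha ih =>
    have h1 := h a (Finset.mem_insert_self a s)
    have h2 := ih fun i hi => h i (Finset.mem_insert_of_mem hi)
    have h3 := h1.add h2
    intro δ hδ
    obtain ⟨N, hN⟩ := h3 δ hδ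
    refine ⟨N, fun n hn H χ M f g hc => ?_⟩
    have h4 := hN n hn H χ M f g hc
    refine le_trans h4 (le_of_eq ?_)
    refine Finset.sum_congr rfl fun t _ => ?_
    show ((Z a H χ M f g t + ∑ i ∈ s, Z i H χ M f g t : ℤ) : ℝ) =
      ((∑ i ∈ insert a s, Z i H χ M f g t : ℤ) : ℝ)
    rw [Finset.sum_insert ha]

theorem GoodC.mono {Z Z' : Fun6} (h : GoodC Cx Z)
    (hle : ∀ {n : ℕ} (H : Finset (Finset (Fin n))) (χ : Fin n → Bool) M f g,
      Cx H χ M f g → ∀ t : Fin 6 → Fin n, Function.Injective t →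
      Z H χ M f g t ≤ Z' H χ M f g t) : GoodC Cx (fun H χ M f g t => Z' H χ M f g t) := by
  intro δ hδ
  obtain ⟨N, hN⟩ := h δ hδ
  refine ⟨N, fun n hn H χ M f g hc => ?_⟩
  refine le_trans (hN n hn H χ M f g hc) (Finset.sum_le_sum fun t ht => ?_)
  exact_mod_cast hle H χ M f g hc t (mem_inj.mp ht)

/-- Functions with a bound in terms of the number of tuples that are not injective. -/
theorem GoodC.of_bound {Z : Fun6} (C : ℝ)
    (h : ∀ {n : ℕ} (H : Finset (Finset (Fin n))) (χ : Fin n → Bool) M f g,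
      Cx H χ M f g → -(C * ((n : ℝ) ^ 6 - (n.descFactorial 6 : ℝ))) ≤
        ∑ t ∈ inj (Fin n) 6, ((Z H χ M f g t : ℤ) : ℝ)) :
    GoodC Cx (fun H χ M f g t => Z H χ M f g t) := by
  intro δ hδ
  obtain ⟨N, hN⟩ := exists_nat_gt (60 * |C| / δ)
  refine ⟨max 30 N, fun n hn H χ M f g hc => ?_⟩
  have h30 : 30 ≤ n := le_trans (le_max_left _ _) hn
  have hNn : (N : ℝ) ≤ n := by exact_mod_cast le_trans (le_max_right _ _) hn
  have hn0 : (0 : ℝ) < n := by exact_mod_cast (by omega : 0 < n)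
  refine le_trans ?_ (h H χ M f g hc)
  have h1 := D6_le h30
  have h2 := desc_le n 6
  have h3 : 60 / (n : ℝ) * (n.descFactorial 6 : ℝ) ≤ 60 / (n : ℝ) * (n : ℝ) ^ 6 :=
    mul_le_mul_of_nonneg_left h2 (by positivity)
  have h4 : 0 ≤ (n : ℝ) ^ 6 - (n.descFactorial 6 : ℝ) := by linarith
  have h5 : C * ((n : ℝ) ^ 6 - (n.descFactorial 6 : ℝ)) ≤ |C| * (60 / (n : ℝ) * (n : ℝ) ^ 6) := by
    calc C * ((n : ℝ) ^ 6 - (n.descFactorial 6 : ℝ)) ≤
        |C| * ((n : ℝ) ^ 6 - (n.descFactorial 6 : ℝ)) :=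
          mul_le_mul_of_nonneg_right (le_abs_self C) h4
      _ ≤ |C| * (60 / (n : ℝ) * (n : ℝ) ^ 6) :=
          mul_le_mul_of_nonneg_left (by linarith) (abs_nonneg _)
  have h6 : |C| * (60 / (n : ℝ)) ≤ δ := by
    have h7 : 60 * |C| / δ < n := lt_of_lt_of_le hN hNn
    rw [div_lt_iff₀ hδ] at h7
    rw [← mul_div_assoc, div_le_iff₀ hn0]
    linarith
  have h7 := mul_le_mul_of_nonneg_right h6 (by positivity : (0 : ℝ) ≤ (n : ℝ) ^ 6)
  have h8 : |C| * (60 / (n : ℝ)) * (n : ℝ) ^ 6 = |C| * (60 / (n : ℝ) * (n : ℝ) ^ 6) := by ring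
  rw [h8] at h7
  linarith

end good

/-- The local theorem from the rows, for a general context. -/
theorem t4c_of_rows {P : ∀ n : ℕ, Finset (Finset (Fin n)) → Prop} {Cx : CX} (hO : SumO5)
    (hE : EvUp) (cn cd : ℤ) (hcn : 0 ≤ cn) (hcd : 0 < cd) (N x y : ℕ)
    (hN : 0 < N) (Z : Fun6) (hZ : GoodC Cx Z) (hrow : T4Row P N x y cn cd Z) :
    ∀ ε : ℝ, 0 < ε → ∃ η : ℝ, 0 < η ∧ ∃ N : ℕ, ∀ n : ℕ, N ≤ n → ∀ H : Finset (Finset (Fin n)),
    (∀ e ∈ H, e.card = 4) → K5F H → P n H → 11 / 16 ≤ e4 H → ∀ χ M f g, Cx H χ M f g →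
    X4 H (gir χ M f g) + 9 / 10 * sg2 χ ≤ FC ((cn : ℝ) / cd) H + η →
    e4 H ≤ 11 / 16 + ε := by
  intro ε hε
  have hcn' : (0 : ℝ) ≤ cn := by exact_mod_cast hcn
  have hcd' : (0 : ℝ) < cd := by exact_mod_cast hcd
  have hN' : (0 : ℝ) < N := by exact_mod_cast hN
  set δ : ℝ := 48 * N * ε with hδ
  have hδ0 : 0 < δ := by positivity
  obtain ⟨N1, hN1⟩ := hZ δ hδ0
  obtain ⟨N2, hN2⟩ := hE (δ / (240 * (y + 1))) (by positivity)
  set K1 : ℝ := 24000 * cd + 102000 * cn with hK1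
  have hK10 : 0 ≤ K1 := by positivity
  obtain ⟨N3, hN3⟩ := exists_nat_gt ((2160 * N + x * K1) / δ)
  set η : ℝ := δ / (2400 * cd * (x + 1)) with hη
  have hη0 : 0 < η := by positivity
  refine ⟨η, hη0, max 30 (max N1 (max N2 N3)), fun n hn H h4 hk5 hP _ χ M f g hc hX2 => ?_⟩
  have h30 : 30 ≤ n := le_trans (le_max_left _ _) hn
  have hn' : max N1 (max N2 N3) ≤ n := le_trans (le_max_right _ _) hn
  have hn1 : N1 ≤ n := le_trans (le_max_left _ _) hn'
  have hn2 : N2 ≤ n := le_trans (le_trans (le_max_left _ _) (le_max_right _ _)) hn'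
  have hn3 : N3 ≤ n := le_trans (le_trans (le_max_right _ _) (le_max_right _ _)) hn'
  have hn3' : (N3 : ℝ) ≤ n := by exact_mod_cast hn3
  have hn0 : (0 : ℝ) < n := by exact_mod_cast (by omega : 0 < n)
  have s1 := hN1 n hn1 H χ M f g hc
  have s2 : -(δ * (n : ℝ) ^ 6) ≤
      ∑ t ∈ inj (Fin n) 6, (((y : ℤ) * colR (zb (gir χ M f g) t) : ℤ) : ℝ) := by
    have h1 := hN2 n hn2 (gir χ M f g) (gir_card χ M f g) (evenH_gir χ M f g)
    have e1 : ∑ t ∈ inj (Fin n) 6, (((y : ℤ) * colR (zb (gir χ M f g) t) : ℤ) : ℝ) =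
        y * (165 * (n.descFactorial 6 : ℝ) -
          16 * (360 * (PP n 4 2 * ((gir χ M f g).card : ℝ)))) := by
      have e2 : ∀ t : Fin 6 → Fin n, (((y : ℤ) * colR (zb (gir χ M f g) t) : ℤ) : ℝ) =
          y * (165 - 16 * ((S4 (zb (gir χ M f g) t) : ℤ) : ℝ)) := by
        intro t
        unfold colR
        push_cast
        ring
      rw [Finset.sum_congr rfl fun t _ => e2 t, ← Finset.mul_sum]
      simp_rw [Finset.sum_sub_distrib, ← Finset.mul_sum]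
      rw [sum6_S4 _ (gir_card χ M f g)]
      simp only [Finset.sum_const, nsmul_eq_mul, card_inj, Fintype.card_fin]
      ring
    rw [e1]
    have h2 := desc6_eq (n := n) (by omega)
    have h3 : 0 ≤ PP n 4 2 := by
      have h4 := desc6_pos (n := n) (by omega)
      have h5 := choose4_pos (n := n) (by omega)
      by_contra hlt
      push Not at hlt
      have : 24 * ((n.choose 4 : ℕ) : ℝ) * PP n 4 2 < 0 := by
        apply mul_neg_of_pos_of_neg (by positivity) hlt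
      linarith
    have h4 : PP n 4 2 * ((gir χ M f g).card : ℝ) ≤
        PP n 4 2 * ((11 / 16 + δ / (240 * (y + 1))) * ((n.choose 4 : ℕ) : ℝ)) :=
      mul_le_mul_of_nonneg_left h1 h3
    have h5 : 5760 * (PP n 4 2 * ((11 / 16 + δ / (240 * (y + 1))) * ((n.choose 4 : ℕ) : ℝ))) =
        (165 + δ / (y + 1)) * (n.descFactorial 6 : ℝ) := by
      rw [h2]
      field_simp
      ring
    have h7 := desc_le n 6
    have h8 : (y : ℝ) * (δ / (y + 1)) ≤ δ := by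
      rw [← mul_div_assoc, div_le_iff₀ (by positivity)]
      nlinarith
    have h9 : -(δ / (y + 1) * (n.descFactorial 6 : ℝ)) ≤
        165 * (n.descFactorial 6 : ℝ) - 16 * (360 * (PP n 4 2 * ((gir χ M f g).card : ℝ))) := by
      linarith
    have h10 := mul_le_mul_of_nonneg_left h9 (Nat.cast_nonneg (α := ℝ) y)
    have h11 : (y : ℝ) * (δ / (y + 1) * (n.descFactorial 6 : ℝ)) ≤ δ * (n : ℝ) ^ 6 := by
      calc (y : ℝ) * (δ / (y + 1) * (n.descFactorial 6 : ℝ)) =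
          (y : ℝ) * (δ / (y + 1)) * (n.descFactorial 6 : ℝ) := by ring
        _ ≤ δ * (n.descFactorial 6 : ℝ) := mul_le_mul_of_nonneg_right h8 (by positivity)
        _ ≤ δ * (n : ℝ) ^ 6 := mul_le_mul_of_nonneg_left h7 hδ0.le
    linarith
  have s3 := sum_colF hO cn cd hcn hcd h30 H (gir χ M f g) h4 (gir_card χ M f g) χ
  -- the sum of the rows
  have s4 : ∑ t ∈ inj (Fin n) 6, ((Z H χ M f g t + x * colF cn cd (zb H t) (zb (gir χ M f g) t)
      (fun i => χ (t i)) + y * colR (zb (gir χ M f g) t) : ℤ) : ℝ) ≤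
      ∑ t ∈ inj (Fin n) 6, ((N * (165 - 16 * S4 (zb H t)) : ℤ) : ℝ) := by
    refine Finset.sum_le_sum fun t ht => ?_
    exact_mod_cast hrow n H χ M f g h4 hk5 hP t (mem_inj.mp ht)
  have e1 : ∑ t ∈ inj (Fin n) 6, ((Z H χ M f g t + x * colF cn cd (zb H t) (zb (gir χ M f g) t)
      (fun i => χ (t i)) + y * colR (zb (gir χ M f g) t) : ℤ) : ℝ) =
      ∑ t ∈ inj (Fin n) 6, ((Z H χ M f g t : ℤ) : ℝ) +
      (x : ℝ) * ∑ t ∈ inj (Fin n) 6, ((colF cn cd (zb H t) (zb (gir χ M f g) t)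
        (fun i => χ (t i)) : ℤ) : ℝ) +
      ∑ t ∈ inj (Fin n) 6, (((y : ℤ) * colR (zb (gir χ M f g) t) : ℤ) : ℝ) := by
    rw [Finset.mul_sum, ← Finset.sum_add_distrib, ← Finset.sum_add_distrib]
    refine Finset.sum_congr rfl fun t _ => ?_
    push_cast
    ring
  have e2 : ∑ t ∈ inj (Fin n) 6, ((N * (165 - 16 * S4 (zb H t)) : ℤ) : ℝ) =
      N * (165 * (n.descFactorial 6 : ℝ) - 5760 * (PP n 4 2 * (H.card : ℝ))) := by
    have e3 : ∀ t : Fin 6 → Fin n, ((N * (165 - 16 * S4 (zb H t)) : ℤ) : ℝ) =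
        N * 165 - 16 * N * ((S4 (zb H t) : ℤ) : ℝ) := by
      intro t
      push_cast
      ring
    rw [Finset.sum_congr rfl fun t _ => e3 t]
    simp_rw [Finset.sum_sub_distrib, ← Finset.mul_sum]
    rw [sum6_S4 H h4]
    simp only [Finset.sum_const, nsmul_eq_mul, card_inj, Fintype.card_fin]
    ring
  rw [e1, e2] at s4
  -- the estimates
  have hn6 : (0 : ℝ) < (n : ℝ) ^ 6 := by positivity
  have b1 : (x : ℝ) * ((n : ℝ) ^ 6 * -(δ / (x + 1) + K1 / n)) ≤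
      (x : ℝ) * ∑ t ∈ inj (Fin n) 6, ((colF cn cd (zb H t) (zb (gir χ M f g) t)
        (fun i => χ (t i)) : ℤ) : ℝ) := by
    refine mul_le_mul_of_nonneg_left (le_trans ?_ s3) (Nat.cast_nonneg _)
    refine mul_le_mul_of_nonneg_left ?_ hn6.le
    have h1 : -η ≤ FC ((cn : ℝ) / cd) H - X4 H (gir χ M f g) - 9 / 10 * sg2 χ := by linarith
    have h2 := mul_le_mul_of_nonneg_left h1 hcd'.le
    have h4 : 2400 * ((cd : ℝ) * η) = δ / (x + 1) := by
      rw [hη]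
      field_simp
    rw [← hK1]
    linarith
  have b2 : (x : ℝ) * (δ / (x + 1)) ≤ δ := by
    rw [← mul_div_assoc, div_le_iff₀ (by positivity)]
    nlinarith
  have b3 : (2160 * N + x * K1) / n ≤ δ := by
    have h7 : (2160 * N + x * K1) / δ < n := lt_of_lt_of_le hN3 hn3'
    rw [div_lt_iff₀ hδ0] at h7
    rw [div_le_iff₀ hn0]
    linarith
  have he1 := e4_le_one H h4 (by omega)
  have he0 : 0 ≤ e4 H := by unfold e4; positivity
  have fe : 24 * (H.card : ℝ) = (n : ℝ) ^ 4 * e4 H := by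
    unfold e4
    field_simp
  have b4 : (n : ℝ) ^ 6 * (e4 H * (1 - 9 / n)) ≤ 24 * (PP n 4 2 * (H.card : ℝ)) := by
    have h1 := PP42_ge n
    have h2 := mul_le_mul_of_nonneg_right h1 (by positivity : 0 ≤ (n : ℝ) ^ 4 * e4 H)
    have h3 : ((n : ℝ) ^ 2 - 9 * n) * ((n : ℝ) ^ 4 * e4 H) =
        (n : ℝ) ^ 6 * (e4 H * (1 - 9 / n)) := by
      field_simp
    rw [h3, ← fe] at h2
    linarith
  have b5 : 9 / (n : ℝ) * e4 H ≤ 9 / n := by
    have : 0 ≤ 9 / (n : ℝ) := by positivity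
    nlinarith
  have b6 := desc_le n 6
  have b7 : (N : ℝ) * (165 * (n.descFactorial 6 : ℝ) - 5760 * (PP n 4 2 * (H.card : ℝ))) ≤
      (n : ℝ) ^ 6 * (N * (165 - 240 * e4 H + 2160 / n)) := by
    have h1 : 165 * (n.descFactorial 6 : ℝ) - 5760 * (PP n 4 2 * (H.card : ℝ)) ≤
        (n : ℝ) ^ 6 * (165 - 240 * e4 H + 2160 / n) := by
      have h2 : (n : ℝ) ^ 6 * (9 / (n : ℝ) * e4 H) ≤ (n : ℝ) ^ 6 * (9 / n) :=
        mul_le_mul_of_nonneg_left b5 hn6.le
      have h3 : (n : ℝ) ^ 6 * (2160 / n) = 240 * ((n : ℝ) ^ 6 * (9 / n)) := by ring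
      have h4 : (n : ℝ) ^ 6 * (e4 H * (1 - 9 / n)) =
          (n : ℝ) ^ 6 * e4 H - (n : ℝ) ^ 6 * (9 / (n : ℝ) * e4 H) := by ring
      rw [h4] at b4
      have h5 : (n : ℝ) ^ 6 * (165 - 240 * e4 H + 2160 / n) =
          165 * (n : ℝ) ^ 6 - 240 * ((n : ℝ) ^ 6 * e4 H) + (n : ℝ) ^ 6 * (2160 / n) := by ring
      rw [h5, h3]
      linarith
    have h2 := mul_le_mul_of_nonneg_left h1 hN'.le
    calc _ ≤ _ := h2
      _ = _ := by ring
  have fin : (n : ℝ) ^ 6 * (240 * N * e4 H) ≤ (n : ℝ) ^ 6 * (165 * N + 5 * δ) := by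
    have h1 : (x : ℝ) * ((n : ℝ) ^ 6 * -(δ / (x + 1) + K1 / n)) =
        -((n : ℝ) ^ 6 * (x * (δ / (x + 1)))) - (n : ℝ) ^ 6 * (x * K1 / n) := by ring
    have h2 : (n : ℝ) ^ 6 * (x * (δ / (x + 1))) ≤ (n : ℝ) ^ 6 * δ :=
      mul_le_mul_of_nonneg_left b2 hn6.le
    have h3 : (n : ℝ) ^ 6 * ((2160 * N + x * K1) / n) ≤ (n : ℝ) ^ 6 * δ :=
      mul_le_mul_of_nonneg_left b3 hn6.le
    have h4 : (n : ℝ) ^ 6 * ((2160 * N + x * K1) / n) =
        (n : ℝ) ^ 6 * (N * (2160 / n)) + (n : ℝ) ^ 6 * (x * K1 / n) := by ring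
    have h5 : (n : ℝ) ^ 6 * (N * (165 - 240 * e4 H + 2160 / n)) =
        (n : ℝ) ^ 6 * (165 * N) - (n : ℝ) ^ 6 * (240 * N * e4 H) +
          (n : ℝ) ^ 6 * (N * (2160 / n)) := by ring
    rw [h5] at b7
    rw [h1] at b1
    rw [h4] at h3
    have h6 : (n : ℝ) ^ 6 * (165 * N + 5 * δ) =
        (n : ℝ) ^ 6 * (165 * N) + 5 * ((n : ℝ) ^ 6 * δ) := by ring
    have h7 : 0 < (n : ℝ) ^ 6 * δ := by positivity
    rw [h6]
    linarith
  have fin2 : 240 * N * e4 H ≤ 165 * N + 5 * δ := le_of_mul_le_mul_left fin hn6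
  have fin3 : 240 * (N : ℝ) * e4 H ≤ 240 * N * (11 / 16 + ε) := by
    rw [hδ] at fin2
    linarith
  exact le_of_mul_le_mul_left fin3 (by positivity)

end Pool.Agent.Lib.MP_afdd4d_co.K9.Star
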