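import Pool.Agent.Lib.MP_afdd4d_co.K9.VGood

/-!
# The quadruples at a vertex
-/

namespace Pool.Agent.Lib.MP_afdd4d_co.K9.Marks

open Finset K8

section orders
variable {V : Type*} [Fintype V] [DecidableEq V]

theorem card_orders (S : Finset V) (r : ℕ) (hS : S.card = r) :
    ((univ : Finset (Fin r → V)).filter fun a => Function.Injective a ∧ univ.image a = S).card =
      r.factorial := by
  classical
  have h1 : ((univ : Finset (Fin r → V)).filter fun a => Function.Injective a ∧ univ.image a = S) =
      (inj S r).image fun b i => (b i : V) := by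
    ext a
    rw [Finset.mem_filter, Finset.mem_image]
    constructor
    · rintro ⟨_, h2, h3⟩
      have h4 : ∀ i, a i ∈ S := fun i => by
        rw [← h3]
        exact Finset.mem_image_of_mem _ (Finset.mem_univ _)
      refine ⟨fun i => ⟨a i, h4 i⟩, mem_inj.mpr ?_, rfl⟩
      intro i j hij
      exact h2 (congrArg Subtype.val hij)
    · rintro ⟨b, hb, rfl⟩
      have hb' := mem_inj.mp hb
      have hi : Function.Injective fun i => (b i : V) := fun i j hij => hb' (Subtype.ext hij)
      refine ⟨Finset.mem_univ _, hi, ?_⟩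
      apply Finset.eq_of_subset_of_card_le
      · intro y hy
        rw [Finset.mem_image] at hy
        obtain ⟨i, _, rfl⟩ := hy
        exact (b i).2
      · rw [Finset.card_image_of_injective _ hi, Finset.card_univ, Fintype.card_fin, hS]
  rw [h1, Finset.card_image_of_injective]
  · rw [card_inj, Fintype.card_coe, hS, Nat.descFactorial_self]
  · intro b c hbc
    funext i
    exact Subtype.ext (congrFun hbc i)

/-- The sum over the injective tuples of a function of the image. -/
theorem sum_img_r (r : ℕ) (f : Finset V → ℤ) :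
    ∑ b : Fin r → V, (if Function.Injective b then f (univ.image b) else 0) =
      r.factorial * ∑ Q ∈ (univ : Finset V).powersetCard r, f Q := by
  classical
  rw [← Finset.sum_filter]
  have hm : ∀ b ∈ (univ : Finset (Fin r → V)).filter (fun b => Function.Injective b),
      univ.image b ∈ (univ : Finset V).powersetCard r := by
    intro b hb
    rw [Finset.mem_powersetCard]
    refine ⟨Finset.subset_univ _, ?_⟩
    rw [Finset.card_image_of_injective _ (Finset.mem_filter.mp hb).2, Finset.card_univ,
      Fintype.card_fin]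
  rw [← Finset.sum_fiberwise_of_maps_to hm, Finset.mul_sum]
  refine Finset.sum_congr rfl fun Q hQ => ?_
  rw [Finset.filter_filter]
  have h1 : ∀ b ∈ (univ : Finset (Fin r → V)).filter
      (fun b => Function.Injective b ∧ univ.image b = Q), f (univ.image b) = f Q := by
    intro b hb
    rw [(Finset.mem_filter.mp hb).2.2]
  rw [Finset.sum_congr rfl h1, Finset.sum_const, card_orders Q r (Finset.mem_powersetCard.mp hQ).2,
    nsmul_eq_mul]

end orders

section vse
variable {n : ℕ} (J : Finset (Finset (Fin n)))

theorem inj_cons_iff {k : ℕ} (x : Fin n) (u : Fin k → Fin n) :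
    Function.Injective (Fin.cons x u : Fin (k + 1) → Fin n) ↔
      (x ∉ univ.image u ∧ Function.Injective u) := by
  rw [Fin.cons_injective_iff]
  refine and_congr_left fun _ => not_congr ?_
  rw [Finset.mem_image, Set.mem_range]
  exact ⟨fun ⟨i, hi⟩ => ⟨i, Finset.mem_univ _, hi⟩, fun ⟨i, _, hi⟩ => ⟨i, hi⟩⟩

theorem vec_cons (x : Fin n) (u : Fin 3 → Fin n) :
    (![x, u 0, u 1, u 2] : Fin 4 → Fin n) = Fin.cons x u := by
  funext i
  fin_cases i <;> rfl

theorem image_cons {k : ℕ} (x : Fin n) (u : Fin k → Fin n) :
    (univ : Finset (Fin (k + 1))).image (Fin.cons x u : Fin (k + 1) → Fin n) =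
      insert x (univ.image u) := by
  ext y
  rw [Finset.mem_image, Finset.mem_insert, Finset.mem_image]
  constructor
  · rintro ⟨i, _, hi⟩
    refine Fin.cases ?_ (fun j => ?_) i hi
    · intro h
      rw [Fin.cons_zero] at h
      exact Or.inl h.symm
    · intro h
      rw [Fin.cons_succ] at h
      exact Or.inr ⟨j, Finset.mem_univ _, h⟩
  · rintro (h | ⟨j, _, hj⟩)
    · exact ⟨0, Finset.mem_univ _, by rw [Fin.cons_zero, h]⟩
    · exact ⟨j.succ, Finset.mem_univ _, by rw [Fin.cons_succ, hj]⟩

/-- The number of quadruples at a vertex by ordered triples. -/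
theorem vs_eq (hJ : ∀ e ∈ J, e.card = 4) (x : Fin n) :
    vs (jv J) x = 6 * ((J.filter fun e => x ∈ e).card : ℤ) := by
  classical
  have h1 : vs (jv J) x = ∑ u : Fin 3 → Fin n, (if Function.Injective u then
      (fun T : Finset (Fin n) => if x ∉ T ∧ insert x T ∈ J then (1 : ℤ) else 0) (univ.image u)
      else 0) := by
    unfold vs
    refine Finset.sum_congr rfl fun u _ => ?_
    unfold jv
    rw [vec_cons, image_cons]
    have hci := inj_cons_iff x u
    by_cases hu : Function.Injective u
    · rw [if_pos hu]
      refine if_congr ?_ rfl rfl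
      exact ⟨fun h => ⟨(hci.mp h.1).1, h.2⟩, fun h => ⟨hci.mpr ⟨h.1, hu⟩, h.2⟩⟩
    · rw [if_neg hu, if_neg fun h => hu (hci.mp h.1).2]
  rw [h1, sum_img_r 3 (fun T : Finset (Fin n) => if x ∉ T ∧ insert x T ∈ J then (1 : ℤ) else 0)]
  have h3 : ((Nat.factorial 3 : ℕ) : ℤ) = 6 := by decide
  rw [h3, Finset.sum_boole]
  congr 2
  symm
  refine Finset.card_bij (fun e _ => e.erase x) ?_ ?_ ?_
  · intro e he
    rw [Finset.mem_filter] at he
    rw [Finset.mem_filter, Finset.mem_powersetCard]
    refine ⟨⟨Finset.subset_univ _, ?_⟩, Finset.notMem_erase _ _, ?_⟩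
    · rw [Finset.card_erase_of_mem he.2, hJ e he.1]
    · rw [Finset.insert_erase he.2]
      exact he.1
  · intro e he e' he' h
    have h2 := (Finset.mem_filter.mp he).2
    have h2' := (Finset.mem_filter.mp he').2
    rw [← Finset.insert_erase h2, ← Finset.insert_erase h2', h]
  · intro T hT
    rw [Finset.mem_filter] at hT
    refine ⟨insert x T, ?_, ?_⟩
    · rw [Finset.mem_filter]
      exact ⟨hT.2.2, Finset.mem_insert_self _ _⟩
    · exact Finset.erase_insert hT.2.1

end vse

end Pool.Agent.Lib.MP_afdd4d_co.K9.Marks
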