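import Pool.Agent.Lib.MP_afdd4d_co.K9.VFitA

/-!
# Extensions of a reference structure to a vertex

For a vertex and two roots of different colours, the reference structure can be changed at the
quadruples with the vertex such that it is read from the quadruples of the 4-graph with the vertex and
a root. The errors of the new structure are errors on six vertices.
-/

namespace Pool.Agent.Lib.MP_afdd4d_co.K9.Star

open Finset K8

section congr
variable {V : Type*} [DecidableEq V]

/-- The reference structure depends on the restrictions of its parts. -/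
theorem girB_congr {χ χ' : V → Bool} {M M' : V → V → Bool} {f f' g g' : Finset V → Bool}
    {Q : Finset V} (h1 : ∀ v ∈ Q, χ v = χ' v) (h2 : ∀ a ∈ Q, ∀ b ∈ Q, M a b = M' a b)
    (h3 : ∀ T ⊆ Q, f T = f' T) (h4 : ∀ T ⊆ Q, g T = g' T) :
    girB χ M f g Q = girB χ' M' f' g' Q := by
  have hz : ∀ z : Bool, (Q.filter fun v => χ v = z) = Q.filter fun v => χ' v = z := by
    intro z
    refine Finset.filter_congr fun v hv => ?_
    rw [h1 v hv]
  have e1 : ∑ q ∈ Q, bz (f (Q.erase q)) = ∑ q ∈ Q, bz (f' (Q.erase q)) :=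
    Finset.sum_congr rfl fun q _ => by rw [h3 _ (Finset.erase_subset _ _)]
  have e2 : ∑ q ∈ Q, bz (g (Q.erase q)) = ∑ q ∈ Q, bz (g' (Q.erase q)) :=
    Finset.sum_congr rfl fun q _ => by rw [h4 _ (Finset.erase_subset _ _)]
  have e3 : ∑ a ∈ Q.filter (fun v => χ' v = false), ∑ b ∈ Q.filter (fun v => χ' v = true),
      bz (M a b) = ∑ a ∈ Q.filter (fun v => χ' v = false), ∑ b ∈ Q.filter (fun v => χ' v = true),
      bz (M' a b) :=
    Finset.sum_congr rfl fun a ha => Finset.sum_congr rfl fun b hb => by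
      rw [h2 a (Finset.mem_filter.mp ha).1 b (Finset.mem_filter.mp hb).1]
  unfold girB
  rw [hz true, hz false, e1, e2, e3, h3 _ (Finset.filter_subset _ _),
    h4 _ (Finset.filter_subset _ _)]

end congr

/-! ### The reference structure on four vertices -/

section four

/-- The value on four vertices in terms of the colours. -/
def four {V : Type*} [DecidableEq V] (M : V → V → Bool) (f g : Finset V → Bool)
    (c0 c1 c2 c3 : Bool) (p0 p1 p2 p3 : V) : Bool :=
  match c0, c1, c2, c3 with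
  | false, false, false, false =>
    ((f {p1, p2, p3} ^^ f {p0, p2, p3}) ^^ f {p0, p1, p3}) ^^ f {p0, p1, p2}
  | false, false, false, true => !f {p0, p1, p2}
  | false, false, true, false => !f {p0, p1, p3}
  | false, true, false, false => !f {p0, p2, p3}
  | true, false, false, false => !f {p1, p2, p3}
  | false, false, true, true => ((M p0 p2 ^^ M p0 p3) ^^ M p1 p2) ^^ M p1 p3
  | false, true, false, true => ((M p0 p1 ^^ M p0 p3) ^^ M p2 p1) ^^ M p2 p3
  | false, true, true, false => ((M p0 p1 ^^ M p0 p2) ^^ M p3 p1) ^^ M p3 p2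
  | true, false, false, true => ((M p1 p0 ^^ M p1 p3) ^^ M p2 p0) ^^ M p2 p3
  | true, false, true, false => ((M p1 p0 ^^ M p1 p2) ^^ M p3 p0) ^^ M p3 p2
  | true, true, false, false => ((M p2 p0 ^^ M p2 p1) ^^ M p3 p0) ^^ M p3 p1
  | false, true, true, true => !g {p1, p2, p3}
  | true, false, true, true => !g {p0, p2, p3}
  | true, true, false, true => !g {p0, p1, p3}
  | true, true, true, false => !g {p0, p1, p2}
  | true, true, true, true =>
    ((g {p1, p2, p3} ^^ g {p0, p2, p3}) ^^ g {p0, p1, p3}) ^^ g {p0, p1, p2}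

theorem girB_univ4 (c : Fin 4 → Bool) (M : Fin 4 → Fin 4 → Bool) (f g : Finset (Fin 4) → Bool) :
    girB c M f g {0, 1, 2, 3} = four M f g (c 0) (c 1) (c 2) (c 3) 0 1 2 3 := by
  have hodd : ∀ a b c d : Bool, oddB (bz a + (bz b + (bz c + bz d))) = (((a ^^ b) ^^ c) ^^ d) := by
    decide
  have hodd2 : ∀ a b c d : Bool, oddB ((bz a + bz b) + (bz c + bz d)) = (((a ^^ b) ^^ c) ^^ d) := by
    decide
  have er0 : ({0, 1, 2, 3} : Finset (Fin 4)).erase 0 = {1, 2, 3} := by decide
  have er1 : ({0, 1, 2, 3} : Finset (Fin 4)).erase 1 = {0, 2, 3} := by decide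
  have er2 : ({0, 1, 2, 3} : Finset (Fin 4)).erase 2 = {0, 1, 3} := by decide
  have er3 : ({0, 1, 2, 3} : Finset (Fin 4)).erase 3 = {0, 1, 2} := by decide
  have hsum : ∀ h : Finset (Fin 4) → Bool,
      oddB (∑ q ∈ ({0, 1, 2, 3} : Finset (Fin 4)), bz (h (({0, 1, 2, 3} : Finset (Fin 4)).erase q))) =
      (((h {1, 2, 3} ^^ h {0, 2, 3}) ^^ h {0, 1, 3}) ^^ h {0, 1, 2}) := by
    intro h
    have e : ∑ q ∈ ({0, 1, 2, 3} : Finset (Fin 4)),
        bz (h (({0, 1, 2, 3} : Finset (Fin 4)).erase q)) = bz (h {1, 2, 3}) + (bz (h {0, 2, 3}) +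
        (bz (h {0, 1, 3}) + bz (h {0, 1, 2}))) := by
      rw [Finset.sum_insert (by decide), Finset.sum_insert (by decide),
        Finset.sum_insert (by decide), Finset.sum_singleton, er0, er1, er2, er3]
    rw [e, hodd]
  have hf : ∀ z : Bool, ({0, 1, 2, 3} : Finset (Fin 4)).filter (fun v => c v = z) =
      (({0, 1, 2, 3} : Finset (Fin 4)).filter fun v =>
        (if v = 0 then c 0 else if v = 1 then c 1 else if v = 2 then c 2 else c 3) = z) := by
    intro z
    refine Finset.filter_congr fun v _ => ?_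
    match v with
    | 0 => simp
    | 1 => simp
    | 2 => simp
    | 3 => simp
  have hM : ∀ (a a' b b' : Fin 4), a ≠ a' → b ≠ b' →
      oddB (∑ x ∈ ({a, a'} : Finset (Fin 4)), ∑ y ∈ ({b, b'} : Finset (Fin 4)), bz (M x y)) =
        (((M a b ^^ M a b') ^^ M a' b) ^^ M a' b') := by
    intro a a' b b' ha hb
    rw [Finset.sum_pair ha, Finset.sum_pair hb, Finset.sum_pair hb, hodd2]
  unfold girB
  rw [hf true, hf false, hsum f, hsum g]
  cases h0 : c 0 <;> cases h1 : c 1 <;> cases h2 : c 2 <;> cases h3 : c 3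
  · rfl
  · rfl
  · rfl
  · exact hM 0 1 2 3 (by decide) (by decide)
  · rfl
  · exact hM 0 2 1 3 (by decide) (by decide)
  · exact hM 0 3 1 2 (by decide) (by decide)
  · rfl
  · rfl
  · exact hM 1 2 0 3 (by decide) (by decide)
  · exact hM 1 3 0 2 (by decide) (by decide)
  · rfl
  · exact hM 2 3 0 1 (by decide) (by decide)
  · rfl
  · rfl
  · rfl

theorem four_map {V W : Type*} [DecidableEq V] [DecidableEq W] (M : V → V → Bool)
    (f g : Finset V → Bool) (s : W → V) (c0 c1 c2 c3 : Bool) (p0 p1 p2 p3 : W) :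
    four (fun a b => M (s a) (s b)) (fun T => f (T.image s)) (fun T => g (T.image s)) c0 c1 c2 c3
      p0 p1 p2 p3 = four M f g c0 c1 c2 c3 (s p0) (s p1) (s p2) (s p3) := by
  have h : ∀ a b c : W, ({a, b, c} : Finset W).image s = {s a, s b, s c} := by
    intro a b c
    simp only [Finset.image_insert, Finset.image_singleton]
  unfold four
  simp only [h]

theorem girB_four {V : Type*} [DecidableEq V] (χ : V → Bool) (M : V → V → Bool)
    (f g : Finset V → Bool) (p : Fin 4 → V) (hp : Function.Injective p) :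
    girB χ M f g {p 0, p 1, p 2, p 3} =
      four M f g (χ (p 0)) (χ (p 1)) (χ (p 2)) (χ (p 3)) (p 0) (p 1) (p 2) (p 3) := by
  have e : ({p 0, p 1, p 2, p 3} : Finset V) = ({0, 1, 2, 3} : Finset (Fin 4)).image p := by
    simp only [Finset.image_insert, Finset.image_singleton]
  rw [e, girB_map χ M f g p hp, girB_univ4, four_map]

end four

/-! ### The extension -/

section ext
variable {n : ℕ}

/-- The colouring with a new colour at a vertex. -/
def chE (χ : Fin n → Bool) (x : Fin n) (z : Bool) (v : Fin n) : Bool := if v = x then z else χ v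

/-- The graph with new entries at a vertex of the first colour. -/
def mA (H : Finset (Finset (Fin n))) (M : Fin n → Fin n → Bool) (x a0 b0 a b : Fin n) : Bool :=
  if a = x then (mE H {x, a0, b, b0} ^^ M a0 b) ^^ M a0 b0 else M a b

/-- The graph with new entries at a vertex of the second colour. -/
def mB (H : Finset (Finset (Fin n))) (M : Fin n → Fin n → Bool) (x a0 b0 a b : Fin n) : Bool :=
  if b = x then (mE H {x, a, a0, b0} ^^ M a b0) ^^ M a0 b0 else M a b

/-- The 3-graph with new entries at a vertex. -/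
def fE (H : Finset (Finset (Fin n))) (f : Finset (Fin n) → Bool) (x r : Fin n)
    (T : Finset (Fin n)) : Bool := if x ∈ T then !mE H (insert r T) else f T

/-- The extension with a vertex of the first colour. -/
def extA (H : Finset (Finset (Fin n))) (χ : Fin n → Bool) (M : Fin n → Fin n → Bool)
    (f g : Finset (Fin n) → Bool) (x a0 b0 : Fin n) (Q : Finset (Fin n)) : Bool :=
  girB (chE χ x false) (mA H M x a0 b0) (fE H f x b0) g Q

/-- The extension with a vertex of the second colour. -/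
def extB (H : Finset (Finset (Fin n))) (χ : Fin n → Bool) (M : Fin n → Fin n → Bool)
    (f g : Finset (Fin n) → Bool) (x a0 b0 : Fin n) (Q : Finset (Fin n)) : Bool :=
  girB (chE χ x true) (mB H M x a0 b0) f (fE H g x a0) Q

theorem extA_off (H : Finset (Finset (Fin n))) (χ : Fin n → Bool) (M : Fin n → Fin n → Bool)
    (f g : Finset (Fin n) → Bool) (x a0 b0 : Fin n) (Q : Finset (Fin n)) (hx : x ∉ Q) :
    extA H χ M f g x a0 b0 Q = girB χ M f g Q := by
  refine girB_congr (fun v hv => ?_) (fun a ha b _ => ?_) (fun T hT => ?_) fun T _ => rfl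
  · have hne : v ≠ x := by rintro rfl; exact hx hv
    unfold chE
    rw [if_neg hne]
  · have hne : a ≠ x := by rintro rfl; exact hx ha
    unfold mA
    rw [if_neg hne]
  · unfold fE
    rw [if_neg fun h => hx (hT h)]

theorem extB_off (H : Finset (Finset (Fin n))) (χ : Fin n → Bool) (M : Fin n → Fin n → Bool)
    (f g : Finset (Fin n) → Bool) (x a0 b0 : Fin n) (Q : Finset (Fin n)) (hx : x ∉ Q) :
    extB H χ M f g x a0 b0 Q = girB χ M f g Q := by
  refine girB_congr (fun v hv => ?_) (fun a _ b hb => ?_) (fun T _ => rfl) fun T hT => ?_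
  · have hne : v ≠ x := by rintro rfl; exact hx hv
    unfold chE
    rw [if_neg hne]
  · have hne : b ≠ x := by rintro rfl; exact hx hb
    unfold mB
    rw [if_neg hne]
  · unfold fE
    rw [if_neg fun h => hx (hT h)]

/-- The value of the extension of the first kind on a window: the vertex, two roots and three further
vertices. -/
def wgA (e r : Finset (Fin 6) → Bool) (c3 c4 c5 : Bool) : Bool :=
  match c3, c4, c5 with
  | false, false, false =>
    ((e {0, 2, 3, 4} ^^ e {0, 2, 3, 5}) ^^ e {0, 2, 4, 5}) ^^ r {2, 3, 4, 5}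
  | false, false, true => e {0, 2, 3, 4}
  | false, true, false => e {0, 2, 3, 5}
  | true, false, false => e {0, 2, 4, 5}
  | false, true, true => (e {0, 1, 2, 4} ^^ e {0, 1, 2, 5}) ^^ r {1, 3, 4, 5}
  | true, false, true => (e {0, 1, 2, 3} ^^ e {0, 1, 2, 5}) ^^ r {1, 3, 4, 5}
  | true, true, false => (e {0, 1, 2, 3} ^^ e {0, 1, 2, 4}) ^^ r {1, 3, 4, 5}
  | true, true, true => r {1, 3, 4, 5}

/-- The value of the extension of the second kind on a window. -/
def wgB (e r : Finset (Fin 6) → Bool) (c3 c4 c5 : Bool) : Bool :=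
  match c3, c4, c5 with
  | true, true, true =>
    ((e {0, 1, 3, 4} ^^ e {0, 1, 3, 5}) ^^ e {0, 1, 4, 5}) ^^ r {1, 3, 4, 5}
  | true, true, false => e {0, 1, 3, 4}
  | true, false, true => e {0, 1, 3, 5}
  | false, true, true => e {0, 1, 4, 5}
  | true, false, false => (e {0, 1, 2, 4} ^^ e {0, 1, 2, 5}) ^^ r {2, 3, 4, 5}
  | false, true, false => (e {0, 1, 2, 3} ^^ e {0, 1, 2, 5}) ^^ r {2, 3, 4, 5}
  | false, false, true => (e {0, 1, 2, 3} ^^ e {0, 1, 2, 4}) ^^ r {2, 3, 4, 5}
  | false, false, false => r {2, 3, 4, 5}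

theorem inj4t (t : Fin 6 → Fin n) (ht : Function.Injective t) (a b c d : Fin 6)
    (h : Function.Injective ![a, b, c, d]) :
    Function.Injective (![t a, t b, t c, t d] : Fin 4 → Fin n) := by
  have e : (![t a, t b, t c, t d] : Fin 4 → Fin n) = t ∘ ![a, b, c, d] := by
    funext i
    fin_cases i <;> rfl
  rw [e]
  exact ht.comp h

theorem zb_four (H : Finset (Finset (Fin n))) (t : Fin 6 → Fin n) (a b c d : Fin 6) :
    zb H t {a, b, c, d} = mE H {t a, t b, t c, t d} := by
  rw [zb_eq]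
  simp only [Finset.image_insert, Finset.image_singleton]

theorem zb_gir_four (χ : Fin n → Bool) (M : Fin n → Fin n → Bool) (f g : Finset (Fin n) → Bool)
    (t : Fin 6 → Fin n) (ht : Function.Injective t) (a b c d : Fin 6)
    (h : Function.Injective ![a, b, c, d]) :
    zb (gir χ M f g) t {a, b, c, d} =
      four M f g (χ (t a)) (χ (t b)) (χ (t c)) (χ (t d)) (t a) (t b) (t c) (t d) := by
  have h1 := inj4t t ht a b c d h
  have h2 := girB_four χ M f g ![t a, t b, t c, t d] h1
  have h3 : ({t a, t b, t c, t d} : Finset (Fin n)).card = 4 := by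
    have e : ({t a, t b, t c, t d} : Finset (Fin n)) =
        (univ : Finset (Fin 4)).image ![t a, t b, t c, t d] := by
      ext y
      simp only [Finset.mem_insert, Finset.mem_singleton, Finset.mem_image, Finset.mem_univ,
        true_and, Fin.exists_fin_succ, Matrix.cons_val_zero, Matrix.cons_val_succ]
      simp
      tauto
    rw [e, Finset.card_image_of_injective _ h1, Finset.card_univ, Fintype.card_fin]
  rw [zb_four, mE_gir χ M f g _ h3]
  exact h2

theorem set4 {V : Type*} [DecidableEq V] (a b c d : V) : ({a, b, c, d} : Finset V) = {b, a, c, d} :=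
  Finset.insert_comm _ _ _

theorem xor8 : ∀ e1 e2 m m1 m2 a b : Bool,
    (((((e1 ^^ m1) ^^ m) ^^ ((e2 ^^ m2) ^^ m)) ^^ a) ^^ b) =
      ((e1 ^^ e2) ^^ (((m1 ^^ m2) ^^ a) ^^ b)) := by decide

theorem xor8' : ∀ e1 e2 m m1 m2 a b : Bool,
    (((((e1 ^^ m1) ^^ m) ^^ a) ^^ ((e2 ^^ m2) ^^ m)) ^^ b) =
      ((e1 ^^ e2) ^^ (((m1 ^^ a) ^^ m2) ^^ b)) := by decide

/-- The extension of the first kind on a window. -/
theorem extA_win (H : Finset (Finset (Fin n))) (χ : Fin n → Bool) (M : Fin n → Fin n → Bool)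
    (f g : Finset (Fin n) → Bool) (t : Fin 6 → Fin n) (ht : Function.Injective t)
    (h1 : χ (t 1) = false) (h2 : χ (t 2) = true) :
    extA H χ M f g (t 0) (t 1) (t 2) {t 0, t 3, t 4, t 5} =
      wgA (zb H t) (zb (gir χ M f g) t) (χ (t 3)) (χ (t 4)) (χ (t 5)) := by
  have hn : ∀ i j : Fin 6, i ≠ j → t i ≠ t j := fun i j h h' => h (ht h')
  have q1 := girB_four (chE χ (t 0) false) (mA H M (t 0) (t 1) (t 2)) (fE H f (t 0) (t 2)) g
    ![t 0, t 3, t 4, t 5] (inj4t t ht 0 3 4 5 (by decide))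
  have q1' : extA H χ M f g (t 0) (t 1) (t 2) {t 0, t 3, t 4, t 5} =
      four (mA H M (t 0) (t 1) (t 2)) (fE H f (t 0) (t 2)) g (chE χ (t 0) false (t 0))
        (chE χ (t 0) false (t 3)) (chE χ (t 0) false (t 4)) (chE χ (t 0) false (t 5))
        (t 0) (t 3) (t 4) (t 5) := q1
  have c0 : chE χ (t 0) false (t 0) = false := if_pos rfl
  have cj : ∀ j : Fin 6, j ≠ 0 → chE χ (t 0) false (t j) = χ (t j) := fun j hj =>
    if_neg (hn j 0 hj)
  have m0 : ∀ j : Fin 6, mA H M (t 0) (t 1) (t 2) (t 0) (t j) =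
      ((zb H t {0, 1, j, 2} ^^ M (t 1) (t j)) ^^ M (t 1) (t 2)) := fun j => by
    rw [zb_four]
    exact if_pos rfl
  have mj : ∀ i j : Fin 6, i ≠ 0 → mA H M (t 0) (t 1) (t 2) (t i) (t j) = M (t i) (t j) :=
    fun i j hi => if_neg (hn i 0 hi)
  have f0 : ∀ i j : Fin 6, fE H f (t 0) (t 2) {t 0, t i, t j} = !zb H t {2, 0, i, j} := fun i j => by
    rw [zb_four]
    exact if_pos (Finset.mem_insert_self _ _)
  have fj : fE H f (t 0) (t 2) {t 3, t 4, t 5} = f {t 3, t 4, t 5} := by
    refine if_neg fun h => ?_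
    simp only [Finset.mem_insert, Finset.mem_singleton] at h
    rcases h with h | h | h
    · exact hn 0 3 (by decide) h
    · exact hn 0 4 (by decide) h
    · exact hn 0 5 (by decide) h
  have r2 := zb_gir_four χ M f g t ht 2 3 4 5 (by decide)
  have r1 := zb_gir_four χ M f g t ht 1 3 4 5 (by decide)
  rw [h2] at r2
  rw [h1] at r1
  rw [q1', c0, cj 3 (by decide), cj 4 (by decide), cj 5 (by decide)]
  unfold four
  simp only [m0, mj 3 4 (by decide), mj 3 5 (by decide), mj 4 3 (by decide), mj 4 5 (by decide),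
    mj 5 3 (by decide), mj 5 4 (by decide), f0, fj]
  have s1 : ({2, 0, 3, 4} : Finset (Fin 6)) = {0, 2, 3, 4} := by decide
  have s2 : ({2, 0, 3, 5} : Finset (Fin 6)) = {0, 2, 3, 5} := by decide
  have s3 : ({2, 0, 4, 5} : Finset (Fin 6)) = {0, 2, 4, 5} := by decide
  have s4 : ({0, 1, 3, 2} : Finset (Fin 6)) = {0, 1, 2, 3} := by decide
  have s5 : ({0, 1, 4, 2} : Finset (Fin 6)) = {0, 1, 2, 4} := by decide
  have s6 : ({0, 1, 5, 2} : Finset (Fin 6)) = {0, 1, 2, 5} := by decide
  rw [s1, s2, s3, s4, s5, s6]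
  unfold wgA
  rw [r1, r2]
  unfold four
  generalize zb H t {0, 2, 3, 4} = e1
  generalize zb H t {0, 2, 3, 5} = e2
  generalize zb H t {0, 2, 4, 5} = e3
  generalize zb H t {0, 1, 2, 3} = e4
  generalize zb H t {0, 1, 2, 4} = e5
  generalize zb H t {0, 1, 2, 5} = e6
  generalize M (t 1) (t 2) = m12
  generalize M (t 1) (t 3) = m13
  generalize M (t 1) (t 4) = m14
  generalize M (t 1) (t 5) = m15
  generalize M (t 3) (t 4) = m34
  generalize M (t 3) (t 5) = m35
  generalize M (t 4) (t 3) = m43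
  generalize M (t 4) (t 5) = m45
  generalize M (t 5) (t 3) = m53
  generalize M (t 5) (t 4) = m54
  cases χ (t 3) <;> cases χ (t 4) <;> cases χ (t 5)
  · generalize f {t 3, t 4, t 5} = x
    have k : ∀ e1 e2 e3 x : Bool, (((x ^^ !e3) ^^ !e2) ^^ !e1) = (((e1 ^^ e2) ^^ e3) ^^ !x) := by
      decide
    exact k e1 e2 e3 x
  · exact Bool.not_not e1
  · exact Bool.not_not e2
  · exact xor8 e5 e6 m12 m14 m15 m34 m35
  · exact Bool.not_not e3
  · exact xor8 e4 e6 m12 m13 m15 m43 m45
  · exact xor8 e4 e5 m12 m13 m14 m53 m54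
  · rfl

/-- The extension of the second kind on a window. -/
theorem extB_win (H : Finset (Finset (Fin n))) (χ : Fin n → Bool) (M : Fin n → Fin n → Bool)
    (f g : Finset (Fin n) → Bool) (t : Fin 6 → Fin n) (ht : Function.Injective t)
    (h1 : χ (t 1) = false) (h2 : χ (t 2) = true) :
    extB H χ M f g (t 0) (t 1) (t 2) {t 0, t 3, t 4, t 5} =
      wgB (zb H t) (zb (gir χ M f g) t) (χ (t 3)) (χ (t 4)) (χ (t 5)) := by
  have hn : ∀ i j : Fin 6, i ≠ j → t i ≠ t j := fun i j h h' => h (ht h')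
  have q1 := girB_four (chE χ (t 0) true) (mB H M (t 0) (t 1) (t 2)) f (fE H g (t 0) (t 1))
    ![t 0, t 3, t 4, t 5] (inj4t t ht 0 3 4 5 (by decide))
  have q1' : extB H χ M f g (t 0) (t 1) (t 2) {t 0, t 3, t 4, t 5} =
      four (mB H M (t 0) (t 1) (t 2)) f (fE H g (t 0) (t 1)) (chE χ (t 0) true (t 0))
        (chE χ (t 0) true (t 3)) (chE χ (t 0) true (t 4)) (chE χ (t 0) true (t 5))
        (t 0) (t 3) (t 4) (t 5) := q1
  have c0 : chE χ (t 0) true (t 0) = true := if_pos rfl
  have cj : ∀ j : Fin 6, j ≠ 0 → chE χ (t 0) true (t j) = χ (t j) := fun j hj =>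
    if_neg (hn j 0 hj)
  have m0 : ∀ j : Fin 6, mB H M (t 0) (t 1) (t 2) (t j) (t 0) =
      ((zb H t {0, j, 1, 2} ^^ M (t j) (t 2)) ^^ M (t 1) (t 2)) := fun j => by
    rw [zb_four]
    exact if_pos rfl
  have mj : ∀ i j : Fin 6, j ≠ 0 → mB H M (t 0) (t 1) (t 2) (t i) (t j) = M (t i) (t j) :=
    fun i j hi => if_neg (hn j 0 hi)
  have f0 : ∀ i j : Fin 6, fE H g (t 0) (t 1) {t 0, t i, t j} = !zb H t {1, 0, i, j} := fun i j => by
    rw [zb_four]
    exact if_pos (Finset.mem_insert_self _ _)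
  have fj : fE H g (t 0) (t 1) {t 3, t 4, t 5} = g {t 3, t 4, t 5} := by
    refine if_neg fun h => ?_
    simp only [Finset.mem_insert, Finset.mem_singleton] at h
    rcases h with h | h | h
    · exact hn 0 3 (by decide) h
    · exact hn 0 4 (by decide) h
    · exact hn 0 5 (by decide) h
  have r2 := zb_gir_four χ M f g t ht 2 3 4 5 (by decide)
  have r1 := zb_gir_four χ M f g t ht 1 3 4 5 (by decide)
  rw [h2] at r2
  rw [h1] at r1
  rw [q1', c0, cj 3 (by decide), cj 4 (by decide), cj 5 (by decide)]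
  unfold four
  simp only [m0, mj 3 4 (by decide), mj 3 5 (by decide), mj 4 3 (by decide), mj 4 5 (by decide),
    mj 5 3 (by decide), mj 5 4 (by decide), f0, fj]
  have s1 : ({1, 0, 3, 4} : Finset (Fin 6)) = {0, 1, 3, 4} := by decide
  have s2 : ({1, 0, 3, 5} : Finset (Fin 6)) = {0, 1, 3, 5} := by decide
  have s3 : ({1, 0, 4, 5} : Finset (Fin 6)) = {0, 1, 4, 5} := by decide
  have s4 : ({0, 3, 1, 2} : Finset (Fin 6)) = {0, 1, 2, 3} := by decide
  have s5 : ({0, 4, 1, 2} : Finset (Fin 6)) = {0, 1, 2, 4} := by decide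
  have s6 : ({0, 5, 1, 2} : Finset (Fin 6)) = {0, 1, 2, 5} := by decide
  rw [s1, s2, s3, s4, s5, s6]
  unfold wgB
  rw [r1, r2]
  unfold four
  generalize zb H t {0, 1, 3, 4} = e1
  generalize zb H t {0, 1, 3, 5} = e2
  generalize zb H t {0, 1, 4, 5} = e3
  generalize zb H t {0, 1, 2, 3} = e4
  generalize zb H t {0, 1, 2, 4} = e5
  generalize zb H t {0, 1, 2, 5} = e6
  generalize M (t 1) (t 2) = m12
  generalize M (t 3) (t 2) = m32
  generalize M (t 4) (t 2) = m42
  generalize M (t 5) (t 2) = m52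
  generalize M (t 3) (t 4) = m34
  generalize M (t 3) (t 5) = m35
  generalize M (t 4) (t 3) = m43
  generalize M (t 4) (t 5) = m45
  generalize M (t 5) (t 3) = m53
  generalize M (t 5) (t 4) = m54
  cases χ (t 3) <;> cases χ (t 4) <;> cases χ (t 5)
  · rfl
  · exact xor8' e4 e5 m12 m32 m42 m35 m45
  · exact xor8' e4 e6 m12 m32 m52 m34 m54
  · exact Bool.not_not e3
  · exact xor8' e5 e6 m12 m42 m52 m43 m53
  · exact Bool.not_not e2
  · exact Bool.not_not e1
  · generalize g {t 3, t 4, t 5} = x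
    have k : ∀ e1 e2 e3 x : Bool, (((x ^^ !e3) ^^ !e2) ^^ !e1) = (((e1 ^^ e2) ^^ e3) ^^ !x) := by
      decide
    exact k e1 e2 e3 x

end ext

end Pool.Agent.Lib.MP_afdd4d_co.K9.Star
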