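import Pool.Agent.Lib.MP_afdd4d_co.K9.VMark

/-!
# Items on coloured windows

Six families of functions of six vertices with nonnegative total sum: unmarked pairs have a small
average, marked pairs have a large average, there are few marked pairs, the average is small outside
a few vertices, every vertex is in few marked pairs and in few quadruples. The multipliers are
functions of the colours, of the members of the family and of the marks inside the fixed vertices.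
-/

namespace Pool.Agent.Lib.MP_afdd4d_co.K9.Marks

open Finset K8

section seven
variable {n : ℕ} (g : (Fin 4 → Fin n) → ℤ)

/-- The average of `g` on the quadruples disjoint from two vertices is small. -/
def t7 (xn xd : ℕ) (φ : (Fin 2 → Fin n) → ℤ) (p : Fin 6 → Fin n) : ℤ :=
  φ (p ∘ Fin.castAdd 4) * ((xn : ℤ) - xd * g ![p 2, p 3, p 4, p 5])

theorem t7_tot (xn xd : ℕ) (hX : (xd : ℤ) * ∑ p, g p ≤ xn * (n : ℤ) ^ 4)
    (φ : (Fin 2 → Fin n) → ℤ) (hφ : ∀ s, 0 ≤ φ s) : 0 ≤ ∑ p, t7 g xn xd φ p := by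
  rw [sum24]
  refine Finset.sum_nonneg fun s _ => ?_
  have e : ∀ u : Fin 4 → Fin n, t7 g xn xd φ (Fin.append s u) = φ s * ((xn : ℤ) - xd * g u) := by
    intro u
    unfold t7
    have e2 : (![(Fin.append s u : Fin 6 → Fin n) 2, (Fin.append s u : Fin 6 → Fin n) 3,
        (Fin.append s u : Fin 6 → Fin n) 4, (Fin.append s u : Fin 6 → Fin n) 5] :
        Fin 4 → Fin n) = u := by
      funext i
      fin_cases i <;> rfl
    have e3 : (Fin.append s u : Fin 6 → Fin n) ∘ Fin.castAdd 4 = s := append_castAdd s u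
    rw [e2, e3]
  rw [Finset.sum_congr rfl fun u _ => e u, ← Finset.mul_sum]
  refine mul_nonneg (hφ s) ?_
  rw [Finset.sum_sub_distrib, Finset.sum_const, nsmul_eq_mul, card_fun4, ← Finset.mul_sum]
  linarith [mul_comm (xn : ℤ) ((n : ℤ) ^ 4)]

theorem t7_le (xn xd : ℕ) (hg : ∀ p, 0 ≤ g p) (φ : (Fin 2 → Fin n) → ℤ) (B : ℕ)
    (hφ : ∀ s, 0 ≤ φ s) (hB : ∀ s, φ s ≤ B) (p : Fin 6 → Fin n) : t7 g xn xd φ p ≤ B * xn := by
  unfold t7
  have h1 := hg ![p 2, p 3, p 4, p 5]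
  have h2 : (xn : ℤ) - xd * g ![p 2, p 3, p 4, p 5] ≤ xn := by
    have : (0 : ℤ) ≤ xd * g ![p 2, p 3, p 4, p 5] := by positivity
    linarith
  calc _ ≤ φ (p ∘ Fin.castAdd 4) * xn := mul_le_mul_of_nonneg_left h2 (hφ _)
    _ ≤ B * xn := mul_le_mul_of_nonneg_right (hB _) (by positivity)

end seven

/-- A multiplier: a bounded function of the colours, of the members of the family and of the marks. -/
structure Mu (k : ℕ) where
  F : (Fin k → Bool) → (Finset (Fin k) → Bool) → (Fin k → Fin k → Bool) → ℕ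
  B : ℕ
  hB : ∀ c a m, F c a m ≤ B

/-- The value of a multiplier on some of the vertices of a window. -/
def Mu.w {k : ℕ} (μ : Mu k) (r : Fin k → Fin 6) (c : Fin 6 → Bool) (A : Finset (Fin 6) → Bool)
    (b : Fin 6 → Fin 6 → Bool) : ℤ :=
  (μ.F (fun i => c (r i)) (fun S => A (S.image r)) (fun x y => b (r x) (r y)) : ℕ)

/-- The value of a multiplier on a tuple of vertices. -/
def Mu.pt {k : ℕ} (μ : Mu k) {n : ℕ} (J : Finset (Finset (Fin n))) (χ : Fin n → Bool) (dn dd : ℕ)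
    (s : Fin k → Fin n) : ℤ :=
  (μ.F (fun i => χ (s i)) (fun S => decide (S.image s ∈ J))
    (fun x y => Marks.mk (jv J) dn dd (s x) (s y)) : ℕ)

theorem Mu.pt_comp {k : ℕ} (μ : Mu k) {n : ℕ} (J : Finset (Finset (Fin n))) (χ : Fin n → Bool)
    (dn dd : ℕ) (t : Fin 6 → Fin n) (r : Fin k → Fin 6) :
    μ.pt J χ dn dd (t ∘ r) = μ.w r (fun i => χ (t i)) (wA J t) (wb J dn dd t) := by
  unfold Mu.pt Mu.w wA wb
  simp only [Finset.image_image]
  rfl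

theorem Mu.pt_nonneg {k : ℕ} (μ : Mu k) {n : ℕ} (J : Finset (Finset (Fin n))) (χ : Fin n → Bool)
    (dn dd : ℕ) (s : Fin k → Fin n) : 0 ≤ μ.pt J χ dn dd s := Int.natCast_nonneg _

theorem Mu.pt_le {k : ℕ} (μ : Mu k) {n : ℕ} (J : Finset (Finset (Fin n))) (χ : Fin n → Bool)
    (dn dd : ℕ) (s : Fin k → Fin n) : μ.pt J χ dn dd s ≤ μ.B := by
  unfold Mu.pt
  exact_mod_cast μ.hB _ _ _

/-- The items: a multiplier and an ordering of the window. -/
inductive ItemC : Type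
  | um (μ : Mu 4) (π : Equiv.Perm (Fin 6))
  | ma (μ : Mu 4) (π : Equiv.Perm (Fin 6))
  | fe (μ : Mu 4) (π : Equiv.Perm (Fin 6))
  | al (μ : Mu 2) (π : Equiv.Perm (Fin 6))
  | ve (μ : Mu 5) (π : Equiv.Perm (Fin 6))
  | vq (μ : Mu 3) (π : Equiv.Perm (Fin 6))

/-- The parameters: `dn / dd` is the threshold of the marks, `xn / xd` bounds the average, `vn / vd`
bounds the averages at the vertices. -/
structure ParC where
  dn : ℕ
  dd : ℕ
  xn : ℕ
  xd : ℕ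
  vn : ℕ
  vd : ℕ

/-- The value of an item on a coloured window. -/
def ItemC.val (P : ParC) (i : ItemC) (c : Fin 6 → Bool) (A : Finset (Fin 6) → Bool)
    (b : Fin 6 → Fin 6 → Bool) : ℤ :=
  match i with
  | .um μ π => if b (π 0) (π 1) = true then 0 else μ.w (π ∘ Fin.castAdd 2) c A b *
      ((P.dn : ℤ) - P.dd * ((A (univ.image ![π 0, π 1, π 4, π 5])).toNat : ℕ))
  | .ma μ π => if b (π 0) (π 1) = true then μ.w (π ∘ Fin.castAdd 2) c A b *
      ((P.dd : ℤ) * ((A (univ.image ![π 0, π 1, π 4, π 5])).toNat : ℕ) - P.dn) else 0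
  | .fe μ π => μ.w (π ∘ Fin.castAdd 2) c A b *
      ((P.xn : ℤ) * P.dd - P.xd * P.dn * (b (π 4) (π 5)).toNat)
  | .al μ π => μ.w (π ∘ Fin.castAdd 4) c A b *
      ((P.xn : ℤ) - P.xd * ((A (univ.image ![π 2, π 3, π 4, π 5])).toNat : ℕ))
  | .ve μ π => μ.w (π ∘ Fin.castAdd 1) c A b *
      ((P.vn : ℤ) * P.dd - P.vd * P.dn * (b (π 0) (π 5)).toNat)
  | .vq μ π => μ.w (π ∘ Fin.castAdd 3) c A b *
      ((P.vn : ℤ) - P.vd * ((A (univ.image ![π 0, π 3, π 4, π 5])).toNat : ℕ))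

/-- The ordering of an item. -/
def ItemC.π (i : ItemC) : Equiv.Perm (Fin 6) :=
  match i with
  | .um _ π => π
  | .ma _ π => π
  | .fe _ π => π
  | .al _ π => π
  | .ve _ π => π
  | .vq _ π => π

/-- The bound of an item. -/
def ItemC.bd (P : ParC) (i : ItemC) : ℕ :=
  match i with
  | .um μ _ => μ.B * P.dn
  | .ma μ _ => μ.B * P.dd
  | .fe μ _ => μ.B * (P.xn * P.dd)
  | .al μ _ => μ.B * P.xn
  | .ve μ _ => μ.B * (P.vn * P.dd)
  | .vq μ _ => μ.B * P.vn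

section itm
variable {n : ℕ} (J : Finset (Finset (Fin n))) (χ : Fin n → Bool) (P : ParC)

/-- The function of an item. -/
def ItemC.fn (i : ItemC) : (Fin 6 → Fin n) → ℤ :=
  match i with
  | .um μ _ => t1 (jv J) P.dn P.dd (μ.pt J χ P.dn P.dd)
  | .ma μ _ => t2 (jv J) P.dn P.dd (μ.pt J χ P.dn P.dd)
  | .fe μ _ => t3 (jv J) P.dn P.dd P.xn P.xd (μ.pt J χ P.dn P.dd)
  | .al μ _ => t7 (jv J) P.xn P.xd (μ.pt J χ P.dn P.dd)
  | .ve μ _ => t5 (jv J) P.dn P.dd P.vn P.vd (k := 4) (μ.pt J χ P.dn P.dd)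
  | .vq μ _ => t6 (jv J) P.vn P.vd (k := 2) (μ.pt J χ P.dn P.dd)

theorem jv_four (t : Fin 6 → Fin n) (ht : Function.Injective t) (π : Equiv.Perm (Fin 6))
    (a b c d : Fin 6) (h : Function.Injective ![a, b, c, d]) :
    jv J ![(t ∘ π) a, (t ∘ π) b, (t ∘ π) c, (t ∘ π) d] =
      ((wA J t (univ.image ![π a, π b, π c, π d])).toNat : ℕ) := by
  have e1 : (![(t ∘ π) a, (t ∘ π) b, (t ∘ π) c, (t ∘ π) d] : Fin 4 → Fin n) =
      t ∘ ![π a, π b, π c, π d] := by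
    funext x
    fin_cases x <;> rfl
  rw [e1]
  exact jv_win J t ht _ (inj4 π a b c d h)

/-- An item on a window. -/
theorem ItemC.val_eq (i : ItemC) (t : Fin 6 → Fin n) (ht : Function.Injective t) :
    i.val P (fun x => χ (t x)) (wA J t) (wb J P.dn P.dd t) = i.fn J χ P (t ∘ i.π) := by
  have h1 := fun π => jv_four J t ht π 0 1 4 5 (by decide)
  have h2 := fun π => jv_four J t ht π 2 3 4 5 (by decide)
  have h3 := fun π => jv_four J t ht π 0 3 4 5 (by decide)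
  match i with
  | .um μ π =>
    show _ = t1 (jv J) P.dn P.dd (μ.pt J χ P.dn P.dd) (t ∘ π)
    unfold t1
    have e : μ.pt J χ P.dn P.dd ((t ∘ π) ∘ Fin.castAdd 2) = _ :=
      Mu.pt_comp μ J χ P.dn P.dd t (π ∘ Fin.castAdd 2)
    rw [h1, e]
    rfl
  | .ma μ π =>
    show _ = t2 (jv J) P.dn P.dd (μ.pt J χ P.dn P.dd) (t ∘ π)
    unfold t2
    have e : μ.pt J χ P.dn P.dd ((t ∘ π) ∘ Fin.castAdd 2) = _ :=
      Mu.pt_comp μ J χ P.dn P.dd t (π ∘ Fin.castAdd 2)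
    rw [h1, e]
    rfl
  | .fe μ π =>
    show _ = t3 (jv J) P.dn P.dd P.xn P.xd (μ.pt J χ P.dn P.dd) (t ∘ π)
    unfold t3
    have e : μ.pt J χ P.dn P.dd ((t ∘ π) ∘ Fin.castAdd 2) = _ :=
      Mu.pt_comp μ J χ P.dn P.dd t (π ∘ Fin.castAdd 2)
    rw [e]
    rfl
  | .al μ π =>
    show _ = t7 (jv J) P.xn P.xd (μ.pt J χ P.dn P.dd) (t ∘ π)
    unfold t7
    have e : μ.pt J χ P.dn P.dd ((t ∘ π) ∘ Fin.castAdd 4) = _ :=
      Mu.pt_comp μ J χ P.dn P.dd t (π ∘ Fin.castAdd 4)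
    rw [h2, e]
    rfl
  | .ve μ π =>
    show _ = t5 (jv J) P.dn P.dd P.vn P.vd (k := 4) (μ.pt J χ P.dn P.dd) (t ∘ π)
    unfold t5
    have e : μ.pt J χ P.dn P.dd ((t ∘ π) ∘ Fin.castAdd 1) = _ :=
      Mu.pt_comp μ J χ P.dn P.dd t (π ∘ Fin.castAdd 1)
    rw [e]
    rfl
  | .vq μ π =>
    show _ = t6 (jv J) P.vn P.vd (k := 2) (μ.pt J χ P.dn P.dd) (t ∘ π)
    unfold t6
    have e : μ.pt J χ P.dn P.dd ((t ∘ π) ∘ Fin.castAdd 3) = _ :=
      Mu.pt_comp μ J χ P.dn P.dd t (π ∘ Fin.castAdd 3)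
    have e2 : jv J ![(t ∘ π) 0, (t ∘ π) (Fin.natAdd (2 + 1) (0 : Fin 3)),
        (t ∘ π) (Fin.natAdd (2 + 1) (1 : Fin 3)), (t ∘ π) (Fin.natAdd (2 + 1) (2 : Fin 3))] =
        ((wA J t (univ.image ![π 0, π 3, π 4, π 5])).toNat : ℕ) := h3 π
    rw [e2, e]
    rfl

theorem ItemC.fn_tot (i : ItemC) (hX : (P.xd : ℤ) * ∑ p, jv J p ≤ P.xn * (n : ℤ) ^ 4)
    (hv : ∀ x, (P.vd : ℤ) * vs (jv J) x ≤ P.vn * (n : ℤ) ^ 3) : 0 ≤ ∑ p, i.fn J χ P p := by
  match i with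
  | .um μ _ =>
    exact t1_tot (jv J) P.dn P.dd _ (μ.pt_nonneg J χ P.dn P.dd)
  | .ma μ _ =>
    exact t2_tot (jv J) P.dn P.dd _ (μ.pt_nonneg J χ P.dn P.dd)
  | .fe μ _ =>
    exact t3_tot (jv J) P.dn P.dd P.xn P.xd (jv_nonneg J) hX _ (μ.pt_nonneg J χ P.dn P.dd)
  | .al μ _ =>
    exact t7_tot (jv J) P.xn P.xd hX _ (μ.pt_nonneg J χ P.dn P.dd)
  | .ve μ _ =>
    exact t5_tot (jv J) P.dn P.dd P.vn P.vd hv (jv_nonneg J) _ (μ.pt_nonneg J χ P.dn P.dd)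
  | .vq μ _ =>
    exact t6_tot (jv J) P.vn P.vd hv _ (μ.pt_nonneg J χ P.dn P.dd)

theorem ItemC.fn_le (i : ItemC) (p : Fin 6 → Fin n) : i.fn J χ P p ≤ (i.bd P : ℤ) := by
  match i with
  | .um μ _ =>
    have h := t1_le (jv J) P.dn P.dd (jv_nonneg J) _ μ.B (μ.pt_nonneg J χ P.dn P.dd)
      (μ.pt_le J χ P.dn P.dd) p
    exact h.trans (le_of_eq (by unfold ItemC.bd; push_cast; ring))
  | .ma μ _ =>
    have h := t2_le (jv J) P.dn P.dd (jv_le_one J) _ μ.B (μ.pt_nonneg J χ P.dn P.dd)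
      (μ.pt_le J χ P.dn P.dd) p
    exact h.trans (le_of_eq (by unfold ItemC.bd; push_cast; ring))
  | .fe μ _ =>
    have h := t3_le (jv J) P.dn P.dd P.xn P.xd _ μ.B (μ.pt_nonneg J χ P.dn P.dd)
      (μ.pt_le J χ P.dn P.dd) p
    exact h.trans (le_of_eq (by unfold ItemC.bd; push_cast; ring))
  | .al μ _ =>
    have h := t7_le (jv J) P.xn P.xd (jv_nonneg J) _ μ.B (μ.pt_nonneg J χ P.dn P.dd)
      (μ.pt_le J χ P.dn P.dd) p
    exact h.trans (le_of_eq (by unfold ItemC.bd; push_cast; ring))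
  | .ve μ _ =>
    have h := t5_le (jv J) P.dn P.dd P.vn P.vd (k := 4) _ μ.B (μ.pt_nonneg J χ P.dn P.dd)
      (μ.pt_le J χ P.dn P.dd) p
    exact h.trans (le_of_eq (by unfold ItemC.bd; push_cast; ring))
  | .vq μ _ =>
    have h := t6_le (jv J) P.vn P.vd (jv_nonneg J) (k := 2) _ μ.B (μ.pt_nonneg J χ P.dn P.dd)
      (μ.pt_le J χ P.dn P.dd) p
    exact h.trans (le_of_eq (by unfold ItemC.bd; push_cast; ring))

/-- The average of an item. -/
theorem ItemC.avg (i : ItemC) (hX : (P.xd : ℤ) * ∑ p, jv J p ≤ P.xn * (n : ℤ) ^ 4)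
    (hv : ∀ x, (P.vd : ℤ) * vs (jv J) x ≤ P.vn * (n : ℤ) ^ 3) {M : ℕ}
    (j : Fin 6 → Fin M) (hj : Function.Injective j) :
    -((i.bd P : ℝ) * ((n : ℝ) ^ M - (n.descFactorial M : ℝ))) ≤
      ∑ t ∈ inj (Fin n) M, ((i.val P (fun x => χ ((t ∘ j) x)) (wA J (t ∘ j))
        (wb J P.dn P.dd (t ∘ j)) : ℤ) : ℝ) := by
  have h1 := inj_ge_of_tot (i.fn J χ P) (i.bd P : ℝ) (i.fn_tot J χ P hX hv)
    (fun p => by exact_mod_cast i.fn_le J χ P p) (j ∘ i.π) (hj.comp i.π.injective)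
  refine le_trans h1 (le_of_eq ?_)
  refine Finset.sum_congr rfl fun t ht => ?_
  have h2 := i.val_eq J χ P (t ∘ j) ((mem_inj.mp ht).comp hj)
  rw [h2]
  rfl

/-- The sum of a list of items on a window. -/
def itemSumC (L : List ItemC) (c : Fin 6 → Bool) (A : Finset (Fin 6) → Bool)
    (b : Fin 6 → Fin 6 → Bool) : ℤ :=
  (L.map fun i => i.val P c A b).sum

/-- The average of a list of items. -/
theorem itemSumC_avg (L : List ItemC) (hX : (P.xd : ℤ) * ∑ p, jv J p ≤ P.xn * (n : ℤ) ^ 4)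
    (hv : ∀ x, (P.vd : ℤ) * vs (jv J) x ≤ P.vn * (n : ℤ) ^ 3) {M : ℕ}
    (j : Fin 6 → Fin M) (hj : Function.Injective j) :
    -(((L.map fun i => i.bd P).sum : ℕ) * ((n : ℝ) ^ M - (n.descFactorial M : ℝ))) ≤
      ∑ t ∈ inj (Fin n) M, ((itemSumC P L (fun x => χ ((t ∘ j) x)) (wA J (t ∘ j))
        (wb J P.dn P.dd (t ∘ j)) : ℤ) : ℝ) := by
  induction L with
  | nil => simp [itemSumC]
  | cons i L ih =>
    have h1 := ItemC.avg J χ P i hX hv j hj
    have h2 : ∑ t ∈ inj (Fin n) M,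
        ((itemSumC P (i :: L) (fun x => χ ((t ∘ j) x)) (wA J (t ∘ j))
          (wb J P.dn P.dd (t ∘ j)) : ℤ) : ℝ) =
        ∑ t ∈ inj (Fin n) M, ((i.val P (fun x => χ ((t ∘ j) x)) (wA J (t ∘ j))
          (wb J P.dn P.dd (t ∘ j)) : ℤ) : ℝ) +
        ∑ t ∈ inj (Fin n) M, ((itemSumC P L (fun x => χ ((t ∘ j) x)) (wA J (t ∘ j))
          (wb J P.dn P.dd (t ∘ j)) : ℤ) : ℝ) := by
      rw [← Finset.sum_add_distrib]
      refine Finset.sum_congr rfl fun t _ => ?_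
      simp [itemSumC]
    rw [h2, List.map_cons, List.sum_cons]
    push_cast
    push_cast at ih
    linarith

/-- The average of a function of the colours and of the members of `J` that is at least the sum of the
items for all marks. -/
theorem marksC_avg (L : List ItemC) (V : (Fin 6 → Bool) → (Finset (Fin 6) → Bool) → ℤ)
    (hV : ∀ (c : Fin 6 → Bool) (A : Finset (Fin 6) → Bool) (b : Fin 6 → Fin 6 → Bool),
      (∀ x y, b x y = b y x) → itemSumC P L c A b ≤ V c A)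
    (hX : (P.xd : ℤ) * ∑ p, jv J p ≤ P.xn * (n : ℤ) ^ 4)
    (hv : ∀ x, (P.vd : ℤ) * vs (jv J) x ≤ P.vn * (n : ℤ) ^ 3) {M : ℕ}
    (j : Fin 6 → Fin M) (hj : Function.Injective j) :
    -(((L.map fun i => i.bd P).sum : ℕ) * ((n : ℝ) ^ M - (n.descFactorial M : ℝ))) ≤
      ∑ t ∈ inj (Fin n) M, ((V (fun x => χ ((t ∘ j) x)) (wA J (t ∘ j)) : ℤ) : ℝ) := by
  refine le_trans (itemSumC_avg J χ P L hX hv j hj) (Finset.sum_le_sum fun t _ => ?_)
  exact_mod_cast hV _ _ _ fun x y => mk_comm J P.dn P.dd _ _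

end itm

end Pool.Agent.Lib.MP_afdd4d_co.K9.Marks
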