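import Pool.Agent.Lib.MP_afdd4d_co.K9.VCtx
import Pool.Agent.Lib.MP_afdd4d_co.K9.VItem

/-!
# Items with marks as terms of the local theorem
-/

namespace Pool.Agent.Lib.MP_afdd4d_co.K9.Star

open Finset K8
open Pool.Agent.Lib.MP_afdd4d_co.K9.Marks

/-- The context with closeness at all vertices. -/
structure CtxV (P : ∀ n : ℕ, Finset (Finset (Fin n)) → Prop) (X1 D1 : ℝ) {n : ℕ}
    (H : Finset (Finset (Fin n))) (χ : Fin n → Bool) (M : Fin n → Fin n → Bool)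
    (f g : Finset (Fin n) → Bool) : Prop extends Ctx P X1 H χ M f g where
  v : ∀ x, dg (symmDiff H (gir χ M f g)) x ≤ D1

/-- The local theorem for 4-graphs that are close to the reference structure at all vertices. -/
def T4V (P : ∀ n : ℕ, Finset (Finset (Fin n)) → Prop) (C X0 D0 : ℝ) : Prop :=
  ∀ ε : ℝ, 0 < ε → ∃ η : ℝ, 0 < η ∧ ∃ N : ℕ, ∀ n : ℕ, N ≤ n → ∀ H : Finset (Finset (Fin n)),
    (∀ e ∈ H, e.card = 4) → K5F H → P n H → 11 / 16 ≤ e4 H → ∀ χ M f g,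
    X4 H (gir χ M f g) ≤ X0 + η → (∀ x, dg (symmDiff H (gir χ M f g)) x ≤ D0 + η) →
    X4 H (gir χ M f g) + 9 / 10 * sg2 χ ≤ FC C H + η →
    e4 H ≤ 11 / 16 + ε

/-- The local theorem with closeness at all vertices, from the rows. -/
theorem t4v_of_rows {P : ∀ n : ℕ, Finset (Finset (Fin n)) → Prop} (hO : SumO5) (hE : EvUp)
    (cn cd : ℤ) (hcn : 0 ≤ cn) (hcd : 0 < cd) (X0 X1 D0 D1 : ℝ) (h01 : X0 < X1) (hD : D0 < D1)
    (N x y : ℕ) (hN : 0 < N) (Z : Fun6) (hZ : GoodC (CtxV P X1 D1) Z)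
    (hrow : T4Row P N x y cn cd Z) : T4V P ((cn : ℝ) / cd) X0 D0 := by
  intro ε hε
  obtain ⟨η, hη, N1, hN1⟩ := t4c_of_rows (P := P) hO hE cn cd hcn hcd N x y hN Z hZ hrow ε hε
  refine ⟨min η (min (X1 - X0) (D1 - D0)), lt_min hη (lt_min (by linarith) (by linarith)), N1,
    fun n hn H h4 hk5 hP hd χ M f g hX hv hX2 => ?_⟩
  have m1 : min η (min (X1 - X0) (D1 - D0)) ≤ η := min_le_left _ _
  have m2 : min η (min (X1 - X0) (D1 - D0)) ≤ X1 - X0 :=
    le_trans (min_le_right _ _) (min_le_left _ _)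
  have m3 : min η (min (X1 - X0) (D1 - D0)) ≤ D1 - D0 :=
    le_trans (min_le_right _ _) (min_le_right _ _)
  refine hN1 n hn H h4 hk5 hP hd χ M f g ⟨⟨h4, hk5, hP, hd, by linarith⟩, fun w => ?_⟩
    (by linarith)
  have := hv w
  linarith

/-- The function of an item for the difference of the 4-graph and the reference structure. -/
def iF (Pc : ParC) (i : ItemC) {n : ℕ} (H : Finset (Finset (Fin n))) (χ : Fin n → Bool)
    (M : Fin n → Fin n → Bool) (f g : Finset (Fin n) → Bool) (t : Fin 6 → Fin n) : ℤ :=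
  i.fn (symmDiff H (gir χ M f g)) χ Pc t

section items
variable {P : ∀ n : ℕ, Finset (Finset (Fin n)) → Prop} {X1 D1 : ℝ}

theorem symmDiff_card4 {n : ℕ} {H : Finset (Finset (Fin n))} (h4 : ∀ e ∈ H, e.card = 4)
    (χ : Fin n → Bool) (M : Fin n → Fin n → Bool) (f g : Finset (Fin n) → Bool) :
    ∀ e ∈ symmDiff H (gir χ M f g), e.card = 4 := by
  intro e he
  rw [Finset.mem_symmDiff] at he
  rcases he with h | h
  · exact h4 e h.1
  · exact gir_card χ M f g e h.1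

theorem hX_of_ctx (Pc : ParC) (hx : (Pc.xd : ℝ) * X1 ≤ Pc.xn) {n : ℕ}
    {H : Finset (Finset (Fin n))} {χ : Fin n → Bool} {M : Fin n → Fin n → Bool}
    {f g : Finset (Fin n) → Bool} (hc : Ctx P X1 H χ M f g) :
    (Pc.xd : ℤ) * ∑ p, jv (symmDiff H (gir χ M f g)) p ≤ Pc.xn * (n : ℤ) ^ 4 := by
  have h1 := jv_tot (symmDiff H (gir χ M f g)) (symmDiff_card4 hc.h4 χ M f g)
  have h2 : 24 * ((symmDiff H (gir χ M f g)).card : ℝ) ≤ X1 * (n : ℝ) ^ 4 := by
    rcases Nat.eq_zero_or_pos n with h0 | h0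
    · subst h0
      have h3 : symmDiff H (gir χ M f g) = ∅ := by
        rw [Finset.eq_empty_iff_forall_notMem]
        intro e he
        have h4 := symmDiff_card4 hc.h4 χ M f g e he
        have h5 := Finset.card_le_univ e
        rw [h4, Fintype.card_fin] at h5
        omega
      rw [h3]
      simp
    · have hn : (0 : ℝ) < (n : ℝ) ^ 4 := by positivity
      have h3 := hc.X
      unfold X4 at h3
      rw [div_le_iff₀ hn] at h3
      exact h3
  have h3 : (Pc.xd : ℝ) * ((∑ p, jv (symmDiff H (gir χ M f g)) p : ℤ) : ℝ) ≤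
      Pc.xn * (n : ℝ) ^ 4 := by
    calc (Pc.xd : ℝ) * ((∑ p, jv (symmDiff H (gir χ M f g)) p : ℤ) : ℝ) ≤
        Pc.xd * (X1 * (n : ℝ) ^ 4) :=
          mul_le_mul_of_nonneg_left (le_trans h1 h2) (Nat.cast_nonneg _)
      _ = Pc.xd * X1 * (n : ℝ) ^ 4 := by ring
      _ ≤ Pc.xn * (n : ℝ) ^ 4 := mul_le_mul_of_nonneg_right hx (by positivity)
  exact_mod_cast h3

theorem hv_of_ctx (Pc : ParC) (hx : (Pc.vd : ℝ) * D1 ≤ Pc.vn) {n : ℕ}
    {H : Finset (Finset (Fin n))} {χ : Fin n → Bool} {M : Fin n → Fin n → Bool}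
    {f g : Finset (Fin n) → Bool} (hc : CtxV P X1 D1 H χ M f g) (x : Fin n) :
    (Pc.vd : ℤ) * vs (jv (symmDiff H (gir χ M f g))) x ≤ Pc.vn * (n : ℤ) ^ 3 := by
  refine hv_of_card _ (symmDiff_card4 hc.h4 χ M f g) Pc.vn Pc.vd (fun w => ?_) x
  have hn : (0 : ℝ) < (n : ℝ) ^ 3 := by
    have : 0 < n := lt_of_le_of_lt (Nat.zero_le _) w.isLt
    positivity
  have h3 := hc.v w
  unfold dg at h3
  rw [div_le_iff₀ hn] at h3
  calc (Pc.vd : ℝ) * (6 * (((symmDiff H (gir χ M f g)).filter fun e => w ∈ e).card : ℝ)) ≤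
      Pc.vd * (D1 * (n : ℝ) ^ 3) := mul_le_mul_of_nonneg_left h3 (Nat.cast_nonneg _)
    _ = Pc.vd * D1 * (n : ℝ) ^ 3 := by ring
    _ ≤ Pc.vn * (n : ℝ) ^ 3 := mul_le_mul_of_nonneg_right hx (by positivity)

/-- An item as a term of the local theorem. -/
theorem good_item (Pc : ParC) (hx : (Pc.xd : ℝ) * X1 ≤ Pc.xn) (hv : (Pc.vd : ℝ) * D1 ≤ Pc.vn)
    (i : ItemC) : GoodC (CtxV P X1 D1) (fun H χ M f g t => iF Pc i H χ M f g t) := by
  refine GoodC.of_bound (Z := fun H χ M f g t => iF Pc i H χ M f g t) (i.bd Pc : ℝ)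
    fun H χ M f g hc => ?_
  exact inj_ge_of_tot (i.fn (symmDiff H (gir χ M f g)) χ Pc) (i.bd Pc : ℝ)
    (i.fn_tot _ χ Pc (hX_of_ctx Pc hx hc.toCtx) fun x => hv_of_ctx Pc hv hc x)
    (fun p => by exact_mod_cast i.fn_le _ χ Pc p) id Function.injective_id

/-- The items that do not use the closeness at the vertices. -/
def ItemC.noV (i : ItemC) : Prop :=
  match i with
  | .ve _ _ => False
  | .vq _ _ => False
  | _ => True

theorem fn_tot_noV {n : ℕ} (J : Finset (Finset (Fin n))) (χ : Fin n → Bool) (Pc : ParC) (i : ItemC)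
    (hi : ItemC.noV i) (hX : (Pc.xd : ℤ) * ∑ p, jv J p ≤ Pc.xn * (n : ℤ) ^ 4) :
    0 ≤ ∑ p, i.fn J χ Pc p := by
  match i, hi with
  | .um μ _, _ =>
    exact t1_tot (jv J) Pc.dn Pc.dd _ (μ.pt_nonneg J χ Pc.dn Pc.dd)
  | .ma μ _, _ =>
    exact t2_tot (jv J) Pc.dn Pc.dd _ (μ.pt_nonneg J χ Pc.dn Pc.dd)
  | .fe μ _, _ =>
    exact t3_tot (jv J) Pc.dn Pc.dd Pc.xn Pc.xd (jv_nonneg J) hX _
      (μ.pt_nonneg J χ Pc.dn Pc.dd)
  | .al μ _, _ =>
    exact t7_tot (jv J) Pc.xn Pc.xd hX _ (μ.pt_nonneg J χ Pc.dn Pc.dd)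

/-- An item as a term of the local theorem, without the closeness at the vertices. -/
theorem good_item' (Pc : ParC) (hx : (Pc.xd : ℝ) * X1 ≤ Pc.xn) (i : ItemC) (hi : ItemC.noV i) :
    Good P X1 (fun H χ M f g t => iF Pc i H χ M f g t) := by
  refine Good.of_bound (Z := fun H χ M f g t => iF Pc i H χ M f g t) (i.bd Pc : ℝ)
    fun H χ M f g hc => ?_
  exact inj_ge_of_tot (i.fn (symmDiff H (gir χ M f g)) χ Pc) (i.bd Pc : ℝ)
    (fn_tot_noV _ χ Pc i hi (hX_of_ctx Pc hx hc))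
    (fun p => by exact_mod_cast i.fn_le _ χ Pc p) id Function.injective_id

/-- A function of the colours and of the differences of the window that is at least a sum of items for
all marks. -/
theorem good_marksC (Pc : ParC) (hx : (Pc.xd : ℝ) * X1 ≤ Pc.xn) (hv : (Pc.vd : ℝ) * D1 ≤ Pc.vn)
    (L : List ItemC) (V : (Fin 6 → Bool) → (Finset (Fin 6) → Bool) → ℤ)
    (hV : ∀ (c : Fin 6 → Bool) (A : Finset (Fin 6) → Bool) (b : Fin 6 → Fin 6 → Bool),
      (∀ x y, b x y = b y x) → itemSumC Pc L c A b ≤ V c A) :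
    GoodC (CtxV P X1 D1) (fun H χ M f g t =>
      V (fun x => χ (t x)) (wA (symmDiff H (gir χ M f g)) t)) := by
  refine GoodC.of_bound (Z := fun H χ M f g t =>
    V (fun x => χ (t x)) (wA (symmDiff H (gir χ M f g)) t))
    (((L.map fun i => i.bd Pc).sum : ℕ) : ℝ) fun H χ M f g hc => ?_
  exact marksC_avg (symmDiff H (gir χ M f g)) χ Pc L V hV (hX_of_ctx Pc hx hc.toCtx)
    (fun x => hv_of_ctx Pc hv hc x) id Function.injective_id

/-- The difference on a quadruple of the window. -/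
theorem wA_symm {n : ℕ} (H : Finset (Finset (Fin n))) (χ : Fin n → Bool)
    (M : Fin n → Fin n → Bool) (f g : Finset (Fin n) → Bool) (t : Fin 6 → Fin n)
    (T : Finset (Fin 6)) : wA (symmDiff H (gir χ M f g)) t T = (zb H t T ^^ zb (gir χ M f g) t T) := by
  rw [zb_dec, zb_dec]
  unfold wA
  by_cases h1 : T.image t ∈ H <;> by_cases h2 : T.image t ∈ gir χ M f g <;>
    simp [Finset.mem_symmDiff, h1, h2]

end items

end Pool.Agent.Lib.MP_afdd4d_co.K9.Star
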