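import Pool.Agent.Lib.MP_afdd4d_co.K9.VTerm

/-!
# Independence of disjoint vertices and the analysis of cases

If the average of a function of some vertices lies between two numbers, then the average of its
product with a multiplier of other vertices is bounded in both directions. The local theorem follows
from finitely many cases of such averages.
-/

namespace Pool.Agent.Lib.MP_afdd4d_co.K9.Star

open Finset K8
open Pool.Agent.Lib.MP_afdd4d_co.K9.Marks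

section ind
variable {Cx : CX}

/-- The function of `k + m` vertices of a window by two injections. -/
theorem sum_kl {n k m : ℕ} (F : (Fin k → Fin n) → ℤ) (G : (Fin m → Fin n) → ℤ) :
    ∑ p : Fin (k + m) → Fin n, F (p ∘ Fin.castAdd m) * G (p ∘ Fin.natAdd k) =
      (∑ s, F s) * ∑ u, G u := by
  rw [sum_app (k := k) (l := m), Finset.sum_mul]
  refine Finset.sum_congr rfl fun s _ => ?_
  rw [Finset.mul_sum]
  refine Finset.sum_congr rfl fun u _ => ?_
  have e1 : (Fin.append s u : Fin (k + m) → Fin n) ∘ Fin.castAdd m = s := append_castAdd s u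
  have e2 : (Fin.append s u : Fin (k + m) → Fin n) ∘ Fin.natAdd k = u := by
    funext i
    exact Fin.append_right s u i
  rw [e1, e2]

theorem card_funs (n m : ℕ) : ((univ : Finset (Fin m → Fin n)).card : ℤ) = (n : ℤ) ^ m := by
  rw [Finset.card_univ, Fintype.card_fun, Fintype.card_fin, Fintype.card_fin]
  push_cast
  rfl

/-- The upper bound of the average of `ψ` times a multiplier of other vertices. -/
theorem good_hi {k m : ℕ} (φ : Phi k) (ψ : Phi m) (an ad : ℕ) (j : Fin (k + m) → Fin 6)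
    (hj : Function.Injective j)
    (h : ∀ {n : ℕ} (H : Finset (Finset (Fin n))) (χ : Fin n → Bool) M f g, Cx H χ M f g →
      (ad : ℤ) * ∑ u, ψ.F H χ M f g u ≤ an * (n : ℤ) ^ m) :
    GoodC Cx (fun H χ M f g t => φ.F H χ M f g (t ∘ j ∘ Fin.castAdd m) *
      ((an : ℤ) - ad * ψ.F H χ M f g (t ∘ j ∘ Fin.natAdd k))) := by
  refine GoodC.of_bound (Z := fun H χ M f g t => φ.F H χ M f g (t ∘ j ∘ Fin.castAdd m) *
      ((an : ℤ) - ad * ψ.F H χ M f g (t ∘ j ∘ Fin.natAdd k))) ((φ.B * an : ℕ) : ℝ)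
    fun {n} H χ M f g hc => ?_
  have h1 := inj_ge_of_tot (fun p : Fin (k + m) → Fin n => φ.F H χ M f g (p ∘ Fin.castAdd m) *
      ((an : ℤ) - ad * ψ.F H χ M f g (p ∘ Fin.natAdd k))) ((φ.B * an : ℕ) : ℝ) ?_ ?_ j hj
  · exact h1
  · rw [sum_kl (k := k) (m := m) (φ.F H χ M f g) fun u => (an : ℤ) - ad * ψ.F H χ M f g u]
    refine mul_nonneg (Finset.sum_nonneg fun s _ => φ.h0 H χ M f g s) ?_
    rw [Finset.sum_sub_distrib, Finset.sum_const, nsmul_eq_mul, card_funs, ← Finset.mul_sum]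
    have := h H χ M f g hc
    linarith [mul_comm (an : ℤ) ((n : ℤ) ^ m)]
  · intro p
    have h2 : φ.F H χ M f g (p ∘ Fin.castAdd m) *
        ((an : ℤ) - ad * ψ.F H χ M f g (p ∘ Fin.natAdd k)) ≤ ((φ.B * an : ℕ) : ℤ) := by
      have h3 : (an : ℤ) - ad * ψ.F H χ M f g (p ∘ Fin.natAdd k) ≤ an := by
        have : (0 : ℤ) ≤ ad * ψ.F H χ M f g (p ∘ Fin.natAdd k) :=
          mul_nonneg (Int.natCast_nonneg _) (ψ.h0 _ _ _ _ _ _)
        linarith
      push_cast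
      calc _ ≤ φ.F H χ M f g (p ∘ Fin.castAdd m) * an :=
            mul_le_mul_of_nonneg_left h3 (φ.h0 _ _ _ _ _ _)
        _ ≤ φ.B * an := mul_le_mul_of_nonneg_right (φ.hB _ _ _ _ _ _) (Int.natCast_nonneg _)
    exact_mod_cast h2

/-- The lower bound of the average of `ψ` times a multiplier of other vertices. -/
theorem good_lo {k m : ℕ} (φ : Phi k) (ψ : Phi m) (an ad : ℕ) (j : Fin (k + m) → Fin 6)
    (hj : Function.Injective j)
    (h : ∀ {n : ℕ} (H : Finset (Finset (Fin n))) (χ : Fin n → Bool) M f g, Cx H χ M f g →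
      an * (n : ℤ) ^ m ≤ (ad : ℤ) * ∑ u, ψ.F H χ M f g u) :
    GoodC Cx (fun H χ M f g t => φ.F H χ M f g (t ∘ j ∘ Fin.castAdd m) *
      (ad * ψ.F H χ M f g (t ∘ j ∘ Fin.natAdd k) - (an : ℤ))) := by
  refine GoodC.of_bound (Z := fun H χ M f g t => φ.F H χ M f g (t ∘ j ∘ Fin.castAdd m) *
      (ad * ψ.F H χ M f g (t ∘ j ∘ Fin.natAdd k) - (an : ℤ))) ((φ.B * (ad * ψ.B) : ℕ) : ℝ)
    fun {n} H χ M f g hc => ?_
  have h1 := inj_ge_of_tot (fun p : Fin (k + m) → Fin n => φ.F H χ M f g (p ∘ Fin.castAdd m) *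
      (ad * ψ.F H χ M f g (p ∘ Fin.natAdd k) - (an : ℤ))) ((φ.B * (ad * ψ.B) : ℕ) : ℝ) ?_ ?_ j hj
  · exact h1
  · rw [sum_kl (k := k) (m := m) (φ.F H χ M f g) fun u => ad * ψ.F H χ M f g u - (an : ℤ)]
    refine mul_nonneg (Finset.sum_nonneg fun s _ => φ.h0 H χ M f g s) ?_
    rw [Finset.sum_sub_distrib, Finset.sum_const, nsmul_eq_mul, card_funs, ← Finset.mul_sum]
    have := h H χ M f g hc
    linarith [mul_comm (an : ℤ) ((n : ℤ) ^ m)]
  · intro p
    have h2 : φ.F H χ M f g (p ∘ Fin.castAdd m) *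
        (ad * ψ.F H χ M f g (p ∘ Fin.natAdd k) - (an : ℤ)) ≤ ((φ.B * (ad * ψ.B) : ℕ) : ℤ) := by
      have h3 : ad * ψ.F H χ M f g (p ∘ Fin.natAdd k) - (an : ℤ) ≤ ad * ψ.B := by
        have h4 : (ad : ℤ) * ψ.F H χ M f g (p ∘ Fin.natAdd k) ≤ ad * ψ.B :=
          mul_le_mul_of_nonneg_left (ψ.hB _ _ _ _ _ _) (Int.natCast_nonneg _)
        have h5 : (0 : ℤ) ≤ an := Int.natCast_nonneg _
        linarith
      push_cast
      have h6 : (0 : ℤ) ≤ ad * ψ.B := by positivity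
      calc _ ≤ φ.F H χ M f g (p ∘ Fin.castAdd m) * (ad * ψ.B) :=
            mul_le_mul_of_nonneg_left h3 (φ.h0 _ _ _ _ _ _)
        _ ≤ φ.B * (ad * ψ.B) := mul_le_mul_of_nonneg_right (φ.hB _ _ _ _ _ _) h6
    exact_mod_cast h2

end ind

/-! ### The local theorem with a further condition -/

/-- The local theorem for reference structures with a further condition. -/
def T4Q (P : ∀ n : ℕ, Finset (Finset (Fin n)) → Prop) (C X0 : ℝ) (Q : CX) : Prop :=
  ∀ ε : ℝ, 0 < ε → ∃ η : ℝ, 0 < η ∧ ∃ N : ℕ, ∀ n : ℕ, N ≤ n → ∀ H : Finset (Finset (Fin n)),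
    (∀ e ∈ H, e.card = 4) → K5F H → P n H → 11 / 16 ≤ e4 H → ∀ χ M f g, Q H χ M f g →
    X4 H (gir χ M f g) ≤ X0 + η →
    X4 H (gir χ M f g) + 9 / 10 * sg2 χ ≤ FC C H + η →
    e4 H ≤ 11 / 16 + ε

section t4q
variable {P : ∀ n : ℕ, Finset (Finset (Fin n)) → Prop} {C X0 : ℝ}

theorem t4q_true (h : T4Q P C X0 (fun _ _ _ _ _ => True)) : T4 P C X0 := by
  intro ε hε
  obtain ⟨η, hη, N, hN⟩ := h ε hε
  exact ⟨η, hη, N, fun n hn H h4 hk hP hd χ M f g hX hX2 =>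
    hN n hn H h4 hk hP hd χ M f g trivial hX hX2⟩

/-- Two cases. -/
theorem t4q_or {Q Q' Q'' : CX} (h : T4Q P C X0 Q) (h' : T4Q P C X0 Q')
    (hq : ∀ {n : ℕ} (H : Finset (Finset (Fin n))) (χ : Fin n → Bool) M f g,
      (∀ e ∈ H, e.card = 4) → Q'' H χ M f g → Q H χ M f g ∨ Q' H χ M f g) :
    T4Q P C X0 Q'' := by
  intro ε hε
  obtain ⟨η, hη, N, hN⟩ := h ε hε
  obtain ⟨η', hη', N', hN'⟩ := h' ε hε
  refine ⟨min η η', lt_min hη hη', max N N', fun n hn H h4 hk hP hd χ M f g hq2 hX hX2 => ?_⟩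
  have m1 := min_le_left η η'
  have m2 := min_le_right η η'
  rcases hq H χ M f g h4 hq2 with hc | hc
  · exact hN n (le_trans (le_max_left _ _) hn) H h4 hk hP hd χ M f g hc (by linarith)
      (by linarith)
  · exact hN' n (le_trans (le_max_right _ _) hn) H h4 hk hP hd χ M f g hc (by linarith)
      (by linarith)

theorem t4q_mono {Q Q' : CX} (h : T4Q P C X0 Q)
    (hq : ∀ {n : ℕ} (H : Finset (Finset (Fin n))) (χ : Fin n → Bool) M f g,
      (∀ e ∈ H, e.card = 4) → Q' H χ M f g → Q H χ M f g) : T4Q P C X0 Q' :=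
  t4q_or h h fun H χ M f g h4 hc => Or.inl (hq H χ M f g h4 hc)

/-- The local theorem with a further condition, from the rows. -/
theorem t4q_of_rows {Q : CX} (hO : SumO5) (hE : EvUp)
    (cn cd : ℤ) (hcn : 0 ≤ cn) (hcd : 0 < cd) (X1 : ℝ) (h01 : X0 < X1)
    (N x y : ℕ) (hN : 0 < N) (Z : Fun6)
    (hZ : GoodC (fun H χ M f g => Ctx P X1 H χ M f g ∧ Q H χ M f g) Z)
    (hrow : T4Row P N x y cn cd Z) : T4Q P ((cn : ℝ) / cd) X0 Q := by
  intro ε hε
  obtain ⟨η, hη, N1, hN1⟩ := t4c_of_rows (P := P) hO hE cn cd hcn hcd N x y hN Z hZ hrow ε hε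
  refine ⟨min η (X1 - X0), lt_min hη (by linarith), N1,
    fun n hn H h4 hk5 hP hd χ M f g hq hX hX2 => ?_⟩
  have m1 : min η (X1 - X0) ≤ η := min_le_left _ _
  have m2 : min η (X1 - X0) ≤ X1 - X0 := min_le_right _ _
  exact hN1 n hn H h4 hk5 hP hd χ M f g ⟨⟨h4, hk5, hP, hd, by linarith⟩, hq⟩ (by linarith)

end t4q

/-! ### The cases of an average -/

section cases

/-- The average of a function of `m` vertices lies between `ln / d` and `hn / d`. -/
def Avg {m : ℕ} (ψ : Phi m) (ln hn d : ℕ) : CX := fun {n} H χ M f g =>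
  (ln : ℤ) * (n : ℤ) ^ m ≤ (d : ℤ) * ∑ u, ψ.F H χ M f g u ∧
    (d : ℤ) * ∑ u, ψ.F H χ M f g u ≤ (hn : ℤ) * (n : ℤ) ^ m

variable {P : ∀ n : ℕ, Finset (Finset (Fin n)) → Prop} {C X0 : ℝ}

/-- Two adjacent intervals. -/
theorem t4q_avg {m : ℕ} (ψ : Phi m) (a b c d : ℕ) (h : T4Q P C X0 (Avg ψ a b d))
    (h' : T4Q P C X0 (Avg ψ b c d)) : T4Q P C X0 (Avg ψ a c d) := by
  refine t4q_or h h' fun {n} H χ M f g _ hc => ?_
  rcases le_total ((d : ℤ) * ∑ u, ψ.F H χ M f g u) ((b : ℤ) * (n : ℤ) ^ m) with h1 | h1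
  · exact Or.inl ⟨hc.1, h1⟩
  · exact Or.inr ⟨h1, hc.2⟩

/-- The interval of all values. -/
theorem t4q_all {m : ℕ} (ψ : Phi m) (d : ℕ) (h : T4Q P C X0 (Avg ψ 0 (d * ψ.B) d)) :
    T4Q P C X0 (fun _ _ _ _ _ => True) := by
  refine t4q_mono h fun {n} H χ M f g _ _ => ⟨?_, ?_⟩
  · have h1 : 0 ≤ ∑ u, ψ.F H χ M f g u := Finset.sum_nonneg fun u _ => ψ.h0 _ _ _ _ _ _
    simp only [Nat.cast_zero, zero_mul]
    exact mul_nonneg (Int.natCast_nonneg _) h1
  · have h1 : ∑ u, ψ.F H χ M f g u ≤ ∑ _u : Fin m → Fin n, (ψ.B : ℤ) :=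
      Finset.sum_le_sum fun u _ => ψ.hB _ _ _ _ _ _
    rw [Finset.sum_const, nsmul_eq_mul, card_funs] at h1
    push_cast
    calc (d : ℤ) * ∑ u, ψ.F H χ M f g u ≤ d * ((n : ℤ) ^ m * ψ.B) :=
          mul_le_mul_of_nonneg_left h1 (Int.natCast_nonneg _)
      _ = d * ψ.B * (n : ℤ) ^ m := by ring

end cases

/-! ### The local theorem for reference structures of smallest cost -/

/-- The local theorem for reference structures of smallest cost. -/
def T4B (P : ∀ n : ℕ, Finset (Finset (Fin n)) → Prop) (C X0 : ℝ) : Prop :=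
  T4Q P C X0 (fun H χ M f g => Best (9 / 10) H χ M f g)

/-- The bound of the functional from the closeness. -/
theorem FC_le {P : ∀ n : ℕ, Finset (Finset (Fin n)) → Prop} {C X0 : ℝ} (hC : 0 ≤ C)
    (h3 : T3 P C X0) : ∃ N : ℕ, ∀ n : ℕ, N ≤ n → ∀ H : Finset (Finset (Fin n)),
      (∀ e ∈ H, e.card = 4) → K5F H → P n H → 11 / 16 ≤ e4 H → FC C H ≤ X0 := by
  obtain ⟨N, hN⟩ := h3
  refine ⟨N, fun n hn H h4 hk hP hd => ?_⟩
  have h := hN n hn H h4 hk hP hd
  have h2 : C * (11 / 16 - e4 H) ≤ 0 := by nlinarith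
  unfold FC
  linarith

/-- The local theorem from the one for reference structures of smallest cost. -/
theorem t4_of_t4b {P : ∀ n : ℕ, Finset (Finset (Fin n)) → Prop} {C X0 : ℝ} (hC : 0 ≤ C)
    (h3 : T3 P C X0) (h : T4B P C X0) : T4 P C X0 := by
  intro ε hε
  obtain ⟨η, hη, N, hN⟩ := h ε hε
  obtain ⟨N3, hN3⟩ := FC_le hC h3
  refine ⟨η, hη, max N N3, fun n hn H h4 hk hP hd χ M f g _ hX2 => ?_⟩
  have h5 := hN3 n (le_trans (le_max_right _ _) hn) H h4 hk hP hd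
  obtain ⟨χ', M', f', g', hb⟩ := exists_best (9 / 10) H
  have h6 := hb χ M f g
  unfold cost at h6
  have h7 := sg2_nonneg χ'
  exact hN n (le_trans (le_max_left _ _) hn) H h4 hk hP hd χ' M' f' g' hb (by linarith)
    (by linarith)

end Pool.Agent.Lib.MP_afdd4d_co.K9.Star
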