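import Pool.Agent.Lib.MP_afdd4d_co.K9.VMarks

/-!
# The list of items with marks of vertices, pairs and triples
-/

namespace Pool.Agent.Lib.MP_afdd4d_co.K9.Star

open Finset K8
open Pool.Agent.Lib.MP_afdd4d_co.K9.Marks

/-! ### The numbers of marked vertices, pairs and triples -/

section tot
variable (P : ParX) {n : ℕ} (J : Finset (Finset (Fin n)))

theorem tot_V : ∑ x : Fin 1 → Fin n, vs (jv J) (x 0) = ∑ p, jv J p := by
  rw [sum_app (k := 1) (l := 3) (jv J)]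
  refine Finset.sum_congr rfl fun x _ => ?_
  unfold vs
  refine Finset.sum_congr rfl fun u _ => congrArg _ ?_
  funext i
  fin_cases i <;> rfl

theorem tot_P : ∑ x : Fin 2 → Fin n, js (jv J) (x 0) (x 1) = ∑ p, jv J p := by
  rw [sum_app (k := 2) (l := 2) (jv J)]
  refine Finset.sum_congr rfl fun x _ => ?_
  unfold js
  refine Finset.sum_congr rfl fun u _ => congrArg _ ?_
  funext i
  fin_cases i <;> rfl

theorem tot_T : ∑ x : Fin 3 → Fin n, ts J (x 0) (x 1) (x 2) = ∑ p, jv J p := by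
  rw [sum_app (k := 3) (l := 1) (jv J)]
  refine Finset.sum_congr rfl fun x _ => ?_
  unfold ts
  refine Finset.sum_congr rfl fun u _ => congrArg _ ?_
  funext i
  fin_cases i <;> rfl

variable (hX : (P.xd : ℤ) * ∑ p, jv J p ≤ P.xn * (n : ℤ) ^ 4)
include hX

/-- There are few marked vertices. -/
theorem few_V : ((P.xd * P.vn : ℕ) : ℤ) * ∑ x : Fin 1 → Fin n, ((mkV P J (x 0)).toNat : ℤ) ≤
    ((P.xn * P.vd : ℕ) : ℤ) * (n : ℤ) ^ 1 := by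
  rcases Nat.eq_zero_or_pos n with h0 | h0
  · subst h0
    simp
  have hn : (0 : ℤ) < (n : ℤ) := by exact_mod_cast h0
  have h1 : (P.vn : ℤ) * (n : ℤ) ^ 3 * ∑ x : Fin 1 → Fin n, ((mkV P J (x 0)).toNat : ℤ) ≤
      P.vd * ∑ p, jv J p := by
    rw [← tot_V, Finset.mul_sum, Finset.mul_sum]
    exact Finset.sum_le_sum fun x _ => markV P J (x 0)
  have h2 := markov_cancel (n' := (n : ℤ)) (a := P.xd * P.vn)
    (S := ∑ x : Fin 1 → Fin n, ((mkV P J (x 0)).toNat : ℤ)) (A := P.xd * (P.vd * ∑ p, jv J p))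
    (B := P.xn * P.vd * n) 3 hn
    (by
      have := mul_le_mul_of_nonneg_left h1 (Int.natCast_nonneg P.xd)
      linarith)
    (by
      have := mul_le_mul_of_nonneg_left hX (Int.natCast_nonneg P.vd)
      linarith)
  push_cast
  linarith

/-- There are few marked pairs. -/
theorem few_P : ((P.xd * P.dn : ℕ) : ℤ) * ∑ x : Fin 2 → Fin n, ((mkP P J (x 0) (x 1)).toNat : ℤ) ≤
    ((P.xn * P.dd : ℕ) : ℤ) * (n : ℤ) ^ 2 := by
  rcases Nat.eq_zero_or_pos n with h0 | h0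
  · subst h0
    simp
  have hn : (0 : ℤ) < (n : ℤ) := by exact_mod_cast h0
  have h1 : (P.dn : ℤ) * (n : ℤ) ^ 2 * ∑ x : Fin 2 → Fin n, ((mkP P J (x 0) (x 1)).toNat : ℤ) ≤
      P.dd * ∑ p, jv J p := by
    rw [← tot_P, Finset.mul_sum, Finset.mul_sum]
    exact Finset.sum_le_sum fun x _ => markP P J (x 0) (x 1)
  have h2 := markov_cancel (n' := (n : ℤ)) (a := P.xd * P.dn)
    (S := ∑ x : Fin 2 → Fin n, ((mkP P J (x 0) (x 1)).toNat : ℤ))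
    (A := P.xd * (P.dd * ∑ p, jv J p)) (B := P.xn * P.dd * (n : ℤ) ^ 2) 2 hn
    (by
      have := mul_le_mul_of_nonneg_left h1 (Int.natCast_nonneg P.xd)
      linarith)
    (by
      have := mul_le_mul_of_nonneg_left hX (Int.natCast_nonneg P.dd)
      linarith)
  push_cast
  linarith

/-- There are few marked triples. -/
theorem few_T : ((P.xd * P.tn : ℕ) : ℤ) *
    ∑ x : Fin 3 → Fin n, ((mkT P J (x 0) (x 1) (x 2)).toNat : ℤ) ≤
    ((P.xn * P.td : ℕ) : ℤ) * (n : ℤ) ^ 3 := by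
  rcases Nat.eq_zero_or_pos n with h0 | h0
  · subst h0
    simp
  have hn : (0 : ℤ) < (n : ℤ) := by exact_mod_cast h0
  have h1 : (P.tn : ℤ) * (n : ℤ) ^ 1 *
      ∑ x : Fin 3 → Fin n, ((mkT P J (x 0) (x 1) (x 2)).toNat : ℤ) ≤ P.td * ∑ p, jv J p := by
    rw [← tot_T, Finset.mul_sum, Finset.mul_sum]
    exact Finset.sum_le_sum fun x _ => markT P J (x 0) (x 1) (x 2)
  have h2 := markov_cancel (n' := (n : ℤ)) (a := P.xd * P.tn)
    (S := ∑ x : Fin 3 → Fin n, ((mkT P J (x 0) (x 1) (x 2)).toNat : ℤ))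
    (A := P.xd * (P.td * ∑ p, jv J p)) (B := P.xn * P.td * (n : ℤ) ^ 3) 1 hn
    (by
      have := mul_le_mul_of_nonneg_left h1 (Int.natCast_nonneg P.xd)
      linarith)
    (by
      have := mul_le_mul_of_nonneg_left hX (Int.natCast_nonneg P.td)
      linarith)
  push_cast
  linarith

/-- There are few vertices in many marked pairs. -/
theorem few_B : ((P.xd * P.dn * P.bn : ℕ) : ℤ) *
    ∑ x : Fin 1 → Fin n, ((mkB P J (x 0)).toNat : ℤ) ≤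
    ((P.xn * P.dd * P.bd : ℕ) : ℤ) * (n : ℤ) ^ 1 := by
  rcases Nat.eq_zero_or_pos n with h0 | h0
  · subst h0
    simp
  have hn : (0 : ℤ) < (n : ℤ) := by exact_mod_cast h0
  have e : ∑ x : Fin 1 → Fin n, bs P J (x 0) =
      ∑ x : Fin 2 → Fin n, ((mkP P J (x 0) (x 1)).toNat : ℤ) := by
    rw [sum_app (k := 1) (l := 1) fun x : Fin 2 → Fin n => ((mkP P J (x 0) (x 1)).toNat : ℤ)]
    rfl
  have h1 : (P.bn : ℤ) * (n : ℤ) ^ 1 * ∑ x : Fin 1 → Fin n, ((mkB P J (x 0)).toNat : ℤ) ≤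
      P.bd * ∑ x : Fin 2 → Fin n, ((mkP P J (x 0) (x 1)).toNat : ℤ) := by
    rw [← e, Finset.mul_sum, Finset.mul_sum]
    exact Finset.sum_le_sum fun x _ => markB P J (x 0)
  have h3 := few_P P J hX
  push_cast at h3
  have h2 := markov_cancel (n' := (n : ℤ)) (a := P.xd * P.dn * P.bn)
    (S := ∑ x : Fin 1 → Fin n, ((mkB P J (x 0)).toNat : ℤ))
    (A := P.xd * P.dn * (P.bd * ∑ x : Fin 2 → Fin n, ((mkP P J (x 0) (x 1)).toNat : ℤ)))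
    (B := P.xn * P.dd * P.bd * (n : ℤ)) 1 hn
    (by
      have := mul_le_mul_of_nonneg_left h1 (by positivity : (0 : ℤ) ≤ P.xd * P.dn)
      linarith)
    (by
      have := mul_le_mul_of_nonneg_left h3 (Int.natCast_nonneg P.bd)
      linarith)
  push_cast
  linarith

end tot

/-! ### The items -/

/-- The items. -/
inductive ItemX : Type
  | um1 (μ : MuX 3)
  | ma1 (μ : MuX 3)
  | um2 (μ : MuX 4)
  | ma2 (μ : MuX 4)
  | um3 (μ : MuX 5)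
  | ma3 (μ : MuX 5)
  | umB (μ : MuX 5)
  | maB (μ : MuX 5)
  | fe1 (μ : MuX 5)
  | fe2 (μ : MuX 4)
  | fe3 (μ : MuX 3)
  | feB (μ : MuX 5)
  | al (μ : MuX 2)
  | v2 (μ : MuX 5)
  | v3 (μ : MuX 4)
  | p3 (μ : MuX 5)
  | mg (R : Rule2) (μ : MuX 2)
  | mt (μ : MuX 5)
  | me (μ : MuX 4)
  | u51 (μ : MuX 5) (ψ : MuX (5 + 1)) (an ad : ℕ)
  | l51 (μ : MuX 5) (ψ : MuX (5 + 1)) (an ad : ℕ)
  | u42 (μ : MuX 4) (ψ : MuX (4 + 2)) (an ad : ℕ)
  | l42 (μ : MuX 4) (ψ : MuX (4 + 2)) (an ad : ℕ)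
  | u33 (μ : MuX 3) (ψ : MuX (3 + 3)) (an ad : ℕ)
  | l33 (μ : MuX 3) (ψ : MuX (3 + 3)) (an ad : ℕ)
  | u24 (μ : MuX 2) (ψ : MuX (2 + 4)) (an ad : ℕ)
  | l24 (μ : MuX 2) (ψ : MuX (2 + 4)) (an ad : ℕ)

/-- The function of an item. -/
def ItemX.fn (P : ParX) (i : ItemX) : Fun6 := fun H χ M f g t =>
  match i with
  | .um1 μ => ((μ.off fun D => D.m 0).phi P).F H χ M f g (t ∘ id ∘ Fin.castAdd 3) *
      (((P.vn : ℕ) : ℤ) - ((P.vd : ℕ) : ℤ) *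
        (Bj (N := 3 + 3) ![0, 3, 4, 5]).F H χ M f g (t ∘ id))
  | .ma1 μ => ((μ.on fun D => D.m 0).phi P).F H χ M f g (t ∘ id ∘ Fin.castAdd 3) *
      (((P.vd : ℕ) : ℤ) * (Bj (N := 3 + 3) ![0, 3, 4, 5]).F H χ M f g (t ∘ id) -
        ((P.vn : ℕ) : ℤ))
  | .um2 μ => ((μ.off fun D => D.b 0 1).phi P).F H χ M f g (t ∘ id ∘ Fin.castAdd 2) *
      (((P.dn : ℕ) : ℤ) - ((P.dd : ℕ) : ℤ) *
        (Bj (N := 4 + 2) ![0, 1, 4, 5]).F H χ M f g (t ∘ id))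
  | .ma2 μ => ((μ.on fun D => D.b 0 1).phi P).F H χ M f g (t ∘ id ∘ Fin.castAdd 2) *
      (((P.dd : ℕ) : ℤ) * (Bj (N := 4 + 2) ![0, 1, 4, 5]).F H χ M f g (t ∘ id) -
        ((P.dn : ℕ) : ℤ))
  | .um3 μ => ((μ.off fun D => D.τ 0 1 2).phi P).F H χ M f g (t ∘ id ∘ Fin.castAdd 1) *
      (((P.tn : ℕ) : ℤ) - ((P.td : ℕ) : ℤ) *
        (Bj (N := 5 + 1) ![0, 1, 2, 5]).F H χ M f g (t ∘ id))
  | .ma3 μ => ((μ.on fun D => D.τ 0 1 2).phi P).F H χ M f g (t ∘ id ∘ Fin.castAdd 1) *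
      (((P.td : ℕ) : ℤ) * (Bj (N := 5 + 1) ![0, 1, 2, 5]).F H χ M f g (t ∘ id) -
        ((P.tn : ℕ) : ℤ))
  | .umB μ => ((μ.off fun D => D.v 0).phi P).F H χ M f g (t ∘ id ∘ Fin.castAdd 1) *
      (((P.bn : ℕ) : ℤ) - ((P.bd : ℕ) : ℤ) *
        (Bd P (N := 5 + 1) fun D => D.b 0 5).F H χ M f g (t ∘ id))
  | .maB μ => ((μ.on fun D => D.v 0).phi P).F H χ M f g (t ∘ id ∘ Fin.castAdd 1) *
      (((P.bd : ℕ) : ℤ) * (Bd P (N := 5 + 1) fun D => D.b 0 5).F H χ M f g (t ∘ id) -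
        ((P.bn : ℕ) : ℤ))
  | .fe1 μ => (μ.phi P).F H χ M f g (t ∘ id ∘ Fin.castAdd 1) *
      (((P.xn * P.vd : ℕ) : ℤ) - ((P.xd * P.vn : ℕ) : ℤ) *
        (Bd P (N := 5 + 1) fun D => D.m 5).F H χ M f g (t ∘ id))
  | .fe2 μ => (μ.phi P).F H χ M f g (t ∘ id ∘ Fin.castAdd 2) *
      (((P.xn * P.dd : ℕ) : ℤ) - ((P.xd * P.dn : ℕ) : ℤ) *
        (Bd P (N := 4 + 2) fun D => D.b 4 5).F H χ M f g (t ∘ id))
  | .fe3 μ => (μ.phi P).F H χ M f g (t ∘ id ∘ Fin.castAdd 3) *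
      (((P.xn * P.td : ℕ) : ℤ) - ((P.xd * P.tn : ℕ) : ℤ) *
        (Bd P (N := 3 + 3) fun D => D.τ 3 4 5).F H χ M f g (t ∘ id))
  | .feB μ => (μ.phi P).F H χ M f g (t ∘ id ∘ Fin.castAdd 1) *
      (((P.xn * P.dd * P.bd : ℕ) : ℤ) - ((P.xd * P.dn * P.bn : ℕ) : ℤ) *
        (Bd P (N := 5 + 1) fun D => D.v 5).F H χ M f g (t ∘ id))
  | .al μ => (μ.phi P).F H χ M f g (t ∘ id ∘ Fin.castAdd 4) *
      (((P.xn : ℕ) : ℤ) - ((P.xd : ℕ) : ℤ) *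
        (Bj (N := 2 + 4) ![2, 3, 4, 5]).F H χ M f g (t ∘ id))
  | .v2 μ => ((μ.off fun D => D.m 0).phi P).F H χ M f g (t ∘ id ∘ Fin.castAdd 1) *
      (((P.vn * P.dd : ℕ) : ℤ) - ((P.vd * P.dn : ℕ) : ℤ) *
        (Bd P (N := 5 + 1) fun D => D.b 0 5).F H χ M f g (t ∘ id))
  | .v3 μ => ((μ.off fun D => D.m 0).phi P).F H χ M f g (t ∘ id ∘ Fin.castAdd 2) *
      (((P.vn * P.td : ℕ) : ℤ) - ((P.vd * P.tn : ℕ) : ℤ) *
        (Bd P (N := 4 + 2) fun D => D.τ 0 4 5).F H χ M f g (t ∘ id))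
  | .p3 μ => ((μ.off fun D => D.b 0 1).phi P).F H χ M f g (t ∘ id ∘ Fin.castAdd 1) *
      (((P.dn * P.td : ℕ) : ℤ) - ((P.dd * P.tn : ℕ) : ℤ) *
        (Bd P (N := 5 + 1) fun D => D.τ 0 1 5).F H χ M f g (t ∘ id))
  | .mg R μ => mvP R (μ.phi P) H χ M f g t
  | .mt μ => mvT (μ.phi P) H χ M f g t
  | .me μ => mvE (μ.phi P) H χ M f g t
  | .u51 μ ψ an ad => (μ.phi P).F H χ M f g (t ∘ id ∘ Fin.castAdd 1) *
      ((an : ℤ) - ad * (ψ.phi P).F H χ M f g (t ∘ id))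
  | .l51 μ ψ an ad => (μ.phi P).F H χ M f g (t ∘ id ∘ Fin.castAdd 1) *
      (ad * (ψ.phi P).F H χ M f g (t ∘ id) - (an : ℤ))
  | .u42 μ ψ an ad => (μ.phi P).F H χ M f g (t ∘ id ∘ Fin.castAdd 2) *
      ((an : ℤ) - ad * (ψ.phi P).F H χ M f g (t ∘ id))
  | .l42 μ ψ an ad => (μ.phi P).F H χ M f g (t ∘ id ∘ Fin.castAdd 2) *
      (ad * (ψ.phi P).F H χ M f g (t ∘ id) - (an : ℤ))
  | .u33 μ ψ an ad => (μ.phi P).F H χ M f g (t ∘ id ∘ Fin.castAdd 3) *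
      ((an : ℤ) - ad * (ψ.phi P).F H χ M f g (t ∘ id))
  | .l33 μ ψ an ad => (μ.phi P).F H χ M f g (t ∘ id ∘ Fin.castAdd 3) *
      (ad * (ψ.phi P).F H χ M f g (t ∘ id) - (an : ℤ))
  | .u24 μ ψ an ad => (μ.phi P).F H χ M f g (t ∘ id ∘ Fin.castAdd 4) *
      ((an : ℤ) - ad * (ψ.phi P).F H χ M f g (t ∘ id))
  | .l24 μ ψ an ad => (μ.phi P).F H χ M f g (t ∘ id ∘ Fin.castAdd 4) *
      (ad * (ψ.phi P).F H χ M f g (t ∘ id) - (an : ℤ))

/-- An upper bound of an average for each choice of the roots. -/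
def UpR (Cx : CX) (P : ParX) {m l : ℕ} (μ : MuX m) (ψ : MuX (m + l)) (an ad : ℕ) : Prop :=
  ∀ {n : ℕ} (H : Finset (Finset (Fin n))) (χ : Fin n → Bool) M f g, Cx H χ M f g →
    ∀ s : Fin m → Fin n, (μ.phi P).F H χ M f g s ≠ 0 →
      (ad : ℤ) * ∑ u : Fin l → Fin n, (ψ.phi P).F H χ M f g (Fin.append s u) ≤ an * (n : ℤ) ^ l

/-- A lower bound of an average for each choice of the roots. -/
def LoR (Cx : CX) (P : ParX) {m l : ℕ} (μ : MuX m) (ψ : MuX (m + l)) (an ad : ℕ) : Prop :=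
  ∀ {n : ℕ} (H : Finset (Finset (Fin n))) (χ : Fin n → Bool) M f g, Cx H χ M f g →
    ∀ s : Fin m → Fin n, (μ.phi P).F H χ M f g s ≠ 0 →
      an * (n : ℤ) ^ l ≤ (ad : ℤ) * ∑ u : Fin l → Fin n, (ψ.phi P).F H χ M f g (Fin.append s u)

/-- The distance is bounded. -/
def HXX (Cx : CX) (P : ParX) : Prop :=
  ∀ {n : ℕ} (H : Finset (Finset (Fin n))) (χ : Fin n → Bool) M f g, Cx H χ M f g →
    (P.xd : ℤ) * ∑ p, jv (JJ H χ M f g) p ≤ P.xn * (n : ℤ) ^ 4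

/-- The conditions on the context for an item. -/
def ItemX.Ok (Cx : CX) (P : ParX) (i : ItemX) : Prop :=
  match i with
  | .um1 _ => True
  | .ma1 _ => True
  | .um2 _ => True
  | .ma2 _ => True
  | .um3 _ => True
  | .ma3 _ => True
  | .umB _ => True
  | .maB _ => True
  | .fe1 _ => HXX Cx P
  | .fe2 _ => HXX Cx P
  | .fe3 _ => HXX Cx P
  | .feB _ => HXX Cx P
  | .al _ => HXX Cx P
  | .v2 _ => True
  | .v3 _ => True
  | .p3 _ => True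
  | .mg _ _ => H4C Cx ∧ HBC Cx
  | .mt _ => H4C Cx ∧ HBC Cx
  | .me _ => H4C Cx ∧ HBC Cx
  | .u51 μ ψ an ad => UpR Cx P (m := 5) (l := 1) μ ψ an ad
  | .l51 μ ψ an ad => LoR Cx P (m := 5) (l := 1) μ ψ an ad
  | .u42 μ ψ an ad => UpR Cx P (m := 4) (l := 2) μ ψ an ad
  | .l42 μ ψ an ad => LoR Cx P (m := 4) (l := 2) μ ψ an ad
  | .u33 μ ψ an ad => UpR Cx P (m := 3) (l := 3) μ ψ an ad
  | .l33 μ ψ an ad => LoR Cx P (m := 3) (l := 3) μ ψ an ad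
  | .u24 μ ψ an ad => UpR Cx P (m := 2) (l := 4) μ ψ an ad
  | .l24 μ ψ an ad => LoR Cx P (m := 2) (l := 4) μ ψ an ad

section good
variable (Cx : CX) (P : ParX)

theorem goodX_um1 (μ : MuX 3) :
    GoodC Cx (fun H χ M f g t => (ItemX.um1 μ).fn P H χ M f g t) := by
  refine good_upR (m := 3) (l := 3) ((μ.off fun D => D.m 0).phi P)
    (Bj (N := 3 + 3) ![0, 3, 4, 5]) P.vn P.vd id Function.injective_id
    fun {n} H χ M f g hc s hs => ?_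
  have h1 := MuX.off_ne μ P _ hs
  have h2 : mkV P (JJ H χ M f g) (s 0) = false := h1
  have e : ∑ u : Fin 3 → Fin n, (Bj (N := 3 + 3) ![0, 3, 4, 5]).F H χ M f g (Fin.append s u) =
      vs (jv (JJ H χ M f g)) (s 0) := by
    unfold vs
    refine Finset.sum_congr rfl fun u _ => congrArg (jv (JJ H χ M f g)) ?_
    funext i
    fin_cases i <;> rfl
  rw [e]
  unfold mkV at h2
  rw [decide_eq_false_iff_not, not_lt] at h2
  exact h2

theorem goodX_ma1 (μ : MuX 3) :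
    GoodC Cx (fun H χ M f g t => (ItemX.ma1 μ).fn P H χ M f g t) := by
  refine good_loR (m := 3) (l := 3) ((μ.on fun D => D.m 0).phi P)
    (Bj (N := 3 + 3) ![0, 3, 4, 5]) P.vn P.vd id Function.injective_id
    fun {n} H χ M f g hc s hs => ?_
  have h1 := MuX.on_ne μ P _ hs
  have h2 : mkV P (JJ H χ M f g) (s 0) = true := h1
  have e : ∑ u : Fin 3 → Fin n, (Bj (N := 3 + 3) ![0, 3, 4, 5]).F H χ M f g (Fin.append s u) =
      vs (jv (JJ H χ M f g)) (s 0) := by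
    unfold vs
    refine Finset.sum_congr rfl fun u _ => congrArg (jv (JJ H χ M f g)) ?_
    funext i
    fin_cases i <;> rfl
  rw [e]
  unfold mkV at h2
  rw [decide_eq_true_iff] at h2
  exact h2.le

theorem goodX_um2 (μ : MuX 4) :
    GoodC Cx (fun H χ M f g t => (ItemX.um2 μ).fn P H χ M f g t) := by
  refine good_upR (m := 4) (l := 2) ((μ.off fun D => D.b 0 1).phi P)
    (Bj (N := 4 + 2) ![0, 1, 4, 5]) P.dn P.dd id Function.injective_id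
    fun {n} H χ M f g hc s hs => ?_
  have h1 := MuX.off_ne μ P _ hs
  have h2 : mkP P (JJ H χ M f g) (s 0) (s 1) = false := h1
  have e : ∑ u : Fin 2 → Fin n, (Bj (N := 4 + 2) ![0, 1, 4, 5]).F H χ M f g (Fin.append s u) =
      js (jv (JJ H χ M f g)) (s 0) (s 1) := by
    unfold js
    refine Finset.sum_congr rfl fun u _ => congrArg (jv (JJ H χ M f g)) ?_
    funext i
    fin_cases i <;> rfl
  rw [e]
  unfold mkP Marks.mk at h2
  rw [decide_eq_false_iff_not, not_lt] at h2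
  exact h2

theorem goodX_ma2 (μ : MuX 4) :
    GoodC Cx (fun H χ M f g t => (ItemX.ma2 μ).fn P H χ M f g t) := by
  refine good_loR (m := 4) (l := 2) ((μ.on fun D => D.b 0 1).phi P)
    (Bj (N := 4 + 2) ![0, 1, 4, 5]) P.dn P.dd id Function.injective_id
    fun {n} H χ M f g hc s hs => ?_
  have h1 := MuX.on_ne μ P _ hs
  have h2 : mkP P (JJ H χ M f g) (s 0) (s 1) = true := h1
  have e : ∑ u : Fin 2 → Fin n, (Bj (N := 4 + 2) ![0, 1, 4, 5]).F H χ M f g (Fin.append s u) =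
      js (jv (JJ H χ M f g)) (s 0) (s 1) := by
    unfold js
    refine Finset.sum_congr rfl fun u _ => congrArg (jv (JJ H χ M f g)) ?_
    funext i
    fin_cases i <;> rfl
  rw [e]
  unfold mkP Marks.mk at h2
  rw [decide_eq_true_iff] at h2
  exact h2.le

theorem goodX_um3 (μ : MuX 5) :
    GoodC Cx (fun H χ M f g t => (ItemX.um3 μ).fn P H χ M f g t) := by
  refine good_upR (m := 5) (l := 1) ((μ.off fun D => D.τ 0 1 2).phi P)
    (Bj (N := 5 + 1) ![0, 1, 2, 5]) P.tn P.td id Function.injective_id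
    fun {n} H χ M f g hc s hs => ?_
  have h1 := MuX.off_ne μ P _ hs
  have h2 : mkT P (JJ H χ M f g) (s 0) (s 1) (s 2) = false := h1
  have e : ∑ u : Fin 1 → Fin n, (Bj (N := 5 + 1) ![0, 1, 2, 5]).F H χ M f g (Fin.append s u) =
      ts (JJ H χ M f g) (s 0) (s 1) (s 2) := by
    unfold ts
    refine Finset.sum_congr rfl fun u _ => congrArg (jv (JJ H χ M f g)) ?_
    funext i
    fin_cases i <;> rfl
  rw [e]
  unfold mkT at h2
  rw [decide_eq_false_iff_not, not_lt] at h2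
  exact h2

theorem goodX_ma3 (μ : MuX 5) :
    GoodC Cx (fun H χ M f g t => (ItemX.ma3 μ).fn P H χ M f g t) := by
  refine good_loR (m := 5) (l := 1) ((μ.on fun D => D.τ 0 1 2).phi P)
    (Bj (N := 5 + 1) ![0, 1, 2, 5]) P.tn P.td id Function.injective_id
    fun {n} H χ M f g hc s hs => ?_
  have h1 := MuX.on_ne μ P _ hs
  have h2 : mkT P (JJ H χ M f g) (s 0) (s 1) (s 2) = true := h1
  have e : ∑ u : Fin 1 → Fin n, (Bj (N := 5 + 1) ![0, 1, 2, 5]).F H χ M f g (Fin.append s u) =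
      ts (JJ H χ M f g) (s 0) (s 1) (s 2) := by
    unfold ts
    refine Finset.sum_congr rfl fun u _ => congrArg (jv (JJ H χ M f g)) ?_
    funext i
    fin_cases i <;> rfl
  rw [e]
  unfold mkT at h2
  rw [decide_eq_true_iff] at h2
  exact h2.le

theorem goodX_umB (μ : MuX 5) :
    GoodC Cx (fun H χ M f g t => (ItemX.umB μ).fn P H χ M f g t) := by
  refine good_upR (m := 5) (l := 1) ((μ.off fun D => D.v 0).phi P)
    (Bd P (N := 5 + 1) fun D => D.b 0 5) P.bn P.bd id Function.injective_id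
    fun {n} H χ M f g hc s hs => ?_
  have h1 := MuX.off_ne μ P _ hs
  have h2 : mkB P (JJ H χ M f g) (s 0) = false := h1
  unfold mkB at h2
  rw [decide_eq_false_iff_not, not_lt] at h2
  exact h2

theorem goodX_maB (μ : MuX 5) :
    GoodC Cx (fun H χ M f g t => (ItemX.maB μ).fn P H χ M f g t) := by
  refine good_loR (m := 5) (l := 1) ((μ.on fun D => D.v 0).phi P)
    (Bd P (N := 5 + 1) fun D => D.b 0 5) P.bn P.bd id Function.injective_id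
    fun {n} H χ M f g hc s hs => ?_
  have h1 := MuX.on_ne μ P _ hs
  have h2 : mkB P (JJ H χ M f g) (s 0) = true := h1
  unfold mkB at h2
  rw [decide_eq_true_iff] at h2
  exact h2.le

theorem goodX_fe1 (μ : MuX 5) (h : HXX Cx P) :
    GoodC Cx (fun H χ M f g t => (ItemX.fe1 μ).fn P H χ M f g t) := by
  refine good_upR (m := 5) (l := 1) (μ.phi P)
    (Bd P (N := 5 + 1) fun D => D.m 5) (P.xn * P.vd) (P.xd * P.vn) id Function.injective_id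
    fun {n} H χ M f g hc s hs => ?_
  exact few_V P (JJ H χ M f g) (h H χ M f g hc)

theorem goodX_fe2 (μ : MuX 4) (h : HXX Cx P) :
    GoodC Cx (fun H χ M f g t => (ItemX.fe2 μ).fn P H χ M f g t) := by
  refine good_upR (m := 4) (l := 2) (μ.phi P)
    (Bd P (N := 4 + 2) fun D => D.b 4 5) (P.xn * P.dd) (P.xd * P.dn) id Function.injective_id
    fun {n} H χ M f g hc s hs => ?_
  exact few_P P (JJ H χ M f g) (h H χ M f g hc)

theorem goodX_fe3 (μ : MuX 3) (h : HXX Cx P) :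
    GoodC Cx (fun H χ M f g t => (ItemX.fe3 μ).fn P H χ M f g t) := by
  refine good_upR (m := 3) (l := 3) (μ.phi P)
    (Bd P (N := 3 + 3) fun D => D.τ 3 4 5) (P.xn * P.td) (P.xd * P.tn) id Function.injective_id
    fun {n} H χ M f g hc s hs => ?_
  exact few_T P (JJ H χ M f g) (h H χ M f g hc)

theorem goodX_feB (μ : MuX 5) (h : HXX Cx P) :
    GoodC Cx (fun H χ M f g t => (ItemX.feB μ).fn P H χ M f g t) := by
  refine good_upR (m := 5) (l := 1) (μ.phi P)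
    (Bd P (N := 5 + 1) fun D => D.v 5) (P.xn * P.dd * P.bd) (P.xd * P.dn * P.bn) id Function.injective_id
    fun {n} H χ M f g hc s hs => ?_
  exact few_B P (JJ H χ M f g) (h H χ M f g hc)

theorem goodX_al (μ : MuX 2) (h : HXX Cx P) :
    GoodC Cx (fun H χ M f g t => (ItemX.al μ).fn P H χ M f g t) := by
  refine good_upR (m := 2) (l := 4) (μ.phi P)
    (Bj (N := 2 + 4) ![2, 3, 4, 5]) P.xn P.xd id Function.injective_id
    fun {n} H χ M f g hc s hs => ?_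
  have e : ∑ u : Fin 4 → Fin n, (Bj (N := 2 + 4) ![2, 3, 4, 5]).F H χ M f g (Fin.append s u) =
      ∑ p, jv (JJ H χ M f g) p := by
    refine Finset.sum_congr rfl fun u _ => congrArg (jv (JJ H χ M f g)) ?_
    funext i
    fin_cases i <;> rfl
  rw [e]
  exact h H χ M f g hc

theorem goodX_v2 (μ : MuX 5) :
    GoodC Cx (fun H χ M f g t => (ItemX.v2 μ).fn P H χ M f g t) := by
  refine good_upR (m := 5) (l := 1) ((μ.off fun D => D.m 0).phi P)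
    (Bd P (N := 5 + 1) fun D => D.b 0 5) (P.vn * P.dd) (P.vd * P.dn) id Function.injective_id
    fun {n} H χ M f g hc s hs => ?_
  have h1 := MuX.off_ne μ P _ hs
  exact unV_P P (JJ H χ M f g) (s 0) h1

theorem goodX_v3 (μ : MuX 4) :
    GoodC Cx (fun H χ M f g t => (ItemX.v3 μ).fn P H χ M f g t) := by
  refine good_upR (m := 4) (l := 2) ((μ.off fun D => D.m 0).phi P)
    (Bd P (N := 4 + 2) fun D => D.τ 0 4 5) (P.vn * P.td) (P.vd * P.tn) id Function.injective_id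
    fun {n} H χ M f g hc s hs => ?_
  have h1 := MuX.off_ne μ P _ hs
  exact unV_T P (JJ H χ M f g) (s 0) h1

theorem goodX_p3 (μ : MuX 5) :
    GoodC Cx (fun H χ M f g t => (ItemX.p3 μ).fn P H χ M f g t) := by
  refine good_upR (m := 5) (l := 1) ((μ.off fun D => D.b 0 1).phi P)
    (Bd P (N := 5 + 1) fun D => D.τ 0 1 5) (P.dn * P.td) (P.dd * P.tn) id Function.injective_id
    fun {n} H χ M f g hc s hs => ?_
  have h1 := MuX.off_ne μ P _ hs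
  exact unP_T P (JJ H χ M f g) (s 0) (s 1) h1

end good

/-- An item has almost nonnegative average. -/
theorem good_itemX (Cx : CX) (P : ParX) (i : ItemX) (h : i.Ok Cx P) :
    GoodC Cx (fun H χ M f g t => i.fn P H χ M f g t) := by
  match i, h with
  | .um1 μ, _ => exact goodX_um1 Cx P μ
  | .ma1 μ, _ => exact goodX_ma1 Cx P μ
  | .um2 μ, _ => exact goodX_um2 Cx P μ
  | .ma2 μ, _ => exact goodX_ma2 Cx P μ
  | .um3 μ, _ => exact goodX_um3 Cx P μ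
  | .ma3 μ, _ => exact goodX_ma3 Cx P μ
  | .umB μ, _ => exact goodX_umB Cx P μ
  | .maB μ, _ => exact goodX_maB Cx P μ
  | .fe1 μ, h => exact goodX_fe1 Cx P μ h
  | .fe2 μ, h => exact goodX_fe2 Cx P μ h
  | .fe3 μ, h => exact goodX_fe3 Cx P μ h
  | .feB μ, h => exact goodX_feB Cx P μ h
  | .al μ, h => exact goodX_al Cx P μ h
  | .v2 μ, _ => exact goodX_v2 Cx P μ
  | .v3 μ, _ => exact goodX_v3 Cx P μ
  | .p3 μ, _ => exact goodX_p3 Cx P μ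
  | .mg R μ, h => exact good_mv R (μ.phi P) h.1 h.2
  | .mt μ, h => exact good_mvT (μ.phi P) h.1 h.2
  | .me μ, h => exact good_mvE (μ.phi P) h.1 h.2
  | .u51 μ ψ an ad, h =>
    exact good_upR (m := 5) (l := 1) (μ.phi P) (ψ.phi P) an ad id Function.injective_id h
  | .l51 μ ψ an ad, h =>
    exact good_loR (m := 5) (l := 1) (μ.phi P) (ψ.phi P) an ad id Function.injective_id h
  | .u42 μ ψ an ad, h =>
    exact good_upR (m := 4) (l := 2) (μ.phi P) (ψ.phi P) an ad id Function.injective_id h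
  | .l42 μ ψ an ad, h =>
    exact good_loR (m := 4) (l := 2) (μ.phi P) (ψ.phi P) an ad id Function.injective_id h
  | .u33 μ ψ an ad, h =>
    exact good_upR (m := 3) (l := 3) (μ.phi P) (ψ.phi P) an ad id Function.injective_id h
  | .l33 μ ψ an ad, h =>
    exact good_loR (m := 3) (l := 3) (μ.phi P) (ψ.phi P) an ad id Function.injective_id h
  | .u24 μ ψ an ad, h =>
    exact good_upR (m := 2) (l := 4) (μ.phi P) (ψ.phi P) an ad id Function.injective_id h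
  | .l24 μ ψ an ad, h =>
    exact good_loR (m := 2) (l := 4) (μ.phi P) (ψ.phi P) an ad id Function.injective_id h

/-- The value of an item on a window. -/
def ItemX.val (P : ParX) (i : ItemX) (D : WD 6) : ℤ :=
  match i with
  | .um1 μ => ((μ.off fun D => D.m 0).F (D.sub (Fin.castAdd 3)) : ℕ) *
      (((P.vn : ℕ) : ℤ) - ((P.vd : ℕ) : ℤ) * ((D.e {0, 3, 4, 5} ^^ D.r {0, 3, 4, 5}).toNat : ℕ))
  | .ma1 μ => ((μ.on fun D => D.m 0).F (D.sub (Fin.castAdd 3)) : ℕ) *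
      (((P.vd : ℕ) : ℤ) * ((D.e {0, 3, 4, 5} ^^ D.r {0, 3, 4, 5}).toNat : ℕ) - ((P.vn : ℕ) : ℤ))
  | .um2 μ => ((μ.off fun D => D.b 0 1).F (D.sub (Fin.castAdd 2)) : ℕ) *
      (((P.dn : ℕ) : ℤ) - ((P.dd : ℕ) : ℤ) * ((D.e {0, 1, 4, 5} ^^ D.r {0, 1, 4, 5}).toNat : ℕ))
  | .ma2 μ => ((μ.on fun D => D.b 0 1).F (D.sub (Fin.castAdd 2)) : ℕ) *
      (((P.dd : ℕ) : ℤ) * ((D.e {0, 1, 4, 5} ^^ D.r {0, 1, 4, 5}).toNat : ℕ) - ((P.dn : ℕ) : ℤ))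
  | .um3 μ => ((μ.off fun D => D.τ 0 1 2).F (D.sub (Fin.castAdd 1)) : ℕ) *
      (((P.tn : ℕ) : ℤ) - ((P.td : ℕ) : ℤ) * ((D.e {0, 1, 2, 5} ^^ D.r {0, 1, 2, 5}).toNat : ℕ))
  | .ma3 μ => ((μ.on fun D => D.τ 0 1 2).F (D.sub (Fin.castAdd 1)) : ℕ) *
      (((P.td : ℕ) : ℤ) * ((D.e {0, 1, 2, 5} ^^ D.r {0, 1, 2, 5}).toNat : ℕ) - ((P.tn : ℕ) : ℤ))
  | .umB μ => ((μ.off fun D => D.v 0).F (D.sub (Fin.castAdd 1)) : ℕ) *
      (((P.bn : ℕ) : ℤ) - ((P.bd : ℕ) : ℤ) * ((D.b 0 5).toNat : ℕ))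
  | .maB μ => ((μ.on fun D => D.v 0).F (D.sub (Fin.castAdd 1)) : ℕ) *
      (((P.bd : ℕ) : ℤ) * ((D.b 0 5).toNat : ℕ) - ((P.bn : ℕ) : ℤ))
  | .fe1 μ => (μ.F (D.sub (Fin.castAdd 1)) : ℕ) *
      (((P.xn * P.vd : ℕ) : ℤ) - ((P.xd * P.vn : ℕ) : ℤ) * ((D.m 5).toNat : ℕ))
  | .fe2 μ => (μ.F (D.sub (Fin.castAdd 2)) : ℕ) *
      (((P.xn * P.dd : ℕ) : ℤ) - ((P.xd * P.dn : ℕ) : ℤ) * ((D.b 4 5).toNat : ℕ))
  | .fe3 μ => (μ.F (D.sub (Fin.castAdd 3)) : ℕ) *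
      (((P.xn * P.td : ℕ) : ℤ) - ((P.xd * P.tn : ℕ) : ℤ) * ((D.τ 3 4 5).toNat : ℕ))
  | .feB μ => (μ.F (D.sub (Fin.castAdd 1)) : ℕ) *
      (((P.xn * P.dd * P.bd : ℕ) : ℤ) - ((P.xd * P.dn * P.bn : ℕ) : ℤ) * ((D.v 5).toNat : ℕ))
  | .al μ => (μ.F (D.sub (Fin.castAdd 4)) : ℕ) *
      (((P.xn : ℕ) : ℤ) - ((P.xd : ℕ) : ℤ) * ((D.e {2, 3, 4, 5} ^^ D.r {2, 3, 4, 5}).toNat : ℕ))
  | .v2 μ => ((μ.off fun D => D.m 0).F (D.sub (Fin.castAdd 1)) : ℕ) *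
      (((P.vn * P.dd : ℕ) : ℤ) - ((P.vd * P.dn : ℕ) : ℤ) * ((D.b 0 5).toNat : ℕ))
  | .v3 μ => ((μ.off fun D => D.m 0).F (D.sub (Fin.castAdd 2)) : ℕ) *
      (((P.vn * P.td : ℕ) : ℤ) - ((P.vd * P.tn : ℕ) : ℤ) * ((D.τ 0 4 5).toNat : ℕ))
  | .p3 μ => ((μ.off fun D => D.b 0 1).F (D.sub (Fin.castAdd 1)) : ℕ) *
      (((P.dn * P.td : ℕ) : ℤ) - ((P.dd * P.tn : ℕ) : ℤ) * ((D.τ 0 1 5).toNat : ℕ))
  | .mg R μ => (μ.F (D.sub (Fin.castAdd 4)) : ℕ) *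
      ((((D.e {2, 3, 4, 5} ^^ (D.r {2, 3, 4, 5} ^^ R.win D.e D.r D.c)).toNat : ℕ) : ℤ) -
        ((D.e {2, 3, 4, 5} ^^ D.r {2, 3, 4, 5}).toNat : ℕ))
  | .mt μ => (μ.F (D.sub (Fin.castAdd 1)) : ℕ) * (if D.c 0 = D.c 1 ∧ D.c 1 = D.c 2 then
      1 - 2 * ((D.e {0, 1, 2, 5} ^^ D.r {0, 1, 2, 5}).toNat : ℤ) else 0)
  | .me μ => (μ.F (D.sub (Fin.castAdd 2)) : ℕ) *
      (if (D.c 0 = false ∧ D.c 1 = true) ∧ D.c 4 ≠ D.c 5 then
      1 - 2 * ((D.e {0, 1, 4, 5} ^^ D.r {0, 1, 4, 5}).toNat : ℤ) else 0)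
  | .u51 μ ψ an ad => (μ.F (D.sub (Fin.castAdd 1)) : ℕ) * ((an : ℤ) - ad * (ψ.F D : ℕ))
  | .l51 μ ψ an ad => (μ.F (D.sub (Fin.castAdd 1)) : ℕ) * (ad * (ψ.F D : ℕ) - (an : ℤ))
  | .u42 μ ψ an ad => (μ.F (D.sub (Fin.castAdd 2)) : ℕ) * ((an : ℤ) - ad * (ψ.F D : ℕ))
  | .l42 μ ψ an ad => (μ.F (D.sub (Fin.castAdd 2)) : ℕ) * (ad * (ψ.F D : ℕ) - (an : ℤ))
  | .u33 μ ψ an ad => (μ.F (D.sub (Fin.castAdd 3)) : ℕ) * ((an : ℤ) - ad * (ψ.F D : ℕ))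
  | .l33 μ ψ an ad => (μ.F (D.sub (Fin.castAdd 3)) : ℕ) * (ad * (ψ.F D : ℕ) - (an : ℤ))
  | .u24 μ ψ an ad => (μ.F (D.sub (Fin.castAdd 4)) : ℕ) * ((an : ℤ) - ad * (ψ.F D : ℕ))
  | .l24 μ ψ an ad => (μ.F (D.sub (Fin.castAdd 4)) : ℕ) * (ad * (ψ.F D : ℕ) - (an : ℤ))

section val
variable {n : ℕ} (H : Finset (Finset (Fin n))) (χ : Fin n → Bool) (M : Fin n → Fin n → Bool)
  (f g : Finset (Fin n) → Bool) (t : Fin 6 → Fin n)

theorem Bj_win (P : ParX) (ht : Function.Injective t) (a b c d : Fin 6) (h : Function.Injective ![a, b, c, d]) :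
    (Bj ![a, b, c, d]).F H χ M f g (t ∘ id) = ((((wd P H χ M f g t).e {a, b, c, d} ^^
      (wd P H χ M f g t).r {a, b, c, d}).toNat : ℕ) : ℤ) := by
  have e : (t ∘ id) ∘ ![a, b, c, d] = ![t a, t b, t c, t d] := by
    funext x
    fin_cases x <;> rfl
  show jv (JJ H χ M f g) ((t ∘ id) ∘ ![a, b, c, d]) = _
  rw [e, jv_win4 H (gir χ M f g) t ht a b c d h]
  rfl

/-- An item on a window. -/
theorem ItemX.val_eq (P : ParX) (i : ItemX) (ht : Function.Injective t) :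
    i.fn P H χ M f g t = i.val P (wd P H χ M f g t) := by
  have w2 := fun μ : MuX 2 => μ.phi_comp P H χ M f g t (Fin.castAdd 4)
  have w3 := fun μ : MuX 3 => μ.phi_comp P H χ M f g t (Fin.castAdd 3)
  have w4 := fun μ : MuX 4 => μ.phi_comp P H χ M f g t (Fin.castAdd 2)
  have w5 := fun μ : MuX 5 => μ.phi_comp P H χ M f g t (Fin.castAdd 1)
  match i with
  | .um1 μ =>
    show ((μ.off fun D => D.m 0).phi P).F H χ M f g (t ∘ Fin.castAdd 3) *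
      (((P.vn : ℕ) : ℤ) - ((P.vd : ℕ) : ℤ) *
        (Bj (N := 3 + 3) ![0, 3, 4, 5]).F H χ M f g (t ∘ id)) = _
    have e : (Bj (N := 3 + 3) ![0, 3, 4, 5]).F H χ M f g (t ∘ id) = _ :=
      Bj_win H χ M f g t P ht 0 3 4 5 (by decide)
    rw [w3, e]
    rfl
  | .ma1 μ =>
    show ((μ.on fun D => D.m 0).phi P).F H χ M f g (t ∘ Fin.castAdd 3) *
      (((P.vd : ℕ) : ℤ) * (Bj (N := 3 + 3) ![0, 3, 4, 5]).F H χ M f g (t ∘ id) -
        ((P.vn : ℕ) : ℤ)) = _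
    have e : (Bj (N := 3 + 3) ![0, 3, 4, 5]).F H χ M f g (t ∘ id) = _ :=
      Bj_win H χ M f g t P ht 0 3 4 5 (by decide)
    rw [w3, e]
    rfl
  | .um2 μ =>
    show ((μ.off fun D => D.b 0 1).phi P).F H χ M f g (t ∘ Fin.castAdd 2) *
      (((P.dn : ℕ) : ℤ) - ((P.dd : ℕ) : ℤ) *
        (Bj (N := 4 + 2) ![0, 1, 4, 5]).F H χ M f g (t ∘ id)) = _
    have e : (Bj (N := 4 + 2) ![0, 1, 4, 5]).F H χ M f g (t ∘ id) = _ :=
      Bj_win H χ M f g t P ht 0 1 4 5 (by decide)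
    rw [w4, e]
    rfl
  | .ma2 μ =>
    show ((μ.on fun D => D.b 0 1).phi P).F H χ M f g (t ∘ Fin.castAdd 2) *
      (((P.dd : ℕ) : ℤ) * (Bj (N := 4 + 2) ![0, 1, 4, 5]).F H χ M f g (t ∘ id) -
        ((P.dn : ℕ) : ℤ)) = _
    have e : (Bj (N := 4 + 2) ![0, 1, 4, 5]).F H χ M f g (t ∘ id) = _ :=
      Bj_win H χ M f g t P ht 0 1 4 5 (by decide)
    rw [w4, e]
    rfl
  | .um3 μ =>
    show ((μ.off fun D => D.τ 0 1 2).phi P).F H χ M f g (t ∘ Fin.castAdd 1) *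
      (((P.tn : ℕ) : ℤ) - ((P.td : ℕ) : ℤ) *
        (Bj (N := 5 + 1) ![0, 1, 2, 5]).F H χ M f g (t ∘ id)) = _
    have e : (Bj (N := 5 + 1) ![0, 1, 2, 5]).F H χ M f g (t ∘ id) = _ :=
      Bj_win H χ M f g t P ht 0 1 2 5 (by decide)
    rw [w5, e]
    rfl
  | .ma3 μ =>
    show ((μ.on fun D => D.τ 0 1 2).phi P).F H χ M f g (t ∘ Fin.castAdd 1) *
      (((P.td : ℕ) : ℤ) * (Bj (N := 5 + 1) ![0, 1, 2, 5]).F H χ M f g (t ∘ id) -
        ((P.tn : ℕ) : ℤ)) = _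
    have e : (Bj (N := 5 + 1) ![0, 1, 2, 5]).F H χ M f g (t ∘ id) = _ :=
      Bj_win H χ M f g t P ht 0 1 2 5 (by decide)
    rw [w5, e]
    rfl
  | .umB μ =>
    show ((μ.off fun D => D.v 0).phi P).F H χ M f g (t ∘ Fin.castAdd 1) *
      (((P.bn : ℕ) : ℤ) - ((P.bd : ℕ) : ℤ) *
        (Bd P (N := 5 + 1) fun D => D.b 0 5).F H χ M f g (t ∘ id)) = _
    rw [w5]
    rfl
  | .maB μ =>
    show ((μ.on fun D => D.v 0).phi P).F H χ M f g (t ∘ Fin.castAdd 1) *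
      (((P.bd : ℕ) : ℤ) * (Bd P (N := 5 + 1) fun D => D.b 0 5).F H χ M f g (t ∘ id) -
        ((P.bn : ℕ) : ℤ)) = _
    rw [w5]
    rfl
  | .fe1 μ =>
    show (μ.phi P).F H χ M f g (t ∘ Fin.castAdd 1) *
      (((P.xn * P.vd : ℕ) : ℤ) - ((P.xd * P.vn : ℕ) : ℤ) *
        (Bd P (N := 5 + 1) fun D => D.m 5).F H χ M f g (t ∘ id)) = _
    rw [w5]
    rfl
  | .fe2 μ =>
    show (μ.phi P).F H χ M f g (t ∘ Fin.castAdd 2) *
      (((P.xn * P.dd : ℕ) : ℤ) - ((P.xd * P.dn : ℕ) : ℤ) *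
        (Bd P (N := 4 + 2) fun D => D.b 4 5).F H χ M f g (t ∘ id)) = _
    rw [w4]
    rfl
  | .fe3 μ =>
    show (μ.phi P).F H χ M f g (t ∘ Fin.castAdd 3) *
      (((P.xn * P.td : ℕ) : ℤ) - ((P.xd * P.tn : ℕ) : ℤ) *
        (Bd P (N := 3 + 3) fun D => D.τ 3 4 5).F H χ M f g (t ∘ id)) = _
    rw [w3]
    rfl
  | .feB μ =>
    show (μ.phi P).F H χ M f g (t ∘ Fin.castAdd 1) *
      (((P.xn * P.dd * P.bd : ℕ) : ℤ) - ((P.xd * P.dn * P.bn : ℕ) : ℤ) *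
        (Bd P (N := 5 + 1) fun D => D.v 5).F H χ M f g (t ∘ id)) = _
    rw [w5]
    rfl
  | .al μ =>
    show (μ.phi P).F H χ M f g (t ∘ Fin.castAdd 4) *
      (((P.xn : ℕ) : ℤ) - ((P.xd : ℕ) : ℤ) *
        (Bj (N := 2 + 4) ![2, 3, 4, 5]).F H χ M f g (t ∘ id)) = _
    have e : (Bj (N := 2 + 4) ![2, 3, 4, 5]).F H χ M f g (t ∘ id) = _ :=
      Bj_win H χ M f g t P ht 2 3 4 5 (by decide)
    rw [w2, e]
    rfl
  | .v2 μ =>
    show ((μ.off fun D => D.m 0).phi P).F H χ M f g (t ∘ Fin.castAdd 1) *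
      (((P.vn * P.dd : ℕ) : ℤ) - ((P.vd * P.dn : ℕ) : ℤ) *
        (Bd P (N := 5 + 1) fun D => D.b 0 5).F H χ M f g (t ∘ id)) = _
    rw [w5]
    rfl
  | .v3 μ =>
    show ((μ.off fun D => D.m 0).phi P).F H χ M f g (t ∘ Fin.castAdd 2) *
      (((P.vn * P.td : ℕ) : ℤ) - ((P.vd * P.tn : ℕ) : ℤ) *
        (Bd P (N := 4 + 2) fun D => D.τ 0 4 5).F H χ M f g (t ∘ id)) = _
    rw [w4]
    rfl
  | .p3 μ =>
    show ((μ.off fun D => D.b 0 1).phi P).F H χ M f g (t ∘ Fin.castAdd 1) *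
      (((P.dn * P.td : ℕ) : ℤ) - ((P.dd * P.tn : ℕ) : ℤ) *
        (Bd P (N := 5 + 1) fun D => D.τ 0 1 5).F H χ M f g (t ∘ id)) = _
    rw [w5]
    rfl
  | .mg R μ =>
    show mvP R (μ.phi P) H χ M f g t = _
    unfold mvP
    rw [w2, jv_win4 H (gir χ M f g) t ht 2 3 4 5 (by decide),
      jv_win4 H _ t ht 2 3 4 5 (by decide), R.win_eq H χ M f g t ht]
    rfl
  | .mt μ =>
    show mvT (μ.phi P) H χ M f g t = _
    unfold mvT
    rw [w5, mE_win4 t (JJ H χ M f g) 0 1 2 5, wA_sd]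
    show _ = _ * (if χ (t 0) = χ (t 1) ∧ χ (t 1) = χ (t 2) then
      1 - 2 * ((zb H t {0, 1, 2, 5} ^^ zb (gir χ M f g) t {0, 1, 2, 5}).toNat : ℤ) else 0)
    congr 1
    have i3 : Function.Injective ![t 0, t 1, t 2] := by
      have e : (![t 0, t 1, t 2] : Fin 3 → Fin n) = t ∘ ![0, 1, 2] := by
        funext x
        fin_cases x <;> rfl
      rw [e]
      exact ht.comp (by decide)
    exact if_congr ⟨fun h => h.1.1, fun h => ⟨⟨h, i3⟩, inj4t t ht 0 1 2 5 (by decide)⟩⟩ rfl rfl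
  | .me μ =>
    show mvE (μ.phi P) H χ M f g t = _
    unfold mvE
    rw [w4, mE_win4 t (JJ H χ M f g) 0 1 4 5, wA_sd]
    show _ = _ * (if (χ (t 0) = false ∧ χ (t 1) = true) ∧ χ (t 4) ≠ χ (t 5) then
      1 - 2 * ((zb H t {0, 1, 4, 5} ^^ zb (gir χ M f g) t {0, 1, 4, 5}).toNat : ℤ) else 0)
    congr 1
    exact if_congr ⟨fun h => ⟨h.1, h.2.2⟩, fun h => ⟨h.1, inj4t t ht 0 1 4 5 (by decide), h.2⟩⟩
      rfl rfl
  | .u51 μ ψ an ad =>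
    show (μ.phi P).F H χ M f g (t ∘ Fin.castAdd 1) * ((an : ℤ) - ad * (ψ.phi P).F H χ M f g t) = _
    rw [w5]
    rfl
  | .l51 μ ψ an ad =>
    show (μ.phi P).F H χ M f g (t ∘ Fin.castAdd 1) * (ad * (ψ.phi P).F H χ M f g t - (an : ℤ)) = _
    rw [w5]
    rfl
  | .u42 μ ψ an ad =>
    show (μ.phi P).F H χ M f g (t ∘ Fin.castAdd 2) * ((an : ℤ) - ad * (ψ.phi P).F H χ M f g t) = _
    rw [w4]
    rfl
  | .l42 μ ψ an ad =>
    show (μ.phi P).F H χ M f g (t ∘ Fin.castAdd 2) * (ad * (ψ.phi P).F H χ M f g t - (an : ℤ)) = _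
    rw [w4]
    rfl
  | .u33 μ ψ an ad =>
    show (μ.phi P).F H χ M f g (t ∘ Fin.castAdd 3) * ((an : ℤ) - ad * (ψ.phi P).F H χ M f g t) = _
    rw [w3]
    rfl
  | .l33 μ ψ an ad =>
    show (μ.phi P).F H χ M f g (t ∘ Fin.castAdd 3) * (ad * (ψ.phi P).F H χ M f g t - (an : ℤ)) = _
    rw [w3]
    rfl
  | .u24 μ ψ an ad =>
    show (μ.phi P).F H χ M f g (t ∘ Fin.castAdd 4) * ((an : ℤ) - ad * (ψ.phi P).F H χ M f g t) = _
    rw [w2]
    rfl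
  | .l24 μ ψ an ad =>
    show (μ.phi P).F H χ M f g (t ∘ Fin.castAdd 4) * (ad * (ψ.phi P).F H χ M f g t - (an : ℤ)) = _
    rw [w2]
    rfl

end val

end Pool.Agent.Lib.MP_afdd4d_co.K9.Star
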