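import Pool.Agent.Lib.MP_afdd4d_co.K9.VWin

/-!
# Conditions with a tolerance and steps of closeness

The functions with almost nonnegative average for conditions that hold up to a small error, and the
conclusions from the inequalities on six-tuples: an upper bound of the density, of the distance to
the reference structure, of the average of a function of some vertices.
-/

namespace Pool.Agent.Lib.MP_afdd4d_co.K9.Star

open Finset K8
open Pool.Agent.Lib.MP_afdd4d_co.K9.Marks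

/-- Conditions with a tolerance. -/
abbrev CE : Type := ℝ → CX

/-- The average of the function is almost nonnegative for large `n` and small tolerances. -/
def GoodE (Cx : CE) (Z : Fun6) : Prop :=
  ∀ δ : ℝ, 0 < δ → ∃ η : ℝ, 0 < η ∧ ∃ N : ℕ, ∀ n : ℕ, N ≤ n → ∀ (H : Finset (Finset (Fin n)))
    (χ : Fin n → Bool) (M : Fin n → Fin n → Bool) (f g : Finset (Fin n) → Bool),
    Cx η H χ M f g → -(δ * (n : ℝ) ^ 6) ≤ ∑ t ∈ inj (Fin n) 6, ((Z H χ M f g t : ℤ) : ℝ)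

/-- The conditions are weaker for larger tolerances. -/
def MonoE (Cx : CE) : Prop :=
  ∀ η η' : ℝ, η ≤ η' → ∀ {n : ℕ} (H : Finset (Finset (Fin n))) (χ : Fin n → Bool) M f g,
    Cx η H χ M f g → Cx η' H χ M f g

section goodE
variable {Cx : CE}

theorem GoodE.of_goodC {Cx' : CX} {Z : Fun6} (η0 : ℝ) (h0 : 0 < η0)
    (hc : ∀ {n : ℕ} (H : Finset (Finset (Fin n))) (χ : Fin n → Bool) M f g,
      Cx η0 H χ M f g → Cx' H χ M f g) (h : GoodC Cx' Z) : GoodE Cx Z := by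
  intro δ hδ
  obtain ⟨N, hN⟩ := h δ hδ
  exact ⟨η0, h0, N, fun n hn H χ M f g hx => hN n hn H χ M f g (hc H χ M f g hx)⟩

theorem GoodE.weaken {Cx' : CE} {Z : Fun6} (h : GoodE Cx Z)
    (hc : ∀ (η : ℝ) {n : ℕ} (H : Finset (Finset (Fin n))) (χ : Fin n → Bool) M f g,
      Cx' η H χ M f g → Cx η H χ M f g) : GoodE Cx' Z := by
  intro δ hδ
  obtain ⟨η, hη, N, hN⟩ := h δ hδ
  exact ⟨η, hη, N, fun n hn H χ M f g hx => hN n hn H χ M f g (hc η H χ M f g hx)⟩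

theorem GoodE.add (hm : MonoE Cx) {Z Z' : Fun6} (h : GoodE Cx Z) (h' : GoodE Cx Z') :
    GoodE Cx (fun H χ M f g t => Z H χ M f g t + Z' H χ M f g t) := by
  intro δ hδ
  obtain ⟨η, hη, N, hN⟩ := h (δ / 2) (by positivity)
  obtain ⟨η', hη', N', hN'⟩ := h' (δ / 2) (by positivity)
  refine ⟨min η η', lt_min hη hη', max N N', fun n hn H χ M f g hc => ?_⟩
  have h1 := hN n (le_trans (le_max_left _ _) hn) H χ M f g
    (hm _ _ (min_le_left _ _) H χ M f g hc)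
  have h2 := hN' n (le_trans (le_max_right _ _) hn) H χ M f g
    (hm _ _ (min_le_right _ _) H χ M f g hc)
  have h3 : ∑ t ∈ inj (Fin n) 6, ((Z H χ M f g t + Z' H χ M f g t : ℤ) : ℝ) =
      ∑ t ∈ inj (Fin n) 6, ((Z H χ M f g t : ℤ) : ℝ) +
        ∑ t ∈ inj (Fin n) 6, ((Z' H χ M f g t : ℤ) : ℝ) := by
    rw [← Finset.sum_add_distrib]
    refine Finset.sum_congr rfl fun t _ => ?_
    push_cast
    rfl
  rw [h3]
  linarith

theorem GoodE.smul {Z : Fun6} (w : ℕ) (h : GoodE Cx Z) :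
    GoodE Cx (fun H χ M f g t => (w : ℤ) * Z H χ M f g t) := by
  intro δ hδ
  have hw : (0 : ℝ) < w + 1 := by positivity
  obtain ⟨η, hη, N, hN⟩ := h (δ / (w + 1)) (by positivity)
  refine ⟨η, hη, N, fun n hn H χ M f g hc => ?_⟩
  have h1 := hN n hn H χ M f g hc
  have h3 : ∑ t ∈ inj (Fin n) 6, (((w : ℤ) * Z H χ M f g t : ℤ) : ℝ) =
      (w : ℝ) * ∑ t ∈ inj (Fin n) 6, ((Z H χ M f g t : ℤ) : ℝ) := by
    rw [Finset.mul_sum]
    refine Finset.sum_congr rfl fun t _ => ?_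
    push_cast
    rfl
  rw [h3]
  have h4 := mul_le_mul_of_nonneg_left h1 (Nat.cast_nonneg (α := ℝ) w)
  have h5 : (w : ℝ) * (δ / (w + 1) * (n : ℝ) ^ 6) ≤ δ * (n : ℝ) ^ 6 := by
    have h6 : (w : ℝ) * (δ / (w + 1)) ≤ δ := by
      rw [← mul_div_assoc, div_le_iff₀ hw]
      nlinarith
    calc (w : ℝ) * (δ / (w + 1) * (n : ℝ) ^ 6) = (w : ℝ) * (δ / (w + 1)) * (n : ℝ) ^ 6 := by ring
      _ ≤ δ * (n : ℝ) ^ 6 := mul_le_mul_of_nonneg_right h6 (by positivity)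
  linarith

theorem GoodE.mono {Z Z' : Fun6} (h : GoodE Cx Z)
    (hle : ∀ (η : ℝ) {n : ℕ} (H : Finset (Finset (Fin n))) (χ : Fin n → Bool) M f g,
      Cx η H χ M f g → ∀ t : Fin 6 → Fin n, Function.Injective t →
      Z H χ M f g t ≤ Z' H χ M f g t) : GoodE Cx (fun H χ M f g t => Z' H χ M f g t) := by
  intro δ hδ
  obtain ⟨η, hη, N, hN⟩ := h δ hδ
  refine ⟨η, hη, N, fun n hn H χ M f g hc => ?_⟩
  refine le_trans (hN n hn H χ M f g hc) (Finset.sum_le_sum fun t ht => ?_)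
  exact_mod_cast hle η H χ M f g hc t (mem_inj.mp ht)

theorem GoodE.perm {Z : Fun6} (h : GoodE Cx Z) (π : Equiv.Perm (Fin 6)) :
    GoodE Cx (fun H χ M f g t => Z H χ M f g (t ∘ π)) := by
  intro δ hδ
  obtain ⟨η, hη, N, hN⟩ := h δ hδ
  refine ⟨η, hη, N, fun n hn H χ M f g hc => le_trans (hN n hn H χ M f g hc) (le_of_eq ?_)⟩
  symm
  refine Finset.sum_bij' (fun t _ => t ∘ π) (fun t _ => t ∘ π.symm) ?_ ?_ ?_ ?_ ?_
  · intro t ht
    exact mem_inj.mpr ((mem_inj.mp ht).comp π.injective)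
  · intro t ht
    exact mem_inj.mpr ((mem_inj.mp ht).comp π.symm.injective)
  · intro t _
    funext i
    exact congrArg t (π.apply_symm_apply i)
  · intro t _
    funext i
    exact congrArg t (π.symm_apply_apply i)
  · intro t _
    rfl

/-- An error of order `n ^ 5`. -/
theorem GoodE.of_n5 {Z : Fun6} (C : ℝ)
    (h : ∀ (η : ℝ) {n : ℕ} (H : Finset (Finset (Fin n))) (χ : Fin n → Bool) M f g,
      Cx η H χ M f g → -(C * (n : ℝ) ^ 5) ≤
        ∑ t ∈ inj (Fin n) 6, ((Z H χ M f g t : ℤ) : ℝ)) :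
    GoodE Cx (fun H χ M f g t => Z H χ M f g t) := by
  intro δ hδ
  obtain ⟨N, hN⟩ := exists_nat_gt (|C| / δ)
  refine ⟨1, one_pos, max 1 N, fun n hn H χ M f g hc => le_trans ?_ (h 1 H χ M f g hc)⟩
  have hNn : (N : ℝ) ≤ n := by exact_mod_cast le_trans (le_max_right _ _) hn
  have h7 : |C| / δ < n := lt_of_lt_of_le hN hNn
  rw [div_lt_iff₀ hδ] at h7
  have h5 : C * (n : ℝ) ^ 5 ≤ n * δ * (n : ℝ) ^ 5 :=
    mul_le_mul_of_nonneg_right (le_trans (le_abs_self C) h7.le) (by positivity)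
  have h6 : n * δ * (n : ℝ) ^ 5 = δ * (n : ℝ) ^ 6 := by ring
  linarith

end goodE

/-! ### The conditions of the local theorem -/

/-- The conditions of the local theorem, with a tolerance. -/
structure CtxE (P : ∀ n : ℕ, Finset (Finset (Fin n)) → Prop) (C X0 : ℝ) (Q : CX) (η : ℝ) {n : ℕ}
    (H : Finset (Finset (Fin n))) (χ : Fin n → Bool) (M : Fin n → Fin n → Bool)
    (f g : Finset (Fin n) → Bool) : Prop where
  h4 : ∀ e ∈ H, e.card = 4
  k5 : K5F H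
  p : P n H
  d : 11 / 16 ≤ e4 H
  q : Q H χ M f g
  X : X4 H (gir χ M f g) ≤ X0 + η
  F : X4 H (gir χ M f g) + 9 / 10 * sg2 χ ≤ FC C H + η

section ctx
variable {P : ∀ n : ℕ, Finset (Finset (Fin n)) → Prop} {C X0 : ℝ} {Q : CX}

/-- The conditions as a family. -/
abbrev CtE (P : ∀ n : ℕ, Finset (Finset (Fin n)) → Prop) (C X0 : ℝ) (Q : CX) : CE :=
  fun η {_} H χ M f g => CtxE P C X0 Q η H χ M f g

theorem monoE_CtE : MonoE (CtE P C X0 Q) := by
  intro η η' h n H χ M f g hc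
  exact ⟨hc.h4, hc.k5, hc.p, hc.d, hc.q, by linarith [hc.X], by linarith [hc.F]⟩

/-- The terms for a bound of the distance that is a little larger. -/
theorem GoodE.of_ctx {Z : Fun6} (X1 : ℝ) (h01 : X0 < X1)
    (h : GoodC (fun H χ M f g => Ctx P X1 H χ M f g ∧ Q H χ M f g) Z) :
    GoodE (CtE P C X0 Q) Z := by
  refine GoodE.of_goodC (X1 - X0) (by linarith) (fun H χ M f g hc => ?_) h
  exact ⟨⟨hc.h4, hc.k5, hc.p, hc.d, by linarith [hc.X]⟩, hc.q⟩

/-- The column of the distance. -/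
theorem goodE_colF (hO : SumO5) (cn cd : ℤ) (hcn : 0 ≤ cn) (hcd : 0 < cd)
    (hC : C = (cn : ℝ) / cd) : GoodE (CtE P C X0 Q) (fun H χ M f g t =>
      colF cn cd (zb H t) (zb (gir χ M f g) t) (fun i => χ (t i))) := by
  intro δ hδ
  have hcn' : (0 : ℝ) ≤ cn := by exact_mod_cast hcn
  have hcd' : (0 : ℝ) < cd := by exact_mod_cast hcd
  obtain ⟨N, hN⟩ := exists_nat_gt ((24000 * cd + 102000 * cn) / (δ / 2) : ℝ)
  refine ⟨δ / (4800 * cd), by positivity, max 30 N, fun n hn H χ M f g hc => ?_⟩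
  have h30 : 30 ≤ n := le_trans (le_max_left _ _) hn
  have hNn : (N : ℝ) ≤ n := by exact_mod_cast le_trans (le_max_right _ _) hn
  have hn0 : (0 : ℝ) < n := by exact_mod_cast (by omega : 0 < n)
  have s3 := sum_colF hO cn cd hcn hcd h30 H (gir χ M f g) hc.h4 (gir_card χ M f g) χ
  refine le_trans ?_ s3
  have h1 : -(δ / (4800 * cd)) ≤
      FC ((cn : ℝ) / cd) H - X4 H (gir χ M f g) - 9 / 10 * sg2 χ := by
    have := hc.F
    rw [hC] at this
    linarith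
  have h2 : -(δ / 2) ≤ 2400 * (cd * (FC ((cn : ℝ) / cd) H - X4 H (gir χ M f g) -
      9 / 10 * sg2 χ)) := by
    have h3 := mul_le_mul_of_nonneg_left h1 hcd'.le
    have h4 : (cd : ℝ) * -(δ / (4800 * cd)) = -(δ / 4800) := by field_simp
    rw [h4] at h3
    linarith
  have h5 : (24000 * (cd : ℝ) + 102000 * cn) / n ≤ δ / 2 := by
    have h6 := lt_of_lt_of_le hN hNn
    rw [div_lt_iff₀ (by positivity)] at h6
    rw [div_le_iff₀ hn0]
    linarith
  have h6 : (n : ℝ) ^ 6 * -δ ≤ (n : ℝ) ^ 6 * (2400 * (cd * (FC ((cn : ℝ) / cd) H -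
      X4 H (gir χ M f g) - 9 / 10 * sg2 χ)) - (24000 * cd + 102000 * cn) / n) :=
    mul_le_mul_of_nonneg_left (by linarith) (by positivity)
  linarith

/-- The sum of the density defects of the windows. -/
theorem sum_colR_eq {n : ℕ} (G : Finset (Finset (Fin n))) (hG : ∀ e ∈ G, e.card = 4) :
    ∑ t ∈ inj (Fin n) 6, ((colR (zb G t) : ℤ) : ℝ) =
      165 * (n.descFactorial 6 : ℝ) - 16 * (360 * (PP n 4 2 * (G.card : ℝ))) := by
  have e2 : ∀ t : Fin 6 → Fin n, ((colR (zb G t) : ℤ) : ℝ) =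
      165 - 16 * ((S4 (zb G t) : ℤ) : ℝ) := by
    intro t
    unfold colR
    push_cast
    ring
  rw [Finset.sum_congr rfl fun t _ => e2 t]
  simp_rw [Finset.sum_sub_distrib, ← Finset.mul_sum]
  rw [sum6_S4 _ hG]
  simp only [Finset.sum_const, nsmul_eq_mul, card_inj, Fintype.card_fin]
  ring

theorem PP42_pos {n : ℕ} (h : 6 ≤ n) : 0 ≤ PP n 4 2 := by
  have h2 := desc6_eq (n := n) h
  have h4 := desc6_pos (n := n) h
  have h5 := choose4_pos (n := n) h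
  by_contra hlt
  push Not at hlt
  have : 24 * ((n.choose 4 : ℕ) : ℝ) * PP n 4 2 < 0 := by
    apply mul_neg_of_pos_of_neg (by positivity) hlt
  linarith

/-- The density of the reference structure. -/
theorem goodE_colR {Cx : CE} (hE : EvUp) :
    GoodE Cx (fun _ χ M f g t => colR (zb (gir χ M f g) t)) := by
  intro δ hδ
  obtain ⟨N2, hN2⟩ := hE (δ / 240) (by positivity)
  refine ⟨1, one_pos, max 6 N2, fun n hn H χ M f g _ => ?_⟩
  have h6 : 6 ≤ n := le_trans (le_max_left _ _) hn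
  have h1 := hN2 n (le_trans (le_max_right _ _) hn) (gir χ M f g) (gir_card χ M f g)
    (evenH_gir χ M f g)
  rw [sum_colR_eq _ (gir_card χ M f g)]
  have h2 := desc6_eq (n := n) h6
  have h3 := PP42_pos h6
  have h4 : PP n 4 2 * ((gir χ M f g).card : ℝ) ≤
      PP n 4 2 * ((11 / 16 + δ / 240) * ((n.choose 4 : ℕ) : ℝ)) :=
    mul_le_mul_of_nonneg_left h1 h3
  have h5 : 5760 * (PP n 4 2 * ((11 / 16 + δ / 240) * ((n.choose 4 : ℕ) : ℝ))) =
      (165 + δ) * (n.descFactorial 6 : ℝ) := by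
    rw [h2]
    ring
  have h7 := desc_le n 6
  have h8 : δ * (n.descFactorial 6 : ℝ) ≤ δ * (n : ℝ) ^ 6 := mul_le_mul_of_nonneg_left h7 hδ.le
  linarith

/-- The density of the 4-graph. -/
theorem goodE_dens : GoodE (CtE P C X0 Q) (fun H _ _ _ _ t => 16 * S4 (zb H t) - 165) := by
  have h : ∀ (η : ℝ) {n : ℕ} (H : Finset (Finset (Fin n))) (χ : Fin n → Bool) M f g,
      CtE P C X0 Q η H χ M f g → -(2160 * (n : ℝ) ^ 5) ≤
        ∑ t ∈ inj (Fin n) 6, (((16 * S4 (zb H t) - 165 : ℤ)) : ℝ) := by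
    intro η n H χ M f g hc
    have e1 : ∑ t ∈ inj (Fin n) 6, (((16 * S4 (zb H t) - 165 : ℤ)) : ℝ) =
        -∑ t ∈ inj (Fin n) 6, ((colR (zb H t) : ℤ) : ℝ) := by
      rw [← Finset.sum_neg_distrib]
      refine Finset.sum_congr rfl fun t _ => ?_
      unfold colR
      push_cast
      ring
    rw [e1, sum_colR_eq H hc.h4]
    rcases Nat.eq_zero_or_pos n with h0 | h0
    · subst h0
      have h1 := hc.d
      unfold e4 at h1
      norm_num at h1
    · have hn0 : (0 : ℝ) < n := by exact_mod_cast h0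
      have h1 := hc.d
      unfold e4 at h1
      rw [le_div_iff₀ (by positivity)] at h1
      have h2 := PP42_ge n
      have h3 : ((n : ℝ) ^ 2 - 9 * n) * (H.card : ℝ) ≤ PP n 4 2 * (H.card : ℝ) :=
        mul_le_mul_of_nonneg_right h2 (Nat.cast_nonneg _)
      have h4 := desc_le n 6
      have h5 := card_quads_le H hc.h4
      have h6 : 24 * ((n : ℝ) ^ 2 * (H.card : ℝ)) ≥ 11 / 16 * (n : ℝ) ^ 6 := by
        have := mul_le_mul_of_nonneg_left h1 (by positivity : (0 : ℝ) ≤ (n : ℝ) ^ 2)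
        have e : (n : ℝ) ^ 2 * (11 / 16 * (n : ℝ) ^ 4) = 11 / 16 * (n : ℝ) ^ 6 := by ring
        rw [e] at this
        linarith
      have h7 : 9 * (n : ℝ) * (H.card : ℝ) ≤ 9 * (n : ℝ) * ((n : ℝ) ^ 4 / 24) :=
        mul_le_mul_of_nonneg_left (by linarith) (by positivity)
      have e : 9 * (n : ℝ) * ((n : ℝ) ^ 4 / 24) = 9 / 24 * (n : ℝ) ^ 5 := by ring
      rw [e] at h7
      have h8 : 0 ≤ (n : ℝ) ^ 5 := by positivity
      linarith
  exact GoodE.of_n5 (Z := fun H _ _ _ _ t => 16 * S4 (zb H t) - 165) 2160 h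

/-! ### The conclusions -/

/-- The local theorem. -/
theorem t4q_of_goodE (N : ℕ) (hN : 0 < N)
    (h : GoodE (CtE P C X0 Q) (fun H _ _ _ _ t => N * (165 - 16 * S4 (zb H t)))) :
    T4Q P C X0 Q := by
  intro ε hε
  have hN' : (0 : ℝ) < N := by exact_mod_cast hN
  obtain ⟨η, hη, N1, hN1⟩ := h (N * (120 * ε)) (by positivity)
  obtain ⟨N2, hN2⟩ := exists_nat_gt (2160 / (120 * ε) : ℝ)
  refine ⟨η, hη, max 1 (max N1 N2), fun n hn H h4 hk hP hd χ M f g hq hX hX2 => ?_⟩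
  have hn1 : 1 ≤ n := le_trans (le_max_left _ _) hn
  have hn' : max N1 N2 ≤ n := le_trans (le_max_right _ _) hn
  have s := hN1 n (le_trans (le_max_left _ _) hn') H χ M f g ⟨h4, hk, hP, hd, hq, hX, hX2⟩
  have hn0 : (0 : ℝ) < n := by exact_mod_cast hn1
  have e1 : ∑ t ∈ inj (Fin n) 6, (((N * (165 - 16 * S4 (zb H t)) : ℤ)) : ℝ) =
      N * ∑ t ∈ inj (Fin n) 6, ((colR (zb H t) : ℤ) : ℝ) := by
    rw [Finset.mul_sum]
    refine Finset.sum_congr rfl fun t _ => ?_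
    unfold colR
    push_cast
    ring
  rw [e1, sum_colR_eq H h4] at s
  have s2 : -(120 * ε * (n : ℝ) ^ 6) ≤
      165 * (n.descFactorial 6 : ℝ) - 16 * (360 * (PP n 4 2 * (H.card : ℝ))) := by
    have e : -(N * (120 * ε) * (n : ℝ) ^ 6) = N * -(120 * ε * (n : ℝ) ^ 6) := by ring
    rw [e] at s
    exact le_of_mul_le_mul_left s hN'
  have h2 := PP42_ge n
  have h3 : ((n : ℝ) ^ 2 - 9 * n) * (H.card : ℝ) ≤ PP n 4 2 * (H.card : ℝ) :=
    mul_le_mul_of_nonneg_right h2 (Nat.cast_nonneg _)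
  have h5 := desc_le n 6
  have h6 : 24 * (H.card : ℝ) ≤ (n : ℝ) ^ 4 := by
    have := card_quads_le H h4
    linarith
  have fe : 24 * (H.card : ℝ) = (n : ℝ) ^ 4 * e4 H := by
    unfold e4
    field_simp
  have h7 : 9 * (n : ℝ) * (24 * (H.card : ℝ)) ≤ 9 * (n : ℝ) * (n : ℝ) ^ 4 :=
    mul_le_mul_of_nonneg_left h6 (by positivity)
  have h8 : (n : ℝ) ^ 6 * e4 H = (n : ℝ) ^ 2 * (24 * (H.card : ℝ)) := by rw [fe]; ring
  have h9 : 240 * ((n : ℝ) ^ 6 * e4 H) ≤ 165 * (n : ℝ) ^ 6 + 120 * ε * (n : ℝ) ^ 6 +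
      2160 * (n : ℝ) ^ 5 := by
    rw [h8]
    have e : 9 * (n : ℝ) * (n : ℝ) ^ 4 = 9 * (n : ℝ) ^ 5 := by ring
    rw [e] at h7
    linarith
  have h10 : 2160 * (n : ℝ) ^ 5 ≤ 120 * ε * (n : ℝ) ^ 6 := by
    have h11 : 2160 / (120 * ε) < n :=
      lt_of_lt_of_le hN2 (by exact_mod_cast le_trans (le_max_right _ _) hn')
    rw [div_lt_iff₀ (by positivity)] at h11
    have := mul_le_mul_of_nonneg_right h11.le (by positivity : (0 : ℝ) ≤ (n : ℝ) ^ 5)
    have e : (n : ℝ) * (120 * ε) * (n : ℝ) ^ 5 = 120 * ε * (n : ℝ) ^ 6 := by ring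
    linarith
  have hn6 : (0 : ℝ) < (n : ℝ) ^ 6 := by positivity
  have fin : (n : ℝ) ^ 6 * (240 * e4 H) ≤ (n : ℝ) ^ 6 * (165 + 240 * ε) := by
    have e : (n : ℝ) ^ 6 * (165 + 240 * ε) = 165 * (n : ℝ) ^ 6 + 240 * ε * (n : ℝ) ^ 6 := by ring
    rw [e]
    linarith
  have := le_of_mul_le_mul_left fin hn6
  linarith

/-- A step of closeness: the distance is at most `X1` if it is at most `X0`. -/
def MapQ (P : ∀ n : ℕ, Finset (Finset (Fin n)) → Prop) (C X0 X1 : ℝ) (Q : CX) : Prop :=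
  ∀ ε : ℝ, 0 < ε → ∃ η : ℝ, 0 < η ∧ ∃ N : ℕ, ∀ n : ℕ, N ≤ n → ∀ (H : Finset (Finset (Fin n)))
    (χ : Fin n → Bool) (M : Fin n → Fin n → Bool) (f g : Finset (Fin n) → Bool),
    CtxE P C X0 Q η H χ M f g → X4 H (gir χ M f g) ≤ X1 + ε

theorem t4q_of_map {X1 : ℝ} (hm : MapQ P C X0 X1 Q) (h : T4Q P C X1 Q) : T4Q P C X0 Q := by
  intro ε hε
  obtain ⟨η, hη, N, hN⟩ := h ε hε
  obtain ⟨η', hη', N', hN'⟩ := hm η hη
  refine ⟨min η η', lt_min hη hη', max N N', fun n hn H h4 hk hP hd χ M f g hq hX hX2 => ?_⟩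
  have m1 := min_le_left η η'
  have m2 := min_le_right η η'
  have h1 := hN' n (le_trans (le_max_right _ _) hn) H χ M f g
    ⟨h4, hk, hP, hd, hq, by linarith, by linarith⟩
  exact hN n (le_trans (le_max_left _ _) hn) H h4 hk hP hd χ M f g hq h1 (by linarith)

theorem mapq_trans {X1 X2 : ℝ} (hm : MapQ P C X0 X1 Q) (hm' : MapQ P C X1 X2 Q) :
    MapQ P C X0 X2 Q := by
  intro ε hε
  obtain ⟨η, hη, N, hN⟩ := hm' ε hε
  obtain ⟨η', hη', N', hN'⟩ := hm η hη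
  refine ⟨min η η', lt_min hη hη', max N N', fun n hn H χ M f g hc => ?_⟩
  have h1 := hN' n (le_trans (le_max_right _ _) hn) H χ M f g
    (monoE_CtE _ _ (min_le_right _ _) H χ M f g hc)
  exact hN n (le_trans (le_max_left _ _) hn) H χ M f g
    ⟨hc.h4, hc.k5, hc.p, hc.d, hc.q, h1, by linarith [hc.F, min_le_left η η']⟩

/-- Two cases of a step. -/
theorem mapq_or {X1 : ℝ} {Q' Q'' : CX} (h : MapQ P C X0 X1 Q) (h' : MapQ P C X0 X1 Q')
    (hq : ∀ {n : ℕ} (H : Finset (Finset (Fin n))) (χ : Fin n → Bool) M f g,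
      (∀ e ∈ H, e.card = 4) → Q'' H χ M f g → Q H χ M f g ∨ Q' H χ M f g) :
    MapQ P C X0 X1 Q'' := by
  intro ε hε
  obtain ⟨η, hη, N, hN⟩ := h ε hε
  obtain ⟨η', hη', N', hN'⟩ := h' ε hε
  refine ⟨min η η', lt_min hη hη', max N N', fun n hn H χ M f g hc => ?_⟩
  have m1 := min_le_left η η'
  have m2 := min_le_right η η'
  rcases hq H χ M f g hc.h4 hc.q with h1 | h1
  · exact hN n (le_trans (le_max_left _ _) hn) H χ M f g
      ⟨hc.h4, hc.k5, hc.p, hc.d, h1, by linarith [hc.X], by linarith [hc.F]⟩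
  · exact hN' n (le_trans (le_max_right _ _) hn) H χ M f g
      ⟨hc.h4, hc.k5, hc.p, hc.d, h1, by linarith [hc.X], by linarith [hc.F]⟩

theorem mapq_avg {X1 : ℝ} {m : ℕ} (ψ : Phi m) (a b c d : ℕ) (h : MapQ P C X0 X1 (Avg ψ a b d))
    (h' : MapQ P C X0 X1 (Avg ψ b c d)) : MapQ P C X0 X1 (Avg ψ a c d) := by
  refine mapq_or h h' fun {n} H χ M f g _ hc => ?_
  rcases le_total ((d : ℤ) * ∑ u, ψ.F H χ M f g u) ((b : ℤ) * (n : ℤ) ^ m) with h1 | h1
  · exact Or.inl ⟨hc.1, h1⟩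
  · exact Or.inr ⟨h1, hc.2⟩

/-- A step from an inequality on windows. -/
theorem mapq_of_goodE (xn xd : ℕ) (hxd : 0 < xd)
    (h : GoodE (CtE P C X0 Q) (fun H χ M f g t =>
      15 * xn - xd * S4 (fun T => zb H t T ^^ zb (gir χ M f g) t T))) :
    MapQ P C X0 ((xn : ℝ) / xd) Q := by
  intro ε hε
  have hxd' : (0 : ℝ) < xd := by exact_mod_cast hxd
  obtain ⟨η, hη, N1, hN1⟩ := h (xd * (7 * ε)) (by positivity)
  obtain ⟨N2, hN2⟩ := exists_nat_gt (135 / (7 * ε) : ℝ)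
  refine ⟨η, hη, max 1 (max N1 N2), fun n hn H χ M f g hc => ?_⟩
  have hn1 : 1 ≤ n := le_trans (le_max_left _ _) hn
  have hn' : max N1 N2 ≤ n := le_trans (le_max_right _ _) hn
  have s := hN1 n (le_trans (le_max_left _ _) hn') H χ M f g hc
  have hn0 : (0 : ℝ) < n := by exact_mod_cast hn1
  have hJ4 := symmDiff_card4 hc.h4 χ M f g
  have e1 : ∑ t ∈ inj (Fin n) 6,
      (((15 * xn - xd * S4 (fun T => zb H t T ^^ zb (gir χ M f g) t T) : ℤ)) : ℝ) =
      15 * xn * (n.descFactorial 6 : ℝ) -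
        xd * (360 * (PP n 4 2 * ((symmDiff H (gir χ M f g)).card : ℝ))) := by
    have e2 : ∀ t : Fin 6 → Fin n,
        (((15 * xn - xd * S4 (fun T => zb H t T ^^ zb (gir χ M f g) t T) : ℤ)) : ℝ) =
        15 * xn - xd * ((S4 (fun T => zb H t T ^^ zb (gir χ M f g) t T) : ℤ) : ℝ) := by
      intro t
      push_cast
      ring
    rw [Finset.sum_congr rfl fun t _ => e2 t]
    simp_rw [Finset.sum_sub_distrib, ← Finset.mul_sum]
    rw [sum6_J H _ hc.h4 (gir_card χ M f g)]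
    simp only [Finset.sum_const, nsmul_eq_mul, card_inj, Fintype.card_fin]
    ring
  rw [e1] at s
  set J : ℝ := ((symmDiff H (gir χ M f g)).card : ℝ) with hJ
  have hJ0 : 0 ≤ J := Nat.cast_nonneg _
  have h2 := PP42_ge n
  have h3 : ((n : ℝ) ^ 2 - 9 * n) * J ≤ PP n 4 2 * J := mul_le_mul_of_nonneg_right h2 hJ0
  have h5 := desc_le n 6
  have h6 : 24 * J ≤ (n : ℝ) ^ 4 := by
    have := card_quads_le _ hJ4
    linarith
  have fe : 24 * J = (n : ℝ) ^ 4 * X4 H (gir χ M f g) := by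
    unfold X4
    field_simp
    rw [hJ]
  have h7 : 9 * (n : ℝ) * (24 * J) ≤ 9 * (n : ℝ) * (n : ℝ) ^ 4 :=
    mul_le_mul_of_nonneg_left h6 (by positivity)
  have h8 : (n : ℝ) ^ 6 * X4 H (gir χ M f g) = (n : ℝ) ^ 2 * (24 * J) := by rw [fe]; ring
  have h9 : (xd : ℝ) * (15 * ((n : ℝ) ^ 6 * X4 H (gir χ M f g))) ≤
      15 * xn * (n : ℝ) ^ 6 + xd * (7 * ε) * (n : ℝ) ^ 6 + xd * (135 * (n : ℝ) ^ 5) := by
    rw [h8]
    have e : 9 * (n : ℝ) * (n : ℝ) ^ 4 = 9 * (n : ℝ) ^ 5 := by ring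
    rw [e] at h7
    have h10 : (xd : ℝ) * (360 * (((n : ℝ) ^ 2 - 9 * n) * J)) ≤ xd * (360 * (PP n 4 2 * J)) :=
      mul_le_mul_of_nonneg_left (by linarith) hxd'.le
    have h11 : 15 * (xn : ℝ) * (n.descFactorial 6 : ℝ) ≤ 15 * xn * (n : ℝ) ^ 6 :=
      mul_le_mul_of_nonneg_left h5 (by positivity)
    have h12 : (xd : ℝ) * (15 * (9 * (n : ℝ) * (24 * J))) ≤ xd * (15 * (9 * (n : ℝ) ^ 5)) :=
      mul_le_mul_of_nonneg_left (by linarith) hxd'.le
    have e2 : (xd : ℝ) * (15 * ((n : ℝ) ^ 2 * (24 * J))) =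
        xd * (360 * (((n : ℝ) ^ 2 - 9 * n) * J)) + xd * (15 * (9 * (n : ℝ) * (24 * J))) := by ring
    rw [e2]
    linarith
  have h10 : 135 * (n : ℝ) ^ 5 ≤ 7 * ε * (n : ℝ) ^ 6 := by
    have h11 : 135 / (7 * ε) < n :=
      lt_of_lt_of_le hN2 (by exact_mod_cast le_trans (le_max_right _ _) hn')
    rw [div_lt_iff₀ (by positivity)] at h11
    have := mul_le_mul_of_nonneg_right h11.le (by positivity : (0 : ℝ) ≤ (n : ℝ) ^ 5)
    have e : (n : ℝ) * (7 * ε) * (n : ℝ) ^ 5 = 7 * ε * (n : ℝ) ^ 6 := by ring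
    linarith
  have hn6 : (0 : ℝ) < (n : ℝ) ^ 6 := by positivity
  have h13 : (xd : ℝ) * (135 * (n : ℝ) ^ 5) ≤ xd * (7 * ε * (n : ℝ) ^ 6) :=
    mul_le_mul_of_nonneg_left h10 hxd'.le
  have fin : (n : ℝ) ^ 6 * (15 * xd * X4 H (gir χ M f g)) ≤
      (n : ℝ) ^ 6 * (15 * xd * ((xn : ℝ) / xd + ε)) := by
    have e : (n : ℝ) ^ 6 * (15 * xd * ((xn : ℝ) / xd + ε)) =
        15 * xn * (n : ℝ) ^ 6 + 15 * xd * ε * (n : ℝ) ^ 6 := by
      field_simp
    have h14 : 0 ≤ (xd : ℝ) * ε * (n : ℝ) ^ 6 := by positivity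
    rw [e]
    linarith
  exact le_of_mul_le_mul_left (le_of_mul_le_mul_left fin hn6) (by positivity)

end ctx

end Pool.Agent.Lib.MP_afdd4d_co.K9.Star
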