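import Pool.Agent.Lib.MP_afdd4d_co.K9.MarkWin

/-!
# Pair marks and vertex closeness

If every vertex is in few quadruples of a family, then every vertex is in few marked pairs. Two
further families of functions with nonnegative total sum, and windows of six vertices with colours.
-/

namespace Pool.Agent.Lib.MP_afdd4d_co.K9.Marks

open Finset K8

section vert
variable {n : ℕ} (g : (Fin 4 → Fin n) → ℤ) (dn dd : ℕ)

/-- The sum of `g` over the quadruples that start with a vertex. -/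
def vs (x : Fin n) : ℤ := ∑ u : Fin 3 → Fin n, g ![x, u 0, u 1, u 2]

theorem sum_js (x : Fin n) : ∑ u : Fin 1 → Fin n, js g x (u 0) = vs g x := by
  unfold vs js
  rw [← (Fin.appendEquiv 1 2).sum_comp, Fintype.sum_prod_type]
  refine Finset.sum_congr rfl fun u _ => Finset.sum_congr rfl fun w _ => ?_
  congr 1

/-- The total sum by the first and the last vertices. -/
theorem sum_app {k l : ℕ} (f : (Fin (k + l) → Fin n) → ℤ) :
    ∑ p, f p = ∑ s : Fin k → Fin n, ∑ u : Fin l → Fin n, f (Fin.append s u) := by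
  rw [← (Fin.appendEquiv k l).sum_comp, Fintype.sum_prod_type]
  rfl

theorem card_fun1 : ((univ : Finset (Fin 1 → Fin n)).card : ℤ) = (n : ℤ) := by
  rw [Finset.card_univ, Fintype.card_fun, Fintype.card_fin, Fintype.card_fin, pow_one]

theorem card_fun3 : ((univ : Finset (Fin 3 → Fin n)).card : ℤ) = (n : ℤ) ^ 3 := by
  rw [Finset.card_univ, Fintype.card_fun, Fintype.card_fin, Fintype.card_fin]
  push_cast
  rfl

/-- Every vertex is in few marked pairs. -/
def t5 (vn vd : ℕ) {k : ℕ} (φ : (Fin (k + 1) → Fin n) → ℤ) (p : Fin (k + 1 + 1) → Fin n) : ℤ :=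
  φ (p ∘ Fin.castAdd 1) *
    ((vn : ℤ) * dd - vd * dn * (mk g dn dd (p 0) (p (Fin.last (k + 1)))).toNat)

/-- Every vertex is in few quadruples. -/
def t6 (vn vd : ℕ) {k : ℕ} (φ : (Fin (k + 1) → Fin n) → ℤ) (p : Fin (k + 1 + 3) → Fin n) : ℤ :=
  φ (p ∘ Fin.castAdd 3) * ((vn : ℤ) - vd * g ![p 0, p (Fin.natAdd (k + 1) 0),
    p (Fin.natAdd (k + 1) 1), p (Fin.natAdd (k + 1) 2)])

theorem append_zero {k l : ℕ} (s : Fin (k + 1) → Fin n) (u : Fin l → Fin n) :
    (Fin.append s u : Fin (k + 1 + l) → Fin n) 0 = s 0 := by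
  have h : (0 : Fin (k + 1 + l)) = Fin.castAdd l (0 : Fin (k + 1)) := by
    apply Fin.ext
    simp
  rw [h, Fin.append_left]

theorem append_castAdd {k l : ℕ} (s : Fin k → Fin n) (u : Fin l → Fin n) :
    (Fin.append s u : Fin (k + l) → Fin n) ∘ Fin.castAdd l = s := by
  funext i
  exact Fin.append_left s u i

theorem t5_tot (vn vd : ℕ) (hv : ∀ x, (vd : ℤ) * vs g x ≤ vn * (n : ℤ) ^ 3)
    (hg : ∀ p, 0 ≤ g p) {k : ℕ} (φ : (Fin (k + 1) → Fin n) → ℤ) (hφ : ∀ s, 0 ≤ φ s) :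
    0 ≤ ∑ p, t5 g dn dd vn vd φ p := by
  rw [sum_app]
  refine Finset.sum_nonneg fun s _ => ?_
  have e : ∀ u : Fin 1 → Fin n, t5 g dn dd vn vd φ (Fin.append s u) =
      φ s * ((vn : ℤ) * dd - vd * dn * (mk g dn dd (s 0) (u 0)).toNat) := by
    intro u
    unfold t5
    have h1 : (Fin.append s u : Fin (k + 1 + 1) → Fin n) (Fin.last (k + 1)) = u 0 := by
      have h : Fin.last (k + 1) = Fin.natAdd (k + 1) (0 : Fin 1) := by
        apply Fin.ext
        simp
      rw [h, Fin.append_right]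
    rw [append_castAdd, append_zero, h1]
  rw [Finset.sum_congr rfl fun u _ => e u, ← Finset.mul_sum]
  refine mul_nonneg (hφ s) ?_
  rw [Finset.sum_sub_distrib, Finset.sum_const, nsmul_eq_mul, card_fun1, ← Finset.mul_sum]
  set c : ℤ := ∑ u : Fin 1 → Fin n, ((mk g dn dd (s 0) (u 0)).toNat : ℤ) with hc
  have h1 : (dn : ℤ) * (n : ℤ) ^ 2 * c ≤ dd * vs g (s 0) := by
    rw [← sum_js g (s 0), hc, Finset.mul_sum, Finset.mul_sum]
    refine Finset.sum_le_sum fun u _ => ?_
    have h0 : 0 ≤ js g (s 0) (u 0) := Finset.sum_nonneg fun w _ => hg _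
    unfold mk
    by_cases h : (dn : ℤ) * (n : ℤ) ^ 2 < (dd : ℤ) * js g (s 0) (u 0)
    · rw [decide_eq_true h]
      simp only [Bool.toNat_true, Nat.cast_one, mul_one]
      exact h.le
    · rw [decide_eq_false h]
      simp only [Bool.toNat_false, Nat.cast_zero, mul_zero]
      positivity
  have hn : (0 : ℤ) < (n : ℤ) ^ 2 := by
    have : 0 < n := lt_of_le_of_lt (Nat.zero_le _) (s 0).isLt
    positivity
  have h2 : (n : ℤ) ^ 2 * ((vd : ℤ) * dn * c) ≤ (n : ℤ) ^ 2 * ((n : ℤ) * ((vn : ℤ) * dd)) := by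
    calc (n : ℤ) ^ 2 * ((vd : ℤ) * dn * c) = vd * ((dn : ℤ) * (n : ℤ) ^ 2 * c) := by ring
      _ ≤ vd * (dd * vs g (s 0)) := mul_le_mul_of_nonneg_left h1 (by positivity)
      _ = dd * ((vd : ℤ) * vs g (s 0)) := by ring
      _ ≤ dd * (vn * (n : ℤ) ^ 3) := mul_le_mul_of_nonneg_left (hv _) (by positivity)
      _ = _ := by ring
  have h3 := le_of_mul_le_mul_left h2 hn
  linarith

theorem t6_tot (vn vd : ℕ) (hv : ∀ x, (vd : ℤ) * vs g x ≤ vn * (n : ℤ) ^ 3) {k : ℕ}
    (φ : (Fin (k + 1) → Fin n) → ℤ) (hφ : ∀ s, 0 ≤ φ s) : 0 ≤ ∑ p, t6 g vn vd φ p := by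
  rw [sum_app]
  refine Finset.sum_nonneg fun s _ => ?_
  have e : ∀ u : Fin 3 → Fin n, t6 g vn vd φ (Fin.append s u) =
      φ s * ((vn : ℤ) - vd * g ![s 0, u 0, u 1, u 2]) := by
    intro u
    unfold t6
    rw [append_castAdd, append_zero, Fin.append_right, Fin.append_right, Fin.append_right]
  rw [Finset.sum_congr rfl fun u _ => e u, ← Finset.mul_sum]
  refine mul_nonneg (hφ s) ?_
  rw [Finset.sum_sub_distrib, Finset.sum_const, nsmul_eq_mul, card_fun3, ← Finset.mul_sum]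
  have h1 : ∑ u : Fin 3 → Fin n, g ![s 0, u 0, u 1, u 2] = vs g (s 0) := rfl
  rw [h1]
  linarith [hv (s 0), mul_comm (vn : ℤ) ((n : ℤ) ^ 3)]

theorem t5_le (vn vd : ℕ) {k : ℕ} (φ : (Fin (k + 1) → Fin n) → ℤ) (B : ℕ) (hφ : ∀ s, 0 ≤ φ s)
    (hB : ∀ s, φ s ≤ B) (p : Fin (k + 1 + 1) → Fin n) :
    t5 g dn dd vn vd φ p ≤ B * (vn * dd) := by
  unfold t5
  have h2 : (vn : ℤ) * dd - vd * dn * (mk g dn dd (p 0) (p (Fin.last (k + 1)))).toNat ≤
      vn * dd := by
    have : (0 : ℤ) ≤ vd * dn * (mk g dn dd (p 0) (p (Fin.last (k + 1)))).toNat := by positivity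
    linarith
  calc _ ≤ φ (p ∘ Fin.castAdd 1) * (vn * dd) := mul_le_mul_of_nonneg_left h2 (hφ _)
    _ ≤ B * (vn * dd) := mul_le_mul_of_nonneg_right (hB _) (by positivity)

theorem t6_le (vn vd : ℕ) (hg : ∀ p, 0 ≤ g p) {k : ℕ} (φ : (Fin (k + 1) → Fin n) → ℤ) (B : ℕ)
    (hφ : ∀ s, 0 ≤ φ s) (hB : ∀ s, φ s ≤ B) (p : Fin (k + 1 + 3) → Fin n) :
    t6 g vn vd φ p ≤ B * vn := by
  unfold t6
  have h1 := hg ![p 0, p (Fin.natAdd (k + 1) 0), p (Fin.natAdd (k + 1) 1),
    p (Fin.natAdd (k + 1) 2)]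
  have h2 : (vn : ℤ) - vd * g ![p 0, p (Fin.natAdd (k + 1) 0), p (Fin.natAdd (k + 1) 1),
      p (Fin.natAdd (k + 1) 2)] ≤ vn := by
    have : (0 : ℤ) ≤ vd * g ![p 0, p (Fin.natAdd (k + 1) 0), p (Fin.natAdd (k + 1) 1),
      p (Fin.natAdd (k + 1) 2)] := by positivity
    linarith
  calc _ ≤ φ (p ∘ Fin.castAdd 3) * vn := mul_le_mul_of_nonneg_left h2 (hφ _)
    _ ≤ B * vn := mul_le_mul_of_nonneg_right (hB _) (by positivity)

end vert

/-! ### The number of quadruples at a vertex -/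

section jvs
variable {n : ℕ} (J : Finset (Finset (Fin n)))

/-- The sum over the quadruples that start with a vertex. -/
theorem vs_jv (hJ : ∀ e ∈ J, e.card = 4) (x : Fin n) :
    ((vs (jv J) x : ℤ) : ℝ) ≤ 6 * ((J.filter fun e => x ∈ e).card : ℝ) := by
  classical
  set K : Finset (Finset (Fin n)) := (J.filter fun e => x ∈ e).image fun e => e.erase x with hK
  have hKc : K.card ≤ (J.filter fun e => x ∈ e).card := Finset.card_image_le
  have hK3 : ∀ e ∈ K, e.card = 3 := by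
    intro e he
    rw [hK, Finset.mem_image] at he
    obtain ⟨q, hq, rfl⟩ := he
    rw [Finset.mem_filter] at hq
    rw [Finset.card_erase_of_mem hq.2, hJ q hq.1]
  have h1 := sum_inj_le_edges (V := Fin n) 3 K hK3 (fun u => ((jv J ![x, u 0, u 1, u 2] : ℤ) : ℝ))
    (fun u => by exact_mod_cast jv_le_one J _) (fun u _ h => by
      have h2 : jv J ![x, u 0, u 1, u 2] = 0 := by
        unfold jv
        rw [if_neg]
        rintro ⟨hi, hm⟩
        apply h
        rw [hK, Finset.mem_image]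
        refine ⟨_, Finset.mem_filter.mpr ⟨hm, ?_⟩, ?_⟩
        · exact Finset.mem_image.mpr ⟨0, Finset.mem_univ _, rfl⟩
        · ext y
          rw [Finset.mem_erase, Finset.mem_image, Finset.mem_image]
          constructor
          · rintro ⟨hyx, i, _, hi2⟩
            fin_cases i
            · exact absurd hi2.symm hyx
            · exact ⟨0, Finset.mem_univ _, hi2⟩
            · exact ⟨1, Finset.mem_univ _, hi2⟩
            · exact ⟨2, Finset.mem_univ _, hi2⟩
          · rintro ⟨i, _, hi2⟩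
            have hs : u i = (![x, u 0, u 1, u 2] : Fin 4 → Fin n) i.succ := by
              fin_cases i <;> rfl
            refine ⟨?_, i.succ, Finset.mem_univ _, by rw [← hs]; exact hi2⟩
            intro hyx
            have h3 : (![x, u 0, u 1, u 2] : Fin 4 → Fin n) i.succ =
                (![x, u 0, u 1, u 2] : Fin 4 → Fin n) 0 := by
              rw [← hs, hi2, hyx]
              rfl
            exact absurd (hi h3) (Fin.succ_ne_zero i)
      rw [h2, Int.cast_zero])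
  have h2 : ((vs (jv J) x : ℤ) : ℝ) =
      ∑ a ∈ inj (Fin n) 3, ((jv J ![x, a 0, a 1, a 2] : ℤ) : ℝ) := by
    unfold vs
    push_cast
    unfold inj
    rw [Finset.sum_filter]
    refine Finset.sum_congr rfl fun p _ => ?_
    split_ifs with h
    · rfl
    · have h3 : jv J ![x, p 0, p 1, p 2] = 0 := by
        unfold jv
        rw [if_neg]
        rintro ⟨hi, _⟩
        apply h
        intro a b hab
        have hs : ∀ i : Fin 3, p i = (![x, p 0, p 1, p 2] : Fin 4 → Fin n) i.succ := by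
          intro i
          fin_cases i <;> rfl
        rw [hs a, hs b] at hab
        exact Fin.succ_injective _ (hi hab)
      rw [h3, Int.cast_zero]
  rw [h2]
  refine le_trans h1 ?_
  have h3 : (K.card : ℝ) ≤ ((J.filter fun e => x ∈ e).card : ℝ) := by exact_mod_cast hKc
  norm_num [Nat.factorial]
  linarith

/-- The hypothesis from the degrees. -/
theorem hv_of_card (hJ : ∀ e ∈ J, e.card = 4) (vn vd : ℕ)
    (h : ∀ x, (vd : ℝ) * (6 * ((J.filter fun e => x ∈ e).card : ℝ)) ≤ vn * (n : ℝ) ^ 3) (x : Fin n) :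
    (vd : ℤ) * vs (jv J) x ≤ vn * (n : ℤ) ^ 3 := by
  have h1 := vs_jv J hJ x
  have h2 : (vd : ℝ) * ((vs (jv J) x : ℤ) : ℝ) ≤ vn * (n : ℝ) ^ 3 :=
    le_trans (mul_le_mul_of_nonneg_left h1 (Nat.cast_nonneg _)) (h x)
  exact_mod_cast h2

end jvs

end Pool.Agent.Lib.MP_afdd4d_co.K9.Marks
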