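import Pool.Agent.Lib.MP_afdd4d_co.K9.VMap

/-!
# Marks of vertices, pairs and triples

Items whose multipliers are functions of the colours, of the 4-graph, of the reference structure and
of the marks of the vertices, of the pairs and of the triples of the window.
-/

namespace Pool.Agent.Lib.MP_afdd4d_co.K9.Star

open Finset K8
open Pool.Agent.Lib.MP_afdd4d_co.K9.Marks

/-! ### The general terms -/

section genl
variable {Cx : CX}

/-- The upper bound of an average for each choice of the roots. -/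
theorem good_upR {m l : ℕ} (φ : Phi m) (B : Phi (m + l)) (an ad : ℕ) (j : Fin (m + l) → Fin 6)
    (hj : Function.Injective j)
    (h : ∀ {n : ℕ} (H : Finset (Finset (Fin n))) (χ : Fin n → Bool) M f g, Cx H χ M f g →
      ∀ s : Fin m → Fin n, φ.F H χ M f g s ≠ 0 →
        (ad : ℤ) * ∑ u : Fin l → Fin n, B.F H χ M f g (Fin.append s u) ≤ an * (n : ℤ) ^ l) :
    GoodC Cx (fun H χ M f g t => φ.F H χ M f g (t ∘ j ∘ Fin.castAdd l) *
      ((an : ℤ) - ad * B.F H χ M f g (t ∘ j))) := by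
  refine GoodC.of_bound (Z := fun H χ M f g t => φ.F H χ M f g (t ∘ j ∘ Fin.castAdd l) *
      ((an : ℤ) - ad * B.F H χ M f g (t ∘ j))) ((φ.B * an : ℕ) : ℝ)
    fun {n} H χ M f g hc => ?_
  have h1 := inj_ge_of_tot (fun p : Fin (m + l) → Fin n => φ.F H χ M f g (p ∘ Fin.castAdd l) *
      ((an : ℤ) - ad * B.F H χ M f g p)) ((φ.B * an : ℕ) : ℝ) ?_ ?_ j hj
  · exact h1
  · rw [sum_app (k := m) (l := l)]
    refine Finset.sum_nonneg fun s _ => ?_
    have e : ∀ u : Fin l → Fin n, φ.F H χ M f g ((Fin.append s u) ∘ Fin.castAdd l) *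
        ((an : ℤ) - ad * B.F H χ M f g (Fin.append s u)) = φ.F H χ M f g s *
        ((an : ℤ) - ad * B.F H χ M f g (Fin.append s u)) := by
      intro u
      rw [append_castAdd]
    rw [Finset.sum_congr rfl fun u _ => e u, ← Finset.mul_sum]
    by_cases h0 : φ.F H χ M f g s = 0
    · rw [h0, zero_mul]
    · refine mul_nonneg (φ.h0 H χ M f g s) ?_
      rw [Finset.sum_sub_distrib, Finset.sum_const, nsmul_eq_mul, card_funs, ← Finset.mul_sum]
      have := h H χ M f g hc s h0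
      linarith [mul_comm (an : ℤ) ((n : ℤ) ^ l)]
  · intro p
    have h2 : φ.F H χ M f g (p ∘ Fin.castAdd l) * ((an : ℤ) - ad * B.F H χ M f g p) ≤
        ((φ.B * an : ℕ) : ℤ) := by
      have h3 : (an : ℤ) - ad * B.F H χ M f g p ≤ an := by
        have : (0 : ℤ) ≤ ad * B.F H χ M f g p :=
          mul_nonneg (Int.natCast_nonneg _) (B.h0 _ _ _ _ _ _)
        linarith
      push_cast
      calc _ ≤ φ.F H χ M f g (p ∘ Fin.castAdd l) * an :=
            mul_le_mul_of_nonneg_left h3 (φ.h0 _ _ _ _ _ _)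
        _ ≤ φ.B * an := mul_le_mul_of_nonneg_right (φ.hB _ _ _ _ _ _) (Int.natCast_nonneg _)
    exact_mod_cast h2

/-- The lower bound of an average for each choice of the roots. -/
theorem good_loR {m l : ℕ} (φ : Phi m) (B : Phi (m + l)) (an ad : ℕ) (j : Fin (m + l) → Fin 6)
    (hj : Function.Injective j)
    (h : ∀ {n : ℕ} (H : Finset (Finset (Fin n))) (χ : Fin n → Bool) M f g, Cx H χ M f g →
      ∀ s : Fin m → Fin n, φ.F H χ M f g s ≠ 0 →
        an * (n : ℤ) ^ l ≤ (ad : ℤ) * ∑ u : Fin l → Fin n, B.F H χ M f g (Fin.append s u)) :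
    GoodC Cx (fun H χ M f g t => φ.F H χ M f g (t ∘ j ∘ Fin.castAdd l) *
      (ad * B.F H χ M f g (t ∘ j) - (an : ℤ))) := by
  refine GoodC.of_bound (Z := fun H χ M f g t => φ.F H χ M f g (t ∘ j ∘ Fin.castAdd l) *
      (ad * B.F H χ M f g (t ∘ j) - (an : ℤ))) ((φ.B * (ad * B.B) : ℕ) : ℝ)
    fun {n} H χ M f g hc => ?_
  have h1 := inj_ge_of_tot (fun p : Fin (m + l) → Fin n => φ.F H χ M f g (p ∘ Fin.castAdd l) *
      (ad * B.F H χ M f g p - (an : ℤ))) ((φ.B * (ad * B.B) : ℕ) : ℝ) ?_ ?_ j hj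
  · exact h1
  · rw [sum_app (k := m) (l := l)]
    refine Finset.sum_nonneg fun s _ => ?_
    have e : ∀ u : Fin l → Fin n, φ.F H χ M f g ((Fin.append s u) ∘ Fin.castAdd l) *
        (ad * B.F H χ M f g (Fin.append s u) - (an : ℤ)) = φ.F H χ M f g s *
        (ad * B.F H χ M f g (Fin.append s u) - (an : ℤ)) := by
      intro u
      rw [append_castAdd]
    rw [Finset.sum_congr rfl fun u _ => e u, ← Finset.mul_sum]
    by_cases h0 : φ.F H χ M f g s = 0
    · rw [h0, zero_mul]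
    · refine mul_nonneg (φ.h0 H χ M f g s) ?_
      rw [Finset.sum_sub_distrib, Finset.sum_const, nsmul_eq_mul, card_funs, ← Finset.mul_sum]
      have := h H χ M f g hc s h0
      linarith [mul_comm (an : ℤ) ((n : ℤ) ^ l)]
  · intro p
    have h2 : φ.F H χ M f g (p ∘ Fin.castAdd l) * (ad * B.F H χ M f g p - (an : ℤ)) ≤
        ((φ.B * (ad * B.B) : ℕ) : ℤ) := by
      have h3 : ad * B.F H χ M f g p - (an : ℤ) ≤ ad * B.B := by
        have h4 : (ad : ℤ) * B.F H χ M f g p ≤ ad * B.B :=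
          mul_le_mul_of_nonneg_left (B.hB _ _ _ _ _ _) (Int.natCast_nonneg _)
        have h5 : (0 : ℤ) ≤ an := Int.natCast_nonneg _
        linarith
      push_cast
      have h6 : (0 : ℤ) ≤ ad * B.B := by positivity
      calc _ ≤ φ.F H χ M f g (p ∘ Fin.castAdd l) * (ad * B.B) :=
            mul_le_mul_of_nonneg_left h3 (φ.h0 _ _ _ _ _ _)
        _ ≤ φ.B * (ad * B.B) := mul_le_mul_of_nonneg_right (φ.hB _ _ _ _ _ _) h6
    exact_mod_cast h2

end genl

/-! ### The marks -/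

/-- The thresholds: `vn / vd` for the vertices, `dn / dd` for the pairs, `tn / td` for the triples,
`bn / bd` for the average of the marked pairs at a vertex; `xn / xd` bounds the distance. -/
structure ParX where
  vn : ℕ
  vd : ℕ
  dn : ℕ
  dd : ℕ
  tn : ℕ
  td : ℕ
  bn : ℕ
  bd : ℕ
  xn : ℕ
  xd : ℕ

section mk
variable (P : ParX) {n : ℕ} (J : Finset (Finset (Fin n)))

/-- The number of vertices that complete a triple. -/
def ts (x y z : Fin n) : ℤ := ∑ w : Fin 1 → Fin n, jv J ![x, y, z, w 0]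

/-- A vertex is marked if it is in many quadruples. -/
def mkV (x : Fin n) : Bool := decide ((P.vn : ℤ) * (n : ℤ) ^ 3 < (P.vd : ℤ) * vs (jv J) x)

/-- A pair is marked if it is in many quadruples. -/
def mkP (x y : Fin n) : Bool := Marks.mk (jv J) P.dn P.dd x y

/-- A triple is marked if it is in many quadruples. -/
def mkT (x y z : Fin n) : Bool := decide ((P.tn : ℤ) * (n : ℤ) ^ 1 < (P.td : ℤ) * ts J x y z)

/-- The number of marked pairs at a vertex. -/
def bs (x : Fin n) : ℤ := ∑ y : Fin 1 → Fin n, ((mkP P J x (y 0)).toNat : ℤ)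

/-- A vertex is marked if it is in many marked pairs. -/
def mkB (x : Fin n) : Bool := decide ((P.bn : ℤ) * (n : ℤ) ^ 1 < (P.bd : ℤ) * bs P J x)

end mk

/-- The visible data of a tuple of vertices. -/
structure WD (k : ℕ) where
  c : Fin k → Bool
  e : Finset (Fin k) → Bool
  r : Finset (Fin k) → Bool
  m : Fin k → Bool
  v : Fin k → Bool
  b : Fin k → Fin k → Bool
  τ : Fin k → Fin k → Fin k → Bool

/-- The data of some of the vertices. -/
def WD.sub {k m : ℕ} (D : WD m) (s : Fin k → Fin m) : WD k where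
  c := fun i => D.c (s i)
  e := fun S => D.e (S.image s)
  r := fun S => D.r (S.image s)
  m := fun i => D.m (s i)
  v := fun i => D.v (s i)
  b := fun i j => D.b (s i) (s j)
  τ := fun i j l => D.τ (s i) (s j) (s l)

/-- The data of a tuple of vertices. -/
def wd (P : ParX) {n k : ℕ} (H : Finset (Finset (Fin n))) (χ : Fin n → Bool)
    (M : Fin n → Fin n → Bool) (f g : Finset (Fin n) → Bool) (t : Fin k → Fin n) : WD k where
  c := fun i => χ (t i)
  e := zb H t
  r := zb (gir χ M f g) t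
  m := fun i => mkV P (JJ H χ M f g) (t i)
  v := fun i => mkB P (JJ H χ M f g) (t i)
  b := fun i j => mkP P (JJ H χ M f g) (t i) (t j)
  τ := fun i j l => mkT P (JJ H χ M f g) (t i) (t j) (t l)

theorem wd_comp (P : ParX) {n k m : ℕ} (H : Finset (Finset (Fin n))) (χ : Fin n → Bool)
    (M : Fin n → Fin n → Bool) (f g : Finset (Fin n) → Bool) (t : Fin m → Fin n)
    (s : Fin k → Fin m) : wd P H χ M f g (t ∘ s) = (wd P H χ M f g t).sub s := by
  unfold wd WD.sub
  rw [zb_comp, zb_comp]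
  rfl

/-- A multiplier: a bounded function of the visible data. -/
structure MuX (k : ℕ) where
  F : WD k → ℕ
  B : ℕ
  hB : ∀ D, F D ≤ B

/-- A multiplier as a function of vertices. -/
def MuX.phi {k : ℕ} (μ : MuX k) (P : ParX) : Phi k where
  F := fun H χ M f g s => (μ.F (wd P H χ M f g s) : ℕ)
  B := μ.B
  h0 := fun _ _ _ _ _ _ => Int.natCast_nonneg _
  hB := fun _ _ _ _ _ _ => by exact_mod_cast μ.hB _

theorem MuX.phi_comp {k m n : ℕ} (μ : MuX k) (P : ParX) (H : Finset (Finset (Fin n)))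
    (χ : Fin n → Bool) (M : Fin n → Fin n → Bool) (f g : Finset (Fin n) → Bool)
    (t : Fin m → Fin n) (s : Fin k → Fin m) :
    (μ.phi P).F H χ M f g (t ∘ s) = (μ.F ((wd P H χ M f g t).sub s) : ℕ) := by
  show ((μ.F (wd P H χ M f g (t ∘ s)) : ℕ) : ℤ) = _
  rw [wd_comp]

/-- The multiplier where a condition on the data fails. -/
def MuX.off {k : ℕ} (μ : MuX k) (p : WD k → Bool) : MuX k where
  F := fun D => if p D = true then 0 else μ.F D
  B := μ.B
  hB := fun D => by
    split_ifs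
    · exact Nat.zero_le _
    · exact μ.hB D

/-- The multiplier where a condition on the data holds. -/
def MuX.on {k : ℕ} (μ : MuX k) (p : WD k → Bool) : MuX k where
  F := fun D => if p D = true then μ.F D else 0
  B := μ.B
  hB := fun D => by
    split_ifs
    · exact μ.hB D
    · exact Nat.zero_le _

theorem MuX.off_ne {k n : ℕ} (μ : MuX k) (P : ParX) (p : WD k → Bool)
    {H : Finset (Finset (Fin n))} {χ : Fin n → Bool} {M : Fin n → Fin n → Bool}
    {f g : Finset (Fin n) → Bool} {s : Fin k → Fin n}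
    (h : ((μ.off p).phi P).F H χ M f g s ≠ 0) : p (wd P H χ M f g s) = false := by
  by_contra hp
  rw [Bool.not_eq_false] at hp
  apply h
  show (((if p (wd P H χ M f g s) = true then 0 else μ.F (wd P H χ M f g s)) : ℕ) : ℤ) = 0
  rw [if_pos hp]
  rfl

theorem MuX.on_ne {k n : ℕ} (μ : MuX k) (P : ParX) (p : WD k → Bool)
    {H : Finset (Finset (Fin n))} {χ : Fin n → Bool} {M : Fin n → Fin n → Bool}
    {f g : Finset (Fin n) → Bool} {s : Fin k → Fin n}
    (h : ((μ.on p).phi P).F H χ M f g s ≠ 0) : p (wd P H χ M f g s) = true := by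
  by_contra hp
  apply h
  show (((if p (wd P H χ M f g s) = true then μ.F (wd P H χ M f g s) else 0) : ℕ) : ℤ) = 0
  rw [if_neg hp]
  rfl

/-! ### Functions of the free vertices -/

/-- The membership of four of the vertices in the difference. -/
def Bj {N : ℕ} (i : Fin 4 → Fin N) : Phi N where
  F := fun H χ M f g p => jv (JJ H χ M f g) (p ∘ i)
  B := 1
  h0 := fun _ _ _ _ _ _ => jv_nonneg _ _
  hB := fun _ _ _ _ _ _ => by exact_mod_cast jv_le_one _ _

/-- A function of the visible data with values `0` and `1`. -/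
def Bd (P : ParX) {N : ℕ} (b : WD N → Bool) : Phi N where
  F := fun H χ M f g p => ((b (wd P H χ M f g p)).toNat : ℕ)
  B := 1
  h0 := fun _ _ _ _ _ _ => Int.natCast_nonneg _
  hB := fun _ _ _ _ _ _ => by exact_mod_cast Bool.toNat_le _

/-! ### Markov's inequality at a root -/

section markov
variable (P : ParX) {n : ℕ} (J : Finset (Finset (Fin n)))

/-- The sum over the pairs at a vertex. -/
theorem vs_pairs (x : Fin n) : ∑ y : Fin 1 → Fin n, js (jv J) x (y 0) = vs (jv J) x :=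
  sum_js (jv J) x

/-- The sum over the triples at a pair. -/
theorem js_triples (x y : Fin n) : ∑ z : Fin 1 → Fin n, ts J x y (z 0) = js (jv J) x y := by
  unfold js ts
  rw [sum_app (k := 1) (l := 1)]
  refine Finset.sum_congr rfl fun u _ => Finset.sum_congr rfl fun w _ => ?_
  congr 1

/-- The sum over the triples at a vertex. -/
theorem vs_triples (x : Fin n) :
    ∑ u : Fin 2 → Fin n, ts J x (u 0) (u 1) = vs (jv J) x := by
  rw [← vs_pairs, sum_app (k := 1) (l := 1)]
  refine Finset.sum_congr rfl fun u _ => ?_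
  rw [← js_triples]
  rfl

theorem markP (x y : Fin n) :
    (P.dn : ℤ) * (n : ℤ) ^ 2 * ((mkP P J x y).toNat : ℤ) ≤ P.dd * js (jv J) x y := by
  have h0 : 0 ≤ js (jv J) x y := Finset.sum_nonneg fun w _ => jv_nonneg J _
  unfold mkP Marks.mk
  by_cases h : (P.dn : ℤ) * (n : ℤ) ^ 2 < (P.dd : ℤ) * js (jv J) x y
  · rw [decide_eq_true h]
    simp only [Bool.toNat_true, Nat.cast_one, mul_one]
    exact h.le
  · rw [decide_eq_false h]
    simp only [Bool.toNat_false, Nat.cast_zero, mul_zero]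
    positivity

theorem markT (x y z : Fin n) :
    (P.tn : ℤ) * (n : ℤ) ^ 1 * ((mkT P J x y z).toNat : ℤ) ≤ P.td * ts J x y z := by
  have h0 : 0 ≤ ts J x y z := Finset.sum_nonneg fun w _ => jv_nonneg J _
  unfold mkT
  by_cases h : (P.tn : ℤ) * (n : ℤ) ^ 1 < (P.td : ℤ) * ts J x y z
  · rw [decide_eq_true h]
    simp only [Bool.toNat_true, Nat.cast_one, mul_one]
    exact h.le
  · rw [decide_eq_false h]
    simp only [Bool.toNat_false, Nat.cast_zero, mul_zero]
    positivity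

theorem markV (x : Fin n) :
    (P.vn : ℤ) * (n : ℤ) ^ 3 * ((mkV P J x).toNat : ℤ) ≤ P.vd * vs (jv J) x := by
  have h0 : 0 ≤ vs (jv J) x := Finset.sum_nonneg fun w _ => jv_nonneg J _
  unfold mkV
  by_cases h : (P.vn : ℤ) * (n : ℤ) ^ 3 < (P.vd : ℤ) * vs (jv J) x
  · rw [decide_eq_true h]
    simp only [Bool.toNat_true, Nat.cast_one, mul_one]
    exact h.le
  · rw [decide_eq_false h]
    simp only [Bool.toNat_false, Nat.cast_zero, mul_zero]
    positivity

theorem markB (x : Fin n) :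
    (P.bn : ℤ) * (n : ℤ) ^ 1 * ((mkB P J x).toNat : ℤ) ≤ P.bd * bs P J x := by
  have h0 : 0 ≤ bs P J x := Finset.sum_nonneg fun w _ => Int.natCast_nonneg _
  unfold mkB
  by_cases h : (P.bn : ℤ) * (n : ℤ) ^ 1 < (P.bd : ℤ) * bs P J x
  · rw [decide_eq_true h]
    simp only [Bool.toNat_true, Nat.cast_one, mul_one]
    exact h.le
  · rw [decide_eq_false h]
    simp only [Bool.toNat_false, Nat.cast_zero, mul_zero]
    positivity

theorem markov_cancel {n' a S A B : ℤ} (k : ℕ) (hn : 0 < n') (h1 : a * n' ^ k * S ≤ A)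
    (h2 : A ≤ B * n' ^ k) : a * S ≤ B := by
  have hp : (0 : ℤ) < n' ^ k := by positivity
  have h3 : n' ^ k * (a * S) ≤ n' ^ k * B := by
    calc n' ^ k * (a * S) = a * n' ^ k * S := by ring
      _ ≤ A := h1
      _ ≤ B * n' ^ k := h2
      _ = n' ^ k * B := by ring
  exact le_of_mul_le_mul_left h3 hp

theorem pos_of_fin {n : ℕ} (x : Fin n) : (0 : ℤ) < (n : ℤ) := by
  exact_mod_cast lt_of_le_of_lt (Nat.zero_le _) x.isLt

/-- An unmarked vertex is in few marked pairs. -/
theorem unV_P (x : Fin n) (h : mkV P J x = false) :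
    ((P.vd * P.dn : ℕ) : ℤ) * ∑ y : Fin 1 → Fin n, ((mkP P J x (y 0)).toNat : ℤ) ≤
      ((P.vn * P.dd : ℕ) : ℤ) * (n : ℤ) ^ 1 := by
  unfold mkV at h
  rw [decide_eq_false_iff_not, not_lt] at h
  have h1 : (P.dn : ℤ) * (n : ℤ) ^ 2 * ∑ y : Fin 1 → Fin n, ((mkP P J x (y 0)).toNat : ℤ) ≤
      P.dd * vs (jv J) x := by
    rw [← vs_pairs, Finset.mul_sum, Finset.mul_sum]
    exact Finset.sum_le_sum fun y _ => markP P J x (y 0)
  have h2 : (P.vd * P.dn : ℤ) * ∑ y : Fin 1 → Fin n, ((mkP P J x (y 0)).toNat : ℤ) ≤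
      P.vn * P.dd * n := by
    refine markov_cancel (n' := (n : ℤ)) (A := P.vd * (P.dd * vs (jv J) x)) 2 (pos_of_fin x) ?_ ?_
    · calc (P.vd * P.dn : ℤ) * (n : ℤ) ^ 2 *
            ∑ y : Fin 1 → Fin n, ((mkP P J x (y 0)).toNat : ℤ) =
          P.vd * ((P.dn : ℤ) * (n : ℤ) ^ 2 *
            ∑ y : Fin 1 → Fin n, ((mkP P J x (y 0)).toNat : ℤ)) := by ring
        _ ≤ P.vd * (P.dd * vs (jv J) x) := mul_le_mul_of_nonneg_left h1 (Int.natCast_nonneg _)
    · calc (P.vd : ℤ) * (P.dd * vs (jv J) x) = P.dd * (P.vd * vs (jv J) x) := by ring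
        _ ≤ P.dd * (P.vn * (n : ℤ) ^ 3) := mul_le_mul_of_nonneg_left h (Int.natCast_nonneg _)
        _ = P.vn * P.dd * n * (n : ℤ) ^ 2 := by ring
  push_cast
  rw [pow_one]
  exact h2

/-- An unmarked vertex is in few marked triples. -/
theorem unV_T (x : Fin n) (h : mkV P J x = false) :
    ((P.vd * P.tn : ℕ) : ℤ) * ∑ u : Fin 2 → Fin n, ((mkT P J x (u 0) (u 1)).toNat : ℤ) ≤
      ((P.vn * P.td : ℕ) : ℤ) * (n : ℤ) ^ 2 := by
  unfold mkV at h
  rw [decide_eq_false_iff_not, not_lt] at h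
  have h1 : (P.tn : ℤ) * (n : ℤ) ^ 1 * ∑ u : Fin 2 → Fin n, ((mkT P J x (u 0) (u 1)).toNat : ℤ) ≤
      P.td * vs (jv J) x := by
    rw [← vs_triples, Finset.mul_sum, Finset.mul_sum]
    exact Finset.sum_le_sum fun u _ => markT P J x (u 0) (u 1)
  have h2 : (P.vd * P.tn : ℤ) * ∑ u : Fin 2 → Fin n, ((mkT P J x (u 0) (u 1)).toNat : ℤ) ≤
      P.vn * P.td * (n : ℤ) ^ 2 := by
    refine markov_cancel (n' := (n : ℤ)) (A := P.vd * (P.td * vs (jv J) x)) 1 (pos_of_fin x) ?_ ?_
    · calc (P.vd * P.tn : ℤ) * (n : ℤ) ^ 1 *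
            ∑ u : Fin 2 → Fin n, ((mkT P J x (u 0) (u 1)).toNat : ℤ) =
          P.vd * ((P.tn : ℤ) * (n : ℤ) ^ 1 *
            ∑ u : Fin 2 → Fin n, ((mkT P J x (u 0) (u 1)).toNat : ℤ)) := by ring
        _ ≤ P.vd * (P.td * vs (jv J) x) := mul_le_mul_of_nonneg_left h1 (Int.natCast_nonneg _)
    · calc (P.vd : ℤ) * (P.td * vs (jv J) x) = P.td * (P.vd * vs (jv J) x) := by ring
        _ ≤ P.td * (P.vn * (n : ℤ) ^ 3) := mul_le_mul_of_nonneg_left h (Int.natCast_nonneg _)
        _ = P.vn * P.td * (n : ℤ) ^ 2 * (n : ℤ) ^ 1 := by ring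
  push_cast
  exact h2

/-- An unmarked pair is in few marked triples. -/
theorem unP_T (x y : Fin n) (h : mkP P J x y = false) :
    ((P.dd * P.tn : ℕ) : ℤ) * ∑ z : Fin 1 → Fin n, ((mkT P J x y (z 0)).toNat : ℤ) ≤
      ((P.dn * P.td : ℕ) : ℤ) * (n : ℤ) ^ 1 := by
  unfold mkP Marks.mk at h
  rw [decide_eq_false_iff_not, not_lt] at h
  have h1 : (P.tn : ℤ) * (n : ℤ) ^ 1 * ∑ z : Fin 1 → Fin n, ((mkT P J x y (z 0)).toNat : ℤ) ≤
      P.td * js (jv J) x y := by
    rw [← js_triples, Finset.mul_sum, Finset.mul_sum]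
    exact Finset.sum_le_sum fun z _ => markT P J x y (z 0)
  have h2 : (P.dd * P.tn : ℤ) * ∑ z : Fin 1 → Fin n, ((mkT P J x y (z 0)).toNat : ℤ) ≤
      P.dn * P.td * n := by
    refine markov_cancel (n' := (n : ℤ)) (A := P.dd * (P.td * js (jv J) x y)) 1
      (pos_of_fin x) ?_ ?_
    · calc (P.dd * P.tn : ℤ) * (n : ℤ) ^ 1 *
            ∑ z : Fin 1 → Fin n, ((mkT P J x y (z 0)).toNat : ℤ) =
          P.dd * ((P.tn : ℤ) * (n : ℤ) ^ 1 *
            ∑ z : Fin 1 → Fin n, ((mkT P J x y (z 0)).toNat : ℤ)) := by ring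
        _ ≤ P.dd * (P.td * js (jv J) x y) := mul_le_mul_of_nonneg_left h1 (Int.natCast_nonneg _)
    · calc (P.dd : ℤ) * (P.td * js (jv J) x y) = P.td * (P.dd * js (jv J) x y) := by ring
        _ ≤ P.td * (P.dn * (n : ℤ) ^ 2) := mul_le_mul_of_nonneg_left h (Int.natCast_nonneg _)
        _ = P.dn * P.td * n * (n : ℤ) ^ 1 := by ring
  push_cast
  rw [pow_one]
  exact h2

end markov

end Pool.Agent.Lib.MP_afdd4d_co.K9.Star
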