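import Pool.Agent.Lib.MP_afdd4d_co.K9.VBest

/-!
# Changes of a reference structure of smallest cost
-/

namespace Pool.Agent.Lib.MP_afdd4d_co.K9.Star

open Finset K8
open Pool.Agent.Lib.MP_afdd4d_co.K9.Marks

/-! ### The change on four vertices -/

section fourx

/-- The change of the value on four vertices for a change of the graph and of the 3-graphs. -/
def fourX {V : Type*} [DecidableEq V] (M : V → V → Bool) (f g : Finset V → Bool)
    (c0 c1 c2 c3 : Bool) (p0 p1 p2 p3 : V) : Bool :=
  match c0, c1, c2, c3 with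
  | false, false, false, false =>
    ((f {p1, p2, p3} ^^ f {p0, p2, p3}) ^^ f {p0, p1, p3}) ^^ f {p0, p1, p2}
  | false, false, false, true => f {p0, p1, p2}
  | false, false, true, false => f {p0, p1, p3}
  | false, true, false, false => f {p0, p2, p3}
  | true, false, false, false => f {p1, p2, p3}
  | false, false, true, true => ((M p0 p2 ^^ M p0 p3) ^^ M p1 p2) ^^ M p1 p3
  | false, true, false, true => ((M p0 p1 ^^ M p0 p3) ^^ M p2 p1) ^^ M p2 p3
  | false, true, true, false => ((M p0 p1 ^^ M p0 p2) ^^ M p3 p1) ^^ M p3 p2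
  | true, false, false, true => ((M p1 p0 ^^ M p1 p3) ^^ M p2 p0) ^^ M p2 p3
  | true, false, true, false => ((M p1 p0 ^^ M p1 p2) ^^ M p3 p0) ^^ M p3 p2
  | true, true, false, false => ((M p2 p0 ^^ M p2 p1) ^^ M p3 p0) ^^ M p3 p1
  | false, true, true, true => g {p1, p2, p3}
  | true, false, true, true => g {p0, p2, p3}
  | true, true, false, true => g {p0, p1, p3}
  | true, true, true, false => g {p0, p1, p2}
  | true, true, true, true =>
    ((g {p1, p2, p3} ^^ g {p0, p2, p3}) ^^ g {p0, p1, p3}) ^^ g {p0, p1, p2}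

theorem xor_four : ∀ a b c d a' b' c' d' : Bool,
    ((((a ^^ a') ^^ (b ^^ b')) ^^ (c ^^ c')) ^^ (d ^^ d')) =
      ((((a ^^ b) ^^ c) ^^ d) ^^ (((a' ^^ b') ^^ c') ^^ d')) := by decide

theorem not_xor' : ∀ a b : Bool, (!(a ^^ b)) = ((!a) ^^ b) := by decide

theorem four_xor {V : Type*} [DecidableEq V] (M M' : V → V → Bool) (f g f' g' : Finset V → Bool)
    (c0 c1 c2 c3 : Bool) (p0 p1 p2 p3 : V) :
    four (fun a b => M a b ^^ M' a b) (fun T => f T ^^ f' T) (fun T => g T ^^ g' T) c0 c1 c2 c3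
      p0 p1 p2 p3 = (four M f g c0 c1 c2 c3 p0 p1 p2 p3 ^^ fourX M' f' g' c0 c1 c2 c3 p0 p1 p2 p3) := by
  cases c0 <;> cases c1 <;> cases c2 <;> cases c3 <;>
    first
      | exact not_xor' _ _
      | exact xor_four _ _ _ _ _ _ _ _

end fourx

/-- The changes that agree on the four vertices. -/
theorem fourX_congr {V : Type*} [DecidableEq V] {M : V → V → Bool} {f g : Finset V → Bool}
    (c0 c1 c2 c3 : Bool) (p0 p1 p2 p3 : V) {W : Type*} [DecidableEq W] {m : W → W → Bool}
    {a b : Finset W → Bool} (s : W → V) (q0 q1 q2 q3 : W) (h0 : s q0 = p0) (h1 : s q1 = p1)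
    (h2 : s q2 = p2) (h3 : s q3 = p3) (hm : ∀ x y : W, M (s x) (s y) = m x y)
    (hf : ∀ T : Finset W, f (T.image s) = a T) (hg : ∀ T : Finset W, g (T.image s) = b T) :
    fourX M f g c0 c1 c2 c3 p0 p1 p2 p3 = fourX m a b c0 c1 c2 c3 q0 q1 q2 q3 := by
  subst h0 h1 h2 h3
  have h : ∀ x y z : W, ({s x, s y, s z} : Finset V) = ({x, y, z} : Finset W).image s := by
    intro x y z
    simp only [Finset.image_insert, Finset.image_singleton]
  unfold fourX
  simp only [h, hm, hf, hg]

/-! ### The global change with two roots -/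

/-- A rule for a change of the graph and of the 3-graphs with two roots. -/
structure Rule2 where
  m : Bool → Bool → Bool → Bool → Bool
  f : Bool → Bool → Bool → Bool → Bool → Bool → Bool
  g : Bool → Bool → Bool → Bool → Bool → Bool → Bool

section rule
variable {n : ℕ} (R : Rule2) (H G : Finset (Finset (Fin n))) (χ : Fin n → Bool)

/-- The change of the graph. -/
def Rule2.dm (r s a b : Fin n) : Bool :=
  R.m (χ r) (χ s) (mE H {r, s, a, b}) (mE G {r, s, a, b})

/-- The change of the first 3-graph. -/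
def Rule2.df (r s : Fin n) (T : Finset (Fin n)) : Bool :=
  R.f (χ r) (χ s) (mE H (insert r T)) (mE G (insert r T)) (mE H (insert s T)) (mE G (insert s T))

/-- The change of the second 3-graph. -/
def Rule2.dg (r s : Fin n) (T : Finset (Fin n)) : Bool :=
  R.g (χ r) (χ s) (mE H (insert r T)) (mE G (insert r T)) (mE H (insert s T)) (mE G (insert s T))

/-- The new reference structure. -/
def Rule2.gi (M : Fin n → Fin n → Bool) (f g : Finset (Fin n) → Bool) (r s : Fin n) :
    Finset (Finset (Fin n)) :=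
  gir χ (fun a b => M a b ^^ R.dm H (gir χ M f g) χ r s a b)
    (fun T => f T ^^ R.df H (gir χ M f g) χ r s T) (fun T => g T ^^ R.dg H (gir χ M f g) χ r s T)

/-- The change on a window. -/
def Rule2.win (e r : Finset (Fin 6) → Bool) (c : Fin 6 → Bool) : Bool :=
  fourX (fun a b => R.m (c 0) (c 1) (e {0, 1, a, b}) (r {0, 1, a, b}))
    (fun T => R.f (c 0) (c 1) (e (insert 0 T)) (r (insert 0 T)) (e (insert 1 T)) (r (insert 1 T)))
    (fun T => R.g (c 0) (c 1) (e (insert 0 T)) (r (insert 0 T)) (e (insert 1 T)) (r (insert 1 T)))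
    (c 2) (c 3) (c 4) (c 5) 2 3 4 5

theorem Rule2.win_eq (M : Fin n → Fin n → Bool) (f g : Finset (Fin n) → Bool) (t : Fin 6 → Fin n)
    (ht : Function.Injective t) :
    zb (R.gi H χ M f g (t 0) (t 1)) t {2, 3, 4, 5} = (zb (gir χ M f g) t {2, 3, 4, 5} ^^
      R.win (zb H t) (zb (gir χ M f g) t) (fun i => χ (t i))) := by
  unfold Rule2.gi
  rw [zb_gir_four _ _ _ _ t ht 2 3 4 5 (by decide), zb_gir_four _ _ _ _ t ht 2 3 4 5 (by decide),
    four_xor]
  congr 1
  unfold Rule2.win
  refine fourX_congr _ _ _ _ _ _ _ _ t 2 3 4 5 rfl rfl rfl rfl (fun x y => ?_) (fun T => ?_)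
    fun T => ?_
  · unfold Rule2.dm
    rw [zb_four, zb_four]
  · unfold Rule2.df
    rw [zb_eq, zb_eq]
    simp only [Finset.image_insert]
  · unfold Rule2.dg
    rw [zb_eq, zb_eq]
    simp only [Finset.image_insert]

end rule

/-! ### The terms -/

section terms
variable {n : ℕ}

/-- The term of a global change: a multiplier of the roots and the change of the distance. -/
def mvG (R : Rule2) (μ : Mu 2) (dn dd : ℕ) (H : Finset (Finset (Fin n))) (χ : Fin n → Bool)
    (M : Fin n → Fin n → Bool) (f g : Finset (Fin n) → Bool) (p : Fin 6 → Fin n) : ℤ :=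
  μ.pt (symmDiff H (gir χ M f g)) χ dn dd (p ∘ Fin.castAdd 4) *
    (jv (symmDiff H (R.gi H χ M f g (p 0) (p 1))) ![p 2, p 3, p 4, p 5] -
      jv (symmDiff H (gir χ M f g)) ![p 2, p 3, p 4, p 5])

theorem mvG_tot (R : Rule2) (μ : Mu 2) (dn dd : ℕ) {H : Finset (Finset (Fin n))}
    (h4 : ∀ e ∈ H, e.card = 4) {χ : Fin n → Bool} {M : Fin n → Fin n → Bool}
    {f g : Finset (Fin n) → Bool} (hB : BestM H χ M f g) :
    0 ≤ ∑ p, mvG R μ dn dd H χ M f g p := by
  rw [sum24]
  refine Finset.sum_nonneg fun s _ => ?_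
  have e : ∀ u : Fin 4 → Fin n, mvG R μ dn dd H χ M f g (Fin.append s u) =
      μ.pt (symmDiff H (gir χ M f g)) χ dn dd s *
        (jv (symmDiff H (R.gi H χ M f g (s 0) (s 1))) u - jv (symmDiff H (gir χ M f g)) u) := by
    intro u
    unfold mvG
    have e2 : (![(Fin.append s u : Fin 6 → Fin n) 2, (Fin.append s u : Fin 6 → Fin n) 3,
        (Fin.append s u : Fin 6 → Fin n) 4, (Fin.append s u : Fin 6 → Fin n) 5] :
        Fin 4 → Fin n) = u := by
      funext i
      fin_cases i <;> rfl
    have e3 : (Fin.append s u : Fin 6 → Fin n) ∘ Fin.castAdd 4 = s := append_castAdd s u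
    have e0 : (Fin.append s u : Fin 6 → Fin n) 0 = s 0 := rfl
    have e1 : (Fin.append s u : Fin 6 → Fin n) 1 = s 1 := rfl
    rw [e2, e3, e0, e1]
  rw [Finset.sum_congr rfl fun u _ => e u, ← Finset.mul_sum]
  refine mul_nonneg (μ.pt_nonneg _ _ _ _ _) ?_
  have h2 : ∀ e ∈ symmDiff H (R.gi H χ M f g (s 0) (s 1)), e.card = 4 :=
    symmDiff_card4 h4 _ _ _ _
  rw [Finset.sum_sub_distrib, jv_tot_eq _ h2, jv_tot_eq _ (symmDiff_card4 h4 _ _ _ _)]
  have h1 : ((symmDiff H (gir χ M f g)).card : ℤ) ≤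
      ((symmDiff H (R.gi H χ M f g (s 0) (s 1))).card : ℤ) := by
    exact_mod_cast hB _ _ _
  linarith

theorem mvG_le (R : Rule2) (μ : Mu 2) (dn dd : ℕ) (H : Finset (Finset (Fin n)))
    (χ : Fin n → Bool) (M : Fin n → Fin n → Bool) (f g : Finset (Fin n) → Bool)
    (p : Fin 6 → Fin n) : mvG R μ dn dd H χ M f g p ≤ (μ.B : ℤ) := by
  unfold mvG
  have h1 := jv_le_one (symmDiff H (R.gi H χ M f g (p 0) (p 1))) ![p 2, p 3, p 4, p 5]
  have h2 := jv_nonneg (symmDiff H (gir χ M f g)) ![p 2, p 3, p 4, p 5]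
  calc _ ≤ μ.pt (symmDiff H (gir χ M f g)) χ dn dd (p ∘ Fin.castAdd 4) * 1 :=
        mul_le_mul_of_nonneg_left (by linarith) (μ.pt_nonneg _ _ _ _ _)
    _ ≤ μ.B := by rw [mul_one]; exact μ.pt_le _ _ _ _ _

/-- The value of the term of a global change on a window. -/
def mvGv (R : Rule2) (μ : Mu 2) (c : Fin 6 → Bool) (e r : Finset (Fin 6) → Bool)
    (b : Fin 6 → Fin 6 → Bool) : ℤ :=
  μ.w (Fin.castAdd 4) c (fun T => e T ^^ r T) b *
    ((((e {2, 3, 4, 5} ^^ (r {2, 3, 4, 5} ^^ R.win e r c)).toNat : ℕ) : ℤ) -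
      ((e {2, 3, 4, 5} ^^ r {2, 3, 4, 5}).toNat : ℕ))

theorem wA_sd (H G : Finset (Finset (Fin n))) (t : Fin 6 → Fin n) (T : Finset (Fin 6)) :
    wA (symmDiff H G) t T = (zb H t T ^^ zb G t T) := by
  rw [zb_dec, zb_dec]
  unfold wA
  by_cases h1 : T.image t ∈ H <;> by_cases h2 : T.image t ∈ G <;>
    simp [Finset.mem_symmDiff, h1, h2]

theorem jv_win4 (H G : Finset (Finset (Fin n))) (t : Fin 6 → Fin n) (ht : Function.Injective t)
    (a b c d : Fin 6) (h : Function.Injective ![a, b, c, d]) :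
    jv (symmDiff H G) ![t a, t b, t c, t d] =
      ((zb H t {a, b, c, d} ^^ zb G t {a, b, c, d}).toNat : ℕ) := by
  have e1 : (![t a, t b, t c, t d] : Fin 4 → Fin n) = t ∘ ![a, b, c, d] := by
    funext x
    fin_cases x <;> rfl
  have e2 : (univ : Finset (Fin 4)).image ![a, b, c, d] = {a, b, c, d} := by
    ext y
    simp only [Finset.mem_insert, Finset.mem_singleton, Finset.mem_image, Finset.mem_univ,
      true_and, Fin.exists_fin_succ, Matrix.cons_val_zero, Matrix.cons_val_succ]
    simp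
    tauto
  rw [e1, jv_win (symmDiff H G) t ht _ h, e2, wA_sd]

theorem wA_eq (H : Finset (Finset (Fin n))) (χ : Fin n → Bool) (M : Fin n → Fin n → Bool)
    (f g : Finset (Fin n) → Bool) (t : Fin 6 → Fin n) :
    wA (symmDiff H (gir χ M f g)) t = fun T => zb H t T ^^ zb (gir χ M f g) t T := by
  funext T
  exact wA_symm H χ M f g t T

theorem mvG_win (R : Rule2) (μ : Mu 2) (dn dd : ℕ) (H : Finset (Finset (Fin n)))
    (χ : Fin n → Bool) (M : Fin n → Fin n → Bool) (f g : Finset (Fin n) → Bool)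
    (t : Fin 6 → Fin n) (ht : Function.Injective t) :
    mvG R μ dn dd H χ M f g t = mvGv R μ (fun i => χ (t i)) (zb H t) (zb (gir χ M f g) t)
      (wb (symmDiff H (gir χ M f g)) dn dd t) := by
  unfold mvG mvGv
  rw [jv_win4 H _ t ht 2 3 4 5 (by decide), jv_win4 H _ t ht 2 3 4 5 (by decide),
    R.win_eq H χ M f g t ht]
  have e : μ.pt (symmDiff H (gir χ M f g)) χ dn dd (t ∘ Fin.castAdd 4) = _ :=
    Mu.pt_comp μ (symmDiff H (gir χ M f g)) χ dn dd t (Fin.castAdd 4)
  rw [e, wA_eq]

end terms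

/-! ### Changes at the quadruples that contain given vertices -/

section loc
variable {n : ℕ}

/-- The change of the distance for a change at the quadruples that contain the roots. -/
theorem root_ge {k : ℕ} (l : ℕ) (hkl : k + l = 4) (s : Fin k → Fin n) (hs : Function.Injective s)
    {H G G' : Finset (Finset (Fin n))} (hH : ∀ e ∈ H, e.card = 4) (hG : ∀ e ∈ G, e.card = 4)
    (hG' : ∀ e ∈ G', e.card = 4) (h : (symmDiff H G).card ≤ (symmDiff H G').card)
    (hd : ∀ Q : Finset (Fin n), Q.card = 4 → ¬ univ.image s ⊆ Q → mE G Q = mE G' Q) :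
    0 ≤ ∑ u : Fin l → Fin n, (if Function.Injective (Fin.append s u) then
      (fun Q : Finset (Fin n) => if mE G Q = mE G' Q then (0 : ℤ) else
        1 - 2 * ((mE (symmDiff H G) Q).toNat : ℕ)) (univ.image (Fin.append s u)) else 0) := by
  rw [sum_root l s hs (fun Q : Finset (Fin n) => if mE G Q = mE G' Q then (0 : ℤ) else
        1 - 2 * ((mE (symmDiff H G) Q).toNat : ℕ))]
  refine mul_nonneg (Int.natCast_nonneg _) ?_
  have h1 := sum_diff_ge H G G' hH hG hG' h
  rw [hkl]
  refine le_trans h1 (le_of_eq (Finset.sum_congr rfl fun Q hQ => ?_))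
  by_cases hc : univ.image s ⊆ Q
  · rw [if_pos hc]
  · rw [if_neg hc, if_pos (hd Q (Finset.mem_powersetCard.mp hQ).2 hc)]

theorem image_vec3 (a b c : Fin n) :
    (univ : Finset (Fin 3)).image ![a, b, c] = {a, b, c} := by
  ext y
  simp only [Finset.mem_insert, Finset.mem_singleton, Finset.mem_image, Finset.mem_univ,
    true_and, Fin.exists_fin_succ, Matrix.cons_val_zero, Matrix.cons_val_succ]
  simp
  tauto

theorem image_vec2 (a b : Fin n) : (univ : Finset (Fin 2)).image ![a, b] = {a, b} := by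
  ext y
  simp only [Finset.mem_insert, Finset.mem_singleton, Finset.mem_image, Finset.mem_univ,
    true_and, Fin.exists_fin_succ, Matrix.cons_val_zero, Matrix.cons_val_succ]
  simp
  tauto

theorem image_vec4 (a b c d : Fin n) :
    (univ : Finset (Fin 4)).image ![a, b, c, d] = {a, b, c, d} := by
  ext y
  simp only [Finset.mem_insert, Finset.mem_singleton, Finset.mem_image, Finset.mem_univ,
    true_and, Fin.exists_fin_succ, Matrix.cons_val_zero, Matrix.cons_val_succ]
  simp
  tauto

theorem append31 (a b c : Fin n) (u : Fin 1 → Fin n) :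
    (Fin.append ![a, b, c] u : Fin (3 + 1) → Fin n) = ![a, b, c, u 0] := by
  funext i
  fin_cases i <;> rfl

theorem append22 (a b : Fin n) (u : Fin 2 → Fin n) :
    (Fin.append ![a, b] u : Fin (2 + 2) → Fin n) = ![a, b, u 0, u 1] := by
  funext i
  fin_cases i <;> rfl

theorem append13 (a : Fin n) (u : Fin 3 → Fin n) :
    (Fin.append ![a] u : Fin (1 + 3) → Fin n) = ![a, u 0, u 1, u 2] := by
  funext i
  fin_cases i <;> rfl

/-- A reference structure on four vertices. -/
theorem mE_gir_four (χ : Fin n → Bool) (M : Fin n → Fin n → Bool) (f g : Finset (Fin n) → Bool)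
    (a b c d : Fin n) (h : Function.Injective ![a, b, c, d]) :
    mE (gir χ M f g) {a, b, c, d} = four M f g (χ a) (χ b) (χ c) (χ d) a b c d := by
  have h2 := girB_four χ M f g ![a, b, c, d] h
  have h3 : ({a, b, c, d} : Finset (Fin n)).card = 4 := by
    rw [← image_vec4, Finset.card_image_of_injective _ h, Finset.card_univ, Fintype.card_fin]
  rw [mE_gir χ M f g _ h3]
  exact h2

/-! ### The change of a triple -/

/-- The change at one triple of one colour. -/
theorem flip_ge {H : Finset (Finset (Fin n))} (h4 : ∀ e ∈ H, e.card = 4) {χ : Fin n → Bool}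
    {M : Fin n → Fin n → Bool} {f g : Finset (Fin n) → Bool} (hB : BestM H χ M f g)
    (a b c : Fin n) (hi : Function.Injective ![a, b, c]) (h1 : χ a = χ b) (h2 : χ b = χ c) :
    0 ≤ ∑ u : Fin 1 → Fin n, (if Function.Injective ![a, b, c, u 0] then
      1 - 2 * ((mE (symmDiff H (gir χ M f g)) {a, b, c, u 0}).toNat : ℤ) else 0) := by
  classical
  set T : Finset (Fin n) := {a, b, c} with hT
  set G' : Finset (Finset (Fin n)) := gir χ (fun x y => M x y ^^ false)
    (fun X => f X ^^ decide (X = T)) (fun X => g X ^^ decide (X = T)) with hG'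
  have h3 := root_ge 1 rfl ![a, b, c] hi h4 (gir_card χ M f g) (gir_card χ _ _ _ :
    ∀ e ∈ G', e.card = 4) (hB _ _ _) (fun Q hQ hs => by
      rw [image_vec3] at hs
      rw [mE_gir _ _ _ _ _ hQ, mE_gir _ _ _ _ _ hQ]
      refine girB_congr (fun v _ => rfl) (fun x _ y _ => by rw [Bool.xor_false])
        (fun X hX => ?_) fun X hX => ?_
      · have hne : X ≠ T := fun h => hs (by rw [← hT, ← h]; exact hX)
        show f X = (f X ^^ decide (X = T))
        rw [decide_eq_false hne, Bool.xor_false]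
      · have hne : X ≠ T := fun h => hs (by rw [← hT, ← h]; exact hX)
        show g X = (g X ^^ decide (X = T))
        rw [decide_eq_false hne, Bool.xor_false])
  refine le_trans h3 (le_of_eq (Finset.sum_congr rfl fun u _ => ?_))
  rw [append31]
  by_cases hu : Function.Injective ![a, b, c, u 0]
  · rw [if_pos hu, if_pos hu, image_vec4]
    have hne : mE (gir χ M f g) {a, b, c, u 0} ≠ mE G' {a, b, c, u 0} := by
      rw [hG', mE_gir_four _ _ _ _ _ _ _ _ hu, mE_gir_four _ _ _ _ _ _ _ _ hu, four_xor]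
      have hd : u 0 ∉ T := by
        intro hm
        rw [hT] at hm
        simp only [Finset.mem_insert, Finset.mem_singleton] at hm
        rcases hm with hm | hm | hm
        · exact absurd (hu (a₁ := 3) (a₂ := 0) hm) (by decide)
        · exact absurd (hu (a₁ := 3) (a₂ := 1) hm) (by decide)
        · exact absurd (hu (a₁ := 3) (a₂ := 2) hm) (by decide)
      have e1 : ∀ x y : Fin n, decide (({x, y, u 0} : Finset (Fin n)) = T) = false := by
        intro x y
        refine decide_eq_false fun h => hd ?_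
        rw [← h]
        simp
      have e2 : decide (({a, b, c} : Finset (Fin n)) = T) = true := decide_eq_true rfl
      have e3 : fourX (fun _ _ : Fin n => false) (fun X => decide (X = T))
          (fun X => decide (X = T)) (χ a) (χ b) (χ c) (χ (u 0)) a b c (u 0) = true := by
        rw [h1, h2]
        unfold fourX
        cases χ c <;> cases χ (u 0) <;> simp only [e1, e2] <;> rfl
      rw [e3]
      cases four M f g (χ a) (χ b) (χ c) (χ (u 0)) a b c (u 0) <;> decide
    show (if mE (gir χ M f g) {a, b, c, u 0} = mE G' {a, b, c, u 0} then (0 : ℤ) else _) = _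
    rw [if_neg hne]
  · rw [if_neg hu, if_neg hu]

/-! ### The change of an entry of the graph -/

/-- The change at one entry of the graph. -/
theorem entry_ge {H : Finset (Finset (Fin n))} (h4 : ∀ e ∈ H, e.card = 4) {χ : Fin n → Bool}
    {M : Fin n → Fin n → Bool} {f g : Finset (Fin n) → Bool} (hB : BestM H χ M f g)
    (a b : Fin n) (h1 : χ a = false) (h2 : χ b = true) :
    0 ≤ ∑ u : Fin 2 → Fin n, (if Function.Injective ![a, b, u 0, u 1] ∧ χ (u 0) ≠ χ (u 1) then
      1 - 2 * ((mE (symmDiff H (gir χ M f g)) {a, b, u 0, u 1}).toNat : ℤ) else 0) := by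
  classical
  have hab : a ≠ b := by
    rintro rfl
    rw [h1] at h2
    exact absurd h2 (by decide)
  have hi : Function.Injective ![a, b] := by
    intro i j hij
    match i, j with
    | 0, 0 => rfl
    | 1, 1 => rfl
    | 0, 1 => exact absurd hij hab
    | 1, 0 => exact absurd hij.symm hab
  set G' : Finset (Finset (Fin n)) := gir χ (fun x y => M x y ^^ decide (x = a ∧ y = b))
    (fun X => f X ^^ false) (fun X => g X ^^ false) with hG'
  have h3 := root_ge 2 rfl ![a, b] hi h4 (gir_card χ M f g) (gir_card χ _ _ _ :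
    ∀ e ∈ G', e.card = 4) (hB _ _ _) (fun Q hQ hs => by
      rw [image_vec2] at hs
      rw [mE_gir _ _ _ _ _ hQ, mE_gir _ _ _ _ _ hQ]
      refine girB_congr (fun v _ => rfl) (fun x hx y hy => ?_)
        (fun X _ => by rw [Bool.xor_false]) fun X _ => by rw [Bool.xor_false]
      have hne : ¬ (x = a ∧ y = b) := by
        rintro ⟨rfl, rfl⟩
        apply hs
        intro z hz
        rw [Finset.mem_insert, Finset.mem_singleton] at hz
        rcases hz with rfl | rfl
        · exact hx
        · exact hy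
      rw [decide_eq_false hne, Bool.xor_false])
  refine le_trans h3 (le_of_eq (Finset.sum_congr rfl fun u _ => ?_))
  rw [append22]
  by_cases hu : Function.Injective ![a, b, u 0, u 1]
  · rw [if_pos hu, image_vec4]
    have h0 : ∀ i j : Fin 4, i ≠ j → (![a, b, u 0, u 1] : Fin 4 → Fin n) i ≠ ![a, b, u 0, u 1] j :=
      fun i j h h' => h (hu h')
    have n1 : u 0 ≠ a := h0 2 0 (by decide)
    have n2 : u 1 ≠ a := h0 3 0 (by decide)
    have n3 : u 0 ≠ b := h0 2 1 (by decide)
    have n4 : u 1 ≠ b := h0 3 1 (by decide)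
    have e3 : mE G' {a, b, u 0, u 1} = (mE (gir χ M f g) {a, b, u 0, u 1} ^^
        decide (χ (u 0) ≠ χ (u 1))) := by
      rw [hG', mE_gir_four _ _ _ _ _ _ _ _ hu, mE_gir_four _ _ _ _ _ _ _ _ hu, four_xor, h1, h2]
      congr 1
      unfold fourX
      cases χ (u 0) <;> cases χ (u 1) <;> simp [n1, n2, n3, n4]
    show (if mE (gir χ M f g) {a, b, u 0, u 1} = mE G' {a, b, u 0, u 1} then (0 : ℤ) else _) = _
    rw [e3]
    by_cases hc : χ (u 0) = χ (u 1)
    · rw [decide_eq_false (fun h => h hc), Bool.xor_false, if_pos rfl, if_neg fun h => h.2 hc]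
    · have hne : ¬ (mE (gir χ M f g) {a, b, u 0, u 1} =
          (mE (gir χ M f g) {a, b, u 0, u 1} ^^ true)) := by
        cases mE (gir χ M f g) {a, b, u 0, u 1} <;> decide
      rw [decide_eq_true hc, if_neg hne, if_pos ⟨hu, hc⟩]
  · rw [if_neg hu, if_neg fun h => hu h.1]

end loc

end Pool.Agent.Lib.MP_afdd4d_co.K9.Star
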