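import Pool.Agent.Lib.MP_afdd4d_co.K9.T1

/-!
# From one vertex at a time to all vertices

`H` is close to Giraud's structure of `χ`, `M`, and for every vertex `x` there are a colour and a row
for which the error at `x` is small. Then the colours and the rows of a few vertices can be changed
so that the error is small at every vertex.
-/

namespace Pool.Agent.Lib.MP_afdd4d_co.K9.Star.VS

open Finset

variable {n : ℕ}

/-- The number of errors at a vertex. -/
def J (x : Fin n) (H : Finset (Finset (Fin n))) (χ : Fin n → Bool) (M : Fin n → Fin n → Bool) : ℕ :=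
  ((symmDiff H (gir χ M (fun _ => false) (fun _ => false))).filter fun Q => x ∈ Q).card

/-- The number of errors at a vertex among the quadruples with two vertices of each colour. -/
def J22 (x : Fin n) (H : Finset (Finset (Fin n))) (χ : Fin n → Bool) (M : Fin n → Fin n → Bool) :
    ℕ :=
  ((symmDiff H (gir χ M (fun _ => false) (fun _ => false))).filter fun Q =>
    x ∈ Q ∧ (Q.filter fun v => χ v = true).card = 2).card

/-- A new row. -/
def updM (M : Fin n → Fin n → Bool) (x : Fin n) (m : Fin n → Bool) : Fin n → Fin n → Bool :=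
  fun u v => if u = x then m v else if v = x then m u else M u v

/-- New rows at the vertices of a set. -/
def updS (M : Fin n → Fin n → Bool) (X : Finset (Fin n)) (m : Fin n → Fin n → Bool) :
    Fin n → Fin n → Bool :=
  fun u v => if u ∈ X then m u v else if v ∈ X then m v u else M u v

/-- New colours at the vertices of a set. -/
def updC (χ : Fin n → Bool) (X : Finset (Fin n)) (k : Fin n → Bool) : Fin n → Bool :=
  fun v => if v ∈ X then k v else χ v

theorem J22_le_J (x : Fin n) (H : Finset (Finset (Fin n))) (χ : Fin n → Bool)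
    (M : Fin n → Fin n → Bool) : J22 x H χ M ≤ J x H χ M := by
  unfold J22 J
  refine Finset.card_le_card fun Q hQ => ?_
  rw [Finset.mem_filter] at hQ ⊢
  exact ⟨hQ.1, hQ.2.1⟩

theorem girB_congr {V : Type*} [DecidableEq V] {χ χ' : V → Bool} {M M' : V → V → Bool}
    {f g : Finset V → Bool} {Q : Finset V} (hχ : ∀ v ∈ Q, χ v = χ' v)
    (hM : ∀ u ∈ Q, ∀ v ∈ Q, M u v = M' u v) : girB χ M f g Q = girB χ' M' f g Q := by
  have hf : ∀ z : Bool, (Q.filter fun v => χ v = z) = Q.filter fun v => χ' v = z := by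
    intro z
    refine Finset.filter_congr fun v hv => ?_
    rw [hχ v hv]
  have hs : ∑ a ∈ Q.filter (fun v => χ' v = false), ∑ b ∈ Q.filter (fun v => χ' v = true),
      K8.bz (M a b) = ∑ a ∈ Q.filter (fun v => χ' v = false),
        ∑ b ∈ Q.filter (fun v => χ' v = true), K8.bz (M' a b) := by
    refine Finset.sum_congr rfl fun a ha => Finset.sum_congr rfl fun b hb => ?_
    rw [hM a (Finset.mem_filter.mp ha).1 b (Finset.mem_filter.mp hb).1]
  unfold girB
  rw [hf true, hf false, hs]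

theorem mem_gir_congr {χ χ' : Fin n → Bool} {M M' : Fin n → Fin n → Bool}
    {f g : Finset (Fin n) → Bool} {Q : Finset (Fin n)} (hχ : ∀ v ∈ Q, χ v = χ' v)
    (hM : ∀ u ∈ Q, ∀ v ∈ Q, M u v = M' u v) : Q ∈ gir χ M f g ↔ Q ∈ gir χ' M' f g := by
  unfold gir
  rw [Finset.mem_filter, Finset.mem_filter, girB_congr hχ hM]

theorem mem_symmDiff_congr {χ χ' : Fin n → Bool} {M M' : Fin n → Fin n → Bool}
    {f g : Finset (Fin n) → Bool} {H : Finset (Finset (Fin n))} {Q : Finset (Fin n)}
    (hχ : ∀ v ∈ Q, χ v = χ' v) (hM : ∀ u ∈ Q, ∀ v ∈ Q, M u v = M' u v) :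
    Q ∈ symmDiff H (gir χ M f g) ↔ Q ∈ symmDiff H (gir χ' M' f g) := by
  rw [Finset.mem_symmDiff, Finset.mem_symmDiff, mem_gir_congr hχ hM]

theorem card_four_of_mem {H : Finset (Finset (Fin n))} (hH : ∀ e ∈ H, e.card = 4)
    {χ : Fin n → Bool} {M : Fin n → Fin n → Bool} {f g : Finset (Fin n) → Bool}
    {Q : Finset (Fin n)} (hQ : Q ∈ symmDiff H (gir χ M f g)) : Q.card = 4 := by
  rw [Finset.mem_symmDiff] at hQ
  rcases hQ with hQ | hQ
  · exact hH Q hQ.1
  · exact gir_card χ M f g Q hQ.1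

/-! ### Counting -/

/-- The quadruples at `x` with another vertex in `X`. -/
def near1 (X : Finset (Fin n)) (x : Fin n) : Finset (Finset (Fin n)) :=
  ((univ : Finset (Fin n)).powersetCard 4).filter fun Q => x ∈ Q ∧ ∃ y ∈ X, y ≠ x ∧ y ∈ Q

/-- The quadruples with a vertex in `X`. -/
def near0 (X : Finset (Fin n)) : Finset (Finset (Fin n)) :=
  ((univ : Finset (Fin n)).powersetCard 4).filter fun Q => ∃ y ∈ X, y ∈ Q

theorem near1_card (X : Finset (Fin n)) (x : Fin n) : (near1 X x).card ≤ X.card * n ^ 2 := by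
  classical
  have h1 : near1 X x ⊆ (X ×ˢ (univ : Finset (Fin n)).powersetCard 2).image
      (fun p => insert x (insert p.1 p.2)) := by
    intro Q hQ
    obtain ⟨hQ4, hx, y, hyX, hyx, hyQ⟩ := Finset.mem_filter.mp hQ
    rw [Finset.mem_image]
    refine ⟨(y, (Q.erase x).erase y), ?_, ?_⟩
    · rw [Finset.mem_product, Finset.mem_powersetCard]
      refine ⟨hyX, Finset.subset_univ _, ?_⟩
      have hy' : y ∈ Q.erase x := Finset.mem_erase.mpr ⟨hyx, hyQ⟩
      rw [Finset.card_erase_of_mem hy', Finset.card_erase_of_mem hx,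
        (Finset.mem_powersetCard.mp hQ4).2]
    · have hy' : y ∈ Q.erase x := Finset.mem_erase.mpr ⟨hyx, hyQ⟩
      show insert x (insert y ((Q.erase x).erase y)) = Q
      rw [Finset.insert_erase hy', Finset.insert_erase hx]
  refine (Finset.card_le_card h1).trans (Finset.card_image_le.trans ?_)
  rw [Finset.card_product, Finset.card_powersetCard, Finset.card_univ, Fintype.card_fin]
  exact Nat.mul_le_mul_left _ (Nat.choose_le_pow _ _)

theorem near0_card (X : Finset (Fin n)) : (near0 X).card ≤ X.card * n ^ 3 := by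
  classical
  have h1 : near0 X ⊆ (X ×ˢ (univ : Finset (Fin n)).powersetCard 3).image
      (fun p => insert p.1 p.2) := by
    intro Q hQ
    obtain ⟨hQ4, y, hyX, hyQ⟩ := Finset.mem_filter.mp hQ
    rw [Finset.mem_image]
    refine ⟨(y, Q.erase y), ?_, ?_⟩
    · rw [Finset.mem_product, Finset.mem_powersetCard]
      refine ⟨hyX, Finset.subset_univ _, ?_⟩
      rw [Finset.card_erase_of_mem hyQ, (Finset.mem_powersetCard.mp hQ4).2]
    · exact Finset.insert_erase hyQ
  refine (Finset.card_le_card h1).trans (Finset.card_image_le.trans ?_)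
  rw [Finset.card_product, Finset.card_powersetCard, Finset.card_univ, Fintype.card_fin]
  exact Nat.mul_le_mul_left _ (Nat.choose_le_pow _ _)

theorem sum_J {H : Finset (Finset (Fin n))} (hH : ∀ e ∈ H, e.card = 4) (χ : Fin n → Bool)
    (M : Fin n → Fin n → Bool) :
    ∑ x, J x H χ M = 4 * (symmDiff H (gir χ M (fun _ => false) (fun _ => false))).card := by
  unfold J
  simp_rw [Finset.card_filter]
  rw [Finset.sum_comm, mul_comm, ← smul_eq_mul, ← Finset.sum_const]
  refine Finset.sum_congr rfl fun Q hQ => ?_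
  rw [← Finset.card_filter, Finset.filter_mem_eq_inter, Finset.univ_inter]
  exact card_four_of_mem hH hQ

/-! ### Changing the rows of a set -/

/-- The error of the new structure at a vertex whose row is new. -/
theorem J_upd_mem {H : Finset (Finset (Fin n))} (hH : ∀ e ∈ H, e.card = 4) (χ : Fin n → Bool)
    (M : Fin n → Fin n → Bool) (X : Finset (Fin n)) (k : Fin n → Bool)
    (m : Fin n → Fin n → Bool) {x : Fin n} (hx : x ∈ X) :
    J x H (updC χ X k) (updS M X m) ≤
      J x H (Function.update χ x (k x)) (updM M x (m x)) + X.card * n ^ 2 ∧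
    J22 x H (updC χ X k) (updS M X m) ≤
      J22 x H (Function.update χ x (k x)) (updM M x (m x)) + X.card * n ^ 2 := by
  classical
  have key : ∀ Q : Finset (Fin n), Q.card = 4 → x ∈ Q → Q ∉ near1 X x →
      (∀ v ∈ Q, updC χ X k v = Function.update χ x (k x) v) ∧
      (∀ u ∈ Q, ∀ v ∈ Q, updS M X m u v = updM M x (m x) u v) := by
    intro Q hQ hxQ hnear
    have hX : ∀ y ∈ Q, y ∈ X ↔ y = x := by
      intro y hy
      constructor
      · intro hyX
        by_contra hne
        exact hnear (Finset.mem_filter.mpr ⟨Finset.mem_powersetCard.mpr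
          ⟨Finset.subset_univ _, hQ⟩, hxQ, y, hyX, hne, hy⟩)
      · rintro rfl
        exact hx
    constructor
    · intro v hv
      unfold updC
      by_cases hvx : v = x
      · subst hvx
        simp [hx]
      · rw [if_neg (fun h => hvx ((hX v hv).mp h)), Function.update_of_ne hvx]
    · intro u hu v hv
      unfold updS updM
      by_cases hux : u = x
      · subst hux
        simp [hx]
      · rw [if_neg (fun h => hux ((hX u hu).mp h)), if_neg hux]
        by_cases hvx : v = x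
        · subst hvx
          simp [hx]
        · rw [if_neg (fun h => hvx ((hX v hv).mp h)), if_neg hvx]
  constructor
  · unfold J
    refine le_trans ?_ (Nat.add_le_add_left (near1_card X x) _)
    refine le_trans (Finset.card_le_card ?_) (Finset.card_union_le _ _)
    intro Q hQ
    obtain ⟨hQD, hxQ⟩ := Finset.mem_filter.mp hQ
    have hQ4 := card_four_of_mem hH hQD
    rw [Finset.mem_union]
    by_cases hnear : Q ∈ near1 X x
    · exact Or.inr hnear
    · obtain ⟨k1, k2⟩ := key Q hQ4 hxQ hnear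
      exact Or.inl (Finset.mem_filter.mpr ⟨(mem_symmDiff_congr k1 k2).mp hQD, hxQ⟩)
  · unfold J22
    refine le_trans ?_ (Nat.add_le_add_left (near1_card X x) _)
    refine le_trans (Finset.card_le_card ?_) (Finset.card_union_le _ _)
    intro Q hQ
    obtain ⟨hQD, hxQ, hc⟩ := Finset.mem_filter.mp hQ
    have hQ4 := card_four_of_mem hH hQD
    rw [Finset.mem_union]
    by_cases hnear : Q ∈ near1 X x
    · exact Or.inr hnear
    · obtain ⟨k1, k2⟩ := key Q hQ4 hxQ hnear
      refine Or.inl (Finset.mem_filter.mpr ⟨(mem_symmDiff_congr k1 k2).mp hQD, hxQ, ?_⟩)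
      rw [← hc]
      congr 1
      refine Finset.filter_congr fun v hv => ?_
      rw [k1 v hv]

theorem upd_off {X : Finset (Fin n)} (χ : Fin n → Bool) (M : Fin n → Fin n → Bool)
    (k : Fin n → Bool) (m : Fin n → Fin n → Bool) {Q : Finset (Fin n)}
    (hQ : ∀ y ∈ Q, y ∉ X) :
    (∀ v ∈ Q, updC χ X k v = χ v) ∧ (∀ u ∈ Q, ∀ v ∈ Q, updS M X m u v = M u v) := by
  constructor
  · intro v hv
    unfold updC
    rw [if_neg (hQ v hv)]
  · intro u hu v hv
    unfold updS
    rw [if_neg (hQ u hu), if_neg (hQ v hv)]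

/-- The error of the new structure at a vertex whose row is old. -/
theorem J_upd_notMem {H : Finset (Finset (Fin n))} (hH : ∀ e ∈ H, e.card = 4) (χ : Fin n → Bool)
    (M : Fin n → Fin n → Bool) (X : Finset (Fin n)) (k : Fin n → Bool)
    (m : Fin n → Fin n → Bool) {x : Fin n} (hx : x ∉ X) :
    J x H (updC χ X k) (updS M X m) ≤ J x H χ M + X.card * n ^ 2 := by
  classical
  unfold J
  refine le_trans ?_ (Nat.add_le_add_left (near1_card X x) _)
  refine le_trans (Finset.card_le_card ?_) (Finset.card_union_le _ _)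
  intro Q hQ
  obtain ⟨hQD, hxQ⟩ := Finset.mem_filter.mp hQ
  have hQ4 := card_four_of_mem hH hQD
  rw [Finset.mem_union]
  by_cases hnear : Q ∈ near1 X x
  · exact Or.inr hnear
  · have hX : ∀ y ∈ Q, y ∉ X := by
      intro y hy hyX
      refine hnear (Finset.mem_filter.mpr ⟨Finset.mem_powersetCard.mpr
          ⟨Finset.subset_univ _, hQ4⟩, hxQ, y, hyX, ?_, hy⟩)
      rintro rfl
      exact hx hyX
    obtain ⟨k1, k2⟩ := upd_off χ M k m hX
    exact Or.inl (Finset.mem_filter.mpr ⟨(mem_symmDiff_congr k1 k2).mp hQD, hxQ⟩)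

/-- The distance of the new structure from `H`. -/
theorem dist_upd {H : Finset (Finset (Fin n))} (hH : ∀ e ∈ H, e.card = 4) (χ : Fin n → Bool)
    (M : Fin n → Fin n → Bool) (X : Finset (Fin n)) (k : Fin n → Bool)
    (m : Fin n → Fin n → Bool) :
    (symmDiff H (gir (updC χ X k) (updS M X m) (fun _ => false) (fun _ => false))).card ≤
      (symmDiff H (gir χ M (fun _ => false) (fun _ => false))).card + X.card * n ^ 3 := by
  classical
  refine le_trans ?_ (Nat.add_le_add_left (near0_card X) _)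
  refine le_trans (Finset.card_le_card ?_) (Finset.card_union_le _ _)
  intro Q hQD
  have hQ4 := card_four_of_mem hH hQD
  rw [Finset.mem_union]
  by_cases hnear : Q ∈ near0 X
  · exact Or.inr hnear
  · have hX : ∀ y ∈ Q, y ∉ X := by
      intro y hy hyX
      exact hnear (Finset.mem_filter.mpr ⟨Finset.mem_powersetCard.mpr
          ⟨Finset.subset_univ _, hQ4⟩, y, hyX, hy⟩)
    obtain ⟨k1, k2⟩ := upd_off χ M k m hX
    exact Or.inl ((mem_symmDiff_congr k1 k2).mp hQD)

/-- The distance of the new structure from the old one. -/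
theorem dist_upd_gir (χ : Fin n → Bool) (M : Fin n → Fin n → Bool) (X : Finset (Fin n))
    (k : Fin n → Bool) (m : Fin n → Fin n → Bool) :
    (symmDiff (gir χ M (fun _ => false) (fun _ => false))
      (gir (updC χ X k) (updS M X m) (fun _ => false) (fun _ => false))).card ≤ X.card * n ^ 3 := by
  have h := dist_upd (H := gir χ M (fun _ => false) (fun _ => false)) (gir_card _ _ _ _) χ M X k m
  rw [symmDiff_self] at h
  simpa using h

/-! ### The theorem -/

/-- The vertices with a large error. -/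
theorem card_bad {H : Finset (Finset (Fin n))} (hH : ∀ e ∈ H, e.card = 4) (χ : Fin n → Bool)
    (M : Fin n → Fin n → Bool) {x0 s : ℝ} (hs : 0 < s)
    (h0 : ((symmDiff H (gir χ M (fun _ => false) (fun _ => false))).card : ℝ) ≤ x0 * (n : ℝ) ^ 4) :
    (((univ : Finset (Fin n)).filter fun x => s * (n : ℝ) ^ 3 < J x H χ M).card : ℝ) ≤
      4 * x0 / s * n := by
  classical
  rcases Nat.eq_zero_or_pos n with hn | hn
  · subst hn
    simp
  have hn' : (0 : ℝ) < n := by exact_mod_cast hn
  set X := (univ : Finset (Fin n)).filter fun x => s * (n : ℝ) ^ 3 < J x H χ M with hX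
  have h1 : (X.card : ℝ) * (s * (n : ℝ) ^ 3) ≤ ∑ x ∈ X, (J x H χ M : ℝ) := by
    rw [← nsmul_eq_mul]
    refine Finset.card_nsmul_le_sum _ _ _ fun x hx => ?_
    exact (Finset.mem_filter.mp hx).2.le
  have h2 : ∑ x ∈ X, (J x H χ M : ℝ) ≤ ∑ x, (J x H χ M : ℝ) := by
    refine Finset.sum_le_sum_of_subset_of_nonneg (Finset.subset_univ _) fun x _ _ => ?_
    positivity
  have h3 : ∑ x, (J x H χ M : ℝ) ≤ 4 * (x0 * (n : ℝ) ^ 4) := by
    have := sum_J hH χ M
    have h4 : (∑ x, (J x H χ M : ℝ)) = ((∑ x, J x H χ M : ℕ) : ℝ) := by push_cast; rfl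
    rw [h4, this]
    push_cast
    linarith
  have h5 : (X.card : ℝ) * (s * (n : ℝ) ^ 3) ≤ 4 * x0 / s * n * (s * (n : ℝ) ^ 3) := by
    have e : 4 * x0 / s * n * (s * (n : ℝ) ^ 3) = 4 * (x0 * (n : ℝ) ^ 4) := by
      field_simp
    rw [e]
    linarith
  exact le_of_mul_le_mul_right h5 (by positivity)

/-- From one vertex at a time to all vertices. -/
theorem all_of_each (H : Finset (Finset (Fin n))) (hH : ∀ e ∈ H, e.card = 4) (χ : Fin n → Bool)
    (M : Fin n → Fin n → Bool) (k : Fin n → Bool) (m : Fin n → Fin n → Bool) (x0 a b s : ℝ)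
    (hs : 0 < s)
    (h0 : ((symmDiff H (gir χ M (fun _ => false) (fun _ => false))).card : ℝ) ≤ x0 * (n : ℝ) ^ 4)
    (h22 : ∀ x, (J22 x H (Function.update χ x (k x)) (updM M x (m x)) : ℝ) ≤ a * (n : ℝ) ^ 3)
    (hJ : ∀ x, (J x H (Function.update χ x (k x)) (updM M x (m x)) : ℝ) ≤ b * (n : ℝ) ^ 3) :
    ∃ (χ' : Fin n → Bool) (M' : Fin n → Fin n → Bool),
      ((symmDiff H (gir χ' M' (fun _ => false) (fun _ => false))).card : ℝ) ≤
        (x0 + 4 * x0 / s) * (n : ℝ) ^ 4 ∧
      (((univ : Finset (Fin n)).filter fun x => χ' x ≠ χ x).card : ℝ) ≤ 4 * x0 / s * n ∧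
      ((symmDiff (gir χ M (fun _ => false) (fun _ => false))
        (gir χ' M' (fun _ => false) (fun _ => false))).card : ℝ) ≤ 4 * x0 / s * (n : ℝ) ^ 4 ∧
      (∀ x, (J22 x H χ' M' : ℝ) ≤ (max a s + 4 * x0 / s) * (n : ℝ) ^ 3) ∧
      ∀ x, (J x H χ' M' : ℝ) ≤ (max b s + 4 * x0 / s) * (n : ℝ) ^ 3 := by
  classical
  set X := (univ : Finset (Fin n)).filter fun x => s * (n : ℝ) ^ 3 < J x H χ M with hX
  have hc := card_bad hH χ M hs h0
  rw [← hX] at hc
  have hn0 : (0 : ℝ) ≤ n := Nat.cast_nonneg n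
  have hc2 : (X.card : ℝ) * (n : ℝ) ^ 2 ≤ 4 * x0 / s * (n : ℝ) ^ 3 := by
    calc (X.card : ℝ) * (n : ℝ) ^ 2 ≤ (4 * x0 / s * n) * (n : ℝ) ^ 2 :=
          mul_le_mul_of_nonneg_right hc (by positivity)
      _ = 4 * x0 / s * (n : ℝ) ^ 3 := by ring
  have hc3 : (X.card : ℝ) * (n : ℝ) ^ 3 ≤ 4 * x0 / s * (n : ℝ) ^ 4 := by
    calc (X.card : ℝ) * (n : ℝ) ^ 3 ≤ (4 * x0 / s * n) * (n : ℝ) ^ 3 :=
          mul_le_mul_of_nonneg_right hc (by positivity)
      _ = 4 * x0 / s * (n : ℝ) ^ 4 := by ring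
  have hmem : ∀ x, x ∉ X → (J x H χ M : ℝ) ≤ s * (n : ℝ) ^ 3 := by
    intro x hx
    by_contra hne
    exact hx (Finset.mem_filter.mpr ⟨Finset.mem_univ _, not_le.mp hne⟩)
  have hn3 : (0 : ℝ) ≤ (n : ℝ) ^ 3 := by positivity
  refine ⟨updC χ X k, updS M X m, ?_, ?_, ?_, ?_, ?_⟩
  · have h := dist_upd hH χ M X k m
    have h' : ((symmDiff H (gir (updC χ X k) (updS M X m)
        (fun _ => false) (fun _ => false))).card : ℝ) ≤
        ((symmDiff H (gir χ M (fun _ => false) (fun _ => false))).card : ℝ) +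
          (X.card : ℝ) * (n : ℝ) ^ 3 := by exact_mod_cast h
    linarith
  · refine le_trans ?_ hc
    have : ((univ : Finset (Fin n)).filter fun x => updC χ X k x ≠ χ x) ⊆ X := by
      intro x hx
      by_contra hne
      refine (Finset.mem_filter.mp hx).2 ?_
      unfold updC
      rw [if_neg hne]
    exact_mod_cast Finset.card_le_card this
  · refine le_trans ?_ hc3
    exact_mod_cast dist_upd_gir χ M X k m
  · intro x
    by_cases hx : x ∈ X
    · have h := (J_upd_mem hH χ M X k m hx).2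
      have h' : (J22 x H (updC χ X k) (updS M X m) : ℝ) ≤
          (J22 x H (Function.update χ x (k x)) (updM M x (m x)) : ℝ) +
            (X.card : ℝ) * (n : ℝ) ^ 2 := by exact_mod_cast h
      have h2 := h22 x
      have h3 : a * (n : ℝ) ^ 3 ≤ max a s * (n : ℝ) ^ 3 :=
        mul_le_mul_of_nonneg_right (le_max_left _ _) hn3
      linarith
    · have h := (J22_le_J x H (updC χ X k) (updS M X m)).trans (J_upd_notMem hH χ M X k m hx)
      have h' : (J22 x H (updC χ X k) (updS M X m) : ℝ) ≤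
          (J x H χ M : ℝ) + (X.card : ℝ) * (n : ℝ) ^ 2 := by exact_mod_cast h
      have h2 := hmem x hx
      have h3 : s * (n : ℝ) ^ 3 ≤ max a s * (n : ℝ) ^ 3 :=
        mul_le_mul_of_nonneg_right (le_max_right _ _) hn3
      linarith
  · intro x
    by_cases hx : x ∈ X
    · have h := (J_upd_mem hH χ M X k m hx).1
      have h' : (J x H (updC χ X k) (updS M X m) : ℝ) ≤
          (J x H (Function.update χ x (k x)) (updM M x (m x)) : ℝ) +
            (X.card : ℝ) * (n : ℝ) ^ 2 := by exact_mod_cast h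
      have h2 := hJ x
      have h3 : b * (n : ℝ) ^ 3 ≤ max b s * (n : ℝ) ^ 3 :=
        mul_le_mul_of_nonneg_right (le_max_left _ _) hn3
      linarith
    · have h := J_upd_notMem hH χ M X k m hx
      have h' : (J x H (updC χ X k) (updS M X m) : ℝ) ≤
          (J x H χ M : ℝ) + (X.card : ℝ) * (n : ℝ) ^ 2 := by exact_mod_cast h
      have h2 := hmem x hx
      have h3 : s * (n : ℝ) ^ 3 ≤ max b s * (n : ℝ) ^ 3 :=
        mul_le_mul_of_nonneg_right (le_max_right _ _) hn3
      linarith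

/-- The form with one small constant. -/
theorem all_of_each_eps (ε : ℝ) (hε : 0 < ε) : ∃ x0 : ℝ, 0 < x0 ∧ ∀ (n : ℕ)
    (H : Finset (Finset (Fin n))), (∀ e ∈ H, e.card = 4) → ∀ (χ : Fin n → Bool)
    (M : Fin n → Fin n → Bool) (k : Fin n → Bool) (m : Fin n → Fin n → Bool),
    ((symmDiff H (gir χ M (fun _ => false) (fun _ => false))).card : ℝ) ≤ x0 * (n : ℝ) ^ 4 →
    (∀ x, (J22 x H (Function.update χ x (k x)) (updM M x (m x)) : ℝ) ≤ ε / 2 * (n : ℝ) ^ 3) →
    (∀ x, (J x H (Function.update χ x (k x)) (updM M x (m x)) : ℝ) ≤ ε / 2 * (n : ℝ) ^ 3) →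
    ∃ (χ' : Fin n → Bool) (M' : Fin n → Fin n → Bool),
      ((symmDiff H (gir χ' M' (fun _ => false) (fun _ => false))).card : ℝ) ≤ ε * (n : ℝ) ^ 4 ∧
      (((univ : Finset (Fin n)).filter fun x => χ' x ≠ χ x).card : ℝ) ≤ ε * n ∧
      ((symmDiff (gir χ M (fun _ => false) (fun _ => false))
        (gir χ' M' (fun _ => false) (fun _ => false))).card : ℝ) ≤ ε * (n : ℝ) ^ 4 ∧
      (∀ x, (J22 x H χ' M' : ℝ) ≤ ε * (n : ℝ) ^ 3) ∧
      ∀ x, (J x H χ' M' : ℝ) ≤ ε * (n : ℝ) ^ 3 := by
  refine ⟨min (ε ^ 2 / 16) (ε / 2), by positivity, ?_⟩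
  intro n H hH χ M k m h0 h22 hJ
  set x0 := min (ε ^ 2 / 16) (ε / 2) with hx0
  have e1 : x0 ≤ ε ^ 2 / 16 := min_le_left _ _
  have e2 : x0 ≤ ε / 2 := min_le_right _ _
  have e3 : 4 * x0 / (ε / 2) ≤ ε / 2 := by
    rw [div_le_iff₀ (by positivity)]
    nlinarith
  have hn0 : (0 : ℝ) ≤ n := Nat.cast_nonneg n
  obtain ⟨χ', M', a1, a2, a3, a4, a5⟩ :=
    all_of_each H hH χ M k m x0 (ε / 2) (ε / 2) (ε / 2) (by positivity) h0 h22 hJ
  refine ⟨χ', M', a1.trans ?_, a2.trans ?_, a3.trans ?_, fun x => (a4 x).trans ?_,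
    fun x => (a5 x).trans ?_⟩
  · exact mul_le_mul_of_nonneg_right (by linarith) (by positivity)
  · exact mul_le_mul_of_nonneg_right (by linarith) hn0
  · exact mul_le_mul_of_nonneg_right (by linarith) (by positivity)
  · exact mul_le_mul_of_nonneg_right (by rw [max_self]; linarith) (by positivity)
  · exact mul_le_mul_of_nonneg_right (by rw [max_self]; linarith) (by positivity)

end Pool.Agent.Lib.MP_afdd4d_co.K9.Star.VS
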