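import Pool.Agent.Lib.MP_afdd4d_co.K9.VS2

/-!
# The number of bases

If Giraud's structure has density close to `11 / 16`, then many of its quadruples have two vertices
of each colour.
-/

namespace Pool.Agent.Lib.MP_afdd4d_co.K9.Star.VS

open Finset

variable {n : ℕ}

/-- The quadruples with `j` vertices of the second colour. -/
def Qj (χ : Fin n → Bool) (j : ℕ) : Finset (Finset (Fin n)) :=
  ((univ : Finset (Fin n)).powersetCard 4).filter fun Q => (Q.filter fun v => χ v = true).card = j

theorem filter_false_card (χ : Fin n → Bool) (Q : Finset (Fin n)) :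
    (Q.filter fun v => χ v = true).card + (Q.filter fun v => χ v = false).card = Q.card := by
  have e := Finset.card_filter_add_card_filter_not (s := Q) (fun v => χ v = true)
  have e2 : (Q.filter fun v => ¬ χ v = true) = Q.filter fun v => χ v = false := by
    refine Finset.filter_congr fun v _ => ?_
    rw [Bool.not_eq_true]
  rw [e2] at e
  exact e

theorem filter_union (χ : Fin n → Bool) (Q : Finset (Fin n)) :
    (Q.filter fun v => χ v = true) ∪ (Q.filter fun v => χ v = false) = Q := by
  ext v
  rw [Finset.mem_union, Finset.mem_filter, Finset.mem_filter]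
  constructor
  · rintro (h | h) <;> exact h.1
  · intro h
    rcases Bool.eq_false_or_eq_true (χ v) with h1 | h1
    · exact Or.inl ⟨h, h1⟩
    · exact Or.inr ⟨h, h1⟩

theorem Qj_card (χ : Fin n → Bool) (i j : ℕ) (hij : j + i = 4) :
    (Qj χ j).card ≤ (univ.filter fun v => χ v = false).card.choose i *
      (univ.filter fun v => χ v = true).card.choose j := by
  classical
  have h1 : (Qj χ j).card ≤ (((univ.filter fun v => χ v = false).powersetCard i) ×ˢ
      ((univ.filter fun v => χ v = true).powersetCard j)).card := by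
    refine Finset.card_le_card_of_injOn
      (fun Q => (Q.filter fun v => χ v = false, Q.filter fun v => χ v = true)) ?_ ?_
    · intro Q hQ
      obtain ⟨hQ4, hc⟩ := Finset.mem_filter.mp (Finset.mem_coe.mp hQ)
      have hQc := (Finset.mem_powersetCard.mp hQ4).2
      have e := filter_false_card χ Q
      rw [Finset.mem_coe, Finset.mem_product, Finset.mem_powersetCard, Finset.mem_powersetCard]
      refine ⟨⟨Finset.filter_subset_filter _ (Finset.subset_univ _), ?_⟩,
        Finset.filter_subset_filter _ (Finset.subset_univ _), hc⟩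
      show (Q.filter fun v => χ v = false).card = i
      omega
    · intro Q _ R _ h
      have h' := Prod.mk.inj h
      rw [← filter_union χ Q, ← filter_union χ R, h'.1, h'.2]
  rwa [Finset.card_product, Finset.card_powersetCard, Finset.card_powersetCard] at h1

theorem bz_false_sum {ι : Type*} (s : Finset ι) : ∑ _q ∈ s, K8.bz false = 0 := by
  rw [show K8.bz false = 0 from rfl, Finset.sum_const_zero]

/-- The structure consists of quadruples of three kinds. -/
theorem gir_card_le (χ : Fin n → Bool) (M : Fin n → Fin n → Bool) :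
    (gir χ M (fun _ => false) (fun _ => false)).card ≤ (Qj χ 1).card + (Qj χ 3).card +
      ((gir χ M (fun _ => false) (fun _ => false)).filter fun Q =>
        (Q.filter fun v => χ v = true).card = 2).card := by
  classical
  refine le_trans (Finset.card_le_card ?_) ((Finset.card_union_le _ _).trans
    (Nat.add_le_add_right (Finset.card_union_le _ _) _))
  intro Q hQ
  have hQ4 := gir_card _ _ _ _ Q hQ
  have hg := (Finset.mem_filter.mp hQ).2
  rw [Finset.mem_union, Finset.mem_union]
  have hP : Q ∈ (univ : Finset (Fin n)).powersetCard 4 :=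
    Finset.mem_powersetCard.mpr ⟨Finset.subset_univ _, hQ4⟩
  have hle : (Q.filter fun v => χ v = true).card ≤ 4 := by
    rw [← hQ4]
    exact Finset.card_filter_le _ _
  by_cases h2 : (Q.filter fun v => χ v = true).card = 2
  · exact Or.inr (Finset.mem_filter.mpr ⟨hQ, h2⟩)
  by_cases h1 : (Q.filter fun v => χ v = true).card = 1
  · exact Or.inl (Or.inl (Finset.mem_filter.mpr ⟨hP, h1⟩))
  by_cases h3 : (Q.filter fun v => χ v = true).card = 3
  · exact Or.inl (Or.inr (Finset.mem_filter.mpr ⟨hP, h3⟩))
  exfalso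
  unfold girB at hg
  by_cases h0 : (Q.filter fun v => χ v = true).card = 0
  · rw [if_pos h0, bz_false_sum] at hg
    exact absurd hg (by decide)
  · rw [if_neg h0, if_neg h1, if_neg h2, if_neg h3, bz_false_sum] at hg
    exact absurd hg (by decide)

/-- The bases. -/
def bs (χ : Fin n → Bool) (M : Fin n → Fin n → Bool) : Finset (Fin 4 → Fin n) :=
  univ.filter fun q => Function.Injective q ∧ χ (q 0) = false ∧ χ (q 1) = false ∧
    χ (q 2) = true ∧ χ (q 3) = true ∧
    ({q 0, q 1, q 2, q 3} : Finset (Fin n)) ∈ gir χ M (fun _ => false) (fun _ => false)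

theorem inj_four {a a' b b' : Fin n} (h1 : a ≠ a') (h2 : a ≠ b) (h3 : a ≠ b') (h4 : a' ≠ b)
    (h5 : a' ≠ b') (h6 : b ≠ b') : Function.Injective ![a, a', b, b'] := by
  intro i j h
  fin_cases i <;> fin_cases j <;> simp_all [eq_comm]

/-- Every quadruple with two vertices of each colour gives four bases. -/
theorem four_le_fiber (χ : Fin n → Bool) (M : Fin n → Fin n → Bool) (Q : Finset (Fin n))
    (hQ : Q ∈ gir χ M (fun _ => false) (fun _ => false))
    (h2 : (Q.filter fun v => χ v = true).card = 2) :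
    4 ≤ ((bs χ M).filter fun q => ({q 0, q 1, q 2, q 3} : Finset (Fin n)) = Q).card := by
  classical
  have hQ4 := gir_card _ _ _ _ Q hQ
  have e := filter_false_card χ Q
  have hF : (Q.filter fun v => χ v = false).card = 2 := by omega
  obtain ⟨a, a', haa, hA⟩ := Finset.card_eq_two.mp hF
  obtain ⟨b, b', hbb, hB⟩ := Finset.card_eq_two.mp h2
  have memF : ∀ v, v = a ∨ v = a' → v ∈ Q ∧ χ v = false := by
    intro v hv
    have : v ∈ Q.filter fun v => χ v = false := by
      rw [hA, Finset.mem_insert, Finset.mem_singleton]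
      exact hv
    exact Finset.mem_filter.mp this
  have memT : ∀ v, v = b ∨ v = b' → v ∈ Q ∧ χ v = true := by
    intro v hv
    have : v ∈ Q.filter fun v => χ v = true := by
      rw [hB, Finset.mem_insert, Finset.mem_singleton]
      exact hv
    exact Finset.mem_filter.mp this
  have ca := (memF a (Or.inl rfl)).2
  have ca' := (memF a' (Or.inr rfl)).2
  have cb := (memT b (Or.inl rfl)).2
  have cb' := (memT b' (Or.inr rfl)).2
  have ne : ∀ u v, χ u = false → χ v = true → u ≠ v := by
    rintro u v hu hv rfl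
    rw [hu] at hv
    exact absurd hv (by decide)
  have hab := ne a b ca cb
  have hab' := ne a b' ca cb'
  have ha'b := ne a' b ca' cb
  have ha'b' := ne a' b' ca' cb'
  have hQe : Q = {a, a', b, b'} := by
    rw [← filter_union χ Q, hA, hB]
    ext v
    simp only [Finset.mem_union, Finset.mem_insert, Finset.mem_singleton]
    tauto
  have key : ∀ x x' y y' : Fin n, x ≠ x' → y ≠ y' → (x = a ∨ x = a') → (x' = a ∨ x' = a') →
      (y = b ∨ y = b') → (y' = b ∨ y' = b') → ({x, x', y, y'} : Finset (Fin n)) = Q →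
      ![x, x', y, y'] ∈ (bs χ M).filter fun q => ({q 0, q 1, q 2, q 3} : Finset (Fin n)) = Q := by
    intro x x' y y' hx hy h1 h2 h3 h4 hs
    have c1 := (memF x h1).2
    have c2 := (memF x' h2).2
    have c3 := (memT y h3).2
    have c4 := (memT y' h4).2
    rw [Finset.mem_filter]
    unfold bs
    rw [Finset.mem_filter]
    refine ⟨⟨Finset.mem_univ _, inj_four hx (ne x y c1 c3) (ne x y' c1 c4) (ne x' y c2 c3)
      (ne x' y' c2 c4) hy, c1, c2, c3, c4, ?_⟩, hs⟩
    show ({x, x', y, y'} : Finset (Fin n)) ∈ _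
    rw [hs]
    exact hQ
  have hsub : ({![a, a', b, b'], ![a', a, b, b'], ![a, a', b', b], ![a', a, b', b]} :
      Finset (Fin 4 → Fin n)) ⊆
      (bs χ M).filter fun q => ({q 0, q 1, q 2, q 3} : Finset (Fin n)) = Q := by
    intro q hq
    simp only [Finset.mem_insert, Finset.mem_singleton] at hq
    rcases hq with rfl | rfl | rfl | rfl
    · exact key _ _ _ _ haa hbb (Or.inl rfl) (Or.inr rfl) (Or.inl rfl) (Or.inr rfl) hQe.symm
    · refine key _ _ _ _ haa.symm hbb (Or.inr rfl) (Or.inl rfl) (Or.inl rfl) (Or.inr rfl) ?_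
      rw [hQe]
      ext v
      simp only [Finset.mem_insert, Finset.mem_singleton]
      tauto
    · refine key _ _ _ _ haa hbb.symm (Or.inl rfl) (Or.inr rfl) (Or.inr rfl) (Or.inl rfl) ?_
      rw [hQe]
      ext v
      simp only [Finset.mem_insert, Finset.mem_singleton]
      tauto
    · refine key _ _ _ _ haa.symm hbb.symm (Or.inr rfl) (Or.inl rfl) (Or.inr rfl) (Or.inl rfl) ?_
      rw [hQe]
      ext v
      simp only [Finset.mem_insert, Finset.mem_singleton]
      tauto
  refine le_trans ?_ (Finset.card_le_card hsub)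
  rw [Finset.card_insert_of_notMem, Finset.card_insert_of_notMem, Finset.card_insert_of_notMem,
    Finset.card_singleton]
  · rw [Finset.mem_singleton]
    intro h
    have := congrFun h 0
    exact haa this
  · rw [Finset.mem_insert, Finset.mem_singleton]
    rintro (h | h)
    · exact haa.symm (congrFun h 0)
    · exact hbb (congrFun h 2)
  · rw [Finset.mem_insert, Finset.mem_insert, Finset.mem_singleton]
    rintro (h | h | h)
    · exact haa (congrFun h 0)
    · exact hbb (congrFun h 2)
    · exact haa (congrFun h 0)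

theorem bs_card (χ : Fin n → Bool) (M : Fin n → Fin n → Bool) :
    4 * ((gir χ M (fun _ => false) (fun _ => false)).filter fun Q =>
      (Q.filter fun v => χ v = true).card = 2).card ≤ (bs χ M).card := by
  classical
  set G2 := (gir χ M (fun _ => false) (fun _ => false)).filter fun Q =>
      (Q.filter fun v => χ v = true).card = 2 with hG2
  have h1 : ∑ Q ∈ G2, ((bs χ M).filter fun q =>
      ({q 0, q 1, q 2, q 3} : Finset (Fin n)) = Q).card ≤ (bs χ M).card := by
    rw [← Finset.card_biUnion]
    · exact Finset.card_le_card (Finset.biUnion_subset.mpr fun Q _ => Finset.filter_subset _ _)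
    · intro Q _ R _ hQR
      rw [Function.onFun, Finset.disjoint_left]
      intro q h1 h2
      exact hQR ((Finset.mem_filter.mp h1).2.symm.trans (Finset.mem_filter.mp h2).2)
  refine le_trans ?_ h1
  rw [mul_comm, ← smul_eq_mul]
  refine Finset.card_nsmul_le_sum _ _ _ fun Q hQ => ?_
  obtain ⟨hQ1, hQ2⟩ := Finset.mem_filter.mp hQ
  exact four_le_fiber χ M Q hQ1 hQ2

/-- There are many bases. -/
theorem base_count (hn : 300 ≤ n) (χ : Fin n → Bool) (M : Fin n → Fin n → Bool)
    (h : ((11 / 16 : ℝ) - 1 / 100) * ((n.choose 4 : ℕ) : ℝ) ≤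
      ((gir χ M (fun _ => false) (fun _ => false)).card : ℝ)) :
    (n : ℝ) ^ 4 / 40 ≤ ((bs χ M).card : ℝ) := by
  set a := ((univ : Finset (Fin n)).filter fun v => χ v = false).card with ha
  set b := ((univ : Finset (Fin n)).filter fun v => χ v = true).card with hb
  have hab : (b : ℝ) + a = n := by
    have := filter_false_card χ (univ : Finset (Fin n))
    rw [Finset.card_univ, Fintype.card_fin] at this
    exact_mod_cast this
  have h1 : ((Qj χ 1).card : ℝ) ≤ (a : ℝ) ^ 3 / 6 * b := by
    have h2 := Qj_card χ 3 1 rfl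
    rw [← ha, ← hb, Nat.choose_one_right] at h2
    have h3 : (a.choose 3 : ℝ) ≤ (a : ℝ) ^ 3 / (Nat.factorial 3 : ℕ) := Nat.choose_le_pow_div 3 a
    rw [show (Nat.factorial 3 : ℕ) = 6 from rfl] at h3
    calc ((Qj χ 1).card : ℝ) ≤ ((a.choose 3 * b : ℕ) : ℝ) := by exact_mod_cast h2
      _ = (a.choose 3 : ℝ) * b := by push_cast; rfl
      _ ≤ (a : ℝ) ^ 3 / 6 * b := mul_le_mul_of_nonneg_right (by exact_mod_cast h3) (by positivity)
  have h3 : ((Qj χ 3).card : ℝ) ≤ (b : ℝ) ^ 3 / 6 * a := by
    have h2 := Qj_card χ 1 3 rfl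
    rw [← ha, ← hb, Nat.choose_one_right] at h2
    have h3 : (b.choose 3 : ℝ) ≤ (b : ℝ) ^ 3 / (Nat.factorial 3 : ℕ) := Nat.choose_le_pow_div 3 b
    rw [show (Nat.factorial 3 : ℕ) = 6 from rfl] at h3
    calc ((Qj χ 3).card : ℝ) ≤ ((a * b.choose 3 : ℕ) : ℝ) := by exact_mod_cast h2
      _ = (b.choose 3 : ℝ) * a := by push_cast; ring
      _ ≤ (b : ℝ) ^ 3 / 6 * a := mul_le_mul_of_nonneg_right (by exact_mod_cast h3) (by positivity)
  have h4 : (a : ℝ) ^ 3 / 6 * b + (b : ℝ) ^ 3 / 6 * a ≤ (n : ℝ) ^ 4 / 48 := by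
    rw [← hab]
    nlinarith [sq_nonneg (((a : ℝ) - b) ^ 2)]
  have h5 : ((gir χ M (fun _ => false) (fun _ => false)).card : ℝ) ≤ (Qj χ 1).card +
      (Qj χ 3).card + (((gir χ M (fun _ => false) (fun _ => false)).filter fun Q =>
        (Q.filter fun v => χ v = true).card = 2).card : ℝ) := by
    exact_mod_cast gir_card_le χ M
  have h6 : 4 * (((gir χ M (fun _ => false) (fun _ => false)).filter fun Q =>
      (Q.filter fun v => χ v = true).card = 2).card : ℝ) ≤ (bs χ M).card := by
    exact_mod_cast bs_card χ M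
  have h7 : ((n : ℝ) - 3) ^ 4 ≤ 24 * ((n.choose 4 : ℕ) : ℝ) := by
    have h8 := Nat.pow_sub_le_descFactorial n 4
    rw [Nat.descFactorial_eq_factorial_mul_choose] at h8
    have h9 : (((n + 1 - 4) ^ 4 : ℕ) : ℝ) ≤ ((Nat.factorial 4 * n.choose 4 : ℕ) : ℝ) := by
      exact_mod_cast h8
    rw [show (Nat.factorial 4 : ℕ) = 24 from rfl] at h9
    push_cast at h9
    have e : ((n - 3 : ℕ) : ℝ) = (n : ℝ) - 3 := by
      rw [Nat.cast_sub (by omega)]
      norm_num
    rw [← e]
    exact h9
  have hn' : (300 : ℝ) ≤ n := by exact_mod_cast hn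
  have h8 : (96 / 100 : ℝ) * (n : ℝ) ^ 4 ≤ ((n : ℝ) - 3) ^ 4 := by
    have e1 : (99 / 100 : ℝ) * n ≤ (n : ℝ) - 3 := by linarith
    have e2 : ((99 / 100 : ℝ) * n) ^ 4 ≤ ((n : ℝ) - 3) ^ 4 := by
      gcongr
    have e3 : ((99 / 100 : ℝ) * n) ^ 4 = (99 / 100) ^ 4 * (n : ℝ) ^ 4 := by ring
    rw [e3] at e2
    refine le_trans (mul_le_mul_of_nonneg_right (by norm_num) (by positivity)) e2
  have hn4 : (0 : ℝ) ≤ (n : ℝ) ^ 4 := by positivity
  nlinarith

end Pool.Agent.Lib.MP_afdd4d_co.K9.Star.VS
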