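import Pool.Agent.Lib.MP_afdd4d_co.K9.VMove

/-!
# Terms with general multipliers

The families of functions of six vertices with almost nonnegative average, with an arbitrary bounded
multiplier, and their values on windows when the multiplier is a function of the colours, of the
4-graph, of the reference structure and of the marks.
-/

namespace Pool.Agent.Lib.MP_afdd4d_co.K9.Star

open Finset K8
open Pool.Agent.Lib.MP_afdd4d_co.K9.Marks

/-- A bounded nonnegative function of some vertices. -/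
structure Phi (k : ℕ) where
  F : ∀ {n : ℕ}, Finset (Finset (Fin n)) → (Fin n → Bool) → (Fin n → Fin n → Bool) →
    (Finset (Fin n) → Bool) → (Finset (Fin n) → Bool) → (Fin k → Fin n) → ℤ
  B : ℕ
  h0 : ∀ {n : ℕ} (H : Finset (Finset (Fin n))) (χ : Fin n → Bool) (M : Fin n → Fin n → Bool)
    (f g : Finset (Fin n) → Bool) (s : Fin k → Fin n), 0 ≤ F H χ M f g s
  hB : ∀ {n : ℕ} (H : Finset (Finset (Fin n))) (χ : Fin n → Bool) (M : Fin n → Fin n → Bool)
    (f g : Finset (Fin n) → Bool) (s : Fin k → Fin n), F H χ M f g s ≤ B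

/-- Functions with nonnegative total sum and bounded values. -/
theorem GoodC.of_tot {Cx : CX} {Z : Fun6} (B : ℕ)
    (h : ∀ {n : ℕ} (H : Finset (Finset (Fin n))) (χ : Fin n → Bool) M f g,
      Cx H χ M f g → 0 ≤ ∑ p, Z H χ M f g p)
    (hB : ∀ {n : ℕ} (H : Finset (Finset (Fin n))) (χ : Fin n → Bool) M f g (p : Fin 6 → Fin n),
      Z H χ M f g p ≤ B) : GoodC Cx (fun H χ M f g t => Z H χ M f g t) := by
  refine GoodC.of_bound (Z := fun H χ M f g t => Z H χ M f g t) (B : ℝ) fun H χ M f g hc => ?_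
  exact inj_ge_of_tot (Z H χ M f g) (B : ℝ) (h H χ M f g hc)
    (fun p => by exact_mod_cast hB H χ M f g p) id Function.injective_id

/-- The functions with almost nonnegative average after a permutation of the vertices. -/
theorem GoodC.perm {Cx : CX} {Z : Fun6} (h : GoodC Cx Z) (π : Equiv.Perm (Fin 6)) :
    GoodC Cx (fun H χ M f g t => Z H χ M f g (t ∘ π)) := by
  intro δ hδ
  obtain ⟨N, hN⟩ := h δ hδ
  refine ⟨N, fun n hn H χ M f g hc => le_trans (hN n hn H χ M f g hc) (le_of_eq ?_)⟩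
  symm
  refine Finset.sum_bij' (fun t _ => t ∘ π) (fun t _ => t ∘ π.symm) ?_ ?_ ?_ ?_ ?_
  · intro t ht
    exact mem_inj.mpr ((mem_inj.mp ht).comp π.injective)
  · intro t ht
    exact mem_inj.mpr ((mem_inj.mp ht).comp π.symm.injective)
  · intro t _
    funext i
    exact congrArg t (π.apply_symm_apply i)
  · intro t _
    funext i
    exact congrArg t (π.symm_apply_apply i)
  · intro t _
    rfl

/-- The sum over all permutations. -/
theorem GoodC.sym {Cx : CX} {Z : Fun6} (h : GoodC Cx Z) :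
    GoodC Cx (fun H χ M f g t => ∑ π : Equiv.Perm (Fin 6), Z H χ M f g (t ∘ π)) :=
  GoodC.sum Finset.univ (fun (π : Equiv.Perm (Fin 6)) => fun H χ M f g t => Z H χ M f g (t ∘ π))
    fun π _ => h.perm π

section fams
variable {Cx : CX}

/-- The difference of the 4-graph and of the reference structure. -/
abbrev JJ {n : ℕ} (H : Finset (Finset (Fin n))) (χ : Fin n → Bool) (M : Fin n → Fin n → Bool)
    (f g : Finset (Fin n) → Bool) : Finset (Finset (Fin n)) := symmDiff H (gir χ M f g)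

theorem good_um (dn dd : ℕ) (φ : Phi 4) :
    GoodC Cx (fun H χ M f g t => t1 (jv (JJ H χ M f g)) dn dd (φ.F H χ M f g) t) :=
  GoodC.of_tot (Z := fun H χ M f g t => t1 (jv (JJ H χ M f g)) dn dd (φ.F H χ M f g) t)
    (φ.B * dn) (fun H χ M f g _ => t1_tot _ dn dd _ (φ.h0 H χ M f g))
    (fun H χ M f g p => (t1_le _ dn dd (jv_nonneg _) _ φ.B (φ.h0 H χ M f g) (φ.hB H χ M f g)
      p).trans (le_of_eq (by push_cast; ring)))

theorem good_ma (dn dd : ℕ) (φ : Phi 4) :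
    GoodC Cx (fun H χ M f g t => Marks.t2 (jv (JJ H χ M f g)) dn dd (φ.F H χ M f g) t) :=
  GoodC.of_tot (Z := fun H χ M f g t => Marks.t2 (jv (JJ H χ M f g)) dn dd (φ.F H χ M f g) t)
    (φ.B * dd) (fun H χ M f g _ => t2_tot _ dn dd _ (φ.h0 H χ M f g))
    (fun H χ M f g p => (t2_le _ dn dd (jv_le_one _) _ φ.B (φ.h0 H χ M f g) (φ.hB H χ M f g)
      p).trans (le_of_eq (by push_cast; ring)))

theorem good_fe (dn dd xn xd : ℕ) (φ : Phi 4)
    (hX : ∀ {n : ℕ} (H : Finset (Finset (Fin n))) (χ : Fin n → Bool) M f g, Cx H χ M f g →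
      (xd : ℤ) * ∑ p, jv (JJ H χ M f g) p ≤ xn * (n : ℤ) ^ 4) :
    GoodC Cx (fun H χ M f g t => t3 (jv (JJ H χ M f g)) dn dd xn xd (φ.F H χ M f g) t) :=
  GoodC.of_tot (Z := fun H χ M f g t => t3 (jv (JJ H χ M f g)) dn dd xn xd (φ.F H χ M f g) t)
    (φ.B * (xn * dd)) (fun H χ M f g hc => t3_tot _ dn dd xn xd (jv_nonneg _) (hX H χ M f g hc) _
      (φ.h0 H χ M f g))
    (fun H χ M f g p => (t3_le _ dn dd xn xd _ φ.B (φ.h0 H χ M f g) (φ.hB H χ M f g)
      p).trans (le_of_eq (by push_cast; ring)))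

theorem good_al (xn xd : ℕ) (φ : Phi 2)
    (hX : ∀ {n : ℕ} (H : Finset (Finset (Fin n))) (χ : Fin n → Bool) M f g, Cx H χ M f g →
      (xd : ℤ) * ∑ p, jv (JJ H χ M f g) p ≤ xn * (n : ℤ) ^ 4) :
    GoodC Cx (fun H χ M f g t => t7 (jv (JJ H χ M f g)) xn xd (φ.F H χ M f g) t) :=
  GoodC.of_tot (Z := fun H χ M f g t => t7 (jv (JJ H χ M f g)) xn xd (φ.F H χ M f g) t)
    (φ.B * xn) (fun H χ M f g hc => t7_tot _ xn xd (hX H χ M f g hc) _ (φ.h0 H χ M f g))
    (fun H χ M f g p => (t7_le _ xn xd (jv_nonneg _) _ φ.B (φ.h0 H χ M f g) (φ.hB H χ M f g)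
      p).trans (le_of_eq (by push_cast; ring)))

theorem good_ve (dn dd vn vd : ℕ) (φ : Phi 5)
    (hv : ∀ {n : ℕ} (H : Finset (Finset (Fin n))) (χ : Fin n → Bool) M f g, Cx H χ M f g →
      ∀ x, (vd : ℤ) * vs (jv (JJ H χ M f g)) x ≤ vn * (n : ℤ) ^ 3) :
    GoodC Cx (fun H χ M f g t =>
      t5 (jv (JJ H χ M f g)) dn dd vn vd (k := 4) (φ.F H χ M f g) t) :=
  GoodC.of_tot (Z := fun H χ M f g t =>
      t5 (jv (JJ H χ M f g)) dn dd vn vd (k := 4) (φ.F H χ M f g) t)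
    (φ.B * (vn * dd)) (fun H χ M f g hc => t5_tot _ dn dd vn vd (hv H χ M f g hc) (jv_nonneg _)
      (k := 4) _ (φ.h0 H χ M f g))
    (fun H χ M f g p => (t5_le _ dn dd vn vd (k := 4) _ φ.B (φ.h0 H χ M f g) (φ.hB H χ M f g)
      p).trans (le_of_eq (by push_cast; ring)))

theorem good_vq (vn vd : ℕ) (φ : Phi 3)
    (hv : ∀ {n : ℕ} (H : Finset (Finset (Fin n))) (χ : Fin n → Bool) M f g, Cx H χ M f g →
      ∀ x, (vd : ℤ) * vs (jv (JJ H χ M f g)) x ≤ vn * (n : ℤ) ^ 3) :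
    GoodC Cx (fun H χ M f g t => t6 (jv (JJ H χ M f g)) vn vd (k := 2) (φ.F H χ M f g) t) :=
  GoodC.of_tot (Z := fun H χ M f g t =>
      t6 (jv (JJ H χ M f g)) vn vd (k := 2) (φ.F H χ M f g) t)
    (φ.B * vn) (fun H χ M f g hc => t6_tot _ vn vd (hv H χ M f g hc) (k := 2) _
      (φ.h0 H χ M f g))
    (fun H χ M f g p => (t6_le _ vn vd (jv_nonneg _) (k := 2) _ φ.B (φ.h0 H χ M f g)
      (φ.hB H χ M f g) p).trans (le_of_eq (by push_cast; ring)))

/-! ### The changes -/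

/-- The term of a global change. -/
def mvP (R : Rule2) (φ : Phi 2) : Fun6 := fun H χ M f g p =>
  φ.F H χ M f g (p ∘ Fin.castAdd 4) *
    (jv (symmDiff H (R.gi H χ M f g (p 0) (p 1))) ![p 2, p 3, p 4, p 5] -
      jv (JJ H χ M f g) ![p 2, p 3, p 4, p 5])

theorem good_mv (R : Rule2) (φ : Phi 2)
    (h4 : ∀ {n : ℕ} (H : Finset (Finset (Fin n))) (χ : Fin n → Bool) M f g, Cx H χ M f g →
      ∀ e ∈ H, e.card = 4)
    (hB : ∀ {n : ℕ} (H : Finset (Finset (Fin n))) (χ : Fin n → Bool) M f g, Cx H χ M f g →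
      BestM H χ M f g) :
    GoodC Cx (fun H χ M f g t => mvP R φ H χ M f g t) := by
  refine GoodC.of_tot (Z := mvP R φ) φ.B (fun H χ M f g hc => ?_) fun H χ M f g p => ?_
  · rw [sum24]
    refine Finset.sum_nonneg fun s _ => ?_
    have e : ∀ u, mvP R φ H χ M f g (Fin.append s u) = φ.F H χ M f g s *
        (jv (symmDiff H (R.gi H χ M f g (s 0) (s 1))) u - jv (JJ H χ M f g) u) := by
      intro u
      unfold mvP
      have e2 : (![(Fin.append s u : Fin 6 → Fin _) 2, (Fin.append s u : Fin 6 → Fin _) 3,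
          (Fin.append s u : Fin 6 → Fin _) 4, (Fin.append s u : Fin 6 → Fin _) 5] :
          Fin 4 → Fin _) = u := by
        funext i
        fin_cases i <;> rfl
      have e3 : (Fin.append s u : Fin 6 → Fin _) ∘ Fin.castAdd 4 = s := append_castAdd s u
      have e0 : (Fin.append s u : Fin 6 → Fin _) 0 = s 0 := rfl
      have e1 : (Fin.append s u : Fin 6 → Fin _) 1 = s 1 := rfl
      rw [e2, e3, e0, e1]
    rw [Finset.sum_congr rfl fun u _ => e u, ← Finset.mul_sum]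
    refine mul_nonneg (φ.h0 H χ M f g s) ?_
    have h4' := h4 H χ M f g hc
    have h2 : ∀ e ∈ symmDiff H (R.gi H χ M f g (s 0) (s 1)), e.card = 4 :=
      symmDiff_card4 h4' _ _ _ _
    rw [Finset.sum_sub_distrib, jv_tot_eq _ h2, jv_tot_eq _ (symmDiff_card4 h4' _ _ _ _)]
    have h1 : ((symmDiff H (gir χ M f g)).card : ℤ) ≤
        ((symmDiff H (R.gi H χ M f g (s 0) (s 1))).card : ℤ) := by
      exact_mod_cast hB H χ M f g hc _ _ _
    linarith
  · show mvP R φ H χ M f g p ≤ φ.B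
    unfold mvP
    have h1 := jv_le_one (symmDiff H (R.gi H χ M f g (p 0) (p 1))) ![p 2, p 3, p 4, p 5]
    have h2 := jv_nonneg (JJ H χ M f g) ![p 2, p 3, p 4, p 5]
    calc _ ≤ φ.F H χ M f g (p ∘ Fin.castAdd 4) * 1 :=
          mul_le_mul_of_nonneg_left (by linarith) (φ.h0 _ _ _ _ _ _)
      _ ≤ φ.B := by rw [mul_one]; exact φ.hB _ _ _ _ _ _

/-- The term of a change at a triple. -/
def mvT (φ : Phi 5) : Fun6 := fun H χ M f g p =>
  φ.F H χ M f g (p ∘ Fin.castAdd 1) *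
    (if ((χ (p 0) = χ (p 1) ∧ χ (p 1) = χ (p 2)) ∧ Function.Injective ![p 0, p 1, p 2]) ∧
      Function.Injective ![p 0, p 1, p 2, p 5] then
      1 - 2 * ((mE (JJ H χ M f g) {p 0, p 1, p 2, p 5}).toNat : ℤ) else 0)

theorem sum51 {n : ℕ} (f : (Fin 6 → Fin n) → ℤ) :
    ∑ p, f p = ∑ s : Fin 5 → Fin n, ∑ u : Fin 1 → Fin n, f (Fin.append s u) := sum_app (k := 5) (l := 1) f

theorem sum42 {n : ℕ} (f : (Fin 6 → Fin n) → ℤ) :
    ∑ p, f p = ∑ s : Fin 4 → Fin n, ∑ u : Fin 2 → Fin n, f (Fin.append s u) := sum_app (k := 4) (l := 2) f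

theorem sum33 {n : ℕ} (f : (Fin 6 → Fin n) → ℤ) :
    ∑ p, f p = ∑ s : Fin 3 → Fin n, ∑ u : Fin 3 → Fin n, f (Fin.append s u) := sum_app (k := 3) (l := 3) f

theorem good_mvT (φ : Phi 5)
    (h4 : ∀ {n : ℕ} (H : Finset (Finset (Fin n))) (χ : Fin n → Bool) M f g, Cx H χ M f g →
      ∀ e ∈ H, e.card = 4)
    (hB : ∀ {n : ℕ} (H : Finset (Finset (Fin n))) (χ : Fin n → Bool) M f g, Cx H χ M f g →
      BestM H χ M f g) :
    GoodC Cx (fun H χ M f g t => mvT φ H χ M f g t) := by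
  refine GoodC.of_tot (Z := mvT φ) φ.B (fun H χ M f g hc => ?_) fun H χ M f g p => ?_
  · rw [sum51]
    refine Finset.sum_nonneg fun s _ => ?_
    have e : ∀ u : Fin 1 → Fin _, mvT φ H χ M f g (Fin.append s u) = φ.F H χ M f g s *
        (if ((χ (s 0) = χ (s 1) ∧ χ (s 1) = χ (s 2)) ∧ Function.Injective ![s 0, s 1, s 2]) ∧
          Function.Injective ![s 0, s 1, s 2, u 0] then
          1 - 2 * ((mE (JJ H χ M f g) {s 0, s 1, s 2, u 0}).toNat : ℤ) else 0) := by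
      intro u
      unfold mvT
      have e3 : (Fin.append s u : Fin 6 → Fin _) ∘ Fin.castAdd 1 = s := append_castAdd s u
      have e0 : (Fin.append s u : Fin 6 → Fin _) 0 = s 0 := rfl
      have e1 : (Fin.append s u : Fin 6 → Fin _) 1 = s 1 := rfl
      have e2 : (Fin.append s u : Fin 6 → Fin _) 2 = s 2 := rfl
      have e5 : (Fin.append s u : Fin 6 → Fin _) 5 = u 0 := rfl
      rw [e3, e0, e1, e2, e5]
    rw [Finset.sum_congr rfl fun u _ => e u, ← Finset.mul_sum]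
    refine mul_nonneg (φ.h0 H χ M f g s) ?_
    by_cases hm : (χ (s 0) = χ (s 1) ∧ χ (s 1) = χ (s 2)) ∧ Function.Injective ![s 0, s 1, s 2]
    · simp only [hm, true_and]
      exact flip_ge (h4 H χ M f g hc) (hB H χ M f g hc) (s 0) (s 1) (s 2) hm.2 hm.1.1 hm.1.2
    · refine Finset.sum_nonneg fun u _ => ?_
      rw [if_neg fun h => hm h.1]
  · show mvT φ H χ M f g p ≤ φ.B
    unfold mvT
    have h1 : (if ((χ (p 0) = χ (p 1) ∧ χ (p 1) = χ (p 2)) ∧
        Function.Injective ![p 0, p 1, p 2]) ∧ Function.Injective ![p 0, p 1, p 2, p 5] then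
        1 - 2 * ((mE (JJ H χ M f g) {p 0, p 1, p 2, p 5}).toNat : ℤ) else 0) ≤ 1 := by
      have h2 : (0 : ℤ) ≤ ((mE (JJ H χ M f g) {p 0, p 1, p 2, p 5}).toNat : ℤ) :=
        Int.natCast_nonneg _
      split_ifs <;> linarith
    calc _ ≤ φ.F H χ M f g (p ∘ Fin.castAdd 1) * 1 :=
          mul_le_mul_of_nonneg_left h1 (φ.h0 _ _ _ _ _ _)
      _ ≤ φ.B := by rw [mul_one]; exact φ.hB _ _ _ _ _ _

/-- The term of a change at an entry of the graph. -/
def mvE (φ : Phi 4) : Fun6 := fun H χ M f g p =>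
  φ.F H χ M f g (p ∘ Fin.castAdd 2) *
    (if (χ (p 0) = false ∧ χ (p 1) = true) ∧
      (Function.Injective ![p 0, p 1, p 4, p 5] ∧ χ (p 4) ≠ χ (p 5)) then
      1 - 2 * ((mE (JJ H χ M f g) {p 0, p 1, p 4, p 5}).toNat : ℤ) else 0)

theorem good_mvE (φ : Phi 4)
    (h4 : ∀ {n : ℕ} (H : Finset (Finset (Fin n))) (χ : Fin n → Bool) M f g, Cx H χ M f g →
      ∀ e ∈ H, e.card = 4)
    (hB : ∀ {n : ℕ} (H : Finset (Finset (Fin n))) (χ : Fin n → Bool) M f g, Cx H χ M f g →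
      BestM H χ M f g) :
    GoodC Cx (fun H χ M f g t => mvE φ H χ M f g t) := by
  refine GoodC.of_tot (Z := mvE φ) φ.B (fun H χ M f g hc => ?_) fun H χ M f g p => ?_
  · rw [sum42]
    refine Finset.sum_nonneg fun s _ => ?_
    have e : ∀ u : Fin 2 → Fin _, mvE φ H χ M f g (Fin.append s u) = φ.F H χ M f g s *
        (if (χ (s 0) = false ∧ χ (s 1) = true) ∧
          (Function.Injective ![s 0, s 1, u 0, u 1] ∧ χ (u 0) ≠ χ (u 1)) then
          1 - 2 * ((mE (JJ H χ M f g) {s 0, s 1, u 0, u 1}).toNat : ℤ) else 0) := by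
      intro u
      unfold mvE
      have e3 : (Fin.append s u : Fin 6 → Fin _) ∘ Fin.castAdd 2 = s := append_castAdd s u
      have e0 : (Fin.append s u : Fin 6 → Fin _) 0 = s 0 := rfl
      have e1 : (Fin.append s u : Fin 6 → Fin _) 1 = s 1 := rfl
      have e4 : (Fin.append s u : Fin 6 → Fin _) 4 = u 0 := rfl
      have e5 : (Fin.append s u : Fin 6 → Fin _) 5 = u 1 := rfl
      rw [e3, e0, e1, e4, e5]
    rw [Finset.sum_congr rfl fun u _ => e u, ← Finset.mul_sum]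
    refine mul_nonneg (φ.h0 H χ M f g s) ?_
    by_cases hm : χ (s 0) = false ∧ χ (s 1) = true
    · have h5 := entry_ge (h4 H χ M f g hc) (hB H χ M f g hc) (s 0) (s 1) hm.1 hm.2
      refine le_trans h5 (le_of_eq (Finset.sum_congr rfl fun u _ => ?_))
      refine if_congr ⟨fun h => ⟨hm, h⟩, fun h => h.2⟩ rfl rfl
    · refine Finset.sum_nonneg fun u _ => ?_
      rw [if_neg fun h => hm h.1]
  · show mvE φ H χ M f g p ≤ φ.B
    unfold mvE
    have h1 : (if (χ (p 0) = false ∧ χ (p 1) = true) ∧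
        (Function.Injective ![p 0, p 1, p 4, p 5] ∧ χ (p 4) ≠ χ (p 5)) then
        1 - 2 * ((mE (JJ H χ M f g) {p 0, p 1, p 4, p 5}).toNat : ℤ) else 0) ≤ 1 := by
      have h2 : (0 : ℤ) ≤ ((mE (JJ H χ M f g) {p 0, p 1, p 4, p 5}).toNat : ℤ) :=
        Int.natCast_nonneg _
      split_ifs <;> linarith
    calc _ ≤ φ.F H χ M f g (p ∘ Fin.castAdd 2) * 1 :=
          mul_le_mul_of_nonneg_left h1 (φ.h0 _ _ _ _ _ _)
      _ ≤ φ.B := by rw [mul_one]; exact φ.hB _ _ _ _ _ _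

end fams

end Pool.Agent.Lib.MP_afdd4d_co.K9.Star
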