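import Pool.Agent.Lib.MP_afdd4d_co.K9.VInd

/-!
# The terms on windows

The values of the terms when the multipliers are functions of the colours, of the 4-graph, of the
reference structure and of the marks on the window.
-/

namespace Pool.Agent.Lib.MP_afdd4d_co.K9.Star

open Finset K8
open Pool.Agent.Lib.MP_afdd4d_co.K9.Marks

/-- A multiplier: a bounded function of the colours, of the 4-graph, of the reference structure and of
the marks. -/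
structure MuK (k : ℕ) where
  F : (Fin k → Bool) → (Finset (Fin k) → Bool) → (Finset (Fin k) → Bool) →
    (Fin k → Fin k → Bool) → ℕ
  B : ℕ
  hB : ∀ c e r b, F c e r b ≤ B

/-- The value of a multiplier on some of the vertices of a window. -/
def MuK.w {k m : ℕ} (μ : MuK k) (s : Fin k → Fin m) (c : Fin m → Bool)
    (e r : Finset (Fin m) → Bool) (b : Fin m → Fin m → Bool) : ℤ :=
  (μ.F (fun i => c (s i)) (fun S => e (S.image s)) (fun S => r (S.image s))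
    (fun x y => b (s x) (s y)) : ℕ)

/-- A multiplier as a function of vertices. -/
def MuK.phi {k : ℕ} (μ : MuK k) (dn dd : ℕ) : Phi k where
  F := fun H χ M f g s => (μ.F (fun i => χ (s i)) (zb H s) (zb (gir χ M f g) s)
    (fun x y => Marks.mk (jv (JJ H χ M f g)) dn dd (s x) (s y)) : ℕ)
  B := μ.B
  h0 := fun _ _ _ _ _ _ => Int.natCast_nonneg _
  hB := fun _ _ _ _ _ _ => by exact_mod_cast μ.hB _ _ _ _

theorem zb_comp {n k m : ℕ} (H : Finset (Finset (Fin n))) (t : Fin m → Fin n) (s : Fin k → Fin m) :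
    zb H (t ∘ s) = fun S => zb H t (S.image s) := by
  funext S
  rw [zb_eq, zb_eq]
  simp only [Finset.image_image]

theorem MuK.phi_comp {k n : ℕ} (μ : MuK k) (dn dd : ℕ) (H : Finset (Finset (Fin n)))
    (χ : Fin n → Bool) (M : Fin n → Fin n → Bool) (f g : Finset (Fin n) → Bool)
    (t : Fin 6 → Fin n) (s : Fin k → Fin 6) :
    (μ.phi dn dd).F H χ M f g (t ∘ s) = μ.w s (fun i => χ (t i)) (zb H t) (zb (gir χ M f g) t)
      (wb (JJ H χ M f g) dn dd t) := by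
  show ((μ.F (fun i => χ ((t ∘ s) i)) (zb H (t ∘ s)) (zb (gir χ M f g) (t ∘ s))
    (fun x y => Marks.mk (jv (JJ H χ M f g)) dn dd ((t ∘ s) x) ((t ∘ s) y)) : ℕ) : ℤ) = _
  rw [zb_comp, zb_comp]
  rfl

/-- The items. -/
inductive ItemK : Type
  | um (μ : MuK 4)
  | ma (μ : MuK 4)
  | fe (μ : MuK 4)
  | al (μ : MuK 2)
  | ve (μ : MuK 5)
  | vq (μ : MuK 3)
  | mg (R : Rule2) (μ : MuK 2)
  | mt (μ : MuK 5)
  | me (μ : MuK 4)
  | h51 (μ : MuK 5) (ψ : MuK 1) (an ad : ℕ)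
  | l51 (μ : MuK 5) (ψ : MuK 1) (an ad : ℕ)
  | h42 (μ : MuK 4) (ψ : MuK 2) (an ad : ℕ)
  | l42 (μ : MuK 4) (ψ : MuK 2) (an ad : ℕ)
  | h33 (μ : MuK 3) (ψ : MuK 3) (an ad : ℕ)
  | l33 (μ : MuK 3) (ψ : MuK 3) (an ad : ℕ)
  | h24 (μ : MuK 2) (ψ : MuK 4) (an ad : ℕ)
  | l24 (μ : MuK 2) (ψ : MuK 4) (an ad : ℕ)

/-- The function of an item. -/
def ItemK.fn (P : ParC) (i : ItemK) : Fun6 := fun H χ M f g t =>
  match i with
  | .um μ => t1 (jv (JJ H χ M f g)) P.dn P.dd ((μ.phi P.dn P.dd).F H χ M f g) t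
  | .ma μ => Marks.t2 (jv (JJ H χ M f g)) P.dn P.dd ((μ.phi P.dn P.dd).F H χ M f g) t
  | .fe μ => t3 (jv (JJ H χ M f g)) P.dn P.dd P.xn P.xd ((μ.phi P.dn P.dd).F H χ M f g) t
  | .al μ => t7 (jv (JJ H χ M f g)) P.xn P.xd ((μ.phi P.dn P.dd).F H χ M f g) t
  | .ve μ => t5 (jv (JJ H χ M f g)) P.dn P.dd P.vn P.vd (k := 4)
      ((μ.phi P.dn P.dd).F H χ M f g) t
  | .vq μ => t6 (jv (JJ H χ M f g)) P.vn P.vd (k := 2) ((μ.phi P.dn P.dd).F H χ M f g) t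
  | .mg R μ => mvP R (μ.phi P.dn P.dd) H χ M f g t
  | .mt μ => mvT (μ.phi P.dn P.dd) H χ M f g t
  | .me μ => mvE (μ.phi P.dn P.dd) H χ M f g t
  | .h51 μ ψ an ad => (μ.phi P.dn P.dd).F H χ M f g (t ∘ id ∘ Fin.castAdd 1) *
      ((an : ℤ) - ad * (ψ.phi P.dn P.dd).F H χ M f g (t ∘ id ∘ Fin.natAdd 5))
  | .l51 μ ψ an ad => (μ.phi P.dn P.dd).F H χ M f g (t ∘ id ∘ Fin.castAdd 1) *
      (ad * (ψ.phi P.dn P.dd).F H χ M f g (t ∘ id ∘ Fin.natAdd 5) - (an : ℤ))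
  | .h42 μ ψ an ad => (μ.phi P.dn P.dd).F H χ M f g (t ∘ id ∘ Fin.castAdd 2) *
      ((an : ℤ) - ad * (ψ.phi P.dn P.dd).F H χ M f g (t ∘ id ∘ Fin.natAdd 4))
  | .l42 μ ψ an ad => (μ.phi P.dn P.dd).F H χ M f g (t ∘ id ∘ Fin.castAdd 2) *
      (ad * (ψ.phi P.dn P.dd).F H χ M f g (t ∘ id ∘ Fin.natAdd 4) - (an : ℤ))
  | .h33 μ ψ an ad => (μ.phi P.dn P.dd).F H χ M f g (t ∘ id ∘ Fin.castAdd 3) *
      ((an : ℤ) - ad * (ψ.phi P.dn P.dd).F H χ M f g (t ∘ id ∘ Fin.natAdd 3))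
  | .l33 μ ψ an ad => (μ.phi P.dn P.dd).F H χ M f g (t ∘ id ∘ Fin.castAdd 3) *
      (ad * (ψ.phi P.dn P.dd).F H χ M f g (t ∘ id ∘ Fin.natAdd 3) - (an : ℤ))
  | .h24 μ ψ an ad => (μ.phi P.dn P.dd).F H χ M f g (t ∘ id ∘ Fin.castAdd 4) *
      ((an : ℤ) - ad * (ψ.phi P.dn P.dd).F H χ M f g (t ∘ id ∘ Fin.natAdd 2))
  | .l24 μ ψ an ad => (μ.phi P.dn P.dd).F H χ M f g (t ∘ id ∘ Fin.castAdd 4) *
      (ad * (ψ.phi P.dn P.dd).F H χ M f g (t ∘ id ∘ Fin.natAdd 2) - (an : ℤ))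

/-- An upper bound of the average of a function of the vertices in the context. -/
def UpC (Cx : CX) (P : ParC) {m : ℕ} (ψ : MuK m) (an ad : ℕ) : Prop :=
  ∀ {n : ℕ} (H : Finset (Finset (Fin n))) (χ : Fin n → Bool) M f g, Cx H χ M f g →
    (ad : ℤ) * ∑ u, (ψ.phi P.dn P.dd).F H χ M f g u ≤ an * (n : ℤ) ^ m

/-- A lower bound of the average of a function of the vertices in the context. -/
def LoC (Cx : CX) (P : ParC) {m : ℕ} (ψ : MuK m) (an ad : ℕ) : Prop :=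
  ∀ {n : ℕ} (H : Finset (Finset (Fin n))) (χ : Fin n → Bool) M f g, Cx H χ M f g →
    an * (n : ℤ) ^ m ≤ (ad : ℤ) * ∑ u, (ψ.phi P.dn P.dd).F H χ M f g u

/-- The edges of the 4-graph have four vertices. -/
def H4C (Cx : CX) : Prop :=
  ∀ {n : ℕ} (H : Finset (Finset (Fin n))) (χ : Fin n → Bool) M f g, Cx H χ M f g →
    ∀ e ∈ H, e.card = 4

/-- The distance is bounded. -/
def HXC (Cx : CX) (P : ParC) : Prop :=
  ∀ {n : ℕ} (H : Finset (Finset (Fin n))) (χ : Fin n → Bool) M f g, Cx H χ M f g →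
    (P.xd : ℤ) * ∑ p, jv (JJ H χ M f g) p ≤ P.xn * (n : ℤ) ^ 4

/-- The distances at the vertices are bounded. -/
def HVC (Cx : CX) (P : ParC) : Prop :=
  ∀ {n : ℕ} (H : Finset (Finset (Fin n))) (χ : Fin n → Bool) M f g, Cx H χ M f g →
    ∀ x, (P.vd : ℤ) * vs (jv (JJ H χ M f g)) x ≤ P.vn * (n : ℤ) ^ 3

/-- No reference structure with the same colours is closer. -/
def HBC (Cx : CX) : Prop :=
  ∀ {n : ℕ} (H : Finset (Finset (Fin n))) (χ : Fin n → Bool) M f g, Cx H χ M f g →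
    BestM H χ M f g

/-- The conditions on the context for an item. -/
def ItemK.Ok (Cx : CX) (P : ParC) (i : ItemK) : Prop :=
  match i with
  | .um _ => True
  | .ma _ => True
  | .fe _ => HXC Cx P
  | .al _ => HXC Cx P
  | .ve _ => HVC Cx P
  | .vq _ => HVC Cx P
  | .mg _ _ => H4C Cx ∧ HBC Cx
  | .mt _ => H4C Cx ∧ HBC Cx
  | .me _ => H4C Cx ∧ HBC Cx
  | .h51 _ ψ an ad => UpC Cx P ψ an ad
  | .l51 _ ψ an ad => LoC Cx P ψ an ad
  | .h42 _ ψ an ad => UpC Cx P ψ an ad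
  | .l42 _ ψ an ad => LoC Cx P ψ an ad
  | .h33 _ ψ an ad => UpC Cx P ψ an ad
  | .l33 _ ψ an ad => LoC Cx P ψ an ad
  | .h24 _ ψ an ad => UpC Cx P ψ an ad
  | .l24 _ ψ an ad => LoC Cx P ψ an ad

/-- An item has almost nonnegative average. -/
theorem good_itemK (Cx : CX) (P : ParC) (i : ItemK) (h : i.Ok Cx P) :
    GoodC Cx (fun H χ M f g t => i.fn P H χ M f g t) := by
  match i, h with
  | .um μ, _ => exact good_um P.dn P.dd (μ.phi P.dn P.dd)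
  | .ma μ, _ => exact good_ma P.dn P.dd (μ.phi P.dn P.dd)
  | .fe μ, h => exact good_fe P.dn P.dd P.xn P.xd (μ.phi P.dn P.dd) h
  | .al μ, h => exact good_al P.xn P.xd (μ.phi P.dn P.dd) h
  | .ve μ, h => exact good_ve P.dn P.dd P.vn P.vd (μ.phi P.dn P.dd) h
  | .vq μ, h => exact good_vq P.vn P.vd (μ.phi P.dn P.dd) h
  | .mg R μ, h => exact good_mv R (μ.phi P.dn P.dd) h.1 h.2
  | .mt μ, h => exact good_mvT (μ.phi P.dn P.dd) h.1 h.2
  | .me μ, h => exact good_mvE (μ.phi P.dn P.dd) h.1 h.2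
  | .h51 μ ψ an ad, h =>
    exact good_hi (k := 5) (m := 1) (μ.phi P.dn P.dd) (ψ.phi P.dn P.dd) an ad id
      Function.injective_id h
  | .l51 μ ψ an ad, h =>
    exact good_lo (k := 5) (m := 1) (μ.phi P.dn P.dd) (ψ.phi P.dn P.dd) an ad id
      Function.injective_id h
  | .h42 μ ψ an ad, h =>
    exact good_hi (k := 4) (m := 2) (μ.phi P.dn P.dd) (ψ.phi P.dn P.dd) an ad id
      Function.injective_id h
  | .l42 μ ψ an ad, h =>
    exact good_lo (k := 4) (m := 2) (μ.phi P.dn P.dd) (ψ.phi P.dn P.dd) an ad id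
      Function.injective_id h
  | .h33 μ ψ an ad, h =>
    exact good_hi (k := 3) (m := 3) (μ.phi P.dn P.dd) (ψ.phi P.dn P.dd) an ad id
      Function.injective_id h
  | .l33 μ ψ an ad, h =>
    exact good_lo (k := 3) (m := 3) (μ.phi P.dn P.dd) (ψ.phi P.dn P.dd) an ad id
      Function.injective_id h
  | .h24 μ ψ an ad, h =>
    exact good_hi (k := 2) (m := 4) (μ.phi P.dn P.dd) (ψ.phi P.dn P.dd) an ad id
      Function.injective_id h
  | .l24 μ ψ an ad, h =>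
    exact good_lo (k := 2) (m := 4) (μ.phi P.dn P.dd) (ψ.phi P.dn P.dd) an ad id
      Function.injective_id h

/-- The value of an item on a window: `c` are the colours, `e` is the 4-graph, `r` is the reference
structure and `b` are the marks. -/
def ItemK.val (P : ParC) (i : ItemK) (c : Fin 6 → Bool) (e r : Finset (Fin 6) → Bool)
    (b : Fin 6 → Fin 6 → Bool) : ℤ :=
  match i with
  | .um μ => if b 0 1 = true then 0 else μ.w (Fin.castAdd 2) c e r b *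
      ((P.dn : ℤ) - P.dd * ((e {0, 1, 4, 5} ^^ r {0, 1, 4, 5}).toNat : ℕ))
  | .ma μ => if b 0 1 = true then μ.w (Fin.castAdd 2) c e r b *
      ((P.dd : ℤ) * ((e {0, 1, 4, 5} ^^ r {0, 1, 4, 5}).toNat : ℕ) - P.dn) else 0
  | .fe μ => μ.w (Fin.castAdd 2) c e r b *
      ((P.xn : ℤ) * P.dd - P.xd * P.dn * (b 4 5).toNat)
  | .al μ => μ.w (Fin.castAdd 4) c e r b *
      ((P.xn : ℤ) - P.xd * ((e {2, 3, 4, 5} ^^ r {2, 3, 4, 5}).toNat : ℕ))
  | .ve μ => μ.w (Fin.castAdd 1) c e r b *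
      ((P.vn : ℤ) * P.dd - P.vd * P.dn * (b 0 5).toNat)
  | .vq μ => μ.w (Fin.castAdd 3) c e r b *
      ((P.vn : ℤ) - P.vd * ((e {0, 3, 4, 5} ^^ r {0, 3, 4, 5}).toNat : ℕ))
  | .mg R μ => μ.w (Fin.castAdd 4) c e r b *
      ((((e {2, 3, 4, 5} ^^ (r {2, 3, 4, 5} ^^ R.win e r c)).toNat : ℕ) : ℤ) -
        ((e {2, 3, 4, 5} ^^ r {2, 3, 4, 5}).toNat : ℕ))
  | .mt μ => μ.w (Fin.castAdd 1) c e r b * (if c 0 = c 1 ∧ c 1 = c 2 then
      1 - 2 * ((e {0, 1, 2, 5} ^^ r {0, 1, 2, 5}).toNat : ℤ) else 0)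
  | .me μ => μ.w (Fin.castAdd 2) c e r b * (if (c 0 = false ∧ c 1 = true) ∧ c 4 ≠ c 5 then
      1 - 2 * ((e {0, 1, 4, 5} ^^ r {0, 1, 4, 5}).toNat : ℤ) else 0)
  | .h51 μ ψ an ad => μ.w (Fin.castAdd 1) c e r b *
      ((an : ℤ) - ad * ψ.w (Fin.natAdd 5) c e r b)
  | .l51 μ ψ an ad => μ.w (Fin.castAdd 1) c e r b *
      (ad * ψ.w (Fin.natAdd 5) c e r b - (an : ℤ))
  | .h42 μ ψ an ad => μ.w (Fin.castAdd 2) c e r b *
      ((an : ℤ) - ad * ψ.w (Fin.natAdd 4) c e r b)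
  | .l42 μ ψ an ad => μ.w (Fin.castAdd 2) c e r b *
      (ad * ψ.w (Fin.natAdd 4) c e r b - (an : ℤ))
  | .h33 μ ψ an ad => μ.w (Fin.castAdd 3) c e r b *
      ((an : ℤ) - ad * ψ.w (Fin.natAdd 3) c e r b)
  | .l33 μ ψ an ad => μ.w (Fin.castAdd 3) c e r b *
      (ad * ψ.w (Fin.natAdd 3) c e r b - (an : ℤ))
  | .h24 μ ψ an ad => μ.w (Fin.castAdd 4) c e r b *
      ((an : ℤ) - ad * ψ.w (Fin.natAdd 2) c e r b)
  | .l24 μ ψ an ad => μ.w (Fin.castAdd 4) c e r b *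
      (ad * ψ.w (Fin.natAdd 2) c e r b - (an : ℤ))

section val
variable {n : ℕ} (H : Finset (Finset (Fin n))) (χ : Fin n → Bool) (M : Fin n → Fin n → Bool)
  (f g : Finset (Fin n) → Bool) (t : Fin 6 → Fin n)

theorem mE_win4 (J : Finset (Finset (Fin n))) (a b c d : Fin 6) :
    mE J {t a, t b, t c, t d} = wA J t {a, b, c, d} := by
  unfold mE wA
  simp only [Finset.image_insert, Finset.image_singleton]

/-- An item on a window. -/
theorem ItemK.val_eq (P : ParC) (i : ItemK) (ht : Function.Injective t) :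
    i.fn P H χ M f g t = i.val P (fun x => χ (t x)) (zb H t) (zb (gir χ M f g) t)
      (wb (JJ H χ M f g) P.dn P.dd t) := by
  have w2 := fun μ : MuK 2 => μ.phi_comp P.dn P.dd H χ M f g t (Fin.castAdd 4)
  have w3 := fun μ : MuK 3 => μ.phi_comp P.dn P.dd H χ M f g t (Fin.castAdd 3)
  have w4 := fun μ : MuK 4 => μ.phi_comp P.dn P.dd H χ M f g t (Fin.castAdd 2)
  have w5 := fun μ : MuK 5 => μ.phi_comp P.dn P.dd H χ M f g t (Fin.castAdd 1)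
  have v1 := fun μ : MuK 1 => μ.phi_comp P.dn P.dd H χ M f g t (Fin.natAdd 5)
  have v2 := fun μ : MuK 2 => μ.phi_comp P.dn P.dd H χ M f g t (Fin.natAdd 4)
  have v3 := fun μ : MuK 3 => μ.phi_comp P.dn P.dd H χ M f g t (Fin.natAdd 3)
  have v4 := fun μ : MuK 4 => μ.phi_comp P.dn P.dd H χ M f g t (Fin.natAdd 2)
  have j1 := jv_win4 H (gir χ M f g) t ht 0 1 4 5 (by decide)
  have j2 := jv_win4 H (gir χ M f g) t ht 2 3 4 5 (by decide)
  have j3 := jv_win4 H (gir χ M f g) t ht 0 3 4 5 (by decide)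
  match i with
  | .um μ =>
    show t1 (jv (JJ H χ M f g)) P.dn P.dd ((μ.phi P.dn P.dd).F H χ M f g) t = _
    unfold t1
    rw [w4, j1]
    rfl
  | .ma μ =>
    show Marks.t2 (jv (JJ H χ M f g)) P.dn P.dd ((μ.phi P.dn P.dd).F H χ M f g) t = _
    unfold Marks.t2
    rw [w4, j1]
    rfl
  | .fe μ =>
    show t3 (jv (JJ H χ M f g)) P.dn P.dd P.xn P.xd ((μ.phi P.dn P.dd).F H χ M f g) t = _
    unfold t3
    rw [w4]
    rfl
  | .al μ =>
    show t7 (jv (JJ H χ M f g)) P.xn P.xd ((μ.phi P.dn P.dd).F H χ M f g) t = _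
    unfold t7
    rw [w2, j2]
    rfl
  | .ve μ =>
    show t5 (jv (JJ H χ M f g)) P.dn P.dd P.vn P.vd (k := 4)
      ((μ.phi P.dn P.dd).F H χ M f g) t = _
    unfold t5
    rw [w5]
    rfl
  | .vq μ =>
    show t6 (jv (JJ H χ M f g)) P.vn P.vd (k := 2) ((μ.phi P.dn P.dd).F H χ M f g) t = _
    unfold t6
    have e2 : jv (JJ H χ M f g) ![t 0, t (Fin.natAdd (2 + 1) (0 : Fin 3)),
        t (Fin.natAdd (2 + 1) (1 : Fin 3)), t (Fin.natAdd (2 + 1) (2 : Fin 3))] =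
        ((zb H t {0, 3, 4, 5} ^^ zb (gir χ M f g) t {0, 3, 4, 5}).toNat : ℕ) := j3
    rw [w3, e2]
    rfl
  | .mg R μ =>
    show mvP R (μ.phi P.dn P.dd) H χ M f g t = _
    unfold mvP
    rw [w2, j2, jv_win4 H _ t ht 2 3 4 5 (by decide), R.win_eq H χ M f g t ht]
    rfl
  | .mt μ =>
    show mvT (μ.phi P.dn P.dd) H χ M f g t = _
    unfold mvT
    rw [w5, mE_win4 t (JJ H χ M f g) 0 1 2 5, wA_sd]
    show _ = _ * (if χ (t 0) = χ (t 1) ∧ χ (t 1) = χ (t 2) then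
      1 - 2 * ((zb H t {0, 1, 2, 5} ^^ zb (gir χ M f g) t {0, 1, 2, 5}).toNat : ℤ) else 0)
    congr 1
    have i3 : Function.Injective ![t 0, t 1, t 2] := by
      have e : (![t 0, t 1, t 2] : Fin 3 → Fin n) = t ∘ ![0, 1, 2] := by
        funext x
        fin_cases x <;> rfl
      rw [e]
      exact ht.comp (by decide)
    exact if_congr ⟨fun h => h.1.1, fun h => ⟨⟨h, i3⟩, inj4t t ht 0 1 2 5 (by decide)⟩⟩ rfl rfl
  | .me μ =>
    show mvE (μ.phi P.dn P.dd) H χ M f g t = _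
    unfold mvE
    rw [w4, mE_win4 t (JJ H χ M f g) 0 1 4 5, wA_sd]
    show _ = _ * (if (χ (t 0) = false ∧ χ (t 1) = true) ∧ χ (t 4) ≠ χ (t 5) then
      1 - 2 * ((zb H t {0, 1, 4, 5} ^^ zb (gir χ M f g) t {0, 1, 4, 5}).toNat : ℤ) else 0)
    congr 1
    exact if_congr ⟨fun h => ⟨h.1, h.2.2⟩, fun h => ⟨h.1, inj4t t ht 0 1 4 5 (by decide), h.2⟩⟩
      rfl rfl
  | .h51 μ ψ an ad =>
    show (μ.phi P.dn P.dd).F H χ M f g (t ∘ Fin.castAdd 1) *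
      ((an : ℤ) - ad * (ψ.phi P.dn P.dd).F H χ M f g (t ∘ Fin.natAdd 5)) = _
    rw [w5, v1]
    rfl
  | .l51 μ ψ an ad =>
    show (μ.phi P.dn P.dd).F H χ M f g (t ∘ Fin.castAdd 1) *
      (ad * (ψ.phi P.dn P.dd).F H χ M f g (t ∘ Fin.natAdd 5) - (an : ℤ)) = _
    rw [w5, v1]
    rfl
  | .h42 μ ψ an ad =>
    show (μ.phi P.dn P.dd).F H χ M f g (t ∘ Fin.castAdd 2) *
      ((an : ℤ) - ad * (ψ.phi P.dn P.dd).F H χ M f g (t ∘ Fin.natAdd 4)) = _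
    rw [w4, v2]
    rfl
  | .l42 μ ψ an ad =>
    show (μ.phi P.dn P.dd).F H χ M f g (t ∘ Fin.castAdd 2) *
      (ad * (ψ.phi P.dn P.dd).F H χ M f g (t ∘ Fin.natAdd 4) - (an : ℤ)) = _
    rw [w4, v2]
    rfl
  | .h33 μ ψ an ad =>
    show (μ.phi P.dn P.dd).F H χ M f g (t ∘ Fin.castAdd 3) *
      ((an : ℤ) - ad * (ψ.phi P.dn P.dd).F H χ M f g (t ∘ Fin.natAdd 3)) = _
    rw [w3, v3]
    rfl
  | .l33 μ ψ an ad =>
    show (μ.phi P.dn P.dd).F H χ M f g (t ∘ Fin.castAdd 3) *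
      (ad * (ψ.phi P.dn P.dd).F H χ M f g (t ∘ Fin.natAdd 3) - (an : ℤ)) = _
    rw [w3, v3]
    rfl
  | .h24 μ ψ an ad =>
    show (μ.phi P.dn P.dd).F H χ M f g (t ∘ Fin.castAdd 4) *
      ((an : ℤ) - ad * (ψ.phi P.dn P.dd).F H χ M f g (t ∘ Fin.natAdd 2)) = _
    rw [w2, v4]
    rfl
  | .l24 μ ψ an ad =>
    show (μ.phi P.dn P.dd).F H χ M f g (t ∘ Fin.castAdd 4) *
      (ad * (ψ.phi P.dn P.dd).F H χ M f g (t ∘ Fin.natAdd 2) - (an : ℤ)) = _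
    rw [w2, v4]
    rfl

end val

end Pool.Agent.Lib.MP_afdd4d_co.K9.Star
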