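import Pool.Agent.Lib.MP_afdd4d_co.K9.W6Def

/-!
# The arrays of a row

For given colours and a given difference on a window of six vertices, the array over all even 4-graphs
on the window of the sum of all kernels and of a function of the five-sets.
-/

namespace Pool.Agent.Lib.MP_afdd4d_co.K9.W6

open Finset K8
open Pool.Agent.Lib.MP_afdd4d_co.K9.Star

/-! ### Tables -/

/-- The linear forms of the quadruples for even 4-graphs. -/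
def exL : List ℕ :=
  [2, 4, 8, 16, 30, 32, 64, 128, 226, 256, 512, 804, 1024, 1352, 1680]

/-- The quadruples of the triples of roots with the two vertices. -/
def lkL : List (List (List ℕ)) :=
  [[[3, 7, 10, 12], [4, 8, 11, 13]], [[2, 6, 9, 12], [4, 8, 11, 14]], [[1, 5, 9, 10], [4, 8, 13,
  14]], [[0, 5, 6, 7], [4, 11, 13, 14]], [[0, 1, 2, 3], [8, 11, 13, 14]], [[2, 6, 9, 13], [3, 7,
  10, 14]], [[1, 5, 9, 11], [3, 7, 12, 14]], [[0, 5, 6, 8], [3, 10, 12, 14]], [[0, 1, 2, 4], [7,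
  10, 12, 14]], [[1, 5, 10, 11], [2, 6, 12, 13]], [[0, 5, 7, 8], [2, 9, 12, 13]], [[0, 1, 3, 4],
  [6, 9, 12, 13]], [[0, 6, 7, 8], [1, 9, 10, 11]], [[0, 2, 3, 4], [5, 9, 10, 11]], [[1, 2, 3,
  4], [5, 6, 7, 8]]]

/-- The quadruples of the roots. -/
def qrL : List ℕ :=
  [14, 13, 11, 8, 4, 12, 10, 7, 3, 9, 6, 2, 5, 1, 0]

/-- The quadruples of the roots and the first flag. -/
def q1L : List ℕ :=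
  [0, 1, 5, 0, 1, 5, 0, 2, 6, 1, 2, 9, 5, 6, 9, 0, 1, 5, 0, 2, 6, 1, 2, 9, 5, 6, 9, 0, 3, 7, 1,
  3, 10, 5, 7, 10, 2, 3, 12, 6, 7, 12, 9, 10, 12]

/-- The quadruples of the roots and the second flag. -/
def q2L : List ℕ :=
  [9, 6, 2, 10, 7, 3, 12, 7, 3, 12, 10, 3, 12, 10, 7, 11, 8, 4, 13, 8, 4, 13, 11, 4, 13, 11, 8,
  14, 8, 4, 14, 11, 4, 14, 11, 8, 14, 13, 4, 14, 13, 8, 14, 13, 11]

/-- The quadruples of the five-sets. -/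
def fsL : List (List ℕ) :=
  [[4, 8, 11, 13, 14], [3, 7, 10, 12, 14], [2, 6, 9, 12, 13], [1, 5, 9, 10, 11], [0, 5, 6, 7,
  8], [0, 1, 2, 3, 4]]

/-- The programs for the kernels with four roots. -/
def prL : List (List (List (ℕ × ℕ × ℕ))) :=
  [[[(0, 7, 0), (0, 8, 0), (0, 9, 0), (2, 4, 1), (2, 4, 6), (2, 5, 2), (2, 5, 6), (2, 3, 0), (2,
  3, 6), (2, 7, 0), (2, 8, 0), (2, 7, 1), (2, 9, 1), (2, 8, 2), (2, 9, 2), (1, 0, 7), (1, 1, 8),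
  (1, 2, 7), (1, 4, 9), (1, 5, 8), (1, 6, 9)], [(0, 7, 0), (0, 8, 0), (0, 9, 0), (2, 4, 1), (2,
  4, 6), (2, 5, 2), (2, 5, 6), (2, 3, 0), (2, 3, 6), (2, 7, 0), (2, 8, 0), (2, 7, 1), (2, 9, 1),
  (2, 8, 2), (2, 9, 2), (1, 0, 7), (1, 1, 8), (1, 2, 3), (1, 3, 7), (1, 4, 9), (1, 5, 9), (1, 6,
  8), (1, 7, 9), (1, 8, 9)], [(0, 7, 0), (0, 8, 0), (0, 9, 0), (2, 4, 1), (2, 4, 6), (2, 5, 2),
  (2, 5, 6), (2, 3, 0), (2, 3, 6), (2, 8, 0), (2, 9, 0), (2, 8, 1), (2, 7, 1), (2, 9, 2), (2, 7,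
  2), (1, 0, 8), (1, 1, 3), (1, 2, 9), (1, 3, 8), (1, 5, 7), (1, 6, 8)], [(0, 7, 0), (0, 8, 0),
  (0, 9, 0), (2, 4, 1), (2, 4, 6), (2, 5, 2), (2, 5, 6), (2, 3, 0), (2, 3, 6), (2, 8, 0), (2, 9,
  0), (2, 8, 1), (2, 7, 1), (2, 9, 2), (2, 7, 2), (1, 0, 3), (1, 1, 8), (1, 2, 9)], [(0, 7, 0),
  (0, 8, 0), (0, 9, 0), (2, 4, 1), (2, 4, 6), (2, 5, 2), (2, 5, 6), (2, 3, 0), (2, 3, 6), (2, 8,
  0), (2, 9, 0), (2, 8, 1), (2, 7, 1), (2, 9, 2), (2, 7, 2), (1, 0, 3), (1, 1, 4), (1, 2, 5),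
  (1, 3, 6), (1, 4, 8), (1, 5, 9)], [(0, 7, 0), (0, 8, 0), (0, 9, 0), (1, 0, 7), (1, 1, 8), (1,
  2, 3), (1, 3, 7), (1, 4, 9), (1, 5, 9), (1, 6, 8), (1, 7, 9), (1, 8, 9)], [(0, 7, 0), (0, 8,
  0), (0, 9, 0), (1, 0, 8), (1, 1, 3), (1, 2, 9), (1, 3, 8), (1, 5, 7), (1, 6, 8)], [(0, 7, 0),
  (0, 8, 0), (0, 9, 0), (1, 0, 3), (1, 1, 8), (1, 2, 9)], [(0, 7, 0), (0, 8, 0), (0, 9, 0), (1,
  0, 3), (1, 1, 4), (1, 2, 5), (1, 3, 6), (1, 4, 8), (1, 5, 9)], [(0, 7, 0), (0, 8, 0), (0, 9,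
  0), (1, 0, 8), (1, 1, 3), (1, 2, 8), (1, 3, 9), (1, 5, 9), (1, 6, 7), (1, 8, 9)], [(0, 7, 0),
  (0, 8, 0), (0, 9, 0), (1, 0, 3), (1, 1, 7), (1, 2, 3), (1, 3, 9), (1, 5, 6)], [(0, 7, 0), (0,
  8, 0), (0, 9, 0), (1, 0, 3), (1, 1, 4), (1, 2, 6), (1, 3, 5), (1, 4, 7), (1, 6, 9)], [(0, 7,
  0), (0, 8, 0), (0, 9, 0), (1, 0, 3), (1, 1, 3), (1, 2, 8), (1, 3, 7), (1, 4, 6), (1, 5, 6)],
  [(0, 7, 0), (0, 8, 0), (0, 9, 0), (1, 0, 3), (1, 1, 6), (1, 2, 4), (1, 3, 5), (1, 4, 5), (1,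
  5, 7), (1, 6, 8), (1, 7, 8)], [(0, 7, 0), (0, 8, 0), (0, 9, 0), (1, 0, 6), (1, 1, 3), (1, 2,
  4), (1, 3, 5), (1, 4, 6)]], [[(0, 7, 0), (0, 8, 0), (0, 9, 0), (2, 4, 1), (2, 4, 6), (2, 5,
  2), (2, 5, 6), (2, 3, 0), (2, 3, 6), (2, 8, 0), (2, 9, 0), (2, 8, 1), (2, 7, 1), (2, 9, 2),
  (2, 7, 2), (1, 3, 6), (1, 4, 8), (1, 5, 9)], [(0, 7, 0), (0, 8, 0), (0, 9, 0), (2, 4, 1), (2,
  4, 6), (2, 5, 2), (2, 5, 6), (2, 3, 0), (2, 3, 6), (2, 7, 0), (2, 9, 0), (2, 7, 1), (2, 8, 1),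
  (2, 9, 2), (2, 8, 2), (1, 2, 6), (1, 3, 6), (1, 4, 7), (1, 5, 6), (1, 6, 9)], [(0, 7, 0), (0,
  8, 0), (0, 9, 0), (2, 4, 1), (2, 4, 6), (2, 5, 2), (2, 5, 6), (2, 3, 0), (2, 3, 6), (2, 8, 0),
  (2, 7, 0), (2, 8, 1), (2, 9, 1), (2, 7, 2), (2, 9, 2), (1, 1, 6), (1, 2, 6), (1, 3, 6), (1, 4,
  6), (1, 5, 8), (1, 6, 7)], [(0, 7, 0), (0, 8, 0), (0, 9, 0), (2, 4, 1), (2, 4, 6), (2, 5, 2),
  (2, 5, 6), (2, 3, 0), (2, 3, 6), (2, 7, 0), (2, 8, 0), (2, 7, 1), (2, 9, 1), (2, 8, 2), (2, 9,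
  2), (1, 0, 6), (1, 1, 6), (1, 2, 6), (1, 3, 6), (1, 4, 6), (1, 5, 6)], [(0, 7, 0), (0, 8, 0),
  (0, 9, 0), (2, 4, 1), (2, 4, 6), (2, 5, 2), (2, 5, 6), (2, 3, 0), (2, 3, 6), (2, 7, 0), (2, 8,
  0), (2, 7, 1), (2, 9, 1), (2, 8, 2), (2, 9, 2), (1, 0, 6), (1, 1, 3), (1, 2, 4), (1, 3, 5),
  (1, 4, 6)], [(0, 7, 0), (0, 8, 0), (0, 9, 0), (2, 4, 5), (2, 1, 2), (2, 0, 2), (2, 3, 5), (2,
  6, 2), (2, 6, 5), (1, 0, 9), (1, 1, 8), (1, 2, 5), (1, 3, 5), (1, 4, 7), (1, 6, 9)], [(0, 7,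
  0), (0, 8, 0), (0, 9, 0), (2, 4, 5), (2, 1, 2), (2, 0, 2), (2, 3, 5), (2, 6, 2), (2, 6, 5),
  (1, 0, 7), (1, 1, 5), (1, 2, 8), (1, 3, 8), (1, 4, 8), (1, 5, 9), (1, 6, 7), (1, 7, 8)], [(0,
  7, 0), (0, 8, 0), (0, 9, 0), (2, 4, 5), (2, 1, 2), (2, 0, 2), (2, 3, 5), (2, 6, 2), (2, 6, 5),
  (1, 0, 5), (1, 1, 9), (1, 2, 8), (1, 3, 8), (1, 4, 8), (1, 5, 8)], [(0, 7, 0), (0, 8, 0), (0,
  9, 0), (2, 4, 5), (2, 1, 2), (2, 0, 2), (2, 3, 5), (2, 6, 2), (2, 6, 5), (1, 0, 5), (1, 1, 3),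
  (1, 2, 4), (1, 3, 6), (1, 4, 8), (1, 5, 9), (1, 6, 8), (1, 8, 9)], [(0, 7, 0), (0, 8, 0), (0,
  9, 0), (2, 4, 5), (2, 1, 2), (2, 0, 2), (2, 3, 5), (2, 6, 2), (2, 6, 5), (1, 0, 8), (1, 1, 5),
  (1, 3, 9), (1, 4, 9), (1, 5, 8), (1, 6, 7), (1, 8, 9)], [(0, 7, 0), (0, 8, 0), (0, 9, 0), (2,
  4, 5), (2, 1, 2), (2, 0, 2), (2, 3, 5), (2, 6, 2), (2, 6, 5), (1, 0, 5), (1, 1, 9), (1, 3, 7),
  (1, 4, 7), (1, 5, 6), (1, 6, 7)], [(0, 7, 0), (0, 8, 0), (0, 9, 0), (2, 4, 5), (2, 1, 2), (2,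
  0, 2), (2, 3, 5), (2, 6, 2), (2, 6, 5), (1, 0, 5), (1, 1, 3), (1, 2, 6), (1, 3, 4), (1, 4, 7),
  (1, 5, 6), (1, 6, 9), (1, 7, 9)], [(0, 7, 0), (0, 8, 0), (0, 9, 0), (2, 4, 5), (2, 1, 2), (2,
  0, 2), (2, 3, 5), (2, 6, 2), (2, 6, 5), (1, 0, 5), (1, 1, 2), (1, 2, 7), (1, 3, 8), (1, 4, 6),
  (1, 5, 8), (1, 7, 8)], [(0, 7, 0), (0, 8, 0), (0, 9, 0), (2, 4, 5), (2, 1, 2), (2, 0, 2), (2,
  3, 5), (2, 6, 2), (2, 6, 5), (1, 0, 5), (1, 1, 6), (1, 2, 3), (1, 3, 4), (1, 5, 7), (1, 6,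
  8)], [(0, 7, 0), (0, 8, 0), (0, 9, 0), (2, 4, 5), (2, 1, 2), (2, 0, 2), (2, 3, 5), (2, 6, 2),
  (2, 6, 5), (1, 0, 6), (1, 1, 5), (1, 2, 3), (1, 3, 4), (1, 5, 6)]]]

/-- The programs for the kernels with two roots. -/
def p2L : List (List (ℕ × ℕ × ℕ)) :=
  [[(0, 2, 0), (0, 3, 0), (0, 4, 0), (0, 5, 0), (0, 6, 0), (0, 7, 0), (0, 8, 0), (0, 9, 0), (1,
  1, 7)], [(0, 2, 0), (0, 3, 0), (0, 4, 0), (0, 5, 0), (0, 6, 0), (0, 7, 0), (0, 8, 0), (0, 9,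
  0), (1, 0, 5), (1, 1, 5)], [(0, 2, 0), (0, 3, 0), (0, 4, 0), (0, 5, 0), (0, 6, 0), (0, 7, 0),
  (0, 8, 0), (0, 9, 0), (1, 0, 4), (1, 1, 2)], [(0, 2, 0), (0, 3, 0), (0, 4, 0), (0, 5, 0), (0,
  6, 0), (0, 7, 0), (0, 8, 0), (0, 9, 0), (1, 1, 8)], [(0, 2, 0), (0, 3, 0), (0, 4, 0), (0, 5,
  0), (0, 6, 0), (0, 7, 0), (0, 8, 0), (0, 9, 0), (1, 0, 6), (1, 1, 6)], [(0, 2, 0), (0, 3, 0),
  (0, 4, 0), (0, 5, 0), (0, 6, 0), (0, 7, 0), (0, 8, 0), (0, 9, 0), (1, 0, 4), (1, 1, 3)], [(0,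
  2, 0), (0, 3, 0), (0, 4, 0), (0, 5, 0), (0, 6, 0), (0, 7, 0), (0, 8, 0), (0, 9, 0), (1, 1,
  9)], [(0, 2, 0), (0, 3, 0), (0, 4, 0), (0, 5, 0), (0, 6, 0), (0, 7, 0), (0, 8, 0), (0, 9, 0),
  (1, 0, 2), (1, 1, 6)], [(0, 2, 0), (0, 3, 0), (0, 4, 0), (0, 5, 0), (0, 6, 0), (0, 7, 0), (0,
  8, 0), (0, 9, 0), (1, 0, 5), (1, 1, 3)], [(0, 2, 0), (0, 3, 0), (0, 4, 0), (0, 5, 0), (0, 6,
  0), (0, 7, 0), (0, 8, 0), (0, 9, 0), (1, 0, 9), (1, 1, 9)], [(0, 2, 0), (0, 3, 0), (0, 4, 0),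
  (0, 5, 0), (0, 6, 0), (0, 7, 0), (0, 8, 0), (0, 9, 0), (1, 0, 2), (1, 1, 8)], [(0, 2, 0), (0,
  3, 0), (0, 4, 0), (0, 5, 0), (0, 6, 0), (0, 7, 0), (0, 8, 0), (0, 9, 0), (1, 0, 7), (1, 1,
  3)], [(0, 2, 0), (0, 3, 0), (0, 4, 0), (0, 5, 0), (0, 6, 0), (0, 7, 0), (0, 8, 0), (0, 9, 0),
  (1, 0, 4), (1, 1, 9)], [(0, 2, 0), (0, 3, 0), (0, 4, 0), (0, 5, 0), (0, 6, 0), (0, 7, 0), (0,
  8, 0), (0, 9, 0), (1, 0, 5), (1, 1, 8)], [(0, 2, 0), (0, 3, 0), (0, 4, 0), (0, 5, 0), (0, 6,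
  0), (0, 7, 0), (0, 8, 0), (0, 9, 0), (1, 0, 7), (1, 1, 6)], [(0, 2, 0), (0, 3, 0), (0, 4, 0),
  (0, 5, 0), (0, 6, 0), (0, 7, 0), (0, 8, 0), (0, 9, 0), (2, 4, 1), (2, 7, 1), (2, 8, 1)], [(0,
  2, 0), (0, 3, 0), (0, 4, 0), (0, 5, 0), (0, 6, 0), (0, 7, 0), (0, 8, 0), (0, 9, 0), (2, 4, 1),
  (2, 5, 1), (2, 6, 1), (1, 0, 1)], [(0, 2, 0), (0, 3, 0), (0, 4, 0), (0, 5, 0), (0, 6, 0), (0,
  7, 0), (0, 8, 0), (0, 9, 0), (2, 4, 1), (2, 2, 1), (2, 3, 1), (1, 0, 4)], [(0, 2, 0), (0, 3,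
  0), (0, 4, 0), (0, 5, 0), (0, 6, 0), (0, 7, 0), (0, 8, 0), (0, 9, 0), (2, 2, 1), (2, 5, 1),
  (2, 7, 1), (1, 1, 9)], [(0, 2, 0), (0, 3, 0), (0, 4, 0), (0, 5, 0), (0, 6, 0), (0, 7, 0), (0,
  8, 0), (0, 9, 0), (2, 4, 1), (2, 5, 1), (2, 6, 1), (1, 0, 1), (1, 1, 2)], [(0, 2, 0), (0, 3,
  0), (0, 4, 0), (0, 5, 0), (0, 6, 0), (0, 7, 0), (0, 8, 0), (0, 9, 0), (2, 5, 1), (2, 2, 1),
  (2, 3, 1), (1, 0, 5)], [(0, 2, 0), (0, 3, 0), (0, 4, 0), (0, 5, 0), (0, 6, 0), (0, 7, 0), (0,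
  8, 0), (0, 9, 0), (2, 5, 1), (2, 7, 1), (2, 9, 1), (1, 0, 2), (1, 1, 2)], [(0, 2, 0), (0, 3,
  0), (0, 4, 0), (0, 5, 0), (0, 6, 0), (0, 7, 0), (0, 8, 0), (0, 9, 0), (2, 4, 1), (2, 7, 1),
  (2, 8, 1), (1, 0, 2)], [(0, 2, 0), (0, 3, 0), (0, 4, 0), (0, 5, 0), (0, 6, 0), (0, 7, 0), (0,
  8, 0), (0, 9, 0), (2, 7, 1), (2, 2, 1), (2, 3, 1), (1, 0, 7)], [(0, 2, 0), (0, 3, 0), (0, 4,
  0), (0, 5, 0), (0, 6, 0), (0, 7, 0), (0, 8, 0), (0, 9, 0), (2, 5, 1), (2, 7, 1), (2, 9, 1),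
  (1, 0, 4), (1, 1, 2)], [(0, 2, 0), (0, 3, 0), (0, 4, 0), (0, 5, 0), (0, 6, 0), (0, 7, 0), (0,
  8, 0), (0, 9, 0), (2, 4, 1), (2, 7, 1), (2, 8, 1), (1, 0, 5)], [(0, 2, 0), (0, 3, 0), (0, 4,
  0), (0, 5, 0), (0, 6, 0), (0, 7, 0), (0, 8, 0), (0, 9, 0), (2, 4, 1), (2, 5, 1), (2, 6, 1),
  (1, 0, 1), (1, 1, 7)], [(0, 2, 0), (0, 3, 0), (0, 4, 0), (0, 5, 0), (0, 6, 0), (0, 7, 0), (0,
  8, 0), (0, 9, 0), (2, 3, 1), (2, 6, 1), (2, 8, 1), (1, 1, 9)], [(0, 2, 0), (0, 3, 0), (0, 4,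
  0), (0, 5, 0), (0, 6, 0), (0, 7, 0), (0, 8, 0), (0, 9, 0), (2, 4, 1), (2, 5, 1), (2, 6, 1),
  (1, 0, 1), (1, 1, 3)], [(0, 2, 0), (0, 3, 0), (0, 4, 0), (0, 5, 0), (0, 6, 0), (0, 7, 0), (0,
  8, 0), (0, 9, 0), (2, 6, 1), (2, 2, 1), (2, 3, 1), (1, 0, 6)], [(0, 2, 0), (0, 3, 0), (0, 4,
  0), (0, 5, 0), (0, 6, 0), (0, 7, 0), (0, 8, 0), (0, 9, 0), (2, 6, 1), (2, 8, 1), (2, 9, 1),
  (1, 0, 3), (1, 1, 3)], [(0, 2, 0), (0, 3, 0), (0, 4, 0), (0, 5, 0), (0, 6, 0), (0, 7, 0), (0,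
  8, 0), (0, 9, 0), (2, 4, 1), (2, 7, 1), (2, 8, 1), (1, 0, 3)], [(0, 2, 0), (0, 3, 0), (0, 4,
  0), (0, 5, 0), (0, 6, 0), (0, 7, 0), (0, 8, 0), (0, 9, 0), (2, 8, 1), (2, 2, 1), (2, 3, 1),
  (1, 0, 8)], [(0, 2, 0), (0, 3, 0), (0, 4, 0), (0, 5, 0), (0, 6, 0), (0, 7, 0), (0, 8, 0), (0,
  9, 0), (2, 6, 1), (2, 8, 1), (2, 9, 1), (1, 0, 4), (1, 1, 3)], [(0, 2, 0), (0, 3, 0), (0, 4,
  0), (0, 5, 0), (0, 6, 0), (0, 7, 0), (0, 8, 0), (0, 9, 0), (2, 4, 1), (2, 7, 1), (2, 8, 1),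
  (1, 0, 6)], [(0, 2, 0), (0, 3, 0), (0, 4, 0), (0, 5, 0), (0, 6, 0), (0, 7, 0), (0, 8, 0), (0,
  9, 0), (2, 4, 1), (2, 5, 1), (2, 6, 1), (1, 0, 1), (1, 1, 8)], [(0, 2, 0), (0, 3, 0), (0, 4,
  0), (0, 5, 0), (0, 6, 0), (0, 7, 0), (0, 8, 0), (0, 9, 0), (2, 6, 1), (2, 8, 1), (2, 9, 1),
  (1, 0, 2), (1, 1, 3)], [(0, 2, 0), (0, 3, 0), (0, 4, 0), (0, 5, 0), (0, 6, 0), (0, 7, 0), (0,
  8, 0), (0, 9, 0), (2, 5, 1), (2, 7, 1), (2, 9, 1), (1, 0, 3), (1, 1, 2)], [(0, 2, 0), (0, 3,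
  0), (0, 4, 0), (0, 5, 0), (0, 6, 0), (0, 7, 0), (0, 8, 0), (0, 9, 0), (2, 9, 1), (2, 2, 1),
  (2, 3, 1), (1, 0, 9)], [(0, 2, 0), (0, 3, 0), (0, 4, 0), (0, 5, 0), (0, 6, 0), (0, 7, 0), (0,
  8, 0), (0, 9, 0), (2, 6, 1), (2, 8, 1), (2, 9, 1), (1, 0, 5), (1, 1, 3)], [(0, 2, 0), (0, 3,
  0), (0, 4, 0), (0, 5, 0), (0, 6, 0), (0, 7, 0), (0, 8, 0), (0, 9, 0), (2, 5, 1), (2, 7, 1),
  (2, 9, 1), (1, 0, 6), (1, 1, 2)], [(0, 2, 0), (0, 3, 0), (0, 4, 0), (0, 5, 0), (0, 6, 0), (0,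
  7, 0), (0, 8, 0), (0, 9, 0), (2, 4, 1), (2, 5, 1), (2, 6, 1), (1, 0, 1), (1, 1, 9)], [(0, 2,
  0), (0, 3, 0), (0, 4, 0), (0, 5, 0), (0, 6, 0), (0, 7, 0), (0, 8, 0), (0, 9, 0), (2, 6, 1),
  (2, 8, 1), (2, 9, 1), (1, 0, 7), (1, 1, 3)], [(0, 2, 0), (0, 3, 0), (0, 4, 0), (0, 5, 0), (0,
  6, 0), (0, 7, 0), (0, 8, 0), (0, 9, 0), (2, 5, 1), (2, 7, 1), (2, 9, 1), (1, 0, 8), (1, 1,
  2)], [(0, 2, 0), (0, 3, 0), (0, 4, 0), (0, 5, 0), (0, 6, 0), (0, 7, 0), (0, 8, 0), (0, 9, 0),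
  (2, 4, 1), (2, 7, 1), (2, 8, 1), (1, 0, 9)]]

/-- The programs for the five-sets. -/
def p5L : List (List (ℕ × ℕ × ℕ)) :=
  [[(0, 4, 0), (0, 5, 0), (0, 6, 0), (0, 7, 0), (0, 8, 0), (0, 9, 0), (2, 9, 0), (2, 6, 0), (2,
  8, 0), (2, 9, 1), (2, 4, 1), (2, 5, 1), (2, 6, 2), (2, 4, 2), (2, 7, 2), (2, 8, 3), (2, 5, 3),
  (2, 7, 3), (1, 0, 9), (1, 1, 6), (1, 2, 8), (1, 3, 9)], [(0, 4, 0), (0, 5, 0), (0, 6, 0), (0,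
  7, 0), (0, 8, 0), (0, 9, 0), (1, 0, 9), (1, 1, 6), (1, 2, 8), (1, 3, 9)], [(0, 4, 0), (0, 5,
  0), (0, 6, 0), (0, 7, 0), (0, 8, 0), (0, 9, 0), (1, 0, 7), (1, 1, 5), (1, 2, 7), (1, 3, 9)],
  [(0, 4, 0), (0, 5, 0), (0, 6, 0), (0, 7, 0), (0, 8, 0), (0, 9, 0), (1, 0, 4), (1, 1, 4), (1,
  2, 7), (1, 3, 8)], [(0, 4, 0), (0, 5, 0), (0, 6, 0), (0, 7, 0), (0, 8, 0), (0, 9, 0), (1, 1,
  4), (1, 2, 5), (1, 3, 6)], [(0, 4, 0), (0, 5, 0), (0, 6, 0), (0, 7, 0), (0, 8, 0), (0, 9, 0)]]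

/-- The forms that vanish for the windows with `b` vertices of the second colour and flips. -/
def mkL : List (List (ℕ × List (ℕ × ℕ × ℕ))) :=
  [[], [], [(14, [(0, 1, 0), (0, 2, 0), (0, 3, 0), (0, 4, 0), (0, 5, 0), (0, 6, 0), (0, 7, 0),
  (0, 8, 0), (0, 9, 0), (2, 1, 0), (2, 2, 0)]), (98, [(0, 1, 0), (0, 2, 0), (0, 3, 0), (0, 4,
  0), (0, 5, 0), (0, 6, 0), (0, 7, 0), (0, 8, 0), (0, 9, 0), (2, 4, 0), (2, 5, 0)]), (292, [(0,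
  1, 0), (0, 2, 0), (0, 3, 0), (0, 4, 0), (0, 5, 0), (0, 6, 0), (0, 7, 0), (0, 8, 0), (0, 9, 0),
  (2, 1, 0), (2, 7, 0), (1, 0, 4)]), (328, [(0, 1, 0), (0, 2, 0), (0, 3, 0), (0, 4, 0), (0, 5,
  0), (0, 6, 0), (0, 7, 0), (0, 8, 0), (0, 9, 0), (2, 2, 0), (2, 7, 0), (1, 0, 5)])], [(6, [(0,
  1, 0), (0, 2, 0), (0, 3, 0), (0, 4, 0), (0, 5, 0), (0, 6, 0), (0, 7, 0), (0, 8, 0), (0, 9, 0),
  (2, 1, 0)]), (36, [(0, 1, 0), (0, 2, 0), (0, 3, 0), (0, 4, 0), (0, 5, 0), (0, 6, 0), (0, 7,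
  0), (0, 8, 0), (0, 9, 0), (2, 1, 0), (1, 0, 4)]), (328, [(0, 1, 0), (0, 2, 0), (0, 3, 0), (0,
  4, 0), (0, 5, 0), (0, 6, 0), (0, 7, 0), (0, 8, 0), (0, 9, 0), (2, 2, 0), (2, 7, 0), (1, 0,
  5)]), (984, [(0, 1, 0), (0, 2, 0), (0, 3, 0), (0, 4, 0), (0, 5, 0), (0, 6, 0), (0, 7, 0), (0,
  8, 0), (0, 9, 0), (2, 2, 0), (2, 3, 0), (2, 5, 0), (2, 7, 0), (2, 8, 0), (1, 0, 6)])], [(36,
  [(0, 1, 0), (0, 2, 0), (0, 3, 0), (0, 4, 0), (0, 5, 0), (0, 6, 0), (0, 7, 0), (0, 8, 0), (0,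
  9, 0), (2, 1, 0), (1, 0, 4)]), (72, [(0, 1, 0), (0, 2, 0), (0, 3, 0), (0, 4, 0), (0, 5, 0),
  (0, 6, 0), (0, 7, 0), (0, 8, 0), (0, 9, 0), (2, 2, 0), (1, 0, 5)]), (144, [(0, 1, 0), (0, 2,
  0), (0, 3, 0), (0, 4, 0), (0, 5, 0), (0, 6, 0), (0, 7, 0), (0, 8, 0), (0, 9, 0), (2, 3, 0),
  (1, 0, 6)]), (252, [(0, 1, 0), (0, 2, 0), (0, 3, 0), (0, 4, 0), (0, 5, 0), (0, 6, 0), (0, 7,
  0), (0, 8, 0), (0, 9, 0), (2, 1, 0), (2, 2, 0), (2, 3, 0), (2, 5, 0), (2, 6, 0), (1, 0, 4)])],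
  [], []]

/-- The pairs of quadruples with equal bits. -/
def mkP : List (List (ℕ × ℕ)) :=
  [[], [], [(3, 4), (7, 8), (10, 11), (12, 13)], [(0, 1), (1, 5), (12, 13), (13, 14)], [(1, 5),
  (2, 6), (3, 7), (4, 8)], [], []]

/-- The forms that vanish for the windows with `b` vertices of the second colour without flips. -/
def muL : List (List (ℕ × List (ℕ × ℕ × ℕ))) :=
  [[(2, [(0, 1, 0), (0, 2, 0), (0, 3, 0), (0, 4, 0), (0, 5, 0), (0, 6, 0), (0, 7, 0), (0, 8, 0),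
  (0, 9, 0)]), (4, [(0, 1, 0), (0, 2, 0), (0, 3, 0), (0, 4, 0), (0, 5, 0), (0, 6, 0), (0, 7, 0),
  (0, 8, 0), (0, 9, 0), (1, 0, 1)]), (8, [(0, 1, 0), (0, 2, 0), (0, 3, 0), (0, 4, 0), (0, 5, 0),
  (0, 6, 0), (0, 7, 0), (0, 8, 0), (0, 9, 0), (1, 0, 2)]), (16, [(0, 1, 0), (0, 2, 0), (0, 3,
  0), (0, 4, 0), (0, 5, 0), (0, 6, 0), (0, 7, 0), (0, 8, 0), (0, 9, 0), (1, 0, 3)]), (30, [(0,
  1, 0), (0, 2, 0), (0, 3, 0), (0, 4, 0), (0, 5, 0), (0, 6, 0), (0, 7, 0), (0, 8, 0), (0, 9, 0),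
  (2, 1, 0), (2, 2, 0), (2, 3, 0)]), (32, [(0, 1, 0), (0, 2, 0), (0, 3, 0), (0, 4, 0), (0, 5,
  0), (0, 6, 0), (0, 7, 0), (0, 8, 0), (0, 9, 0), (1, 0, 4)]), (64, [(0, 1, 0), (0, 2, 0), (0,
  3, 0), (0, 4, 0), (0, 5, 0), (0, 6, 0), (0, 7, 0), (0, 8, 0), (0, 9, 0), (1, 0, 5)]), (128,
  [(0, 1, 0), (0, 2, 0), (0, 3, 0), (0, 4, 0), (0, 5, 0), (0, 6, 0), (0, 7, 0), (0, 8, 0), (0,
  9, 0), (1, 0, 6)]), (226, [(0, 1, 0), (0, 2, 0), (0, 3, 0), (0, 4, 0), (0, 5, 0), (0, 6, 0),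
  (0, 7, 0), (0, 8, 0), (0, 9, 0), (2, 4, 0), (2, 5, 0), (2, 6, 0)]), (256, [(0, 1, 0), (0, 2,
  0), (0, 3, 0), (0, 4, 0), (0, 5, 0), (0, 6, 0), (0, 7, 0), (0, 8, 0), (0, 9, 0), (1, 0, 7)]),
  (512, [(0, 1, 0), (0, 2, 0), (0, 3, 0), (0, 4, 0), (0, 5, 0), (0, 6, 0), (0, 7, 0), (0, 8, 0),
  (0, 9, 0), (1, 0, 8)]), (804, [(0, 1, 0), (0, 2, 0), (0, 3, 0), (0, 4, 0), (0, 5, 0), (0, 6,
  0), (0, 7, 0), (0, 8, 0), (0, 9, 0), (2, 1, 0), (2, 4, 0), (2, 7, 0), (1, 0, 8)]), (1024, [(0,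
  1, 0), (0, 2, 0), (0, 3, 0), (0, 4, 0), (0, 5, 0), (0, 6, 0), (0, 7, 0), (0, 8, 0), (0, 9, 0),
  (1, 0, 9)]), (1352, [(0, 1, 0), (0, 2, 0), (0, 3, 0), (0, 4, 0), (0, 5, 0), (0, 6, 0), (0, 7,
  0), (0, 8, 0), (0, 9, 0), (2, 2, 0), (2, 5, 0), (2, 7, 0), (1, 0, 9)]), (1680, [(0, 1, 0), (0,
  2, 0), (0, 3, 0), (0, 4, 0), (0, 5, 0), (0, 6, 0), (0, 7, 0), (0, 8, 0), (0, 9, 0), (2, 3, 0),
  (2, 6, 0), (2, 8, 0), (1, 0, 9)])], [(3, [(3, 0, 0), (0, 1, 0), (0, 2, 0), (0, 3, 0), (0, 4,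
  0), (0, 5, 0), (0, 6, 0), (0, 7, 0), (0, 8, 0), (0, 9, 0)]), (5, [(3, 0, 0), (0, 1, 0), (0, 2,
  0), (0, 3, 0), (0, 4, 0), (0, 5, 0), (0, 6, 0), (0, 7, 0), (0, 8, 0), (0, 9, 0), (1, 0, 1)]),
  (9, [(3, 0, 0), (0, 1, 0), (0, 2, 0), (0, 3, 0), (0, 4, 0), (0, 5, 0), (0, 6, 0), (0, 7, 0),
  (0, 8, 0), (0, 9, 0), (1, 0, 2)]), (17, [(3, 0, 0), (0, 1, 0), (0, 2, 0), (0, 3, 0), (0, 4,
  0), (0, 5, 0), (0, 6, 0), (0, 7, 0), (0, 8, 0), (0, 9, 0), (1, 0, 3)]), (30, [(0, 1, 0), (0,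
  2, 0), (0, 3, 0), (0, 4, 0), (0, 5, 0), (0, 6, 0), (0, 7, 0), (0, 8, 0), (0, 9, 0), (2, 1, 0),
  (2, 2, 0), (2, 3, 0)]), (33, [(3, 0, 0), (0, 1, 0), (0, 2, 0), (0, 3, 0), (0, 4, 0), (0, 5,
  0), (0, 6, 0), (0, 7, 0), (0, 8, 0), (0, 9, 0), (1, 0, 4)]), (65, [(3, 0, 0), (0, 1, 0), (0,
  2, 0), (0, 3, 0), (0, 4, 0), (0, 5, 0), (0, 6, 0), (0, 7, 0), (0, 8, 0), (0, 9, 0), (1, 0,
  5)]), (129, [(3, 0, 0), (0, 1, 0), (0, 2, 0), (0, 3, 0), (0, 4, 0), (0, 5, 0), (0, 6, 0), (0,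
  7, 0), (0, 8, 0), (0, 9, 0), (1, 0, 6)]), (226, [(0, 1, 0), (0, 2, 0), (0, 3, 0), (0, 4, 0),
  (0, 5, 0), (0, 6, 0), (0, 7, 0), (0, 8, 0), (0, 9, 0), (2, 4, 0), (2, 5, 0), (2, 6, 0)]),
  (257, [(3, 0, 0), (0, 1, 0), (0, 2, 0), (0, 3, 0), (0, 4, 0), (0, 5, 0), (0, 6, 0), (0, 7, 0),
  (0, 8, 0), (0, 9, 0), (1, 0, 7)]), (513, [(3, 0, 0), (0, 1, 0), (0, 2, 0), (0, 3, 0), (0, 4,
  0), (0, 5, 0), (0, 6, 0), (0, 7, 0), (0, 8, 0), (0, 9, 0), (1, 0, 8)]), (804, [(0, 1, 0), (0,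
  2, 0), (0, 3, 0), (0, 4, 0), (0, 5, 0), (0, 6, 0), (0, 7, 0), (0, 8, 0), (0, 9, 0), (2, 1, 0),
  (2, 4, 0), (2, 7, 0), (1, 0, 8)]), (1025, [(3, 0, 0), (0, 1, 0), (0, 2, 0), (0, 3, 0), (0, 4,
  0), (0, 5, 0), (0, 6, 0), (0, 7, 0), (0, 8, 0), (0, 9, 0), (1, 0, 9)]), (1352, [(0, 1, 0), (0,
  2, 0), (0, 3, 0), (0, 4, 0), (0, 5, 0), (0, 6, 0), (0, 7, 0), (0, 8, 0), (0, 9, 0), (2, 2, 0),
  (2, 5, 0), (2, 7, 0), (1, 0, 9)]), (1680, [(0, 1, 0), (0, 2, 0), (0, 3, 0), (0, 4, 0), (0, 5,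
  0), (0, 6, 0), (0, 7, 0), (0, 8, 0), (0, 9, 0), (2, 3, 0), (2, 6, 0), (2, 8, 0), (1, 0, 9)])],
  [(17, [(3, 0, 0), (0, 1, 0), (0, 2, 0), (0, 3, 0), (0, 4, 0), (0, 5, 0), (0, 6, 0), (0, 7, 0),
  (0, 8, 0), (0, 9, 0), (1, 0, 3)]), (31, [(3, 0, 0), (0, 1, 0), (0, 2, 0), (0, 3, 0), (0, 4,
  0), (0, 5, 0), (0, 6, 0), (0, 7, 0), (0, 8, 0), (0, 9, 0), (2, 1, 0), (2, 2, 0), (2, 3, 0)]),
  (129, [(3, 0, 0), (0, 1, 0), (0, 2, 0), (0, 3, 0), (0, 4, 0), (0, 5, 0), (0, 6, 0), (0, 7, 0),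
  (0, 8, 0), (0, 9, 0), (1, 0, 6)]), (227, [(3, 0, 0), (0, 1, 0), (0, 2, 0), (0, 3, 0), (0, 4,
  0), (0, 5, 0), (0, 6, 0), (0, 7, 0), (0, 8, 0), (0, 9, 0), (2, 4, 0), (2, 5, 0), (2, 6, 0)]),
  (513, [(3, 0, 0), (0, 1, 0), (0, 2, 0), (0, 3, 0), (0, 4, 0), (0, 5, 0), (0, 6, 0), (0, 7, 0),
  (0, 8, 0), (0, 9, 0), (1, 0, 8)]), (805, [(3, 0, 0), (0, 1, 0), (0, 2, 0), (0, 3, 0), (0, 4,
  0), (0, 5, 0), (0, 6, 0), (0, 7, 0), (0, 8, 0), (0, 9, 0), (2, 1, 0), (2, 4, 0), (2, 7, 0),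
  (1, 0, 8)]), (1025, [(3, 0, 0), (0, 1, 0), (0, 2, 0), (0, 3, 0), (0, 4, 0), (0, 5, 0), (0, 6,
  0), (0, 7, 0), (0, 8, 0), (0, 9, 0), (1, 0, 9)]), (1353, [(3, 0, 0), (0, 1, 0), (0, 2, 0), (0,
  3, 0), (0, 4, 0), (0, 5, 0), (0, 6, 0), (0, 7, 0), (0, 8, 0), (0, 9, 0), (2, 2, 0), (2, 5, 0),
  (2, 7, 0), (1, 0, 9)]), (1680, [(0, 1, 0), (0, 2, 0), (0, 3, 0), (0, 4, 0), (0, 5, 0), (0, 6,
  0), (0, 7, 0), (0, 8, 0), (0, 9, 0), (2, 3, 0), (2, 6, 0), (2, 8, 0), (1, 0, 9)])], [(3, [(3,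
  0, 0), (0, 1, 0), (0, 2, 0), (0, 3, 0), (0, 4, 0), (0, 5, 0), (0, 6, 0), (0, 7, 0), (0, 8, 0),
  (0, 9, 0)]), (5, [(3, 0, 0), (0, 1, 0), (0, 2, 0), (0, 3, 0), (0, 4, 0), (0, 5, 0), (0, 6, 0),
  (0, 7, 0), (0, 8, 0), (0, 9, 0), (1, 0, 1)]), (33, [(3, 0, 0), (0, 1, 0), (0, 2, 0), (0, 3,
  0), (0, 4, 0), (0, 5, 0), (0, 6, 0), (0, 7, 0), (0, 8, 0), (0, 9, 0), (1, 0, 4)]), (1025, [(3,
  0, 0), (0, 1, 0), (0, 2, 0), (0, 3, 0), (0, 4, 0), (0, 5, 0), (0, 6, 0), (0, 7, 0), (0, 8, 0),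
  (0, 9, 0), (1, 0, 9)]), (1353, [(3, 0, 0), (0, 1, 0), (0, 2, 0), (0, 3, 0), (0, 4, 0), (0, 5,
  0), (0, 6, 0), (0, 7, 0), (0, 8, 0), (0, 9, 0), (2, 2, 0), (2, 5, 0), (2, 7, 0), (1, 0, 9)]),
  (1681, [(3, 0, 0), (0, 1, 0), (0, 2, 0), (0, 3, 0), (0, 4, 0), (0, 5, 0), (0, 6, 0), (0, 7,
  0), (0, 8, 0), (0, 9, 0), (2, 3, 0), (2, 6, 0), (2, 8, 0), (1, 0, 9)])], [(2, [(0, 1, 0), (0,
  2, 0), (0, 3, 0), (0, 4, 0), (0, 5, 0), (0, 6, 0), (0, 7, 0), (0, 8, 0), (0, 9, 0)]), (5, [(3,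
  0, 0), (0, 1, 0), (0, 2, 0), (0, 3, 0), (0, 4, 0), (0, 5, 0), (0, 6, 0), (0, 7, 0), (0, 8, 0),
  (0, 9, 0), (1, 0, 1)]), (9, [(3, 0, 0), (0, 1, 0), (0, 2, 0), (0, 3, 0), (0, 4, 0), (0, 5, 0),
  (0, 6, 0), (0, 7, 0), (0, 8, 0), (0, 9, 0), (1, 0, 2)]), (17, [(3, 0, 0), (0, 1, 0), (0, 2,
  0), (0, 3, 0), (0, 4, 0), (0, 5, 0), (0, 6, 0), (0, 7, 0), (0, 8, 0), (0, 9, 0), (1, 0, 3)]),
  (31, [(3, 0, 0), (0, 1, 0), (0, 2, 0), (0, 3, 0), (0, 4, 0), (0, 5, 0), (0, 6, 0), (0, 7, 0),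
  (0, 8, 0), (0, 9, 0), (2, 1, 0), (2, 2, 0), (2, 3, 0)]), (33, [(3, 0, 0), (0, 1, 0), (0, 2,
  0), (0, 3, 0), (0, 4, 0), (0, 5, 0), (0, 6, 0), (0, 7, 0), (0, 8, 0), (0, 9, 0), (1, 0, 4)]),
  (65, [(3, 0, 0), (0, 1, 0), (0, 2, 0), (0, 3, 0), (0, 4, 0), (0, 5, 0), (0, 6, 0), (0, 7, 0),
  (0, 8, 0), (0, 9, 0), (1, 0, 5)]), (129, [(3, 0, 0), (0, 1, 0), (0, 2, 0), (0, 3, 0), (0, 4,
  0), (0, 5, 0), (0, 6, 0), (0, 7, 0), (0, 8, 0), (0, 9, 0), (1, 0, 6)]), (227, [(3, 0, 0), (0,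
  1, 0), (0, 2, 0), (0, 3, 0), (0, 4, 0), (0, 5, 0), (0, 6, 0), (0, 7, 0), (0, 8, 0), (0, 9, 0),
  (2, 4, 0), (2, 5, 0), (2, 6, 0)])], [(2, [(0, 1, 0), (0, 2, 0), (0, 3, 0), (0, 4, 0), (0, 5,
  0), (0, 6, 0), (0, 7, 0), (0, 8, 0), (0, 9, 0)]), (4, [(0, 1, 0), (0, 2, 0), (0, 3, 0), (0, 4,
  0), (0, 5, 0), (0, 6, 0), (0, 7, 0), (0, 8, 0), (0, 9, 0), (1, 0, 1)]), (8, [(0, 1, 0), (0, 2,
  0), (0, 3, 0), (0, 4, 0), (0, 5, 0), (0, 6, 0), (0, 7, 0), (0, 8, 0), (0, 9, 0), (1, 0, 2)]),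
  (16, [(0, 1, 0), (0, 2, 0), (0, 3, 0), (0, 4, 0), (0, 5, 0), (0, 6, 0), (0, 7, 0), (0, 8, 0),
  (0, 9, 0), (1, 0, 3)]), (30, [(0, 1, 0), (0, 2, 0), (0, 3, 0), (0, 4, 0), (0, 5, 0), (0, 6,
  0), (0, 7, 0), (0, 8, 0), (0, 9, 0), (2, 1, 0), (2, 2, 0), (2, 3, 0)]), (33, [(3, 0, 0), (0,
  1, 0), (0, 2, 0), (0, 3, 0), (0, 4, 0), (0, 5, 0), (0, 6, 0), (0, 7, 0), (0, 8, 0), (0, 9, 0),
  (1, 0, 4)]), (65, [(3, 0, 0), (0, 1, 0), (0, 2, 0), (0, 3, 0), (0, 4, 0), (0, 5, 0), (0, 6,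
  0), (0, 7, 0), (0, 8, 0), (0, 9, 0), (1, 0, 5)]), (129, [(3, 0, 0), (0, 1, 0), (0, 2, 0), (0,
  3, 0), (0, 4, 0), (0, 5, 0), (0, 6, 0), (0, 7, 0), (0, 8, 0), (0, 9, 0), (1, 0, 6)]), (227,
  [(3, 0, 0), (0, 1, 0), (0, 2, 0), (0, 3, 0), (0, 4, 0), (0, 5, 0), (0, 6, 0), (0, 7, 0), (0,
  8, 0), (0, 9, 0), (2, 4, 0), (2, 5, 0), (2, 6, 0)]), (257, [(3, 0, 0), (0, 1, 0), (0, 2, 0),
  (0, 3, 0), (0, 4, 0), (0, 5, 0), (0, 6, 0), (0, 7, 0), (0, 8, 0), (0, 9, 0), (1, 0, 7)]),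
  (513, [(3, 0, 0), (0, 1, 0), (0, 2, 0), (0, 3, 0), (0, 4, 0), (0, 5, 0), (0, 6, 0), (0, 7, 0),
  (0, 8, 0), (0, 9, 0), (1, 0, 8)]), (805, [(3, 0, 0), (0, 1, 0), (0, 2, 0), (0, 3, 0), (0, 4,
  0), (0, 5, 0), (0, 6, 0), (0, 7, 0), (0, 8, 0), (0, 9, 0), (2, 1, 0), (2, 4, 0), (2, 7, 0),
  (1, 0, 8)]), (1025, [(3, 0, 0), (0, 1, 0), (0, 2, 0), (0, 3, 0), (0, 4, 0), (0, 5, 0), (0, 6,
  0), (0, 7, 0), (0, 8, 0), (0, 9, 0), (1, 0, 9)]), (1353, [(3, 0, 0), (0, 1, 0), (0, 2, 0), (0,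
  3, 0), (0, 4, 0), (0, 5, 0), (0, 6, 0), (0, 7, 0), (0, 8, 0), (0, 9, 0), (2, 2, 0), (2, 5, 0),
  (2, 7, 0), (1, 0, 9)]), (1681, [(3, 0, 0), (0, 1, 0), (0, 2, 0), (0, 3, 0), (0, 4, 0), (0, 5,
  0), (0, 6, 0), (0, 7, 0), (0, 8, 0), (0, 9, 0), (2, 3, 0), (2, 6, 0), (2, 8, 0), (1, 0, 9)])],
  [(2, [(0, 1, 0), (0, 2, 0), (0, 3, 0), (0, 4, 0), (0, 5, 0), (0, 6, 0), (0, 7, 0), (0, 8, 0),
  (0, 9, 0)]), (4, [(0, 1, 0), (0, 2, 0), (0, 3, 0), (0, 4, 0), (0, 5, 0), (0, 6, 0), (0, 7, 0),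
  (0, 8, 0), (0, 9, 0), (1, 0, 1)]), (8, [(0, 1, 0), (0, 2, 0), (0, 3, 0), (0, 4, 0), (0, 5, 0),
  (0, 6, 0), (0, 7, 0), (0, 8, 0), (0, 9, 0), (1, 0, 2)]), (16, [(0, 1, 0), (0, 2, 0), (0, 3,
  0), (0, 4, 0), (0, 5, 0), (0, 6, 0), (0, 7, 0), (0, 8, 0), (0, 9, 0), (1, 0, 3)]), (30, [(0,
  1, 0), (0, 2, 0), (0, 3, 0), (0, 4, 0), (0, 5, 0), (0, 6, 0), (0, 7, 0), (0, 8, 0), (0, 9, 0),
  (2, 1, 0), (2, 2, 0), (2, 3, 0)]), (32, [(0, 1, 0), (0, 2, 0), (0, 3, 0), (0, 4, 0), (0, 5,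
  0), (0, 6, 0), (0, 7, 0), (0, 8, 0), (0, 9, 0), (1, 0, 4)]), (64, [(0, 1, 0), (0, 2, 0), (0,
  3, 0), (0, 4, 0), (0, 5, 0), (0, 6, 0), (0, 7, 0), (0, 8, 0), (0, 9, 0), (1, 0, 5)]), (128,
  [(0, 1, 0), (0, 2, 0), (0, 3, 0), (0, 4, 0), (0, 5, 0), (0, 6, 0), (0, 7, 0), (0, 8, 0), (0,
  9, 0), (1, 0, 6)]), (226, [(0, 1, 0), (0, 2, 0), (0, 3, 0), (0, 4, 0), (0, 5, 0), (0, 6, 0),
  (0, 7, 0), (0, 8, 0), (0, 9, 0), (2, 4, 0), (2, 5, 0), (2, 6, 0)]), (256, [(0, 1, 0), (0, 2,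
  0), (0, 3, 0), (0, 4, 0), (0, 5, 0), (0, 6, 0), (0, 7, 0), (0, 8, 0), (0, 9, 0), (1, 0, 7)]),
  (512, [(0, 1, 0), (0, 2, 0), (0, 3, 0), (0, 4, 0), (0, 5, 0), (0, 6, 0), (0, 7, 0), (0, 8, 0),
  (0, 9, 0), (1, 0, 8)]), (804, [(0, 1, 0), (0, 2, 0), (0, 3, 0), (0, 4, 0), (0, 5, 0), (0, 6,
  0), (0, 7, 0), (0, 8, 0), (0, 9, 0), (2, 1, 0), (2, 4, 0), (2, 7, 0), (1, 0, 8)]), (1024, [(0,
  1, 0), (0, 2, 0), (0, 3, 0), (0, 4, 0), (0, 5, 0), (0, 6, 0), (0, 7, 0), (0, 8, 0), (0, 9, 0),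
  (1, 0, 9)]), (1352, [(0, 1, 0), (0, 2, 0), (0, 3, 0), (0, 4, 0), (0, 5, 0), (0, 6, 0), (0, 7,
  0), (0, 8, 0), (0, 9, 0), (2, 2, 0), (2, 5, 0), (2, 7, 0), (1, 0, 9)]), (1680, [(0, 1, 0), (0,
  2, 0), (0, 3, 0), (0, 4, 0), (0, 5, 0), (0, 6, 0), (0, 7, 0), (0, 8, 0), (0, 9, 0), (2, 3, 0),
  (2, 6, 0), (2, 8, 0), (1, 0, 9)])]]

/-- The quadruples with known bits. -/
def muP : List (List (ℕ × ℕ)) :=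
  [[(0, 0), (1, 0), (2, 0), (3, 0), (4, 0), (5, 0), (6, 0), (7, 0), (8, 0), (9, 0), (10, 0),
  (11, 0), (12, 0), (13, 0), (14, 0)], [(0, 1), (1, 1), (2, 1), (3, 1), (4, 0), (5, 1), (6, 1),
  (7, 1), (8, 0), (9, 1), (10, 1), (11, 0), (12, 1), (13, 0), (14, 0)], [(3, 1), (4, 1), (7, 1),
  (8, 1), (10, 1), (11, 1), (12, 1), (13, 1), (14, 0)], [(0, 1), (1, 1), (5, 1), (12, 1), (13,
  1), (14, 1)], [(0, 0), (1, 1), (2, 1), (3, 1), (4, 1), (5, 1), (6, 1), (7, 1), (8, 1)], [(0,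
  0), (1, 0), (2, 0), (3, 0), (4, 0), (5, 1), (6, 1), (7, 1), (8, 1), (9, 1), (10, 1), (11, 1),
  (12, 1), (13, 1), (14, 1)], [(0, 0), (1, 0), (2, 0), (3, 0), (4, 0), (5, 0), (6, 0), (7, 0),
  (8, 0), (9, 0), (10, 0), (11, 0), (12, 0), (13, 0), (14, 0)]]

/-- The bit of a quadruple of an even 4-graph. -/
def eb (b : ℕ → Bool) (r : ℕ) : Bool := lf 10 (nthG 0 exL r) b

/-- The quadruple of a triple of roots with a vertex. -/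
def lk (q i r : ℕ) : ℕ := nthG 0 (nthG [] (nthG [] lkL q) i) r

/-- The quadruple of the roots. -/
def qr (q : ℕ) : ℕ := nthG 0 qrL q

/-- The quadruple number `i` of a five-set. -/
def fs (k i : ℕ) : ℕ := nthG 0 (nthG [] fsL k) i

/-- The order of the triples of the roots: a rotation for three roots of the second colour. -/
def gs (v c : ℕ) : ℕ := Nat.mod (Nat.add c v) 4

/-- The quadruples of the bits of the tables for four roots. -/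
def fr (v q r : ℕ) : ℕ := if r < 3 then lk q 1 (gs v r) else
  if r < 6 then lk q 0 (gs v (r - 3)) else qr q

theorem exL_eq : ∀ r < 15, Og.exF6 (q6 6 r) = nthG 0 exL r := by decide +kernel

theorem lk_lt : ∀ q < 15, ∀ i < 2, ∀ r < 4, lk q i r < 15 := by decide +kernel

theorem qr_lt : ∀ q < 15, qr q < 15 := by decide +kernel

theorem fs_lt : ∀ k < 6, ∀ i < 5, fs k i < 15 := by decide +kernel

theorem prL_ok : ∀ v < 2, ∀ q < 15, okR (nthG [] (nthG [] prL v) q) 7 = true ∧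
    ndG (nthG [] (nthG [] prL v) q) 7 = 10 ∧
    ∀ r < 7, syG (nthG [] (nthG [] prL v) q) 7 r = nthG 0 exL (fr v q r) := by decide +kernel

theorem p2L_ok : ∀ m < 45, okR (nthG [] p2L m) 2 = true ∧ ndG (nthG [] p2L m) 2 = 10 ∧
    syG (nthG [] p2L m) 2 0 = nthG 0 exL (nthG 0 q1L m) ∧
    syG (nthG [] p2L m) 2 1 = nthG 0 exL (nthG 0 q2L m) := by decide +kernel

theorem p5L_ok : ∀ k < 6, okR (nthG [] p5L k) 4 = true ∧ ndG (nthG [] p5L k) 4 = 10 ∧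
    ∀ r < 4, syG (nthG [] p5L k) 4 r = nthG 0 exL (fs k r) := by decide +kernel

theorem fs_par : ∀ k < 6, nthG 0 exL (fs k 4) = ((nthG 0 exL (fs k 0) ^^^ nthG 0 exL (fs k 1)) ^^^
    nthG 0 exL (fs k 2)) ^^^ nthG 0 exL (fs k 3) := by decide +kernel

theorem mkL_ok : ∀ b < 7, ∀ e ∈ nthG [] mkL b, okR e.2 1 = true ∧ ndG e.2 1 = 10 ∧
    syG e.2 1 0 = e.1 := by decide +kernel

theorem mkL_frm : ∀ b < 7, (nthG [] mkL b).map Prod.fst =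
    (nthG [] mkP b).map fun p => nthG 0 exL p.1 ^^^ nthG 0 exL p.2 := by decide +kernel

theorem muL_ok : ∀ b < 7, ∀ e ∈ nthG [] muL b, okR e.2 1 = true ∧ ndG e.2 1 = 10 ∧
    syG e.2 1 0 = e.1 := by decide +kernel

theorem muL_frm : ∀ b < 7, (nthG [] muL b).map Prod.fst =
    (nthG [] muP b).map fun p => nthG 0 exL p.1 ^^^ p.2 := by decide +kernel

/-! ### The data -/

/-- The data of the rows: width of the lanes; for each type and each code of the differences and of the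
colour of the first vertex, an array over the links and the code of the second vertex; the blocks of the
kernels with two roots; the tables of the five-sets for each difference; the values of the
five-sets. -/
structure RD where
  W : ℕ
  Bk : List (List ℕ)
  T2 : List (List (List ℕ))
  F5 : List ℕ
  U5 : List (List ℕ)

namespace RD
variable (R : RD) (D : C4D) (B : B2)

/-- The value of a five-set. -/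
def u5 (k l : ℕ) : ℕ := nthG 0 (nthG [] R.U5 k) l

/-- The table for four roots, of type `τ`. -/
def tp (of τ ku kw : ℕ) : ℕ := @Nat.rec (fun _ => ℕ) (csG R.W of 6)
  (fun _ _ => slG R.W 6 (nthG 0 (nthG [] R.Bk τ) ku) kw) τ

end RD

/-- The colours of the roots. -/
def cR (q X : ℕ) : ℕ := ixG (fun r => bG X (rq q r)) 4

/-- The order of the triples for given colours of the roots. -/
def vv (c : ℕ) : ℕ := @Bool.rec (fun _ => ℕ) 0 1 (Nat.beq c 7)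

/-- Whether the colours are exchanged. -/
def fv (c : ℕ) : Bool := Nat.ble 7 c

/-- The code of the differences and of the colour of a vertex. -/
def ku (q i X J : ℕ) : ℕ := Nat.add (ixG (fun r => bG J (lk q i (gs (vv (cR q X)) r))) 4)
  (@Bool.rec (fun _ => ℕ) (@Bool.rec (fun _ => ℕ) 0 16 (fv (cR q X)))
    (@Bool.rec (fun _ => ℕ) 16 0 (fv (cR q X))) (bG X (vq q i)))

/-- The pattern of the roots if their bit in the even 4-graph is zero. -/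
def p0 (q X J : ℕ) : ℕ := Nat.add (cR q X) (@Bool.rec (fun _ => ℕ) 0 16 (bG J (qr q)))

/-- The pattern of the roots if their bit in the even 4-graph is one. -/
def p1 (q X J : ℕ) : ℕ := Nat.add (Nat.add (cR q X) 32) (@Bool.rec (fun _ => ℕ) 16 0 (bG J (qr q)))

/-- A bit as a number. -/
def bn (S i : ℕ) : ℕ := Nat.mod (Nat.shiftRight S i) 2

theorem bn_eq (S i : ℕ) : bn S i = (S.testBit i).toNat := by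
  have e : bn S i = (S >>> i) % 2 := rfl
  rw [e, Nat.shiftRight_eq_div_pow, ← Nat.toNat_testBit]

namespace RD
variable (R : RD) (D : C4D) (B : B2)

/-- The array of a term with four roots. -/
def A41 (X J q : ℕ) : ℕ := ruG R.W (nthG [] (nthG [] prL (vv (cR q X))) q) 7
  (Nat.add (R.tp D.of (D.tyP (p0 q X J)) (ku q 0 X J) (ku q 1 X J))
    (Nat.shiftLeft (R.tp D.of (D.tyP (p1 q X J)) (ku q 0 X J) (ku q 1 X J)) (Nat.mul R.W 64)))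

/-- The array of a term with two roots. -/
def A22 (X J m : ℕ) : ℕ := ruG R.W (nthG [] p2L m) 2
  (nthG 0 (nthG [] (nthG [] R.T2 (Nat.add (bn X (mq m 0)) (bn X (mq m 1))))
    (Nat.add (Nat.mul 2 (Nat.add (bn X (mq m 4)) (bn X (mq m 5)))) (bn J (nthG 0 q2L m))))
    (Nat.add (Nat.mul 2 (Nat.add (bn X (mq m 2)) (bn X (mq m 3)))) (bn J (nthG 0 q1L m))))

/-- The array of a five-set. -/
def A5 (J k : ℕ) : ℕ := ruG R.W (nthG [] p5L k) 4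
  (nthG 0 R.F5 (ixG (fun i => bG J (fs k i)) 5))

/-- The array of the forms that must vanish. -/
def mkA (K : ℕ) (l : List (ℕ × List (ℕ × ℕ × ℕ))) : ℕ :=
  @List.rec (ℕ × List (ℕ × ℕ × ℕ)) (fun _ => ℕ) 0
    (fun e _ ih => Nat.lor ih (ruG R.W e.2 1 (Nat.shiftLeft K (Nat.mul R.W 1)))) l

/-- The array of a row. -/
def rwA (M X J : ℕ) : ℕ := Nat.add (sN (R.A41 D X J) 15) (Nat.add (sN (R.A22 X J) 45)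
  (Nat.add (sN (R.A5 J) 6) M))

/-- The check of a row. -/
def rwG (M X c J : ℕ) : Bool := geG R.W 10 c (R.rwA D M X J)

end RD

/-! ### The values -/

/-- The pattern of the roots. -/
def pp (q X J : ℕ) (b : ℕ → Bool) : ℕ := idx 6 fun r => if r < 4 then X.testBit (rq q r) else
  if r = 4 then (J.testBit (qr q) ^^ eb b (qr q)) else eb b (qr q)

/-- The code of a vertex. -/
def ca (D : C4D) (q i X J : ℕ) (b : ℕ → Bool) : ℕ := D.cd (pp q X J b)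
  (fun r => J.testBit (lk q i r)) (fun r => eb b (lk q i r)) (X.testBit (vq q i))

/-- The value of a term with four roots. -/
def F41 (D : C4D) (X J : ℕ) (b : ℕ → Bool) (q : ℕ) : ℤ :=
  D.val (pp q X J b) (ca D q 0 X J b) (ca D q 1 X J b)

/-- The value of a term with two roots. -/
def F22 (B : B2) (X J : ℕ) (b : ℕ → Bool) (m : ℕ) : ℤ :=
  B.m ((X.testBit (mq m 0)).toNat + (X.testBit (mq m 1)).toNat)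
    (4 * ((X.testBit (mq m 2)).toNat + (X.testBit (mq m 3)).toNat) +
      (2 * (J.testBit (nthG 0 q1L m)).toNat + (eb b (nthG 0 q1L m)).toNat))
    (4 * ((X.testBit (mq m 4)).toNat + (X.testBit (mq m 5)).toNat) +
      (2 * (J.testBit (nthG 0 q2L m)).toNat + (eb b (nthG 0 q2L m)).toNat))

/-- The number of quadruples of a five-set in the 4-graph. -/
def hc (J : ℕ) (b : ℕ → Bool) (k : ℕ) : ℕ := ∑ i ∈ range 5, (J.testBit (fs k i) ^^ eb b (fs k i)).toNat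

/-- The number of quadruples of a five-set in the even 4-graph. -/
def ec (b : ℕ → Bool) (k : ℕ) : ℕ := ∑ i ∈ range 5, (eb b (fs k i)).toNat

/-- The value of the array of forms. -/
def mkV (K : ℕ) (l : List (ℕ × List (ℕ × ℕ × ℕ))) (b : ℕ → Bool) : ℕ :=
  @List.rec (ℕ × List (ℕ × ℕ × ℕ)) (fun _ => ℕ) 0
    (fun e _ ih => ih ||| (if lf 10 e.1 b = true then K else 0)) l

theorem mkV_zero (K : ℕ) (l : List (ℕ × List (ℕ × ℕ × ℕ))) (b : ℕ → Bool)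
    (h : ∀ m ∈ l.map Prod.fst, lf 10 m b = false) : mkV K l b = 0 := by
  induction l with
  | nil => rfl
  | cons e l ih =>
    have e1 : mkV K (e :: l) b = mkV K l b ||| (if lf 10 e.1 b = true then K else 0) := rfl
    rw [List.map_cons] at h
    rw [e1, ih fun m hm => h m (List.mem_cons_of_mem _ hm), h e.1 List.mem_cons_self]
    simp

theorem mkV_le (c : ℕ) (l : List (ℕ × List (ℕ × ℕ × ℕ))) (b : ℕ → Bool) :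
    mkV (2 ^ c) l b ≤ 2 ^ c := by
  have h : mkV (2 ^ c) l b = 0 ∨ mkV (2 ^ c) l b = 2 ^ c := by
    induction l with
    | nil => exact Or.inl rfl
    | cons e l ih =>
      have e1 : mkV (2 ^ c) (e :: l) b =
          mkV (2 ^ c) l b ||| (if lf 10 e.1 b = true then 2 ^ c else 0) := rfl
      rw [e1]
      rcases ih with h | h <;> rw [h] <;> split_ifs <;> simp
  rcases h with h | h <;> rw [h]
  exact Nat.zero_le _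

/-! ### The conditions -/

/-- The bits of a table index of a five-set. -/
def z5 (b : ℕ → Bool) (i : ℕ) : Bool := if i < 4 then b i else ((b 0 ^^ b 1) ^^ b 2) ^^ b 3

namespace RD
variable (R : RD) (D : C4D) (B : B2)

/-- The conditions on the data. -/
structure OK (U K : ℕ) : Prop where
  hW : 2 ≤ R.W
  bk : ∀ τ, 0 < τ → τ < D.R.length → ∀ k < 32, Ar R.W 11 (nthG 0 (nthG [] R.Bk τ) k) fun b =>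
    (D.of - D.m τ (idx 3 (fun r => b (3 + r)) + 8 * k)
      (idx 3 b + 8 * idx 5 (fun r => b (6 + r)))).toNat
  t2 : ∀ τ < 3, ∀ c2 < 6, ∀ c1 < 6, Ar R.W 2 (nthG 0 (nthG [] (nthG [] R.T2 τ) c2) c1) fun b =>
    (B.of - B.m τ (2 * c1 + (b 0).toNat) (2 * c2 + (b 1).toNat)).toNat
  f5 : ∀ j < 32, Ar R.W 4 (nthG 0 R.F5 j) fun b =>
    R.u5 (∑ i ∈ range 5, (j.testBit i ^^ z5 b i).toNat) (∑ i ∈ range 5, (z5 b i).toNat)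
  std : ∀ p < 64, p % 16 ∈ [0, 1, 3, 7, 15] → (∀ c < 4, D.g p c = gs (vv (p % 16)) c) ∧
    D.fx p = fv (p % 16)
  u5U : ∀ k l, R.u5 k l ≤ U
  sz : 15 * (2 * D.of) + 45 * (2 * B.of) + 6 * U + 2 ^ K < 2 ^ (R.W - 1)
  hK : K < R.W

end RD

end Pool.Agent.Lib.MP_afdd4d_co.K9.W6
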