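import Pool.Agent.Lib.MP_afdd4d_co.K9.C4
import Pool.Agent.Lib.MP_afdd4d_co.K8.VPrg

/-!
# Codes of windows of six vertices

The fifteen bits of a 4-graph on six vertices in coordinates such that the last five coordinates of
an even 4-graph are zero.
-/

namespace Pool.Agent.Lib.MP_afdd4d_co.K9.W6

open Finset K8 Star

/-! ### Composition of affine forms -/

/-- The affine form of an affine form of affine forms. -/
def cmp (L : ℕ → ℕ) : ℕ → ℕ → ℕ
  | 0, m => (m.testBit 0).toNat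
  | N + 1, m => cmp L N m ^^^ (if m.testBit (N + 1) then L N else 0)

theorem lf_cmp (N' : ℕ) (L : ℕ → ℕ) (b : ℕ → Bool) (m : ℕ) : ∀ N : ℕ,
    lf N m (fun r => lf N' (L r) b) = lf N' (cmp L N m) b
  | 0 => by rw [lf, cmp, lf_toNat]
  | N + 1 => by
    rw [lf, cmp, lf_xor, lf_cmp N' L b m N]
    congr 1
    split_ifs with h
    · rw [h, Bool.true_and]
    · rw [Bool.not_eq_true] at h
      rw [h, Bool.false_and, lf_zero]

theorem cmp_congr (L L' : ℕ → ℕ) (m : ℕ) : ∀ N : ℕ, (∀ r < N, L r = L' r) →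
    cmp L N m = cmp L' N m
  | 0, _ => rfl
  | N + 1, h => by
    rw [cmp, cmp, cmp_congr L L' m N fun r hr => h r (by omega), h N (by omega)]

/-! ### Coordinates -/

/-- The quadruples without the vertex `0`. -/
def nq (k : ℕ) : ℕ := nthG 0 [4, 8, 11, 13, 14] k

/-- The number of a quadruple with the vertex `0` among the ten triples. -/
def pq (r : ℕ) : ℕ := nthG 15 [0, 1, 2, 3, 15, 4, 5, 6, 15, 7, 8, 15, 9, 15, 15] r

/-- The coordinate of a quadruple without the vertex `0`. -/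
def cq (r : ℕ) : ℕ := nthG 5 [5, 5, 5, 5, 0, 5, 5, 5, 1, 5, 5, 2, 5, 3, 4] r

/-- The linear form of the bit of a quadruple. -/
def fq (r : ℕ) : ℕ := Nat.xor (Nat.land (Og.exF6 (q6 6 r)) 2047)
  (if cq r < 5 then 2 ^ (11 + cq r) else 0)

section bits
variable {n : ℕ} (H : Finset (Finset (Fin n)))

/-- The bit of the quadruple number `r`. -/
def hq (t : Fin 6 → Fin n) (r : ℕ) : Bool := zb H t (q6 6 r)

/-- The coordinates. -/
def bw (t : Fin 6 → Fin n) (r : ℕ) : Bool :=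
  if r < 10 then gc H t r else
    (zb H t (q6 6 (nq (r - 10))) ^^ lf 10 (Og.exF6 (q6 6 (nq (r - 10)))) (gc H t))

theorem exF6_lt : ∀ r < 15, Og.exF6 (q6 6 r) < 2 ^ 11 := by decide +kernel

theorem pq_geo : ∀ r < 15, cq r < 5 ∨ (pq r < 10 ∧ q6 6 r = qd 6 (pq r)) := by decide +kernel

theorem cq_geo : ∀ r < 15, cq r < 5 → nq (cq r) = r := by decide +kernel

theorem exF6_qd : ∀ r < 10, Og.exF6 (qd 6 r) = 2 ^ (r + 1) := by decide +kernel

theorem fq_eq1 : ∀ r < 15, ¬ cq r < 5 → fq r = 2 ^ (pq r + 1) := by decide +kernel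

theorem fq_eq2 : ∀ r < 15, cq r < 5 → fq r = Og.exF6 (q6 6 r) ^^^ 2 ^ (10 + cq r + 1) := by
  decide +kernel

theorem hq_eq (t : Fin 6 → Fin n) (r : ℕ) (hr : r < 15) : hq H t r = lf 15 (fq r) (bw H t) := by
  by_cases h5 : cq r < 5
  · rw [fq_eq2 r hr h5, lf_xor, lf_two_pow, decide_eq_true (show 10 + cq r < 15 by omega),
      Bool.true_and]
    have e1 : lf 15 (Og.exF6 (q6 6 r)) (bw H t) = lf 10 (Og.exF6 (q6 6 r)) (gc H t) := by
      rw [show 15 = 10 + 5 from rfl, lf_ext 10 5 _ _ (exF6_lt r hr)]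
      apply lf_congr
      intro i hi
      unfold bw
      rw [if_pos hi]
    have e2 : bw H t (10 + cq r) =
        (zb H t (q6 6 r) ^^ lf 10 (Og.exF6 (q6 6 r)) (gc H t)) := by
      unfold bw
      rw [if_neg (by omega), Nat.add_sub_cancel_left, cq_geo r hr h5]
    rw [e1, e2]
    unfold hq
    cases zb H t (q6 6 r) <;> cases lf 10 (Og.exF6 (q6 6 r)) (gc H t) <;> rfl
  · rw [fq_eq1 r hr h5, lf_two_pow]
    rcases pq_geo r hr with h | ⟨h1, h2⟩
    · exact absurd h h5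
    · rw [decide_eq_true (show pq r < 15 by omega), Bool.true_and]
      unfold hq bw gc
      rw [if_pos h1, h2]

/-- The last coordinates of an even 4-graph. -/
theorem bw_even (E : Finset (Finset (Fin n))) (t : Fin 6 → Fin n) (hev : EvT E t) (k : ℕ)
    (h1 : 10 ≤ k) (h2 : k < 15) : bw E t k = false := by
  unfold bw
  rw [if_neg (by omega)]
  have h3 : nq (k - 10) < 15 := by
    have : ∀ k < 5, nq k < 15 := by decide
    exact this _ (by omega)
  rw [Og.zb6_eq E t hev _ (q6_card _ h3), Bool.xor_self]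

/-! ### The exchange of two neighbouring vertices -/

/-- The exchange of the vertices `i` and `i + 1`. -/
def e6 (i : Fin 5) : Equiv.Perm (Fin 6) := Equiv.swap i.castSucc i.succ

/-- The action on the quadruples. -/
def aqL : List (List ℕ) := [
  [0, 1, 2, 4, 3, 5, 6, 8, 7, 9, 11, 10, 13, 12, 14],
  [0, 1, 3, 2, 4, 5, 7, 6, 8, 10, 9, 11, 12, 14, 13],
  [0, 2, 1, 3, 4, 6, 5, 7, 8, 9, 12, 13, 10, 11, 14],
  [1, 0, 2, 3, 4, 5, 9, 10, 11, 6, 7, 8, 12, 13, 14],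
  [0, 5, 6, 7, 8, 1, 2, 3, 4, 9, 10, 11, 12, 13, 14]]

/-- The action on the quadruples. -/
def aq (i r : ℕ) : ℕ := nthG 0 (nthG [] aqL i) r

theorem aq_geo : ∀ i : Fin 5, ∀ r < 15, aq i r < 15 ∧ (q6 6 r).image (e6 i) = q6 6 (aq i r) := by
  decide +kernel

theorem hq_ex (t : Fin 6 → Fin n) (i : Fin 5) (r : ℕ) (hr : r < 15) :
    hq H (t ∘ e6 i) r = hq H t (aq i r) := by
  unfold hq
  rw [zb_comp, (aq_geo i r hr).2]

/-- The linear forms of the coordinates after an exchange. -/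
def lm (i r : ℕ) : ℕ := if r < 10 then fq (aq i (nthG 0 [0, 1, 2, 3, 5, 6, 7, 9, 10, 12] r)) else
  Nat.xor (fq (aq i (nq (r - 10))))
    (cmp (fun r => fq (aq i (nthG 0 [0, 1, 2, 3, 5, 6, 7, 9, 10, 12] r))) 10
      (Og.exF6 (q6 6 (nq (r - 10)))))

theorem qd_q6 : ∀ r < 10, nthG 0 [0, 1, 2, 3, 5, 6, 7, 9, 10, 12] r < 15 ∧
    qd 6 r = q6 6 (nthG 0 [0, 1, 2, 3, 5, 6, 7, 9, 10, 12] r) := by decide +kernel

theorem gc_ex (t : Fin 6 → Fin n) (i : Fin 5) (r : ℕ) (hr : r < 10) :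
    gc H (t ∘ e6 i) r =
      lf 15 (fq (aq i (nthG 0 [0, 1, 2, 3, 5, 6, 7, 9, 10, 12] r))) (bw H t) := by
  obtain ⟨h1, h2⟩ := qd_q6 r hr
  have e : gc H (t ∘ e6 i) r = hq H (t ∘ e6 i) (nthG 0 [0, 1, 2, 3, 5, 6, 7, 9, 10, 12] r) := by
    unfold gc hq
    rw [h2]
  rw [e, hq_ex H t i _ h1, hq_eq H t _ (aq_geo i _ h1).1]

theorem bw_ex (t : Fin 6 → Fin n) (i : Fin 5) (r : ℕ) (hr : r < 15) :
    bw H (t ∘ e6 i) r = lf 15 (lm i r) (bw H t) := by
  unfold lm
  by_cases h10 : r < 10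
  · rw [if_pos h10, ← gc_ex H t i r h10]
    unfold bw
    rw [if_pos h10]
  · rw [if_neg h10]
    have h3 : nq (r - 10) < 15 := by
      have : ∀ k < 5, nq k < 15 := by decide
      exact this _ (by omega)
    have e1 : lf 15 (Nat.xor (fq (aq i (nq (r - 10))))
        (cmp (fun r => fq (aq i (nthG 0 [0, 1, 2, 3, 5, 6, 7, 9, 10, 12] r))) 10
          (Og.exF6 (q6 6 (nq (r - 10)))))) (bw H t) =
        (lf 15 (fq (aq i (nq (r - 10)))) (bw H t) ^^ lf 15
        (cmp (fun r => fq (aq i (nthG 0 [0, 1, 2, 3, 5, 6, 7, 9, 10, 12] r))) 10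
          (Og.exF6 (q6 6 (nq (r - 10))))) (bw H t)) := lf_xor _ _ _ _
    rw [e1, ← lf_cmp, ← hq_eq H t _ (aq_geo i _ h3).1, ← hq_ex H t i _ h3]
    unfold bw
    rw [if_neg h10]
    unfold hq
    congr 1
    apply lf_congr
    intro k hk
    exact gc_ex H t i k hk

end bits

end Pool.Agent.Lib.MP_afdd4d_co.K9.W6
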