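import Pool.Agent.Lib.MP_afdd4d_co.K9.W6Row

/-!
# Soundness of the check of a row
-/

namespace Pool.Agent.Lib.MP_afdd4d_co.K9.W6

open Finset K8
open Pool.Agent.Lib.MP_afdd4d_co.K9.Star

/-! ### Bounds of the values -/

namespace RD
variable {R : RD} {D : C4D} {B : B2} {U K : ℕ}

theorem F41_abs (hD : D.OK) (X J : ℕ) (b : ℕ → Bool) (q : ℕ) : |F41 D X J b q| ≤ D.of :=
  C4D.val_abs hD (idx_lt 6 _) (D.cd_lt _ _ _ _) (D.cd_lt _ _ _ _)

theorem tn_le (c : Bool) : c.toNat ≤ 1 := by cases c <;> simp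

theorem F22_abs (hB : B.OK) (X J : ℕ) (b : ℕ → Bool) (m : ℕ) : |F22 B X J b m| ≤ B.of := by
  unfold F22
  have h1 := tn_le (X.testBit (mq m 0))
  have h2 := tn_le (X.testBit (mq m 1))
  have h3 := tn_le (X.testBit (mq m 2))
  have h4 := tn_le (X.testBit (mq m 3))
  have h5 := tn_le (X.testBit (mq m 4))
  have h6 := tn_le (X.testBit (mq m 5))
  have h7 := tn_le (J.testBit (nthG 0 q1L m))
  have h8 := tn_le (J.testBit (nthG 0 q2L m))
  have h9 := tn_le (eb b (nthG 0 q1L m))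
  have h10 := tn_le (eb b (nthG 0 q2L m))
  exact hB.bd _ (by omega) _ (by omega) _ (by omega)

/-- The array of a row. -/
theorem rwA_ar (h : R.OK D B U K) (hD : D.OK) (hB : B.OK) (X J M : ℕ) (Mv : (ℕ → Bool) → ℕ)
    (hX : ∀ q < 15, cR q X ∈ [0, 1, 3, 7, 15]) (hM : Ar R.W 10 M Mv) (hMv : ∀ b, Mv b ≤ 2 ^ K) :
    Ar R.W 10 (R.rwA D M X J) (fun b => ∑ q ∈ range 15, (D.of - F41 D X J b q).toNat +
      (∑ m ∈ range 45, (B.of - F22 B X J b m).toNat +
        (∑ k ∈ range 6, R.u5 (hc J b k) (ec b k) + Mv b))) ∧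
    ∀ b, ∑ q ∈ range 15, (D.of - F41 D X J b q).toNat +
      (∑ m ∈ range 45, (B.of - F22 B X J b m).toNat +
        (∑ k ∈ range 6, R.u5 (hc J b k) (ec b k) + Mv b)) < 2 ^ (R.W - 1) := by
  have hsz := h.sz
  have hpw := h.pw
  have hK0 := Nat.two_pow_pos K
  have b1 : ∀ q < 15, ∀ b, (D.of - F41 D X J b q).toNat ≤ 2 * D.of := by
    intro q _ b
    have h1 := abs_le.mp (F41_abs hD X J b q)
    omega
  have b2 : ∀ m < 45, ∀ b, (B.of - F22 B X J b m).toNat ≤ 2 * B.of := by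
    intro m _ b
    have h1 := abs_le.mp (F22_abs hB X J b m)
    omega
  have b3 : ∀ k < 6, ∀ b, R.u5 (hc J b k) (ec b k) ≤ U := fun k _ b => h.u5U _ _
  have a1 := sN_ar h.hW0 (R.A41 D X J) (fun q b => (D.of - F41 D X J b q).toNat) (2 * D.of) 15
    (fun q hq => A41_ar h hD X J q hq (hX q hq)) b1 (by omega)
  have a2 := sN_ar h.hW0 (R.A22 X J) (fun m b => (B.of - F22 B X J b m).toNat) (2 * B.of) 45
    (fun m hm => A22_ar h X J m hm) b2 (by omega)
  have a3 := sN_ar h.hW0 (R.A5 J) (fun k b => R.u5 (hc J b k) (ec b k)) U 6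
    (fun k hk => A5_ar h J k hk) b3 (by omega)
  have s1 : ∀ b, ∑ q ∈ range 15, (D.of - F41 D X J b q).toNat ≤ 15 * (2 * D.of) := by
    intro b
    have := Finset.sum_le_sum fun q (hq : q ∈ range 15) => b1 q (Finset.mem_range.mp hq) b
    rwa [Finset.sum_const, Finset.card_range, smul_eq_mul] at this
  have s2 : ∀ b, ∑ m ∈ range 45, (B.of - F22 B X J b m).toNat ≤ 45 * (2 * B.of) := by
    intro b
    have := Finset.sum_le_sum fun q (hq : q ∈ range 45) => b2 q (Finset.mem_range.mp hq) b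
    rwa [Finset.sum_const, Finset.card_range, smul_eq_mul] at this
  have s3 : ∀ b, ∑ k ∈ range 6, R.u5 (hc J b k) (ec b k) ≤ 6 * U := by
    intro b
    have := Finset.sum_le_sum fun q (hq : q ∈ range 6) => b3 q (Finset.mem_range.mp hq) b
    rwa [Finset.sum_const, Finset.card_range, smul_eq_mul] at this
  have a4 := a3.add hM h.hW0 fun b => by
    have := s3 b
    have := hMv b
    omega
  have a5 := a2.add a4 h.hW0 fun b => by
    have := s3 b
    have := s2 b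
    have := hMv b
    omega
  refine ⟨a1.add a5 h.hW0 fun b => ?_, fun b => ?_⟩
  · have := s3 b
    have := s2 b
    have := s1 b
    have := hMv b
    omega
  · have := s3 b
    have := s2 b
    have := s1 b
    have := hMv b
    omega

/-- Soundness of the check of a row. -/
theorem rwG_spec (h : R.OK D B U K) (hD : D.OK) (hB : B.OK) (X J M c : ℕ) (Mv : (ℕ → Bool) → ℕ)
    (hX : ∀ q < 15, cR q X ∈ [0, 1, 3, 7, 15]) (hM : Ar R.W 10 M Mv) (hMv : ∀ b, Mv b ≤ 2 ^ K)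
    (hrow : R.rwG D M X c J = true) (b : ℕ → Bool) (hb : Mv b = 0) :
    (c : ℤ) + ∑ q ∈ range 15, F41 D X J b q + ∑ m ∈ range 45, F22 B X J b m ≤
      15 * D.of + 45 * B.of + ∑ k ∈ range 6, (R.u5 (hc J b k) (ec b k) : ℤ) := by
  obtain ⟨h1, h2⟩ := rwA_ar h hD hB X J M Mv hX hM hMv
  have h3 := geG_spec h.hW h1 h2 hrow b
  rw [hb, Nat.add_zero] at h3
  have h5 : (c : ℤ) ≤ ∑ q ∈ range 15, (((D.of - F41 D X J b q).toNat : ℕ) : ℤ) +
      (∑ m ∈ range 45, (((B.of - F22 B X J b m).toNat : ℕ) : ℤ) +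
        ∑ k ∈ range 6, (R.u5 (hc J b k) (ec b k) : ℤ)) := by exact_mod_cast h3
  have e1 : ∑ q ∈ range 15, (((D.of - F41 D X J b q).toNat : ℕ) : ℤ) =
      15 * D.of - ∑ q ∈ range 15, F41 D X J b q := by
    rw [eq_sub_iff_add_eq, ← Finset.sum_add_distrib]
    have : ∀ q ∈ range 15, (((D.of - F41 D X J b q).toNat : ℕ) : ℤ) + F41 D X J b q = D.of := by
      intro q _
      have h6 := abs_le.mp (F41_abs hD X J b q)
      omega
    rw [Finset.sum_congr rfl this, Finset.sum_const, Finset.card_range, nsmul_eq_mul]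
    norm_num
  have e2 : ∑ m ∈ range 45, (((B.of - F22 B X J b m).toNat : ℕ) : ℤ) =
      45 * B.of - ∑ m ∈ range 45, F22 B X J b m := by
    rw [eq_sub_iff_add_eq, ← Finset.sum_add_distrib]
    have : ∀ q ∈ range 45, (((B.of - F22 B X J b q).toNat : ℕ) : ℤ) + F22 B X J b q = B.of := by
      intro q _
      have h6 := abs_le.mp (F22_abs hB X J b q)
      omega
    rw [Finset.sum_congr rfl this, Finset.sum_const, Finset.card_range, nsmul_eq_mul]
    norm_num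
  rw [e1, e2] at h5
  linarith

end RD

/-! ### The windows -/

section win
variable {n : ℕ} {H E : Finset (Finset (Fin n))} {χ : Fin n → Bool}

theorem jc_bit (t : Fin 6 → Fin n) (r : ℕ) (hr : r < 15) :
    (jc H E t).testBit r = (hq H t r ^^ hq E t r) := by
  unfold jc
  rw [testBit_idx, decide_eq_true hr, Bool.true_and]
  rfl

theorem xc_bit (t : Fin 6 → Fin n) (r : ℕ) (hr : r < 6) :
    (xc χ t).testBit r = χ (t (Fin.ofNat 6 r)) := by
  unfold xc
  rw [testBit_idx, decide_eq_true hr, Bool.true_and]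

theorem eb_gc (t : Fin 6 → Fin n) (hev : EvT E t) (r : ℕ) (hr : r < 15) :
    eb (gc E t) r = hq E t r := by
  unfold eb hq
  rw [Og.zb6_eq E t hev _ (q6_card r hr), exL_eq r hr]

theorem rp_geo : ∀ q < 15, (univ : Finset (Fin 4)).image (rp q) = q6 6 (qr q) ∧
    (∀ r < 4, rq q r < 6 ∧ rp q (Fin.ofNat 4 r) = Fin.ofNat 6 (rq q r)) ∧
    ∀ i < 2, vq q i < 6 ∧
      Function.Injective (Fin.snoc (rp q) (Fin.ofNat 6 (vq q i)) : Fin 5 → Fin 6) ∧
      ∀ r < 4, (q6 5 (1 + r)).image (Fin.snoc (rp q) (Fin.ofNat 6 (vq q i)) : Fin 5 → Fin 6) =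
        q6 6 (lk q i r) := by decide +kernel

theorem snoc_comp (t : Fin 6 → Fin n) (f : Fin 4 → Fin 6) (v : Fin 6) :
    (Fin.snoc (t ∘ f) (t v) : Fin 5 → Fin n) = t ∘ (Fin.snoc f v : Fin 5 → Fin 6) := by
  funext i
  refine Fin.lastCases ?_ (fun j => ?_) i
  · rw [Fin.snoc_last, Function.comp_apply, Fin.snoc_last]
  · rw [Fin.snoc_castSucc, Function.comp_apply, Function.comp_apply, Fin.snoc_castSucc]

theorem l4_hq (G : Finset (Finset (Fin n))) (t : Fin 6 → Fin n) (q i r : ℕ) (hq' : q < 15)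
    (hi : i < 2) (hr : r < 4) :
    l4 G (t ∘ rp q) (t (Fin.ofNat 6 (vq q i))) r = hq G t (lk q i r) := by
  obtain ⟨_, _, h3⟩ := rp_geo q hq'
  unfold l4
  rw [snoc_comp, zb_comp, ((h3 i hi).2.2 r hr)]
  rfl

theorem q4_hq (G : Finset (Finset (Fin n))) (t : Fin 6 → Fin n) (q : ℕ) (hq' : q < 15) :
    q4 G (t ∘ rp q) = hq G t (qr q) := by
  unfold q4
  rw [zb_comp, (rp_geo q hq').1]
  rfl

theorem pt4_eq (t : Fin 6 → Fin n) (hev : EvT E t) (q : ℕ) (hq' : q < 15) :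
    pt4 H E χ (t ∘ rp q) = pp q (xc χ t) (jc H E t) (gc E t) := by
  obtain ⟨_, h2, _⟩ := rp_geo q hq'
  have hqr := qr_lt q hq'
  unfold pt4 pp
  apply idx_congr
  intro r hr
  by_cases h4 : r < 4
  · rw [if_pos h4, if_pos h4, xc_bit t _ (h2 r h4).1]
    unfold c4
    rw [Function.comp_apply, (h2 r h4).2]
  · rw [if_neg h4, if_neg h4]
    rw [q4_hq H t q hq', q4_hq E t q hq', jc_bit t _ hqr, eb_gc t hev _ hqr]
    split_ifs
    · cases hq H t (qr q) <;> cases hq E t (qr q) <;> rfl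
    · rfl

variable {R : RD} {D : C4D} {B : B2} {U K : ℕ}

theorem cu_eq (h : R.OK D B U K) (t : Fin 6 → Fin n) (hev : EvT E t) (q i : ℕ) (hq' : q < 15)
    (hi : i < 2) (hX : cR q (xc χ t) ∈ [0, 1, 3, 7, 15]) :
    D.cu H E χ (t ∘ rp q) (t (Fin.ofNat 6 (vq q i))) =
      ca D q i (xc χ t) (jc H E t) (gc E t) := by
  obtain ⟨hg, hf⟩ := RD.std_pp h q (xc χ t) (jc H E t) (gc E t) hX
  obtain ⟨_, _, h3⟩ := rp_geo q hq'
  have hgs : ∀ r, gs (vv (cR q (xc χ t))) r < 4 := fun r => Nat.mod_lt _ (by norm_num)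
  unfold C4D.cu ca
  rw [pt4_eq t hev q hq', RD.cd_eq _ _ hg, RD.cd_eq _ _ hg, xc_bit t _ (h3 i hi).1]
  have e1 : idx 3 (fun r => l4 E (t ∘ rp q) (t (Fin.ofNat 6 (vq q i)))
      (gs (vv (cR q (xc χ t))) r)) =
      idx 3 (fun r => eb (gc E t) (lk q i (gs (vv (cR q (xc χ t))) r))) := by
    apply idx_congr
    intro r hr
    rw [l4_hq E t q i _ hq' hi (hgs r), eb_gc t hev _ (lk_lt q hq' i hi _ (hgs r))]
  have e2 : idx 4 (fun r => l4 H (t ∘ rp q) (t (Fin.ofNat 6 (vq q i)))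
        (gs (vv (cR q (xc χ t))) r) ^^
      l4 E (t ∘ rp q) (t (Fin.ofNat 6 (vq q i))) (gs (vv (cR q (xc χ t))) r)) =
      idx 4 (fun r => (jc H E t).testBit (lk q i (gs (vv (cR q (xc χ t))) r))) := by
    apply idx_congr
    intro r hr
    rw [l4_hq H t q i _ hq' hi (hgs r), l4_hq E t q i _ hq' hi (hgs r),
      jc_bit t _ (lk_lt q hq' i hi _ (hgs r))]
  rw [e1, e2]

theorem kj_eq (h : R.OK D B U K) (hE : EvenH n E) (t : Fin 6 → Fin n)
    (ht : Function.Injective t) (q : ℕ) (hq' : q < 15)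
    (hX : cR q (xc χ t) ∈ [0, 1, 3, 7, 15]) :
    D.kj H E χ (t ∘ rp q) (t (Fin.ofNat 6 (vq q 0))) (t (Fin.ofNat 6 (vq q 1))) =
      F41 D (xc χ t) (jc H E t) (gc E t) q := by
  have hev := evT_of_evenH E hE t ht
  obtain ⟨_, _, h3⟩ := rp_geo q hq'
  have h5 : ∀ i < 2, C4D.ev4 E (t ∘ rp q) (t (Fin.ofNat 6 (vq q i))) = true := by
    intro i hi
    apply C4D.ev4_of
    rw [snoc_comp]
    exact evT_of_evenH E hE _ (ht.comp (h3 i hi).2.1)
  unfold C4D.kj F41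
  rw [h5 0 (by omega), h5 1 (by omega), Bool.and_true, if_pos rfl, cu_eq h t hev q 0 hq' (by omega) hX,
    cu_eq h t hev q 1 hq' (by omega) hX, pt4_eq t hev q hq']

theorem mp_geo : ∀ m < 45, nthG 0 q1L m < 15 ∧ nthG 0 q2L m < 15 ∧
    (univ : Finset (Fin 4)).image ![mp m 0 1 0, mp m 0 1 1, mp m 2 3 0, mp m 2 3 1] =
      q6 6 (nthG 0 q1L m) ∧
    (univ : Finset (Fin 4)).image ![mp m 0 1 0, mp m 0 1 1, mp m 4 5 0, mp m 4 5 1] =
      q6 6 (nthG 0 q2L m) ∧ ∀ i < 6, mq m i < 6 := by decide +kernel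

theorem q2_comp (t : Fin 6 → Fin n) (f g : Fin 2 → Fin 6) :
    q2 (t ∘ f) (t ∘ g) = t ∘ ![f 0, f 1, g 0, g 1] := by
  funext i
  fin_cases i <;> rfl

theorem k22_eq (t : Fin 6 → Fin n) (hev : EvT E t) (m : ℕ) (hm : m < 45) :
    B.k22 H E χ (t ∘ mp m 0 1) (t ∘ mp m 2 3) (t ∘ mp m 4 5) =
      F22 B (xc χ t) (jc H E t) (gc E t) m := by
  obtain ⟨h1, h2, h3, h4, h5⟩ := mp_geo m hm
  unfold B2.k22 F22 cd2
  rw [q2_comp, q2_comp, zb_comp, zb_comp, zb_comp, zb_comp, h3, h4, jc_bit t _ h1, jc_bit t _ h2,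
    eb_gc t hev _ h1, eb_gc t hev _ h2, xc_bit t _ (h5 0 (by omega)), xc_bit t _ (h5 1 (by omega)),
    xc_bit t _ (h5 2 (by omega)), xc_bit t _ (h5 3 (by omega)), xc_bit t _ (h5 4 (by omega)),
    xc_bit t _ (h5 5 (by omega))]
  rfl

/-- The number of quadruples of the five-set number `k` of a window. -/
def cnt (G : Finset (Finset (Fin n))) (t : Fin 6 → Fin n) (k : ℕ) : ℕ :=
  ∑ i ∈ range 5, (hq G t (fs k i)).toNat

theorem hc_eq (t : Fin 6 → Fin n) (hev : EvT E t) (k : ℕ) (hk : k < 6) :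
    hc (jc H E t) (gc E t) k = cnt H t k := by
  unfold hc cnt
  refine Finset.sum_congr rfl fun i hi => ?_
  have h1 := fs_lt k hk i (Finset.mem_range.mp hi)
  rw [jc_bit t _ h1, eb_gc t hev _ h1]
  cases hq H t (fs k i) <;> cases hq E t (fs k i) <;> rfl

theorem ec_eq (t : Fin 6 → Fin n) (hev : EvT E t) (k : ℕ) (hk : k < 6) :
    ec (gc E t) k = cnt E t k := by
  unfold ec cnt
  refine Finset.sum_congr rfl fun i hi => ?_
  rw [eb_gc t hev _ (fs_lt k hk i (Finset.mem_range.mp hi))]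

/-- The inequality of a row. -/
theorem row_le (h : R.OK D B U K) (hD : D.OK) (hB : B.OK) (hE : EvenH n E) (t : Fin 6 → Fin n)
    (ht : Function.Injective t) (hX : ∀ q < 15, cR q (xc χ t) ∈ [0, 1, 3, 7, 15]) (M c : ℕ)
    (Mv : (ℕ → Bool) → ℕ) (hM : Ar R.W 10 M Mv) (hMv : ∀ b, Mv b ≤ 2 ^ K)
    (hrow : R.rwG D M (xc χ t) c (jc H E t) = true) (hb : Mv (gc E t) = 0) :
    (c : ℤ) + ∑ q ∈ range 15, D.kj H E χ (t ∘ rp q) (t (Fin.ofNat 6 (vq q 0)))
        (t (Fin.ofNat 6 (vq q 1))) +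
      ∑ m ∈ range 45, B.k22 H E χ (t ∘ mp m 0 1) (t ∘ mp m 2 3) (t ∘ mp m 4 5) ≤
      15 * D.of + 45 * B.of + ∑ k ∈ range 6, (R.u5 (cnt H t k) (cnt E t k) : ℤ) := by
  have hev := evT_of_evenH E hE t ht
  have h1 := RD.rwG_spec h hD hB (xc χ t) (jc H E t) M c Mv hX hM hMv hrow (gc E t) hb
  rw [Finset.sum_congr rfl fun q hq' => kj_eq h hE t ht q (Finset.mem_range.mp hq')
      (hX q (Finset.mem_range.mp hq')),
    Finset.sum_congr rfl fun m hm => k22_eq t hev m (Finset.mem_range.mp hm)]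
  have e5 : ∑ k ∈ range 6, (R.u5 (hc (jc H E t) (gc E t) k) (ec (gc E t) k) : ℤ) =
      ∑ k ∈ range 6, (R.u5 (cnt H t k) (cnt E t k) : ℤ) := by
    refine Finset.sum_congr rfl fun k hk => ?_
    rw [hc_eq t hev k (Finset.mem_range.mp hk), ec_eq t hev k (Finset.mem_range.mp hk)]
  rw [e5] at h1
  exact h1

end win

end Pool.Agent.Lib.MP_afdd4d_co.K9.W6
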