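import Pool.Agent.Lib.MP_afdd4d_co.K9.W6Col

/-!
# Terms given by tables for the colourings of the window
-/

namespace Pool.Agent.Lib.MP_afdd4d_co.K9.W6

open Finset K8
open Pool.Agent.Lib.MP_afdd4d_co.K9.Star

theorem okPs_append {NN : ℕ} {g : ℕ → ℕ} {P : PT} {Rs : List RT} {Ts : List TB} {b : ℕ} :
    ∀ {l l' : List PB} {ds ds' : List (List JB)}, okPs NN g P Rs Ts b l ds = true →
      okPs NN g P Rs Ts b l' ds' = true → okPs NN g P Rs Ts b (l ++ l') (ds ++ ds') = true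
  | [], _, [], _, _, h' => h'
  | [], _, _ :: _, _, h, _ => absurd (Nat.eq_of_beq_eq_true h) (by simp)
  | p :: l, _, [], _, h, _ => by
    have e : okPs NN g P Rs Ts b (p :: l) [] = false := rfl
    rw [e] at h
    exact Bool.noConfusion h
  | p :: l, l', d :: ds, ds', h, h' => by
    have e1 : okPs NN g P Rs Ts b (p :: l) (d :: ds) =
      (((okR p.pr p.k && Nat.beq (ndG p.pr p.k) NN) && okJs NN g P Rs Ts b p p.I d) &&
        okPs NN g P Rs Ts b l ds) := rfl
    have e2 : okPs NN g P Rs Ts b (p :: l ++ l') (d :: ds ++ ds') =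
      (((okR p.pr p.k && Nat.beq (ndG p.pr p.k) NN) && okJs NN g P Rs Ts b p p.I d) &&
        okPs NN g P Rs Ts b (l ++ l') (ds ++ ds')) := rfl
    rw [e1, Bool.and_eq_true] at h
    rw [e2, Bool.and_eq_true]
    exact ⟨h.1, okPs_append h.2 h'⟩

/-- A term: the raw tables for the colourings, the tables of the second stage, and for each number of
vertices of the second colour the placements, their data, the ranks left out, the sum of the offsets
and a bound. -/
structure LT where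
  Rs : List RT
  Ts : List TB
  pl : List (List PB)
  ds : List (List (List JB))
  zs : List (List ℕ)
  O : List ℕ
  U : List ℕ

/-- The check that the tables for the ranks of a list are empty. -/
def zRk (P : PT) (Rs : List RT) (b : ℕ) (l : List ℕ) : Bool :=
  l.all fun i => and (Nat.beq (nthG RT0 Rs (cpG b (nthG 0 P.V i))).P 0)
    (Nat.beq (nthG RT0 Rs (cpG b (nthG 0 P.V i))).Q 0)

namespace LT

/-- The value of a term from the bits of the lanes and of the keys. -/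
def val (L : LT) (W : ℕ) (e y : ℕ → Bool) : ℤ :=
  ((nthG RT0 L.Rs (idx 6 fun a => y (15 + a))).M 0 0).val W e y

/-- A term on a window. -/
def f (L : LT) (W : ℕ) : FunE := fun H E χ t => L.val W (eE E t) (yJ H E χ t)

/-- The conditions for a number of vertices of the second colour. -/
structure OKb (L : LT) (W : ℕ) (P : PT) (b : ℕ) : Prop where
  hp : okPs 10 gE P L.Rs L.Ts b (nthG [] L.pl b) (nthG [] L.ds b) = true
  hk : okRk (rJs (nthG [] L.ds b).flatten ++ nthG [] L.zs b) = true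
  hz : zRk P L.Rs b (nthG [] L.zs b) = true
  hO : nthG 0 L.O b = oJs L.Ts (nthG [] L.ds b).flatten
  hU : uJs L.Ts (nthG [] L.ds b).flatten ≤ nthG 0 L.U b
  hW : nthG 0 L.U b < 2 ^ W

/-- The conditions on a term. -/
structure OK (L : LT) (W : ℕ) (P : PT) : Prop where
  hR : ∀ R ∈ L.Rs, R.ck W 10 gE = true
  hT : ∀ T ∈ L.Ts, T.ck W L.Rs = true
  hb : ∀ b < 7, L.OKb W P b

/-- The array of a term. -/
def a (L : LT) (W b J : ℕ) : ℕ := apG W J (nthG [] L.pl b)

/-- The value of the array of a term. -/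
def v (L : LT) (W b J : ℕ) (z : ℕ → Bool) : ℕ := vpL W 10 J z (nthG [] L.pl b)

theorem gE_lt : ∀ r < 15, gE r < 2 ^ (10 + 1) := by decide +kernel

section
variable {L : LT} {W : ℕ} {P : PT}

theorem okR (h : L.OK W P) (hW : 0 < W) (c : ℕ) : (nthG RT0 L.Rs c).OK W 10 gE :=
  RT.nth_ok gE_lt (fun R hR => RT.ck_spec hW (h.hR R hR)) c

theorem okT (h : L.OK W P) (hW : 0 < W) (j : ℕ) : (nthG TB0 L.Ts j).OK W L.Rs :=
  TB.nth_ok (fun T hT => TB.ck_spec hW (okR h hW) (h.hT T hT)) j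

theorem rk_lt (h : L.OK W P) {b : ℕ} (hb : b < 7) :
    ∀ i ∈ rJs (nthG [] L.ds b).flatten ++ nthG [] L.zs b, i < 720 := by
  intro i hi
  have hk := (h.hb b hb).hk
  rw [okRk, Bool.and_eq_true, Bool.and_eq_true] at hk
  have := List.all_eq_true.mp hk.2.2 i hi
  rwa [Nat.blt_eq] at this

theorem a_ar (hP : P.OK) (hW : 0 < W) (h : L.OK W P) {b : ℕ} (hb : b < 7) (J : ℕ) :
    Ar W 10 (L.a W b J) (L.v W b J) ∧ ∀ z, L.v W b J z ≤ nthG 0 L.U b := by
  have hB := h.hb b hb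
  have hU := hB.hU
  have hUW := hB.hW
  obtain ⟨g1, g2, _, _⟩ := apG_ar hP hW (okR h hW) (okT h hW) b J (nthG [] L.pl b)
    (nthG [] L.ds b) (fun i hi => rk_lt h hb i (List.mem_append.mpr (Or.inl hi))) hB.hp (by omega)
  exact ⟨g1, fun z => le_trans (g2 z) hU⟩

variable {n : ℕ} {H E : Finset (Finset (Fin n))} {χ : Fin n → Bool}

theorem xc_col (t : Fin 6 → Fin n) (b : ℕ) (hx : xc χ t = 2 ^ b - 1) (r : ℕ) (hr : r < 6) :
    χ (t (Fin.ofNat 6 r)) = decide (r < b) := by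
  have h := xc_bit (χ := χ) t r hr
  rw [← h, hx, Nat.testBit_two_pow_sub_one]

theorem col_eq (hP : P.OK) (t : Fin 6 → Fin n) (b : ℕ) (hx : xc χ t = 2 ^ b - 1) (i : ℕ)
    (hi : i < 720) : (idx 6 fun a => yJ H E χ (t ∘ dg (nthG 0 P.N i)) (15 + a)) =
      cpG b (nthG 0 P.V i) := by
  rw [cpG_eq hP b i hi]
  apply idx_congr
  intro a ha
  unfold yJ
  rw [if_neg (by omega), Nat.add_sub_cancel_left, Function.comp_apply, dg_dn _ a ha,
    xc_col t b hx _ (dn_lt _ a)]

theorem rank_val (hP : P.OK) (hW : 0 < W) (h : L.OK W P) (t : Fin 6 → Fin n) (hev : EvT E t)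
    (b : ℕ) (hx : xc χ t = 2 ^ b - 1) (i : ℕ) (hi : i < 720) :
    L.f W H E χ (t ∘ dg (nthG 0 P.N i)) =
      ((nthG RT0 L.Rs (cpG b (nthG 0 P.V i))).M 0 0).val W
        (fun s => lf 10 (gE (qx (nthG 0 P.N i) s)) (gc E t))
        (fun s => (jc H E t).testBit (qx (nthG 0 P.N i) s)) := by
  have hN := P.dg_inj hP i hi
  have hR := okR h hW (cpG b (nthG 0 P.V i))
  unfold f val
  rw [col_eq hP t b hx i hi]
  refine Mk.val_congr' (hR.ok0 0 0) (fun s hs => ?_) fun l hl s hs => ?_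
  · obtain ⟨h1, h2⟩ := eE_dg E t _ hN s hs
    rw [h2, gE_eq _ h1]
    exact (eb_gc t hev _ h1).symm
  · have h1 := List.all_eq_true.mp (List.all_eq_true.mp hR.pq l hl) s hs
    rw [Nat.blt_eq] at h1
    have h2 := yJ_lo (H := H) (E := E) (χ := χ) t _ hN s h1
    rw [yc_lo _ _ (jc_lt t) _ (eE_dg H t _ hN s h1).1] at h2
    exact h2.symm

theorem rank_sum (hP : P.OK) (hW : 0 < W) (h : L.OK W P) (t : Fin 6 → Fin n) (hev : EvT E t)
    (b : ℕ) (hx : xc χ t = 2 ^ b - 1) (i : ℕ) (hi : i < 720) :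
    L.f W H E χ (t ∘ dg (nthG 0 P.N i)) +
      (vrk W 10 gE P L.Rs b (jc H E t) (gc E t) i : ℤ) =
      (nthG RT0 L.Rs (cpG b (nthG 0 P.V i))).off := by
  have hR := okR h hW (cpG b (nthG 0 P.V i))
  rw [rank_val hP hW h t hev b hx i hi]
  have h1 := hR.eq (((nthG RT0 L.Rs (cpG b (nthG 0 P.V i))).M 0 0).bit 10 gE (nthG 0 P.N i)
    (jc H E t) (gc E t))
  have h2 : ((nthG RT0 L.Rs (cpG b (nthG 0 P.V i))).M 0 0).val W
        (fun s => lf 10 (gE (qx (nthG 0 P.N i) s)) (gc E t))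
        (fun s => (jc H E t).testBit (qx (nthG 0 P.N i) s)) =
      (Ln W (nthG RT0 L.Rs (cpG b (nthG 0 P.V i))).P (idx ((nthG RT0 L.Rs
        (cpG b (nthG 0 P.V i))).k + (nthG RT0 L.Rs (cpG b (nthG 0 P.V i))).m)
        (((nthG RT0 L.Rs (cpG b (nthG 0 P.V i))).M 0 0).bit 10 gE (nthG 0 P.N i)
          (jc H E t) (gc E t))) : ℤ) -
      Ln W (nthG RT0 L.Rs (cpG b (nthG 0 P.V i))).Q (idx ((nthG RT0 L.Rs
        (cpG b (nthG 0 P.V i))).k + (nthG RT0 L.Rs (cpG b (nthG 0 P.V i))).m)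
        (((nthG RT0 L.Rs (cpG b (nthG 0 P.V i))).M 0 0).bit 10 gE (nthG 0 P.N i)
          (jc H E t) (gc E t))) := rfl
  have h3 : vrk W 10 gE P L.Rs b (jc H E t) (gc E t) i =
      Ln W (nthG RT0 L.Rs (cpG b (nthG 0 P.V i))).A (idx ((nthG RT0 L.Rs
        (cpG b (nthG 0 P.V i))).k + (nthG RT0 L.Rs (cpG b (nthG 0 P.V i))).m)
        (((nthG RT0 L.Rs (cpG b (nthG 0 P.V i))).M 0 0).bit 10 gE (nthG 0 P.N i)
          (jc H E t) (gc E t))) := rfl
  rw [h2, h3]
  have h4 : ((Ln W (nthG RT0 L.Rs (cpG b (nthG 0 P.V i))).A (idx ((nthG RT0 L.Rs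
        (cpG b (nthG 0 P.V i))).k + (nthG RT0 L.Rs (cpG b (nthG 0 P.V i))).m)
        (((nthG RT0 L.Rs (cpG b (nthG 0 P.V i))).M 0 0).bit 10 gE (nthG 0 P.N i)
          (jc H E t) (gc E t))) : ℕ) : ℤ) +
      Ln W (nthG RT0 L.Rs (cpG b (nthG 0 P.V i))).P (idx ((nthG RT0 L.Rs
        (cpG b (nthG 0 P.V i))).k + (nthG RT0 L.Rs (cpG b (nthG 0 P.V i))).m)
        (((nthG RT0 L.Rs (cpG b (nthG 0 P.V i))).M 0 0).bit 10 gE (nthG 0 P.N i)
          (jc H E t) (gc E t))) = (nthG RT0 L.Rs (cpG b (nthG 0 P.V i))).off +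
      Ln W (nthG RT0 L.Rs (cpG b (nthG 0 P.V i))).Q (idx ((nthG RT0 L.Rs
        (cpG b (nthG 0 P.V i))).k + (nthG RT0 L.Rs (cpG b (nthG 0 P.V i))).m)
        (((nthG RT0 L.Rs (cpG b (nthG 0 P.V i))).M 0 0).bit 10 gE (nthG 0 P.N i)
          (jc H E t) (gc E t))) := by exact_mod_cast h1
  linarith

theorem rank_zero (hP : P.OK) (hW : 0 < W) (h : L.OK W P) (t : Fin 6 → Fin n) (hev : EvT E t)
    (b : ℕ) (hb : b < 7) (hx : xc χ t = 2 ^ b - 1) (i : ℕ) (hi : i ∈ nthG [] L.zs b) :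
    L.f W H E χ (t ∘ dg (nthG 0 P.N i)) = 0 := by
  have hi' := rk_lt h hb i (List.mem_append.mpr (Or.inr hi))
  rw [rank_val hP hW h t hev b hx i hi']
  have h1 := List.all_eq_true.mp (h.hb b hb).hz i hi
  rw [Bool.and_eq_true] at h1
  have h2 : ((nthG RT0 L.Rs (cpG b (nthG 0 P.V i))).M 0 0).P = 0 := Nat.eq_of_beq_eq_true h1.1
  have h3 : ((nthG RT0 L.Rs (cpG b (nthG 0 P.V i))).M 0 0).Q = 0 := Nat.eq_of_beq_eq_true h1.2
  unfold Mk.val
  rw [h2, h3, Ln_zero_left]
  rfl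

/-- The sum over all permutations of a term. -/
theorem sum_eq (hP : P.OK) (hW : 0 < W) (h : L.OK W P) (t : Fin 6 → Fin n) (hev : EvT E t)
    (b : ℕ) (hb : b < 7) (hx : xc χ t = 2 ^ b - 1) :
    symE (L.f W) H E χ t + (L.v W b (jc H E t) (gc E t) : ℤ) = nthG 0 L.O b := by
  have hB := h.hb b hb
  have hU := hB.hU
  have hUW := hB.hW
  obtain ⟨_, _, g3, g4⟩ := apG_ar hP hW (okR h hW) (okT h hW) b (jc H E t) (nthG [] L.pl b)
    (nthG [] L.ds b) (fun i hi => rk_lt h hb i (List.mem_append.mpr (Or.inl hi))) hB.hp (by omega)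
  unfold v symE
  rw [g3, hB.hO, g4, P.sum hP _ hB.hk fun f' => L.f W H E χ (t ∘ f'), List.map_append,
    List.sum_append]
  have k1 : ∀ l : List ℕ, (∀ i ∈ l, i ∈ nthG [] L.zs b) →
      (l.map fun i => L.f W H E χ (t ∘ dg (nthG 0 P.N i))).sum = 0 := by
    intro l
    induction l with
    | nil => intro _; rfl
    | cons i l ih =>
      intro hl
      rw [List.map_cons, List.sum_cons, ih fun j hj => hl j (List.mem_cons_of_mem _ hj),
        rank_zero hP hW h t hev b hb hx i (hl i List.mem_cons_self), add_zero]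
  have k2 : ∀ l : List ℕ, (∀ i ∈ l, i < 720) →
      (l.map fun i => L.f W H E χ (t ∘ dg (nthG 0 P.N i))).sum +
        (((l.map (vrk W 10 gE P L.Rs b (jc H E t) (gc E t))).sum : ℕ) : ℤ) =
      (((l.map fun i => (nthG RT0 L.Rs (cpG b (nthG 0 P.V i))).off).sum : ℕ) : ℤ) := by
    intro l
    induction l with
    | nil => intro _; simp
    | cons i l ih =>
      intro hl
      have ih := ih fun j hj => hl j (List.mem_cons_of_mem _ hj)
      have e := rank_sum hP hW h (H := H) t hev b hx i (hl i List.mem_cons_self)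
      rw [List.map_cons, List.sum_cons, List.map_cons, List.sum_cons, List.map_cons, List.sum_cons]
      push_cast at ih ⊢
      linarith
  rw [k1 _ fun i hi => hi, add_zero]
  exact k2 _ fun i hi => rk_lt h hb i (List.mem_append.mpr (Or.inl hi))

end

end LT

/-! ### Lists of terms -/

/-- The array of a list of terms. -/
def tlG (W b J : ℕ) (l : List LT) : ℕ :=
  @List.rec LT (fun _ => ℕ) 0 (fun L _ ih => Nat.add ih (L.a W b J)) l

/-- The value of the array of a list of terms. -/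
def tlV (W b J : ℕ) (z : ℕ → Bool) (l : List LT) : ℕ := (l.map fun L => L.v W b J z).sum

/-- The sum of the bounds. -/
def tlU (b : ℕ) (l : List LT) : ℕ := (l.map fun L => nthG 0 L.U b).sum

/-- The sum of the offsets. -/
def tlO (b : ℕ) (l : List LT) : ℕ := (l.map fun L => nthG 0 L.O b).sum

/-- The sum of the terms of a list over all permutations. -/
def tlS (W : ℕ) (l : List LT) : FunE := fun H E χ t => (l.map fun L => symE (L.f W) H E χ t).sum

section tl
variable {W : ℕ} {P : PT}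

theorem tlV_le (hP : P.OK) (hW : 0 < W) {b : ℕ} (hb : b < 7) (J : ℕ) (z : ℕ → Bool) :
    ∀ l : List LT, (∀ L ∈ l, L.OK W P) → tlV W b J z l ≤ tlU b l
  | [], _ => le_rfl
  | L :: l, h => by
    have h1 := tlV_le hP hW hb J z l fun L' hL' => h L' (List.mem_cons_of_mem _ hL')
    have h2 := (LT.a_ar hP hW (h L List.mem_cons_self) hb J).2 z
    unfold tlV tlU at *
    rw [List.map_cons, List.sum_cons, List.map_cons, List.sum_cons]
    omega

theorem tlG_ar (hP : P.OK) (hW : 0 < W) {b : ℕ} (hb : b < 7) (J : ℕ) :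
    ∀ l : List LT, (∀ L ∈ l, L.OK W P) → tlU b l < 2 ^ W →
      Ar W 10 (tlG W b J l) fun z => tlV W b J z l
  | [], _, _ => (ar_zero _).congr fun b => rfl
  | L :: l, h, hl => by
    have e0 : tlU b (L :: l) = nthG 0 L.U b + tlU b l := by
      unfold tlU
      rw [List.map_cons, List.sum_cons]
    have h1 := tlG_ar hP hW hb J l (fun L' hL' => h L' (List.mem_cons_of_mem _ hL')) (by omega)
    obtain ⟨h2, h3⟩ := LT.a_ar hP hW (h L List.mem_cons_self) hb J
    have e : tlG W b J (L :: l) = tlG W b J l + L.a W b J := rfl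
    rw [e]
    refine (h1.add h2 hW fun z => ?_).congr fun z => ?_
    · have h4 := tlV_le hP hW hb J z l fun L' hL' => h L' (List.mem_cons_of_mem _ hL')
      have h5 := h3 z
      omega
    · unfold tlV
      rw [List.map_cons, List.sum_cons, add_comm]

variable {n : ℕ} {H E : Finset (Finset (Fin n))} {χ : Fin n → Bool}

theorem tlS_eq (hP : P.OK) (hW : 0 < W) (t : Fin 6 → Fin n) (hev : EvT E t) (b : ℕ) (hb : b < 7)
    (hx : xc χ t = 2 ^ b - 1) : ∀ l : List LT, (∀ L ∈ l, L.OK W P) →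
      tlS W l H E χ t + (tlV W b (jc H E t) (gc E t) l : ℤ) = (tlO b l : ℕ)
  | [], _ => rfl
  | L :: l, h => by
    have h1 := tlS_eq hP hW t hev b hb hx l fun L' hL' => h L' (List.mem_cons_of_mem _ hL')
    have h2 := LT.sum_eq hP hW (h L List.mem_cons_self) (H := H) t hev b hb hx
    unfold tlS tlV tlO at *
    rw [List.map_cons, List.sum_cons, List.map_cons, List.sum_cons, List.map_cons, List.sum_cons]
    push_cast at h1 ⊢
    linarith

theorem tlS_perm (l : List LT) (t : Fin 6 → Fin n) (σ : Equiv.Perm (Fin 6)) :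
    tlS W l H E χ (t ∘ σ) = tlS W l H E χ t := by
  unfold tlS
  simp only [symE_perm]

end tl

end Pool.Agent.Lib.MP_afdd4d_co.K9.W6
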