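import Pool.Agent.Lib.MP_afdd4d_co.K9.W6Def

/-!
# Windows of six vertices: the sums of the kernels

The sum of a symmetric kernel over the ordered pairs of vertices of a window is twice the sum over the
fifteen pairs; the sum of the kernels with two roots is eight times the sum over the forty-five terms;
the sum of the kernel without roots is seventy-two times the sum over the ten splits.  The sum of all
kernels is invariant under permutations of the window.
-/

namespace Pool.Agent.Lib.MP_afdd4d_co.K9.W6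

open Finset K8
open Pool.Agent.Lib.MP_afdd4d_co.K9.Star

/-! ### Lists -/

theorem sum_finRange (n : ℕ) (f : Fin n → ℤ) : ∑ x : Fin n, f x = ((List.finRange n).map f).sum := by
  rw [← List.sum_ofFn, List.ofFn_eq_map]

theorem sum_range_list (n : ℕ) (f : ℕ → ℤ) : ∑ x ∈ range n, f x = ((List.range n).map f).sum := by
  induction n with
  | zero => rfl
  | succ n ih => rw [Finset.sum_range_succ, ih, List.range_succ, List.map_append, List.sum_append,
      List.map_singleton, List.sum_singleton]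

/-- The code of six positions. -/
def ef (f : Fin 6 → Fin 6) : ℕ :=
  (f 0).val + 6 * ((f 1).val + 6 * ((f 2).val + 6 * ((f 3).val + 6 * ((f 4).val + 6 * (f 5).val))))

/-- The positions of a code. -/
def dg (N : ℕ) (i : Fin 6) : Fin 6 := Fin.ofNat 6 (N / 6 ^ i.val)

theorem dg_ef (f : Fin 6 → Fin 6) : dg (ef f) = f := by
  have h0 := (f 0).isLt
  have h1 := (f 1).isLt
  have h2 := (f 2).isLt
  have h3 := (f 3).isLt
  have h4 := (f 4).isLt
  have h5 := (f 5).isLt
  funext i
  apply Fin.ext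
  unfold dg ef
  rw [Fin.val_ofNat]
  match i with
  | 0 => show _ / 1 % 6 = _; omega
  | 1 => show _ / 6 % 6 = _; omega
  | 2 => show _ / 36 % 6 = _; omega
  | 3 => show _ / 216 % 6 = _; omega
  | 4 => show _ / 1296 % 6 = _; omega
  | 5 => show _ / 7776 % 6 = _; omega

section pairs
variable {V : Type*}

/-! ### Pairs of vertices -/

/-- The positions of the roots and of the pair. -/
def pf (x : Fin 6) (y : Fin 5) : Fin 6 → Fin 6 :=
  ![x.succAbove (y.succAbove 0), x.succAbove (y.succAbove 1), x.succAbove (y.succAbove 2),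
    x.succAbove (y.succAbove 3), x, x.succAbove y]

/-- The roots and the pair, for all ordered pairs. -/
def pA : List ℕ := (List.finRange 6).flatMap fun x => (List.finRange 5).map fun y => ef (pf x y)

/-- The roots and the pair, for all pairs of the list. -/
def pg (q : ℕ) : Fin 6 → Fin 6 :=
  ![rp q 0, rp q 1, rp q 2, rp q 3, Fin.ofNat 6 (vq q 0), Fin.ofNat 6 (vq q 1)]

/-- The roots and the exchanged pair. -/
def ph (q : ℕ) : Fin 6 → Fin 6 :=
  ![rp q 0, rp q 1, rp q 2, rp q 3, Fin.ofNat 6 (vq q 1), Fin.ofNat 6 (vq q 0)]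

/-- The codes of the pairs of the list, in both orders. -/
def pB : List ℕ := (List.range 15).flatMap fun q => [ef (pg q), ef (ph q)]

theorem pA_perm : pA.Perm pB := by decide +kernel

/-- The term of six positions. -/
def pT (κ : (Fin 4 → V) → V → V → ℤ) (t : Fin 6 → V) (f : Fin 6 → Fin 6) : ℤ :=
  κ (t ∘ ![f 0, f 1, f 2, f 3]) (t (f 4)) (t (f 5))

theorem pA_eq (κ : (Fin 4 → V) → V → V → ℤ) (t : Fin 6 → V) :
    PS κ t = (pA.map fun N => pT κ t (dg N)).sum := by
  unfold PS pA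
  rw [sum_finRange, List.map_flatMap, sum_flatMap_int]
  refine congrArg List.sum (List.map_congr_left fun x _ => ?_)
  rw [sum_finRange, List.map_map]
  refine congrArg List.sum (List.map_congr_left fun y _ => ?_)
  rw [Function.comp_apply, dg_ef]
  unfold pT
  have e : t ∘ x.succAbove ∘ y.succAbove =
      t ∘ ![pf x y 0, pf x y 1, pf x y 2, pf x y 3] := by
    congr 1
    funext i
    fin_cases i <;> rfl
  rw [e]
  rfl

/-- The sum over the ordered pairs of vertices of a window. -/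
theorem PS_six (κ : (Fin 4 → V) → V → V → ℤ) (hs : ∀ s u w, κ s u w = κ s w u) (t : Fin 6 → V) :
    PS κ t = 2 * ∑ q ∈ range 15, κ (t ∘ rp q) (t (Fin.ofNat 6 (vq q 0))) (t (Fin.ofNat 6 (vq q 1))) := by
  rw [pA_eq, (pA_perm.map _).sum_eq, pB, List.map_flatMap, sum_flatMap_int, sum_range_list,
    ← List.sum_map_mul_left]
  refine congrArg List.sum (List.map_congr_left fun q _ => ?_)
  have e : (![rp q 0, rp q 1, rp q 2, rp q 3] : Fin 4 → Fin 6) = rp q := by
    funext i
    fin_cases i <;> rfl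
  have e1 : pT κ t (dg (ef (pg q))) =
      κ (t ∘ rp q) (t (Fin.ofNat 6 (vq q 0))) (t (Fin.ofNat 6 (vq q 1))) := by
    rw [dg_ef, ← e]
    rfl
  have e2 : pT κ t (dg (ef (ph q))) =
      κ (t ∘ rp q) (t (Fin.ofNat 6 (vq q 0))) (t (Fin.ofNat 6 (vq q 1))) := by
    rw [dg_ef, ← e, hs]
    rfl
  rw [List.map_cons, List.map_cons, List.map_nil, List.sum_cons, List.sum_cons, List.sum_nil, e1, e2]
  ring

end pairs

/-! ### Symmetries of the kernels -/

section sym
variable (B : B2) {n : ℕ} (H E : Finset (Finset (Fin n))) (χ : Fin n → Bool)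

theorem cd2_root (s x : Fin 2 → Fin n) : cd2 H E χ ![s 1, s 0] x = cd2 H E χ s x := by
  have e : q2 ![s 1, s 0] x = q2 s x ∘ (Equiv.swap 0 1 : Equiv.Perm (Fin 4)) := by
    funext i
    fin_cases i <;> rfl
  unfold cd2
  rw [e, zb_comp, zb_comp, Finset.image_univ_equiv]

theorem cd2_flag (s : Fin 2 → Fin n) (a b : Fin n) : cd2 H E χ s ![a, b] = cd2 H E χ s ![b, a] := by
  have e : q2 s ![a, b] = q2 s ![b, a] ∘ (Equiv.swap 2 3 : Equiv.Perm (Fin 4)) := by
    funext i
    fin_cases i <;> rfl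
  have e2 : (χ ((![a, b] : Fin 2 → Fin n) 0)).toNat + (χ ((![a, b] : Fin 2 → Fin n) 1)).toNat =
      (χ ((![b, a] : Fin 2 → Fin n) 0)).toNat + (χ ((![b, a] : Fin 2 → Fin n) 1)).toNat :=
    Nat.add_comm _ _
  unfold cd2
  rw [e, zb_comp, zb_comp, Finset.image_univ_equiv, e2]

theorem toNat_le_one (b : Bool) : b.toNat ≤ 1 := by cases b <;> decide

theorem cd2_lt (s x : Fin 2 → Fin n) : cd2 H E χ s x < 12 := by
  unfold cd2
  have h1 := toNat_le_one (χ (x 0))
  have h2 := toNat_le_one (χ (x 1))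
  have h3 := toNat_le_one (zb H (q2 s x) univ ^^ zb E (q2 s x) univ)
  have h4 := toNat_le_one (zb E (q2 s x) univ)
  omega

theorem cd3_lt (x : Fin 3 → Fin n) : cd3 χ x < 4 := by
  unfold cd3
  have h1 := toNat_le_one (χ (x 0))
  have h2 := toNat_le_one (χ (x 1))
  have h3 := toNat_le_one (χ (x 2))
  omega

theorem k22_root (s x y : Fin 2 → Fin n) : B.k22 H E χ ![s 1, s 0] x y = B.k22 H E χ s x y := by
  unfold B2.k22
  rw [cd2_root, cd2_root]
  have e : (χ ((![s 1, s 0] : Fin 2 → Fin n) 0)).toNat + (χ ((![s 1, s 0] : Fin 2 → Fin n) 1)).toNat =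
      (χ (s 0)).toNat + (χ (s 1)).toNat := Nat.add_comm _ _
  rw [e]

theorem k22_comp (s x y : Fin 2 → Fin n) (τ : Equiv.Perm (Fin 2)) :
    B.k22 H E χ (s ∘ τ) x y = B.k22 H E χ s x y := by
  have h : ∀ τ : Equiv.Perm (Fin 2), (τ 0 = 0 ∧ τ 1 = 1) ∨ (τ 0 = 1 ∧ τ 1 = 0) := by decide
  rcases h τ with h1 | h1
  · have e : s ∘ τ = s := by
      funext i
      match i with
      | 0 => rw [Function.comp_apply, h1.1]
      | 1 => rw [Function.comp_apply, h1.2]
    rw [e]
  · have e : s ∘ τ = ![s 1, s 0] := by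
      funext i
      match i with
      | 0 => rw [Function.comp_apply, h1.1]; rfl
      | 1 => rw [Function.comp_apply, h1.2]; rfl
    rw [e, k22_root]

theorem k22_left (s y : Fin 2 → Fin n) (a b : Fin n) :
    B.k22 H E χ s ![a, b] y = B.k22 H E χ s ![b, a] y := by
  unfold B2.k22
  rw [cd2_flag]

theorem k22_right (s x : Fin 2 → Fin n) (a b : Fin n) :
    B.k22 H E χ s x ![a, b] = B.k22 H E χ s x ![b, a] := by
  unfold B2.k22
  rw [cd2_flag]

variable {B}

theorem k22_symm (hB : B.OK) (s x y : Fin 2 → Fin n) : B.k22 H E χ s x y = B.k22 H E χ s y x := by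
  unfold B2.k22
  have h1 := toNat_le_one (χ (s 0))
  have h2 := toNat_le_one (χ (s 1))
  exact hB.sy _ (by omega) _ (cd2_lt H E χ s x) _ (cd2_lt H E χ s y)

theorem k03_symm (hB : B.OK) (x y : Fin 3 → Fin n) : B.k03 χ x y = B.k03 χ y x := by
  unfold B2.k03
  exact hB.sy3 _ (cd3_lt χ x) _ (cd3_lt χ y)

end sym

/-! ### The kernels with two roots -/

/-- The positions of the roots and of the flags. -/
def mf (x : Fin 6) (y : Fin 5) (x' : Fin 4) (y' : Fin 3) : Fin 6 → Fin 6 :=
  ![x.succAbove (y.succAbove (x'.succAbove (y'.succAbove 0))),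
    x.succAbove (y.succAbove (x'.succAbove (y'.succAbove 1))),
    x, x.succAbove (y.succAbove x'), x.succAbove y, x.succAbove (y.succAbove (x'.succAbove y'))]

/-- The codes of all terms. -/
def mA : List ℕ := (List.finRange 6).flatMap fun x => (List.finRange 5).flatMap fun y =>
  (List.finRange 4).flatMap fun x' => (List.finRange 3).map fun y' => ef (mf x y x' y')

/-- The exchanges of the flags and of their vertices. -/
def m8 : List (List ℕ) := [[0, 1, 2, 3, 4, 5], [0, 1, 3, 2, 4, 5], [0, 1, 2, 3, 5, 4],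
  [0, 1, 3, 2, 5, 4], [0, 1, 4, 5, 2, 3], [0, 1, 5, 4, 2, 3], [0, 1, 4, 5, 3, 2],
  [0, 1, 5, 4, 3, 2]]

/-- The position number `i` of the term number `m`. -/
def mv (m i : ℕ) : Fin 6 := Fin.ofNat 6 (mq m i)

/-- The codes of the exchanged terms. -/
def mB : List ℕ := (List.range 45).flatMap fun m => m8.map fun p =>
  ef fun i => mv m (nthG 0 p i.val)

theorem mA_perm : mA.Perm mB := by decide +kernel

section two
variable {B : B2} {n : ℕ} (H E : Finset (Finset (Fin n))) (χ : Fin n → Bool) (t : Fin 6 → Fin n)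

/-- The term of six positions. -/
def mT (B : B2) {n : ℕ} (H E : Finset (Finset (Fin n))) (χ : Fin n → Bool) (t : Fin 6 → Fin n)
    (f : Fin 6 → Fin 6) : ℤ :=
  B.k22 H E χ ![t (f 0), t (f 1)] ![t (f 2), t (f 3)] ![t (f 4), t (f 5)]

theorem mA_eq : B.S22 H E χ t = (mA.map fun N => mT B H E χ t (dg N)).sum := by
  unfold B2.S22 PS mA
  rw [sum_finRange, List.map_flatMap, sum_flatMap_int]
  refine congrArg List.sum (List.map_congr_left fun x _ => ?_)
  rw [sum_finRange, List.map_flatMap, sum_flatMap_int]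
  refine congrArg List.sum (List.map_congr_left fun y _ => ?_)
  beta_reduce
  rw [sum_finRange, List.map_flatMap, sum_flatMap_int]
  refine congrArg List.sum (List.map_congr_left fun x' _ => ?_)
  rw [sum_finRange, List.map_map]
  refine congrArg List.sum (List.map_congr_left fun y' _ => ?_)
  show _ = mT B H E χ t (dg (ef (mf x y x' y')))
  rw [dg_ef]
  unfold mT
  have e : (t ∘ x.succAbove ∘ y.succAbove) ∘ x'.succAbove ∘ y'.succAbove =
      ![t (mf x y x' y' 0), t (mf x y x' y' 1)] := by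
    funext i
    fin_cases i <;> rfl
  rw [e]
  rfl

theorem mT_eight (hB : B.OK) (g : ℕ → Fin 6) : ∀ p ∈ m8,
    mT B H E χ t (fun i => g (nthG 0 p i.val)) = mT B H E χ t (fun i => g i.val) := by
  intro p hp
  have hs : ∀ s x y : Fin 2 → Fin n, B.k22 H E χ s x y = B.k22 H E χ s y x :=
    fun s x y => k22_symm H E χ hB s x y
  have hl : ∀ (s y : Fin 2 → Fin n) (a b : Fin n), B.k22 H E χ s ![a, b] y =
    B.k22 H E χ s ![b, a] y := k22_left B H E χ
  have hr : ∀ (s x : Fin 2 → Fin n) (a b : Fin n), B.k22 H E χ s x ![a, b] =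
    B.k22 H E χ s x ![b, a] := k22_right B H E χ
  show _ = B.k22 H E χ ![t (g 0), t (g 1)] ![t (g 2), t (g 3)] ![t (g 4), t (g 5)]
  simp only [m8, List.mem_cons, List.not_mem_nil, or_false] at hp
  rcases hp with rfl | rfl | rfl | rfl | rfl | rfl | rfl | rfl
  · rfl
  · rw [hl]; rfl
  · rw [hr]; rfl
  · rw [hl, hr]; rfl
  · rw [hs]; rfl
  · rw [hs, hl]; rfl
  · rw [hs, hr]; rfl
  · rw [hs, hl, hr]; rfl

/-- The sum of the kernels with two roots over a window. -/
theorem S22_eq (hB : B.OK) : B.S22 H E χ t =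
    8 * ∑ m ∈ range 45, B.k22 H E χ (t ∘ mp m 0 1) (t ∘ mp m 2 3) (t ∘ mp m 4 5) := by
  rw [mA_eq, (mA_perm.map _).sum_eq, mB, List.map_flatMap, sum_flatMap_int, sum_range_list,
    ← List.sum_map_mul_left]
  refine congrArg List.sum (List.map_congr_left fun m _ => ?_)
  rw [List.map_map]
  have e : ∀ i j : ℕ, t ∘ mp m i j = ![t (mv m i), t (mv m j)] := by
    intro i j
    funext k
    fin_cases k <;> rfl
  rw [e, e, e]
  have h : m8.map ((fun N => mT B H E χ t (dg N)) ∘ fun p => ef fun i => mv m (nthG 0 p i.val)) =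
      m8.map fun _ => B.k22 H E χ ![t (mv m 0), t (mv m 1)] ![t (mv m 2), t (mv m 3)]
        ![t (mv m 4), t (mv m 5)] := by
    refine List.map_congr_left fun p hp => ?_
    rw [Function.comp_apply, dg_ef, mT_eight H E χ t hB (mv m) p hp]
    rfl
  rw [h]
  simp only [m8, List.map_cons, List.map_nil, List.sum_cons, List.sum_nil]
  ring

end two

/-! ### The kernel without roots -/

/-- The positions of the two flags. -/
def sf (x : Fin 6) (y : Fin 5) (x' : Fin 4) (y' : Fin 3) : Fin 6 → Fin 6 :=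
  ![x, x.succAbove (y.succAbove x'), x.succAbove (y.succAbove (x'.succAbove (y'.succAbove 0))),
    x.succAbove y, x.succAbove (y.succAbove (x'.succAbove y')),
    x.succAbove (y.succAbove (x'.succAbove (y'.succAbove 1)))]

/-- The positions of the two flags, the last vertices exchanged. -/
def sg (x : Fin 6) (y : Fin 5) (x' : Fin 4) (y' : Fin 3) : Fin 6 → Fin 6 :=
  ![x, x.succAbove (y.succAbove x'), x.succAbove (y.succAbove (x'.succAbove (y'.succAbove 1))),
    x.succAbove y, x.succAbove (y.succAbove (x'.succAbove y')),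
    x.succAbove (y.succAbove (x'.succAbove (y'.succAbove 0)))]

/-- The codes of all terms. -/
def sA : List ℕ := (List.finRange 6).flatMap fun x => (List.finRange 5).flatMap fun y =>
  (List.finRange 4).flatMap fun x' => (List.finRange 3).flatMap fun y' =>
    [ef (sf x y x' y'), ef (sg x y x' y')]

/-- The splits of the window. -/
def sL : List (List ℕ) := [[0, 1, 2, 3, 4, 5], [0, 1, 3, 2, 4, 5], [0, 1, 4, 2, 3, 5],
  [0, 1, 5, 2, 3, 4], [0, 2, 3, 1, 4, 5], [0, 2, 4, 1, 3, 5], [0, 2, 5, 1, 3, 4],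
  [0, 3, 4, 1, 2, 5], [0, 3, 5, 1, 2, 4], [0, 4, 5, 1, 2, 3]]

/-- Position `i` of the split number `m`. -/
def sq (m i : ℕ) : ℕ := nthG 0 (nthG [] sL m) i

/-- The positions `i`, `j`, `k` of the split number `m` as a triple of positions of the window. -/
def sp (m i j k : ℕ) : Fin 3 → Fin 6 :=
  ![Fin.ofNat 6 (sq m i), Fin.ofNat 6 (sq m j), Fin.ofNat 6 (sq m k)]

/-- The permutations of three positions. -/
def s6 : List (List ℕ) := [[0, 1, 2], [0, 2, 1], [1, 0, 2], [1, 2, 0], [2, 0, 1], [2, 1, 0]]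

/-- The position number `i` of the split number `m`. -/
def sv (m i : ℕ) : Fin 6 := Fin.ofNat 6 (sq m i)

/-- The codes of the permuted terms. -/
def sB : List ℕ := (List.range 10).flatMap fun m => s6.flatMap fun a => s6.flatMap fun b =>
  [ef ![sv m (nthG 0 a 0), sv m (nthG 0 a 1), sv m (nthG 0 a 2),
      sv m (3 + nthG 0 b 0), sv m (3 + nthG 0 b 1), sv m (3 + nthG 0 b 2)],
    ef ![sv m (3 + nthG 0 b 0), sv m (3 + nthG 0 b 1), sv m (3 + nthG 0 b 2),
      sv m (nthG 0 a 0), sv m (nthG 0 a 1), sv m (nthG 0 a 2)]]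

theorem sA_perm : sA.Perm sB := by decide +kernel

section zero
variable {B : B2} {n : ℕ} (χ : Fin n → Bool) (t : Fin 6 → Fin n)

/-- The term of six positions. -/
def sT (B : B2) {n : ℕ} (χ : Fin n → Bool) (t : Fin 6 → Fin n) (f : Fin 6 → Fin 6) : ℤ :=
  B.k03 χ ![t (f 0), t (f 1), t (f 2)] ![t (f 3), t (f 4), t (f 5)]

theorem sA_eq : B.S03 χ t = (sA.map fun N => sT B χ t (dg N)).sum := by
  unfold B2.S03 PS sA
  rw [sum_finRange, List.map_flatMap, sum_flatMap_int]
  refine congrArg List.sum (List.map_congr_left fun x _ => ?_)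
  rw [sum_finRange, List.map_flatMap, sum_flatMap_int]
  refine congrArg List.sum (List.map_congr_left fun y _ => ?_)
  beta_reduce
  rw [sum_finRange, List.map_flatMap, sum_flatMap_int]
  refine congrArg List.sum (List.map_congr_left fun x' _ => ?_)
  rw [sum_finRange, List.map_flatMap, sum_flatMap_int]
  refine congrArg List.sum (List.map_congr_left fun y' _ => ?_)
  rw [List.map_cons, List.map_cons, List.map_nil, List.sum_cons, List.sum_cons, List.sum_nil,
    dg_ef, dg_ef, add_zero]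
  rfl

theorem cd3_six (g : ℕ → Fin n) : ∀ a ∈ s6,
    cd3 χ ![g (nthG 0 a 0), g (nthG 0 a 1), g (nthG 0 a 2)] = cd3 χ ![g 0, g 1, g 2] := by
  intro a ha
  have e : ∀ u v w : Fin n, cd3 χ ![u, v, w] = (χ u).toNat + (χ v).toNat + (χ w).toNat :=
    fun _ _ _ => rfl
  rw [e, e]
  simp only [s6, List.mem_cons, List.not_mem_nil, or_false] at ha
  rcases ha with rfl | rfl | rfl | rfl | rfl | rfl
  · rfl
  · show (χ (g 0)).toNat + (χ (g 2)).toNat + (χ (g 1)).toNat = _; omega
  · show (χ (g 1)).toNat + (χ (g 0)).toNat + (χ (g 2)).toNat = _; omega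
  · show (χ (g 1)).toNat + (χ (g 2)).toNat + (χ (g 0)).toNat = _; omega
  · show (χ (g 2)).toNat + (χ (g 0)).toNat + (χ (g 1)).toNat = _; omega
  · show (χ (g 2)).toNat + (χ (g 1)).toNat + (χ (g 0)).toNat = _; omega

/-- The sum of the kernel without roots over a window. -/
theorem S03_eq (hB : B.OK) : B.S03 χ t =
    72 * ∑ m ∈ range 10, B.k03 χ (t ∘ sp m 0 1 2) (t ∘ sp m 3 4 5) := by
  rw [sA_eq, (sA_perm.map _).sum_eq, sB, List.map_flatMap, sum_flatMap_int, sum_range_list,
    ← List.sum_map_mul_left]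
  refine congrArg List.sum (List.map_congr_left fun m _ => ?_)
  have e : ∀ i j k : ℕ, t ∘ sp m i j k = ![t (sv m i), t (sv m j), t (sv m k)] := by
    intro i j k
    funext l
    fin_cases l <;> rfl
  rw [e, e]
  have h1 : ∀ a ∈ s6, ∀ b ∈ s6,
      sT B χ t (dg (ef ![sv m (nthG 0 a 0), sv m (nthG 0 a 1), sv m (nthG 0 a 2),
        sv m (3 + nthG 0 b 0), sv m (3 + nthG 0 b 1), sv m (3 + nthG 0 b 2)])) =
      B.k03 χ ![t (sv m 0), t (sv m 1), t (sv m 2)] ![t (sv m 3), t (sv m 4), t (sv m 5)] := by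
    intro a ha b hb
    rw [dg_ef]
    have g1 := cd3_six χ (fun i => t (sv m i)) a ha
    have g2 := cd3_six χ (fun i => t (sv m (3 + i))) b hb
    unfold sT B2.k03
    exact congrArg₂ B.m3 g1 g2
  have h2 : ∀ a ∈ s6, ∀ b ∈ s6,
      sT B χ t (dg (ef ![sv m (3 + nthG 0 b 0), sv m (3 + nthG 0 b 1), sv m (3 + nthG 0 b 2),
        sv m (nthG 0 a 0), sv m (nthG 0 a 1), sv m (nthG 0 a 2)])) =
      B.k03 χ ![t (sv m 0), t (sv m 1), t (sv m 2)] ![t (sv m 3), t (sv m 4), t (sv m 5)] := by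
    intro a ha b hb
    rw [dg_ef, k03_symm χ hB]
    have g1 := cd3_six χ (fun i => t (sv m i)) a ha
    have g2 := cd3_six χ (fun i => t (sv m (3 + i))) b hb
    unfold sT B2.k03
    exact congrArg₂ B.m3 g2 g1
  have h3 : ∀ a ∈ s6, ((s6.flatMap fun b =>
      [ef ![sv m (nthG 0 a 0), sv m (nthG 0 a 1), sv m (nthG 0 a 2),
        sv m (3 + nthG 0 b 0), sv m (3 + nthG 0 b 1), sv m (3 + nthG 0 b 2)],
      ef ![sv m (3 + nthG 0 b 0), sv m (3 + nthG 0 b 1), sv m (3 + nthG 0 b 2),
        sv m (nthG 0 a 0), sv m (nthG 0 a 1), sv m (nthG 0 a 2)]]).map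
          fun N => sT B χ t (dg N)).sum =
      12 * B.k03 χ ![t (sv m 0), t (sv m 1), t (sv m 2)] ![t (sv m 3), t (sv m 4), t (sv m 5)] := by
    intro a ha
    rw [List.map_flatMap, sum_flatMap_int]
    have h4 : ∀ b ∈ s6, (([ef ![sv m (nthG 0 a 0), sv m (nthG 0 a 1), sv m (nthG 0 a 2),
        sv m (3 + nthG 0 b 0), sv m (3 + nthG 0 b 1), sv m (3 + nthG 0 b 2)],
      ef ![sv m (3 + nthG 0 b 0), sv m (3 + nthG 0 b 1), sv m (3 + nthG 0 b 2),
        sv m (nthG 0 a 0), sv m (nthG 0 a 1), sv m (nthG 0 a 2)]]).map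
          fun N => sT B χ t (dg N)).sum =
        2 * B.k03 χ ![t (sv m 0), t (sv m 1), t (sv m 2)]
          ![t (sv m 3), t (sv m 4), t (sv m 5)] := by
      intro b hb
      rw [List.map_cons, List.map_cons, List.map_nil, List.sum_cons, List.sum_cons, List.sum_nil,
        h1 a ha b hb, h2 a ha b hb]
      ring
    rw [List.map_congr_left h4]
    simp only [s6, List.map_cons, List.map_nil, List.sum_cons, List.sum_nil]
    ring
  rw [List.map_flatMap, sum_flatMap_int, List.map_congr_left h3]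
  simp only [s6, List.map_cons, List.map_nil, List.sum_cons, List.sum_nil]
  ring

end zero

/-! ### Invariance -/

section inv
variable {D : C4D} {B : B2} {n : ℕ} (H E : Finset (Finset (Fin n))) (χ : Fin n → Bool)

theorem S22_perm (σ : Equiv.Perm (Fin 6)) (t : Fin 6 → Fin n) :
    B.S22 H E χ (t ∘ σ) = B.S22 H E χ t := by
  unfold B2.S22
  refine PS_perm (k := 4) _ (fun τ s u w => ?_) σ t
  exact PS_perm (k := 2) _ (fun τ' s' u' w' => k22_comp B H E χ s' _ _ τ') τ s

theorem S03_perm (σ : Equiv.Perm (Fin 6)) (t : Fin 6 → Fin n) :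
    B.S03 χ (t ∘ σ) = B.S03 χ t := by
  unfold B2.S03
  refine PS_perm (k := 4) _ (fun τ s u w => ?_) σ t
  refine PS_perm (k := 2) _ (fun τ' s' u' w' => ?_) τ s
  have h : ∀ τ : Equiv.Perm (Fin 2), (τ 0 = 0 ∧ τ 1 = 1) ∨ (τ 0 = 1 ∧ τ 1 = 0) := by decide
  rcases h τ' with h1 | h1
  · rw [Function.comp_apply, Function.comp_apply, h1.1, h1.2]
  · rw [Function.comp_apply, Function.comp_apply, h1.1, h1.2]
    exact add_comm _ _

/-- The sum of all kernels is invariant. -/
theorem KS_perm (hD : D.InvOK) (σ : Equiv.Perm (Fin 6)) (t : Fin 6 → Fin n) :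
    KS D B H E χ (t ∘ σ) = KS D B H E χ t := by
  unfold KS
  rw [S22_perm, S03_perm, PS_perm (k := 4) _ (fun τ s u w => C4D.kj_perm hD H E χ τ s u w) σ t]

/-- The sum of all kernels over a window. -/
theorem KS_eq (hD : D.OK) (hB : B.OK) (t : Fin 6 → Fin n) :
    KS D B H E χ t = 24 * (∑ q ∈ range 15, D.kj H E χ (t ∘ rp q) (t (Fin.ofNat 6 (vq q 0)))
        (t (Fin.ofNat 6 (vq q 1))) +
      ∑ m ∈ range 45, B.k22 H E χ (t ∘ mp m 0 1) (t ∘ mp m 2 3) (t ∘ mp m 4 5)) +
      72 * ∑ m ∈ range 10, B.k03 χ (t ∘ sp m 0 1 2) (t ∘ sp m 3 4 5) := by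
  unfold KS
  rw [S22_eq H E χ t hB, S03_eq χ t hB, PS_six _ (fun s u w => C4D.kj_symm hD H E χ s u w) t]
  ring

end inv

end Pool.Agent.Lib.MP_afdd4d_co.K9.W6
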