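import Pool.Agent.Lib.MP_afdd4d_co.K9.W6Fam
import Pool.Agent.Lib.MP_afdd4d_co.K9.W6Ker

/-!
# Sums over the permutations of the window as sums over placements
-/

namespace Pool.Agent.Lib.MP_afdd4d_co.K9.W6

open Finset K8
open Pool.Agent.Lib.MP_afdd4d_co.K9.Star

/-! ### Codes of permutations -/

theorem ef_dg (N : ℕ) (h : N < 46656) : ef (dg N) = N := by
  have e : ef (dg N) = N / 6 ^ 0 % 6 + 6 * (N / 6 ^ 1 % 6 + 6 * (N / 6 ^ 2 % 6 + 6 * (N / 6 ^ 3 % 6 +
      6 * (N / 6 ^ 4 % 6 + 6 * (N / 6 ^ 5 % 6))))) := rfl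
  rw [e]
  norm_num
  omega

/-- The digit of a code. -/
def dn (N a : ℕ) : ℕ := Nat.mod (Nat.div N (Nat.pow 6 a)) 6

theorem dn_eq (N : ℕ) (a : Fin 6) : dn N a.val = (dg N a).val := rfl

theorem dn_lt (N a : ℕ) : dn N a < 6 := Nat.mod_lt _ (by norm_num)

theorem dg_dn (N a : ℕ) (ha : a < 6) : dg N (Fin.ofNat 6 a) = Fin.ofNat 6 (dn N a) := by
  have e : (Fin.ofNat 6 a : Fin 6).val = a := Nat.mod_eq_of_lt ha
  apply Fin.ext
  rw [← dn_eq, e, Fin.val_ofNat, Nat.mod_eq_of_lt (dn_lt N a)]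

/-- The numbers of a list are different from each other and are not bits of `s`. -/
def ndM : List ℕ → ℕ → Bool
  | [], _ => true
  | a :: l, s => (!s.testBit a) && ndM l (s ||| 2 ^ a)

theorem ndM_spec : ∀ (l : List ℕ) (s : ℕ), ndM l s = true →
    l.Nodup ∧ ∀ a ∈ l, s.testBit a = false
  | [], _, _ => ⟨List.nodup_nil, fun _ h => by cases h⟩
  | a :: l, s, h => by
    rw [ndM, Bool.and_eq_true] at h
    obtain ⟨h1, h2⟩ := ndM_spec l (s ||| 2 ^ a) h.2
    have h3 : ∀ b ∈ l, s.testBit b = false ∧ b ≠ a := by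
      intro b hb
      have h4 := h2 b hb
      rw [Nat.testBit_or, Bool.or_eq_false_iff, Nat.testBit_two_pow] at h4
      exact ⟨h4.1, fun e => of_decide_eq_false h4.2 e.symm⟩
    refine ⟨List.nodup_cons.mpr ⟨fun ha => (h3 a ha).2 rfl, h1⟩, fun b hb => ?_⟩
    rcases List.mem_cons.mp hb with rfl | hb
    · simpa using h.1
    · exact (h3 b hb).1

/-- The check that the digits of a code are different. -/
def ijG (N : ℕ) : Bool := Nat.blt N 46656 && ndM [dn N 0, dn N 1, dn N 2, dn N 3, dn N 4, dn N 5] 0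

theorem ijG_spec (N : ℕ) (h : ijG N = true) : N < 46656 ∧ Function.Injective (dg N) := by
  rw [ijG, Bool.and_eq_true] at h
  refine ⟨by have := h.1; rwa [Nat.blt_eq] at this, fun a b hab => ?_⟩
  have h1 := (ndM_spec _ _ h.2).1
  have h2 : [dn N 0, dn N 1, dn N 2, dn N 3, dn N 4, dn N 5] = List.ofFn fun i : Fin 6 => dn N i := by
    simp [List.ofFn_succ]
  rw [h2, List.nodup_ofFn] at h1
  apply h1
  show dn N a = dn N b
  rw [dn_eq, dn_eq, hab]

/-- The check that a list is the list of the codes of all permutations. -/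
def okC (l : List ℕ) : Bool := Nat.beq l.length 720 && (ndM l 0 && l.all ijG)

/-- The permutation of a code. -/
noncomputable def pmC (N : ℕ) : Equiv.Perm (Fin 6) :=
  open Classical in if h : Function.Bijective (dg N) then Equiv.ofBijective _ h else 1

theorem pmC_eq (N : ℕ) (h : Function.Injective (dg N)) : (pmC N : Fin 6 → Fin 6) = dg N := by
  have hb : Function.Bijective (dg N) := Finite.injective_iff_bijective.mp h
  unfold pmC
  rw [dif_pos hb]
  rfl

/-- The sum over all permutations. -/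
theorem sum_codes (l : List ℕ) (h : okC l = true) (F : (Fin 6 → Fin 6) → ℤ) :
    ∑ σ : Equiv.Perm (Fin 6), F σ = (l.map fun N => F (dg N)).sum := by
  rw [okC, Bool.and_eq_true, Bool.and_eq_true] at h
  obtain ⟨h1, h2, h3⟩ := h
  have h1 := Nat.eq_of_beq_eq_true h1
  have h2 := (ndM_spec l 0 h2).1
  have h3 : ∀ N ∈ l, N < 46656 ∧ Function.Injective (dg N) := fun N hN =>
    ijG_spec N (List.all_eq_true.mp h3 N hN)
  have hinj : Set.InjOn pmC (l.toFinset : Set ℕ) := by
    intro N hN N' hN' e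
    have hN : N ∈ l := by simpa using hN
    have hN' : N' ∈ l := by simpa using hN'
    have e2 : (pmC N : Fin 6 → Fin 6) = pmC N' := by rw [e]
    rw [pmC_eq N (h3 N hN).2, pmC_eq N' (h3 N' hN').2] at e2
    rw [← ef_dg N (h3 N hN).1, e2, ef_dg N' (h3 N' hN').1]
  have hu : l.toFinset.image pmC = univ := by
    apply Finset.eq_univ_of_card
    rw [Finset.card_image_of_injOn hinj, List.toFinset_card_of_nodup h2, h1, Fintype.card_perm,
      Fintype.card_fin]
    rfl
  rw [← hu, Finset.sum_image hinj, List.sum_toFinset _ h2]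
  refine congrArg List.sum (List.map_congr_left fun N hN => ?_)
  rw [pmC_eq N (h3 N hN).2]

/-! ### Quadruples and pairs -/

/-- The masks of the quadruples. -/
def qmL : List ℕ := [15, 23, 27, 29, 30, 39, 43, 45, 46, 51, 53, 54, 57, 58, 60]

/-- The number of a quadruple from its mask. -/
def qiL : List ℕ := [15, 15, 15, 15, 15, 15, 15, 15, 15, 15, 15, 15, 15, 15, 15, 0, 15, 15, 15, 15,
  15, 15, 15, 1, 15, 15, 15, 2, 15, 3, 4, 15, 15, 15, 15, 15, 15, 15, 15, 5, 15, 15, 15, 6, 15, 7,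
  8, 15, 15, 15, 15, 9, 15, 10, 11, 15, 15, 12, 13, 15, 14, 15, 15, 15]

/-- The number of a pair from its mask. -/
def piL : List ℕ := [15, 15, 15, 0, 15, 1, 5, 15, 15, 2, 6, 15, 9, 15, 15, 15, 15, 3, 7, 15, 10, 15,
  15, 15, 12, 15, 15, 15, 15, 15, 15, 15, 15, 4, 8, 15, 11, 15, 15, 15, 13, 15, 15, 15, 15, 15, 15,
  15, 14, 15, 15, 15, 15, 15, 15, 15, 15, 15, 15, 15, 15, 15, 15, 15]

/-- The image of a quadruple under a code. -/
def qi (N r : ℕ) : ℕ := nthG 15 qiL (@Nat.rec (fun _ => ℕ) 0 (fun a ih =>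
  Nat.add ih (Nat.mul (bn (nthG 0 qmL r) a) (Nat.pow 2 (dn N a)))) 6)

/-- The image of a quadruple or of a vertex under a code: the number `15 + a` stands for the
vertex `a`. -/
def qx (N r : ℕ) : ℕ := @Bool.rec (fun _ => ℕ) (qi N r) (Nat.add 15 (dn N (Nat.sub r 15)))
  (Nat.ble 15 r)

theorem qx_lt (N r : ℕ) (hr : r < 15) : qx N r = qi N r := by
  have e : Nat.ble 15 r = false := by
    rw [Bool.eq_false_iff]
    intro h
    have := Nat.le_of_ble_eq_true h
    omega
  unfold qx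
  rw [e]

theorem qx_ge (N a : ℕ) : qx N (15 + a) = 15 + dn N a := by
  have e : Nat.ble 15 (15 + a) = true := Nat.ble_eq.mpr (Nat.le_add_right _ _)
  have e2 : Nat.sub (15 + a) 15 = a := Nat.add_sub_cancel_left 15 a
  unfold qx
  rw [e, e2]
  rfl

/-- The image of a pair under a code. -/
def pi' (N r : ℕ) : ℕ := nthG 15 piL
  (Nat.add (Nat.pow 2 (dn N (vq r 0))) (Nat.pow 2 (dn N (vq r 1))))

theorem qmL_mem : ∀ r < 15, ∀ a : Fin 6, a ∈ q6 6 r ↔ (nthG 0 qmL r).testBit a.val = true := by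
  decide +kernel

theorem qiL_geo : ∀ T : Finset (Fin 6), T.card = 4 → nthG 15 qiL (∑ x ∈ T, 2 ^ x.val) < 15 ∧
    q6 6 (nthG 15 qiL (∑ x ∈ T, 2 ^ x.val)) = T := by decide +kernel

theorem piL_geo : ∀ x y : Fin 6, x ≠ y → nthG 15 piL (2 ^ x.val + 2 ^ y.val) < 15 ∧
    ((Fin.ofNat 6 (vq (nthG 15 piL (2 ^ x.val + 2 ^ y.val)) 0) = x ∧
      Fin.ofNat 6 (vq (nthG 15 piL (2 ^ x.val + 2 ^ y.val)) 1) = y) ∨
    (Fin.ofNat 6 (vq (nthG 15 piL (2 ^ x.val + 2 ^ y.val)) 0) = y ∧
      Fin.ofNat 6 (vq (nthG 15 piL (2 ^ x.val + 2 ^ y.val)) 1) = x)) := by decide +kernel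

theorem vq_ne : ∀ r < 15, vq r 0 < 6 ∧ vq r 1 < 6 ∧
    (Fin.ofNat 6 (vq r 0) : Fin 6) ≠ Fin.ofNat 6 (vq r 1) := by decide +kernel

theorem qi_geo (N : ℕ) (hN : Function.Injective (dg N)) (r : ℕ) (hr : r < 15) :
    qi N r < 15 ∧ (q6 6 r).image (dg N) = q6 6 (qi N r) := by
  have e1 : ∑ x ∈ (q6 6 r).image (dg N), 2 ^ x.val = ∑ a ∈ q6 6 r, 2 ^ (dg N a).val :=
    Finset.sum_image fun a _ b _ h => hN h
  have e2 : ∑ a ∈ q6 6 r, 2 ^ (dg N a).val =
      ∑ a : Fin 6, ((nthG 0 qmL r).testBit a.val).toNat * 2 ^ (dg N a).val := by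
    rw [← Finset.sum_filter_add_sum_filter_not univ (fun a => a ∈ q6 6 r)]
    have e3 : ∑ a ∈ univ.filter (fun a => a ∉ q6 6 r),
        ((nthG 0 qmL r).testBit a.val).toNat * 2 ^ (dg N a).val = 0 := by
      refine Finset.sum_eq_zero fun a ha => ?_
      have h1 := (Finset.mem_filter.mp ha).2
      rw [qmL_mem r hr a, Bool.not_eq_true] at h1
      rw [h1, Bool.toNat_false, zero_mul]
    rw [e3, add_zero, Finset.filter_mem_eq_inter, Finset.univ_inter]
    refine Finset.sum_congr rfl fun a ha => ?_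
    rw [qmL_mem r hr a] at ha
    rw [ha, Bool.toNat_true, one_mul]
  have e3 : qi N r = nthG 15 qiL (∑ x ∈ (q6 6 r).image (dg N), 2 ^ x.val) := by
    rw [e1, e2, Fin.sum_univ_six]
    unfold qi
    congr 1
    simp only [← bn_eq]
    show ((((((0 + _) + _) + _) + _) + _) + _) = _
    rw [zero_add]
    rfl
  have h4 : ((q6 6 r).image (dg N)).card = 4 := by
    rw [Finset.card_image_of_injective _ hN]
    exact q6_card r hr
  obtain ⟨h5, h6⟩ := qiL_geo _ h4
  rw [e3]
  exact ⟨h5, h6.symm⟩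

theorem pi_geo (N : ℕ) (hN : Function.Injective (dg N)) (r : ℕ) (hr : r < 15) {α : Type*}
    (m : Fin 6 → Fin 6 → α) (hm : ∀ x y, m x y = m y x) : pi' N r < 15 ∧
    m (Fin.ofNat 6 (vq (pi' N r) 0)) (Fin.ofNat 6 (vq (pi' N r) 1)) =
      m (dg N (Fin.ofNat 6 (vq r 0))) (dg N (Fin.ofNat 6 (vq r 1))) := by
  obtain ⟨h1, h2, h3⟩ := vq_ne r hr
  have e : pi' N r = nthG 15 piL (2 ^ (dg N (Fin.ofNat 6 (vq r 0))).val +
      2 ^ (dg N (Fin.ofNat 6 (vq r 1))).val) := by
    rw [dg_dn N _ h1, dg_dn N _ h2, Fin.val_ofNat, Fin.val_ofNat, Nat.mod_eq_of_lt (dn_lt _ _),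
      Nat.mod_eq_of_lt (dn_lt _ _)]
    rfl
  obtain ⟨h4, h5⟩ := piL_geo _ _ fun h => h3 (hN h)
  rw [← e] at h4 h5
  refine ⟨h4, ?_⟩
  rcases h5 with ⟨h5, h6⟩ | ⟨h5, h6⟩
  · rw [h5, h6]
  · rw [h5, h6, hm]

/-! ### The check of the placements -/

/-- Equality of lists of numbers. -/
def leG : List ℕ → List ℕ → Bool
  | [], [] => true
  | [], _ :: _ => false
  | _ :: _, [] => false
  | a :: l, b :: l' => Nat.beq a b && leG l l'

theorem leG_spec : ∀ l l' : List ℕ, leG l l' = true → l = l'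
  | [], [], _ => rfl
  | [], _ :: _, h => by rw [leG] at h; exact Bool.noConfusion h
  | _ :: _, [], h => by rw [leG] at h; exact Bool.noConfusion h
  | a :: l, b :: l', h => by
    rw [leG, Bool.and_eq_true] at h
    rw [Nat.eq_of_beq_eq_true h.1, leG_spec l l' h.2]

/-- The check of an inner placement: `fo` gives the forms of the bits of the tables. -/
def okI (k k' : ℕ) (fo : ℕ → ℕ → ℕ) (px pq : List ℕ) (L : ℕ → ℕ) (p : Pl) (N : ℕ) : Bool :=
  leG p.xs (px.map (dn N)) && (leG p.js (pq.map (qx N)) &&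
    (List.range k).all fun r => Nat.beq (cmp L k' (syG p.pr k r)) (fo N r))

/-- The check of the inner placements. -/
def okIs (k k' : ℕ) (fo : ℕ → ℕ → ℕ) (px pq : List ℕ) (L : ℕ → ℕ) : List Pl → List ℕ → Bool
  | [], [] => true
  | [], _ :: _ => false
  | _ :: _, [] => false
  | p :: l, N :: l' => okI k k' fo px pq L p N && okIs k k' fo px pq L l l'

/-- The check of the placements. -/
def okO (k k' : ℕ) (fo : ℕ → ℕ → ℕ) (px pq : List ℕ) :
    List (List Pl × List (ℕ × ℕ × ℕ)) → List (List ℕ) → Bool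
  | [], [] => true
  | [], _ :: _ => false
  | _ :: _, [] => false
  | p :: l, c :: l' => okIs k k' fo px pq (fun r => syG p.2 k' r) p.1 c && okO k k' fo px pq l l'

section
variable {F : Fm} {fo : ℕ → ℕ → ℕ} {px pq : List ℕ} {v : ℕ → ℕ → (ℕ → Bool) → ℕ}

theorem v1_codes (hv : ∀ x j b b', (∀ r < F.k, b r = b' r) → v x j b = v x j b') (NN : ℕ)
    (L : ℕ → ℕ) (X J : ℕ) (b : ℕ → Bool) : ∀ (l : List Pl) (c : List ℕ),
    okIs F.k F.k' fo px pq L l c = true →
    F.v1 v X J (fun r => lf NN (L r) b) l = (c.map fun N =>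
      v (kyG X (px.map (dn N))) (kyG J (pq.map (qx N))) fun r => lf NN (fo N r) b).sum
  | [], [], _ => rfl
  | [], _ :: _, h => by rw [okIs] at h; exact Bool.noConfusion h
  | _ :: _, [], h => by rw [okIs] at h; exact Bool.noConfusion h
  | p :: l, N :: c, h => by
    rw [okIs, Bool.and_eq_true] at h
    have h1 := v1_codes hv NN L X J b l c h.2
    have h2 := h.1
    rw [okI, Bool.and_eq_true, Bool.and_eq_true] at h2
    obtain ⟨h3, h4, h5⟩ := h2
    have e : F.v1 v X J (fun r => lf NN (L r) b) (p :: l) =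
        F.v0 v X J (fun r => lf NN (L r) b) p + F.v1 v X J (fun r => lf NN (L r) b) l := by
      unfold Fm.v1
      rw [List.map_cons, List.sum_cons]
    rw [e, h1, List.map_cons, List.sum_cons]
    congr 1
    unfold Fm.v0
    rw [leG_spec _ _ h3, leG_spec _ _ h4]
    apply hv
    intro r hr
    have h6 := List.all_eq_true.mp h5 r (List.mem_range.mpr hr)
    rw [lf_cmp, Nat.eq_of_beq_eq_true h6]

theorem v2_codes (hv : ∀ x j b b', (∀ r < F.k, b r = b' r) → v x j b = v x j b') (NN : ℕ)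
    (X J : ℕ) (b : ℕ → Bool) : ∀ (l : List (List Pl × List (ℕ × ℕ × ℕ))) (c : List (List ℕ)),
    okO F.k F.k' fo px pq l c = true →
    F.v2 v NN X J b l = (c.flatten.map fun N =>
      v (kyG X (px.map (dn N))) (kyG J (pq.map (qx N))) fun r => lf NN (fo N r) b).sum
  | [], [], _ => rfl
  | [], _ :: _, h => by rw [okO] at h; exact Bool.noConfusion h
  | _ :: _, [], h => by rw [okO] at h; exact Bool.noConfusion h
  | p :: l, c :: cs, h => by
    rw [okO, Bool.and_eq_true] at h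
    have h1 := v2_codes hv NN X J b l cs h.2
    have h2 := v1_codes hv NN (fun r => syG p.2 F.k' r) X J b p.1 c h.1
    have e : F.v2 v NN X J b (p :: l) =
        F.v1 v X J (fun r => lf NN (syG p.2 F.k' r) b) p.1 + F.v2 v NN X J b l := by
      unfold Fm.v2
      rw [List.map_cons, List.sum_cons]
    rw [e, h1, h2, List.flatten_cons, List.map_append, List.sum_append]

end

/-- The sum over all permutations of a function of the keys and of the code of the lane. -/
theorem sum_fam {F : Fm} {fo : ℕ → ℕ → ℕ} {px pq : List ℕ} {v : ℕ → ℕ → (ℕ → Bool) → ℕ}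
    (NN off : ℕ) (zc : ℕ → ℕ → ℕ → ℤ)
    (hv : ∀ x j b b', (∀ r < F.k, b r = b' r) → v x j b = v x j b')
    (hz : ∀ x < 2 ^ px.length, ∀ j < 2 ^ pq.length, ∀ b : ℕ → Bool,
      (v x j b : ℤ) = off - zc x j (idx F.k b))
    (cs : List (List ℕ)) (hc : okC cs.flatten = true)
    (ho : okO F.k F.k' fo px pq F.pl cs = true) (X J : ℕ) (b : ℕ → Bool)
    (Z : (Fin 6 → Fin 6) → ℤ)
    (hZ : ∀ N, Function.Injective (dg N) → Z (dg N) =
      zc (kyG X (px.map (dn N))) (kyG J (pq.map (qx N))) (idx F.k fun r => lf NN (fo N r) b)) :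
    ∑ σ : Equiv.Perm (Fin 6), Z σ + (F.v2 v NN X J b F.pl : ℤ) = 720 * off := by
  rw [v2_codes hv NN X J b F.pl cs ho, sum_codes _ hc Z]
  have hc' := hc
  rw [okC, Bool.and_eq_true, Bool.and_eq_true] at hc'
  obtain ⟨h1, _, h3⟩ := hc'
  have h1 := Nat.eq_of_beq_eq_true h1
  have h3 : ∀ N ∈ cs.flatten, Function.Injective (dg N) := fun N hN =>
    (ijG_spec N (List.all_eq_true.mp h3 N hN)).2
  have key : ∀ l : List ℕ, (∀ N ∈ l, Function.Injective (dg N)) →
      (l.map fun N => Z (dg N)).sum + (((l.map fun N => v (kyG X (px.map (dn N)))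
        (kyG J (pq.map (qx N))) fun r => lf NN (fo N r) b).sum : ℕ) : ℤ) = l.length * off := by
    intro l
    induction l with
    | nil => intro _; simp
    | cons N l ih =>
      intro hl
      have ih := ih fun N' h => hl N' (List.mem_cons_of_mem _ h)
      have e1 := hZ N (hl N List.mem_cons_self)
      have hx := kyG_lt X (px.map (dn N))
      have hj := kyG_lt J (pq.map (qx N))
      rw [List.length_map] at hx hj
      have e2 := hz _ hx _ hj fun r => lf NN (fo N r) b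
      rw [List.map_cons, List.sum_cons, List.map_cons, List.sum_cons, List.length_cons]
      push_cast at ih e2 ⊢
      rw [e2, e1]
      linarith
  rw [key cs.flatten h3, h1]
  rfl

end Pool.Agent.Lib.MP_afdd4d_co.K9.W6
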