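import Pool.Agent.Lib.MP_afdd4d_co.K9.W6Cmb
import Pool.Agent.Lib.MP_afdd4d_co.K9.W6Sum

/-!
# The rows of the local theorem with families of terms

The combination theorem with further terms of two kinds: functions of the window that do not see the
marks, added to the lanes of the even 4-graph, and functions that see the marks but not the even
4-graph, bounded for each representative by a check over all graphs of marks.
-/

namespace Pool.Agent.Lib.MP_afdd4d_co.K9.W6

open Finset K8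
open Pool.Agent.Lib.MP_afdd4d_co.K9.Star

/-- Soundness of the check of a row with an additional array. -/
theorem RD.rwG_specM {R : RD} {D : C4D} {B : B2} {U K : ℕ} (h : R.OK D B U K) (hD : D.OK)
    (hB : B.OK) (X J M c : ℕ) (Mv : (ℕ → Bool) → ℕ)
    (hX : ∀ q < 15, cR q X ∈ [0, 1, 3, 7, 15]) (hM : Ar R.W 10 M Mv) (hMv : ∀ b, Mv b ≤ 2 ^ K)
    (hrow : R.rwG D M X c J = true) (b : ℕ → Bool) :
    (c : ℤ) + ∑ q ∈ range 15, F41 D X J b q + ∑ m ∈ range 45, F22 B X J b m ≤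
      15 * D.of + 45 * B.of + ∑ k ∈ range 6, (R.u5 (hc J b k) (ec b k) : ℤ) + Mv b := by
  obtain ⟨h1, h2⟩ := RD.rwA_ar h hD hB X J M Mv hX hM hMv
  have h3 := geG_spec h.hW h1 h2 hrow b
  have h5 : (c : ℤ) ≤ ∑ q ∈ range 15, (((D.of - F41 D X J b q).toNat : ℕ) : ℤ) +
      (∑ m ∈ range 45, (((B.of - F22 B X J b m).toNat : ℕ) : ℤ) +
        (∑ k ∈ range 6, (R.u5 (hc J b k) (ec b k) : ℤ) + (Mv b : ℤ))) := by exact_mod_cast h3
  have e1 : ∑ q ∈ range 15, (((D.of - F41 D X J b q).toNat : ℕ) : ℤ) =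
      15 * D.of - ∑ q ∈ range 15, F41 D X J b q := by
    rw [eq_sub_iff_add_eq, ← Finset.sum_add_distrib]
    have : ∀ q ∈ range 15, (((D.of - F41 D X J b q).toNat : ℕ) : ℤ) + F41 D X J b q = D.of := by
      intro q _
      have h6 := abs_le.mp (RD.F41_abs hD X J b q)
      omega
    rw [Finset.sum_congr rfl this, Finset.sum_const, Finset.card_range, nsmul_eq_mul]
    norm_num
  have e2 : ∑ m ∈ range 45, (((B.of - F22 B X J b m).toNat : ℕ) : ℤ) =
      45 * B.of - ∑ m ∈ range 45, F22 B X J b m := by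
    rw [eq_sub_iff_add_eq, ← Finset.sum_add_distrib]
    have : ∀ q ∈ range 45, (((B.of - F22 B X J b q).toNat : ℕ) : ℤ) + F22 B X J b q = B.of := by
      intro q _
      have h6 := abs_le.mp (RD.F22_abs hB X J b q)
      omega
    rw [Finset.sum_congr rfl this, Finset.sum_const, Finset.card_range, nsmul_eq_mul]
    norm_num
  rw [e1, e2] at h5
  linarith

section win
variable {n : ℕ} {H E : Finset (Finset (Fin n))} {χ : Fin n → Bool} {R : RD} {D : C4D} {B : B2}
  {U K : ℕ}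

/-- The inequality of a row with an additional array. -/
theorem row_leM (h : R.OK D B U K) (hD : D.OK) (hB : B.OK) (hE : EvenH n E) (t : Fin 6 → Fin n)
    (ht : Function.Injective t) (hX : ∀ q < 15, cR q (xc χ t) ∈ [0, 1, 3, 7, 15]) (M c : ℕ)
    (Mv : (ℕ → Bool) → ℕ) (hM : Ar R.W 10 M Mv) (hMv : ∀ b, Mv b ≤ 2 ^ K)
    (hrow : R.rwG D M (xc χ t) c (jc H E t) = true) :
    (c : ℤ) + ∑ q ∈ range 15, D.kj H E χ (t ∘ rp q) (t (Fin.ofNat 6 (vq q 0)))
        (t (Fin.ofNat 6 (vq q 1))) +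
      ∑ m ∈ range 45, B.k22 H E χ (t ∘ mp m 0 1) (t ∘ mp m 2 3) (t ∘ mp m 4 5) ≤
      15 * D.of + 45 * B.of + ∑ k ∈ range 6, (R.u5 (cnt H t k) (cnt E t k) : ℤ) +
        Mv (gc E t) := by
  have hev := evT_of_evenH E hE t ht
  have h1 := RD.rwG_specM h hD hB (xc χ t) (jc H E t) M c Mv hX hM hMv hrow (gc E t)
  rw [Finset.sum_congr rfl fun q hq' => kj_eq h hE t ht q (Finset.mem_range.mp hq')
      (hX q (Finset.mem_range.mp hq')),
    Finset.sum_congr rfl fun m hm => k22_eq t hev m (Finset.mem_range.mp hm)]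
  have e5 : ∑ k ∈ range 6, (R.u5 (hc (jc H E t) (gc E t) k) (ec (gc E t) k) : ℤ) =
      ∑ k ∈ range 6, (R.u5 (cnt H t k) (cnt E t k) : ℤ) := by
    refine Finset.sum_congr rfl fun k hk => ?_
    rw [hc_eq t hev k (Finset.mem_range.mp hk), ec_eq t hev k (Finset.mem_range.mp hk)]
  rw [e5] at h1
  exact h1

end win

/-- The array of the mask and of the families. -/
def exG (R : RD) (C : CD) (L : List Fv) (b c : ℕ) : ℕ :=
  Nat.add (R.mkA (Nat.pow 2 C.K) (nthG [] C.mL b)) (asG R.W (Nat.sub (Nat.pow 2 b) 1) c L)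

/-- The check of the chunk number `k`. -/
def ceG (R : RD) (D : C4D) (C : CD) (L : List Fv) (k : ℕ) : Bool :=
  zpG (fun c v => R.rwG D (exG R C L (rB k) c)
    (Nat.sub (Nat.pow 2 (rB k)) 1) (thG (nthG 0 C.A (rB k)) C.cX (popG c) v) c)
    (rX k) (nthG [] C.vX k)

/-- The check of the marks for the chunk number `k`: `om` is the sum of the offsets. -/
def cmG (W : ℕ) (C : CD) (L : List Fv) (om k : ℕ) : Bool :=
  zpG (fun c v => mkG W 15 L (Nat.sub (Nat.pow 2 (rB k)) 1) c (Nat.sub om v))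
    (rX k) (nthG [] C.vX k)

theorem zpG_zip (f : ℕ → ℕ → Bool) : ∀ l l' : List ℕ, zpG f l l' = true →
    ∀ p ∈ l.zip l', f p.1 p.2 = true
  | [], _, _, p, hp => by cases hp
  | a :: l, [], h, _, _ => by
    have e : zpG f (a :: l) [] = false := rfl
    rw [e] at h
    exact Bool.noConfusion h
  | a :: l, v :: l', h, p, hp => by
    have e : zpG f (a :: l) (v :: l') = (f a v && zpG f l l') := rfl
    rw [e, Bool.and_eq_true] at h
    rw [List.zip_cons_cons] at hp
    rcases List.mem_cons.mp hp with rfl | hp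
    · exact h.1
    · exact zpG_zip f l l' h.2 p hp

/-- The bound of the terms with marks from the checks. -/
theorem marks_le {C : CD} {W : ℕ} (hW : 2 ≤ W) (L : List Fv)
    (hL : ∀ f ∈ L, f.F.OK W 15 f.v f.U f.nx) (hs : usL L < 2 ^ (W - 1)) (om k : ℕ)
    (h : cmG W C L om k = true) (p : ℕ × ℕ) (hp : p ∈ (rX k).zip (nthG [] C.vX k))
    (b : ℕ → Bool) : (om : ℤ) ≤ vsL 15 (2 ^ rB k - 1) p.1 b L + p.2 := by
  have h1 : mkG W 15 L (2 ^ rB k - 1) p.1 (om - p.2) = true := zpG_zip _ _ _ h p hp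
  have h2 := mkG_spec hW L hL hs _ _ _ h1 b
  omega

section main
variable {P : ∀ n : ℕ, Finset (Finset (Fin n)) → Prop}

/-- The rows of the local theorem from the checks of the representatives. -/
theorem t4row_of2 (D : C4D) (B : B2) (R : RD) (C : CD) (L : List Fv) (U K : ℕ) (hD : D.OK)
    (hI : D.InvOK) (hB : B.OK) (hR : R.OK D B U K) (hK : C.K < R.W) (hKU : 2 ^ C.K + usL L ≤ 2 ^ K)
    (hL : ∀ f ∈ L, f.F.OK R.W 10 f.v f.U f.nx)
    (N x y : ℕ) (cn cd w0 voff eoff : ℤ) (Y Z : Fun6)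
    (hY : ∀ {n : ℕ} (H : Finset (Finset (Fin n))) (χ : Fin n → Bool) M f g
      (t : Fin 6 → Fin n) (σ : Equiv.Perm (Fin 6)), Y H χ M f g (t ∘ σ) = Y H χ M f g t)
    (hZ : ∀ {n : ℕ} (H : Finset (Finset (Fin n))) (χ : Fin n → Bool) M f g
      (t : Fin 6 → Fin n) (σ : Equiv.Perm (Fin 6)), Z H χ M f g (t ∘ σ) = Z H χ M f g t)
    (hYv : ∀ k < 160, ∀ p ∈ (rX k).zip (nthG [] C.vX k), ∀ (n : ℕ) (H : Finset (Finset (Fin n)))
      (χ : Fin n → Bool) (M : Fin n → Fin n → Bool) (f g : Finset (Fin n) → Bool),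
      (∀ e ∈ H, e.card = 4) → K5F H → P n H → ∀ t : Fin 6 → Fin n, Function.Injective t →
      xc χ t = 2 ^ rB k - 1 → jc H (gir χ M f g) t = p.1 →
      Y H χ M f g t + voff ≤ (p.2 : ℤ))
    (hZv : ∀ (n : ℕ) (H : Finset (Finset (Fin n)))
      (χ : Fin n → Bool) (M : Fin n → Fin n → Bool) (f g : Finset (Fin n) → Bool),
      (∀ e ∈ H, e.card = 4) → K5F H → P n H → ∀ t : Fin 6 → Fin n, Function.Injective t →
      Z H χ M f g t + 24 * (vsL 10 (xc χ t) (jc H (gir χ M f g) t) (gc (gir χ M f g) t) L : ℕ) ≤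
        eoff)
    (hml : ∀ b < 7, ∀ e ∈ nthG [] C.mL b, okR e.2 1 = true ∧ ndG e.2 1 = 10 ∧
      syG e.2 1 0 = e.1)
    (hmask : ∀ b < 7, ∀ (n : ℕ) (χ : Fin n → Bool) (M : Fin n → Fin n → Bool)
      (f g : Finset (Fin n) → Bool) (t : Fin 6 → Fin n), Function.Injective t →
      xc χ t = 2 ^ b - 1 → ∀ m ∈ (nthG [] C.mL b).map Prod.fst,
      lf 10 m (gc (gir χ M f g) t) = false)
    (hu : ∀ h < 5, ∀ e < 6, 24 * (R.u5 h e : ℤ) + wF N x y cn cd h e ≤ w0)
    (hcX : (C.cX : ℤ) = 160 * x * cd)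
    (hA : ∀ b < 7, 24 * (15 * (D.of : ℤ) + 45 * B.of) + 6 * w0 + 72 * k3 B b +
      (x * (1650 * cn - 72 * cd * ((6 - 2 * (b : ℤ)) ^ 2 - 6)) + 165 * y - 165 * N) - voff + eoff ≤
        ((nthG 0 C.A b : ℕ) : ℤ))
    (hck : ∀ k < 160, ceG R D C L k = true) :
    T4Row P N x y cn cd (fun H χ M f g t =>
      KS D B H (gir χ M f g) χ t + Y H χ M f g t + Z H χ M f g t) := by
  intro n H χ M f g h4 h5 hP
  set E := gir χ M f g with hE
  have hev : EvenH n E := evenH_gir χ M f g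
  refine w6_reduce χ H E (fun t => KS D B H E χ t + Y H χ M f g t + Z H χ M f g t +
      x * colF cn cd (zb H t) (zb E t) (fun i => χ (t i)) + y * colR (zb E t) ≤
      N * (165 - 16 * S4 (zb H t))) ?_ ?_
  · intro t σ h
    have e1 : zb H (t ∘ σ) = fun T => zb H t (T.image σ) := by
      funext T
      exact zb_comp H t σ T
    have e2 : zb E (t ∘ σ) = fun T => zb E t (T.image σ) := by
      funext T
      exact zb_comp E t σ T
    have e3 : colF cn cd (zb H (t ∘ σ)) (zb E (t ∘ σ)) (fun i => χ ((t ∘ σ) i)) =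
        colF cn cd (zb H t) (zb E t) (fun i => χ (t i)) := by
      rw [e1, e2]
      unfold colF
      rw [O5_perm, O5_perm, S4_perm (zb H t) σ, S4_perm (fun T => zb H t T ^^ zb E t T) σ,
        show (fun i => χ ((t ∘ σ) i)) = fun i => (fun j => χ (t j)) (σ i) from rfl,
        S2_perm (fun j => χ (t j)) σ]
    have e4 : colR (zb E (t ∘ σ)) = colR (zb E t) := by
      rw [e2]
      unfold colR
      rw [S4_perm (zb E t) σ]
    have e5 : S4 (zb H (t ∘ σ)) = S4 (zb H t) := by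
      rw [e1, S4_perm (zb H t) σ]
    have h' : KS D B H E χ (t ∘ σ) + Y H χ M f g (t ∘ σ) + Z H χ M f g (t ∘ σ) +
      x * colF cn cd (zb H (t ∘ σ)) (zb E (t ∘ σ)) (fun i => χ ((t ∘ σ) i)) +
      y * colR (zb E (t ∘ σ)) ≤ N * (165 - 16 * S4 (zb H (t ∘ σ))) := h
    rw [KS_perm H E χ hI, hY, hZ, e3, e4, e5] at h'
    exact h'
  · intro k hk c hc t ht hx hj
    have hb : rB k < 7 := rB_lt k hk
    obtain ⟨v, hv, hrow⟩ := zpG_spec _ _ _ (hck k hk) c hc
    have hYk := hYv k hk (c, v) hv n H χ M f g h4 h5 hP t ht hx hj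
    have hZk := hZv n H χ M f g h4 h5 hP t ht
    have hsz := hR.sz
    have hW2 : 2 ^ (R.W - 1) ≤ 2 ^ R.W := Nat.pow_le_pow_right (by norm_num) (Nat.sub_le _ _)
    have hCK := Nat.two_pow_pos C.K
    have hMm : Ar R.W 10 (R.mkA (2 ^ C.K) (nthG [] C.mL (rB k)))
        fun z => mkV (2 ^ C.K) (nthG [] C.mL (rB k)) z := by
      have e0 := hR
      have e1 : R.OK D B U K := e0
      exact RD.mkA_ar (K := C.K) { e1 with
        sz := by
          have h1 : 2 ^ C.K ≤ 2 ^ K := le_trans (Nat.le_add_right _ _) hKU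
          have := e1.sz
          omega
        hK := hK } _ (hml _ hb)
    have hMf := asG_ar hR.hW0 (2 ^ rB k - 1) c L hL (by omega)
    have hML : ∀ z, mkV (2 ^ C.K) (nthG [] C.mL (rB k)) z + vsL 10 (2 ^ rB k - 1) c z L ≤
        2 ^ K := fun z => le_trans (add_le_add (mkV_le _ _ z) (vsL_le _ _ z L hL)) hKU
    have hM : Ar R.W 10 (exG R C L (rB k) c) fun z =>
        mkV (2 ^ C.K) (nthG [] C.mL (rB k)) z + vsL 10 (2 ^ rB k - 1) c z L :=
      hMm.add hMf hR.hW0 fun z => by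
        have := hML z
        omega
    have hz : mkV (2 ^ C.K) (nthG [] C.mL (rB k)) (gc E t) = 0 :=
      mkV_zero _ _ _ (hmask _ hb n χ M f g t ht hx)
    have hrow' : R.rwG D (exG R C L (rB k) c) (xc χ t)
        (thG (nthG 0 C.A (rB k)) C.cX (popG c) v) (jc H E t) = true := by
      rw [hx, hj]
      exact hrow
    have h1 := row_leM (H := H) (χ := χ) hR hD hB hev t ht (by rw [hx]; exact cR_std _ hb)
      _ _ _ hM hML hrow'
    have h2 := KS_eq H E χ hD hB t
    have h3 := k3_eq B χ t (rB k) hx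
    have h6 := cols_eq H E χ t N x y cn cd (rB k) hb hx
    have h7 := thG_spec (nthG 0 C.A (rB k)) C.cX (popG c) v
    have h8 := hA (rB k) hb
    have h9 : 24 * ∑ q ∈ range 6, (R.u5 (cnt H t q) (cnt E t q) : ℤ) +
        ∑ q ∈ range 6, wF N x y cn cd (cnt H t q) (cnt E t q) ≤ 6 * w0 := by
      rw [Finset.mul_sum, ← Finset.sum_add_distrib]
      refine le_trans (Finset.sum_le_sum fun q hq =>
        hu _ (by have := cnt_le4 H h5 t ht q (Finset.mem_range.mp hq); omega) _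
          (by have := cnt_le5 E t q; omega)) ?_
      rw [Finset.sum_const, Finset.card_range, nsmul_eq_mul]
      norm_num
    rw [hz, zero_add] at h1
    rw [hj] at h6
    rw [hx, hj] at hZk
    have hp : ((popG c : ℕ) : ℤ) = pop c := by rw [popG_eq]
    rw [hcX, hp] at h7
    simp only at hYk
    rw [h3] at h2
    show KS D B H E χ t + Y H χ M f g t + Z H χ M f g t +
      x * colF cn cd (zb H t) (zb E t) (fun i => χ (t i)) + y * colR (zb E t) ≤
      N * (165 - 16 * S4 (zb H t))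
    have h10 : (x : ℤ) * (1650 * cn - 160 * cd * pop c - 72 * cd * ((6 - 2 * (rB k : ℤ)) ^ 2 - 6)) =
        x * (1650 * cn - 72 * cd * ((6 - 2 * (rB k : ℤ)) ^ 2 - 6)) - 160 * x * cd * pop c := by
      ring
    rw [h10] at h6
    linarith

end main

end Pool.Agent.Lib.MP_afdd4d_co.K9.W6
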