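import Pool.Agent.Lib.MP_afdd4d_co.K9.W6Ok
import Pool.Agent.Lib.MP_afdd4d_co.K9.W6Ker
import Pool.Agent.Lib.MP_afdd4d_co.K9.W6Red
import Pool.Agent.Lib.MP_afdd4d_co.K9.T4M

/-!
# The rows of the local theorem from the checks of the representatives
-/

namespace Pool.Agent.Lib.MP_afdd4d_co.K9.W6

open Finset K8
open Pool.Agent.Lib.MP_afdd4d_co.K9.Star

/-! ### Permutations of the window -/

section perm

theorem image_perm_symm (σ : Equiv.Perm (Fin 6)) (T : Finset (Fin 6)) :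
    (T.image σ).image σ.symm = T := by
  rw [Finset.image_image]
  have : (σ.symm : Fin 6 → Fin 6) ∘ σ = id := by
    funext i
    simp
  rw [this, Finset.image_id]

theorem image_symm_perm (σ : Equiv.Perm (Fin 6)) (T : Finset (Fin 6)) :
    (T.image σ.symm).image σ = T := by
  rw [Finset.image_image]
  have : (σ : Fin 6 → Fin 6) ∘ σ.symm = id := by
    funext i
    simp
  rw [this, Finset.image_id]

theorem mem_psc_image (σ : Equiv.Perm (Fin 6)) (S T : Finset (Fin 6)) (m : ℕ) :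
    T ∈ S.powersetCard m ↔ T.image σ ∈ (S.image σ).powersetCard m := by
  rw [Finset.mem_powersetCard, Finset.mem_powersetCard,
    Finset.card_image_of_injective _ σ.injective, Finset.image_subset_image_iff σ.injective]

theorem sum_psc_perm {M : Type*} [AddCommMonoid M] (σ : Equiv.Perm (Fin 6)) (S : Finset (Fin 6))
    (m : ℕ) (f : Finset (Fin 6) → M) :
    ∑ T ∈ S.powersetCard m, f (T.image σ) = ∑ T ∈ (S.image σ).powersetCard m, f T := by
  refine Finset.sum_bij' (fun T _ => T.image σ) (fun T _ => T.image σ.symm) ?_ ?_ ?_ ?_ ?_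
  · intro T hT
    exact (mem_psc_image σ S T m).mp hT
  · intro T hT
    rw [mem_psc_image σ, image_symm_perm]
    exact hT
  · intro T _
    exact image_perm_symm σ T
  · intro T _
    exact image_symm_perm σ T
  · intro T _
    rfl

theorem univ_image_perm (σ : Equiv.Perm (Fin 6)) : (univ : Finset (Fin 6)).image σ = univ :=
  Finset.image_univ_equiv σ

theorem S4_perm (e : Finset (Fin 6) → Bool) (σ : Equiv.Perm (Fin 6)) :
    S4 (fun T => e (T.image σ)) = S4 e := by
  unfold S4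
  have h := sum_psc_perm σ univ 4 fun T => ((e T).toNat : ℤ)
  rw [univ_image_perm] at h
  exact h

theorem O5_perm (h : Finset (Fin 6) → Bool) (i : ℕ) (σ : Equiv.Perm (Fin 6)) :
    O5 (fun T => h (T.image σ)) i = O5 h i := by
  unfold O5
  rw [Finset.card_filter, Finset.card_filter]
  have h1 := sum_psc_perm σ univ 5 fun S : Finset (Fin 6) =>
    if ∑ T ∈ S.powersetCard 4, (h T).toNat = i then 1 else 0
  rw [univ_image_perm] at h1
  rw [← h1]
  refine Finset.sum_congr rfl fun S _ => ?_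
  rw [sum_psc_perm σ S 4 fun T => (h T).toNat]

theorem S2_perm (χ : Fin 6 → Bool) (σ : Equiv.Perm (Fin 6)) : S2 (fun i => χ (σ i)) = S2 χ := by
  unfold S2
  rw [← Equiv.sum_comp σ fun x => ∑ y, if x = y then (0 : ℤ) else Star.sg (χ x) * Star.sg (χ y)]
  refine Finset.sum_congr rfl fun x _ => ?_
  rw [← Equiv.sum_comp σ fun y => if σ x = y then (0 : ℤ) else Star.sg (χ (σ x)) * Star.sg (χ y)]
  refine Finset.sum_congr rfl fun y _ => ?_
  exact if_congr σ.injective.eq_iff.symm rfl rfl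

end perm

/-! ### Quadruples and five-sets of the window -/

theorem q6_psc : (univ : Finset (Fin 6)).powersetCard 4 = (range 15).image (q6 6) := by
  decide +kernel

theorem q6_injW : ∀ r < 15, ∀ r' < 15, q6 6 r = q6 6 r' → r = r' := by decide +kernel

/-- The five-set without the vertex `k`. -/
def s5 (k : ℕ) : Finset (Fin 6) := univ.erase (Fin.ofNat 6 k)

theorem s5_psc : (univ : Finset (Fin 6)).powersetCard 5 = (range 6).image s5 := by decide +kernel

theorem s5_inj : ∀ k < 6, ∀ k' < 6, s5 k = s5 k' → k = k' := by decide +kernel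

theorem s5_quads : ∀ k < 6, (s5 k).powersetCard 4 = (range 5).image (fun i => q6 6 (fs k i)) := by
  decide +kernel

theorem fs_inj : ∀ k < 6, ∀ i < 5, ∀ j < 5, q6 6 (fs k i) = q6 6 (fs k j) → i = j := by
  decide +kernel

section sums
variable {n : ℕ}

theorem S4_hq (e : Finset (Fin 6) → Bool) : S4 e = ∑ r ∈ range 15, ((e (q6 6 r)).toNat : ℤ) := by
  unfold S4
  rw [q6_psc, Finset.sum_image]
  intro r hr r' hr' h
  exact q6_injW r (Finset.mem_range.mp hr) r' (Finset.mem_range.mp hr') h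

theorem cnt_psc (H : Finset (Finset (Fin n))) (t : Fin 6 → Fin n) (k : ℕ) (hk : k < 6) :
    ∑ T ∈ (s5 k).powersetCard 4, (zb H t T).toNat = cnt H t k := by
  rw [s5_quads k hk, Finset.sum_image]
  · rfl
  · intro i hi j hj h
    exact fs_inj k hk i (Finset.mem_range.mp hi) j (Finset.mem_range.mp hj) h

theorem O5_cnt (H : Finset (Finset (Fin n))) (t : Fin 6 → Fin n) (i : ℕ) :
    (O5 (zb H t) i : ℤ) = ∑ k ∈ range 6, if cnt H t k = i then 1 else 0 := by
  unfold O5
  rw [Finset.card_filter, s5_psc, Finset.sum_image]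
  · push_cast
    refine Finset.sum_congr rfl fun k hk => ?_
    rw [cnt_psc H t k (Finset.mem_range.mp hk)]
  · intro k hk k' hk' h
    exact s5_inj k (Finset.mem_range.mp hk) k' (Finset.mem_range.mp hk') h

theorem sum_fs (f : ℕ → ℤ) : ∑ k ∈ range 6, ∑ i ∈ range 5, f (fs k i) =
    2 * ∑ r ∈ range 15, f r := by
  have e : ∀ k, ∑ i ∈ range 5, f (fs k i) =
      f (fs k 0) + f (fs k 1) + f (fs k 2) + f (fs k 3) + f (fs k 4) := by
    intro k
    simp only [Finset.sum_range_succ, Finset.sum_range_zero]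
    ring
  simp only [e]
  simp only [Finset.sum_range_succ, Finset.sum_range_zero]
  have h : ∀ k i r, fs k i = r → f (fs k i) = f r := fun k i r h => by rw [h]
  rw [h 0 0 4 rfl, h 0 1 8 rfl, h 0 2 11 rfl, h 0 3 13 rfl, h 0 4 14 rfl,
    h 1 0 3 rfl, h 1 1 7 rfl, h 1 2 10 rfl, h 1 3 12 rfl, h 1 4 14 rfl,
    h 2 0 2 rfl, h 2 1 6 rfl, h 2 2 9 rfl, h 2 3 12 rfl, h 2 4 13 rfl,
    h 3 0 1 rfl, h 3 1 5 rfl, h 3 2 9 rfl, h 3 3 10 rfl, h 3 4 11 rfl,
    h 4 0 0 rfl, h 4 1 5 rfl, h 4 2 6 rfl, h 4 3 7 rfl, h 4 4 8 rfl,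
    h 5 0 0 rfl, h 5 1 1 rfl, h 5 2 2 rfl, h 5 3 3 rfl, h 5 4 4 rfl]
  ring

theorem sum_cnt (H : Finset (Finset (Fin n))) (t : Fin 6 → Fin n) :
    ∑ k ∈ range 6, (cnt H t k : ℤ) = 2 * S4 (zb H t) := by
  rw [S4_hq, ← sum_fs fun r => ((zb H t (q6 6 r)).toNat : ℤ)]
  refine Finset.sum_congr rfl fun k _ => ?_
  unfold cnt
  push_cast
  rfl

/-- The number of bits of a code. -/
def pop (c : ℕ) : ℕ := ∑ r ∈ range 15, (c.testBit r).toNat

theorem S4_jc (H E : Finset (Finset (Fin n))) (t : Fin 6 → Fin n) :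
    S4 (fun T => zb H t T ^^ zb E t T) = pop (jc H E t) := by
  rw [S4_hq]
  unfold pop
  push_cast
  refine Finset.sum_congr rfl fun r hr => ?_
  rw [jc_bit t r (Finset.mem_range.mp hr)]
  rfl

/-- The colours of the windows of the representatives. -/
def cb (b : ℕ) (i : Fin 6) : Bool := decide ((i : ℕ) < b)

theorem S2_cb : ∀ b < 7, S2 (cb b) = (6 - 2 * (b : ℤ)) ^ 2 - 6 := by decide +kernel

theorem xc_cb (χ : Fin n → Bool) (t : Fin 6 → Fin n) (b : ℕ) (h : xc χ t = 2 ^ b - 1) :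
    (fun i => χ (t i)) = cb b := by
  funext i
  exact xc_col χ t b h i

/-- The number of quadruples of a 5-set of a window. -/
theorem cnt_le4 (H : Finset (Finset (Fin n))) (h5 : K5F H) (t : Fin 6 → Fin n)
    (ht : Function.Injective t) (k : ℕ) (hk : k < 6) : cnt H t k ≤ 4 := by
  rw [← cnt_psc H t k hk]
  have h1 : ((s5 k).image t).card = 5 := by
    rw [Finset.card_image_of_injective _ ht]
    have : ∀ k < 6, (s5 k).card = 5 := by decide
    exact this k hk
  obtain ⟨e, he, heH⟩ := h5 _ h1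
  rw [Finset.mem_powersetCard] at he
  obtain ⟨T, hT, rfl⟩ := Finset.subset_image_iff.mp he.1
  have hTc : T.card = 4 := by
    have := he.2
    rwa [Finset.card_image_of_injective _ ht] at this
  have hTs : T ⊆ s5 k := by exact_mod_cast hT
  have hTm : T ∈ (s5 k).powersetCard 4 := Finset.mem_powersetCard.mpr ⟨hTs, hTc⟩
  have hz : zb H t T = false := by
    rw [Star.zb_eq]
    exact decide_eq_false heH
  rw [← Finset.add_sum_erase _ _ hTm, hz, Bool.toNat_false, zero_add]
  have h2 : ∑ T' ∈ ((s5 k).powersetCard 4).erase T, (zb H t T').toNat ≤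
      ∑ T' ∈ ((s5 k).powersetCard 4).erase T, 1 :=
    Finset.sum_le_sum fun T' _ => RD.tn_le _
  refine le_trans h2 ?_
  rw [Finset.sum_const, smul_eq_mul, mul_one, Finset.card_erase_of_mem hTm,
    Finset.card_powersetCard]
  have : ∀ k < 6, (s5 k).card = 5 := by decide
  rw [this k hk]
  decide

theorem cnt_le5 (H : Finset (Finset (Fin n))) (t : Fin 6 → Fin n) (k : ℕ) : cnt H t k ≤ 5 := by
  unfold cnt
  have h2 : ∑ i ∈ range 5, (hq H t (fs k i)).toNat ≤ ∑ i ∈ range 5, 1 :=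
    Finset.sum_le_sum fun i _ => RD.tn_le _
  simpa using h2

end sums

/-! ### The kernel without roots -/

/-- The value of the kernel without roots for `b` vertices of the second colour. -/
def k3 (B : B2) (b : ℕ) : ℤ := ∑ m ∈ range 10,
  B.m3 ((decide (sq m 0 < b)).toNat + (decide (sq m 1 < b)).toNat + (decide (sq m 2 < b)).toNat)
    ((decide (sq m 3 < b)).toNat + (decide (sq m 4 < b)).toNat + (decide (sq m 5 < b)).toNat)

theorem sq_lt : ∀ m < 10, ∀ i < 6, sq m i < 6 := by decide +kernel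

theorem k3_eq {n : ℕ} (B : B2) (χ : Fin n → Bool) (t : Fin 6 → Fin n) (b : ℕ)
    (h : xc χ t = 2 ^ b - 1) :
    ∑ m ∈ range 10, B.k03 χ (t ∘ sp m 0 1 2) (t ∘ sp m 3 4 5) = k3 B b := by
  have h1 : ∀ m < 10, ∀ i < 6, χ (t (Fin.ofNat 6 (sq m i))) = decide (sq m i < b) := by
    intro m hm i hi
    rw [xc_col χ t b h, Fin.val_ofNat, Nat.mod_eq_of_lt (sq_lt m hm i hi)]
  unfold k3
  refine Finset.sum_congr rfl fun m hm => ?_
  have hm' := Finset.mem_range.mp hm
  rw [← h1 m hm' 0 (by omega), ← h1 m hm' 1 (by omega), ← h1 m hm' 2 (by omega),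
    ← h1 m hm' 3 (by omega), ← h1 m hm' 4 (by omega), ← h1 m hm' 5 (by omega)]
  rfl

/-! ### The combination -/

/-- The function of the five-sets. -/
def wF (N x y : ℕ) (cn cd : ℤ) (h e : ℕ) : ℤ :=
  x * (400 * cd * ((if h = 1 then 1 else 0) + (if h = 3 then 1 else 0)) +
    80 * cn * ((if h = 3 then 1 else 0) - 3 * (if h = 1 then 1 else 0)) - 80 * cn * h) +
  8 * N * h - 8 * y * e

/-- The columns as a function of the five-sets. -/
theorem cols_eq {n : ℕ} (H E : Finset (Finset (Fin n))) (χ : Fin n → Bool) (t : Fin 6 → Fin n)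
    (N x y : ℕ) (cn cd : ℤ) (b : ℕ) (hb : b < 7) (hx : xc χ t = 2 ^ b - 1) :
    x * colF cn cd (zb H t) (zb E t) (fun i => χ (t i)) + y * colR (zb E t) -
      N * (165 - 16 * S4 (zb H t)) =
    ∑ k ∈ range 6, wF N x y cn cd (cnt H t k) (cnt E t k) +
      (x * (1650 * cn - 160 * cd * pop (jc H E t) - 72 * cd * ((6 - 2 * (b : ℤ)) ^ 2 - 6)) +
        165 * y - 165 * N) := by
  have h1 := sum_cnt H t
  have h2 := sum_cnt E t
  have e1 : ∑ k ∈ range 6, wF N x y cn cd (cnt H t k) (cnt E t k) =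
      x * (400 * cd * ((O5 (zb H t) 1 : ℤ) + O5 (zb H t) 3) +
        80 * cn * ((O5 (zb H t) 3 : ℤ) - 3 * O5 (zb H t) 1) -
        80 * cn * ∑ k ∈ range 6, (cnt H t k : ℤ)) +
      8 * N * ∑ k ∈ range 6, (cnt H t k : ℤ) - 8 * y * ∑ k ∈ range 6, (cnt E t k : ℤ) := by
    rw [O5_cnt, O5_cnt]
    simp only [wF, Finset.sum_range_succ, Finset.sum_range_zero]
    ring
  rw [e1, h1, h2]
  unfold colF colR
  rw [S4_jc, xc_cb χ t b hx, S2_cb b hb]
  ring

section main

/-- The colours of the representatives are standard. -/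
theorem cR_std : ∀ b < 7, ∀ q < 15, cR q (2 ^ b - 1) ∈ [0, 1, 3, 7, 15] := by decide +kernel

/-- The threshold of a row. -/
def thG (A cX p v : ℕ) : ℕ := Nat.div (Nat.add (Nat.sub (Nat.add A v) (Nat.mul cX p)) 23) 24

theorem thG_spec (A cX p v : ℕ) : (A : ℤ) + v - cX * p ≤ 24 * thG A cX p v := by
  have e : thG A cX p v = (A + v - cX * p + 23) / 24 := rfl
  rw [e]
  have h1 : A + v - cX * p ≤ 24 * ((A + v - cX * p + 23) / 24) := by omega
  have h2 : ((A + v : ℕ) : ℤ) - ((cX * p : ℕ) : ℤ) ≤ ((A + v - cX * p : ℕ) : ℤ) := by omega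
  have h3 : ((A + v - cX * p : ℕ) : ℤ) ≤ ((24 * ((A + v - cX * p + 23) / 24) : ℕ) : ℤ) := by
    exact_mod_cast h1
  push_cast at h2 h3 ⊢
  linarith

/-- The number of bits of a code, for the kernel. -/
def popG (c : ℕ) : ℕ := @Nat.rec (fun _ => ℕ) 0 (fun r ih => Nat.add ih (bn c r)) 15

theorem popG_eq (c : ℕ) : popG c = pop c := by
  have h : ∀ m, @Nat.rec (fun _ => ℕ) 0 (fun r ih => Nat.add ih (bn c r)) m =
      ∑ r ∈ range m, (c.testBit r).toNat := by
    intro m
    induction m with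
    | zero => rfl
    | succ m ih =>
      rw [Finset.sum_range_succ, ← ih, ← bn_eq]
      rfl
  exact h 15

/-- The data of the rows: the lists of the values of the marks, constants by colours, the coefficient
of the number of differences, the forms of the mask. -/
structure CD where
  vX : List (List ℕ)
  A : List ℕ
  cX : ℕ
  mL : List (List (ℕ × List (ℕ × ℕ × ℕ)))
  K : ℕ

/-- The checks of a list of codes and values. -/
def zpG (f : ℕ → ℕ → Bool) : List ℕ → List ℕ → Bool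
  | [], _ => true
  | _ :: _, [] => false
  | c :: l, v :: l' => f c v && zpG f l l'

theorem zpG_spec (f : ℕ → ℕ → Bool) : ∀ l l' : List ℕ, zpG f l l' = true →
    ∀ c ∈ l, ∃ v, (c, v) ∈ l.zip l' ∧ f c v = true
  | [], _, _, c, hc => by cases hc
  | a :: l, [], h, _, _ => by
    have e : zpG f (a :: l) [] = false := rfl
    rw [e] at h
    exact Bool.noConfusion h
  | a :: l, v :: l', h, c, hc => by
    have e : zpG f (a :: l) (v :: l') = (f a v && zpG f l l') := rfl
    rw [e, Bool.and_eq_true] at h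
    rcases List.mem_cons.mp hc with rfl | hc
    · exact ⟨v, by rw [List.zip_cons_cons]; exact List.mem_cons_self, h.1⟩
    · obtain ⟨v', h1, h2⟩ := zpG_spec f l l' h.2 c hc
      exact ⟨v', by rw [List.zip_cons_cons]; exact List.mem_cons_of_mem _ h1, h2⟩

/-- The check of the chunk number `k`. -/
def ckG (R : RD) (D : C4D) (C : CD) (k : ℕ) : Bool :=
  zpG (fun c v => R.rwG D (R.mkA (Nat.pow 2 C.K) (nthG [] C.mL (rB k)))
    (Nat.sub (Nat.pow 2 (rB k)) 1) (thG (nthG 0 C.A (rB k)) C.cX (popG c) v) c)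
    (rX k) (nthG [] C.vX k)

variable {P : ∀ n : ℕ, Finset (Finset (Fin n)) → Prop}

/-- The rows of the local theorem from the checks of the representatives. `Y` is a sum of further terms,
invariant under permutations of the window. -/
theorem t4row_of (D : C4D) (B : B2) (R : RD) (C : CD) (U : ℕ) (hD : D.OK) (hI : D.InvOK)
    (hB : B.OK) (hR : R.OK D B U C.K) (N x y : ℕ) (cn cd w0 voff : ℤ) (Y : Fun6)
    (hY : ∀ {n : ℕ} (H : Finset (Finset (Fin n))) (χ : Fin n → Bool) M f g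
      (t : Fin 6 → Fin n) (σ : Equiv.Perm (Fin 6)), Y H χ M f g (t ∘ σ) = Y H χ M f g t)
    (hYv : ∀ k < 160, ∀ p ∈ (rX k).zip (nthG [] C.vX k), ∀ (n : ℕ) (H : Finset (Finset (Fin n)))
      (χ : Fin n → Bool) (M : Fin n → Fin n → Bool) (f g : Finset (Fin n) → Bool),
      (∀ e ∈ H, e.card = 4) → K5F H → P n H → ∀ t : Fin 6 → Fin n, Function.Injective t →
      xc χ t = 2 ^ rB k - 1 → jc H (gir χ M f g) t = p.1 →
      Y H χ M f g t + voff ≤ (p.2 : ℤ))
    (hml : ∀ b < 7, ∀ e ∈ nthG [] C.mL b, okR e.2 1 = true ∧ ndG e.2 1 = 10 ∧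
      syG e.2 1 0 = e.1)
    (hmask : ∀ b < 7, ∀ (n : ℕ) (χ : Fin n → Bool) (M : Fin n → Fin n → Bool)
      (f g : Finset (Fin n) → Bool) (t : Fin 6 → Fin n), Function.Injective t →
      xc χ t = 2 ^ b - 1 → ∀ m ∈ (nthG [] C.mL b).map Prod.fst,
      lf 10 m (gc (gir χ M f g) t) = false)
    (hu : ∀ h < 5, ∀ e < 6, 24 * (R.u5 h e : ℤ) + wF N x y cn cd h e ≤ w0)
    (hcX : (C.cX : ℤ) = 160 * x * cd)
    (hA : ∀ b < 7, 24 * (15 * (D.of : ℤ) + 45 * B.of) + 6 * w0 + 72 * k3 B b +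
      (x * (1650 * cn - 72 * cd * ((6 - 2 * (b : ℤ)) ^ 2 - 6)) + 165 * y - 165 * N) - voff ≤
        ((nthG 0 C.A b : ℕ) : ℤ))
    (hck : ∀ k < 160, ckG R D C k = true) :
    T4Row P N x y cn cd (fun H χ M f g t => KS D B H (gir χ M f g) χ t + Y H χ M f g t) := by
  intro n H χ M f g h4 h5 hP
  set E := gir χ M f g with hE
  have hev : EvenH n E := evenH_gir χ M f g
  refine w6_reduce χ H E (fun t => KS D B H E χ t + Y H χ M f g t +
      x * colF cn cd (zb H t) (zb E t) (fun i => χ (t i)) + y * colR (zb E t) ≤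
      N * (165 - 16 * S4 (zb H t))) ?_ ?_
  · intro t σ h
    have e1 : zb H (t ∘ σ) = fun T => zb H t (T.image σ) := by
      funext T
      exact zb_comp H t σ T
    have e2 : zb E (t ∘ σ) = fun T => zb E t (T.image σ) := by
      funext T
      exact zb_comp E t σ T
    have e3 : colF cn cd (zb H (t ∘ σ)) (zb E (t ∘ σ)) (fun i => χ ((t ∘ σ) i)) =
        colF cn cd (zb H t) (zb E t) (fun i => χ (t i)) := by
      rw [e1, e2]
      unfold colF
      rw [O5_perm, O5_perm, S4_perm (zb H t) σ, S4_perm (fun T => zb H t T ^^ zb E t T) σ,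
        show (fun i => χ ((t ∘ σ) i)) = fun i => (fun j => χ (t j)) (σ i) from rfl,
        S2_perm (fun j => χ (t j)) σ]
    have e4 : colR (zb E (t ∘ σ)) = colR (zb E t) := by
      rw [e2]
      unfold colR
      rw [S4_perm (zb E t) σ]
    have e5 : S4 (zb H (t ∘ σ)) = S4 (zb H t) := by
      rw [e1, S4_perm (zb H t) σ]
    have h' : KS D B H E χ (t ∘ σ) + Y H χ M f g (t ∘ σ) +
      x * colF cn cd (zb H (t ∘ σ)) (zb E (t ∘ σ)) (fun i => χ ((t ∘ σ) i)) +
      y * colR (zb E (t ∘ σ)) ≤ N * (165 - 16 * S4 (zb H (t ∘ σ))) := h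
    rw [KS_perm H E χ hI, hY, e3, e4, e5] at h'
    exact h'
  · intro k hk c hc t ht hx hj
    have hb : rB k < 7 := rB_lt k hk
    obtain ⟨v, hv, hrow⟩ := zpG_spec _ _ _ (hck k hk) c hc
    have hYk := hYv k hk (c, v) hv n H χ M f g h4 h5 hP t ht hx hj
    have hM : Ar R.W 10 (R.mkA (2 ^ C.K) (nthG [] C.mL (rB k)))
        fun z => mkV (2 ^ C.K) (nthG [] C.mL (rB k)) z := RD.mkA_ar hR _ (hml _ hb)
    have hz : mkV (2 ^ C.K) (nthG [] C.mL (rB k)) (gc E t) = 0 :=
      mkV_zero _ _ _ (hmask _ hb n χ M f g t ht hx)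
    have hrow' : R.rwG D (R.mkA (2 ^ C.K) (nthG [] C.mL (rB k))) (xc χ t)
        (thG (nthG 0 C.A (rB k)) C.cX (popG c) v) (jc H E t) = true := by
      rw [hx, hj]
      exact hrow
    have h1 := row_le (H := H) (χ := χ) hR hD hB hev t ht (by rw [hx]; exact cR_std _ hb)
      _ _ _ hM (fun z => mkV_le _ _ z) hrow' hz
    have h2 := KS_eq H E χ hD hB t
    have h3 := k3_eq B χ t (rB k) hx
    have h6 := cols_eq H E χ t N x y cn cd (rB k) hb hx
    have h7 := thG_spec (nthG 0 C.A (rB k)) C.cX (popG c) v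
    have h8 := hA (rB k) hb
    have h9 : 24 * ∑ q ∈ range 6, (R.u5 (cnt H t q) (cnt E t q) : ℤ) +
        ∑ q ∈ range 6, wF N x y cn cd (cnt H t q) (cnt E t q) ≤ 6 * w0 := by
      rw [Finset.mul_sum, ← Finset.sum_add_distrib]
      refine le_trans (Finset.sum_le_sum fun q hq =>
        hu _ (by have := cnt_le4 H h5 t ht q (Finset.mem_range.mp hq); omega) _
          (by have := cnt_le5 E t q; omega)) ?_
      rw [Finset.sum_const, Finset.card_range, nsmul_eq_mul]
      norm_num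
    rw [hj] at h6
    have hp : ((popG c : ℕ) : ℤ) = pop c := by rw [popG_eq]
    rw [hcX, hp] at h7
    simp only at hYk
    rw [h3] at h2
    show KS D B H E χ t + Y H χ M f g t +
      x * colF cn cd (zb H t) (zb E t) (fun i => χ (t i)) + y * colR (zb E t) ≤
      N * (165 - 16 * S4 (zb H t))
    have h10 : (x : ℤ) * (1650 * cn - 160 * cd * pop c - 72 * cd * ((6 - 2 * (rB k : ℤ)) ^ 2 - 6)) =
        x * (1650 * cn - 72 * cd * ((6 - 2 * (rB k : ℤ)) ^ 2 - 6)) - 160 * x * cd * pop c := by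
      ring
    rw [h10] at h6
    linarith

end main

/-! ### Sums over the permutations of the window -/

section sym
variable {P : ∀ n : ℕ, Finset (Finset (Fin n)) → Prop} {X1 : ℝ}

theorem sum_inj_perm {n : ℕ} (F : (Fin 6 → Fin n) → ℝ) (σ : Equiv.Perm (Fin 6)) :
    ∑ t ∈ inj (Fin n) 6, F (t ∘ σ) = ∑ t ∈ inj (Fin n) 6, F t := by
  refine Finset.sum_bij' (fun t _ => t ∘ σ) (fun t _ => t ∘ σ.symm) ?_ ?_ ?_ ?_ ?_
  · intro t ht
    exact mem_inj.mpr ((mem_inj.mp ht).comp σ.injective)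
  · intro t ht
    exact mem_inj.mpr ((mem_inj.mp ht).comp σ.symm.injective)
  · intro t _
    funext i
    simp
  · intro t _
    funext i
    simp
  · intro t _
    rfl

/-- A term after a permutation of the window. -/
theorem good_perm {Z : Fun6} (h : K9.Star.Good P X1 Z) (σ : Equiv.Perm (Fin 6)) :
    K9.Star.Good P X1 (fun H χ M f g t => Z H χ M f g (t ∘ σ)) := by
  intro δ hδ
  obtain ⟨N, hN⟩ := h δ hδ
  refine ⟨N, fun n hn H χ M f g hc => ?_⟩
  have h1 := sum_inj_perm (fun t => ((Z H χ M f g t : ℤ) : ℝ)) σ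
  rw [h1]
  exact hN n hn H χ M f g hc

/-- The sum of a function over the permutations of the window. -/
def sy6 (Z : Fun6) : Fun6 := fun H χ M f g t => ∑ σ : Equiv.Perm (Fin 6), Z H χ M f g (t ∘ σ)

theorem good_sy6 {Z : Fun6} (h : K9.Star.Good P X1 Z) :
    K9.Star.Good P X1 (fun H χ M f g t => sy6 Z H χ M f g t) :=
  K9.Star.Good.sum univ (fun (σ : Equiv.Perm (Fin 6)) {n} H χ M f g (t : Fin 6 → Fin n) =>
    Z H χ M f g (t ∘ σ)) fun σ _ => good_perm h σ

theorem sy6_perm (Z : Fun6) {n : ℕ} (H : Finset (Finset (Fin n))) (χ : Fin n → Bool) (M f g)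
    (t : Fin 6 → Fin n) (σ : Equiv.Perm (Fin 6)) :
    sy6 Z H χ M f g (t ∘ σ) = sy6 Z H χ M f g t := by
  unfold sy6
  exact Equiv.sum_comp (Equiv.mulLeft σ) fun τ : Equiv.Perm (Fin 6) => Z H χ M f g (t ∘ τ)

end sym

end Pool.Agent.Lib.MP_afdd4d_co.K9.W6
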