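import Pool.Agent.Lib.MP_afdd4d_co.K9.W6Rln

/-!
# Families by colours

A term is given by one raw table for each colouring of the window; its sum over the permutations is
evaluated, for windows whose first `b` vertices have the second colour, by placements that do not see
the colours.
-/

namespace Pool.Agent.Lib.MP_afdd4d_co.K9.W6

open Finset K8
open Pool.Agent.Lib.MP_afdd4d_co.K9.Star

/-! ### Raw tables -/

/-- A raw table: the bits of the index, the offset, a bound, `A + P = off + Q`. -/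
structure RT where
  k : ℕ
  m : ℕ
  pe : List (List ℕ)
  pq : List (List ℕ)
  off : ℕ
  U : ℕ
  A : ℕ
  P : ℕ
  Q : ℕ

/-- The empty raw table. -/
def RT0 : RT := ⟨0, 0, [], [], 0, 0, 0, 0, 0⟩

/-- The raw table as a term. -/
def RT.M (R : RT) (k m : ℕ) : Mk :=
  ⟨R.k, R.m, R.pe, R.pq, R.off, R.U, R.A, R.P, R.Q, [], [], ⟨k, m, 0, 0, []⟩, [], []⟩

/-- The check of a raw table. -/
def RT.ck (R : RT) (W NN : ℕ) (g : ℕ → ℕ) : Bool :=
  and ((R.M 0 0).ckT W) (and ((R.M 0 0).ok0 NN g) (R.pq.all fun l => l.all fun q => Nat.blt q 15))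

/-! ### Tables of the second stage -/

/-- An image of a raw table: the colours, the program and its forms. -/
structure SB where
  c : ℕ
  s : List (ℕ × ℕ × ℕ)
  f : List ℕ × List ℕ

/-- A table of the second stage: the numbers of bits, the table, a bound, the sum of the offsets. -/
structure TB where
  k : ℕ
  m : ℕ
  A : ℕ
  U : ℕ
  o : ℕ
  S : List SB

/-- The empty table. -/
def TB0 : TB := ⟨0, 0, 0, 0, 0, []⟩

/-- The sum of the images. -/
def sgB (W : ℕ) (Rs : List RT) (l : List SB) : ℕ := @List.rec SB (fun _ => ℕ) 0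
  (fun S _ ih => Nat.add ih (ruG W S.s (Nat.add (nthG RT0 Rs S.c).k (nthG RT0 Rs S.c).m)
    (nthG RT0 Rs S.c).A)) l

/-- The sum of the bounds. -/
def uB (Rs : List RT) (l : List SB) : ℕ :=
  @List.rec SB (fun _ => ℕ) 0 (fun S _ ih => Nat.add ih (nthG RT0 Rs S.c).U) l

/-- The sum of the offsets. -/
def oB (Rs : List RT) (l : List SB) : ℕ :=
  @List.rec SB (fun _ => ℕ) 0 (fun S _ ih => Nat.add ih (nthG RT0 Rs S.c).off) l

/-- The value of the sum of the images. -/
def vgB (W : ℕ) (Rs : List RT) (n' : ℕ) (c : ℕ → Bool) (l : List SB) : ℕ :=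
  (l.map fun S => Ln W (nthG RT0 Rs S.c).A (idx ((nthG RT0 Rs S.c).k + (nthG RT0 Rs S.c).m)
    fun r => lf n' (syG S.s ((nthG RT0 Rs S.c).k + (nthG RT0 Rs S.c).m) r) c)).sum

/-- The check of an image. -/
def okSB (Rs : List RT) (k m : ℕ) (S : SB) : Bool :=
  and (okR S.s (Nat.add (nthG RT0 Rs S.c).k (nthG RT0 Rs S.c).m))
    (and (Nat.beq (ndG S.s (Nat.add (nthG RT0 Rs S.c).k (nthG RT0 Rs S.c).m)) (Nat.add k m))
      (((nthG RT0 Rs S.c).M k m).okS S.s S.f))

/-- The check of a table of the second stage. -/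
def TB.ck (T : TB) (W : ℕ) (Rs : List RT) : Bool :=
  and (and (Nat.blt T.A (Nat.pow 2 (Nat.mul W (Nat.pow 2 (Nat.add T.k T.m)))))
    (lbG W (Nat.add T.k T.m) T.U T.A))
  (and (T.S.all (okSB Rs T.k T.m)) (and (Nat.blt (uB Rs T.S) (Nat.pow 2 W))
    (and (Nat.beq T.A (sgB W Rs T.S)) (Nat.beq T.o (oB Rs T.S)))))

section tb
variable {W NN : ℕ} {g : ℕ → ℕ} {Rs : List RT}

theorem nthG_mem' {α : Type} (d : α) : ∀ (l : List α) (i : ℕ), nthG d l i = d ∨ nthG d l i ∈ l
  | [], i => by cases i <;> exact Or.inl rfl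
  | a :: l, 0 => Or.inr List.mem_cons_self
  | a :: l, i + 1 => by
    rcases nthG_mem' d l i with h | h
    · exact Or.inl h
    · exact Or.inr (List.mem_cons_of_mem _ h)

/-- The conditions on the raw tables. -/
structure RT.OK (R : RT) (W NN : ℕ) (g : ℕ → ℕ) : Prop where
  lt : R.A < 2 ^ (W * 2 ^ (R.k + R.m))
  le : ∀ b, Ln W R.A (idx (R.k + R.m) b) ≤ R.U
  eq : ∀ b, Ln W R.A (idx (R.k + R.m) b) + Ln W R.P (idx (R.k + R.m) b) =
    R.off + Ln W R.Q (idx (R.k + R.m) b)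
  ok0 : ∀ k m, (R.M k m).ok0 NN g = true
  pq : (R.pq.all fun l => l.all fun q => Nat.blt q 15) = true

theorem RT.ck_spec {R : RT} (hW : 0 < W) (h : R.ck W NN g = true) : R.OK W NN g := by
  unfold RT.ck at h
  rw [Bool.and_eq_true, Bool.and_eq_true] at h
  obtain ⟨h1, h2, h3⟩ := h
  obtain ⟨g1, g2, g3⟩ := Mk.ckT_spec hW h1
  exact ⟨g1, g2, g3, fun k m => h2, h3⟩

theorem RT0_ok (hg : ∀ r < 15, g r < 2 ^ (NN + 1)) : RT0.OK W NN g := by
  refine ⟨Nat.two_pow_pos _, fun b => ?_, fun b => ?_, fun k m => ?_, rfl⟩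
  · show Ln W 0 _ ≤ 0
    rw [Ln_zero_left]
  · show Ln W 0 _ + Ln W 0 _ = 0 + Ln W 0 _
    rw [Ln_zero_left]
  · unfold Mk.ok0
    rw [Bool.and_eq_true, Bool.and_eq_true, Bool.and_eq_true, Bool.and_eq_true]
    refine ⟨⟨⟨rfl, rfl⟩, List.all_eq_true.mpr fun r hr => ?_⟩, rfl, rfl⟩
    rw [Nat.blt_eq]
    exact hg r (List.mem_range.mp hr)

theorem RT.nth_ok (hg : ∀ r < 15, g r < 2 ^ (NN + 1)) (hR : ∀ R ∈ Rs, R.OK W NN g) (c : ℕ) :
    (nthG RT0 Rs c).OK W NN g := by
  rcases nthG_mem' RT0 Rs c with h | h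
  · rw [h]
    exact RT0_ok hg
  · exact hR _ h

theorem vgB_le (hR : ∀ c, (nthG RT0 Rs c).OK W NN g) (n' : ℕ) (c : ℕ → Bool) : ∀ l : List SB,
    vgB W Rs n' c l ≤ uB Rs l
  | [] => Nat.zero_le _
  | S :: l => by
    have h1 := vgB_le hR n' c l
    have h2 := (hR S.c).le fun r => lf n' (syG S.s ((nthG RT0 Rs S.c).k + (nthG RT0 Rs S.c).m) r) c
    have e : uB Rs (S :: l) = uB Rs l + (nthG RT0 Rs S.c).U := rfl
    unfold vgB at *
    rw [List.map_cons, List.sum_cons, e]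
    omega

theorem sgB_ar (hW : 0 < W) (hR : ∀ c, (nthG RT0 Rs c).OK W NN g) (k m : ℕ) : ∀ l : List SB,
    (∀ S ∈ l, okSB Rs k m S = true) → uB Rs l < 2 ^ W →
    Ar W (k + m) (sgB W Rs l) fun c => vgB W Rs (k + m) c l
  | [], _, _ => (ar_zero _).congr fun b => rfl
  | S :: l, hs, hl => by
    have e0 : uB Rs (S :: l) = uB Rs l + (nthG RT0 Rs S.c).U := rfl
    have h1 := sgB_ar hW hR k m l (fun s' hs' => hs s' (List.mem_cons_of_mem _ hs')) (by omega)
    have hT : Ar W ((nthG RT0 Rs S.c).k + (nthG RT0 Rs S.c).m) (nthG RT0 Rs S.c).A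
      fun b => Ln W (nthG RT0 Rs S.c).A (idx _ b) := ⟨(hR S.c).lt, fun b => rfl⟩
    have h4 := hs S List.mem_cons_self
    unfold okSB at h4
    rw [Bool.and_eq_true, Bool.and_eq_true] at h4
    have h5 : okR S.s ((nthG RT0 Rs S.c).k + (nthG RT0 Rs S.c).m) = true := h4.1
    have h6 : ndG S.s ((nthG RT0 Rs S.c).k + (nthG RT0 Rs S.c).m) = k + m :=
      Nat.eq_of_beq_eq_true h4.2.1
    have h2 := it_ar hW h5 h6 hT
    have e : sgB W Rs (S :: l) = sgB W Rs l + ruG W S.s ((nthG RT0 Rs S.c).k +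
      (nthG RT0 Rs S.c).m) (nthG RT0 Rs S.c).A := rfl
    rw [e]
    refine (h1.add h2 hW fun b => ?_).congr fun b => ?_
    · have h6 := vgB_le hR (k + m) b l
      have h7 := (hR S.c).le fun r => lf (k + m)
        (syG S.s ((nthG RT0 Rs S.c).k + (nthG RT0 Rs S.c).m) r) b
      omega
    · unfold vgB
      rw [List.map_cons, List.sum_cons, add_comm]

/-- The conditions on a table of the second stage. -/
structure TB.OK (T : TB) (W : ℕ) (Rs : List RT) : Prop where
  lt : T.A < 2 ^ (W * 2 ^ (T.k + T.m))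
  le : ∀ b, Ln W T.A (idx (T.k + T.m) b) ≤ T.U
  val : ∀ c, Ln W T.A (idx (T.k + T.m) c) = vgB W Rs (T.k + T.m) c T.S
  sb : ∀ S ∈ T.S, okSB Rs T.k T.m S = true
  off : T.o = oB Rs T.S

theorem TB.ck_spec {T : TB} (hW : 0 < W) (hR : ∀ c, (nthG RT0 Rs c).OK W NN g)
    (h : T.ck W Rs = true) : T.OK W Rs := by
  unfold TB.ck at h
  simp only [Bool.and_eq_true] at h
  obtain ⟨⟨h1, h2⟩, h3, h4, h5, h6⟩ := h
  rw [Nat.blt_eq] at h1 h4
  have h1 : T.A < 2 ^ (W * 2 ^ (T.k + T.m)) := h1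
  have h5 : T.A = sgB W Rs T.S := Nat.eq_of_beq_eq_true h5
  refine ⟨h1, fun b => lbG_spec (f := fun b => Ln W T.A (idx (T.k + T.m) b)) hW
    ⟨h1, fun b => rfl⟩ h2 b, fun c => ?_, List.all_eq_true.mp h3, Nat.eq_of_beq_eq_true h6⟩
  conv_lhs => rw [h5]
  exact (sgB_ar hW hR T.k T.m T.S (List.all_eq_true.mp h3) h4).get c

theorem TB0_ok : TB0.OK W Rs := by
  refine ⟨Nat.two_pow_pos _, fun b => ?_, fun c => ?_, fun S hS => ?_, rfl⟩
  · show Ln W 0 _ ≤ 0
    rw [Ln_zero_left]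
  · show Ln W 0 _ = 0
    rw [Ln_zero_left]
  · cases hS

theorem TB.nth_ok {Ts : List TB} (hT : ∀ T ∈ Ts, T.OK W Rs) (j : ℕ) :
    (nthG TB0 Ts j).OK W Rs := by
  rcases nthG_mem' TB0 Ts j with h | h
  · rw [h]
    exact TB0_ok
  · exact hT _ h

end tb

/-! ### Placements -/

/-- An inner term: the table, the number of its further keys, the further keys. -/
structure IB where
  A : ℕ
  me : ℕ
  e : List (List ℕ)

/-- A placement: the number of bits of the lanes, the common keys, the inner terms, the program. -/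
structure PB where
  k : ℕ
  ks : List (List ℕ)
  I : List IB
  pr : List (ℕ × ℕ × ℕ)

/-- The array of the inner terms. -/
def aiG (W Y k K : ℕ) (l : List IB) : ℕ := @List.rec IB (fun _ => ℕ) 0
  (fun I _ ih => Nat.add ih (slG W k I.A (Nat.add (kxG Y I.e) (Nat.mul (Nat.pow 2 I.me) K)))) l

/-- The array of a placement. -/
def PB.a (W Y : ℕ) (p : PB) : ℕ := ruG W p.pr p.k (aiG W Y p.k (kxG Y p.ks) p.I)

/-- The array of a list of placements. -/
def apG (W Y : ℕ) (l : List PB) : ℕ :=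
  @List.rec PB (fun _ => ℕ) 0 (fun p _ ih => Nat.add ih (p.a W Y)) l

/-- The value of an inner term. -/
def IB.v (W Y k : ℕ) (ks : List (List ℕ)) (c : ℕ → Bool) (I : IB) : ℕ :=
  Ln W I.A (idx (k + (I.me + ks.length)) (cbk k (kxG Y (I.e ++ ks)) c))

/-- The value of a placement. -/
def PB.v (W N Y : ℕ) (b : ℕ → Bool) (p : PB) : ℕ :=
  (p.I.map (IB.v W Y p.k p.ks fun r => lf N (syG p.pr p.k r) b)).sum

/-- The value of a list of placements. -/
def vpL (W N Y : ℕ) (b : ℕ → Bool) (l : List PB) : ℕ := (l.map (PB.v W N Y b)).sum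

/-- The data of the check of an inner term: the number of the table, the forms of the bits of the
placement, the ranks. -/
structure JB where
  j : ℕ
  fp : List ℕ
  rk : List ℕ

/-- The colours of a permutation. -/
def cpG (b V : ℕ) : ℕ := @Nat.rec (fun _ => ℕ) 0 (fun a ih => Nat.add ih
  (@Bool.rec (fun _ => ℕ) 0 (Nat.pow 2 a) (Nat.blt (psG V (Nat.add 15 a)) (Nat.add 15 b)))) 6

/-- The check of the ranks of an inner term. -/
def okRb (NN : ℕ) (g : ℕ → ℕ) (P : PT) (Rs : List RT) (b k m : ℕ) (fp : List ℕ) (l : List SB) :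
    List ℕ → Bool := @List.rec SB (fun _ => List ℕ → Bool) (fun c => Nat.beq c.length 0)
  (fun S _ ih c => @List.rec ℕ (fun _ => Bool) false
    (fun i c' _ => and (and (Nat.beq (cpG b (nthG 0 P.V i)) S.c)
      (((nthG RT0 Rs S.c).M k m).ok1 NN g (nthG 0 P.V i) fp S.f)) (ih c')) c) l

/-- The check of an inner term. -/
def okJ (NN : ℕ) (g : ℕ → ℕ) (P : PT) (Rs : List RT) (Ts : List TB) (b : ℕ) (p : PB) (I : IB)
    (d : JB) : Bool :=
  and (and (Nat.beq I.A (nthG TB0 Ts d.j).A) (and (Nat.beq p.k (nthG TB0 Ts d.j).k)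
    (and (Nat.beq (Nat.add I.me p.ks.length) (nthG TB0 Ts d.j).m) (Nat.beq I.e.length I.me))))
  (and ((RT0.M (nthG TB0 Ts d.j).k (nthG TB0 Ts d.j).m).okP NN ⟨I.e ++ p.ks, p.pr⟩ d.fp)
    (okRb NN g P Rs b (nthG TB0 Ts d.j).k (nthG TB0 Ts d.j).m d.fp (nthG TB0 Ts d.j).S d.rk))

/-- The check of the inner terms of a placement. -/
def okJs (NN : ℕ) (g : ℕ → ℕ) (P : PT) (Rs : List RT) (Ts : List TB) (b : ℕ) (p : PB)
    (l : List IB) : List JB → Bool :=
  @List.rec IB (fun _ => List JB → Bool) (fun c => Nat.beq c.length 0)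
    (fun I _ ih c => @List.rec JB (fun _ => Bool) false
      (fun d c' _ => and (okJ NN g P Rs Ts b p I d) (ih c')) c) l

/-- The check of the placements. -/
def okPs (NN : ℕ) (g : ℕ → ℕ) (P : PT) (Rs : List RT) (Ts : List TB) (b : ℕ) (l : List PB) :
    List (List JB) → Bool :=
  @List.rec PB (fun _ => List (List JB) → Bool) (fun c => Nat.beq c.length 0)
    (fun p _ ih c => @List.rec (List JB) (fun _ => Bool) false
      (fun d c' _ => and (and (and (okR p.pr p.k) (Nat.beq (ndG p.pr p.k) NN))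
        (okJs NN g P Rs Ts b p p.I d)) (ih c')) c) l

/-- The sum of the offsets. -/
def oJs (Ts : List TB) (l : List JB) : ℕ := (l.map fun d => (nthG TB0 Ts d.j).o).sum

/-- The sum of the bounds. -/
def uJs (Ts : List TB) (l : List JB) : ℕ := (l.map fun d => (nthG TB0 Ts d.j).U).sum

/-- The ranks. -/
def rJs (l : List JB) : List ℕ := (l.map JB.rk).flatten

section pl
variable {W NN : ℕ} {g : ℕ → ℕ} {Rs : List RT} {Ts : List TB} {P : PT}

theorem cpG_eq (hP : P.OK) (b i : ℕ) (hi : i < 720) :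
    cpG b (nthG 0 P.V i) = idx 6 fun a => decide (dn (nthG 0 P.N i) a < b) := by
  have hV : ∀ a < 6, psG (nthG 0 P.V i) (15 + a) = 15 + dn (nthG 0 P.N i) a := fun a ha => by
    rw [← qx_ge]
    exact Nat.eq_of_beq_eq_true (alG_spec _ _ (hP.hV i hi) _ (by omega))
  have key : ∀ n ≤ 6, (@Nat.rec (fun _ => ℕ) 0 (fun a ih => Nat.add ih
      (@Bool.rec (fun _ => ℕ) 0 (Nat.pow 2 a) (Nat.blt (psG (nthG 0 P.V i) (Nat.add 15 a))
        (Nat.add 15 b)))) n : ℕ) = idx n fun a => decide (dn (nthG 0 P.N i) a < b) := by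
    intro n
    induction n with
    | zero => intro _; rfl
    | succ n ih =>
      intro hn
      have e1 := hV n (by omega)
      have e2 : Nat.blt (psG (nthG 0 P.V i) (Nat.add 15 n)) (Nat.add 15 b) =
          decide (dn (nthG 0 P.N i) n < b) := by
        show Nat.blt (psG (nthG 0 P.V i) (15 + n)) (15 + b) = _
        rw [e1, Bool.eq_iff_iff, Nat.blt_eq, decide_eq_true_iff]
        omega
      show Nat.add _ (@Bool.rec (fun _ => ℕ) 0 (Nat.pow 2 n)
        (Nat.blt (psG (nthG 0 P.V i) (Nat.add 15 n)) (Nat.add 15 b))) = _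
      rw [ih (by omega), e2, idx]
      cases decide (dn (nthG 0 P.N i) n < b)
      · rw [Bool.toNat_false, mul_zero]
        rfl
      · rw [Bool.toNat_true, mul_one]
        rfl
  exact key 6 le_rfl

/-- The value of the raw tables for a rank. -/
def vrk (W NN : ℕ) (g : ℕ → ℕ) (P : PT) (Rs : List RT) (b Y : ℕ) (z : ℕ → Bool) (i : ℕ) : ℕ :=
  ((nthG RT0 Rs (cpG b (nthG 0 P.V i))).M 0 0).vN W NN g Y z (nthG 0 P.N i)

theorem okRb_spec (hP : P.OK) (hR : ∀ c, (nthG RT0 Rs c).OK W NN g) (b Y : ℕ) (z : ℕ → Bool)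
    (p : Pk) (k m : ℕ) (f : List ℕ) (hks : p.ks.length = m) (hp : (RT0.M k m).okP NN p f = true) :
    ∀ (l : List SB) (c : List ℕ), (∀ S ∈ l, okSB Rs k m S = true) → (∀ i ∈ c, i < 720) →
      okRb NN g P Rs b k m f l c = true →
      vgB W Rs (k + m) (cbk k (kxG Y p.ks) fun r => lf NN (syG p.pr k r) z) l =
        (c.map (vrk W NN g P Rs b Y z)).sum ∧
      oB Rs l = (c.map fun i => (nthG RT0 Rs (cpG b (nthG 0 P.V i))).off).sum
  | [], [], _, _, _ => ⟨rfl, rfl⟩
  | [], _ :: _, _, _, h => absurd (Nat.eq_of_beq_eq_true h) (by simp)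
  | S :: l, [], _, _, h => by
    have e : okRb NN g P Rs b k m f (S :: l) [] = false := rfl
    rw [e] at h
    exact Bool.noConfusion h
  | S :: l, i :: c, hs, hc, h => by
    have e2 : okRb NN g P Rs b k m f (S :: l) (i :: c) =
      ((Nat.beq (cpG b (nthG 0 P.V i)) S.c && ((nthG RT0 Rs S.c).M k m).ok1 NN g
        (nthG 0 P.V i) f S.f) && okRb NN g P Rs b k m f l c) := rfl
    rw [e2, Bool.and_eq_true, Bool.and_eq_true] at h
    obtain ⟨h1, h2⟩ := okRb_spec hP hR b Y z p k m f hks hp l c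
      (fun s' hs' => hs s' (List.mem_cons_of_mem _ hs'))
      (fun i' hi' => hc i' (List.mem_cons_of_mem _ hi')) h.2
    have h3 : cpG b (nthG 0 P.V i) = S.c := Nat.eq_of_beq_eq_true h.1.1
    have h4 := hs S List.mem_cons_self
    unfold okSB at h4
    rw [Bool.and_eq_true, Bool.and_eq_true] at h4
    have h5 := Mk.ok1_spec (M := (nthG RT0 Rs S.c).M k m) (W := W) ((hR S.c).ok0 k m) hP Y z p f
      hks hp S.s S.f h4.2.2 i (hc i List.mem_cons_self) h.1.2
    have e3 : oB Rs (S :: l) = oB Rs l + (nthG RT0 Rs S.c).off := rfl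
    refine ⟨?_, ?_⟩
    · unfold vgB at h1 ⊢
      rw [List.map_cons, List.sum_cons, List.map_cons, List.sum_cons, h1]
      congr 1
      unfold vrk
      rw [h3]
      exact h5
    · rw [e3, List.map_cons, List.sum_cons, h2, h3, add_comm]

theorem okJ_spec (hP : P.OK) (hR : ∀ c, (nthG RT0 Rs c).OK W NN g)
    (hT : ∀ j, (nthG TB0 Ts j).OK W Rs) (b Y : ℕ) (z : ℕ → Bool) (p : PB) (I : IB) (d : JB)
    (hc : ∀ i ∈ d.rk, i < 720) (h : okJ NN g P Rs Ts b p I d = true) :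
    (I.A < 2 ^ (W * 2 ^ (p.k + (I.me + p.ks.length))) ∧ I.e.length = I.me ∧
      ∀ b, Ln W I.A (idx (p.k + (I.me + p.ks.length)) b) ≤ (nthG TB0 Ts d.j).U) ∧
    IB.v W Y p.k p.ks (fun r => lf NN (syG p.pr p.k r) z) I =
      (d.rk.map (vrk W NN g P Rs b Y z)).sum ∧
    (nthG TB0 Ts d.j).o = (d.rk.map fun i => (nthG RT0 Rs (cpG b (nthG 0 P.V i))).off).sum := by
  unfold okJ at h
  simp only [Bool.and_eq_true] at h
  obtain ⟨⟨h1, h2, h3, h4⟩, h5, h6⟩ := h
  have h1 : I.A = (nthG TB0 Ts d.j).A := Nat.eq_of_beq_eq_true h1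
  have h2 : p.k = (nthG TB0 Ts d.j).k := Nat.eq_of_beq_eq_true h2
  have h3 : I.me + p.ks.length = (nthG TB0 Ts d.j).m := Nat.eq_of_beq_eq_true h3
  have h4 : I.e.length = I.me := Nat.eq_of_beq_eq_true h4
  have hTj := hT d.j
  have hks : (I.e ++ p.ks).length = (nthG TB0 Ts d.j).m := by
    rw [List.length_append, h4, h3]
  obtain ⟨g1, g2⟩ := okRb_spec hP hR b Y z ⟨I.e ++ p.ks, p.pr⟩ _ _ d.fp hks h5 _ d.rk hTj.sb hc h6
  refine ⟨⟨?_, h4, ?_⟩, ?_, ?_⟩
  · rw [h1, h2, h3]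
    exact hTj.lt
  · rw [h1, h2, h3]
    exact hTj.le
  · unfold IB.v
    rw [h1, h3, ← g1]
    show Ln W _ (idx (p.k + _) (cbk p.k _ _)) = _
    rw [h2]
    exact hTj.val _
  · rw [hTj.off, g2]

/-- The arrays of the inner terms. -/
theorem aiG_ar (hP : P.OK) (hW : 0 < W) (hR : ∀ c, (nthG RT0 Rs c).OK W NN g)
    (hT : ∀ j, (nthG TB0 Ts j).OK W Rs) (b Y : ℕ) (p : PB) : ∀ (l : List IB) (ds : List JB),
    (∀ i ∈ rJs ds, i < 720) → okJs NN g P Rs Ts b p l ds = true → uJs Ts ds < 2 ^ W →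
    (Ar W p.k (aiG W Y p.k (kxG Y p.ks) l) fun c => (l.map (IB.v W Y p.k p.ks c)).sum) ∧
    (∀ c, (l.map (IB.v W Y p.k p.ks c)).sum ≤ uJs Ts ds) ∧
    (∀ z, (l.map (IB.v W Y p.k p.ks fun r => lf NN (syG p.pr p.k r) z)).sum =
      ((rJs ds).map (vrk W NN g P Rs b Y z)).sum) ∧
    oJs Ts ds = ((rJs ds).map fun i => (nthG RT0 Rs (cpG b (nthG 0 P.V i))).off).sum
  | [], [], _, _, _ => ⟨(ar_zero _).congr fun b => rfl, fun c => le_rfl, fun z => rfl, rfl⟩
  | [], _ :: _, _, h, _ => absurd (Nat.eq_of_beq_eq_true h) (by simp)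
  | I :: l, [], _, h, _ => by
    have e : okJs NN g P Rs Ts b p (I :: l) [] = false := rfl
    rw [e] at h
    exact Bool.noConfusion h
  | I :: l, d :: ds, hc, h, hs => by
    have e2 : okJs NN g P Rs Ts b p (I :: l) (d :: ds) =
      (okJ NN g P Rs Ts b p I d && okJs NN g P Rs Ts b p l ds) := rfl
    rw [e2, Bool.and_eq_true] at h
    have e3 : rJs (d :: ds) = d.rk ++ rJs ds := rfl
    have e4 : uJs Ts (d :: ds) = (nthG TB0 Ts d.j).U + uJs Ts ds := rfl
    have e5 : oJs Ts (d :: ds) = (nthG TB0 Ts d.j).o + oJs Ts ds := rfl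
    rw [e3] at hc
    obtain ⟨h1, h2, h3, h4⟩ := aiG_ar hP hW hR hT b Y p l ds
      (fun i hi => hc i (List.mem_append.mpr (Or.inr hi))) h.2 (by omega)
    have hJ := fun z => okJ_spec hP hR hT b Y z p I d
      (fun i hi => hc i (List.mem_append.mpr (Or.inl hi))) h.1
    obtain ⟨⟨g1, g2, g3⟩, _, g5⟩ := hJ fun _ => false
    have hk := kxG_lt Y (I.e ++ p.ks)
    rw [List.length_append, g2] at hk
    have hT' : Ar W (p.k + (I.me + p.ks.length)) I.A
      fun b => Ln W I.A (idx (p.k + (I.me + p.ks.length)) b) := ⟨g1, fun b => rfl⟩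
    have h6 := slG_ar hW hT' (kxG Y (I.e ++ p.ks)) hk
    have hle : ∀ c, IB.v W Y p.k p.ks c I ≤ (nthG TB0 Ts d.j).U := fun c => g3 _
    refine ⟨?_, fun c => ?_, fun z => ?_, ?_⟩
    · have e1 : aiG W Y p.k (kxG Y p.ks) (I :: l) = aiG W Y p.k (kxG Y p.ks) l +
        slG W p.k I.A (kxG Y I.e + 2 ^ I.me * kxG Y p.ks) := rfl
      rw [e1]
      conv in 2 ^ I.me => rw [← g2]
      rw [← kxG_append]
      refine (h1.add h6 hW fun c => ?_).congr fun c => ?_
      · have f1 := h2 c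
        have f2 : Ln W I.A (idx (p.k + (I.me + p.ks.length))
            fun r => if r < p.k then c r else (kxG Y (I.e ++ p.ks)).testBit (r - p.k)) ≤
            (nthG TB0 Ts d.j).U := g3 _
        omega
      · rw [List.map_cons, List.sum_cons, add_comm]
        rfl
    · rw [List.map_cons, List.sum_cons, e4]
      exact add_le_add (hle c) (h2 c)
    · rw [List.map_cons, List.sum_cons, h3 z, (hJ z).2.1, e3, List.map_append, List.sum_append]
    · rw [e5, e3, List.map_append, List.sum_append, ← h4, g5]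

/-- The arrays of the placements. -/
theorem apG_ar (hP : P.OK) (hW : 0 < W) (hR : ∀ c, (nthG RT0 Rs c).OK W NN g)
    (hT : ∀ j, (nthG TB0 Ts j).OK W Rs) (b Y : ℕ) : ∀ (l : List PB) (ds : List (List JB)),
    (∀ i ∈ rJs ds.flatten, i < 720) → okPs NN g P Rs Ts b l ds = true →
    uJs Ts ds.flatten < 2 ^ W →
    (Ar W NN (apG W Y l) fun z => vpL W NN Y z l) ∧
    (∀ z, vpL W NN Y z l ≤ uJs Ts ds.flatten) ∧
    (∀ z, vpL W NN Y z l = ((rJs ds.flatten).map (vrk W NN g P Rs b Y z)).sum) ∧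
    oJs Ts ds.flatten =
      ((rJs ds.flatten).map fun i => (nthG RT0 Rs (cpG b (nthG 0 P.V i))).off).sum
  | [], [], _, _, _ => ⟨(ar_zero _).congr fun b => rfl, fun c => le_rfl, fun z => rfl, rfl⟩
  | [], _ :: _, _, h, _ => absurd (Nat.eq_of_beq_eq_true h) (by simp)
  | p :: l, [], _, h, _ => by
    have e : okPs NN g P Rs Ts b (p :: l) [] = false := rfl
    rw [e] at h
    exact Bool.noConfusion h
  | p :: l, d :: ds, hc, h, hs => by
    have e2 : okPs NN g P Rs Ts b (p :: l) (d :: ds) =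
      (((okR p.pr p.k && Nat.beq (ndG p.pr p.k) NN) && okJs NN g P Rs Ts b p p.I d) &&
        okPs NN g P Rs Ts b l ds) := rfl
    rw [e2, Bool.and_eq_true, Bool.and_eq_true, Bool.and_eq_true] at h
    obtain ⟨⟨⟨h1, h2⟩, h3⟩, h4⟩ := h
    have h2 := Nat.eq_of_beq_eq_true h2
    have e3 : rJs (d :: ds).flatten = rJs d ++ rJs ds.flatten := by
      unfold rJs
      rw [List.flatten_cons, List.map_append, List.flatten_append]
    have e4 : uJs Ts (d :: ds).flatten = uJs Ts d + uJs Ts ds.flatten := by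
      unfold uJs
      rw [List.flatten_cons, List.map_append, List.sum_append]
    have e5 : oJs Ts (d :: ds).flatten = oJs Ts d + oJs Ts ds.flatten := by
      unfold oJs
      rw [List.flatten_cons, List.map_append, List.sum_append]
    rw [e3] at hc
    rw [e4] at hs
    obtain ⟨g1, g2, g3, g4⟩ := apG_ar hP hW hR hT b Y l ds
      (fun i hi => hc i (List.mem_append.mpr (Or.inr hi))) h4 (by omega)
    obtain ⟨f1, f2, f3, f4⟩ := aiG_ar hP hW hR hT b Y p p.I d
      (fun i hi => hc i (List.mem_append.mpr (Or.inl hi))) h3 (by omega)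
    have f5 := it_ar hW h1 h2 f1
    have e6 : ∀ z, vpL W NN Y z (p :: l) = p.v W NN Y z + vpL W NN Y z l := fun z => by
      unfold vpL
      rw [List.map_cons, List.sum_cons]
    have hle : ∀ z, p.v W NN Y z ≤ uJs Ts d := fun z => f2 _
    refine ⟨?_, fun z => ?_, fun z => ?_, ?_⟩
    · have e1 : apG W Y (p :: l) = apG W Y l + ruG W p.pr p.k (aiG W Y p.k (kxG Y p.ks) p.I) := rfl
      rw [e1]
      refine (g1.add f5 hW fun z => ?_).congr fun z => ?_
      · have := g2 z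
        have := hle z
        unfold PB.v at this
        omega
      · rw [e6, add_comm]
        rfl
    · rw [e6, e4]
      exact add_le_add (hle z) (g2 z)
    · rw [e6, e3, List.map_append, List.sum_append, ← g3 z, ← f3 z]
      rfl
    · rw [e5, e3, List.map_append, List.sum_append, ← g4, ← f4]

end pl

end Pool.Agent.Lib.MP_afdd4d_co.K9.W6
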