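import Pool.Agent.Lib.MP_afdd4d_co.K9.W6Chk

/-!
# Families of terms

Sums of table entries over a list of placements. The table is chosen by some colours and some
differences of the window, its lanes by some further bits (of the even 4-graph or of the marks); the
placements have two levels, the inner one with small arrays.
-/

namespace Pool.Agent.Lib.MP_afdd4d_co.K9.W6

open Finset K8
open Pool.Agent.Lib.MP_afdd4d_co.K9.Star

/-! ### Keys -/

/-- The number with the bits of `X` at the positions of a list. -/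
def kyG (X : ℕ) (l : List ℕ) : ℕ :=
  @List.rec ℕ (fun _ => ℕ) 0 (fun r _ ih => Nat.add (bn X r) (Nat.mul 2 ih)) l

theorem kyG_cons (X r : ℕ) (l : List ℕ) : kyG X (r :: l) = (X.testBit r).toNat + 2 * kyG X l := by
  have e : kyG X (r :: l) = bn X r + 2 * kyG X l := rfl
  rw [e, bn_eq]

theorem kyG_lt (X : ℕ) : ∀ l : List ℕ, kyG X l < 2 ^ l.length
  | [] => Nat.one_pos
  | r :: l => by
    have h := kyG_lt X l
    have h2 := RD.tn_le (X.testBit r)
    rw [kyG_cons, List.length_cons, pow_succ]
    omega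

theorem kyG_bit (X : ℕ) : ∀ (l : List ℕ) (i : ℕ), i < l.length →
    (kyG X l).testBit i = X.testBit (nthG 0 l i)
  | [], i, h => absurd h (Nat.not_lt_zero i)
  | r :: l, 0, _ => by
    rw [kyG_cons, Nat.testBit_zero]
    have e : nthG 0 (r :: l) 0 = r := rfl
    rw [e]
    cases X.testBit r <;> simp
  | r :: l, i + 1, h => by
    have e : nthG 0 (r :: l) (i + 1) = nthG 0 l i := rfl
    rw [kyG_cons, e, ← kyG_bit X l i (by simpa using h), Nat.testBit_succ]
    congr 1
    have h2 := RD.tn_le (X.testBit r)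
    omega

/-! ### Families -/

/-- An inner placement: the positions of the colours, of the differences, the program. -/
structure Pl where
  xs : List ℕ
  js : List ℕ
  pr : List (ℕ × ℕ × ℕ)

/-- A family: numbers of bits of the tables, of the differences, of the inner arrays; the placements;
the tables by colours, packed over the differences. -/
structure Fm where
  k : ℕ
  nj : ℕ
  k' : ℕ
  pl : List (List Pl × List (ℕ × ℕ × ℕ))
  T : List ℕ

namespace Fm

/-- The array of an inner placement. -/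
def a0 (F : Fm) (W X J : ℕ) (p : Pl) : ℕ :=
  ruG W p.pr F.k (slG W F.k (nthG 0 F.T (kyG X p.xs)) (kyG J p.js))

/-- The array of the inner placements. -/
def a1 (F : Fm) (W X J : ℕ) (l : List Pl) : ℕ :=
  @List.rec Pl (fun _ => ℕ) 0 (fun p _ ih => Nat.add ih (F.a0 W X J p)) l

/-- The array of a list of outer placements. -/
def a2 (F : Fm) (W X J : ℕ) (l : List (List Pl × List (ℕ × ℕ × ℕ))) : ℕ :=
  @List.rec (List Pl × List (ℕ × ℕ × ℕ)) (fun _ => ℕ) 0
    (fun p _ ih => Nat.add ih (ruG W p.2 F.k' (F.a1 W X J p.1))) l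

/-- The array of a family. -/
def aG (F : Fm) (W X J : ℕ) : ℕ := F.a2 W X J F.pl

/-- The value of an inner placement. -/
def v0 (F : Fm) (v : ℕ → ℕ → (ℕ → Bool) → ℕ) (X J : ℕ) (b : ℕ → Bool) (p : Pl) : ℕ :=
  v (kyG X p.xs) (kyG J p.js) fun r => lf F.k' (syG p.pr F.k r) b

/-- The value of the inner placements. -/
def v1 (F : Fm) (v : ℕ → ℕ → (ℕ → Bool) → ℕ) (X J : ℕ) (b : ℕ → Bool) (l : List Pl) : ℕ :=
  (l.map (F.v0 v X J b)).sum

/-- The value of a list of outer placements. -/
def v2 (F : Fm) (v : ℕ → ℕ → (ℕ → Bool) → ℕ) (N X J : ℕ) (b : ℕ → Bool)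
    (l : List (List Pl × List (ℕ × ℕ × ℕ))) : ℕ :=
  (l.map fun p => F.v1 v X J (fun r => lf N (syG p.2 F.k' r) b) p.1).sum

/-- The number of placements. -/
def np (l : List (List Pl × List (ℕ × ℕ × ℕ))) : ℕ := (l.map fun p => p.1.length).sum

/-- The conditions on a family. -/
structure OK (F : Fm) (W N : ℕ) (v : ℕ → ℕ → (ℕ → Bool) → ℕ) (U nx : ℕ) : Prop where
  hT : ∀ x < 2 ^ nx, Ar W (F.k + F.nj) (nthG 0 F.T x) fun b =>
    v x (idx F.nj fun r => b (F.k + r)) b
  hv : ∀ x j b b', (∀ r < F.k, b r = b' r) → v x j b = v x j b'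
  hU : ∀ x j b, v x j b ≤ U
  hp : ∀ p ∈ F.pl, (okR p.2 F.k' = true ∧ ndG p.2 F.k' = N) ∧ ∀ p' ∈ p.1,
    p'.xs.length = nx ∧ p'.js.length = F.nj ∧ okR p'.pr F.k = true ∧ ndG p'.pr F.k = F.k'

section
variable {F : Fm} {W N : ℕ} {v : ℕ → ℕ → (ℕ → Bool) → ℕ} {U nx : ℕ}

theorem a0_ar (h : F.OK W N v U nx) (hW : 0 < W) (X J : ℕ) (p : Pl)
    (hp : p.xs.length = nx ∧ p.js.length = F.nj ∧ okR p.pr F.k = true ∧ ndG p.pr F.k = F.k') :
    Ar W F.k' (F.a0 W X J p) fun b => F.v0 v X J b p := by
  obtain ⟨h1, h2, h3, h4⟩ := hp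
  have hx := kyG_lt X p.xs
  have hj := kyG_lt J p.js
  rw [h1] at hx
  rw [h2] at hj
  have e1 := slG_ar hW (h.hT _ hx) (kyG J p.js) hj
  have e2 : Ar W F.k (slG W F.k (nthG 0 F.T (kyG X p.xs)) (kyG J p.js))
      fun b => v (kyG X p.xs) (kyG J p.js) b := by
    refine e1.congr fun b => ?_
    have e3 : idx F.nj (fun r => if F.k + r < F.k then b (F.k + r) else
        (kyG J p.js).testBit (F.k + r - F.k)) = kyG J p.js := by
      rw [← idx_testBit F.nj (kyG J p.js) hj]
      apply idx_congr
      intro r hr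
      rw [if_neg (by omega), Nat.add_sub_cancel_left, idx_testBit F.nj (kyG J p.js) hj]
    rw [e3]
    apply h.hv
    intro r hr
    rw [if_pos hr]
  exact it_ar hW h3 h4 e2

theorem v0_le (h : F.OK W N v U nx) (X J : ℕ) (b : ℕ → Bool) (p : Pl) : F.v0 v X J b p ≤ U :=
  h.hU _ _ _

theorem v1_le (h : F.OK W N v U nx) (X J : ℕ) (b : ℕ → Bool) : ∀ l : List Pl,
    F.v1 v X J b l ≤ l.length * U
  | [] => Nat.zero_le _
  | p :: l => by
    have e : F.v1 v X J b (p :: l) = F.v0 v X J b p + F.v1 v X J b l := by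
      unfold v1
      rw [List.map_cons, List.sum_cons]
    have h1 := v1_le h X J b l
    have h2 := v0_le h X J b p
    have h3 : (p :: l).length * U = l.length * U + U := by
      rw [List.length_cons, Nat.succ_mul]
    omega

theorem a1_ar (h : F.OK W N v U nx) (hW : 0 < W) (X J : ℕ) : ∀ l : List Pl,
    (∀ p ∈ l, p.xs.length = nx ∧ p.js.length = F.nj ∧ okR p.pr F.k = true ∧
      ndG p.pr F.k = F.k') → l.length * U < 2 ^ W →
    Ar W F.k' (F.a1 W X J l) fun b => F.v1 v X J b l
  | [], _, _ => (ar_zero _).congr fun b => rfl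
  | p :: l, hp, hs => by
    have h3 : (p :: l).length * U = l.length * U + U := by
      rw [List.length_cons, Nat.succ_mul]
    have h1 := a1_ar h hW X J l (fun p' hp' => hp p' (List.mem_cons_of_mem _ hp')) (by omega)
    have h2 := a0_ar h hW X J p (hp p List.mem_cons_self)
    have e : F.a1 W X J (p :: l) = F.a1 W X J l + F.a0 W X J p := rfl
    rw [e]
    refine (h1.add h2 hW fun b => ?_).congr fun b => ?_
    · have h4 := v1_le h X J b l
      have h5 := v0_le h X J b p
      omega
    · unfold v1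
      rw [List.map_cons, List.sum_cons, add_comm]

theorem v2_le (h : F.OK W N v U nx) (X J : ℕ) (b : ℕ → Bool) :
    ∀ l : List (List Pl × List (ℕ × ℕ × ℕ)), F.v2 v N X J b l ≤ np l * U
  | [] => Nat.zero_le _
  | p :: l => by
    have e : F.v2 v N X J b (p :: l) =
        F.v1 v X J (fun r => lf N (syG p.2 F.k' r) b) p.1 + F.v2 v N X J b l := by
      unfold v2
      rw [List.map_cons, List.sum_cons]
    have h1 := v2_le h X J b l
    have h2 := v1_le h X J (fun r => lf N (syG p.2 F.k' r) b) p.1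
    have h3 : np (p :: l) * U = p.1.length * U + np l * U := by
      unfold np
      rw [List.map_cons, List.sum_cons, Nat.add_mul]
    omega

theorem a2_ar (h : F.OK W N v U nx) (hW : 0 < W) (X J : ℕ) :
    ∀ l : List (List Pl × List (ℕ × ℕ × ℕ)), (∀ p ∈ l, p ∈ F.pl) → np l * U < 2 ^ W →
    Ar W N (F.a2 W X J l) fun b => F.v2 v N X J b l
  | [], _, _ => (ar_zero _).congr fun b => rfl
  | p :: l, hp, hs => by
    have h3 : np (p :: l) * U = p.1.length * U + np l * U := by
      unfold np
      rw [List.map_cons, List.sum_cons, Nat.add_mul]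
    have h1 := a2_ar h hW X J l (fun p' hp' => hp p' (List.mem_cons_of_mem _ hp')) (by omega)
    obtain ⟨h4, h5⟩ := h.hp p (hp p List.mem_cons_self)
    have h2 := it_ar hW h4.1 h4.2 (a1_ar h hW X J p.1 h5 (by omega))
    have e : F.a2 W X J (p :: l) = F.a2 W X J l + ruG W p.2 F.k' (F.a1 W X J p.1) := rfl
    rw [e]
    refine (h1.add h2 hW fun b => ?_).congr fun b => ?_
    · have h6 := v2_le h X J b l
      have h7 := v1_le h X J (fun r => lf N (syG p.2 F.k' r) b) p.1
      omega
    · unfold v2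
      rw [List.map_cons, List.sum_cons, add_comm]

end

end Fm

/-! ### Lists of families -/

/-- A family with its values, the bound of the values and the number of colours. -/
structure Fv where
  F : Fm
  v : ℕ → ℕ → (ℕ → Bool) → ℕ
  U : ℕ
  nx : ℕ

/-- The array of a list of families. -/
def asG (W X J : ℕ) (L : List Fv) : ℕ :=
  @List.rec Fv (fun _ => ℕ) 0 (fun f _ ih => Nat.add ih (f.F.aG W X J)) L

/-- The value of a list of families. -/
def vsL (N X J : ℕ) (b : ℕ → Bool) (L : List Fv) : ℕ :=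
  (L.map fun f => f.F.v2 f.v N X J b f.F.pl).sum

/-- The bound of the value of a list of families. -/
def usL (L : List Fv) : ℕ := (L.map fun f => Fm.np f.F.pl * f.U).sum

section
variable {W N : ℕ}

theorem vsL_le (X J : ℕ) (b : ℕ → Bool) : ∀ L : List Fv,
    (∀ f ∈ L, f.F.OK W N f.v f.U f.nx) → vsL N X J b L ≤ usL L
  | [], _ => Nat.zero_le _
  | f :: L, h => by
    have h1 := vsL_le X J b L fun f' hf' => h f' (List.mem_cons_of_mem _ hf')
    have h2 := Fm.v2_le (h f List.mem_cons_self) X J b f.F.pl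
    unfold vsL usL at *
    rw [List.map_cons, List.sum_cons, List.map_cons, List.sum_cons]
    exact add_le_add h2 h1

theorem asG_ar (hW : 0 < W) (X J : ℕ) : ∀ L : List Fv,
    (∀ f ∈ L, f.F.OK W N f.v f.U f.nx) → usL L < 2 ^ W →
    Ar W N (asG W X J L) fun b => vsL N X J b L
  | [], _, _ => (ar_zero _).congr fun b => rfl
  | f :: L, h, hs => by
    have h3 : usL (f :: L) = Fm.np f.F.pl * f.U + usL L := by
      unfold usL
      rw [List.map_cons, List.sum_cons]
    have h1 := asG_ar hW X J L (fun f' hf' => h f' (List.mem_cons_of_mem _ hf')) (by omega)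
    have h2 := Fm.a2_ar (h f List.mem_cons_self) hW X J f.F.pl (fun _ hp => hp) (by omega)
    have e : asG W X J (f :: L) = asG W X J L + f.F.a2 W X J f.F.pl := rfl
    rw [e]
    refine (h1.add h2 hW fun b => ?_).congr fun b => ?_
    · have h6 := vsL_le X J b L fun f' hf' => h f' (List.mem_cons_of_mem _ hf')
      have h7 := Fm.v2_le (h f List.mem_cons_self) X J b f.F.pl
      omega
    · unfold vsL
      rw [List.map_cons, List.sum_cons, add_comm]

/-- The check that the value of a list of families is at least `c` for all marks. -/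
def mkG (W N : ℕ) (L : List Fv) (X J c : ℕ) : Bool := geG W N c (asG W X J L)

theorem mkG_spec (hW : 2 ≤ W) (L : List Fv) (hL : ∀ f ∈ L, f.F.OK W N f.v f.U f.nx)
    (hs : usL L < 2 ^ (W - 1)) (X J c : ℕ) (h : mkG W N L X J c = true) (b : ℕ → Bool) :
    c ≤ vsL N X J b L := by
  have h2W : 2 ^ W = 2 ^ (W - 1) + 2 ^ (W - 1) := by
    conv_lhs => rw [show W = W - 1 + 1 by omega]
    rw [pow_succ]
    ring
  exact geG_spec hW (asG_ar (by omega) X J L hL (by omega))
    (fun b => lt_of_le_of_lt (vsL_le X J b L hL) hs) h b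

end

end Pool.Agent.Lib.MP_afdd4d_co.K9.W6
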