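import Pool.Agent.Lib.MP_afdd4d_co.K9.W6Rc
import Pool.Agent.Lib.MP_afdd4d_co.K9.TwMove
import Pool.Agent.Lib.MP_afdd4d_co.K9.TwKer

/-!
# The terms of the changes of one triple have almost nonnegative average
-/

namespace Pool.Agent.Lib.MP_afdd4d_co.K9.W6

open Finset K8
open Pool.Agent.Lib.MP_afdd4d_co.K9.Star
open Pool.Agent.Lib.MP_afdd4d_co.K9.Star.Tw

/-- The check of a raw table of a change of one triple. -/
def okR1 (W : ℕ) (R : RT) : Bool :=
  (Nat.beq R.P 0 && Nat.beq R.Q 0) ||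
  ((Nat.beq R.k 4 && Nat.beq R.m 6) && ((R.pe == [[0], [1], [2], [3]]) &&
    (R.pq == [[0], [1], [2], [3], [4], [5]])) &&
    (Nat.beq R.Q (Nat.shiftLeft R.P (Nat.mul W 512)) && Nat.blt R.P (Nat.pow 2 (Nat.mul W 512))))

/-- The check of the raw tables of a change of one triple. -/
def o1ck (L : LT) (W : ℕ) : Bool := (List.range 64).all fun c =>
  okR1 W (nthG RT0 L.Rs c) && Nat.beq (nthG RT0 L.Rs c).P (nthG RT0 L.Rs (Nat.mod c 32)).P

theorem xrB_one (b : ℕ → Bool) (s : ℕ) : xrB b [s] = b s := by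
  show (b s ^^ false) = b s
  rw [Bool.xor_false]

theorem okR1_val {W : ℕ} {R : RT} (h : okR1 W R = true) (e y : ℕ → Bool) :
    (R.M 0 0).val W e y =
      (1 - 2 * ((y 5).toNat : ℤ)) * (Ln W R.P (idx 9 fun r => if r < 4 then e r else y (r - 4)) : ℤ) := by
  unfold okR1 at h
  rw [Bool.or_eq_true] at h
  rcases h with h | h
  · rw [Bool.and_eq_true] at h
    have h1 : R.P = 0 := Nat.eq_of_beq_eq_true h.1
    have h2 : R.Q = 0 := Nat.eq_of_beq_eq_true h.2
    unfold Mk.val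
    rw [show (R.M 0 0).P = 0 from h1, show (R.M 0 0).Q = 0 from h2, h1]
    simp only [Ln_zero_left]
    norm_num
  · rw [Bool.and_eq_true, Bool.and_eq_true, Bool.and_eq_true, Bool.and_eq_true,
      Bool.and_eq_true] at h
    obtain ⟨⟨⟨h1, h2⟩, h3, h4⟩, h5, h6⟩ := h
    have h1 : R.k = 4 := Nat.eq_of_beq_eq_true h1
    have h2 : R.m = 6 := Nat.eq_of_beq_eq_true h2
    have h3 : R.pe = [[0], [1], [2], [3]] := eq_of_beq h3
    have h4 : R.pq = [[0], [1], [2], [3], [4], [5]] := eq_of_beq h4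
    have h5 : R.Q = R.P <<< (W * 512) := Nat.eq_of_beq_eq_true h5
    rw [Nat.blt_eq] at h6
    have h6 : R.P < 2 ^ (W * 512) := h6
    have e1 : (R.M 0 0).k + (R.M 0 0).m = 9 + 1 := by
      show R.k + R.m = _
      rw [h1, h2]
    have e2 : ∀ r < 10, (if r < (R.M 0 0).k then xrB e (nthG [] (R.M 0 0).pe r)
        else xrB y (nthG [] (R.M 0 0).pq (r - (R.M 0 0).k))) =
        if r < 4 then e r else y (r - 4) := by
      intro r hr
      show (if r < R.k then xrB e (nthG [] R.pe r) else xrB y (nthG [] R.pq (r - R.k))) = _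
      rw [h1, h3, h4]
      interval_cases r <;> first | exact xrB_one e _ | exact xrB_one y _
    have e3 : (idx ((R.M 0 0).k + (R.M 0 0).m) fun r => if r < (R.M 0 0).k then
        xrB e (nthG [] (R.M 0 0).pe r) else xrB y (nthG [] (R.M 0 0).pq (r - (R.M 0 0).k))) =
        (idx 9 fun r => if r < 4 then e r else y (r - 4)) + 2 ^ 9 * (y 5).toNat := by
      rw [e1]
      have e4 := idx_congr 10 _ _ e2
      rw [e4, idx]
      rfl
    have hlt : (idx 9 fun r => if r < 4 then e r else y (r - 4)) < 512 := idx_lt 9 _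
    unfold Mk.val
    rw [e3, show (R.M 0 0).P = R.P from rfl, show (R.M 0 0).Q = R.P <<< (W * 512) from h5]
    cases y 5 with
    | false =>
      rw [Bool.toNat_false, mul_zero, add_zero, Ln_shl, if_pos hlt]
      push_cast
      ring
    | true =>
      rw [Bool.toNat_true, mul_one, Ln_eq_zero_of_lt W R.P 512 _ h6 (by omega), Ln_shl,
        if_neg (by omega)]
      have e5 : (idx 9 fun r => if r < 4 then e r else y (r - 4)) + 2 ^ 9 - 512 =
          idx 9 fun r => if r < 4 then e r else y (r - 4) := by omega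
      rw [e5]
      push_cast
      ring

/-- The quadruples of the roots. -/
def q5F (s : ℕ) : Finset (Fin (3 + 2)) :=
  univ.filter fun i => (Fin.castAdd 1 i : Fin 6) ∈ q6 6 s

theorem q5F_im : ∀ s < 5, (q5F s).image (Fin.castAdd (0 + 1) : Fin (3 + 2) → Fin (3 + 2 + (0 + 1))) =
    (q6 6 s : Finset (Fin 6)) := by
  decide +kernel

theorem q5_im : (univ.image (eq4 3 0) : Finset (Fin (3 + 2 + (0 + 1)))) = (q6 6 5 : Finset (Fin 6)) := by
  decide +kernel

/-- The bits of the index from the data of the roots. -/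
def o1b (D : WD (3 + 2)) (r : ℕ) : Bool :=
  if r < 4 then D.r (q5F r) else (D.e (q5F (r - 4)) ^^ D.r (q5F (r - 4)))

/-- The multiplier of the roots. -/
def o1F (L : LT) (W : ℕ) (D : WD (3 + 2)) : ℕ :=
  Ln W (nthG RT0 L.Rs (idx 5 fun a => D.c (Fin.ofNat 5 a))).P (idx 9 (o1b D))

/-- The multiplier with its bound. -/
def o1Mu (L : LT) (W : ℕ) : MuX (3 + 2) := ⟨o1F L W, 2 ^ W, fun _ => (Ln_lt _ _ _).le⟩

/-- A parameter of the marks. -/
def P00 : ParX := ⟨0, 0, 0, 0, 0, 0, 0, 0, 0, 0⟩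

/-- The terms of the changes of one triple. -/
theorem goodP_o1 {Cx : X3} (hO : OptC3 Cx 1 1) (L : LT) (W : ℕ) (h : o1ck L W = true) :
    GoodP Cx (fun H E χ t => L.f W H E χ t) := by
  have h0 := good_mvF (i := 3) (j := 0) rfl 1 1 hO (o1Mu L W) (Rl.of0 fun _ => true) P00
    (fun i => i) Function.injective_id
  refine h0.mono fun {n} H E χ _ t ht => le_of_eq ?_
  have e0 : (t ∘ fun i : Fin (3 + 2 + (0 + 1)) => (i : Fin 6)) = t := rfl
  rw [e0, mvF_win 1 1 (o1Mu L W) (Rl.of0 fun _ => true) P00 H E χ t ht]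
  have hall := List.all_eq_true.mp h
  have hc : (idx 6 fun a => yJ H E χ t (15 + a)) < 64 := idx_lt 6 _
  have h1 := hall _ (List.mem_range.mpr hc)
  rw [Bool.and_eq_true] at h1
  obtain ⟨h1, h2⟩ := h1
  have h2 := Nat.eq_of_beq_eq_true h2
  unfold LT.f LT.val
  rw [okR1_val h1, h2]
  have e1 : Nat.mod (idx 6 fun a => yJ H E χ t (15 + a)) 32 =
      idx 5 fun a => (wt P00 H E χ t).c ((Fin.castAdd (0 + 1) : Fin (3 + 2) → _) (Fin.ofNat 5 a)) := by
    have e2 : (idx 6 fun a => yJ H E χ t (15 + a)) =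
        (idx 5 fun a => yJ H E χ t (15 + a)) + 2 ^ 5 * (yJ H E χ t (15 + 5)).toNat := rfl
    rw [e2]
    show ((idx 5 fun a => yJ H E χ t (15 + a)) + 2 ^ 5 * (yJ H E χ t (15 + 5)).toNat) % 32 = _
    have hlt : (idx 5 fun a => yJ H E χ t (15 + a)) < 32 := idx_lt 5 _
    have e3 : ((idx 5 fun a => yJ H E χ t (15 + a)) + 2 ^ 5 * (yJ H E χ t (15 + 5)).toNat) % 32 =
        idx 5 fun a => yJ H E χ t (15 + a) := by
      omega
    rw [e3]
    apply idx_congr
    intro a ha
    unfold yJ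
    rw [if_neg (by omega), Nat.add_sub_cancel_left]
    show χ (t (Fin.ofNat 6 a)) = χ (t _)
    congr 2
    apply Fin.ext
    show a % 6 = a % 5
    rw [Nat.mod_eq_of_lt (by omega), Nat.mod_eq_of_lt (by omega)]
  have e2 : (idx 9 fun r => if r < 4 then eE E t r else yJ H E χ t (r - 4)) =
      idx 9 (o1b ((wt P00 H E χ t).sub (Fin.castAdd (0 + 1)))) := by
    apply idx_congr
    intro r hr
    unfold o1b
    by_cases h4 : r < 4
    · rw [if_pos h4, if_pos h4]
      show zb E t (q6 6 r) = zb E t ((q5F r).image _)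
      rw [q5F_im r (by omega)]
    · rw [if_neg h4, if_neg h4]
      unfold yJ
      rw [if_pos (by omega)]
      show (zb H t (q6 6 (r - 4)) ^^ zb E t (q6 6 (r - 4))) =
        (zb H t ((q5F (r - 4)).image _) ^^ zb E t ((q5F (r - 4)).image _))
      rw [q5F_im (r - 4) (by omega)]
  have e3 : yJ H E χ t 5 = (zb H t (q6 6 5) ^^ zb E t (q6 6 5)) := rfl
  rw [e1, e2, e3]
  unfold mvV
  have e4 : ∑ a : Fin (0 + 1), bz ((Rl.of0 (i := 3) fun _ => true).F
      ((wt P00 H E χ t).sub (ea 3 0 a))) = 1 := by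
    rw [Fin.sum_univ_one]
    rfl
  rw [if_pos e4, dw_one, mul_comm]
  congr 1

end Pool.Agent.Lib.MP_afdd4d_co.K9.W6
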