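import Pool.Agent.Lib.MP_afdd4d_co.K9.W6G2
import Pool.Agent.Lib.MP_afdd4d_co.K9.TwMM

/-!
# Terms with a multiplier of the roots and a factor of the free vertices
-/

namespace Pool.Agent.Lib.MP_afdd4d_co.K9.W6

open Finset K8
open Pool.Agent.Lib.MP_afdd4d_co.K9.Star
open Pool.Agent.Lib.MP_afdd4d_co.K9.Star.Tw

/-! ### Indices -/

theorem idx_cut (m n : ℕ) (b : ℕ → Bool) :
    idx (m + n) b = idx m b + 2 ^ m * idx n (fun r => b (m + r)) := by
  induction n with
  | zero => simp [idx]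
  | succ n ih =>
    rw [← Nat.add_assoc, idx, ih, idx, pow_add]
    ring

theorem idx_mod (m n : ℕ) (b : ℕ → Bool) : idx (m + n) b % 2 ^ m = idx m b := by
  rw [idx_cut, Nat.add_mul_mod_self_left, Nat.mod_eq_of_lt (idx_lt m b)]

theorem idx_div (m n : ℕ) (b : ℕ → Bool) : idx (m + n) b / 2 ^ m = idx n (fun r => b (m + r)) := by
  rw [idx_cut, Nat.add_mul_div_left _ _ (Nat.two_pow_pos m), Nat.div_eq_of_lt (idx_lt m b),
    Nat.zero_add]

/-! ### Tables -/

/-- The check of the forms of a raw table: the lanes and the keys are single quadruples. -/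
def okRf (pe pq : List ℕ) (R : RT) : Bool :=
  (Nat.beq R.P 0 && Nat.beq R.Q 0) ||
  ((Nat.beq R.k pe.length && Nat.beq R.m pq.length) &&
    ((R.pe == pe.map fun s => [s]) && (R.pq == pq.map fun s => [s])))

/-- The bits of the index. -/
def fb (pe pq : List ℕ) (e y : ℕ → Bool) (r : ℕ) : Bool :=
  if r < pe.length then e (nthG 0 pe r) else y (nthG 0 pq (r - pe.length))

/-- The check of a term: the value is a multiplier of the colours of the first vertices and of the
first bits of the index times a factor of the other colours and of the other bits. -/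
def colck (L : LT) (W : ℕ) (pe pq : List ℕ) (nr nb : ℕ) (MU : List ℕ) (h : ℕ → ℕ → ℤ) : Bool :=
  (List.range 64).all fun c => okRf pe pq (nthG RT0 L.Rs c) &&
    (List.range (2 ^ (pe.length + pq.length))).all fun i =>
      decide ((Ln W (nthG RT0 L.Rs c).P i : ℤ) - Ln W (nthG RT0 L.Rs c).Q i =
        (Ln W (nthG 0 MU (c % 2 ^ nr)) (i % 2 ^ nb) : ℤ) * h (c / 2 ^ nr) (i / 2 ^ nb))

theorem nthG_map1 : ∀ (l : List ℕ) (r : ℕ), r < l.length →
    nthG [] (l.map fun s => [s]) r = [nthG 0 l r]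
  | [], r, h => absurd h (Nat.not_lt_zero r)
  | _ :: _, 0, _ => rfl
  | _ :: l, r + 1, h => nthG_map1 l r (by simpa using h)

theorem okRf_val {W : ℕ} {pe pq : List ℕ} {R : RT} (h : okRf pe pq R = true) (e y : ℕ → Bool)
    (v : ℕ → ℤ) (hv : ∀ i < 2 ^ (pe.length + pq.length), (Ln W R.P i : ℤ) - Ln W R.Q i = v i) :
    (R.M 0 0).val W e y = v (idx (pe.length + pq.length) (fb pe pq e y)) := by
  rw [← hv _ (idx_lt _ _)]
  unfold okRf at h
  rw [Bool.or_eq_true] at h
  rcases h with h | h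
  · rw [Bool.and_eq_true] at h
    have h1 : R.P = 0 := Nat.eq_of_beq_eq_true h.1
    have h2 : R.Q = 0 := Nat.eq_of_beq_eq_true h.2
    unfold Mk.val
    rw [show (R.M 0 0).P = 0 from h1, show (R.M 0 0).Q = 0 from h2, h1, h2]
    simp only [Ln_zero_left]
  · rw [Bool.and_eq_true, Bool.and_eq_true, Bool.and_eq_true] at h
    obtain ⟨⟨h1, h2⟩, h3, h4⟩ := h
    have h1 : R.k = pe.length := Nat.eq_of_beq_eq_true h1
    have h2 : R.m = pq.length := Nat.eq_of_beq_eq_true h2
    have h3 : R.pe = pe.map fun s => [s] := eq_of_beq h3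
    have h4 : R.pq = pq.map fun s => [s] := eq_of_beq h4
    have e1 : (R.M 0 0).k + (R.M 0 0).m = pe.length + pq.length := by
      show R.k + R.m = _
      rw [h1, h2]
    have e2 : (idx ((R.M 0 0).k + (R.M 0 0).m) fun r => if r < (R.M 0 0).k then
        xrB e (nthG [] (R.M 0 0).pe r) else xrB y (nthG [] (R.M 0 0).pq (r - (R.M 0 0).k))) =
        idx (pe.length + pq.length) (fb pe pq e y) := by
      rw [e1]
      apply idx_congr
      intro r hr
      show (if r < R.k then xrB e (nthG [] R.pe r) else xrB y (nthG [] R.pq (r - R.k))) = _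
      rw [h1, h3, h4]
      unfold fb
      by_cases h5 : r < pe.length
      · rw [if_pos h5, if_pos h5, nthG_map1 pe r h5, xrB_one]
      · rw [if_neg h5, if_neg h5, nthG_map1 pq _ (by omega), xrB_one]
    unfold Mk.val
    rw [e2]
    rfl

section col
variable {n : ℕ} {H E : Finset (Finset (Fin n))} {χ : Fin n → Bool}

/-- The colours of a window as bits. -/
def cbt (χ : Fin n → Bool) (t : Fin 6 → Fin n) (a : ℕ) : Bool := χ (t (Fin.ofNat 6 a))

/-- The value of a term of this kind. -/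
theorem colck_f {L : LT} {W : ℕ} {pe pq : List ℕ} {nr nc nb nf : ℕ} {MU : List ℕ}
    {h : ℕ → ℕ → ℤ} (hc : nr + nc = 6) (hb : nb + nf = pe.length + pq.length)
    (hck : colck L W pe pq nr nb MU h = true) (t : Fin 6 → Fin n) :
    L.f W H E χ t =
      (Ln W (nthG 0 MU (idx nr (cbt χ t))) (idx nb (fb pe pq (eE E t) (yJ H E χ t))) : ℤ) *
        h (idx nc fun a => cbt χ t (nr + a)) (idx nf fun r => fb pe pq (eE E t) (yJ H E χ t) (nb + r)) := by
  have e0 : (idx 6 fun a => yJ H E χ t (15 + a)) = idx (nr + nc) (cbt χ t) := by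
    rw [hc]
    apply idx_congr
    intro a _
    unfold yJ cbt
    rw [if_neg (by omega), Nat.add_sub_cancel_left]
  have hlt : idx (nr + nc) (cbt χ t) < 64 := by
    have := idx_lt (nr + nc) (cbt χ t)
    rw [hc] at this ⊢
    exact this
  have h1 := List.all_eq_true.mp hck _ (List.mem_range.mpr hlt)
  rw [Bool.and_eq_true] at h1
  obtain ⟨h1, h2⟩ := h1
  unfold LT.f LT.val
  rw [e0, okRf_val h1 _ _ (fun i => (Ln W (nthG 0 MU (idx (nr + nc) (cbt χ t) % 2 ^ nr))
    (i % 2 ^ nb) : ℤ) * h (idx (nr + nc) (cbt χ t) / 2 ^ nr) (i / 2 ^ nb)) fun i hi =>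
      of_decide_eq_true (List.all_eq_true.mp h2 i (List.mem_range.mpr hi)), ← hb]
  beta_reduce
  rw [idx_mod, idx_div, idx_mod, idx_div]

/-- A multiplier of the colours of the first vertices and of the first bits of the index times a
factor of the other colours and of the other bits. -/
def colF (W : ℕ) (pe pq : List ℕ) (nr nc nb nf : ℕ) (MU : List ℕ) (h : ℕ → ℕ → ℤ) : Fn3 :=
  fun H E χ t =>
    (Ln W (nthG 0 MU (idx nr (cbt χ t))) (idx nb (fb pe pq (eE E t) (yJ H E χ t))) : ℤ) *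
      h (idx nc fun a => cbt χ t (nr + a)) (idx nf fun r => fb pe pq (eE E t) (yJ H E χ t) (nb + r))

/-- The check of a term: the value is a sum of two products. -/
def colck2 (L : LT) (W : ℕ) (pe pq : List ℕ) (nr nb : ℕ) (MU MU' : List ℕ)
    (h h' : ℕ → ℕ → ℤ) : Bool :=
  (List.range 64).all fun c => okRf pe pq (nthG RT0 L.Rs c) &&
    (List.range (2 ^ (pe.length + pq.length))).all fun i =>
      decide ((Ln W (nthG RT0 L.Rs c).P i : ℤ) - Ln W (nthG RT0 L.Rs c).Q i =
        (Ln W (nthG 0 MU (c % 2 ^ nr)) (i % 2 ^ nb) : ℤ) * h (c / 2 ^ nr) (i / 2 ^ nb) +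
        (Ln W (nthG 0 MU' (c % 2 ^ nr)) (i % 2 ^ nb) : ℤ) * h' (c / 2 ^ nr) (i / 2 ^ nb))

/-- The value of a term of this kind. -/
theorem colck2_f {L : LT} {W : ℕ} {pe pq : List ℕ} {nr nc nb nf : ℕ} {MU MU' : List ℕ}
    {h h' : ℕ → ℕ → ℤ} (hc : nr + nc = 6) (hb : nb + nf = pe.length + pq.length)
    (hck : colck2 L W pe pq nr nb MU MU' h h' = true) (t : Fin 6 → Fin n) :
    L.f W H E χ t = colF W pe pq nr nc nb nf MU h H E χ t +
      colF W pe pq nr nc nb nf MU' h' H E χ t := by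
  have e0 : (idx 6 fun a => yJ H E χ t (15 + a)) = idx (nr + nc) (cbt χ t) := by
    rw [hc]
    apply idx_congr
    intro a _
    unfold yJ cbt
    rw [if_neg (by omega), Nat.add_sub_cancel_left]
  have hlt : idx (nr + nc) (cbt χ t) < 64 := by
    have := idx_lt (nr + nc) (cbt χ t)
    rw [hc] at this ⊢
    exact this
  have h1 := List.all_eq_true.mp hck _ (List.mem_range.mpr hlt)
  rw [Bool.and_eq_true] at h1
  obtain ⟨h1, h2⟩ := h1
  unfold LT.f LT.val colF
  rw [e0, okRf_val h1 _ _ (fun i => (Ln W (nthG 0 MU (idx (nr + nc) (cbt χ t) % 2 ^ nr))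
    (i % 2 ^ nb) : ℤ) * h (idx (nr + nc) (cbt χ t) / 2 ^ nr) (i / 2 ^ nb) +
      (Ln W (nthG 0 MU' (idx (nr + nc) (cbt χ t) % 2 ^ nr))
    (i % 2 ^ nb) : ℤ) * h' (idx (nr + nc) (cbt χ t) / 2 ^ nr) (i / 2 ^ nb)) fun i hi =>
      of_decide_eq_true (List.all_eq_true.mp h2 i (List.mem_range.mpr hi)), ← hb]
  beta_reduce
  rw [idx_mod, idx_div, idx_mod, idx_div]

end col

/-! ### The multiplier of the roots -/

/-- A quadruple of the window as a set of roots. -/
def rqF (nr s : ℕ) (hn : nr ≤ 6) : Finset (Fin nr) :=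
  univ.filter fun i => (Fin.castLE hn i : Fin 6) ∈ (K8.q6 6 s : Finset (Fin 6))

/-- The bits of the index from the data of the roots. -/
def rbt (pe pq : List ℕ) {nr : ℕ} (hn : nr ≤ 6) (D : WD nr) (r : ℕ) : Bool :=
  if r < pe.length then D.r (rqF nr (nthG 0 pe r) hn) else
    (D.e (rqF nr (nthG 0 pq (r - pe.length)) hn) ^^ D.r (rqF nr (nthG 0 pq (r - pe.length)) hn))

/-- The colours of the roots as bits. -/
def rct {nr : ℕ} (D : WD nr) (a : ℕ) : Bool := if h : a < nr then D.c ⟨a, h⟩ else false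

/-- The multiplier of the roots. -/
def colMu (W : ℕ) (pe pq : List ℕ) (nr nb : ℕ) (hn : nr ≤ 6) (MU : List ℕ) : MuX nr :=
  ⟨fun D => Ln W (nthG 0 MU (idx nr (rct D))) (idx nb (rbt pe pq hn D)), 2 ^ W,
    fun _ => (Ln_lt _ _ _).le⟩

/-- The check that the first quadruples are sets of roots. -/
def okrq (pe pq : List ℕ) (nr nb : ℕ) (hn : nr ≤ 6) : Prop :=
  ∀ r < nb, (rqF nr (if r < pe.length then nthG 0 pe r else nthG 0 pq (r - pe.length)) hn).image
    (Fin.castLE hn) = (K8.q6 6 (if r < pe.length then nthG 0 pe r else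
      nthG 0 pq (r - pe.length)) : Finset (Fin 6)) ∧
    (r < pe.length ∨ nthG 0 pq (r - pe.length) < 15)

instance (pe pq : List ℕ) (nr nb : ℕ) (hn : nr ≤ 6) : Decidable (okrq pe pq nr nb hn) := by
  unfold okrq
  infer_instance

theorem colMu_wt {n : ℕ} {H E : Finset (Finset (Fin n))} {χ : Fin n → Bool} (P : ParX) (W : ℕ)
    (pe pq : List ℕ) (nr nb : ℕ) (hn : nr ≤ 6) (MU : List ℕ) (hq : okrq pe pq nr nb hn)
    (t : Fin 6 → Fin n) (ι : Fin nr → Fin 6) (hι : ι = Fin.castLE hn) :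
    (colMu W pe pq nr nb hn MU).F ((wt P H E χ t).sub ι) =
      Ln W (nthG 0 MU (idx nr (cbt χ t))) (idx nb (fb pe pq (eE E t) (yJ H E χ t))) := by
  subst hι
  have e1 : idx nr (rct ((wt P H E χ t).sub (Fin.castLE hn))) = idx nr (cbt χ t) := by
    apply idx_congr
    intro a ha
    unfold rct cbt
    rw [dif_pos ha]
    show χ (t _) = χ (t _)
    congr 2
    apply Fin.ext
    show a = a % 6
    rw [Nat.mod_eq_of_lt (by omega)]
  have e2 : idx nb (rbt pe pq hn ((wt P H E χ t).sub (Fin.castLE hn))) =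
      idx nb (fb pe pq (eE E t) (yJ H E χ t)) := by
    apply idx_congr
    intro r hr
    obtain ⟨h1, h2⟩ := hq r hr
    unfold rbt fb
    by_cases h3 : r < pe.length
    · rw [if_pos h3, if_pos h3]
      rw [if_pos h3] at h1
      show zb E t ((rqF nr (nthG 0 pe r) hn).image _) = zb E t _
      rw [h1]
    · rw [if_neg h3, if_neg h3]
      rw [if_neg h3] at h1
      have h4 := h2.resolve_left h3
      unfold yJ
      rw [if_pos h4]
      show (zb H t ((rqF nr _ hn).image _) ^^ zb E t ((rqF nr _ hn).image _)) = _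
      rw [h1]
  show Ln W (nthG 0 MU (idx nr (rct ((wt P H E χ t).sub (Fin.castLE hn)))))
    (idx nb (rbt pe pq hn ((wt P H E χ t).sub (Fin.castLE hn)))) = _
  rw [e1, e2]

/-! ### The bounds of the imbalance -/

/-- The factor of a bound of the imbalance. -/
def hS (σ : ℤ) (sn sd : ℕ) (c _ : ℕ) : ℤ := sn + σ * sd * Star.sg (c.testBit 0)

/-- The products of the bounds of the imbalance. -/
theorem goodF_s {Cx : X3} {σ : ℤ} {sn sd : ℕ} (W : ℕ) (MU : List ℕ)
    (hs : ∀ (μ : MuX 5) (j : Fin (5 + 1) → Fin 6), Function.Injective j →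
      GV Cx P00 (sV σ sn sd μ j)) :
    GoodP Cx (fun H E χ t =>
      colF W [0, 1, 2, 3] [0, 1, 2, 3, 4] 5 1 9 0 MU (hS σ sn sd) H E χ t) := by
  have h0 := hs (colMu W [0, 1, 2, 3] [0, 1, 2, 3, 4] 5 9 (by norm_num) MU) (fun i => i)
    Function.injective_id
  refine GoodP.mono h0 fun {n} H E χ _ t ht => le_of_eq ?_
  unfold sV colF
  have e1 := colMu_wt (H := H) (E := E) (χ := χ) P00 W [0, 1, 2, 3] [0, 1, 2, 3, 4] 5 9
    (by norm_num) MU (by decide +kernel) t ((fun i : Fin (5 + 1) => (i : Fin 6)) ∘ Fin.castAdd 1) rfl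
  rw [e1]
  congr 1
  unfold hS
  rw [testBit_idx]
  rfl

/-- The terms of the bounds of the imbalance. -/
theorem gv_col_s {Cx : X3} {sn sd : ℕ} (L : LT) (W : ℕ) (MU MU' : List ℕ)
    (hs : ∀ (σ : ℤ), |σ| ≤ 1 → ∀ (μ : MuX 5) (j : Fin (5 + 1) → Fin 6), Function.Injective j →
      GV Cx P00 (sV σ sn sd μ j))
    (hck : colck2 L W [0, 1, 2, 3] [0, 1, 2, 3, 4] 5 9 MU MU' (hS 1 sn sd) (hS (-1) sn sd) = true) :
    GoodP Cx (fun H E χ t => L.f W H E χ t) := by
  refine ((goodF_s W MU (hs 1 (by norm_num))).add (goodF_s W MU' (hs (-1) (by norm_num)))).mono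
    fun {n} H E χ _ t _ => le_of_eq ?_
  exact (colck2_f (nc := 1) (nf := 0) (H := H) (E := E) (χ := χ) rfl rfl hck t).symm

/-- The factor of a bound of the square of the imbalance. -/
def hSS (an ad : ℤ) (c _ : ℕ) : ℤ := an + ad * (Star.sg (c.testBit 0) * Star.sg (c.testBit 1))

/-- The products of the bounds of the square of the imbalance. -/
theorem goodF_ss {Cx : X3} {an ad : ℤ} (W : ℕ) (MU : List ℕ)
    (hs : ∀ (μ : MuX 4) (j : Fin (4 + 2) → Fin 6), Function.Injective j →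
      GV Cx P00 (ssV an ad μ j)) :
    GoodP Cx (fun H E χ t => colF W [0] [0] 4 2 2 0 MU (hSS an ad) H E χ t) := by
  have h0 := hs (colMu W [0] [0] 4 2 (by norm_num) MU) (fun i => i) Function.injective_id
  refine GoodP.mono h0 fun {n} H E χ _ t ht => le_of_eq ?_
  unfold ssV colF
  have e1 := colMu_wt (H := H) (E := E) (χ := χ) P00 W [0] [0] 4 2 (by norm_num) MU
    (by decide +kernel) t ((fun i : Fin (4 + 2) => (i : Fin 6)) ∘ Fin.castAdd 2) rfl
  rw [e1]
  congr 1
  unfold hSS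
  rw [testBit_idx, testBit_idx]
  rfl

/-- The terms of the bounds of the square of the imbalance. -/
theorem gv_col_ss {Cx : X3} {an ad an' ad' : ℤ} (L : LT) (W : ℕ) (MU MU' : List ℕ)
    (hs : ∀ (μ : MuX 4) (j : Fin (4 + 2) → Fin 6), Function.Injective j →
      GV Cx P00 (ssV an ad μ j))
    (hs' : ∀ (μ : MuX 4) (j : Fin (4 + 2) → Fin 6), Function.Injective j →
      GV Cx P00 (ssV an' ad' μ j))
    (hck : colck2 L W [0] [0] 4 2 MU MU' (hSS an ad) (hSS an' ad') = true) :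
    GoodP Cx (fun H E χ t => L.f W H E χ t) := by
  refine ((goodF_ss W MU hs).add (goodF_ss W MU' hs')).mono
    fun {n} H E χ _ t _ => le_of_eq ?_
  exact (colck2_f (nc := 2) (nf := 0) (H := H) (E := E) (χ := χ) rfl rfl hck t).symm

/-- The factor of a pair of vertices of different colours. -/
def hPJ (dn dd : ℕ) (c i : ℕ) : ℤ := (dn : ℤ) * (((c.testBit 0 ^^ c.testBit 1).toNat : ℕ) : ℤ) -
  dd * ((((c.testBit 0 ^^ c.testBit 1) && i.testBit 0).toNat : ℕ) : ℤ)

/-- The multipliers vanish unless the first two roots have the colours false and true. -/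
def okon (MU : List ℕ) : Bool := (List.range 16).all fun c =>
  (!c.testBit 0 && c.testBit 1) || Nat.beq (nthG 0 MU c) 0

/-- The terms of the pairs of vertices of different colours, relative to all such pairs. -/
theorem gv_col_pj {Cx : X3} {dn dd : ℕ} (L : LT) (W : ℕ) (MU : List ℕ)
    (hs : ∀ (μ : MuX (2 + 2)) (j : Fin (2 + 2 + 2) → Fin 6), Function.Injective j →
      GV Cx P00 (jCV μ dn dd j))
    (hon : okon MU = true)
    (hck : colck L W [0] [0, 9] 4 2 MU (hPJ dn dd) = true) :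
    GoodP Cx (fun H E χ t => L.f W H E χ t) := by
  have h0 := hs (colMu W [0] [0, 9] 4 2 (by norm_num) MU) (fun i => i) Function.injective_id
  refine GoodP.mono h0 fun {n} H E χ _ t ht => le_of_eq ?_
  have hval := colck_f (nc := 2) (nf := 1) (H := H) (E := E) (χ := χ) rfl rfl hck t
  rw [hval]
  have e1 := colMu_wt (H := H) (E := E) (χ := χ) P00 W [0] [0, 9] 4 2 (by norm_num) MU
    (by decide +kernel) t ((fun i : Fin (2 + 2 + 2) => (i : Fin 6)) ∘ Fin.castAdd 2) rfl
  have e5 : jB (Fin.castAdd 2 (Fin.castAdd 2 0)) (Fin.castAdd 2 (Fin.castAdd 2 1))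
      (Fin.natAdd (2 + 2) 0) (Fin.natAdd (2 + 2) 1) (wt P00 H E χ t) =
      (c22 (χ (t 0)) (χ (t 1)) (χ (t 4)) (χ (t 5)) && yJ H E χ t 9) := by
    unfold jB
    rw [q9_im]
    rfl
  have hj : ((wt P00 H E χ t).sub fun i => i) = wt P00 H E χ t := by
    rw [← wt_comp]
    rfl
  unfold jCV
  rw [hj, e5]
  show (((if (!χ (t 0) && χ (t 1)) = true then
      (colMu W [0] [0, 9] 4 2 (by norm_num) MU).F ((wt P00 H E χ t).sub
        ((fun i : Fin (2 + 2 + 2) => (i : Fin 6)) ∘ Fin.castAdd 2)) else 0) : ℕ) : ℤ) *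
    ((dn : ℤ) * (((χ (t 4) ^^ χ (t 5)).toNat : ℕ) : ℤ) -
      dd * (((c22 (χ (t 0)) (χ (t 1)) (χ (t 4)) (χ (t 5)) && yJ H E χ t 9).toNat : ℕ) : ℤ)) = _
  rw [e1]
  by_cases h6 : (!χ (t 0) && χ (t 1)) = true
  · rw [if_pos h6]
    congr 1
    unfold hPJ
    rw [testBit_idx, testBit_idx, testBit_idx]
    rw [Bool.and_eq_true, Bool.not_eq_true'] at h6
    rw [h6.1, h6.2]
    have e6 : ∀ u v : Bool, c22 false true u v = (u ^^ v) := by decide
    rw [e6]
    rfl
  · rw [if_neg h6]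
    have h7 : (idx 4 (cbt χ t)) < 16 := idx_lt 4 _
    have h8 := List.all_eq_true.mp hon _ (List.mem_range.mpr h7)
    have h9 : (!(idx 4 (cbt χ t)).testBit 0 && (idx 4 (cbt χ t)).testBit 1) =
        (!χ (t 0) && χ (t 1)) := by
      rw [testBit_idx, testBit_idx]
      rfl
    rw [h9, Bool.eq_false_iff.mpr h6, Bool.false_or] at h8
    rw [Nat.eq_of_beq_eq_true h8, Ln_zero_left, Nat.cast_zero, zero_mul, zero_mul]

end Pool.Agent.Lib.MP_afdd4d_co.K9.W6
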