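import Pool.Agent.Lib.MP_afdd4d_co.K9.W6Cm2

/-!
# Rows for an arbitrary even 4-graph

The sum of the kernels over a window is at most a given symmetric function, from the checks of the
representatives, for every 4-graph, every even 4-graph and every colouring.
-/

namespace Pool.Agent.Lib.MP_afdd4d_co.K9.W6

open Finset K8
open Pool.Agent.Lib.MP_afdd4d_co.K9.Star

/-- Functions of a 4-graph, an even 4-graph, a colouring and a window. -/
abbrev FunE : Type := ∀ {n : ℕ}, Finset (Finset (Fin n)) → Finset (Finset (Fin n)) →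
  (Fin n → Bool) → (Fin 6 → Fin n) → ℤ

/-- The checks of a list of codes and thresholds with additional arrays. -/
def cgG (R : RD) (D : C4D) (MA : ℕ → ℕ → ℕ) (th : List (List ℕ)) (k : ℕ) : Bool :=
  zpG (fun c v => R.rwG D (MA (rB k) c) (Nat.sub (Nat.pow 2 (rB k)) 1) v c) (rX k) (nthG [] th k)

/-- The kernels are at most a symmetric function on every window. -/
theorem rows_gen (D : C4D) (B : B2) (R : RD) (U K : ℕ) (hD : D.OK) (hI : D.InvOK) (hB : B.OK)
    (hR : R.OK D B U K) (Φ : FunE)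
    (hΦ : ∀ {n : ℕ} (H E : Finset (Finset (Fin n))) (χ : Fin n → Bool) (t : Fin 6 → Fin n)
      (σ : Equiv.Perm (Fin 6)), Φ H E χ (t ∘ σ) = Φ H E χ t)
    (MA : ℕ → ℕ → ℕ) (Mv : ℕ → ℕ → (ℕ → Bool) → ℕ)
    (hM : ∀ b < 7, ∀ J, Ar R.W 10 (MA b J) (Mv b J)) (hMv : ∀ b < 7, ∀ J z, Mv b J z ≤ 2 ^ K)
    (th : List (List ℕ))
    (hT : ∀ k < 160, ∀ p ∈ (rX k).zip (nthG [] th k), ∀ (n : ℕ) (H E : Finset (Finset (Fin n)))
      (χ : Fin n → Bool), EvenH n E → K5F H → ∀ t : Fin 6 → Fin n, Function.Injective t →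
      xc χ t = 2 ^ rB k - 1 → jc H E t = p.1 →
      24 * (15 * (D.of : ℤ) + 45 * B.of + ∑ q ∈ range 6, (R.u5 (cnt H t q) (cnt E t q) : ℤ) +
        Mv (rB k) p.1 (gc E t)) + 72 * k3 B (rB k) ≤ Φ H E χ t + 24 * p.2)
    (hck : ∀ k < 160, cgG R D MA th k = true) :
    ∀ (n : ℕ) (H E : Finset (Finset (Fin n))) (χ : Fin n → Bool), EvenH n E → K5F H →
      ∀ t : Fin 6 → Fin n, Function.Injective t → KS D B H E χ t ≤ Φ H E χ t := by
  intro n H E χ hev h5
  refine w6_reduce χ H E (fun t => KS D B H E χ t ≤ Φ H E χ t) ?_ ?_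
  · intro t σ h
    have h' : KS D B H E χ (t ∘ σ) ≤ Φ H E χ (t ∘ σ) := h
    rwa [KS_perm H E χ hI, hΦ] at h'
  · intro k hk c hc t ht hx hj
    have hb : rB k < 7 := rB_lt k hk
    obtain ⟨v, hv, hrow⟩ := zpG_spec _ _ _ (hck k hk) c hc
    have hrow' : R.rwG D (MA (rB k) c) (xc χ t) v (jc H E t) = true := by
      rw [hx, hj]
      exact hrow
    have h1 := row_leM (H := H) (χ := χ) hR hD hB hev t ht (by rw [hx]; exact cR_std _ hb)
      _ _ _ (hM _ hb c) (hMv _ hb c) hrow'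
    have h2 := KS_eq H E χ hD hB t
    have h3 := k3_eq B χ t (rB k) hx
    have h4 := hT k hk (c, v) hv n H E χ hev h5 t ht hx hj
    rw [h3] at h2
    simp only at h4
    show KS D B H E χ t ≤ Φ H E χ t
    linarith

end Pool.Agent.Lib.MP_afdd4d_co.K9.W6
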