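import Pool.Agent.Lib.MP_afdd4d_co.K9.W6Bit
import Pool.Agent.Lib.MP_afdd4d_co.K8.F6Con

/-!
# Sums of arrays and lower bounds of the lanes
-/

namespace Pool.Agent.Lib.MP_afdd4d_co.K9.W6

open Finset K8

section itm
variable {W n : ℕ}

/-- The sum of the arrays `A 0, …, A (N - 1)`. -/
def sN (A : ℕ → ℕ) (N : ℕ) : ℕ := @Nat.rec (fun _ => ℕ) 0 (fun k ih => Nat.add ih (A k)) N

theorem sN_ar (hW : 0 < W) (A : ℕ → ℕ) (f : ℕ → (ℕ → Bool) → ℕ) (M : ℕ) : ∀ N : ℕ,
    (∀ k < N, Ar W n (A k) (f k)) → (∀ k < N, ∀ b, f k b ≤ M) → N * M < 2 ^ W →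
    Ar W n (sN A N) fun b => ∑ k ∈ range N, f k b
  | 0, _, _, _ => (ar_zero n).congr fun b => by rw [Finset.sum_range_zero]
  | N + 1, hA, hM, hN => by
    have h1 : N * M ≤ (N + 1) * M := Nat.mul_le_mul_right _ (Nat.le_succ N)
    have ih := sN_ar hW A f M N (fun k hk => hA k (by omega)) (fun k hk => hM k (by omega))
      (lt_of_le_of_lt h1 hN)
    have e : sN A (N + 1) = sN A N + A N := rfl
    rw [e]
    refine (ih.add (hA N (by omega)) hW fun b => ?_).congr fun b => ?_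
    · have h2 : ∑ k ∈ range N, f k b ≤ N * M := by
        have := Finset.sum_le_sum fun k (hk : k ∈ range N) => hM k
          (by have := Finset.mem_range.mp hk; omega) b
        rwa [Finset.sum_const, Finset.card_range, smul_eq_mul] at this
      have h3 := hM N (by omega) b
      have h4 : (N + 1) * M = N * M + M := by ring
      omega
    · rw [Finset.sum_range_succ]

/-- An array expanded by a program. -/
theorem it_ar (hW : 0 < W) {k T : ℕ} {l : List (ℕ × ℕ × ℕ)} {f : (ℕ → Bool) → ℕ}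
    (hok : okR l k = true) (hn : ndG l k = n) (hT : Ar W k T f) :
    Ar W n (ruG W l k T) fun b => f fun r => lf n (syG l k r) b := by
  have h := ruG_ar hW l k T f hok hT
  rw [hn] at h
  refine h.congr fun b => ?_
  apply hT.dep
  intro r hr
  exact seG_eq n b l k hok (by rw [hn]) r hr

/-- The check that all lanes are at least `c`. -/
def geG (W n c A : ℕ) : Bool :=
  Nat.beq (Nat.land (Nat.add A (csG W (Nat.sub (Nat.pow 2 (Nat.sub W 1)) c) n))
    (csG W (Nat.pow 2 (Nat.sub W 1)) n)) (csG W (Nat.pow 2 (Nat.sub W 1)) n)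

theorem geG_spec (hW : 2 ≤ W) {A c : ℕ} {f : (ℕ → Bool) → ℕ} (hA : Ar W n A f)
    (hf : ∀ b, f b < 2 ^ (W - 1)) (h : geG W n c A = true) (b : ℕ → Bool) : c ≤ f b := by
  have hW0 : 0 < W := by omega
  have h2W : 2 ^ W = 2 ^ (W - 1) + 2 ^ (W - 1) := by
    conv_lhs => rw [show W = W - 1 + 1 by omega]
    rw [pow_succ]
    ring
  have hP : 0 < 2 ^ (W - 1) := Nat.two_pow_pos _
  have h1 := csG_ar (W := W) (c := 2 ^ (W - 1) - c) hW0 (by omega) n
  have h2 := csG_ar (W := W) (c := 2 ^ (W - 1)) hW0 (by omega) n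
  have h3 := hA.add h1 hW0 fun b => by have := hf b; omega
  have h4 : (A + csG W (2 ^ (W - 1) - c) n) &&& csG W (2 ^ (W - 1)) n =
      csG W (2 ^ (W - 1)) n := Nat.eq_of_beq_eq_true h
  have h5 := congrArg (fun X => Ln W X (idx n b)) h4
  simp only [Ln_and] at h5
  rw [h3.get, h2.get] at h5
  by_contra hlt
  have h8 := hf b
  have h6 : f b + (2 ^ (W - 1) - c) < 2 ^ (W - 1) := by omega
  have h7 : (f b + (2 ^ (W - 1) - c)) &&& 2 ^ (W - 1) = 0 := by
    rw [Nat.and_two_pow, Nat.testBit_lt_two_pow h6]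
    simp
  rw [h7] at h5
  omega

end itm

/-! ### Numbers from bits -/

/-- The number with given bits. -/
def ixG (f : ℕ → Bool) (n : ℕ) : ℕ := @Nat.rec (fun _ => ℕ) 0
  (fun k ih => @Bool.rec (fun _ => ℕ) ih (Nat.add ih (Nat.pow 2 k)) (f k)) n

theorem ixG_eq (f : ℕ → Bool) : ∀ n, ixG f n = idx n f
  | 0 => rfl
  | n + 1 => by
    have e : ixG f (n + 1) = @Bool.rec (fun _ => ℕ) (ixG f n) (Nat.add (ixG f n) (Nat.pow 2 n))
      (f n) := rfl
    rw [e, ixG_eq f n, idx]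
    cases f n
    · rw [Bool.toNat_false, mul_zero, add_zero]
    · rw [Bool.toNat_true, mul_one]
      rfl

end Pool.Agent.Lib.MP_afdd4d_co.K9.W6
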