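import Pool.Agent.Lib.MP_afdd4d_co.K9.W6Tab
import Pool.Agent.Lib.MP_afdd4d_co.K9.W6Sum

/-!
# Families with linear keys

Sums of table entries over a list of placements.  The bits of the index of the table are sums of bits
of the even 4-graph (the lanes) and sums of bits of a given number (the keys).  A table of a placement
may be the sum of the images of a raw table under a list of programs.
-/

namespace Pool.Agent.Lib.MP_afdd4d_co.K9.W6

open Finset K8
open Pool.Agent.Lib.MP_afdd4d_co.K9.Star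

/-! ### Sums of bits -/

/-- The sum of some values of a function. -/
def xrB (f : ℕ → Bool) : List ℕ → Bool
  | [] => false
  | r :: l => f r ^^ xrB f l

theorem xrB_congr {f g : ℕ → Bool} : ∀ {l : List ℕ}, (∀ r ∈ l, f r = g r) → xrB f l = xrB g l
  | [], _ => rfl
  | r :: l, h => by
    rw [xrB, xrB, h r List.mem_cons_self, xrB_congr fun s hs => h s (List.mem_cons_of_mem _ hs)]

theorem xrB_map (f : ℕ → Bool) (g : ℕ → ℕ) : ∀ l : List ℕ, xrB f (l.map g) = xrB (fun r => f (g r)) l
  | [] => rfl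
  | r :: l => by rw [List.map_cons, xrB, xrB, xrB_map f g l]

/-- The sum of some bits of a number. -/
def bxG (Y : ℕ) (l : List ℕ) : ℕ :=
  Nat.mod (@List.rec ℕ (fun _ => ℕ) 0 (fun r _ ih => Nat.xor (Nat.shiftRight Y r) ih) l) 2

theorem bxG_eq (Y : ℕ) (l : List ℕ) : bxG Y l = (xrB Y.testBit l).toNat := by
  have h : ∀ l : List ℕ, (@List.rec ℕ (fun _ => ℕ) 0
      (fun r _ ih => Nat.xor (Nat.shiftRight Y r) ih) l).testBit 0 = xrB Y.testBit l := by
    intro l
    induction l with
    | nil => exact Nat.zero_testBit 0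
    | cons r l ih =>
      have e : (@List.rec ℕ (fun _ => ℕ) 0 (fun r _ ih => Nat.xor (Nat.shiftRight Y r) ih)
          (r :: l)) = (Y >>> r) ^^^ (@List.rec ℕ (fun _ => ℕ) 0
            (fun r _ ih => Nat.xor (Nat.shiftRight Y r) ih) l) := rfl
      rw [e, Nat.testBit_xor, ih, Nat.testBit_shiftRight, xrB, Nat.add_zero]
  rw [← h l, bxG]
  show _ % 2 = _
  rw [Nat.testBit_zero]
  rcases Nat.mod_two_eq_zero_or_one (@List.rec ℕ (fun _ => ℕ) 0
    (fun r _ ih => Nat.xor (Nat.shiftRight Y r) ih) l) with h | h <;> rw [h] <;> rfl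

/-- The key of a list of sums of bits. -/
def kxG (Y : ℕ) (l : List (List ℕ)) : ℕ :=
  @List.rec (List ℕ) (fun _ => ℕ) 0 (fun s _ ih => Nat.add (bxG Y s) (Nat.mul 2 ih)) l

theorem kxG_cons (Y : ℕ) (s : List ℕ) (l : List (List ℕ)) :
    kxG Y (s :: l) = (xrB Y.testBit s).toNat + 2 * kxG Y l := by
  have e : kxG Y (s :: l) = bxG Y s + 2 * kxG Y l := rfl
  rw [e, bxG_eq]

theorem kxG_lt (Y : ℕ) : ∀ l : List (List ℕ), kxG Y l < 2 ^ l.length
  | [] => Nat.one_pos
  | s :: l => by
    have h := kxG_lt Y l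
    have h2 := RD.tn_le (xrB Y.testBit s)
    rw [kxG_cons, List.length_cons, pow_succ]
    omega

theorem kxG_bit (Y : ℕ) : ∀ (l : List (List ℕ)) (i : ℕ), i < l.length →
    (kxG Y l).testBit i = xrB Y.testBit (nthG [] l i)
  | [], i, h => absurd h (Nat.not_lt_zero i)
  | s :: l, 0, _ => by
    rw [kxG_cons, Nat.testBit_zero]
    have e : nthG [] (s :: l) 0 = s := rfl
    rw [e]
    cases xrB Y.testBit s <;> simp
  | s :: l, i + 1, h => by
    have e : nthG [] (s :: l) (i + 1) = nthG [] l i := rfl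
    rw [kxG_cons, e, ← kxG_bit Y l i (by simpa using h), Nat.testBit_succ]
    congr 1
    have h2 := RD.tn_le (xrB Y.testBit s)
    omega

theorem kxG_append (Y : ℕ) : ∀ l l' : List (List ℕ),
    kxG Y (l ++ l') = kxG Y l + 2 ^ l.length * kxG Y l'
  | [], l' => by
    rw [List.nil_append, List.length_nil, pow_zero, one_mul]
    show _ = 0 + _
    rw [zero_add]
  | s :: l, l' => by
    rw [List.cons_append, kxG_cons, kxG_cons, kxG_append Y l l', List.length_cons, pow_succ]
    ring

/-- The bits of an index: first the bits of the lane, then the bits of the key. -/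
def cbk (k j : ℕ) (b : ℕ → Bool) (i : ℕ) : Bool := if i < k then b i else j.testBit (i - k)

/-! ### Families -/

/-- A placement: the keys and the program. -/
structure Pk where
  ks : List (List ℕ)
  pr : List (ℕ × ℕ × ℕ)

/-- A family: the numbers of bits of the lanes and of the keys, the table, a bound and the
placements. -/
structure Fk where
  k : ℕ
  m : ℕ
  A : ℕ
  U : ℕ
  pl : List Pk

namespace Fk

/-- The array of a placement. -/
def a (F : Fk) (W Y : ℕ) (p : Pk) : ℕ := ruG W p.pr F.k (slG W F.k F.A (kxG Y p.ks))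

/-- The array of a list of placements. -/
def al (F : Fk) (W Y : ℕ) (l : List Pk) : ℕ :=
  @List.rec Pk (fun _ => ℕ) 0 (fun p _ ih => Nat.add ih (F.a W Y p)) l

/-- The value of a placement. -/
def v (F : Fk) (W N Y : ℕ) (b : ℕ → Bool) (p : Pk) : ℕ :=
  Ln W F.A (idx (F.k + F.m) (cbk F.k (kxG Y p.ks) fun r => lf N (syG p.pr F.k r) b))

/-- The value of a list of placements. -/
def vl (F : Fk) (W N Y : ℕ) (b : ℕ → Bool) (l : List Pk) : ℕ := (l.map (F.v W N Y b)).sum

/-- The conditions on a family. -/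
structure OK (F : Fk) (W N : ℕ) : Prop where
  hA : F.A < 2 ^ (W * 2 ^ (F.k + F.m))
  hU : ∀ b, Ln W F.A (idx (F.k + F.m) b) ≤ F.U
  hp : ∀ p ∈ F.pl, p.ks.length = F.m ∧ okR p.pr F.k = true ∧ ndG p.pr F.k = N

section
variable {F : Fk} {W N : ℕ}

theorem a_ar (h : F.OK W N) (hW : 0 < W) (Y : ℕ) (p : Pk)
    (hp : p.ks.length = F.m ∧ okR p.pr F.k = true ∧ ndG p.pr F.k = N) :
    Ar W N (F.a W Y p) fun b => F.v W N Y b p := by
  obtain ⟨h1, h2, h3⟩ := hp
  have hk := kxG_lt Y p.ks
  rw [h1] at hk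
  have hT : Ar W (F.k + F.m) F.A fun b => Ln W F.A (idx (F.k + F.m) b) := ⟨h.hA, fun b => rfl⟩
  exact it_ar hW h2 h3 (slG_ar hW hT (kxG Y p.ks) hk)

theorem v_le (h : F.OK W N) (Y : ℕ) (b : ℕ → Bool) (p : Pk) : F.v W N Y b p ≤ F.U := h.hU _

theorem vl_cons (Y : ℕ) (b : ℕ → Bool) (p : Pk) (l : List Pk) :
    F.vl W N Y b (p :: l) = F.v W N Y b p + F.vl W N Y b l := by
  unfold vl
  rw [List.map_cons, List.sum_cons]

theorem vl_le (h : F.OK W N) (Y : ℕ) (b : ℕ → Bool) : ∀ l : List Pk,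
    F.vl W N Y b l ≤ l.length * F.U
  | [] => Nat.zero_le _
  | p :: l => by
    have h1 := vl_le h Y b l
    have h2 := v_le h Y b p
    have h3 : (p :: l).length * F.U = l.length * F.U + F.U := by
      rw [List.length_cons, Nat.succ_mul]
    rw [vl_cons]
    omega

theorem al_ar (h : F.OK W N) (hW : 0 < W) (Y : ℕ) : ∀ l : List Pk, (∀ p ∈ l, p ∈ F.pl) →
    l.length * F.U < 2 ^ W → Ar W N (F.al W Y l) fun b => F.vl W N Y b l
  | [], _, _ => (ar_zero _).congr fun b => rfl
  | p :: l, hp, hs => by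
    have h3 : (p :: l).length * F.U = l.length * F.U + F.U := by
      rw [List.length_cons, Nat.succ_mul]
    have h1 := al_ar h hW Y l (fun p' hp' => hp p' (List.mem_cons_of_mem _ hp')) (by omega)
    have h2 := a_ar h hW Y p (h.hp p (hp p List.mem_cons_self))
    have e : F.al W Y (p :: l) = F.al W Y l + F.a W Y p := rfl
    rw [e]
    refine (h1.add h2 hW fun b => ?_).congr fun b => ?_
    · have h4 := vl_le h Y b l
      have h5 := v_le h Y b p
      omega
    · rw [vl_cons, add_comm]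

end

end Fk

/-! ### Bounds of the lanes of an array -/

/-- The check that all lanes are at most `U`. -/
def lbG (W n U A : ℕ) : Bool :=
  and (Nat.beq (Nat.land A (csG W (Nat.pow 2 (Nat.sub W 1)) n)) 0)
    (Nat.beq (Nat.land (Nat.add A (csG W (Nat.sub (Nat.sub (Nat.pow 2 (Nat.sub W 1)) 1) U) n))
      (csG W (Nat.pow 2 (Nat.sub W 1)) n)) 0)

theorem and_top {W x : ℕ} (hW : 0 < W) (hx : x < 2 ^ W) (h : x &&& 2 ^ (W - 1) = 0) :
    x < 2 ^ (W - 1) := by
  rw [Nat.and_two_pow] at h
  have h1 : x.testBit (W - 1) = false := by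
    have hP : 0 < 2 ^ (W - 1) := Nat.two_pow_pos _
    cases hb : x.testBit (W - 1)
    · rfl
    · rw [hb] at h
      simp at h
  apply Nat.lt_pow_two_of_testBit
  intro i hi
  rcases eq_or_lt_of_le hi with rfl | h2
  · exact h1
  · exact Nat.testBit_lt_two_pow (lt_of_lt_of_le hx (Nat.pow_le_pow_right (by norm_num) (by omega)))

theorem lbG_spec {W n U A : ℕ} (hW : 0 < W) {f : (ℕ → Bool) → ℕ} (hA : Ar W n A f)
    (h : lbG W n U A = true) (b : ℕ → Bool) : f b ≤ U := by
  have h2W : 2 ^ W = 2 ^ (W - 1) + 2 ^ (W - 1) := by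
    conv_lhs => rw [show W = W - 1 + 1 by omega]
    rw [pow_succ]
    ring
  have hP : 0 < 2 ^ (W - 1) := Nat.two_pow_pos _
  unfold lbG at h
  simp only [Bool.and_eq_true] at h
  obtain ⟨h1, h2⟩ := h
  have h1 : A &&& csG W (2 ^ (W - 1)) n = 0 := Nat.eq_of_beq_eq_true h1
  have h2 : (A + csG W (2 ^ (W - 1) - 1 - U) n) &&& csG W (2 ^ (W - 1)) n = 0 :=
    Nat.eq_of_beq_eq_true h2
  have hc := csG_ar (W := W) (c := 2 ^ (W - 1)) hW (by omega) n
  have hd := csG_ar (W := W) (c := 2 ^ (W - 1) - 1 - U) hW (by omega) n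
  have hlt : ∀ b, f b < 2 ^ (W - 1) := by
    intro b
    have h3 := congrArg (fun X => Ln W X (idx n b)) h1
    simp only [Ln_and, Ln_zero_left] at h3
    rw [hA.get, hc.get] at h3
    apply and_top hW _ h3
    rw [← hA.get]
    exact Ln_lt _ _ _
  have h4 := hA.add hd hW fun b => by have := hlt b; omega
  have h3 := congrArg (fun X => Ln W X (idx n b)) h2
  simp only [Ln_and, Ln_zero_left] at h3
  rw [h4.get, hc.get] at h3
  have h5 := hlt b
  have h6 := and_top hW (by omega) h3
  omega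

/-! ### Lists of families -/

/-- The array of a list of families. -/
def akG (W Y : ℕ) (L : List Fk) : ℕ :=
  @List.rec Fk (fun _ => ℕ) 0 (fun F _ ih => Nat.add ih (F.al W Y F.pl)) L

/-- The value of a list of families. -/
def vkL (W N Y : ℕ) (b : ℕ → Bool) (L : List Fk) : ℕ := (L.map fun F => F.vl W N Y b F.pl).sum

/-- The bound of the value of a list of families. -/
def ukL (L : List Fk) : ℕ := (L.map fun F => F.pl.length * F.U).sum

section
variable {W N : ℕ}

theorem vkL_le (Y : ℕ) (b : ℕ → Bool) : ∀ L : List Fk,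
    (∀ F ∈ L, F.OK W N) → vkL W N Y b L ≤ ukL L
  | [], _ => Nat.zero_le _
  | F :: L, h => by
    have h1 := vkL_le Y b L fun f' hf' => h f' (List.mem_cons_of_mem _ hf')
    have h2 := Fk.vl_le (h F List.mem_cons_self) Y b F.pl
    unfold vkL ukL at *
    rw [List.map_cons, List.sum_cons, List.map_cons, List.sum_cons]
    exact add_le_add h2 h1

theorem akG_ar (hW : 0 < W) (Y : ℕ) : ∀ L : List Fk,
    (∀ F ∈ L, F.OK W N) → ukL L < 2 ^ W →
    Ar W N (akG W Y L) fun b => vkL W N Y b L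
  | [], _, _ => (ar_zero _).congr fun b => rfl
  | F :: L, h, hs => by
    have h3 : ukL (F :: L) = F.pl.length * F.U + ukL L := by
      unfold ukL
      rw [List.map_cons, List.sum_cons]
    have h1 := akG_ar hW Y L (fun f' hf' => h f' (List.mem_cons_of_mem _ hf')) (by omega)
    have h2 := Fk.al_ar (h F List.mem_cons_self) hW Y F.pl (fun _ hp => hp) (by omega)
    have e : akG W Y (F :: L) = akG W Y L + F.al W Y F.pl := rfl
    rw [e]
    refine (h1.add h2 hW fun b => ?_).congr fun b => ?_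
    · have h6 := vkL_le Y b L fun f' hf' => h f' (List.mem_cons_of_mem _ hf')
      have h7 := Fk.vl_le (h F List.mem_cons_self) Y b F.pl
      omega
    · unfold vkL
      rw [List.map_cons, List.sum_cons, add_comm]

end

/-! ### Sums of the images of a table -/

/-- The sum of the images of a table under some programs. -/
def sgK (W n A : ℕ) (l : List (List (ℕ × ℕ × ℕ))) : ℕ :=
  @List.rec (List (ℕ × ℕ × ℕ)) (fun _ => ℕ) 0 (fun s _ ih => Nat.add ih (ruG W s n A)) l

/-- The value of the sum. -/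
def vgK (W n n' A : ℕ) (c : ℕ → Bool) (l : List (List (ℕ × ℕ × ℕ))) : ℕ :=
  (l.map fun s => Ln W A (idx n fun r => lf n' (syG s n r) c)).sum

theorem vgK_le {W n n' A U : ℕ} (hU : ∀ b, Ln W A (idx n b) ≤ U) (c : ℕ → Bool) :
    ∀ l : List (List (ℕ × ℕ × ℕ)), vgK W n n' A c l ≤ l.length * U
  | [] => Nat.zero_le _
  | s :: l => by
    have h1 := vgK_le (n' := n') hU c l
    have h2 := hU fun r => lf n' (syG s n r) c
    unfold vgK at *
    rw [List.map_cons, List.sum_cons, List.length_cons, Nat.succ_mul]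
    omega

theorem sgK_ar {W n n' A U : ℕ} (hW : 0 < W) (hA : A < 2 ^ (W * 2 ^ n))
    (hU : ∀ b, Ln W A (idx n b) ≤ U) : ∀ l : List (List (ℕ × ℕ × ℕ)),
    (∀ s ∈ l, okR s n = true ∧ ndG s n = n') → l.length * U < 2 ^ W →
    Ar W n' (sgK W n A l) fun c => vgK W n n' A c l
  | [], _, _ => (ar_zero _).congr fun b => rfl
  | s :: l, hs, hl => by
    have h3 : (s :: l).length * U = l.length * U + U := by
      rw [List.length_cons, Nat.succ_mul]
    have h1 := sgK_ar hW hA hU l (fun s' hs' => hs s' (List.mem_cons_of_mem _ hs')) (by omega)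
    have hT : Ar W n A fun b => Ln W A (idx n b) := ⟨hA, fun b => rfl⟩
    obtain ⟨h4, h5⟩ := hs s List.mem_cons_self
    have h2 := it_ar hW h4 h5 hT
    have e : sgK W n A (s :: l) = sgK W n A l + ruG W s n A := rfl
    rw [e]
    refine (h1.add h2 hW fun b => ?_).congr fun b => ?_
    · have h6 := vgK_le (n' := n') hU b l
      have h7 := hU fun r => lf n' (syG s n r) b
      omega
    · unfold vgK
      rw [List.map_cons, List.sum_cons, add_comm]

/-! ### The forms of the bits of the index -/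

/-- The linear form of a sum of bits, the variable `q` is the variable number `N + q`. -/
def xfG (N : ℕ) : List ℕ → ℕ
  | [] => 0
  | q :: l => Nat.xor (2 ^ (N + q + 1)) (xfG N l)

theorem lf_xfG (N M : ℕ) (B : ℕ → Bool) : ∀ l : List ℕ, (∀ q ∈ l, q < M) →
    lf (N + M) (xfG N l) B = xrB (fun q => B (N + q)) l
  | [], _ => lf_zero _ _
  | q :: l, h => by
    have h1 := lf_xfG N M B l fun q' hq' => h q' (List.mem_cons_of_mem _ hq')
    have h2 := h q List.mem_cons_self
    have e : xfG N (q :: l) = 2 ^ (N + q + 1) ^^^ xfG N l := rfl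
    rw [e, lf_xor, h1, lf_two_pow, xrB, decide_eq_true (by omega), Bool.true_and]

/-- The form of a sum of bits with given forms. -/
def xgG (g : ℕ → ℕ) : List ℕ → ℕ
  | [] => 0
  | q :: l => Nat.xor (g q) (xgG g l)

theorem lf_xgG (N : ℕ) (g : ℕ → ℕ) (b : ℕ → Bool) : ∀ l : List ℕ,
    lf N (xgG g l) b = xrB (fun q => lf N (g q) b) l
  | [] => lf_zero _ _
  | q :: l => by
    have e : xgG g (q :: l) = g q ^^^ xgG g l := rfl
    rw [e, lf_xor, lf_xgG N g b l, xrB]

theorem xgG_lt {g : ℕ → ℕ} {N : ℕ} : ∀ {l : List ℕ}, (∀ q ∈ l, g q < 2 ^ N) → xgG g l < 2 ^ N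
  | [], _ => Nat.two_pow_pos _
  | q :: l, h => by
    have e : xgG g (q :: l) = g q ^^^ xgG g l := rfl
    rw [e]
    exact Nat.xor_lt_two_pow (h q List.mem_cons_self) (xgG_lt fun q' hq' =>
      h q' (List.mem_cons_of_mem _ hq'))

end Pool.Agent.Lib.MP_afdd4d_co.K9.W6
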