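import Pool.Agent.Lib.MP_afdd4d_co.K9.W6Lin

/-!
# Sums over the permutations of the window as sums over the placements of a family with linear keys
-/

namespace Pool.Agent.Lib.MP_afdd4d_co.K9.W6

open Finset K8
open Pool.Agent.Lib.MP_afdd4d_co.K9.Star

/-! ### The forms of a program for the kernel -/

/-- The form of the bit `r` after a program. -/
def syK (l : List (ℕ × ℕ × ℕ)) : ℕ → ℕ → ℕ :=
  @List.rec (ℕ × ℕ × ℕ) (fun _ => ℕ → ℕ → ℕ) (fun _ r => Nat.pow 2 (Nat.succ r))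
    (fun I _ ih n r => @Prod.rec ℕ (ℕ × ℕ) (fun _ => ℕ) (fun k J => @Prod.rec ℕ ℕ (fun _ => ℕ)
      (fun p q => @Bool.rec (fun _ => ℕ)
        (@Bool.rec (fun _ => ℕ)
          (@Bool.rec (fun _ => ℕ)
            (@Bool.rec (fun _ => ℕ) (ih n r) (Nat.xor (ih n r) 1) (Nat.beq r p))
            (@Bool.rec (fun _ => ℕ) (ih n r) (Nat.xor (ih n r) (ih n p)) (Nat.beq r q))
            (Nat.beq k 2))
          (ih n (@Bool.rec (fun _ => ℕ) (@Bool.rec (fun _ => ℕ) r p (Nat.beq r q)) q (Nat.beq r p)))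
          (Nat.beq k 1))
        (ih (Nat.succ n) (@Bool.rec (fun _ => ℕ) r n (Nat.beq r p)))
        (Nat.beq k 0)) J) I) l

theorem brec_beq {α : Type} (a b : ℕ) (x y : α) :
    @Bool.rec (fun _ => α) x y (Nat.beq a b) = if a = b then y else x := by
  by_cases h : a = b
  · rw [if_pos h, h, Nat.beq_refl]
  · rw [if_neg h]
    have e : Nat.beq a b = false := by
      rw [Bool.eq_false_iff]
      intro h2
      exact h (Nat.eq_of_beq_eq_true h2)
    rw [e]

theorem syK_eq : ∀ (l : List (ℕ × ℕ × ℕ)) (n r : ℕ), syK l n r = syG l n r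
  | [], _, _ => rfl
  | (k, p, q) :: l, n, r => by
    have ih := syK_eq l
    have e : syK ((k, p, q) :: l) n r = @Bool.rec (fun _ => ℕ)
        (@Bool.rec (fun _ => ℕ)
          (@Bool.rec (fun _ => ℕ)
            (@Bool.rec (fun _ => ℕ) (syK l n r) (syK l n r ^^^ 1) (Nat.beq r p))
            (@Bool.rec (fun _ => ℕ) (syK l n r) (syK l n r ^^^ syK l n p) (Nat.beq r q))
            (Nat.beq k 2))
          (syK l n (@Bool.rec (fun _ => ℕ) (@Bool.rec (fun _ => ℕ) r p (Nat.beq r q)) q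
            (Nat.beq r p)))
          (Nat.beq k 1))
        (syK l (n + 1) (@Bool.rec (fun _ => ℕ) r n (Nat.beq r p)))
        (Nat.beq k 0) := rfl
    rw [e]
    simp only [brec_beq, ih]
    rw [syG]

/-! ### Composition of forms -/

/-- The sum of the entries of a list at the bits of a number. -/
def cmL (l : List ℕ) : ℕ → ℕ :=
  @List.rec ℕ (fun _ => ℕ → ℕ) (fun _ => 0)
    (fun a _ ih m => Nat.xor (Nat.mul a (Nat.mod m 2)) (ih (Nat.div m 2))) l

/-- The same with a constant, the bit `0`. -/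
def cmK (l : List ℕ) (m : ℕ) : ℕ := Nat.xor (Nat.mod m 2) (cmL l (Nat.div m 2))

/-- The sum of the bits of `b` at the bits of a number. -/
def lg : ℕ → ℕ → (ℕ → Bool) → Bool
  | 0, _, _ => false
  | n + 1, m, b => lg n m b ^^ (m.testBit n && b n)

theorem lf_lg (m : ℕ) (b : ℕ → Bool) : ∀ n : ℕ, lf n m b = (m.testBit 0 ^^ lg n (m / 2) b)
  | 0 => by rw [lf, lg, Bool.xor_false]
  | n + 1 => by
    rw [lf, lg, lf_lg m b n, Nat.testBit_succ, Bool.xor_assoc]

theorem lg_front (b : ℕ → Bool) (m : ℕ) : ∀ n : ℕ,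
    lg (n + 1) m b = ((m.testBit 0 && b 0) ^^ lg n (m / 2) fun i => b (i + 1))
  | 0 => by rw [lg, lg, lg, Bool.false_xor, Bool.xor_false]
  | n + 1 => by
    rw [lg, lg_front b m n, lg, Nat.testBit_succ, Bool.xor_assoc]

theorem xor_tn (x y : Bool) : Nat.xor x.toNat y.toNat = (x ^^ y).toNat := by
  cases x <;> cases y <;> rfl

theorem lf_cmL (M : ℕ) (B : ℕ → Bool) : ∀ (l : List ℕ) (m : ℕ),
    lf M (cmL l m) B = lg l.length m fun i => lf M (nthG 0 l i) B
  | [], m => lf_zero _ _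
  | a :: l, m => by
    have e : cmL (a :: l) m = (a * (m % 2)) ^^^ cmL l (m / 2) := rfl
    have e2 : (fun i => lf M (nthG 0 (a :: l) (i + 1)) B) = fun i => lf M (nthG 0 l i) B := rfl
    have e3 : lf M (nthG 0 (a :: l) 0) B = lf M a B := rfl
    rw [e, lf_xor, lf_cmL M B l (m / 2), List.length_cons, lg_front, e2, e3, Nat.testBit_zero]
    congr 1
    rcases Nat.mod_two_eq_zero_or_one m with h | h
    · rw [h, mul_zero, lf_zero]
      rfl
    · rw [h, mul_one]
      simp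

theorem lf_cmK (M : ℕ) (B : ℕ → Bool) (l : List ℕ) (m : ℕ) :
    lf M (cmK l m) B = lf l.length m fun i => lf M (nthG 0 l i) B := by
  have e : cmK l m = (m % 2) ^^^ cmL l (m / 2) := rfl
  rw [e, lf_xor, lf_cmL, lf_lg m _ l.length]
  congr 1
  rw [Nat.testBit_zero]
  rcases Nat.mod_two_eq_zero_or_one m with h | h
  · rw [h, lf_zero]
    rfl
  · rw [h, lf_one]
    rfl

/-! ### The table of the permutations -/

/-- An entry of a table of positions. -/
def psG (V q : ℕ) : ℕ := Nat.mod (Nat.shiftRight V (Nat.mul 5 q)) 32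

/-- The check of a table of positions. -/
def gvG (N V : ℕ) : Bool := alG (fun q => Nat.beq (psG V q) (qx N q)) 21
where
  /-- All numbers below a bound. -/
  alG (f : ℕ → Bool) (n : ℕ) : Bool := @Nat.rec (fun _ => Bool) true (fun k ih => and (f k) ih) n

theorem alG_spec (f : ℕ → Bool) : ∀ n : ℕ, gvG.alG f n = true → ∀ k < n, f k = true
  | 0, _, k, hk => absurd hk (Nat.not_lt_zero k)
  | n + 1, h, k, hk => by
    have e : gvG.alG f (n + 1) = (f n && gvG.alG f n) := rfl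
    rw [e, Bool.and_eq_true] at h
    rcases Nat.lt_succ_iff_lt_or_eq.mp hk with h1 | rfl
    · exact alG_spec f n h.2 k h1
    · exact h.1

/-- The table of the permutations: the codes and the positions. -/
structure PT where
  N : List ℕ
  V : List ℕ

/-- The conditions on the table. -/
structure PT.OK (P : PT) : Prop where
  hN : okC P.N = true
  hV : ∀ i < 720, gvG (nthG 0 P.N i) (nthG 0 P.V i) = true

/-- The check of a list of ranks. -/
def okRk (l : List ℕ) : Bool :=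
  Nat.beq l.length 720 && (ndM l 0 && l.all fun a => Nat.blt a 720)

theorem nthG_get {l : List ℕ} {i : ℕ} (h : i < l.length) : nthG 0 l i = l[i] := by
  induction l generalizing i with
  | nil => exact absurd h (Nat.not_lt_zero i)
  | cons a l ih =>
    cases i with
    | zero => rfl
    | succ i => exact ih (by simpa using h)

theorem PT.dg_inj {P : PT} (h : P.OK) (i : ℕ) (hi : i < 720) :
    Function.Injective (dg (nthG 0 P.N i)) := by
  have h1 := h.hN
  rw [okC, Bool.and_eq_true, Bool.and_eq_true] at h1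
  obtain ⟨h2, _, h3⟩ := h1
  have h2 := Nat.eq_of_beq_eq_true h2
  rw [nthG_get (by omega)]
  exact (ijG_spec _ (List.all_eq_true.mp h3 _ (List.getElem_mem _))).2

/-- The sum over all permutations by ranks. -/
theorem PT.sum {P : PT} (h : P.OK) (l : List ℕ) (hl : okRk l = true) (F : (Fin 6 → Fin 6) → ℤ) :
    ∑ σ : Equiv.Perm (Fin 6), F σ = (l.map fun i => F (dg (nthG 0 P.N i))).sum := by
  have h1 := h.hN
  rw [sum_codes P.N h1 F]
  rw [okC, Bool.and_eq_true, Bool.and_eq_true] at h1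
  obtain ⟨h2, _, _⟩ := h1
  have h2 := Nat.eq_of_beq_eq_true h2
  rw [okRk, Bool.and_eq_true, Bool.and_eq_true] at hl
  obtain ⟨g1, g2, g3⟩ := hl
  have g1 := Nat.eq_of_beq_eq_true g1
  have g2 := (ndM_spec l 0 g2).1
  have e1 : P.N = (List.range 720).map (nthG 0 P.N) := by
    apply List.ext_getElem
    · rw [List.length_map, List.length_range, h2]
    · intro i hi _
      rw [List.getElem_map, List.getElem_range, nthG_get hi]
  have e2 : (P.N.map fun N => F (dg N)).sum =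
      ∑ i ∈ Finset.range 720, F (dg (nthG 0 P.N i)) := by
    conv_lhs => rw [e1]
    rw [List.map_map, sum_range_list]
    rfl
  have e3 : l.toFinset = Finset.range 720 := by
    apply Finset.eq_of_subset_of_card_le
    · intro i hi
      rw [List.mem_toFinset] at hi
      have := List.all_eq_true.mp g3 i hi
      rw [Nat.blt_eq] at this
      exact Finset.mem_range.mpr this
    · rw [Finset.card_range, List.toFinset_card_of_nodup g2, g1]
  rw [e2, ← e3, List.sum_toFinset _ g2]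

/-! ### Terms -/

/-- A term: the raw table with its index (sums of quadruples for the lanes, sums of positions for the
keys), `A + P = off + Q`, the programs of the symmetries with their forms, the family of the placements
with their forms and the ranks of the permutations of each placement. -/
structure Mk where
  k : ℕ
  m : ℕ
  pe : List (List ℕ)
  pq : List (List ℕ)
  off : ℕ
  U : ℕ
  A : ℕ
  P : ℕ
  Q : ℕ
  si : List (List (ℕ × ℕ × ℕ))
  fs : List (List ℕ × List ℕ)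
  F : Fk
  fp : List (List ℕ)
  cs : List (List ℕ)

/-- The form of some quadruples. -/
def xeG (g : ℕ → ℕ) (V : ℕ) (l : List ℕ) : ℕ :=
  @List.rec ℕ (fun _ => ℕ) 0 (fun q _ ih => Nat.xor (g (psG V q)) ih) l

/-- The form of some positions. -/
def xpG (NN V : ℕ) (l : List ℕ) : ℕ := @List.rec ℕ (fun _ => ℕ) 0
  (fun q _ ih => Nat.xor (Nat.pow 2 (Nat.succ (Nat.add NN (psG V q)))) ih) l

/-- The form of some positions. -/
def xfK (NN : ℕ) (l : List ℕ) : ℕ := @List.rec ℕ (fun _ => ℕ) 0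
  (fun q _ ih => Nat.xor (Nat.pow 2 (Nat.succ (Nat.add NN q))) ih) l

theorem xeG_eq (g : ℕ → ℕ) (V : ℕ) : ∀ l : List ℕ, xeG g V l = xgG g (l.map (psG V))
  | [] => rfl
  | q :: l => by
    have e : xeG g V (q :: l) = Nat.xor (g (psG V q)) (xeG g V l) := rfl
    rw [e, xeG_eq g V l]
    rfl

theorem xpG_eq (NN V : ℕ) : ∀ l : List ℕ, xpG NN V l = xfG NN (l.map (psG V))
  | [] => rfl
  | q :: l => by
    have e : xpG NN V (q :: l) = Nat.xor (2 ^ (NN + psG V q + 1)) (xpG NN V l) := rfl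
    rw [e, xpG_eq NN V l]
    rfl

theorem xfK_eq (NN : ℕ) : ∀ l : List ℕ, xfK NN l = xfG NN l
  | [] => rfl
  | q :: l => by
    have e : xfK NN (q :: l) = Nat.xor (2 ^ (NN + q + 1)) (xfK NN l) := rfl
    rw [e, xfK_eq NN l]
    rfl

/-- The check of the forms of a list of bits. -/
def zG (h : List ℕ → ℕ) (fp : List ℕ) (ls : List (List ℕ)) : List ℕ → Bool :=
  @List.rec (List ℕ) (fun _ => List ℕ → Bool) (fun ms => Nat.beq ms.length 0)
    (fun l _ ih ms => @List.rec ℕ (fun _ => Bool) false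
      (fun m ms' _ => and (Nat.beq (cmK fp m) (h l)) (ih ms')) ms) ls

theorem zG_spec (h : List ℕ → ℕ) (fp : List ℕ) : ∀ (ls : List (List ℕ)) (ms : List ℕ),
    zG h fp ls ms = true → ms.length = ls.length ∧
      ∀ i < ls.length, cmK fp (nthG 0 ms i) = h (nthG [] ls i)
  | [], ms, hh => ⟨Nat.eq_of_beq_eq_true hh, fun i hi => absurd hi (Nat.not_lt_zero i)⟩
  | l :: ls, [], hh => by
    have e : zG h fp (l :: ls) [] = false := rfl
    rw [e] at hh
    exact Bool.noConfusion hh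
  | l :: ls, m :: ms, hh => by
    have e : zG h fp (l :: ls) (m :: ms) = (Nat.beq (cmK fp m) (h l) && zG h fp ls ms) := rfl
    rw [e, Bool.and_eq_true] at hh
    obtain ⟨h1, h2⟩ := zG_spec h fp ls ms hh.2
    refine ⟨by rw [List.length_cons, List.length_cons, h1], fun i hi => ?_⟩
    cases i with
    | zero => exact Nat.eq_of_beq_eq_true hh.1
    | succ i => exact h2 i (by simpa using hi)

namespace Mk

/-- The bits of the index of the raw table for a code. -/
def bit (M : Mk) (NN : ℕ) (g : ℕ → ℕ) (N Y : ℕ) (b : ℕ → Bool) (r : ℕ) : Bool :=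
  if r < M.k then xrB (fun s => lf NN (g (qx N s)) b) (nthG [] M.pe r)
  else xrB (fun s => Y.testBit (qx N s)) (nthG [] M.pq (r - M.k))

/-- The check of the forms of a placement and of a permutation. -/
def ok1 (M : Mk) (NN : ℕ) (g : ℕ → ℕ) (V : ℕ) (fp : List ℕ) (f : List ℕ × List ℕ) : Bool :=
  and (zG (xeG g V) fp M.pe f.1) (zG (xpG NN V) fp M.pq f.2)

/-- The check of the forms of a placement and of its permutations. -/
def ok2 (M : Mk) (NN : ℕ) (g : ℕ → ℕ) (P : PT) (fp : List ℕ) (l : List (List ℕ × List ℕ)) :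
    List ℕ → Bool :=
  @List.rec (List ℕ × List ℕ) (fun _ => List ℕ → Bool) (fun c => Nat.beq c.length 0)
    (fun f _ ih c => @List.rec ℕ (fun _ => Bool) false
      (fun i c' _ => and (M.ok1 NN g (nthG 0 P.V i) fp f) (ih c')) c) l

/-- The check of the forms of a program of a symmetry. -/
def okS (M : Mk) (s : List (ℕ × ℕ × ℕ)) (f : List ℕ × List ℕ) : Bool :=
  and (gvG.alG (fun r => Nat.beq (syK s (Nat.add M.k M.m) r) (nthG 0 f.1 r)) M.k)
    (gvG.alG (fun r => Nat.beq (syK s (Nat.add M.k M.m) (Nat.add M.k r)) (nthG 0 f.2 r)) M.m)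

/-- The check of the forms of the programs of the symmetries. -/
def okSs (M : Mk) (l : List (List (ℕ × ℕ × ℕ))) : List (List ℕ × List ℕ) → Bool :=
  @List.rec (List (ℕ × ℕ × ℕ)) (fun _ => List (List ℕ × List ℕ) → Bool)
    (fun c => Nat.beq c.length 0)
    (fun s _ ih c => @List.rec (List ℕ × List ℕ) (fun _ => Bool) false
      (fun f c' _ => and (M.okS s f) (ih c')) c) l

/-- The check of the forms of a placement. -/
def okP (M : Mk) (NN : ℕ) (p : Pk) (f : List ℕ) : Bool :=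
  and (Nat.beq f.length (Nat.add M.F.k M.F.m))
    (and (gvG.alG (fun r => and (Nat.beq (syK p.pr M.F.k r) (nthG 0 f r))
      (Nat.blt (nthG 0 f r) (Nat.pow 2 (Nat.succ NN)))) M.F.k)
    (and (gvG.alG (fun r => Nat.beq (xfK NN (nthG [] p.ks r)) (nthG 0 f (Nat.add M.F.k r))) M.F.m)
      (p.ks.all fun l => l.all fun q => Nat.blt q 21)))

/-- The check of the placements. -/
def ok3 (M : Mk) (NN : ℕ) (g : ℕ → ℕ) (P : PT) (l : List Pk) : List (List ℕ) → List (List ℕ) → Bool :=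
  @List.rec Pk (fun _ => List (List ℕ) → List (List ℕ) → Bool)
    (fun a c => and (Nat.beq a.length 0) (Nat.beq c.length 0))
    (fun p _ ih a c => @List.rec (List ℕ) (fun _ => Bool) false
      (fun f a' _ => @List.rec (List ℕ) (fun _ => Bool) false
        (fun d c' _ => and (and (M.okP NN p f) (M.ok2 NN g P f M.fs d)) (ih a' c')) c) a) l

/-- The check of the positions of the raw table. -/
def ok0 (M : Mk) (NN : ℕ) (g : ℕ → ℕ) : Bool :=
  ((M.pe.all fun l => l.all fun q => Nat.blt q 15) &&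
    (M.pq.all fun l => l.all fun q => Nat.blt q 21)) &&
  ((List.range 15).all fun r => Nat.blt (g r) (2 ^ (NN + 1))) &&
  (Nat.beq M.pe.length M.k && Nat.beq M.pq.length M.m)

/-- All bits. -/
def BB (NN Y : ℕ) (b : ℕ → Bool) (i : ℕ) : Bool := if i < NN then b i else Y.testBit (i - NN)

section
variable {M : Mk} {NN : ℕ} {g : ℕ → ℕ} {P : PT}

theorem nthG_mem {α : Type} (l : List (List α)) (i : ℕ) : nthG [] l i = [] ∨ nthG [] l i ∈ l := by
  induction l generalizing i with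
  | nil => cases i <;> exact Or.inl rfl
  | cons a l ih =>
    cases i with
    | zero => exact Or.inr List.mem_cons_self
    | succ i =>
      rcases ih i with h | h
      · exact Or.inl h
      · exact Or.inr (List.mem_cons_of_mem _ h)

theorem all_nthG {l : List (List ℕ)} {u : ℕ} (h : (l.all fun s => s.all fun q => Nat.blt q u) = true)
    (i : ℕ) : ∀ q ∈ nthG [] l i, q < u := by
  intro q hq
  rcases nthG_mem l i with h1 | h1
  · rw [h1] at hq
    cases hq
  · have h2 := List.all_eq_true.mp (List.all_eq_true.mp h _ h1) q hq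
    rwa [Nat.blt_eq] at h2

theorem ok0_spec (hM : M.ok0 NN g = true) :
    ((M.pe.all fun l => l.all fun q => Nat.blt q 15) = true ∧
    (M.pq.all fun l => l.all fun q => Nat.blt q 21) = true) ∧
    (∀ r < 15, g r < 2 ^ (NN + 1)) ∧ M.pe.length = M.k ∧ M.pq.length = M.m := by
  unfold ok0 at hM
  rw [Bool.and_eq_true, Bool.and_eq_true, Bool.and_eq_true, Bool.and_eq_true] at hM
  obtain ⟨⟨⟨h1, h2⟩, h3⟩, h4, h5⟩ := hM
  refine ⟨⟨h1, h2⟩, fun r hr => ?_, Nat.eq_of_beq_eq_true h4, Nat.eq_of_beq_eq_true h5⟩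
  have := List.all_eq_true.mp h3 r (List.mem_range.mpr hr)
  rwa [Nat.blt_eq] at this

theorem lf_fpl (Y : ℕ) (b : ℕ → Bool) (p : Pk) (f : List ℕ) (hks : p.ks.length = M.F.m)
    (hp : M.okP NN p f = true) : f.length = M.F.k + M.F.m ∧ ∀ i < M.F.k + M.F.m,
    lf (NN + 21) (nthG 0 f i) (BB NN Y b) =
      cbk M.F.k (kxG Y p.ks) (fun r => lf NN (syG p.pr M.F.k r) b) i := by
  unfold okP at hp
  rw [Bool.and_eq_true, Bool.and_eq_true, Bool.and_eq_true] at hp
  obtain ⟨h0, h1, h2, h3⟩ := hp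
  refine ⟨Nat.eq_of_beq_eq_true h0, fun i hi => ?_⟩
  unfold cbk
  by_cases h : i < M.F.k
  · rw [if_pos h]
    have h4 := alG_spec _ _ h1 i h
    rw [Bool.and_eq_true, Nat.blt_eq] at h4
    have h5 : syK p.pr M.F.k i = nthG 0 f i := Nat.eq_of_beq_eq_true h4.1
    have h6 : nthG 0 f i < 2 ^ (NN + 1) := h4.2
    rw [syK_eq] at h5
    show _ = lf NN (syG p.pr M.F.k i) b
    rw [h5, lf_ext NN 21 _ _ h6]
    apply lf_congr
    intro j hj
    unfold BB
    rw [if_pos hj]
  · rw [if_neg h]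
    obtain ⟨j, rfl⟩ : ∃ j, i = M.F.k + j := ⟨i - M.F.k, by omega⟩
    rw [Nat.add_sub_cancel_left]
    have h5 : xfK NN (nthG [] p.ks j) = nthG 0 f (M.F.k + j) :=
      Nat.eq_of_beq_eq_true (alG_spec _ _ h2 j (by omega))
    rw [← h5, xfK_eq, lf_xfG NN 21 _ _ (all_nthG h3 _), kxG_bit Y p.ks _ (by omega)]
    apply xrB_congr
    intro q _
    unfold BB
    rw [if_neg (by omega), Nat.add_sub_cancel_left]

theorem qx_lt21 (N : ℕ) (hN : Function.Injective (dg N)) (q : ℕ) (hq : q < 21) : qx N q < 21 := by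
  by_cases h : q < 15
  · rw [qx_lt N q h]
    exact lt_trans (qi_geo N hN q h).1 (by norm_num)
  · obtain ⟨a, rfl⟩ : ∃ a, q = 15 + a := ⟨q - 15, by omega⟩
    rw [qx_ge]
    have := dn_lt N a
    omega

/-- The form of a bit of the index of the raw table. -/
theorem lf_frm (hM : M.ok0 NN g = true) (hP : P.OK) (i : ℕ) (hi : i < 720) (Y : ℕ)
    (b : ℕ → Bool) (r : ℕ) :
    lf (NN + 21) (if r < M.k then xeG g (nthG 0 P.V i) (nthG [] M.pe r)
      else xpG NN (nthG 0 P.V i) (nthG [] M.pq (r - M.k))) (BB NN Y b) =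
      M.bit NN g (nthG 0 P.N i) Y b r := by
  obtain ⟨⟨h1, h2⟩, h3, _, _⟩ := ok0_spec hM
  have hN := P.dg_inj hP i hi
  have hV : ∀ q < 21, psG (nthG 0 P.V i) q = qx (nthG 0 P.N i) q := fun q hq =>
    Nat.eq_of_beq_eq_true (alG_spec _ _ (hP.hV i hi) q hq)
  unfold bit
  by_cases h : r < M.k
  · rw [if_pos h, if_pos h, xeG_eq]
    have e : (nthG [] M.pe r).map (psG (nthG 0 P.V i)) =
        (nthG [] M.pe r).map (qx (nthG 0 P.N i)) :=
      List.map_congr_left fun q hq => hV q (lt_trans (all_nthG h1 r q hq) (by norm_num))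
    rw [e]
    have h4 : xgG g ((nthG [] M.pe r).map (qx (nthG 0 P.N i))) < 2 ^ (NN + 1) := by
      apply xgG_lt
      intro q hq
      rw [List.mem_map] at hq
      obtain ⟨s, hs, rfl⟩ := hq
      have h5 := all_nthG h1 r s hs
      apply h3
      rw [qx_lt _ s h5]
      exact (qi_geo _ hN s h5).1
    rw [lf_ext NN 21 _ _ h4, lf_xgG, xrB_map]
    apply xrB_congr
    intro q _
    apply lf_congr
    intro j hj
    unfold BB
    rw [if_pos hj]
  · rw [if_neg h, if_neg h, xpG_eq]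
    have e : (nthG [] M.pq (r - M.k)).map (psG (nthG 0 P.V i)) =
        (nthG [] M.pq (r - M.k)).map (qx (nthG 0 P.N i)) :=
      List.map_congr_left fun q hq => hV q (all_nthG h2 _ q hq)
    rw [e, lf_xfG NN 21 _ _ (by
      intro q hq
      rw [List.mem_map] at hq
      obtain ⟨s, hs, rfl⟩ := hq
      exact qx_lt21 _ hN s (all_nthG h2 _ s hs)), xrB_map]
    apply xrB_congr
    intro q _
    unfold BB
    rw [if_neg (by omega), Nat.add_sub_cancel_left]

/-- The value of the raw table for a code. -/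
def vN (M : Mk) (W NN : ℕ) (g : ℕ → ℕ) (Y : ℕ) (b : ℕ → Bool) (N : ℕ) : ℕ :=
  Ln W M.A (idx (M.k + M.m) (M.bit NN g N Y b))

theorem okS_spec {s : List (ℕ × ℕ × ℕ)} {f : List ℕ × List ℕ} (h : M.okS s f = true) :
    ∀ r < M.k + M.m, syG s (M.k + M.m) r =
      if r < M.k then nthG 0 f.1 r else nthG 0 f.2 (r - M.k) := by
  unfold okS at h
  rw [Bool.and_eq_true] at h
  intro r hr
  rw [← syK_eq]
  by_cases h1 : r < M.k
  · rw [if_pos h1]
    exact Nat.eq_of_beq_eq_true (alG_spec _ _ h.1 r h1)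
  · rw [if_neg h1]
    obtain ⟨j, rfl⟩ : ∃ j, r = M.k + j := ⟨r - M.k, by omega⟩
    rw [Nat.add_sub_cancel_left]
    exact Nat.eq_of_beq_eq_true (alG_spec _ _ h.2 j (by omega))

theorem ok1_spec {W : ℕ} (hM : M.ok0 NN g = true) (hP : P.OK) (Y : ℕ) (b : ℕ → Bool) (p : Pk)
    (f : List ℕ) (hks : p.ks.length = M.F.m) (hp : M.okP NN p f = true)
    (s : List (ℕ × ℕ × ℕ)) (d : List ℕ × List ℕ) (hs : M.okS s d = true) (i : ℕ) (hi : i < 720)
    (h : M.ok1 NN g (nthG 0 P.V i) f d = true) :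
    Ln W M.A (idx (M.k + M.m) fun r => lf (M.F.k + M.F.m) (syG s (M.k + M.m) r)
      (cbk M.F.k (kxG Y p.ks) fun r => lf NN (syG p.pr M.F.k r) b)) =
      M.vN W NN g Y b (nthG 0 P.N i) := by
  obtain ⟨_, _, g3, g4⟩ := ok0_spec hM
  obtain ⟨f1, f2⟩ := lf_fpl Y b p f hks hp
  unfold ok1 at h
  rw [Bool.and_eq_true] at h
  have h1 := (zG_spec _ _ _ _ h.1).2
  have h2 := (zG_spec _ _ _ _ h.2).2
  have h3 := okS_spec hs
  unfold vN
  congr 1
  apply idx_congr
  intro r hr
  rw [← lf_frm hM hP i hi Y b r, h3 r hr]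
  have e : (if r < M.k then xeG g (nthG 0 P.V i) (nthG [] M.pe r)
      else xpG NN (nthG 0 P.V i) (nthG [] M.pq (r - M.k))) =
      cmK f (if r < M.k then nthG 0 d.1 r else nthG 0 d.2 (r - M.k)) := by
    by_cases h4 : r < M.k
    · rw [if_pos h4, if_pos h4]
      exact (h1 r (by omega)).symm
    · rw [if_neg h4, if_neg h4]
      exact (h2 (r - M.k) (by omega)).symm
  rw [e, lf_cmK, f1]
  apply lf_congr
  intro j hj
  exact (f2 j hj).symm

theorem ok2_spec {W : ℕ} (hM : M.ok0 NN g = true) (hP : P.OK) (Y : ℕ) (b : ℕ → Bool) (p : Pk)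
    (f : List ℕ) (hks : p.ks.length = M.F.m) (hp : M.okP NN p f = true) :
    ∀ (l : List (List (ℕ × ℕ × ℕ))) (ds : List (List ℕ × List ℕ)) (c : List ℕ),
      M.okSs l ds = true → (∀ i ∈ c, i < 720) → M.ok2 NN g P f ds c = true →
      vgK W (M.k + M.m) (M.F.k + M.F.m) M.A (cbk M.F.k (kxG Y p.ks)
        fun r => lf NN (syG p.pr M.F.k r) b) l =
      (c.map fun i => M.vN W NN g Y b (nthG 0 P.N i)).sum
  | [], [], [], _, _, _ => rfl
  | [], [], _ :: _, _, _, h => by
    exact absurd (Nat.eq_of_beq_eq_true h) (by simp)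
  | [], _ :: _, _, h, _, _ => by
    exact absurd (Nat.eq_of_beq_eq_true h) (by simp)
  | s :: l, [], _, h, _, _ => by
    have e : M.okSs (s :: l) [] = false := rfl
    rw [e] at h
    exact Bool.noConfusion h
  | _ :: _, d :: ds, [], _, _, h => by
    have e : M.ok2 NN g P f (d :: ds) [] = false := rfl
    rw [e] at h
    exact Bool.noConfusion h
  | s :: l, d :: ds, i :: c, hs, hc, h => by
    have e1 : M.okSs (s :: l) (d :: ds) = (M.okS s d && M.okSs l ds) := rfl
    have e2 : M.ok2 NN g P f (d :: ds) (i :: c) =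
      (M.ok1 NN g (nthG 0 P.V i) f d && M.ok2 NN g P f ds c) := rfl
    rw [e1, Bool.and_eq_true] at hs
    rw [e2, Bool.and_eq_true] at h
    have h1 := ok2_spec (W := W) hM hP Y b p f hks hp l ds c hs.2
      (fun i' hi' => hc i' (List.mem_cons_of_mem _ hi')) h.2
    have h2 := ok1_spec (W := W) hM hP Y b p f hks hp s d hs.1 i (hc i List.mem_cons_self) h.1
    unfold vgK at h1 ⊢
    rw [List.map_cons, List.sum_cons, List.map_cons, List.sum_cons, h1, h2]

theorem ok3_spec {W : ℕ} (hM : M.ok0 NN g = true) (hP : P.OK) (Y : ℕ) (b : ℕ → Bool)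
    (hS : M.okSs M.si M.fs = true)
    (hT : ∀ c, Ln W M.F.A (idx (M.F.k + M.F.m) c) =
      vgK W (M.k + M.m) (M.F.k + M.F.m) M.A c M.si) :
    ∀ (l : List Pk) (a cs : List (List ℕ)), (∀ p ∈ l, p.ks.length = M.F.m) →
      (∀ i ∈ cs.flatten, i < 720) → M.ok3 NN g P l a cs = true →
      M.F.vl W NN Y b l = (cs.flatten.map fun i => M.vN W NN g Y b (nthG 0 P.N i)).sum
  | [], a, cs, _, _, h => by
    have e : M.ok3 NN g P [] a cs = (Nat.beq a.length 0 && Nat.beq cs.length 0) := rfl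
    rw [e, Bool.and_eq_true] at h
    have h1 := List.eq_nil_of_length_eq_zero (Nat.eq_of_beq_eq_true h.2)
    rw [h1]
    rfl
  | p :: l, [], cs, _, _, h => by
    have e : M.ok3 NN g P (p :: l) [] cs = false := rfl
    rw [e] at h
    exact Bool.noConfusion h
  | p :: l, f :: a, [], _, _, h => by
    have e : M.ok3 NN g P (p :: l) (f :: a) [] = false := rfl
    rw [e] at h
    exact Bool.noConfusion h
  | p :: l, f :: a, c :: cs, hp, hc, h => by
    have e : M.ok3 NN g P (p :: l) (f :: a) (c :: cs) =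
      ((M.okP NN p f && M.ok2 NN g P f M.fs c) && M.ok3 NN g P l a cs) := rfl
    rw [e, Bool.and_eq_true, Bool.and_eq_true] at h
    rw [List.flatten_cons] at hc
    have h1 := ok3_spec hM hP Y b hS hT l a cs (fun p' hp' => hp p' (List.mem_cons_of_mem _ hp'))
      (fun N hN => hc N (List.mem_append.mpr (Or.inr hN))) h.2
    have h2 := ok2_spec (W := W) hM hP Y b p f (hp p List.mem_cons_self) h.1.1 M.si M.fs c hS
      (fun N hN => hc N (List.mem_append.mpr (Or.inl hN))) h.1.2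
    rw [Fk.vl_cons, h1, List.flatten_cons, List.map_append, List.sum_append, ← h2]
    unfold Fk.v
    rw [hT]

end

/-! ### The checks of a term -/

/-- The check of the family of a term. -/
def ckF (M : Mk) (W NN : ℕ) : Bool :=
  and (Nat.blt M.F.A (Nat.pow 2 (Nat.mul W (Nat.pow 2 (Nat.add M.F.k M.F.m)))))
    (and (lbG W (Nat.add M.F.k M.F.m) M.F.U M.F.A) (M.F.pl.all fun p =>
      (Nat.beq p.ks.length M.F.m) && (okR p.pr M.F.k && Nat.beq (ndG p.pr M.F.k) NN)))

/-- The check of the tables of a term. -/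
def ckT (M : Mk) (W : ℕ) : Bool :=
  and (and (Nat.blt M.A (Nat.pow 2 (Nat.mul W (Nat.pow 2 (Nat.add M.k M.m)))))
    (and (Nat.blt M.P (Nat.pow 2 (Nat.mul W (Nat.pow 2 (Nat.add M.k M.m)))))
      (Nat.blt M.Q (Nat.pow 2 (Nat.mul W (Nat.pow 2 (Nat.add M.k M.m)))))))
  (and (and (lbG W (Nat.add M.k M.m) M.U M.A)
    (and (lbG W (Nat.add M.k M.m) (Nat.sub (Nat.pow 2 (Nat.sub W 1)) 1) M.P)
      (lbG W (Nat.add M.k M.m) (Nat.sub (Nat.pow 2 (Nat.sub W 1)) 1) M.Q)))
  (and (and (Nat.blt M.U (Nat.pow 2 (Nat.sub W 1))) (Nat.blt M.off (Nat.pow 2 (Nat.sub W 1))))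
    (Nat.beq (Nat.add M.A M.P) (Nat.add (csG W M.off (Nat.add M.k M.m)) M.Q))))

/-- The check of the sum of the images of the table of a term. -/
def ckS (M : Mk) (W : ℕ) : Bool :=
  and (M.si.all fun s => okR s (M.k + M.m) && Nat.beq (ndG s (M.k + M.m)) (M.F.k + M.F.m))
    (and (Nat.blt (Nat.mul M.si.length M.U) (Nat.pow 2 W))
      (Nat.beq M.F.A (sgK W (Nat.add M.k M.m) M.A M.si)))

/-- The check of the placements and permutations of a term. -/
def ckQ (M : Mk) (NN : ℕ) (g : ℕ → ℕ) (P : PT) : Bool :=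
  and (M.ok0 NN g) (and (okRk M.cs.flatten) (and (M.okSs M.si M.fs) (M.ok3 NN g P M.F.pl M.fp M.cs)))

/-- The check of a term. -/
def ck (M : Mk) (W NN : ℕ) (g : ℕ → ℕ) (P : PT) : Bool :=
  and (and (M.ckF W NN) (and (M.ckT W) (M.ckS W))) (M.ckQ NN g P)

/-- The value of a term from the bits of the lanes and of the keys. -/
def val (M : Mk) (W : ℕ) (e y : ℕ → Bool) : ℤ :=
  (Ln W M.P (idx (M.k + M.m) fun r => if r < M.k then xrB e (nthG [] M.pe r)
    else xrB y (nthG [] M.pq (r - M.k))) : ℤ) -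
  Ln W M.Q (idx (M.k + M.m) fun r => if r < M.k then xrB e (nthG [] M.pe r)
    else xrB y (nthG [] M.pq (r - M.k)))

section
variable {M : Mk} {W NN : ℕ} {g : ℕ → ℕ} {P : PT}

theorem ckF_spec (hW : 0 < W) (h : M.ckF W NN = true) : M.F.OK W NN := by
  unfold ckF at h
  simp only [Bool.and_eq_true] at h
  obtain ⟨h1, h2, h3⟩ := h
  rw [Nat.blt_eq] at h1
  have h1 : M.F.A < 2 ^ (W * 2 ^ (M.F.k + M.F.m)) := h1
  refine ⟨h1, fun b => ?_, fun p hp => ?_⟩
  · exact lbG_spec (f := fun b => Ln W M.F.A (idx (M.F.k + M.F.m) b)) hW ⟨h1, fun b => rfl⟩ h2 b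
  · have h4 := List.all_eq_true.mp h3 p hp
    rw [Bool.and_eq_true, Bool.and_eq_true] at h4
    exact ⟨Nat.eq_of_beq_eq_true h4.1, h4.2.1, Nat.eq_of_beq_eq_true h4.2.2⟩

theorem ckT_spec (hW : 0 < W) (h : M.ckT W = true) : M.A < 2 ^ (W * 2 ^ (M.k + M.m)) ∧
    (∀ b, Ln W M.A (idx (M.k + M.m) b) ≤ M.U) ∧ ∀ b, Ln W M.A (idx (M.k + M.m) b) +
      Ln W M.P (idx (M.k + M.m) b) = M.off + Ln W M.Q (idx (M.k + M.m) b) := by
  have h2W : 2 ^ W = 2 ^ (W - 1) + 2 ^ (W - 1) := by
    conv_lhs => rw [show W = W - 1 + 1 by omega]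
    rw [pow_succ]
    ring
  have hPp : 0 < 2 ^ (W - 1) := Nat.two_pow_pos _
  unfold ckT at h
  simp only [Bool.and_eq_true] at h
  obtain ⟨⟨h1, h2, h3⟩, ⟨h4, h5, h6⟩, ⟨h7, h8⟩, h9⟩ := h
  rw [Nat.blt_eq] at h1 h2 h3 h7 h8
  have h1 : M.A < 2 ^ (W * 2 ^ (M.k + M.m)) := h1
  have h2 : M.P < 2 ^ (W * 2 ^ (M.k + M.m)) := h2
  have h3 : M.Q < 2 ^ (W * 2 ^ (M.k + M.m)) := h3
  have h7 : M.U < 2 ^ (W - 1) := h7
  have h8 : M.off < 2 ^ (W - 1) := h8
  have h9 : M.A + M.P = csG W M.off (M.k + M.m) + M.Q := Nat.eq_of_beq_eq_true h9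
  have hA : Ar W (M.k + M.m) M.A fun b => Ln W M.A (idx (M.k + M.m) b) := ⟨h1, fun b => rfl⟩
  have hP : Ar W (M.k + M.m) M.P fun b => Ln W M.P (idx (M.k + M.m) b) := ⟨h2, fun b => rfl⟩
  have hQ : Ar W (M.k + M.m) M.Q fun b => Ln W M.Q (idx (M.k + M.m) b) := ⟨h3, fun b => rfl⟩
  have h4 : lbG W (M.k + M.m) M.U M.A = true := h4
  have h5 : lbG W (M.k + M.m) (2 ^ (W - 1) - 1) M.P = true := h5
  have h6 : lbG W (M.k + M.m) (2 ^ (W - 1) - 1) M.Q = true := h6
  have g4 := lbG_spec hW hA h4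
  have g5 := lbG_spec hW hP h5
  have g6 := lbG_spec hW hQ h6
  refine ⟨h1, g4, fun b => ?_⟩
  have e1 := (hA.add hP hW fun b => by have := g4 b; have := g5 b; omega).get b
  have e2 := ((csG_ar (W := W) (c := M.off) hW (by omega) (M.k + M.m)).add hQ hW
    fun b => by have := g6 b; omega).get b
  rw [h9, e2] at e1
  exact e1.symm

theorem ckS_spec (hW : 0 < W) (hA : M.A < 2 ^ (W * 2 ^ (M.k + M.m)))
    (hU : ∀ b, Ln W M.A (idx (M.k + M.m) b) ≤ M.U) (h : M.ckS W = true) (c : ℕ → Bool) :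
    Ln W M.F.A (idx (M.F.k + M.F.m) c) = vgK W (M.k + M.m) (M.F.k + M.F.m) M.A c M.si := by
  unfold ckS at h
  simp only [Bool.and_eq_true] at h
  obtain ⟨h1, h2, h3⟩ := h
  rw [Nat.blt_eq] at h2
  have h2 : M.si.length * M.U < 2 ^ W := h2
  have h3 : M.F.A = sgK W (M.k + M.m) M.A M.si := Nat.eq_of_beq_eq_true h3
  rw [h3]
  refine (sgK_ar hW hA hU M.si (fun s hs => ?_) h2).get c
  have h4 := List.all_eq_true.mp h1 s hs
  rw [Bool.and_eq_true] at h4
  exact ⟨h4.1, Nat.eq_of_beq_eq_true h4.2⟩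

/-- The sum over all permutations of the values of a term. -/
theorem ck_spec (hW : 0 < W) (hP : P.OK) (h : M.ck W NN g P = true) : M.F.OK W NN ∧
    ∀ (Y : ℕ) (b : ℕ → Bool)
    (Z : (Fin 6 → Fin 6) → ℤ), (∀ N, Function.Injective (dg N) → Z (dg N) =
      M.val W (fun s => lf NN (g (qx N s)) b) (fun s => Y.testBit (qx N s))) →
    ∑ σ : Equiv.Perm (Fin 6), Z σ + (M.F.vl W NN Y b M.F.pl : ℤ) = 720 * M.off := by
  unfold ck ckQ at h
  simp only [Bool.and_eq_true] at h
  obtain ⟨⟨h1, h2, h3⟩, h4, h5, h6, h7⟩ := h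
  have g1 := ckF_spec hW h1
  obtain ⟨g2, g3, g4⟩ := ckT_spec hW h2
  have g5 := ckS_spec hW g2 g3 h3
  refine ⟨g1, fun Y b Z hZ => ?_⟩
  have hc' := h5
  rw [okRk, Bool.and_eq_true, Bool.and_eq_true] at hc'
  obtain ⟨f1, _, f3⟩ := hc'
  have f1 := Nat.eq_of_beq_eq_true f1
  have f3 : ∀ i ∈ M.cs.flatten, i < 720 := fun i hi => by
    have := List.all_eq_true.mp f3 i hi
    rwa [Nat.blt_eq] at this
  rw [ok3_spec h4 hP Y b h6 g5 M.F.pl M.fp M.cs (fun p hp => (g1.hp p hp).1) f3 h7,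
    P.sum hP _ h5 Z]
  have key : ∀ l : List ℕ, (∀ i ∈ l, i < 720) →
      (l.map fun i => Z (dg (nthG 0 P.N i))).sum +
        (((l.map fun i => M.vN W NN g Y b (nthG 0 P.N i)).sum : ℕ) : ℤ) =
        l.length * M.off := by
    intro l
    induction l with
    | nil => intro _; simp
    | cons i l ih =>
      intro hl
      have ih := ih fun N' h => hl N' (List.mem_cons_of_mem _ h)
      have e1 := hZ _ (P.dg_inj hP i (hl i List.mem_cons_self))
      have e2 := g4 (M.bit NN g (nthG 0 P.N i) Y b)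
      have e3 : Z (dg (nthG 0 P.N i)) =
          (Ln W M.P (idx (M.k + M.m) (M.bit NN g (nthG 0 P.N i) Y b)) : ℤ) -
          Ln W M.Q (idx (M.k + M.m) (M.bit NN g (nthG 0 P.N i) Y b)) := e1
      have e4 : M.vN W NN g Y b (nthG 0 P.N i) =
          Ln W M.A (idx (M.k + M.m) (M.bit NN g (nthG 0 P.N i) Y b)) := rfl
      rw [List.map_cons, List.sum_cons, List.map_cons, List.sum_cons, List.length_cons]
      push_cast at ih ⊢
      rw [e4, e3]
      have e5 : (Ln W M.A (idx (M.k + M.m) (M.bit NN g (nthG 0 P.N i) Y b)) : ℤ) +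
          Ln W M.P (idx (M.k + M.m) (M.bit NN g (nthG 0 P.N i) Y b)) =
          M.off + Ln W M.Q (idx (M.k + M.m) (M.bit NN g (nthG 0 P.N i) Y b)) := by
        exact_mod_cast e2
      linarith
  rw [key M.cs.flatten f3, f1]
  rfl

end

end Mk

end Pool.Agent.Lib.MP_afdd4d_co.K9.W6
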