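import Pool.Agent.Lib.MP_afdd4d_co.K9.W6Chk

/-!
# Checks of the data of the rows
-/

namespace Pool.Agent.Lib.MP_afdd4d_co.K9.W6

open Finset K8
open Pool.Agent.Lib.MP_afdd4d_co.K9.Star

/-! ### Blocks -/

theorem sl3_ar {W : ℕ} (A y : ℕ) :
    Ar W 3 (slG W 3 A y) fun b => Ln W A (8 * y + idx 3 b) := by
  have e1 : slG W 3 A y = (A >>> (W * (2 ^ 3 * y))) % 2 ^ (W * 2 ^ 3) := by
    have : slG W 3 A y = (A >>> (W * 2 ^ 3 * y)) % 2 ^ (W * 2 ^ 3) := rfl
    rw [this, mul_assoc]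
  refine ⟨?_, fun b => ?_⟩
  · rw [e1]
    exact Nat.mod_lt _ (Nat.two_pow_pos _)
  · rw [e1, Ln_mod, if_pos (idx_lt 3 b), Ln_shr]
    congr 1
    ring

/-- The block number `k` of a matrix. -/
def bkG (W of : ℕ) (rows : List ℕ) (k : ℕ) : ℕ := ctG W 3 (fun y =>
  Nat.sub (csG W (Nat.mul 2 of) 3)
    (slG W 3 (nthG 0 rows (Nat.add (Nat.mod y 8) (Nat.mul 8 k))) (Nat.div y 8))) 8 0

theorem bkG_ar {W of : ℕ} (hW : 0 < W) (hof : 2 * of < 2 ^ W) (rows : List ℕ)
    (hr : ∀ a < 256, ∀ j < 256, Ln W (nthG 0 rows a) j ≤ 2 * of) (k : ℕ) (hk : k < 32) :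
    Ar W 11 (bkG W of rows k) fun b =>
      2 * of - Ln W (nthG 0 rows (idx 3 (fun r => b (3 + r)) + 8 * k))
        (idx 3 b + 8 * idx 5 (fun r => b (6 + r))) := by
  have h1 : ∀ y < 256, Ar W 3 (Nat.sub (csG W (Nat.mul 2 of) 3)
      (slG W 3 (nthG 0 rows (Nat.add (Nat.mod y 8) (Nat.mul 8 k))) (Nat.div y 8))) fun b =>
        2 * of - Ln W (nthG 0 rows (y % 8 + 8 * k)) (8 * (y / 8) + idx 3 b) := by
    intro y hy
    refine (csG_ar hW hof 3).sub (sl3_ar (nthG 0 rows (y % 8 + 8 * k)) (y / 8)) hW fun b => ?_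
    have := idx_lt 3 b
    exact hr _ (by omega) _ (by omega)
  have h2 := ctG_ar hW 256 h1 8 0 (by norm_num)
  refine h2.congr fun b => ?_
  have e1 : idx 8 (fun r => b (3 + r)) = idx 3 (fun r => b (3 + r)) +
      8 * idx 5 (fun r => b (6 + r)) := by
    have := idx_split 3 5 fun r => b (3 + r)
    rw [show 3 + 5 = 8 from rfl] at this
    rw [this]
    have e2 : idx 5 (fun r => b (3 + (3 + r))) = idx 5 (fun r => b (6 + r)) := by
      apply idx_congr
      intro r _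
      congr 1
      ring
    rw [e2]
    norm_num
  have h3 := idx_lt 3 (fun r => b (3 + r))
  have h4 := idx_lt 5 (fun r => b (6 + r))
  rw [Nat.zero_add, e1]
  have e3 : (idx 3 (fun r => b (3 + r)) + 8 * idx 5 (fun r => b (6 + r))) % 8 =
      idx 3 (fun r => b (3 + r)) := by omega
  have e4 : (idx 3 (fun r => b (3 + r)) + 8 * idx 5 (fun r => b (6 + r))) / 8 =
      idx 5 (fun r => b (6 + r)) := by omega
  rw [e3, e4, Nat.add_comm (8 * _)]

/-- The list of the blocks of a matrix. -/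
def bkL (W of : ℕ) (rows : List ℕ) : List ℕ := [
  bkG W of rows 0, bkG W of rows 1, bkG W of rows 2, bkG W of rows 3, bkG W of rows 4,
  bkG W of rows 5, bkG W of rows 6, bkG W of rows 7, bkG W of rows 8, bkG W of rows 9,
  bkG W of rows 10, bkG W of rows 11, bkG W of rows 12, bkG W of rows 13, bkG W of rows 14,
  bkG W of rows 15, bkG W of rows 16, bkG W of rows 17, bkG W of rows 18, bkG W of rows 19,
  bkG W of rows 20, bkG W of rows 21, bkG W of rows 22, bkG W of rows 23, bkG W of rows 24,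
  bkG W of rows 25, bkG W of rows 26, bkG W of rows 27, bkG W of rows 28, bkG W of rows 29,
  bkG W of rows 30, bkG W of rows 31]

theorem bkL_get (W of : ℕ) (rows : List ℕ) (k : ℕ) (hk : k < 32) :
    nthG 0 (bkL W of rows) k = bkG W of rows k := by
  interval_cases k <;> rfl

/-- The blocks of a type. -/
theorem bk_of {D : C4D} (hD : D.OK) (hW : 0 < D.W) (hof : 2 * D.of < 2 ^ D.W) (Bk : List (List ℕ))
    (hBk : ∀ τ, 0 < τ → τ < D.R.length → nthG [] Bk τ = bkL D.W D.of (D.Rw τ)) :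
    ∀ τ, 0 < τ → τ < D.R.length → ∀ k < 32, Ar D.W 11 (nthG 0 (nthG [] Bk τ) k) fun b =>
      (D.of - D.m τ (idx 3 (fun r => b (3 + r)) + 8 * k)
        (idx 3 b + 8 * idx 5 (fun r => b (6 + r)))).toNat := by
  intro τ h0 h1 k hk
  rw [hBk τ h0 h1, bkL_get _ _ _ _ hk]
  have hm : ∀ a < 256, ∀ j < 256, Ln D.W (nthG 0 (D.Rw τ) a) j ≤ 2 * D.of ∧
      (D.of - D.m τ a j).toNat = 2 * D.of - Ln D.W (nthG 0 (D.Rw τ) a) j := by
    intro a ha j hj
    have h2 := abs_le.mp (hD.bd τ h0 h1 a ha j hj)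
    have e1 : D.m τ a j = ((Ln D.W (nthG 0 (D.Rw τ) a) j : ℕ) : ℤ) - D.of := by
      show me D.W D.of (D.Rw τ) a j = _
      unfold me
      rw [nthG_eq]
    rw [e1] at h2 ⊢
    omega
  refine (bkG_ar hW hof (D.Rw τ) (fun a ha j hj => (hm a ha j hj).1) k hk).congr fun b => ?_
  have h3 := idx_lt 3 (fun r => b (3 + r))
  have h4 := idx_lt 5 (fun r => b (6 + r))
  have h5 := idx_lt 3 b
  exact ((hm _ (by omega) _ (by omega)).2).symm

/-! ### Small tables -/

theorem ar_of_lanes {W n A : ℕ} {f : (ℕ → Bool) → ℕ} (h1 : A < 2 ^ (W * 2 ^ n))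
    (h2 : ∀ i < 2 ^ n, Ln W A i = f i.testBit)
    (h3 : ∀ b b' : ℕ → Bool, (∀ r < n, b r = b' r) → f b = f b') : Ar W n A f := by
  refine ⟨h1, fun b => ?_⟩
  rw [h2 _ (idx_lt n b)]
  apply h3
  intro r hr
  rw [testBit_idx, decide_eq_true hr, Bool.true_and]

/-- The check of the tables of the kernels with two roots. -/
def t2C (W : ℕ) (B : B2) (T2 : List (List (List ℕ))) : Bool :=
  allN (fun τ => allN (fun c2 => allN (fun c1 =>
    Nat.blt (nthG 0 (nthG [] (nthG [] T2 τ) c2) c1) (Nat.pow 2 (Nat.mul W 4)) &&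
    allN (fun i => Nat.beq (Nat.add (lnG W (nthG 0 (nthG [] (nthG [] T2 τ) c2) c1) i)
      (lnG B.W (nthG 0 (nthG [] B.R τ) (Nat.add (Nat.mul 2 c1) (Nat.mod i 2)))
        (Nat.add (Nat.mul 2 c2) (Nat.div i 2)))) (Nat.mul 2 B.of)) 4) 6) 6) 3

theorem t2C_spec {W : ℕ} {B : B2} {T2 : List (List (List ℕ))} (hB : B.OK)
    (h : t2C W B T2 = true) : ∀ τ < 3, ∀ c2 < 6, ∀ c1 < 6,
      Ar W 2 (nthG 0 (nthG [] (nthG [] T2 τ) c2) c1) fun b =>
        (B.of - B.m τ (2 * c1 + (b 0).toNat) (2 * c2 + (b 1).toNat)).toNat := by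
  intro τ hτ c2 hc2 c1 hc1
  have h1 := allN_spec _ _ (allN_spec _ _ (allN_spec _ _ h τ hτ) c2 hc2) c1 hc1
  rw [Bool.and_eq_true, Nat.blt_eq] at h1
  obtain ⟨h2, h3⟩ := h1
  have hm : ∀ a < 12, ∀ j < 12, (B.of - B.m τ a j).toNat +
      Ln B.W (nthG 0 (nthG [] B.R τ) a) j = 2 * B.of := by
    intro a ha j hj
    have h4 := abs_le.mp (hB.bd τ hτ a ha j hj)
    have e1 : B.m τ a j = ((Ln B.W (nthG 0 (nthG [] B.R τ) a) j : ℕ) : ℤ) - B.of := by
      show me B.W B.of (nthG [] B.R τ) a j = _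
      unfold me
      rw [nthG_eq 0]
    rw [e1] at h4 ⊢
    omega
  apply ar_of_lanes
  · exact h2
  · intro i hi
    have h5 := Nat.eq_of_beq_eq_true (allN_spec _ _ h3 i hi)
    have e1 : lnG W (nthG 0 (nthG [] (nthG [] T2 τ) c2) c1) i +
      lnG B.W (nthG 0 (nthG [] B.R τ) (2 * c1 + i % 2)) (2 * c2 + i / 2) = 2 * B.of := h5
    rw [lnG_eq, lnG_eq] at e1
    have hi4 : i < 4 := by simpa using hi
    have e2 : (i.testBit 0).toNat = i % 2 := by
      rw [Nat.toNat_testBit]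
      simp
    have e3 : (i.testBit 1).toNat = i / 2 := by
      rw [Nat.toNat_testBit]
      omega
    have h6 := hm (2 * c1 + i % 2) (by omega) (2 * c2 + i / 2) (by omega)
    rw [e2, e3]
    omega
  · intro b b' hb
    rw [hb 0 (by omega), hb 1 (by omega)]

/-- The parity bit of four bits. -/
def pz (i : ℕ) : ℕ := Nat.mod (Nat.add (Nat.add (bn i 0) (bn i 1)) (Nat.add (bn i 2) (bn i 3))) 2

/-- The number of ones among four bits and their parity bit. -/
def pcz (i : ℕ) : ℕ :=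
  Nat.add (Nat.add (Nat.add (bn i 0) (bn i 1)) (Nat.add (bn i 2) (bn i 3))) (pz i)

/-- The number of ones of the sum of the five bits and of `j`. -/
def pcj (j i : ℕ) : ℕ := Nat.add
  (Nat.add (Nat.add (Nat.mod (Nat.add (bn i 0) (bn j 0)) 2) (Nat.mod (Nat.add (bn i 1) (bn j 1)) 2))
    (Nat.add (Nat.mod (Nat.add (bn i 2) (bn j 2)) 2) (Nat.mod (Nat.add (bn i 3) (bn j 3)) 2)))
  (Nat.mod (Nat.add (pz i) (bn j 4)) 2)

theorem pz_eq (i : ℕ) : pz i = (z5 i.testBit 4).toNat := by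
  have e : pz i = ((bn i 0 + bn i 1) + (bn i 2 + bn i 3)) % 2 := rfl
  rw [e]
  simp only [bn_eq]
  unfold z5
  rw [if_neg (by omega)]
  cases i.testBit 0 <;> cases i.testBit 1 <;> cases i.testBit 2 <;> cases i.testBit 3 <;> rfl

theorem pcz_eq (i : ℕ) : pcz i = ∑ r ∈ range 5, (z5 i.testBit r).toNat := by
  have e : pcz i = ((bn i 0 + bn i 1) + (bn i 2 + bn i 3)) + pz i := rfl
  rw [e, pz_eq]
  simp only [bn_eq, Finset.sum_range_succ, Finset.sum_range_zero]
  have h : ∀ r < 4, z5 i.testBit r = i.testBit r := fun r hr => if_pos hr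
  rw [h 0 (by omega), h 1 (by omega), h 2 (by omega), h 3 (by omega)]
  ring

theorem xr_eq (a b : Bool) : (a.toNat + b.toNat) % 2 = (b ^^ a).toNat := by
  cases a <;> cases b <;> rfl

theorem pcj_eq (j i : ℕ) : pcj j i = ∑ r ∈ range 5, (j.testBit r ^^ z5 i.testBit r).toNat := by
  have e : pcj j i = (((bn i 0 + bn j 0) % 2 + (bn i 1 + bn j 1) % 2) +
    ((bn i 2 + bn j 2) % 2 + (bn i 3 + bn j 3) % 2)) + (pz i + bn j 4) % 2 := rfl
  rw [e, pz_eq]
  simp only [bn_eq, Finset.sum_range_succ, Finset.sum_range_zero, xr_eq]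
  have h : ∀ r < 4, z5 i.testBit r = i.testBit r := fun r hr => if_pos hr
  rw [h 0 (by omega), h 1 (by omega), h 2 (by omega), h 3 (by omega)]
  ring

/-- The check of the tables of the five-sets. -/
def f5C (W : ℕ) (F5 : List ℕ) (U5 : List (List ℕ)) : Bool :=
  allN (fun j => Nat.blt (nthG 0 F5 j) (Nat.pow 2 (Nat.mul W 16)) &&
    allN (fun i => Nat.beq (lnG W (nthG 0 F5 j) i) (nthG 0 (nthG [] U5 (pcj j i)) (pcz i))) 16) 32

theorem f5C_spec {R : RD} (h : f5C R.W R.F5 R.U5 = true) : ∀ j < 32,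
    Ar R.W 4 (nthG 0 R.F5 j) fun b => R.u5 (∑ i ∈ range 5, (j.testBit i ^^ z5 b i).toNat)
      (∑ i ∈ range 5, (z5 b i).toNat) := by
  intro j hj
  have h1 := allN_spec _ _ h j hj
  rw [Bool.and_eq_true, Nat.blt_eq] at h1
  obtain ⟨h2, h3⟩ := h1
  apply ar_of_lanes
  · exact h2
  · intro i hi
    have h4 := Nat.eq_of_beq_eq_true (allN_spec _ _ h3 i hi)
    rw [lnG_eq, pcj_eq, pcz_eq] at h4
    exact h4
  · intro b b' hb
    have h5 : ∀ i < 5, z5 b i = z5 b' i := by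
      intro i hi
      unfold z5
      split_ifs with h6
      · exact hb i h6
      · rw [hb 0 (by omega), hb 1 (by omega), hb 2 (by omega), hb 3 (by omega)]
    congr 1
    · exact Finset.sum_congr rfl fun i hi => by rw [h5 i (Finset.mem_range.mp hi)]
    · exact Finset.sum_congr rfl fun i hi => by rw [h5 i (Finset.mem_range.mp hi)]

theorem u5_le (L : List (List ℕ)) (U : ℕ) (h : (L.all fun l => l.all fun x => Nat.ble x U) = true)
    (k l : ℕ) : nthG 0 (nthG [] L k) l ≤ U := by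
  rw [nthG_eq, nthG_eq]
  rw [List.all_eq_true] at h
  rcases getD_mem_or L k [] with h1 | h1
  · have h2 := h _ h1
    rw [List.all_eq_true] at h2
    rcases getD_mem_or (L.getD k []) l 0 with h3 | h3
    · exact Nat.le_of_ble_eq_true (h2 _ h3)
    · rw [h3]
      exact Nat.zero_le _
  · rw [h1]
    exact Nat.zero_le _

/-- The check of the orders of the triples. -/
def stdC (D : C4D) : Bool := allN (fun p => @Bool.rec (fun _ => Bool) true
  (allN (fun c => Nat.beq (D.g p c) (gs (vv (Nat.mod p 16)) c)) 4 &&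
    (@Bool.rec (fun _ => Bool) (@Bool.rec (fun _ => Bool) true false (D.fx p)) (D.fx p)
      (fv (Nat.mod p 16))))
  ([0, 1, 3, 7, 15].any fun x => Nat.beq (Nat.mod p 16) x)) 64

theorem stdC_spec {D : C4D} (h : stdC D = true) : ∀ p < 64, p % 16 ∈ [0, 1, 3, 7, 15] →
    (∀ c < 4, D.g p c = gs (vv (p % 16)) c) ∧ D.fx p = fv (p % 16) := by
  intro p hp hm
  have h1 := allN_spec _ _ h p hp
  have h2 : ([0, 1, 3, 7, 15].any fun x => Nat.beq (p % 16) x) = true := by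
    rw [List.any_eq_true]
    exact ⟨p % 16, hm, Nat.beq_refl _⟩
  have h3 : (allN (fun c => Nat.beq (D.g p c) (gs (vv (p % 16)) c)) 4 &&
    (@Bool.rec (fun _ => Bool) (@Bool.rec (fun _ => Bool) true false (D.fx p)) (D.fx p)
      (fv (p % 16)))) = true := by
    have h4 : @Bool.rec (fun _ => Bool) true
      (allN (fun c => Nat.beq (D.g p c) (gs (vv (p % 16)) c)) 4 &&
        (@Bool.rec (fun _ => Bool) (@Bool.rec (fun _ => Bool) true false (D.fx p)) (D.fx p)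
          (fv (p % 16)))) ([0, 1, 3, 7, 15].any fun x => Nat.beq (p % 16) x) = true := h1
    rw [h2] at h4
    exact h4
  rw [Bool.and_eq_true] at h3
  obtain ⟨h5, h6⟩ := h3
  refine ⟨fun c hc => Nat.eq_of_beq_eq_true (allN_spec _ _ h5 c hc), ?_⟩
  cases hx : D.fx p <;> cases hv : fv (p % 16) <;> rw [hx, hv] at h6 <;> first | rfl | exact absurd h6 (by decide)

/-- All conditions on the data of the rows. -/
theorem ok_of {R : RD} {D : C4D} {B : B2} {U K : ℕ} (hD : D.OK) (hB : B.OK)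
    (hRW : R.W = D.W) (hW : 2 ≤ D.W)
    (hBk : ∀ τ, 0 < τ → τ < D.R.length → nthG [] R.Bk τ = bkL D.W D.of (D.Rw τ))
    (h2 : t2C R.W B R.T2 = true) (h5 : f5C R.W R.F5 R.U5 = true)
    (hu : (R.U5.all fun l => l.all fun x => Nat.ble x U) = true) (hs : stdC D = true)
    (sz : 15 * (2 * D.of) + 45 * (2 * B.of) + 6 * U + 2 ^ K < 2 ^ (R.W - 1))
    (hK : K < R.W) : R.OK D B U K := by
  have hpw : 2 ^ (D.W - 1) < 2 ^ D.W := Nat.pow_lt_pow_right (by norm_num) (by omega)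
  have hK0 := Nat.two_pow_pos K
  refine ⟨by omega, ?_, t2C_spec hB h2, f5C_spec h5, stdC_spec hs, u5_le _ _ hu, sz, hK⟩
  rw [hRW] at sz ⊢
  exact bk_of hD (by omega) (by omega) R.Bk hBk

end Pool.Agent.Lib.MP_afdd4d_co.K9.W6
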