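import Pool.Agent.Lib.MP_afdd4d_co.K9.W6Cl2

/-!
# Rows with terms that see the colours, for a class of even 4-graphs
-/

namespace Pool.Agent.Lib.MP_afdd4d_co.K9.W6

open Finset K8
open Pool.Agent.Lib.MP_afdd4d_co.K9.Star

/-- The data of the rows: the terms without and with colours, the forms that vanish on the class for
each number of vertices of the second colour, the width of their lanes, arrays by colours, constants
by colours, the values of the further terms for the representatives. -/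
structure RC where
  L : LD
  T : List LT
  mL : List (List (ℕ × List (ℕ × ℕ × ℕ)))
  K : ℕ
  PA : List ℕ
  A : List ℕ
  vX : List (List ℕ)

namespace RC

/-- The array of a representative. -/
def arr (C : RC) (R : RD) (b J : ℕ) : ℕ := Nat.add (C.L.mb R.W b J)
  (Nat.add (Nat.add (R.mkA (Nat.pow 2 C.K) (nthG [] C.mL b)) (nthG 0 C.PA b)) (tlG R.W b J C.T))

/-- The threshold. -/
def th (a v : ℕ) : ℕ := Nat.div (Nat.add (Nat.add a v) 23) 24

theorem th_spec (a v : ℕ) : (a : ℤ) + v ≤ 24 * (th a v : ℤ) := by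
  have h : a + v ≤ 24 * th a v := by
    unfold th
    show a + v ≤ 24 * ((a + v + 23) / 24)
    omega
  exact_mod_cast h

/-- The check of the chunk number `k`. -/
def ck (C : RC) (R : RD) (D : C4D) (k : ℕ) : Bool :=
  zpG (fun c v => R.rwG D (C.arr R (rB k) c) (Nat.sub (Nat.pow 2 (rB k)) 1)
    (th (nthG 0 C.A (rB k)) v) c) (rX k) (nthG [] C.vX k)

/-- The rows from the checks of the representatives: `Cl` is the class, `X` a term given by the arrays
by colours, `Y` a sum of further terms, `w` a function of the numbers of quadruples of the five-sets,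
`A` the bound. -/
theorem rows (C : RC) (D : C4D) (B : B2) (R : RD) (U K K1 UP : ℕ) (hD : D.OK) (hI : D.InvOK)
    (hB : B.OK) (hR : R.OK D B U K) (hL : C.L.OK R.W K1) (hK1 : K1 < R.W) (hK : C.K < R.W)
    (hT : ∀ L ∈ C.T, L.OK R.W C.L.P)
    (hsz : ∀ b < 7, 2 ^ K1 + (2 ^ C.K + UP + tlU b C.T) ≤ 2 ^ K)
    (Cl : ∀ n : ℕ, Finset (Finset (Fin n)) → Finset (Finset (Fin n)) → (Fin n → Bool) → Prop)
    (Pv : ℕ → (ℕ → Bool) → ℕ) (hPA : ∀ b < 7, Ar R.W 10 (nthG 0 C.PA b) (Pv b))
    (hPv : ∀ b < 7, ∀ z, Pv b z ≤ UP)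
    (X : FunE)
    (hX : ∀ {n : ℕ} (H E : Finset (Finset (Fin n))) (χ : Fin n → Bool)
      (t : Fin 6 → Fin n) (σ : Equiv.Perm (Fin 6)), X H E χ (t ∘ σ) = X H E χ t)
    (xo : ℕ → ℤ)
    (hXv : ∀ b < 7, ∀ (n : ℕ) (H E : Finset (Finset (Fin n)))
      (χ : Fin n → Bool), EvenH n E → Cl n H E χ → ∀ t : Fin 6 → Fin n,
      Function.Injective t → xc χ t = 2 ^ b - 1 → X H E χ t + 24 * (Pv b (gc E t) : ℤ) ≤ xo b)
    (Y : FunE)
    (hY : ∀ {n : ℕ} (H E : Finset (Finset (Fin n))) (χ : Fin n → Bool)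
      (t : Fin 6 → Fin n) (σ : Equiv.Perm (Fin 6)), Y H E χ (t ∘ σ) = Y H E χ t)
    (voff : ℤ)
    (hYv : ∀ k < 160, ∀ p ∈ (rX k).zip (nthG [] C.vX k), ∀ (n : ℕ) (H E : Finset (Finset (Fin n)))
      (χ : Fin n → Bool), EvenH n E → K5F H → Cl n H E χ → ∀ t : Fin 6 → Fin n,
      Function.Injective t → xc χ t = 2 ^ rB k - 1 → jc H E t = p.1 →
      Y H E χ t + voff ≤ (p.2 : ℤ))
    (hml : ∀ b < 7, ∀ e ∈ nthG [] C.mL b, okR e.2 1 = true ∧ ndG e.2 1 = 10 ∧
      syG e.2 1 0 = e.1)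
    (hmask : ∀ b < 7, ∀ (n : ℕ) (H E : Finset (Finset (Fin n))) (χ : Fin n → Bool),
      EvenH n E → Cl n H E χ → ∀ t : Fin 6 → Fin n, Function.Injective t → xc χ t = 2 ^ b - 1 →
      ∀ m ∈ (nthG [] C.mL b).map Prod.fst, lf 10 m (gc E t) = false)
    (w : ℕ → ℕ → ℤ) (c5 A : ℤ) (hu : ∀ h < 5, ∀ e < 6, 24 * (R.u5 h e : ℤ) + w h e ≤ c5)
    (hA : ∀ b < 7, 24 * (15 * (D.of : ℤ) + 45 * B.of + 720 * C.L.ofs + (tlO b C.T : ℕ)) + 6 * c5 +
      72 * k3 B b + xo b - voff ≤ A + nthG 0 C.A b)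
    (hck : ∀ k < 160, C.ck R D k = true) :
    ∀ (n : ℕ) (H E : Finset (Finset (Fin n))) (χ : Fin n → Bool), EvenH n E → K5F H → Cl n H E χ →
      ∀ t : Fin 6 → Fin n, Function.Injective t →
        KS D B H E χ t + 24 * C.L.tot R.W H E χ t + 24 * tlS R.W C.T H E χ t + X H E χ t +
          Y H E χ t + ∑ q ∈ range 6, w (cnt H t q) (cnt E t q) ≤ A := by
  intro n H E χ hev h5 hCl
  have hw : ∀ (t : Fin 6 → Fin n), ∑ q ∈ range 6, w (cnt H t q) (cnt E t q) =
      ∑ S ∈ (univ : Finset (Fin 6)).powersetCard 5,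
        w (∑ T ∈ S.powersetCard 4, (zb H t T).toNat) (∑ T ∈ S.powersetCard 4, (zb E t T).toNat) := by
    intro t
    rw [s5_psc, Finset.sum_image]
    · refine Finset.sum_congr rfl fun k hk => ?_
      rw [cnt_psc H t k (Finset.mem_range.mp hk), cnt_psc E t k (Finset.mem_range.mp hk)]
    · intro k hk k' hk' h
      exact s5_inj k (Finset.mem_range.mp hk) k' (Finset.mem_range.mp hk') h
  refine w6_reduce χ H E (fun t => KS D B H E χ t + 24 * C.L.tot R.W H E χ t +
    24 * tlS R.W C.T H E χ t + X H E χ t + Y H E χ t +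
      ∑ q ∈ range 6, w (cnt H t q) (cnt E t q) ≤ A) ?_ ?_
  · intro t σ h
    have e1 : ∑ q ∈ range 6, w (cnt H (t ∘ σ) q) (cnt E (t ∘ σ) q) =
        ∑ q ∈ range 6, w (cnt H t q) (cnt E t q) := by
      rw [hw, hw]
      have e2 : zb H (t ∘ σ) = fun T => zb H t (T.image σ) := by
        funext T
        exact zb_comp H t σ T
      have e3 : zb E (t ∘ σ) = fun T => zb E t (T.image σ) := by
        funext T
        exact zb_comp E t σ T
      rw [e2, e3]
      have h1 := sum_psc_perm σ univ 5 fun S : Finset (Fin 6) =>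
        w (∑ T ∈ S.powersetCard 4, (zb H t T).toNat) (∑ T ∈ S.powersetCard 4, (zb E t T).toNat)
      rw [univ_image_perm] at h1
      rw [← h1]
      refine Finset.sum_congr rfl fun S _ => ?_
      rw [sum_psc_perm σ S 4 fun T => (zb H t T).toNat,
        sum_psc_perm σ S 4 fun T => (zb E t T).toNat]
    have e4 : C.L.tot R.W H E χ (t ∘ σ) = C.L.tot R.W H E χ t := by
      unfold LD.tot
      simp only [symE_perm]
      rw [Ug.uv_perm hL.hu H σ t]
    have h' : KS D B H E χ (t ∘ σ) + 24 * C.L.tot R.W H E χ (t ∘ σ) +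
      24 * tlS R.W C.T H E χ (t ∘ σ) + X H E χ (t ∘ σ) + Y H E χ (t ∘ σ) +
      ∑ q ∈ range 6, w (cnt H (t ∘ σ) q) (cnt E (t ∘ σ) q) ≤ A := h
    rwa [KS_perm H E χ hI, e1, e4, tlS_perm, hX, hY] at h'
  · intro k hk c hc t ht hx hj
    have hb : rB k < 7 := rB_lt k hk
    obtain ⟨v, hv, hrow⟩ := zpG_spec _ _ _ (hck k hk) c hc
    have hYk := hYv k hk (c, v) hv n H E χ hev h5 hCl t ht hx hj
    have hXk := hXv (rB k) hb n H E χ hev hCl t ht hx
    have hW := hR.hW0
    have hevt := evT_of_evenH E hev t ht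
    have hsz' := hsz _ hb
    have hRs := hR.sz
    have hp1 := Nat.two_pow_pos K1
    have hp2 := Nat.two_pow_pos C.K
    have hW2 : 2 ^ (R.W - 1) ≤ 2 ^ R.W := Nat.pow_le_pow_right (by norm_num) (Nat.sub_le _ _)
    have hMm : Ar R.W 10 (R.mkA (2 ^ C.K) (nthG [] C.mL (rB k)))
        fun z => mkV (2 ^ C.K) (nthG [] C.mL (rB k)) z := by
      have e0 := hR
      have e1 : R.OK D B U K := e0
      exact RD.mkA_ar (K := C.K) { e1 with
        sz := by
          have h1 : 2 ^ C.K ≤ 2 ^ K := by omega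
          have := e1.sz
          omega
        hK := hK } _ (hml _ hb)
    have hMp := hPA _ hb
    have hMpl := hPv _ hb
    have hMt := tlG_ar hL.hP hW hb c C.T hT (by omega)
    have hMtl := fun z => tlV_le hL.hP hW hb c z C.T hT
    have hMl := L_mb hL hW hK1 hb c
    have hle : ∀ z, C.L.mv R.W (rB k) c z + (mkV (2 ^ C.K) (nthG [] C.mL (rB k)) z +
        Pv (rB k) z + tlV R.W (rB k) c z C.T) ≤ 2 ^ K := fun z => by
      have f1 := C.L.mv_le hL hW (rB k) c z
      have f2 := mkV_le C.K (nthG [] C.mL (rB k)) z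
      have f3 := hMtl z
      have f4 := hMpl z
      omega
    have hM : Ar R.W 10 (C.arr R (rB k) c) fun z => C.L.mv R.W (rB k) c z +
        (mkV (2 ^ C.K) (nthG [] C.mL (rB k)) z + Pv (rB k) z + tlV R.W (rB k) c z C.T) :=
      hMl.add ((hMm.add hMp hW fun z => by
        have := hle z
        beta_reduce
        omega).add hMt hW fun z => by
          have := hle z
          beta_reduce
          omega) hW fun z => by
            have := hle z
            beta_reduce
            omega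
    have hz : mkV (2 ^ C.K) (nthG [] C.mL (rB k)) (gc E t) = 0 :=
      mkV_zero _ _ _ (hmask _ hb n H E χ hev hCl t ht hx)
    have hrow' : R.rwG D (C.arr R (rB k) c) (xc χ t) (th (nthG 0 C.A (rB k)) v)
        (jc H E t) = true := by
      rw [hx, hj]
      exact hrow
    have h1 := row_leM (H := H) (χ := χ) hR hD hB hev t ht (by rw [hx]; exact cR_std _ hb)
      _ _ _ hM hle hrow'
    have h2 := KS_eq H E χ hD hB t
    have h3 := k3_eq B χ t (rB k) hx
    have h4 := C.L.tot_eq hL hW (H := H) t hevt (rB k) hx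
    have h5' := tlS_eq hL.hP hW (H := H) (χ := χ) t hevt (rB k) hb hx C.T hT
    have h7 := th_spec (nthG 0 C.A (rB k)) v
    rw [hj] at h4 h5'
    rw [h3] at h2
    have h8 := hA (rB k) hb
    have h9 : 24 * ∑ q ∈ range 6, (R.u5 (cnt H t q) (cnt E t q) : ℤ) +
        ∑ q ∈ range 6, w (cnt H t q) (cnt E t q) ≤ 6 * c5 := by
      rw [Finset.mul_sum, ← Finset.sum_add_distrib]
      refine le_trans (Finset.sum_le_sum fun q hq =>
        hu _ (by have := cnt_le4 H h5 t ht q (Finset.mem_range.mp hq); omega) _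
          (by have := cnt_le5 E t q; omega)) ?_
      rw [Finset.sum_const, Finset.card_range, nsmul_eq_mul]
      norm_num
    rw [hz, zero_add] at h1
    simp only at hYk
    push_cast at h1 h4 h5' h8 ⊢
    show KS D B H E χ t + 24 * C.L.tot R.W H E χ t + 24 * tlS R.W C.T H E χ t + X H E χ t +
      Y H E χ t + ∑ q ∈ range 6, w (cnt H t q) (cnt E t q) ≤ A
    linarith
where
  /-- The array of the terms without colours. -/
  L_mb {C : RC} {R : RD} {K1 : ℕ} (hL : C.L.OK R.W K1) (hW : 0 < R.W) (hK1 : K1 < R.W) {b : ℕ}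
      (hb : b < 7) (c : ℕ) : Ar R.W 10 (C.L.mb R.W b c) (C.L.mv R.W b c) :=
    C.L.mb_ar hL hW hK1 b c hb

end RC

end Pool.Agent.Lib.MP_afdd4d_co.K9.W6
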