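import Pool.Agent.Lib.MP_afdd4d_co.K9.W6Lnc
import Pool.Agent.Lib.MP_afdd4d_co.K9.W6Gen
import Pool.Agent.Lib.MP_afdd4d_co.K9.UTab

/-!
# Rows with terms of three kinds

Terms are functions of a window given by tables: functions of the colours and of the even 4-graph,
functions of the colours and of the 4-graph, and functions of all three.  The sums of the terms of the
first two kinds are given arrays, one for each number of vertices of the second colour.
-/

namespace Pool.Agent.Lib.MP_afdd4d_co.K9.W6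

open Finset K8
open Pool.Agent.Lib.MP_afdd4d_co.K9.Star

/-! ### The number of the keys -/

/-- The number of the keys: the differences and the colours. -/
def yc (J X : ℕ) : ℕ := Nat.add J (Nat.mul 32768 X)

theorem yc_lo (J X : ℕ) (hJ : J < 32768) (s : ℕ) (hs : s < 15) :
    (yc J X).testBit s = J.testBit s := by
  have e : yc J X = 2 ^ 15 * X + J := by
    unfold yc
    show J + 32768 * X = _
    ring
  rw [e, Nat.testBit_two_pow_mul_add X (by simpa using hJ), if_pos hs]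

theorem yc_hi (J X : ℕ) (hJ : J < 32768) (a : ℕ) : (yc J X).testBit (15 + a) = X.testBit a := by
  have e : yc J X = 2 ^ 15 * X + J := by
    unfold yc
    show J + 32768 * X = _
    ring
  rw [e, Nat.testBit_two_pow_mul_add X (by simpa using hJ), if_neg (by omega),
    Nat.add_sub_cancel_left]

/-! ### Terms on a window -/

section win
variable {n : ℕ}

/-- The bits of the lanes. -/
def eE (G : Finset (Finset (Fin n))) (t : Fin 6 → Fin n) (s : ℕ) : Bool := zb G t (q6 6 s)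

/-- The bits of the keys. -/
def yJ (H E : Finset (Finset (Fin n))) (χ : Fin n → Bool) (t : Fin 6 → Fin n) (s : ℕ) : Bool :=
  if s < 15 then (zb H t (q6 6 s) ^^ zb E t (q6 6 s)) else χ (t (Fin.ofNat 6 (s - 15)))

end win

/-- A term with lanes of the even 4-graph. -/
def Mk.fE (W : ℕ) (M : Mk) : FunE := fun H E χ t => M.val W (eE E t) (yJ H E χ t)

/-- A term with lanes of the 4-graph. -/
def Mk.fK (W : ℕ) (M : Mk) : FunE := fun H E χ t => M.val W (eE H t) (yJ H E χ t)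

/-- The sum of the values over all permutations of the window. -/
def symE (Z : FunE) : FunE := fun H E χ t => ∑ σ : Equiv.Perm (Fin 6), Z H E χ (t ∘ σ)

theorem symE_perm (Z : FunE) {n : ℕ} (H E : Finset (Finset (Fin n))) (χ : Fin n → Bool)
    (t : Fin 6 → Fin n) (σ : Equiv.Perm (Fin 6)) : symE Z H E χ (t ∘ σ) = symE Z H E χ t := by
  unfold symE
  rw [← Equiv.sum_comp (Equiv.mulLeft σ) fun τ : Equiv.Perm (Fin 6) => Z H E χ (t ∘ τ)]
  rfl

/-- The form of a quadruple of an even 4-graph. -/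
def gE (s : ℕ) : ℕ := Nat.mod (Nat.shiftRight 0x1a42a4400648800800e21001001001e02002002002 (Nat.mul 11 s)) 2048

theorem gE_eq : ∀ s < 15, gE s = nthG 0 exL s := by decide +kernel

/-- The form of a quadruple of a 4-graph. -/
def gK (s : ℕ) : ℕ := Nat.pow 2 (Nat.succ s)

/-- The check that the keys are colours. -/
def Mk.okX (M : Mk) : Bool := M.pq.all fun l => l.all fun q => Nat.ble 15 q

section term
variable {M : Mk} {W NN : ℕ} {g : ℕ → ℕ} {P : PT}

theorem Mk.ok0_of (h : M.ck W NN g P = true) : M.ok0 NN g = true := by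
  unfold Mk.ck Mk.ckQ at h
  simp only [Bool.and_eq_true] at h
  exact h.2.1

theorem Mk.val_congr (h : M.ok0 NN g = true) {e e' y y' : ℕ → Bool} (he : ∀ s < 15, e s = e' s)
    (hy : ∀ l ∈ M.pq, ∀ s ∈ l, s < 21 → y s = y' s) : M.val W e y = M.val W e' y' := by
  obtain ⟨⟨h1, h2⟩, _⟩ := Mk.ok0_spec h
  have key : (idx (M.k + M.m) fun r => if r < M.k then xrB e (nthG [] M.pe r)
      else xrB y (nthG [] M.pq (r - M.k))) = idx (M.k + M.m) fun r =>
        if r < M.k then xrB e' (nthG [] M.pe r) else xrB y' (nthG [] M.pq (r - M.k)) := by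
    apply idx_congr
    intro r _
    by_cases hr : r < M.k
    · rw [if_pos hr, if_pos hr]
      exact xrB_congr fun s hs => he s (Mk.all_nthG h1 r s hs)
    · rw [if_neg hr, if_neg hr]
      apply xrB_congr
      intro s hs
      rcases Mk.nthG_mem M.pq (r - M.k) with h3 | h3
      · rw [h3] at hs
        cases hs
      · exact hy _ h3 s hs (Mk.all_nthG h2 _ s hs)
  unfold Mk.val
  rw [key]

theorem Mk.val_congr' (h : M.ok0 NN g = true) {e e' y y' : ℕ → Bool} (he : ∀ s < 15, e s = e' s)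
    (hy : ∀ l ∈ M.pq, ∀ s ∈ l, y s = y' s) : M.val W e y = M.val W e' y' :=
  Mk.val_congr h he fun l hl s hs _ => hy l hl s hs

variable {n : ℕ} {H E : Finset (Finset (Fin n))} {χ : Fin n → Bool}

theorem jc_lt (t : Fin 6 → Fin n) : jc H E t < 32768 := idx_lt 15 _

theorem eE_dg (G : Finset (Finset (Fin n))) (t : Fin 6 → Fin n) (N : ℕ)
    (hN : Function.Injective (dg N)) (s : ℕ) (hs : s < 15) :
    qx N s < 15 ∧ eE G (t ∘ dg N) s = hq G t (qx N s) := by
  obtain ⟨h1, h2⟩ := qi_geo N hN s hs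
  rw [qx_lt N s hs]
  refine ⟨h1, ?_⟩
  unfold eE hq
  rw [zb_comp, h2]

theorem yJ_lo (t : Fin 6 → Fin n) (N : ℕ) (hN : Function.Injective (dg N)) (s : ℕ) (hs : s < 15) :
    (yc (jc H E t) (xc χ t)).testBit (qx N s) = yJ H E χ (t ∘ dg N) s := by
  obtain ⟨h1, h2⟩ := eE_dg H t N hN s hs
  obtain ⟨_, h3⟩ := eE_dg E t N hN s hs
  rw [yc_lo _ _ (jc_lt t) _ h1, jc_bit t _ h1, ← h2, ← h3]
  unfold yJ eE
  rw [if_pos hs]

theorem yJ_hi (J : ℕ) (hJ : J < 32768) (t : Fin 6 → Fin n) (N : ℕ) (s : ℕ) (hs : ¬ s < 15)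
    (hs' : s < 21) : (yc J (xc χ t)).testBit (qx N s) = yJ H E χ (t ∘ dg N) s := by
  obtain ⟨a, rfl⟩ : ∃ a, s = 15 + a := ⟨s - 15, by omega⟩
  rw [qx_ge, yc_hi _ _ hJ, xc_bit t _ (dn_lt N a)]
  unfold yJ
  rw [if_neg hs, Nat.add_sub_cancel_left, Function.comp_apply, dg_dn N a (by omega)]

theorem yJ_bit (t : Fin 6 → Fin n) (N : ℕ) (hN : Function.Injective (dg N)) (s : ℕ) (hs : s < 21) :
    (yc (jc H E t) (xc χ t)).testBit (qx N s) = yJ H E χ (t ∘ dg N) s := by
  by_cases h : s < 15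
  · exact yJ_lo t N hN s h
  · exact yJ_hi _ (jc_lt t) t N s h hs

theorem okX_spec (hX : M.okX = true) : ∀ l ∈ M.pq, ∀ s ∈ l, ¬ s < 15 := by
  intro l hl s hs
  have := Nat.le_of_ble_eq_true (List.all_eq_true.mp (List.all_eq_true.mp hX l hl) s hs)
  omega

/-- The sum over all permutations of a term with lanes of the even 4-graph. -/
theorem fE_sum (hP : P.OK) (hW : 0 < W) (h : M.ck W 10 gE P = true) (t : Fin 6 → Fin n) (hev : EvT E t) :
    symE (M.fE W) H E χ t + (M.F.vl W 10 (yc (jc H E t) (xc χ t)) (gc E t) M.F.pl : ℤ) =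
      720 * M.off := by
  refine (Mk.ck_spec hW hP h).2 _ _ (fun f => M.fE W H E χ (t ∘ f)) fun N hN => ?_
  refine (Mk.val_congr (Mk.ok0_of h) (fun s hs => ?_) fun _ _ s _ hs => ?_).symm
  · obtain ⟨h1, h2⟩ := eE_dg E t N hN s hs
    rw [h2, gE_eq _ h1]
    exact eb_gc t hev _ h1
  · exact yJ_bit t N hN s hs

/-- The same for a term with keys of colours. -/
theorem fE_sumX (hP : P.OK) (hW : 0 < W) (h : M.ck W 10 gE P = true) (hX : M.okX = true) (t : Fin 6 → Fin n)
    (hev : EvT E t) :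
    symE (M.fE W) H E χ t + (M.F.vl W 10 (yc 0 (xc χ t)) (gc E t) M.F.pl : ℤ) = 720 * M.off := by
  refine (Mk.ck_spec hW hP h).2 _ _ (fun f => M.fE W H E χ (t ∘ f)) fun N hN => ?_
  refine (Mk.val_congr (Mk.ok0_of h) (fun s hs => ?_) fun l hl s hs hs' => ?_).symm
  · obtain ⟨h1, h2⟩ := eE_dg E t N hN s hs
    rw [h2, gE_eq _ h1]
    exact eb_gc t hev _ h1
  · exact yJ_hi 0 (by norm_num) t N s (okX_spec hX l hl s hs) hs'

/-- The sum over all permutations of a term with lanes of the 4-graph and keys of colours. -/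
theorem fK_sumX (hP : P.OK) (hW : 0 < W) (h : M.ck W 15 gK P = true) (hX : M.okX = true) (t : Fin 6 → Fin n) :
    symE (M.fK W) H E χ t + (M.F.vl W 15 (yc 0 (xc χ t)) (hq H t) M.F.pl : ℤ) = 720 * M.off := by
  refine (Mk.ck_spec hW hP h).2 _ _ (fun f => M.fK W H E χ (t ∘ f)) fun N hN => ?_
  refine (Mk.val_congr (Mk.ok0_of h) (fun s hs => ?_) fun l hl s hs hs' => ?_).symm
  · obtain ⟨h1, h2⟩ := eE_dg H t N hN s hs
    rw [h2]
    show lf 15 (2 ^ (qx N s + 1)) (hq H t) = _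
    rw [lf_two_pow, decide_eq_true h1, Bool.true_and]
  · exact yJ_hi 0 (by norm_num) t N s (okX_spec hX l hl s hs) hs'

end term

/-! ### The array of a difference -/

theorem tU_arW {W A : ℕ} (hW : 0 < W) {f : (ℕ → Bool) → ℕ} (hA : Ar W 15 A f) (J : ℕ) :
    Ar W 10 (Ug.tU W A J) fun b =>
      f fun r => lf 10 (Og.exF6 (q6 6 r)) b ^^ J.testBit r := by
  obtain ⟨h1, h2⟩ := Ug.uprog_ok
  have h3 := rvG_ar (τ := 0) hW _ 15 _ _ h1 (xkG_ar hW hA (k := J) 15 le_rfl)
  rw [h2] at h3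
  refine h3.congr fun b => ?_
  apply hA.dep
  intro r hr
  rw [svG_eq 0 10 _ _ 15 h1 (by rw [h2]) r hr, Ug.uprog_sx r hr, decide_eq_true hr, Bool.true_and]

/-! ### The data of the rows -/

/-- The table of the permutations, three lists of terms, a symmetric table `u` of the 4-graphs with
lanes of `m` bits, and the arrays of the terms of the first two lists. -/
structure LD where
  P : PT
  LE : List Mk
  LK : List Mk
  LM : List Mk
  m : ℕ
  u : ℕ
  EA : List ℕ
  UA : List ℕ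

namespace LD

/-- The conditions on the data. -/
structure OK (L : LD) (W K : ℕ) : Prop where
  hP : L.P.OK
  hE : ∀ M ∈ L.LE, M.ck W 10 gE L.P = true ∧ M.okX = true
  hK : ∀ M ∈ L.LK, M.ck W 15 gK L.P = true ∧ M.okX = true
  hM : ∀ M ∈ L.LM, M.ck W 10 gE L.P = true
  eE : ∀ b < 7, nthG 0 L.EA b = akG W (yc 0 (2 ^ b - 1)) (L.LE.map Mk.F)
  hu : Ug.UOK W L.m L.u
  eK : ∀ b < 7, nthG 0 L.UA b = L.u + akG W (yc 0 (2 ^ b - 1)) (L.LK.map Mk.F)
  sz : ukL (L.LE.map Mk.F) + (2 ^ L.m + ukL (L.LK.map Mk.F) + ukL (L.LM.map Mk.F)) ≤ 2 ^ K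

/-- The array of a representative. -/
def mb (L : LD) (W b J : ℕ) : ℕ := Nat.add (nthG 0 L.EA b) (Nat.add (Ug.tU W (nthG 0 L.UA b) J)
  (akG W (yc J (Nat.sub (Nat.pow 2 b) 1)) (L.LM.map Mk.F)))

/-- The value of the array of a representative. -/
def mv (L : LD) (W b J : ℕ) (z : ℕ → Bool) : ℕ :=
  vkL W 10 (yc 0 (2 ^ b - 1)) z (L.LE.map Mk.F) +
  (Ug.fU W L.u J z + vkL W 15 (yc 0 (2 ^ b - 1))
      (fun r => lf 10 (Og.exF6 (q6 6 r)) z ^^ J.testBit r) (L.LK.map Mk.F) +
    vkL W 10 (yc J (2 ^ b - 1)) z (L.LM.map Mk.F))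

/-- The sum of the terms on a window. -/
def tot (L : LD) (W : ℕ) : FunE := fun H E χ t =>
  (L.LE.map fun M => symE (M.fE W) H E χ t).sum + ((L.LK.map fun M => symE (M.fK W) H E χ t).sum +
    (L.LM.map fun M => symE (M.fE W) H E χ t).sum) - Ug.uv W L.u H t

/-- The sum of the offsets. -/
def ofs (L : LD) : ℕ := (L.LE.map Mk.off).sum + ((L.LK.map Mk.off).sum + (L.LM.map Mk.off).sum)

section
variable {L : LD} {W K : ℕ}

theorem okF (h : L.OK W K) (hW : 0 < W) : (∀ F ∈ L.LE.map Mk.F, F.OK W 10) ∧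
    (∀ F ∈ L.LK.map Mk.F, F.OK W 15) ∧ ∀ F ∈ L.LM.map Mk.F, F.OK W 10 := by
  refine ⟨fun F hF => ?_, fun F hF => ?_, fun F hF => ?_⟩
  · obtain ⟨M, hM, rfl⟩ := List.mem_map.mp hF
    exact (Mk.ck_spec hW h.hP (h.hE M hM).1).1
  · obtain ⟨M, hM, rfl⟩ := List.mem_map.mp hF
    exact (Mk.ck_spec hW h.hP (h.hK M hM).1).1
  · obtain ⟨M, hM, rfl⟩ := List.mem_map.mp hF
    exact (Mk.ck_spec hW h.hP (h.hM M hM)).1

theorem mv_le (h : L.OK W K) (hW : 0 < W) (b J : ℕ) (z : ℕ → Bool) : L.mv W b J z ≤ 2 ^ K := by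
  obtain ⟨h1, h2, h3⟩ := okF h hW
  have g1 := vkL_le (yc 0 (2 ^ b - 1)) z _ h1
  have g2 := vkL_le (yc 0 (2 ^ b - 1)) (fun r => lf 10 (Og.exF6 (q6 6 r)) z ^^ J.testBit r) _ h2
  have g3 := vkL_le (yc J (2 ^ b - 1)) z _ h3
  have g4 := Ug.fU_le h.hu J z
  have := h.sz
  unfold mv
  omega

theorem mb_ar (h : L.OK W K) (hW : 0 < W) (hK : K < W) (b J : ℕ) (hb : b < 7) :
    Ar W 10 (L.mb W b J) (L.mv W b J) := by
  obtain ⟨h1, h2, h3⟩ := okF h hW
  have hsz := h.sz
  have hm0 := Nat.two_pow_pos L.m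
  have hKW : 2 ^ K < 2 ^ W := Nat.pow_lt_pow_right (by norm_num) hK
  have g1 := akG_ar hW (yc 0 (2 ^ b - 1)) _ h1 (by omega)
  have g2 := akG_ar hW (yc 0 (2 ^ b - 1)) _ h2 (by omega)
  have g3 := akG_ar hW (yc J (2 ^ b - 1)) _ h3 (by omega)
  rw [← h.eE b hb] at g1
  have g2' := h.hu.ar.add g2 hW fun z => by
    have f0 := h.hu.le z
    have f2 := vkL_le (yc 0 (2 ^ b - 1)) z _ h2
    omega
  rw [← h.eK b hb] at g2'
  have g4 : Ar W 10 (Ug.tU W (nthG 0 L.UA b) J) fun z => Ug.fU W L.u J z +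
      vkL W 15 (yc 0 (2 ^ b - 1)) (fun r => lf 10 (Og.exF6 (q6 6 r)) z ^^ J.testBit r)
        (L.LK.map Mk.F) := tU_arW hW g2' J
  refine g1.add (g4.add g3 hW fun z => ?_) hW fun z => ?_
  · have f0 := Ug.fU_le h.hu J z
    have f2 := vkL_le (yc 0 (2 ^ b - 1)) (fun r => lf 10 (Og.exF6 (q6 6 r)) z ^^ J.testBit r) _ h2
    have f3 := vkL_le (yc J (2 ^ b - 1)) z _ h3
    omega
  · have f0 := Ug.fU_le h.hu J z
    have f1 := vkL_le (yc 0 (2 ^ b - 1)) z _ h1
    have f2 := vkL_le (yc 0 (2 ^ b - 1)) (fun r => lf 10 (Og.exF6 (q6 6 r)) z ^^ J.testBit r) _ h2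
    have f3 := vkL_le (yc J (2 ^ b - 1)) z _ h3
    omega

variable {n : ℕ} {H E : Finset (Finset (Fin n))} {χ : Fin n → Bool}

theorem sum_list {N : ℕ} (Z : Mk → ℤ) (Y : ℕ) (z : ℕ → Bool) : ∀ l : List Mk,
    (∀ M ∈ l, Z M + (M.F.vl W N Y z M.F.pl : ℤ) = 720 * M.off) →
    (l.map Z).sum + (vkL W N Y z (l.map Mk.F) : ℤ) = 720 * ((l.map Mk.off).sum : ℕ)
  | [], _ => by simp [vkL]
  | M :: l, h => by
    have h1 := sum_list Z Y z l fun M' hM' => h M' (List.mem_cons_of_mem _ hM')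
    have h2 := h M List.mem_cons_self
    unfold vkL at h1 ⊢
    rw [List.map_cons, List.map_cons, List.map_cons, List.map_cons, List.sum_cons, List.sum_cons,
      List.sum_cons]
    push_cast at h1 h2 ⊢
    linarith

/-- The sum of the terms and the value of the array. -/
theorem tot_eq (h : L.OK W K) (hW : 0 < W) (t : Fin 6 → Fin n) (hev : EvT E t) (b : ℕ)
    (hx : xc χ t = 2 ^ b - 1) :
    L.tot W H E χ t + (L.mv W b (jc H E t) (gc E t) : ℤ) = 720 * (L.ofs : ℤ) := by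
  have g1 := sum_list (W := W) (fun M => symE (M.fE W) H E χ t) (yc 0 (xc χ t)) (gc E t) L.LE
    fun M hM => fE_sumX h.hP hW (h.hE M hM).1 (h.hE M hM).2 t hev
  have g2 := sum_list (W := W) (fun M => symE (M.fK W) H E χ t) (yc 0 (xc χ t)) (hq H t) L.LK
    fun M hM => fK_sumX h.hP hW (h.hK M hM).1 (h.hK M hM).2 t
  have g3 := sum_list (W := W) (fun M => symE (M.fE W) H E χ t) (yc (jc H E t) (xc χ t)) (gc E t)
    L.LM fun M hM => fE_sum h.hP hW (h.hM M hM) t hev
  have hK := (okF h hW).2.1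
  have hs := h.sz
  have e : vkL W 15 (yc 0 (2 ^ b - 1)) (hq H t) (L.LK.map Mk.F) =
      vkL W 15 (yc 0 (2 ^ b - 1)) (fun r => lf 10 (Og.exF6 (q6 6 r)) (gc E t) ^^
        (jc H E t).testBit r) (L.LK.map Mk.F) := by
    have e1 : ∀ l : List Fk, (∀ F ∈ l, F.OK W 15) → vkL W 15 (yc 0 (2 ^ b - 1)) (hq H t) l =
        vkL W 15 (yc 0 (2 ^ b - 1)) (fun r => lf 10 (Og.exF6 (q6 6 r)) (gc E t) ^^
          (jc H E t).testBit r) l := by
      intro l _
      unfold vkL
      refine congrArg List.sum (List.map_congr_left fun F _ => ?_)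
      unfold Fk.vl
      refine congrArg List.sum (List.map_congr_left fun p _ => ?_)
      unfold Fk.v
      congr 1
      apply idx_congr
      intro i _
      unfold cbk
      by_cases hi : i < F.k
      · rw [if_pos hi, if_pos hi]
        apply lf_congr
        intro r hr
        rw [jc_bit t r hr]
        have h1 : lf 10 (Og.exF6 (q6 6 r)) (gc E t) = hq E t r := by
          unfold hq
          rw [Og.zb6_eq E t hev _ (q6_card r hr)]
        rw [h1]
        cases hq H t r <;> cases hq E t r <;> rfl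
      · rw [if_neg hi, if_neg hi]
    exact e1 _ hK
  rw [hx] at g1 g2 g3
  rw [e] at g2
  have g5 := Ug.fU_eq h.hu H E t (jc H E t) hev fun r hr => by
    rw [jc_bit t r hr]
    rfl
  unfold tot ofs mv
  rw [g5]
  push_cast at g1 g2 g3 ⊢
  linarith

end

end LD

/-- The check of a list of codes. -/
def alL (f : ℕ → Bool) (l : List ℕ) : Bool :=
  @List.rec ℕ (fun _ => Bool) true (fun c _ ih => and (f c) ih) l

theorem alL_spec (f : ℕ → Bool) : ∀ l : List ℕ, alL f l = true → ∀ c ∈ l, f c = true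
  | [], _, c, hc => by cases hc
  | a :: l, h, c, hc => by
    have e : alL f (a :: l) = (f a && alL f l) := rfl
    rw [e, Bool.and_eq_true] at h
    rcases List.mem_cons.mp hc with rfl | hc
    · exact h.1
    · exact alL_spec f l h.2 c hc

/-- The check of a chunk: the thresholds `th` depend on the colours. -/
def clG (R : RD) (D : C4D) (L : LD) (th : List ℕ) (k : ℕ) : Bool :=
  alL (fun c => R.rwG D (L.mb R.W (rB k) c) (Nat.sub (Nat.pow 2 (rB k)) 1) (nthG 0 th (rB k)) c)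
    (rX k)

/-- The rows from the checks of the representatives: `A` is the bound, `w` a function of the numbers of
quadruples of the five-sets. -/
theorem rows_lin (D : C4D) (B : B2) (R : RD) (U K : ℕ) (L : LD) (hD : D.OK) (hI : D.InvOK)
    (hB : B.OK) (hR : R.OK D B U K) (hL : L.OK R.W K) (hK : K < R.W) (w : ℕ → ℕ → ℤ)
    (c5 A : ℤ) (hu : ∀ h < 5, ∀ e < 6, 24 * (R.u5 h e : ℤ) + w h e ≤ c5) (th : List ℕ)
    (hth : ∀ b < 7, 24 * (15 * (D.of : ℤ) + 45 * B.of + 720 * L.ofs) + 6 * c5 + 72 * k3 B b ≤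
      A + 24 * nthG 0 th b)
    (hck : ∀ k < 160, clG R D L th k = true) :
    ∀ (n : ℕ) (H E : Finset (Finset (Fin n))) (χ : Fin n → Bool), EvenH n E → K5F H →
      ∀ t : Fin 6 → Fin n, Function.Injective t →
        KS D B H E χ t + 24 * L.tot R.W H E χ t + ∑ q ∈ range 6, w (cnt H t q) (cnt E t q) ≤ A := by
  intro n H E χ hev h5
  have hw : ∀ (t : Fin 6 → Fin n), ∑ q ∈ range 6, w (cnt H t q) (cnt E t q) =
      ∑ S ∈ (univ : Finset (Fin 6)).powersetCard 5,
        w (∑ T ∈ S.powersetCard 4, (zb H t T).toNat) (∑ T ∈ S.powersetCard 4, (zb E t T).toNat) := by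
    intro t
    rw [s5_psc, Finset.sum_image]
    · refine Finset.sum_congr rfl fun k hk => ?_
      rw [cnt_psc H t k (Finset.mem_range.mp hk), cnt_psc E t k (Finset.mem_range.mp hk)]
    · intro k hk k' hk' h
      exact s5_inj k (Finset.mem_range.mp hk) k' (Finset.mem_range.mp hk') h
  refine w6_reduce χ H E (fun t => KS D B H E χ t + 24 * L.tot R.W H E χ t +
    ∑ q ∈ range 6, w (cnt H t q) (cnt E t q) ≤ A) ?_ ?_
  · intro t σ h
    have e1 : ∑ q ∈ range 6, w (cnt H (t ∘ σ) q) (cnt E (t ∘ σ) q) =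
        ∑ q ∈ range 6, w (cnt H t q) (cnt E t q) := by
      rw [hw, hw]
      have e2 : zb H (t ∘ σ) = fun T => zb H t (T.image σ) := by
        funext T
        exact zb_comp H t σ T
      have e3 : zb E (t ∘ σ) = fun T => zb E t (T.image σ) := by
        funext T
        exact zb_comp E t σ T
      rw [e2, e3]
      have h1 := sum_psc_perm σ univ 5 fun S : Finset (Fin 6) =>
        w (∑ T ∈ S.powersetCard 4, (zb H t T).toNat) (∑ T ∈ S.powersetCard 4, (zb E t T).toNat)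
      rw [univ_image_perm] at h1
      rw [← h1]
      refine Finset.sum_congr rfl fun S _ => ?_
      rw [sum_psc_perm σ S 4 fun T => (zb H t T).toNat,
        sum_psc_perm σ S 4 fun T => (zb E t T).toNat]
    have e4 : L.tot R.W H E χ (t ∘ σ) = L.tot R.W H E χ t := by
      unfold LD.tot
      simp only [symE_perm]
      rw [Ug.uv_perm hL.hu H σ t]
    have h' : KS D B H E χ (t ∘ σ) + 24 * L.tot R.W H E χ (t ∘ σ) +
      ∑ q ∈ range 6, w (cnt H (t ∘ σ) q) (cnt E (t ∘ σ) q) ≤ A := h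
    rwa [KS_perm H E χ hI, e1, e4] at h'
  · intro k hk c hc t ht hx hj
    have hb : rB k < 7 := rB_lt k hk
    have hrow := alL_spec _ _ (hck k hk) c hc
    have hW := hR.hW0
    have hrow' : R.rwG D (L.mb R.W (rB k) c) (xc χ t) (nthG 0 th (rB k)) (jc H E t) = true := by
      rw [hx, hj]
      exact hrow
    have h1 := row_leM (H := H) (χ := χ) hR hD hB hev t ht (by rw [hx]; exact cR_std _ hb)
      _ _ _ (L.mb_ar hL hW hK _ c hb) (L.mv_le hL hW _ c) hrow'
    have h2 := KS_eq H E χ hD hB t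
    have h3 := k3_eq B χ t (rB k) hx
    have h4 := L.tot_eq hL hW (H := H) t (evT_of_evenH E hev t ht) (rB k) hx
    rw [hj] at h4
    rw [h3] at h2
    have h8 := hth (rB k) hb
    have h9 : 24 * ∑ q ∈ range 6, (R.u5 (cnt H t q) (cnt E t q) : ℤ) +
        ∑ q ∈ range 6, w (cnt H t q) (cnt E t q) ≤ 6 * c5 := by
      rw [Finset.mul_sum, ← Finset.sum_add_distrib]
      refine le_trans (Finset.sum_le_sum fun q hq =>
        hu _ (by have := cnt_le4 H h5 t ht q (Finset.mem_range.mp hq); omega) _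
          (by have := cnt_le5 E t q; omega)) ?_
      rw [Finset.sum_const, Finset.card_range, nsmul_eq_mul]
      norm_num
    show KS D B H E χ t + 24 * L.tot R.W H E χ t + ∑ q ∈ range 6, w (cnt H t q) (cnt E t q) ≤ A
    linarith

end Pool.Agent.Lib.MP_afdd4d_co.K9.W6
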