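import Pool.Agent.Lib.MP_afdd4d_co.K9.W6Arr

/-!
# The values of the arrays of a row
-/

namespace Pool.Agent.Lib.MP_afdd4d_co.K9.W6

open Finset K8
open Pool.Agent.Lib.MP_afdd4d_co.K9.Star

namespace RD
variable {R : RD} {D : C4D} {B : B2} {U K : ℕ}

theorem OK.hW0 (h : R.OK D B U K) : 0 < R.W := by have := h.hW; omega

theorem OK.pw (h : R.OK D B U K) : 2 ^ (R.W - 1) < 2 ^ R.W :=
  Nat.pow_lt_pow_right (by norm_num) (by have := h.hW; omega)

theorem OK.of4 (h : R.OK D B U K) : 15 * (2 * D.of) ≤ 2 ^ (R.W - 1) := by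
  have := h.sz
  have := Nat.two_pow_pos K
  omega

theorem OK.of2 (h : R.OK D B U K) : 45 * (2 * B.of) ≤ 2 ^ (R.W - 1) := by
  have := h.sz
  have := Nat.two_pow_pos K
  omega

/-! ### Four roots -/

/-- The table of a type. -/
theorem tp_ar (h : R.OK D B U K) (p k k' : ℕ) (hp : D.tyP p < D.R.length) (hk : k < 32)
    (hk' : k' < 32) : Ar R.W 6 (R.tp D.of (D.tyP p) k k') fun b =>
      (D.of - D.val p (idx 3 (fun r => b (3 + r)) + 8 * k) (idx 3 b + 8 * k')).toNat := by
  have h4 := h.of4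
  have h5 := h.pw
  by_cases h0 : D.tyP p = 0
  · have e : R.tp D.of (D.tyP p) k k' = csG R.W D.of 6 := by
      rw [h0]
      rfl
    rw [e]
    refine (csG_ar h.hW0 (by omega) 6).congr fun b => ?_
    unfold C4D.val
    rw [if_pos h0, sub_zero, Int.toNat_natCast]
  · obtain ⟨τ, hτ⟩ : ∃ τ, D.tyP p = τ + 1 := ⟨D.tyP p - 1, by omega⟩
    have e : R.tp D.of (D.tyP p) k k' = slG R.W 6 (nthG 0 (nthG [] R.Bk (D.tyP p)) k) k' := by
      rw [hτ]
      rfl
    rw [e]
    have h1 := h.bk (D.tyP p) (Nat.pos_of_ne_zero h0) hp k hk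
    refine (slG_ar (m := 6) (n := 5) h.hW0 h1 k' hk').congr fun b => ?_
    have e1 : idx 3 (fun r => if 3 + r < 6 then b (3 + r) else k'.testBit (3 + r - 6)) =
        idx 3 fun r => b (3 + r) := by
      apply idx_congr
      intro r hr
      rw [if_pos (by omega)]
    have e2 : idx 3 (fun r => if r < 6 then b r else k'.testBit (r - 6)) = idx 3 b := by
      apply idx_congr
      intro r hr
      rw [if_pos (by omega)]
    have e3 : idx 5 (fun r => if 6 + r < 6 then b (6 + r) else k'.testBit (6 + r - 6)) = k' := by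
      rw [← idx_testBit 5 k' hk']
      apply idx_congr
      intro r hr
      rw [if_neg (by omega), Nat.add_sub_cancel_left, idx_testBit 5 k' hk']
    rw [e1, e2, e3]
    unfold C4D.val
    rw [if_neg h0]

theorem rec_bool (c : Bool) (x y : ℕ) : @Bool.rec (fun _ => ℕ) x y c = if c = true then y else x := by
  cases c <;> rfl

theorem idx4 (c : ℕ → Bool) : idx 4 c =
    (c 0).toNat + 2 * (c 1).toNat + 4 * (c 2).toNat + 8 * (c 3).toNat := by
  simp only [idx]
  norm_num

theorem p0_eq (q X J : ℕ) (b : ℕ → Bool) (h : eb b (qr q) = false) : p0 q X J = pp q X J b := by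
  have e1 : p0 q X J = ixG (fun r => bG X (rq q r)) 4 + @Bool.rec (fun _ => ℕ) 0 16 (bG J (qr q)) :=
    rfl
  rw [e1, ixG_eq, bG_eq, rec_bool]
  unfold pp
  have e2 : idx 6 (fun r => if r < 4 then X.testBit (rq q r) else
      if r = 4 then (J.testBit (qr q) ^^ eb b (qr q)) else eb b (qr q)) =
      idx 4 (fun r => X.testBit (rq q r)) + (16 * (J.testBit (qr q) ^^ eb b (qr q)).toNat +
        32 * (eb b (qr q)).toNat) := by
    rw [show 6 = 4 + 2 from rfl, idx_split]
    have e3 : idx 4 (fun r => if r < 4 then X.testBit (rq q r) else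
        if r = 4 then (J.testBit (qr q) ^^ eb b (qr q)) else eb b (qr q)) =
        idx 4 (fun r => X.testBit (rq q r)) := by
      apply idx_congr
      intro r hr
      rw [if_pos hr]
    rw [e3]
    simp only [idx]
    norm_num
    ring
  rw [e2, h]
  have e3 : idx 4 (fun r => bG X (rq q r)) = idx 4 (fun r => X.testBit (rq q r)) := by
    apply idx_congr
    intro r _
    rw [bG_eq]
  rw [e3]
  cases J.testBit (qr q) <;> simp

theorem p1_eq (q X J : ℕ) (b : ℕ → Bool) (h : eb b (qr q) = true) : p1 q X J = pp q X J b := by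
  have e1 : p1 q X J = ixG (fun r => bG X (rq q r)) 4 + 32 +
      @Bool.rec (fun _ => ℕ) 16 0 (bG J (qr q)) := rfl
  rw [e1, ixG_eq, bG_eq, rec_bool]
  unfold pp
  have e2 : idx 6 (fun r => if r < 4 then X.testBit (rq q r) else
      if r = 4 then (J.testBit (qr q) ^^ eb b (qr q)) else eb b (qr q)) =
      idx 4 (fun r => X.testBit (rq q r)) + (16 * (J.testBit (qr q) ^^ eb b (qr q)).toNat +
        32 * (eb b (qr q)).toNat) := by
    rw [show 6 = 4 + 2 from rfl, idx_split]
    have e3 : idx 4 (fun r => if r < 4 then X.testBit (rq q r) else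
        if r = 4 then (J.testBit (qr q) ^^ eb b (qr q)) else eb b (qr q)) =
        idx 4 (fun r => X.testBit (rq q r)) := by
      apply idx_congr
      intro r hr
      rw [if_pos hr]
    rw [e3]
    simp only [idx]
    norm_num
    ring
  rw [e2, h]
  have e3 : idx 4 (fun r => bG X (rq q r)) = idx 4 (fun r => X.testBit (rq q r)) := by
    apply idx_congr
    intro r _
    rw [bG_eq]
  rw [e3]
  cases J.testBit (qr q) <;> simp

theorem ku_eq (q i X J : ℕ) : ku q i X J =
    idx 4 (fun r => J.testBit (lk q i (gs (vv (cR q X)) r))) +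
    16 * (X.testBit (vq q i) ^^ fv (cR q X)).toNat := by
  have e1 : ku q i X J = ixG (fun r => bG J (lk q i (gs (vv (cR q X)) r))) 4 +
      @Bool.rec (fun _ => ℕ) (@Bool.rec (fun _ => ℕ) 0 16 (fv (cR q X)))
        (@Bool.rec (fun _ => ℕ) 16 0 (fv (cR q X))) (bG X (vq q i)) := rfl
  rw [e1, ixG_eq, bG_eq]
  have e3 : idx 4 (fun r => bG J (lk q i (gs (vv (cR q X)) r))) =
      idx 4 (fun r => J.testBit (lk q i (gs (vv (cR q X)) r))) := by
    apply idx_congr
    intro r _
    rw [bG_eq]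
  rw [e3]
  cases X.testBit (vq q i) <;> cases fv (cR q X) <;> simp

theorem ku_lt (q i X J : ℕ) : ku q i X J < 32 := by
  rw [ku_eq]
  have h1 := idx_lt 4 (fun r => J.testBit (lk q i (gs (vv (cR q X)) r)))
  cases (X.testBit (vq q i) ^^ fv (cR q X))
  · simp only [Bool.toNat_false, mul_zero, add_zero]
    omega
  · simp only [Bool.toNat_true, mul_one]
    omega

/-- The code of a vertex. -/
theorem cd_eq (p v : ℕ) (hg : ∀ c < 4, D.g p c = gs v c) (j e : ℕ → Bool)
    (x : Bool) : D.cd p j e x = idx 3 (fun r => e (gs v r)) +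
      8 * (idx 4 (fun r => j (gs v r)) + 16 * (x ^^ D.fx p).toNat) := by
  have h1 : D.cd p j e x = idx 8 fun r => if r < 3 then e (gs v r) else
      if r < 7 then j (gs v (r - 3)) else (x ^^ D.fx p) := by
    unfold C4D.cd
    apply idx_congr
    intro r hr
    by_cases h3 : r < 3
    · rw [if_pos h3, if_pos h3, hg r (by omega)]
    · rw [if_neg h3, if_neg h3]
      by_cases h7 : r < 7
      · rw [if_pos h7, if_pos h7, hg (r - 3) (by omega)]
      · rw [if_neg h7, if_neg h7]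
  rw [h1]
  simp only [idx]
  norm_num
  ring

theorem std_pp (h : R.OK D B U K) (q X J : ℕ) (b : ℕ → Bool)
    (hX : cR q X ∈ [0, 1, 3, 7, 15]) :
    (∀ c < 4, D.g (pp q X J b) c = gs (vv (cR q X)) c) ∧
      D.fx (pp q X J b) = fv (cR q X) := by
  have e1 : pp q X J b % 16 = cR q X := by
    have e2 : cR q X = idx 4 (fun r => X.testBit (rq q r)) := by
      unfold cR
      rw [ixG_eq]
      apply idx_congr
      intro r _
      rw [bG_eq]
    rw [e2]
    unfold pp
    rw [show 6 = 4 + 2 from rfl, idx_split]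
    have e3 : idx 4 (fun r => if r < 4 then X.testBit (rq q r) else
        if r = 4 then (J.testBit (qr q) ^^ eb b (qr q)) else eb b (qr q)) =
        idx 4 (fun r => X.testBit (rq q r)) := by
      apply idx_congr
      intro r hr
      rw [if_pos hr]
    rw [e3]
    have h4 := idx_lt 4 (fun r => X.testBit (rq q r))
    omega
  have h5 := h.std (pp q X J b) (idx_lt 6 _)
  rw [e1] at h5
  exact h5 hX

/-- The array of a term with four roots. -/
theorem A41_ar (h : R.OK D B U K) (hD : D.OK) (X J q : ℕ) (hq : q < 15)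
    (hX : cR q X ∈ [0, 1, 3, 7, 15]) :
    Ar R.W 10 (R.A41 D X J q) fun b => (D.of - F41 D X J b q).toNat := by
  have hvv : vv (cR q X) < 2 := by
    have e1 : vv (cR q X) = @Bool.rec (fun _ => ℕ) 0 1 (Nat.beq (cR q X) 7) := rfl
    rw [e1, rec_bool]
    split_ifs <;> omega
  obtain ⟨hp1, hp2, hp3⟩ := prL_ok _ hvv q hq
  have hcR : cR q X < 16 := by
    have : cR q X = idx 4 (fun r => bG X (rq q r)) := ixG_eq _ 4
    rw [this]
    exact idx_lt 4 _
  have hb0 : p0 q X J < 64 := by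
    have e1 : p0 q X J = cR q X + @Bool.rec (fun _ => ℕ) 0 16 (bG J (qr q)) := rfl
    rw [e1, rec_bool]
    split_ifs <;> omega
  have hb1 : p1 q X J < 64 := by
    have e1 : p1 q X J = cR q X + 32 + @Bool.rec (fun _ => ℕ) 16 0 (bG J (qr q)) := rfl
    rw [e1, rec_bool]
    split_ifs <;> omega
  have h0 := tp_ar h (p0 q X J) (ku q 0 X J) (ku q 1 X J) (hD.ty _ hb0) (ku_lt _ _ _ _)
    (ku_lt _ _ _ _)
  have h1 := tp_ar h (p1 q X J) (ku q 0 X J) (ku q 1 X J) (hD.ty _ hb1) (ku_lt _ _ _ _)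
    (ku_lt _ _ _ _)
  have h2 := h0.cat h1 h.hW0
  have h3 := it_ar h.hW0 hp1 hp2 h2
  refine h3.congr fun b => ?_
  obtain ⟨hg, hf⟩ := std_pp h q X J b hX
  have e6 : lf 10 (syG (nthG [] (nthG [] prL (vv (cR q X))) q) 7 6) b = eb b (qr q) := by
    rw [hp3 6 (by omega)]
    rfl
  have eW : idx 3 (fun r => lf 10 (syG (nthG [] (nthG [] prL (vv (cR q X))) q) 7 r) b) =
      idx 3 fun r => eb b (lk q 1 (gs (vv (cR q X)) r)) := by
    apply idx_congr
    intro r hr
    rw [hp3 r (by omega)]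
    unfold fr
    rw [if_pos hr]
    rfl
  have eU : idx 3 (fun r => lf 10 (syG (nthG [] (nthG [] prL (vv (cR q X))) q) 7 (3 + r)) b) =
      idx 3 fun r => eb b (lk q 0 (gs (vv (cR q X)) r)) := by
    apply idx_congr
    intro r hr
    rw [hp3 (3 + r) (by omega)]
    unfold fr
    rw [if_neg (by omega), if_pos (by omega), Nat.add_sub_cancel_left]
    rfl
  have eF : F41 D X J b q = D.val (pp q X J b)
      (idx 3 (fun r => eb b (lk q 0 (gs (vv (cR q X)) r))) + 8 * ku q 0 X J)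
      (idx 3 (fun r => eb b (lk q 1 (gs (vv (cR q X)) r))) + 8 * ku q 1 X J) := by
    unfold F41 ca
    rw [cd_eq _ _ hg, cd_eq _ _ hg, ku_eq, ku_eq, hf]
  beta_reduce
  rw [e6, eF]
  cases hb : eb b (qr q)
  · rw [if_neg (by simp), eU, eW, p0_eq q X J b hb]
  · rw [if_pos rfl, eU, eW, p1_eq q X J b hb]

/-! ### Two roots -/

theorem bn_le (S i : ℕ) : bn S i ≤ 1 := by
  rw [bn_eq]
  cases S.testBit i <;> simp

/-- The array of a term with two roots. -/
theorem A22_ar (h : R.OK D B U K) (X J m : ℕ) (hm : m < 45) :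
    Ar R.W 10 (R.A22 X J m) fun b => (B.of - F22 B X J b m).toNat := by
  obtain ⟨hp1, hp2, hp3, hp4⟩ := p2L_ok m hm
  have b1 := bn_le X (mq m 0)
  have b2 := bn_le X (mq m 1)
  have b3 := bn_le X (mq m 2)
  have b4 := bn_le X (mq m 3)
  have b5 := bn_le X (mq m 4)
  have b6 := bn_le X (mq m 5)
  have b7 := bn_le J (nthG 0 q1L m)
  have b8 := bn_le J (nthG 0 q2L m)
  have h0 := h.t2 (bn X (mq m 0) + bn X (mq m 1)) (by omega)
    (2 * (bn X (mq m 4) + bn X (mq m 5)) + bn J (nthG 0 q2L m)) (by omega)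
    (2 * (bn X (mq m 2) + bn X (mq m 3)) + bn J (nthG 0 q1L m)) (by omega)
  have h1 := it_ar h.hW0 hp1 hp2 h0
  refine h1.congr fun b => ?_
  beta_reduce
  rw [hp3, hp4]
  unfold F22
  simp only [bn_eq]
  have e1 : lf 10 (nthG 0 exL (nthG 0 q1L m)) b = eb b (nthG 0 q1L m) := rfl
  have e2 : lf 10 (nthG 0 exL (nthG 0 q2L m)) b = eb b (nthG 0 q2L m) := rfl
  rw [e1, e2]
  congr 3 <;> ring

/-! ### Five-sets -/

theorem z5_eq (b : ℕ → Bool) (k : ℕ) (hk : k < 6) (z : ℕ → Bool)
    (hz : ∀ i < 4, z i = eb b (fs k i)) (i : ℕ) (hi : i < 5) : z5 z i = eb b (fs k i) := by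
  unfold z5
  split_ifs with h4
  · exact hz i h4
  · have : i = 4 := by omega
    rw [this, hz 0 (by omega), hz 1 (by omega), hz 2 (by omega), hz 3 (by omega)]
    unfold eb
    rw [fs_par k hk, lf_xor, lf_xor, lf_xor]

/-- The array of a five-set. -/
theorem A5_ar (h : R.OK D B U K) (J k : ℕ) (hk : k < 6) :
    Ar R.W 10 (R.A5 J k) fun b => R.u5 (hc J b k) (ec b k) := by
  obtain ⟨hp1, hp2, hp3⟩ := p5L_ok k hk
  have hj : ixG (fun i => bG J (fs k i)) 5 = idx 5 fun i => J.testBit (fs k i) := by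
    rw [ixG_eq]
    apply idx_congr
    intro i _
    rw [bG_eq]
  have h0 := h.f5 (ixG (fun i => bG J (fs k i)) 5) (by rw [hj]; exact idx_lt 5 _)
  have h1 := it_ar h.hW0 hp1 hp2 h0
  refine h1.congr fun b => ?_
  have hz : ∀ i < 5, z5 (fun r => lf 10 (syG (nthG [] p5L k) 4 r) b) i = eb b (fs k i) :=
    z5_eq b k hk _ fun i hi => by
      rw [hp3 i hi]
      rfl
  congr 1
  · unfold hc
    refine Finset.sum_congr rfl fun i hi => ?_
    have hi5 := Finset.mem_range.mp hi
    rw [hz i hi5, hj, testBit_idx, decide_eq_true hi5, Bool.true_and]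
  · unfold ec
    exact Finset.sum_congr rfl fun i hi => by rw [hz i (Finset.mem_range.mp hi)]

/-! ### Forms -/

theorem mkA_ar (h : R.OK D B U K) (l : List (ℕ × List (ℕ × ℕ × ℕ)))
    (hl : ∀ e ∈ l, okR e.2 1 = true ∧ ndG e.2 1 = 10 ∧ syG e.2 1 0 = e.1) :
    Ar R.W 10 (R.mkA (2 ^ K) l) fun b => mkV (2 ^ K) l b := by
  induction l with
  | nil => exact ar_zero 10
  | cons e l ih =>
    have e1 : R.mkA (2 ^ K) (e :: l) = R.mkA (2 ^ K) l ||| ruG R.W e.2 1 (2 ^ K <<< (R.W * 1)) := rfl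
    rw [e1]
    obtain ⟨h1, h2, h3⟩ := hl e List.mem_cons_self
    have h4 := ih fun e' he' => hl e' (List.mem_cons_of_mem _ he')
    have h5 : Ar R.W 1 (2 ^ K <<< (R.W * 1)) fun b => if b 0 = true then 2 ^ K else 0 :=
      ar_high h.hW0 (Ar.ofLt (Nat.pow_lt_pow_right (by norm_num) h.hK))
    have h6 := it_ar h.hW0 h1 h2 h5
    refine (h4.or h6 h.hW0).congr fun b => ?_
    have e2 : mkV (2 ^ K) (e :: l) b = mkV (2 ^ K) l b |||
        (if lf 10 e.1 b = true then 2 ^ K else 0) := rfl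
    beta_reduce
    rw [e2, h3]

end RD

end Pool.Agent.Lib.MP_afdd4d_co.K9.W6
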