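import Pool.Agent.Lib.MP_afdd4d_co.K9.W6Fam

/-!
# Families given by tables of numbers
-/

namespace Pool.Agent.Lib.MP_afdd4d_co.K9.W6

open Finset K8
open Pool.Agent.Lib.MP_afdd4d_co.K9.Star

/-! ### Checks of all numbers below a power of two -/

/-- Whether `f` holds for the numbers from `s * 2 ^ n` on, `2 ^ n` of them. -/
def alB (f : ℕ → Bool) (n : ℕ) : ℕ → Bool := @Nat.rec (fun _ => ℕ → Bool) (fun s => f s)
  (fun _ ih s => and (ih (Nat.mul 2 s)) (ih (Nat.add (Nat.mul 2 s) 1))) n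

theorem alB_spec (f : ℕ → Bool) : ∀ (n s : ℕ), alB f n s = true →
    ∀ i < 2 ^ n, f (s * 2 ^ n + i) = true
  | 0, s, h, i, hi => by
    have e : alB f 0 s = f s := rfl
    have hi0 : i = 0 := by simpa using hi
    rw [hi0, pow_zero, mul_one, add_zero, ← e]
    exact h
  | n + 1, s, h, i, hi => by
    have e : alB f (n + 1) s = (alB f n (2 * s) && alB f n (2 * s + 1)) := rfl
    rw [e, Bool.and_eq_true] at h
    rw [pow_succ] at hi ⊢
    by_cases h1 : i < 2 ^ n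
    · have h2 := alB_spec f n (2 * s) h.1 i h1
      have e2 : s * (2 ^ n * 2) + i = 2 * s * 2 ^ n + i := by ring
      rw [e2]
      exact h2
    · have h2 := alB_spec f n (2 * s + 1) h.2 (i - 2 ^ n) (by omega)
      have e2 : s * (2 ^ n * 2) + i = (2 * s + 1) * 2 ^ n + (i - 2 ^ n) := by
        have e3 : s * (2 ^ n * 2) = 2 * s * 2 ^ n := by ring
        have e4 : (2 * s + 1) * 2 ^ n = 2 * s * 2 ^ n + 2 ^ n := by ring
        omega
      rw [e2]
      exact h2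

theorem alB_zero {f : ℕ → Bool} {n : ℕ} (h : alB f n 0 = true) (i : ℕ) (hi : i < 2 ^ n) :
    f i = true := by
  have h1 := alB_spec f n 0 h i hi
  rwa [zero_mul, zero_add] at h1

/-! ### Lanes as values -/

/-- The lane of an array, for the kernel. -/
def lnG (W A i : ℕ) : ℕ := Nat.mod (Nat.shiftRight A (Nat.mul W i)) (Nat.pow 2 W)

theorem lnG_eq (W A i : ℕ) : lnG W A i = Ln W A i := by
  have e : lnG W A i = (A >>> (W * i)) % 2 ^ W := rfl
  rw [e, Nat.shiftRight_eq_div_pow]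
  rfl

/-- The value of a table. -/
def vT (F : Fm) (W x j : ℕ) (b : ℕ → Bool) : ℕ :=
  Ln W (nthG 0 F.T x) (idx F.k b + 2 ^ F.k * (j % 2 ^ F.nj))

/-- The check of a table: the lanes are at most `U` and each lane plus `ps x i` is `off + ng x i`. -/
def tbG (F : Fm) (W nx U off : ℕ) (ps ng : ℕ → ℕ → ℕ) : Bool :=
  alB (fun x => and (Nat.blt (nthG 0 F.T x) (Nat.pow 2 (Nat.mul W (Nat.pow 2 (Nat.add F.k F.nj)))))
    (alB (fun i => and (Nat.ble (lnG W (nthG 0 F.T x) i) U)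
      (Nat.beq (Nat.add (lnG W (nthG 0 F.T x) i) (ps x i)) (Nat.add off (ng x i))))
      (Nat.add F.k F.nj) 0)) nx 0

theorem nthG_big {l : List ℕ} {i : ℕ} (h : l.length ≤ i) : nthG 0 l i = 0 := by
  induction l generalizing i with
  | nil => cases i <;> rfl
  | cons a l ih =>
    cases i with
    | zero => simp at h
    | succ i =>
      have := ih (i := i) (by simpa using h)
      exact this

theorem Ln_zero (W i : ℕ) : Ln W 0 i = 0 := by
  unfold Ln
  simp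

section
variable {F : Fm} {W nx U off : ℕ} {ps ng : ℕ → ℕ → ℕ}

theorem tbG_spec (h : tbG F W nx U off ps ng = true) (x : ℕ) (hx : x < 2 ^ nx) :
    nthG 0 F.T x < 2 ^ (W * 2 ^ (F.k + F.nj)) ∧ ∀ i < 2 ^ (F.k + F.nj),
      Ln W (nthG 0 F.T x) i ≤ U ∧ Ln W (nthG 0 F.T x) i + ps x i = off + ng x i := by
  have h1 := alB_zero h x hx
  simp only [Bool.and_eq_true] at h1
  obtain ⟨h2, h3⟩ := h1
  rw [Nat.blt_eq] at h2
  refine ⟨h2, fun i hi => ?_⟩
  have h4 := alB_zero h3 i hi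
  simp only [Bool.and_eq_true] at h4
  rw [lnG_eq] at h4
  exact ⟨Nat.le_of_ble_eq_true h4.1, Nat.eq_of_beq_eq_true h4.2⟩

theorem vT_dep (x j : ℕ) (b b' : ℕ → Bool) (h : ∀ r < F.k, b r = b' r) :
    vT F W x j b = vT F W x j b' := by
  unfold vT
  rw [idx_congr F.k b b' h]

theorem tb_lt (j : ℕ) (b : ℕ → Bool) :
    idx F.k b + 2 ^ F.k * (j % 2 ^ F.nj) < 2 ^ (F.k + F.nj) := by
  have h1 := idx_lt F.k b
  have h2 := Nat.mod_lt j (Nat.two_pow_pos F.nj)
  calc idx F.k b + 2 ^ F.k * (j % 2 ^ F.nj) < 2 ^ F.k + 2 ^ F.k * (j % 2 ^ F.nj) := by omega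
    _ = 2 ^ F.k * (j % 2 ^ F.nj + 1) := by ring
    _ ≤ 2 ^ F.k * 2 ^ F.nj := Nat.mul_le_mul_left _ h2
    _ = 2 ^ (F.k + F.nj) := (pow_add _ _ _).symm

theorem vT_eq (h : tbG F W nx U off ps ng = true) (x : ℕ) (hx : x < 2 ^ nx) (j : ℕ)
    (hj : j < 2 ^ F.nj) (b : ℕ → Bool) :
    vT F W x j b + ps x (idx F.k b + 2 ^ F.k * j) = off + ng x (idx F.k b + 2 ^ F.k * j) := by
  have h1 := tb_lt (F := F) j b
  rw [Nat.mod_eq_of_lt hj] at h1
  have h2 := ((tbG_spec h x hx).2 _ h1).2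
  unfold vT
  rw [Nat.mod_eq_of_lt hj]
  exact h2

/-- A family from tables. -/
theorem ok_of_tab {N : ℕ} (h : tbG F W nx U off ps ng = true) (hT : F.T.length ≤ 2 ^ nx)
    (hp : ∀ p ∈ F.pl, (okR p.2 F.k' = true ∧ ndG p.2 F.k' = N) ∧ ∀ p' ∈ p.1,
      p'.xs.length = nx ∧ p'.js.length = F.nj ∧ okR p'.pr F.k = true ∧ ndG p'.pr F.k = F.k') :
    F.OK W N (vT F W) U nx where
  hT := fun x hx => by
    refine ⟨(tbG_spec h x hx).1, fun b => ?_⟩
    unfold vT
    have e1 : idx F.nj (fun r => b (F.k + r)) % 2 ^ F.nj = idx F.nj fun r => b (F.k + r) :=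
      Nat.mod_eq_of_lt (idx_lt _ _)
    rw [e1, idx_split]
  hv := fun x j b b' hb => vT_dep x j b b' hb
  hU := fun x j b => by
    by_cases hx : x < 2 ^ nx
    · exact ((tbG_spec h x hx).2 _ (tb_lt j b)).1
    · unfold vT
      rw [nthG_big (by omega), Ln_zero]
      exact Nat.zero_le _
  hp := hp

end

end Pool.Agent.Lib.MP_afdd4d_co.K9.W6
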